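import Pool.Agent.FCF.FlowBasic

/-!
# FCF / Fill: the fill-in lemma

`fill_in`: `C` is a set of points with positive times, disjoint from the maximal flow `Flow h A`, which satisfies the subflow condition at each of its points, and
whose closure adds only points of the flow. Then `C` is empty.
PROOF: `(Flow h A) ∪ C` is closed, times `≥ 0`, initial slice in `A`. At a point of the flow: `SubAt` of the flow and `SubAt.mono_near`. At a point of `C` (not in the closed
set `Flow h A`): `SubAt.mono_near`. So it is a `GSub`, contained in `Flow h A`.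
`fill_in_shift`: the same relative to the time shifted flow `{(x,t) : (x, t+g) ∈ Flow h A}` (apply `fill_in` to the shifted `C`).
`fill_in_sub`: typical use: `C` is the part of `S \ Flow` which is open in `S \ Flow` (for earlier times), `S` a subflow in `U`.
-/

set_option autoImplicit false

namespace Pool.Agent.FCF

open Pool.Agent.VSC (V J LowJet)
open Set Metric Filter Topology

theorem fill_in {M L : ℝ} {h : V → ℝ} (hm : Med M L h) {A : Set V} (hA : IsClosed A)
    {C : Set (V × ℝ)} (hpos : ∀ z ∈ C, 0 < z.2) (hdis : ∀ z ∈ C, z ∉ Flow h A)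
    (hcl : closure C ⊆ C ∪ Flow h A) (hsub : ∀ x t, (x, t) ∈ C → SubAt h C x t) : C = ∅ := by
  have hG := flow_gsub hm hA
  have hcl' : IsClosed (Flow h A ∪ C) := by
    refine isClosed_of_closure_subset ?_
    rw [closure_union, (isClosed_flow h A).closure_eq]
    rintro z (hz | hz)
    · exact Or.inl hz
    · rcases hcl hz with h1 | h1
      · exact Or.inr h1
      · exact Or.inl h1
  have hS : GSub h A (Flow h A ∪ C) := by
    refine ⟨fun x t hx => ?_, SubIn.of_closed hcl' fun x t _ ht hx => ?_, fun x hx => ?_⟩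
    · rcases hx with hx | hx
      · exact flow_nonneg hx
      · exact (hpos _ hx).le
    · rcases hx with hx | hx
      · exact (hG.sub.sub x t (mem_univ x) ht hx).mono_near
          ⟨1, one_pos, fun _ _ _ _ _ h => Or.inl h⟩
      · exact (hsub x t hx).mono_near ⟨1, one_pos, fun _ _ _ _ _ h => Or.inr h⟩
    · rcases hx with hx | hx
      · exact hG.init x hx
      · exact absurd (hpos _ hx) (lt_irrefl 0)
  refine eq_empty_of_forall_notMem fun z hz => ?_
  exact hdis z hz (sub_flow hS (Or.inr hz))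

theorem fill_in_sub {M L : ℝ} {h : V → ℝ} (hm : Med M L h) {A : Set V} (hA : IsClosed A) (g : ℝ)
    {h' : V → ℝ} {U : Set V} {t0 : ℝ} {S : Set (V × ℝ)} (hS : SubIn h' U t0 S)
    (hle : ∀ x ∈ U, h' x ≤ h x) {C : Set (V × ℝ)}
    (hC : ∀ x t, (x, t) ∈ C → (x, t) ∈ S ∧ x ∈ U ∧ t0 < t ∧ 0 < t + g ∧ (x, t + g) ∉ Flow h A)
    (hcl : ∀ x t, (x, t) ∈ closure C → (x, t) ∈ C ∨ (x, t + g) ∈ Flow h A)
    (hop : ∀ x t, (x, t) ∈ C → ∃ r : ℝ, 0 < r ∧ ∀ (y : V) (s : ℝ), ‖y - x‖ < r → t - r < s →
      s ≤ t → (y, s) ∈ S → (y, s) ∈ C) : C = ∅ := by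
  have key : ∀ (x : V) (s : ℝ), (x, s) ∈ C → SubAt h C x s := by
    intro x s hx
    obtain ⟨h1, h2, h3, _, _⟩ := hC x s hx
    refine SubAt.mono_force ?_ (hle x h2)
    obtain ⟨r, hr, h4⟩ := hop x s hx
    exact (hS.sub x s h2 h3 h1).mono_near ⟨r, hr, fun y u a b c d => h4 y u a b c d⟩
  have h0 : {z : V × ℝ | (z.1, z.2 + -g) ∈ C} = ∅ := by
    refine fill_in hm hA (fun z hz => ?_) (fun z hz hz' => ?_) (fun z hz => ?_)
      (fun x t hx => ?_)
    · have h1 := (hC z.1 (z.2 + -g) hz).2.2.2.1
      linarith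
    · have h1 := (hC z.1 (z.2 + -g) hz).2.2.2.2
      rw [neg_add_cancel_right] at h1
      exact h1 hz'
    · have h1 : (z.1, z.2 + -g) ∈ closure C :=
        map_mem_closure (f := fun z : V × ℝ => (z.1, z.2 + -g)) (by fun_prop) hz fun w hw => hw
      rcases hcl _ _ h1 with h2 | h2
      · exact Or.inl h2
      · rw [neg_add_cancel_right] at h2
        exact Or.inr h2
    · exact (key x (t + -g) hx).shift_time (-g)
  refine eq_empty_of_forall_notMem fun z hz => ?_
  have h1 : (z.1, z.2 + g) ∈ {z : V × ℝ | (z.1, z.2 + -g) ∈ C} := by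
    show (z.1, z.2 + g + -g) ∈ C
    rw [add_neg_cancel_right]
    exact hz
  rw [h0] at h1
  exact h1

end Pool.Agent.FCF
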