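import Pool.Agent.FCF.FlowBasic

/-!
# FCF / Inner: shrinking balls are subflows

`ball_gsub`: `S = {(y,s) : 0 ≤ s, s < s1, ‖y-x‖^2 ≤ r^2 - (2+2(M+1)r) s}` with `s1 ≤ hM M r` closed version (`s ≤ s1 < hM M r`): at an interior point `subAt_of_interior`; at a boundary
point `‖y-x‖ = ρ(s) > 0`, jet `(a,p,X)`, `p ≠ 0`: with `n = (y-x)/ρ`: testing with the points `y - ε w`, `w.n > 0`, gives `p = -‖p‖ n`; testing with the points of the circle
`x + ρ (cos θ n + sin θ J n)` gives `X(Jn,Jn) ≥ -‖p‖/ρ`; testing with `x + ρ(s') n`, `s' < s` gives `a ≤ ‖p‖ ρ'(s)`, `ρ ρ' = -(1+(M+1)r) ≤ -(1 + (M+1) ρ)`.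
So `a ≤ ‖p‖ρ' ≤ -‖p‖/ρ - (M+1)‖p‖ ≤ X(Jn,Jn) + h ‖p‖`.
`E_ball_sub` (outer bound): `hole`/`speed` for the flow from the ball.
-/

set_option autoImplicit false

namespace Pool.Agent.FCF

open Pool.Agent.VSC (V J LowJet)
open Set Metric Filter Topology

/-- Second order test of a lower jet along a parabola. -/
private theorem inner_test {S : Set (V × ℝ)} {y0 : V} {t0 a : ℝ} {p : V}
    {X : V →L[ℝ] V →L[ℝ] ℝ} (hj : LowJet S y0 t0 a p X) {v w : V} {mu : ℝ} (hmu : 0 ≤ mu)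
    (hpv : inner ℝ p v = 0)
    (hS : ∃ δ : ℝ, 0 < δ ∧ ∀ θ : ℝ, 0 < θ → θ < δ →
      (y0 + (θ • v + θ ^ 2 • w), t0 - mu * θ ^ 2) ∈ S) :
    a * mu ≤ inner ℝ p w + (1 / 2) * X v v := by
  obtain ⟨δ, hδ, hS⟩ := hS
  refine le_of_forall_pos_le_add fun e he => ?_
  set eps : ℝ := e / (mu + ‖v‖ ^ 2 + 1) with hepsdef
  have hden : 0 < mu + ‖v‖ ^ 2 + 1 := by positivity
  have heps : 0 < eps := by positivity
  obtain ⟨r, hr, h1⟩ := hj eps heps
  have hcont : Continuous (fun θ : ℝ => -(a * mu) + inner ℝ p w + (1 / 2) * X (v + θ • w) (v + θ • w)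
      + eps * (mu + ‖v + θ • w‖ ^ 2)) := by fun_prop
  have hlim : Tendsto (fun θ : ℝ => -(a * mu) + inner ℝ p w + (1 / 2) * X (v + θ • w) (v + θ • w)
      + eps * (mu + ‖v + θ • w‖ ^ 2)) (𝓝[>] 0) (𝓝 (-(a * mu) + inner ℝ p w + (1 / 2) * X v v
      + eps * (mu + ‖v‖ ^ 2))) := by
    have h2 := (hcont.tendsto 0).mono_left (nhdsWithin_le_nhds (s := Ioi (0 : ℝ)))
    simpa using h2
  have hc1 : Continuous (fun θ : ℝ => ‖θ • v + θ ^ 2 • w‖) := by fun_prop
  have hc2 : Continuous (fun θ : ℝ => mu * θ ^ 2) := by fun_prop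
  have he1 : ∀ᶠ θ in 𝓝[>] (0 : ℝ), ‖θ • v + θ ^ 2 • w‖ < r := by
    have h2 := (hc1.tendsto 0).mono_left (nhdsWithin_le_nhds (s := Ioi (0 : ℝ)))
    refine h2.eventually (gt_mem_nhds ?_)
    simpa using hr
  have he2 : ∀ᶠ θ in 𝓝[>] (0 : ℝ), mu * θ ^ 2 < r := by
    have h2 := (hc2.tendsto 0).mono_left (nhdsWithin_le_nhds (s := Ioi (0 : ℝ)))
    refine h2.eventually (gt_mem_nhds ?_)
    simpa using hr
  have he3 : ∀ᶠ θ in 𝓝[>] (0 : ℝ), θ < δ :=
    (tendsto_id.mono_left (nhdsWithin_le_nhds (s := Ioi (0 : ℝ)))).eventually (gt_mem_nhds hδ)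
  have hnn : ∀ᶠ θ in 𝓝[>] (0 : ℝ), 0 ≤ -(a * mu) + inner ℝ p w +
      (1 / 2) * X (v + θ • w) (v + θ • w) + eps * (mu + ‖v + θ • w‖ ^ 2) := by
    filter_upwards [he1, he2, he3, self_mem_nhdsWithin] with θ h2 h3 h4 h5
    have hθ : 0 < θ := h5
    have h6 := h1 (y0 + (θ • v + θ ^ 2 • w)) (t0 - mu * θ ^ 2) (hS θ hθ h4)
      (by rw [add_sub_cancel_left]; exact h2) (by linarith)
      (by have : 0 ≤ mu * θ ^ 2 := by positivity
          linarith)
    rw [add_sub_cancel_left] at h6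
    have h7 : θ • v + θ ^ 2 • w = θ • (v + θ • w) := by
      rw [smul_add, smul_smul, sq]
    have h8 : inner ℝ p (θ • v + θ ^ 2 • w) = θ ^ 2 * inner ℝ p w := by
      rw [inner_add_right, real_inner_smul_right, real_inner_smul_right, hpv]
      ring
    have h9 : t0 - mu * θ ^ 2 - t0 = -(mu * θ ^ 2) := by ring
    have h10 : |-(mu * θ ^ 2)| = mu * θ ^ 2 := by
      rw [abs_neg, abs_of_nonneg (by positivity)]
    rw [h8, h9, h10, h7, norm_smul, mul_pow, Real.norm_eq_abs, sq_abs] at h6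
    have h11 : X (θ • (v + θ • w)) (θ • (v + θ • w)) = θ ^ 2 * X (v + θ • w) (v + θ • w) := by
      rw [map_smul, map_smul, smul_apply, smul_eq_mul, smul_eq_mul]
      ring
    rw [h11] at h6
    have h12 : 0 ≤ θ ^ 2 * (-(a * mu) + inner ℝ p w +
      (1 / 2) * X (v + θ • w) (v + θ • w) + eps * (mu + ‖v + θ • w‖ ^ 2)) := by
      calc (0 : ℝ) ≤ _ := h6
        _ = _ := by ring
    have hθ2 : 0 < θ ^ 2 := by positivity
    exact nonneg_of_mul_nonneg_right h12 hθ2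
  have h13 := ge_of_tendsto hlim hnn
  have h14 : eps * (mu + ‖v‖ ^ 2) ≤ e := by
    rw [hepsdef, div_mul_eq_mul_div, div_le_iff₀ hden]
    nlinarith
  linarith

private theorem inner_plane {p d : V} (hd : d ≠ 0) (h : inner ℝ p (J d) = 0) :
    p = (inner ℝ p d / ‖d‖ ^ 2) • d := by
  have hn : ‖d‖ ^ 2 = d 0 ^ 2 + d 1 ^ 2 := by
    rw [EuclideanSpace.norm_sq_eq, Fin.sum_univ_two]
    simp only [Real.norm_eq_abs, sq_abs]
  have hpos : 0 < ‖d‖ ^ 2 := by
    have := norm_pos_iff.2 hd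
    positivity
  have hi : inner ℝ p d = p 0 * d 0 + p 1 * d 1 := by
    rw [PiLp.inner_apply, Fin.sum_univ_two]
    simp only [RCLike.inner_apply, conj_trivial]
    ring
  have hJ : inner ℝ p (J d) = -(p 0 * d 1) + p 1 * d 0 := by
    rw [PiLp.inner_apply, Fin.sum_univ_two, Pool.Agent.VSC.J_zero_apply,
      Pool.Agent.VSC.J_one_apply]
    simp only [RCLike.inner_apply, conj_trivial]
    ring
  rw [hJ] at h
  rw [hi]
  rw [hn] at hpos ⊢
  ext i
  fin_cases i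
  · show p 0 = (p 0 * d 0 + p 1 * d 1) / (d 0 ^ 2 + d 1 ^ 2) * d 0
    field_simp
    linear_combination (-(d 1)) * h
  · show p 1 = (p 0 * d 0 + p 1 * d 1) / (d 0 ^ 2 + d 1 ^ 2) * d 1
    field_simp
    linear_combination (d 0) * h

/-- First order test: the gradient at a boundary point of a closed ball is radial. -/
private theorem inner_radial {S : Set (V × ℝ)} {y0 x : V} {t0 a : ℝ} {p : V}
    {X : V →L[ℝ] V →L[ℝ] ℝ} (hj : LowJet S y0 t0 a p X) (hne : y0 - x ≠ 0)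
    (hS : ∀ y : V, ‖y - x‖ ^ 2 ≤ ‖y0 - x‖ ^ 2 → (y, t0) ∈ S) (hp : p ≠ 0) :
    ∃ c : ℝ, c < 0 ∧ p = c • (y0 - x) := by
  set d : V := y0 - x with hddef
  have hq : 0 < ‖d‖ ^ 2 := by
    have := norm_pos_iff.2 hne
    positivity
  have hdd : inner ℝ d d = ‖d‖ ^ 2 := real_inner_self_eq_norm_sq d
  have hfirst : ∀ w : V, inner ℝ d w < 0 → 0 ≤ inner ℝ p w := by
    intro w hw
    have hcont : Continuous (fun θ : ℝ => 2 * inner ℝ d w + θ ^ 2 * ‖w‖ ^ 2) := by
      fun_prop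
    have hev : ∀ᶠ θ in 𝓝 (0 : ℝ), 2 * inner ℝ d w + θ ^ 2 * ‖w‖ ^ 2 < 0 := by
      refine (hcont.tendsto 0).eventually (gt_mem_nhds ?_)
      simp only [ne_eq, OfNat.ofNat_ne_zero, not_false_eq_true, zero_pow, zero_mul,
        add_zero]
      linarith
    obtain ⟨δ, hδ, hδ2⟩ := Metric.eventually_nhds_iff.1 hev
    have h1 := inner_test (v := 0) (w := w) (mu := 0) hj le_rfl (by simp)
      ⟨δ, hδ, fun θ hθ0 hθ => by
        have h2 := hδ2 (y := θ) (by
          rw [dist_eq_norm, sub_zero, Real.norm_eq_abs, abs_of_pos hθ0]; exact hθ)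
        rw [zero_mul, sub_zero]
        apply hS
        have h3 : y0 + (θ • (0 : V) + θ ^ 2 • w) - x = d + θ ^ 2 • w := by
          rw [hddef, smul_zero, zero_add]
          abel
        rw [h3, norm_add_sq_real, real_inner_smul_right, norm_smul, Real.norm_eq_abs,
          mul_pow, sq_abs]
        have h4 : 0 < θ ^ 2 := by positivity
        nlinarith [mul_pos h4 (neg_pos.2 h2)]⟩
    simpa using h1
  have hpd : inner ℝ p d ≤ 0 := by
    have h1 := hfirst (-d) (by rw [inner_neg_right, hdd]; linarith)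
    rw [inner_neg_right] at h1
    linarith
  have hdJ : inner ℝ d (J d) = 0 := by
    rw [real_inner_comm]
    exact Pool.Agent.VSC.inner_J d
  have hk1 : 0 < 1 - inner ℝ p d := by linarith
  have hpJ : inner ℝ p (J d) = 0 := by
    apply le_antisymm
    · refine le_of_forall_pos_le_add fun e he => ?_
      obtain ⟨k, hk, h3⟩ : ∃ k : ℝ, 0 < k ∧ k * (1 - inner ℝ p d) = e :=
        ⟨e / (1 - inner ℝ p d), by positivity, by field_simp⟩
      have h1 := hfirst (-(J d) - k • d) (by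
        rw [inner_sub_right, inner_neg_right, hdJ, real_inner_smul_right, hdd]
        have := mul_pos hk hq
        linarith)
      rw [inner_sub_right, inner_neg_right, real_inner_smul_right] at h1
      linarith
    · refine le_of_forall_pos_le_add fun e he => ?_
      obtain ⟨k, hk, h3⟩ : ∃ k : ℝ, 0 < k ∧ k * (1 - inner ℝ p d) = e :=
        ⟨e / (1 - inner ℝ p d), by positivity, by field_simp⟩
      have h1 := hfirst (J d - k • d) (by
        rw [inner_sub_right, hdJ, real_inner_smul_right, hdd]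
        have := mul_pos hk hq
        linarith)
      rw [inner_sub_right, real_inner_smul_right] at h1
      linarith
  have hpp := inner_plane hne hpJ
  refine ⟨inner ℝ p d / ‖d‖ ^ 2, ?_, hpp⟩
  have hc0 : inner ℝ p d / ‖d‖ ^ 2 ≤ 0 := div_nonpos_of_nonpos_of_nonneg hpd (by positivity)
  refine lt_of_le_of_ne hc0 fun h0 => hp ?_
  rw [hpp, h0, zero_smul]

/-- The jet condition at a boundary point of the shrinking ball. -/
private theorem inner_bdry {M L : ℝ} {h : V → ℝ} (hm : Med M L h) {x : V} {r : ℝ}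
    (hr : 0 < r) {s : ℝ} {S : Set (V × ℝ)}
    (hSdef : ∀ y t, (y, t) ∈ S ↔ 0 ≤ t ∧ t ≤ s ∧ ‖y - x‖ ^ 2 ≤ r ^ 2 - (2 + 2 * (M + 1) * r) * t)
    {y0 : V} {t0 : ℝ} (ht0 : 0 < t0) (hts : t0 ≤ s) (hq : 0 < ‖y0 - x‖ ^ 2)
    (heq : ‖y0 - x‖ ^ 2 = r ^ 2 - (2 + 2 * (M + 1) * r) * t0) {a : ℝ} {p : V}
    {X : V →L[ℝ] V →L[ℝ] ℝ} (hj : LowJet S y0 t0 a p X) (hp : p ≠ 0) {xi : V} (hxi1 : ‖xi‖ = 1)
    (hxi2 : inner ℝ xi p = 0) : a ≤ X xi xi + h y0 * ‖p‖ := by
  have hM1 := hm.one_le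
  have hM0 : 0 < M + 1 := by linarith
  have hCpos : 0 < 2 + 2 * (M + 1) * r := by positivity
  have hd : y0 - x ≠ 0 := by
    intro h0
    rw [h0] at hq
    simp at hq
  obtain ⟨c, hcneg, hpp⟩ := inner_radial hj hd (fun y hy => (hSdef y t0).2
    ⟨ht0.le, hts, by rw [← heq]; exact hy⟩) hp
  have hqr : ‖y0 - x‖ ^ 2 ≤ r ^ 2 := by
    rw [heq]
    have := mul_pos hCpos ht0
    linarith
  have hdr : ‖y0 - x‖ ≤ r := (abs_le_of_sq_le_sq' hqr hr.le).2
  have hdd : inner ℝ (y0 - x) (y0 - x) = ‖y0 - x‖ ^ 2 := real_inner_self_eq_norm_sq _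
  have hxid : inner ℝ xi (y0 - x) = 0 := by
    rw [hpp, real_inner_smul_right] at hxi2
    exact (mul_eq_zero.1 hxi2).resolve_left hcneg.ne
  have hnp : ‖p‖ = -c * ‖y0 - x‖ := by
    rw [hpp, norm_smul, Real.norm_eq_abs, abs_of_neg hcneg]
  obtain ⟨ka, hkq⟩ : ∃ ka : ℝ, ka * ‖y0 - x‖ ^ 2 = (M + 1 / 2) * r :=
    ⟨(M + 1 / 2) * r / ‖y0 - x‖ ^ 2, by field_simp⟩
  have hpka : inner ℝ p (ka • (y0 - x)) = c * ((M + 1 / 2) * r) := by
    rw [real_inner_smul_right, hpp, real_inner_smul_left, hdd, ← hkq]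
    ring
  have hsq2 : (√2 : ℝ) ^ 2 = 2 := Real.sq_sqrt (by norm_num)
  have hpv : inner ℝ p ((√2 : ℝ) • xi) = 0 := by
    rw [real_inner_smul_right, real_inner_comm, hxi2, mul_zero]
  have hcont : Continuous (fun θ : ℝ => ka ^ 2 * ‖y0 - x‖ ^ 2 * θ ^ 2) := by fun_prop
  have hev : ∀ᶠ θ in 𝓝 (0 : ℝ), ka ^ 2 * ‖y0 - x‖ ^ 2 * θ ^ 2 < r := by
    refine (hcont.tendsto 0).eventually (gt_mem_nhds ?_)
    simpa using hr
  have hcont2 : Continuous (fun θ : ℝ => 1 * θ ^ 2) := by fun_prop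
  have hev2 : ∀ᶠ θ in 𝓝 (0 : ℝ), 1 * θ ^ 2 < t0 := by
    refine (hcont2.tendsto 0).eventually (gt_mem_nhds ?_)
    simpa using ht0
  obtain ⟨δ, hδ, hδ2⟩ := Metric.eventually_nhds_iff.1 (hev.and hev2)
  have h1 := inner_test (v := (√2 : ℝ) • xi) (w := ka • (y0 - x)) (mu := 1) hj zero_le_one hpv
    ⟨δ, hδ, fun θ hθ0 hθ => by
      obtain ⟨h2, h3⟩ := hδ2 (y := θ) (by
        rw [dist_eq_norm, sub_zero, Real.norm_eq_abs, abs_of_pos hθ0]; exact hθ)
      have h4 : 0 < θ ^ 2 := by positivity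
      refine (hSdef _ _).2 ⟨by linarith, by linarith, ?_⟩
      have h5 : y0 + (θ • ((√2 : ℝ) • xi) + θ ^ 2 • (ka • (y0 - x))) - x =
          (1 + θ ^ 2 * ka) • (y0 - x) + (θ * √2) • xi := by
        rw [add_smul, one_smul, smul_smul, smul_smul]
        abel
      have h6 : ‖(1 + θ ^ 2 * ka) • (y0 - x) + (θ * √2) • xi‖ ^ 2 =
          (1 + θ ^ 2 * ka) ^ 2 * ‖y0 - x‖ ^ 2 + 2 * θ ^ 2 := by
        rw [norm_add_sq_real, real_inner_smul_left, real_inner_smul_right,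
          real_inner_comm, hxid, norm_smul, norm_smul, hxi1, Real.norm_eq_abs,
          Real.norm_eq_abs, mul_pow, mul_pow, sq_abs, sq_abs, mul_pow, hsq2]
        ring
      rw [h5, h6]
      have h7 : (1 + θ ^ 2 * ka) ^ 2 * ‖y0 - x‖ ^ 2 + 2 * θ ^ 2 =
          ‖y0 - x‖ ^ 2 + θ ^ 2 * (2 * (ka * ‖y0 - x‖ ^ 2) + ka ^ 2 * ‖y0 - x‖ ^ 2 * θ ^ 2 + 2) := by
        ring
      rw [h7, hkq]
      have h8 : 2 * ((M + 1 / 2) * r) + ka ^ 2 * ‖y0 - x‖ ^ 2 * θ ^ 2 + 2 ≤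
          2 + 2 * (M + 1) * r := by linarith
      have h9 := mul_le_mul_of_nonneg_left h8 h4.le
      rw [heq] at h9 ⊢
      linarith⟩
  rw [hpka, map_smul, map_smul, smul_apply, smul_eq_mul, smul_eq_mul, mul_one] at h1
  have h2 : (1 / 2 : ℝ) * (√2 * (√2 * X xi xi)) = X xi xi := by
    rw [← mul_assoc (√2 : ℝ), ← sq, hsq2]
    ring
  rw [h2] at h1
  have h3 : -M ≤ h y0 := (abs_le.1 (hm.bd y0)).1
  have h4 : -M * ‖p‖ ≤ h y0 * ‖p‖ := mul_le_mul_of_nonneg_right h3 (norm_nonneg p)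
  have h5 : c * ((M + 1 / 2) * r) ≤ -M * ‖p‖ := by
    rw [hnp]
    have h6 : M * ‖y0 - x‖ ≤ (M + 1 / 2) * r := by
      have := mul_le_mul_of_nonneg_left hdr (show (0 : ℝ) ≤ M by linarith)
      linarith
    have h7 := mul_le_mul_of_nonpos_left h6 hcneg.le
    linarith
  linarith

theorem inner_ball {M L : ℝ} {h : V → ℝ} (hm : Med M L h) {A : Set V} {x : V} {r : ℝ}
    (hr : 0 < r) (hA : closedBall x r ⊆ A) {s : ℝ} (hs0 : 0 ≤ s) (hs : s < hM M r) {y : V}
    (hy : ‖y - x‖ ^ 2 ≤ r ^ 2 - (2 + 2 * (M + 1) * r) * s) : y ∈ E h A s := by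
  have hM1 := hm.one_le
  have hM0 : 0 < M + 1 := by linarith
  have hCpos : 0 < 2 + 2 * (M + 1) * r := by positivity
  have hCs : (2 + 2 * (M + 1) * r) * s < r ^ 2 := by
    unfold hM at hs
    rw [lt_div_iff₀ (by positivity)] at hs
    linarith
  set S : Set (V × ℝ) := {z | 0 ≤ z.2 ∧ z.2 ≤ s ∧
    ‖z.1 - x‖ ^ 2 ≤ r ^ 2 - (2 + 2 * (M + 1) * r) * z.2} with hSdef
  have hmem : ∀ y t, (y, t) ∈ S ↔ 0 ≤ t ∧ t ≤ s ∧
      ‖y - x‖ ^ 2 ≤ r ^ 2 - (2 + 2 * (M + 1) * r) * t := fun y t => Iff.rfl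
  have hSc : IsClosed S := by
    refine IsClosed.inter (isClosed_le continuous_const continuous_snd)
      (IsClosed.inter (isClosed_le continuous_snd continuous_const) ?_)
    exact isClosed_le (f := fun z : V × ℝ => ‖z.1 - x‖ ^ 2)
      (g := fun z : V × ℝ => r ^ 2 - (2 + 2 * (M + 1) * r) * z.2) (by fun_prop) (by fun_prop)
  have hG : GSub h A S := by
    refine ⟨fun y t hz => hz.1, SubIn.of_closed hSc ?_, ?_⟩
    · intro y0 t0 _ ht0 hz
      obtain ⟨-, hts, hyt⟩ := (hmem y0 t0).1 hz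
      rcases hyt.lt_or_eq with hlt | heq
      · apply subAt_of_interior
        have hcont : ContinuousAt (fun w : V => ‖w - x‖ ^ 2) y0 := by fun_prop
        have hev : ∀ᶠ w in 𝓝 y0, ‖w - x‖ ^ 2 < r ^ 2 - (2 + 2 * (M + 1) * r) * t0 :=
          hcont.eventually (gt_mem_nhds hlt)
        obtain ⟨δ, hδ, hδ2⟩ := Metric.eventually_nhds_iff.1 hev
        refine ⟨min δ t0, lt_min hδ ht0, fun z t hz h1 h2 => (hmem z t).2 ⟨?_, ?_, ?_⟩⟩
        · have := min_le_right δ t0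
          linarith
        · linarith
        · have h3 := hδ2 (y := z) (by rw [dist_eq_norm]; exact lt_of_lt_of_le hz (min_le_left _ _))
          have h4 := mul_le_mul_of_nonneg_left h2 hCpos.le
          linarith
      · have hq : 0 < ‖y0 - x‖ ^ 2 := by
          rw [heq]
          have : (2 + 2 * (M + 1) * r) * t0 ≤ (2 + 2 * (M + 1) * r) * s :=
            mul_le_mul_of_nonneg_left hts hCpos.le
          linarith
        constructor
        · intro a p X hj hp xi hxi1 hxi2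
          exact inner_bdry hm hr hmem ht0 hts hq heq hj hp hxi1 hxi2
        · intro r' hr'
          have hmin : 0 < min (r' / 2) (t0 / 2) := by positivity
          refine ⟨y0, t0 - min (r' / 2) (t0 / 2), (hmem _ _).2 ⟨?_, ?_, ?_⟩, ?_, ?_, ?_⟩
          · have := min_le_right (r' / 2) (t0 / 2)
            linarith
          · linarith
          · have := mul_pos hCpos hmin
            linarith
          · rw [sub_self, norm_zero]
            exact hr'
          · have := min_le_left (r' / 2) (t0 / 2)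
            linarith
          · linarith
    · intro z hz
      obtain ⟨-, -, h1⟩ := (hmem z 0).1 hz
      rw [mul_zero, sub_zero] at h1
      exact hA (mem_closedBall_iff_norm.2 (abs_le_of_sq_le_sq' h1 hr.le).2)
  exact sub_flow hG ((hmem y s).2 ⟨hs0, le_rfl, hy⟩)

theorem inner_center {M L : ℝ} {h : V → ℝ} (hm : Med M L h) {A : Set V} {x : V} {r : ℝ}
    (hr : 0 < r) (hA : closedBall x r ⊆ A) {s : ℝ} (hs0 : 0 ≤ s) (hs : s < hM M r) :
    x ∈ E h A s := by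
  refine inner_ball hm hr hA hs0 hs ?_
  have hM1 := hm.one_le
  unfold hM at hs
  have hM0 : 0 < M + 1 := by linarith
  rw [lt_div_iff₀ (by positivity)] at hs
  rw [sub_self, norm_zero]
  nlinarith

theorem inner_large {M L : ℝ} {h : V → ℝ} (hm : Med M L h) {A : Set V} {x : V} {r : ℝ}
    (hr : 1 ≤ r) (hA : closedBall x r ⊆ A) {s : ℝ} (hs0 : 0 ≤ s)
    (hs : s ≤ (r - 1) / (2 * M + 4)) : x ∈ E h A s :=
  inner_center hm (by linarith) hA hs0 (lt_of_le_of_lt hs (hM_ge hm.one_le hr))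

/-- Half planes recede at most with speed `2M+4`. -/
theorem HP_sub_E {M L : ℝ} {h : V → ℝ} (hm : Med M L h) {e : V} (he : ‖e‖ = 1) (a : ℝ) {s : ℝ}
    (hs0 : 0 ≤ s) : HP e (a - (2 * M + 4) * s - 1) ⊆ E h (HP e a) s := by
  intro x hx
  have hM1 := hm.one_le
  have hx' : inner ℝ x e ≤ a - (2 * M + 4) * s - 1 := hx
  have h1 : 0 ≤ (2 * M + 4) * s := by
    have : 0 < 2 * M + 4 := by linarith
    positivity
  refine inner_large (r := (2 * M + 4) * s + 1) hm (by linarith) ?_ hs0 ?_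
  · intro y hy
    have h2 : ‖y - x‖ ≤ (2 * M + 4) * s + 1 := mem_closedBall_iff_norm.1 hy
    show inner ℝ y e ≤ a
    have h3 : inner ℝ (y - x) e ≤ ‖y - x‖ * ‖e‖ := real_inner_le_norm _ _
    rw [inner_sub_left, he, mul_one] at h3
    linarith
  · rw [add_sub_cancel_right, mul_div_cancel_left₀]
    linarith

/-- Finite speed for the maximal flow. -/
theorem E_speed {M L : ℝ} {h : V → ℝ} (hm : Med M L h) {A : Set V} (hA : IsClosed A) {s : ℝ}
    (hs0 : 0 ≤ s) {x : V} (hx : x ∈ E h A s) : ∃ y ∈ A, ‖y - x‖ ≤ (2 * M + 4) * s + 1 := by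
  have hM1 := hm.one_le
  have hG := flow_gsub hm hA
  have h1 : 0 ≤ (2 * M + 4) * s := by
    have : 0 < 2 * M + 4 := by linarith
    positivity
  obtain ⟨y, hy, hy2⟩ := speed (U := univ) (t0 := 0) (S := Flow h A) (x := x)
    (r := (2 * M + 4) * s + 1) (s := s) hm hG.sub (by linarith) (subset_univ _) hs0
    (by rw [add_sub_cancel_right, mul_div_cancel_left₀]; linarith)
    (by rw [zero_add]; exact hx)
  exact ⟨y, hG.init y hy2, mem_closedBall_iff_norm.1 hy⟩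

theorem E_HP_sub {M L : ℝ} {h : V → ℝ} (hm : Med M L h) {e : V} (he : ‖e‖ = 1) (a : ℝ) {s : ℝ}
    (hs0 : 0 ≤ s) : E h (HP e a) s ⊆ HP e (a + (2 * M + 4) * s + 1) := by
  intro x hx
  have hcl : IsClosed (HP e a) := isClosed_le (by fun_prop) continuous_const
  obtain ⟨y, hy, h1⟩ := E_speed hm hcl hs0 hx
  have h2 : inner ℝ y e ≤ a := hy
  show inner ℝ x e ≤ a + (2 * M + 4) * s + 1
  have h3 : inner ℝ (x - y) e ≤ ‖x - y‖ * ‖e‖ := real_inner_le_norm _ _
  rw [inner_sub_left, he, mul_one, norm_sub_rev] at h3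
  linarith

theorem E_ball_sub {M L : ℝ} {h : V → ℝ} (hm : Med M L h) {z : V} {r : ℝ} (hr : 0 ≤ r) {s : ℝ}
    (hs0 : 0 ≤ s) : E h (closedBall z r) s ⊆ closedBall z (r + (2 * M + 4) * s + 1) := by
  have _ := hr
  intro x hx
  obtain ⟨y, hy, h1⟩ := E_speed hm isClosed_closedBall hs0 hx
  have h2 : ‖y - z‖ ≤ r := mem_closedBall_iff_norm.1 hy
  rw [mem_closedBall_iff_norm]
  have h3 : x - z = -(y - x) + (y - z) := by abel
  rw [h3]
  refine (norm_add_le _ _).trans ?_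
  rw [norm_neg]
  linarith

/-- Locality: forcings which are ordered on the region reached. -/
theorem E_mono_force_local {M L : ℝ} {h h' : V → ℝ} (hm : Med M L h) {z : V} {r : ℝ}
    (hr : 0 ≤ r) {s : ℝ} (hs0 : 0 ≤ s)
    (hle : ∀ x, ‖x - z‖ ≤ r + (2 * M + 4) * s + 1 → h x ≤ h' x) :
    E h (closedBall z r) s ⊆ E h' (closedBall z r) s := by
  intro x hx
  have hM1 := hm.one_le
  have hG := flow_gsub hm (isClosed_closedBall (x := z) (ε := r))
  have hcut := hG.sub.cut s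
  have hG' : GSub h' (closedBall z r) (Flow h (closedBall z r) ∩ {w | w.2 ≤ s}) := by
    refine ⟨fun y t hy => hG.nonneg y t hy.1, ⟨hcut.closed, fun y t hy ht hyt => ?_⟩,
      fun y hy => hG.init y hy.1⟩
    refine (hcut.sub y t hy ht hyt).mono_force (hle y ?_)
    have h1 : y ∈ E h (closedBall z r) t := hyt.1
    have h2 : t ≤ s := hyt.2
    have h3 := mem_closedBall_iff_norm.1 (E_ball_sub hm hr ht.le h1)
    have h4 : (2 * M + 4) * t ≤ (2 * M + 4) * s := mul_le_mul_of_nonneg_left h2 (by linarith)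
    linarith
  exact sub_flow hG' ⟨hx, show s ≤ s from le_rfl⟩

end Pool.Agent.FCF
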