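import Pool.Agent.FCF.Nbhd
import Pool.Agent.FCF.Fill
import Pool.Agent.FCF.Inner

/-!
# FCF / Bump: the two explicit bumps (FCF_PROOF.md, 1.10) and their consequences

`bumpS x0 g1 x t = g1 * (max 0 (1 - ‖x - x0‖^2/9))^3` (static), `bumpM x0 d C' Γ ρ t0 x t = d e^{-Γ(t-t0)} (max 0 (1 - ‖x-x0‖^2/(ρ - C'(t-t0))^2))^3` (moving; for `t0 ≤ t ≤ t1`, `ρ - C'(t1-t0) ≥ 1`;
outside this time interval replace the time by its projection on `[t0,t1]`: `bumpM` is defined with `clamp t`).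
Derivatives where the bump is positive, `u = 1 - ‖x-x0‖^2/ρ^2`, `D = d e^{-Γs}`:
 `q = -6 D u^2 (x-x0)/ρ^2`, `Y = -6 D u^2/ρ^2 id + 24 D u/ρ^4 (x-x0)⊗(x-x0)`, `b = -Γ D u^3 - 6 C' D u^2 ‖x-x0‖^2/ρ^3`.
 Inequality (moving, g = 0), divided by `D u^2`: `(L-Γ)u + 6/ρ^2 + 6M‖x-x0‖/ρ^2 + 1296 D^2 u^3 ‖x-x0‖^4/ρ^8 - 6C'‖x-x0‖^2/ρ^3 ≤ 0`: if `u ≥ 1/2`: `Γ - L ≥ 2(6+6M+1296)`;
 if `u < 1/2`: `‖x-x0‖^2 ≥ ρ^2/2`, `3C'/ρ ≥ (6+6M+1296)/ρ`.
 (static, `g = eps0`): `(2/3)g1 + L g1 + 2 M g1 + 16 g1^3 ≤ eps0`.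

`loc_step` (one step of 2.2) and `kink` are the two consequences used later; both by `fill_in_sub` with `S = Thick S0 bump`:
* `kink`: `C = {(y,t) ∈ Thick X φ : t0 < t ≤ t1, (y,t+g) ∉ Flow, y ∈ B(x0, ρ+1)}` (φ = moving bump with `d ≤ 1/12`): a point of `Thick X φ` in `B(x0,ρ+1)` has a witness `x ∈ X_t`; either
 `φ x t > 0`, so `‖x-x0‖ < ρ` and the point is in `closedBall x0 (ρ+1/12)`, or `φ = 0`, the point is `x` itself, ordered (`hord`). At `t0`: gap. So `C` is relatively closed, open in `Thick`, empty.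
-/

set_option autoImplicit false

namespace Pool.Agent.FCF

open Pool.Agent.VSC (V J LowJet)
open Set Metric Filter Topology Asymptotics

/-- Speed of the shrinking bump. -/
noncomputable def Cp (M : ℝ) : ℝ := (6 + 6 * M + 1296) / 3
/-- Decay rate of the bump. -/
def Gam (M L : ℝ) : ℝ := L + 2 * (6 + 6 * M + 1296)

/-- cubic bump -/
noncomputable def bmp (D R : ℝ → ℝ) (x0 x : V) (t : ℝ) : ℝ :=
  D t * (max 0 (1 - ‖x - x0‖ ^ 2 / (R t) ^ 2)) ^ 3

/-- The scalar product as a bilinear form. -/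
noncomputable def bmpId : V →L[ℝ] V →L[ℝ] ℝ := innerSL ℝ

/-- Second derivative of the bump. -/
noncomputable def bmpY (al be : ℝ) (n : V) : V →L[ℝ] V →L[ℝ] ℝ :=
  al • bmpId + be • (ContinuousLinearMap.smulRight (bmpId n) (bmpId n))

theorem bmpId_apply (v w : V) : bmpId v w = inner ℝ v w := rfl

theorem bmpY_apply (al be : ℝ) (n v : V) :
    bmpY al be n v v = al * ‖v‖ ^ 2 + be * (inner ℝ n v) ^ 2 := by
  simp only [bmpY, _root_.add_apply, _root_.smul_apply, bmpId_apply,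
    ContinuousLinearMap.smulRight_apply, smul_eq_mul, real_inner_self_eq_norm_sq]
  ring

private theorem o_mul {α : Type*} {l : Filter α} {f g E : α → ℝ} (hf : Tendsto f l (𝓝 0))
    (hg : g =O[l] E) : (fun z => f z * g z) =o[l] E := by
  have h1 : f =o[l] (fun _ => (1 : ℝ)) := (isLittleO_one_iff ℝ).2 hf
  simpa using h1.mul_isBigO hg

private theorem o_mul' {α : Type*} {l : Filter α} {f g E : α → ℝ} {c : ℝ} (hf : Tendsto f l (𝓝 c))
    (hg : g =o[l] E) : (fun z => f z * g z) =o[l] E := by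
  have h1 : f =O[l] (fun _ => (1 : ℝ)) := hf.isBigO_one ℝ
  simpa using h1.mul_isLittleO hg

theorem exp2_bmp {D R : ℝ → ℝ} {t1 D' R' : ℝ} {x0 x1 : V}
    (hD : HasDerivWithinAt D D' (Iic t1) t1) (hR : HasDerivWithinAt R R' (Iic t1) t1)
    (hRp : 0 < R t1) {u : ℝ} (hu : u = 1 - ‖x1 - x0‖ ^ 2 / (R t1) ^ 2) (hup : 0 < u) :
    Exp2 (bmp D R x0) x1 t1 (D' * u ^ 3 + 6 * D t1 * u ^ 2 * ‖x1 - x0‖ ^ 2 * R' / (R t1) ^ 3)
      ((-(6 * D t1 * u ^ 2 / (R t1) ^ 2)) • (x1 - x0))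
      (bmpY (-(6 * D t1 * u ^ 2 / (R t1) ^ 2)) (24 * D t1 * u / (R t1) ^ 4) (x1 - x0)) := by
  set n : V := x1 - x0 with hn
  set l : Filter (V × ℝ) := 𝓝[{z : V × ℝ | z.2 ≤ t1}] (x1, t1) with hl
  set E : V × ℝ → ℝ := fun z => |z.2 - t1| + ‖z.1 - x1‖ ^ 2 with hE
  set w : ℝ → ℝ := fun t => 1 / (R t) ^ 2 with hw
  set w' : ℝ := -(2 * R' / (R t1) ^ 3) with hw'
  have hR0 : R t1 ≠ 0 := hRp.ne'
  have hdw : HasDerivWithinAt w w' (Iic t1) t1 := by
    have h1 := (hR.pow 2).inv (pow_ne_zero 2 hR0)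
    have h2 : -(((2 : ℕ) : ℝ) * R t1 ^ (2 - 1) * R') / (R t1 ^ 2) ^ 2 = w' := by
      rw [hw']
      field_simp
      norm_num
      ring
    have h3 : (fun t => 1 / (R t) ^ 2) = (fun t => (R ^ 2) t)⁻¹ := by
      ext t
      simp [one_div]
    rw [hw, h3, ← h2]
    exact h1
  have hsnd : Tendsto (fun z : V × ℝ => z.2) l (𝓝[Iic t1] t1) := by
    apply tendsto_nhdsWithin_of_tendsto_nhds_of_eventually_within
    · exact (continuous_snd.tendsto (x1, t1)).mono_left nhdsWithin_le_nhds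
    · exact eventually_mem_nhdsWithin
  have hfst : Tendsto (fun z : V × ℝ => z.1) l (𝓝 x1) :=
    (continuous_fst.tendsto (x1, t1)).mono_left nhdsWithin_le_nhds
  have hsnd' : Tendsto (fun z : V × ℝ => z.2) l (𝓝 t1) := hsnd.mono_right nhdsWithin_le_nhds
  -- basic quantities
  set p : V × ℝ → ℝ := fun z => inner ℝ n (z.1 - x1) with hp
  set s : V × ℝ → ℝ := fun z => ‖z.1 - x1‖ ^ 2 with hs
  set ta : V × ℝ → ℝ := fun z => z.2 - t1 with hta
  have hy0 : Tendsto (fun z : V × ℝ => z.1 - x1) l (𝓝 0) := by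
    simpa using hfst.sub_const x1
  have hp0 : Tendsto p l (𝓝 0) := by
    have h1 : Tendsto (fun z : V × ℝ => inner ℝ n (z.1 - x1)) l (𝓝 (inner ℝ n (0 : V))) :=
      Tendsto.inner tendsto_const_nhds hy0
    simpa using h1
  have hs0 : Tendsto s l (𝓝 0) := by
    have h1 := (hy0.norm).pow 2
    simpa using h1
  have hE0 : ∀ z, 0 ≤ E z := fun z => by positivity
  have hsO : s =O[l] E := by
    apply IsBigO.of_bound 1
    refine Eventually.of_forall fun z => ?_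
    rw [Real.norm_of_nonneg (by positivity), Real.norm_of_nonneg (hE0 z), one_mul]
    simp only [hE, hs]
    linarith [abs_nonneg (z.2 - t1)]
  have htO : ta =O[l] E := by
    apply IsBigO.of_bound 1
    refine Eventually.of_forall fun z => ?_
    rw [Real.norm_of_nonneg (hE0 z), one_mul, Real.norm_eq_abs]
    simp only [hE, hta]
    linarith [sq_nonneg ‖z.1 - x1‖]
  have hpO : (fun z => p z ^ 2) =O[l] E := by
    apply IsBigO.of_bound (‖n‖ ^ 2)
    refine Eventually.of_forall fun z => ?_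
    rw [Real.norm_of_nonneg (sq_nonneg _), Real.norm_of_nonneg (hE0 z)]
    have h1 : p z ^ 2 ≤ (‖n‖ * ‖z.1 - x1‖) ^ 2 := by
      rw [← sq_abs (p z)]
      exact pow_le_pow_left₀ (abs_nonneg _) (abs_real_inner_le_norm _ _) 2
    rw [mul_pow] at h1
    refine h1.trans (mul_le_mul_of_nonneg_left ?_ (sq_nonneg _))
    simp only [hE]
    linarith [abs_nonneg (z.2 - t1)]
  have heD : (fun z : V × ℝ => D z.2 - D t1 - D' * ta z) =o[l] E := by
    have h1 := (hD.isLittleO.comp_tendsto hsnd).trans_isBigO (g := fun z => ta z) (k := E) htO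
    refine h1.congr_left fun z => ?_
    simp only [Function.comp, smul_eq_mul, hta]
    ring
  have hew : (fun z : V × ℝ => w z.2 - w t1 - w' * ta z) =o[l] E := by
    have h1 := (hdw.isLittleO.comp_tendsto hsnd).trans_isBigO (g := fun z => ta z) (k := E) htO
    refine h1.congr_left fun z => ?_
    simp only [Function.comp, smul_eq_mul, hta]
    ring
  have hDc : Tendsto (fun z : V × ℝ => D z.2) l (𝓝 (D t1)) := hD.continuousWithinAt.tendsto.comp hsnd
  have hwc : Tendsto (fun z : V × ℝ => w z.2) l (𝓝 (w t1)) :=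
    hdw.continuousWithinAt.tendsto.comp hsnd
  set N : V × ℝ → ℝ := fun z => ‖z.1 - x0‖ ^ 2 with hN
  have hNe : ∀ z, N z = ‖n‖ ^ 2 + 2 * p z + s z := by
    intro z
    have h1 : z.1 - x0 = n + (z.1 - x1) := by rw [hn]; abel
    simp only [hN, hp, hs]
    rw [h1, norm_add_sq_real]
  have hNc : Tendsto N l (𝓝 (‖n‖ ^ 2)) := by
    have h1 : Tendsto (fun z => ‖n‖ ^ 2 + 2 * p z + s z) l (𝓝 (‖n‖ ^ 2 + 2 * 0 + 0)) :=
      ((hp0.const_mul 2).const_add _).add hs0
    rw [mul_zero, add_zero, add_zero] at h1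
    exact h1.congr fun z => (hNe z).symm
  set U : V × ℝ → ℝ := fun z => 1 - N z * w z.2 with hU
  set U1 : V × ℝ → ℝ := fun z => 1 - N z * w t1 with hU1
  have hu' : u = 1 - ‖n‖ ^ 2 * w t1 := by rw [hu, hw]; ring
  have hUc : Tendsto U l (𝓝 u) := by
    rw [hu']
    exact (hNc.mul hwc).const_sub 1
  have hU1c : Tendsto U1 l (𝓝 u) := by
    rw [hu']
    exact (hNc.mul_const _).const_sub 1
  -- the three remainders
  have hT1 : (fun z => D' * ((U z ^ 3 - u ^ 3) * ta z) + U z ^ 3 * (D z.2 - D t1 - D' * ta z))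
      =o[l] E := by
    refine IsLittleO.add (IsLittleO.const_mul_left (o_mul ?_ htO) D') (o_mul' (hUc.pow 3) heD)
    have h1 := (hUc.pow 3).sub_const (u ^ 3)
    simpa using h1
  have hQc : Tendsto (fun z => N z * (U z ^ 2 + U z * U1 z + U1 z ^ 2)) l
      (𝓝 (‖n‖ ^ 2 * (u ^ 2 + u * u + u ^ 2))) :=
    hNc.mul (((hUc.pow 2).add (hUc.mul hU1c)).add (hU1c.pow 2))
  have hT2 : (fun z => -(D t1 * w') * ((N z * (U z ^ 2 + U z * U1 z + U1 z ^ 2)
      - ‖n‖ ^ 2 * (u ^ 2 + u * u + u ^ 2)) * ta z)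
      + (-D t1) * ((N z * (U z ^ 2 + U z * U1 z + U1 z ^ 2)) * (w z.2 - w t1 - w' * ta z)))
      =o[l] E := by
    refine IsLittleO.add (IsLittleO.const_mul_left (o_mul ?_ htO) _)
      (IsLittleO.const_mul_left (o_mul' hQc hew) _)
    have h1 := hQc.sub_const (‖n‖ ^ 2 * (u ^ 2 + u * u + u ^ 2))
    simpa using h1
  have hps : (fun z => p z * s z) =o[l] E := o_mul hp0 hsO
  have hss : (fun z => s z * s z) =o[l] E := o_mul hs0 hsO
  have h2ps : (fun z => (2 * p z + s z) ^ 2) =O[l] E := by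
    have h1 : (fun z => 4 * p z ^ 2 + (4 * (p z * s z) + s z * s z)) =O[l] E :=
      (hpO.const_mul_left 4).add ((hps.isBigO.const_mul_left 4).add hss.isBigO)
    refine h1.congr_left fun z => ?_
    ring
  have h3ps : (fun z => (2 * p z + s z) * (2 * p z + s z) ^ 2) =o[l] E := by
    refine o_mul ?_ h2ps
    have h1 := (hp0.const_mul 2).add hs0
    simpa using h1
  have hT3 : (fun z => D t1 * (3 * u * w t1 ^ 2 * (4 * (p z * s z) + s z * s z)
      - w t1 ^ 3 * ((2 * p z + s z) * (2 * p z + s z) ^ 2))) =o[l] E :=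
    IsLittleO.const_mul_left (IsLittleO.sub (IsLittleO.const_mul_left
      ((hps.const_mul_left 4).add hss) _) (h3ps.const_mul_left _)) _
  have hsum := (hT1.add hT2).add hT3
  intro eps heps
  have h1 : ∀ᶠ z in l, 0 < U z := hUc.eventually (eventually_gt_nhds hup)
  have h2 := hsum.bound heps
  have h3 := h1.and h2
  rw [hl, eventually_nhdsWithin_iff, Metric.eventually_nhds_iff] at h3
  obtain ⟨r, hr, h4⟩ := h3
  refine ⟨r, hr, fun x t hx ht1 ht2 => ?_⟩
  have h5 : dist (x, t) (x1, t1) < r := by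
    rw [Prod.dist_eq, max_lt_iff, dist_eq_norm, Real.dist_eq, abs_lt]
    exact ⟨hx, by linarith, by linarith⟩
  obtain ⟨h6, h7⟩ := h4 h5 ht2
  rw [Real.norm_eq_abs, Real.norm_of_nonneg (hE0 _)] at h7
  refine le_trans (le_of_eq ?_) h7
  congr 1
  have e1 : bmp D R x0 x t = D t * U (x, t) ^ 3 := by
    have : max 0 (1 - ‖x - x0‖ ^ 2 / (R t) ^ 2) = U (x, t) := by
      have h8 : U (x, t) = 1 - ‖x - x0‖ ^ 2 / (R t) ^ 2 := by
        simp only [hU, hN, hw]; ring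
      rw [← h8]
      exact max_eq_right h6.le
    rw [bmp, this]
  have e2 : bmp D R x0 x1 t1 = D t1 * u ^ 3 := by
    rw [bmp, ← hu, max_eq_right hup.le]
  have e3 : inner ℝ ((-(6 * D t1 * u ^ 2 / (R t1) ^ 2)) • n) (x - x1) =
      -(6 * D t1 * u ^ 2 * w t1) * p (x, t) := by
    rw [inner_smul_left]
    simp only [hp, hw, conj_trivial]
    ring
  have e4 : bmpY (-(6 * D t1 * u ^ 2 / (R t1) ^ 2)) (24 * D t1 * u / (R t1) ^ 4) n (x - x1) (x - x1)
      = -(6 * D t1 * u ^ 2 * w t1) * s (x, t) + 24 * D t1 * u * w t1 ^ 2 * p (x, t) ^ 2 := by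
    rw [bmpY_apply]
    simp only [hs, hp, hw]
    field_simp
  have e5 : U (x, t) = 1 - N (x, t) * w t := rfl
  have e6 : U1 (x, t) = 1 - N (x, t) * w t1 := rfl
  have e7 : ta (x, t) = t - t1 := rfl
  have e8 : 6 * D t1 * u ^ 2 * ‖n‖ ^ 2 * R' / (R t1) ^ 3 = -(3 * D t1 * u ^ 2 * ‖n‖ ^ 2 * w') := by
    rw [hw']
    field_simp
    ring
  rw [e1, e2, e3, e4, e8, e5, e6, e7, hNe, hu']
  ring


private theorem bmp_nonneg {D R : ℝ → ℝ} {x0 x : V} {t : ℝ} (hD : 0 ≤ D t) :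
    0 ≤ bmp D R x0 x t := by
  unfold bmp
  positivity

private theorem bmp_le {D R : ℝ → ℝ} {x0 x : V} {t : ℝ} (hD : 0 ≤ D t) :
    bmp D R x0 x t ≤ D t := by
  unfold bmp
  have h1 : max 0 (1 - ‖x - x0‖ ^ 2 / (R t) ^ 2) ≤ 1 := by
    apply max_le zero_le_one
    have : 0 ≤ ‖x - x0‖ ^ 2 / (R t) ^ 2 := by positivity
    linarith
  have h2 : (max 0 (1 - ‖x - x0‖ ^ 2 / (R t) ^ 2)) ^ 3 ≤ 1 :=
    pow_le_one₀ (le_max_left _ _) h1
  calc D t * (max 0 (1 - ‖x - x0‖ ^ 2 / (R t) ^ 2)) ^ 3 ≤ D t * 1 :=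
        mul_le_mul_of_nonneg_left h2 hD
    _ = D t := mul_one _

private theorem bmp_pos {D R : ℝ → ℝ} {x0 x : V} {t : ℝ}
    (h : 0 < bmp D R x0 x t) : 0 < 1 - ‖x - x0‖ ^ 2 / (R t) ^ 2 := by
  by_contra hc
  rw [not_lt] at hc
  rw [bmp, max_eq_left hc] at h
  simp at h

private theorem bmp_pos' {D R : ℝ → ℝ} {x0 x : V} {t : ℝ} (hR : 0 < R t)
    (h : 0 < bmp D R x0 x t) : ‖x - x0‖ < R t := by
  have h1 := bmp_pos h
  have h2 : ‖x - x0‖ ^ 2 < (R t) ^ 2 := by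
    have h3 : ‖x - x0‖ ^ 2 / (R t) ^ 2 < 1 := by linarith
    rwa [div_lt_one (by positivity)] at h3
  exact lt_of_pow_lt_pow_left₀ 2 hR.le h2

private theorem bmp_continuous {D R : ℝ → ℝ} (x0 : V) (hD : Continuous D) (hR : Continuous R)
    (hRp : ∀ t, 0 < R t) : Continuous (fun z : V × ℝ => bmp D R x0 z.1 z.2) := by
  unfold bmp
  refine (hD.comp continuous_snd).mul (Continuous.pow (continuous_const.max ?_) 3)
  refine continuous_const.sub (Continuous.div ?_ ?_ ?_)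
  · exact (continuous_fst.sub continuous_const).norm.pow 2
  · exact (hR.comp continuous_snd).pow 2
  · intro z
    exact pow_ne_zero 2 (hRp z.2).ne'

private theorem q_norm {D u R : ℝ} (hD : 0 ≤ D) (n : V) :
    ‖(-(6 * D * u ^ 2 / R ^ 2)) • n‖ = 6 * D * u ^ 2 / R ^ 2 * ‖n‖ := by
  rw [norm_smul, norm_neg, Real.norm_of_nonneg (by positivity)]

private theorem Y_ge {D u R : ℝ} (hD : 0 ≤ D) (hu : 0 ≤ u) (n xi : V)
    (hxi : ‖xi‖ = 1) :
    -(6 * D * u ^ 2 / R ^ 2) ≤ bmpY (-(6 * D * u ^ 2 / R ^ 2)) (24 * D * u / R ^ 4) n xi xi := by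
  rw [bmpY_apply, hxi]
  have h1 : 0 ≤ 24 * D * u / R ^ 4 * (inner ℝ n xi) ^ 2 := by positivity
  linarith

private theorem static_ineq {M L eps0 g1 a u : ℝ} (hg0 : 0 < g1) (hg1 : g1 ≤ 1 / 4)
    (hM : 1 ≤ M) (hL : 1 ≤ L) (hg2 : g1 * (2 + L + 2 * M) ≤ eps0) (ha : 0 ≤ a) (ha3 : a ≤ 3)
    (hu0 : 0 < u) (hu1 : u ≤ 1) :
    6 * g1 * u ^ 2 / 3 ^ 2 * a ≤ 1 / 2 ∧
    6 * g1 * u ^ 2 / 3 ^ 2 ≤ eps0 - L * (g1 * u ^ 3) - M * (6 * g1 * u ^ 2 / 3 ^ 2 * a) -
      (6 * g1 * u ^ 2 / 3 ^ 2 * a) ^ 4 / (g1 * u ^ 3) := by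
  have hu2 : u ^ 2 ≤ 1 := pow_le_one₀ hu0.le hu1
  have hu3 : u ^ 3 ≤ 1 := pow_le_one₀ hu0.le hu1
  have hg : 0 ≤ g1 * u ^ 2 := by positivity
  have hgu : g1 * u ^ 2 ≤ g1 := by
    calc g1 * u ^ 2 ≤ g1 * 1 := mul_le_mul_of_nonneg_left hu2 hg0.le
      _ = g1 := mul_one _
  have hgu3 : g1 * u ^ 3 ≤ g1 := by
    calc g1 * u ^ 3 ≤ g1 * 1 := mul_le_mul_of_nonneg_left hu3 hg0.le
      _ = g1 := mul_one _
  have hgua : g1 * u ^ 2 * a ≤ g1 * 3 := mul_le_mul hgu ha3 ha hg0.le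
  have hq : 6 * g1 * u ^ 2 / 3 ^ 2 * a ≤ 2 * g1 := by
    have : 6 * g1 * u ^ 2 / 3 ^ 2 * a = (6 / 9) * (g1 * u ^ 2 * a) := by ring
    rw [this]; linarith
  refine ⟨by linarith, ?_⟩
  have h4 : (6 * g1 * u ^ 2 / 3 ^ 2 * a) ^ 4 / (g1 * u ^ 3) ≤ g1 := by
    rw [div_le_iff₀ (by positivity)]
    have e1 : (6 * g1 * u ^ 2 / 3 ^ 2 * a) ^ 4 = 16 / 81 * (g1 ^ 2 * g1 ^ 2) * u ^ 8 * a ^ 4 := by
      ring
    have e2 : a ^ 4 ≤ 81 := by
      have := pow_le_pow_left₀ ha ha3 4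
      norm_num at this
      exact this
    have e3 : g1 ^ 2 ≤ 1 / 16 := by
      have := pow_le_pow_left₀ hg0.le hg1 2
      norm_num at this
      linarith
    have e4 : u ^ 8 ≤ u ^ 3 := pow_le_pow_of_le_one hu0.le hu1 (by norm_num)
    rw [e1]
    calc 16 / 81 * (g1 ^ 2 * g1 ^ 2) * u ^ 8 * a ^ 4
        ≤ 16 / 81 * (g1 ^ 2 * (1 / 16)) * u ^ 3 * 81 := by gcongr
      _ = g1 * (g1 * u ^ 3) := by ring
  have h5 : L * (g1 * u ^ 3) ≤ L * g1 := mul_le_mul_of_nonneg_left hgu3 (by linarith)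
  have h6 : M * (6 * g1 * u ^ 2 / 3 ^ 2 * a) ≤ M * (2 * g1) :=
    mul_le_mul_of_nonneg_left hq (by linarith)
  have h7 : 6 * g1 * u ^ 2 / 3 ^ 2 ≤ g1 := by
    have : 6 * g1 * u ^ 2 / 3 ^ 2 = (6 / 9) * (g1 * u ^ 2) := by ring
    rw [this]; linarith
  nlinarith [h4, h5, h6, h7, hg2]

private theorem moving_ineq {M L D a u R : ℝ} (hD0 : 0 < D) (hD1 : D ≤ 1 / 12)
    (hM : 1 ≤ M) (hR : 4 ≤ R) (ha : 0 ≤ a) (haR : a ≤ R) (hu : u = 1 - a ^ 2 / R ^ 2)
    (hu0 : 0 < u) :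
    6 * D * u ^ 2 / R ^ 2 * a ≤ 1 / 2 ∧
    (-(Gam M L) * D) * u ^ 3 + 6 * D * u ^ 2 * a ^ 2 * (-Cp M) / R ^ 3 +
      6 * D * u ^ 2 / R ^ 2 ≤ 0 - L * (D * u ^ 3) - M * (6 * D * u ^ 2 / R ^ 2 * a) -
      (6 * D * u ^ 2 / R ^ 2 * a) ^ 4 / (D * u ^ 3) := by
  have hR0 : 0 < R := by linarith
  have hu1 : u ≤ 1 := by
    have : 0 ≤ a ^ 2 / R ^ 2 := by positivity
    linarith
  have hu2 : u ^ 2 ≤ 1 := pow_le_one₀ hu0.le hu1
  have hX : 0 ≤ D * u ^ 2 := by positivity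
  have hX1 : D * u ^ 2 ≤ 1 / 12 := by
    calc D * u ^ 2 ≤ (1 / 12) * 1 := mul_le_mul hD1 hu2 (by positivity) (by norm_num)
      _ = 1 / 12 := mul_one _
  have hRi : 1 / R ≤ 1 / 4 := one_div_le_one_div_of_le (by norm_num) hR
  have hRi0 : 0 < 1 / R := by positivity
  have haRi : a / R ≤ 1 := (div_le_one hR0).2 haR
  have haRi0 : 0 ≤ a / R := by positivity
  have hqe : 6 * D * u ^ 2 / R ^ 2 * a = 6 * (D * u ^ 2) * ((1 / R) * (a / R)) := by
    field_simp
  have h1R : (1 / R) * (a / R) ≤ 1 / R := by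
    calc (1 / R) * (a / R) ≤ (1 / R) * 1 := mul_le_mul_of_nonneg_left haRi hRi0.le
      _ = 1 / R := mul_one _
  have hq : 6 * D * u ^ 2 / R ^ 2 * a ≤ 6 * (D * u ^ 2) * (1 / R) := by
    rw [hqe]
    exact mul_le_mul_of_nonneg_left h1R (by positivity)
  refine ⟨?_, ?_⟩
  · refine hq.trans ?_
    have : 6 * (D * u ^ 2) * (1 / R) ≤ 6 * (1 / 12) * 1 :=
      mul_le_mul (by linarith) (by linarith) hRi0.le (by norm_num)
    linarith
  have h4 : (6 * D * u ^ 2 / R ^ 2 * a) ^ 4 / (D * u ^ 3) ≤ 1296 * (D * u ^ 2) * (1 / R) := by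
    rw [div_le_iff₀ (by positivity)]
    have e1 : (6 * D * u ^ 2 / R ^ 2 * a) ^ 4 =
        1296 * (D ^ 2 * D ^ 2) * u ^ 8 * ((1 / R) * (1 / R) ^ 3 * (a / R) ^ 4) := by
      field_simp
      ring
    have e2 : (a / R) ^ 4 ≤ 1 := pow_le_one₀ haRi0 haRi
    have e3 : D ^ 2 ≤ 1 := pow_le_one₀ hD0.le (by linarith)
    have e4 : u ^ 8 ≤ u ^ 5 := pow_le_pow_of_le_one hu0.le hu1 (by norm_num)
    have e5 : (1 / R) ^ 3 ≤ 1 := pow_le_one₀ hRi0.le (by linarith)
    rw [e1]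
    calc 1296 * (D ^ 2 * D ^ 2) * u ^ 8 * ((1 / R) * (1 / R) ^ 3 * (a / R) ^ 4)
        ≤ 1296 * (D ^ 2 * 1) * u ^ 5 * ((1 / R) * 1 * 1) := by gcongr
      _ = 1296 * (D * u ^ 2) * (1 / R) * (D * u ^ 3) := by ring
  have h5 : 6 * D * u ^ 2 / R ^ 2 ≤ 6 * (D * u ^ 2) * (1 / R) := by
    have e1 : 6 * D * u ^ 2 / R ^ 2 = 6 * (D * u ^ 2) * ((1 / R) * (1 / R)) := by
      field_simp
    rw [e1]
    refine mul_le_mul_of_nonneg_left ?_ (by positivity)
    calc (1 / R) * (1 / R) ≤ (1 / R) * 1 := mul_le_mul_of_nonneg_left (by linarith) hRi0.le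
      _ = 1 / R := mul_one _
  have h6 : M * (6 * D * u ^ 2 / R ^ 2 * a) ≤ M * (6 * (D * u ^ 2) * (1 / R)) :=
    mul_le_mul_of_nonneg_left hq (by linarith)
  set K : ℝ := 6 + 6 * M + 1296 with hK
  have hK0 : 0 < K := by rw [hK]; linarith
  have h7 : 6 * D * u ^ 2 * a ^ 2 * (-Cp M) / R ^ 3 = -(2 * K) * (D * u ^ 2) * (1 / R) * (1 - u) := by
    have e1 : a ^ 2 / R ^ 2 = 1 - u := by linarith
    rw [← e1, Cp, ← hK]
    field_simp
    ring
  have h8 : (-(Gam M L) * D) * u ^ 3 = -L * (D * u ^ 3) - 2 * K * (D * u ^ 2) * u := by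
    rw [Gam, ← hK]; ring
  rw [h7, h8]
  have h9 : 0 ≤ (D * u ^ 2) * (K * (2 * u * (1 - 1 / R) + 1 / R)) := by
    have : 0 ≤ 1 - 1 / R := by linarith
    positivity
  have h10 : 6 * (D * u ^ 2) * (1 / R) + M * (6 * (D * u ^ 2) * (1 / R)) +
      1296 * (D * u ^ 2) * (1 / R) = K * ((D * u ^ 2) * (1 / R)) := by
    rw [hK]; ring
  have h11 : -(2 * K) * (D * u ^ 2) * (1 / R) * (1 - u) - 2 * K * (D * u ^ 2) * u +
      K * ((D * u ^ 2) * (1 / R)) =
      -((D * u ^ 2) * (K * (2 * u * (1 - 1 / R) + 1 / R))) := by ring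
  linarith [h4, h5, h6, h9, h10, h11]

private theorem hop_aux {F : Set (V × ℝ)} (hF : IsClosed F) {g t : ℝ} {x : V}
    (h : (x, t + g) ∉ F) : ∃ r : ℝ, 0 < r ∧ ∀ (y : V) (s : ℝ), ‖y - x‖ < r → t - r < s → s ≤ t →
      (y, s + g) ∉ F := by
  obtain ⟨r, hr, h1⟩ := Metric.isOpen_iff.1 hF.isOpen_compl (x, t + g) h
  refine ⟨r, hr, fun y s hy h2 h3 => ?_⟩
  apply h1
  rw [Metric.mem_ball, Prod.dist_eq, max_lt_iff, dist_eq_norm, Real.dist_eq, abs_lt]
  exact ⟨hy, by linarith, by linarith⟩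

/-- Static bump lemma, one step: `S` an `h1`-subflow in `B(x0,4)` with room `eps0`. -/
theorem loc_step {M L : ℝ} {h h1 : V → ℝ} (hm : Med M L h) (hm1 : Med M L h1) {eps0 g1 : ℝ}
    (he : 0 < eps0) (hg0 : 0 < g1) (hg1 : g1 ≤ 1 / 4) (hg2 : g1 * (2 + L + 2 * M) ≤ eps0) {x0 : V}
    (hle : ∀ x, h1 x + eps0 ≤ h x) {S : Set (V × ℝ)} {s0 : ℝ}
    (hS : SubIn h1 (ball x0 6) s0 S) {A : Set V} (hA : IsClosed A)
    (hN : ∀ x ∈ ball x0 5, (x, s0) ∈ S → closedBall x g1 ⊆ A) {s : ℝ} (hs0 : 0 ≤ s)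
    (hs : s < hM M (g1 / 4)) (hx : (x0, s0 + s) ∈ S) : closedBall x0 g1 ⊆ E h A s := by
  rcases hs0.eq_or_lt with rfl | hs0'
  · rw [E_zero hm hA]
    rw [add_zero] at hx
    exact hN x0 (mem_ball_self (by norm_num)) hx
  set φ : V → ℝ → ℝ := bmp (fun _ => g1) (fun _ => 3) x0 with hφ
  have hφ0 : ∀ x t, 0 ≤ φ x t := fun x t => bmp_nonneg hg0.le
  have hφm : ∀ x t, φ x t ≤ g1 := fun x t => bmp_le (D := fun _ => g1) hg0.le
  have hφc : Continuous (fun z : V × ℝ => φ z.1 z.2) :=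
    bmp_continuous x0 continuous_const continuous_const (fun _ => by norm_num)
  set T : Set (V × ℝ) := Thick S φ with hT
  have hTs : SubIn (fun x => h1 x + eps0) (ball x0 (11 / 2)) s0 T := by
    refine thick_subIn hm1 hS (m := g1) ?_ hφ0 (fun x t _ => hφm x t) hφc he.le ?_
    · intro x hx y hy
      rw [mem_ball, dist_eq_norm] at hx ⊢
      rw [mem_closedBall, dist_eq_norm] at hy
      calc ‖y - x0‖ = ‖(y - x) + (x - x0)‖ := by congr 1; abel
        _ ≤ ‖y - x‖ + ‖x - x0‖ := norm_add_le _ _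
        _ < 6 := by linarith
    · intro x t _ _ _ hp
      have hup := bmp_pos hp
      set u : ℝ := 1 - ‖x - x0‖ ^ 2 / 3 ^ 2 with hu
      have hx3 : ‖x - x0‖ < 3 := bmp_pos' (by norm_num) hp
      have hu1 : u ≤ 1 := by
        have : 0 ≤ ‖x - x0‖ ^ 2 / 3 ^ 2 := by positivity
        linarith
      have hexp := exp2_bmp (D := fun _ => g1) (R := fun _ => 3) (t1 := t) (x0 := x0) (x1 := x)
        (hasDerivWithinAt_const (c := g1) _ _) (hasDerivWithinAt_const (c := (3 : ℝ)) _ _)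
        (by norm_num) (u := u) hu hup
      obtain ⟨i1, i2⟩ := static_ineq hg0 hg1 hm.one_le hm.one_le' hg2 (norm_nonneg (x - x0)) hx3.le
        hup hu1
      refine ⟨_, _, _, hexp, ?_, ?_⟩
      · rw [q_norm hg0.le]
        exact i1
      · intro xi hxi
        have hY := Y_ge (R := 3) hg0.le hup.le (x - x0) xi hxi
        rw [q_norm hg0.le]
        have hφv : φ x t = g1 * u ^ 3 := by
          rw [hφ, bmp, max_eq_right hup.le]
        rw [hφv]
        have : (0 : ℝ) * u ^ 3 + 6 * g1 * u ^ 2 * ‖x - x0‖ ^ 2 * 0 / 3 ^ 3 = 0 := by ring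
        rw [this]
        linarith
  have near : ∀ x' t', ‖x' - x0‖ ≤ 4 → (x', t') ∈ S → s0 ≤ t' → t' ≤ s0 + s →
      closedBall x' (g1 / 2) ⊆ A := by
    intro x' t' hx' hS' h1 h2
    have h3 : (x', s0 + (t' - s0)) ∈ S := by rwa [add_sub_cancel]
    obtain ⟨y, hy, hyS⟩ := speed_small hm1 hS (r := g1 / 4) (by positivity)
      (by
        intro y hy
        rw [mem_closedBall, dist_eq_norm] at hy
        rw [mem_ball, dist_eq_norm]
        calc ‖y - x0‖ = ‖(y - x') + (x' - x0)‖ := by congr 1; abel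
          _ ≤ ‖y - x'‖ + ‖x' - x0‖ := norm_add_le _ _
          _ < 6 := by linarith)
      (s := t' - s0) (by linarith) (by linarith) h3
    rw [mem_closedBall, dist_eq_norm] at hy
    have hy5 : y ∈ ball x0 5 := by
      rw [mem_ball, dist_eq_norm]
      calc ‖y - x0‖ = ‖(y - x') + (x' - x0)‖ := by congr 1; abel
        _ ≤ ‖y - x'‖ + ‖x' - x0‖ := norm_add_le _ _
        _ < 5 := by linarith
    refine Subset.trans ?_ (hN y hy5 hyS)
    intro z hz
    rw [mem_closedBall, dist_eq_norm] at hz ⊢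
    calc ‖z - y‖ = ‖(z - x') - (y - x')‖ := by congr 1; abel
      _ ≤ ‖z - x'‖ + ‖y - x'‖ := norm_sub_le _ _
      _ ≤ g1 := by linarith
  have key : ∀ y t', (y, t') ∈ T → ‖y - x0‖ < 3 → s0 ≤ t' → t' ≤ s0 + s →
      (y, t' + -s0) ∉ Flow h A → ‖y - x0‖ ≤ 9 / 4 := by
    rintro y t' ⟨x', hx'S, hyx⟩ hy h1 h2 hF
    dsimp only at hx'S hyx
    have hx4 : ‖x' - x0‖ ≤ 4 := by
      calc ‖x' - x0‖ = ‖(y - x0) - (y - x')‖ := by congr 1; abel
        _ ≤ ‖y - x0‖ + ‖y - x'‖ := norm_sub_le _ _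
        _ ≤ 4 := by linarith [hφm x' t']
    have hA2 := near x' t' hx4 hx'S h1 h2
    have hφg : g1 / 4 < φ x' t' := by
      by_contra hc
      rw [not_lt] at hc
      apply hF
      have : y ∈ E h A (t' - s0) := by
        refine inner_center hm (r := g1 / 4) (by positivity) (Subset.trans ?_ hA2)
          (by linarith) (by linarith)
        intro z hz
        rw [mem_closedBall, dist_eq_norm] at hz ⊢
        calc ‖z - x'‖ = ‖(z - y) + (y - x')‖ := by congr 1; abel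
          _ ≤ ‖z - y‖ + ‖y - x'‖ := norm_add_le _ _
          _ ≤ g1 / 2 := by linarith
      rw [E, Set.mem_setOf_eq, sub_eq_add_neg] at this
      exact this
    have hx2 : ‖x' - x0‖ < 2 := by
      by_contra hc
      rw [not_lt] at hc
      have h3 : max 0 (1 - ‖x' - x0‖ ^ 2 / 3 ^ 2) ≤ 5 / 9 := by
        apply max_le (by norm_num)
        have : (4 : ℝ) ≤ ‖x' - x0‖ ^ 2 := by nlinarith
        linarith
      have h4 : (max 0 (1 - ‖x' - x0‖ ^ 2 / 3 ^ 2)) ^ 3 ≤ (5 / 9) ^ 3 :=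
        pow_le_pow_left₀ (le_max_left _ _) h3 3
      have h5 : φ x' t' ≤ g1 * (5 / 9) ^ 3 := mul_le_mul_of_nonneg_left h4 hg0.le
      norm_num at h5
      nlinarith
    calc ‖y - x0‖ = ‖(y - x') + (x' - x0)‖ := by congr 1; abel
      _ ≤ ‖y - x'‖ + ‖x' - x0‖ := norm_add_le _ _
      _ ≤ 9 / 4 := by linarith [hφm x' t']
  set C : Set (V × ℝ) := {z | z ∈ T ∧ ‖z.1 - x0‖ < 3 ∧ s0 < z.2 ∧ z.2 ≤ s0 + s ∧
    (z.1, z.2 + -s0) ∉ Flow h A} with hC
  have hCe : C = ∅ := by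
    refine fill_in_sub hm hA (-s0) hTs (fun x _ => hle x) ?_ ?_ ?_
    · rintro x t ⟨h1, h2, h3, h4, h5⟩
      refine ⟨h1, ?_, h3, by linarith, h5⟩
      rw [mem_ball, dist_eq_norm]
      dsimp only at h2
      linarith
    · intro x t hxt
      by_cases hF : (x, t + -s0) ∈ Flow h A
      · exact Or.inr hF
      left
      have hK : IsClosed {z : V × ℝ | ‖z.1 - x0‖ ≤ 9 / 4 ∧ s0 ≤ z.2 ∧ z.2 ≤ s0 + s} := by
        refine IsClosed.and ?_ (IsClosed.and ?_ ?_)
        · exact isClosed_le ((continuous_fst.sub continuous_const).norm) continuous_const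
        · exact isClosed_le continuous_const continuous_snd
        · exact isClosed_le continuous_snd continuous_const
      have hsub : C ⊆ {z : V × ℝ | ‖z.1 - x0‖ ≤ 9 / 4 ∧ s0 ≤ z.2 ∧ z.2 ≤ s0 + s} := by
        rintro ⟨y, t'⟩ ⟨h1, h2, h3, h4, h5⟩
        exact ⟨key y t' h1 h2 h3.le h4 h5, h3.le, h4⟩
      obtain ⟨k1, k2, k3⟩ := closure_minimal hsub hK hxt
      dsimp only at k1 k2 k3
      have hxT : (x, t) ∈ T := by
        apply hTs.closed x t _ k2
        · refine closure_mono ?_ hxt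
          rintro ⟨y, t'⟩ ⟨h1, h2, h3, h4, h5⟩
          exact ⟨h1, h3.le⟩
        · rw [mem_ball, dist_eq_norm]
          linarith
      rcases k2.eq_or_lt with h6 | h6
      · exfalso
        apply hF
        obtain ⟨x', hx'S, hyx⟩ := hxT
        dsimp only at hx'S hyx
        rw [← h6] at hx'S
        have hx5 : x' ∈ ball x0 5 := by
          rw [mem_ball, dist_eq_norm]
          calc ‖x' - x0‖ = ‖(x - x0) - (x - x')‖ := by congr 1; abel
            _ ≤ ‖x - x0‖ + ‖x - x'‖ := norm_sub_le _ _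
            _ < 5 := by linarith [hφm x' t]
        have hxA : x ∈ A := hN x' hx5 hx'S (by
          rw [mem_closedBall, dist_eq_norm]
          exact hyx.trans (hφm _ _))
        have h7 : x ∈ E h A 0 := by rwa [E_zero hm hA]
        rw [← h6, add_neg_cancel]
        exact h7
      · exact ⟨hxT, by dsimp only; linarith, h6, k3, hF⟩
    · rintro x t ⟨h1, h2, h3, h4, h5⟩
      dsimp only at h2 h3 h4 h5
      obtain ⟨r, hr, hr'⟩ := hop_aux (isClosed_flow h A) h5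
      refine ⟨min r (min (3 - ‖x - x0‖) (t - s0)), lt_min hr (lt_min (by linarith) (by linarith)),
        fun y s' hy k1 k2 k3 => ?_⟩
      have m1 := min_le_left r (min (3 - ‖x - x0‖) (t - s0))
      have m2 := (min_le_right r (min (3 - ‖x - x0‖) (t - s0))).trans (min_le_left _ _)
      have m3 := (min_le_right r (min (3 - ‖x - x0‖) (t - s0))).trans (min_le_right _ _)
      refine ⟨k3, ?_, by dsimp only; linarith, by dsimp only; linarith,
        hr' y s' (by linarith) (by linarith) k2⟩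
      dsimp only
      calc ‖y - x0‖ = ‖(y - x) + (x - x0)‖ := by congr 1; abel
        _ ≤ ‖y - x‖ + ‖x - x0‖ := norm_add_le _ _
        _ < 3 := by linarith
  intro y hy
  rw [mem_closedBall, dist_eq_norm] at hy
  by_contra hc
  have hyC : (y, s0 + s) ∈ C := by
    refine ⟨⟨x0, hx, ?_⟩, ?_, by dsimp only; linarith, le_rfl, ?_⟩
    · dsimp only
      have : φ x0 (s0 + s) = g1 := by
        rw [hφ, bmp]
        simp
      rw [this]
      exact hy
    · dsimp only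
      linarith
    · dsimp only
      rw [add_assoc, add_comm s, ← add_assoc, add_neg_cancel, zero_add]
      exact hc
  rw [hCe] at hyC
  exact hyC

/-- The kink lemma. `X` is an `h`-subflow in `B(x0, ρ+2)` and `Y` is the maximal `h`-flow shifted
in time by `g`. If `X ⊆ Y` on `B(x0,ρ+1)` for the times in `[t0,t1]` and there is a gap `d` at the
time `t0`, then there is a gap at the time `t1` near `x0`. -/
theorem kink {M L : ℝ} {h : V → ℝ} (hm : Med M L h) {X : Set (V × ℝ)} {x0 : V} {rho t0 t1 g d : ℝ}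
    (h01 : t0 ≤ t1) (hrho : Cp M * (t1 - t0) + 4 ≤ rho) (hX : SubIn h (ball x0 (rho + 2)) t0 X)
    {A : Set V} (hA : IsClosed A) (hg : 0 ≤ t0 + g) (hd0 : 0 < d) (hd : d ≤ 1 / 12)
    (hord : ∀ x t, ‖x - x0‖ < rho + 1 → t0 ≤ t → t ≤ t1 → (x, t) ∈ X → x ∈ E h A (t + g))
    (hgap : ∀ x, ‖x - x0‖ < rho → (x, t0) ∈ X → closedBall x d ⊆ E h A (t0 + g)) :
    ∀ x, ‖x - x0‖ ≤ 2 → (x, t1) ∈ X →
      closedBall x (d * Real.exp (-(Gam M L * (t1 - t0))) / 4) ⊆ E h A (t1 + g) := by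
  have hCp0 : 0 < Cp M := by
    unfold Cp
    have := hm.one_le
    positivity
  have hGam0 : 0 ≤ Gam M L := by
    unfold Gam
    have h1 := hm.one_le
    have h2 := hm.one_le'
    positivity
  have hrho4 : 4 ≤ rho := by
    have : 0 ≤ Cp M * (t1 - t0) := mul_nonneg hCp0.le (by linarith)
    linarith
  set c : ℝ → ℝ := fun t => max 0 (min (t - t0) (t1 - t0)) with hc
  have hc0 : ∀ t, 0 ≤ c t := fun t => le_max_left _ _
  have hc1 : ∀ t, c t ≤ t1 - t0 := fun t => max_le (by linarith) (min_le_right _ _)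
  have hce : ∀ t, t0 ≤ t → t ≤ t1 → c t = t - t0 := by
    intro t h1 h2
    rw [hc]
    dsimp only
    rw [min_eq_left (by linarith), max_eq_right (by linarith)]
  have hcc : Continuous c := by
    rw [hc]
    fun_prop
  set D : ℝ → ℝ := fun t => d * Real.exp (-(Gam M L * c t)) with hD
  set R : ℝ → ℝ := fun t => rho - Cp M * c t with hR
  have hD0 : ∀ t, 0 < D t := fun t => mul_pos hd0 (Real.exp_pos _)
  have hDd : ∀ t, D t ≤ d := by
    intro t
    have h1 : Real.exp (-(Gam M L * c t)) ≤ 1 := by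
      rw [Real.exp_le_one_iff]
      have := mul_nonneg hGam0 (hc0 t)
      linarith
    calc D t ≤ d * 1 := mul_le_mul_of_nonneg_left h1 hd0.le
      _ = d := mul_one _
  have hR4 : ∀ t, 4 ≤ R t := by
    intro t
    have := mul_le_mul_of_nonneg_left (hc1 t) hCp0.le
    simp only [hR]
    linarith
  have hRr : ∀ t, R t ≤ rho := by
    intro t
    have := mul_nonneg hCp0.le (hc0 t)
    simp only [hR]
    linarith
  have hR0 : ∀ t, 0 < R t := fun t => lt_of_lt_of_le (by norm_num) (hR4 t)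
  have hDc : Continuous D := by
    rw [hD]
    fun_prop
  have hRc : Continuous R := by
    rw [hR]
    fun_prop
  set φ : V → ℝ → ℝ := bmp D R x0 with hφ
  have hφ0 : ∀ x t, 0 ≤ φ x t := fun x t => bmp_nonneg (hD0 t).le
  have hφm : ∀ x t, φ x t ≤ d := fun x t => (bmp_le (hD0 t).le).trans (hDd t)
  have hφc : Continuous (fun z : V × ℝ => φ z.1 z.2) := bmp_continuous x0 hDc hRc hR0
  set X' : Set (V × ℝ) := X ∩ {z | z.2 ≤ t1} with hX'
  set T : Set (V × ℝ) := Thick X' φ with hT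
  have hTs : SubIn (fun x => h x + 0) (ball x0 (rho + 3 / 2)) t0 T := by
    refine thick_subIn hm (hX.cut t1) (m := d) ?_ hφ0 (fun x t _ => hφm x t) hφc le_rfl ?_
    · intro x hx y hy
      rw [mem_ball, dist_eq_norm] at hx ⊢
      rw [mem_closedBall, dist_eq_norm] at hy
      calc ‖y - x0‖ = ‖(y - x) + (x - x0)‖ := by congr 1; abel
        _ ≤ ‖y - x‖ + ‖x - x0‖ := norm_add_le _ _
        _ < rho + 2 := by linarith
    · intro x t _ ht0 hxX hp
      have htt1 : t ≤ t1 := hxX.2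
      have hcd : HasDerivWithinAt c 1 (Iic t) t := by
        have h1 : HasDerivWithinAt (fun t' : ℝ => t' - t0) 1 (Iic t) t :=
          (hasDerivWithinAt_id t _).sub_const t0
        refine h1.congr_of_eventuallyEq ?_ (hce t ht0.le htt1)
        have h2 : ∀ᶠ t' in 𝓝[Iic t] t, t0 < t' :=
          nhdsWithin_le_nhds (eventually_gt_nhds ht0)
        filter_upwards [h2, self_mem_nhdsWithin] with t' h3 h4
        exact hce t' h3.le (le_trans h4 htt1)
      have hDdv : HasDerivWithinAt D (-(Gam M L) * D t) (Iic t) t := by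
        have h1 := ((hcd.const_mul (Gam M L)).neg.exp).const_mul d
        have h2 : d * (Real.exp (-(Gam M L * c t)) * -(Gam M L * 1)) = -(Gam M L) * D t := by
          simp only [hD]
          ring
        rw [← h2]
        exact h1
      have hRdv : HasDerivWithinAt R (-Cp M) (Iic t) t := by
        have h1 := (hcd.const_mul (Cp M)).const_sub rho
        rw [mul_one] at h1
        exact h1
      have hup := bmp_pos hp
      set u : ℝ := 1 - ‖x - x0‖ ^ 2 / (R t) ^ 2 with hu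
      have hxR : ‖x - x0‖ < R t := bmp_pos' (hR0 t) hp
      have hexp := exp2_bmp hDdv hRdv (hR0 t) (x0 := x0) (x1 := x) (u := u) hu hup
      obtain ⟨i1, i2⟩ := moving_ineq (L := L) (hD0 t) ((hDd t).trans hd) hm.one_le (hR4 t)
        (norm_nonneg (x - x0)) hxR.le hu hup
      refine ⟨_, _, _, hexp, ?_, ?_⟩
      · rw [q_norm (hD0 t).le]
        exact i1
      · intro xi hxi
        have hY := Y_ge (R := R t) (hD0 t).le hup.le (x - x0) xi hxi
        rw [q_norm (hD0 t).le]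
        have hφv : φ x t = D t * u ^ 3 := by
          rw [hφ, bmp, max_eq_right hup.le]
        rw [hφv]
        linarith
  set C : Set (V × ℝ) := {z | z ∈ T ∧ ‖z.1 - x0‖ < rho + 1 ∧ t0 < z.2 ∧ z.2 ≤ t1 ∧
    (z.1, z.2 + g) ∉ Flow h A} with hC
  have key : ∀ y t', (y, t') ∈ C → ‖y - x0‖ ≤ rho + 1 / 12 := by
    rintro y t' ⟨⟨x', hx'S, hyx⟩, hy, h1, h2, hF⟩
    dsimp only at hx'S hyx hy h1 h2 hF
    rcases (hφ0 x' t').eq_or_lt with h3 | h3
    · exfalso
      rw [← h3] at hyx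
      have h4 : y = x' := by
        rw [← sub_eq_zero, ← norm_le_zero_iff]
        exact hyx
      apply hF
      rw [h4] at hy ⊢
      exact hord x' t' hy h1.le h2 hx'S.1
    · have h4 : ‖x' - x0‖ < R t' := bmp_pos' (hR0 t') h3
      calc ‖y - x0‖ = ‖(y - x') + (x' - x0)‖ := by congr 1; abel
        _ ≤ ‖y - x'‖ + ‖x' - x0‖ := norm_add_le _ _
        _ ≤ rho + 1 / 12 := by linarith [hφm x' t', hRr t']
  have hCe : C = ∅ := by
    refine fill_in_sub hm hA g hTs (fun x _ => by simp) ?_ ?_ ?_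
    · rintro x t ⟨h1, h2, h3, h4, h5⟩
      refine ⟨h1, ?_, h3, by dsimp only at h3; linarith, h5⟩
      rw [mem_ball, dist_eq_norm]
      dsimp only at h2
      linarith
    · intro x t hxt
      by_cases hF : (x, t + g) ∈ Flow h A
      · exact Or.inr hF
      left
      have hK : IsClosed {z : V × ℝ | ‖z.1 - x0‖ ≤ rho + 1 / 12 ∧ t0 ≤ z.2 ∧ z.2 ≤ t1} := by
        refine IsClosed.and ?_ (IsClosed.and ?_ ?_)
        · exact isClosed_le ((continuous_fst.sub continuous_const).norm) continuous_const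
        · exact isClosed_le continuous_const continuous_snd
        · exact isClosed_le continuous_snd continuous_const
      have hsub : C ⊆ {z : V × ℝ | ‖z.1 - x0‖ ≤ rho + 1 / 12 ∧ t0 ≤ z.2 ∧ z.2 ≤ t1} := by
        rintro ⟨y, t'⟩ hyC
        exact ⟨key y t' hyC, hyC.2.2.1.le, hyC.2.2.2.1⟩
      obtain ⟨k1, k2, k3⟩ := closure_minimal hsub hK hxt
      dsimp only at k1 k2 k3
      have hxT : (x, t) ∈ T := by
        apply hTs.closed x t _ k2
        · refine closure_mono ?_ hxt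
          rintro ⟨y, t'⟩ ⟨h1, h2, h3, h4, h5⟩
          exact ⟨h1, h3.le⟩
        · rw [mem_ball, dist_eq_norm]
          linarith
      rcases k2.eq_or_lt with h6 | h6
      · exfalso
        apply hF
        obtain ⟨x', hx'S, hyx⟩ := hxT
        dsimp only at hx'S hyx
        have hx'X : (x', t0) ∈ X := by
          rw [h6]
          exact hx'S.1
        rcases (hφ0 x' t).eq_or_lt with h3 | h3
        · rw [← h3] at hyx
          have h4 : x = x' := by
            rw [← sub_eq_zero, ← norm_le_zero_iff]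
            exact hyx
          rw [← h6, h4]
          rw [h4] at k1
          exact hord x' t0 (by linarith) le_rfl h01 hx'X
        · have h4 : ‖x' - x0‖ < R t := bmp_pos' (hR0 t) h3
          have h5 := hgap x' (lt_of_lt_of_le h4 (hRr t)) hx'X
          rw [← h6]
          apply h5
          rw [mem_closedBall, dist_eq_norm]
          exact hyx.trans (hφm _ _)
      · exact ⟨hxT, by dsimp only; linarith, h6, k3, hF⟩
    · rintro x t ⟨h1, h2, h3, h4, h5⟩
      dsimp only at h2 h3 h4 h5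
      obtain ⟨r, hr, hr'⟩ := hop_aux (isClosed_flow h A) h5
      refine ⟨min r (min (rho + 1 - ‖x - x0‖) (t - t0)), lt_min hr (lt_min (by linarith)
        (by linarith)), fun y s' hy k1 k2 k3 => ?_⟩
      have m1 := min_le_left r (min (rho + 1 - ‖x - x0‖) (t - t0))
      have m2 := (min_le_right r (min (rho + 1 - ‖x - x0‖) (t - t0))).trans (min_le_left _ _)
      have m3 := (min_le_right r (min (rho + 1 - ‖x - x0‖) (t - t0))).trans (min_le_right _ _)
      refine ⟨k3, ?_, by dsimp only; linarith, by dsimp only; linarith,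
        hr' y s' (by linarith) (by linarith) k2⟩
      dsimp only
      calc ‖y - x0‖ = ‖(y - x) + (x - x0)‖ := by congr 1; abel
        _ ≤ ‖y - x‖ + ‖x - x0‖ := norm_add_le _ _
        _ < rho + 1 := by linarith
  intro x hx hxX y hy
  rw [mem_closedBall, dist_eq_norm] at hy
  have hexp1 : Real.exp (-(Gam M L * (t1 - t0))) ≤ 1 := by
    rw [Real.exp_le_one_iff]
    have := mul_nonneg hGam0 (sub_nonneg.2 h01)
    linarith
  have hyd : ‖y - x‖ ≤ d := by
    refine hy.trans ?_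
    have : d * Real.exp (-(Gam M L * (t1 - t0))) ≤ d * 1 := mul_le_mul_of_nonneg_left hexp1 hd0.le
    have h2 : 0 ≤ d * Real.exp (-(Gam M L * (t1 - t0))) := by positivity
    linarith
  rcases h01.eq_or_lt with h1 | h1
  · rw [← h1] at hxX ⊢
    apply hgap x (by linarith) hxX
    rw [mem_closedBall, dist_eq_norm]
    exact hyd
  by_contra hcn
  have hyC : (y, t1) ∈ C := by
    refine ⟨⟨x, ⟨hxX, le_refl t1⟩, ?_⟩, ?_, h1, le_rfl, hcn⟩
    · dsimp only
      refine hy.trans ?_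
      have hct : c t1 = t1 - t0 := hce t1 h01 le_rfl
      have e1 : φ x t1 = D t1 * (max 0 (1 - ‖x - x0‖ ^ 2 / (R t1) ^ 2)) ^ 3 := rfl
      have e2 : D t1 = d * Real.exp (-(Gam M L * (t1 - t0))) := by
        simp only [hD, hct]
      have e3 : (3 / 4 : ℝ) ≤ max 0 (1 - ‖x - x0‖ ^ 2 / (R t1) ^ 2) := by
        apply le_max_of_le_right
        have k1 : ‖x - x0‖ ^ 2 ≤ 4 := by
          have := pow_le_pow_left₀ (norm_nonneg _) hx 2
          norm_num at this
          exact this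
        have k2 : (16 : ℝ) ≤ (R t1) ^ 2 := by
          have := pow_le_pow_left₀ (by norm_num) (hR4 t1) 2
          norm_num at this
          exact this
        have k3 : ‖x - x0‖ ^ 2 / (R t1) ^ 2 ≤ 1 / 4 := by
          rw [div_le_iff₀ (by linarith)]
          linarith
        linarith
      have e4 : ((3 / 4 : ℝ)) ^ 3 ≤ (max 0 (1 - ‖x - x0‖ ^ 2 / (R t1) ^ 2)) ^ 3 :=
        pow_le_pow_left₀ (by norm_num) e3 3
      rw [e1, ← e2]
      have e5 : (1 / 4 : ℝ) ≤ (max 0 (1 - ‖x - x0‖ ^ 2 / (R t1) ^ 2)) ^ 3 := by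
        refine le_trans ?_ e4
        norm_num
      have e6 := mul_le_mul_of_nonneg_left e5 (hD0 t1).le
      linarith
    · dsimp only
      calc ‖y - x0‖ = ‖(y - x) + (x - x0)‖ := by congr 1; abel
        _ ≤ ‖y - x‖ + ‖x - x0‖ := norm_add_le _ _
        _ < rho + 1 := by linarith
  rw [hCe] at hyC
  exact hyC

/-- After a gap at the time `t1` the order persists for a short time. -/
theorem after_gap {M L : ℝ} {h : V → ℝ} (hm : Med M L h) {X : Set (V × ℝ)} {x0 : V} {t1 g d : ℝ}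
    (hX : SubIn h (ball x0 3) t1 X) {A : Set V} (hA : IsClosed A) (hg : 0 ≤ t1 + g) (hd0 : 0 < d)
    (hd : d ≤ 1) (hgap : ∀ x, ‖x - x0‖ ≤ 2 → (x, t1) ∈ X → closedBall x d ⊆ E h A (t1 + g))
    {s : ℝ} (hs0 : 0 ≤ s) (hs : s < hM M (d / 4)) {x : V} (hx : ‖x - x0‖ ≤ 1)
    (hxX : (x, t1 + s) ∈ X) : closedBall x (d / 4) ⊆ E h A (t1 + s + g) := by
  obtain ⟨y, hy, hyX⟩ := speed_small hm hX (r := d / 4) (by positivity)
    (by
      intro y hy
      rw [mem_closedBall, dist_eq_norm] at hy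
      rw [mem_ball, dist_eq_norm]
      calc ‖y - x0‖ = ‖(y - x) + (x - x0)‖ := by congr 1; abel
        _ ≤ ‖y - x‖ + ‖x - x0‖ := norm_add_le _ _
        _ < 3 := by linarith)
    hs0 hs hxX
  rw [mem_closedBall, dist_eq_norm] at hy
  have hy2 : ‖y - x0‖ ≤ 2 := by
    calc ‖y - x0‖ = ‖(y - x) + (x - x0)‖ := by congr 1; abel
      _ ≤ ‖y - x‖ + ‖x - x0‖ := norm_add_le _ _
      _ ≤ 2 := by linarith
  have hyE := hgap y hy2 hyX
  intro z hz
  rw [mem_closedBall, dist_eq_norm] at hz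
  have hzE : z ∈ E h (E h A (t1 + g)) s := by
    refine inner_center hm (r := d / 4) (by positivity) (Subset.trans ?_ hyE) hs0 hs
    intro w hw
    rw [mem_closedBall, dist_eq_norm] at hw ⊢
    calc ‖w - y‖ = ‖(w - z) + (z - x) - (y - x)‖ := by congr 1; abel
      _ ≤ ‖w - z‖ + ‖z - x‖ + ‖y - x‖ := (norm_sub_le _ _).trans (by
          have := norm_add_le (w - z) (z - x)
          linarith)
      _ ≤ d := by linarith
  rw [← E_add hm hA hg hs0] at hzE
  have : t1 + g + s = t1 + s + g := by ring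
  rwa [this] at hzE

end Pool.Agent.FCF
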