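import Pool.Agent.FCF.FlowBasic
import Pool.Agent.VSC.LFin

/-!
# Maximal flows and viscosity solutions: comparison, covering, level sets
-/

set_option autoImplicit false

open scoped RealInnerProductSpace Topology
open Set Metric Filter

namespace Pool.Agent.FCF

open Pool.Agent.VSC

/-- Bridge: a global subflow cut at time `T` is a `Subflow`. -/
theorem GSub.subflow {h : V → ℝ} {A : Set V} {S : Set (V × ℝ)} (hS : GSub h A S) (T : ℝ) :
    Subflow h T (S ∩ {z | z.2 ≤ T}) := by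
  have hc : IsClosed S := hS.sub.isClosed hS.nonneg
  refine ⟨hc.inter (isClosed_le continuous_snd continuous_const), fun x t hx => hS.nonneg x t hx.1,
    fun x t hx => hx.2, ?_, ?_⟩
  · intro x0 t0 hx ht a p X hj hp xi h1 h2
    have hlow : LowJet S x0 t0 (-a) (-p) (-X) := by
      intro eps heps
      obtain ⟨r, hr, h3⟩ := hj eps heps
      refine ⟨r, hr, fun x t h4 h5 h6 h7 => ?_⟩
      have h8 := h3 x t ⟨h4, h7.trans hx.2⟩ h5 h6 h7
      have e1 : (-X) (x - x0) (x - x0) = -(X (x - x0) (x - x0)) := rfl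
      rw [e1, inner_neg_left]
      linarith
    have h3 := (hS.sub.sub x0 t0 (mem_univ _) ht hx.1).jet (-a) (-p) (-X) hlow (neg_ne_zero.2 hp) xi h1
      (by rw [inner_neg_right, h2, neg_zero])
    have e1 : (-X) xi xi = -(X xi xi) := rfl
    rw [e1, norm_neg] at h3
    linarith
  · intro x0 t0 hx ht r hr
    obtain ⟨x, t, h1, h2, h3, h4⟩ := (hS.sub.sub x0 t0 (mem_univ _) ht hx.1).left r hr
    exact ⟨x, t, ⟨h1, h4.le.trans hx.2⟩, h2, h3, h4⟩

/-- Bridge: the other direction. -/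
theorem gsub_of_subflow {h : V → ℝ} {A : Set V} {S : Set (V × ℝ)}
    (hS : ∀ T : ℝ, Subflow h T (S ∩ {z | z.2 ≤ T})) (hinit : ∀ x, (x, (0 : ℝ)) ∈ S → x ∈ A) :
    GSub h A S := by
  have hn : ∀ x t, (x, t) ∈ S → 0 ≤ t := fun x t hx => (hS t).time_nonneg x t ⟨hx, le_refl t⟩
  have hc : IsClosed S := by
    refine isClosed_of_closure_subset fun z hz => ?_
    have h1 : z ∈ closure (S ∩ {w | w.2 ≤ z.2 + 1}) := by
      rw [mem_closure_iff_nhds] at hz ⊢
      intro N hN
      have h2 : {w : V × ℝ | w.2 < z.2 + 1} ∈ 𝓝 z :=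
        (continuous_snd.tendsto z).eventually (gt_mem_nhds (lt_add_one _))
      obtain ⟨w, ⟨h3, h4⟩, h5⟩ := hz _ (Filter.inter_mem hN h2)
      exact ⟨w, h3, h5, (show w.2 < z.2 + 1 from h4).le⟩
    exact ((hS (z.2 + 1)).closed.closure_subset h1).1
  refine ⟨hn, SubIn.of_closed hc fun x t _ ht hx => ?_, hinit⟩
  have hT := hS t
  refine ⟨fun a p X hj hp xi h1 h2 => ?_, fun r hr => ?_⟩
  · refine hT.low ⟨hx, le_refl t⟩ ht (a := a) (p := p) (X := X) ?_ hp h1 h2
    intro eps heps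
    obtain ⟨r, hr, h3⟩ := hj eps heps
    exact ⟨r, hr, fun x t h4 h5 h6 h7 => h3 x t h4.1 h5 h6 h7⟩
  · obtain ⟨y, s, h1, h2, h3, h4⟩ := hT.left x t ⟨hx, le_refl t⟩ ht r hr
    exact ⟨y, s, h1.1, h2, h3, h4⟩

theorem Med.neg' {M L : ℝ} {h : V → ℝ} (hm : Med M L h) : Med M L (fun x => -h x) :=
  ⟨hm.one_le, hm.one_le', fun x => by rw [abs_neg]; exact hm.bd x, fun x y => by
    rw [neg_sub_neg, abs_sub_comm]; exact hm.lip x y⟩

/-- Disjointness of maximal flows with opposite forces from sets at positive distance. -/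
theorem comp_flow {M L : ℝ} {h : V → ℝ} (hm : Med M L h) {A B : Set V} (hA : IsClosed A)
    (hB : IsClosed B) {d : ℝ} (hd : 0 < d) (hAB : ∀ a ∈ A, ∀ b ∈ B, d ≤ ‖a - b‖) {t : ℝ} {x : V}
    (h1 : x ∈ E h A t) (h2 : x ∈ E (fun x => -h x) B t) : False := by
  have hS := flow_gsub hm hA
  have hK := flow_gsub hm.neg' hB
  exact comparison (hS.subflow t) (hK.subflow t) hm.bd (by linarith [hm.one_le']) hm.lip hd
    (fun a b ha hb => hAB a (hS.init a ha.1) b (hK.init b hb.1)) x t ⟨h1, le_refl t⟩ ⟨h2, le_refl t⟩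

/-- Superlevel sets of viscosity subsolutions are global subflows. -/
theorem viscSub_gsub {M L : ℝ} {h : V → ℝ} (hm : Med M L h) {u : V × ℝ → ℝ} (hu : UpperSemicontinuousOn u DD)
    (hs : ViscSub h u) (l : ℝ) {A : Set V} (hA : ∀ x, l ≤ u (x, 0) → x ∈ A) :
    GSub h A {z | 0 ≤ z.2 ∧ l ≤ u z} := by
  have hfc : Continuous h := by
    have hl : LipschitzWith ⟨L, by linarith [hm.one_le']⟩ h := LipschitzWith.of_dist_le_mul fun x y => by
      rw [Real.dist_eq, dist_eq_norm]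
      exact hm.lip x y
    exact hl.continuous
  refine gsub_of_subflow (fun T => ?_) fun x hx => hA x hx.2
  have h1 := hs.subflow hfc hm.bd hu l T
  have h2 : {z : V × ℝ | 0 ≤ z.2 ∧ l ≤ u z} ∩ {z | z.2 ≤ T} = {z : V × ℝ | 0 ≤ z.2 ∧ z.2 ≤ T ∧ l ≤ u z} := by
    ext z
    simp only [mem_inter_iff, mem_setOf_eq]
    tauto
  rw [h2]
  exact h1

/-- Superlevel sets of the solution are the maximal flows. -/
theorem level_ge {M L : ℝ} {h : V → ℝ} (hm : Med M L h) {e : V} (he : ‖e‖ = 1) {u : V × ℝ → ℝ}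
    (hu : ContinuousOn u DD) (hu1 : ViscSub h u) (hu2 : ViscSuper h u) (hu0 : ∀ x, u (x, 0) = -⟪x, e⟫) (l : ℝ) {t : ℝ}
    (ht : 0 ≤ t) (x : V) : l ≤ u (x, t) ↔ x ∈ E h (HP e (-l)) t := by
  have hcl : IsClosed (HP e (-l)) := isClosed_le (by fun_prop) continuous_const
  constructor
  · intro hx
    have h1 := viscSub_gsub hm hu.upperSemicontinuousOn hu1 l (A := HP e (-l)) (fun y hy => by
      rw [hu0] at hy
      show ⟪y, e⟫ ≤ -l
      linarith)
    exact sub_flow h1 ⟨ht, hx⟩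
  · intro hx
    by_contra hlt
    push Not at hlt
    obtain ⟨b, hb1, hb2⟩ := exists_between hlt
    have hS := (flow_gsub hm hcl).subflow t
    have hK := (viscSub_gsub hm.neg' hu.neg.upperSemicontinuousOn hu2 (-b) (A := {y | -b ≤ -u (y, 0)})
      (fun y hy => hy)).subflow t
    refine comparison hS hK hm.bd (by linarith [hm.one_le']) hm.lip (d0 := l - b) (by linarith) (fun y y' hy hy' => ?_)
      x t ⟨hx, le_refl t⟩ ⟨⟨ht, ?_⟩, le_refl t⟩
    · have h1 : ⟪y, e⟫ ≤ -l := (flow_gsub hm hcl).init y hy.1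
      have h2 : -b ≤ -u (y', 0) := hy'.1.2
      rw [hu0] at h2
      have h3 : ⟪y' - y, e⟫ ≤ ‖y - y'‖ := by
        refine (real_inner_le_norm _ _).trans ?_
        rw [he, mul_one, norm_sub_rev]
      rw [inner_sub_left] at h3
      linarith
    · show -b ≤ -u (x, t)
      linarith

/-- Sublevel sets of the solution are the maximal flows of the opposite force. -/
theorem level_le {M L : ℝ} {h : V → ℝ} (hm : Med M L h) {e : V} (he : ‖e‖ = 1) {u : V × ℝ → ℝ}
    (hu : ContinuousOn u DD) (hu1 : ViscSub h u) (hu2 : ViscSuper h u) (hu0 : ∀ x, u (x, 0) = -⟪x, e⟫) (l : ℝ) {t : ℝ}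
    (ht : 0 ≤ t) (x : V) : u (x, t) ≤ l ↔ x ∈ E (fun x => -h x) (HQ e (-l)) t := by
  have h1 : ViscSuper (fun x => -h x) (fun z => -u z) := by
    show ViscSub (fun x => -(-h x)) (fun z => -(-u z))
    have e1 : (fun x => -(-h x)) = h := by funext x; ring
    have e2 : (fun z => -(-u z)) = u := by funext z; ring
    rw [e1, e2]
    exact hu1
  have h2 := level_ge hm.neg' (e := -e) (by rw [norm_neg, he]) (u := fun z => -u z) hu.neg hu2 h1
    (fun x => by rw [hu0, inner_neg_right]) (-l) ht x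
  have h3 : HP (-e) (-(-l)) = HQ e (-l) := by
    ext y
    simp only [HP, HQ, mem_setOf_eq, inner_neg_right]
    constructor <;> intro h <;> linarith
  rw [h3] at h2
  rw [← h2]
  constructor <;> intro h <;> linarith

/-- The two maximal flows from complementary half planes cover the plane. -/
theorem cover_flow {M L : ℝ} {h : V → ℝ} (hm : Med M L h) {e : V} (he : ‖e‖ = 1) (a : ℝ) {t : ℝ}
    (ht : 0 ≤ t) (x : V) : x ∈ E h (HP e a) t ∨ x ∈ E (fun x => -h x) (HQ e a) t := by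
  obtain ⟨u, hu, hu1, hu2, hu0, -⟩ := exists_solution hm.bd (by linarith [hm.one_le']) hm.lip he
  rcases le_total (-a) (u (x, t)) with h1 | h1
  · left
    have := (level_ge hm he hu hu1 hu2 hu0 (-a) ht x).1 h1
    rwa [neg_neg] at this
  · right
    have := (level_le hm he hu hu1 hu2 hu0 (-a) ht x).1 h1
    rwa [neg_neg] at this

end Pool.Agent.FCF
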