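import Pool.Agent.FCF.TopO

/-!
# FCF / TopLip: coarse Lipschitz bounds of the canonical arrival functions (FCF_PROOF.md, 3.7, 3.8)

`clE_of` and `clO_of` are the fields `clE` and `clO` of `Canon`.
-/

set_option autoImplicit false

namespace Pool.Agent.FCF

open Pool.Agent.VSC (V J LowJet)
open Set Metric Filter Topology

/-- Far case, increasing flows. -/
theorem far_E {M L : ℝ} {h : V → ℝ} (hm : Med M L h) {A : Set V} (hA : IsClosed A)
    (hmono : ∀ s t : ℝ, 0 ≤ s → s ≤ t → E h A s ⊆ E h A t) {x : V} {r sg a : ℝ} (hr : 1 ≤ r)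
    (hsg : 0 ≤ sg) (ha5 : 5 * r ≤ a) (haR : 2 * r + (2 * M + 4) * sg + 1 < a)
    (hexp : ∀ z : V, ‖z - x‖ ≤ 7 * a → closedBall z (10 * r) ⊆ E h (closedBall z r) sg)
    (hfar : Disjoint (closedBall x (10 * a)) A) {t : ℝ} (ht : 0 ≤ t) (hx : x ∈ E h A t) {n : ℕ}
    (hn : 10 * a ≤ 7 * r * n) {y : V} (hy : ‖y - x‖ < 10 * r) :
    y ∈ E h A (t + (n + n : ℕ) * sg) := by
  obtain ⟨K, hKc, hKp, hxK, hKE, w, hw, hwx⟩ := fat_E hm hA hmono hx (by linarith) hfar
  have := no_late hKc hKp hxK (by linarith : 0 < r) ha5 hw (by rw [hwx]; linarith)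
    (G := fun j : ℕ => {v | v ∉ E h A (t + (j : ℕ) * sg)}) (by
      intro z hz j v hv hvz
      have h1 : v ∉ E h A ((t + (j : ℕ) * sg) + sg) := by
        have h2 : t + ((j + 1 : ℕ) : ℝ) * sg = (t + (j : ℕ) * sg) + sg := by push_cast; ring
        have h3 : v ∉ E h A (t + ((j + 1 : ℕ) : ℝ) * sg) := hv
        rwa [h2] at h3
      obtain ⟨y', h2, h3, h4⟩ := chain_E hm hA hmono hKc.isClosed ht hKE hr hsg
        (by linarith : r + (2 * M + 4) * sg + 1 < a) (hexp z hz)
        (by nlinarith [mul_nonneg (Nat.cast_nonneg (α := ℝ) j) hsg] : t ≤ t + (j : ℕ) * sg) hvz h1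
      exact ⟨y', h2, by linarith, h4⟩) hn hy
  by_contra hcon
  exact this hcon

/-- Near case, increasing flows: a chain of balls. -/
theorem near_E {M L : ℝ} {h : V → ℝ} (hm : Med M L h) {A : Set V} (hA : IsClosed A) {x b : V}
    {r sg D : ℝ} (hr : 0 < r) (hsg : 0 ≤ sg) (hbx : ‖b - x‖ ≤ D)
    (hexp : ∀ z : V, ‖z - x‖ ≤ D → closedBall z (10 * r) ⊆ E h (closedBall z r) sg)
    (hb : closedBall b r ⊆ A) {n : ℕ} (hn0 : 0 < n) (hn : ‖b - x‖ ≤ 9 * r * n) :
    closedBall x (10 * r) ⊆ E h A ((n + 1 : ℕ) * sg) := by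
  have hn' : (0:ℝ) < n := by exact_mod_cast hn0
  set z : ℕ → V := fun i => b + ((i : ℝ) / n) • (x - b) with hz
  have hstep : ∀ i : ℕ, ‖z (i + 1) - z i‖ ≤ 9 * r := by
    intro i
    have h3 : z (i + 1) - z i = ((1 : ℝ) / n) • (x - b) := by
      simp only [hz]
      rw [add_sub_add_left_eq_sub, ← sub_smul]
      congr 1
      push_cast
      ring
    rw [h3, norm_smul, Real.norm_eq_abs, abs_of_pos (by positivity), div_mul_eq_mul_div, one_mul,
      div_le_iff₀ hn', norm_sub_rev]
    exact hn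
  have hD : ∀ i : ℕ, i ≤ n → ‖z i - x‖ ≤ D := by
    intro i hi
    have hi' : (i : ℝ) ≤ n := by exact_mod_cast hi
    have h3 : z i - x = (1 - (i : ℝ) / n) • (b - x) := by
      simp only [hz]
      module
    rw [h3, norm_smul, Real.norm_eq_abs, abs_of_nonneg (by
      rw [sub_nonneg, div_le_one hn']; exact hi')]
    have h4 : 1 - (i : ℝ) / n ≤ 1 := by
      have : 0 ≤ (i : ℝ) / n := by positivity
      linarith
    exact (mul_le_of_le_one_left (norm_nonneg _) h4).trans hbx
  have key : ∀ i : ℕ, i ≤ n → closedBall (z i) (10 * r) ⊆ E h A ((i + 1 : ℕ) * sg) := by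
    intro i
    induction i with
    | zero =>
      intro _
      have h0 : z 0 = b := by simp [hz]
      have h1 := hexp (z 0) (hD 0 (Nat.zero_le _))
      rw [h0] at h1 ⊢
      simp only [zero_add, Nat.cast_one, one_mul]
      exact h1.trans (E_mono hb sg)
    | succ i ih =>
      intro hi
      have h1 := ih (by omega)
      have h2 := hexp (z (i + 1)) (hD (i + 1) hi)
      have h3 : closedBall (z (i + 1)) r ⊆ closedBall (z i) (10 * r) := by
        refine closedBall_subset_closedBall' ?_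
        rw [dist_eq_norm]
        linarith [hstep i]
      have h4 : ((i + 1 + 1 : ℕ) : ℝ) * sg = ((i + 1 : ℕ) : ℝ) * sg + sg := by push_cast; ring
      rw [h4, E_add hm hA (by positivity) hsg]
      exact h2.trans (E_mono (h3.trans h1) sg)
  have h5 := key n le_rfl
  have h6 : z n = x := by
    simp only [hz]
    rw [div_self hn'.ne', one_smul]; abel
  rwa [h6] at h5

/-- Far case, decreasing flows. -/
theorem far_O {M L : ℝ} {h : V → ℝ} (hm : Med M L h)
    (hcomp : ∀ A B : Set V, IsClosed A → IsClosed B → ∀ d : ℝ, 0 < d →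
      (∀ a ∈ A, ∀ b ∈ B, d ≤ ‖a - b‖) → ∀ (t : ℝ) (x : V), x ∈ E h A t →
      x ∈ E (fun x => -h x) B t → False)
    {B : Set V} (hB : IsClosed B)
    (hanti : ∀ s t : ℝ, 0 ≤ s → s ≤ t → E (fun x => -h x) B t ⊆ E (fun x => -h x) B s) {x : V}
    {r sg a : ℝ} (hr : 1 ≤ r) (hsg : 0 < sg) (ha5 : 5 * r ≤ a)
    (haR : 2 * r + (2 * M + 4) * sg + 1 < a)
    (hexp : ∀ z : V, ‖z - x‖ ≤ 7 * a → closedBall z (10 * r) ⊆ E h (closedBall z r) sg)
    (hfar : ball x (10 * a) ⊆ B) {t : ℝ} (ht : 0 ≤ t) (hx : x ∉ E (fun x => -h x) B t) {n : ℕ}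
    (hn : 10 * a ≤ 7 * r * n) {y : V} (hy : ‖y - x‖ < 10 * r) :
    y ∉ E (fun x => -h x) B (t + (n + n : ℕ) * sg) := by
  obtain ⟨K, hKc, hKp, hxK, hKE, w, hw, hwx⟩ := fat_O hm.neg hB hanti ht hx
    (rho := 10 * a) (rho' := 7 * a) (by linarith) (by linarith) hfar
  exact no_late hKc hKp hxK (by linarith : 0 < r) ha5 hw (by linarith)
    (G := fun j : ℕ => {v | v ∈ E (fun x => -h x) B (t + (j : ℕ) * sg)}) (by
      intro z hz j v hv hvz
      have h1 : v ∈ E (fun x => -h x) B ((t + (j : ℕ) * sg) + sg) := by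
        have h2 : t + ((j + 1 : ℕ) : ℝ) * sg = (t + (j : ℕ) * sg) + sg := by push_cast; ring
        have h3 : v ∈ E (fun x => -h x) B (t + ((j + 1 : ℕ) : ℝ) * sg) := hv
        rwa [h2] at h3
      obtain ⟨y', h2, h3, h4⟩ := chain_O hm hcomp hB hanti hKc.isClosed ht hKE hr hsg haR (hexp z hz)
        (by nlinarith [mul_nonneg (Nat.cast_nonneg (α := ℝ) j) hsg.le] : t ≤ t + (j : ℕ) * sg)
        hvz h1
      exact ⟨y', h2, h3, h4⟩) hn hy

/-- Near case, decreasing flows. -/
theorem near_O {M L : ℝ} {h : V → ℝ} (hm : Med M L h)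
    (hcomp : ∀ A B : Set V, IsClosed A → IsClosed B → ∀ d : ℝ, 0 < d →
      (∀ a ∈ A, ∀ b ∈ B, d ≤ ‖a - b‖) → ∀ (t : ℝ) (x : V), x ∈ E h A t →
      x ∈ E (fun x => -h x) B t → False)
    {B : Set V} (hB : IsClosed B) {x b : V}
    {r sg D : ℝ} (hr : 0 < r) (hsg : 0 ≤ sg) (hbx : ‖b - x‖ ≤ D)
    (hexp : ∀ z : V, ‖z - x‖ ≤ D → closedBall z (10 * r) ⊆ E h (closedBall z r) sg)
    (hb : Disjoint (ball b (2 * r)) B) {n : ℕ} (hn0 : 0 < n) (hn : ‖b - x‖ ≤ 8 * r * n) :
    Disjoint (closedBall x (10 * r)) (E (fun x => -h x) B ((n + 1 : ℕ) * sg)) := by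
  have hmk : Med M L (fun x => -h x) := hm.neg
  have hn' : (0:ℝ) < n := by exact_mod_cast hn0
  set z : ℕ → V := fun i => b + ((i : ℝ) / n) • (x - b) with hz
  have hstep : ∀ i : ℕ, ‖z (i + 1) - z i‖ ≤ 8 * r := by
    intro i
    have h3 : z (i + 1) - z i = ((1 : ℝ) / n) • (x - b) := by
      simp only [hz]
      rw [add_sub_add_left_eq_sub, ← sub_smul]
      congr 1
      push_cast
      ring
    rw [h3, norm_smul, Real.norm_eq_abs, abs_of_pos (by positivity), div_mul_eq_mul_div, one_mul,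
      div_le_iff₀ hn', norm_sub_rev]
    exact hn
  have hD : ∀ i : ℕ, i ≤ n → ‖z i - x‖ ≤ D := by
    intro i hi
    have hi' : (i : ℝ) ≤ n := by exact_mod_cast hi
    have h3 : z i - x = (1 - (i : ℝ) / n) • (b - x) := by
      simp only [hz]
      module
    rw [h3, norm_smul, Real.norm_eq_abs, abs_of_nonneg (by
      rw [sub_nonneg, div_le_one hn']; exact hi')]
    have h4 : 1 - (i : ℝ) / n ≤ 1 := by
      have : 0 ≤ (i : ℝ) / n := by positivity
      linarith
    exact (mul_le_of_le_one_left (norm_nonneg _) h4).trans hbx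
  -- one step
  have one : ∀ (c : V) (s : ℝ), 0 ≤ s → ‖c - x‖ ≤ D →
      Disjoint (ball c (2 * r)) (E (fun x => -h x) B s) →
      Disjoint (closedBall c (10 * r)) (E (fun x => -h x) B (s + sg)) := by
    intro c s hs hc hdis
    rw [Set.disjoint_left]
    intro v hv hvB
    rw [E_add hmk hB hs hsg] at hvB
    refine hcomp _ _ isClosed_closedBall (isClosed_E (fun x => -h x) B s) r hr ?_ sg v
      (hexp c hc hv) hvB
    intro p hp q hq
    have h1 : q ∉ ball c (2 * r) := fun h2 => hdis.le_bot ⟨h2, hq⟩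
    rw [mem_ball, dist_eq_norm] at h1
    rw [mem_closedBall, dist_eq_norm] at hp
    push Not at h1
    have h4 : q - c = (p - c) - (p - q) := by abel
    have h5 : ‖q - c‖ ≤ ‖p - c‖ + ‖p - q‖ := by rw [h4]; exact norm_sub_le _ _
    linarith
  have key : ∀ i : ℕ, i ≤ n → Disjoint (closedBall (z i) (10 * r))
      (E (fun x => -h x) B ((i + 1 : ℕ) * sg)) := by
    intro i
    induction i with
    | zero =>
      intro _
      have h0 : z 0 = b := by simp [hz]
      have h1 := one (z 0) 0 le_rfl (hD 0 (Nat.zero_le _)) (by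
        rw [E_zero hmk hB, h0]; exact hb)
      rw [zero_add] at h1
      simp only [zero_add, Nat.cast_one, one_mul]
      exact h1
    | succ i ih =>
      intro hi
      have h1 := ih (by omega)
      have h3 : ball (z (i + 1)) (2 * r) ⊆ closedBall (z i) (10 * r) := by
        refine ball_subset_closedBall.trans (closedBall_subset_closedBall' ?_)
        rw [dist_eq_norm]
        linarith [hstep i]
      have h4 : ((i + 1 + 1 : ℕ) : ℝ) * sg = ((i + 1 : ℕ) : ℝ) * sg + sg := by push_cast; ring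
      rw [h4]
      exact one _ _ (by positivity) (hD (i + 1) hi) (h1.mono_left h3)
  have h5 := key n le_rfl
  have h6 : z n = x := by
    simp only [hz]
    rw [div_self hn'.ne', one_smul]; abel
  rwa [h6] at h5

/-- The number of steps. -/
theorem exists_n {C1 r : ℝ} (hC1 : 10 ≤ C1) (hr : 1 ≤ r) :
    ∃ n : ℕ, 0 < n ∧ 10 * (C1 * r) ≤ 7 * r * n ∧ 4 * (n : ℝ) ≤ 10 * C1 := by
  refine ⟨⌈10 / 7 * C1⌉₊, Nat.ceil_pos.2 (by linarith), ?_, ?_⟩
  · have h1 := Nat.le_ceil (10 / 7 * C1)
    have h2 : 7 * r * (10 / 7 * C1) ≤ 7 * r * (⌈10 / 7 * C1⌉₊ : ℝ) :=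
      mul_le_mul_of_nonneg_left h1 (by linarith)
    linarith
  · have h1 := (Nat.ceil_lt_add_one (by linarith : 0 ≤ 10 / 7 * C1)).le
    linarith

theorem Par.C1_ge (p : Par) : 10 ≤ p.C1 := by
  unfold Par.C1 Par.M1
  nlinarith [p.hM, p.hsig]

theorem clE_of {p : Par} {c : V → ℝ} (hc : p.Env c) {e : V} (he : ‖e‖ = 1) {A0 : Set V}
    (hA : IsClosed A0) {C : ℝ} (hsup : HP e 0 ⊆ A0) (hsub : A0 ⊆ HP e C)
    (hmono : ∀ s t : ℝ, 0 ≤ s → s ≤ t → E (frc c p.F) A0 s ⊆ E (frc c p.F) A0 t) {TE : V → ℝ}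
    (hTE0 : ∀ x, 0 ≤ TE x) (hTE : ∀ x t, 0 ≤ t → (TE x ≤ t ↔ x ∈ E (frc c p.F) A0 t)) :
    ∀ x r, 1 ≤ r → p.fine c x r →
      (C ≤ r ∨ closedBall x (p.Cs * r) ⊆ {y | C < inner ℝ y e}) →
      ∀ y z, ‖y - x‖ < 9 * r → ‖z - x‖ < 9 * r → |TE y - TE z| ≤ p.C3 * r := by
  intro x r hr hfine hcase
  have hC1 := p.C1_ge
  have hsig := p.hsig
  obtain ⟨n, hn0, hn, hn4⟩ := exists_n hC1 hr
  have hr0 : 0 < r := by linarith
  set sg : ℝ := p.sig * r with hsg
  have hsg0 : 0 ≤ sg := by positivity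
  set a : ℝ := p.C1 * r with ha
  have ha5 : 10 * r ≤ a := by rw [ha]; nlinarith
  have hCs : p.Cs * r = 20 * a := by unfold Par.Cs; rw [ha]; ring
  have haR : 2 * r + (2 * p.M + 4) * sg + 1 < a := by
    rw [ha, hsg]
    unfold Par.C1 Par.M1
    nlinarith
  have hnr : (1:ℝ) ≤ n := by exact_mod_cast hn0
  have hm := hc.med
  have key : ∀ x' : V, ‖x' - x‖ < 9 * r → ∀ y : V, ‖y - x'‖ < 10 * r →
      TE y ≤ TE x' + (n + n : ℕ) * sg := by
    intro x' hx' y hy
    have hexp : ∀ z : V, ‖z - x'‖ ≤ 11 * a →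
        closedBall z (10 * r) ⊆ E (frc c p.F) (closedBall z r) sg := by
      intro z hz
      refine hfine z ?_
      rw [hCs]
      have h1 : z - x = (z - x') + (x' - x) := by abel
      rw [h1]
      refine (norm_add_le _ _).trans ?_
      linarith
    by_cases hfar : Disjoint (closedBall x' (10 * a)) A0
    · rw [hTE _ _ (add_nonneg (hTE0 _) (by positivity))]
      exact far_E hm hA hmono hr hsg0 (by linarith) haR
        (fun z hz => hexp z (by linarith)) hfar (hTE0 x') ((hTE _ _ (hTE0 x')).1 le_rfl) hn hy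
    · rw [Set.not_disjoint_iff] at hfar
      obtain ⟨q, hq1, hq2⟩ := hfar
      rw [mem_closedBall, dist_eq_norm] at hq1
      have hqC : inner ℝ q e ≤ C := hsub hq2
      have hCr : C ≤ r := by
        rcases hcase with h | h
        · exact h
        · exfalso
          have h1 : q ∈ closedBall x (p.Cs * r) := by
            rw [mem_closedBall, dist_eq_norm, hCs]
            have h2 : q - x = (q - x') + (x' - x) := by abel
            rw [h2]
            refine (norm_add_le _ _).trans ?_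
            linarith
          have h2 : C < inner ℝ q e := h h1
          linarith
      set b : V := q - (2 * r) • e with hb
      have hbq : ‖b - x'‖ ≤ 10 * a + 2 * r := by
        have h2 : b - x' = (q - x') - (2 * r) • e := by rw [hb]; abel
        rw [h2]
        refine (norm_sub_le _ _).trans ?_
        rw [norm_smul, he, Real.norm_eq_abs, abs_of_pos (by linarith)]
        linarith
      have hbA : closedBall b r ⊆ A0 := by
        refine Subset.trans ?_ hsup
        intro v hv
        rw [mem_closedBall, dist_eq_norm] at hv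
        show inner ℝ v e ≤ 0
        have h2 : v = (v - b) + b := by abel
        rw [h2, inner_add_left]
        have h3 : inner ℝ (v - b) e ≤ r := by
          refine (le_abs_self _).trans ((abs_real_inner_le_norm _ _).trans ?_)
          rw [he, mul_one]; exact hv
        have h4 : inner ℝ b e = inner ℝ q e - 2 * r := by
          rw [hb, inner_sub_left, real_inner_smul_left, real_inner_self_eq_norm_sq, he]; ring
        rw [h4]
        linarith
      have h1 := near_E hm hA hr0 hsg0 (by linarith : ‖b - x'‖ ≤ 11 * a) hexp hbA hn0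
        (by linarith)
      have h2 : y ∈ closedBall x' (10 * r) := by rw [mem_closedBall, dist_eq_norm]; exact hy.le
      have h3 := (hTE y _ (by positivity)).2 (h1 h2)
      have h4 : ((n + 1 : ℕ) : ℝ) * sg ≤ ((n + n : ℕ) : ℝ) * sg := by
        push_cast
        nlinarith
      have h5 := hTE0 x'
      linarith
  have h2 : 2 * (((n + n : ℕ) : ℝ) * sg) ≤ p.C3 * r := by
    unfold Par.C3
    rw [hsg]
    push_cast
    have h3 : 0 ≤ p.sig * r := hsg0
    nlinarith
  have hbd : ∀ y z : V, ‖y - x‖ < 9 * r → ‖z - x‖ < 9 * r → TE y - TE z ≤ p.C3 * r := by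
    intro y z hy hz
    have h3 := key x (by rw [sub_self, norm_zero]; linarith) y (by linarith)
    have h4 := key z hz x (by rw [norm_sub_rev]; linarith)
    linarith
  intro y z hy hz
  rw [abs_le]
  constructor
  · have := hbd z y hz hy
    linarith
  · exact hbd y z hy hz

theorem clO_of {p : Par} {c : V → ℝ} (hc : p.Env c)
    (hcomp : ∀ A B : Set V, IsClosed A → IsClosed B → ∀ d : ℝ, 0 < d →
      (∀ a ∈ A, ∀ b ∈ B, d ≤ ‖a - b‖) → ∀ (t : ℝ) (x : V), x ∈ E (frc c p.F) A t →
      x ∈ E (fun x => -frc c p.F x) B t → False)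
    {e : V} (he : ‖e‖ = 1) {B0 : Set V}
    (hB : IsClosed B0) {C : ℝ} (hsup : HQ e C ⊆ B0) (hsub : B0 ⊆ HQ e 0)
    (hanti : ∀ s t : ℝ, 0 ≤ s → s ≤ t →
      E (fun x => -frc c p.F x) B0 t ⊆ E (fun x => -frc c p.F x) B0 s) {TO : V → ℝ}
    (hTO0 : ∀ x, 0 ≤ TO x)
    (hTO : ∀ x t, 0 < t → (t ≤ TO x ↔ x ∈ E (fun x => -frc c p.F x) B0 t)) :
    ∀ x r, 1 ≤ r → p.fine c x r →
      (C ≤ r ∨ closedBall x (p.Cs * r) ⊆ {y | C < inner ℝ y e}) →
      ∀ y z, ‖y - x‖ < 9 * r → ‖z - x‖ < 9 * r → |TO y - TO z| ≤ p.C3 * r := by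
  intro x r hr hfine hcase
  have hC1 := p.C1_ge
  have hsig := p.hsig
  obtain ⟨n, hn0, hn, hn4⟩ := exists_n hC1 hr
  have hr0 : 0 < r := by linarith
  set sg : ℝ := p.sig * r with hsg
  have hsg0 : 0 < sg := by positivity
  set a : ℝ := p.C1 * r with ha
  have ha5 : 10 * r ≤ a := by rw [ha]; nlinarith
  have hCs : p.Cs * r = 20 * a := by unfold Par.Cs; rw [ha]; ring
  have haR : 2 * r + (2 * p.M + 4) * sg + 1 < a := by
    rw [ha, hsg]
    unfold Par.C1 Par.M1
    nlinarith
  have hnr : (1:ℝ) ≤ n := by exact_mod_cast hn0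
  have hm := hc.med
  have key : ∀ x' : V, ‖x' - x‖ < 9 * r → ∀ y : V, ‖y - x'‖ < 10 * r →
      TO y ≤ TO x' + (n + n : ℕ) * sg := by
    intro x' hx' y hy
    have hexp : ∀ z : V, ‖z - x'‖ ≤ 11 * a →
        closedBall z (10 * r) ⊆ E (frc c p.F) (closedBall z r) sg := by
      intro z hz
      refine hfine z ?_
      rw [hCs]
      have h1 : z - x = (z - x') + (x' - x) := by abel
      rw [h1]
      refine (norm_add_le _ _).trans ?_
      linarith
    by_cases hfar : ball x' (10 * a) ⊆ B0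
    · refine le_of_forall_gt_imp_ge_of_dense ?_
      intro s hs
      set t : ℝ := s - (n + n : ℕ) * sg with ht
      have htx : TO x' < t := by rw [ht]; linarith
      have ht0 : 0 < t := lt_of_le_of_lt (hTO0 x') htx
      have hx't : x' ∉ E (fun x => -frc c p.F x) B0 t := by
        rw [← hTO x' t ht0]
        push Not
        exact htx
      have h1 := far_O hm hcomp hB hanti hr hsg0 (by linarith) haR
        (fun z hz => hexp z (by linarith)) hfar ht0.le hx't hn hy
      have h2 : t + (n + n : ℕ) * sg = s := by rw [ht]; ring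
      rw [h2, ← hTO y s (by
        have : 0 ≤ ((n + n : ℕ) : ℝ) * sg := by positivity
        linarith)] at h1
      push Not at h1
      exact h1.le
    · rw [Set.not_subset] at hfar
      obtain ⟨q, hq1, hq2⟩ := hfar
      rw [mem_ball, dist_eq_norm] at hq1
      have hqC : inner ℝ q e < C := by
        by_contra hcon
        push Not at hcon
        exact hq2 (hsup hcon)
      have hCr : C ≤ r := by
        rcases hcase with h | h
        · exact h
        · exfalso
          have h1 : q ∈ closedBall x (p.Cs * r) := by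
            rw [mem_closedBall, dist_eq_norm, hCs]
            have h2 : q - x = (q - x') + (x' - x) := by abel
            rw [h2]
            refine (norm_add_le _ _).trans ?_
            linarith
          have h2 : C < inner ℝ q e := h h1
          linarith
      set b : V := q - (3 * r) • e with hb
      have hbq : ‖b - x'‖ ≤ 10 * a + 3 * r := by
        have h2 : b - x' = (q - x') - (3 * r) • e := by rw [hb]; abel
        rw [h2]
        refine (norm_sub_le _ _).trans ?_
        rw [norm_smul, he, Real.norm_eq_abs, abs_of_pos (by linarith)]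
        linarith
      have hbA : Disjoint (ball b (2 * r)) B0 := by
        rw [Set.disjoint_left]
        intro v hv hvB
        rw [mem_ball, dist_eq_norm] at hv
        have hv0 : 0 ≤ inner ℝ v e := hsub hvB
        have h2 : v = (v - b) + b := by abel
        rw [h2, inner_add_left] at hv0
        have h3 : inner ℝ (v - b) e < 2 * r := by
          refine lt_of_le_of_lt ((le_abs_self _).trans (abs_real_inner_le_norm _ _)) ?_
          rw [he, mul_one]; exact hv
        have h4 : inner ℝ b e = inner ℝ q e - 3 * r := by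
          rw [hb, inner_sub_left, real_inner_smul_left, real_inner_self_eq_norm_sq, he]; ring
        rw [h4] at hv0
        linarith
      have h1 := near_O hm hcomp hB hr0 hsg0.le (by linarith : ‖b - x'‖ ≤ 11 * a) hexp hbA hn0
        (by linarith)
      have h2 : y ∈ closedBall x' (10 * r) := by rw [mem_closedBall, dist_eq_norm]; exact hy.le
      have h3 : TO y < ((n + 1 : ℕ) : ℝ) * sg := by
        by_contra hcon
        push Not at hcon
        exact h1.le_bot ⟨h2, (hTO y _ (by positivity)).1 hcon⟩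
      have h4 : ((n + 1 : ℕ) : ℝ) * sg ≤ ((n + n : ℕ) : ℝ) * sg := by
        push_cast
        nlinarith
      have h5 := hTO0 x'
      linarith
  have h2 : 2 * (((n + n : ℕ) : ℝ) * sg) ≤ p.C3 * r := by
    unfold Par.C3
    rw [hsg]
    push_cast
    have h3 : 0 ≤ p.sig * r := hsg0.le
    nlinarith
  have hbd : ∀ y z : V, ‖y - x‖ < 9 * r → ‖z - x‖ < 9 * r → TO y - TO z ≤ p.C3 * r := by
    intro y z hy hz
    have h3 := key x (by rw [sub_self, norm_zero]; linarith) y (by linarith)
    have h4 := key z hz x (by rw [norm_sub_rev]; linarith)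
    linarith
  intro y z hy hz
  rw [abs_le]
  constructor
  · have := hbd z y hz hy
    linarith
  · exact hbd y z hy hz

end Pool.Agent.FCF
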