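import Pool.Agent.FCF.CanPrep
import Pool.Agent.FCF.TopLip
import Pool.Agent.FCF.FlowVisc

/-!
# FCF / CanEx: existence of the canonical arrival functions
-/

set_option autoImplicit false

namespace Pool.Agent.FCF

open Pool.Agent.VSC (V J LowJet)
open Set Metric

theorem exists_canon {p : Par} {c : V → ℝ} (hc : p.Env c) {e : V} (he : ‖e‖ = 1)
    (h1 : Spd2 (frc c p.F) e) :
    ∃ (A0 B0 : Set V) (TE TO : V → ℝ) (C g : ℝ), Canon p c e A0 B0 TE TO C g := by
  have hcomp : ∀ A B : Set V, IsClosed A → IsClosed B → ∀ d : ℝ, 0 < d →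
      (∀ a ∈ A, ∀ b ∈ B, d ≤ ‖a - b‖) → ∀ (t : ℝ) (x : V), x ∈ E (frc c p.F) A t →
      x ∈ E (fun x => -frc c p.F x) B t → False :=
    fun A B hA hB d hd hAB t x hx hy => comp_flow hc.med hA hB hd hAB hx hy
  obtain ⟨g, T0, P⟩ := exists_canPre hc.med he h1 hcomp
    (fun t ht x => cover_flow hc.med he 0 ht x)
  have hE := clE_of hc he (isClosed_hull (frc c p.F) (HP e 0) T0) P.A_sup P.A_sub
    (fun s t hs hst => by
      have h2 : E (frc c p.F) (hull (frc c p.F) (HP e 0) T0) t =
          E (frc c p.F) (E (frc c p.F) (hull (frc c p.F) (HP e 0) T0) (t - s)) s := by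
        rw [← E_add hc.med (isClosed_hull _ _ _) (sub_nonneg.2 hst) hs]
        congr 1
        ring
      rw [h2]
      exact E_mono (P.A_inc (sub_nonneg.2 hst)) s)
    (TE := arrE (frc c p.F) (hull (frc c p.F) (HP e 0) T0))
    (fun x => arrE_nonneg _ _ _) (fun x t ht => P.TE_iff ht)
  have hO := clO_of hc hcomp he (isClosed_core (fun x => -frc c p.F x) (HQ e 0) T0) P.B_sup
    P.B_sub
    (fun s t hs hst => by
      have h2 : E (fun x => -frc c p.F x) (core (fun x => -frc c p.F x) (HQ e 0) T0) t =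
          E (fun x => -frc c p.F x) (E (fun x => -frc c p.F x)
            (core (fun x => -frc c p.F x) (HQ e 0) T0) (t - s)) s := by
        rw [← E_add (canMed_neg hc.med) (isClosed_core _ _ _) (sub_nonneg.2 hst) hs]
        congr 1
        ring
      rw [h2]
      exact E_mono (P.B_dec (sub_nonneg.2 hst)) s)
    (TO := arrO (fun x => -frc c p.F x) (core (fun x => -frc c p.F x) (HQ e 0) T0))
    P.TO_nonneg (fun x t ht => P.TO_iff ht)
  obtain ⟨C, hC⟩ := canon_of P hE hO
  exact ⟨_, _, _, _, C, g, hC⟩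

end Pool.Agent.FCF
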