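import Pool.Agent.FCF.FlowBasic

/-!
# FCF / CanHull: hulls and cores of a set under the maximal flow, arrival functions
(FCF_PROOF.md, 3.1 and 3.2)

`hull h A T0`: points reached at some time in `[0, T0]`; if `A ⊆ E h A T0` then
`hull ⊆ E h hull s` for all `s ≥ 0`. `core h B T0`: points occupied during `[0, T0]`; if
`E h B T0 ⊆ B` then `E h core s ⊆ core` for all `s ≥ 0`.
-/

set_option autoImplicit false

namespace Pool.Agent.FCF

open Pool.Agent.VSC (V J LowJet)
open Set Metric Filter Topology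

theorem canMed_neg {M L : ℝ} {h : V → ℝ} (hm : Med M L h) : Med M L (fun x => -h x) :=
  ⟨hm.one_le, hm.one_le', fun x => by rw [abs_neg]; exact hm.bd x, fun x y => by
    rw [show -h x - -h y = -(h x - h y) by ring, abs_neg]; exact hm.lip x y⟩

theorem canHP_closed (e : V) (a : ℝ) : IsClosed (HP e a) :=
  isClosed_le (by fun_prop) continuous_const

theorem canHQ_closed (e : V) (a : ℝ) : IsClosed (HQ e a) :=
  isClosed_le continuous_const (by fun_prop)

theorem canHQ_eq (e : V) (a : ℝ) : HQ e a = HP (-e) (-a) := by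
  ext x
  simp [HQ, HP, inner_neg_right]

/-- Points reached during `[0, T0]`. -/
def hull (h : V → ℝ) (A : Set V) (T0 : ℝ) : Set V := {x | ∃ t : ℝ, 0 ≤ t ∧ t ≤ T0 ∧ x ∈ E h A t}

/-- Points occupied during the whole of `[0, T0]`. -/
def core (h : V → ℝ) (B : Set V) (T0 : ℝ) : Set V := {x | ∀ t : ℝ, 0 ≤ t → t ≤ T0 → x ∈ E h B t}

theorem isClosed_hull (h : V → ℝ) (A : Set V) (T0 : ℝ) : IsClosed (hull h A T0) :=
  isClosed_biUnion_E h A T0

theorem isClosed_core (h : V → ℝ) (B : Set V) (T0 : ℝ) : IsClosed (core h B T0) := by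
  have : core h B T0 = ⋂ t : ℝ, ⋂ _ : 0 ≤ t, ⋂ _ : t ≤ T0, E h B t := by
    ext x; simp [core]
  rw [this]
  exact isClosed_iInter fun t => isClosed_iInter fun _ => isClosed_iInter fun _ => isClosed_E h B t

section

variable {M L : ℝ} {h : V → ℝ} (hm : Med M L h)

include hm

theorem can_iter_up {A : Set V} (hA : IsClosed A) {T0 : ℝ} (hT : 0 ≤ T0)
    (hinc : A ⊆ E h A T0) (n : ℕ) {t : ℝ} (ht : 0 ≤ t) : E h A t ⊆ E h A (t + n * T0) := by
  induction n with
  | zero => simp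
  | succ n ih =>
    refine ih.trans ?_
    have h0 : 0 ≤ t + n * T0 := by positivity
    rw [show t + ((n + 1 : ℕ) : ℝ) * T0 = T0 + (t + n * T0) by push_cast; ring,
      E_add hm hA hT h0]
    exact E_mono hinc _

theorem can_iter_down {A : Set V} (hA : IsClosed A) {T0 : ℝ} (hT : 0 ≤ T0)
    (hdec : E h A T0 ⊆ A) (n : ℕ) {t : ℝ} (ht : 0 ≤ t) : E h A (t + n * T0) ⊆ E h A t := by
  induction n with
  | zero => simp
  | succ n ih =>
    refine Subset.trans ?_ ih
    have h0 : 0 ≤ t + n * T0 := by positivity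
    rw [show t + ((n + 1 : ℕ) : ℝ) * T0 = T0 + (t + n * T0) by push_cast; ring,
      E_add hm hA hT h0]
    exact E_mono hdec _

omit hm in
theorem can_reach {s t T0 : ℝ} (hT : 0 < T0) (hts : t ≤ s) :
    ∃ n : ℕ, s ≤ t + n * T0 ∧ t + n * T0 ≤ s + T0 := by
  refine ⟨⌈(s - t) / T0⌉₊, ?_, ?_⟩
  · have h1 := Nat.le_ceil ((s - t) / T0)
    rw [div_le_iff₀ hT] at h1
    linarith
  · have h1 := Nat.ceil_lt_add_one (a := (s - t) / T0) (div_nonneg (by linarith) hT.le)
    have h2 : (⌈(s - t) / T0⌉₊ : ℝ) * T0 ≤ ((s - t) / T0 + 1) * T0 :=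
      mul_le_mul_of_nonneg_right h1.le hT.le
    rw [add_mul, div_mul_cancel₀ _ hT.ne', one_mul] at h2
    linarith

/-- The hull increases under the flow. -/
theorem hull_inc {A : Set V} (hA : IsClosed A) {T0 : ℝ} (hT : 0 < T0) (hinc : A ⊆ E h A T0)
    {s : ℝ} (hs : 0 ≤ s) : hull h A T0 ⊆ E h (hull h A T0) s := by
  rintro x ⟨t, ht0, ht1, hx⟩
  have key : ∀ u : ℝ, s ≤ u → u ≤ s + T0 → x ∈ E h A u → x ∈ E h (hull h A T0) s := by
    intro u h1 h2 h3
    rw [show u = (u - s) + s by ring, E_add hm hA (by linarith) hs] at h3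
    exact E_mono (show E h A (u - s) ⊆ hull h A T0 from
      fun y hy => ⟨u - s, by linarith, by linarith, hy⟩) s h3
  rcases le_total s t with hst | hst
  · exact key t hst (by linarith) hx
  · obtain ⟨n, h1, h2⟩ := can_reach hT hst
    exact key _ h1 h2 (can_iter_up hm hA hT.le hinc n ht0 hx)

/-- The core decreases under the flow. -/
theorem core_dec {B : Set V} (hB : IsClosed B) {T0 : ℝ} (hT : 0 < T0) (hdec : E h B T0 ⊆ B)
    {s : ℝ} (hs : 0 ≤ s) : E h (core h B T0) s ⊆ core h B T0 := by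
  intro x hx t ht0 ht1
  have key : ∀ u : ℝ, s ≤ u → u ≤ s + T0 → x ∈ E h B u := by
    intro u h1 h2
    rw [show u = (u - s) + s by ring, E_add hm hB (by linarith) hs]
    exact E_mono (show core h B T0 ⊆ E h B (u - s) from
      fun y hy => hy (u - s) (by linarith) (by linarith)) s hx
  rcases le_total s t with hst | hst
  · exact key t hst (by linarith)
  · obtain ⟨n, h1, h2⟩ := can_reach hT hst
    exact can_iter_down hm hB hT.le hdec n ht0 (key _ h1 h2)

/-- An increasing initial set gives an increasing flow. -/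
theorem E_inc {A : Set V} (hA : IsClosed A) (hinc : ∀ s : ℝ, 0 ≤ s → A ⊆ E h A s) {s t : ℝ}
    (hs : 0 ≤ s) (hst : s ≤ t) : E h A s ⊆ E h A t := by
  rw [show t = (t - s) + s by ring, E_add hm hA (by linarith) hs]
  exact E_mono (hinc _ (by linarith)) s

/-- A decreasing initial set gives a decreasing flow. -/
theorem E_dec {A : Set V} (hA : IsClosed A) (hdec : ∀ s : ℝ, 0 ≤ s → E h A s ⊆ A) {s t : ℝ}
    (hs : 0 ≤ s) (hst : s ≤ t) : E h A t ⊆ E h A s := by
  rw [show t = (t - s) + s by ring, E_add hm hA (by linarith) hs]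
  exact E_mono (hdec _ (by linarith)) s

end

/-- The set of times at which `x` is in the flow is closed. -/
theorem canTimes_closed (h : V → ℝ) (A : Set V) (x : V) : IsClosed {t : ℝ | x ∈ E h A t} := by
  have hc : Continuous fun t : ℝ => (x, t) := by fun_prop
  exact (isClosed_flow h A).preimage hc

/-- Arrival time of the increasing flow. -/
noncomputable def arrE (h : V → ℝ) (A : Set V) (x : V) : ℝ := sInf {t : ℝ | 0 ≤ t ∧ x ∈ E h A t}

/-- Departure time of the decreasing flow. -/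
noncomputable def arrO (h : V → ℝ) (B : Set V) (x : V) : ℝ :=
  sSup (insert 0 {t : ℝ | 0 ≤ t ∧ x ∈ E h B t})

theorem arrE_nonneg (h : V → ℝ) (A : Set V) (x : V) : 0 ≤ arrE h A x :=
  Real.sInf_nonneg fun _ ht => ht.1

theorem arrE_iff {M L : ℝ} {h : V → ℝ} (hm : Med M L h) {A : Set V} (hA : IsClosed A)
    (hinc : ∀ s : ℝ, 0 ≤ s → A ⊆ E h A s) {x : V} (hx : ∃ t : ℝ, 0 ≤ t ∧ x ∈ E h A t) {t : ℝ}
    (ht : 0 ≤ t) : arrE h A x ≤ t ↔ x ∈ E h A t := by
  have hcl : IsClosed {t : ℝ | 0 ≤ t ∧ x ∈ E h A t} :=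
    isClosed_Ici.inter (canTimes_closed h A x)
  have hbd : BddBelow {t : ℝ | 0 ≤ t ∧ x ∈ E h A t} := ⟨0, fun s hs => hs.1⟩
  constructor
  · intro h1
    have hmem := hcl.csInf_mem hx hbd
    exact E_inc hm hA hinc hmem.1 h1 hmem.2
  · intro h1
    exact csInf_le hbd ⟨ht, h1⟩

theorem arrO_nonneg {h : V → ℝ} {B : Set V} {x : V} {T : ℝ} (hT : 0 ≤ T)
    (hbd : ∀ t : ℝ, 0 ≤ t → x ∈ E h B t → t ≤ T) : 0 ≤ arrO h B x := by
  refine le_csSup ⟨T, ?_⟩ (mem_insert _ _)
  rintro s (rfl | hs)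
  · exact hT
  · exact hbd s hs.1 hs.2

theorem arrO_iff {M L : ℝ} {h : V → ℝ} (hm : Med M L h) {B : Set V} (hB : IsClosed B)
    (hdec : ∀ s : ℝ, 0 ≤ s → E h B s ⊆ B) {x : V} {T : ℝ} (hT : 0 ≤ T)
    (hbd : ∀ t : ℝ, 0 ≤ t → x ∈ E h B t → t ≤ T) {t : ℝ} (ht : 0 < t) :
    t ≤ arrO h B x ↔ x ∈ E h B t := by
  have hcl : IsClosed (insert 0 {t : ℝ | 0 ≤ t ∧ x ∈ E h B t}) := by
    rw [insert_eq]
    exact isClosed_singleton.union (isClosed_Ici.inter (canTimes_closed h B x))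
  have hb : BddAbove (insert 0 {t : ℝ | 0 ≤ t ∧ x ∈ E h B t}) := by
    refine ⟨T, ?_⟩
    rintro s (rfl | hs)
    · exact hT
    · exact hbd s hs.1 hs.2
  constructor
  · intro h1
    have hmem := hcl.csSup_mem (insert_nonempty _ _) hb
    rcases hmem with h2 | h2
    · exact absurd (h1.trans_eq h2) (not_le.2 ht)
    · exact E_dec hm hB hdec ht.le h1 h2.2
  · intro h1
    exact le_csSup hb (mem_insert_of_mem _ ⟨ht.le, h1⟩)

end Pool.Agent.FCF
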