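import Pool.Agent.FCF.CanHull
import Pool.Agent.FCF.Inner

/-!
# FCF / CanNear: linear bounds for the canonical arrival functions (FCF_PROOF.md, 3.3)
-/

set_option autoImplicit false

namespace Pool.Agent.FCF

open Pool.Agent.VSC (V J LowJet)
open Set Metric Filter Topology

/-- Speed bounds, covering and separation for the half plane flows. -/
structure CanPre (M L : ℝ) (h : V → ℝ) (e : V) (g T0 : ℝ) : Prop where
  med : Med M L h
  he : ‖e‖ = 1
  g_pos : 0 < g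
  T0_pos : 1 ≤ T0
  spdE : ∀ t : ℝ, T0 ≤ t → HP e (g * t) ⊆ E h (HP e 0) t
  spdO : ∀ t : ℝ, T0 ≤ t → E (fun x => -h x) (HQ e 0) t ⊆ HQ e (g * t)
  cover : ∀ t : ℝ, 0 ≤ t → ∀ x : V, x ∈ E h (HP e 0) t ∨ x ∈ E (fun x => -h x) (HQ e 0) t
  sep : ∀ t : ℝ, 0 ≤ t → ∀ x : V, x ∈ E h (HP e 0) t →
    x ∉ E (fun x => -h x) (HQ e 0) (t + T0)

theorem canHP_mono (e : V) {a b : ℝ} (hab : a ≤ b) : HP e a ⊆ HP e b := fun _ hx => le_trans hx hab

theorem canHQ_anti (e : V) {a b : ℝ} (hab : a ≤ b) : HQ e b ⊆ HQ e a := fun _ hx => le_trans hab hx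

namespace CanPre

variable {M L : ℝ} {h : V → ℝ} {e : V} {g T0 : ℝ} (P : CanPre M L h e g T0)

include P

theorem T0_pos' : 0 < T0 := by linarith [P.T0_pos]

theorem M_pos : 0 < 2 * M + 4 := by linarith [P.med.one_le]

theorem HP_inc : HP e 0 ⊆ E h (HP e 0) T0 :=
  (canHP_mono e (by have := P.g_pos; have := P.T0_pos'; positivity)).trans (P.spdE T0 le_rfl)

theorem HQ_dec : E (fun x => -h x) (HQ e 0) T0 ⊆ HQ e 0 :=
  (P.spdO T0 le_rfl).trans (canHQ_anti e (by have := P.g_pos; have := P.T0_pos'; positivity))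

theorem A_inc {s : ℝ} (hs : 0 ≤ s) : hull h (HP e 0) T0 ⊆ E h (hull h (HP e 0) T0) s :=
  hull_inc P.med (canHP_closed e 0) P.T0_pos' P.HP_inc hs

theorem B_dec {s : ℝ} (hs : 0 ≤ s) : E (fun x => -h x) (core (fun x => -h x) (HQ e 0) T0) s ⊆
    core (fun x => -h x) (HQ e 0) T0 :=
  core_dec (canMed_neg P.med) (canHQ_closed e 0) P.T0_pos' P.HQ_dec hs

theorem A_sup : HP e 0 ⊆ hull h (HP e 0) T0 := by
  intro x hx
  refine ⟨0, le_rfl, P.T0_pos'.le, ?_⟩
  rw [E_zero P.med (canHP_closed e 0)]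
  exact hx

theorem A_sub : hull h (HP e 0) T0 ⊆ HP e ((2 * M + 4) * T0 + 1) := by
  rintro x ⟨t, ht0, ht1, hx⟩
  have h1 := E_HP_sub P.med P.he 0 ht0 hx
  refine canHP_mono e ?_ h1
  have := P.M_pos
  nlinarith

theorem B_sub : core (fun x => -h x) (HQ e 0) T0 ⊆ HQ e 0 := by
  intro x hx
  have := hx 0 le_rfl P.T0_pos'.le
  rwa [E_zero (canMed_neg P.med) (canHQ_closed e 0)] at this

theorem B_sup : HQ e ((2 * M + 4) * T0 + 1) ⊆ core (fun x => -h x) (HQ e 0) T0 := by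
  intro x hx t ht0 ht1
  have h1 : ‖-e‖ = 1 := by rw [norm_neg]; exact P.he
  have h2 := HP_sub_E (canMed_neg P.med) h1 0 ht0
  rw [canHQ_eq e 0, neg_zero]
  apply h2
  have h3 : (2 * M + 4) * T0 + 1 ≤ inner ℝ x e := hx
  change inner ℝ x (-e) ≤ 0 - (2 * M + 4) * t - 1
  rw [inner_neg_right]
  have := P.M_pos
  nlinarith

theorem E_in {t : ℝ} : E h (HP e 0) t ⊆ E h (hull h (HP e 0) T0) t := E_mono P.A_sup t

theorem O_in {t : ℝ} : E (fun x => -h x) (core (fun x => -h x) (HQ e 0) T0) t ⊆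
    E (fun x => -h x) (HQ e 0) t := E_mono P.B_sub t

theorem reachE (x : V) : x ∈ E h (hull h (HP e 0) T0) (max (inner ℝ x e) 0 / g + T0) := by
  apply P.E_in
  have hg := P.g_pos
  have h1 : (0 : ℝ) ≤ max (inner ℝ x e) 0 / g := by positivity
  apply P.spdE _ (by linarith)
  change inner ℝ x e ≤ g * (max (inner ℝ x e) 0 / g + T0)
  have h2 : g * (max (inner ℝ x e) 0 / g + T0) = max (inner ℝ x e) 0 + g * T0 := by
    field_simp
  rw [h2]
  have := P.T0_pos'
  have := le_max_left (inner ℝ x e) (0 : ℝ)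
  nlinarith

theorem exE (x : V) : ∃ t : ℝ, 0 ≤ t ∧ x ∈ E h (hull h (HP e 0) T0) t :=
  ⟨_, by have := P.g_pos; have := P.T0_pos'; positivity, P.reachE x⟩

theorem TE_iff {x : V} {t : ℝ} (ht : 0 ≤ t) : arrE h (hull h (HP e 0) T0) x ≤ t ↔
    x ∈ E h (hull h (HP e 0) T0) t :=
  arrE_iff P.med (isClosed_hull _ _ _) (fun _ hs => P.A_inc hs) (P.exE x) ht

theorem bdO {x : V} {t : ℝ} (hx : x ∈ E (fun x => -h x) (core (fun x => -h x) (HQ e 0) T0) t) :
    t ≤ T0 + |inner ℝ x e| / g := by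
  have hg := P.g_pos
  rcases le_total t T0 with h1 | h1
  · have : 0 ≤ |inner ℝ x e| / g := by positivity
    linarith
  · have h2 : g * t ≤ inner ℝ x e := P.spdO t h1 (P.O_in hx)
    have h3 : t ≤ |inner ℝ x e| / g := by
      rw [le_div_iff₀ hg]
      have := le_abs_self (inner ℝ x e)
      nlinarith
    linarith [P.T0_pos']

theorem bd_nonneg (x : V) : 0 ≤ T0 + |inner ℝ x e| / g := by
  have := P.g_pos; have := P.T0_pos'; positivity

theorem TO_nonneg (x : V) : 0 ≤ arrO (fun x => -h x) (core (fun x => -h x) (HQ e 0) T0) x :=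
  arrO_nonneg (P.bd_nonneg x) (fun _ _ ht => P.bdO ht)

theorem TO_iff {x : V} {t : ℝ} (ht : 0 < t) :
    t ≤ arrO (fun x => -h x) (core (fun x => -h x) (HQ e 0) T0) x ↔
      x ∈ E (fun x => -h x) (core (fun x => -h x) (HQ e 0) T0) t :=
  arrO_iff (canMed_neg P.med) (isClosed_core _ _ _) (fun _ hs => P.B_dec hs) (P.bd_nonneg x)
    (fun _ _ ht => P.bdO ht) ht

theorem T1_ge : T0 ≤ max T0 (((2 * M + 4) * T0 + 1) / g) := le_max_left _ _

theorem T1_mul : (2 * M + 4) * T0 + 1 ≤ g * max T0 (((2 * M + 4) * T0 + 1) / g) := by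
  have hg := P.g_pos
  have h1 := le_max_right T0 (((2 * M + 4) * T0 + 1) / g)
  rw [div_le_iff₀ hg] at h1
  linarith

/-- The increasing flow is contained in a later half plane flow. -/
theorem E_out {t : ℝ} (ht : 0 ≤ t) : E h (hull h (HP e 0) T0) t ⊆
    E h (HP e 0) (max T0 (((2 * M + 4) * T0 + 1) / g) + t) := by
  have h0 : 0 ≤ max T0 (((2 * M + 4) * T0 + 1) / g) := P.T0_pos'.le.trans (le_max_left _ _)
  rw [E_add P.med (canHP_closed e 0) h0 ht]
  exact E_mono ((P.A_sub.trans (canHP_mono e P.T1_mul)).trans (P.spdE _ (le_max_left _ _))) t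

/-- The later half plane flow (unoccupied side) is contained in the decreasing flow. -/
theorem O_out {t : ℝ} (ht : 0 ≤ t) : E (fun x => -h x) (HQ e 0)
    (max T0 (((2 * M + 4) * T0 + 1) / g) + t) ⊆
    E (fun x => -h x) (core (fun x => -h x) (HQ e 0) T0) t := by
  have h0 : 0 ≤ max T0 (((2 * M + 4) * T0 + 1) / g) := P.T0_pos'.le.trans (le_max_left _ _)
  rw [E_add (canMed_neg P.med) (canHQ_closed e 0) h0 ht]
  exact E_mono (((P.spdO _ (le_max_left _ _)).trans (canHQ_anti e P.T1_mul)).trans P.B_sup) t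

theorem TE_le_TO (x : V) : arrE h (hull h (HP e 0) T0) x ≤
    arrO (fun x => -h x) (core (fun x => -h x) (HQ e 0) T0) x +
      max T0 (((2 * M + 4) * T0 + 1) / g) := by
  set T1 := max T0 (((2 * M + 4) * T0 + 1) / g) with hT1
  have h0 : 0 ≤ T1 := P.T0_pos'.le.trans (le_max_left _ _)
  have hO := P.TO_nonneg x
  set a := arrE h (hull h (HP e 0) T0) x with ha
  set b := arrO (fun x => -h x) (core (fun x => -h x) (HQ e 0) T0) x with hb
  by_contra hc
  push Not at hc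
  set t := (a - T1 + b) / 2 with ht
  have ht1 : b < t := by rw [ht]; linarith
  have ht2 : T1 + t < a := by rw [ht]; linarith
  have ht0 : 0 < t := lt_of_le_of_lt hO ht1
  have h1 : x ∉ E (fun x => -h x) (core (fun x => -h x) (HQ e 0) T0) t := fun h2 =>
    absurd ((P.TO_iff ht0).2 h2) (not_le.2 ht1)
  have h2 : x ∉ E (fun x => -h x) (HQ e 0) (T1 + t) := fun h3 => h1 (P.O_out ht0.le h3)
  have h3 : x ∈ E h (HP e 0) (T1 + t) := (P.cover (T1 + t) (by linarith) x).resolve_right h2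
  have h4 := (P.TE_iff (x := x) (t := T1 + t) (by linarith)).2 (P.E_in h3)
  linarith

theorem TO_le_TE (x : V) : arrO (fun x => -h x) (core (fun x => -h x) (HQ e 0) T0) x ≤
    arrE h (hull h (HP e 0) T0) x + max T0 (((2 * M + 4) * T0 + 1) / g) + T0 := by
  set T1 := max T0 (((2 * M + 4) * T0 + 1) / g) with hT1
  have h0 : 0 ≤ T1 := P.T0_pos'.le.trans (le_max_left _ _)
  set a := arrE h (hull h (HP e 0) T0) x with ha
  have ha0 : 0 ≤ a := arrE_nonneg _ _ _
  by_contra hc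
  push Not at hc
  have h1 : x ∈ E h (HP e 0) (T1 + a) := P.E_out ha0 ((P.TE_iff ha0).1 le_rfl)
  have h2 := P.sep (T1 + a) (by linarith) x h1
  apply h2
  apply P.O_in
  apply (P.TO_iff (by linarith [P.T0_pos'])).1
  linarith

theorem near (x : V) : |arrE h (hull h (HP e 0) T0) x -
    arrO (fun x => -h x) (core (fun x => -h x) (HQ e 0) T0) x| ≤
      2 * max T0 (((2 * M + 4) * T0 + 1) / g) := by
  have h1 := P.TE_le_TO x
  have h2 := P.TO_le_TE x
  have h3 := P.T1_ge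
  have h4 := P.T0_pos'
  rw [abs_le]
  constructor <;> linarith

theorem TE_le (x : V) : arrE h (hull h (HP e 0) T0) x ≤ max (inner ℝ x e) 0 / g + T0 :=
  (P.TE_iff (by have := P.g_pos; have := P.T0_pos'; positivity)).2 (P.reachE x)

theorem TE_ge (x : V) : inner ℝ x e / (2 * M + 4) -
    (max T0 (((2 * M + 4) * T0 + 1) / g) + 1) ≤ arrE h (hull h (HP e 0) T0) x := by
  set T1 := max T0 (((2 * M + 4) * T0 + 1) / g) with hT1
  have h0 : 0 ≤ T1 := P.T0_pos'.le.trans (le_max_left _ _)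
  set a := arrE h (hull h (HP e 0) T0) x with ha
  have ha0 : 0 ≤ a := arrE_nonneg _ _ _
  have h1 : x ∈ E h (HP e 0) (T1 + a) := P.E_out ha0 ((P.TE_iff ha0).1 le_rfl)
  have h2 : inner ℝ x e ≤ 0 + (2 * M + 4) * (T1 + a) + 1 := E_HP_sub P.med P.he 0 (by linarith) h1
  have hM := P.M_pos
  have h3 : inner ℝ x e / (2 * M + 4) ≤ T1 + a + 1 := by
    rw [div_le_iff₀ hM]
    have := P.med.one_le
    nlinarith
  linarith

theorem flowE {x : V} {t : ℝ} (ht : 0 ≤ t) (hx : x ∈ E h (HP e 0) t) :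
    arrE h (hull h (HP e 0) T0) x ≤ t := (P.TE_iff ht).2 (P.E_in hx)

theorem flowO {x : V} {t : ℝ} (hx : x ∈ E (fun x => -h x) (HQ e 0) t) :
    t - max T0 (((2 * M + 4) * T0 + 1) / g) ≤
      arrO (fun x => -h x) (core (fun x => -h x) (HQ e 0) T0) x := by
  set T1 := max T0 (((2 * M + 4) * T0 + 1) / g) with hT1
  rcases le_or_gt t T1 with h1 | h1
  · linarith [P.TO_nonneg x]
  · apply (P.TO_iff (by linarith)).2
    apply P.O_out (by linarith)
    rwa [← hT1, add_sub_cancel]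

end CanPre

end Pool.Agent.FCF
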