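import Pool.Agent.FCF.CanNear

/-!
# FCF / CanPrep: preparation data from the speed hypothesis; assembly of the structure `Canon`
-/

set_option autoImplicit false

namespace Pool.Agent.FCF

open Pool.Agent.VSC (V J LowJet)
open Set Metric Filter Topology

theorem exists_canPre {M L : ℝ} {h : V → ℝ} (hm : Med M L h) {e : V} (he : ‖e‖ = 1)
    (h1 : Spd2 h e)
    (hcomp : ∀ A B : Set V, IsClosed A → IsClosed B → ∀ d : ℝ, 0 < d →
      (∀ a ∈ A, ∀ b ∈ B, d ≤ ‖a - b‖) → ∀ (t : ℝ) (x : V), x ∈ E h A t →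
      x ∈ E (fun x => -h x) B t → False)
    (hcov : ∀ t : ℝ, 0 ≤ t → ∀ x : V, x ∈ E h (HP e 0) t ∨ x ∈ E (fun x => -h x) (HQ e 0) t) :
    ∃ g T0 : ℝ, CanPre M L h e g T0 := by
  obtain ⟨⟨g1, hg1, T1, hT1⟩, a, ha, g2, hg2, T2, hT2⟩ := h1
  have hdist : ∀ x ∈ HP e a, ∀ y ∈ HQ e 0, -a ≤ ‖x - y‖ := by
    intro x hx y hy
    have h3 : inner ℝ (y - x) e ≤ ‖y - x‖ * ‖e‖ := real_inner_le_norm _ _
    rw [he, mul_one, inner_sub_left, norm_sub_rev] at h3
    have hx' : inner ℝ x e ≤ a := hx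
    have hy' : 0 ≤ inner ℝ y e := hy
    linarith
  have hc : ∀ (t : ℝ) (x : V), x ∈ E h (HP e a) t → x ∈ E (fun x => -h x) (HQ e 0) t → False :=
    hcomp _ _ (canHP_closed e a) (canHQ_closed e 0) (-a) (by linarith) hdist
  refine ⟨min g1 g2, max 1 (max T1 T2), hm, he, lt_min hg1 hg2, le_max_left _ _, ?_, ?_, hcov, ?_⟩
  · intro t ht
    have ht1 : 1 ≤ t := (le_max_left _ _).trans ht
    have ht2 : T1 ≤ t := ((le_max_left _ _).trans (le_max_right _ _)).trans ht
    refine (canHP_mono e ?_).trans (hT1 t ht2)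
    exact mul_le_mul_of_nonneg_right (min_le_left _ _) (by linarith)
  · intro t ht x hx
    have ht1 : 1 ≤ t := (le_max_left _ _).trans ht
    have ht2 : T2 ≤ t := ((le_max_right _ _).trans (le_max_right _ _)).trans ht
    by_contra hn
    have hn' : inner ℝ x e < min g1 g2 * t := not_le.1 hn
    have h3 : min g1 g2 * t ≤ g2 * t := mul_le_mul_of_nonneg_right (min_le_right _ _) (by linarith)
    exact hc t x (hT2 t ht2 (show inner ℝ x e ≤ g2 * t by linarith)) hx
  · intro t ht x hx hx2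
    set T0 := max 1 (max T1 T2) with hT0
    have h10 : 1 ≤ T0 := le_max_left _ _
    have ht2 : T2 ≤ T0 := (le_max_right _ _).trans (le_max_right _ _)
    have h3 : HP e 0 ⊆ E h (HP e a) T0 :=
      (canHP_mono e (by positivity)).trans (hT2 T0 ht2)
    have h4 : x ∈ E h (HP e a) (T0 + t) := by
      rw [E_add hm (canHP_closed e a) (by linarith) ht]
      exact E_mono h3 t hx
    rw [add_comm] at h4
    exact hc _ x h4 hx2

/-- Assembly of the structure `Canon`. -/
theorem canon_of {p : Par} {c : V → ℝ} {e : V} {g T0 : ℝ}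
    (P : CanPre p.M p.L (frc c p.F) e g T0) {CE CO : ℝ}
    (hE : ∀ x r, 1 ≤ r → p.fine c x r →
      (CE ≤ r ∨ closedBall x (p.Cs * r) ⊆ {y | CE < inner ℝ y e}) →
      ∀ y z, ‖y - x‖ < 9 * r → ‖z - x‖ < 9 * r →
        |arrE (frc c p.F) (hull (frc c p.F) (HP e 0) T0) y -
          arrE (frc c p.F) (hull (frc c p.F) (HP e 0) T0) z| ≤ p.C3 * r)
    (hO : ∀ x r, 1 ≤ r → p.fine c x r →
      (CO ≤ r ∨ closedBall x (p.Cs * r) ⊆ {y | CO < inner ℝ y e}) →
      ∀ y z, ‖y - x‖ < 9 * r → ‖z - x‖ < 9 * r →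
        |arrO (fun x => -frc c p.F x) (core (fun x => -frc c p.F x) (HQ e 0) T0) y -
          arrO (fun x => -frc c p.F x) (core (fun x => -frc c p.F x) (HQ e 0) T0) z| ≤
            p.C3 * r) :
    ∃ C : ℝ, Canon p c e (hull (frc c p.F) (HP e 0) T0)
      (core (fun x => -frc c p.F x) (HQ e 0) T0)
      (arrE (frc c p.F) (hull (frc c p.F) (HP e 0) T0))
      (arrO (fun x => -frc c p.F x) (core (fun x => -frc c p.F x) (HQ e 0) T0)) C g := by
  set C0 : ℝ := (2 * p.M + 4) * T0 + 1 with hC0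
  set T1 : ℝ := max T0 (C0 / g) with hT1
  set C : ℝ := max (max 1 C0) (max (max (2 * T1) (T1 + 1)) (max CE CO)) with hC
  have c1 : 1 ≤ C := (le_max_left _ _).trans (le_max_left _ _)
  have c2 : C0 ≤ C := (le_max_right _ _).trans (le_max_left _ _)
  have c3 : 2 * T1 ≤ C := ((le_max_left _ _).trans (le_max_left _ _)).trans (le_max_right _ _)
  have c4 : T1 + 1 ≤ C := ((le_max_right _ _).trans (le_max_left _ _)).trans (le_max_right _ _)
  have c5 : CE ≤ C := ((le_max_left _ _).trans (le_max_right _ _)).trans (le_max_right _ _)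
  have c6 : CO ≤ C := ((le_max_right _ _).trans (le_max_right _ _)).trans (le_max_right _ _)
  have c7 : T0 ≤ T1 := le_max_left _ _
  have hmon : ∀ {C' : ℝ}, C' ≤ C → ∀ {x : V} {r : ℝ},
      (C ≤ r ∨ closedBall x (p.Cs * r) ⊆ {y | C < inner ℝ y e}) →
      (C' ≤ r ∨ closedBall x (p.Cs * r) ⊆ {y | C' < inner ℝ y e}) := by
    intro C' hC' x r h
    rcases h with h | h
    · exact Or.inl (hC'.trans h)
    · exact Or.inr (fun y hy => lt_of_le_of_lt hC' (h hy))
  refine ⟨C, ⟨c1, P.g_pos, isClosed_hull _ _ _, isClosed_core _ _ _, P.A_sup,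
    P.A_sub.trans (canHP_mono e c2), (canHQ_anti e c2).trans P.B_sup, P.B_sub, ?_, P.TO_nonneg,
    ?_, ?_, ?_, ?_, ?_, ?_, ?_, ?_, ?_⟩⟩
  · intro x; exact arrE_nonneg _ _ _
  · intro x t ht; exact P.TE_iff ht
  · intro x t ht; exact P.TO_iff ht
  · intro x; exact (P.near x).trans c3
  · intro x; have := P.TE_le x; linarith
  · intro x
    have h1 := P.TE_ge x
    unfold Par.M1
    linarith
  · intro x t ht hx; exact P.flowE ht hx
  · intro x t _ hx
    have h1 := P.flowO hx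
    linarith
  · intro x r hr hf h y z hy hz
    exact hE x r hr hf (hmon c5 h) y z hy hz
  · intro x r hr hf h y z hy hz
    exact hO x r hr hf (hmon c6 h) y z hy hz

end Pool.Agent.FCF
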