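import Mathlib

/-!
# Counting lemmas for the planar comparison and the wedge comparison
-/

namespace Pool.Agent.FCF.Comb

/-- Left drops of a quasi-concave function: every index `i` of `St` has a point `al i` to the left
of `i * rho` at distance at most `L i` where the function is lower by `D i`. -/
theorem drop_left {rho t0 kap : ℝ} (hrho : 0 < rho) (hkap : 0 ≤ kap) (f : ℝ → ℝ) (Z : Set ℝ)
    (hq : ∀ x ∈ Z, ∀ y ∈ Z, ∀ z ∈ Z, x < y → y < z → min (f x) (f z) ≤ f y)
    (hlow : ∀ x ∈ Z, t0 ≤ f x)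
    (al L D : ℤ → ℝ) (St : Finset ℤ) :
    ∀ U : ℝ, (∀ i ∈ St, (i : ℝ) * rho ∈ Z ∧ al i ∈ Z ∧ al i < i * rho ∧ i * rho - al i ≤ L i ∧
      f (al i) + D i ≤ f (i * rho) ∧ 0 < D i ∧ L i / rho + 1 ≤ kap * D i ∧ f (i * rho) ≤ U) →
      t0 ≤ U → (St.card : ℝ) ≤ kap * (U - t0) := by
  induction St using Finset.strongInduction with
  | H St ih =>
    intro U hU htU
    rcases St.eq_empty_or_nonempty with rfl | hne
    · simp only [Finset.card_empty, Nat.cast_zero]
      exact mul_nonneg hkap (sub_nonneg.2 htU)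
    · set m := St.max' hne with hm
      have hmS : m ∈ St := St.max'_mem hne
      obtain ⟨h1, h2, h3, h4, h5, h6, h7, h8⟩ := hU m hmS
      set St' := St.filter (fun i : ℤ => (i : ℝ) * rho ≤ al m) with hSt'
      have hss : St' ⊂ St := by
        refine Finset.filter_ssubset.2 ⟨m, hmS, ?_⟩
        exact not_le.2 h3
      have hrec := ih St' hss (f (al m)) (by
        intro i hi
        obtain ⟨hiS, hile⟩ := Finset.mem_filter.1 hi
        obtain ⟨g1, g2, g3, g4, g5, g6, g7, g8⟩ := hU i hiS
        refine ⟨g1, g2, g3, g4, g5, g6, g7, ?_⟩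
        rcases eq_or_lt_of_le hile with he | hlt
        · rw [he]
        · have := hq _ g1 _ h2 _ h1 hlt h3
          rcases min_le_iff.1 this with h | h
          · exact h
          · linarith) (hlow _ h2)
      -- the removed indices
      have hcard : (St.card : ℝ) ≤ St'.card + (L m / rho + 1) := by
        have hsub : St \ St' ⊆ Finset.Icc (⌊al m / rho⌋ + 1) m := by
          intro i hi
          obtain ⟨hiS, hin⟩ := Finset.mem_sdiff.1 hi
          have hgt : al m < i * rho := by
            by_contra hcon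
            exact hin (Finset.mem_filter.2 ⟨hiS, not_lt.1 hcon⟩)
          refine Finset.mem_Icc.2 ⟨?_, St.le_max' i hiS⟩
          have : al m / rho < i := by rwa [div_lt_iff₀ hrho]
          have h9 := Int.floor_le (al m / rho)
          have : ((⌊al m / rho⌋ : ℤ) : ℝ) < i := lt_of_le_of_lt h9 this
          exact_mod_cast this
        have h10 : (St \ St').card ≤ (m + 1 - (⌊al m / rho⌋ + 1)).toNat := by
          refine (Finset.card_le_card hsub).trans ?_
          rw [Int.card_Icc]
        have h11 : St.card = St'.card + (St \ St').card := by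
          have := Finset.card_sdiff_add_card_eq_card hss.1
          omega
        have h12 : ((m + 1 - (⌊al m / rho⌋ + 1)).toNat : ℝ) ≤ L m / rho + 1 := by
          have h13 : (0 : ℤ) ≤ m + 1 - (⌊al m / rho⌋ + 1) := by
            have : al m / rho < m := by rwa [div_lt_iff₀ hrho]
            have : ((⌊al m / rho⌋ : ℤ) : ℝ) < m := lt_of_le_of_lt (Int.floor_le _) this
            have : ⌊al m / rho⌋ < m := by exact_mod_cast this
            omega
          have h14 : ((m + 1 - (⌊al m / rho⌋ + 1)).toNat : ℤ) = m + 1 - (⌊al m / rho⌋ + 1) :=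
            Int.toNat_of_nonneg h13
          have h15 : (((m + 1 - (⌊al m / rho⌋ + 1)).toNat : ℤ) : ℝ) = m - ⌊al m / rho⌋ := by
            rw [h14]; push_cast; ring
          have h16 : ((m + 1 - (⌊al m / rho⌋ + 1)).toNat : ℝ) = m - ⌊al m / rho⌋ := by
            rw [← h15]; norm_cast
          rw [h16]
          have h17 := Int.lt_floor_add_one (al m / rho)
          have h18 : (m : ℝ) - al m / rho ≤ L m / rho := by
            rw [← sub_nonneg]
            have : L m / rho - ((m : ℝ) - al m / rho) = (L m - (m * rho - al m)) / rho := by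
              field_simp
            rw [this]
            exact div_nonneg (by linarith) hrho.le
          linarith
        have h19 : ((St \ St').card : ℝ) ≤ ((m + 1 - (⌊al m / rho⌋ + 1)).toNat : ℝ) := by
          exact_mod_cast h10
        rw [h11]
        push_cast
        linarith
      calc (St.card : ℝ) ≤ St'.card + (L m / rho + 1) := hcard
        _ ≤ kap * (f (al m) - t0) + kap * D m := by linarith
        _ = kap * (f (al m) + D m - t0) := by ring
        _ ≤ kap * (U - t0) := by
            apply mul_le_mul_of_nonneg_left _ hkap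
            linarith

/-- The same for right drops. -/
theorem drop_right {rho t0 kap : ℝ} (hrho : 0 < rho) (hkap : 0 ≤ kap) (f : ℝ → ℝ) (Z : Set ℝ)
    (hq : ∀ x ∈ Z, ∀ y ∈ Z, ∀ z ∈ Z, x < y → y < z → min (f x) (f z) ≤ f y)
    (hlow : ∀ x ∈ Z, t0 ≤ f x)
    (al L D : ℤ → ℝ) (St : Finset ℤ) (U : ℝ)
    (hU : ∀ i ∈ St, (i : ℝ) * rho ∈ Z ∧ al i ∈ Z ∧ i * rho < al i ∧ al i - i * rho ≤ L i ∧
      f (al i) + D i ≤ f (i * rho) ∧ 0 < D i ∧ L i / rho + 1 ≤ kap * D i ∧ f (i * rho) ≤ U)
    (htU : t0 ≤ U) : (St.card : ℝ) ≤ kap * (U - t0) := by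
  have key := drop_left (rho := rho) (t0 := t0) (kap := kap) hrho hkap (fun x => f (-x))
    ((fun x => -x) ⁻¹' Z)
    (by
      intro x hx y hy z hz hxy hyz
      have := hq (-z) hz (-y) hy (-x) hx (by linarith) (by linarith)
      rw [min_comm]
      exact this)
    (fun x hx => hlow _ hx) (fun i => -al (-i)) (fun i => L (-i)) (fun i => D (-i))
    (St.image (fun i => -i)) U (by
      intro i hi
      obtain ⟨k, hk, rfl⟩ := Finset.mem_image.1 hi
      obtain ⟨g1, g2, g3, g4, g5, g6, g7, g8⟩ := hU k hk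
      refine ⟨?_, ?_, ?_, ?_, ?_, ?_, ?_, ?_⟩
      · show -(((-k : ℤ) : ℝ) * rho) ∈ Z
        push_cast
        simpa using g1
      · show - -al (- -k) ∈ Z
        simpa using g2
      · push_cast
        simp only [neg_neg]
        linarith
      · push_cast
        simp only [neg_neg]
        linarith
      · push_cast
        simp only [neg_neg, neg_mul]
        exact g5
      · simpa using g6
      · simpa using g7
      · push_cast
        simpa using g8) htU
  rwa [Finset.card_image_of_injective _ neg_injective] at key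

/-- A finite family of sets has a disjoint subfamily such that every set of the family meets a
member of the subfamily with at least the same size. -/
theorem greedy {α β : Type*} (B : α → Set β) (l : α → ℝ) (P : Finset α)
    (hB : ∀ p ∈ P, (B p).Nonempty) :
    ∃ F ⊆ P, (∀ p ∈ F, ∀ q ∈ F, p ≠ q → Disjoint (B p) (B q)) ∧
      ∀ q ∈ P, ∃ p ∈ F, l q ≤ l p ∧ (B p ∩ B q).Nonempty := by
  classical
  induction P using Finset.strongInduction with
  | H P ih =>
    rcases P.eq_empty_or_nonempty with rfl | hne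
    · exact ⟨∅, le_refl _, by simp, by simp⟩
    · obtain ⟨m, hm, hmax⟩ := P.exists_max_image l hne
      set P' := P.filter (fun q => Disjoint (B m) (B q)) with hP'
      have hss : P' ⊂ P := by
        refine Finset.filter_ssubset.2 ⟨m, hm, ?_⟩
        rw [Set.not_disjoint_iff_nonempty_inter, Set.inter_self]
        exact hB m hm
      obtain ⟨F, hF1, hF2, hF3⟩ := ih P' hss (fun p hp => hB p (hss.1 hp))
      refine ⟨insert m F, ?_, ?_, ?_⟩
      · intro p hp
        rcases Finset.mem_insert.1 hp with rfl | h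
        · exact hm
        · exact hss.1 (hF1 h)
      · intro p hp q hq hpq
        rcases Finset.mem_insert.1 hp with rfl | h
        · rcases Finset.mem_insert.1 hq with rfl | h'
          · exact absurd rfl hpq
          · exact (Finset.mem_filter.1 (hF1 h')).2
        · rcases Finset.mem_insert.1 hq with rfl | h'
          · exact (Finset.mem_filter.1 (hF1 h)).2.symm
          · exact hF2 p h q h' hpq
      · intro q hq
        by_cases hd : Disjoint (B m) (B q)
        · obtain ⟨p, hp, h1, h2⟩ := hF3 q (Finset.mem_filter.2 ⟨hq, hd⟩)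
          exact ⟨p, Finset.mem_insert_of_mem hp, h1, h2⟩
        · exact ⟨m, Finset.mem_insert_self _ _, hmax q hq,
            Set.not_disjoint_iff_nonempty_inter.1 hd⟩

/-- Integers in an interval. -/
theorem card_int_le {rho c x : ℝ} (hrho : 0 < rho) (hc : 0 ≤ c) (F : Finset ℤ)
    (h : ∀ i ∈ F, |(i : ℝ) * rho - x| ≤ c) : (F.card : ℝ) ≤ 2 * c / rho + 1 := by
  have hsub : F ⊆ Finset.Icc ⌈(x - c) / rho⌉ ⌊(x + c) / rho⌋ := by
    intro i hi
    have h1 := abs_le.1 (h i hi)
    refine Finset.mem_Icc.2 ⟨?_, ?_⟩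
    · rw [Int.ceil_le, div_le_iff₀ hrho]
      linarith
    · rw [Int.le_floor, le_div_iff₀ hrho]
      linarith
  have h1 : F.card ≤ (⌊(x + c) / rho⌋ + 1 - ⌈(x - c) / rho⌉).toNat := by
    refine (Finset.card_le_card hsub).trans ?_
    rw [Int.card_Icc]
  have h2 : ((⌊(x + c) / rho⌋ + 1 - ⌈(x - c) / rho⌉).toNat : ℝ) ≤ 2 * c / rho + 1 := by
    rcases le_total (⌊(x + c) / rho⌋ + 1 - ⌈(x - c) / rho⌉) 0 with h0 | h0
    · rw [Int.toNat_of_nonpos h0]
      simp only [Nat.cast_zero]
      positivity
    · have h3 : (((⌊(x + c) / rho⌋ + 1 - ⌈(x - c) / rho⌉).toNat : ℤ) : ℝ)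
          = (⌊(x + c) / rho⌋ : ℝ) + 1 - ⌈(x - c) / rho⌉ := by
        rw [Int.toNat_of_nonneg h0]; push_cast; ring
      have h4 : ((⌊(x + c) / rho⌋ + 1 - ⌈(x - c) / rho⌉).toNat : ℝ)
          = (⌊(x + c) / rho⌋ : ℝ) + 1 - ⌈(x - c) / rho⌉ := by
        rw [← h3]; norm_cast
      rw [h4]
      have h5 := Int.floor_le ((x + c) / rho)
      have h6 := Int.le_ceil ((x - c) / rho)
      have h7 : (x + c) / rho - (x - c) / rho = 2 * c / rho := by ring
      linarith
  exact le_trans (by exact_mod_cast h1) h2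

/-- Counting pairs (index, level) by groups. -/
theorem vitali_pairs {β : Type*} {rho De C S : ℝ} (hDe : 0 < De) (hrD : De ≤ rho) (hC : 0 ≤ C)
    (B : ℤ × ℤ → Set β) (l : ℤ × ℤ → ℝ) (P : Finset (ℤ × ℤ))
    (hB : ∀ p ∈ P, (B p).Nonempty) (hl : ∀ p ∈ P, rho ≤ l p)
    (hgrp : ∀ p ∈ P, ∀ q ∈ P, l q ≤ l p → (B p ∩ B q).Nonempty →
      |(q.1 : ℝ) * rho - p.1 * rho| ≤ C * l p ∧ |(q.2 : ℝ) * De - p.2 * De| ≤ C * l p)
    (hS : ∀ F ⊆ P, (∀ p ∈ F, ∀ q ∈ F, p ≠ q → Disjoint (B p) (B q)) →
      ∑ p ∈ F, l p ^ 2 ≤ S) :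
    (P.card : ℝ) ≤ (2 * C + 1) ^ 2 / (rho * De) * S := by
  classical
  have hrho : 0 < rho := lt_of_lt_of_le hDe hrD
  obtain ⟨F, hF1, hF2, hF3⟩ := greedy B l P hB
  set G : ℤ × ℤ → Finset (ℤ × ℤ) := fun p => P.filter (fun q => l q ≤ l p ∧ (B p ∩ B q).Nonempty)
    with hG
  have hcov : P ⊆ F.biUnion G := by
    intro q hq
    obtain ⟨p, hp, h1, h2⟩ := hF3 q hq
    exact Finset.mem_biUnion.2 ⟨p, hp, Finset.mem_filter.2 ⟨hq, h1, h2⟩⟩
  have hGc : ∀ p ∈ F, ((G p).card : ℝ) ≤ (2 * C + 1) ^ 2 / (rho * De) * l p ^ 2 := by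
    intro p hp
    have hpP := hF1 hp
    have hlp : rho ≤ l p := hl p hpP
    have hlpos : 0 < l p := lt_of_lt_of_le hrho hlp
    set G1 := (G p).image Prod.fst with hG1
    set G2 := (G p).image Prod.snd with hG2
    have hsub : G p ⊆ G1 ×ˢ G2 := by
      intro q hq
      exact Finset.mem_product.2 ⟨Finset.mem_image_of_mem _ hq, Finset.mem_image_of_mem _ hq⟩
    have h1 : (G1.card : ℝ) ≤ 2 * (C * l p) / rho + 1 := by
      apply card_int_le (x := p.1 * rho) hrho (by positivity)
      intro i hi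
      obtain ⟨q, hq, rfl⟩ := Finset.mem_image.1 hi
      obtain ⟨hq1, hq2, hq3⟩ := Finset.mem_filter.1 hq
      exact (hgrp p hpP q hq1 hq2 hq3).1
    have h2 : (G2.card : ℝ) ≤ 2 * (C * l p) / De + 1 := by
      apply card_int_le (x := p.2 * De) hDe (by positivity)
      intro i hi
      obtain ⟨q, hq, rfl⟩ := Finset.mem_image.1 hi
      obtain ⟨hq1, hq2, hq3⟩ := Finset.mem_filter.1 hq
      exact (hgrp p hpP q hq1 hq2 hq3).2
    have h3 : (G1.card : ℝ) ≤ (2 * C + 1) * (l p / rho) := by
      have : 1 ≤ l p / rho := by rwa [le_div_iff₀ hrho, one_mul]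
      calc (G1.card : ℝ) ≤ 2 * (C * l p) / rho + 1 := h1
        _ ≤ 2 * (C * l p) / rho + l p / rho := by linarith
        _ = (2 * C + 1) * (l p / rho) := by ring
    have h4 : (G2.card : ℝ) ≤ (2 * C + 1) * (l p / De) := by
      have : 1 ≤ l p / De := by rw [le_div_iff₀ hDe, one_mul]; linarith
      calc (G2.card : ℝ) ≤ 2 * (C * l p) / De + 1 := h2
        _ ≤ 2 * (C * l p) / De + l p / De := by linarith
        _ = (2 * C + 1) * (l p / De) := by ring
    calc ((G p).card : ℝ) ≤ ((G1 ×ˢ G2).card : ℝ) := by exact_mod_cast Finset.card_le_card hsub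
      _ = G1.card * G2.card := by rw [Finset.card_product]; push_cast; ring
      _ ≤ ((2 * C + 1) * (l p / rho)) * ((2 * C + 1) * (l p / De)) := by
          apply mul_le_mul h3 h4 (by positivity)
          have : 0 ≤ l p / rho := by positivity
          positivity
      _ = (2 * C + 1) ^ 2 / (rho * De) * l p ^ 2 := by
          field_simp
  calc (P.card : ℝ) ≤ ((F.biUnion G).card : ℝ) := by exact_mod_cast Finset.card_le_card hcov
    _ ≤ ∑ p ∈ F, ((G p).card : ℝ) := by exact_mod_cast Finset.card_biUnion_le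
    _ ≤ ∑ p ∈ F, (2 * C + 1) ^ 2 / (rho * De) * l p ^ 2 := Finset.sum_le_sum hGc
    _ = (2 * C + 1) ^ 2 / (rho * De) * ∑ p ∈ F, l p ^ 2 := by rw [Finset.mul_sum]
    _ ≤ (2 * C + 1) ^ 2 / (rho * De) * S := by
        apply mul_le_mul_of_nonneg_left (hS F hF1 hF2)
        positivity

/-- Lines on which the last threshold is below the end time have many levels without a good
step. -/
theorem few_lines {t0 tE s : ℝ} (hs : 0 < s) (N : ℕ) (I : Finset ℤ) (th : ℤ → ℕ → ℝ)
    (h0 : ∀ i ∈ I, t0 ≤ th i 0) (hmono : ∀ i ∈ I, ∀ j, th i j ≤ th i (j + 1))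
    (P : Finset (ℤ × ℤ))
    (hgood : ∀ i ∈ I, ∀ j, j < N → th i (j + 1) < tE → (i, ((j : ℤ) + 1)) ∉ P →
      th i j ≤ th i (j + 1) - s)
    (hN : 4 * (tE - t0) ≤ N * s) (hI : ∀ i ∈ I, th i N < tE) :
    (3 / 4 : ℝ) * N * I.card ≤ P.card := by
  classical
  -- number of good levels on a line
  have hline : ∀ i ∈ I, (3 / 4 : ℝ) * N ≤
      (((Finset.range N).filter (fun j : ℕ => (i, ((j : ℤ) + 1)) ∈ P)).card : ℝ) := by
    intro i hi
    have hle : ∀ j, j ≤ N → th i j < tE := by
      intro j hj
      have : th i j ≤ th i N := by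
        have hm : Monotone (th i) := monotone_nat_of_le_succ (hmono i hi)
        exact hm hj
      exact lt_of_le_of_lt this (hI i hi)
    have hsum : ∀ n, n ≤ N →
        th i 0 + s * (((Finset.range n).filter (fun j : ℕ => (i, ((j : ℤ) + 1)) ∉ P)).card : ℝ)
          ≤ th i n := by
      intro n
      induction n with
      | zero => intro _; simp
      | succ n ih =>
        intro hn
        have ihn := ih (by omega)
        rw [Finset.range_add_one, Finset.filter_insert]
        split_ifs with hif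
        · exact ihn.trans (hmono i hi n)
        · rw [Finset.card_insert_of_notMem (by simp)]
          have := hgood i hi n (by omega) (hle _ hn) hif
          push_cast
          nlinarith
    have h1 := hsum N le_rfl
    have h2 := h0 i hi
    have h3 := hI i hi
    have h4 : s * (((Finset.range N).filter (fun j : ℕ => (i, ((j : ℤ) + 1)) ∉ P)).card : ℝ)
        ≤ tE - t0 := by linarith
    have h5 : (((Finset.range N).filter (fun j : ℕ => (i, ((j : ℤ) + 1)) ∈ P)).card : ℝ) +
        (((Finset.range N).filter (fun j : ℕ => (i, ((j : ℤ) + 1)) ∉ P)).card : ℝ) = N := by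
      have := Finset.card_filter_add_card_filter_not (s := Finset.range N)
        (fun j : ℕ => (i, ((j : ℤ) + 1)) ∈ P)
      rw [Finset.card_range] at this
      exact_mod_cast this
    have h6 : (((Finset.range N).filter (fun j : ℕ => (i, ((j : ℤ) + 1)) ∉ P)).card : ℝ)
        ≤ (1 / 4) * N := by
      by_contra hcon
      push Not at hcon
      nlinarith
    linarith
  calc (3 / 4 : ℝ) * N * I.card = ∑ i ∈ I, (3 / 4 : ℝ) * N := by
        rw [Finset.sum_const, nsmul_eq_mul]; ring
    _ ≤ ∑ i ∈ I, (((Finset.range N).filter (fun j : ℕ => (i, ((j : ℤ) + 1)) ∈ P)).card : ℝ) :=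
        Finset.sum_le_sum hline
    _ = ((∑ i ∈ I, ((Finset.range N).filter (fun j : ℕ => (i, ((j : ℤ) + 1)) ∈ P)).card : ℕ) : ℝ) := by
        push_cast; rfl
    _ ≤ P.card := by
        have : (∑ i ∈ I, ((Finset.range N).filter (fun j : ℕ => (i, ((j : ℤ) + 1)) ∈ P)).card)
            = (I.sigma (fun i => (Finset.range N).filter (fun j : ℕ => (i, ((j : ℤ) + 1)) ∈ P))).card := by
          rw [Finset.card_sigma]
        rw [this]
        norm_cast
        apply Finset.card_le_card_of_injOn (fun q : (Σ _ : ℤ, ℕ) => ((q.1, (q.2 : ℤ) + 1) : ℤ × ℤ))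
        · intro q hq
          have := Finset.mem_sigma.1 (Finset.mem_coe.1 hq)
          exact Finset.mem_coe.2 (Finset.mem_filter.1 this.2).2
        · rintro ⟨i, j⟩ - ⟨i', j'⟩ - h
          simp only [Prod.mk.injEq] at h
          obtain ⟨h1, h2⟩ := h
          subst h1
          have : j = j' := by omega
          subst this
          rfl

end Pool.Agent.FCF.Comb
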