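import Pool.Agent.FCF.Comb

/-!
# The combinatorial core of the planar comparison (section 7)
-/

namespace Pool.Agent.FCF.Comb

variable {X : Type*} [MetricSpace X]

/-- Points of the window region at which `b` exceeds `a` by more than `g`. -/
def Ov (al ze a b : X → ℝ) (A H g : ℝ) : Set X :=
  {x | |al x| ≤ A ∧ 0 < ze x ∧ ze x ≤ H ∧ g < b x - a x}

/-- First time at which an overtaken point appears on the line `al = α`. -/
noncomputable def thr (al ze a b : X → ℝ) (A H tE g α : ℝ) : ℝ :=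
  sInf (insert tE (a '' {x | x ∈ Ov al ze a b A H g ∧ al x = α}))

section
variable {al ze a b : X → ℝ} {A H tE t0 g0 g g' α : ℝ}

omit [MetricSpace X] in
theorem Ov_anti (h : g ≤ g') : Ov al ze a b A H g' ⊆ Ov al ze a b A H g := by
  rintro x ⟨h1, h2, h3, h4⟩
  exact ⟨h1, h2, h3, lt_of_le_of_lt h h4⟩

omit [MetricSpace X] in
theorem thr_bdd (hlow : ∀ x ∈ Ov al ze a b A H g, t0 ≤ a x) :
    BddBelow (insert tE (a '' {x | x ∈ Ov al ze a b A H g ∧ al x = α})) := by
  refine ⟨min t0 tE, ?_⟩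
  rintro t (rfl | ⟨x, ⟨hx, -⟩, rfl⟩)
  · exact min_le_right _ _
  · exact (min_le_left _ _).trans (hlow x hx)

omit [MetricSpace X] in
theorem thr_le (hlow : ∀ x ∈ Ov al ze a b A H g, t0 ≤ a x) :
    thr al ze a b A H tE g α ≤ tE :=
  csInf_le (thr_bdd hlow) (Set.mem_insert _ _)

omit [MetricSpace X] in
theorem thr_le_of (hlow : ∀ x ∈ Ov al ze a b A H g, t0 ≤ a x) {x : X}
    (hx : x ∈ Ov al ze a b A H g) : thr al ze a b A H tE g (al x) ≤ a x :=
  csInf_le (thr_bdd hlow) (Set.mem_insert_of_mem _ ⟨x, ⟨hx, rfl⟩, rfl⟩)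

omit [MetricSpace X] in
theorem le_thr {t : ℝ} (htE : t ≤ tE)
    (h : ∀ x ∈ Ov al ze a b A H g, al x = α → t ≤ a x) :
    t ≤ thr al ze a b A H tE g α := by
  refine le_csInf ⟨tE, Set.mem_insert _ _⟩ ?_
  rintro s (rfl | ⟨x, ⟨hx, hx2⟩, rfl⟩)
  · exact htE
  · exact h x hx hx2

omit [MetricSpace X] in
theorem exists_of_thr_lt {t : ℝ} (htE : t ≤ tE)
    (h : thr al ze a b A H tE g α < t) :
    ∃ x ∈ Ov al ze a b A H g, al x = α ∧ a x < t := by
  by_contra hcon
  push Not at hcon
  exact absurd (le_thr htE hcon) (not_le.2 h)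

omit [MetricSpace X] in
theorem thr_mono (hlow : ∀ x ∈ Ov al ze a b A H g, t0 ≤ a x) (h : g ≤ g') :
    thr al ze a b A H tE g α ≤ thr al ze a b A H tE g' α := by
  refine le_thr (thr_le hlow) ?_
  rintro x hx rfl
  exact thr_le_of hlow (Ov_anti h hx)

end

/-- The combinatorial core of the planar comparison. -/
theorem planar_core (al ze a b : X → ℝ) (ell : X → ℝ) (ok : X → Prop)
    {A A' H R t0 tE g0 De rho eta s cs CB CF S M : ℝ} {N : ℕ}
    (hDe : 0 < De) (hrD : De ≤ rho) (heta : 0 < eta) (heta1 : eta ≤ 1) (hrho : 6 ≤ rho)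
    (hs : 0 < s) (hcs : 0 < cs) (hCB : 0 ≤ CB) (hCF : 0 ≤ CF) (ht : t0 ≤ tE)
    (hA' : A' + (rho + 2) ≤ A) (hR : 0 ≤ R)
    (hal : ∀ x y, |al x - al y| ≤ dist x y)
    (hlow : ∀ x ∈ Ov al ze a b A H g0, t0 ≤ a x)
    (hmp : ∀ g, g0 ≤ g → ∀ α₁ α₂ α t₁, -A ≤ α₁ → α₂ ≤ A → α₁ < α → α < α₂ → t₁ ≤ tE →
      (∀ x ∈ Ov al ze a b A H g, al x = α₁ → t₁ ≤ a x) →
      (∀ x ∈ Ov al ze a b A H g, al x = α₂ → t₁ ≤ a x) →
      ∀ x ∈ Ov al ze a b A H g, al x = α → t₁ ≤ a x)
    (hkink : ∀ g, g0 + De ≤ g → ∀ t₁ < tE, ∀ x₀ ∈ Ov al ze a b A H g, |al x₀| ≤ A' →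
      a x₀ < t₁ + eta → (∀ z ∈ Ov al ze a b A H g, dist z x₀ < rho + 1 → t₁ ≤ a z) → ok x₀ →
      ∃ z ∈ Ov al ze a b A H (g - De), dist z x₀ ≤ rho + 1 ∧ a z ≤ t₁ - s)
    (hell : ∀ x ∈ Ov al ze a b A H g0, |al x| ≤ A' → a x < tE → ¬ ok x → rho ≤ ell x)
    (hbad : ∀ g, g0 ≤ g → ∀ x ∈ Ov al ze a b A H g, |al x| ≤ A' → a x < tE → ¬ ok x →
      (∀ z ∈ Ov al ze a b A H g, |al z - al x| ≤ ell x → a x - cs * ell x - 1 ≤ a z) →
      b x - a x ≤ g + CB * ell x)
    (hfine : ∀ x ∈ Ov al ze a b A H g0, |al x| ≤ A' → a x < tE → ¬ ok x →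
      ∀ y ∈ Ov al ze a b A H g0, dist x y ≤ ell x →
      |(b y - a y) - (b x - a x)| ≤ CF * ell x)
    (harea : ∀ F : Finset X, (∀ x ∈ F, x ∈ Ov al ze a b A H g0 ∧ |al x| ≤ A' ∧ a x < tE ∧ ¬ ok x) →
      (∀ x ∈ F, ∀ y ∈ F, x ≠ y →
        Disjoint (Metric.closedBall x (ell x / 4)) (Metric.closedBall y (ell y / 4))) →
      ∑ x ∈ F, ell x ^ 2 ≤ S)
    (hN : 4 * (tE - t0) ≤ N * s) (hM : M * rho + R + rho ≤ A')
    (hcount : N * (24 / eta * (tE - t0)) + N * (4 / (cs * rho) * (tE - t0)) +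
      (2 * (CF + CB + 1) + 1) ^ 2 / (rho * De) * S < 3 / 4 * N * M) :
    ∀ x ∈ Ov al ze a b A H (g0 + N * De), |al x| ≤ R → tE ≤ a x := by
  classical
  intro xs hxs hxsR
  by_contra hcon
  push Not at hcon
  have hrho0 : 0 < rho := by linarith
  -- thresholds
  set g : ℕ → ℝ := fun j => g0 + j * De with hg
  have hgm : Monotone g := by
    intro i j hij
    have : (i : ℝ) ≤ j := by exact_mod_cast hij
    simp only [hg]
    nlinarith
  have hg0 : ∀ j, g0 ≤ g j := by
    intro j
    simp only [hg]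
    have : (0 : ℝ) ≤ j := Nat.cast_nonneg j
    nlinarith
  have hgs : ∀ j, g (j + 1) - De = g j := by
    intro j; simp only [hg]; push_cast; ring
  set th : ℕ → ℝ → ℝ := fun j α => thr al ze a b A H tE (g j) α with hth
  have hOv0 : ∀ j, Ov al ze a b A H (g j) ⊆ Ov al ze a b A H g0 := fun j => Ov_anti (hg0 j)
  have hlow' : ∀ j, ∀ x ∈ Ov al ze a b A H (g j), t0 ≤ a x := fun j x hx => hlow x (hOv0 j hx)
  have hthle : ∀ j α, th j α ≤ tE := fun j α => thr_le (hlow' j)
  have hthge : ∀ j α, t0 ≤ th j α := fun j α => le_thr ht (fun x hx _ => hlow' j x hx)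
  have hthmono : ∀ j α, th j α ≤ th (j + 1) α := fun j α =>
    thr_mono (hlow' j) (hgm (Nat.le_succ j))
  set Z : Set ℝ := Set.Icc (-A) A with hZ
  have hquasi : ∀ j, ∀ x ∈ Z, ∀ y ∈ Z, ∀ z ∈ Z, x < y → y < z →
      min (th j x) (th j z) ≤ th j y := by
    intro j x hx y hy z hz hxy hyz
    refine le_thr ((min_le_left _ _).trans (hthle j x)) ?_
    intro w hw hwy
    refine hmp (g j) (hg0 j) x z y _ hx.1 hz.2 hxy hyz ((min_le_left _ _).trans (hthle j x)) ?_ ?_
      w hw hwy
    · rintro v hv rfl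
      exact (min_le_left _ _).trans (thr_le_of (hlow' j) hv)
    · rintro v hv rfl
      exact (min_le_right _ _).trans (thr_le_of (hlow' j) hv)
  -- the lines of one side
  have hside : ∃ I : Finset ℤ, M ≤ I.card ∧ (∀ i ∈ I, |(i : ℝ) * rho| ≤ A') ∧
      ∀ i ∈ I, th N (i * rho) < tE := by
    have hxN : th N (al xs) < tE := lt_of_le_of_lt (thr_le_of (hlow' N) hxs) hcon
    have hxZ : al xs ∈ Z := abs_le.1 hxs.1
    have hxR := abs_le.1 hxsR
    set Ip : Finset ℤ := Finset.Icc (⌊R / rho⌋ + 1) ⌊A' / rho⌋ with hIp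
    have hIpc : M ≤ Ip.card := by
      rw [hIp, Int.card_Icc]
      have h1 := Int.lt_floor_add_one (A' / rho)
      have h2 := Int.floor_le (R / rho)
      have h3 : M + R / rho + 1 ≤ A' / rho := by
        rw [le_div_iff₀ hrho0, add_mul, add_mul, div_mul_cancel₀ _ hrho0.ne']
        linarith
      have h4 : (⌊A' / rho⌋ + 1 - (⌊R / rho⌋ + 1) : ℤ) ≤
          ((⌊A' / rho⌋ + 1 - (⌊R / rho⌋ + 1)).toNat : ℤ) := Int.self_le_toNat _
      have h5 : ((⌊A' / rho⌋ + 1 - (⌊R / rho⌋ + 1) : ℤ) : ℝ) ≤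
          (((⌊A' / rho⌋ + 1 - (⌊R / rho⌋ + 1)).toNat : ℤ) : ℝ) := by exact_mod_cast h4
      push_cast at h5
      have h6 : ((⌊A' / rho⌋ + 1 - (⌊R / rho⌋ + 1)).toNat : ℝ) =
        (((⌊A' / rho⌋ + 1 - (⌊R / rho⌋ + 1)).toNat : ℤ) : ℝ) := by norm_cast
      rw [h6]
      linarith
    have hIpm : ∀ i ∈ Ip, R < (i : ℝ) * rho ∧ (i : ℝ) * rho ≤ A' := by
      intro i hi
      obtain ⟨h1, h2⟩ := Finset.mem_Icc.1 hi
      constructor
      · have h3 : ((⌊R / rho⌋ + 1 : ℤ) : ℝ) ≤ i := by exact_mod_cast h1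
        push_cast at h3
        have h4 := Int.lt_floor_add_one (R / rho)
        rw [← div_lt_iff₀ hrho0]
        linarith
      · have h3 : (i : ℝ) ≤ ⌊A' / rho⌋ := by exact_mod_cast h2
        have h4 := Int.floor_le (A' / rho)
        rw [← le_div_iff₀ hrho0]
        linarith
    by_cases hall : ∀ i ∈ Ip, th N (i * rho) < tE
    · refine ⟨Ip, hIpc, ?_, hall⟩
      intro i hi
      have := hIpm i hi
      rw [abs_of_pos (by linarith)]
      exact this.2
    · push Not at hall
      obtain ⟨i1, hi1, hi1'⟩ := hall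
      have hi1b := hIpm i1 hi1
      refine ⟨Ip.image (fun i => -i), ?_, ?_, ?_⟩
      · rwa [Finset.card_image_of_injective _ neg_injective]
      · intro i hi
        obtain ⟨k, hk, rfl⟩ := Finset.mem_image.1 hi
        have := hIpm k hk
        push_cast
        rw [neg_mul, abs_neg, abs_of_pos (by linarith)]
        exact this.2
      · intro i hi
        obtain ⟨k, hk, rfl⟩ := Finset.mem_image.1 hi
        have hk' := hIpm k hk
        by_contra hc
        push Not at hc
        have h1 : (((-k : ℤ) : ℝ) * rho) < al xs := by push_cast; linarith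
        have h2 : al xs < (i1 : ℝ) * rho := by linarith
        have h3 := hquasi N (((-k : ℤ) : ℝ) * rho) ⟨by push_cast; linarith, by push_cast; linarith⟩
          (al xs) hxZ ((i1 : ℝ) * rho) ⟨by linarith, by linarith⟩ h1 h2
        have h4 : tE ≤ min (th N (((-k : ℤ) : ℝ) * rho)) (th N ((i1 : ℝ) * rho)) := le_min hc hi1'
        linarith
  obtain ⟨I, hIM, hIA, hIt⟩ := hside
  have hIZ : ∀ i ∈ I, (i : ℝ) * rho ∈ Z := by
    intro i hi
    have := abs_le.1 (hIA i hi)
    exact ⟨by linarith, by linarith⟩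
  have hlt : ∀ i ∈ I, ∀ j, j ≤ N → th j (i * rho) < tE := by
    intro i hi j hj
    have hm : Monotone (fun j => th j (i * rho)) := monotone_nat_of_le_succ (fun j => hthmono j _)
    exact lt_of_le_of_lt (hm hj) (hIt i hi)
  -- chosen points
  have hch : ∀ i : ℤ, ∀ j : ℕ, ∃ x : X, i ∈ I → j ≤ N →
      x ∈ Ov al ze a b A H (g j) ∧ al x = i * rho ∧ a x < th j (i * rho) + eta / 4 ∧ a x < tE := by
    intro i j
    by_cases h : i ∈ I ∧ j ≤ N
    · have h1 := hlt i h.1 j h.2
      obtain ⟨x, hx, hx1, hx2⟩ := exists_of_thr_lt (al := al) (ze := ze) (a := a) (b := b) (A := A)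
        (H := H) (tE := tE) (g := g j) (α := i * rho)
        (t := min tE (th j (i * rho) + eta / 4)) (min_le_left _ _)
        (lt_min h1 (by simp only [hth]; linarith))
      exact ⟨x, fun _ _ => ⟨hx, hx1, lt_of_lt_of_le hx2 (min_le_right _ _),
        lt_of_lt_of_le hx2 (min_le_left _ _)⟩⟩
    · exact ⟨xs, fun h1 h2 => absurd ⟨h1, h2⟩ h⟩
  choose xp hxp using hch
  -- the exceptional sets of indices
  set NF : ℕ → Finset ℤ := fun j => I.filter (fun i : ℤ => ∃ α ∈ Z, |α - i * rho| ≤ rho + 2 ∧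
    th j α < th j (i * rho) - eta / 2) with hNF
  set SP : ℕ → Finset ℤ := fun j => I.filter (fun i : ℤ => ∃ α ∈ Z, ∃ l, rho ≤ l ∧ |α - i * rho| ≤ l ∧
    th j α < th j (i * rho) - cs * l) with hSP
  have hNFc : ∀ j, ((NF j).card : ℝ) ≤ 12 / eta * (tE - t0) := by
    intro j
    set NL := (NF j).filter (fun i : ℤ => ∃ α ∈ Z, α < i * rho ∧ i * rho - α ≤ rho + 2 ∧
      th j α < th j (i * rho) - eta / 2) with hNL
    set NR := (NF j).filter (fun i : ℤ => ∃ α ∈ Z, i * rho < α ∧ α - i * rho ≤ rho + 2 ∧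
      th j α < th j (i * rho) - eta / 2) with hNR
    have hsub : NF j ⊆ NL ∪ NR := by
      intro i hi
      obtain ⟨hiI, α, hαZ, hα1, hα2⟩ := Finset.mem_filter.1 hi
      have habs := abs_le.1 hα1
      rcases lt_trichotomy α (i * rho) with h | h | h
      · exact Finset.mem_union_left _ (Finset.mem_filter.2 ⟨hi, α, hαZ, h, by linarith, hα2⟩)
      · rw [h] at hα2; linarith
      · exact Finset.mem_union_right _ (Finset.mem_filter.2 ⟨hi, α, hαZ, h, by linarith, hα2⟩)
    have hL : (NL.card : ℝ) ≤ 6 / eta * (tE - t0) := by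
      have hex : ∀ i : ℤ, ∃ α : ℝ, i ∈ NL → α ∈ Z ∧ α < i * rho ∧ i * rho - α ≤ rho + 2 ∧
          th j α < th j (i * rho) - eta / 2 := by
        intro i
        by_cases h : i ∈ NL
        · obtain ⟨α, h1, h2⟩ := (Finset.mem_filter.1 h).2
          exact ⟨α, fun _ => ⟨h1, h2⟩⟩
        · exact ⟨0, fun h' => absurd h' h⟩
      choose αf hαf using hex
      refine drop_left hrho0 (by positivity) (th j) Z (hquasi j) (fun x _ => hthge j x) αf
        (fun _ => rho + 2) (fun _ => eta / 2) NL tE ?_ ht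
      intro i hi
      obtain ⟨h1, h2, h3, h4⟩ := hαf i hi
      have hiI : i ∈ I := (Finset.mem_filter.1 (Finset.mem_filter.1 hi).1).1
      refine ⟨hIZ i hiI, h1, h2, h3, by linarith, by positivity, ?_, hthle j _⟩
      have : 6 / eta * (eta / 2) = 3 := by field_simp; norm_num
      rw [this]
      have : (rho + 2) / rho ≤ 2 := by rw [div_le_iff₀ hrho0]; linarith
      linarith
    have hRR : (NR.card : ℝ) ≤ 6 / eta * (tE - t0) := by
      have hex : ∀ i : ℤ, ∃ α : ℝ, i ∈ NR → α ∈ Z ∧ i * rho < α ∧ α - i * rho ≤ rho + 2 ∧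
          th j α < th j (i * rho) - eta / 2 := by
        intro i
        by_cases h : i ∈ NR
        · obtain ⟨α, h1, h2⟩ := (Finset.mem_filter.1 h).2
          exact ⟨α, fun _ => ⟨h1, h2⟩⟩
        · exact ⟨0, fun h' => absurd h' h⟩
      choose αf hαf using hex
      refine drop_right hrho0 (by positivity) (th j) Z (hquasi j) (fun x _ => hthge j x) αf
        (fun _ => rho + 2) (fun _ => eta / 2) NR tE ?_ ht
      intro i hi
      obtain ⟨h1, h2, h3, h4⟩ := hαf i hi
      have hiI : i ∈ I := (Finset.mem_filter.1 (Finset.mem_filter.1 hi).1).1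
      refine ⟨hIZ i hiI, h1, h2, h3, by linarith, by positivity, ?_, hthle j _⟩
      have : 6 / eta * (eta / 2) = 3 := by field_simp; norm_num
      rw [this]
      have : (rho + 2) / rho ≤ 2 := by rw [div_le_iff₀ hrho0]; linarith
      linarith
    have h1 : ((NF j).card : ℝ) ≤ NL.card + NR.card := by
      exact_mod_cast (Finset.card_le_card hsub).trans (Finset.card_union_le _ _)
    calc ((NF j).card : ℝ) ≤ NL.card + NR.card := h1
      _ ≤ 6 / eta * (tE - t0) + 6 / eta * (tE - t0) := add_le_add hL hRR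
      _ = 12 / eta * (tE - t0) := by ring
  have hSPc : ∀ j, ((SP j).card : ℝ) ≤ 4 / (cs * rho) * (tE - t0) := by
    intro j
    set NL := (SP j).filter (fun i : ℤ => ∃ α ∈ Z, ∃ l, rho ≤ l ∧ α < i * rho ∧ i * rho - α ≤ l ∧
      th j α < th j (i * rho) - cs * l) with hNL
    set NR := (SP j).filter (fun i : ℤ => ∃ α ∈ Z, ∃ l, rho ≤ l ∧ i * rho < α ∧ α - i * rho ≤ l ∧
      th j α < th j (i * rho) - cs * l) with hNR
    have hsub : SP j ⊆ NL ∪ NR := by
      intro i hi
      obtain ⟨hiI, α, hαZ, l, hl, hα1, hα2⟩ := Finset.mem_filter.1 hi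
      have habs := abs_le.1 hα1
      rcases lt_trichotomy α (i * rho) with h | h | h
      · exact Finset.mem_union_left _ (Finset.mem_filter.2 ⟨hi, α, hαZ, l, hl, h, by linarith, hα2⟩)
      · rw [h] at hα2
        have : 0 < cs * l := mul_pos hcs (by linarith)
        linarith
      · exact Finset.mem_union_right _
          (Finset.mem_filter.2 ⟨hi, α, hαZ, l, hl, h, by linarith, hα2⟩)
    have hkey : ∀ l, rho ≤ l → l / rho + 1 ≤ 2 / (cs * rho) * (cs * l) := by
      intro l hl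
      have h1 : 2 / (cs * rho) * (cs * l) = 2 * (l / rho) := by field_simp
      rw [h1]
      have : 1 ≤ l / rho := by rwa [le_div_iff₀ hrho0, one_mul]
      linarith
    have hL : (NL.card : ℝ) ≤ 2 / (cs * rho) * (tE - t0) := by
      have hex : ∀ i : ℤ, ∃ α l : ℝ, i ∈ NL → α ∈ Z ∧ rho ≤ l ∧ α < i * rho ∧ i * rho - α ≤ l ∧
          th j α < th j (i * rho) - cs * l := by
        intro i
        by_cases h : i ∈ NL
        · obtain ⟨α, h1, l, h2⟩ := (Finset.mem_filter.1 h).2
          exact ⟨α, l, fun _ => ⟨h1, h2⟩⟩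
        · exact ⟨0, 0, fun h' => absurd h' h⟩
      choose αf lf hαf using hex
      refine drop_left hrho0 (by positivity) (th j) Z (hquasi j) (fun x _ => hthge j x) αf
        lf (fun i => cs * lf i) NL tE ?_ ht
      intro i hi
      obtain ⟨h1, h2, h3, h4, h5⟩ := hαf i hi
      have hiI : i ∈ I := (Finset.mem_filter.1 (Finset.mem_filter.1 hi).1).1
      exact ⟨hIZ i hiI, h1, h3, h4, by linarith, mul_pos hcs (by linarith), hkey _ h2, hthle j _⟩
    have hRR : (NR.card : ℝ) ≤ 2 / (cs * rho) * (tE - t0) := by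
      have hex : ∀ i : ℤ, ∃ α l : ℝ, i ∈ NR → α ∈ Z ∧ rho ≤ l ∧ i * rho < α ∧ α - i * rho ≤ l ∧
          th j α < th j (i * rho) - cs * l := by
        intro i
        by_cases h : i ∈ NR
        · obtain ⟨α, h1, l, h2⟩ := (Finset.mem_filter.1 h).2
          exact ⟨α, l, fun _ => ⟨h1, h2⟩⟩
        · exact ⟨0, 0, fun h' => absurd h' h⟩
      choose αf lf hαf using hex
      refine drop_right hrho0 (by positivity) (th j) Z (hquasi j) (fun x _ => hthge j x) αf
        lf (fun i => cs * lf i) NR tE ?_ ht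
      intro i hi
      obtain ⟨h1, h2, h3, h4, h5⟩ := hαf i hi
      have hiI : i ∈ I := (Finset.mem_filter.1 (Finset.mem_filter.1 hi).1).1
      exact ⟨hIZ i hiI, h1, h3, h4, by linarith, mul_pos hcs (by linarith), hkey _ h2, hthle j _⟩
    have h1 : ((SP j).card : ℝ) ≤ NL.card + NR.card := by
      exact_mod_cast (Finset.card_le_card hsub).trans (Finset.card_union_le _ _)
    calc ((SP j).card : ℝ) ≤ NL.card + NR.card := h1
      _ ≤ 2 / (cs * rho) * (tE - t0) + 2 / (cs * rho) * (tE - t0) := add_le_add hL hRR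
      _ = 4 / (cs * rho) * (tE - t0) := by ring
  -- pairs
  set P1 : Finset (ℤ × ℤ) := (Finset.range N).biUnion (fun j =>
    (NF (j + 1)).image (fun i => (i, (j : ℤ) + 1))) with hP1
  set P2 : Finset (ℤ × ℤ) := (Finset.range N).biUnion (fun j =>
    (NF j).image (fun i => (i, (j : ℤ) + 1))) with hP2
  set P3 : Finset (ℤ × ℤ) := (Finset.range N).biUnion (fun j =>
    (SP (j + 1)).image (fun i => (i, (j : ℤ) + 1))) with hP3
  set P4 : Finset (ℤ × ℤ) := (Finset.range N).biUnion (fun j =>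
    (I.filter (fun i => ¬ ok (xp i (j + 1)) ∧ i ∉ SP (j + 1))).image (fun i => (i, (j : ℤ) + 1)))
    with hP4
  have hP1c : (P1.card : ℝ) ≤ N * (12 / eta * (tE - t0)) := by
    calc (P1.card : ℝ) ≤ ∑ j ∈ Finset.range N, (((NF (j + 1)).image
          (fun i => (i, (j : ℤ) + 1))).card : ℝ) := by exact_mod_cast Finset.card_biUnion_le
      _ ≤ ∑ j ∈ Finset.range N, (12 / eta * (tE - t0)) := by
          refine Finset.sum_le_sum fun j _ => ?_
          exact (by exact_mod_cast Finset.card_image_le :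
            (((NF (j + 1)).image (fun i => (i, (j : ℤ) + 1))).card : ℝ) ≤ (NF (j + 1)).card).trans
            (hNFc _)
      _ = N * (12 / eta * (tE - t0)) := by
          rw [Finset.sum_const, Finset.card_range, nsmul_eq_mul]
  have hP2c : (P2.card : ℝ) ≤ N * (12 / eta * (tE - t0)) := by
    calc (P2.card : ℝ) ≤ ∑ j ∈ Finset.range N, (((NF j).image
          (fun i => (i, (j : ℤ) + 1))).card : ℝ) := by exact_mod_cast Finset.card_biUnion_le
      _ ≤ ∑ j ∈ Finset.range N, (12 / eta * (tE - t0)) := by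
          refine Finset.sum_le_sum fun j _ => ?_
          exact (by exact_mod_cast Finset.card_image_le :
            (((NF j).image (fun i => (i, (j : ℤ) + 1))).card : ℝ) ≤ (NF j).card).trans (hNFc _)
      _ = N * (12 / eta * (tE - t0)) := by
          rw [Finset.sum_const, Finset.card_range, nsmul_eq_mul]
  have hP3c : (P3.card : ℝ) ≤ N * (4 / (cs * rho) * (tE - t0)) := by
    calc (P3.card : ℝ) ≤ ∑ j ∈ Finset.range N, (((SP (j + 1)).image
          (fun i => (i, (j : ℤ) + 1))).card : ℝ) := by exact_mod_cast Finset.card_biUnion_le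
      _ ≤ ∑ j ∈ Finset.range N, (4 / (cs * rho) * (tE - t0)) := by
          refine Finset.sum_le_sum fun j _ => ?_
          exact (by exact_mod_cast Finset.card_image_le :
            (((SP (j + 1)).image (fun i => (i, (j : ℤ) + 1))).card : ℝ) ≤ (SP (j + 1)).card).trans
            (hSPc _)
      _ = N * (4 / (cs * rho) * (tE - t0)) := by
          rw [Finset.sum_const, Finset.card_range, nsmul_eq_mul]
  -- description of the pairs of P4
  have hP4m : ∀ p ∈ P4, ∃ i : ℤ, ∃ j : ℕ, p = (i, (j : ℤ) + 1) ∧ j < N ∧ i ∈ I ∧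
      ¬ ok (xp i (j + 1)) ∧ i ∉ SP (j + 1) := by
    intro p hp
    obtain ⟨j, hj, hp⟩ := Finset.mem_biUnion.1 hp
    obtain ⟨i, hi, rfl⟩ := Finset.mem_image.1 hp
    obtain ⟨h1, h2, h3⟩ := Finset.mem_filter.1 hi
    exact ⟨i, j, rfl, Finset.mem_range.1 hj, h1, h2, h3⟩
  set xq : ℤ × ℤ → X := fun p => xp p.1 p.2.toNat with hxq
  have hxq' : ∀ (i : ℤ) (j : ℕ), xq (i, (j : ℤ) + 1) = xp i (j + 1) := by
    intro i j
    simp only [hxq]
    congr 1
  have hfact : ∀ (i : ℤ) (j : ℕ), j < N → i ∈ I → ¬ ok (xp i (j + 1)) → i ∉ SP (j + 1) →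
      xp i (j + 1) ∈ Ov al ze a b A H g0 ∧ |al (xp i (j + 1))| ≤ A' ∧ a (xp i (j + 1)) < tE ∧
      al (xp i (j + 1)) = i * rho ∧ rho ≤ ell (xp i (j + 1)) ∧
      g (j + 1) < b (xp i (j + 1)) - a (xp i (j + 1)) ∧
      b (xp i (j + 1)) - a (xp i (j + 1)) ≤ g (j + 1) + CB * ell (xp i (j + 1)) := by
    intro i j hj hiI hok hsp
    obtain ⟨h1, h2, h3, h4⟩ := hxp i (j + 1) hiI (by omega)
    have h5 : |al (xp i (j + 1))| ≤ A' := by rw [h2]; exact hIA i hiI
    have h6 := hell _ (hOv0 _ h1) h5 h4 hok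
    refine ⟨hOv0 _ h1, h5, h4, h2, h6, h1.2.2.2, ?_⟩
    refine hbad (g (j + 1)) (hg0 _) _ h1 h5 h4 hok ?_
    intro z hz hzl
    by_contra hc
    push Not at hc
    apply hsp
    refine Finset.mem_filter.2 ⟨hiI, al z, abs_le.1 hz.1, ell (xp i (j + 1)), h6, ?_, ?_⟩
    · rw [← h2]; exact hzl
    · have h7 : th (j + 1) (al z) ≤ a z := thr_le_of (hlow' _) hz
      linarith
  have hP4c : (P4.card : ℝ) ≤ (2 * (CF + CB + 1) + 1) ^ 2 / (rho * De) * S := by
    refine vitali_pairs (C := CF + CB + 1) hDe hrD (by positivity)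
      (fun p => Metric.closedBall (xq p) (ell (xq p) / 4)) (fun p => ell (xq p)) P4 ?_ ?_ ?_ ?_
    · intro p hp
      obtain ⟨i, j, rfl, hj, hiI, hok, hsp⟩ := hP4m p hp
      have h := (hfact i j hj hiI hok hsp).2.2.2.2.1
      simp only [hxq']
      exact ⟨xp i (j + 1), Metric.mem_closedBall_self (by linarith)⟩
    · intro p hp
      obtain ⟨i, j, rfl, hj, hiI, hok, hsp⟩ := hP4m p hp
      simp only [hxq']
      exact (hfact i j hj hiI hok hsp).2.2.2.2.1
    · intro p hp q hq hle hint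
      obtain ⟨i, j, rfl, hj, hiI, hok, hsp⟩ := hP4m p hp
      obtain ⟨i', j', rfl, hj', hiI', hok', hsp'⟩ := hP4m q hq
      simp only [hxq'] at hle hint ⊢
      obtain ⟨f1, f2, f3, f4, f5, f6, f7⟩ := hfact i j hj hiI hok hsp
      obtain ⟨k1, k2, k3, k4, k5, k6, k7⟩ := hfact i' j' hj' hiI' hok' hsp'
      set x := xp i (j + 1) with hx
      set y := xp i' (j' + 1) with hy
      obtain ⟨w, hw1, hw2⟩ := hint
      have hd : dist x y ≤ ell x := by
        have h1 := Metric.mem_closedBall.1 hw1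
        have h2 := Metric.mem_closedBall.1 hw2
        have h3 := dist_triangle_left x y w
        linarith
      constructor
      · rw [← f4, ← k4]
        have := hal y x
        rw [dist_comm] at this
        nlinarith
      · have h1 := hfine x f1 f2 f3 hok y k1 hd
        have h2 := abs_le.1 h1
        have hjj : ((((j' : ℤ) + 1 : ℤ) : ℝ) * De - (((j : ℤ) + 1 : ℤ) : ℝ) * De)
            = g (j' + 1) - g (j + 1) := by
          simp only [hg]; push_cast; ring
        rw [hjj, abs_le]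
        have h3 : CB * ell y ≤ CB * ell x := mul_le_mul_of_nonneg_left hle hCB
        constructor <;> nlinarith
    · intro F hF hdis
      -- injectivity of the points on F
      have hinj : Set.InjOn xq (F : Set (ℤ × ℤ)) := by
        intro p hp q hq hpq
        by_contra hne
        have h1 := hdis p (Finset.mem_coe.1 hp) q (Finset.mem_coe.1 hq) hne
        simp only [hpq] at h1
        obtain ⟨i, j, rfl, hj, hiI, hok, hsp⟩ := hP4m q (hF (Finset.mem_coe.1 hq))
        have h := (hfact i j hj hiI hok hsp).2.2.2.2.1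
        simp only [hxq'] at h1
        refine Set.disjoint_left.1 h1 (Metric.mem_closedBall_self (x := xp i (j + 1)) ?_)
          (Metric.mem_closedBall_self ?_) <;> linarith
      rw [← Finset.sum_image (f := fun x => ell x ^ 2) (g := xq) hinj]
      refine harea _ ?_ ?_
      · intro x hx
        obtain ⟨p, hp, rfl⟩ := Finset.mem_image.1 hx
        obtain ⟨i, j, rfl, hj, hiI, hok, hsp⟩ := hP4m p (hF hp)
        rw [hxq']
        obtain ⟨f1, f2, f3, f4, f5, f6, f7⟩ := hfact i j hj hiI hok hsp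
        exact ⟨f1, f2, f3, hok⟩
      · intro x hx y hy hxy
        obtain ⟨p, hp, rfl⟩ := Finset.mem_image.1 hx
        obtain ⟨q, hq, rfl⟩ := Finset.mem_image.1 hy
        exact hdis p hp q hq (fun h => hxy (by rw [h]))
  -- good steps
  have hfew := few_lines (t0 := t0) (tE := tE) (s := s) hs N I (fun i j => th j (i * rho))
    (fun i _ => hthge 0 _) (fun i _ j => hthmono j _) (P1 ∪ P2 ∪ P3 ∪ P4) (by
      intro i hi j hj hlt' hnot
      by_contra hbadstep
      push Not at hbadstep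
      have hnf1 : i ∉ NF (j + 1) := by
        intro h
        apply hnot
        simp only [Finset.mem_union]
        left; left; left
        exact Finset.mem_biUnion.2 ⟨j, Finset.mem_range.2 hj, Finset.mem_image_of_mem _ h⟩
      have hnf2 : i ∉ NF j := by
        intro h
        apply hnot
        simp only [Finset.mem_union]
        left; left; right
        exact Finset.mem_biUnion.2 ⟨j, Finset.mem_range.2 hj, Finset.mem_image_of_mem _ h⟩
      have hsp : i ∉ SP (j + 1) := by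
        intro h
        apply hnot
        simp only [Finset.mem_union]
        left; right
        exact Finset.mem_biUnion.2 ⟨j, Finset.mem_range.2 hj, Finset.mem_image_of_mem _ h⟩
      have hok : ok (xp i (j + 1)) := by
        by_contra h
        apply hnot
        simp only [Finset.mem_union]
        right
        exact Finset.mem_biUnion.2 ⟨j, Finset.mem_range.2 hj, Finset.mem_image_of_mem _
          (Finset.mem_filter.2 ⟨hi, h, hsp⟩)⟩
      have hflat1 : ∀ α ∈ Z, |α - i * rho| ≤ rho + 2 → th (j + 1) (i * rho) - eta / 2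
          ≤ th (j + 1) α := by
        intro α hα h
        by_contra hc
        push Not at hc
        exact hnf1 (Finset.mem_filter.2 ⟨hi, α, hα, h, hc⟩)
      have hflat2 : ∀ α ∈ Z, |α - i * rho| ≤ rho + 2 → th j (i * rho) - eta / 2 ≤ th j α := by
        intro α hα h
        by_contra hc
        push Not at hc
        exact hnf2 (Finset.mem_filter.2 ⟨hi, α, hα, h, hc⟩)
      obtain ⟨h1, h2, h3, h4⟩ := hxp i (j + 1) hi (by omega)
      set x0 := xp i (j + 1) with hx0
      obtain ⟨z, hz, hzd, hza⟩ := hkink (g (j + 1)) (by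
          have := hgs j
          have := hg0 j
          linarith) (th (j + 1) (i * rho) - eta / 2) (by
          have := hthle (j + 1) (i * rho)
          linarith) x0 h1 (by rw [h2]; exact hIA i hi) (by linarith) (by
          intro z hz hzd
          have hzal : |al z - i * rho| ≤ rho + 2 := by
            rw [← h2]
            exact (hal z x0).trans (by linarith)
          exact (hflat1 _ (abs_le.1 hz.1) hzal).trans (thr_le_of (hlow' _) hz)) hok
      rw [hgs j] at hz
      have hzal : |al z - i * rho| ≤ rho + 2 := by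
        rw [← h2]
        exact (hal z x0).trans (by linarith)
      have h5 := hflat2 _ (abs_le.1 hz.1) hzal
      have h6 : th j (al z) ≤ a z := thr_le_of (hlow' _) hz
      linarith) hN hIt
  have hPc : ((P1 ∪ P2 ∪ P3 ∪ P4).card : ℝ) ≤ P1.card + P2.card + P3.card + P4.card := by
    have h1 := Finset.card_union_le (P1 ∪ P2 ∪ P3) P4
    have h2 := Finset.card_union_le (P1 ∪ P2) P3
    have h3 := Finset.card_union_le P1 P2
    exact_mod_cast (by omega : (P1 ∪ P2 ∪ P3 ∪ P4).card ≤ P1.card + P2.card + P3.card + P4.card)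
  have h7 : (3 / 4 : ℝ) * N * M ≤ 3 / 4 * N * I.card :=
    mul_le_mul_of_nonneg_left hIM (by positivity)
  have h8 : (N : ℝ) * (24 / eta * (tE - t0)) = N * (12 / eta * (tE - t0)) +
    N * (12 / eta * (tE - t0)) := by ring
  linarith

end Pool.Agent.FCF.Comb
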