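import Pool.Agent.FCF.Comb

/-!
# The combinatorial core of the wedge comparison (section 8)
-/

namespace Pool.Agent.FCF.Comb

/-- Lines on which the last threshold is below the end time: their number is controlled by the
area of the bad tips. -/
theorem wedge_core {β : Type*} {rho De C S t0 tE s : ℝ} (hDe : 0 < De) (hrD : De ≤ rho)
    (hC : 0 ≤ C) (hs : 0 < s) (N : ℕ) (I : Finset ℤ) (th : ℤ → ℕ → ℝ)
    (h0 : ∀ i ∈ I, t0 ≤ th i 0) (hmono : ∀ i ∈ I, ∀ j, th i j ≤ th i (j + 1))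
    (hN : 4 * (tE - t0) ≤ N * s)
    (bad : ℤ → ℕ → Prop)
    (hgood : ∀ i ∈ I, ∀ j, j < N → th i (j + 1) < tE → ¬ bad i (j + 1) →
      th i j ≤ th i (j + 1) - s)
    (B : ℤ → ℕ → Set β) (l : ℤ → ℕ → ℝ)
    (hB : ∀ i ∈ I, ∀ j, j < N → th i (j + 1) < tE → bad i (j + 1) →
      (B i (j + 1)).Nonempty ∧ rho ≤ l i (j + 1))
    (hgrp : ∀ i ∈ I, ∀ j, j < N → th i (j + 1) < tE → bad i (j + 1) →
      ∀ i' ∈ I, ∀ j', j' < N → th i' (j' + 1) < tE → bad i' (j' + 1) →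
      l i' (j' + 1) ≤ l i (j + 1) → (B i (j + 1) ∩ B i' (j' + 1)).Nonempty →
      |(i' : ℝ) * rho - i * rho| ≤ C * l i (j + 1) ∧
      |(j' : ℝ) * De - j * De| ≤ C * l i (j + 1))
    (hS : ∀ F : Finset (ℤ × ℕ), (∀ p ∈ F, p.1 ∈ I ∧ p.2 < N ∧ th p.1 (p.2 + 1) < tE ∧
        bad p.1 (p.2 + 1)) →
      (∀ p ∈ F, ∀ q ∈ F, p ≠ q → Disjoint (B p.1 (p.2 + 1)) (B q.1 (q.2 + 1))) →
      ∑ p ∈ F, l p.1 (p.2 + 1) ^ 2 ≤ S) :
    (3 / 4 : ℝ) * N * ((I.filter (fun i : ℤ => th i N < tE)).card : ℝ) ≤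
      (2 * C + 1) ^ 2 / (rho * De) * S := by
  classical
  set I' := I.filter (fun i : ℤ => th i N < tE) with hI'
  set P : Finset (ℤ × ℤ) := (Finset.range N).biUnion (fun j =>
    (I'.filter (fun i : ℤ => th i (j + 1) < tE ∧ bad i (j + 1))).image
      (fun i => (i, (j : ℤ) + 1))) with hP
  have hPm : ∀ p ∈ P, ∃ i : ℤ, ∃ j : ℕ, p = (i, (j : ℤ) + 1) ∧ j < N ∧ i ∈ I ∧
      th i (j + 1) < tE ∧ bad i (j + 1) := by
    intro p hp
    obtain ⟨j, hj, hp⟩ := Finset.mem_biUnion.1 hp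
    obtain ⟨i, hi, rfl⟩ := Finset.mem_image.1 hp
    obtain ⟨h1, h2, h3⟩ := Finset.mem_filter.1 hi
    exact ⟨i, j, rfl, Finset.mem_range.1 hj, (Finset.mem_filter.1 h1).1, h2, h3⟩
  have h1 : (3 / 4 : ℝ) * N * I'.card ≤ P.card := by
    refine few_lines hs N I' th (fun i hi => h0 i (Finset.mem_filter.1 hi).1)
      (fun i hi => hmono i (Finset.mem_filter.1 hi).1) P ?_ hN
      (fun i hi => (Finset.mem_filter.1 hi).2)
    intro i hi j hj hlt hnot
    refine hgood i (Finset.mem_filter.1 hi).1 j hj hlt ?_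
    intro hb
    exact hnot (Finset.mem_biUnion.2 ⟨j, Finset.mem_range.2 hj, Finset.mem_image_of_mem _
      (Finset.mem_filter.2 ⟨hi, hlt, hb⟩)⟩)
  have h2 : (P.card : ℝ) ≤ (2 * C + 1) ^ 2 / (rho * De) * S := by
    refine vitali_pairs (C := C) hDe hrD hC (fun p => B p.1 p.2.toNat) (fun p => l p.1 p.2.toNat)
      P ?_ ?_ ?_ ?_
    · intro p hp
      obtain ⟨i, j, rfl, hj, hi, hlt, hb⟩ := hPm p hp
      exact (hB i hi j hj hlt hb).1
    · intro p hp
      obtain ⟨i, j, rfl, hj, hi, hlt, hb⟩ := hPm p hp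
      exact (hB i hi j hj hlt hb).2
    · intro p hp q hq hle hint
      obtain ⟨i, j, rfl, hj, hi, hlt, hb⟩ := hPm p hp
      obtain ⟨i', j', rfl, hj', hi', hlt', hb'⟩ := hPm q hq
      have h := hgrp i hi j hj hlt hb i' hi' j' hj' hlt' hb' hle hint
      refine ⟨h.1, ?_⟩
      have h3 : ((((j' : ℤ) + 1 : ℤ) : ℝ) * De - (((j : ℤ) + 1 : ℤ) : ℝ) * De)
          = (j' : ℝ) * De - j * De := by push_cast; ring
      show |((((j' : ℤ) + 1 : ℤ) : ℝ) * De - (((j : ℤ) + 1 : ℤ) : ℝ) * De)| ≤ _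
      rw [h3]
      exact h.2
    · intro F hF hdis
      have hFm := fun p hp => hPm p (hF hp)
      set G : Finset (ℤ × ℕ) := F.image (fun p => (p.1, (p.2 - 1).toNat)) with hG
      have hinj : Set.InjOn (fun p : ℤ × ℤ => ((p.1, (p.2 - 1).toNat) : ℤ × ℕ))
          (F : Set (ℤ × ℤ)) := by
        intro p hp q hq hpq
        obtain ⟨i, j, rfl, -⟩ := hFm p (Finset.mem_coe.1 hp)
        obtain ⟨i', j', rfl, -⟩ := hFm q (Finset.mem_coe.1 hq)
        simp only [Prod.mk.injEq] at hpq ⊢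
        refine ⟨hpq.1, ?_⟩
        have := hpq.2
        omega
      have hsum : ∑ p ∈ F, l p.1 p.2.toNat ^ 2 = ∑ p ∈ G, l p.1 (p.2 + 1) ^ 2 := by
        rw [hG, Finset.sum_image hinj]
        refine Finset.sum_congr rfl ?_
        intro p hp
        obtain ⟨i, j, rfl, -⟩ := hFm p hp
        have h4 : ((j : ℤ) + 1).toNat = j + 1 := by omega
        have h5 : ((j : ℤ) + 1 - 1).toNat + 1 = j + 1 := by omega
        show l i ((j : ℤ) + 1).toNat ^ 2 = l i (((j : ℤ) + 1 - 1).toNat + 1) ^ 2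
        rw [h4, h5]
      rw [hsum]
      refine hS G ?_ ?_
      · intro p hp
        obtain ⟨q, hq, rfl⟩ := Finset.mem_image.1 hp
        obtain ⟨i, j, rfl, hj, hi, hlt, hb⟩ := hFm q hq
        have h5 : ((j : ℤ) + 1 - 1).toNat = j := by omega
        simp only [h5]
        exact ⟨hi, hj, hlt, hb⟩
      · intro p hp q hq hpq
        obtain ⟨p', hp', rfl⟩ := Finset.mem_image.1 hp
        obtain ⟨q', hq', rfl⟩ := Finset.mem_image.1 hq
        have hne : p' ≠ q' := fun h => hpq (by rw [h])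
        have h6 := hdis p' hp' q' hq' hne
        obtain ⟨i, j, rfl, -⟩ := hFm p' hp'
        obtain ⟨i', j', rfl, -⟩ := hFm q' hq'
        have h5 : ((j : ℤ) + 1 - 1).toNat = j := by omega
        have h5' : ((j' : ℤ) + 1 - 1).toNat = j' := by omega
        have h4 : ((j : ℤ) + 1).toNat = j + 1 := by omega
        have h4' : ((j' : ℤ) + 1).toNat = j' + 1 := by omega
        simp only [h4, h4'] at h6
        simp only [h5, h5']
        exact h6
  exact h1.trans h2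

end Pool.Agent.FCF.Comb
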