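import Pool.Agent.VSC.Defs

/-!
# Forced curvature flow in the plane: local subflows, maximal flows, arrival functions (definitions)

The plane is `V = EuclideanSpace ℝ (Fin 2)`, space time is `V × ℝ`.
-/

set_option autoImplicit false

namespace Pool.Agent.FCF

open Pool.Agent.VSC (V J LowJet)
open Set Metric

/-- The condition of an `h`-subflow at the point `(x0, t0)` of `S`. -/
structure SubAt (h : V → ℝ) (S : Set (V × ℝ)) (x0 : V) (t0 : ℝ) : Prop where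
  jet : ∀ (a : ℝ) (p : V) (X : V →L[ℝ] V →L[ℝ] ℝ), LowJet S x0 t0 a p X → p ≠ 0 →
    ∀ xi : V, ‖xi‖ = 1 → inner ℝ xi p = 0 → a ≤ X xi xi + h x0 * ‖p‖
  left : ∀ r : ℝ, 0 < r → ∃ (x : V) (t : ℝ), (x, t) ∈ S ∧ ‖x - x0‖ < r ∧ t0 - r < t ∧ t < t0

/-- `S` is an `h`-subflow in `U` from the time `t0` on: the part of `S` with times `≥ t0` is closed
relatively to `U × [t0, ∞)`, and the subflow condition holds at the points with time `> t0`. -/
structure SubIn (h : V → ℝ) (U : Set V) (t0 : ℝ) (S : Set (V × ℝ)) : Prop where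
  closed : ∀ x t, x ∈ U → t0 ≤ t → (x, t) ∈ closure (S ∩ {z | t0 ≤ z.2}) → (x, t) ∈ S
  sub : ∀ x t, x ∈ U → t0 < t → (x, t) ∈ S → SubAt h S x t

/-- Bounds of a forcing. -/
structure Med (M L : ℝ) (h : V → ℝ) : Prop where
  one_le : 1 ≤ M
  one_le' : 1 ≤ L
  bd : ∀ x, |h x| ≤ M
  lip : ∀ x y, |h x - h y| ≤ L * ‖x - y‖

/-- `S` is a global `h`-subflow on `V × [0, ∞)` with initial slice in `A`. -/
structure GSub (h : V → ℝ) (A : Set V) (S : Set (V × ℝ)) : Prop where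
  nonneg : ∀ x t, (x, t) ∈ S → 0 ≤ t
  sub : SubIn h univ 0 S
  init : ∀ x, (x, (0 : ℝ)) ∈ S → x ∈ A

/-- The maximal `h`-flow from `A` (space time set). -/
def Flow (h : V → ℝ) (A : Set V) : Set (V × ℝ) := closure (⋃₀ {S | GSub h A S})

/-- The slice at time `t` of the maximal `h`-flow from `A`. -/
def E (h : V → ℝ) (A : Set V) (t : ℝ) : Set V := {x | (x, t) ∈ Flow h A}

/-- The half plane `x . e ≤ a`. -/
def HP (e : V) (a : ℝ) : Set V := {x | inner ℝ x e ≤ a}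

/-- The half plane `x . e ≥ a`. -/
def HQ (e : V) (a : ℝ) : Set V := {x | a ≤ inner ℝ x e}

/-- Closing time of a hole of radius `r`. -/
noncomputable def hM (M r : ℝ) : ℝ := r ^ 2 / (2 + 2 * (M + 1) * r)

/-- The force `c + F`. -/
def frc (c : V → ℝ) (F : ℝ) : V → ℝ := fun x => c x + F

/-- Positive speed from the half plane `HP e 0`. -/
def Spd (h : V → ℝ) (e : V) : Prop :=
  ∃ g : ℝ, 0 < g ∧ ∃ T0 : ℝ, ∀ t : ℝ, T0 ≤ t → HP e (g * t) ⊆ E h (HP e 0) t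

/-- Positive speed from the half plane `HP e 0` and from a half plane slightly behind it. -/
def Spd2 (h : V → ℝ) (e : V) : Prop :=
  Spd h e ∧ ∃ a : ℝ, a < 0 ∧ ∃ g : ℝ, 0 < g ∧ ∃ T0 : ℝ, ∀ t : ℝ, T0 ≤ t →
    HP e (g * t) ⊆ E h (HP e a) t

/-- Expansion of balls: `x` is `r`-fine for `h`. -/
def Fine (h : V → ℝ) (sig Cs : ℝ) (x : V) (r : ℝ) : Prop :=
  ∀ z : V, ‖z - x‖ ≤ Cs * r → closedBall z (10 * r) ⊆ E h (closedBall z r) (sig * r)

/-- The constants of the problem. `M` bounds all forcings, `L` is a Lipschitz constant, `F` is the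
force, `F' < F` a slightly smaller force, `sig` the expansion constant. -/
structure Par where
  M : ℝ
  L : ℝ
  F : ℝ
  F' : ℝ
  sig : ℝ
  hM : 1 ≤ M
  hL : 1 ≤ L
  hF : F' < F
  hsig : 1 ≤ sig

namespace Par

/-- Speed bound. -/
def M1 (p : Par) : ℝ := 2 * p.M + 4
/-- Radius reached by a ball of radius `1` up to the time `sig`. -/
def C1 (p : Par) : ℝ := p.M1 * p.sig + 4
/-- Fineness constant. -/
def Cs (p : Par) : ℝ := 20 * p.C1
/-- Coarse Lipschitz constant. -/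
def C3 (p : Par) : ℝ := 10 * p.C1 * p.sig

/-- `c` is an environment for the constants `p`. -/
structure Env (p : Par) (c : V → ℝ) : Prop where
  med : Med p.M p.L (frc c p.F)
  med' : Med p.M p.L (frc c p.F')

/-- Fine for the force `F`. -/
def fine (p : Par) (c : V → ℝ) (x : V) (r : ℝ) : Prop := Fine (frc c p.F) p.sig p.Cs x r

/-- Fine for the smaller force `F'`. -/
def fine' (p : Par) (c : V → ℝ) (x : V) (r : ℝ) : Prop := Fine (frc c p.F') p.sig p.Cs x r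

/-- Fine for the smaller force `F'` with a slightly larger constant. -/
def fine1 (p : Par) (c : V → ℝ) (x : V) (r : ℝ) : Prop := Fine (frc c p.F') p.sig (p.Cs + 1) x r

end Par

/-- Sign: `true` for the occupied side (fast arrival functions `T ≤ t`), `false` for the unoccupied
side (`T ≥ t`). -/
def sgn (b : Bool) (h : V → ℝ) : V → ℝ := if b then h else fun x => -h x

/-- The space time set of an arrival function: `T ≤ t` (for `true`) or `T ≥ t` (for `false`). -/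
def arr (b : Bool) (T : V → ℝ) : Set (V × ℝ) :=
  if b then {z | T z.1 ≤ z.2} else {z | z.2 ≤ T z.1}

/-- The canonical arrival functions of the environment `c` in the direction `e`:
`TE` (from the occupied side) and `TO` (from the unoccupied side). -/
structure Canon (p : Par) (c : V → ℝ) (e : V) (A0 B0 : Set V) (TE TO : V → ℝ) (C g : ℝ) :
    Prop where
  one_le : 1 ≤ C
  g_pos : 0 < g
  A_closed : IsClosed A0
  B_closed : IsClosed B0
  A_sup : HP e 0 ⊆ A0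
  A_sub : A0 ⊆ HP e C
  B_sup : HQ e C ⊆ B0
  B_sub : B0 ⊆ HQ e 0
  TE_nonneg : ∀ x, 0 ≤ TE x
  TO_nonneg : ∀ x, 0 ≤ TO x
  TE_iff : ∀ x t, 0 ≤ t → (TE x ≤ t ↔ x ∈ E (frc c p.F) A0 t)
  TO_iff : ∀ x t, 0 < t → (t ≤ TO x ↔ x ∈ E (fun x => -frc c p.F x) B0 t)
  near : ∀ x, |TE x - TO x| ≤ C
  TE_le : ∀ x, TE x ≤ max (inner ℝ x e) 0 / g + C
  TE_ge : ∀ x, inner ℝ x e / p.M1 - C ≤ TE x
  flowE : ∀ x t, 0 ≤ t → x ∈ E (frc c p.F) (HP e 0) t → TE x ≤ t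
  flowO : ∀ x t, 0 ≤ t → x ∈ E (fun x => -frc c p.F x) (HQ e 0) t → t - C ≤ TO x
  clE : ∀ x r, 1 ≤ r → p.fine c x r → (C ≤ r ∨ closedBall x (p.Cs * r) ⊆ {y | C < inner ℝ y e}) →
    ∀ y z, ‖y - x‖ < 9 * r → ‖z - x‖ < 9 * r → |TE y - TE z| ≤ p.C3 * r
  clO : ∀ x r, 1 ≤ r → p.fine c x r → (C ≤ r ∨ closedBall x (p.Cs * r) ⊆ {y | C < inner ℝ y e}) →
    ∀ y z, ‖y - x‖ < 9 * r → ‖z - x‖ < 9 * r → |TO y - TO z| ≤ p.C3 * r

/-- Grid points. -/
noncomputable def gp (n : ℤ × ℤ) : V := !₂[(n.1 : ℝ), (n.2 : ℝ)]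

/-- The open cube `|z_i| < 2^J`. -/
def oc (J : ℕ) : Set V := {z | ∀ i, |z i| < 2 ^ J}

/-- The grid points of the open cube `|z_i| < 2^j`. -/
noncomputable def box (j : ℕ) : Finset (ℤ × ℤ) :=
  (Finset.Ioo (-(2 ^ j : ℤ)) (2 ^ j)) ×ˢ (Finset.Ioo (-(2 ^ j : ℤ)) (2 ^ j))

open Classical in
/-- A window: an arrival function `T` on the cube `oc J`, planar with slope `P` around most grid
points, at all scales `≥ 2^k`. `fi` is the fineness predicate for which coarse Lipschitz bounds are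
required. -/
structure Win (p : Par) (b : Bool) (h : V → ℝ) (fi : V → ℝ → Prop) (P : V) (eps del : ℝ)
    (k J : ℕ) (T : V → ℝ) (Y : Set (ℤ × ℤ)) : Prop where
  sub : ∀ t0 : ℝ, SubIn (sgn b h) (oc J) t0 (arr b T)
  dens : ∀ j, k ≤ j → j ≤ J → (((box j).filter (fun n => n ∉ Y)).card : ℝ) ≤ del * (box j).card
  plan : ∀ n ∈ Y, gp n ∈ oc J → ∀ z ∈ oc J,
    |T z - T (gp n) - inner ℝ P (z - gp n)| ≤ eps * max ‖z - gp n‖ (2 ^ k)
  cl : ∀ x r, 1 ≤ r → closedBall x (p.Cs * r) ⊆ oc J → fi x r →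
    ∀ y z, ‖y - x‖ < 9 * r → ‖z - x‖ < 9 * r → |T y - T z| ≤ p.C3 * r

/-- The window property `G'_J` of the environment `c` (coarse Lipschitz at `fine'` points). -/
def WinP (p : Par) (c : V → ℝ) (P : V) (eps del : ℝ) (k J : ℕ) : Prop :=
  ∀ b : Bool, ∃ (T : V → ℝ) (Y : Set (ℤ × ℤ)), Win p b (frc c p.F) (p.fine' c) P eps del k J T Y

/-- The window property `G_J` of the environment `c` (coarse Lipschitz at `fine` points). -/
def WinG (p : Par) (c : V → ℝ) (P : V) (eps del : ℝ) (k J : ℕ) : Prop :=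
  ∀ b : Bool, ∃ (T : V → ℝ) (Y : Set (ℤ × ℤ)), Win p b (frc c p.F) (p.fine c) P eps del k J T Y

/-- The bad event: near `x` some point is not fine at some scale `≥ r`. -/
def Bad (p : Par) (c : V → ℝ) (rho r : ℝ) (x : V) : Prop :=
  ∃ y : V, ‖y - x‖ ≤ 3 * rho ∧ ∃ r' : ℝ, r ≤ r' ∧ ¬ p.fine1 c y r'

/-- All points of large balls are fine at comparable scales. -/
def FineLarge (p : Par) (c : V → ℝ) : Prop :=
  ∀ eta : ℝ, 0 < eta → ∃ R0 : ℝ, ∀ R : ℝ, R0 ≤ R → ∀ x : V, ‖x‖ ≤ R → ∀ r : ℝ,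
    eta * R ≤ r → r ≤ R → p.fine1 c x r

/-- The bad event has small density in all rectangles. -/
def BadRect (p : Par) (c : V → ℝ) : Prop :=
  ∀ del : ℝ, 0 < del → ∀ eta : ℝ, 0 < eta → ∃ rho0 : ℝ, ∀ rho : ℝ, rho0 ≤ rho →
    ∀ e : V, ‖e‖ = 1 → ∀ K C : ℝ, 1 ≤ K → 1 ≤ C → ∃ R0 : ℝ, ∀ R : ℝ, R0 ≤ R →
      MeasureTheory.volume {x : V | |inner ℝ x (J e)| ≤ K * R ∧ |inner ℝ x e| ≤ C * R ∧
        Bad p c rho (eta * rho) x} ≤ ENNReal.ofReal (del * (K * R) * (C * R))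

open Classical in
/-- The conclusion of the windows theorem for the arrival function `T` in the direction `e`. -/
def W2 (P0 : Set V) (e : V) (T : V → ℝ) : Prop :=
  ∀ R : ℕ → ℝ, Filter.Tendsto R Filter.atTop Filter.atTop → ∃ φ : ℕ → ℕ, StrictMono φ ∧
    ∀ eps : ℝ, 0 < eps → ∀ del : ℝ, 0 < del → ∀ eta : ℝ, 0 < eta → ∀ Kq : ℝ, 1 ≤ Kq →
      ∃ k2 : ℕ, ∀ k : ℕ, k2 ≤ k → ∃ n0 : ℕ, ∀ n : ℕ, n0 ≤ n → ∀ Z : Finset (ℤ × ℤ),
        (∀ m ∈ Z, (∀ i, |gp m i| ≤ Kq * R (φ n)) ∧ eta * R (φ n) ≤ inner ℝ (gp m) e ∧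
          ¬ ∃ Q : V, (∃ P ∈ P0, ‖Q - P‖ < eps) ∧ ∀ z : V, ‖z - gp m‖ ≤ 2 ^ k →
            |T z - T (gp m) - inner ℝ Q (z - gp m)| ≤ eps * 2 ^ k) →
        (Z.card : ℝ) ≤ del * R (φ n) ^ 2

/-- The environment `c` is typical (with the deterministic set `P0` of window slopes). -/
structure Typ (p : Par) (P0 : Set V) (c : V → ℝ) : Prop where
  env : p.Env c
  large : FineLarge p c
  bad : BadRect p c
  win : ∀ P ∈ P0, ∀ eps : ℝ, 0 < eps → ∀ del : ℝ, 0 < del → ∃ k1 : ℕ, ∀ k : ℕ, k1 ≤ k →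
    ∃ x0 : V, ∀ J : ℕ, k ≤ J → WinP p (fun x => c (x0 + x)) P eps del k J
  w2 : ∀ e : V, ‖e‖ = 1 → ∀ (A0 B0 : Set V) (TE TO : V → ℝ) (C g : ℝ),
    Canon p c e A0 B0 TE TO C g → W2 P0 e TE ∧ W2 P0 e TO

end Pool.Agent.FCF
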