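import Pool.Agent.FCF.Defs

/-!
# The space of environments

`EnvT M L` = functions bounded by `M`, `L`-Lipschitz, with the topology of pointwise convergence
(compact, metrisable) and its Borel sets.
-/

set_option autoImplicit false

namespace Pool.Agent.FCF

open Pool.Agent.VSC (V J LowJet)
open Set Metric MeasureTheory Filter Topology

/-- The space of environments. -/
def EnvT (M L : ℝ) : Type := {c : V → ℝ // (∀ x, |c x| ≤ M) ∧ ∀ x y, |c x - c y| ≤ L * ‖x - y‖}

namespace EnvT

variable {M L : ℝ}

instance : CoeFun (EnvT M L) (fun _ => V → ℝ) := ⟨fun c => c.1⟩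

instance : TopologicalSpace (EnvT M L) := instTopologicalSpaceSubtype

instance : MeasurableSpace (EnvT M L) := borel _

instance : BorelSpace (EnvT M L) := ⟨rfl⟩

/-- The shifted environment `x ↦ c (y + x)`. -/
def shift (y : V) (c : EnvT M L) : EnvT M L :=
  ⟨fun x => c.1 (y + x), fun x => c.2.1 (y + x), fun x z => by
    have := c.2.2 (y + x) (y + z)
    simpa using this⟩

theorem shift_apply (y : V) (c : EnvT M L) (x : V) : shift y c x = c (y + x) := rfl

theorem shift_zero (c : EnvT M L) : shift 0 c = c := by
  apply Subtype.ext; funext x; show c.1 (0 + x) = c.1 x; rw [zero_add]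

theorem shift_add (y z : V) (c : EnvT M L) : shift y (shift z c) = shift (z + y) c := by
  apply Subtype.ext; funext x; show c.1 (z + (y + x)) = c.1 (z + y + x); rw [add_assoc]

end EnvT

open EnvT

/-- A stationary ergodic law on the space of environments. -/
structure Erg {M L : ℝ} (μ : Measure (EnvT M L)) : Prop where
  prob : IsProbabilityMeasure μ
  inv : ∀ y : V, MeasurePreserving (shift y : EnvT M L → EnvT M L) μ μ
  erg : ∀ B : Set (EnvT M L), MeasurableSet B → (∀ y : V, shift y ⁻¹' B = B) → μ B = 0 ∨ μ B = 1

end Pool.Agent.FCF
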