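import Pool.Agent.FCF.EnvTop
import Pool.Agent.FCF.Inner

/-!
# FCF / EnvEvent: closed events in the space of environments

Semicontinuity of the maximal flow (`E_limit`) and metrisability of `EnvT`.
-/

set_option autoImplicit false

namespace Pool.Agent.FCF

open Pool.Agent.VSC (V J LowJet)
open Set Metric MeasureTheory Filter Topology EnvT

/-- Bounds for the forcings of all environments. -/
theorem med_frc {M L : ℝ} (c : EnvT M L) (F : ℝ) : Med (|M| + |F| + 1) (|L| + 1) (frc c.1 F) where
  one_le := by linarith [abs_nonneg M, abs_nonneg F]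
  one_le' := by linarith [abs_nonneg L]
  bd := fun x => by
    have h1 := c.2.1 x
    have h2 := abs_add_le (c.1 x) F
    have h3 := le_abs_self M
    show |c.1 x + F| ≤ _
    linarith
  lip := fun x y => by
    have h1 := c.2.2 x y
    have h2 : |frc c.1 F x - frc c.1 F y| = |c.1 x - c.1 y| := by
      show |c.1 x + F - (c.1 y + F)| = _
      congr 1
      ring
    rw [h2]
    have h3 : L * ‖x - y‖ ≤ (|L| + 1) * ‖x - y‖ := by
      gcongr
      linarith [le_abs_self L]
    exact h1.trans h3

/-- The flow of a limit environment contains the limits of points of the flows. -/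
theorem E_limit_env {M L : ℝ} {cn : ℕ → EnvT M L} {c : EnvT M L} (h : Tendsto cn atTop (𝓝 c))
    (F : ℝ) {A : Set V} (hA : IsClosed A) {φ : ℕ → ℕ} (hφ : StrictMono φ) {x : ℕ → V} {t : ℕ → ℝ}
    {y : V} {s : ℝ} (hx : ∀ n, x n ∈ E (frc (cn (φ n)).1 F) A (t n))
    (hxl : Tendsto x atTop (𝓝 y)) (htl : Tendsto t atTop (𝓝 s)) : y ∈ E (frc c.1 F) A s := by
  refine E_limit (h := frc c.1 F) (hn := fun n => frc (cn n).1 F) (An := fun _ => A)
    (med_frc c F) (fun n => med_frc (cn n) F) (fun x => ?_) hA (fun _ => hA) ?_ hφ hx hxl htl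
  · exact ((tendsto_iff.1 h) x).add_const F
  · intro ψ a b _ ha hab
    exact hA.mem_of_tendsto hab (Eventually.of_forall ha)

/-- Closed events about maximal flows: for closed `A`, the set of environments for which the flow
with force `F` from `A` contains `A'` at all times `t ∈ I`. -/
theorem isClosed_event_flow {M L : ℝ} (F : ℝ) {A : Set V} (hA : IsClosed A) (A' : ℝ → Set V)
    (I : Set ℝ) : IsClosed {c : EnvT M L | ∀ t ∈ I, A' t ⊆ E (frc c.1 F) A t} := by
  apply IsSeqClosed.isClosed
  intro cn c hcn hc t ht x hx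
  exact E_limit_env hc F hA strictMono_id (x := fun _ => x) (t := fun _ => t)
    (fun n => hcn n t ht hx) tendsto_const_nhds tendsto_const_nhds

/-- The same at a single time. -/
theorem isClosed_event_at {M L : ℝ} (F : ℝ) {A : Set V} (hA : IsClosed A) (A' : Set V)
    (t : ℝ) : IsClosed {c : EnvT M L | A' ⊆ E (frc c.1 F) A t} := by
  have h := isClosed_event_flow (M := M) (L := L) F hA (fun _ => A') {t}
  simpa using h

/-- Fineness is a closed event; so is fineness at all scales `≥ r0`. -/
theorem isClosed_event_fine {M L : ℝ} (F sig Cs : ℝ) (x : V) (r : ℝ) :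
    IsClosed {c : EnvT M L | Fine (frc c.1 F) sig Cs x r} := by
  have h : {c : EnvT M L | Fine (frc c.1 F) sig Cs x r} =
      ⋂ z : V, ⋂ _ : ‖z - x‖ ≤ Cs * r,
        {c : EnvT M L | closedBall z (10 * r) ⊆ E (frc c.1 F) (closedBall z r) (sig * r)} := by
    ext c
    simp only [Fine, mem_ofPred_eq, mem_iInter]
  rw [h]
  exact isClosed_iInter fun z => isClosed_iInter fun _ =>
    isClosed_event_at F isClosed_closedBall _ _

/-- Fineness at all points of a set and all scales of a set. -/
theorem isClosed_event_fine_all {M L : ℝ} (F sig Cs : ℝ) (Y : Set V) (I : Set ℝ) :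
    IsClosed {c : EnvT M L | ∀ y ∈ Y, ∀ r ∈ I, Fine (frc c.1 F) sig Cs y r} := by
  have h : {c : EnvT M L | ∀ y ∈ Y, ∀ r ∈ I, Fine (frc c.1 F) sig Cs y r} =
      ⋂ y ∈ Y, ⋂ r ∈ I, {c : EnvT M L | Fine (frc c.1 F) sig Cs y r} := by
    ext c
    simp only [mem_ofPred_eq, mem_iInter]
  rw [h]
  exact isClosed_biInter fun y _ => isClosed_biInter fun r _ => isClosed_event_fine F sig Cs y r

/-- The bad events are open. -/
theorem isOpen_event_bad {M L : ℝ} (p : Par) (rho r : ℝ) (x : V) :
    IsOpen {c : EnvT M L | Bad p c.1 rho r x} := by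
  have h := (isClosed_event_fine_all (M := M) (L := L) p.F' p.sig (p.Cs + 1)
    {y | ‖y - x‖ ≤ 3 * rho} {r' | r ≤ r'}).isOpen_compl
  convert h using 1
  ext c
  simp only [Bad, Par.fine1, mem_ofPred_eq, mem_compl_iff, not_forall, exists_prop]

/-! ### Shifts -/

/-- Flows of shifted environments. -/
theorem E_shift_env {M L : ℝ} (c : EnvT M L) (F : ℝ) (y : V) (A : Set V) (t : ℝ) (x : V) :
    x ∈ E (frc (shift y c).1 F) {x | y + x ∈ A} t ↔ y + x ∈ E (frc c.1 F) A t :=
  E_shift (h := frc c.1 F) (A := A) y t x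

private theorem env_ball_shift (y z : V) (r : ℝ) :
    {x : V | y + x ∈ closedBall (y + z) r} = closedBall z r := by
  ext x
  simp [mem_closedBall, dist_eq_norm]

/-- Fineness of shifted environments. -/
theorem fine_shift {M L : ℝ} (c : EnvT M L) (F sig Cs : ℝ) (y x : V) (r : ℝ) :
    Fine (frc (shift y c).1 F) sig Cs x r ↔ Fine (frc c.1 F) sig Cs (y + x) r := by
  constructor
  · intro h z hz w hw
    have h1 := h (z - y) (by rwa [show z - y - x = z - (y + x) by abel])
    have h2 : w - y ∈ closedBall (z - y) (10 * r) := by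
      rw [mem_closedBall, dist_eq_norm] at hw ⊢
      rwa [show w - y - (z - y) = w - z by abel]
    have h3 := h1 h2
    rw [← env_ball_shift y (z - y) r, E_shift_env] at h3
    rwa [show y + (w - y) = w by abel, show y + (z - y) = z by abel] at h3
  · intro h z hz w hw
    have h1 := h (y + z) (by rwa [show y + z - (y + x) = z - x by abel])
    have h2 : y + w ∈ closedBall (y + z) (10 * r) := by
      rw [mem_closedBall, dist_eq_norm] at hw ⊢
      rwa [show y + w - (y + z) = w - z by abel]
    have h3 := h1 h2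
    rw [← E_shift_env, env_ball_shift] at h3
    exact h3

/-- The bad event at `x` is the bad event at `0` of the shifted environment. -/
theorem bad_shift {M L : ℝ} (p : Par) (c : EnvT M L) (rho r : ℝ) (x y : V) :
    Bad p (shift y c).1 rho r x ↔ Bad p c.1 rho r (y + x) := by
  constructor
  · rintro ⟨z, hz, r', hr', h⟩
    refine ⟨y + z, by rwa [show y + z - (y + x) = z - x by abel], r', hr', fun h1 => h ?_⟩
    exact (fine_shift c p.F' p.sig (p.Cs + 1) y z r').2 h1
  · rintro ⟨z, hz, r', hr', h⟩
    refine ⟨z - y, by rwa [show z - y - x = z - (y + x) by abel], r', hr', fun h1 => h ?_⟩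
    have h2 := (fine_shift c p.F' p.sig (p.Cs + 1) y (z - y) r').1 h1
    rwa [show y + (z - y) = z by abel] at h2

/-! ### Fineness with room passes to approximating environments -/

/-- If `x` is fine for the force `F'` and the limit environment, then it is fine for the larger
force `F` and all late members of the sequence. -/
theorem fine_eventually {M L : ℝ} (p : Par) {cn : ℕ → EnvT M L} {c : EnvT M L}
    (hc : p.Env c.1) (h : Tendsto cn atTop (𝓝 c)) {x : V} {r : ℝ} (hr : 0 ≤ r)
    (hf : p.fine' c.1 x r) : ∀ᶠ n in atTop, p.fine (cn n).1 x r := by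
  have hs : 0 ≤ p.sig * r := mul_nonneg (zero_le_one.trans p.hsig) hr
  set R := ‖x‖ + p.Cs * r + (r + (2 * p.M + 4) * (p.sig * r) + 1) with hR
  filter_upwards [tendsto_unif h R (p.F - p.F') (sub_pos.2 p.hF)] with n hn z hz
  refine (hf z hz).trans ?_
  refine E_mono_force_local hc.med' hr hs (fun y hy => ?_)
  have h1 : ‖y‖ ≤ R := by
    have e1 : ‖y‖ ≤ ‖y - z‖ + ‖z‖ := by
      have := norm_add_le (y - z) z
      rwa [sub_add_cancel] at this
    have e2 : ‖z‖ ≤ ‖z - x‖ + ‖x‖ := by
      have := norm_add_le (z - x) x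
      rwa [sub_add_cancel] at this
    rw [hR]
    linarith
  have h2 := (abs_le.1 (hn y h1)).1
  show c.1 y + p.F' ≤ (cn n).1 y + p.F
  linarith

end Pool.Agent.FCF
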