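import Pool.Agent.FCF.EnvDefs

/-!
# FCF / EnvTop: the space of environments is compact and metrisable
-/

set_option autoImplicit false

namespace Pool.Agent.FCF

open Pool.Agent.VSC (V J LowJet)
open Set Metric MeasureTheory Filter Topology EnvT

/-! ### Compactness -/

instance EnvT.t2Space {M L : ℝ} : T2Space (EnvT M L) :=
  inferInstanceAs (T2Space {c : V → ℝ // (∀ x, |c x| ≤ M) ∧ ∀ x y, |c x - c y| ≤ L * ‖x - y‖})

instance EnvT.compactSpace {M L : ℝ} : CompactSpace (EnvT M L) := by
  have h : IsCompact {c : V → ℝ | (∀ x, |c x| ≤ M) ∧ ∀ x y, |c x - c y| ≤ L * ‖x - y‖} := by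
    refine (isCompact_univ_pi fun _ : V => isCompact_Icc (a := -M) (b := M)).of_isClosed_subset
      ?_ ?_
    · rw [ofPred_and, ofPred_forall]
      refine IsClosed.inter (isClosed_iInter fun x => ?_) ?_
      · exact isClosed_le (continuous_apply x).abs continuous_const
      · rw [ofPred_forall]
        refine isClosed_iInter fun x => ?_
        rw [ofPred_forall]
        refine isClosed_iInter fun y => ?_
        exact isClosed_le ((continuous_apply x).sub (continuous_apply y)).abs continuous_const
    · intro c hc x _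
      exact abs_le.1 (hc.1 x)
  exact isCompact_iff_compactSpace.1 h

/-! ### Evaluations -/

theorem continuous_eval_at {M L : ℝ} (x : V) : Continuous (fun c : EnvT M L => c.1 x) :=
  (continuous_apply x).comp continuous_subtype_val

theorem tendsto_iff {M L : ℝ} {cn : ℕ → EnvT M L} {c : EnvT M L} :
    Tendsto cn atTop (𝓝 c) ↔ ∀ x, Tendsto (fun n => (cn n).1 x) atTop (𝓝 (c.1 x)) := by
  have h : IsInducing (fun e : EnvT M L => e.1) := ⟨rfl⟩
  rw [h.tendsto_nhds_iff, tendsto_pi_nhds]
  rfl

theorem continuous_eval {M L : ℝ} : Continuous (fun q : V × EnvT M L => q.2.1 q.1) := by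
  rw [continuous_iff_continuousAt]
  rintro ⟨x0, c0⟩
  rw [ContinuousAt, tendsto_iff_dist_tendsto_zero]
  have h1 : Tendsto (fun q : V × EnvT M L => L * ‖q.1 - x0‖ + |q.2.1 x0 - c0.1 x0|)
      (𝓝 (x0, c0)) (𝓝 0) := by
    have h2 : Continuous (fun q : V × EnvT M L => L * ‖q.1 - x0‖ + |q.2.1 x0 - c0.1 x0|) :=
      (continuous_const.mul (continuous_fst.sub continuous_const).norm).add
        (((continuous_eval_at x0).comp continuous_snd).sub continuous_const).abs
    have h3 := h2.tendsto (x0, c0)
    simpa using h3
  refine squeeze_zero (fun _ => dist_nonneg) (fun q => ?_) h1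
  rw [Real.dist_eq]
  calc |q.2.1 q.1 - c0.1 x0| ≤ |q.2.1 q.1 - q.2.1 x0| + |q.2.1 x0 - c0.1 x0| := abs_sub_le _ _ _
    _ ≤ L * ‖q.1 - x0‖ + |q.2.1 x0 - c0.1 x0| := by gcongr; exact q.2.2.2 _ _

theorem continuous_shift {M L : ℝ} :
    Continuous (fun q : V × EnvT M L => shift q.1 q.2) := by
  refine Continuous.subtype_mk (continuous_pi fun x => ?_) _
  have h : Continuous (fun q : V × EnvT M L => ((q.1 + x, q.2) : V × EnvT M L)) :=
    (continuous_fst.add continuous_const).prodMk continuous_snd
  exact continuous_eval.comp h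

theorem continuous_shift_right {M L : ℝ} (y : V) : Continuous (shift y : EnvT M L → EnvT M L) :=
  continuous_shift.comp (Continuous.prodMk_right y)

theorem continuous_shift_left {M L : ℝ} (c : EnvT M L) : Continuous (fun y : V => shift y c) :=
  continuous_shift.comp (Continuous.prodMk_left c)

/-! ### A countable family of evaluations determines the topology -/

/-- The evaluations at a dense sequence. -/
noncomputable def EnvT.code {M L : ℝ} (c : EnvT M L) : ℕ → ℝ :=
  fun n => c.1 (TopologicalSpace.denseSeq V n)

theorem isInducing_code {M L : ℝ} : IsInducing (EnvT.code : EnvT M L → ℕ → ℝ) := by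
  refine ⟨le_antisymm ?_ ?_⟩
  · rw [← continuous_iff_le_induced]
    exact continuous_pi fun n => continuous_eval_at _
  · -- the topology induced by `code` makes the inclusion in the product continuous
    have h : @Continuous (EnvT M L) (V → ℝ) (TopologicalSpace.induced EnvT.code inferInstance)
        inferInstance (fun c => c.1) := by
      letI t' : TopologicalSpace (EnvT M L) :=
        TopologicalSpace.induced EnvT.code inferInstance
      have hc : Continuous (EnvT.code : EnvT M L → ℕ → ℝ) := continuous_induced_dom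
      refine continuous_pi fun x => ?_
      refine continuous_of_uniform_approx_of_continuous ?_
      intro u hu
      obtain ⟨eps, heps, hu'⟩ := Metric.mem_uniformity_dist.1 hu
      obtain ⟨n, hn⟩ := (TopologicalSpace.denseRange_denseSeq V).exists_dist_lt x
        (show 0 < eps / (|L| + 1) by positivity)
      refine ⟨fun c => EnvT.code c n, (continuous_apply n).comp hc, fun c => hu' ?_⟩
      rw [Real.dist_eq]
      have h1 : |c.1 x - c.1 (TopologicalSpace.denseSeq V n)| ≤
          L * ‖x - TopologicalSpace.denseSeq V n‖ := c.2.2 _ _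
      rw [dist_eq_norm] at hn
      have h2 : L * ‖x - TopologicalSpace.denseSeq V n‖ ≤
          (|L| + 1) * ‖x - TopologicalSpace.denseSeq V n‖ := by
        gcongr
        linarith [le_abs_self L]
      have h3 : (|L| + 1) * ‖x - TopologicalSpace.denseSeq V n‖ < eps := by
        rw [lt_div_iff₀ (by positivity)] at hn
        linarith
      exact (h1.trans h2).trans_lt h3
    exact continuous_iff_le_induced.1 h

theorem code_injective {M L : ℝ} : Function.Injective (EnvT.code : EnvT M L → ℕ → ℝ) :=
  isInducing_code.injective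

instance EnvT.secondCountable {M L : ℝ} : SecondCountableTopology (EnvT M L) :=
  isInducing_code.secondCountableTopology

theorem EnvT.metrizable {M L : ℝ} : TopologicalSpace.MetrizableSpace (EnvT M L) :=
  inferInstance

/-- The Borel sets are generated by the evaluations. -/
theorem measurable_iff {Ω : Type*} [MeasurableSpace Ω] {M L : ℝ} {f : Ω → EnvT M L} :
    Measurable f ↔ ∀ x, Measurable (fun ω => (f ω).1 x) := by
  constructor
  · intro h x
    exact (continuous_eval_at x).measurable.comp h
  · intro h
    have h1 : (inferInstance : MeasurableSpace (EnvT M L)) =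
        MeasurableSpace.comap EnvT.code (inferInstance : MeasurableSpace (ℕ → ℝ)) := by
      have h2 : (inferInstance : MeasurableSpace (EnvT M L)) = borel (EnvT M L) := rfl
      rw [h2, isInducing_code.eq_induced, borel_comap, BorelSpace.measurable_eq (α := ℕ → ℝ)]
    have h3 : Measurable (fun ω => EnvT.code (f ω)) := measurable_pi_iff.2 fun n => h _
    intro s hs
    have h4 : MeasurableSet[MeasurableSpace.comap EnvT.code
        (inferInstance : MeasurableSpace (ℕ → ℝ))] s := h1 ▸ hs
    obtain ⟨t, ht, rfl⟩ := h4
    exact h3 ht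

/-! ### Uniform convergence on balls -/

/-- Convergence is locally uniform. -/
theorem tendsto_unif {M L : ℝ} {cn : ℕ → EnvT M L} {c : EnvT M L} (h : Tendsto cn atTop (𝓝 c))
    (R eps : ℝ) (he : 0 < eps) : ∀ᶠ n in atTop, ∀ x : V, ‖x‖ ≤ R → |(cn n).1 x - c.1 x| ≤ eps := by
  have hL : 0 < |L| + 1 := by positivity
  set d := eps / (3 * (|L| + 1)) with hd
  have hd0 : 0 < d := by positivity
  obtain ⟨t, -, ht⟩ := (isCompact_closedBall (0 : V) R).elim_nhds_subcover (fun x => ball x d)
    (fun x _ => ball_mem_nhds x hd0)
  have h1 : ∀ᶠ n in atTop, ∀ x ∈ t, |(cn n).1 x - c.1 x| ≤ eps / 3 := by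
    rw [Filter.eventually_all_finset]
    intro x _
    have h2 := (tendsto_iff.1 h) x
    have h3 := (Metric.tendsto_nhds.1 h2) (eps / 3) (by positivity)
    filter_upwards [h3] with n hn
    rw [Real.dist_eq] at hn
    exact hn.le
  filter_upwards [h1] with n hn x hx
  have h2 : x ∈ ⋃ y ∈ t, ball y d := ht (by simpa using hx)
  simp only [mem_iUnion, mem_ball, exists_prop] at h2
  obtain ⟨y, hy, hxy⟩ := h2
  rw [dist_eq_norm] at hxy
  have h3 : ∀ e : EnvT M L, |e.1 x - e.1 y| ≤ eps / 3 := by
    intro e
    refine (e.2.2 x y).trans ?_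
    have h4 : L * ‖x - y‖ ≤ (|L| + 1) * d := by
      have := le_abs_self L
      have h5 : L * ‖x - y‖ ≤ (|L| + 1) * ‖x - y‖ := by gcongr; linarith
      have h6 : (|L| + 1) * ‖x - y‖ ≤ (|L| + 1) * d := by gcongr
      exact h5.trans h6
    have h5 : (|L| + 1) * d = eps / 3 := by rw [hd]; field_simp
    linarith
  have e1 := h3 (cn n)
  have e2 := h3 c
  have e3 := hn y hy
  rw [abs_le] at e1 e2 e3 ⊢
  constructor <;> linarith

end Pool.Agent.FCF
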