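import Pool.Agent.FCF.ErgMax

/-!
# FCF / Erg: ergodic bound for centred rectangles and recurrence (section 4)
-/

set_option autoImplicit false

namespace Pool.Agent.FCF

open Pool.Agent.VSC (V J LowJet)
open Set Metric MeasureTheory Filter Topology EnvT

/-! ### Area of rectangles -/

theorem exists_onb {e : V} (he : ‖e‖ = 1) :
    ∃ b : OrthonormalBasis (Fin 2) ℝ V, b 0 = J e ∧ b 1 = e := by
  have hJ : ‖J e‖ = 1 := by rw [Pool.Agent.VSC.norm_J, he]
  have hinner : inner ℝ (J e) e = 0 := Pool.Agent.VSC.inner_J e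
  have hv : Orthonormal ℝ ![J e, e] := by
    rw [orthonormal_iff_ite]
    intro i j
    fin_cases i <;> fin_cases j
    · simp [hJ]
    · simpa using hinner
    · simpa [real_inner_comm] using hinner
    · simp [he]
  have hcard : Fintype.card (Fin 2) = Module.finrank ℝ V := by
    simp [V]
  refine ⟨(basisOfOrthonormalOfCardEqFinrank hv hcard).toOrthonormalBasis (by simpa using hv),
    ?_, ?_⟩
  · simp
  · simp

theorem volume_rect {e : V} (he : ‖e‖ = 1) {p q : ℝ} (hp : 0 ≤ p) (_hq : 0 ≤ q) :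
    volume {x : V | |inner ℝ x (J e)| ≤ p ∧ |inner ℝ x e| ≤ q} = ENNReal.ofReal (4 * (p * q)) := by
  obtain ⟨b, hb0, hb1⟩ := exists_onb he
  have h1 : {x : V | |inner ℝ x (J e)| ≤ p ∧ |inner ℝ x e| ≤ q} =
      b.repr ⁻¹' {y : EuclideanSpace ℝ (Fin 2) | |y 0| ≤ p ∧ |y 1| ≤ q} := by
    ext x
    simp only [mem_ofPred_eq, mem_preimage, OrthonormalBasis.repr_apply_apply, hb0, hb1,
      real_inner_comm]
  have hms : MeasurableSet {y : EuclideanSpace ℝ (Fin 2) | |y 0| ≤ p ∧ |y 1| ≤ q} := by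
    have c0 : Continuous (fun y : EuclideanSpace ℝ (Fin 2) => |y 0|) := by fun_prop
    have c1 : Continuous (fun y : EuclideanSpace ℝ (Fin 2) => |y 1|) := by fun_prop
    exact ((isClosed_le c0 continuous_const).inter (isClosed_le c1 continuous_const)).measurableSet
  rw [h1, b.measurePreserving_repr.measure_preimage hms.nullMeasurableSet]
  have h2 : {y : EuclideanSpace ℝ (Fin 2) | |y 0| ≤ p ∧ |y 1| ≤ q} =
      (MeasurableEquiv.toLp 2 (Fin 2 → ℝ)).symm ⁻¹' (Icc ![-p, -q] ![p, q]) := by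
    ext y
    simp only [mem_ofPred_eq, mem_preimage, mem_Icc, Pi.le_def, Fin.forall_fin_two, abs_le]
    simp only [Matrix.cons_val_zero, Matrix.cons_val_one, MeasurableEquiv.coe_toLp_symm]
    tauto
  rw [h2, (EuclideanSpace.volume_preserving_symm_measurableEquiv_toLp (Fin 2)).measure_preimage
    measurableSet_Icc.nullMeasurableSet, Real.volume_Icc_pi, Fin.prod_univ_two]
  simp only [Matrix.cons_val_zero, Matrix.cons_val_one]
  rw [← ENNReal.ofReal_mul (by linarith)]
  congr 1
  ring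

/-- The norm whose balls are rectangles. -/
theorem gauge_rect {e : V} (he : ‖e‖ = 1) {a b : ℝ} (ha : 0 < a) (hb : 0 < b) :
    Gauge (fun x => max (|inner ℝ x (J e)| / a) (|inner ℝ x e| / b)) (4 * (a * b)) where
  cont := by fun_prop
  neg v := by simp [inner_neg_left]
  add v w := by
    simp only [inner_add_left]
    refine max_le ?_ ?_
    · have h1 : |inner ℝ v (J e) + inner ℝ w (J e)| / a ≤
          |inner ℝ v (J e)| / a + |inner ℝ w (J e)| / a := by
        rw [← add_div]
        gcongr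
        exact abs_add_le _ _
      exact h1.trans (add_le_add (le_max_left _ _) (le_max_left _ _))
    · have h1 : |inner ℝ v e + inner ℝ w e| / b ≤
          |inner ℝ v e| / b + |inner ℝ w e| / b := by
        rw [← add_div]
        gcongr
        exact abs_add_le _ _
      exact h1.trans (add_le_add (le_max_right _ _) (le_max_right _ _))
  zero := by simp
  pos := by positivity
  vol R hR := by
    have h1 : {v : V | max (|inner ℝ v (J e)| / a) (|inner ℝ v e| / b) ≤ R} =
        {x : V | |inner ℝ x (J e)| ≤ a * R ∧ |inner ℝ x e| ≤ b * R} := by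
      ext x
      simp only [mem_ofPred_eq, max_le_iff, div_le_iff₀ ha, div_le_iff₀ hb, mul_comm R]
    rw [h1, volume_rect he (by positivity) (by positivity)]
    congr 1
    ring

/-- Ergodic upper bound for centred rectangles, with a constant independent of the rectangle. -/
theorem erg_rect : ∃ C0 : ℝ, 0 < C0 ∧ ∀ (M L : ℝ) (μ : Measure (EnvT M L)), Erg μ →
    ∀ B : Set (EnvT M L), MeasurableSet B → ∀ (e : V) (a b : ℝ), ‖e‖ = 1 → 0 < a → 0 < b →
    ∀ᵐ c ∂μ, ∀ del : ℝ, 0 < del → ∃ R0 : ℝ, ∀ R : ℝ, R0 ≤ R →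
      volume {x : V | |inner ℝ x (J e)| ≤ a * R ∧ |inner ℝ x e| ≤ b * R ∧ shift x c ∈ B}
        ≤ ENNReal.ofReal ((C0 * (μ B).toReal + del) * (a * R) * (b * R)) := by
  refine ⟨72, by norm_num, fun M L μ hμ B hB e a b he ha hb => ?_⟩
  filter_upwards [(gauge_rect he ha hb).ae_density_real hμ hB] with c hc del hdel
  obtain ⟨R0, hR0⟩ := hc (del / 4) (by positivity)
  refine ⟨R0, fun R hR => ?_⟩
  have h1 := hR0 R hR
  have h2 : {x : V | |inner ℝ x (J e)| ≤ a * R ∧ |inner ℝ x e| ≤ b * R ∧ shift x c ∈ B} =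
      {x : V | max (|inner ℝ x (J e)| / a) (|inner ℝ x e| / b) ≤ R ∧ shift x c ∈ B} := by
    ext x
    simp only [mem_ofPred_eq, max_le_iff, div_le_iff₀ ha, div_le_iff₀ hb, mul_comm R, and_assoc]
  rw [h2]
  refine h1.trans (le_of_eq ?_)
  congr 1
  ring

/-- The environments which have a shift in a given closed set: a measurable set. -/
theorem measurableSet_exists_shift {M L : ℝ} {B : Set (EnvT M L)} (hB : IsClosed B) :
    MeasurableSet {c : EnvT M L | ∃ y : V, shift y c ∈ B} := by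
  have h1 : {c : EnvT M L | ∃ y : V, shift y c ∈ B} =
      ⋃ n : ℕ, {c : EnvT M L | ∃ y : V, ‖y‖ ≤ n ∧ shift y c ∈ B} := by
    ext c
    simp only [mem_ofPred_eq, mem_iUnion]
    constructor
    · rintro ⟨y, hy⟩
      obtain ⟨n, hn⟩ := exists_nat_ge ‖y‖
      exact ⟨n, y, hn, hy⟩
    · rintro ⟨n, y, _, hy⟩
      exact ⟨y, hy⟩
  rw [h1]
  refine MeasurableSet.iUnion fun n => ?_
  have hK : IsCompact ((closedBall (0 : V) n) ×ˢ (univ : Set (EnvT M L)) ∩
      {q : V × EnvT M L | shift q.1 q.2 ∈ B}) :=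
    ((isCompact_closedBall _ _).prod isCompact_univ).inter_right (hB.preimage continuous_shift)
  have h2 : {c : EnvT M L | ∃ y : V, ‖y‖ ≤ n ∧ shift y c ∈ B} =
      Prod.snd '' ((closedBall (0 : V) n) ×ˢ (univ : Set (EnvT M L)) ∩
      {q : V × EnvT M L | shift q.1 q.2 ∈ B}) := by
    ext c
    simp only [mem_ofPred_eq, mem_image, mem_inter_iff, mem_prod, mem_closedBall, dist_zero_right,
      mem_univ, and_true, Prod.exists]
    constructor
    · rintro ⟨y, hy1, hy2⟩
      exact ⟨y, c, ⟨hy1, hy2⟩, rfl⟩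
    · rintro ⟨y, c', ⟨hy1, hy2⟩, rfl⟩
      exact ⟨y, hy1, hy2⟩
  rw [h2]
  exact (hK.image continuous_snd).isClosed.measurableSet

/-- Recurrence for closed events. -/
theorem recurrence {M L : ℝ} {μ : Measure (EnvT M L)} (hμ : Erg μ) {B : Set (EnvT M L)}
    (hB : IsClosed B) : (∀ᵐ c ∂μ, ∃ y : V, shift y c ∈ B) ∨ (∀ᵐ c ∂μ, ∀ y : V, shift y c ∉ B) := by
  have := hμ.prob
  have hm := measurableSet_exists_shift hB
  have hinv : ∀ y : V, shift y ⁻¹' {c : EnvT M L | ∃ y : V, shift y c ∈ B} =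
      {c : EnvT M L | ∃ y : V, shift y c ∈ B} := by
    intro y
    ext c
    simp only [mem_preimage, mem_ofPred_eq]
    constructor
    · rintro ⟨z, hz⟩
      rw [shift_add] at hz
      exact ⟨_, hz⟩
    · rintro ⟨z, hz⟩
      refine ⟨z - y, ?_⟩
      rw [shift_add, add_sub_cancel]
      exact hz
  rcases hμ.erg _ hm hinv with h | h
  · right
    have h2 := measure_eq_zero_iff_ae_notMem.1 h
    filter_upwards [h2] with c hc y hy
    exact hc ⟨y, hy⟩
  · left
    rw [← mem_ae_iff_prob_eq_one hm] at h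
    exact h

end Pool.Agent.FCF
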