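import Pool.Agent.FCF.EnvTop

/-!
# FCF / ErgMax: the maximal inequality for centred rectangles
-/

set_option autoImplicit false

namespace Pool.Agent.FCF

open Pool.Agent.VSC (V J LowJet)
open Set Metric MeasureTheory Filter Topology EnvT

/-- A norm on the plane whose balls of radius `R` have the area `k R ^ 2`. -/
structure Gauge (N : V → ℝ) (k : ℝ) : Prop where
  cont : Continuous N
  neg : ∀ v, N (-v) = N v
  add : ∀ v w, N (v + w) ≤ N v + N w
  zero : N 0 = 0
  pos : 0 < k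
  vol : ∀ R : ℝ, 0 ≤ R → volume {v | N v ≤ R} = ENNReal.ofReal (k * R ^ 2)

theorem vol_sub (z : V) (A : Set V) : volume ((fun v => v - z) ⁻¹' A) = volume A := by
  have h := measure_preimage_add_right (volume : Measure V) (-z) A
  simpa only [sub_eq_add_neg] using h

namespace Gauge

variable {N : V → ℝ} {k : ℝ}

theorem measurableSet_ball (hN : Gauge N k) (z : V) (R : ℝ) :
    MeasurableSet {v | N (v - z) ≤ R} :=
  (isClosed_le (hN.cont.comp (continuous_id.sub continuous_const)) continuous_const).measurableSet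

theorem vol_at (hN : Gauge N k) (z : V) (R : ℝ) (hR : 0 ≤ R) :
    volume {v | N (v - z) ≤ R} = ENNReal.ofReal (k * R ^ 2) := by
  have h := vol_sub z {v | N v ≤ R}
  rw [hN.vol R hR] at h
  exact h

/-- Maximal inequality (Vitali covering). -/
theorem vitali (hN : Gauge N k) {S A : Set V} (hS : MeasurableSet S) {r : V → ℝ} {K l : ℝ}
    (hl : 0 ≤ l) (h1 : ∀ z ∈ A, 1 ≤ r z) (hK : ∀ z ∈ A, r z ≤ K)
    (h2 : ∀ z ∈ A, ENNReal.ofReal (l * (k * r z ^ 2)) ≤ volume (S ∩ {v | N (v - z) ≤ r z}))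
    {S' : Set V} (hS' : ∀ z ∈ A, S ∩ {v | N (v - z) ≤ r z} ⊆ S') :
    ENNReal.ofReal l * volume A ≤ 9 * volume S' := by
  classical
  obtain ⟨u, huA, hud, hu⟩ := Vitali.exists_disjoint_subfamily_covering_enlargement
    (fun z : V => {v | N (v - z) ≤ r z}) A r 2 (by norm_num)
    (fun z hz => by linarith [h1 z hz]) K hK
    (fun z hz => ⟨z, by simp only [mem_ofPred_eq, sub_self, hN.zero]; linarith [h1 z hz]⟩)
  have hmeas : ∀ z R, MeasurableSet {v | N (v - z) ≤ R} := hN.measurableSet_ball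
  have hcount : u.Countable := by
    refine hud.countable_of_nonempty_interior fun z hz => ⟨z, ?_⟩
    rw [mem_interior]
    refine ⟨{v | N (v - z) < r z}, fun v hv => le_of_lt (show N (v - z) < r z from hv),
      isOpen_lt (hN.cont.comp (continuous_id.sub continuous_const)) continuous_const, ?_⟩
    simp only [mem_ofPred_eq, sub_self, hN.zero]
    linarith [h1 z (huA hz)]
  have hcov : A ⊆ ⋃ z ∈ u, {v | N (v - z) ≤ 3 * r z} := by
    intro a ha
    obtain ⟨b, hb, ⟨y, hya, hyb⟩, hab⟩ := hu a ha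
    refine mem_iUnion₂.2 ⟨b, hb, ?_⟩
    simp only [mem_ofPred_eq] at hya hyb ⊢
    have e1 : a - b = -(y - a) + (y - b) := by abel
    have e2 : N (a - b) ≤ N (-(y - a)) + N (y - b) := by rw [e1]; exact hN.add _ _
    rw [hN.neg] at e2
    linarith
  have hsum : volume A ≤ ∑' z : u, ENNReal.ofReal (9 * (k * r z ^ 2)) := by
    have := hcount.to_subtype
    calc volume A ≤ volume (⋃ z ∈ u, {v | N (v - z) ≤ 3 * r z}) := measure_mono hcov
      _ = volume (⋃ z : u, {v | N (v - z) ≤ 3 * r z}) := by rw [biUnion_eq_iUnion]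
      _ ≤ ∑' z : u, volume {v | N (v - z) ≤ 3 * r z} := measure_iUnion_le _
      _ = ∑' z : u, ENNReal.ofReal (9 * (k * r z ^ 2)) := by
          refine tsum_congr fun z => ?_
          rw [hN.vol_at z _ (by linarith [h1 z (huA z.2)])]
          congr 1
          ring
  have hdis : ∑' z : u, volume (S ∩ {v | N (v - z) ≤ r z}) ≤ volume S' := by
    have := hcount.to_subtype
    rw [← measure_iUnion]
    · exact measure_mono (iUnion_subset fun z => hS' z (huA z.2))
    · intro z w hzw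
      have hzw' : (z : V) ≠ w := fun h => hzw (Subtype.ext h)
      exact (hud z.2 w.2 hzw').mono inter_subset_right inter_subset_right
    · intro z
      exact hS.inter (hmeas _ _)
  calc ENNReal.ofReal l * volume A
      ≤ ENNReal.ofReal l * ∑' z : u, ENNReal.ofReal (9 * (k * r z ^ 2)) := by gcongr
    _ = ∑' z : u, 9 * ENNReal.ofReal (l * (k * r z ^ 2)) := by
        rw [← ENNReal.tsum_mul_left]
        refine tsum_congr fun z => ?_
        rw [← ENNReal.ofReal_mul hl, show (9 : ENNReal) = ENNReal.ofReal 9 by norm_num,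
          ← ENNReal.ofReal_mul (by norm_num)]
        congr 1
        ring
    _ ≤ ∑' z : u, 9 * volume (S ∩ {v | N (v - z) ≤ r z}) := by
        refine ENNReal.tsum_le_tsum fun z => ?_
        gcongr
        exact h2 z (huA z.2)
    _ = 9 * ∑' z : u, volume (S ∩ {v | N (v - z) ≤ r z}) := ENNReal.tsum_mul_left
    _ ≤ 9 * volume S' := by gcongr

/-- Number of visits in the ball of radius `R`. -/
noncomputable def vis {M L : ℝ} (N : V → ℝ) (B : Set (EnvT M L)) (R : ℝ) (c : EnvT M L) : ENNReal :=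
  volume {x : V | N x ≤ R ∧ shift x c ∈ B}

variable {M L : ℝ}

theorem measurableSet_vis (hN : Gauge N k) {B : Set (EnvT M L)} (hB : MeasurableSet B) (R : ℝ) :
    MeasurableSet {q : EnvT M L × V | N q.2 ≤ R ∧ shift q.2 q.1 ∈ B} := by
  have h1 : Measurable (fun q : EnvT M L × V => shift q.2 q.1) :=
    (continuous_shift.comp (continuous_snd.prodMk continuous_fst)).measurable
  have h2 : Measurable (fun q : EnvT M L × V => N q.2) :=
    (hN.cont.comp continuous_snd).measurable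
  exact (measurableSet_le h2 measurable_const).inter (h1 hB)

theorem measurable_vis (hN : Gauge N k) {B : Set (EnvT M L)} (hB : MeasurableSet B) (R : ℝ) :
    Measurable (vis N B R) :=
  measurable_measure_prodMk_left (hN.measurableSet_vis hB R)

/-- The mean number of visits. -/
theorem lintegral_vis (hN : Gauge N k) {μ : Measure (EnvT M L)} (hμ : Erg μ)
    {B : Set (EnvT M L)} (hB : MeasurableSet B) {R : ℝ} (hR : 0 ≤ R) :
    ∫⁻ c, vis N B R c ∂μ = ENNReal.ofReal (k * R ^ 2) * μ B := by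
  have := hμ.prob
  have h1 := Measure.prod_apply (μ := μ) (ν := (volume : Measure V)) (hN.measurableSet_vis hB R)
  have h2 := Measure.prod_apply_symm (μ := μ) (ν := (volume : Measure V))
    (hN.measurableSet_vis hB R)
  have h3 : ∫⁻ c, vis N B R c ∂μ =
      ∫⁻ x : V, μ ((fun c => (c, x)) ⁻¹' {q : EnvT M L × V | N q.2 ≤ R ∧ shift q.2 q.1 ∈ B}) := by
    rw [← h2, h1]
    rfl
  rw [h3]
  have h4 : ∀ x : V, μ ((fun c => (c, x)) ⁻¹' {q : EnvT M L × V | N q.2 ≤ R ∧ shift q.2 q.1 ∈ B})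
      = {x : V | N x ≤ R}.indicator (fun _ => μ B) x := by
    intro x
    by_cases hx : N x ≤ R
    · rw [indicator_of_mem (by exact hx)]
      have h5 : (fun c => (c, x)) ⁻¹' {q : EnvT M L × V | N q.2 ≤ R ∧ shift q.2 q.1 ∈ B}
          = shift x ⁻¹' B := by
        ext c
        simp [hx]
      rw [h5]
      exact (hμ.inv x).measure_preimage hB.nullMeasurableSet
    · rw [indicator_of_notMem (by exact hx)]
      have h5 : (fun c => (c, x)) ⁻¹' {q : EnvT M L × V | N q.2 ≤ R ∧ shift q.2 q.1 ∈ B}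
          = ∅ := by
        ext c
        simp [hx]
      rw [h5, measure_empty]
  simp_rw [h4]
  rw [lintegral_indicator]
  · rw [lintegral_const, Measure.restrict_apply_univ, hN.vol R hR, mul_comm]
  · have := hN.measurableSet_ball 0 R
    simpa using this

/-- Points which see too many visits at some scale `1 ≤ n ≤ K`. -/
def hi (N : V → ℝ) (k : ℝ) (B : Set (EnvT M L)) (l : ℝ) (K : ℕ) : Set (EnvT M L) :=
  {c | ∃ n : ℕ, 1 ≤ n ∧ n ≤ K ∧ ENNReal.ofReal (l * (k * (n : ℝ) ^ 2)) < vis N B n c}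

theorem measurableSet_hi (hN : Gauge N k) {B : Set (EnvT M L)} (hB : MeasurableSet B) (l : ℝ)
    (K : ℕ) : MeasurableSet (hi N k B l K) := by
  have h : hi N k B l K = ⋃ n : ℕ, {c | 1 ≤ n ∧ n ≤ K ∧
      ENNReal.ofReal (l * (k * (n : ℝ) ^ 2)) < vis N B n c} := by
    ext c
    simp [hi]
  rw [h]
  refine MeasurableSet.iUnion fun n => ?_
  by_cases hn : 1 ≤ n ∧ n ≤ K
  · have h2 : {c : EnvT M L | 1 ≤ n ∧ n ≤ K ∧
      ENNReal.ofReal (l * (k * (n : ℝ) ^ 2)) < vis N B n c} =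
        {c | ENNReal.ofReal (l * (k * (n : ℝ) ^ 2)) < vis N B n c} := by
      ext c
      simp [hn.1, hn.2]
    rw [h2]
    exact measurableSet_lt measurable_const (hN.measurable_vis hB n)
  · have h2 : {c : EnvT M L | 1 ≤ n ∧ n ≤ K ∧
      ENNReal.ofReal (l * (k * (n : ℝ) ^ 2)) < vis N B n c} = ∅ := by
      ext c
      simp only [mem_ofPred_eq, mem_empty_iff_false, iff_false]
      intro h3
      exact hn ⟨h3.1, h3.2.1⟩
    rw [h2]
    exact MeasurableSet.empty

theorem hi_pointwise (hN : Gauge N k) {B : Set (EnvT M L)} (hB : MeasurableSet B) {l : ℝ}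
    (hl : 0 ≤ l) (K : ℕ) (m : ℝ) (c : EnvT M L) :
    ENNReal.ofReal l * vis N (hi N k B l K) m c ≤ 9 * vis N B (m + K) c := by
  classical
  have hch : ∀ z : V, ∃ n : ℕ, shift z c ∈ hi N k B l K → (1 ≤ n ∧ n ≤ K ∧
      ENNReal.ofReal (l * (k * (n : ℝ) ^ 2)) < vis N B n (shift z c)) := by
    intro z
    by_cases hz : shift z c ∈ hi N k B l K
    · obtain ⟨n, hn⟩ := hz
      exact ⟨n, fun _ => hn⟩
    · exact ⟨0, fun h => absurd h hz⟩
  choose n hn using hch
  have hS : MeasurableSet {y : V | shift y c ∈ B} := (continuous_shift_left c).measurable hB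
  refine hN.vitali (S := {y : V | shift y c ∈ B}) (r := fun z => (n z : ℝ)) (K := K) hS hl
    (A := {x : V | N x ≤ m ∧ shift x c ∈ hi N k B l K}) ?_ ?_ ?_ ?_
  · rintro z ⟨_, hz⟩
    exact_mod_cast (hn z hz).1
  · rintro z ⟨_, hz⟩
    exact_mod_cast (hn z hz).2.1
  · rintro z ⟨_, hz⟩
    refine (hn z hz).2.2.le.trans (le_of_eq ?_)
    have h := vol_sub z
      {x : V | N x ≤ n z ∧ shift x (shift z c) ∈ B}
    rw [vis, ← h]
    congr 1
    ext y
    simp only [mem_preimage, mem_ofPred_eq, mem_inter_iff, shift_add, add_sub_cancel]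
    tauto
  · rintro z ⟨hz1, hz⟩ y ⟨hy1, hy2⟩
    refine ⟨?_, hy1⟩
    simp only [mem_ofPred_eq] at hy2
    have h1 : N y ≤ N (y - z) + N z := by
      have := hN.add (y - z) z
      rwa [sub_add_cancel] at this
    have h2 : (n z : ℝ) ≤ K := by exact_mod_cast (hn z hz).2.1
    linarith

theorem hi_measure (hN : Gauge N k) {μ : Measure (EnvT M L)} (hμ : Erg μ) {B : Set (EnvT M L)}
    (hB : MeasurableSet B) {l : ℝ} (hl : 0 ≤ l) (K : ℕ) :
    l * (μ (hi N k B l K)).toReal ≤ 9 * (μ B).toReal := by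
  have := hμ.prob
  have hstep : ∀ m : ℕ, l * ((m : ℝ) ^ 2 * (μ (hi N k B l K)).toReal) ≤
      9 * (((m : ℝ) + K) ^ 2 * (μ B).toReal) := by
    intro m
    have h1 : ∫⁻ c, ENNReal.ofReal l * vis N (hi N k B l K) m c ∂μ ≤
        ∫⁻ c, 9 * vis N B (m + K) c ∂μ := lintegral_mono fun c => hN.hi_pointwise hB hl K m c
    rw [lintegral_const_mul _ (hN.measurable_vis (hN.measurableSet_hi hB l K) _),
      lintegral_const_mul _ (hN.measurable_vis hB _),
      hN.lintegral_vis hμ (hN.measurableSet_hi hB l K) (by positivity),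
      hN.lintegral_vis hμ hB (by positivity)] at h1
    have h2 := ENNReal.toReal_mono (by
      refine ENNReal.mul_ne_top (by norm_num) (ENNReal.mul_ne_top ENNReal.ofReal_ne_top
        (measure_ne_top _ _))) h1
    have hk := hN.pos
    simp only [ENNReal.toReal_mul] at h2
    rw [ENNReal.toReal_ofReal hl, ENNReal.toReal_ofReal (by positivity),
      ENNReal.toReal_ofReal (by positivity)] at h2
    norm_num at h2
    have h3 : k * (l * ((m : ℝ) ^ 2 * (μ (hi N k B l K)).toReal)) ≤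
        k * (9 * (((m : ℝ) + K) ^ 2 * (μ B).toReal)) := by nlinarith [h2]
    exact le_of_mul_le_mul_left h3 hk
  -- let `m` tend to infinity
  by_contra hcon
  push Not at hcon
  set x := (μ (hi N k B l K)).toReal
  set y := (μ B).toReal
  have hy : 0 ≤ y := ENNReal.toReal_nonneg
  have hlim : Tendsto (fun m : ℕ => 9 * ((1 + (K : ℝ) * ((m : ℝ))⁻¹) ^ 2 * y)) atTop
      (𝓝 (9 * ((1 + (K : ℝ) * 0) ^ 2 * y))) := by
    refine Tendsto.const_mul _ (Tendsto.mul_const _ (Tendsto.pow (Tendsto.const_add _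
      (Tendsto.const_mul _ ?_)) _))
    exact tendsto_inv_atTop_nhds_zero_nat
  have hle : l * x ≤ 9 * ((1 + (K : ℝ) * 0) ^ 2 * y) := by
    refine ge_of_tendsto hlim ?_
    filter_upwards [eventually_ge_atTop 1] with m hm
    have hm0 : (0 : ℝ) < m := by exact_mod_cast hm
    have h1 := hstep m
    have h2 : (m : ℝ) ^ 2 * (l * x) ≤ (m : ℝ) ^ 2 * (9 * ((1 + (K : ℝ) * ((m : ℝ))⁻¹) ^ 2 * y)) := by
      have e1 : (m : ℝ) ^ 2 * (9 * ((1 + (K : ℝ) * ((m : ℝ))⁻¹) ^ 2 * y)) =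
          9 * (((m : ℝ) + K) ^ 2 * y) := by
        field_simp
      rw [e1]
      linarith
    exact le_of_mul_le_mul_left h2 (by positivity)
  simp only [mul_zero, add_zero, one_pow, one_mul] at hle
  linarith

/-- Points which see too many visits at some scale. -/
def hiA (N : V → ℝ) (k : ℝ) (B : Set (EnvT M L)) (l : ℝ) : Set (EnvT M L) :=
  ⋃ K : ℕ, hi N k B l K

theorem hiA_measure (hN : Gauge N k) {μ : Measure (EnvT M L)} (hμ : Erg μ) {B : Set (EnvT M L)}
    (hB : MeasurableSet B) {l : ℝ} (hl : 0 < l) :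
    μ (hiA N k B l) ≤ ENNReal.ofReal (9 * (μ B).toReal / l) := by
  have := hμ.prob
  have hmono : Monotone (fun K : ℕ => hi N k B l K) := by
    intro K K' hKK c hc
    obtain ⟨n, h1, h2, h3⟩ := hc
    exact ⟨n, h1, h2.trans hKK, h3⟩
  rw [hiA, hmono.measure_iUnion]
  refine iSup_le fun K => ?_
  rw [← ENNReal.ofReal_toReal (measure_ne_top μ (hi N k B l K))]
  refine ENNReal.ofReal_le_ofReal ?_
  rw [le_div_iff₀ hl]
  have := hN.hi_measure hμ hB hl.le K
  linarith

/-- Points for which the upper density of the visits is larger than `l`. -/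
def lim (N : V → ℝ) (k : ℝ) (B : Set (EnvT M L)) (l : ℝ) : Set (EnvT M L) :=
  ⋃ q : {q : ℚ // l < q}, ⋂ n0 : ℕ, ⋃ n : {n : ℕ // n0 ≤ n},
    {c | ENNReal.ofReal ((q : ℚ) * (k * ((n : ℕ) : ℝ) ^ 2)) < vis N B (n : ℕ) c}

theorem mem_lim {B : Set (EnvT M L)} {l : ℝ} {c : EnvT M L} :
    c ∈ lim N k B l ↔ ∃ q : ℚ, l < q ∧ ∀ n0 : ℕ, ∃ n : ℕ, n0 ≤ n ∧
      ENNReal.ofReal (q * (k * (n : ℝ) ^ 2)) < vis N B n c := by
  simp only [lim, mem_iUnion, mem_iInter, mem_ofPred_eq, Subtype.exists, exists_prop]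

theorem measurableSet_lim (hN : Gauge N k) {B : Set (EnvT M L)} (hB : MeasurableSet B) (l : ℝ) :
    MeasurableSet (lim N k B l) := by
  refine MeasurableSet.iUnion fun q => MeasurableSet.iInter fun n0 => MeasurableSet.iUnion
    fun n => measurableSet_lt measurable_const (hN.measurable_vis hB _)

theorem lim_subset (hN : Gauge N k) {B : Set (EnvT M L)} {l : ℝ} :
    lim N k B l ⊆ hiA N k B l := by
  intro c hc
  obtain ⟨q, hq, h⟩ := mem_lim.1 hc
  obtain ⟨n, hn1, hn⟩ := h 1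
  refine mem_iUnion.2 ⟨n, n, hn1, le_rfl, lt_of_le_of_lt ?_ hn⟩
  refine ENNReal.ofReal_le_ofReal ?_
  have hk := hN.pos
  gcongr

theorem lim_shift (hN : Gauge N k) {B : Set (EnvT M L)} {l : ℝ} (hl : 0 ≤ l) (y : V)
    {c : EnvT M L} (hc : shift y c ∈ lim N k B l) : c ∈ lim N k B l := by
  obtain ⟨q, hq, h⟩ := mem_lim.1 hc
  obtain ⟨q', hq1, hq2⟩ := exists_rat_btwn hq
  have hk := hN.pos
  obtain ⟨m, hm⟩ := exists_nat_ge (N y)
  rw [mem_lim]
  refine ⟨q', hq1, fun n0 => ?_⟩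
  -- for large `n`, `q' (n+m)^2 ≤ q n^2`
  have hq'0 : (0 : ℝ) ≤ q' := hl.trans hq1.le
  have hlim : Tendsto (fun n : ℕ => (q' : ℝ) * (1 + (m : ℝ) * ((n : ℝ))⁻¹) ^ 2) atTop
      (𝓝 ((q' : ℝ) * (1 + (m : ℝ) * 0) ^ 2)) := by
    refine Tendsto.const_mul _ (Tendsto.pow (Tendsto.const_add _ (Tendsto.const_mul _ ?_)) _)
    exact tendsto_inv_atTop_nhds_zero_nat
  have hev : ∀ᶠ n : ℕ in atTop, (q' : ℝ) * (1 + (m : ℝ) * ((n : ℝ))⁻¹) ^ 2 < q := by
    refine hlim.eventually_lt_const ?_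
    simpa using hq2
  obtain ⟨n1, hn1⟩ := eventually_atTop.1 hev
  obtain ⟨n, hn, hv⟩ := h (max n0 (max n1 1))
  have hn0 : n0 ≤ n := (le_max_left _ _).trans hn
  have hn1' : n1 ≤ n := ((le_max_left _ _).trans (le_max_right _ _)).trans hn
  have hn2 : 1 ≤ n := ((le_max_right _ _).trans (le_max_right _ _)).trans hn
  have hnpos : (0 : ℝ) < n := by exact_mod_cast hn2
  refine ⟨n + m, hn0.trans (Nat.le_add_right _ _), ?_⟩
  refine lt_of_le_of_lt ?_ (lt_of_lt_of_le hv ?_)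
  · refine ENNReal.ofReal_le_ofReal ?_
    have h1 := hn1 n hn1'
    have h2 : (q' : ℝ) * ((n : ℝ) + m) ^ 2 ≤ q * (n : ℝ) ^ 2 := by
      have e1 : (q' : ℝ) * ((n : ℝ) + m) ^ 2 =
          ((q' : ℝ) * (1 + (m : ℝ) * ((n : ℝ))⁻¹) ^ 2) * (n : ℝ) ^ 2 := by
        field_simp
      rw [e1]
      gcongr
    push_cast
    nlinarith [h2, hk]
  · have h3 := vol_sub y
      {x : V | N x ≤ n ∧ shift x (shift y c) ∈ B}
    rw [vis, ← h3]
    refine measure_mono fun x hx => ?_
    simp only [mem_preimage, mem_ofPred_eq, shift_add, add_sub_cancel] at hx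
    refine ⟨?_, hx.2⟩
    have h4 := hN.add (x - y) y
    rw [sub_add_cancel] at h4
    push_cast
    linarith [hx.1]

theorem lim_inv (hN : Gauge N k) {B : Set (EnvT M L)} {l : ℝ} (hl : 0 ≤ l) (y : V) :
    shift y ⁻¹' (lim N k B l) = lim N k B l := by
  ext c
  constructor
  · intro h
    exact hN.lim_shift hl y h
  · intro h
    refine hN.lim_shift hl (-y) ?_
    rw [shift_add, add_neg_cancel, shift_zero]
    exact h

/-- The upper density of the visits is at most `9 μ B`. -/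
theorem ae_density (hN : Gauge N k) {μ : Measure (EnvT M L)} (hμ : Erg μ) {B : Set (EnvT M L)}
    (hB : MeasurableSet B) : ∀ᵐ c ∂μ, ∀ del : ℝ, 0 < del → ∃ n0 : ℕ, ∀ n : ℕ, n0 ≤ n →
      vis N B n c ≤ ENNReal.ofReal ((9 * (μ B).toReal + del) * (k * (n : ℝ) ^ 2)) := by
  have := hμ.prob
  have hy : 0 ≤ (μ B).toReal := ENNReal.toReal_nonneg
  have h0 : ∀ q : {q : ℚ // 9 * (μ B).toReal < q}, ∀ᵐ c ∂μ, c ∉ lim N k B (q : ℚ) := by
    intro q
    have hq := q.2
    have hq0 : (0 : ℝ) < (q : ℚ) := by linarith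
    have h1 : μ (lim N k B (q : ℚ)) ≤ ENNReal.ofReal (9 * (μ B).toReal / (q : ℚ)) :=
      (measure_mono hN.lim_subset).trans (hN.hiA_measure hμ hB hq0)
    have h2 : ENNReal.ofReal (9 * (μ B).toReal / (q : ℚ)) < 1 := by
      rw [ENNReal.ofReal_lt_one, div_lt_one hq0]
      exact hq
    rcases hμ.erg _ (hN.measurableSet_lim hB _) (fun y => hN.lim_inv hq0.le y) with h3 | h3
    · exact measure_eq_zero_iff_ae_notMem.1 h3
    · rw [h3] at h1
      exact absurd (h1.trans_lt h2) (lt_irrefl _)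
  rw [← ae_all_iff] at h0
  filter_upwards [h0] with c hc del hdel
  obtain ⟨q, hq1, hq2⟩ := exists_rat_btwn (show 9 * (μ B).toReal < 9 * (μ B).toReal + del by linarith)
  have h1 := hc ⟨q, hq1⟩
  obtain ⟨q', hq3, hq4⟩ := exists_rat_btwn hq2
  rw [mem_lim] at h1
  push Not at h1
  obtain ⟨n0, hn0⟩ := h1 q' hq3
  refine ⟨n0, fun n hn => (hn0 n hn).trans (ENNReal.ofReal_le_ofReal ?_)⟩
  have hk := hN.pos
  gcongr

/-- The same for real radii. -/
theorem ae_density_real (hN : Gauge N k) {μ : Measure (EnvT M L)} (hμ : Erg μ)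
    {B : Set (EnvT M L)} (hB : MeasurableSet B) :
    ∀ᵐ c ∂μ, ∀ del : ℝ, 0 < del → ∃ R0 : ℝ, ∀ R : ℝ, R0 ≤ R →
      vis N B R c ≤ ENNReal.ofReal ((18 * (μ B).toReal + del) * (k * R ^ 2)) := by
  have hy : 0 ≤ (μ B).toReal := ENNReal.toReal_nonneg
  filter_upwards [hN.ae_density hμ hB] with c hc del hdel
  obtain ⟨n0, hn0⟩ := hc (del / 2) (by positivity)
  refine ⟨max n0 3, fun R hR => ?_⟩
  have hR3 : (3 : ℝ) ≤ R := (le_max_right _ _).trans hR
  have hRn : (n0 : ℝ) ≤ R := (le_max_left _ _).trans hR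
  have h1 : R ≤ (⌈R⌉₊ : ℝ) := Nat.le_ceil R
  have h2 : (⌈R⌉₊ : ℝ) < R + 1 := Nat.ceil_lt_add_one (by linarith)
  have h3 : n0 ≤ ⌈R⌉₊ := by
    have : (n0 : ℝ) ≤ (⌈R⌉₊ : ℝ) := hRn.trans h1
    exact_mod_cast this
  calc vis N B R c ≤ vis N B (⌈R⌉₊ : ℕ) c := measure_mono fun x hx => ⟨hx.1.trans h1, hx.2⟩
    _ ≤ ENNReal.ofReal ((9 * (μ B).toReal + del / 2) * (k * ((⌈R⌉₊ : ℕ) : ℝ) ^ 2)) := hn0 _ h3
    _ ≤ ENNReal.ofReal ((18 * (μ B).toReal + del) * (k * R ^ 2)) := by
        refine ENNReal.ofReal_le_ofReal ?_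
        have hk := hN.pos
        have h4 : ((⌈R⌉₊ : ℕ) : ℝ) ^ 2 ≤ 2 * R ^ 2 := by nlinarith
        have h5 : k * ((⌈R⌉₊ : ℕ) : ℝ) ^ 2 ≤ k * (2 * R ^ 2) := by gcongr
        calc (9 * (μ B).toReal + del / 2) * (k * ((⌈R⌉₊ : ℕ) : ℝ) ^ 2)
            ≤ (9 * (μ B).toReal + del / 2) * (k * (2 * R ^ 2)) := by gcongr
          _ = (18 * (μ B).toReal + del) * (k * R ^ 2) := by ring

end Gauge

end Pool.Agent.FCF
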