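import Pool.Agent.FCF.ExpF1
import Pool.Agent.FCF.EnvEvent
import Pool.Agent.FCF.Erg

/-!
# FCF / ExpBad: density of the bad event in rectangles (FCF_PROOF.md, 2.4, 7.3)

`BadEv p eta n = {c | ∃ rho ≥ n, Bad p c rho (eta rho) 0}`.
* `not_badEv_of_fineLarge`: apply `FineLarge` with `eta' = min (eta/3) 1`: `R0`; let `n ≥ R0`, `n ≥ 1`. For `rho ≥ n`, `‖y‖ ≤ 3 rho`, `r' ≥ eta rho` put `R = max (3 rho) r'`: `‖y‖ ≤ R`, `eta' R ≤ r' ≤ R`.
* `badEv_small`: the sets `BadEv n` decrease in `n`, their intersection is null. (`tendsto_measure_iInter_atTop`, measurable since open.)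
* `badRect_ae`: countable family: `eta = 1/(k+1)`, `n : ℕ`, `a b : ℕ` positive, `e'` in a countable dense subset of the unit sphere (e.g. `TopologicalSpace.exists_countable_dense` of the subtype `sphere (0:V) 1`).
  A.s. the conclusion of `erg_rect` holds for all of them, `B = BadEv p eta n`. Given `del, eta` choose `k` with `1/(k+1) ≤ eta` and `n` with `C0 μ(BadEv n) ≤ del/18`; `rho0 = n`. Given `rho ≥ n`, `e`, `K, C ≥ 1`: choose `e'` with
  `(K + C) ‖e - e'‖ ≤ min K C`, `a = ⌈2K⌉ ≤ 3K`, `b = ⌈2C⌉ ≤ 3C`. `|x.Je'| ≤ |x.Je| + ‖x‖‖e-e'‖ ≤ 2 K R`, `‖x‖ ≤ (K + C) R`. `Bad p c rho (eta rho) x` implies `Bad p c rho (rho/(k+1)) x`, i.e. `shift x c ∈ BadEv n`.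
  Volume `≤ (del/18 + del/18) (3 K R)(3 C R)`.
-/

set_option autoImplicit false

namespace Pool.Agent.FCF

open Pool.Agent.VSC (V J LowJet)
open Set Metric MeasureTheory Filter Topology EnvT

/-- The event that the origin is bad at some scale `≥ n`. -/
def BadEv {M L : ℝ} (p : Par) (eta : ℝ) (n : ℕ) : Set (EnvT M L) :=
  {c | ∃ rho : ℝ, (n : ℝ) ≤ rho ∧ Bad p c.1 rho (eta * rho) 0}

theorem isOpen_badEv {M L : ℝ} (p : Par) (eta : ℝ) (n : ℕ) :
    IsOpen (BadEv p eta n : Set (EnvT M L)) := by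
  have h : (BadEv p eta n : Set (EnvT M L)) =
      ⋃ rho : ℝ, ⋃ _ : (n : ℝ) ≤ rho, {c | Bad p c.1 rho (eta * rho) 0} := by
    ext c
    simp [BadEv]
  rw [h]
  exact isOpen_iUnion fun rho => isOpen_iUnion fun _ => isOpen_event_bad p _ _ _

private theorem badEv_not {M L : ℝ} {p : Par} {c : EnvT M L} (hF : FineLarge p c.1) {eta : ℝ}
    (heta : 0 < eta) : ∃ n : ℕ, c ∉ (BadEv p eta n : Set (EnvT M L)) := by
  obtain ⟨R0, hR0⟩ := hF (min (eta / 3) 1) (lt_min (by positivity) one_pos)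
  obtain ⟨n, hn⟩ := exists_nat_ge (max R0 1)
  refine ⟨n, ?_⟩
  rintro ⟨rho, hrho, y, hy, r', hr', hnf⟩
  apply hnf
  have h1 : 1 ≤ rho := ((le_max_right _ _).trans hn).trans hrho
  have h2 : R0 ≤ rho := ((le_max_left _ _).trans hn).trans hrho
  rw [sub_zero] at hy
  have hr0 : 0 ≤ r' := by
    have : 0 ≤ eta * rho := by positivity
    linarith
  refine hR0 (max (3 * rho) r') (by have := le_max_left (3 * rho) r'; linarith) y
    (hy.trans (le_max_left _ _)) r' ?_ (le_max_right _ _)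
  rcases le_total (3 * rho) r' with h | h
  · rw [max_eq_right h]
    have : min (eta / 3) 1 * r' ≤ 1 * r' := mul_le_mul_of_nonneg_right (min_le_right _ _) hr0
    linarith
  · rw [max_eq_left h]
    have : min (eta / 3) 1 * (3 * rho) ≤ eta / 3 * (3 * rho) :=
      mul_le_mul_of_nonneg_right (min_le_left _ _) (by linarith)
    have e : eta / 3 * (3 * rho) = eta * rho := by ring
    linarith

theorem badEv_small {M L : ℝ} {μ : Measure (EnvT M L)} (hμ : Erg μ) {p : Par}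
    (hF : ∀ᵐ c ∂μ, FineLarge p c.1) {eta : ℝ} (heta : 0 < eta) {del : ℝ} (hdel : 0 < del) :
    ∃ n : ℕ, (μ (BadEv p eta n)).toReal ≤ del := by
  have := hμ.prob
  have hanti : Antitone (fun n : ℕ => (BadEv p eta n : Set (EnvT M L))) := by
    intro n m hnm c hc
    obtain ⟨rho, h1, h2⟩ := hc
    exact ⟨rho, le_trans (by exact_mod_cast hnm) h1, h2⟩
  have hmeas : ∀ n : ℕ, NullMeasurableSet (BadEv p eta n : Set (EnvT M L)) μ := fun n =>
    (isOpen_badEv p eta n).measurableSet.nullMeasurableSet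
  have hlim := tendsto_measure_iInter_atTop hmeas hanti ⟨0, measure_ne_top μ _⟩
  have h0 : μ (⋂ n : ℕ, (BadEv p eta n : Set (EnvT M L))) = 0 := by
    rw [← compl_compl (⋂ n : ℕ, (BadEv p eta n : Set (EnvT M L)))]
    apply mem_ae_iff.1
    filter_upwards [hF] with c hc
    obtain ⟨n, hn⟩ := badEv_not hc heta
    exact fun h => hn (mem_iInter.1 h n)
  rw [h0] at hlim
  have hev := hlim.eventually_lt_const (show (0 : ENNReal) < ENNReal.ofReal del by
    rw [ENNReal.ofReal_pos]; exact hdel)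
  obtain ⟨n, hn⟩ := hev.exists
  refine ⟨n, ?_⟩
  exact ENNReal.toReal_le_of_le_ofReal hdel.le hn.le

private theorem badRect_norm (x e : V) (he : ‖e‖ = 1) :
    ‖x‖ ≤ |inner ℝ x e| + |inner ℝ x (J e)| := by
  have he2 : e 0 ^ 2 + e 1 ^ 2 = 1 := by
    have h := EuclideanSpace.norm_sq_eq e
    rw [he, Fin.sum_univ_two] at h
    simp only [Real.norm_eq_abs, sq_abs] at h
    linarith
  have hx : ‖x‖ ^ 2 = inner ℝ x e ^ 2 + inner ℝ x (J e) ^ 2 := by
    rw [EuclideanSpace.norm_sq_eq, PiLp.inner_apply, PiLp.inner_apply, Fin.sum_univ_two,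
      Fin.sum_univ_two, Fin.sum_univ_two, VSC.J_zero_apply, VSC.J_one_apply]
    simp only [Real.norm_eq_abs, sq_abs, RCLike.inner_apply, conj_trivial]
    linear_combination (-(x 0 ^ 2 + x 1 ^ 2)) * he2
  have h3 : ‖x‖ ^ 2 ≤ (|inner ℝ x e| + |inner ℝ x (J e)|) ^ 2 := by
    rw [hx, ← sq_abs (inner ℝ x e), ← sq_abs (inner ℝ x (J e))]
    have := mul_nonneg (abs_nonneg (inner ℝ x e)) (abs_nonneg (inner ℝ x (J e)))
    nlinarith
  exact le_of_sq_le_sq h3 (by positivity)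

private theorem badRect_inner (x a b : V) : |inner ℝ x b| ≤ |inner ℝ x a| + ‖x‖ * ‖a - b‖ := by
  have h1 : inner ℝ x b = inner ℝ x a - inner ℝ x (a - b) := by
    rw [inner_sub_right]; ring
  rw [h1]
  have h2 := abs_real_inner_le_norm x (a - b)
  have h3 := abs_sub (inner ℝ x a) (inner ℝ x (a - b))
  linarith

private theorem badRect_J (a b : V) : ‖J a - J b‖ = ‖a - b‖ := by
  have h : J a - J b = J (a - b) := by
    rw [sub_eq_add_neg, sub_eq_add_neg, VSC.J_add]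
    congr 1
    rw [← neg_one_smul ℝ b, VSC.J_smul, neg_one_smul]
  rw [h, VSC.norm_J]

theorem badRect_ae {M L : ℝ} {μ : Measure (EnvT M L)} (hμ : Erg μ) {p : Par}
    (hF : ∀ᵐ c ∂μ, FineLarge p c.1) : ∀ᵐ c ∂μ, BadRect p c.1 := by
  obtain ⟨C0, hC0, herg⟩ := erg_rect
  have hne : Nonempty (sphere (0 : V) 1) := by
    refine ⟨⟨EuclideanSpace.single 0 1, ?_⟩⟩
    simp
  set u : ℕ → sphere (0 : V) 1 := TopologicalSpace.denseSeq (sphere (0 : V) 1) with hu
  have hu1 : ∀ j, ‖(u j : V)‖ = 1 := fun j => norm_eq_of_mem_sphere (u j)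
  have hall : ∀ᵐ c ∂μ, ∀ k n a b j : ℕ, ∀ del : ℝ, 0 < del → ∃ R0 : ℝ, ∀ R : ℝ, R0 ≤ R →
      volume {x : V | |inner ℝ x (J (u j : V))| ≤ ((a : ℝ) + 1) * R ∧
        |inner ℝ x (u j : V)| ≤ ((b : ℝ) + 1) * R ∧
        shift x c ∈ (BadEv p (1 / ((k : ℝ) + 1)) n : Set (EnvT M L))}
        ≤ ENNReal.ofReal ((C0 * (μ (BadEv p (1 / ((k : ℝ) + 1)) n)).toReal + del) *
          (((a : ℝ) + 1) * R) * (((b : ℝ) + 1) * R)) := by
    rw [ae_all_iff]; intro k
    rw [ae_all_iff]; intro n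
    rw [ae_all_iff]; intro a
    rw [ae_all_iff]; intro b
    rw [ae_all_iff]; intro j
    exact herg M L μ hμ _ (isOpen_badEv p _ n).measurableSet (u j) _ _ (hu1 j) (by positivity)
      (by positivity)
  filter_upwards [hall] with c hc del hdel eta heta
  obtain ⟨k, hk⟩ := exists_nat_one_div_lt heta
  obtain ⟨n, hn⟩ := badEv_small hμ hF (eta := 1 / ((k : ℝ) + 1)) (by positivity)
    (del := del / (36 * C0)) (by positivity)
  refine ⟨n, fun rho hrho e he K C hK hC => ?_⟩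
  -- a direction close to `e`
  have hKC : 0 < 1 / (K + C) := by positivity
  obtain ⟨j, hj⟩ : ∃ j, ‖e - (u j : V)‖ < 1 / (K + C) := by
    have hd := TopologicalSpace.denseRange_denseSeq (sphere (0 : V) 1)
    have he' : e ∈ sphere (0 : V) 1 := by simpa using he
    obtain ⟨j, hj⟩ := hd.exists_dist_lt (⟨e, he'⟩ : sphere (0 : V) 1) hKC
    refine ⟨j, ?_⟩
    rw [← dist_eq_norm]
    exact hj
  obtain ⟨R0, hR0⟩ := hc k n ⌈2 * K⌉₊ ⌈2 * C⌉₊ j (del / 36) (by positivity)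
  refine ⟨max R0 0, fun R hR => ?_⟩
  have hR1 : R0 ≤ R := (le_max_left _ _).trans hR
  have hR2 : 0 ≤ R := (le_max_right _ _).trans hR
  have ha1 : 2 * K ≤ (⌈2 * K⌉₊ : ℝ) := Nat.le_ceil _
  have ha2 : (⌈2 * K⌉₊ : ℝ) < 2 * K + 1 := Nat.ceil_lt_add_one (by linarith)
  have hb1 : 2 * C ≤ (⌈2 * C⌉₊ : ℝ) := Nat.le_ceil _
  have hb2 : (⌈2 * C⌉₊ : ℝ) < 2 * C + 1 := Nat.ceil_lt_add_one (by linarith)
  have hsub : {x : V | |inner ℝ x (J e)| ≤ K * R ∧ |inner ℝ x e| ≤ C * R ∧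
      Bad p c.1 rho (eta * rho) x} ⊆
      {x : V | |inner ℝ x (J (u j : V))| ≤ ((⌈2 * K⌉₊ : ℝ) + 1) * R ∧
        |inner ℝ x (u j : V)| ≤ ((⌈2 * C⌉₊ : ℝ) + 1) * R ∧
        shift x c ∈ (BadEv p (1 / ((k : ℝ) + 1)) n : Set (EnvT M L))} := by
    rintro x ⟨h1, h2, h3⟩
    have hx : ‖x‖ ≤ (K + C) * R := by
      have := badRect_norm x e he
      linarith
    have hxe : ‖x‖ * ‖e - (u j : V)‖ ≤ R := by
      calc ‖x‖ * ‖e - (u j : V)‖ ≤ ((K + C) * R) * (1 / (K + C)) :=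
            mul_le_mul hx hj.le (norm_nonneg _) (by positivity)
        _ = R := by field_simp
    refine ⟨?_, ?_, rho, hrho, ?_⟩
    · have h4 := badRect_inner x (J e) (J (u j : V))
      rw [badRect_J] at h4
      nlinarith
    · have h4 := badRect_inner x e (u j : V)
      nlinarith
    · rw [bad_shift, add_zero]
      obtain ⟨y, hy, r', hr', hnf⟩ := h3
      refine ⟨y, hy, r', le_trans ?_ hr', hnf⟩
      have : 0 ≤ rho := le_trans (by positivity) hrho
      exact mul_le_mul_of_nonneg_right hk.le this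
  refine (measure_mono hsub).trans ((hR0 R hR1).trans (ENNReal.ofReal_le_ofReal ?_))
  have hC0μ : C0 * (μ (BadEv p (1 / ((k : ℝ) + 1)) n)).toReal ≤ del / 36 := by
    calc C0 * (μ (BadEv p (1 / ((k : ℝ) + 1)) n)).toReal ≤ C0 * (del / (36 * C0)) :=
          mul_le_mul_of_nonneg_left hn hC0.le
      _ = del / 36 := by field_simp
  have hA : ((⌈2 * K⌉₊ : ℝ) + 1) * R ≤ (4 * K) * R :=
    mul_le_mul_of_nonneg_right (by linarith) hR2
  have hB : ((⌈2 * C⌉₊ : ℝ) + 1) * R ≤ (4 * C) * R :=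
    mul_le_mul_of_nonneg_right (by linarith) hR2
  calc (C0 * (μ (BadEv p (1 / ((k : ℝ) + 1)) n)).toReal + del / 36) *
          (((⌈2 * K⌉₊ : ℝ) + 1) * R) * (((⌈2 * C⌉₊ : ℝ) + 1) * R)
      ≤ (del / 36 + del / 36) * ((4 * K) * R) * ((4 * C) * R) := by
        apply mul_le_mul (mul_le_mul (by linarith) hA (by positivity) (by positivity)) hB
          (by positivity) (by positivity)
    _ ≤ del * (K * R) * (C * R) := by
        have : 0 ≤ del * (K * R) * (C * R) := by positivity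
        have e1 : (del / 36 + del / 36) * ((4 * K) * R) * ((4 * C) * R)
            = 16 / 18 * (del * (K * R) * (C * R)) := by ring
        rw [e1]
        linarith

end Pool.Agent.FCF
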