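import Pool.Agent.FCF.ExpSpd

/-!
# FCF / ExpF1: uniform speeds, the smaller force, `Spd2` (FCF_PROOF.md, 2.1)

* `spd_unif`: `Spd h e ↔ ∃ k, ∃ g' > 1/(k+1), SpdG h e g'`. By `spd_zero_one` for each `k` either a.s. true or a.s. false; if a.s. false for all `k` then `Spd` is a.s. false,
  contradiction to `hs` (probability measure, `Filter.NeBot`). So some `k`, `g = 1/(k+1)` (`SpdG.mono`).
* `exists_F1`: if for every `n` the statement `∀ᵐ c, ¬ ∀ e, ..Spd (F - 1/(n+1)) e` held, then (countable) a.s. no `n` works, contradiction. So some `n` for which the set is not null. Put `F1 = F - 1/(n+1)`.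
  For a unit `e`: `spd_zero_one` with `g = 0`: if a.s. false then the set is null: contradiction.
* `spd2_of_shift`: `Spd (h (y + ·)) e` with `a = y.e < 0`: `HP e (y.e + g t) ⊆ E h (HP e (y.e)) t`; for large `t`, `(g/2) t ≤ y.e + g t`.
* `spd2_of_spd`: `hμ.inv (-e)`: almost surely also `Spd (frc (shift (-e) c) F) e` (`MeasurePreserving.quasiMeasurePreserving.ae`), inner = -1.
* `spd2_all`: for `y = -q`, `q` in a countable dense set of `V`: almost surely for all such `y` and all `e`: `Spd (frc (shift y c) F) e`; for given `e` choose `q` near `e`.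
-/

set_option autoImplicit false

namespace Pool.Agent.FCF

open Pool.Agent.VSC (V J LowJet)
open Set Metric MeasureTheory Filter Topology EnvT

theorem spd_unif {M L : ℝ} {μ : Measure (EnvT M L)} (hμ : Erg μ) {F : ℝ} {e : V}
    (he : ‖e‖ = 1) (hs : ∀ᵐ c ∂μ, Spd (frc c.1 F) e) :
    ∃ g : ℝ, 0 < g ∧ ∀ᵐ c ∂μ, SpdG (frc c.1 F) e g := by
  have := hμ.prob
  by_contra hcon
  have h1 : ∀ k : ℕ, ∀ᵐ c ∂μ, ¬ ∃ g' : ℝ, 1 / ((k : ℝ) + 1) < g' ∧ SpdG (frc c.1 F) e g' := by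
    intro k
    rcases spd_zero_one hμ F he (1 / ((k : ℝ) + 1)) with h | h
    · exfalso
      apply hcon
      refine ⟨1 / ((k : ℝ) + 1), by positivity, ?_⟩
      filter_upwards [h] with c hc
      obtain ⟨g', hg', hs'⟩ := hc
      exact hs'.mono hg'.le
    · exact h
  obtain ⟨c, hc1, hc2⟩ := ((ae_all_iff.2 h1).and hs).exists
  obtain ⟨g, hg, hsg⟩ := hc2
  obtain ⟨k, hk⟩ := exists_nat_one_div_lt hg
  exact hc1 k ⟨g, hk, hsg⟩

theorem exists_F1 {M L : ℝ} {μ : Measure (EnvT M L)} (hμ : Erg μ) {F : ℝ}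
    (hyp : ∀ᵐ c ∂μ, ∃ n : ℕ, ∀ e : V, ‖e‖ = 1 → Spd (frc c.1 (F - 1 / ((n : ℝ) + 1))) e) :
    ∃ F1 : ℝ, F1 < F ∧ ∀ e : V, ‖e‖ = 1 → ∀ᵐ c ∂μ, Spd (frc c.1 F1) e := by
  have := hμ.prob
  by_contra hcon
  have h1 : ∀ n : ℕ, ∀ᵐ c ∂μ,
      ¬ ∀ e : V, ‖e‖ = 1 → Spd (frc c.1 (F - 1 / ((n : ℝ) + 1))) e := by
    intro n
    have hlt : F - 1 / ((n : ℝ) + 1) < F := by
      have : (0 : ℝ) < 1 / ((n : ℝ) + 1) := by positivity
      linarith
    have h2 : ∃ e : V, ‖e‖ = 1 ∧ ¬ ∀ᵐ c ∂μ, Spd (frc c.1 (F - 1 / ((n : ℝ) + 1))) e := by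
      by_contra h3
      apply hcon
      refine ⟨F - 1 / ((n : ℝ) + 1), hlt, fun e he => ?_⟩
      by_contra h4
      exact h3 ⟨e, he, h4⟩
    obtain ⟨e, he, hne⟩ := h2
    rcases spd_zero_one hμ (F - 1 / ((n : ℝ) + 1)) he 0 with h | h
    · exact absurd h hne
    · filter_upwards [h] with c hc hall
      obtain ⟨g, hg, hs⟩ := hall e he
      exact hc ⟨g, hg, hs⟩
  obtain ⟨c, hc1, hc2⟩ := ((ae_all_iff.2 h1).and hyp).exists
  obtain ⟨n, hn⟩ := hc2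
  exact hc1 n hn

theorem spd2_of_shift {h : V → ℝ} {e y : V} (hy : inner ℝ y e < 0) (h1 : Spd h e)
    (h2 : Spd (fun x => h (y + x)) e) : Spd2 h e := by
  refine ⟨h1, inner ℝ y e, hy, ?_⟩
  obtain ⟨g, hg, T0, hT⟩ := h2
  refine ⟨g / 2, by linarith, max T0 (-(2 * inner ℝ y e) / g), fun t ht x hx => ?_⟩
  have ht1 : T0 ≤ t := (le_max_left _ _).trans ht
  have ht2 : -(2 * inner ℝ y e) / g ≤ t := (le_max_right _ _).trans ht
  rw [div_le_iff₀ hg] at ht2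
  have hHP : {x : V | y + x ∈ HP e (inner ℝ y e)} = HP e 0 := by
    ext x
    simp only [HP, mem_ofPred_eq, inner_add_left]
    constructor
    · intro h; linarith
    · intro h; linarith
  have h3 : x - y ∈ HP e (g * t) := by
    have hx' : inner ℝ x e ≤ g / 2 * t := hx
    show inner ℝ (x - y) e ≤ g * t
    rw [inner_sub_left]
    linarith
  have h4 := hT t ht1 h3
  rw [← hHP, E_shift, add_sub_cancel] at h4
  exact h4

theorem spd2_of_spd {M L : ℝ} {μ : Measure (EnvT M L)} (hμ : Erg μ) {F : ℝ} {e : V}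
    (he : ‖e‖ = 1) (hs : ∀ᵐ c ∂μ, Spd (frc c.1 F) e) : ∀ᵐ c ∂μ, Spd2 (frc c.1 F) e := by
  have h1 := (hμ.inv (-e)).quasiMeasurePreserving.ae hs
  filter_upwards [hs, h1] with c hc1 hc2
  refine spd2_of_shift (y := -e) ?_ hc1 hc2
  rw [inner_neg_left, real_inner_self_eq_norm_sq, he]
  norm_num

/-- Name in Iface2: `spd2_all`. -/
theorem spd2_all' {M L F : ℝ} {μ : Measure (EnvT M L)} (hμ : Erg μ)
    (hyp : ∀ᵐ c ∂μ, ∀ e : V, ‖e‖ = 1 → Spd (frc c.1 F) e) :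
    ∀ᵐ c ∂μ, ∀ e : V, ‖e‖ = 1 → Spd2 (frc c.1 F) e := by
  obtain ⟨s, hsc, hsd⟩ := TopologicalSpace.exists_countable_dense V
  have h1 : ∀ q ∈ s, ∀ᵐ c ∂μ, ∀ e : V, ‖e‖ = 1 → Spd (frc (shift q c).1 F) e := fun q _ =>
    (hμ.inv q).quasiMeasurePreserving.ae hyp
  have h2 := (ae_ball_iff hsc).2 h1
  filter_upwards [hyp, h2] with c hc1 hc2 e he
  obtain ⟨q, hq, hqe⟩ := hsd.exists_dist_lt (-e) one_pos
  refine spd2_of_shift (y := q) ?_ (hc1 e he) (hc2 q hq e he)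
  have h3 : inner ℝ (q + e) e ≤ ‖q + e‖ * ‖e‖ := real_inner_le_norm _ _
  rw [inner_add_left, real_inner_self_eq_norm_sq, he] at h3
  rw [dist_comm, dist_eq_norm, sub_neg_eq_add] at hqe
  linarith

end Pool.Agent.FCF
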