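import Pool.Agent.FCF.ExpIter
import Pool.Agent.FCF.ExpF1
import Pool.Agent.FCF.EnvEvent
import Pool.Agent.FCF.Erg

/-!
# FCF / ExpDens: fineness at all large comparable scales (FCF_PROOF.md, 2.3 (EXP))

* `good_event`: `B n = {c | HGood (frc c F1) e g n 0}` is closed (`isClosed_event_flow`), increasing in `n : ℕ` (`HGood.mono`), and its union has full measure by `hs` (`SpdG .. (2 g)`).
  So `μ (B n)ᶜ → 0` (`tendsto_measure_iInter_atTop` / `prob_compl_eq_one_sub`, ...).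
* `exists_good_of_volume`: otherwise `closedBall y d ⊆ {x | |x.Je| ≤ ρ ∧ |x.e| ≤ ρ ∧ x ∈ B}` (`|x.e|, |x.Je| ≤ ‖x‖ ≤ ‖y‖ + d ≤ ρ`), whose volume is `π d^2 ≥ d^2` (`EuclideanSpace.volume_closedBall_fin_two` or `volume_ball_fin_two`).
* `fineLarge_ae`: for `η = 1/(k+1)` let `δ1 = gam cExp/16`, `a = Cs + 106 + δ1`, choose `n` with `C0 μ(B n)ᶜ ≤ small`, `small · a^2 ·2 < δ1^2 η^2`, for all `i : Fin m`. `erg_rect` with some unit vector `e`, `a = b`. So a.s. for all `k`: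
  for `R ≥ R0`, `‖x‖ ≤ R`, `η R ≤ r ≤ R`: for all `y` with `‖y - x‖ ≤ (Cs+102) r`: `‖y‖ + δ1 r ≤ a R` and a point `x'` within `δ1 η R ≤ δ1 r` of `y` with `shift x' c ∈ B n`, i.e. (`HGood_shift`) `HGood (frc c F1) e_i g_i n x'`.
  For `R` large `n ≤ cExp r`, `32/gam ≤ cExp r`, `1 ≤ r`. `fine_of_dense`. General `η > 0`: choose `k` with `1/(k+1) ≤ η`.
-/

set_option autoImplicit false

namespace Pool.Agent.FCF

open Pool.Agent.VSC (V J LowJet)
open Set Metric MeasureTheory Filter Topology EnvT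

theorem isClosed_good {M L : ℝ} (F : ℝ) (e : V) (g T : ℝ) :
    IsClosed {c : EnvT M L | HGood (frc c.1 F) e g T 0} :=
  isClosed_event_flow F (isClosed_HP e (inner ℝ (0 : V) e))
    (fun t => HP e (inner ℝ (0 : V) e + 2 * g * t)) (Ici T)

theorem good_event {M L : ℝ} {μ : Measure (EnvT M L)} (hμ : Erg μ) {F : ℝ} {e : V} {g : ℝ}
    (hs : ∀ᵐ c ∂μ, SpdG (frc c.1 F) e (2 * g)) {del : ℝ} (hdel : 0 < del) :
    ∃ n : ℕ, (μ {c : EnvT M L | HGood (frc c.1 F) e g n 0}ᶜ).toReal ≤ del := by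
  have := hμ.prob
  set B : ℕ → Set (EnvT M L) := fun n => {c : EnvT M L | HGood (frc c.1 F) e g n 0}ᶜ with hB
  have hanti : Antitone B := by
    intro n m hnm c hc hc'
    exact hc (hc'.mono (Nat.cast_nonneg n) (by exact_mod_cast hnm) le_rfl)
  have hmeas : ∀ n : ℕ, NullMeasurableSet (B n) μ := fun n =>
    (isClosed_good F e g n).measurableSet.compl.nullMeasurableSet
  have hlim := tendsto_measure_iInter_atTop hmeas hanti ⟨0, measure_ne_top μ _⟩
  have h0 : μ (⋂ n : ℕ, B n) = 0 := by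
    rw [← compl_compl (⋂ n : ℕ, B n)]
    apply mem_ae_iff.1
    filter_upwards [hs] with c hc
    obtain ⟨T0, hT0⟩ := hc
    obtain ⟨n, hn⟩ := exists_nat_ge T0
    intro h
    refine mem_iInter.1 h n ?_
    intro t ht
    rw [inner_zero_left, zero_add]
    exact hT0 t (hn.trans ht)
  rw [h0] at hlim
  have hev := hlim.eventually_lt_const (show (0 : ENNReal) < ENNReal.ofReal del by
    rw [ENNReal.ofReal_pos]; exact hdel)
  obtain ⟨n, hn⟩ := hev.exists
  exact ⟨n, ENNReal.toReal_le_of_le_ofReal hdel.le hn.le⟩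

theorem exists_good_of_volume {e : V} (he : ‖e‖ = 1) {rho d : ℝ} (hd : 0 < d) {B : Set V}
    (hB : volume {x : V | |inner ℝ x (J e)| ≤ rho ∧ |inner ℝ x e| ≤ rho ∧ x ∈ B}
      < ENNReal.ofReal (d ^ 2)) {y : V} (hy : ‖y‖ + d ≤ rho) :
    ∃ x : V, ‖x - y‖ ≤ d ∧ x ∉ B := by
  by_contra hcon
  push Not at hcon
  have hsub : closedBall y d ⊆ {x : V | |inner ℝ x (J e)| ≤ rho ∧ |inner ℝ x e| ≤ rho ∧ x ∈ B} := by
    intro x hx
    rw [mem_closedBall, dist_eq_norm] at hx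
    have hn : ‖x‖ ≤ rho := by
      have h1 : x = (x - y) + y := by abel
      have h2 : ‖x‖ ≤ ‖x - y‖ + ‖y‖ := by
        calc ‖x‖ = ‖(x - y) + y‖ := by rw [← h1]
          _ ≤ _ := norm_add_le _ _
      linarith
    refine ⟨?_, ?_, hcon x hx⟩
    · have h3 := abs_real_inner_le_norm x (J e)
      rw [VSC.norm_J, he, mul_one] at h3
      linarith
    · have h3 := abs_real_inner_le_norm x e
      rw [he, mul_one] at h3
      linarith
  have h1 := (measure_mono hsub).trans_lt hB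
  rw [EuclideanSpace.volume_closedBall_fin_two, ← ENNReal.ofReal_pow hd.le] at h1
  have h2 : ENNReal.ofReal (d ^ 2) ≤ ENNReal.ofReal (d ^ 2) * ENNReal.ofReal Real.pi := by
    have h3 : (1 : ENNReal) ≤ ENNReal.ofReal Real.pi := by
      rw [← ENNReal.ofReal_one]
      exact ENNReal.ofReal_le_ofReal (by linarith [Real.pi_gt_three])
    calc ENNReal.ofReal (d ^ 2) = ENNReal.ofReal (d ^ 2) * 1 := by rw [mul_one]
      _ ≤ _ := mul_le_mul_right h3 _
  exact absurd h1 (not_lt.2 h2)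

theorem fineLarge_ae {M L F1 : ℝ} {μ : Measure (EnvT M L)} (hμ : Erg μ) {p : Par} {g1 gam : ℝ}
    {m : ℕ} {e : Fin m → V} {g : Fin m → ℝ} (hsig : p.sig = 100 / gam)
    (hD : ∀ c : EnvT M L, Dirs p.M p.L (frc c.1 p.F') (frc c.1 F1) g1 gam e g)
    (hs : ∀ i, ∀ᵐ c ∂μ, SpdG (frc c.1 F1) (e i) (2 * g i)) :
    ∀ᵐ c ∂μ, FineLarge p c.1 := by
  have := hμ.prob
  obtain ⟨C0, hC0, herg⟩ := erg_rect
  have hne : Nonempty (EnvT M L) := by
    by_contra h
    rw [not_nonempty_iff] at h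
    have h1 : μ univ = 1 := measure_univ
    rw [univ_eq_empty_iff.2 h, measure_empty] at h1
    exact zero_ne_one h1
  obtain ⟨c0⟩ := hne
  have hD0 := hD c0
  have hgam := hD0.gam_pos
  have hc1 : 0 < cExp p.M g1 gam := cExp_pos hD0.hm.one_le hD0.g1_pos hgam
  set d1 : ℝ := gam * cExp p.M g1 gam / 16 with hd1
  have hd1p : 0 < d1 := by positivity
  have hCs : 0 ≤ p.Cs := by
    have h1 := p.hM
    have h2 := p.hsig
    show 0 ≤ 20 * ((2 * p.M + 4) * p.sig + 4)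
    positivity
  set a : ℝ := p.Cs + 104 + d1 with ha
  have hap : 0 < a := by positivity
  -- the accuracy
  set s : ℕ → ℝ := fun k => (d1 * (1 / ((k : ℝ) + 1))) ^ 2 / (4 * a ^ 2) with hs_def
  have hsp : ∀ k, 0 < s k := fun k => by simp only [hs_def]; positivity
  have hgood : ∀ (i : Fin m) (k : ℕ), ∃ n : ℕ,
      (μ {c : EnvT M L | HGood (frc c.1 F1) (e i) (g i) n 0}ᶜ).toReal ≤ s k / C0 := fun i k =>
    good_event hμ (hs i) (by have := hsp k; positivity)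
  choose n hn using hgood
  obtain ⟨e0, he0⟩ := exists_norm_eq V (zero_le_one (α := ℝ))
  have hall : ∀ᵐ c ∂μ, ∀ (i : Fin m) (k : ℕ), ∀ del : ℝ, 0 < del → ∃ R0 : ℝ, ∀ R : ℝ, R0 ≤ R →
      volume {x : V | |inner ℝ x (J e0)| ≤ a * R ∧ |inner ℝ x e0| ≤ a * R ∧
        shift x c ∈ {c : EnvT M L | HGood (frc c.1 F1) (e i) (g i) (n i k) 0}ᶜ}
        ≤ ENNReal.ofReal ((C0 * (μ {c : EnvT M L | HGood (frc c.1 F1) (e i) (g i) (n i k) 0}ᶜ).toReal
          + del) * (a * R) * (a * R)) := by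
    rw [ae_all_iff]; intro i
    rw [ae_all_iff]; intro k
    exact herg M L μ hμ _ (isClosed_good F1 (e i) (g i) (n i k)).measurableSet.compl e0 a a he0
      hap hap
  filter_upwards [hall] with c hc eta heta
  obtain ⟨k, hk⟩ := exists_nat_one_div_lt heta
  have hkp : 0 < 1 / ((k : ℝ) + 1) := by positivity
  have hk1 : 1 / ((k : ℝ) + 1) ≤ 1 := by
    rw [div_le_one (by positivity)]
    linarith [(Nat.cast_nonneg k : (0 : ℝ) ≤ k)]
  have hR0 : ∀ i : Fin m, ∃ R0 : ℝ, ∀ R : ℝ, R0 ≤ R →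
      volume {x : V | |inner ℝ x (J e0)| ≤ a * R ∧ |inner ℝ x e0| ≤ a * R ∧
        shift x c ∈ {c : EnvT M L | HGood (frc c.1 F1) (e i) (g i) (n i k) 0}ᶜ}
        ≤ ENNReal.ofReal ((C0 * (μ {c : EnvT M L | HGood (frc c.1 F1) (e i) (g i) (n i k) 0}ᶜ).toReal
          + s k) * (a * R) * (a * R)) := fun i => hc i k (s k) (hsp k)
  choose R0 hR0 using hR0
  obtain ⟨R1, hR1⟩ : ∃ R1 : ℝ, ∀ i, R0 i ≤ R1 := by
    obtain ⟨R1, h⟩ := (finite_range R0).bddAbove
    exact ⟨R1, fun i => h (mem_range_self i)⟩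
  obtain ⟨N, hN⟩ : ∃ N : ℕ, ∀ i, n i k ≤ N := by
    obtain ⟨N, h⟩ := (finite_range (fun i => n i k)).bddAbove
    exact ⟨N, fun i => h (mem_range_self i)⟩
  -- the scale from which on everything works
  set Q : ℝ := max 1 (max ((N : ℝ) / cExp p.M g1 gam) (32 / gam / cExp p.M g1 gam)) with hQ
  have hQ1 : 1 ≤ Q := le_max_left _ _
  have hQ2 : (N : ℝ) ≤ cExp p.M g1 gam * Q := by
    have h1 : (N : ℝ) / cExp p.M g1 gam ≤ Q := (le_max_left _ _).trans (le_max_right _ _)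
    rw [div_le_iff₀ hc1] at h1
    linarith
  have hQ3 : 32 / gam ≤ cExp p.M g1 gam * Q := by
    have h1 : 32 / gam / cExp p.M g1 gam ≤ Q := (le_max_right _ _).trans (le_max_right _ _)
    rw [div_le_iff₀ hc1] at h1
    linarith
  refine ⟨max R1 (Q / eta), fun R hR x hx r hr1 hr2 => ?_⟩
  have hRR : R1 ≤ R := (le_max_left _ _).trans hR
  have hQR : Q ≤ eta * R := by
    have h1 : Q / eta ≤ R := (le_max_right _ _).trans hR
    rw [div_le_iff₀ heta] at h1
    linarith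
  have hQr : Q ≤ r := hQR.trans hr1
  have hr : 1 ≤ r := hQ1.trans hQr
  have hRp : 0 < R := by linarith
  show Fine (frc c.1 p.F') p.sig (p.Cs + 1) x r
  rw [hsig]
  refine fine_of_dense (hD c) (T := N) hr
    (hQ2.trans (mul_le_mul_of_nonneg_left hQr hc1.le))
    (hQ3.trans (mul_le_mul_of_nonneg_left hQr hc1.le)) (fun i y hy => ?_)
  have hd : 0 < d1 * (1 / ((k : ℝ) + 1)) * R := by positivity
  have hy1 : ‖y‖ + d1 * (1 / ((k : ℝ) + 1)) * R ≤ a * R := by
    have h1 : ‖y‖ ≤ ‖y - x‖ + ‖x‖ := by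
      calc ‖y‖ = ‖(y - x) + x‖ := by rw [sub_add_cancel]
        _ ≤ _ := norm_add_le _ _
    have h2 : (p.Cs + 1 + 102) * r ≤ (p.Cs + 1 + 102) * R :=
      mul_le_mul_of_nonneg_left hr2 (by positivity)
    have h3 : d1 * (1 / ((k : ℝ) + 1)) * R ≤ d1 * 1 * R := by gcongr
    have h4 : a * R = (p.Cs + 1 + 102) * R + R + d1 * 1 * R := by rw [ha]; ring
    linarith
  have hvol : volume {x : V | |inner ℝ x (J e0)| ≤ a * R ∧ |inner ℝ x e0| ≤ a * R ∧
        x ∈ {x : V | shift x c ∈ {c : EnvT M L | HGood (frc c.1 F1) (e i) (g i) (n i k) 0}ᶜ}}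
        < ENNReal.ofReal ((d1 * (1 / ((k : ℝ) + 1)) * R) ^ 2) := by
    refine (hR0 i R ((hR1 i).trans hRR)).trans_lt ?_
    rw [ENNReal.ofReal_lt_ofReal_iff (by positivity)]
    have h1 : C0 * (μ {c : EnvT M L | HGood (frc c.1 F1) (e i) (g i) (n i k) 0}ᶜ).toReal ≤ s k := by
      calc _ ≤ C0 * (s k / C0) := mul_le_mul_of_nonneg_left (hn i k) hC0.le
        _ = s k := by field_simp
    calc _ ≤ (s k + s k) * (a * R) * (a * R) := by gcongr
      _ = (d1 * (1 / ((k : ℝ) + 1)) * R) ^ 2 / 2 := by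
          simp only [hs_def]
          field_simp
          ring
      _ < _ := by
          have : 0 < (d1 * (1 / ((k : ℝ) + 1)) * R) ^ 2 := by positivity
          linarith
  obtain ⟨x', hx1, hx2⟩ := exists_good_of_volume he0 hd hvol hy1
  refine ⟨x', hx1.trans ?_, ?_⟩
  · rw [mul_assoc]
    refine mul_le_mul_of_nonneg_left ?_ hd1p.le
    exact (mul_le_mul_of_nonneg_right hk.le hRp.le).trans hr1
  · have h1 : HGood (frc (shift x' c).1 F1) (e i) (g i) (n i k) 0 := by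
      by_contra h
      exact hx2 h
    have h2 := (HGood_shift (h := frc c.1 F1) (e := e i) (g := g i) (T := (n i k : ℝ)) x' 0).1 h1
    rw [add_zero] at h2
    exact h2.mono (Nat.cast_nonneg _) (by exact_mod_cast hN i) le_rfl

end Pool.Agent.FCF
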