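import Pool.Agent.FCF.Defs

/-!
# FCF / ExpDir: finitely many directions (compactness of the circle)

PROOF. For each unit `v` choose `g v` with `0 < g v ≤ 1/4`, `G v (g v)` (`hG`, `hmono`). The open balls
`ball v (g v / (8 Mp))` cover the compact sphere `sphere (0:V) 1`; take a finite subcover
(`IsCompact.elim_nhds_subcover`), index it by `Fin m`.
-/

set_option autoImplicit false

namespace Pool.Agent.FCF

open Pool.Agent.VSC (V J LowJet)
open Set Metric Filter Topology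

theorem exists_dirs {Mp : ℝ} (hMp : 0 < Mp) (G : V → ℝ → Prop)
    (hG : ∀ v : V, ‖v‖ = 1 → ∃ g : ℝ, 0 < g ∧ G v g)
    (hmono : ∀ (v : V) (g g' : ℝ), 0 < g' → g' ≤ g → G v g → G v g') :
    ∃ (m : ℕ) (e : Fin m → V) (g : Fin m → ℝ),
      (∀ i, ‖e i‖ = 1 ∧ 0 < g i ∧ g i ≤ 1 / 4 ∧ G (e i) (g i)) ∧
      ∀ v : V, ‖v‖ = 1 → ∃ i, ‖v - e i‖ ≤ g i / (8 * Mp) := by
  classical
  have h1 : ∀ v : V, ∃ g : ℝ, 0 < g ∧ (‖v‖ = 1 → g ≤ 1 / 4 ∧ G v g) := by
    intro v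
    by_cases hv : ‖v‖ = 1
    · obtain ⟨g, hg, hGg⟩ := hG v hv
      have h2 : 0 < min g (1 / 4) := lt_min hg (by norm_num)
      exact ⟨min g (1 / 4), h2, fun _ => ⟨min_le_right _ _, hmono v g _ h2 (min_le_left _ _) hGg⟩⟩
    · exact ⟨1, one_pos, fun h => absurd h hv⟩
  choose g hg0 hg1 using h1
  obtain ⟨t, ht1, ht2⟩ := (isCompact_sphere (0 : V) 1).elim_nhds_subcover
    (fun v => ball v (g v / (8 * Mp))) (fun v _ => ball_mem_nhds v (div_pos (hg0 v) (by positivity)))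
  refine ⟨t.card, fun i => (t.equivFin.symm i : V), fun i => g (t.equivFin.symm i : V), ?_, ?_⟩
  · intro i
    have h2 : ‖((t.equivFin.symm i : t) : V)‖ = 1 := by
      have := ht1 _ (t.equivFin.symm i).2
      simpa using this
    exact ⟨h2, hg0 _, (hg1 _ h2).1, (hg1 _ h2).2⟩
  · intro v hv
    have h2 : v ∈ ⋃ x ∈ t, ball x (g x / (8 * Mp)) := ht2 (by simpa using hv)
    simp only [mem_iUnion, exists_prop, mem_ball, dist_eq_norm] at h2
    obtain ⟨x, hx, hvx⟩ := h2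
    refine ⟨t.equivFin ⟨x, hx⟩, ?_⟩
    simp only [Equiv.symm_apply_apply]
    exact hvx.le

end Pool.Agent.FCF
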