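import Pool.Agent.FCF.ExpLoc

/-!
# FCF / ExpGrow: one growth step of balls (FCF_PROOF.md, 2.3)

`HGood h e g T x`: the half plane `(y - x).e ≤ 0` expands with speed `2 g` from the time `T` on.

PROOF of `grow_step`. Write `M' = Mp M g1 ≥ 100`. Let `w ∈ closedBall z (r + gam τ/2)`, `s = ‖w - z‖`, `v` a unit vector with
`w - z = s v` (if `w = z` any unit vector). `i` with `‖v - e i‖ ≤ g i/(8 M')`. Write `G = g i ≥ gam`, `G ≤ 1/4`. `y0 = w - (3/2) G τ v`,
`‖y0 - z‖ ≤ s + (3/2) G τ ≤ r + 2 G τ ≤ 2 r` (`G τ ≤ τ/4 ≤ r/(…)`: `τ ≤ gam r/(16 M'^2) ≤ r/160000`). `x` with `‖x - y0‖ ≤ gam τ/16`, `HGood h1 (e i) G T x`. `ρ = 2 M' τ`.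
(1) If `‖y - w‖ < ρ` and `(y - x).e_i ≤ 0` then `closedBall y g1 ⊆ closedBall z r`. Indeed for `y'` in this ball `‖y' - w‖ ≤ ρ + g1 ≤ 2.1 M' τ`,
`(y' - x).e_i ≤ g1`; `(y'-w).v ≤ (y'-w).e_i + ‖y'-w‖ G/(8M')`, `(y'-w).e_i = (y'-x).e_i + (x-y0).e_i + (y0-w).e_i ≤ g1 + G τ/16 - (3/2) G τ v.e_i`, `v.e_i = 1 - ‖v-e_i‖^2/2 ≥ 1 - 1/128`.
So `(y'-w).v ≤ -1.1 G τ`. `‖y'-z‖^2 = ‖y'-w‖^2 + 2 s (y'-w).v + s^2 ≤ (2.1 M' τ)^2 + s (s - 2.2 G τ)`. If `s ≤ 2.2 G τ`: `≤ (2.1 M' τ)^2 ≤ r^2`. Otherwise increasing in `s`, `s ≤ r + G τ/2`: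
`≤ 4.41 M'^2 τ^2 + (r + G τ/2)(r - 1.7 G τ) ≤ 4.41 M'^2 τ^2 + r^2 - 1.2 r G τ ≤ r^2`, as `4.41 M'^2 τ ≤ (4.41/16) gam r ≤ 1.2 G r`.
(2) `w.e_i ≤ x.e_i + 2 G τ`: `(w - x).e_i ≤ (3/2) G τ + gam τ/16`. So `w ∈ E h1 (HP (e i) (x.e_i)) τ` (`HGood`, `T ≤ τ`).
(3) `loc_room` with `S = Flow h1 (HP (e i) (x.e_i))` (`flow_gsub`; initial slice), `x0 = w`, `rho = ρ`, `A = closedBall z r`: `0 < ρ - 5 - M' τ` as `M' τ > 5`. So
`w ∈ closedBall w g1 ⊆ E h (closedBall z r) τ`.
-/

set_option autoImplicit false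

namespace Pool.Agent.FCF

open Pool.Agent.VSC (V J LowJet)
open Set Metric Filter Topology

/-- The half plane `(y - x).e ≤ 0` expands with speed `2 g` from the time `T` on. -/
def HGood (h : V → ℝ) (e : V) (g T : ℝ) (x : V) : Prop :=
  ∀ t : ℝ, T ≤ t → HP e (inner ℝ x e + 2 * g * t) ⊆ E h (HP e (inner ℝ x e)) t

theorem isClosed_HP (e : V) (a : ℝ) : IsClosed (HP e a) :=
  isClosed_le (continuous_id.inner continuous_const) continuous_const

theorem isClosed_HQ (e : V) (a : ℝ) : IsClosed (HQ e a) :=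
  isClosed_le continuous_const (continuous_id.inner continuous_const)

theorem HGood.mono {h : V → ℝ} {e : V} {g g' T T' : ℝ} {x : V} (hx : HGood h e g T x)
    (hT0 : 0 ≤ T) (hT : T ≤ T') (hg : g' ≤ g) : HGood h e g' T' x := by
  intro t ht y hy
  refine hx t (hT.trans ht) ?_
  have ht0 : 0 ≤ t := hT0.trans (hT.trans ht)
  have h1 : g' * t ≤ g * t := mul_le_mul_of_nonneg_right hg ht0
  have hy' : inner ℝ y e ≤ inner ℝ x e + 2 * g' * t := hy
  show inner ℝ y e ≤ inner ℝ x e + 2 * g * t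
  linarith

theorem HGood_shift {h : V → ℝ} {e : V} {g T : ℝ} (x y : V) :
    HGood (fun z => h (x + z)) e g T y ↔ HGood h e g T (x + y) := by
  have hHP : {z : V | x + z ∈ HP e (inner ℝ (x + y) e)} = HP e (inner ℝ y e) := by
    ext z
    simp only [HP, mem_ofPred_eq, inner_add_left]
    constructor
    · intro h; linarith
    · intro h; linarith
  constructor
  · intro hx t ht w hw
    have hw' : inner ℝ w e ≤ inner ℝ (x + y) e + 2 * g * t := hw
    have h1 : w - x ∈ HP e (inner ℝ y e + 2 * g * t) := by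
      show inner ℝ (w - x) e ≤ inner ℝ y e + 2 * g * t
      rw [inner_add_left] at hw'
      rw [inner_sub_left]
      linarith
    have h2 := hx t ht h1
    rw [← hHP, E_shift, add_sub_cancel] at h2
    exact h2
  · intro hx t ht z hz
    have hz' : inner ℝ z e ≤ inner ℝ y e + 2 * g * t := hz
    rw [← hHP, E_shift]
    refine hx t ht ?_
    show inner ℝ (x + z) e ≤ inner ℝ (x + y) e + 2 * g * t
    rw [inner_add_left, inner_add_left]
    linarith

/-- The data of a finite family of good directions. -/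
structure Dirs (M L : ℝ) (h h1 : V → ℝ) (g1 gam : ℝ) {m : ℕ} (e : Fin m → V) (g : Fin m → ℝ) :
    Prop where
  hm : Med M L h
  hm1 : Med M L h1
  g1_pos : 0 < g1
  g1_le : g1 ≤ 1 / 4
  room : ∀ x, h1 x + g1 * (2 + L + 2 * M) ≤ h x
  e_one : ∀ i, ‖e i‖ = 1
  gam_pos : 0 < gam
  gam_le : ∀ i, gam ≤ g i
  g_le : ∀ i, g i ≤ 1 / 4
  cover : ∀ v : V, ‖v‖ = 1 → ∃ i, ‖v - e i‖ ≤ g i / (8 * Mp M g1)

private theorem expGrow_unit {w z : V} : ∃ v : V, ‖v‖ = 1 ∧ w - z = ‖w - z‖ • v := by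
  rcases eq_or_ne (w - z) 0 with h | h
  · obtain ⟨v, hv⟩ := exists_norm_eq V (zero_le_one' ℝ)
    exact ⟨v, hv, by rw [h, norm_zero, zero_smul]⟩
  · have h1 : ‖w - z‖ ≠ 0 := norm_ne_zero_iff.2 h
    refine ⟨‖w - z‖⁻¹ • (w - z), ?_, ?_⟩
    · rw [norm_smul, norm_inv, norm_norm, inv_mul_cancel₀ h1]
    · rw [smul_smul, mul_inv_cancel₀ h1, one_smul]

private theorem expGrow_geom {Mq G gam tau r s a b : ℝ} (hM : 100 ≤ Mq) (hG0 : 0 < gam)
    (hGg : gam ≤ G) (hG : G ≤ 1 / 4) (ht : 128 ≤ tau)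
    (htr : tau ≤ gam / (16 * Mq ^ 2) * r) (hs0 : 0 ≤ s) (hs : s ≤ r + gam * tau / 2)
    (ha0 : 0 ≤ a) (ha : a ≤ 2.1 * Mq * tau) (hb : b ≤ -(1.1 * G * tau)) :
    a ^ 2 + 2 * s * b + s ^ 2 ≤ r ^ 2 ∧ 0 ≤ r := by
  have hMp : 0 < 16 * Mq ^ 2 := by positivity
  have h1 : 16 * Mq ^ 2 * tau ≤ gam * r := by
    rw [div_mul_eq_mul_div, le_div_iff₀ hMp] at htr
    linarith
  have hr : 0 < r := by
    by_contra hr
    push Not at hr
    have h2 : gam * r ≤ 0 := mul_nonpos_of_nonneg_of_nonpos hG0.le hr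
    have h3 : 0 < 16 * Mq ^ 2 * tau := by positivity
    linarith
  have hgr : gam * r ≤ G * r := mul_le_mul_of_nonneg_right hGg hr.le
  have hG1 : 0 < G := hG0.trans_le hGg
  have hMt : 0 < Mq * tau := by positivity
  have ha2 : a ^ 2 ≤ (2.1 * Mq * tau) ^ 2 := pow_le_pow_left₀ ha0 ha 2
  -- `4.41 Mq^2 tau^2 ≤ 0.28 G r tau`
  have h4 : (2.1 * Mq * tau) ^ 2 ≤ 0.28 * G * r * tau := by
    have h5 : (2.1 * Mq * tau) ^ 2 = 4.41 / 16 * (16 * Mq ^ 2 * tau) * tau := by ring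
    rw [h5]
    have h6 : 4.41 / 16 * (16 * Mq ^ 2 * tau) * tau ≤ 4.41 / 16 * (G * r) * tau := by
      have ht0 : 0 < tau := by linarith
      exact mul_le_mul_of_nonneg_right (mul_le_mul_of_nonneg_left (h1.trans hgr) (by norm_num))
        ht0.le
    have h7 : 0 ≤ G * r * tau := by positivity
    nlinarith
  have hsb : 2 * s * b ≤ -(2.2 * G * tau * s) := by
    nlinarith
  refine ⟨?_, hr.le⟩
  rcases le_or_gt s (2.2 * G * tau) with h8 | h8
  · -- small s
    have h9 : s ^ 2 - 2.2 * G * tau * s ≤ 0 := by nlinarith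
    have h10 : 0.28 * G * r * tau ≤ r ^ 2 := by
      have h11 : tau ≤ r := by
        have h12 : 160000 * tau ≤ 16 * Mq ^ 2 * tau := by
          have h13 : (10000 : ℝ) ≤ Mq ^ 2 := by nlinarith
          nlinarith
        have h14 : gam * r ≤ 1 * r := mul_le_mul_of_nonneg_right (by linarith) hr.le
        linarith
      have h15 : G * tau ≤ 1 * r := by
        have := mul_le_mul hG h11 (by linarith : (0:ℝ) ≤ tau) (by norm_num : (0:ℝ) ≤ 1 / 4)
        linarith
      nlinarith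
    linarith
  · have h9 : s ≤ r + G * tau / 2 := by
      have : gam * tau ≤ G * tau := mul_le_mul_of_nonneg_right hGg (by linarith)
      linarith
    have h10 : s ^ 2 - 2.2 * G * tau * s ≤
        (r + G * tau / 2) * (r + G * tau / 2 - 2.2 * G * tau) := by
      have h11 : s * (s - 2.2 * G * tau) ≤
          (r + G * tau / 2) * (r + G * tau / 2 - 2.2 * G * tau) := by
        apply mul_le_mul h9 (by linarith) (by linarith)
        have : 0 < G * tau := by positivity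
        linarith
      nlinarith
    have h12 : (r + G * tau / 2) * (r + G * tau / 2 - 2.2 * G * tau) =
        r ^ 2 - 1.2 * G * r * tau - 0.85 * (G * tau) ^ 2 := by ring
    have h13 : 0 ≤ (G * tau) ^ 2 := sq_nonneg _
    have h14 : 0 ≤ G * r * tau := by
      have : 0 < tau := by linarith
      positivity
    nlinarith

theorem grow_step {M L : ℝ} {h h1 : V → ℝ} {g1 gam : ℝ} {m : ℕ} {e : Fin m → V} {g : Fin m → ℝ}
    (hD : Dirs M L h h1 g1 gam e g) {T tau r : ℝ} (hT : T ≤ tau) (ht1 : 32 / gam ≤ tau)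
    (htr : tau ≤ gam / (16 * Mp M g1 ^ 2) * r) {z : V}
    (hx : ∀ i, ∀ y : V, ‖y - z‖ ≤ 2 * r → ∃ x : V, ‖x - y‖ ≤ gam * tau / 16 ∧
      HGood h1 (e i) (g i) T x) :
    closedBall z (r + gam * tau / 2) ⊆ E h (closedBall z r) tau := by
  intro w hw
  rw [mem_closedBall, dist_eq_norm] at hw
  have hMp := Mp_ge hD.hm.one_le hD.g1_pos hD.g1_le
  set Mq : ℝ := Mp M g1 with hMq
  have hgam := hD.gam_pos
  have hgt : 32 ≤ gam * tau := by
    rw [div_le_iff₀ hgam] at ht1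
    linarith
  obtain ⟨v, hv1, hwv⟩ := expGrow_unit (w := w) (z := z)
  obtain ⟨i, hi⟩ := hD.cover v hv1
  set G : ℝ := g i with hGdef
  have hGg : gam ≤ G := hD.gam_le i
  have hG4 : G ≤ 1 / 4 := hD.g_le i
  have hG0 : 0 < G := hgam.trans_le hGg
  have he1 : ‖e i‖ = 1 := hD.e_one i
  have ht128 : 128 ≤ tau := by
    have h2 : gam * tau ≤ 1 / 4 * tau := by
      have ht0 : 0 ≤ tau := by
        by_contra h3
        push Not at h3
        have := mul_neg_of_pos_of_neg hgam h3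
        linarith
      exact mul_le_mul_of_nonneg_right (hGg.trans hG4) ht0
    linarith
  have ht0 : 0 < tau := by linarith
  have hGt : gam * tau ≤ G * tau := mul_le_mul_of_nonneg_right hGg ht0.le
  set s : ℝ := ‖w - z‖ with hs
  have hs0 : 0 ≤ s := norm_nonneg _
  have hMM : 0 < 16 * Mq ^ 2 := by positivity
  have hbig : 16 * Mq ^ 2 * tau ≤ gam * r := by
    rw [div_mul_eq_mul_div, le_div_iff₀ hMM] at htr
    linarith
  have hr0 : 0 < r := by
    by_contra hr
    push Not at hr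
    have h2 : gam * r ≤ 0 := mul_nonpos_of_nonneg_of_nonpos hgam.le hr
    have h3 : 0 < 16 * Mq ^ 2 * tau := by positivity
    linarith
  have htaur : tau ≤ r := by
    have h13 : (10000 : ℝ) ≤ Mq ^ 2 := by nlinarith
    have h12 : 160000 * tau ≤ 16 * Mq ^ 2 * tau := by nlinarith
    have h14 : gam * r ≤ 1 * r := mul_le_mul_of_nonneg_right (by linarith) hr0.le
    linarith
  have hG4t : G * tau ≤ 1 / 4 * tau := mul_le_mul_of_nonneg_right hG4 ht0.le
  set y0 : V := w - (3 / 2 * (G * tau)) • v with hy0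
  have hy0z : ‖y0 - z‖ ≤ 2 * r := by
    have h2 : y0 - z = (s - 3 / 2 * (G * tau)) • v := by
      rw [hy0, sub_smul, ← hwv]
      abel
    rw [h2, norm_smul, hv1, mul_one, Real.norm_eq_abs, abs_le]
    constructor
    · linarith
    · have : 0 < G * tau := by positivity
      linarith
  obtain ⟨x, hxy, hgood⟩ := hx i y0 hy0z
  -- the scalar products of `v` and `e i`
  have hve1 : inner ℝ v (e i) ≤ 1 := by
    have := real_inner_le_norm v (e i)
    rwa [hv1, he1, mul_one] at this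
  have hve2 : 1 - 1 / 128 ≤ inner ℝ v (e i) := by
    have h2 : ‖v - e i‖ ^ 2 = 1 - 2 * inner ℝ v (e i) + 1 := by
      rw [norm_sub_sq_real, hv1, he1]
      norm_num
    have h3 : G / (8 * Mq) ≤ 1 / 16 := by
      rw [div_le_iff₀ (by positivity)]
      nlinarith
    have h4 : ‖v - e i‖ ^ 2 ≤ (1 / 16) ^ 2 := pow_le_pow_left₀ (norm_nonneg _) (hi.trans h3) 2
    nlinarith
  have hxe : ∀ u : V, |inner ℝ u (e i)| ≤ ‖u‖ := by
    intro u
    have := abs_real_inner_le_norm u (e i)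
    rwa [he1, mul_one] at this
  have hwy0 : inner ℝ (w - y0) (e i) = 3 / 2 * (G * tau) * inner ℝ v (e i) := by
    have : w - y0 = (3 / 2 * (G * tau)) • v := by rw [hy0]; abel
    rw [this, real_inner_smul_left]
  -- step 1
  have step1 : ∀ y : V, ‖y - w‖ < 2 * Mq * tau → inner ℝ (y - x) (e i) ≤ 0 →
      closedBall y g1 ⊆ closedBall z r := by
    intro y hyw hyx y' hy'
    rw [mem_closedBall, dist_eq_norm] at hy' ⊢
    have hg1 := hD.g1_le
    have ha : ‖y' - w‖ ≤ 2.1 * Mq * tau := by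
      have h2 : ‖y' - w‖ ≤ ‖y' - y‖ + ‖y - w‖ := by
        have : y' - w = (y' - y) + (y - w) := by abel
        rw [this]
        exact norm_add_le _ _
      have h3 : 100 * 128 ≤ Mq * tau := mul_le_mul hMp ht128 (by norm_num) (by linarith)
      linarith
    have hb1 : inner ℝ (y' - w) (e i) ≤ g1 + gam * tau / 16 -
        3 / 2 * (G * tau) * inner ℝ v (e i) := by
      have h2 : y' - w = (y' - y) + (y - x) + (x - y0) - (w - y0) := by abel
      rw [h2, inner_sub_left, inner_add_left, inner_add_left, hwy0]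
      have h3 := (abs_le.1 (hxe (y' - y))).2
      have h4 := (abs_le.1 (hxe (x - y0))).2
      linarith
    have hb2 : inner ℝ (y' - w) (v - e i) ≤ 2.1 / 8 * (G * tau) := by
      have h2 := real_inner_le_norm (y' - w) (v - e i)
      have h3 : ‖y' - w‖ * ‖v - e i‖ ≤ (2.1 * Mq * tau) * (G / (8 * Mq)) :=
        mul_le_mul ha hi (norm_nonneg _) (by positivity)
      have h4 : (2.1 * Mq * tau) * (G / (8 * Mq)) = 2.1 / 8 * (G * tau) := by
        field_simp
      linarith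
    have hb : inner ℝ (y' - w) v ≤ -(1.1 * G * tau) := by
      have h2 : inner ℝ (y' - w) v = inner ℝ (y' - w) (e i) + inner ℝ (y' - w) (v - e i) := by
        rw [← inner_add_right, add_sub_cancel]
      have h3 : 0 < G * tau := by positivity
      have h4 : 3 / 2 * (G * tau) * (1 - 1 / 128) ≤ 3 / 2 * (G * tau) * inner ℝ v (e i) :=
        mul_le_mul_of_nonneg_left hve2 (by positivity)
      rw [h2]
      linarith
    obtain ⟨h5, h6⟩ := expGrow_geom hMp hgam hGg hG4 ht128 htr hs0 hw (norm_nonneg _) ha hb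
    have h7 : ‖y' - z‖ ^ 2 = ‖y' - w‖ ^ 2 + 2 * s * inner ℝ (y' - w) v + s ^ 2 := by
      have h8 : y' - z = (y' - w) + s • v := by rw [← hwv]; abel
      rw [h8, norm_add_sq_real, real_inner_smul_right, norm_smul, hv1, mul_one,
        Real.norm_of_nonneg hs0]
      ring
    rw [← h7] at h5
    exact (pow_le_pow_iff_left₀ (norm_nonneg _) h6 two_ne_zero).1 h5
  -- step 2
  have step2 : w ∈ E h1 (HP (e i) (inner ℝ x (e i))) tau := by
    refine hgood tau hT ?_
    show inner ℝ w (e i) ≤ inner ℝ x (e i) + 2 * G * tau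
    have h2 : inner ℝ w (e i) = inner ℝ x (e i) + inner ℝ (w - y0) (e i) -
        inner ℝ (x - y0) (e i) := by
      rw [← inner_add_left, ← inner_sub_left]
      congr 1
      abel
    have h3 := (abs_le.1 (hxe (x - y0))).1
    have h4 : 0 < G * tau := by positivity
    have h5 : 3 / 2 * (G * tau) * inner ℝ v (e i) ≤ 3 / 2 * (G * tau) * 1 :=
      mul_le_mul_of_nonneg_left hve1 (by positivity)
    rw [h2, hwy0]
    linarith
  -- step 3
  have hcl := isClosed_HP (e i) (inner ℝ x (e i))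
  have hG1 := flow_gsub hD.hm1 hcl
  have hpos : 0 < g1 * (2 + L + 2 * M) := by
    have h2 := hD.hm.one_le
    have h3 := hD.hm.one_le'
    have h4 := hD.g1_pos
    have : 0 < 2 + L + 2 * M := by linarith
    positivity
  have h2 := loc_room hD.hm hD.hm1 hpos hD.g1_pos hD.g1_le le_rfl hD.room hG1.sub
    (A := closedBall z r) isClosed_closedBall (x0 := w) (rho := 2 * Mq * tau) ?_ ht0.le
    (show (w, tau) ∈ Flow h1 (HP (e i) (inner ℝ x (e i))) from step2) ?_
  · exact h2 (mem_closedBall_self hD.g1_pos.le)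
  · intro y hy hyS
    rw [mem_ball, dist_eq_norm] at hy
    refine step1 y hy ?_
    have h3 : inner ℝ y (e i) ≤ inner ℝ x (e i) := hG1.init y hyS
    rw [inner_sub_left]
    linarith
  · rw [sub_self, norm_zero, ← hMq]
    have h3 : 100 * 128 ≤ Mq * tau := mul_le_mul hMp ht128 (by norm_num) (by linarith)
    linarith

end Pool.Agent.FCF
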