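import Pool.Agent.FCF.ExpGrow

/-!
# FCF / ExpIter: iteration of the growth step; fineness from density of good points

`cExp M g1 gam = min (gam/(16 M'^2)) (1/(5 (2M+4)))`, `M' = Mp M g1`.

PROOF of `ball_expand`. `c1 = cExp`. Radii `r_0 = r`, `r_{j+1} = r_j + gam c1 r_j/2`, times `t_0 = 0`, `t_{j+1} = t_j + c1 r_j`. Then `r_j = r + gam t_j/2`.
Claim: if `t_j ≤ sig r`, then `closedBall z r_j ⊆ E h (closedBall z r) t_j` (induction: `grow_step` with radius `r_j ≤ r + gam sig r/2 = 51 r`, `tau = c1 r_j ≥ c1 r`, `E_add`, `E_mono`).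
`r_j ≥ r (1 + j gam c1/2)`, so `t_j → ∞`; let `n` be the last index with `t_n ≤ sig r`, `s = sig r - t_n < c1 r_n`. Then `r_n (1 + gam c1/2) = r + gam (t_n + c1 r_n)/2 ≥ r + gam sig r/2 = 51 r`,
`gam c1/2 ≤ 1/40`, so `r_n ≥ 40 r`. For `‖x - z‖ ≤ 10 r`: `closedBall x (1 + (2M+4) s) ⊆ closedBall z r_n` since `10 r + 1 + (2M+4) s ≤ 11 r + r_n/5 ≤ r_n`. `inner_large` and `E_add`.
-/

set_option autoImplicit false

namespace Pool.Agent.FCF

open Pool.Agent.VSC (V J LowJet)
open Set Metric Filter Topology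

/-- Time constant of a growth step. -/
noncomputable def cExp (M g1 gam : ℝ) : ℝ := min (gam / (16 * Mp M g1 ^ 2)) (1 / (5 * (2 * M + 4)))

theorem cExp_pos {M g1 gam : ℝ} (h1M : 1 ≤ M) (hg0 : 0 < g1) (hgam : 0 < gam) :
    0 < cExp M g1 gam := by
  have h := Mp_pos h1M hg0
  exact lt_min (by positivity) (by positivity)

theorem ball_expand {M L : ℝ} {h h1 : V → ℝ} {g1 gam : ℝ} {m : ℕ} {e : Fin m → V}
    {g : Fin m → ℝ} (hD : Dirs M L h h1 g1 gam e g) {T r : ℝ} (hr : 1 ≤ r)
    (hT : T ≤ cExp M g1 gam * r) (ht1 : 32 / gam ≤ cExp M g1 gam * r) {z : V}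
    (hx : ∀ i, ∀ y : V, ‖y - z‖ ≤ 102 * r → ∃ x : V, ‖x - y‖ ≤ gam * cExp M g1 gam / 16 * r ∧
      HGood h1 (e i) (g i) T x) :
    closedBall z (10 * r) ⊆ E h (closedBall z r) (100 / gam * r) := by
  have h1M := hD.hm.one_le
  have hgam := hD.gam_pos
  have hr0 : 0 < r := by linarith
  have hc0 := cExp_pos h1M hD.g1_pos hgam
  have hMp := Mp_pos h1M hD.g1_pos
  set c1 := cExp M g1 gam with hc1
  have hca : c1 ≤ gam / (16 * Mp M g1 ^ 2) := min_le_left _ _
  have hcb : c1 ≤ 1 / (5 * (2 * M + 4)) := min_le_right _ _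
  have hcb' : c1 * (5 * (2 * M + 4)) ≤ 1 := (le_div_iff₀ (by positivity)).1 hcb
  -- `gam ≤ 1/4`
  have hg4 : gam ≤ 1 / 4 := by
    obtain ⟨v, hv⟩ := exists_norm_eq V (zero_le_one (α := ℝ))
    obtain ⟨i, -⟩ := hD.cover v hv
    exact (hD.gam_le i).trans (hD.g_le i)
  set q := 1 + gam * c1 / 2 with hq
  have hq1 : 1 < q := by
    have : 0 < gam * c1 / 2 := by positivity
    linarith
  set R : ℕ → ℝ := fun j => r * q ^ j with hR
  set t : ℕ → ℝ := fun j => (R j - r) * (2 / gam) with ht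
  have hR0 : R 0 = r := by simp [hR]
  have hRr : ∀ j, r ≤ R j := fun j => le_mul_of_one_le_right hr0.le (one_le_pow₀ hq1.le)
  have hRs : ∀ j, R (j + 1) = R j + gam * (c1 * R j) / 2 := by
    intro j
    simp only [hR, pow_succ, hq]
    ring
  have hts : ∀ j, t (j + 1) = t j + c1 * R j := by
    intro j
    simp only [ht, hRs]
    field_simp
    ring
  have ht0 : ∀ j, 0 ≤ t j := fun j => mul_nonneg (sub_nonneg.2 (hRr j)) (by positivity)
  have hRt : ∀ j, R j = r + gam * t j / 2 := by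
    intro j
    simp only [ht]
    field_simp
    ring
  have hclaim : ∀ j, t j ≤ 100 / gam * r → closedBall z (R j) ⊆ E h (closedBall z r) (t j) := by
    intro j
    induction j with
    | zero =>
      intro _
      have e1 : t 0 = 0 := by simp [ht, hR0]
      rw [e1, hR0, E_zero hD.hm isClosed_closedBall]
    | succ j ih =>
      intro hj
      have hRj0 : 0 < R j := hr0.trans_le (hRr j)
      have hcR : 0 < c1 * R j := by positivity
      have hj' : t j ≤ 100 / gam * r := by
        rw [hts] at hj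
        linarith
      have h51 : R j ≤ 51 * r := by
        rw [hRt j]
        have : gam * t j ≤ gam * (100 / gam * r) := by gcongr
        have e : gam * (100 / gam * r) = 100 * r := by field_simp
        linarith
      have hcr : c1 * r ≤ c1 * R j := by gcongr; exact hRr j
      have h2 := grow_step hD (T := T) (tau := c1 * R j) (r := R j) (hT.trans hcr) (ht1.trans hcr)
        (by gcongr) (z := z) (fun i y hy => by
          obtain ⟨x, hx1, hx2⟩ := hx i y (by linarith)
          refine ⟨x, hx1.trans ?_, hx2⟩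
          have : gam * (c1 * r) / 16 ≤ gam * (c1 * R j) / 16 := by gcongr
          calc gam * c1 / 16 * r = gam * (c1 * r) / 16 := by ring
            _ ≤ _ := this)
      rw [hRs j, hts j, E_add hD.hm isClosed_closedBall (ht0 j) hcR.le]
      exact h2.trans (E_mono (ih hj') _)
  -- the last index
  have hex : ∃ j, 100 / gam * r < t j := by
    obtain ⟨j, hj⟩ := pow_unbounded_of_one_lt 51 hq1
    refine ⟨j, ?_⟩
    have h3 : 51 * r < R j := by
      have : r * 51 < r * q ^ j := mul_lt_mul_of_pos_left hj hr0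
      simp only [hR]
      linarith
    rw [hRt j] at h3
    have h4 : 100 * r < gam * t j := by linarith
    have h5 : 100 / gam * r = 100 * r / gam := by ring
    rw [h5, div_lt_iff₀ hgam]
    linarith
  classical
  obtain ⟨N, hN1, hN2⟩ : ∃ N, 100 / gam * r < t N ∧ ∀ k < N, ¬ 100 / gam * r < t k :=
    ⟨Nat.find hex, Nat.find_spec hex, fun k hk => Nat.find_min hex hk⟩
  have hN0 : N ≠ 0 := by
    rintro rfl
    have e1 : t 0 = 0 := by simp [ht, hR0]
    rw [e1] at hN1
    have : 0 < 100 / gam * r := by positivity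
    linarith
  obtain ⟨n, rfl⟩ := Nat.exists_eq_succ_of_ne_zero hN0
  have hn : t n ≤ 100 / gam * r := not_lt.1 (hN2 n (Nat.lt_succ_self n))
  have hbig : 51 * r < R (n + 1) := by
    rw [hRt (n + 1)]
    have e : gam * (100 / gam * r) = 100 * r := by field_simp
    have : gam * (100 / gam * r) < gam * t (n + 1) := by
      have := hN1
      gcongr
    linarith
  have hRn0 : 0 < R n := hr0.trans_le (hRr n)
  have hRn : 40 * r ≤ R n := by
    rw [hRs n] at hbig
    have h6 : gam * (c1 * R n) / 2 ≤ R n / 40 := by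
      have h7 : c1 ≤ 1 / 5 := by
        have : 0 ≤ c1 * (2 * M) := by positivity
        nlinarith
      have h8 : gam * c1 ≤ 1 / 4 * (1 / 5) := by gcongr
      nlinarith
    linarith
  set s := 100 / gam * r - t n with hs
  have hs0 : 0 ≤ s := sub_nonneg.2 hn
  have hs1 : s < c1 * R n := by
    have := hN1
    rw [Nat.succ_eq_add_one, hts] at this
    linarith
  have hs2 : (2 * M + 4) * s ≤ R n / 5 := by
    have h7 : (2 * M + 4) * s ≤ (2 * M + 4) * (c1 * R n) := by gcongr
    have h8 : (2 * M + 4) * (c1 * R n) ≤ R n / 5 := by nlinarith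
    linarith
  intro x hxz
  rw [mem_closedBall, dist_eq_norm] at hxz
  have e1 : 100 / gam * r = t n + s := by rw [hs]; ring
  rw [e1, E_add hD.hm isClosed_closedBall (ht0 n) hs0]
  refine inner_large hD.hm (r := 1 + (2 * M + 4) * s) ?_ ?_ hs0 ?_
  · have : 0 ≤ (2 * M + 4) * s := by positivity
    linarith
  · refine subset_trans ?_ (hclaim n hn)
    intro y hy
    rw [mem_closedBall, dist_eq_norm] at hy ⊢
    have : ‖y - z‖ ≤ ‖y - x‖ + ‖x - z‖ := norm_sub_le_norm_sub_add_norm_sub _ _ _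
    linarith
  · rw [add_sub_cancel_left, mul_div_cancel_left₀ _ (by positivity)]

/-- Fineness from density of good points. -/
theorem fine_of_dense {M L : ℝ} {h h1 : V → ℝ} {g1 gam : ℝ} {m : ℕ} {e : Fin m → V}
    {g : Fin m → ℝ} (hD : Dirs M L h h1 g1 gam e g) {T r Cs : ℝ} (hr : 1 ≤ r)
    (hT : T ≤ cExp M g1 gam * r) (ht1 : 32 / gam ≤ cExp M g1 gam * r) {x0 : V}
    (hx : ∀ i, ∀ y : V, ‖y - x0‖ ≤ (Cs + 102) * r → ∃ x : V,
      ‖x - y‖ ≤ gam * cExp M g1 gam / 16 * r ∧ HGood h1 (e i) (g i) T x) :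
    Fine h (100 / gam) Cs x0 r := by
  intro z hz
  refine ball_expand hD hr hT ht1 (fun i y hy => hx i y ?_)
  have : ‖y - x0‖ ≤ ‖y - z‖ + ‖z - x0‖ := norm_sub_le_norm_sub_add_norm_sub _ _ _
  linarith

end Pool.Agent.FCF
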