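import Pool.Agent.FCF.Bump
import Pool.Agent.FCF.Inner

/-!
# FCF / ExpLoc: localisation with room (FCF_PROOF.md, 2.2)

`S` is a global `h1`-subflow, `h ≥ h1 + eps0`, and the `g1`-neighbourhood of `S_0 ∩ B(x0,ρ)` is in
`A`. Then the `g1`-neighbourhood of `S_t ∩ B(x0, ρ - 5 - M' t)` is in `E h A t`, `M' = Mp`.

PROOF. Step length `η = hM M (g1/4) / 2`, `5/η = Mp`. Induction on `n`: for `0 ≤ t ≤ n η` and
`‖x - x0‖ ≤ ρ - 5 n`, `(x,t) ∈ S`: `closedBall x g1 ⊆ E h A t`. For `n = 0`: `t = 0`, `E_zero`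
(the hypothesis is for `‖x - x0‖ < ρ`; so use `‖x-x0‖ < ρ - 5 n`). Step: if `t ≤ η` use
`loc_step` directly (with `x` in the role of `x0`, `s0 = 0`, `A`). If `t > η` let `s = t - η`... use
the induction hypothesis for the times `≤ n η` and `loc_step` with `s0 = t - η' `, `η' = min η t`,
`A' = E h A s0` and `E_add`. Number of steps for `t`: `n = ⌈t/η⌉ ≤ t/η + 1`.
-/

set_option autoImplicit false

namespace Pool.Agent.FCF

open Pool.Agent.VSC (V J LowJet)
open Set Metric Filter Topology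

/-- The localisation speed. -/
noncomputable def Mp (M g1 : ℝ) : ℝ := 10 / hM M (g1 / 4)

theorem Mp_pos {M g1 : ℝ} (h1M : 1 ≤ M) (hg0 : 0 < g1) : 0 < Mp M g1 := by
  have h := hM_pos h1M (show 0 < g1 / 4 by linarith)
  unfold Mp
  positivity

theorem Mp_ge {M g1 : ℝ} (h1M : 1 ≤ M) (hg0 : 0 < g1) (hg1 : g1 ≤ 1 / 4) : 100 ≤ Mp M g1 := by
  have h := hM_pos h1M (show 0 < g1 / 4 by linarith)
  unfold Mp
  rw [le_div_iff₀ h]
  have hden : 0 < 2 + 2 * (M + 1) * (g1 / 4) := by nlinarith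
  have h2 : (2 + 2 * (M + 1) * (g1 / 4)) * hM M (g1 / 4) = (g1 / 4) ^ 2 := by
    unfold hM
    field_simp
  have h3 : 0 ≤ 2 * (M + 1) * (g1 / 4) * hM M (g1 / 4) := by
    have : 0 < M + 1 := by linarith
    positivity
  nlinarith

theorem loc_room {M L : ℝ} {h h1 : V → ℝ} (hm : Med M L h) (hm1 : Med M L h1) {eps0 g1 : ℝ}
    (he : 0 < eps0) (hg0 : 0 < g1) (hg1 : g1 ≤ 1 / 4) (hg2 : g1 * (2 + L + 2 * M) ≤ eps0)
    (hle : ∀ x, h1 x + eps0 ≤ h x) {S : Set (V × ℝ)} (hS : SubIn h1 univ 0 S) {A : Set V}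
    (hA : IsClosed A) {x0 : V} {rho : ℝ}
    (hN : ∀ x ∈ ball x0 rho, (x, (0 : ℝ)) ∈ S → closedBall x g1 ⊆ A) {t : ℝ} (ht : 0 ≤ t) {x : V}
    (hx : (x, t) ∈ S) (hxr : ‖x - x0‖ < rho - 5 - Mp M g1 * t) : closedBall x g1 ⊆ E h A t := by
  have hpos := hM_pos hm.one_le (show 0 < g1 / 4 by linarith)
  set η : ℝ := hM M (g1 / 4) / 2 with hη
  have hη0 : 0 < η := by positivity
  have hηlt : η < hM M (g1 / 4) := by linarith
  have hMp : Mp M g1 = 5 / η := by
    unfold Mp
    rw [hη]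
    field_simp
    norm_num
  have key : ∀ n : ℕ, ∀ t : ℝ, 0 ≤ t → t ≤ n * η → ∀ x : V, (x, t) ∈ S →
      ‖x - x0‖ < rho - 5 * n → closedBall x g1 ⊆ E h A t := by
    intro n
    induction n with
    | zero =>
      intro t ht0 ht1 x hx hxr
      have ht : t = 0 := le_antisymm (by simpa using ht1) ht0
      subst ht
      rw [E_zero hm hA]
      exact hN x (by
        rw [mem_ball, dist_eq_norm]
        simpa using hxr) hx
    | succ n ih =>
      intro t ht0 ht1 x hx hxr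
      push_cast at ht1 hxr
      have hn0 : (0 : ℝ) ≤ n := Nat.cast_nonneg n
      have htri : ∀ x' ∈ ball x 5, ‖x' - x0‖ < rho - 5 * n := by
        intro x' hx'
        rw [mem_ball, dist_eq_norm] at hx'
        have h1 : ‖x' - x0‖ ≤ ‖x' - x‖ + ‖x - x0‖ := by
          have : x' - x0 = (x' - x) + (x - x0) := by abel
          rw [this]
          exact norm_add_le _ _
        linarith
      rcases le_or_gt t η with htη | htη
      · refine loc_step hm hm1 he hg0 hg1 hg2 hle (s0 := 0)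
          (hS.restrict (subset_univ _) le_rfl) hA ?_ ht0 (by linarith) (by rw [zero_add]; exact hx)
        intro x' hx' hx'S
        refine hN x' ?_ hx'S
        rw [mem_ball, dist_eq_norm]
        have := htri x' hx'
        linarith
      · have hs0 : 0 ≤ t - η := by linarith
        have h2 := loc_step hm hm1 he hg0 hg1 hg2 hle (x0 := x) (s0 := t - η)
          (hS.restrict (subset_univ _) hs0) (isClosed_E h A (t - η)) ?_ hη0.le hηlt
          (by rw [sub_add_cancel]; exact hx)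
        · rw [← E_add hm hA hs0 hη0.le, sub_add_cancel] at h2
          exact h2
        · intro x' hx' hx'S
          exact ih (t - η) hs0 (by linarith) x' hx'S (htri x' hx')
  have hn1 : t / η ≤ (⌈t / η⌉₊ : ℝ) := Nat.le_ceil _
  have hn2 : (⌈t / η⌉₊ : ℝ) < t / η + 1 := Nat.ceil_lt_add_one (by positivity)
  refine key ⌈t / η⌉₊ t ht ?_ x hx ?_
  · rwa [div_le_iff₀ hη0] at hn1
  · rw [hMp] at hxr
    have h3 : 5 / η * t = 5 * (t / η) := by ring
    rw [h3] at hxr
    linarith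

end Pool.Agent.FCF
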