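import Pool.Agent.FCF.ExpDens
import Pool.Agent.FCF.ExpBad
import Pool.Agent.FCF.ExpDir

/-!
# FCF / ExpPar: assembly of chunk EXP: `exists_par` (Iface2)

PROOF. `F1` from `hyp`. `F' = (F + F1)/2`, `M_p = 1 + M + |F| + |F1|` (`|F'| ≤ |F| + |F1|`), `L_p = max 1 L`, `eps0 = (F - F1)/2`, `g1 = min (1/4) (eps0/(2 + L_p + 2 M_p))`.
`exists_dirs` with `Mp = Mp M_p g1`, `G e g = ∀ᵐ c ∂μ, SpdG (frc c F1) e (2 g)` (`spd_unif`, `SpdG.mono`). `m ≠ 0` (there is a unit vector). `gam = min_i g_i > 0` (`Finset.exists_min_image`), `sig = 100/gam ≥ 400`.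
`p = ⟨M_p, L_p, F, F', 100/gam, ..⟩`. `Dirs` holds for all `c`. `fineLarge_ae`, `badRect_ae`, `spd2_of_spd` (from `Spd (F1)` and `SpdG.mono_force`).
-/

set_option autoImplicit false

namespace Pool.Agent.FCF

open Pool.Agent.VSC (V J LowJet)
open Set Metric MeasureTheory Filter Topology EnvT

theorem expPar_med {M L F M' L' : ℝ} (hM : M + |F| ≤ M') (hM1 : 1 ≤ M') (hL : L ≤ L')
    (hL1 : 1 ≤ L') (c : EnvT M L) : Med M' L' (frc c.1 F) where
  one_le := hM1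
  one_le' := hL1
  bd := fun x => by
    have h1 := c.2.1 x
    have h2 := abs_add_le (c.1 x) F
    show |c.1 x + F| ≤ _
    linarith
  lip := fun x y => by
    have h1 := c.2.2 x y
    have h2 : |frc c.1 F x - frc c.1 F y| = |c.1 x - c.1 y| := by
      show |c.1 x + F - (c.1 y + F)| = _
      congr 1
      ring
    rw [h2]
    exact h1.trans (mul_le_mul_of_nonneg_right hL (norm_nonneg _))

theorem exists_par {M L F : ℝ} (hM : 0 ≤ M) (hL : 0 ≤ L) {μ : Measure (EnvT M L)} (hμ : Erg μ)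
    (hyp : ∃ F1 : ℝ, F1 < F ∧ ∀ e : V, ‖e‖ = 1 → ∀ᵐ c ∂μ, Spd (frc c.1 F1) e) :
    ∃ p : Par, p.F = F ∧ (∀ c : EnvT M L, p.Env c.1) ∧
      (∀ᵐ c ∂μ, FineLarge p c.1 ∧ BadRect p c.1) ∧
      (∀ e : V, ‖e‖ = 1 → ∀ᵐ c ∂μ, Spd2 (frc c.1 p.F) e) := by
  obtain ⟨F1, hF1, hs⟩ := hyp
  set M2 : ℝ := 1 + M + |F| + |F1| with hM2
  have hM21 : 1 ≤ M2 := by
    have := abs_nonneg F
    have := abs_nonneg F1
    linarith
  have hL2 : 0 ≤ max 1 L := le_trans zero_le_one (le_max_left _ _)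
  set g1 : ℝ := min (1 / 4) ((F - F1) / 2 / (2 + max 1 L + 2 * M2)) with hg1
  have hg1p : 0 < g1 := lt_min (by norm_num) (by
    have : 0 < F - F1 := sub_pos.2 hF1
    positivity)
  have hg1l : g1 ≤ 1 / 4 := min_le_left _ _
  have hg1r : g1 * (2 + max 1 L + 2 * M2) ≤ (F - F1) / 2 := by
    have h1 : g1 ≤ (F - F1) / 2 / (2 + max 1 L + 2 * M2) := min_le_right _ _
    rwa [le_div_iff₀ (by positivity)] at h1
  obtain ⟨m, e, g, he, hcov⟩ := exists_dirs (Mp_pos hM21 hg1p)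
    (fun v g => ∀ᵐ c ∂μ, SpdG (frc c.1 F1) v (2 * g)) (fun v hv => by
      obtain ⟨g, hg, hgs⟩ := spd_unif hμ hv (hs v hv)
      refine ⟨g / 2, by positivity, ?_⟩
      have e1 : 2 * (g / 2) = g := by ring
      rw [e1]
      exact hgs) (fun v g g' hg' hgg hG => by
      filter_upwards [hG] with c hc
      exact hc.mono (by linarith))
  obtain ⟨v0, hv0⟩ := exists_norm_eq V (zero_le_one (α := ℝ))
  obtain ⟨i0, -⟩ := hcov v0 hv0
  obtain ⟨i1, -, hi1⟩ := Finset.exists_min_image Finset.univ g ⟨i0, Finset.mem_univ _⟩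
  have hgam : 0 < g i1 := (he i1).2.1
  have hgam4 : g i1 ≤ 1 / 4 := (he i1).2.2.1
  have hsig1 : 1 ≤ 100 / g i1 := by
    rw [le_div_iff₀ hgam]
    linarith
  let p : Par := ⟨M2, max 1 L, F, (F + F1) / 2, 100 / g i1, hM21, le_max_left _ _, by linarith,
    hsig1⟩
  have hmF : ∀ c : EnvT M L, Med M2 (max 1 L) (frc c.1 F) := fun c => by
    refine expPar_med ?_ hM21 (le_max_right _ _) (le_max_left _ _) c
    have := abs_nonneg F1
    linarith
  have hmF1 : ∀ c : EnvT M L, Med M2 (max 1 L) (frc c.1 F1) := fun c => by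
    refine expPar_med ?_ hM21 (le_max_right _ _) (le_max_left _ _) c
    have := abs_nonneg F
    linarith
  have hmF' : ∀ c : EnvT M L, Med M2 (max 1 L) (frc c.1 ((F + F1) / 2)) := fun c => by
    refine expPar_med ?_ hM21 (le_max_right _ _) (le_max_left _ _) c
    have h1 : |(F + F1) / 2| = |F + F1| / 2 := by
      rw [abs_div, abs_of_pos (two_pos : (0 : ℝ) < 2)]
    have h2 := abs_add_le F F1
    have := abs_nonneg F
    have := abs_nonneg F1
    rw [h1]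
    linarith
  have hD : ∀ c : EnvT M L, Dirs p.M p.L (frc c.1 p.F') (frc c.1 F1) g1 (g i1) e g := fun c => by
    refine ⟨hmF' c, hmF1 c, hg1p, hg1l, fun x => ?_, fun i => (he i).1, hgam, fun i =>
      hi1 i (Finset.mem_univ _), fun i => (he i).2.2.1, hcov⟩
    show c.1 x + F1 + g1 * (2 + max 1 L + 2 * M2) ≤ c.1 x + (F + F1) / 2
    linarith
  have hfl : ∀ᵐ c ∂μ, FineLarge p c.1 := fineLarge_ae hμ (p := p) rfl hD (fun i => (he i).2.2.2)
  refine ⟨p, rfl, fun c => ⟨hmF c, hmF' c⟩, ?_, fun e he => spd2_of_spd hμ he ?_⟩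
  · filter_upwards [hfl, badRect_ae hμ hfl] with c h1 h2
    exact ⟨h1, h2⟩
  · filter_upwards [hs e he] with c hc
    obtain ⟨g, hg, hgs⟩ := hc
    refine ⟨g, hg, SpdG.mono_force (fun x => ?_) hgs⟩
    show c.1 x + F1 ≤ c.1 x + F
    linarith

end Pool.Agent.FCF
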