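import Pool.Agent.FCF.EnvDefs
import Pool.Agent.FCF.Inner
import Pool.Agent.FCF.EnvEvent

/-!
# FCF / ExpSpd: speeds of half planes, zero-one law (FCF_PROOF.md, 2.1)

* `SpdG.mono`: `HP e (g' t) ⊆ HP e (g t)` for `t ≥ 0` (enlarge `T0` to `max T0 0`).
* `SpdG.shift_mono`: by `E_shift`, `SpdG (h (y + ·)) e g` means: `HP e (y.e + g t) ⊆ E h (HP e (y.e)) t` for `t ≥ T0`. If `y.e ≤ y'.e`, `g' < g`, then for large `t`
  `HP e (y'.e + g' t) ⊆ HP e (y.e + g t) ⊆ E h (HP e (y.e)) t ⊆ E h (HP e (y'.e)) t`.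
* `measurableSet_spdG`: `SpdG h e g ↔ ∃ n : ℕ, ∀ t ≥ n, HP e (g t) ⊆ E h (HP e 0) t`; countable union of closed sets (`isClosed_event_flow`).
* `spd_zero_one`: `A = {c | ∃ g' > g, SpdG (frc c F) e g'}` is measurable (`g' = g + 1/(k+1)` suffices). `A_n = shift (n e) ⁻¹' A` is increasing in `n` and `μ (A_n) = μ A` (`hμ.inv`). The union
  `A' = ⋃ n, A_n` is invariant under all shifts (`shift_add`, `SpdG.shift_mono`: `shift y c ∈ A'` iff `∃ n, shift (y + n e) c ∈ A` iff `∃ n, shift (n e) c ∈ A`). So `μ A' ∈ {0,1}`,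
  and `μ A' = lim μ (A_n) = μ A` (monotone union). If it is `1` then `A` has full measure (probability measure), if `0` then null.
-/

set_option autoImplicit false

namespace Pool.Agent.FCF

open Pool.Agent.VSC (V J LowJet)
open Set Metric MeasureTheory Filter Topology EnvT

/-- The half plane `HP e 0` expands with speed `g` from some time on. -/
def SpdG (h : V → ℝ) (e : V) (g : ℝ) : Prop :=
  ∃ T0 : ℝ, ∀ t : ℝ, T0 ≤ t → HP e (g * t) ⊆ E h (HP e 0) t

theorem spd_iff (h : V → ℝ) (e : V) : Spd h e ↔ ∃ g : ℝ, 0 < g ∧ SpdG h e g := Iff.rfl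

theorem SpdG.mono {h : V → ℝ} {e : V} {g g' : ℝ} (hs : SpdG h e g) (hg : g' ≤ g) :
    SpdG h e g' := by
  obtain ⟨T0, hT⟩ := hs
  refine ⟨max T0 0, fun t ht x hx => hT t ((le_max_left _ _).trans ht) ?_⟩
  have h0 : 0 ≤ t := (le_max_right _ _).trans ht
  exact le_trans hx (mul_le_mul_of_nonneg_right hg h0)

theorem SpdG.mono_force {h h' : V → ℝ} (hle : ∀ x, h x ≤ h' x) {e : V} {g : ℝ}
    (hs : SpdG h e g) : SpdG h' e g := by
  obtain ⟨T0, hT⟩ := hs
  exact ⟨T0, fun t ht => (hT t ht).trans (E_mono_force hle _ _)⟩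

private theorem expSpd_HP (e y : V) : {x : V | y + x ∈ HP e (inner ℝ y e)} = HP e 0 := by
  ext x
  simp only [HP, mem_ofPred_eq, inner_add_left]
  constructor
  · intro h; linarith
  · intro h; linarith

theorem SpdG.shift_mono {h : V → ℝ} {e y y' : V} (hyy : inner ℝ y e ≤ inner ℝ y' e) {g g' : ℝ}
    (hg : g' < g) (hs : SpdG (fun x => h (y + x)) e g) : SpdG (fun x => h (y' + x)) e g' := by
  obtain ⟨T0, hT⟩ := hs
  have hg0 : 0 < g - g' := sub_pos.2 hg
  refine ⟨max T0 ((inner ℝ y' e - inner ℝ y e) / (g - g')), fun t ht x hx => ?_⟩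
  have h1 : T0 ≤ t := (le_max_left _ _).trans ht
  have h2 : (inner ℝ y' e - inner ℝ y e) / (g - g') ≤ t := (le_max_right _ _).trans ht
  rw [div_le_iff₀ hg0] at h2
  have h3 : (y' + x) - y ∈ HP e (g * t) := by
    have hx' : inner ℝ x e ≤ g' * t := hx
    show inner ℝ ((y' + x) - y) e ≤ g * t
    rw [inner_sub_left, inner_add_left]
    nlinarith
  have h4 := hT t h1 h3
  rw [← expSpd_HP e y, E_shift, add_sub_cancel] at h4
  rw [← expSpd_HP e y', E_shift]
  refine E_mono ?_ t h4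
  intro z hz
  exact le_trans hz hyy

private theorem isClosed_HP (e : V) (a : ℝ) : IsClosed (HP e a) :=
  isClosed_le (continuous_id.inner continuous_const) continuous_const

theorem measurableSet_spdG {M L : ℝ} (F : ℝ) (e : V) (g : ℝ) :
    MeasurableSet {c : EnvT M L | SpdG (frc c.1 F) e g} := by
  have h : {c : EnvT M L | SpdG (frc c.1 F) e g} =
      ⋃ n : ℕ, {c : EnvT M L | ∀ t ∈ Ici (n : ℝ), HP e (g * t) ⊆ E (frc c.1 F) (HP e 0) t} := by
    ext c
    simp only [SpdG, mem_ofPred_eq, mem_iUnion, mem_Ici]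
    constructor
    · rintro ⟨T0, hT⟩
      obtain ⟨n, hn⟩ := exists_nat_ge T0
      exact ⟨n, fun t ht => hT t (hn.trans ht)⟩
    · rintro ⟨n, hn⟩
      exact ⟨n, hn⟩
  rw [h]
  exact MeasurableSet.iUnion fun n =>
    (isClosed_event_flow F (isClosed_HP e 0) (fun t => HP e (g * t)) (Ici (n : ℝ))).measurableSet

theorem spd_zero_one {M L : ℝ} {μ : Measure (EnvT M L)} (hμ : Erg μ) (F : ℝ) {e : V}
    (he : ‖e‖ = 1) (g : ℝ) :
    (∀ᵐ c ∂μ, ∃ g' : ℝ, g < g' ∧ SpdG (frc c.1 F) e g') ∨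
      (∀ᵐ c ∂μ, ¬ ∃ g' : ℝ, g < g' ∧ SpdG (frc c.1 F) e g') := by
  haveI := hμ.prob
  set A : Set (EnvT M L) := {c | ∃ g' : ℝ, g < g' ∧ SpdG (frc c.1 F) e g'} with hA
  have hAm : MeasurableSet A := by
    have h : A = ⋃ k : ℕ, {c : EnvT M L | SpdG (frc c.1 F) e (g + 1 / ((k : ℝ) + 1))} := by
      ext c
      simp only [hA, mem_ofPred_eq, mem_iUnion]
      constructor
      · rintro ⟨g', hg', hs⟩
        obtain ⟨k, hk⟩ := exists_nat_one_div_lt (sub_pos.2 hg')
        exact ⟨k, hs.mono (by linarith)⟩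
      · rintro ⟨k, hk⟩
        exact ⟨_, by
          have : (0 : ℝ) < 1 / ((k : ℝ) + 1) := by positivity
          linarith, hk⟩
    rw [h]
    exact MeasurableSet.iUnion fun k => measurableSet_spdG F e _
  -- monotonicity in the shift
  have hmono : ∀ (c : EnvT M L) (y y' : V), inner ℝ y e ≤ inner ℝ y' e → shift y c ∈ A →
      shift y' c ∈ A := by
    rintro c y y' hyy ⟨g', hg', hs⟩
    refine ⟨(g + g') / 2, by linarith, ?_⟩
    exact SpdG.shift_mono (h := frc c.1 F) hyy (by linarith) hs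
  have hin : ∀ n : ℕ, inner ℝ ((n : ℝ) • e) e = n := by
    intro n
    rw [real_inner_smul_left, real_inner_self_eq_norm_sq, he]
    ring
  set B : ℕ → Set (EnvT M L) := fun n => shift ((n : ℝ) • e) ⁻¹' A with hB
  have hBmono : Monotone B := by
    intro n m hnm c hc
    refine hmono c _ _ ?_ hc
    rw [hin, hin]
    exact_mod_cast hnm
  have hBμ : ∀ n, μ (B n) = μ A := fun n =>
    (hμ.inv ((n : ℝ) • e)).measure_preimage hAm.nullMeasurableSet
  have hU : μ (⋃ n, B n) = μ A := by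
    rw [hBmono.measure_iUnion]
    simp [hBμ]
  have hUm : MeasurableSet (⋃ n, B n) :=
    MeasurableSet.iUnion fun n => (hμ.inv ((n : ℝ) • e)).measurable hAm
  have hinv : ∀ y : V, shift y ⁻¹' (⋃ n, B n) = ⋃ n, B n := by
    intro y
    ext c
    simp only [mem_preimage, mem_iUnion, hB, shift_add]
    constructor
    · rintro ⟨n, hn⟩
      obtain ⟨m, hm⟩ := exists_nat_ge (inner ℝ (y + (n : ℝ) • e) e)
      exact ⟨m, hmono c _ _ (by rw [hin]; exact hm) hn⟩
    · rintro ⟨n, hn⟩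
      obtain ⟨m, hm⟩ := exists_nat_ge ((n : ℝ) - inner ℝ y e)
      refine ⟨m, hmono c _ _ ?_ hn⟩
      rw [inner_add_left, hin, hin]
      linarith
  rcases hμ.erg _ hUm hinv with h0 | h1
  · right
    rw [hU] at h0
    exact measure_eq_zero_iff_ae_notMem.1 h0
  · left
    rw [hU] at h1
    exact (mem_ae_iff_prob_eq_one hAm).2 h1

end Pool.Agent.FCF
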