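import Pool.Agent.VSC.LSub

/-!
# Homogenization of forced curvature flow in the plane: definitions of the final statement

`V = EuclideanSpace ℝ (Fin 2)` is the plane. `ViscSub f u` and `ViscSuper f u` (file VSC/LSub) say that
`u : V × ℝ → ℝ` is a viscosity sub-, super-solution of
`u_t = tr((I - Du ⊗ Du / |Du|²) D²u) + f(x) |Du|` for positive times.
-/

set_option autoImplicit false

namespace Pool.Agent.FCF

open Pool.Agent.VSC (V ViscSub ViscSuper)
open MeasureTheory Filter Topology
open scoped Pointwise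

/-- `u` is the level set function, for the force field `f`, of the interface which starts from the
line `x · e = 0`: it is continuous for times `≥ 0`, equals `-x · e` at time `0`, and is a viscosity
solution of `u_t = tr((I - Du ⊗ Du / |Du|²) D²u) + f |Du|` for positive times. -/
structure IsSol (f : V → ℝ) (e : V) (u : V × ℝ → ℝ) : Prop where
  cont : ContinuousOn u {z | 0 ≤ z.2}
  init : ∀ x : V, u (x, 0) = -inner ℝ x e
  sub : ViscSub f u
  super : ViscSuper f u

/-- The interface `Γ_t = ∂ S_t` at time `t`, where `S_t = {x | 0 ≤ u (x, t)}`. -/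
def Front (u : V × ℝ → ℝ) (t : ℝ) : Set V := frontier {x | 0 ≤ u (x, t)}

/-- The lower speed `c_* = liminf_{t → ∞} inf_{x ∈ Γ_t} x · e / t`. -/
noncomputable def cStar (e : V) (u : V × ℝ → ℝ) : EReal :=
  liminf (fun t : ℝ => ⨅ x ∈ Front u t, ((inner ℝ x e / t : ℝ) : EReal)) atTop

/-- The critical force `F_{*,s}(e, c) = inf {F : c_*(F, c) > 0}` of the medium `c` in the
direction `e`. -/
noncomputable def Fcrit (e : V) (c : V → ℝ) : EReal :=
  sInf {a : EReal | ∃ (F : ℝ) (u : V × ℝ → ℝ), a = (F : EReal) ∧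
    IsSol (fun x => c x + F) e u ∧ 0 < cStar e u}

/-- Local Hausdorff convergence of the sets `G t` to `H` as `t → ∞`: for every radius `R` and every
`ε > 0`, for all large `t`, the part of `G t` in the ball of radius `R` lies in the
`ε`-neighbourhood of `H`, and the part of `H` in this ball in the `ε`-neighbourhood of `G t`. -/
def LocHaus (G : ℝ → Set V) (H : Set V) : Prop :=
  ∀ R ε : ℝ, 0 < ε → ∀ᶠ t in atTop, (∀ x ∈ G t, ‖x‖ ≤ R → ∃ y ∈ H, ‖x - y‖ ≤ ε) ∧
    ∀ y ∈ H, ‖y‖ ≤ R → ∃ x ∈ G t, ‖x - y‖ ≤ ε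

/-- Homogenization of the medium `c` with force `F` in the direction `e`, with the speed `a`:
the rescaled interfaces `Γ_t / t` converge to the line `x · e = a`; the same holds for the rescaled
zero level sets `{x | u (x, t) = 0} / t`, which may be larger. -/
def Homog (c : V → ℝ) (F : ℝ) (e : V) (a : ℝ) : Prop :=
  ∃ u : V × ℝ → ℝ, IsSol (fun x => c x + F) e u ∧
    LocHaus (fun t => t⁻¹ • Front u t) {x | inner ℝ x e = a} ∧
    LocHaus (fun t => t⁻¹ • {x | u (x, t) = 0}) {x | inner ℝ x e = a}

/-- A bounded Lipschitz function. -/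
structure BddLip (c : V → ℝ) : Prop where
  bdd : ∃ M : ℝ, ∀ x, |c x| ≤ M
  lip : ∃ L : ℝ, ∀ x y, |c x - c y| ≤ L * ‖x - y‖

/-- Periodicity with respect to some lattice. -/
def IsPer (c : V → ℝ) : Prop :=
  ∃ b₁ b₂ : V, LinearIndependent ℝ ![b₁, b₂] ∧ ∀ x, c (x + b₁) = c x ∧ c (x + b₂) = c x

/-- A stationary ergodic random medium: a random field `c` with bounded Lipschitz realizations and
measure preserving maps `τ y` with `c (τ y ω) = c ω (· + y)`, such that the measurable sets which
are invariant under all `τ y` have probability `0` or `1`. -/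
structure StatErg {Ω : Type*} [MeasurableSpace Ω] (P : Measure Ω) (τ : V → Ω → Ω)
    (c : Ω → V → ℝ) : Prop where
  prob : IsProbabilityMeasure P
  meas : ∀ x, Measurable fun ω => c ω x
  reg : ∀ ω, BddLip (c ω)
  pres : ∀ y, MeasurePreserving (τ y) P P
  shift : ∀ y ω x, c (τ y ω) x = c ω (x + y)
  erg : ∀ A : Set Ω, MeasurableSet A → (∀ y, τ y ⁻¹' A = A) → P A = 0 ∨ P A = 1

end Pool.Agent.FCF
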