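import Pool.Agent.FCF.FinShift
import Pool.Agent.FCF.FinDefs

/-!
# FCF / FinConc: from the arrival functions to the asymptotics
-/

set_option autoImplicit false

namespace Pool.Agent.FCF.Last

open Pool.Agent.VSC (V J LowJet)
open Set Metric Filter Topology

theorem asym_of_canon {p : Par} {c : V → ℝ} {e : V} (he : ‖e‖ = 1) {A0 B0 : Set V} {TE TO : V → ℝ}
    {C g : ℝ} (hcan : Canon p c e A0 B0 TE TO C g) {lam : ℝ} (hlam : 0 < lam)
    (hT : ∀ eps : ℝ, 0 < eps → ∃ R0 : ℝ, ∀ R : ℝ, R0 ≤ R → ∀ x : V, ‖x‖ ≤ R → 0 ≤ inner ℝ x e →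
      |TE x - lam * inner ℝ x e| ≤ eps * R) :
    Asym (frc c p.F) e (1 / lam) := by
  intro R ε hε
  set R' : ℝ := max R 1 with hR'
  have hR'1 : 1 ≤ R' := le_max_right _ _
  have hR'R : R ≤ R' := le_max_left _ _
  obtain ⟨R0, hR0⟩ := hT (lam * ε / (2 * R')) (by positivity)
  refine ⟨max (max R0 1) (max (6 * C / (lam * ε)) (3 * C + 1)), fun t ht x hx => ?_⟩
  have t1 : R0 ≤ t := ((le_max_left _ _).trans (le_max_left _ _)).trans ht
  have t2 : 1 ≤ t := ((le_max_right _ _).trans (le_max_left _ _)).trans ht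
  have t3 : 6 * C / (lam * ε) ≤ t := ((le_max_left _ _).trans (le_max_right _ _)).trans ht
  have t4 : 3 * C + 1 ≤ t := ((le_max_right _ _).trans (le_max_right _ _)).trans ht
  have hle : 0 < lam * ε := by positivity
  rw [div_le_iff₀ hle] at t3
  have ht0 : 0 < t := by linarith
  have hRt : R0 ≤ R' * t := by nlinarith
  have hxR : ‖x‖ ≤ R' * t := hx.trans (by nlinarith)
  have hC := hcan.one_le
  have hkey : 0 ≤ inner ℝ x e → |TE x - lam * inner ℝ x e| ≤ lam * ε * t / 2 := by
    intro h0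
    refine (hR0 (R' * t) hRt x hxR h0).trans (le_of_eq ?_)
    field_simp
  constructor
  · intro hxe hmem
    have h1 := hcan.flowO x t ht0.le hmem
    have h2 := (abs_le.1 (hcan.near x)).1
    rcases le_or_gt 0 (inner ℝ x e) with h0 | h0
    · have h3 := (abs_le.1 (hkey h0)).2
      have h4 : lam * inner ℝ x e ≤ lam * ((1 / lam - ε) * t) :=
        mul_le_mul_of_nonneg_left hxe hlam.le
      have h5 : lam * ((1 / lam - ε) * t) = t - lam * ε * t := by field_simp
      nlinarith
    · have h3 := hcan.TE_le x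
      rw [max_eq_right h0.le, zero_div, zero_add] at h3
      linarith
  · intro hxe hmem
    have h1 := hcan.flowE x t ht0.le hmem
    have h6 : 0 < 1 / lam := by positivity
    have h0 : 0 ≤ inner ℝ x e := le_trans (by positivity) hxe
    have h3 := (abs_le.1 (hkey h0)).1
    have h4 : lam * ((1 / lam + ε) * t) ≤ lam * inner ℝ x e :=
      mul_le_mul_of_nonneg_left hxe hlam.le
    have h5 : lam * ((1 / lam + ε) * t) = t + lam * ε * t := by field_simp
    nlinarith

end Pool.Agent.FCF.Last
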