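import Pool.Agent.FCF.Defs

/-!
# The gap lemma: directions outside the cone of window slopes
-/

set_option autoImplicit false

namespace Pool.Agent.FCF

open Pool.Agent.VSC (V J)
open Set Metric

private theorem inner2 (x y : V) : inner ℝ x y = x 0 * y 0 + x 1 * y 1 := by
  rw [PiLp.inner_apply, Fin.sum_univ_two]
  simp only [RCLike.inner_apply, conj_trivial]
  ring

private theorem unit2 {e : V} (he : ‖e‖ = 1) : e 0 * e 0 + e 1 * e 1 = 1 := by
  rw [← inner2, real_inner_self_eq_norm_sq, he]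
  norm_num

/-- Decomposition in the orthonormal basis `e, J e`. -/
private theorem dec {e : V} (he : ‖e‖ = 1) (x : V) :
    x = (inner ℝ x e : ℝ) • e + (inner ℝ x (J e) : ℝ) • J e := by
  have h := unit2 he
  ext i
  fin_cases i
  · simp only [inner2, PiLp.add_apply, PiLp.smul_apply, smul_eq_mul, Fin.zero_eta,
      VSC.J_zero_apply, VSC.J_one_apply]
    linear_combination (-x 0) * h
  · simp only [inner2, PiLp.add_apply, PiLp.smul_apply, smul_eq_mul, Fin.mk_one,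
      VSC.J_zero_apply, VSC.J_one_apply]
    linear_combination (-x 1) * h

private theorem inn {e : V} (he : ‖e‖ = 1) (x y : V) :
    inner ℝ x y = (inner ℝ x e : ℝ) * inner ℝ y e + (inner ℝ x (J e) : ℝ) * inner ℝ y (J e) := by
  have h := unit2 he
  simp only [inner2, VSC.J_zero_apply, VSC.J_one_apply]
  linear_combination (-(x 0 * y 0 + x 1 * y 1)) * h

private theorem nsq {e : V} (he : ‖e‖ = 1) (x : V) :
    ‖x‖ ^ 2 = (inner ℝ x e : ℝ) ^ 2 + (inner ℝ x (J e) : ℝ) ^ 2 := by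
  rw [← real_inner_self_eq_norm_sq, inn he x x]
  ring

/-- The extreme slope on one side. -/
private theorem side {P0 : Set V} (hP0 : IsClosed P0) {cm cp : ℝ} (hcm : 0 < cm)
    (hb : ∀ P ∈ P0, cm ≤ ‖P‖ ∧ ‖P‖ ≤ cp) {e : V} (he : ‖e‖ = 1)
    (hne : ∀ lam : ℝ, 0 < lam → lam • e ∉ P0) {s : ℝ} (hs : s = 1 ∨ s = -1)
    (hx : ∃ P ∈ P0, 0 < s * (inner ℝ P (J e) : ℝ)) :
    ∃ P ∈ P0, 0 < s * (inner ℝ P (J e) : ℝ) ∧ ∀ Q ∈ P0, 0 ≤ s * (inner ℝ Q (J e) : ℝ) →
      (inner ℝ Q e : ℝ) * (s * inner ℝ P (J e)) ≤ (inner ℝ P e : ℝ) * (s * inner ℝ Q (J e)) := by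
  have hs2 : s ^ 2 = 1 := by
    rcases hs with h | h <;> rw [h] <;> norm_num
  have hK : IsCompact (P0 ∩ {P | 0 ≤ s * (inner ℝ P (J e) : ℝ)}) := by
    refine Metric.isCompact_of_isClosed_isBounded ?_ ?_
    · refine hP0.inter (isClosed_le continuous_const ?_)
      fun_prop
    · refine (Metric.isBounded_closedBall (x := (0 : V)) (r := cp)).subset ?_
      intro P hP
      rw [mem_closedBall_zero_iff]
      exact (hb P hP.1).2
  obtain ⟨Q0, hQ0, hQ1⟩ := hx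
  obtain ⟨P, hP, hmax⟩ := hK.exists_isMaxOn (f := fun P : V => (inner ℝ P e : ℝ) / ‖P‖)
    ⟨Q0, hQ0, hQ1.le⟩ (by
      refine ContinuousOn.div (by fun_prop) (by fun_prop) ?_
      intro P hP
      have := (hb P hP.1).1
      exact (hcm.trans_le this).ne')
  have hnP : 0 < ‖P‖ := hcm.trans_le (hb P hP.1).1
  have hle : ∀ Q ∈ P0, 0 ≤ s * (inner ℝ Q (J e) : ℝ) →
      (inner ℝ Q e : ℝ) * ‖P‖ ≤ (inner ℝ P e : ℝ) * ‖Q‖ := by
    intro Q hQ hQs
    have hnQ : 0 < ‖Q‖ := hcm.trans_le (hb Q hQ).1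
    have h1 : (inner ℝ Q e : ℝ) / ‖Q‖ ≤ (inner ℝ P e : ℝ) / ‖P‖ := hmax ⟨hQ, hQs⟩
    rwa [div_le_div_iff₀ hnQ hnP] at h1
  have hsn : ∀ Q : V, ‖Q‖ ^ 2 = (inner ℝ Q e : ℝ) ^ 2 + (s * inner ℝ Q (J e)) ^ 2 := by
    intro Q
    rw [nsq he Q, mul_pow, hs2, one_mul]
  have hpos : 0 < s * (inner ℝ P (J e) : ℝ) := by
    rcases lt_or_eq_of_le (show 0 ≤ s * (inner ℝ P (J e) : ℝ) from hP.2) with h | h
    · exact h
    · exfalso
      have h0 : (inner ℝ P (J e) : ℝ) = 0 := by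
        rcases hs with h' | h' <;> rw [h'] at h <;> linarith
      have hPe : P = (inner ℝ P e : ℝ) • e := by
        conv_lhs => rw [dec he P]
        rw [h0, zero_smul, add_zero]
      have ha : (inner ℝ P e : ℝ) ≤ 0 := by
        by_contra hcon
        push Not at hcon
        refine hne _ hcon ?_
        rw [← hPe]
        exact hP.1
      have hn2 := hsn P
      rw [← h] at hn2
      have hnn : ‖P‖ = -(inner ℝ P e : ℝ) := by
        have h3 : (‖P‖ - -(inner ℝ P e : ℝ)) * (‖P‖ + -(inner ℝ P e : ℝ)) = 0 := by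
          linear_combination hn2
        rcases mul_eq_zero.1 h3 with h4 | h4
        · linarith
        · linarith
      have h5 := hle Q0 hQ0 hQ1.le
      have h6 : -‖Q0‖ < (inner ℝ Q0 e : ℝ) := by
        have h7 := hsn Q0
        have h8 : 0 < (s * (inner ℝ Q0 (J e) : ℝ)) ^ 2 := by positivity
        have h9 : (inner ℝ Q0 e : ℝ) ^ 2 < ‖Q0‖ ^ 2 := by linarith
        exact (abs_lt.1 (abs_lt_of_sq_lt_sq h9 (norm_nonneg _))).1
      rw [hnn] at h5
      have h10 : 0 < -(inner ℝ P e : ℝ) := by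
        rw [← hnn]
        exact hnP
      nlinarith
  refine ⟨P, hP.1, hpos, ?_⟩
  intro Q hQ hQs
  have h1 := hle Q hQ hQs
  have hp := hsn P
  have hq := hsn Q
  have hnQ : 0 < ‖Q‖ := hcm.trans_le (hb Q hQ).1
  obtain ⟨aq, haq⟩ : ∃ aq, aq = (inner ℝ Q e : ℝ) := ⟨_, rfl⟩
  obtain ⟨ap, hap⟩ : ∃ ap, ap = (inner ℝ P e : ℝ) := ⟨_, rfl⟩
  obtain ⟨bq, hbq⟩ : ∃ bq, bq = s * (inner ℝ Q (J e) : ℝ) := ⟨_, rfl⟩
  obtain ⟨bp, hbp⟩ : ∃ bp, bp = s * (inner ℝ P (J e) : ℝ) := ⟨_, rfl⟩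
  rw [← haq, ← hap] at h1
  rw [← hap, ← hbp] at hp
  rw [← haq, ← hbq] at hq
  rw [← haq, ← hap, ← hbq, ← hbp]
  rw [← hbp] at hpos
  rw [← hbq] at hQs
  by_contra hcon
  push Not at hcon
  rcases le_or_gt 0 ap with h2 | h2
  · have h3 : 0 < aq := by
      have h4 : 0 ≤ ap * bq := mul_nonneg h2 hQs
      have h5 : 0 < aq * bp := by linarith
      exact (pos_iff_pos_of_mul_pos h5).2 hpos
    have h6 : (aq * ‖P‖) ^ 2 ≤ (ap * ‖Q‖) ^ 2 := by
      refine pow_le_pow_left₀ (by positivity) h1 2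
    rw [mul_pow, mul_pow, hp, hq] at h6
    have h7 : (aq * bp) ^ 2 ≤ (ap * bq) ^ 2 := by nlinarith
    have h8 : aq * bp ≤ ap * bq := by
      refine le_of_sq_le_sq h7 (by positivity)
    linarith
  · have h3 : 0 ≤ -ap * ‖Q‖ := mul_nonneg (by linarith) hnQ.le
    have h6 : (-ap * ‖Q‖) ^ 2 ≤ (-aq * ‖P‖) ^ 2 := by
      refine pow_le_pow_left₀ h3 (by linarith) 2
    rw [mul_pow, mul_pow, hp, hq] at h6
    have h7 : (-ap * bq) ^ 2 ≤ (-aq * bp) ^ 2 := by nlinarith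
    have h9 : 0 ≤ -aq := by
      have h10 : 0 ≤ -aq * ‖P‖ := by linarith
      exact nonneg_of_mul_nonneg_left h10 hnP
    have h8 : -ap * bq ≤ -aq * bp := by
      refine le_of_sq_le_sq h7 (by positivity)
    linarith

theorem gap {P0 : Set V} (hP0 : IsClosed P0) (hb : ∃ cm cp : ℝ, 0 < cm ∧ ∀ P ∈ P0,
    cm ≤ ‖P‖ ∧ ‖P‖ ≤ cp) (hh : ∀ v : V, ‖v‖ = 1 → ∃ P ∈ P0, 0 < (inner ℝ P v : ℝ))
    (huniq : ∀ P ∈ P0, ∀ s : ℝ, 0 < s → s • P ∈ P0 → s = 1)
    {e : V} (he : ‖e‖ = 1) (hne : ∀ lam : ℝ, 0 < lam → lam • e ∉ P0) :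
    ∃ Pm ∈ P0, ∃ Pp ∈ P0, ∃ s1 s2 : ℝ, 0 < s1 ∧ 0 < s2 ∧ e = s1 • Pm + s2 • Pp ∧ Pm ≠ Pp ∧
      (∃ A : V, inner ℝ A Pm = (1 : ℝ) ∧ inner ℝ A Pp = (1 : ℝ)) ∧
      ∀ Q ∈ P0, ∀ u v : ℝ, 0 ≤ u → 0 ≤ v → Q = u • Pm + v • Pp → Q = Pm ∨ Q = Pp := by
  obtain ⟨cm, cp, hcm, hb⟩ := hb
  have hJ : ‖J e‖ = 1 := by rw [VSC.norm_J, he]
  have hJe : (inner ℝ (J e) e : ℝ) = 0 := VSC.inner_J e
  have heJ : (inner ℝ e (J e) : ℝ) = 0 := by rw [real_inner_comm, hJe]
  have hee : (inner ℝ e e : ℝ) = 1 := by rw [real_inner_self_eq_norm_sq, he]; norm_num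
  have hJJ : (inner ℝ (J e) (J e) : ℝ) = 1 := by rw [real_inner_self_eq_norm_sq, hJ]; norm_num
  obtain ⟨Pp, hPp, hbp, hmp⟩ := side hP0 hcm hb he hne (s := 1) (Or.inl rfl) (by
    obtain ⟨P, hP, h⟩ := hh (J e) hJ
    exact ⟨P, hP, by rw [one_mul]; exact h⟩)
  obtain ⟨Pm, hPm, hbm, hmm⟩ := side hP0 hcm hb he hne (s := -1) (Or.inr rfl) (by
    obtain ⟨P, hP, h⟩ := hh (-J e) (by rw [norm_neg, hJ])
    refine ⟨P, hP, ?_⟩
    rw [inner_neg_right] at h
    linarith)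
  obtain ⟨a1, ha1⟩ : ∃ a, a = (inner ℝ Pm e : ℝ) := ⟨_, rfl⟩
  obtain ⟨b1, hb1⟩ : ∃ a, a = (inner ℝ Pm (J e) : ℝ) := ⟨_, rfl⟩
  obtain ⟨a2, ha2⟩ : ∃ a, a = (inner ℝ Pp e : ℝ) := ⟨_, rfl⟩
  obtain ⟨b2, hb2⟩ : ∃ a, a = (inner ℝ Pp (J e) : ℝ) := ⟨_, rfl⟩
  rw [← hb2] at hbp
  rw [← hb1] at hbm
  simp only [← ha2, ← hb2, one_mul] at hmp
  simp only [← ha1, ← hb1] at hmm
  have hb2p : 0 < b2 := by linarith
  have hb1n : b1 < 0 := by linarith
  obtain ⟨D, hD⟩ : ∃ D, D = a1 * b2 - a2 * b1 := ⟨_, rfl⟩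
  have hDpos : 0 < D := by
    by_contra hcon
    push Not at hcon
    obtain ⟨v0, hv0⟩ : ∃ v0 : V, v0 = b2 • e - a2 • J e := ⟨_, rfl⟩
    have hv1 : (inner ℝ v0 e : ℝ) = b2 := by
      rw [hv0, inner_sub_left, inner_smul_left, inner_smul_left, hee, hJe]
      simp
    have hv2 : 0 < ‖v0‖ := by
      rw [norm_pos_iff]
      intro h
      rw [h, inner_zero_left] at hv1
      linarith
    obtain ⟨P, hP, hPv⟩ := hh (‖v0‖⁻¹ • v0) (by
      rw [norm_smul, norm_inv, norm_norm, inv_mul_cancel₀ hv2.ne'])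
    rw [inner_smul_right] at hPv
    have h1 : 0 < (inner ℝ P v0 : ℝ) := by
      have h2 : 0 < ‖v0‖⁻¹ := inv_pos.2 hv2
      exact (pos_iff_pos_of_mul_pos hPv).1 h2
    rw [hv0, inner_sub_right, inner_smul_right, inner_smul_right] at h1
    obtain ⟨a, ha⟩ : ∃ a, a = (inner ℝ P e : ℝ) := ⟨_, rfl⟩
    obtain ⟨b, hb'⟩ : ∃ a, a = (inner ℝ P (J e) : ℝ) := ⟨_, rfl⟩
    rw [← ha, ← hb'] at h1
    rcases le_or_gt 0 b with h2 | h2
    · have h3 := hmp P hP (by rw [← hb']; exact h2)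
      rw [← ha, ← hb'] at h3
      linarith
    · have h3 := hmm P hP (by rw [← hb']; linarith)
      rw [← ha, ← hb'] at h3
      have h4 : b2 * (a * (-1 * b1)) ≤ b2 * (a1 * (-1 * b)) :=
        mul_le_mul_of_nonneg_left h3 hb2p.le
      have h5 : 0 < -b1 * (b2 * a - a2 * b) := mul_pos (by linarith) h1
      have h6 : b * D < 0 := by
        rw [hD]
        linarith
      have h7 : 0 ≤ b * D := mul_nonneg_of_nonpos_of_nonpos h2.le hcon
      linarith
  have hDne := hDpos.ne'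
  refine ⟨Pm, hPm, Pp, hPp, b2 / D, -b1 / D, div_pos hb2p hDpos, div_pos (by linarith) hDpos,
    ?_, ?_, ?_, ?_⟩
  · have e1 := dec he Pm
    have e2 := dec he Pp
    rw [← ha1, ← hb1] at e1
    rw [← ha2, ← hb2] at e2
    have h1 : (b2 / D) • Pm + (-b1 / D) • Pp =
        ((b2 * a1 + -b1 * a2) / D) • e + ((b2 * b1 + -b1 * b2) / D) • J e := by
      rw [e1, e2]
      module
    rw [h1]
    have h2 : (b2 * a1 + -b1 * a2) / D = 1 := by
      rw [div_eq_one_iff_eq hDne, hD]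
      ring
    have h3 : (b2 * b1 + -b1 * b2) / D = 0 := by
      rw [show b2 * b1 + -b1 * b2 = 0 by ring, zero_div]
    rw [h2, h3, one_smul, zero_smul, add_zero]
  · intro h
    rw [h, ← hb2] at hb1
    linarith
  · refine ⟨((b2 - b1) / D) • e + ((a1 - a2) / D) • J e, ?_, ?_⟩
    · rw [inner_add_left, inner_smul_left, inner_smul_left, real_inner_comm Pm e,
        real_inner_comm Pm (J e), ← ha1, ← hb1]
      simp only [conj_trivial]
      rw [div_mul_eq_mul_div, div_mul_eq_mul_div, ← add_div, div_eq_one_iff_eq hDne, hD]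
      ring
    · rw [inner_add_left, inner_smul_left, inner_smul_left, real_inner_comm Pp e,
        real_inner_comm Pp (J e), ← ha2, ← hb2]
      simp only [conj_trivial]
      rw [div_mul_eq_mul_div, div_mul_eq_mul_div, ← add_div, div_eq_one_iff_eq hDne, hD]
      ring
  · intro Q hQ u v hu hv hQe
    have hQa : (inner ℝ Q e : ℝ) = u * a1 + v * a2 := by
      rw [hQe, inner_add_left, inner_smul_left, inner_smul_left, ← ha1, ← ha2]
      simp
    have hQb : (inner ℝ Q (J e) : ℝ) = u * b1 + v * b2 := by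
      rw [hQe, inner_add_left, inner_smul_left, inner_smul_left, ← hb1, ← hb2]
      simp
    rcases lt_trichotomy (u * b1 + v * b2) 0 with h | h | h
    · -- right side
      have h3 := hmm Q hQ (by rw [hQb]; linarith)
      rw [hQa, hQb] at h3
      have h4 : v * D ≤ 0 := by
        rw [hD]
        linarith
      have h5 : v = 0 := by
        by_contra hne0
        have : 0 < v := lt_of_le_of_ne hv (Ne.symm hne0)
        have := mul_pos this hDpos
        linarith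
      rw [h5, zero_smul, add_zero] at hQe
      have hu0 : 0 < u := by
        rcases lt_or_eq_of_le hu with h6 | h6
        · exact h6
        · rw [h5, ← h6] at h
          linarith
      have h7 := huniq Pm hPm u hu0 (by rw [← hQe]; exact hQ)
      left
      rw [hQe, h7, one_smul]
    · exfalso
      have hQ2 := dec he Q
      rw [hQb, h, zero_smul, add_zero] at hQ2
      have h1 : (inner ℝ Q e : ℝ) * b2 = u * D := by
        rw [hQa, hD]
        linear_combination a2 * h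
      have h2 : 0 ≤ (inner ℝ Q e : ℝ) := by
        have h3 : 0 ≤ (inner ℝ Q e : ℝ) * b2 := by
          rw [h1]
          exact mul_nonneg hu hDpos.le
        exact nonneg_of_mul_nonneg_left h3 hb2p
      rcases lt_or_eq_of_le h2 with h4 | h4
      · exact hne _ h4 (by rw [← hQ2]; exact hQ)
      · rw [← h4, zero_smul] at hQ2
        have h5 := (hb Q hQ).1
        rw [hQ2, norm_zero] at h5
        linarith
    · have h3 := hmp Q hQ (by rw [hQb]; exact h.le)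
      rw [hQa, hQb] at h3
      have h4 : u * D ≤ 0 := by
        rw [hD]
        linarith
      have h5 : u = 0 := by
        by_contra hne0
        have : 0 < u := lt_of_le_of_ne hu (Ne.symm hne0)
        have := mul_pos this hDpos
        linarith
      rw [h5, zero_smul, zero_add] at hQe
      have hv0 : 0 < v := by
        rcases lt_or_eq_of_le hv with h6 | h6
        · exact h6
        · rw [h5, ← h6] at h
          linarith
      have h7 := huniq Pp hPp v hv0 (by rw [← hQe]; exact hQ)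
      right
      rw [hQe, h7, one_smul]

end Pool.Agent.FCF
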