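import Pool.Agent.FCF.PlEkink

/-!
# FCF / PlEpair: speed, oscillation and the structure `Pair`, case E

PROOF of the fields of `Pair` for `a = W`, `b = TE`:
* `lb`: `W x ≥ lam * ze e x - dl ≥ -dl` (`x ∈ Rec ⊆ ball 0 D`). `top`: `lam * ze e x ≤ W x + dl < T + dl ≤ lam * H / 2`.
* `maxp`: `E_max`. `kink`: `E_kink`.
* `speed`: `sp = (l-1)/(2M+4)`, `t0 = W x - sp`: `speed` (file Hole) for `X = arr true W` (subflow in `ball 0 D` from the time `t0` by `hW.sub`), point `(x, t0 + sp) ∈ X`: there is `z`, `‖z - x‖ ≤ l`,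
  `W z ≤ W x - sp`. `z ∈ Rec`: `|al e z| ≤ (K-1) R + R/2 < K R`, `ze e z ≥ -R/2`, `ze e z ≤ H/2 + R/2 < H`. If `0 < ze e z`: first alternative. Otherwise `TE z = 0 ≤ g0 + W x`
  (`W x ≥ -dl ≥ -g0`). (`p.M1 = 2 * p.M + 4`.)
* `osc`: for `W`: `hW.cl` (`‖x‖ + Cs l ≤ K R + H + Cs R < D`, `1 ≤ C ≤ r ≤ l`). For `TE`: `hcan.clE` with the alternative `C ≤ l`, and `p.fine' c x l → p.fine c x l`
  (`E_mono_force`: the force `c + F'` is `≤ c + F`).
-/

set_option autoImplicit false

namespace Pool.Agent.FCF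

open Pool.Agent.VSC (V J LowJet)
open Set Metric

theorem fine_of_fine' {p : Par} {c : V → ℝ} {x : V} {r : ℝ} (h : p.fine' c x r) :
    p.fine c x r := by
  intro z hz
  refine (h z hz).trans ?_
  refine E_mono_force (fun y => ?_) _ _
  have := p.hF
  simp only [frc]
  linarith

theorem pairE {p : Par} {c : V → ℝ} {e : V} {A0 B0 : Set V} {TE TO W : V → ℝ}
    {C gg lam K R H T D dl g0 rho r tau : ℝ} (henv : p.Env c) (he : ‖e‖ = 1)
    (hcan : Canon p c e A0 B0 TE TO C gg) (hn : Nm p C lam K R H T D dl g0 rho r tau)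
    (hW : WF p true c D W) (hplan : ∀ x ∈ ball (0 : V) D, |W x - lam * ze e x| ≤ dl) :
    Pair p c e K R H T dl g0 rho r tau W TE := by
  have hlam := hn.lam_pos
  have hdl : 0 < dl := hlam.trans_le hn.lam_dl
  have hC1 := hn.C_one
  have hCr := hn.C_r
  have hR8 : 8 ≤ R := by
    have := hn.r_rho
    have := hn.rho_R
    linarith
  have hM0 := p.hM
  have hsig := p.hsig
  have hCs : 0 ≤ p.Cs := by
    unfold Par.Cs Par.C1 Par.M1
    have : 0 ≤ (2 * p.M + 4) * p.sig := by
      apply mul_nonneg <;> linarith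
    linarith
  have hCsR : 0 ≤ p.Cs * R := mul_nonneg hCs (by linarith)
  have hH := hn.H_ge
  have hD := hn.D_ge
  have hgd : 2 * dl ≤ g0 := by
    have h1 : 0 ≤ lam * (C + 1) := mul_nonneg hlam.le (by linarith)
    have := hn.g0_ge
    linarith
  have hRb : ∀ x ∈ Rec e (K * R) R H, ‖x‖ < K * R + H := fun x hx =>
    norm_lt_of_mem_Rec he hx (by linarith)
  have hpl : ∀ x ∈ Rec e (K * R) R H, lam * ze e x - dl ≤ W x ∧ W x ≤ lam * ze e x + dl := by
    intro y hy
    have := abs_le.1 (hplan y (by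
      rw [mem_ball_zero_iff]
      have := hRb y hy
      linarith))
    constructor <;> linarith [this.1, this.2]
  have hlb : ∀ x ∈ Rec e (K * R) R H, 0 < ze e x → -dl ≤ W x := by
    intro x hx hz
    have h1 := (hpl x hx).1
    have h2 : 0 < lam * ze e x := mul_pos hlam hz
    linarith
  have htop : ∀ x ∈ Rec e (K * R) R H, 0 < ze e x → W x < T → ze e x ≤ H / 2 := by
    intro x hx _ hT
    have h1 := (hpl x hx).1
    have h5 := hn.H_lam
    by_contra h
    rw [not_le] at h
    have h6 : lam * (H / 2) < lam * ze e x := mul_lt_mul_of_pos_left h hlam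
    linarith
  refine ⟨hlb, htop, E_max henv he hcan hn hW hplan, E_kink henv he hcan hn hW hplan, ?_, ?_⟩
  · intro g _ x hx hxa hxT l hl2 hlR
    obtain ⟨hxR, hxz, hxg⟩ := hx
    have hz2 := htop x hxR hxz hxT
    have hM1 : 0 < p.M1 := by
      unfold Par.M1
      linarith
    have hx1 := norm_le_al_ze he x
    have hx2 : |ze e x| ≤ H / 2 := by
      rw [abs_of_pos hxz]
      exact hz2
    have hsp : 0 ≤ (l - 1) / p.M1 := div_nonneg (by linarith) hM1.le
    obtain ⟨z, hz, hzS⟩ := speed henv.med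
      (U := ball (0 : V) D) (t0 := W x - (l - 1) / p.M1) (S := arr true W)
      (hW.sub (W x - (l - 1) / p.M1)) (x := x) (r := l) (by linarith) (by
        intro z hz
        rw [mem_closedBall_iff_norm] at hz
        rw [mem_ball_zero_iff]
        have h1 : ‖z‖ ≤ ‖z - x‖ + ‖x‖ := by
          have := norm_add_le (z - x) x
          rwa [sub_add_cancel] at this
        have h2 : (K - 1) * R = K * R - R := by ring
        linarith) (s := (l - 1) / p.M1) hsp le_rfl (by
        rw [sub_add_cancel]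
        exact (le_refl (W x)))
    rw [mem_closedBall_iff_norm] at hz
    have ha := abs_al_sub_le he z x
    have hb := abs_ze_sub_le he z x
    rw [abs_le] at ha hb hxa
    have h2 : (K - 1) * R = K * R - R := by ring
    have hzR : z ∈ Rec e (K * R) R H := by
      refine ⟨?_, ?_, ?_⟩
      · rw [abs_lt]
        constructor <;> linarith [ha.1, ha.2, hxa.1, hxa.2]
      · linarith [hb.1]
      · linarith [hb.2]
    refine ⟨z, hzR, hz, ?_⟩
    rcases lt_or_ge 0 (ze e z) with hz0 | hz0
    · left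
      exact ⟨hz0, hzS⟩
    · right
      rw [TE_eq_zero henv hcan hz0]
      have := hlb x hxR hxz
      linarith
  · intro x hx l hrl hlR hf y z hy hz
    refine ⟨hW.cl x l (by linarith) ?_ hf y z hy hz,
      hcan.clE x l (by linarith) (fine_of_fine' hf) (Or.inl (by linarith)) y z hy hz⟩
    have h1 := hRb x hx
    have h2 : p.Cs * l ≤ p.Cs * R := mul_le_mul_of_nonneg_left hlR hCs
    linarith

end Pool.Agent.FCF
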