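import Pool.Agent.FCF.PlMax
import Pool.Agent.FCF.FlowVisc

/-!
# FCF / PlOmax: maximum principle, case O (`a = TO` behind, `b = W` window function for the unoccupied side)

`h = fun x => -frc c p.F x = sgn false (frc c p.F)`. `arr false W = {z | z.2 ≤ W z.1}`.
PROOF. Let `x ∈ Ov g`, `s1 < al e x < s2`, suppose `TO x < t`. `X = {z | z.2 + g ≤ W z.1}` (`SubIn.shift_time` applied to `hW.sub`), `U = ball 0 D`, `A = B0`, time shift `0` in `maxp_gen`, `t0 = 0`.
Choose `t1` with `TO x < t1`, `t1 ≤ W x - g`, `t1 < t` (`TO x < W x - g` because `x ∈ Ov g`). `(x, t1) ∈ X`. `maxp_gen` gives `x ∈ E h B0 t1`, i.e. `t1 ≤ TO x` (`hcan.TO_iff`, `t1 > 0`): contradiction.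
Facts. Overtaken at time `s ∈ [0,t1]`: `s + g ≤ W y`, `y ∉ E h B0 s`.
* `s = 0` is impossible: `g ≤ W y` gives `lam * ze e y ≥ g - dl ≥ lam * C` so `y ∈ HQ e C ⊆ B0 = E h B0 0` (`E_zero`). This is (hstart).
* `s > 0`: `TO y < s`, so `g < W y - TO y`; `ze e y > 0` from `W y ≥ g ≥ g0 > dl`; `ze e y ≤ H/2`: `ze/M1 - C ≤ TE y ≤ TO y + C ≤ T + C` (`TE_ge`, `near`) and `H_M1`. (hht with `h1 = 0`, `h2 = H/2`.)
* (hlines): `y ∈ Ov g`, so `t ≤ TO y < s ≤ t1 < t`.
-/

set_option autoImplicit false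

namespace Pool.Agent.FCF

open Pool.Agent.VSC (V J LowJet)
open Set Metric

private theorem omax_M1_pos (p : Par) : 0 < p.M1 := by
  have := p.hM
  unfold Par.M1
  linarith

private theorem omax_Cs_pos (p : Par) : 0 < p.Cs := by
  have h1 := omax_M1_pos p
  have h2 := p.hsig
  unfold Par.Cs Par.C1
  have : 0 < p.M1 * p.sig := mul_pos h1 (by linarith)
  linarith

/-- Facts on overtaken points. -/
private theorem omax_facts {p : Par} {c : V → ℝ} {e : V} {A0 B0 : Set V} {TE TO W : V → ℝ}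
    {C gg lam K R H T D dl g0 rho r tau : ℝ} (henv : p.Env c)
    (hcan : Canon p c e A0 B0 TE TO C gg) (hn : Nm p C lam K R H T D dl g0 rho r tau)
    (hplan : ∀ x ∈ ball (0 : V) D, |W x - lam * ze e x| ≤ dl) {g s : ℝ} (hg : g0 ≤ g)
    (hs0 : 0 ≤ s) (hsT : s ≤ T) {y : V} (hy : y ∈ ball (0 : V) D) (hWy : s + g ≤ W y)
    (hyE : y ∉ E (fun x => -frc c p.F x) B0 s) :
    0 < s ∧ TO y < s ∧ 0 < ze e y ∧ ze e y ≤ H / 2 := by
  have hm : Med p.M p.L (fun x => -frc c p.F x) := henv.med.neg'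
  have hlam := hn.lam_pos
  have hC := hn.C_one
  have hldl := hn.lam_dl
  have hg0 := hn.g0_ge
  have h1 := (abs_le.1 (hplan y hy)).2
  have h2 : lam * (C + 1) ≤ lam * ze e y := by linarith
  have h3 : C + 1 ≤ ze e y := le_of_mul_le_mul_left h2 hlam
  have hs : 0 < s := by
    rcases hs0.lt_or_eq with h | h
    · exact h
    · exfalso
      refine hyE ?_
      rw [← h, E_zero hm hcan.B_closed]
      refine hcan.B_sup ?_
      show C ≤ inner ℝ y e
      have : C + 1 ≤ inner ℝ y e := h3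
      linarith
  have h4 : TO y < s := by
    by_contra hc
    exact hyE ((hcan.TO_iff y s hs).1 (not_lt.1 hc))
  refine ⟨hs, h4, by linarith, ?_⟩
  have h5 : ze e y / p.M1 - C ≤ TE y := hcan.TE_ge y
  have h6 := (abs_le.1 (hcan.near y)).2
  have hM1 := omax_M1_pos p
  have h7 : ze e y / p.M1 ≤ T + 2 * C := by linarith
  have h8 : ze e y ≤ (T + 2 * C) * p.M1 := (div_le_iff₀ hM1).1 h7
  have h9 := hn.H_M1
  linarith

theorem O_max {p : Par} {c : V → ℝ} {e : V} {A0 B0 : Set V} {TE TO W : V → ℝ}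
    {C gg lam K R H T D dl g0 rho r tau : ℝ} (henv : p.Env c) (he : ‖e‖ = 1)
    (hcan : Canon p c e A0 B0 TE TO C gg) (hn : Nm p C lam K R H T D dl g0 rho r tau)
    (hW : WF p false c D W) (hplan : ∀ x ∈ ball (0 : V) D, |W x - lam * ze e x| ≤ dl) :
    ∀ g : ℝ, g0 ≤ g → ∀ s1 s2 : ℝ, -(K * R) < s1 → s1 < s2 → s2 < K * R → ∀ t : ℝ, t ≤ T →
    (∀ x ∈ Ov e (K * R) R H TO W g, al e x = s1 ∨ al e x = s2 → t ≤ TO x) →
    ∀ x ∈ Ov e (K * R) R H TO W g, s1 < al e x → al e x < s2 → t ≤ TO x := by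
  intro g hg s1 s2 hs1 hs12 hs2 t htT hlin x hx hxs1 hxs2
  by_contra hcon
  have hcon' : TO x < t := not_le.1 hcon
  obtain ⟨hxR, hxz, hxg⟩ := hx
  have hm : Med p.M p.L (fun x => -frc c p.F x) := henv.med.neg'
  have hCs := omax_Cs_pos p
  have hC := hn.C_one
  have hCr := hn.C_r
  have hrr := hn.r_rho
  have hrR := hn.rho_R
  have hH := hn.H_ge
  have hD := hn.D_ge
  have hR : 0 < R := by linarith
  have hCsR : 0 < p.Cs * R := mul_pos hCs hR
  -- the time
  obtain ⟨t1, ht1a, ht1b, ht1c⟩ : ∃ t1, TO x < t1 ∧ t1 ≤ W x - g ∧ t1 < t := by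
    refine ⟨min (W x - g) ((TO x + t) / 2), lt_min (by linarith) (by linarith), min_le_left _ _,
      (min_le_right _ _).trans_lt (by linarith)⟩
  have ht10 : 0 < t1 := (hcan.TO_nonneg x).trans_lt ht1a
  have hX : SubIn (fun x => -frc c p.F x) (ball (0 : V) D) 0
      {z | (z.1, z.2 + g) ∈ arr false W} := by
    have h1 := hW.sub (0 + g)
    simp only [sgn, Bool.false_eq_true, if_false] at h1
    exact h1.shift_time g
  have hmemX : ∀ (y : V) (s : ℝ), (y, s) ∈ {z : V × ℝ | (z.1, z.2 + g) ∈ arr false W} ↔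
      s + g ≤ W y := by
    intro y s
    simp [arr]
  have hconc := maxp_gen hm he isOpen_ball (t0 := 0) (t1 := t1) (g := 0) (s1 := s1) (s2 := s2)
    (h1 := 0) (h2 := H / 2) hX hcan.B_closed (by norm_num) ?_ ?_ ?_ ?_ x t1 ?_ hxs1.le hxs2.le
    ht10.le le_rfl ?_
  · rw [add_zero] at hconc
    have := (hcan.TO_iff x t1 ht10).2 hconc
    linarith
  · rintro y ⟨h1, h2, h3, h4⟩
    rw [mem_ball_zero_iff]
    have h5 := norm_le_al_ze he y
    have h6 : |al e y| ≤ K * R := abs_le.2 ⟨by linarith, by linarith⟩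
    have h7 : |ze e y| ≤ H / 2 := abs_le.2 ⟨by linarith, h4⟩
    linarith
  · intro y s hy hy1 hy2 hs0 hs1' hyX hyE
    rw [add_zero] at hyE
    obtain ⟨_, _, h3, h4⟩ := omax_facts henv hcan hn hplan hg hs0 (by linarith) hy
      ((hmemX y s).1 hyX) hyE
    exact ⟨h3.le, h4⟩
  · intro y s hy hy1 hs0 hs1' hyX
    rw [add_zero]
    by_contra hyE
    obtain ⟨h1, h2, h3, h4⟩ := omax_facts henv hcan hn hplan hg hs0 (by linarith) hy
      ((hmemX y s).1 hyX) hyE
    have h5 : y ∈ Ov e (K * R) R H TO W g := by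
      refine ⟨⟨?_, by linarith, by linarith⟩, h3, ?_⟩
      · rcases hy1 with h | h
        · rw [h, abs_lt]; constructor <;> linarith
        · rw [h, abs_lt]; constructor <;> linarith
      · have := (hmemX y s).1 hyX
        linarith
    have := hlin y h5 hy1
    linarith
  · intro y hy hy1 hy2 hyX
    rw [add_zero]
    by_contra hyE
    obtain ⟨h1, _⟩ := omax_facts henv hcan hn hplan hg le_rfl (by linarith) hy
      ((hmemX y 0).1 hyX) hyE
    exact lt_irrefl _ h1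
  · rw [mem_ball_zero_iff]
    have := norm_lt_of_mem_Rec he hxR (by linarith)
    linarith
  · rw [hmemX]
    linarith

end Pool.Agent.FCF
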