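import Pool.Agent.FCF.PlOkink
import Pool.Agent.FCF.PlOmax

/-!
# FCF / PlOpair: speed, oscillation and the structure `Pair`, case O

PROOF of the fields of `Pair` for `a = TO`, `b = W`:
* `lb`: `TO x ≥ 0 ≥ -dl`. `top`: `ze/M1 - C ≤ TE x ≤ TO x + C < T + C`, `H_M1`. `maxp`: `O_max`. `kink`: `O_kink`.
* `speed`: `h = fun x => -frc c p.F x`, `sp = (l-1)/(2M+4) = (l-1)/M1`. `sp < hM M l` (`hM_ge`), choose `s'` with `sp < s' < hM M l`.
  Case `sp < TO x`: suppose all `z ∈ closedBall x l` have `TO x - sp ≤ TO z`; then `closedBall x l ⊆ E h B0 (TO x - sp)` (`TO_iff`), so by `E_add` and `inner_center` `x ∈ E h B0 (TO x - sp + s')`, so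
  `TO x - sp + s' ≤ TO x`: contradiction. So there is `z`, `‖z - x‖ ≤ l`, `TO z < TO x - sp`. If `ze e z > 0`: first alternative; otherwise `W z ≤ lam * ze e z + dl ≤ dl ≤ g0 + TO x`.
  Case `TO x ≤ sp`: if `closedBall x l ⊆ B0` then `x ∈ E h B0 s'`, `s' ≤ TO x`: contradiction. So there is `z ∉ B0`, `‖z-x‖ ≤ l`; `ze e z < C` (`B_sup`), `W z ≤ lam * C + dl ≤ g0 ≤ g0 + TO x`: second alternative.
  `z ∈ Rec` as in case E.
* `osc`: `hW.cl` for `W`, `hcan.clO` (alternative `C ≤ l`) for `TO` with `fine_of_fine'` (file PlEpair; prove it here privately if PlEpair is not imported).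
-/

set_option autoImplicit false

namespace Pool.Agent.FCF

open Pool.Agent.VSC (V J LowJet)
open Set Metric

private theorem pairO_fine {p : Par} {c : V → ℝ} {x : V} {r : ℝ} (h : p.fine' c x r) :
    p.fine c x r := by
  intro z hz
  refine (h z hz).trans (E_mono_force (fun y => ?_) _ _)
  have := p.hF
  simp only [frc]
  linarith

private theorem pairO_med {M L : ℝ} {h : V → ℝ} (hm : Med M L h) : Med M L (fun x => -h x) := by
  refine ⟨hm.one_le, hm.one_le', fun x => ?_, fun x y => ?_⟩
  · rw [abs_neg]; exact hm.bd x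
  · rw [neg_sub_neg, abs_sub_comm]; exact hm.lip x y

theorem pairO {p : Par} {c : V → ℝ} {e : V} {A0 B0 : Set V} {TE TO W : V → ℝ}
    {C gg lam K R H T D dl g0 rho r tau : ℝ} (henv : p.Env c) (he : ‖e‖ = 1)
    (hcan : Canon p c e A0 B0 TE TO C gg) (hn : Nm p C lam K R H T D dl g0 rho r tau)
    (hW : WF p false c D W) (hplan : ∀ x ∈ ball (0 : V) D, |W x - lam * ze e x| ≤ dl) :
    Pair p c e K R H T dl g0 rho r tau TO W := by
  have hlam := hn.lam_pos
  have hdl : 0 < dl := hlam.trans_le hn.lam_dl
  have hC := hn.C_one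
  have hr1 : 1 ≤ r := hC.trans hn.C_r
  have hR8 : 8 ≤ R := by linarith [hn.r_rho, hn.rho_R]
  have hR0 : 0 < R := by linarith
  have hpM := p.hM
  have hM1 : 0 < p.M1 := by unfold Par.M1; linarith
  have hsig := p.hsig
  have hC1 : 0 < p.C1 := by unfold Par.C1; positivity
  have hCs : 0 < p.Cs := by unfold Par.Cs; positivity
  have hg0 : lam * C + dl ≤ g0 := by
    have := hn.g0_ge
    nlinarith
  have hball : ∀ z ∈ Rec e (K * R) R H, z ∈ ball (0 : V) D := by
    intro z hz
    have h1 := norm_lt_of_mem_Rec he hz (by linarith [hn.H_ge])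
    rw [mem_ball_zero_iff]
    have h2 := hn.D_ge
    have h3 : 0 < p.Cs * R := by positivity
    linarith
  have htop : ∀ x : V, TO x < T → ze e x ≤ H / 2 := by
    intro x hx
    have h1 := hcan.TE_ge x
    have h2 := (abs_le.1 (hcan.near x)).2
    have h3 : ze e x / p.M1 < T + 2 * C := by
      unfold ze; linarith
    rw [div_lt_iff₀ hM1] at h3
    have h4 := hn.H_M1
    nlinarith
  refine ⟨?_, ?_, ?_, ?_, ?_, ?_⟩
  · intro x _ _
    linarith [hcan.TO_nonneg x]
  · intro x _ _ hx
    exact htop x hx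
  · exact O_max henv he hcan hn hW hplan
  · exact O_kink henv he hcan hn hW hplan
  · intro g hg x hx hal hxT l hl2 hlR
    obtain ⟨hxR, hxz, hxg⟩ := hx
    have hm := pairO_med henv.med
    have hsp := hM_ge hpM (show (1 : ℝ) ≤ l by linarith)
    have hM1e : p.M1 = 2 * p.M + 4 := rfl
    rw [← hM1e] at hsp
    set sp := (l - 1) / p.M1 with hspd
    have hsp0 : 0 < sp := div_pos (by linarith) hM1
    obtain ⟨s', hs1, hs2⟩ := exists_between hsp
    have hzx := htop x hxT
    have hrec : ∀ z : V, ‖z - x‖ ≤ l → z ∈ Rec e (K * R) R H := by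
      intro z hz
      have h1 := (abs_al_sub_le he z x).trans hz
      have h2 := abs_le.1 ((abs_ze_sub_le he z x).trans hz)
      have h3 : |al e z| ≤ |al e z - al e x| + |al e x| := by
        have := abs_add_le (al e z - al e x) (al e x)
        rwa [sub_add_cancel] at this
      refine ⟨?_, ?_, ?_⟩
      · nlinarith
      · linarith [h2.1]
      · linarith [h2.2, hn.H_ge]
    rcases lt_or_ge sp (TO x) with hcase | hcase
    · have hex : ∃ z ∈ closedBall x l, TO z < TO x - sp := by
        by_contra hcon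
        push Not at hcon
        have h1 : closedBall x l ⊆ E (fun x => -frc c p.F x) B0 (TO x - sp) := fun z hz =>
          (hcan.TO_iff z _ (by linarith)).1 (hcon z hz)
        have h2 := inner_center hm (by linarith) h1 (by linarith) hs2
        rw [← E_add hm hcan.B_closed (by linarith) (by linarith)] at h2
        have h3 := (hcan.TO_iff x _ (by linarith)).2 h2
        linarith
      obtain ⟨z, hz, hzt⟩ := hex
      rw [mem_closedBall_iff_norm] at hz
      refine ⟨z, hrec z hz, hz, ?_⟩
      rcases lt_or_ge 0 (ze e z) with h1 | h1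
      · exact Or.inl ⟨h1, hzt.le⟩
      · right
        have h2 := (abs_le.1 (hplan z (hball z (hrec z hz)))).2
        have h3 : lam * ze e z ≤ 0 := mul_nonpos_of_nonneg_of_nonpos hlam.le h1
        have h4 := hcan.TO_nonneg x
        have h5 : 0 < lam * C := by positivity
        linarith
    · have hex : ∃ z ∈ closedBall x l, z ∉ B0 := by
        by_contra hcon
        push Not at hcon
        have h2 := inner_center hm (by linarith) (show closedBall x l ⊆ B0 from hcon)
          (by linarith) hs2
        have h3 := (hcan.TO_iff x _ (by linarith)).2 h2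
        linarith
      obtain ⟨z, hz, hzB⟩ := hex
      rw [mem_closedBall_iff_norm] at hz
      refine ⟨z, hrec z hz, hz, Or.inr ?_⟩
      have h1 : ze e z < C := by
        by_contra hcon
        exact hzB (hcan.B_sup (not_lt.1 hcon))
      have h2 := (abs_le.1 (hplan z (hball z (hrec z hz)))).2
      have h3 : lam * ze e z ≤ lam * C := mul_le_mul_of_nonneg_left h1.le hlam.le
      have h4 := hcan.TO_nonneg x
      linarith
  · intro x hx l hrl hlR hf y z hy hz
    have hl1 : 1 ≤ l := hr1.trans hrl
    refine ⟨hcan.clO x l hl1 (pairO_fine hf) (Or.inl (hn.C_r.trans hrl)) y z hy hz, ?_⟩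
    refine hW.cl x l hl1 ?_ hf y z hy hz
    have h1 := norm_lt_of_mem_Rec he hx (by linarith [hn.H_ge])
    have h2 : p.Cs * l ≤ p.Cs * R := mul_le_mul_of_nonneg_left hlR hCs.le
    linarith [hn.D_ge]

end Pool.Agent.FCF
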