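import Pool.Agent.FCF.PlShift

/-!
# FCF / PlWin: window functions which are planar in a large ball

PROOF. `hc.win (lam • e) hP eps' (del := 1/2)`, `eps' = min 1 (eps / (40 kap))`, gives `k1`; take `k = k1` and its `x0`. Let `R ≥ R0 = max (‖x0‖, 2^k, 1)`.
Choose `J` with `2 kap R ≤ 2^J < 4 kap R` (then `J ≥ k`, `kap R + ‖x0‖ ≤ 2^J`). `WinP` for `J` and `b`: `T, Y`. By `dens` for `j = J` (`del < 1`, `box J` nonempty)
there is `n ∈ Y ∩ box J`, `gp n ∈ oc J`. Put `W x = T (x - x0) + a`, `a = -T (gp n) + inner P (gp n + x0)`, `P = lam • e`. `WF`: `WF_of_Win`. For `‖x‖ < kap R`, `z = x - x0 ∈ oc J`: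
`|W x - inner P x| = |T z - T (gp n) - inner P (z - gp n)| ≤ eps' max (‖z - gp n‖) (2^k)`, `‖z - gp n‖ ≤ ‖z‖ + ‖gp n‖ ≤ 2 * 2^J + 2 * 2^J` (the norm of a point of `oc J` is `≤ 2 * 2^J`),
`2^k ≤ R`; so the error is `≤ eps' * 16 kap R ≤ eps R`. `inner P x = lam * ze e x`.
-/

set_option autoImplicit false

namespace Pool.Agent.FCF

open Pool.Agent.VSC (V J LowJet)
open Set Metric

private theorem plWin_norm_oc {J' : ℕ} {z : V} (hz : z ∈ oc J') : ‖z‖ ≤ 2 * 2 ^ J' := by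
  have h0 := hz 0
  have h1 := hz 1
  have hp : (0 : ℝ) < 2 ^ J' := by positivity
  rw [EuclideanSpace.norm_eq, Fin.sum_univ_two]
  apply Real.sqrt_le_iff.2
  refine ⟨by positivity, ?_⟩
  rw [Real.norm_eq_abs, Real.norm_eq_abs]
  nlinarith [abs_nonneg (z 0), abs_nonneg (z 1)]

private theorem plWin_gp_oc {J' : ℕ} {n : ℤ × ℤ} (hn : n ∈ box J') : gp n ∈ oc J' := by
  unfold box at hn
  rw [Finset.mem_product, Finset.mem_Ioo, Finset.mem_Ioo] at hn
  obtain ⟨⟨h1, h2⟩, h3, h4⟩ := hn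
  have e1 : (-(2 ^ J' : ℝ)) < (n.1 : ℝ) := by exact_mod_cast h1
  have e2 : (n.1 : ℝ) < 2 ^ J' := by exact_mod_cast h2
  have e3 : (-(2 ^ J' : ℝ)) < (n.2 : ℝ) := by exact_mod_cast h3
  have e4 : (n.2 : ℝ) < 2 ^ J' := by exact_mod_cast h4
  intro i
  fin_cases i
  · show |(n.1 : ℝ)| < 2 ^ J'
    exact abs_lt.2 ⟨e1, e2⟩
  · show |(n.2 : ℝ)| < 2 ^ J'
    exact abs_lt.2 ⟨e3, e4⟩

theorem exists_WF {p : Par} {P0 : Set V} {c : V → ℝ} (hc : Typ p P0 c) {e : V} (he : ‖e‖ = 1)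
    {lam : ℝ} (hl : 0 < lam) (hP : lam • e ∈ P0) {kap : ℝ} (hk : 1 ≤ kap) {eps : ℝ}
    (heps : 0 < eps) : ∃ R0 : ℝ, ∀ R : ℝ, R0 ≤ R → ∀ b : Bool, ∃ W : V → ℝ,
      WF p b c (kap * R) W ∧ ∀ x ∈ ball (0 : V) (kap * R), |W x - lam * ze e x| ≤ eps * R := by
  classical
  have hk0 : 0 < kap := by linarith
  obtain ⟨eps', heps'⟩ : ∃ eps', eps' = min 1 (eps / (40 * kap)) := ⟨_, rfl⟩
  have he0 : 0 < eps' := by
    rw [heps']
    exact lt_min one_pos (by positivity)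
  have he1 : eps' * (16 * kap) ≤ eps := by
    have h1 : eps' ≤ eps / (40 * kap) := by rw [heps']; exact min_le_right _ _
    rw [le_div_iff₀ (by positivity)] at h1
    nlinarith [mul_pos he0 hk0]
  obtain ⟨k1, hk1⟩ := hc.win (lam • e) hP eps' he0 (1 / 2) (by norm_num)
  obtain ⟨x0, hx0⟩ := hk1 k1 le_rfl
  refine ⟨max (max ‖x0‖ (2 ^ k1)) 1, ?_⟩
  intro R hR b
  have hR1 : 1 ≤ R := le_trans (le_max_right _ _) hR
  have hR2 : ‖x0‖ ≤ R := le_trans (le_trans (le_max_left _ _) (le_max_left _ _)) hR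
  have hR3 : (2 : ℝ) ^ k1 ≤ R := le_trans (le_trans (le_max_right _ _) (le_max_left _ _)) hR
  have hkR : R ≤ kap * R := by nlinarith
  obtain ⟨n, hn1, hn2⟩ := exists_nat_pow_near (x := 2 * (kap * R)) (y := (2 : ℝ))
    (by linarith) (by norm_num)
  obtain ⟨J', hJ'⟩ : ∃ J', J' = n + 1 := ⟨_, rfl⟩
  have hJ1 : 2 * (kap * R) ≤ 2 ^ J' := by rw [hJ']; exact hn2.le
  have hJ2 : (2 : ℝ) ^ J' ≤ 4 * (kap * R) := by rw [hJ', pow_succ]; linarith
  have hkJ : k1 ≤ J' := by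
    have h1 : (2 : ℝ) ^ k1 < 2 ^ J' := by linarith
    exact ((pow_lt_pow_iff_right₀ (by norm_num : (1 : ℝ) < 2)).1 h1).le
  obtain ⟨T, Y, hW⟩ := hx0 J' hkJ b
  -- a good grid point
  have hgood : ∃ n ∈ box J', n ∈ Y := by
    by_contra hcon
    push Not at hcon
    have h1 := hW.dens J' hkJ le_rfl
    have h2 : (box J').filter (fun n => n ∉ Y) = box J' := Finset.filter_true_of_mem hcon
    rw [h2] at h1
    have h3 : (0, 0) ∈ box J' := by
      unfold box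
      rw [Finset.mem_product, Finset.mem_Ioo]
      have : (0 : ℤ) < 2 ^ J' := by positivity
      exact ⟨⟨neg_lt_zero.2 this, this⟩, neg_lt_zero.2 this, this⟩
    have h4 : (0 : ℝ) < ((box J').card : ℝ) := by
      exact_mod_cast Finset.card_pos.2 ⟨_, h3⟩
    linarith
  obtain ⟨n0, hn0, hn0Y⟩ := hgood
  have hg := plWin_gp_oc hn0
  refine ⟨fun x => T (x - x0) + (-T (gp n0) + inner ℝ (lam • e) (gp n0 + x0)),
    WF_of_Win hW (by linarith) _, ?_⟩
  intro x hx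
  rw [mem_ball_zero_iff] at hx
  have hz : x - x0 ∈ oc J' := by
    intro i
    have h1 := PiLp.norm_apply_le (x - x0) i
    rw [Real.norm_eq_abs] at h1
    have h2 := norm_sub_le x x0
    linarith
  have h1 := hW.plan n0 hn0Y hg (x - x0) hz
  have h2 : T (x - x0) + (-T (gp n0) + inner ℝ (lam • e) (gp n0 + x0)) - lam * ze e x =
      T (x - x0) - T (gp n0) - inner ℝ (lam • e) (x - x0 - gp n0) := by
    have e1 : lam * ze e x = inner ℝ (lam • e) x := by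
      unfold ze
      rw [real_inner_smul_left, real_inner_comm]
    rw [e1, inner_add_right, inner_sub_right, inner_sub_right]
    ring
  show |T (x - x0) + (-T (gp n0) + inner ℝ (lam • e) (gp n0 + x0)) - lam * ze e x| ≤ eps * R
  rw [h2]
  refine h1.trans ?_
  have h3 : max ‖x - x0 - gp n0‖ (2 ^ k1) ≤ 16 * (kap * R) := by
    apply max_le
    · have h4 := norm_sub_le (x - x0) (gp n0)
      have h5 := plWin_norm_oc hz
      have h6 := plWin_norm_oc hg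
      linarith
    · linarith
  calc eps' * max ‖x - x0 - gp n0‖ (2 ^ k1) ≤ eps' * (16 * (kap * R)) :=
        mul_le_mul_of_nonneg_left h3 he0.le
    _ = eps' * (16 * kap) * R := by ring
    _ ≤ eps * R := mul_le_mul_of_nonneg_right he1 (by linarith)

end Pool.Agent.FCF
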