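import Pool.Agent.FCF.PlCore
import Pool.Agent.FCF.PlEpair
import Pool.Agent.FCF.PlOpair
import Pool.Agent.FCF.PlWin

/-!
# FCF / Planar: the planar comparison theorem (FCF_PROOF.md, section 7), from its modules
-/

set_option autoImplicit false

namespace Pool.Agent.FCF

open Pool.Agent.VSC (V J LowJet)
open Set Metric

/-- The numerical conditions for the choice made in `planar`. -/
theorem planar_nm {p : Par} {C lam kap C8 kw K R ew dl g0 rho r tau : ℝ} (hl : 0 < lam)
    (hC1 : 1 ≤ C) (hkap1 : 1 ≤ kap) (hM1 : 1 ≤ p.M1)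
    (hC8 : C8 = 4 + 2 * (kap + 1) / lam + 2 * (p.M1 * (kap + 2)))
    (hkw : kw = K + C8 + p.Cs + 1) (hK : 8 ≤ K) (hrC : C ≤ r) (hrrho : r ≤ rho) (htau : 0 < tau)
    (hCp : Cp p.M * tau + 4 ≤ rho) (hRrho : 8 * rho ≤ R) (hRlam : lam ≤ R * ew)
    (_hRC2 : 2 * C ≤ R) (hR0 : 0 < R) (hdl : dl = ew * R) (hdlR : dl ≤ R)
    (hg0 : g0 = 2 * dl + lam * (C + 1)) :
    Nm p C lam K R (C8 * R) (kap * R) (kw * R) dl g0 rho r tau := by
  have hx1 : 0 < 2 * (kap + 1) / lam := by positivity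
  have hx2 : 0 < 2 * (p.M1 * (kap + 2)) := by positivity
  have hC84 : 4 ≤ C8 := by rw [hC8]; linarith
  have k1 : 2 * (kap + 1) ≤ lam * C8 := by
    have h1 : lam * (2 * (kap + 1) / lam) = 2 * (kap + 1) := by field_simp
    have h2 : lam * (2 * (kap + 1) / lam) ≤ lam * C8 :=
      mul_le_mul_of_nonneg_left (by rw [hC8]; linarith) hl.le
    linarith
  have k2 : 2 * (p.M1 * (kap + 2)) ≤ C8 := by rw [hC8]; linarith
  have k3 : 2 * (kap + 1) * R ≤ lam * C8 * R := mul_le_mul_of_nonneg_right k1 hR0.le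
  have k4 : 2 * (p.M1 * (kap + 2)) * R ≤ C8 * R := mul_le_mul_of_nonneg_right k2 hR0.le
  have k5 : 4 * R ≤ C8 * R := mul_le_mul_of_nonneg_right hC84 hR0.le
  have k6 : p.M1 * (kap * R + 2 * C) ≤ p.M1 * ((kap + 2) * R) :=
    mul_le_mul_of_nonneg_left (by linarith) (by linarith)
  exact
    { lam_pos := hl
      C_one := hC1
      C_r := hrC
      r_rho := hrrho
      tau_pos := htau
      Cp_tau := hCp
      rho_R := hRrho
      K_two := by linarith
      lam_dl := by rw [hdl]; linarith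
      g0_ge := hg0.ge
      H_ge := k5
      H_lam := by linarith
      H_M1 := by linarith
      T_nonneg := by positivity
      D_ge := by rw [hkw]; linarith }

theorem planar {p : Par} {P0 : Set V} {c : V → ℝ} (hc : Typ p P0 c) {e : V} (he : ‖e‖ = 1)
    {lam : ℝ} (hl : 0 < lam) (hP : lam • e ∈ P0) {A0 B0 : Set V} {TE TO : V → ℝ} {C g : ℝ}
    (hcan : Canon p c e A0 B0 TE TO C g) :
    ∀ eps : ℝ, 0 < eps → ∃ R0 : ℝ, ∀ R : ℝ, R0 ≤ R → ∀ x : V, ‖x‖ ≤ R → 0 ≤ inner ℝ x e →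
      |TE x - lam * inner ℝ x e| ≤ eps * R := by
  intro eps heps
  have henv := hc.env
  have hM := p.hM
  have hM1 : 1 ≤ p.M1 := by unfold Par.M1; linarith
  have hC1 := hcan.one_le
  have hg := hcan.g_pos
  -- constants
  obtain ⟨kap, hkap⟩ : ∃ y : ℝ, y = lam + 1 / g + 2 := ⟨_, rfl⟩
  have hg' : 0 < 1 / g := by positivity
  have hkap1 : 1 ≤ kap := by rw [hkap]; linarith
  obtain ⟨C8, hC8⟩ : ∃ y : ℝ, y = 4 + 2 * (kap + 1) / lam + 2 * (p.M1 * (kap + 2)) := ⟨_, rfl⟩
  have hx1 : 0 < 2 * (kap + 1) / lam := by positivity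
  have hx2 : 0 < 2 * (p.M1 * (kap + 2)) := by positivity
  have hC84 : 4 ≤ C8 := by rw [hC8]; linarith
  obtain ⟨eps1, heps1⟩ : ∃ y : ℝ, y = min 1 (eps / 4) := ⟨_, rfl⟩
  have heps1' : 0 < eps1 := heps1 ▸ lt_min one_pos (by positivity)
  have heps1a : eps1 ≤ 1 := heps1 ▸ min_le_left _ _
  have heps1b : eps1 ≤ eps / 4 := heps1 ▸ min_le_right _ _
  obtain ⟨rho, r, tau, K, hr1, hrC, hrrho, htau, hCp, hK, R1, hcore⟩ :=
    pl_core hc.large hc.bad he (kap := kap) (C8 := C8) hkap1 hC84 heps1' heps1a C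
  have hCs : 0 < p.Cs := by
    have : 0 < p.C1 := by
      have := p.hsig
      unfold Par.C1; positivity
    unfold Par.Cs; positivity
  obtain ⟨kw, hkw⟩ : ∃ y : ℝ, y = K + C8 + p.Cs + 1 := ⟨_, rfl⟩
  have hkw1 : 1 ≤ kw := by rw [hkw]; linarith
  obtain ⟨ew, hew⟩ : ∃ y : ℝ, y = min (1 / 2) (eps / 16) := ⟨_, rfl⟩
  have hew0 : 0 < ew := hew ▸ lt_min (by norm_num) (by positivity)
  have hew1 : ew ≤ 1 / 2 := hew ▸ min_le_left _ _
  have hew2 : ew ≤ eps / 16 := hew ▸ min_le_right _ _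
  obtain ⟨R2, hWF⟩ := exists_WF hc he hl hP hkw1 hew0
  -- large R
  obtain ⟨R3, hR3⟩ : ∃ y : ℝ, y = max (max R1 R2) (max (8 * rho) (max (lam / ew) (max (8 * (lam * (C + 1)) / eps)
    (max (4 * C / eps) (2 * C))))) := ⟨_, rfl⟩
  refine ⟨R3, fun R hR x hx hx0 => ?_⟩
  rw [hR3] at hR
  have hRR1 : R1 ≤ R := ((le_max_left _ _).trans (le_max_left _ _)).trans hR
  have hRR2 : R2 ≤ R := ((le_max_right _ _).trans (le_max_left _ _)).trans hR
  have hR4 := (le_max_right (max R1 R2) _).trans hR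
  have hRrho : 8 * rho ≤ R := (le_max_left _ _).trans hR4
  have hR5 := (le_max_right (8 * rho) _).trans hR4
  have hRlam : lam / ew ≤ R := (le_max_left _ _).trans hR5
  have hR6 := (le_max_right (lam / ew) _).trans hR5
  have hRg0 : 8 * (lam * (C + 1)) / eps ≤ R := (le_max_left _ _).trans hR6
  have hR7 := (le_max_right (8 * (lam * (C + 1)) / eps) _).trans hR6
  have hRC : 4 * C / eps ≤ R := (le_max_left _ _).trans hR7
  have hRC2 : 2 * C ≤ R := (le_max_right _ _).trans hR7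
  have hR0 : 0 < R := by linarith
  rw [div_le_iff₀ hew0] at hRlam
  rw [div_le_iff₀ heps] at hRg0 hRC
  obtain ⟨dl, hdl⟩ : ∃ y : ℝ, y = ew * R := ⟨_, rfl⟩
  have hdl0 : 0 < dl := by rw [hdl]; positivity
  have hdlR : dl ≤ R / 2 := by
    rw [hdl]
    have := mul_le_mul_of_nonneg_right hew1 hR0.le
    linarith
  have hdle : dl ≤ eps / 16 * R := by rw [hdl]; exact mul_le_mul_of_nonneg_right hew2 hR0.le
  obtain ⟨g0, hg0⟩ : ∃ y : ℝ, y = 2 * dl + lam * (C + 1) := ⟨_, rfl⟩
  have hg00 : 0 ≤ g0 := by rw [hg0]; positivity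
  have hg0e : g0 ≤ eps / 4 * R := by rw [hg0]; linarith
  have hn : Nm p C lam K R (C8 * R) (kap * R) (kw * R) dl g0 rho r tau :=
    planar_nm hl hC1 hkap1 hM1 hC8 hkw hK hrC hrrho htau hCp hRrho hRlam hRC2 hR0 hdl
      (by linarith) hg0
  have hball : x ∈ ball (0 : V) (kw * R) := by
    rw [mem_ball_zero_iff]
    have h8 : (1 : ℝ) < kw := by rw [hkw]; linarith
    have h9 := mul_lt_mul_of_pos_right h8 hR0
    linarith
  have hal : |al e x| ≤ R := (abs_al_le he x).trans hx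
  have hze : |ze e x| ≤ R := (abs_ze_le he x).trans hx
  have hze0 : 0 ≤ ze e x := hx0
  have hzeR : ze e x ≤ R := (le_abs_self _).trans hze
  have hrec : x ∈ Rec e (K * R) R (C8 * R) := by
    have h8 : 8 * R ≤ K * R := mul_le_mul_of_nonneg_right hK hR0.le
    have h9 : 4 * R ≤ C8 * R := mul_le_mul_of_nonneg_right hC84 hR0.le
    refine ⟨by linarith, by linarith, by linarith⟩
  change |TE x - lam * ze e x| ≤ eps * R
  rcases hze0.eq_or_lt with h0 | h0
  · rw [TE_eq_zero henv hcan h0.symm.le, ← h0]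
    simp only [mul_zero, sub_zero, abs_zero]
    positivity
  have hlze : lam * ze e x ≤ lam * R := mul_le_mul_of_nonneg_left hzeR hl.le
  have hlze0 : 0 ≤ lam * ze e x := by positivity
  rw [abs_le]
  constructor
  · -- lower bound: case O
    obtain ⟨W, hW, hpl⟩ := hWF R hRR2 false
    rw [← hdl] at hpl
    have hpair := pairO henv he hcan hn hW hpl
    have hres := hcore R hRR1 dl g0 hdl0.le (by linarith) hg00 TO W hpair x
    have hTO : TO x < kap * R := by
      have h1 := hcan.near x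
      have h2 := hcan.TE_le x
      rw [abs_le] at h1
      have h3 : max (inner ℝ x e) 0 = ze e x := max_eq_left hx0
      rw [h3] at h2
      have h4 : ze e x / g ≤ 1 / g * R := by
        rw [div_mul_eq_mul_div, one_mul]
        exact div_le_div_of_nonneg_right hzeR hg.le
      have h5 : kap * R = lam * R + 1 / g * R + 2 * R := by rw [hkap]; ring
      have h6 : 0 < lam * R := mul_pos hl hR0
      rw [h5]
      linarith [h1.1]
    have hno : x ∉ Ov e (K * R) R (C8 * R) TO W (g0 + eps1 * R) := fun h =>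
      absurd (hres h hal) (not_le.2 hTO)
    have h1 : W x - TO x ≤ g0 + eps1 * R := by
      by_contra hcon
      exact hno ⟨hrec, h0, not_le.1 hcon⟩
    have h2 := hpl x hball
    rw [abs_le] at h2
    have h3 := hcan.near x
    rw [abs_le] at h3
    have h4 : eps1 * R ≤ eps / 4 * R := mul_le_mul_of_nonneg_right heps1b hR0.le
    linarith [h2.1, h3.1]
  · -- upper bound: case E
    obtain ⟨W, hW, hpl⟩ := hWF R hRR2 true
    rw [← hdl] at hpl
    have hpair := pairE henv he hcan hn hW hpl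
    have hres := hcore R hRR1 dl g0 hdl0.le (by linarith) hg00 W TE hpair x
    have h2 := hpl x hball
    rw [abs_le] at h2
    have hWx : W x < kap * R := by
      have h7 : kap * R = lam * R + 1 / g * R + 2 * R := by rw [hkap]; ring
      have h6 : 0 < 1 / g * R := mul_pos hg' hR0
      rw [h7]
      linarith [h2.2]
    have hno : x ∉ Ov e (K * R) R (C8 * R) W TE (g0 + eps1 * R) := fun h =>
      absurd (hres h hal) (not_le.2 hWx)
    have h1 : TE x - W x ≤ g0 + eps1 * R := by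
      by_contra hcon
      exact hno ⟨hrec, h0, not_le.1 hcon⟩
    have h4 : eps1 * R ≤ eps / 4 * R := mul_le_mul_of_nonneg_right heps1b hR0.le
    linarith [h2.2]

end Pool.Agent.FCF
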