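import Pool.Agent.FCF.WgDefs

/-!
# FCF / WgCount: lattice points in balls, counting of bad pairs

* `card_ball_grid`: the square with centre `z` and half side `rho/√2` is contained in the ball; an interval of length
  `√2 rho` contains at least `√2 rho - 1 ≥ rho` integers (`rho ≥ 3`). (`Int.card_Icc`, injection into `Z`.)
* `finite_grid`: the grid points of a ball are finitely many.
* `count_pairs`: choose a maximal disjoint subfamily `u` of the balls `B_a = closedBall (zc a) (rho * l a)`, such that every `a` has `b ∈ u` with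
  `B_a ∩ B_b ≠ ∅` and `l a ≤ 2 l b` (`Vitali.exists_disjoint_subfamily_covering_enlargement`, `τ = 2`, or greedily / by
  strong induction on the finite set: take `b` with the largest `l`, remove all `a` whose ball meets `B_b`). For `b ∈ u` the number of `a`
  belonging to `b` is at most `(2 C l_b/2^k + 1)(2 C l_b/De + 1) ≤ (2C+1)^2 l_b^2/(2^k De)` (`h4`, `2^k ≤ l_b`, `De ≤ 2^k ≤ l_b`; number of
  integers in an interval), and `Σ_{b ∈ u} (rho l_b)^2 ≤ #Z` (disjoint balls, `card_ball_grid`, `h2`).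
-/

set_option autoImplicit false

namespace Pool.Agent.FCF

open Pool.Agent.VSC (V J LowJet)
open Set Metric

private theorem wcn2 (x : V) : ‖x‖ ^ 2 = x 0 ^ 2 + x 1 ^ 2 := by
  rw [← real_inner_self_eq_norm_sq, PiLp.inner_apply, Fin.sum_univ_two]
  simp only [RCLike.inner_apply, conj_trivial]
  ring

private theorem wc_gp0 (n : ℤ × ℤ) : gp n 0 = (n.1 : ℝ) := rfl

private theorem wc_gp1 (n : ℤ × ℤ) : gp n 1 = (n.2 : ℝ) := rfl

private theorem wc_card_ge (a s : ℝ) :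
    2 * s - 1 ≤ ((Finset.Icc ⌈a - s⌉ ⌊a + s⌋).card : ℝ) := by
  rw [Int.card_Icc]
  have h1 := Int.lt_floor_add_one (a + s)
  have h2 := Int.ceil_lt_add_one (a - s)
  have h3 : (⌊a + s⌋ + 1 - ⌈a - s⌉ : ℤ) ≤ ((⌊a + s⌋ + 1 - ⌈a - s⌉).toNat : ℤ) := Int.self_le_toNat _
  have h4 : ((⌊a + s⌋ + 1 - ⌈a - s⌉ : ℤ) : ℝ) ≤ (((⌊a + s⌋ + 1 - ⌈a - s⌉).toNat : ℤ) : ℝ) := by
    exact_mod_cast h3
  push_cast at h4
  linarith

private theorem wc_card_le (a r : ℝ) (hr : 0 ≤ r) :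
    ((Finset.Icc ⌈a - r⌉ ⌊a + r⌋).card : ℝ) ≤ 2 * r + 1 := by
  rw [Int.card_Icc]
  have h1 := Int.floor_le (a + r)
  have h2 := Int.le_ceil (a - r)
  rcases le_total 0 (⌊a + r⌋ + 1 - ⌈a - r⌉) with h | h
  · have h3 : (((⌊a + r⌋ + 1 - ⌈a - r⌉).toNat : ℤ) : ℝ) = ((⌊a + r⌋ + 1 - ⌈a - r⌉ : ℤ) : ℝ) := by
      rw [Int.toNat_of_nonneg h]
    push_cast at h3
    linarith
  · rw [Int.toNat_of_nonpos h]
    push_cast
    linarith


theorem finite_grid (r : ℝ) : {n : ℤ × ℤ | ‖gp n‖ ≤ r}.Finite := by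
  apply (Set.finite_Icc ((-⌊r⌋, -⌊r⌋) : ℤ × ℤ) (⌊r⌋, ⌊r⌋)).subset
  intro n hn
  have hn' : ‖gp n‖ ≤ r := hn
  have h0 : |gp n 0| ≤ r := by
    refine le_trans ?_ hn'
    apply abs_le_of_sq_le_sq _ (norm_nonneg _)
    rw [wcn2]
    nlinarith [sq_nonneg (gp n 1)]
  have h1 : |gp n 1| ≤ r := by
    refine le_trans ?_ hn'
    apply abs_le_of_sq_le_sq _ (norm_nonneg _)
    rw [wcn2]
    nlinarith [sq_nonneg (gp n 0)]
  rw [wc_gp0, abs_le] at h0
  rw [wc_gp1, abs_le] at h1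
  have a1 : n.1 ≤ ⌊r⌋ := Int.le_floor.2 h0.2
  have a2 : n.2 ≤ ⌊r⌋ := Int.le_floor.2 h1.2
  have a3 : -n.1 ≤ ⌊r⌋ := Int.le_floor.2 (by push_cast; linarith [h0.1])
  have a4 : -n.2 ≤ ⌊r⌋ := Int.le_floor.2 (by push_cast; linarith [h1.1])
  refine ⟨⟨?_, ?_⟩, ⟨a1, a2⟩⟩
  · show -⌊r⌋ ≤ n.1
    omega
  · show -⌊r⌋ ≤ n.2
    omega

theorem card_ball_grid {rho : ℝ} (hr : 3 ≤ rho) (z : V) {Z : Finset (ℤ × ℤ)}
    (h : ∀ n : ℤ × ℤ, ‖gp n - z‖ ≤ rho → n ∈ Z) : rho ^ 2 ≤ (Z.card : ℝ) := by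
  set s : ℝ := 7 / 10 * rho with hs
  have hsub : (Finset.Icc ⌈z 0 - s⌉ ⌊z 0 + s⌋) ×ˢ (Finset.Icc ⌈z 1 - s⌉ ⌊z 1 + s⌋) ⊆ Z := by
    intro n hn
    rw [Finset.mem_product, Finset.mem_Icc, Finset.mem_Icc, Int.ceil_le, Int.le_floor,
      Int.ceil_le, Int.le_floor] at hn
    obtain ⟨⟨h1, h2⟩, h3, h4⟩ := hn
    apply h
    apply le_of_sq_le_sq _ (by linarith)
    rw [wcn2, PiLp.sub_apply, PiLp.sub_apply, wc_gp0, wc_gp1]
    have e1 : ((n.1 : ℝ) - z 0) ^ 2 ≤ s ^ 2 := by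
      apply sq_le_sq'
      · linarith
      · linarith
    have e2 : ((n.2 : ℝ) - z 1) ^ 2 ≤ s ^ 2 := by
      apply sq_le_sq'
      · linarith
      · linarith
    have e3 : s ^ 2 = 49 / 100 * rho ^ 2 := by rw [hs]; ring
    nlinarith [sq_nonneg rho]
  have hcard := Finset.card_le_card hsub
  rw [Finset.card_product] at hcard
  have hcard' : (((Finset.Icc ⌈z 0 - s⌉ ⌊z 0 + s⌋).card : ℝ) *
      ((Finset.Icc ⌈z 1 - s⌉ ⌊z 1 + s⌋).card : ℝ)) ≤ (Z.card : ℝ) := by exact_mod_cast hcard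
  have c1 := wc_card_ge (z 0) s
  have c2 := wc_card_ge (z 1) s
  have c3 : rho ≤ 2 * s - 1 := by rw [hs]; linarith
  refine le_trans ?_ hcard'
  rw [sq]
  exact mul_le_mul (le_trans c3 c1) (le_trans c3 c2) (by linarith) (by positivity)

theorem count_pairs {k : ℕ} {De rho C : ℝ} (hDe : 0 < De) (hDk : De ≤ 2 ^ k) (hrho : 0 < rho)
    (h3 : 3 ≤ rho * 2 ^ k) (hC : 0 ≤ C) (Bp : Finset (ℤ × ℕ)) (zc : ℤ × ℕ → V) (l : ℤ × ℕ → ℝ)
    (Z : Finset (ℤ × ℤ)) (h1 : ∀ a ∈ Bp, 2 ^ k ≤ l a)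
    (h2 : ∀ a ∈ Bp, ∀ n : ℤ × ℤ, ‖gp n - zc a‖ ≤ rho * l a → n ∈ Z)
    (h4 : ∀ a ∈ Bp, ∀ b ∈ Bp, ‖zc a - zc b‖ ≤ rho * (l a + l b) → l a ≤ 2 * l b →
      |(a.1 : ℝ) - b.1| * 2 ^ k ≤ C * l b ∧ |(a.2 : ℝ) - b.2| * De ≤ C * l b) :
    (Bp.card : ℝ) * (rho ^ 2 * (2 ^ k * De)) ≤ (2 * C + 1) ^ 2 * Z.card := by
  classical
  have h2k : (0 : ℝ) < 2 ^ k := by positivity
  induction Bp using Finset.strongInduction generalizing Z with
  | H Bp ih =>
  rcases Bp.eq_empty_or_nonempty with rfl | hne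
  · simp only [Finset.card_empty, Nat.cast_zero, zero_mul]
    positivity
  obtain ⟨b, hb, hmax⟩ := Bp.exists_max_image l hne
  have hlb : 2 ^ k ≤ l b := h1 b hb
  have hlb0 : 0 < l b := lt_of_lt_of_le h2k hlb
  set N : Finset (ℤ × ℕ) := Bp.filter (fun a => ‖zc a - zc b‖ ≤ rho * (l a + l b)) with hN
  set B' : Finset (ℤ × ℕ) := Bp.filter (fun a => ¬ ‖zc a - zc b‖ ≤ rho * (l a + l b)) with hB'
  set Zb : Finset (ℤ × ℤ) := Z.filter (fun n => ‖gp n - zc b‖ ≤ rho * l b) with hZb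
  set Z' : Finset (ℤ × ℤ) := Z.filter (fun n => ¬ ‖gp n - zc b‖ ≤ rho * l b) with hZ'
  have hcB : N.card + B'.card = Bp.card :=
    Finset.card_filter_add_card_filter_not (s := Bp) (fun a => ‖zc a - zc b‖ ≤ rho * (l a + l b))
  have hcZ : Zb.card + Z'.card = Z.card :=
    Finset.card_filter_add_card_filter_not (s := Z) (fun n => ‖gp n - zc b‖ ≤ rho * l b)
  have hbN : b ∈ N := by
    rw [hN, Finset.mem_filter]
    refine ⟨hb, ?_⟩
    rw [sub_self, norm_zero]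
    positivity
  have hss : B' ⊂ Bp := by
    rw [Finset.ssubset_iff_of_subset (Finset.filter_subset _ _)]
    refine ⟨b, hb, ?_⟩
    rw [Finset.mem_filter]
    intro hcon
    rw [hN, Finset.mem_filter] at hbN
    exact hcon.2 hbN.2
  have hrec := ih B' hss (Z := Z')
    (fun a ha => h1 a (Finset.mem_filter.1 ha).1)
    (fun a ha n hn => by
      rw [hZ', Finset.mem_filter]
      refine ⟨h2 a (Finset.mem_filter.1 ha).1 n hn, fun hcon => ?_⟩
      apply (Finset.mem_filter.1 ha).2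
      have e1 : zc a - zc b = (gp n - zc b) - (gp n - zc a) := by abel
      rw [e1]
      refine le_trans (norm_sub_le _ _) ?_
      linarith)
    (fun a ha c hc => h4 a (Finset.mem_filter.1 ha).1 c (Finset.mem_filter.1 hc).1)
  have hZbc : (rho * l b) ^ 2 ≤ (Zb.card : ℝ) := by
    refine card_ball_grid (le_trans h3 ?_) (zc b) ?_
    · exact mul_le_mul_of_nonneg_left hlb hrho.le
    · intro n hn
      rw [hZb, Finset.mem_filter]
      exact ⟨h2 b hb n hn, hn⟩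
  have hNc : (N.card : ℝ) ≤ (2 * (C * l b / 2 ^ k) + 1) * (2 * (C * l b / De) + 1) := by
    have hinj : Function.Injective (fun a : ℤ × ℕ => ((a.1, (a.2 : ℤ)) : ℤ × ℤ)) := by
      rintro ⟨a1, a2⟩ ⟨b1, b2⟩ hab
      simp only [Prod.mk.injEq, Nat.cast_inj] at hab
      rw [hab.1, hab.2]
    have hsub : N.image (fun a : ℤ × ℕ => ((a.1, (a.2 : ℤ)) : ℤ × ℤ)) ⊆
        (Finset.Icc ⌈(b.1 : ℝ) - C * l b / 2 ^ k⌉ ⌊(b.1 : ℝ) + C * l b / 2 ^ k⌋) ×ˢ
        (Finset.Icc ⌈(b.2 : ℝ) - C * l b / De⌉ ⌊(b.2 : ℝ) + C * l b / De⌋) := by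
      intro x hx
      rw [Finset.mem_image] at hx
      obtain ⟨a, ha, rfl⟩ := hx
      rw [hN, Finset.mem_filter] at ha
      obtain ⟨g1, g2⟩ := h4 a ha.1 b hb ha.2 (by linarith [hmax a ha.1])
      rw [← le_div_iff₀ h2k, abs_le] at g1
      rw [← le_div_iff₀ hDe, abs_le] at g2
      rw [Finset.mem_product, Finset.mem_Icc, Finset.mem_Icc, Int.ceil_le, Int.le_floor,
        Int.ceil_le, Int.le_floor]
      push_cast
      refine ⟨⟨?_, ?_⟩, ?_, ?_⟩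
      · linarith [g1.1]
      · linarith [g1.2]
      · linarith [g2.1]
      · linarith [g2.2]
    have hcard := Finset.card_le_card hsub
    rw [Finset.card_image_of_injective _ hinj, Finset.card_product] at hcard
    have hcard' : (N.card : ℝ) ≤
        ((Finset.Icc ⌈(b.1 : ℝ) - C * l b / 2 ^ k⌉ ⌊(b.1 : ℝ) + C * l b / 2 ^ k⌋).card : ℝ) *
        ((Finset.Icc ⌈(b.2 : ℝ) - C * l b / De⌉ ⌊(b.2 : ℝ) + C * l b / De⌋).card : ℝ) := by
      exact_mod_cast hcard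
    refine le_trans hcard' ?_
    exact mul_le_mul (wc_card_le _ _ (by positivity)) (wc_card_le _ _ (by positivity))
      (by positivity) (by positivity)
  have hN2 : (N.card : ℝ) * (rho ^ 2 * (2 ^ k * De)) ≤ (2 * C + 1) ^ 2 * (rho * l b) ^ 2 := by
    have e1 : (2 * (C * l b / 2 ^ k) + 1) * 2 ^ k ≤ (2 * C + 1) * l b := by
      have : (2 * (C * l b / 2 ^ k) + 1) * 2 ^ k = 2 * C * l b + 2 ^ k := by
        field_simp
      rw [this]
      linarith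
    have e2 : (2 * (C * l b / De) + 1) * De ≤ (2 * C + 1) * l b := by
      have : (2 * (C * l b / De) + 1) * De = 2 * C * l b + De := by
        field_simp
      rw [this]
      linarith
    have e3 : ((2 * (C * l b / 2 ^ k) + 1) * 2 ^ k) * ((2 * (C * l b / De) + 1) * De) ≤
        ((2 * C + 1) * l b) * ((2 * C + 1) * l b) :=
      mul_le_mul e1 e2 (by positivity) (by positivity)
    calc (N.card : ℝ) * (rho ^ 2 * (2 ^ k * De))
        ≤ ((2 * (C * l b / 2 ^ k) + 1) * (2 * (C * l b / De) + 1)) *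
            (rho ^ 2 * (2 ^ k * De)) := mul_le_mul_of_nonneg_right hNc (by positivity)
      _ = rho ^ 2 * (((2 * (C * l b / 2 ^ k) + 1) * 2 ^ k) * ((2 * (C * l b / De) + 1) * De)) := by
          ring
      _ ≤ rho ^ 2 * (((2 * C + 1) * l b) * ((2 * C + 1) * l b)) :=
          mul_le_mul_of_nonneg_left e3 (by positivity)
      _ = (2 * C + 1) ^ 2 * (rho * l b) ^ 2 := by ring
  have hcB' : (Bp.card : ℝ) = N.card + B'.card := by exact_mod_cast hcB.symm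
  have hcZ' : (Z.card : ℝ) = Zb.card + Z'.card := by exact_mod_cast hcZ.symm
  rw [hcB', hcZ', add_mul, mul_add]
  refine add_le_add (le_trans hN2 ?_) hrec
  exact mul_le_mul_of_nonneg_left hZbc (by positivity)

end Pool.Agent.FCF
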