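import Pool.Agent.FCF.WgGeo
import Pool.Agent.FCF.WgCount

/-!
# FCF / WgTip: selection of a good grid point near the tip (FCF_PROOF.md, 8.3)

PROOF. `z0 = q J e + th A`, `P . z0 = q (P . J e) + th` for `P = Pm, Pp`. `‖z0‖ ≤ 3K²R + K * 2KR ≤ 5K²R`, `z0 . e = th (s1+s2)`. By
`card_ball_grid` (radius `dl ≥ 3`) and `card` there is a grid point `gp n0`, `‖gp n0 - z0‖ ≤ dl`, `n0 ∉ Z`; it has
`‖gp n0‖ ≤ WR K R`, `gp n0 . e ≥ h0` so `n0 ∈ Y` (`bad`). For `n ∈ Y` put `w(n) = max |Tm (gp n) - q (Pm.Je) - th| |Tp (gp n) - q (Pp.Je) - th|`.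
`w(n0) ≤ dl + K dl ≤ 2 K dl` (`gl_m`, `gl_p`, `abs_m`, `abs_p`). `Y` is finite (`Y_le`, `finite_grid`): take `n ∈ Y` with minimal `w = w(n)`.
`‖gp n - z0‖ ≤ K (dl + w) ≤ 3 K² dl` (`inv`). By `surj` and `inv` there is `u` with `Pm . u = th + q (Pm.Je) - Tm (gp n)`, `Pp . u = ...`, `‖u‖ ≤ K w`;
`z = gp n + u`, `‖z - z0‖ ≤ 5 K² dl`. Suppose `4 sg² 2^k < w`, `‖gp n' - z‖ ≤ w/(4K)`, `n' ∉ Z`. Then `n' ∈ Y` (`‖gp n' - z0‖ ≤ 6 K² dl`) and
`|Tm (gp n') - q (Pm.Je) - th| = |Pm . (gp n' - z) + err| ≤ w/4 + sg² max ((K+1) w) (2^k) ≤ w/4 + w/4 + w/4 < w`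
(`‖gp n' - gp n‖ ≤ K w + w/(4K) ≤ (K+1) w`, `sg² (K+1) ≤ 1/4`, `sg² 2^k < w/4`), the same for `Tp`: contradiction with the minimality.
-/

set_option autoImplicit false

namespace Pool.Agent.FCF

open Pool.Agent.VSC (V J LowJet)
open Set Metric

private theorem wt_basic {p : Par} {P0 : Set V} {c : V → ℝ} {e Pm Pp A : V} {s1 s2 K : ℝ} {bo : Bool}
    {b Tm Tp : V → ℝ} {Y : Set (ℤ × ℤ)} {Z : Finset (ℤ × ℤ)} {sg : ℝ} {k : ℕ} {R dl h0 : ℝ}
    (S : WScene p P0 c e Pm Pp A s1 s2 K bo b Tm Tp Y Z sg k R dl h0) {q th : ℝ}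
    (hq : |q| ≤ 3 * K ^ 2 * R) (hth0 : 0 ≤ th) (hth : th ≤ 2 * K * R) :
    1 ≤ K ∧ 3 ≤ dl ∧ dl ≤ R ∧ 1000 * K ^ 2 * dl ≤ R ∧ 0 ≤ R ∧
    ‖q • J e + th • A‖ ≤ 5 * K ^ 2 * R ∧
    (inner ℝ Pm (q • J e + th • A) : ℝ) = q * inner ℝ Pm (J e) + th ∧
    (inner ℝ Pp (q • J e + th • A) : ℝ) = q * inner ℝ Pp (J e) + th ∧
    (inner ℝ (q • J e + th • A) e : ℝ) = th * (s1 + s2) ∧ 6 * K ^ 2 * R ≤ WR K R := by
  have G := S.geo
  have hK := G.K1
  have hdl := S.dl_ge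
  have hK2 : 1 ≤ K ^ 2 := one_le_pow₀ hK
  have hK3 : 1 ≤ K ^ 3 := one_le_pow₀ hK
  have hR1 : 1000 * K ^ 2 * dl ≤ R := by
    refine le_trans ?_ S.R_ge
    have : K ^ 5 = K ^ 3 * K ^ 2 := by ring
    rw [this]
    have h1 : K ^ 2 * dl ≤ K ^ 3 * (K ^ 2 * dl) := by
      have : 0 ≤ K ^ 2 * dl := by positivity
      nlinarith
    nlinarith
  have hR0 : dl ≤ R := by nlinarith
  have hRn : 0 ≤ R := by linarith
  refine ⟨hK, hdl, hR0, hR1, hRn, ?_, ?_, ?_, ?_, ?_⟩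
  · refine le_trans (norm_add_le _ _) ?_
    rw [norm_smul, norm_smul, Real.norm_eq_abs, Real.norm_eq_abs, Pool.Agent.VSC.norm_J, G.he,
      mul_one, abs_of_nonneg hth0]
    have h1 : th * ‖A‖ ≤ (2 * K * R) * K :=
      mul_le_mul hth G.nA (norm_nonneg _) (by positivity)
    nlinarith
  · have h1 := G.Am
    rw [real_inner_comm] at h1
    rw [inner_add_right, real_inner_smul_right, real_inner_smul_right, h1, mul_one]
  · have h1 := G.Ap
    rw [real_inner_comm] at h1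
    rw [inner_add_right, real_inner_smul_right, real_inner_smul_right, h1, mul_one]
  · rw [inner_add_left, real_inner_smul_left, real_inner_smul_left, Pool.Agent.VSC.inner_J,
      G.Ae.1]
    ring
  · rw [WR]
    have : K ^ 4 = K ^ 2 * K ^ 2 := by ring
    rw [this]
    have h1 : K ^ 2 * R ≤ K ^ 2 * (K ^ 2 * R) := by
      have : 0 ≤ K ^ 2 * R := by positivity
      nlinarith
    nlinarith

private theorem wt_ie {e x y : V} (he : ‖e‖ = 1) : (inner ℝ y e : ℝ) - ‖x - y‖ ≤ inner ℝ x e := by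
  have h := abs_real_inner_le_norm (x - y) e
  rw [he, mul_one, inner_sub_left, abs_le] at h
  linarith [h.1]

private theorem wt_near {p : Par} {P0 : Set V} {c : V → ℝ} {e Pm Pp A : V} {s1 s2 K : ℝ} {bo : Bool}
    {b Tm Tp : V → ℝ} {Y : Set (ℤ × ℤ)} {Z : Finset (ℤ × ℤ)} {sg : ℝ} {k : ℕ} {R dl h0 : ℝ}
    (S : WScene p P0 c e Pm Pp A s1 s2 K bo b Tm Tp Y Z sg k R dl h0) {q th w : ℝ}
    (hq : |q| ≤ 3 * K ^ 2 * R) (hth0 : 0 ≤ th) (hth : th ≤ 2 * K * R)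
    (hh : h0 + 60 * K ^ 2 * dl ≤ th * (s1 + s2)) {n : ℤ × ℤ} (hn : n ∈ Y) (hw : w ≤ 2 * K * dl)
    (hwm : |Tm (gp n) - q * inner ℝ Pm (J e) - th| ≤ w)
    (hwp : |Tp (gp n) - q * inner ℝ Pp (J e) - th| ≤ w) :
    ‖gp n - (q • J e + th • A)‖ ≤ 3 * K ^ 2 * dl ∧ ‖gp n‖ ≤ 6 * K ^ 2 * R ∧
      57 * K ^ 2 * dl ≤ inner ℝ (gp n) e := by
  obtain ⟨hK, hdl, hR0, hR1, hRn, hz0, hzm, hzp, hze, hWR⟩ := wt_basic S hq hth0 hth
  have G := S.geo
  have h1 := S.gl_m (gp n) (S.Y_le n hn)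
  have h2 := S.gl_p (gp n) (S.Y_le n hn)
  have hm : |(inner ℝ Pm (gp n - (q • J e + th • A)) : ℝ)| ≤ dl + w := by
    rw [inner_sub_right, hzm]
    rw [abs_le] at h1 hwm ⊢
    constructor <;> linarith [h1.1, h1.2, hwm.1, hwm.2]
  have hp : |(inner ℝ Pp (gp n - (q • J e + th • A)) : ℝ)| ≤ dl + w := by
    rw [inner_sub_right, hzp]
    rw [abs_le] at h2 hwp ⊢
    constructor <;> linarith [h2.1, h2.2, hwp.1, hwp.2]
  have hn1 : ‖gp n - (q • J e + th • A)‖ ≤ 3 * K ^ 2 * dl := by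
    refine le_trans (G.inv _) ?_
    have h3 := max_le hm hp
    have h4 : K * max |(inner ℝ Pm (gp n - (q • J e + th • A)) : ℝ)|
        |(inner ℝ Pp (gp n - (q • J e + th • A)) : ℝ)| ≤ K * (dl + 2 * K * dl) :=
      mul_le_mul_of_nonneg_left (by linarith) (by linarith)
    refine le_trans h4 ?_
    have h5 : K * dl ≤ K ^ 2 * dl := by
      have : 0 ≤ K * dl := by positivity
      nlinarith
    nlinarith
  have hKd : 0 ≤ K ^ 2 * dl := by positivity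
  refine ⟨hn1, ?_, ?_⟩
  · have h3 : ‖gp n‖ ≤ ‖gp n - (q • J e + th • A)‖ + ‖q • J e + th • A‖ := by
      have := norm_add_le (gp n - (q • J e + th • A)) (q • J e + th • A)
      rwa [sub_add_cancel] at this
    have h4 : R ≤ K ^ 2 * R := by
      have : 1 ≤ K ^ 2 := one_le_pow₀ hK
      nlinarith
    nlinarith
  · have h3 := wt_ie (x := gp n) (y := q • J e + th • A) G.he
    rw [hze] at h3
    linarith [S.h0_nonneg]


theorem wg_tip {p : Par} {P0 : Set V} {c : V → ℝ} {e Pm Pp A : V} {s1 s2 K : ℝ} {bo : Bool}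
    {b Tm Tp : V → ℝ} {Y : Set (ℤ × ℤ)} {Z : Finset (ℤ × ℤ)} {sg : ℝ} {k : ℕ} {R dl h0 : ℝ}
    (S : WScene p P0 c e Pm Pp A s1 s2 K bo b Tm Tp Y Z sg k R dl h0) {q th : ℝ}
    (hq : |q| ≤ 3 * K ^ 2 * R) (hth0 : 0 ≤ th) (hth : th ≤ 2 * K * R)
    (hh : h0 + 60 * K ^ 2 * dl ≤ th * (s1 + s2)) :
    ∃ n ∈ Y, ∃ (w : ℝ) (z : V), 0 ≤ w ∧ w ≤ 2 * K * dl ∧
      |Tm (gp n) - q * inner ℝ Pm (J e) - th| ≤ w ∧
      |Tp (gp n) - q * inner ℝ Pp (J e) - th| ≤ w ∧ ‖gp n - z‖ ≤ K * w ∧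
      ‖z - (q • J e + th • A)‖ ≤ 5 * K ^ 2 * dl ∧
      (4 * sg ^ 2 * 2 ^ k < w → ∀ n' : ℤ × ℤ, ‖gp n' - z‖ ≤ w / (4 * K) → n' ∈ Z) := by
  obtain ⟨hK, hdl, hR0, hR1, hRn, hz0, hzm, hzp, hze, hWR⟩ := wt_basic S hq hth0 hth
  have G := S.geo
  have hK0 : 0 < K := by linarith
  have hKd : 0 ≤ K ^ 2 * dl := by positivity
  have hK2 : 1 ≤ K ^ 2 := one_le_pow₀ hK
  have hKR : R ≤ K ^ 2 * R := by nlinarith
  set z0 : V := q • J e + th • A with hz0def
  -- points near `z0` outside `Z` are in `Y`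
  have hYn : ∀ n' : ℤ × ℤ, ‖gp n' - z0‖ ≤ 6 * K ^ 2 * dl → n' ∉ Z → n' ∈ Y := by
    intro n' h1 h2
    by_contra hcon
    apply h2
    apply S.bad n' _ _ hcon
    · refine le_trans ?_ hWR
      have h3 : ‖gp n'‖ ≤ ‖gp n' - z0‖ + ‖z0‖ := by
        have := norm_add_le (gp n' - z0) z0
        rwa [sub_add_cancel] at this
      nlinarith
    · have h3 := wt_ie (x := gp n') (y := z0) G.he
      rw [hze] at h3
      nlinarith
  obtain ⟨n0, hn0, hn0Z⟩ : ∃ n0 : ℤ × ℤ, ‖gp n0 - z0‖ ≤ dl ∧ n0 ∉ Z := by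
    by_contra hcon
    push Not at hcon
    have := card_ball_grid hdl z0 hcon
    exact absurd S.card (not_lt.2 this)
  have hn0Y : n0 ∈ Y := by
    apply hYn n0 _ hn0Z
    nlinarith
  set wf : ℤ × ℤ → ℝ := fun n => max |Tm (gp n) - q * inner ℝ Pm (J e) - th|
    |Tp (gp n) - q * inner ℝ Pp (J e) - th| with hwf
  have hw0 : wf n0 ≤ 2 * K * dl := by
    have h1 := S.gl_m (gp n0) (S.Y_le n0 hn0Y)
    have h2 := S.gl_p (gp n0) (S.Y_le n0 hn0Y)
    have h3 := G.abs_m (gp n0 - z0)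
    have h4 := G.abs_p (gp n0 - z0)
    have h5 : K * ‖gp n0 - z0‖ ≤ K * dl := mul_le_mul_of_nonneg_left hn0 hK0.le
    have h6 : dl ≤ K * dl := by nlinarith
    rw [inner_sub_right, hzm, abs_le] at h3
    rw [inner_sub_right, hzp, abs_le] at h4
    rw [abs_le] at h1 h2
    apply max_le
    · rw [abs_le]
      constructor <;> linarith [h1.1, h1.2, h3.1, h3.2]
    · rw [abs_le]
      constructor <;> linarith [h2.1, h2.2, h4.1, h4.2]
  have hYfin : Y.Finite := (finite_grid (WR K R)).subset (fun n hn => S.Y_le n hn)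
  obtain ⟨n, hnY, hmin⟩ := Set.exists_min_image Y wf hYfin ⟨n0, hn0Y⟩
  set w : ℝ := wf n with hw
  have hw2 : w ≤ 2 * K * dl := le_trans (hmin n0 hn0Y) hw0
  have hwm : |Tm (gp n) - q * inner ℝ Pm (J e) - th| ≤ w := le_max_left _ _
  have hwp : |Tp (gp n) - q * inner ℝ Pp (J e) - th| ≤ w := le_max_right _ _
  have hwn : 0 ≤ w := le_trans (abs_nonneg _) hwm
  obtain ⟨hna, hnb, hnc⟩ := wt_near S hq hth0 hth hh hnY hw2 hwm hwp
  obtain ⟨u, hum, hup⟩ := G.surj (th + q * inner ℝ Pm (J e) - Tm (gp n))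
    (th + q * inner ℝ Pp (J e) - Tp (gp n))
  have hu : ‖u‖ ≤ K * w := by
    refine le_trans (G.inv u) (mul_le_mul_of_nonneg_left ?_ hK0.le)
    rw [hum, hup]
    apply max_le
    · rw [abs_sub_comm]
      have : Tm (gp n) - (th + q * inner ℝ Pm (J e)) = Tm (gp n) - q * inner ℝ Pm (J e) - th := by
        ring
      rw [this]
      exact hwm
    · rw [abs_sub_comm]
      have : Tp (gp n) - (th + q * inner ℝ Pp (J e)) = Tp (gp n) - q * inner ℝ Pp (J e) - th := by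
        ring
      rw [this]
      exact hwp
  have hzz0 : ‖gp n + u - z0‖ ≤ 5 * K ^ 2 * dl := by
    have h1 : gp n + u - z0 = (gp n - z0) + u := by abel
    rw [h1]
    refine le_trans (norm_add_le _ _) ?_
    have h2 : K * w ≤ K * (2 * K * dl) := mul_le_mul_of_nonneg_left hw2 hK0.le
    nlinarith
  refine ⟨n, hnY, w, gp n + u, hwn, hw2, hwm, hwp, ?_, hzz0, ?_⟩
  · rw [sub_add_cancel_left, norm_neg]
    exact hu
  · intro hlt n' hn'
    by_contra hn'Z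
    have hw4 : w / (4 * K) ≤ K ^ 2 * dl := by
      rw [div_le_iff₀ (by positivity)]
      have h1 : K * dl ≤ K ^ 2 * dl * K := by
        have : 0 ≤ K * dl := by positivity
        nlinarith
      nlinarith
    have hn'Y : n' ∈ Y := by
      apply hYn n' _ hn'Z
      have h1 : gp n' - z0 = (gp n' - (gp n + u)) + (gp n + u - z0) := by abel
      rw [h1]
      refine le_trans (norm_add_le _ _) ?_
      linarith
    have hdist : ‖gp n' - gp n‖ ≤ (K + 1) * w := by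
      have h1 : gp n' - gp n = (gp n' - (gp n + u)) + u := by abel
      rw [h1]
      refine le_trans (norm_add_le _ _) ?_
      have h2 : w / (4 * K) ≤ w := by
        rw [div_le_iff₀ (by positivity)]
        nlinarith
      linarith
    have hnn : ‖gp n'‖ ≤ WR K R := S.Y_le n' hn'Y
    have hsg : sg ^ 2 * (K + 1) ≤ 1 / 4 := by
      have h1 : sg * (48 * K) ≤ 1 := by
        have := S.sg_le
        rwa [le_div_iff₀ (by positivity)] at this
      have h2 : sg ≤ 1 := by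
        have := S.sg_pos
        nlinarith
      have h3 : sg ^ 2 ≤ sg := by
        have := S.sg_pos
        nlinarith
      have h4 : sg ^ 2 * (K + 1) ≤ sg * (2 * K) := by
        apply mul_le_mul h3 (by linarith) (by linarith) S.sg_pos.le
      linarith
    have herr : sg ^ 2 * max ‖gp n' - gp n‖ (2 ^ k) ≤ w / 4 := by
      rcases le_total ‖gp n' - gp n‖ (2 ^ k) with h | h
      · rw [max_eq_right h]; linarith
      · rw [max_eq_left h]
        have h1 : sg ^ 2 * ‖gp n' - gp n‖ ≤ sg ^ 2 * ((K + 1) * w) :=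
          mul_le_mul_of_nonneg_left hdist (by positivity)
        nlinarith
    have hwpos : 0 < w := by
      have : 0 ≤ 4 * sg ^ 2 * 2 ^ k := by positivity
      linarith
    have h1 := S.pl_m n hnY (gp n') hnn
    have h2 := S.pl_p n hnY (gp n') hnn
    have h3 := G.abs_m (gp n' - (gp n + u))
    have h4 := G.abs_p (gp n' - (gp n + u))
    have h5 : K * ‖gp n' - (gp n + u)‖ ≤ w / 4 := by
      have : K * ‖gp n' - (gp n + u)‖ ≤ K * (w / (4 * K)) :=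
        mul_le_mul_of_nonneg_left hn' hK0.le
      have h6 : K * (w / (4 * K)) = w / 4 := by field_simp
      linarith
    rw [inner_sub_right, inner_add_right, hum, abs_le] at h3
    rw [inner_sub_right, inner_add_right, hup, abs_le] at h4
    rw [inner_sub_right, abs_le] at h1 h2
    have hlt2 : wf n' ≤ w / 2 := by
      apply max_le
      · rw [abs_le]
        constructor <;> linarith [h1.1, h1.2, h3.1, h3.2]
      · rw [abs_le]
        constructor <;> linarith [h2.1, h2.2, h4.1, h4.2]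
    have := hmin n' hn'Y
    linarith

/-- A good grid point whose levels are near `th` is near the tip; in particular it is high. -/
theorem wg_near {p : Par} {P0 : Set V} {c : V → ℝ} {e Pm Pp A : V} {s1 s2 K : ℝ} {bo : Bool}
    {b Tm Tp : V → ℝ} {Y : Set (ℤ × ℤ)} {Z : Finset (ℤ × ℤ)} {sg : ℝ} {k : ℕ} {R dl h0 : ℝ}
    (S : WScene p P0 c e Pm Pp A s1 s2 K bo b Tm Tp Y Z sg k R dl h0) {q th w : ℝ}
    (hq : |q| ≤ 3 * K ^ 2 * R) (hth0 : 0 ≤ th) (hth : th ≤ 2 * K * R)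
    (hh : h0 + 60 * K ^ 2 * dl ≤ th * (s1 + s2)) {n : ℤ × ℤ} (hn : n ∈ Y) (hw : w ≤ 2 * K * dl)
    (hwm : |Tm (gp n) - q * inner ℝ Pm (J e) - th| ≤ w)
    (hwp : |Tp (gp n) - q * inner ℝ Pp (J e) - th| ≤ w) :
    ‖gp n - (q • J e + th • A)‖ ≤ 3 * K ^ 2 * dl ∧ ‖gp n‖ ≤ 6 * K ^ 2 * R ∧
      57 * K ^ 2 * dl ≤ inner ℝ (gp n) e := by
  exact wt_near S hq hth0 hth hh hn hw hwm hwp

end Pool.Agent.FCF
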