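import Pool.Agent.FCF.WgOffO
import Pool.Agent.FCF.WgTip

/-!
# FCF / WgLevO: the level at a tip (FCF_PROOF.md, 8.3, O-case)

`y = gp n`, `l = max w (2^k) ≤ 2 K dl`, `L = WLO .. q`.
LOWER: `z' = y + 2 l A`: `T z' - q_T - th ≥ -w + 2 l - sg² max (2Kl) (2^k) > 0`, so `L z' > th`; if `b z' + g < th` then `z' ∈ O(g)` (`‖z'‖ ≤ WR`, `wgO_high`) contradicts `hF.le_lo`; so
`b z' + g ≥ th`. `b_fi` with `r = K l`: `b y ≥ b z' - K² l`.
UPPER: `wgO_off` with `d = 24 K l`, every `eta > 0`: `z ∈ O`, `‖z - y‖ < 24 K l`, `b z + g < th + eta`; `b_fi` with `r = 3 K l`: `b y ≤ b z + 3K² l`; take `eta = K² l`.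
-/

set_option autoImplicit false

namespace Pool.Agent.FCF

open Pool.Agent.VSC (V J LowJet)
open Set Metric

/-- The function near the tip along `A`. -/
private theorem wgLevO_T {K l w sg q th PJ : ℝ} {k : ℕ} {P A y : V} {T : V → ℝ} (hK : 1 ≤ K)
    (hsg : 0 < sg) (hsgK : sg ≤ 1 / (48 * K)) (hl : l = max w (2 ^ k)) (hA : ‖A‖ ≤ K)
    (hPA : inner ℝ A P = (1 : ℝ)) (hpl : |T (y + (2 * l) • A) - T y - inner ℝ P (y + (2 * l) • A - y)| ≤
      sg ^ 2 * max ‖y + (2 * l) • A - y‖ (2 ^ k))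
    (hw : |T y - q * PJ - th| ≤ w) : th < T (y + (2 * l) • A) - q * PJ := by
  have hl1 : (2 : ℝ) ^ k ≤ l := by rw [hl]; exact le_max_right _ _
  have hl2 : w ≤ l := by rw [hl]; exact le_max_left _ _
  have h2k : (0 : ℝ) < 2 ^ k := by positivity
  have hl0 : 0 < l := by linarith
  have e1 : y + (2 * l) • A - y = (2 * l) • A := by abel
  rw [e1, inner_smul_right, real_inner_comm, hPA, norm_smul, Real.norm_eq_abs,
    abs_of_pos (show (0 : ℝ) < 2 * l by positivity)] at hpl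
  have h1 : max (2 * l * ‖A‖) (2 ^ k) ≤ 2 * l * K := by
    refine max_le (mul_le_mul_of_nonneg_left hA (by positivity)) ?_
    nlinarith
  have h48 : 48 * K * sg ≤ 1 := by
    rw [le_div_iff₀ (by positivity)] at hsgK
    linarith
  have hsg1 : sg ≤ 1 := by nlinarith
  have h2 : sg ^ 2 * max (2 * l * ‖A‖) (2 ^ k) ≤ l / 2 := by
    calc sg ^ 2 * max (2 * l * ‖A‖) (2 ^ k) ≤ sg ^ 2 * (2 * l * K) :=
          mul_le_mul_of_nonneg_left h1 (by positivity)
      _ = sg * (48 * K * sg) * l / 24 := by ring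
      _ ≤ 1 * 1 * l / 24 := by gcongr
      _ ≤ l / 2 := by linarith
  have h3 := (abs_le.1 hpl).1
  have h4 := (abs_le.1 hw).1
  linarith

theorem wgO_lev {p : Par} {P0 : Set V} {c : V → ℝ} {e Pm Pp A : V} {s1 s2 K : ℝ}
    {b Tm Tp : V → ℝ} {Y : Set (ℤ × ℤ)} {Z : Finset (ℤ × ℤ)} {sg : ℝ} {k : ℕ} {R dl h0 : ℝ}
    {B0 : Set V} (S : WScene p P0 c e Pm Pp A s1 s2 K false b Tm Tp Y Z sg k R dl h0)
    (D : WDatO p c e K dl B0 b) {q g th w : ℝ} (hq : |q| ≤ 3 * K ^ 2 * R)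
    (hg : K ^ 3 * h0 + 64 * K ^ 5 * dl ≤ g) (hgR : g ≤ R) (hth : th < 2 * K * R)
    (hF : IsFst (2 * K * R) (OvO (WR K R) e b (WLO Tm Tp e Pm Pp q) g) (fun x => b x + g) th)
    {n : ℤ × ℤ} (hn : n ∈ Y) (hw : w ≤ 2 * K * dl)
    (hwm : |Tm (gp n) - q * inner ℝ Pm (J e) - th| ≤ w)
    (hwp : |Tp (gp n) - q * inner ℝ Pp (J e) - th| ≤ w) :
    |b (gp n) - th + g| ≤ 4 * K ^ 2 * max w (2 ^ k) := by
  have G := S.geo
  have hK := G.K1
  have hK0 : 0 < K := by linarith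
  have hdl : 0 < dl := by linarith [S.dl_ge]
  have hh0 := S.h0_nonneg
  have hsg := S.sg_pos
  have h48 : 48 * K * sg ≤ 1 := by
    have h := S.sg_le
    rw [le_div_iff₀ (by positivity)] at h
    linarith
  have hsg1 : sg ≤ 1 := by nlinarith
  have hK2 : 1 ≤ K ^ 2 := one_le_pow₀ hK
  have hK4 : K ^ 2 ≤ K ^ 4 := pow_le_pow_right₀ hK (by norm_num)
  have hK5 : 1 ≤ K ^ 5 := one_le_pow₀ hK
  have hdlR : dl ≤ R := by
    have h := S.R_ge
    have h2 : 1 * dl ≤ (1000 * K ^ 5) * dl := mul_le_mul_of_nonneg_right (by linarith) hdl.le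
    linarith
  have hR0 : 0 < R := by linarith
  obtain ⟨hgth, hh⟩ := wgO_th_low S D hg hgR hF
  have hg0 : dl ≤ g := by
    have h1 : 0 ≤ K ^ 3 * h0 := by positivity
    have h2 : 1 * dl ≤ (64 * K ^ 5) * dl := mul_le_mul_of_nonneg_right (by linarith) hdl.le
    linarith
  have hth0 : 0 ≤ th := by linarith
  obtain ⟨-, hy2, -⟩ := wg_near S hq hth0 hth.le hh hn hw hwm hwp
  set y : V := gp n with hy
  set l : ℝ := max w (2 ^ k) with hl
  have hl1 : (2 : ℝ) ^ k ≤ l := le_max_right _ _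
  have h2k : (0 : ℝ) < 2 ^ k := by positivity
  have hl0 : 0 < l := by linarith
  have hl2 : l ≤ 2 * K * dl := by
    refine max_le hw (S.k_le.trans ?_)
    nlinarith
  set z' : V := y + (2 * l) • A with hz'
  have hzy : ‖z' - y‖ ≤ 2 * l * K := by
    have e1 : z' - y = (2 * l) • A := by rw [hz']; abel
    rw [e1, norm_smul, Real.norm_eq_abs, abs_of_pos (show (0 : ℝ) < 2 * l by positivity)]
    exact mul_le_mul_of_nonneg_left G.nA (by positivity)
  have hzR : ‖z'‖ ≤ WR K R := by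
    have h1 : ‖z'‖ ≤ ‖y‖ + ‖z' - y‖ := by
      calc ‖z'‖ = ‖y + (z' - y)‖ := by congr 1; abel
        _ ≤ _ := norm_add_le _ _
    have h2 : 2 * l * K ≤ 4 * K ^ 2 * dl := by nlinarith
    have h3 : 4 * K ^ 2 * dl ≤ 4 * K ^ 2 * R := mul_le_mul_of_nonneg_left hdlR (by positivity)
    have h4 : 10 * K ^ 2 * R ≤ 32 * K ^ 4 * R :=
      mul_le_mul_of_nonneg_right (by linarith) hR0.le
    show ‖z'‖ ≤ 32 * K ^ 4 * R
    linarith
  -- the wedge function is larger than `th` at `z'`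
  have hLm := wgLevO_T hK hsg S.sg_le hl G.nA G.Am (S.pl_m n hn z' hzR) hwm
  have hLp := wgLevO_T hK hsg S.sg_le hl G.nA G.Ap (S.pl_p n hn z' hzR) hwp
  have hL : th < WLO Tm Tp e Pm Pp q z' := lt_min hLm hLp
  have hbz : th ≤ b z' + g := by
    by_contra hcon
    push Not at hcon
    have hz : z' ∈ OvO (WR K R) e b (WLO Tm Tp e Pm Pp q) g :=
      ⟨hzR, wgO_high S hzR (by linarith), by linarith⟩
    have := hF.le_lo z' hz
    linarith
  have hKl : 0 < K * l := by positivity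
  have hlow : |b z' - b y| ≤ K * (K * l) := by
    refine S.b_fi n hn (K * l) ?_ z' y ?_ ?_
    · nlinarith
    · linarith
    · rw [← hy, sub_self, norm_zero]
      positivity
  -- the upper bound
  obtain ⟨z, -, hz2, hz3⟩ := wgO_off S D (d := 24 * K * l) (eta := K ^ 2 * l) hq hg0 hgth hth hF hn
    hwm hwp (mul_le_mul_of_nonneg_left (max_le_max le_rfl (by nlinarith)) (by positivity))
    (by positivity)
  have hup : |b y - b z| ≤ K * (3 * (K * l)) := by
    refine S.b_fi n hn (3 * (K * l)) ?_ y z ?_ ?_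
    · nlinarith
    · rw [← hy, sub_self, norm_zero]
      positivity
    · linarith
  have h1 := abs_le.1 hlow
  have h2 := abs_le.1 hup
  have h3 : 0 ≤ K ^ 2 * l := by positivity
  rw [abs_le]
  constructor
  · nlinarith [h1.2]
  · nlinarith [h2.2]

end Pool.Agent.FCF
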