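import Pool.Agent.FCF.WgTip

/-!
# FCF / WgPairs: two bad tips whose balls meet are similar (FCF_PROOF.md, 8.3; common to E and O)

`eps = 1` (E) or `-1` (O): `hlev : |b (gp n) - th - ep * g| ≤ 4 K² l` where `l = max w (2^k)`.
PROOF of `wg_pair`: `la = max wa (2^k)`, `lb = max wb (2^k)`, `la ≤ 2 lb`, `‖za - zb‖ ≤ rho (la + lb)`, `rho = sg²/K ≤ 1/3`: `‖za - zb‖ ≤ lb`; `‖gp na - gp nb‖ ≤ K wa + K wb + lb ≤ 4 K lb`.
Planarity at `nb`: `|Tm (gp na) - Tm (gp nb)| ≤ 4K² lb + sg² 4K lb ≤ 5K² lb`, same for `Tp`; so `|(tha + qa (Pm.Je)) - (thb + qb (Pm.Je))| ≤ 8K² lb`, same for `Pp`. Subtract: `|qa - qb| |Pm.Je - Pp.Je| ≤ 16K² lb`,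
`|qa - qb| ≤ 16K³ lb` (`tr`); `|tha - thb| ≤ 8K² lb + 16K⁴ lb`; `|b (gp na) - b (gp nb)| ≤ K * (K lb)` (`b_fi` at `nb`, `r = K lb`); `|ga - gb| ≤ K² lb + 24K⁴ lb + 12K² lb ≤ 40K⁴ lb`.
PROOF of `wg_count`: for the pairs `(i,j) ∈ Bp` with `l = max w (2^k)`, `zc = z`, `rho = sg²/K`: `rho * l ≤ w/(4K)` because `4 sg² 2^k < w` and `4 sg² ≤ 1`. Apply `count_pairs` with `C = 40K⁴`
(`i 2^k = q i`, `g j = g0 + j De`): `#Bp rho² 2^k De ≤ (81K⁴)² #Z`.
-/

set_option autoImplicit false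

namespace Pool.Agent.FCF

open Pool.Agent.VSC (V J LowJet)
open Set Metric

/-- The data of a bad tip. -/
structure WBad (e Pm Pp : V) (K : ℝ) (b Tm Tp : V → ℝ) (Y : Set (ℤ × ℤ)) (Z : Finset (ℤ × ℤ))
    (sg : ℝ) (k : ℕ) (ep q g th : ℝ) (n : ℤ × ℤ) (w : ℝ) (z : V) : Prop where
  hn : n ∈ Y
  w_gt : 4 * sg ^ 2 * 2 ^ k < w
  hm : |Tm (gp n) - q * inner ℝ Pm (J e) - th| ≤ w
  hp : |Tp (gp n) - q * inner ℝ Pp (J e) - th| ≤ w
  hz : ‖gp n - z‖ ≤ K * w
  hZ : ∀ n' : ℤ × ℤ, ‖gp n' - z‖ ≤ w / (4 * K) → n' ∈ Z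
  hlev : |b (gp n) - th - ep * g| ≤ 4 * K ^ 2 * max w (2 ^ k)

theorem wg_pair {p : Par} {P0 : Set V} {c : V → ℝ} {e Pm Pp A : V} {s1 s2 K : ℝ} {bo : Bool}
    {b Tm Tp : V → ℝ} {Y : Set (ℤ × ℤ)} {Z : Finset (ℤ × ℤ)} {sg : ℝ} {k : ℕ} {R dl h0 : ℝ}
    (S : WScene p P0 c e Pm Pp A s1 s2 K bo b Tm Tp Y Z sg k R dl h0) {ep : ℝ}
    (hep : ep = 1 ∨ ep = -1) {qa ga tha wa qb gb thb wb : ℝ} {na nb : ℤ × ℤ} {za zb : V}
    (Ha : WBad e Pm Pp K b Tm Tp Y Z sg k ep qa ga tha na wa za)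
    (Hb : WBad e Pm Pp K b Tm Tp Y Z sg k ep qb gb thb nb wb zb)
    (h1 : ‖za - zb‖ ≤ sg ^ 2 / K * (max wa (2 ^ k) + max wb (2 ^ k)))
    (h2 : max wa (2 ^ k) ≤ 2 * max wb (2 ^ k)) :
    |qa - qb| ≤ 40 * K ^ 4 * max wb (2 ^ k) ∧ |ga - gb| ≤ 40 * K ^ 4 * max wb (2 ^ k) := by
  have G := S.geo
  have hK1 := G.K1
  have hK : 0 < K := by linarith
  have hsg := S.sg_pos
  have h2k : (0 : ℝ) < 2 ^ k := by positivity
  set la : ℝ := max wa (2 ^ k) with hla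
  set lb : ℝ := max wb (2 ^ k) with hlb
  have hla1 : wa ≤ la := le_max_left _ _
  have hlb1 : wb ≤ lb := le_max_left _ _
  have hlb2 : (2 : ℝ) ^ k ≤ lb := le_max_right _ _
  have hlb0 : 0 < lb := h2k.trans_le hlb2
  have hsg2 : sg ^ 2 ≤ 1 / 2304 := by
    have h3 : sg ≤ 1 / 48 := by
      refine S.sg_le.trans ?_
      exact one_div_le_one_div_of_le (by norm_num) (by linarith)
    have := pow_le_pow_left₀ hsg.le h3 2
    norm_num at this ⊢
    exact this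
  have hsgK : sg ^ 2 / K ≤ 1 / 2304 := by
    rw [div_le_iff₀ hK]
    nlinarith
  have hz : ‖za - zb‖ ≤ lb := by
    refine h1.trans ?_
    have h3 : sg ^ 2 / K * (la + lb) ≤ 1 / 2304 * (la + lb) := by
      refine mul_le_mul_of_nonneg_right hsgK ?_
      have : 0 < la := h2k.trans_le (le_max_right _ _)
      linarith
    linarith
  have hKlb : lb ≤ K * lb := by nlinarith
  have hn : ‖gp na - gp nb‖ ≤ 4 * (K * lb) := by
    have h3 : gp na - gp nb = (gp na - za) + (za - zb) - (gp nb - zb) := by abel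
    have h4 : ‖gp na - gp nb‖ ≤ ‖gp na - za‖ + ‖za - zb‖ + ‖gp nb - zb‖ := by
      rw [h3]
      exact (norm_sub_le _ _).trans (add_le_add (norm_add_le _ _) le_rfl)
    have h5 := Ha.hz
    have h6 := Hb.hz
    have h7 : K * wa ≤ K * (2 * lb) := mul_le_mul_of_nonneg_left (hla1.trans h2) hK.le
    have h8 : K * wb ≤ K * lb := mul_le_mul_of_nonneg_left hlb1 hK.le
    linarith
  have hmax : max ‖gp na - gp nb‖ (2 ^ k) ≤ 4 * (K * lb) := max_le hn (by linarith)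
  have hsm : sg ^ 2 * max ‖gp na - gp nb‖ (2 ^ k) ≤ lb * K := by
    have h3 : sg ^ 2 * max ‖gp na - gp nb‖ (2 ^ k) ≤ 1 / 2304 * (4 * (K * lb)) :=
      mul_le_mul hsg2 hmax (le_max_of_le_left (norm_nonneg _)) (by norm_num)
    have : 0 < K * lb := by positivity
    linarith
  have hK2 : K * lb ≤ K ^ 2 * lb := by
    have : K ≤ K ^ 2 := by nlinarith
    exact mul_le_mul_of_nonneg_right this hlb0.le
  have hn' : K * ‖gp na - gp nb‖ ≤ 4 * (K ^ 2 * lb) := by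
    have := mul_le_mul_of_nonneg_left hn hK.le
    calc K * ‖gp na - gp nb‖ ≤ K * (4 * (K * lb)) := this
      _ = 4 * (K ^ 2 * lb) := by ring
  have m1 := abs_le.1 (S.pl_m nb Hb.hn (gp na) (S.Y_le na Ha.hn))
  have p1 := abs_le.1 (S.pl_p nb Hb.hn (gp na) (S.Y_le na Ha.hn))
  have m2 := abs_le.1 (G.abs_m (gp na - gp nb))
  have p2 := abs_le.1 (G.abs_p (gp na - gp nb))
  have m3 := abs_le.1 Ha.hm
  have m4 := abs_le.1 Hb.hm
  have p3 := abs_le.1 Ha.hp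
  have p4 := abs_le.1 Hb.hp
  set μ : ℝ := inner ℝ Pm (J e) with hμ
  set ν : ℝ := inner ℝ Pp (J e) with hν
  have hwa : wa ≤ 2 * lb := hla1.trans h2
  have M : |(tha + qa * μ) - (thb + qb * μ)| ≤ 8 * (K ^ 2 * lb) := by
    rw [abs_le]; constructor <;> linarith
  have P : |(tha + qa * ν) - (thb + qb * ν)| ≤ 8 * (K ^ 2 * lb) := by
    rw [abs_le]; constructor <;> linarith
  have hqd : |(qa - qb) * (μ - ν)| ≤ 16 * (K ^ 2 * lb) := by
    have h3 : (qa - qb) * (μ - ν) = ((tha + qa * μ) - (thb + qb * μ)) -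
        ((tha + qa * ν) - (thb + qb * ν)) := by ring
    rw [h3]
    refine (abs_sub _ _).trans ?_
    linarith
  have hq : |qa - qb| ≤ 16 * (K ^ 3 * lb) := by
    rw [abs_mul] at hqd
    have h3 : |qa - qb| * (1 / K) ≤ |qa - qb| * |μ - ν| :=
      mul_le_mul_of_nonneg_left G.tr (abs_nonneg _)
    have h4 : |qa - qb| * (1 / K) * K ≤ 16 * (K ^ 2 * lb) * K :=
      mul_le_mul_of_nonneg_right (h3.trans hqd) hK.le
    have h5 : |qa - qb| * (1 / K) * K = |qa - qb| := by field_simp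
    rw [h5] at h4
    calc |qa - qb| ≤ 16 * (K ^ 2 * lb) * K := h4
      _ = 16 * (K ^ 3 * lb) := by ring
  have hK34 : K ^ 3 * lb ≤ K ^ 4 * lb :=
    mul_le_mul_of_nonneg_right (pow_le_pow_right₀ hK1 (by norm_num)) hlb0.le
  have hK24 : K ^ 2 * lb ≤ K ^ 4 * lb :=
    mul_le_mul_of_nonneg_right (pow_le_pow_right₀ hK1 (by norm_num)) hlb0.le
  have hK40 : 0 < K ^ 4 * lb := by positivity
  refine ⟨by linarith, ?_⟩
  have hμK : |μ| ≤ K := by
    have h3 := G.abs_m (J e)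
    rw [Pool.Agent.VSC.norm_J, G.he, mul_one] at h3
    exact h3
  have hth : |tha - thb| ≤ 8 * (K ^ 2 * lb) + 16 * (K ^ 4 * lb) := by
    have h3 : tha - thb = ((tha + qa * μ) - (thb + qb * μ)) - (qa - qb) * μ := by ring
    rw [h3]
    refine (abs_sub _ _).trans (add_le_add M ?_)
    rw [abs_mul]
    calc |qa - qb| * |μ| ≤ 16 * (K ^ 3 * lb) * K :=
          mul_le_mul hq hμK (abs_nonneg _) (by positivity)
      _ = 16 * (K ^ 4 * lb) := by ring
  have hKl0 : 0 < K * lb := by positivity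
  have hb := S.b_fi nb Hb.hn (K * lb) (by linarith) (gp na) (gp nb) (by linarith)
    (by rw [sub_self, norm_zero]; linarith)
  have hb' : |b (gp na) - b (gp nb)| ≤ K ^ 2 * lb := by
    calc |b (gp na) - b (gp nb)| ≤ K * (K * lb) := hb
      _ = K ^ 2 * lb := by ring
  have l1 := Ha.hlev
  have l2 := Hb.hlev
  have l1' : |b (gp na) - tha - ep * ga| ≤ 8 * (K ^ 2 * lb) := by
    refine l1.trans ?_
    have : 4 * K ^ 2 * la ≤ 4 * K ^ 2 * (2 * lb) := mul_le_mul_of_nonneg_left h2 (by positivity)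
    linarith
  have hep' : |ga - gb| = |ep * (ga - gb)| := by
    rcases hep with h | h
    · rw [h, one_mul]
    · rw [h, neg_one_mul, abs_neg]
  have h3 : ep * (ga - gb) = (b (gp na) - b (gp nb)) - (tha - thb) -
      (b (gp na) - tha - ep * ga) + (b (gp nb) - thb - ep * gb) := by ring
  rw [hep', h3]
  have a1 := abs_le.1 hb'
  have a2 := abs_le.1 hth
  have a3 := abs_le.1 l1'
  have a4 := abs_le.1 l2
  rw [abs_le]
  constructor <;> linarith

theorem wg_count {p : Par} {P0 : Set V} {c : V → ℝ} {e Pm Pp A : V} {s1 s2 K : ℝ} {bo : Bool}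
    {b Tm Tp : V → ℝ} {Y : Set (ℤ × ℤ)} {Z : Finset (ℤ × ℤ)} {sg : ℝ} {k : ℕ} {R dl h0 : ℝ}
    (S : WScene p P0 c e Pm Pp A s1 s2 K bo b Tm Tp Y Z sg k R dl h0) {ep : ℝ}
    (hep : ep = 1 ∨ ep = -1) {De g0 : ℝ} (hDe : 0 < De) (hDk : De ≤ 2 ^ k)
    (Bp : Finset (ℤ × ℕ))
    (hB : ∀ a ∈ Bp, ∃ (th : ℝ) (n : ℤ × ℤ) (w : ℝ) (z : V),
      WBad e Pm Pp K b Tm Tp Y Z sg k ep (a.1 * 2 ^ k) (g0 + a.2 * De) th n w z) :
    (Bp.card : ℝ) * (sg ^ 4 * (2 ^ k * De)) ≤ 6561 * K ^ 10 * Z.card := by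
  classical
  have G := S.geo
  have hK1 := G.K1
  have hK : 0 < K := by linarith
  have hsg := S.sg_pos
  have h2k : (0 : ℝ) < 2 ^ k := by positivity
  have hsg2 : sg ^ 2 ≤ 1 / 2304 := by
    have h3 : sg ≤ 1 / 48 := by
      refine S.sg_le.trans ?_
      exact one_div_le_one_div_of_le (by norm_num) (by linarith)
    have := pow_le_pow_left₀ hsg.le h3 2
    norm_num at this ⊢
    exact this
  have hB' : ∀ a : ℤ × ℕ, ∃ (w : ℝ) (z : V), a ∈ Bp → ∃ (th : ℝ) (n : ℤ × ℤ),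
      WBad e Pm Pp K b Tm Tp Y Z sg k ep (a.1 * 2 ^ k) (g0 + a.2 * De) th n w z := by
    intro a
    by_cases ha : a ∈ Bp
    · obtain ⟨th, n, w, z, h⟩ := hB a ha
      exact ⟨w, z, fun _ => ⟨th, n, h⟩⟩
    · exact ⟨0, 0, fun h => absurd h ha⟩
  choose w zc hw using hB'
  have hrho : 0 < sg ^ 2 / K := by positivity
  have h3 : 3 ≤ sg ^ 2 / K * 2 ^ k := by
    have h4 : sg ^ 2 / K * 2 ^ k = sg ^ 2 * 2 ^ k / K := by ring
    rw [h4, le_div_iff₀ hK]
    exact S.k_ge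
  have key := count_pairs (k := k) (De := De) (rho := sg ^ 2 / K) (C := 40 * K ^ 4) hDe hDk hrho
    h3 (by positivity) Bp zc (fun a => max (w a) (2 ^ k)) Z (fun a _ => le_max_right _ _) ?_ ?_
  · have hK2 : 0 < K ^ 2 := by positivity
    have h4 : (Bp.card : ℝ) * ((sg ^ 2 / K) ^ 2 * (2 ^ k * De)) * K ^ 2 =
        (Bp.card : ℝ) * (sg ^ 4 * (2 ^ k * De)) := by
      field_simp
    rw [← h4]
    have h5 := mul_le_mul_of_nonneg_right key hK2.le
    refine h5.trans ?_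
    have hK4 : 1 ≤ K ^ 4 := one_le_pow₀ hK1
    have h6 : (2 * (40 * K ^ 4) + 1) ^ 2 ≤ (81 * K ^ 4) ^ 2 :=
      pow_le_pow_left₀ (by positivity) (by linarith) 2
    have h7 : (0 : ℝ) ≤ Z.card := Nat.cast_nonneg _
    calc (2 * (40 * K ^ 4) + 1) ^ 2 * (Z.card : ℝ) * K ^ 2
        ≤ (81 * K ^ 4) ^ 2 * (Z.card : ℝ) * K ^ 2 :=
          mul_le_mul_of_nonneg_right (mul_le_mul_of_nonneg_right h6 h7) hK2.le
      _ = 6561 * K ^ 10 * Z.card := by ring
  · intro a ha n hn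
    obtain ⟨th, m, h⟩ := hw a ha
    refine h.hZ n (hn.trans ?_)
    have h4 := h.w_gt
    have hw0 : 0 < w a := lt_of_le_of_lt (by positivity) h4
    rw [le_div_iff₀ (by positivity)]
    have h5 : sg ^ 2 / K * max (w a) (2 ^ k) * (4 * K) = 4 * sg ^ 2 * max (w a) (2 ^ k) := by
      field_simp
    rw [h5]
    rcases le_total (w a) (2 ^ k) with h6 | h6
    · rw [max_eq_right h6]
      exact h4.le
    · rw [max_eq_left h6]
      nlinarith
  · intro a ha a' ha' h4 h5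
    obtain ⟨th, m, h⟩ := hw a ha
    obtain ⟨th', m', h'⟩ := hw a' ha'
    have h6 := wg_pair S hep h h' h4 h5
    constructor
    · have h7 : (a.1 : ℝ) * 2 ^ k - a'.1 * 2 ^ k = ((a.1 : ℝ) - a'.1) * 2 ^ k := by ring
      have h8 := h6.1
      rw [h7, abs_mul, abs_of_pos h2k] at h8
      exact h8
    · have h7 : g0 + (a.2 : ℝ) * De - (g0 + a'.2 * De) = ((a.2 : ℝ) - a'.2) * De := by ring
      have h8 := h6.2
      rw [h7, abs_mul, abs_of_pos hDe] at h8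
      exact h8

/-- Abstract pigeonhole: a family of columns `i ∈ I`; in each column the levels `th i j`, `j ≤ N`, are nondecreasing in `j`,
decrease by `s/2` at each step which is not bad, `0 ≤ th i 0`, `th i N < T`, `4 T ≤ N s`. Then more than half of the levels of the
column are bad, so the number of bad pairs is at least `#I N/2`. -/
theorem wg_columns {I : Finset ℤ} {N : ℕ} {th : ℤ → ℕ → ℝ} {s T : ℝ} (hs : 0 < s)
    (hN : 4 * T ≤ N * s) (hmono : ∀ i ∈ I, ∀ j, j < N → th i j ≤ th i (j + 1))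
    (h0 : ∀ i ∈ I, 0 ≤ th i 0) (hT : ∀ i ∈ I, th i N < T) {Bp : Finset (ℤ × ℕ)}
    (hgood : ∀ i ∈ I, ∀ j, j < N → (i, j + 1) ∉ Bp → th i j ≤ th i (j + 1) - s / 2) :
    (I.card : ℝ) * N ≤ 2 * Bp.card := by
  classical
  have hcol : ∀ i ∈ I, (N : ℝ) ≤ 2 * (((Finset.range N).filter
      (fun j => (i, j + 1) ∈ Bp)).card : ℝ) := by
    intro i hi
    have h1 : th i N - th i 0 = ∑ j ∈ Finset.range N, (th i (j + 1) - th i j) :=
      (Finset.sum_range_sub (th i) N).symm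
    have h2 : ∑ j ∈ (Finset.range N).filter (fun j => ¬ (i, j + 1) ∈ Bp), s / 2 ≤
        ∑ j ∈ Finset.range N, (th i (j + 1) - th i j) := by
      rw [← Finset.sum_filter_add_sum_filter_not (Finset.range N) (fun j => (i, j + 1) ∈ Bp)]
      have h3 : 0 ≤ ∑ j ∈ (Finset.range N).filter (fun j => (i, j + 1) ∈ Bp),
          (th i (j + 1) - th i j) := by
        refine Finset.sum_nonneg fun j hj => ?_
        have := hmono i hi j (Finset.mem_range.1 (Finset.mem_filter.1 hj).1)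
        linarith
      have h4 : ∑ j ∈ (Finset.range N).filter (fun j => ¬ (i, j + 1) ∈ Bp), s / 2 ≤
          ∑ j ∈ (Finset.range N).filter (fun j => ¬ (i, j + 1) ∈ Bp),
            (th i (j + 1) - th i j) := by
        refine Finset.sum_le_sum fun j hj => ?_
        obtain ⟨hj1, hj2⟩ := Finset.mem_filter.1 hj
        have := hgood i hi j (Finset.mem_range.1 hj1) hj2
        linarith
      linarith
    rw [Finset.sum_const, nsmul_eq_mul] at h2
    have h3 : (((Finset.range N).filter (fun j => (i, j + 1) ∈ Bp)).card : ℝ) +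
        ((Finset.range N).filter (fun j => ¬ (i, j + 1) ∈ Bp)).card = N := by
      have h4 := Finset.card_filter_add_card_filter_not (s := Finset.range N)
        (fun j => (i, j + 1) ∈ Bp)
      rw [Finset.card_range] at h4
      exact_mod_cast h4
    have h4 := h0 i hi
    have h5 := hT i hi
    set B : ℝ := (((Finset.range N).filter (fun j => (i, j + 1) ∈ Bp)).card : ℝ)
    set Gd : ℝ := (((Finset.range N).filter (fun j => ¬ (i, j + 1) ∈ Bp)).card : ℝ)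
    have h6 : Gd * (s / 2) < N * s / 4 := by linarith
    by_contra hcon
    push Not at hcon
    have h7 : (N : ℝ) / 2 < Gd := by linarith
    have h8 : (N : ℝ) / 2 * (s / 2) < Gd * (s / 2) := mul_lt_mul_of_pos_right h7 (by linarith)
    linarith
  have hsum : ∑ i ∈ I, (((Finset.range N).filter (fun j => (i, j + 1) ∈ Bp)).card) ≤
      Bp.card := by
    have h1 : ∑ i ∈ I, (((Finset.range N).filter (fun j => (i, j + 1) ∈ Bp)).card) =
        ((I ×ˢ Finset.range N).filter (fun a : ℤ × ℕ => (a.1, a.2 + 1) ∈ Bp)).card := by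
      rw [Finset.card_filter, Finset.sum_product]
      refine Finset.sum_congr rfl fun i _ => ?_
      rw [Finset.card_filter]
    rw [h1]
    refine Finset.card_le_card_of_injOn (fun a => (a.1, a.2 + 1)) ?_ ?_
    · intro a ha
      exact (Finset.mem_filter.1 ha).2
    · intro a _ a' _ h
      simp only [Prod.mk.injEq] at h
      exact Prod.ext h.1 (by omega)
  calc (I.card : ℝ) * N = ∑ i ∈ I, (N : ℝ) := by rw [Finset.sum_const, nsmul_eq_mul]
    _ ≤ ∑ i ∈ I, 2 * (((Finset.range N).filter (fun j => (i, j + 1) ∈ Bp)).card : ℝ) :=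
        Finset.sum_le_sum hcol
    _ = 2 * ((∑ i ∈ I, ((Finset.range N).filter (fun j => (i, j + 1) ∈ Bp)).card : ℕ) : ℝ) := by
        rw [← Finset.mul_sum]
        push_cast
        rfl
    _ ≤ 2 * Bp.card := by
        have : ((∑ i ∈ I, ((Finset.range N).filter (fun j => (i, j + 1) ∈ Bp)).card : ℕ) : ℝ) ≤
            (Bp.card : ℝ) := by exact_mod_cast hsum
        linarith

/-- The number of integers `i` with `|i 2^k - q0| ≤ r`, `2^k ≤ r`. -/
theorem wg_card_I {k : ℕ} {q0 r : ℝ} (hr : 2 ^ k ≤ r) :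
    ∃ I : Finset ℤ, (∀ i : ℤ, i ∈ I ↔ |(i : ℝ) * 2 ^ k - q0| ≤ r) ∧ r ≤ (I.card : ℝ) * 2 ^ k := by
  have h2k : (0 : ℝ) < 2 ^ k := by positivity
  refine ⟨Finset.Icc ⌈(q0 - r) / 2 ^ k⌉ ⌊(q0 + r) / 2 ^ k⌋, fun i => ?_, ?_⟩
  · rw [Finset.mem_Icc, Int.ceil_le, Int.le_floor, div_le_iff₀ h2k, le_div_iff₀ h2k, abs_le]
    constructor
    · rintro ⟨h1, h2⟩
      constructor <;> linarith
    · rintro ⟨h1, h2⟩
      constructor <;> linarith
  · rw [Int.card_Icc]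
    have h1 : (⌈(q0 - r) / 2 ^ k⌉ : ℝ) < (q0 - r) / 2 ^ k + 1 := Int.ceil_lt_add_one _
    have h2 : (q0 + r) / 2 ^ k < (⌊(q0 + r) / 2 ^ k⌋ : ℝ) + 1 := Int.lt_floor_add_one _
    have h3 : ((⌊(q0 + r) / 2 ^ k⌋ + 1 - ⌈(q0 - r) / 2 ^ k⌉ : ℤ) : ℝ) ≤
        ((⌊(q0 + r) / 2 ^ k⌋ + 1 - ⌈(q0 - r) / 2 ^ k⌉).toNat : ℝ) := by
      exact_mod_cast Int.self_le_toNat _
    have h4 : 1 ≤ r / 2 ^ k := by rwa [le_div_iff₀ h2k, one_mul]
    have h5 : r / 2 ^ k ≤ ((⌊(q0 + r) / 2 ^ k⌋ + 1 - ⌈(q0 - r) / 2 ^ k⌉).toNat : ℝ) := by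
      refine le_trans ?_ h3
      push_cast
      have h6 : (q0 + r) / 2 ^ k - (q0 - r) / 2 ^ k = 2 * (r / 2 ^ k) := by ring
      linarith
    rwa [div_le_iff₀ h2k] at h5

end Pool.Agent.FCF
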