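import Pool.Agent.FCF.WgGoodO
import Pool.Agent.FCF.WgLevO
import Pool.Agent.FCF.WgPairs

/-!
# FCF / WgMainO: the fixed scale result, O-case (FCF_PROOF.md, 8.3, 8.4)

PROOF: as in WgMainE with `ep = -1`. `th i j` from `wgO_exists_fst` for `q i`, `g j`. If `th i N = 2KR` then `q = q i` works: for `x` in the region with `L x ≤ 2KR` and `L x - b x > g N`: `b x + g N < L x ≤ 2KR`, but
`th i N ≤ b x + g N`. `th` is nondecreasing in `j` (`IsFst.mono`: the sets decrease and `b + g j` increases). `wgO_th_low` gives `0 ≤ th` and the hypothesis of `wg_tip`. Good levels: `wgO_good` (`b z + g (j) ≤ th i (j+1) - s/2`,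
`z ∈ OvO (g j)`, `g j = g (j+1) - De`).
-/

set_option autoImplicit false

namespace Pool.Agent.FCF

open Pool.Agent.VSC (V J LowJet)
open Set Metric

theorem wgO_main {p : Par} {P0 : Set V} {c : V → ℝ} {e Pm Pp A : V} {s1 s2 K : ℝ}
    {b Tm Tp : V → ℝ} {Y : Set (ℤ × ℤ)} {Z : Finset (ℤ × ℤ)} {sg : ℝ} {k : ℕ} {R dl h0 : ℝ}
    {B0 : Set V} (S : WScene p P0 c e Pm Pp A s1 s2 K false b Tm Tp Y Z sg k R dl h0)
    (D : WDatO p c e K dl B0 b) {w0 cw : ℝ} (hw0 : 0 < w0) (hw1 : w0 ≤ 1)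
    (hcw : 200 * K ^ 2 * sg ≤ cw)
    (hsep : ∀ Q ∈ P0, |(inner ℝ Q A : ℝ) - 1| ≤ w0 ∨
      ∃ v : V, ‖v‖ = 1 ∧ (inner ℝ Pm v : ℝ) ≤ 0 ∧ (inner ℝ Pp v : ℝ) ≤ 0 ∧ cw ≤ inner ℝ Q v)
    {De g0 eps del : ℝ} {N : ℕ} (hDe : De = sg * 2 ^ k * (w0 + sg ^ 2 * K + 4 * sg))
    (hg0 : K ^ 3 * h0 + 64 * K ^ 5 * dl ≤ g0) (hgN : g0 + N * De ≤ R)
    (hN1 : 8 * K * R ≤ N * (sg * 2 ^ k)) (hN2 : eps * R ≤ 2 * (N * De)) (heps : 0 < eps)
    (heps1 : eps ≤ 1) (hk : 2 ^ k ≤ eps * R) (hZ : (Z.card : ℝ) ≤ del * R ^ 2)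
    (hdel : 30000 * K ^ 10 * del ≤ eps ^ 2 * sg ^ 4) {q0 : ℝ} (hq0 : |q0| ≤ 2 * K ^ 2 * R) :
    ∃ q : ℝ, |q - q0| ≤ eps * R ∧ ∀ x : V, ‖x‖ ≤ WR K R → 0 < (inner ℝ x e : ℝ) →
      WLO Tm Tp e Pm Pp q x ≤ 2 * K * R → WLO Tm Tp e Pm Pp q x - (g0 + N * De) ≤ b x := by
  classical
  have hK1 : 1 ≤ K := S.geo.K1
  have hsg : 0 < sg := S.sg_pos
  have hsgle : sg ≤ 1 / (48 * K) := S.sg_le
  have h2k : (0 : ℝ) < 2 ^ k := by positivity
  have hsK : sg * (48 * K) ≤ 1 := by rwa [le_div_iff₀ (by positivity)] at hsgle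
  have hsg48 : sg ≤ 1 / 48 := by nlinarith
  have hdl : 3 ≤ dl := S.dl_ge
  have hK5 : 1 ≤ K ^ 5 := one_le_pow₀ hK1
  have hR0 : 0 < R := by
    have h1 := S.R_ge
    have h2 : 3 ≤ K ^ 5 * dl := by nlinarith
    nlinarith
  have hs2K : sg ^ 2 * K ≤ 1 / 48 * (1 / 48) := by
    have h1 : sg * K ≤ 1 / 48 := by linarith
    have h2 : sg ^ 2 * K = sg * (sg * K) := by ring
    rw [h2]
    exact mul_le_mul hsg48 h1 (by positivity) (by norm_num)
  have hDe0 : 0 < De := by rw [hDe]; positivity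
  have hDek : De ≤ 2 ^ k := by
    have h1 : w0 + sg ^ 2 * K + 4 * sg ≤ 2 := by linarith
    have h2 : sg * (w0 + sg ^ 2 * K + 4 * sg) ≤ 1 := by
      have h3 : sg * (w0 + sg ^ 2 * K + 4 * sg) ≤ 1 / 48 * 2 :=
        mul_le_mul hsg48 h1 (by positivity) (by norm_num)
      linarith
    have h4 : De = (sg * (w0 + sg ^ 2 * K + 4 * sg)) * 2 ^ k := by rw [hDe]; ring
    rw [h4]
    nlinarith
  obtain ⟨I, hI, hIc⟩ := wg_card_I (k := k) (q0 := q0) hk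
  by_contra hcon
  push Not at hcon
  have hF : ∀ (i : ℤ) (j : ℕ), ∃ t : ℝ, IsFst (2 * K * R)
      (OvO (WR K R) e b (WLO Tm Tp e Pm Pp ((i : ℝ) * 2 ^ k)) (g0 + j * De))
      (fun x => b x + (g0 + j * De)) t := fun i j => wgO_exists_fst D _ _
  choose th hth using hF
  have hthN : ∀ i ∈ I, th i N < 2 * K * R := by
    intro i hi
    obtain ⟨x, hx1, hx2, hx3, hx4⟩ := hcon _ ((hI i).1 hi)
    have hmem : x ∈ OvO (WR K R) e b (WLO Tm Tp e Pm Pp ((i : ℝ) * 2 ^ k)) (g0 + N * De) :=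
      ⟨hx1, hx2, by linarith⟩
    have h1 : th i N ≤ b x + (g0 + N * De) := (hth i N).le_lo x hmem
    linarith
  have hmono : ∀ (i : ℤ) (j j' : ℕ), j ≤ j' → th i j ≤ th i j' := by
    intro i j j' hjj
    have hc : (j : ℝ) * De ≤ j' * De :=
      mul_le_mul_of_nonneg_right (by exact_mod_cast hjj) hDe0.le
    apply (hth i j).mono (hth i j')
    · rintro x ⟨h1, h2, h3⟩
      exact ⟨h1, h2, by linarith⟩
    · intro x _
      linarith
  have hg : ∀ j : ℕ, K ^ 3 * h0 + 64 * K ^ 5 * dl ≤ g0 + j * De := by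
    intro j
    have : 0 ≤ (j : ℝ) * De := by positivity
    linarith
  have hgR : ∀ j : ℕ, j ≤ N → g0 + j * De ≤ R := by
    intro j hj
    have hc : (j : ℝ) * De ≤ N * De :=
      mul_le_mul_of_nonneg_right (by exact_mod_cast hj) hDe0.le
    linarith
  have hqi : ∀ i ∈ I, |(i : ℝ) * 2 ^ k| ≤ 3 * K ^ 2 * R := by
    intro i hi
    have h1 := (hI i).1 hi
    have h2 : |(i : ℝ) * 2 ^ k| ≤ |(i : ℝ) * 2 ^ k - q0| + |q0| := by
      have := abs_add_le ((i : ℝ) * 2 ^ k - q0) q0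
      simpa using this
    have h3 : eps * R ≤ 1 * R := mul_le_mul_of_nonneg_right heps1 hR0.le
    have h4 : 1 ≤ K ^ 2 := one_le_pow₀ hK1
    nlinarith
  have hlow : ∀ (i : ℤ) (j : ℕ), j ≤ N →
      g0 + j * De + dl ≤ th i j ∧ h0 + 60 * K ^ 2 * dl ≤ th i j * (s1 + s2) := by
    intro i j hj
    exact wgO_th_low S D (hg j) (hgR j hj) (hth i j)
  have hgpos : ∀ j : ℕ, 0 ≤ g0 + j * De := by
    intro j
    have h1 := hg j
    have h2 := S.h0_nonneg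
    have h3 : 0 ≤ K ^ 3 * h0 := by positivity
    have h4 : 0 ≤ 64 * K ^ 5 * dl := by positivity
    linarith
  set Bp : Finset (ℤ × ℕ) := (I ×ˢ Finset.range (N + 1)).filter (fun a =>
    ∃ (t : ℝ) (n : ℤ × ℤ) (w : ℝ) (z : V),
      WBad e Pm Pp K b Tm Tp Y Z sg k (-1) ((a.1 : ℝ) * 2 ^ k) (g0 + a.2 * De) t n w z) with hBp
  have hgood : ∀ i ∈ I, ∀ j, j < N → (i, j + 1) ∉ Bp →
      th i j ≤ th i (j + 1) - sg * 2 ^ k / 2 := by
    intro i hi j hj hnot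
    have hthlt : th i (j + 1) < 2 * K * R := lt_of_le_of_lt (hmono i (j + 1) N hj) (hthN i hi)
    obtain ⟨hl1, hl2⟩ := hlow i (j + 1) hj
    have hth0 : 0 ≤ th i (j + 1) := by linarith [hgpos (j + 1)]
    obtain ⟨n, hn, w, z, hw0', hw1', hm, hp, hz, _, hZ'⟩ :=
      wg_tip S (hqi i hi) hth0 hthlt.le hl2
    by_cases hw : 4 * sg ^ 2 * 2 ^ k < w
    · exfalso
      apply hnot
      rw [hBp, Finset.mem_filter, Finset.mem_product, Finset.mem_range]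
      refine ⟨⟨hi, by simp only; omega⟩, th i (j + 1), n, w, z, ?_⟩
      refine ⟨hn, hw, hm, hp, hz, hZ' hw, ?_⟩
      have h1 := wgO_lev S D (hqi i hi) (hg (j + 1)) (hgR (j + 1) hj) hthlt (hth i (j + 1)) hn hw1'
        hm hp
      have h2 : b (gp n) - th i (j + 1) - (-1) * (g0 + ((j + 1 : ℕ) : ℝ) * De) =
        b (gp n) - th i (j + 1) + (g0 + ((j + 1 : ℕ) : ℝ) * De) := by ring
      simp only
      rw [h2]
      exact h1
    · rw [not_lt] at hw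
      obtain ⟨z', hz', hz2⟩ := wgO_good S D hw0 hcw hsep hDe (hqi i hi) (hg (j + 1))
        (hgR (j + 1) hj) hthlt (hth i (j + 1)) hn (le_trans hm hw) (le_trans hp hw)
      have h3 : g0 + ((j + 1 : ℕ) : ℝ) * De - De = g0 + j * De := by push_cast; ring
      rw [h3] at hz' hz2
      have h4 : th i j ≤ b z' + (g0 + j * De) := (hth i j).le_lo z' hz'
      linarith
  have hcols := wg_columns (I := I) (N := N) (th := th) (s := sg * 2 ^ k) (T := 2 * K * R)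
    (by positivity) (by linarith) (fun i _ j _ => hmono i j (j + 1) (Nat.le_succ j))
    (fun i _ => by linarith [(hlow i 0 (Nat.zero_le N)).1, hgpos 0]) hthN hgood
  have hcount := wg_count S (Or.inr rfl) (g0 := g0) hDe0 hDek Bp (by
    intro a ha
    rw [hBp, Finset.mem_filter] at ha
    exact ha.2)
  have hf1 : (eps * R) * (eps * R) ≤ ((I.card : ℝ) * 2 ^ k) * (2 * (N * De)) :=
    mul_le_mul hIc hN2 (by positivity) (by positivity)
  have hf2 : (eps * R) * (eps * R) * sg ^ 4 ≤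
      ((I.card : ℝ) * N) * (2 * (sg ^ 4 * (2 ^ k * De))) := by
    have := mul_le_mul_of_nonneg_right hf1 (show 0 ≤ sg ^ 4 by positivity)
    linarith
  have hf3 : ((I.card : ℝ) * N) * (2 * (sg ^ 4 * (2 ^ k * De))) ≤
      (2 * Bp.card) * (2 * (sg ^ 4 * (2 ^ k * De))) :=
    mul_le_mul_of_nonneg_right hcols (by positivity)
  have hf4 : 6561 * K ^ 10 * (Z.card : ℝ) ≤ 6561 * K ^ 10 * (del * R ^ 2) :=
    mul_le_mul_of_nonneg_left hZ (by positivity)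
  have hf5 : 30000 * K ^ 10 * del * R ^ 2 ≤ eps ^ 2 * sg ^ 4 * R ^ 2 :=
    mul_le_mul_of_nonneg_right hdel (by positivity)
  have hpos : 0 < eps ^ 2 * sg ^ 4 * R ^ 2 := by positivity
  nlinarith

end Pool.Agent.FCF
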