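import Pool.Agent.FCF.WgSetup
import Pool.Agent.FCF.WgMainO

/-!
# FCF / WgFinO: lower bound of TO (FCF_PROOF.md, 8.4)

PROOF: as in WgFinE with `bo = false` and the same constants. If `x.e = 0`: `TO x ≥ 0`. Else `wgO_main`: `q`, `x' = x + (q - q0) J e`: `Pm . x' - q (Pm.Je) = t = Pp . x' - q (Pp.Je)`, so
`t - dl ≤ WLO .. q x'` (`wgO_ge`) and `WLO .. q x' ≤ t + dl ≤ 2KR` (`wgO_le`), `TO x' ≥ t - dl - g0 - N De`. `|TO x - TO x'| ≤ K eps R` (`hcan.clO`).
-/

set_option autoImplicit false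

namespace Pool.Agent.FCF

open Pool.Agent.VSC (V J LowJet)
open Set Metric Filter

/-- arithmetic of the constants (choice of `N`) -/
private theorem WgFinO_N {K rho eps w0 sg De : ℝ} {k : ℕ} (hK : 1 ≤ K) (hrho : 0 < rho)
    (heps : 0 < eps) (hw0 : w0 = eps / (64 * K)) (hsg : 0 < sg) (hsg1 : sg ≤ 1 / (48 * K))
    (hsg2 : sg ≤ eps / (200 * K ^ 2)) (heps1 : eps ≤ 1)
    (hDe : De = sg * 2 ^ k * (w0 + sg ^ 2 * K + 4 * sg)) (hk : (2 : ℝ) ^ k ≤ eps * rho) :
    ∃ N : ℕ, (N : ℝ) * De ≤ eps * rho ∧ eps * rho ≤ 2 * (N * De) ∧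
      8 * K * rho ≤ N * (sg * 2 ^ k) := by
  have hK0 : 0 < K := by linarith
  have hw0p : 0 < w0 := by rw [hw0]; positivity
  set m := w0 + sg ^ 2 * K + 4 * sg with hm
  have hmp : 0 < m := by positivity
  have h2k : (0 : ℝ) < 2 ^ k := by positivity
  have hDp : 0 < De := by rw [hDe]; positivity
  have hsgK : sg * K ≤ 1 := by
    rw [le_div_iff₀ (by positivity)] at hsg1
    nlinarith
  have hmle : m ≤ eps / (16 * K) := by
    have h1 : sg ^ 2 * K ≤ sg := by
      have : sg ^ 2 * K = sg * (sg * K) := by ring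
      rw [this]
      nlinarith
    have h2 : 5 * sg ≤ eps / (40 * K) := by
      have h3 : 5 * sg ≤ 5 * (eps / (200 * K ^ 2)) := by linarith
      refine h3.trans ?_
      have h4 : 5 * (eps / (200 * K ^ 2)) = eps / (40 * K ^ 2) := by
        field_simp
        ring
      rw [h4]
      refine div_le_div_of_nonneg_left heps.le (by positivity) ?_
      nlinarith
    have h5 : m ≤ eps / (64 * K) + eps / (40 * K) := by
      rw [hm, hw0]; linarith
    have h6 : eps / (64 * K) + eps / (40 * K) ≤ eps / (16 * K) := by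
      have h7 : eps / (64 * K) = (eps / K) * (1 / 64) := by
        field_simp
      have h8 : eps / (40 * K) = (eps / K) * (1 / 40) := by
        field_simp
      have h9 : eps / (16 * K) = (eps / K) * (1 / 16) := by
        field_simp
      rw [h7, h8, h9]
      have : 0 < eps / K := by positivity
      nlinarith
    exact h5.trans h6
  have hDle : De ≤ eps * rho := by
    have h1 : sg * m ≤ 1 := by
      have h2 : m ≤ 1 := by
        refine hmle.trans ?_
        rw [div_le_one (by positivity)]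
        nlinarith
      have h3 : sg ≤ 1 := by
        refine hsg1.trans ?_
        rw [div_le_one (by positivity)]
        nlinarith
      nlinarith
    have h2 : De = (sg * m) * 2 ^ k := by rw [hDe]; ring
    rw [h2]
    nlinarith
  have hy1 : 1 ≤ eps * rho / De := by
    rw [le_div_iff₀ hDp]; linarith
  refine ⟨⌊eps * rho / De⌋₊, ?_, ?_, ?_⟩
  · have h1 : ((⌊eps * rho / De⌋₊ : ℕ) : ℝ) ≤ eps * rho / De := Nat.floor_le (by positivity)
    rwa [le_div_iff₀ hDp] at h1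
  · have h1 : eps * rho / De < (⌊eps * rho / De⌋₊ : ℕ) + 1 := Nat.lt_floor_add_one _
    have h2 : (1 : ℝ) ≤ (⌊eps * rho / De⌋₊ : ℕ) := by
      exact_mod_cast Nat.one_le_floor_iff _ |>.2 hy1
    have h3 : eps * rho / De ≤ 2 * (⌊eps * rho / De⌋₊ : ℕ) := by linarith
    rw [div_le_iff₀ hDp] at h3
    linarith
  · have h1 : eps * rho / De < (⌊eps * rho / De⌋₊ : ℕ) + 1 := Nat.lt_floor_add_one _
    have h2 : (1 : ℝ) ≤ (⌊eps * rho / De⌋₊ : ℕ) := by
      exact_mod_cast Nat.one_le_floor_iff _ |>.2 hy1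
    have h3 : eps * rho / De ≤ 2 * (⌊eps * rho / De⌋₊ : ℕ) := by linarith
    rw [div_le_iff₀ hDp] at h3
    set n : ℝ := ((⌊eps * rho / De⌋₊ : ℕ) : ℝ)
    have h4 : eps * rho ≤ 2 * n * (sg * 2 ^ k) * m := by
      calc eps * rho ≤ 2 * n * De := h3
        _ = _ := by rw [hDe]; ring
    have h5 : 2 * n * (sg * 2 ^ k) * m ≤ 2 * n * (sg * 2 ^ k) * (eps / (16 * K)) :=
      mul_le_mul_of_nonneg_left hmle (by positivity)
    have h6 : eps * rho ≤ (n * (sg * 2 ^ k)) * (eps / (8 * K)) := by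
      calc eps * rho ≤ 2 * n * (sg * 2 ^ k) * (eps / (16 * K)) := h4.trans h5
        _ = _ := by field_simp; ring
    have h7 : rho * (8 * K) * (eps / (8 * K)) ≤ (n * (sg * 2 ^ k)) * (eps / (8 * K)) := by
      calc rho * (8 * K) * (eps / (8 * K)) = eps * rho := by field_simp
        _ ≤ _ := h6
    have h8 := le_of_mul_le_mul_right h7 (by positivity)
    linarith

theorem wedge_O {p : Par} {P0 : Set V} (hP0 : IsClosed P0) {c : V → ℝ} (hc : Typ p P0 c)
    {e Pm Pp A : V} {s1 s2 K : ℝ} (G : WGeo P0 e Pm Pp A s1 s2 K)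
    (hcone : ∀ Q ∈ P0, ∀ u v : ℝ, 0 ≤ u → 0 ≤ v → Q = u • Pm + v • Pp → Q = Pm ∨ Q = Pp)
    {A0 B0 : Set V} {TE TO : V → ℝ} {C g : ℝ} (hcan : Canon p c e A0 B0 TE TO C g)
    (h3 : p.C3 ≤ K) (h1 : p.M1 ≤ K) {eps0 : ℝ} (heps : 0 < eps0) :
    ∃ R0 : ℝ, ∀ R : ℝ, R0 ≤ R → ∀ x : V, ‖x‖ ≤ R → 0 ≤ (inner ℝ x e : ℝ) →
      inner ℝ x e / (s1 + s2) - eps0 * R ≤ TO x := by
  by_contra hcon
  push Not at hcon
  choose R hR x hx hxe hlt using fun n : ℕ => hcon (n : ℝ)
  have hRt : Tendsto R atTop atTop := tendsto_atTop_mono hR tendsto_natCast_atTop_atTop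
  have hK1 : 1 ≤ K := G.K1
  have hK0 : 0 < K := by linarith
  obtain ⟨E, hE0, hE1, hEe⟩ : ∃ E : ℝ, 0 < E ∧ E ≤ 1 ∧ E ≤ eps0 :=
    ⟨min eps0 1, lt_min heps one_pos, min_le_right _ _, min_le_left _ _⟩
  obtain ⟨φ, hφ, hset⟩ := wg_setup hc G hcan h3 h1 false hRt
  -- constants
  set eps : ℝ := E / (4 * K) with heps_def
  have hepsp : 0 < eps := by positivity
  have heps1 : eps ≤ 1 := by
    rw [heps_def, div_le_one (by positivity)]; linarith
  have hKeps : K * eps = E / 4 := by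
    rw [heps_def]; field_simp
  have heps4 : eps ≤ E / 4 := by
    rw [← hKeps]; exact le_mul_of_one_le_left hepsp.le hK1
  set w0 : ℝ := eps / (64 * K) with hw0_def
  have hw0p : 0 < w0 := by positivity
  have hw01 : w0 ≤ 1 := by
    rw [hw0_def, div_le_one (by positivity)]; linarith
  obtain ⟨cw, hcwp, hsep⟩ := G.sep hP0 hcone hw0p
  obtain ⟨sg, hsgp, hsg1, hsg2, hsg3⟩ : ∃ sg : ℝ, 0 < sg ∧ sg ≤ 1 / (48 * K) ∧
      sg ≤ cw / (200 * K ^ 2) ∧ sg ≤ eps / (200 * K ^ 2) := by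
    refine ⟨min (1 / (48 * K)) (min (cw / (200 * K ^ 2)) (eps / (200 * K ^ 2))), ?_, ?_, ?_, ?_⟩
    · exact lt_min (by positivity) (lt_min (by positivity) (by positivity))
    · exact min_le_left _ _
    · exact (min_le_right _ _).trans (min_le_left _ _)
    · exact (min_le_right _ _).trans (min_le_right _ _)
  have hcw : 200 * K ^ 2 * sg ≤ cw := by
    rw [le_div_iff₀ (by positivity)] at hsg2; linarith
  set th0 : ℝ := E / (1000 * K ^ 5) with hth0_def
  have hth0p : 0 < th0 := by positivity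
  have hth0K : 1000 * K ^ 5 * th0 = E := by rw [hth0_def]; field_simp
  have hth01 : 1000 * K ^ 5 * th0 ≤ 1 := by rw [hth0K]; exact hE1
  have hK5 : 1 ≤ K ^ 5 := one_le_pow₀ hK1
  have hth0E : 1000 * th0 ≤ E := by
    have h2 : th0 ≤ K ^ 5 * th0 := le_mul_of_one_le_left hth0p.le hK5
    have h4 : 1000 * K ^ 5 * th0 = 1000 * (K ^ 5 * th0) := by ring
    rw [← hth0K, h4]
    exact mul_le_mul_of_nonneg_left h2 (by norm_num)
  set eta : ℝ := E / (8 * K ^ 3) with heta_def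
  have hetap : 0 < eta := by positivity
  have hetaK : K ^ 3 * eta = E / 8 := by rw [heta_def]; field_simp
  obtain ⟨del, hdelp, hdel1, hdel2⟩ : ∃ del : ℝ, 0 < del ∧
      30000 * K ^ 10 * del ≤ eps ^ 2 * sg ^ 4 ∧ del < th0 ^ 2 := by
    refine ⟨min (eps ^ 2 * sg ^ 4 / (30000 * K ^ 10)) (th0 ^ 2 / 2), ?_, ?_, ?_⟩
    · exact lt_min (by positivity) (by positivity)
    · have := min_le_left (eps ^ 2 * sg ^ 4 / (30000 * K ^ 10)) (th0 ^ 2 / 2)
      rw [le_div_iff₀ (by positivity)] at this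
      linarith
    · have := min_le_right (eps ^ 2 * sg ^ 4 / (30000 * K ^ 10)) (th0 ^ 2 / 2)
      have h2 : 0 < th0 ^ 2 := by positivity
      linarith
  obtain ⟨k, hk⟩ := hset sg del th0 eta hsgp hsg1 hdelp hth0p hth01 hdel2 hetap
  obtain ⟨n0, hn0⟩ := hk k le_rfl
  obtain ⟨R1, hR1⟩ := hc.large eps hepsp
  -- large `n`
  have hRφ : Tendsto (fun n => R (φ n)) atTop atTop := hRt.comp hφ.tendsto_atTop
  have hlarge : ∀ᶠ n in atTop, n0 ≤ n ∧ R1 ≤ R (φ n) ∧ C / th0 ≤ R (φ n) ∧ C / eps ≤ R (φ n) ∧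
      (2 : ℝ) ^ k / eps ≤ R (φ n) ∧ 1 / eps ≤ R (φ n) ∧ 1 ≤ R (φ n) := by
    refine (eventually_ge_atTop n0).and ?_
    refine (hRφ.eventually_ge_atTop R1).and ?_
    refine (hRφ.eventually_ge_atTop _).and ?_
    refine (hRφ.eventually_ge_atTop _).and ?_
    refine (hRφ.eventually_ge_atTop _).and ?_
    exact (hRφ.eventually_ge_atTop _).and (hRφ.eventually_ge_atTop _)
  obtain ⟨n, hn, hb1, hb2, hb3, hb4, hb5, hb6⟩ := hlarge.exists
  obtain ⟨Tm, Tp, Y, Z, S, hZ⟩ := hn0 n hn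
  set rho : ℝ := R (φ n) with hrho_def
  have hrho : 0 < rho := by linarith
  rw [div_le_iff₀ hth0p] at hb2
  rw [div_le_iff₀ hepsp] at hb3 hb4 hb5
  set y : V := x (φ n) with hy_def
  have hyR : ‖y‖ ≤ rho := hx (φ n)
  have hye : 0 ≤ (inner ℝ y e : ℝ) := hxe (φ n)
  have hylt : TO y < inner ℝ y e / (s1 + s2) - eps0 * rho := hlt (φ n)
  have hEr : E * rho ≤ eps0 * rho := mul_le_mul_of_nonneg_right hEe hrho.le
  have hERp : 0 < E * rho := by positivity
  have hTO0 := hcan.TO_nonneg y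
  rcases hye.eq_or_lt with h0 | hpos
  · rw [← h0, zero_div] at hylt
    linarith
  have D : WDatO p c e K (th0 * rho) B0 TO := wgO_dat hcan h1 (by linarith)
  simp only [Bool.false_eq_true, if_false] at S
  obtain ⟨q0, t, ht, hyd, hq0, htK, hm0, hp0⟩ := G.decomp y
  have htK' : |t| ≤ K * rho := htK.trans (mul_le_mul_of_nonneg_left hyR hK0.le)
  have hq0' : |q0| ≤ 2 * K ^ 2 * rho := by
    have h4 : K * |t| ≤ K * (K * rho) := mul_le_mul_of_nonneg_left htK' hK0.le
    have h5 : rho ≤ K ^ 2 * rho := le_mul_of_one_le_left hrho.le (one_le_pow₀ hK1)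
    calc |q0| ≤ ‖y‖ + K * |t| := hq0
      _ ≤ K ^ 2 * rho + K * (K * rho) := add_le_add (hyR.trans h5) h4
      _ = 2 * K ^ 2 * rho := by ring
  set De : ℝ := sg * 2 ^ k * (w0 + sg ^ 2 * K + 4 * sg) with hDe
  obtain ⟨N, hN1, hN2, hN3⟩ := WgFinO_N (k := k) hK1 hrho hepsp hw0_def hsgp hsg1 hsg3 heps1 hDe
    (by linarith)
  set g0 : ℝ := K ^ 3 * (eta * rho) + 64 * K ^ 5 * (th0 * rho) with hg0
  have hg0le : g0 ≤ E * rho / 5 := by
    have h4 : g0 = (K ^ 3 * eta) * rho + 64 / 1000 * (1000 * K ^ 5 * th0) * rho := by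
      rw [hg0]; ring
    have h5 : E / 8 * rho + 64 / 1000 * E * rho = (1 / 8 + 64 / 1000) * (E * rho) := by ring
    rw [h4, hetaK, hth0K, h5]
    linarith
  have hepsr : eps * rho ≤ E * rho / 4 := by
    calc eps * rho ≤ E / 4 * rho := mul_le_mul_of_nonneg_right heps4 hrho.le
      _ = E * rho / 4 := by ring
  have hEr1 : E * rho ≤ rho := mul_le_of_le_one_left hrho.le hE1
  have hgN : g0 + N * De ≤ rho := by linarith
  obtain ⟨q, hq, hmain⟩ := wgO_main S D hw0p hw01 hcw hsep hDe hg0.ge hgN hN3 hN2 hepsp heps1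
    (by linarith) hZ hdel1 hq0'
  set y' : V := y + (q - q0) • J e with hy'
  have hJe : ‖J e‖ = 1 := by rw [Pool.Agent.VSC.norm_J, G.he]
  have hd : ‖y' - y‖ ≤ eps * rho := by
    rw [hy', add_sub_cancel_left, norm_smul, hJe, mul_one]
    exact hq
  have hy'e : (inner ℝ y' e : ℝ) = inner ℝ y e := by
    rw [hy', inner_add_left, real_inner_smul_left, Pool.Agent.VSC.inner_J]; ring
  have hepsrr : eps * rho ≤ rho := mul_le_of_le_one_left hrho.le heps1
  have hy'n : ‖y'‖ ≤ WR K rho := by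
    have h4 : ‖y'‖ ≤ ‖y‖ + ‖y' - y‖ := by
      calc ‖y'‖ = ‖y + (y' - y)‖ := by rw [add_sub_cancel]
        _ ≤ _ := norm_add_le _ _
    unfold WR
    have h6 : rho ≤ K ^ 4 * rho := le_mul_of_one_le_left hrho.le (one_le_pow₀ hK1)
    have h7 : 32 * K ^ 4 * rho = 32 * (K ^ 4 * rho) := by ring
    rw [h7]
    linarith
  have hm' : inner ℝ Pm y' - q * inner ℝ Pm (J e) = t := by
    rw [hy', inner_add_right, real_inner_smul_right, hm0]; ring
  have hp' : inner ℝ Pp y' - q * inner ℝ Pp (J e) = t := by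
    rw [hy', inner_add_right, real_inner_smul_right, hp0]; ring
  have hge := wgO_ge S (q := q) hy'n (a := t) hm'.ge hp'.ge
  have hle := wgO_le S (q := q) hy'n
  rw [hy'e, ← ht] at hle
  have hthr : th0 * rho ≤ E * rho / 1000 := by
    have h4 : 1000 * th0 * rho ≤ E * rho := mul_le_mul_of_nonneg_right hth0E hrho.le
    linarith
  have htle : t ≤ K * rho := (le_abs_self t).trans htK'
  have hL : WLO Tm Tp e Pm Pp q y' ≤ 2 * K * rho := by
    have h4 : th0 * rho ≤ K * rho := by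
      have : rho ≤ K * rho := le_mul_of_one_le_left hrho.le hK1
      linarith
    linarith
  have hb := hmain y' hy'n (by rw [hy'e]; exact hpos) hL
  have hfine : p.fine c y (eps * rho) :=
    fine_of_fine1 (by positivity) (hR1 rho hb1 y hyR (eps * rho) le_rfl hepsrr)
  have hcl := hcan.clO y (eps * rho) (by linarith) hfine (Or.inl (by linarith)) y' y
    (by have : 0 < eps * rho := by positivity
        linarith) (by rw [sub_self, norm_zero]; positivity)
  have hcl2 : |TO y' - TO y| ≤ E * rho / 4 := by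
    have h4 : p.C3 * (eps * rho) ≤ K * (eps * rho) :=
      mul_le_mul_of_nonneg_right h3 (by positivity)
    have h5 : K * (eps * rho) = E * rho / 4 := by rw [← mul_assoc, hKeps]; ring
    linarith
  have hcl3 := (abs_le.1 hcl2).2
  rw [← ht] at hylt
  linarith

end Pool.Agent.FCF
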