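import Pool.Agent.FCF.WgFinE
import Pool.Agent.FCF.WgFinO

/-!
# FCF / Wedge: the wedge comparison (FCF_PROOF.md, section 8)
-/

set_option autoImplicit false

namespace Pool.Agent.FCF

open Pool.Agent.VSC (V J LowJet)
open Set Metric

theorem wedge {p : Par} {P0 : Set V} (hP0 : IsClosed P0) (hb : ∃ cm cp : ℝ, 0 < cm ∧ ∀ P ∈ P0,
    cm ≤ ‖P‖ ∧ ‖P‖ ≤ cp) {c : V → ℝ} (hc : Typ p P0 c) {e : V} (he : ‖e‖ = 1)
    {Pm Pp A : V} {s1 s2 : ℝ} (hPm : Pm ∈ P0) (hPp : Pp ∈ P0) (hs1 : 0 < s1) (hs2 : 0 < s2)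
    (hes : e = s1 • Pm + s2 • Pp) (hA1 : inner ℝ A Pm = (1 : ℝ)) (hA2 : inner ℝ A Pp = (1 : ℝ))
    (hne : Pm ≠ Pp)
    (hcone : ∀ Q ∈ P0, ∀ u v : ℝ, 0 ≤ u → 0 ≤ v → Q = u • Pm + v • Pp → Q = Pm ∨ Q = Pp)
    {A0 B0 : Set V} {TE TO : V → ℝ} {C g : ℝ} (hcan : Canon p c e A0 B0 TE TO C g) :
    ∀ eps : ℝ, 0 < eps → ∃ R0 : ℝ, ∀ R : ℝ, R0 ≤ R → ∀ x : V, ‖x‖ ≤ R → 0 ≤ (inner ℝ x e : ℝ) →
      |TE x - inner ℝ x e / inner ℝ A e| ≤ eps * R := by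
  intro eps heps
  obtain ⟨cm, cp, hcm, hcc⟩ := hb
  obtain ⟨K, hK1, G⟩ := exists_geo (P0 := P0) (fun P hP => (hcc P hP).2) he hPm hPp hs1 hs2 hes
    hA1 hA2 hne (max (max p.C3 p.M1) (1 / g))
  have h3 : p.C3 ≤ K := ((le_max_left _ _).trans (le_max_left _ _)).trans hK1
  have h1 : p.M1 ≤ K := ((le_max_right _ _).trans (le_max_left _ _)).trans hK1
  have hg : 1 / g ≤ K := (le_max_right _ _).trans hK1
  have hAe := G.Ae.1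
  obtain ⟨R1, hR1⟩ := wedge_E hP0 hc G hcone hcan h3 h1 hg (half_pos heps)
  obtain ⟨R2, hR2⟩ := wedge_O hP0 hc G hcone hcan h3 h1 (half_pos heps)
  refine ⟨max (max R1 R2) (2 * C / eps), fun R hR x hx hx0 => ?_⟩
  have e1 := hR1 R (((le_max_left _ _).trans (le_max_left _ _)).trans hR) x hx hx0
  have e2 := hR2 R (((le_max_right _ _).trans (le_max_left _ _)).trans hR) x hx hx0
  have e3 : 2 * C / eps ≤ R := (le_max_right _ _).trans hR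
  rw [div_le_iff₀ heps] at e3
  have e4 := abs_le.1 (hcan.near x)
  rw [hAe, abs_le]
  constructor
  · linarith [e4.1, e4.2]
  · linarith [e4.1, e4.2]

end Pool.Agent.FCF
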