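import Pool.Agent.FCF.CanEx
import Pool.Agent.FCF.Planar
import Pool.Agent.FCF.Wedge
import Pool.Agent.FCF.Gap

/-!
# FCF / HomogTyp: homogenization for typical environments
-/

set_option autoImplicit false

namespace Pool.Agent.FCF

open Pool.Agent.VSC (V J LowJet)
open Set Metric

/-- Homogenisation for typical environments, in terms of the arrival functions. -/
theorem homog_typ {p : Par} {P0 : Set V} (hP0 : IsClosed P0) (hb : ∃ cm cp : ℝ, 0 < cm ∧ ∀ P ∈ P0,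
    cm ≤ ‖P‖ ∧ ‖P‖ ≤ cp) (hh : ∀ v : V, ‖v‖ = 1 → ∃ P ∈ P0, 0 < inner ℝ P v)
    (hex : ∀ e : V, ‖e‖ = 1 → ∃ c, Typ p P0 c ∧ Spd2 (frc c p.F) e) :
    ∃ lam : V → ℝ, (∀ e : V, ‖e‖ = 1 → 0 < lam e) ∧ ∀ c : V → ℝ, Typ p P0 c → ∀ e : V, ‖e‖ = 1 →
      ∀ (A0 B0 : Set V) (TE TO : V → ℝ) (C g : ℝ), Canon p c e A0 B0 TE TO C g →
      ∀ eps : ℝ, 0 < eps → ∃ R0 : ℝ, ∀ R : ℝ, R0 ≤ R → ∀ x : V, ‖x‖ ≤ R → 0 ≤ inner ℝ x e →
        |TE x - lam e * inner ℝ x e| ≤ eps * R := by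
  classical
  -- uniqueness on rays
  have huniq0 : ∀ e : V, ‖e‖ = 1 → ∀ a b : ℝ, 0 < a → 0 < b → a • e ∈ P0 → b • e ∈ P0 → a = b := by
    intro e he a b ha hb ha' hb'
    obtain ⟨c0, hc0, h1⟩ := hex e he
    obtain ⟨A0, B0, TE, TO, C, g, hcan⟩ := exists_canon hc0.env he h1
    by_contra hab
    have hab' : 0 < |a - b| := abs_pos.2 (sub_ne_zero.2 hab)
    obtain ⟨Ra, hRa⟩ := planar hc0 he ha ha' hcan (|a - b| / 4) (by linarith)
    obtain ⟨Rb, hRb⟩ := planar hc0 he hb hb' hcan (|a - b| / 4) (by linarith)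
    set R := max (max Ra Rb) 1 with hR
    have hR1 : 1 ≤ R := le_max_right _ _
    have hin : inner ℝ (R • e) e = R := by
      rw [real_inner_smul_left, real_inner_self_eq_norm_sq, he]; ring
    have hn : ‖R • e‖ ≤ R := by
      rw [norm_smul, he, Real.norm_eq_abs, abs_of_nonneg (by linarith)]; simp
    have e1 := hRa R ((le_max_left _ _).trans (le_max_left _ _)) (R • e) hn (by rw [hin]; linarith)
    have e2 := hRb R ((le_max_right _ _).trans (le_max_left _ _)) (R • e) hn (by rw [hin]; linarith)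
    rw [hin] at e1 e2
    have : |a * R - b * R| ≤ |a - b| / 2 * R := by
      calc |a * R - b * R| = |(TE (R • e) - b * R) - (TE (R • e) - a * R)| := by ring_nf
        _ ≤ |TE (R • e) - b * R| + |TE (R • e) - a * R| := abs_sub _ _
        _ ≤ _ := by nlinarith
    rw [← sub_mul, abs_mul, abs_of_pos (by linarith : (0:ℝ) < R)] at this
    nlinarith
  have huniq : ∀ P ∈ P0, ∀ s : ℝ, 0 < s → s • P ∈ P0 → s = 1 := by
    intro P hP s hs hsP
    obtain ⟨cm, cp, hcm, hcc⟩ := hb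
    have hPn : 0 < ‖P‖ := hcm.trans_le (hcc P hP).1
    have he : ‖(‖P‖⁻¹ • P)‖ = 1 := by
      rw [norm_smul, norm_inv, norm_norm, inv_mul_cancel₀ hPn.ne']
    have h1 : ‖P‖ • (‖P‖⁻¹ • P) = P := by rw [smul_smul, mul_inv_cancel₀ hPn.ne', one_smul]
    have h2 : (s * ‖P‖) • (‖P‖⁻¹ • P) = s • P := by
      rw [mul_smul, h1]
    have := huniq0 _ he ‖P‖ (s * ‖P‖) hPn (by positivity) (by rw [h1]; exact hP)
      (by rw [h2]; exact hsP)
    have h3 : (s - 1) * ‖P‖ = 0 := by linarith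
    rcases mul_eq_zero.1 h3 with h | h
    · linarith
    · exact absurd h hPn.ne'
  -- choice of lam
  have key : ∀ e : V, ‖e‖ = 1 → ∃ l : ℝ, 0 < l ∧ ∀ c : V → ℝ, Typ p P0 c →
      ∀ (A0 B0 : Set V) (TE TO : V → ℝ) (C g : ℝ), Canon p c e A0 B0 TE TO C g →
      ∀ eps : ℝ, 0 < eps → ∃ R0 : ℝ, ∀ R : ℝ, R0 ≤ R → ∀ x : V, ‖x‖ ≤ R → 0 ≤ inner ℝ x e →
        |TE x - l * inner ℝ x e| ≤ eps * R := by
    intro e he
    by_cases hD : ∃ l : ℝ, 0 < l ∧ l • e ∈ P0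
    · obtain ⟨l, hl, hl'⟩ := hD
      exact ⟨l, hl, fun c hc A0 B0 TE TO C g hcan => planar hc he hl hl' hcan⟩
    · push Not at hD
      obtain ⟨Pm, hPm, Pp, hPp, s1, s2, hs1, hs2, hes, hne, ⟨A, hA1, hA2⟩, hcone⟩ :=
        gap hP0 hb hh huniq he hD
      have hAe : inner ℝ A e = s1 + s2 := by
        rw [hes, inner_add_right, inner_smul_right, inner_smul_right, hA1, hA2]; ring
      refine ⟨1 / (s1 + s2), by positivity, fun c hc A0 B0 TE TO C g hcan eps heps => ?_⟩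
      obtain ⟨R0, hR0⟩ := wedge hP0 hb hc he hPm hPp hs1 hs2 hes hA1 hA2 hne hcone hcan eps heps
      refine ⟨R0, fun R hR x hx hx0 => ?_⟩
      have := hR0 R hR x hx hx0
      rw [hAe] at this
      rw [show 1 / (s1 + s2) * inner ℝ x e = inner ℝ x e / (s1 + s2) by ring]
      exact this
  choose! lam h1 h2 using key
  exact ⟨lam, h1, fun c hc e he A0 B0 TE TO C g hcan => h2 e he c hc A0 B0 TE TO C g hcan⟩

end Pool.Agent.FCF
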