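import Pool.Agent.FCF.Stab

/-!
# FCF / FlowBasic: the maximal flow

`flow_gsub`: closure of a union of subflows (`subIn_closure_sUnion`); initial slice: if `x ∉ A` then some `closedBall x r` is disjoint
from `A`, `hole` for every member gives: no points within `r/2` of `x` at times `< small`, so `(x,0)` is not in the closure.
`E_zero`: `A ×ˢ {0}` is a `GSub` (no points with time > 0).
`E_add` (semigroup): ⊆: `Flow h A` shifted in time by `s` is a `GSub h (E h A s)`. ⊇: concatenation (`SubIn.concat`) of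
`Flow h A` with the shifted `Flow h (E h A s)`.
`E_univ`: `univ ×ˢ Ici 0` is a `GSub` (no lower jets with `p ≠ 0` at a point where a neighbourhood, for times `≤ t0`, is contained in the set: test
with `x = x0 - ε p`, `t = t0`).
`E_empty`: `hole`.
-/

set_option autoImplicit false

namespace Pool.Agent.FCF

open Pool.Agent.VSC (V J LowJet)
open Set Metric Filter Topology

theorem isClosed_flow (h : V → ℝ) (A : Set V) : IsClosed (Flow h A) := isClosed_closure

theorem flow_nonneg {h : V → ℝ} {A : Set V} {z : V × ℝ} (hz : z ∈ Flow h A) : 0 ≤ z.2 := by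
  have h1 : closure (⋃₀ {S | GSub h A S}) ⊆ {z : V × ℝ | 0 ≤ z.2} := by
    refine closure_minimal ?_ (isClosed_le continuous_const continuous_snd)
    rintro ⟨x, t⟩ ⟨S, hS, hz⟩
    exact hS.nonneg x t hz
  exact h1 hz

theorem flow_gsub {M L : ℝ} {h : V → ℝ} (hm : Med M L h) {A : Set V} (hA : IsClosed A) :
    GSub h A (Flow h A) := by
  refine ⟨fun x t hz => flow_nonneg hz, ?_, fun x hx => ?_⟩
  · exact subIn_closure_sUnion hm isOpen_univ (fun S hS => hS.sub)
      (fun S hS z hz => hS.nonneg z.1 z.2 hz)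
  · by_contra hxA
    obtain ⟨r, hr, hb⟩ := Metric.nhds_basis_closedBall.mem_iff.1
      (hA.isOpen_compl.mem_nhds hxA)
    have hM1 := hm.one_le
    have hpos := hM_pos hM1 hr
    have hC : 0 < 2 + 2 * (M + 1) * r := by
      have : 0 < M + 1 := by linarith
      positivity
    have hCM : (2 + 2 * (M + 1) * r) * hM M r = r ^ 2 := by
      unfold hM
      field_simp
    set W : Set (V × ℝ) := {z | ‖z.1 - x‖ < r / 2 ∧ z.2 < hM M r / 2} with hW
    have hWo : IsOpen W := by
      refine IsOpen.and (isOpen_lt ?_ continuous_const) (isOpen_lt continuous_snd continuous_const)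
      exact (continuous_fst.sub continuous_const).norm
    have hxW : (x, (0 : ℝ)) ∈ W := by
      refine ⟨?_, ?_⟩
      · show ‖x - x‖ < r / 2
        rw [sub_self, norm_zero]; linarith
      · show (0 : ℝ) < hM M r / 2
        linarith
    obtain ⟨⟨y, s⟩, hyW, S, hS, hyS⟩ := mem_closure_iff.1 hx W hWo hxW
    have hs0 : 0 ≤ s := hS.nonneg y s hyS
    have hy1 : ‖y - x‖ < r / 2 := hyW.1
    have hs1 : s < hM M r / 2 := hyW.2
    have h3 := hole hm hS.sub hr (subset_univ _) (fun z hz hz' => hb hz (hS.init z hz')) hs0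
      (by linarith : s < hM M r) (y := y) (by
        have h4 : ‖y - x‖ ^ 2 ≤ (r / 2) ^ 2 := by
          have := norm_nonneg (y - x)
          gcongr
        nlinarith [mul_lt_mul_of_pos_left hs1 hC])
    rw [zero_add] at h3
    exact h3 hyS

theorem sub_flow {h : V → ℝ} {A : Set V} {S : Set (V × ℝ)} (hS : GSub h A S) : S ⊆ Flow h A := by
  exact (subset_sUnion_of_mem (show S ∈ {S | GSub h A S} from hS)).trans subset_closure

theorem isClosed_E (h : V → ℝ) (A : Set V) (t : ℝ) : IsClosed (E h A t) := by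
  exact (isClosed_flow h A).preimage (f := fun x : V => (x, t)) (by fun_prop)

theorem E_zero {M L : ℝ} {h : V → ℝ} (hm : Med M L h) {A : Set V} (hA : IsClosed A) :
    E h A 0 = A := by
  refine Subset.antisymm (fun x hx => (flow_gsub hm hA).init x hx) fun x hx => ?_
  have hS : GSub h A (A ×ˢ {(0 : ℝ)}) := by
    refine ⟨fun y t hy => (hy.2 : t = 0).ge, ?_, fun y hy => hy.1⟩
    refine SubIn.of_closed (hA.prod isClosed_singleton) fun y t _ ht hy => ?_
    have h1 : t = 0 := hy.2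
    exact absurd h1 ht.ne'
  exact sub_flow hS ⟨hx, rfl⟩

theorem E_neg {h : V → ℝ} {A : Set V} {t : ℝ} (ht : t < 0) : E h A t = ∅ := by
  refine eq_empty_of_forall_notMem fun x hx => ?_
  exact absurd (flow_nonneg hx) (not_le.2 ht)

/-- Cutting off the past. -/
theorem flowBasic_inter_ge {h : V → ℝ} {U : Set V} {t0 : ℝ} {S : Set (V × ℝ)}
    (hS : SubIn h U t0 S) : SubIn h U t0 (S ∩ {z | t0 ≤ z.2}) := by
  constructor
  · intro x t hx h1 h2
    refine ⟨hS.closed x t hx h1 (closure_mono ?_ h2), h1⟩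
    exact fun z hz => ⟨hz.1.1, hz.2⟩
  · rintro x t hx h1 ⟨h2, _⟩
    refine (hS.sub x t hx h1 h2).mono_near ⟨t - t0, by linarith, fun y s _ h3 _ h5 => ⟨h5, ?_⟩⟩
    show t0 ≤ s
    linarith

theorem E_add {M L : ℝ} {h : V → ℝ} (hm : Med M L h) {A : Set V} (hA : IsClosed A) {s t : ℝ}
    (hs : 0 ≤ s) (ht : 0 ≤ t) : E h A (s + t) = E h (E h A s) t := by
  have hG := flow_gsub hm hA
  have hE : IsClosed (E h A s) := isClosed_E h A s
  have hG2 := flow_gsub hm hE
  refine Subset.antisymm (fun x hx => ?_) fun x hx => ?_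
  · have h1 : SubIn h univ (0 + s) (Flow h A) := by
      rw [zero_add]; exact hG.sub.restrict Subset.rfl hs
    have h2 := flowBasic_inter_ge (h1.shift_time s)
    have hS : GSub h (E h A s) ({z | (z.1, z.2 + s) ∈ Flow h A} ∩ {z | (0 : ℝ) ≤ z.2}) := by
      refine ⟨fun y r hy => hy.2, h2, fun y hy => ?_⟩
      have h3 : (y, 0 + s) ∈ Flow h A := hy.1
      rw [zero_add] at h3
      exact h3
    refine sub_flow hS ⟨?_, ht⟩
    show (x, t + s) ∈ Flow h A
    rw [add_comm t s]
    exact hx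
  · have h1 : SubIn h univ s {z | (z.1, z.2 + -s) ∈ Flow h (E h A s)} := by
      refine SubIn.shift_time (-s) ?_
      rw [add_neg_cancel]
      exact hG2.sub
    have hc : ∀ y ∈ (univ : Set V), (y, s) ∈ {z : V × ℝ | (z.1, z.2 + -s) ∈ Flow h (E h A s)} →
        (y, s) ∈ Flow h A := by
      intro y _ hy
      have h2 : (y, s + -s) ∈ Flow h (E h A s) := hy
      rw [add_neg_cancel] at h2
      exact hG2.init y h2
    have h3 := SubIn.concat hs hG.sub h1 hc
    have hS : GSub h A ((Flow h A ∩ {z | z.2 ≤ s}) ∪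
        ({z | (z.1, z.2 + -s) ∈ Flow h (E h A s)} ∩ {z | s ≤ z.2})) := by
      refine ⟨fun y r hy => ?_, h3, fun y hy => ?_⟩
      · rcases hy with hy | hy
        · exact flow_nonneg hy.1
        · exact hs.trans hy.2
      · rcases hy with hy | hy
        · exact hG.init y hy.1
        · have h4 : s = 0 := le_antisymm hy.2 hs
          have h5 := hc y (mem_univ y) (by rw [h4] at hy ⊢; exact hy.1)
          rw [h4] at h5
          exact hG.init y h5
    refine sub_flow hS (Or.inr ⟨?_, ?_⟩)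
    · show (x, s + t + -s) ∈ Flow h (E h A s)
      have h6 : s + t + -s = t := by ring
      rw [h6]
      exact hx
    · show s ≤ s + t
      linarith

theorem E_mono {h : V → ℝ} {A B : Set V} (hAB : A ⊆ B) (t : ℝ) : E h A t ⊆ E h B t := by
  have h1 : Flow h A ⊆ Flow h B := closure_mono (sUnion_mono fun S hS =>
    ⟨hS.nonneg, hS.sub, fun x hx => hAB (hS.init x hx)⟩)
  exact fun x hx => h1 hx

theorem E_mono_force {h h' : V → ℝ} (hle : ∀ x, h x ≤ h' x) (A : Set V) (t : ℝ) :
    E h A t ⊆ E h' A t := by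
  have h1 : Flow h A ⊆ Flow h' A := closure_mono (sUnion_mono fun S hS =>
    ⟨hS.nonneg, hS.sub.mono_force fun x _ => hle x, hS.init⟩)
  exact fun x hx => h1 hx

theorem E_empty {M L : ℝ} {h : V → ℝ} (hm : Med M L h) (t : ℝ) : E h ∅ t = ∅ := by
  have h1 : ⋃₀ {S | GSub h ∅ S} = ∅ := by
    refine eq_empty_of_forall_notMem ?_
    rintro ⟨x, s⟩ ⟨S, hS, hx⟩
    have hs0 : 0 ≤ s := hS.nonneg x s hx
    have hM1 := hm.one_le
    have h2 : (0 : ℝ) < 2 * M + 4 := by linarith
    have h3 := speed hm hS.sub (x := x) (r := s * (2 * M + 4) + 1) (by nlinarith)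
      (subset_univ _) hs0 (by rw [add_sub_cancel_right, mul_div_assoc, div_self h2.ne', mul_one])
      (by rw [zero_add]; exact hx)
    obtain ⟨y, _, hy⟩ := h3
    exact hS.init y hy
  refine eq_empty_of_forall_notMem fun x hx => ?_
  have h2 : (x, t) ∈ closure (⋃₀ {S | GSub h ∅ S}) := hx
  rw [h1, closure_empty] at h2
  exact h2

theorem flowBasic_interior {h : V → ℝ} {S : Set (V × ℝ)} {x0 : V} {t0 : ℝ}
    (hs : ∃ r : ℝ, 0 < r ∧ ∀ (x : V) (t : ℝ), ‖x - x0‖ < r → t0 - r < t → t ≤ t0 → (x, t) ∈ S) :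
    SubAt h S x0 t0 := by
  obtain ⟨r, hr, hS⟩ := hs
  constructor
  · intro a p X hj hp
    exfalso
    obtain ⟨r1, hr1, h1⟩ := hj 1 one_pos
    have hpn : 0 < ‖p‖ := norm_pos_iff.2 hp
    have hp2 : 0 < ‖p‖ ^ 2 := by positivity
    set K : ℝ := |X p p| + ‖p‖ ^ 2 with hK
    have hK0 : 0 < K := by have := abs_nonneg (X p p); linarith
    set ρ : ℝ := min (min r r1 / (2 * ‖p‖)) (‖p‖ ^ 2 / (2 * K)) with hρ
    have hρ0 : 0 < ρ := by
      refine lt_min ?_ (by positivity)
      have : 0 < min r r1 := lt_min hr hr1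
      positivity
    have hρ1 : ρ * ‖p‖ < min r r1 := by
      have h2 : ρ ≤ min r r1 / (2 * ‖p‖) := min_le_left _ _
      have h3 : 0 < min r r1 := lt_min hr hr1
      calc ρ * ‖p‖ ≤ min r r1 / (2 * ‖p‖) * ‖p‖ := by gcongr
        _ = min r r1 / 2 := by field_simp
        _ < min r r1 := half_lt_self h3
    have hρ2 : ρ * K ≤ ‖p‖ ^ 2 / 2 := by
      have h2 : ρ ≤ ‖p‖ ^ 2 / (2 * K) := min_le_right _ _
      calc ρ * K ≤ ‖p‖ ^ 2 / (2 * K) * K := by gcongr
        _ = ‖p‖ ^ 2 / 2 := by field_simp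
    have hx : x0 - ρ • p - x0 = -(ρ • p) := by abel
    have hnx : ‖x0 - ρ • p - x0‖ = ρ * ‖p‖ := by
      rw [hx, norm_neg, norm_smul, Real.norm_of_nonneg hρ0.le]
    have h2 := h1 (x0 - ρ • p) t0
      (hS _ _ (by rw [hnx]; exact hρ1.trans_le (min_le_left _ _)) (by linarith) le_rfl)
      (by rw [hnx]; exact hρ1.trans_le (min_le_right _ _)) (by linarith) le_rfl
    rw [hnx, hx, sub_self, mul_zero, abs_zero, inner_neg_right, real_inner_smul_right,
      real_inner_self_eq_norm_sq] at h2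
    have h3 : X (-(ρ • p)) (-(ρ • p)) = ρ ^ 2 * X p p := by
      simp only [map_neg, map_smul, _root_.neg_apply, _root_.smul_apply, smul_eq_mul]
      ring
    rw [h3] at h2
    have h4 : X p p ≤ |X p p| := le_abs_self _
    have h5 : 0 ≤ |X p p| := abs_nonneg _
    have h6 : 0 ≤ ρ * (-(‖p‖ ^ 2) + ρ * K) := by
      have h7 : (1 / 2) * (ρ ^ 2 * X p p) ≤ ρ ^ 2 * |X p p| := by nlinarith [sq_nonneg ρ]
      nlinarith
    have h7 : 0 ≤ -(‖p‖ ^ 2) + ρ * K := by
      by_contra h8
      have := mul_neg_of_pos_of_neg hρ0 (not_le.1 h8)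
      linarith
    linarith
  · intro r' hr'
    have h1 : 0 < min r r' := lt_min hr hr'
    have h2 := min_le_left r r'
    have h3 := min_le_right r r'
    refine ⟨x0, t0 - min r r' / 2, hS _ _ ?_ (by linarith) (by linarith), ?_, by linarith,
      by linarith⟩
    · rw [sub_self, norm_zero]; exact hr
    · rw [sub_self, norm_zero]; exact hr'

theorem E_univ {h : V → ℝ} {t : ℝ} (ht : 0 ≤ t) : E h univ t = univ := by
  refine eq_univ_of_forall fun x => ?_
  have hS : GSub h univ ((univ : Set V) ×ˢ Ici (0 : ℝ)) := by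
    refine ⟨fun y s hy => hy.2, ?_, fun y _ => mem_univ y⟩
    refine SubIn.of_closed (isClosed_univ.prod isClosed_Ici) fun y s _ hs _ => ?_
    refine flowBasic_interior ⟨s, hs, fun z r _ h2 _ => ⟨mem_univ z, ?_⟩⟩
    show (0 : ℝ) ≤ r
    linarith
  exact sub_flow hS ⟨mem_univ x, ht⟩

/-- At a point which is in the interior (for times `≤ t0`) there is no condition. -/
theorem subAt_of_interior {h : V → ℝ} {S : Set (V × ℝ)} {x0 : V} {t0 : ℝ}
    (hs : ∃ r : ℝ, 0 < r ∧ ∀ (x : V) (t : ℝ), ‖x - x0‖ < r → t0 - r < t → t ≤ t0 → (x, t) ∈ S) :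
    SubAt h S x0 t0 := by
  exact flowBasic_interior hs

theorem E_shift {h : V → ℝ} {A : Set V} (y : V) (t : ℝ) (x : V) :
    x ∈ E (fun x => h (y + x)) {x | y + x ∈ A} t ↔ y + x ∈ E h A t := by
  have key : ∀ (h : V → ℝ) (A : Set V) (y : V) (S : Set (V × ℝ)), GSub h A S →
      GSub (fun x => h (y + x)) {x | y + x ∈ A} {z | (y + z.1, z.2) ∈ S} := by
    intro h A y S hS
    exact ⟨fun x t hx => hS.nonneg _ t hx, hS.sub.shift_space y, fun x hx => hS.init _ hx⟩
  constructor
  · intro hx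
    have h1 : (y + x, t) ∈ closure (⋃₀ {S | GSub h A S}) := by
      refine map_mem_closure (f := fun z : V × ℝ => (y + z.1, z.2)) (by fun_prop)
        (show (x, t) ∈ closure (⋃₀ {S | GSub (fun x => h (y + x)) {x | y + x ∈ A} S}) from hx) ?_
      rintro z ⟨S, hS, hz⟩
      have h2 := key _ _ (-y) S hS
      have h3 : (fun x : V => (fun x => h (y + x)) (-y + x)) = h := by
        funext x; simp
      have h4 : {x : V | -y + x ∈ {x : V | y + x ∈ A}} = A := by
        ext x; simp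
      rw [h3, h4] at h2
      refine ⟨_, h2, ?_⟩
      show (-y + (y + z.1), z.2) ∈ S
      rw [neg_add_cancel_left]
      exact hz
    exact h1
  · intro hx
    have h1 : (-y + (y + x), t) ∈
        closure (⋃₀ {S | GSub (fun x => h (y + x)) {x | y + x ∈ A} S}) := by
      refine map_mem_closure (f := fun z : V × ℝ => (-y + z.1, z.2)) (by fun_prop)
        (show (y + x, t) ∈ closure (⋃₀ {S | GSub h A S}) from hx) ?_
      rintro z ⟨S, hS, hz⟩
      refine ⟨_, key _ _ y S hS, ?_⟩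
      show (y + (-y + z.1), z.2) ∈ S
      rw [add_neg_cancel_left]
      exact hz
    rw [neg_add_cancel_left] at h1
    exact h1

/-- Monotone slices: closed union over a compact time interval. -/
theorem isClosed_biUnion_E (h : V → ℝ) (A : Set V) (T0 : ℝ) :
    IsClosed {x | ∃ t : ℝ, 0 ≤ t ∧ t ≤ T0 ∧ x ∈ E h A t} := by
  refine IsSeqClosed.isClosed fun xs x hxs hx => ?_
  choose t ht0 ht1 hxt using hxs
  obtain ⟨s, hs, φ, hφ, hlim⟩ := isCompact_Icc.tendsto_subseq
    (fun n => (⟨ht0 n, ht1 n⟩ : t n ∈ Icc 0 T0))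
  refine ⟨s, hs.1, hs.2, ?_⟩
  exact (isClosed_flow h A).mem_of_tendsto ((hx.comp hφ.tendsto_atTop).prodMk_nhds hlim)
    (Eventually.of_forall fun n => hxt (φ n))

/-- Upper semicontinuity of the maximal flow. -/
theorem E_limit {M L : ℝ} {h : V → ℝ} {hn : ℕ → V → ℝ} (hm : Med M L h)
    (hmn : ∀ n, Med M L (hn n)) (hconv : ∀ x, Tendsto (fun n => hn n x) atTop (𝓝 (h x)))
    {A : Set V} {An : ℕ → Set V} (hA : IsClosed A) (hAn : ∀ n, IsClosed (An n))
    (hlim : ∀ (φ : ℕ → ℕ) (a : ℕ → V) (b : V), StrictMono φ → (∀ n, a n ∈ An (φ n)) →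
      Tendsto a atTop (𝓝 b) → b ∈ A)
    {φ : ℕ → ℕ} (hφ : StrictMono φ) {x : ℕ → V} {t : ℕ → ℝ} {y : V} {s : ℝ}
    (hx : ∀ n, x n ∈ E (hn (φ n)) (An (φ n)) (t n)) (hxl : Tendsto x atTop (𝓝 y))
    (htl : Tendsto t atTop (𝓝 s)) : y ∈ E h A s := by
  have hG : ∀ n, GSub (hn n) (An n) (Flow (hn n) (An n)) := fun n => flow_gsub (hmn n) (hAn n)
  have hst := stab hm hmn hconv isOpen_univ (fun n => (hG n).sub)
  set S : Set (V × ℝ) := LimSet (fun n => Flow (hn n) (An n) ∩ {z | (0 : ℝ) ≤ z.2}) with hSdef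
  have hS : GSub h A S := by
    refine ⟨fun z r hz => ?_, hst, fun z hz => ?_⟩
    · obtain ⟨w, ψ, _, hw, hwl⟩ := exists_of_mem_LimSet hz
      have h1 : Tendsto (fun n => (w n).2) atTop (𝓝 r) := (continuous_snd.tendsto _).comp hwl
      exact ge_of_tendsto' h1 fun n => (hw n).2
    · obtain ⟨w, ψ, hψ, hw, hwl⟩ := exists_of_mem_LimSet hz
      have h1 : Tendsto (fun n => (w n).1) atTop (𝓝 z) := (continuous_fst.tendsto _).comp hwl
      have h2 : Tendsto (fun n => (w n).2) atTop (𝓝 0) := (continuous_snd.tendsto _).comp hwl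
      have hM1 := hm.one_le
      have h3 : ∀ k : ℕ, ∀ᶠ n in atTop, (w n).2 < hM M (1 / ((k : ℝ) + 1)) := fun k =>
        h2.eventually_lt_const (hM_pos hM1 (by positivity))
      obtain ⟨χ, hχ, h4⟩ := extraction_forall_of_eventually h3
      have h5 : ∀ k : ℕ, ∃ a ∈ closedBall (w (χ k)).1 (1 / ((k : ℝ) + 1)),
          (a, (0 : ℝ)) ∈ Flow (hn (ψ (χ k))) (An (ψ (χ k))) := by
        intro k
        refine speed_small (hmn _) (hG _).sub (by positivity) (subset_univ _) (hw (χ k)).2 (h4 k) ?_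
        rw [zero_add]
        exact (hw (χ k)).1
      choose a ha1 ha2 using h5
      refine hlim (ψ ∘ χ) a z (hψ.comp hχ) (fun k => (hG _).init _ (ha2 k)) ?_
      have h6 : Tendsto (fun k => (w (χ k)).1) atTop (𝓝 z) := h1.comp hχ.tendsto_atTop
      have h7 : Tendsto (fun k : ℕ => dist ((w (χ k)).1) (a k)) atTop (𝓝 0) := by
        refine squeeze_zero (fun _ => dist_nonneg) (fun k => ?_)
          tendsto_one_div_add_atTop_nhds_zero_nat
        rw [dist_comm]
        exact mem_closedBall.1 (ha1 k)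
      exact (tendsto_iff_of_dist h7).1 h6
  refine sub_flow hS ?_
  refine mem_LimSet (w := fun n => (x n, t n)) hφ (fun n => ⟨hx n, ?_⟩) (hxl.prodMk_nhds htl)
  exact flow_nonneg (hx n)

end Pool.Agent.FCF
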