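import Pool.Agent.FCF.SubBasic

/-!
# FCF / Hole: local hole lemma and finite speed

PROOF of `hole` (see Pool/Agent/VSC/Hole.lean, theorem `hole`, for the same proof for global subflows):
let `C = 2 + 2 (M + 1) r`. The set of points `(y, t0 + s)` of `S` with `0 ≤ s ≤ s1` and
`‖y - x‖^2 ≤ r^2 - C s` is compact (relative closedness of `S` in `U × [t0, ∞)`, closed ball in `U`). Suppose it is not empty and take a point
`(y*, t0 + s*)` with smallest time. `s* > 0` by `h0`. If `‖y* - x‖^2 < r^2 - C s*` then (ii) (left accessibility) gives an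
earlier point. So equality, `y* ≠ x` (as `s* < hM M r` means `r^2 - C s* > 0`), and all points `(y, t)` of `S` near with `t ≤ t*` satisfy `0 ≤ ‖y - x‖^2 - r^2 + C (t - t0)`.
Lower jet `(C, 2 (y* - x), 2 id)`: `C ≤ 2 + h(y*) 2 ‖y* - x‖ ≤ 2 + 2 M r`. Contradiction.
`hM_ge`: `r^2 / (2 + 2(M+1) r) ≥ r / (2M+4)` iff `r (2M+4) ≥ 2 + 2 (M+1) r` iff `2 r ≥ 2`.
`speed`: contrapositive of `hole` with `r`, since `s ≤ (r-1)/(2M+4) < hM M r`.
-/

set_option autoImplicit false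

namespace Pool.Agent.FCF

open Pool.Agent.VSC (V J LowJet)
open Set Metric

theorem hM_pos {M r : ℝ} (h1M : 1 ≤ M) (hr : 0 < r) : 0 < hM M r := by
  unfold hM
  have : 0 < (M + 1) * r := by positivity
  positivity

theorem hM_mono {M r r' : ℝ} (h1M : 1 ≤ M) (hr : 0 < r) (hrr : r ≤ r') : hM M r ≤ hM M r' := by
  unfold hM
  have hr' : 0 < r' := lt_of_lt_of_le hr hrr
  have hM0 : 0 < M + 1 := by linarith
  rw [div_le_div_iff₀ (by positivity) (by positivity)]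
  have h1 : 0 ≤ (M + 1) * (r * r') * (r' - r) :=
    mul_nonneg (by positivity) (by linarith)
  nlinarith

theorem hM_ge {M r : ℝ} (h1M : 1 ≤ M) (hr : 1 ≤ r) : (r - 1) / (2 * M + 4) < hM M r := by
  unfold hM
  have hM0 : 0 < M + 1 := by linarith
  have hr0 : 0 < r := by linarith
  rw [div_lt_div_iff₀ (by positivity) (by positivity)]
  have h1 : 0 ≤ M * r := by positivity
  nlinarith

private theorem hole_idForm_self (c : ℝ) (h : V) :
    (c • (innerSL ℝ : V →L[ℝ] V →L[ℝ] ℝ)) h h = c * ‖h‖ ^ 2 := by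
  have : (c • (innerSL ℝ : V →L[ℝ] V →L[ℝ] ℝ)) h h = c * inner ℝ h h := rfl
  rw [this, real_inner_self_eq_norm_sq]

private theorem hole_exists_perp {p : V} (hp : p ≠ 0) : ∃ xi : V, ‖xi‖ = 1 ∧ inner ℝ xi p = 0 := by
  have hn : ‖p‖ ≠ 0 := norm_ne_zero_iff.2 hp
  refine ⟨‖p‖⁻¹ • J p, ?_, ?_⟩
  · rw [norm_smul, Pool.Agent.VSC.norm_J, norm_inv, norm_norm, inv_mul_cancel₀ hn]
  · rw [real_inner_smul_left, Pool.Agent.VSC.inner_J, mul_zero]

private theorem hole_C_mul {M r s : ℝ} (h1M : 1 ≤ M) (hr : 0 < r) (hs : s < hM M r) :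
    (2 + 2 * (M + 1) * r) * s < r ^ 2 := by
  unfold hM at hs
  have hM0 : 0 < M + 1 := by linarith
  rw [lt_div_iff₀ (by positivity)] at hs
  linarith

theorem hole {M L : ℝ} {h : V → ℝ} (hm : Med M L h) {U : Set V} {t0 : ℝ} {S : Set (V × ℝ)}
    (hS : SubIn h U t0 S) {x : V} {r : ℝ} (hr : 0 < r) (hb : closedBall x r ⊆ U)
    (h0 : ∀ y ∈ closedBall x r, (y, t0) ∉ S) {s : ℝ} (hs0 : 0 ≤ s) (hs : s < hM M r) {y : V}
    (hy : ‖y - x‖ ^ 2 ≤ r ^ 2 - (2 + 2 * (M + 1) * r) * s) : (y, t0 + s) ∉ S := by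
  intro hmem
  have hM1 := hm.one_le
  have hCs := hole_C_mul hM1 hr hs
  set C : ℝ := 2 + 2 * (M + 1) * r with hCdef
  have hM0 : 0 < M + 1 := by linarith
  have hCpos : 0 < C := by positivity
  have hCM : 2 * (1 + M * r) < C := by rw [hCdef]; nlinarith
  set t2 := t0 + s with ht2
  have hball : ∀ (z : V) (t : ℝ), t0 ≤ t → ‖z - x‖ ^ 2 ≤ r ^ 2 - C * (t - t0) → ‖z - x‖ ≤ r := by
    intro z t ht hz
    have : ‖z - x‖ ^ 2 ≤ r ^ 2 := by nlinarith [mul_nonneg hCpos.le (sub_nonneg.2 ht)]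
    exact (abs_le_of_sq_le_sq' this hr.le).2
  have hinU : ∀ (z : V) (t : ℝ), t0 ≤ t → ‖z - x‖ ^ 2 ≤ r ^ 2 - C * (t - t0) → z ∈ U := by
    intro z t ht hz
    exact hb (mem_closedBall_iff_norm.2 (hball z t ht hz))
  set A : Set (V × ℝ) := {z | z ∈ S ∧ t0 ≤ z.2 ∧ z.2 ≤ t2 ∧ ‖z.1 - x‖ ^ 2 ≤ r ^ 2 - C * (z.2 - t0)}
    with hAdef
  have hAeq : A = closure (S ∩ {z | t0 ≤ z.2}) ∩ ({z | t0 ≤ z.2} ∩ ({z | z.2 ≤ t2} ∩
      {z | ‖z.1 - x‖ ^ 2 ≤ r ^ 2 - C * (z.2 - t0)})) := by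
    ext z
    constructor
    · rintro ⟨h1, h2, h3, h4⟩
      exact ⟨subset_closure ⟨h1, h2⟩, h2, h3, h4⟩
    · rintro ⟨h1, h2, h3, h4⟩
      exact ⟨hS.closed z.1 z.2 (hinU z.1 z.2 h2 h4) h2 h1, h2, h3, h4⟩
  have hAclosed : IsClosed A := by
    rw [hAeq]
    refine isClosed_closure.inter (IsClosed.inter ?_ (IsClosed.inter ?_ ?_))
    · exact isClosed_le continuous_const continuous_snd
    · exact isClosed_le continuous_snd continuous_const
    · exact isClosed_le (f := fun z : V × ℝ => ‖z.1 - x‖ ^ 2)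
        (g := fun z : V × ℝ => r ^ 2 - C * (z.2 - t0)) (by fun_prop) (by fun_prop)
  have hAsub : A ⊆ Metric.closedBall x r ×ˢ Set.Icc t0 t2 := by
    rintro ⟨z, t⟩ ⟨-, h1, h3, h4⟩
    exact ⟨mem_closedBall_iff_norm.2 (hball z t h1 h4), h1, h3⟩
  have hAc : IsCompact A :=
    ((isCompact_closedBall x r).prod isCompact_Icc).of_isClosed_subset hAclosed hAsub
  have hyA : (y, t2) ∈ A := by
    refine ⟨hmem, ?_, le_refl _, ?_⟩
    · show t0 ≤ t2
      rw [ht2]; linarith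
    · show ‖y - x‖ ^ 2 ≤ r ^ 2 - C * (t2 - t0)
      rw [ht2]; ring_nf; ring_nf at hy; linarith
  obtain ⟨⟨xs, ts⟩, hzA, hzmin⟩ := hAc.exists_isMinOn ⟨(y, t2), hyA⟩ continuous_snd.continuousOn
  have hzmin' : ∀ z t, (z, t) ∈ A → ts ≤ t := fun z t h => hzmin h
  obtain ⟨hzS, hz1, hz2, hz3⟩ := hzA
  simp only at hz1 hz2 hz3
  have hge : ∀ z t, (z, t) ∈ S → t0 ≤ t → t ≤ ts → r ^ 2 - C * (t - t0) ≤ ‖z - x‖ ^ 2 := by
    intro z t hzt h1t htts
    by_contra hcon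
    push Not at hcon
    have hzU : z ∈ U := hinU z t h1t hcon.le
    have h1t' : t0 < t := by
      rcases h1t.lt_or_eq with h | h
      · exact h
      · exfalso
        subst h
        exact h0 z (mem_closedBall_iff_norm.2 (hball z t0 le_rfl hcon.le)) hzt
    have hcont : ContinuousAt (fun w : V => ‖w - x‖ ^ 2) z := by fun_prop
    have hev : ∀ᶠ w in nhds z, ‖w - x‖ ^ 2 < r ^ 2 - C * (t - t0) :=
      hcont.eventually (gt_mem_nhds hcon)
    obtain ⟨ρ, hρ, hρ2⟩ := Metric.eventually_nhds_iff.1 hev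
    obtain ⟨x', t', hx', hn', htt', htt2⟩ :=
      (hS.sub z t hzU h1t' hzt).left (min ρ (t - t0)) (lt_min hρ (by linarith))
    have h5 := hρ2 (y := x') (by rw [dist_eq_norm]; exact lt_of_lt_of_le hn' (min_le_left _ _))
    have h6 : t0 < t' := by
      have := min_le_right ρ (t - t0)
      linarith
    have h7 : (x', t') ∈ A := by
      refine ⟨hx', h6.le, ?_, ?_⟩
      · show t' ≤ t2
        linarith
      · show ‖x' - x‖ ^ 2 ≤ r ^ 2 - C * (t' - t0)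
        nlinarith
    have := hzmin' x' t' h7
    linarith
  have hts : t0 < ts := by
    rcases hz1.lt_or_eq with h | h
    · exact h
    · exfalso
      subst h
      exact h0 xs (mem_closedBall_iff_norm.2 (hball xs t0 le_rfl hz3)) hzS
  have heq : ‖xs - x‖ ^ 2 = r ^ 2 - C * (ts - t0) := le_antisymm hz3 (hge xs ts hzS hz1 le_rfl)
  have hpos : 0 < ‖xs - x‖ ^ 2 := by
    rw [heq]
    have h1 : C * (ts - t0) ≤ C * s := by
      apply mul_le_mul_of_nonneg_left _ hCpos.le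
      rw [ht2] at hz2; linarith
    linarith
  have hne : xs - x ≠ 0 := by
    intro h
    rw [h] at hpos
    simp at hpos
  have hj : LowJet S xs ts C ((2 : ℝ) • (xs - x)) ((2 : ℝ) • (innerSL ℝ : V →L[ℝ] V →L[ℝ] ℝ)) := by
    intro eps heps
    refine ⟨ts - t0, by linarith, fun z t hzt _ h3 h4 => ?_⟩
    have h5 := hge z t hzt (by linarith) h4
    have h6 : z - x = (xs - x) + (z - xs) := by abel
    rw [h6, norm_add_sq_real] at h5
    have h7 : (0:ℝ) ≤ eps * (|t - ts| + ‖z - xs‖ ^ 2) := by positivity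
    rw [hole_idForm_self, real_inner_smul_left]
    nlinarith
  have hp : (2 : ℝ) • (xs - x) ≠ 0 := smul_ne_zero two_ne_zero hne
  obtain ⟨xi, hxi1, hxi2⟩ := hole_exists_perp hp
  have hxsU : xs ∈ U := hinU xs ts hz1 hz3
  have h9 := (hS.sub xs ts hxsU hts hzS).jet C _ _ hj hp xi hxi1 hxi2
  rw [hole_idForm_self, hxi1, norm_smul] at h9
  have h11 : ‖xs - x‖ ≤ r := hball xs ts hz1 hz3
  have h12 : h xs ≤ M := le_trans (le_abs_self _) (hm.bd xs)
  have h13 : h xs * (‖(2:ℝ)‖ * ‖xs - x‖) ≤ M * (2 * r) := by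
    have h2n : ‖(2:ℝ)‖ = 2 := by norm_num
    rw [h2n]
    have : h xs * (2 * ‖xs - x‖) ≤ M * (2 * ‖xs - x‖) :=
      mul_le_mul_of_nonneg_right h12 (by positivity)
    nlinarith [mul_nonneg (show (0:ℝ) ≤ M by linarith) (sub_nonneg.2 h11)]
  nlinarith

theorem hole_center {M L : ℝ} {h : V → ℝ} (hm : Med M L h) {U : Set V} {t0 : ℝ}
    {S : Set (V × ℝ)} (hS : SubIn h U t0 S) {x : V} {r : ℝ} (hr : 0 < r)
    (hb : closedBall x r ⊆ U) (h0 : ∀ y ∈ closedBall x r, (y, t0) ∉ S) {s : ℝ} (hs0 : 0 ≤ s)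
    (hs : s < hM M r) : (x, t0 + s) ∉ S := by
  apply hole hm hS hr hb h0 hs0 hs
  have := hole_C_mul hm.one_le hr hs
  rw [sub_self, norm_zero]
  nlinarith

/-- The same for short times and small balls. -/
theorem speed_small {M L : ℝ} {h : V → ℝ} (hm : Med M L h) {U : Set V} {t0 : ℝ}
    {S : Set (V × ℝ)} (hS : SubIn h U t0 S) {x : V} {r : ℝ} (hr : 0 < r)
    (hb : closedBall x r ⊆ U) {s : ℝ} (hs0 : 0 ≤ s) (hs : s < hM M r)
    (hx : (x, t0 + s) ∈ S) : ∃ y ∈ closedBall x r, (y, t0) ∈ S := by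
  by_contra hcon
  push Not at hcon
  exact hole_center hm hS hr hb hcon hs0 hs hx

/-- Finite speed: points of the later slice are within `r` of points of the earlier slice. -/
theorem speed {M L : ℝ} {h : V → ℝ} (hm : Med M L h) {U : Set V} {t0 : ℝ} {S : Set (V × ℝ)}
    (hS : SubIn h U t0 S) {x : V} {r : ℝ} (hr : 1 ≤ r) (hb : closedBall x r ⊆ U) {s : ℝ}
    (hs0 : 0 ≤ s) (hs : s ≤ (r - 1) / (2 * M + 4)) (hx : (x, t0 + s) ∈ S) :
    ∃ y ∈ closedBall x r, (y, t0) ∈ S :=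
  speed_small hm hS (by linarith) hb hs0 (lt_of_le_of_lt hs (hM_ge hm.one_le hr)) hx

end Pool.Agent.FCF
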