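import Pool.Agent.FCF.WinDefs
import Pool.Agent.FCF.Hole
import Pool.Agent.FCF.FlowBasic

/-!
# FCF / WinBd: bounds of the slopes of windows

PROOF. Lower bound. Let `eps > 0`, `del = 1/2`; `k, x0` and the window `T, Y` for `b = true` in `oc J`, `J` large. By `dens` with `j = k` there is `n ∈ Y` with `gp n ∈ oc k`, `x = gp n`, `‖x‖ ≤ 2·2^k`.
`r` with `2^k ≤ r`, `1 ≤ r`, `closedBall x r ⊆ oc J` (e.g. `r = 2^(J-2)`, `J` large). `speed` for `S = arr true T = {T ≤ t}` from `t0 = T x - s`, `s = (r-1)/(2M+4)`: there is `y ∈ closedBall x r` with `T y ≤ T x - s`. By `plan`: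
`-s ≥ T y - T x ≥ -‖P‖ r - eps r`. So `‖P‖ ≥ (r-1)/(r M1) - eps`; `J → ∞`, `eps → 0`.
Upper bound. `FineLarge p c`: with `η` small: for `R` large, `x' = x0 + x`, `‖x'‖ ≤ R`, `η R ≤ r ≤ R`: `fine1 c x' r`, hence `fine' (c (x0 + .)) x r` (translation: `E_shift`, see `fine_shift` in EnvEvent for the same computation). Take
`r = 2^J/(4 Cs)`, `R = ‖x0‖ + 2^(J+1)`, `η = 1/(16 Cs)`: for `J` large `η R ≤ r ≤ R` and `closedBall x (Cs r) ⊆ oc J`. `cl` with `y = x`, `z = x + (8 r/‖P‖) • P`: `T z - T x ≤ C3 r` and `plan`: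
`T z - T x ≥ 8 r ‖P‖ - 8 r eps`. So `‖P‖ ≤ C3/8 + eps`.
-/

set_option autoImplicit false

namespace Pool.Agent.FCF

open Pool.Agent.VSC (V J LowJet)
open Set Metric Filter Topology

private theorem winBd_coord (v : V) (i : Fin 2) : |v i| ≤ ‖v‖ := by
  have := PiLp.norm_apply_le v i
  rwa [Real.norm_eq_abs] at this

private theorem winBd_norm_le (v : V) {a : ℝ} (h : ∀ i, |v i| ≤ a) : ‖v‖ ≤ 2 * a := by
  have ha : 0 ≤ a := (abs_nonneg _).trans (h 0)
  have h0 := h 0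
  have h1 := h 1
  have hsq : ‖v‖ ^ 2 = v 0 ^ 2 + v 1 ^ 2 := by
    rw [EuclideanSpace.norm_sq_eq, Fin.sum_univ_two]
    simp [sq_abs]
  have h2 : v 0 ^ 2 ≤ a ^ 2 := sq_le_sq' (by linarith [neg_abs_le (v 0)]) ((le_abs_self _).trans h0)
  have h3 : v 1 ^ 2 ≤ a ^ 2 := sq_le_sq' (by linarith [neg_abs_le (v 1)]) ((le_abs_self _).trans h1)
  nlinarith [norm_nonneg v]

private theorem winBd_med {M L : ℝ} {h : V → ℝ} (hm : Med M L h) (x0 : V) :
    Med M L (fun x => h (x0 + x)) := by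
  refine ⟨hm.one_le, hm.one_le', fun x => hm.bd _, fun x y => ?_⟩
  have := hm.lip (x0 + x) (x0 + y)
  rwa [add_sub_add_left_eq_sub] at this

/-- A good grid point near the origin. -/
private theorem winBd_pt {p : Par} {b : Bool} {h : V → ℝ} {fi : V → ℝ → Prop} {P : V} {eps : ℝ}
    {k j : ℕ} (hkj : k ≤ j) {T : V → ℝ} {Y : Set (ℤ × ℤ)}
    (hW : Win p b h fi P eps (1 / 2) k j T Y) : ∃ n ∈ Y, ∀ i, |gp n i| < 2 ^ k := by
  classical
  by_contra hcon
  push Not at hcon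
  have hbox : ∀ n ∈ box k, ∀ i, |gp n i| < 2 ^ k := by
    intro n hn i
    unfold box at hn
    rw [Finset.mem_product, Finset.mem_Ioo, Finset.mem_Ioo] at hn
    obtain ⟨⟨h1, h2⟩, h3, h4⟩ := hn
    have e1 : -(2 ^ k : ℝ) < n.1 := by exact_mod_cast h1
    have e2 : (n.1 : ℝ) < 2 ^ k := by exact_mod_cast h2
    have e3 : -(2 ^ k : ℝ) < n.2 := by exact_mod_cast h3
    have e4 : (n.2 : ℝ) < 2 ^ k := by exact_mod_cast h4
    fin_cases i
    · exact abs_lt.2 ⟨e1, e2⟩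
    · exact abs_lt.2 ⟨e3, e4⟩
  have hY : ∀ n ∈ box k, n ∉ Y := by
    intro n hn hnY
    obtain ⟨i, hi⟩ := hcon n hnY
    exact absurd (hbox n hn i) (not_lt.2 hi)
  have hd := hW.dens k le_rfl hkj
  have h1 : (box k).filter (fun n => n ∉ Y) = box k := Finset.filter_true_of_mem hY
  have h2 : (0 : ℤ × ℤ) ∈ box k := by
    unfold box
    rw [Finset.mem_product, Finset.mem_Ioo, Finset.mem_Ioo]
    have : (0 : ℤ) < 2 ^ k := by positivity
    simp [this]
  have h3 : 0 < (box k).card := Finset.card_pos.2 ⟨_, h2⟩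
  have h4 : (0 : ℝ) < (box k).card := by exact_mod_cast h3
  have h5 : (((box k).filter (fun n => n ∉ Y)).card : ℝ) = (box k).card := by
    rw [h1]
  have h6 : (((box k).filter (fun n => n ∉ Y)).card : ℝ) ≤ 1 / 2 * (box k).card := by
    convert hd
  linarith

private theorem winBd_lower {p : Par} {c : V → ℝ} (hc : p.Env c) {P : V}
    (hw : ∀ eps : ℝ, 0 < eps → ∀ del : ℝ, 0 < del → ∃ k1 : ℕ, ∀ k : ℕ, k1 ≤ k →
      ∃ x0 : V, ∀ J : ℕ, k ≤ J → WinP p (fun x => c (x0 + x)) P eps del k J) :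
    1 / p.M1 ≤ ‖P‖ := by
  by_contra hcon
  push Not at hcon
  have hM := p.hM
  have hM1 : 0 < p.M1 := by unfold Par.M1; linarith
  set eps : ℝ := (1 / p.M1 - ‖P‖) / 2 with heps
  have heps0 : 0 < eps := by rw [heps]; linarith
  obtain ⟨k1, hk1⟩ := hw eps heps0 (1 / 2) (by norm_num)
  obtain ⟨x0, hx0⟩ := hk1 k1 le_rfl
  -- choose the size
  obtain ⟨N, hN⟩ := exists_nat_gt (1 / (eps * p.M1))
  set j : ℕ := max N k1 + 1 with hj
  have hNj : (N : ℝ) < 2 ^ (j - 1) := by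
    have h1 : N < 2 ^ N := Nat.lt_two_pow_self
    have h2 : (2 : ℝ) ^ N ≤ 2 ^ (j - 1) := pow_le_pow_right₀ (by norm_num) (by omega)
    have h3 : (N : ℝ) < 2 ^ N := by exact_mod_cast h1
    linarith
  have hkj : k1 ≤ j := by omega
  obtain ⟨T, Y, hW⟩ := hx0 j hkj true
  obtain ⟨n, hnY, hnc⟩ := winBd_pt hkj hW
  set x : V := gp n with hx
  set r : ℝ := 2 ^ (j - 1) with hr
  have h2j : (2 : ℝ) ^ j = 2 * r := by
    rw [hr, ← pow_succ']
    congr 1
  have hkr : (2 : ℝ) ^ k1 ≤ r := pow_le_pow_right₀ (by norm_num) (by omega)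
  have hr1 : 1 ≤ r := one_le_pow₀ (by norm_num)
  have hball : closedBall x r ⊆ oc j := by
    intro z hz i
    have h1 := winBd_coord (z - x) i
    have h2 : ‖z - x‖ ≤ r := mem_closedBall_iff_norm.1 hz
    have h3 : z i = x i + (z - x) i := by simp
    rw [h3, h2j]
    have h4 := hnc i
    have := abs_add_le (x i) ((z - x) i)
    linarith
  have hxo : x ∈ oc j := hball (mem_closedBall_self (by linarith))
  have hmed : Med p.M p.L (sgn true (frc (fun x => c (x0 + x)) p.F)) := by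
    have := winBd_med hc.med x0
    exact this
  set s : ℝ := (r - 1) / (2 * p.M + 4) with hs
  have hs0 : 0 ≤ s := by
    rw [hs]
    apply div_nonneg (by linarith) (by linarith)
  obtain ⟨y, hy, hyT⟩ := speed hmed (hW.sub (T x - s)) hr1 hball hs0 le_rfl (by
    show (x, T x - s + s) ∈ arr true T
    unfold arr
    simp)
  have hyT' : T y ≤ T x - s := by
    unfold arr at hyT
    simpa using hyT
  have hplan := hW.plan n hnY hxo y (hball hy)
  have hyr : ‖y - x‖ ≤ r := mem_closedBall_iff_norm.1 hy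
  have h5 : eps * max ‖y - x‖ (2 ^ k1) ≤ eps * r :=
    mul_le_mul_of_nonneg_left (max_le hyr hkr) heps0.le
  have h6 : -(‖P‖ * r) ≤ inner ℝ P (y - x) := by
    have h7 := abs_real_inner_le_norm P (y - x)
    have h8 : ‖P‖ * ‖y - x‖ ≤ ‖P‖ * r := mul_le_mul_of_nonneg_left hyr (norm_nonneg _)
    linarith [neg_abs_le (inner ℝ P (y - x))]
  have h9 := (abs_le.1 hplan).1
  have h10 : s ≤ (‖P‖ + eps) * r := by linarith
  have hM1' : 2 * p.M + 4 = p.M1 := rfl
  rw [hs, hM1', div_le_iff₀ hM1] at h10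
  have h11 : 1 / (eps * p.M1) < r := hN.trans hNj
  rw [div_lt_iff₀ (by positivity)] at h11
  have h12 : ‖P‖ = 1 / p.M1 - 2 * eps := by rw [heps]; ring
  rw [h12] at h10
  have h13 : (1 / p.M1 - 2 * eps + eps) * r * p.M1 = r - eps * r * p.M1 := by
    field_simp
    ring
  rw [h13] at h10
  nlinarith

private theorem winBd_fine {p : Par} {c : V → ℝ} {x0 x : V} {r : ℝ} (hr : 0 ≤ r)
    (h : p.fine1 c (x0 + x) r) : p.fine' (fun x => c (x0 + x)) x r := by
  unfold Par.fine' Fine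
  unfold Par.fine1 Fine at h
  intro z hz w hw
  have h1 := h (x0 + z) (by
    rw [add_sub_add_left_eq_sub]
    linarith) (show x0 + w ∈ closedBall (x0 + z) (10 * r) by
      rw [mem_closedBall_iff_norm] at hw ⊢
      rwa [add_sub_add_left_eq_sub])
  have h2 := (E_shift (h := frc c p.F') (A := closedBall (x0 + z) r) x0 (p.sig * r) w).2 h1
  have h3 : {x | x0 + x ∈ closedBall (x0 + z) r} = closedBall z r := by
    ext v
    simp only [mem_closedBall_iff_norm, mem_ofPred_eq, add_sub_add_left_eq_sub]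
  rw [h3] at h2
  exact h2

private theorem winBd_upper {p : Par} {c : V → ℝ} (hl : FineLarge p c) {P : V}
    (hw : ∀ eps : ℝ, 0 < eps → ∀ del : ℝ, 0 < del → ∃ k1 : ℕ, ∀ k : ℕ, k1 ≤ k →
      ∃ x0 : V, ∀ J : ℕ, k ≤ J → WinP p (fun x => c (x0 + x)) P eps del k J) :
    ‖P‖ ≤ p.C3 / 8 := by
  by_contra hcon
  push Not at hcon
  have hM := p.hM
  have hsig := p.hsig
  have hC1 : 10 ≤ p.C1 := by
    unfold Par.C1 Par.M1
    nlinarith
  have hCs : 200 ≤ p.Cs := by unfold Par.Cs; linarith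
  have hC3 : 0 < p.C3 := by
    unfold Par.C3
    positivity
  have hPpos : 0 < ‖P‖ := by linarith
  set eps : ℝ := (‖P‖ - p.C3 / 8) / 2 with heps
  have heps0 : 0 < eps := by rw [heps]; linarith
  obtain ⟨k1, hk1⟩ := hw eps heps0 (1 / 2) (by norm_num)
  obtain ⟨x0, hx0⟩ := hk1 k1 le_rfl
  obtain ⟨R0, hR0⟩ := hl (1 / (16 * p.Cs)) (by positivity)
  obtain ⟨N, hN⟩ := exists_nat_gt (max (max R0 ‖x0‖) (4 * p.Cs * 2 ^ k1))
  set j : ℕ := N + k1 + 1 with hj
  have hNj : (N : ℝ) < 2 ^ j := by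
    have h1 : N < 2 ^ N := Nat.lt_two_pow_self
    have h2 : (2 : ℝ) ^ N ≤ 2 ^ j := pow_le_pow_right₀ (by norm_num) (by omega)
    have h3 : (N : ℝ) < 2 ^ N := by exact_mod_cast h1
    linarith
  have hN1 : R0 < 2 ^ j := by
    have := (le_max_left _ _).trans (le_max_left (max R0 ‖x0‖) (4 * p.Cs * 2 ^ k1))
    linarith
  have hN2 : ‖x0‖ < 2 ^ j := by
    have := (le_max_right _ _).trans (le_max_left (max R0 ‖x0‖) (4 * p.Cs * 2 ^ k1))
    linarith
  have hN3 : 4 * p.Cs * 2 ^ k1 < 2 ^ j := by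
    have := le_max_right (max R0 ‖x0‖) (4 * p.Cs * 2 ^ k1)
    linarith
  have hkj : k1 ≤ j := by omega
  obtain ⟨T, Y, hW⟩ := hx0 j hkj true
  obtain ⟨n, hnY, hnc⟩ := winBd_pt hkj hW
  set x : V := gp n with hx
  set D : ℝ := 2 ^ j with hD
  have hk1pos : (1 : ℝ) ≤ 2 ^ k1 := one_le_pow₀ (by norm_num)
  have hkD : (2 : ℝ) ^ k1 ≤ D / 2 := by
    nlinarith
  set r : ℝ := D / (4 * p.Cs) with hr
  have hD0 : 0 < D := by positivity
  have hr4 : r * (4 * p.Cs) = D := by rw [hr]; field_simp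
  have hrk : (2 : ℝ) ^ k1 ≤ r := by
    rw [hr, le_div_iff₀ (by positivity)]
    linarith
  have hr1 : 1 ≤ r := le_trans hk1pos hrk
  have hCr : p.Cs * r = D / 4 := by linarith
  have h8r : 8 * r ≤ D / 4 := by nlinarith
  have hball : ∀ z : V, ‖z - x‖ ≤ D / 4 → z ∈ oc j := by
    intro z hz i
    have h1 := winBd_coord (z - x) i
    have h3 : z i = x i + (z - x) i := by simp
    rw [h3]
    have h4 := hnc i
    have := abs_add_le (x i) ((z - x) i)
    have h5 : |x i + (z - x) i| < D := by linarith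
    exact h5
  have hxo : x ∈ oc j := hball x (by simp; positivity)
  have hxn : ‖x‖ ≤ D := by
    have := winBd_norm_le x (a := 2 ^ k1) (fun i => (hnc i).le)
    linarith
  have hfine : p.fine' (fun x => c (x0 + x)) x r := by
    refine winBd_fine (by linarith) (hR0 (‖x0‖ + 2 * D) (by linarith [norm_nonneg x0]) _ ?_ r ?_ ?_)
    · exact (norm_add_le _ _).trans (by linarith)
    · rw [div_mul_eq_mul_div, one_mul, div_le_iff₀ (by positivity)]
      nlinarith
    · have := norm_nonneg x0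
      nlinarith
  set z : V := x + (8 * r / ‖P‖) • P with hz
  have hzx : z - x = (8 * r / ‖P‖) • P := by rw [hz]; abel
  have hznorm : ‖z - x‖ = 8 * r := by
    rw [hzx, norm_smul, Real.norm_eq_abs, abs_of_nonneg (by positivity)]
    field_simp
  have hcl := hW.cl x r hr1 (fun w hw => hball w (by
    rw [← hCr]
    exact mem_closedBall_iff_norm.1 hw)) hfine x z (by simp; positivity) (by rw [hznorm]; linarith)
  have hplan := hW.plan n hnY hxo z (hball z (by rw [hznorm]; exact h8r))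
  have hmax : max ‖z - gp n‖ (2 ^ k1) = 8 * r := by
    rw [show z - gp n = z - x from rfl, hznorm]
    exact max_eq_left (by linarith)
  rw [hmax] at hplan
  have hin : inner ℝ P (z - gp n) = 8 * r * ‖P‖ := by
    rw [show z - gp n = z - x from rfl, hzx, real_inner_smul_right, real_inner_self_eq_norm_sq]
    field_simp
  rw [hin] at hplan
  have h1 := (abs_le.1 hplan).1
  have h2 := (abs_le.1 hcl).1
  have h3 : 8 * r * ‖P‖ ≤ p.C3 * r + eps * (8 * r) := by linarith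
  have h4 : ‖P‖ = p.C3 / 8 + 2 * eps := by rw [heps]; ring
  rw [h4] at h3
  have h5 : 0 < eps * r := by positivity
  nlinarith

theorem slope_bounds {p : Par} {c : V → ℝ} (hc : p.Env c) (hl : FineLarge p c) {P : V}
    (hw : ∀ eps : ℝ, 0 < eps → ∀ del : ℝ, 0 < del → ∃ k1 : ℕ, ∀ k : ℕ, k1 ≤ k →
      ∃ x0 : V, ∀ J : ℕ, k ≤ J → WinP p (fun x => c (x0 + x)) P eps del k J) :
    1 / p.M1 ≤ ‖P‖ ∧ ‖P‖ ≤ p.C3 / 8 :=
  ⟨winBd_lower hc hw, winBd_upper hl hw⟩

end Pool.Agent.FCF
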