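import Pool.Agent.FCF.WinLat

/-!
# FCF / WinHalf: the window slopes are not contained in a half plane (section 6.6)

Given: `v` unit, `Canon` in the direction `e = v`, `W2 P0 v TE`, `gd_density`. CLAIM: some `P ∈ P0` has `P.v > 0`.
Otherwise a chain of lattice points `x_i` near `x_0 + i s v` along which almost all steps are planar with slopes `Q.v ≤ eps` and
end points in `Gd`; the Lipschitz regularisation of `TE` grows by less than `R / (2 M1)` along the chain of length `R`.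
-/

set_option autoImplicit false

namespace Pool.Agent.FCF

open Pool.Agent.VSC (V J LowJet)
open Set Metric MeasureTheory Filter Topology EnvT

/-! ### Lattice points -/

theorem gp_zero_apply (n : ℤ × ℤ) : gp n 0 = (n.1 : ℝ) := rfl
theorem gp_one_apply (n : ℤ × ℤ) : gp n 1 = (n.2 : ℝ) := rfl

theorem gp_add (m n : ℤ × ℤ) : gp (m + n) = gp m + gp n := by
  ext i
  fin_cases i
  · show (((m + n).1 : ℤ) : ℝ) = (m.1 : ℝ) + (n.1 : ℝ)
    push_cast [Prod.fst_add]; rfl
  · show (((m + n).2 : ℤ) : ℝ) = (m.2 : ℝ) + (n.2 : ℝ)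
    push_cast [Prod.snd_add]; rfl

theorem gp_sub (m n : ℤ × ℤ) : gp (m - n) = gp m - gp n := by
  have := gp_add (m - n) n
  rw [sub_add_cancel] at this
  rw [this, add_sub_cancel_right]

/-- Rounding to the lattice. -/
noncomputable def rd (w : V) : ℤ × ℤ := (round (w 0), round (w 1))

theorem norm_le_of_coord {w : V} {a : ℝ} (h : ∀ i, |w i| ≤ a) : ‖w‖ ≤ 2 * a := by
  have ha : 0 ≤ a := (abs_nonneg _).trans (h 0)
  rw [EuclideanSpace.norm_eq, Fin.sum_univ_two]
  have h0 : ‖w 0‖ ^ 2 ≤ a ^ 2 := pow_le_pow_left₀ (norm_nonneg _) (h 0) 2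
  have h1 : ‖w 1‖ ^ 2 ≤ a ^ 2 := pow_le_pow_left₀ (norm_nonneg _) (h 1) 2
  calc Real.sqrt (‖w 0‖ ^ 2 + ‖w 1‖ ^ 2) ≤ Real.sqrt ((2 * a) ^ 2) :=
        Real.sqrt_le_sqrt (by nlinarith)
    _ = 2 * a := Real.sqrt_sq (by linarith)

theorem coord_le_norm (w : V) (i : Fin 2) : |w i| ≤ ‖w‖ := by
  have := PiLp.norm_apply_le w i
  rwa [Real.norm_eq_abs] at this

theorem gp_rd (w : V) : ‖gp (rd w) - w‖ ≤ 1 := by
  have h : ‖gp (rd w) - w‖ ≤ 2 * (1 / 2) := by
    refine norm_le_of_coord fun i => ?_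
    fin_cases i
    · show |((round (w 0) : ℤ) : ℝ) - w 0| ≤ 1 / 2
      rw [abs_sub_comm]; exact abs_sub_round _
    · show |((round (w 1) : ℤ) : ℝ) - w 1| ≤ 1 / 2
      rw [abs_sub_comm]; exact abs_sub_round _
  linarith

theorem rd_zero : rd 0 = 0 := by
  show (round (0:ℝ), round (0:ℝ)) = 0
  rw [round_zero]; rfl

/-- Rounding to the lattice: for every vector there is a lattice vector within distance `1`. -/
theorem exists_round (w : V) : ∃ n : ℤ × ℤ, ‖gp n - w‖ ≤ 1 := ⟨rd w, gp_rd w⟩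

/-! ### Counting -/

open Classical in
/-- Some chain meets the bad set rarely and does not start in it. -/
theorem exists_few {α β : Type*} {X : Finset α} {N : ℕ} {f : ℕ → α → β}
    (hf : ∀ i, Function.Injective (f i)) {Bs : Finset β} {w : ℝ} (hw : w ≤ N + 1)
    (hc : 2 * ((N : ℝ) + 1) * Bs.card < X.card * w) :
    ∃ x ∈ X, f 0 x ∉ Bs ∧ (((Finset.range (N + 1)).filter (fun i => f i x ∈ Bs)).card : ℝ) < w := by
  by_contra hcon
  push Not at hcon
  have h1 : ∀ x ∈ X, w ≤ (((Finset.range (N + 1)).filter (fun i => f i x ∈ Bs)).card : ℝ)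
      + (N + 1) * (if f 0 x ∈ Bs then 1 else 0) := by
    intro x hx
    by_cases h0 : f 0 x ∈ Bs
    · rw [if_pos h0]
      have : (0:ℝ) ≤ (((Finset.range (N + 1)).filter (fun i => f i x ∈ Bs)).card : ℝ) :=
        Nat.cast_nonneg _
      linarith
    · rw [if_neg h0]
      have := hcon x hx h0
      linarith
  have h2 : X.card * w ≤ ∑ x ∈ X, ((((Finset.range (N + 1)).filter
      (fun i => f i x ∈ Bs)).card : ℝ) + (N + 1) * (if f 0 x ∈ Bs then 1 else 0)) := by
    rw [← nsmul_eq_mul]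
    exact Finset.card_nsmul_le_sum _ _ _ h1
  have h3 : ∀ i, (∑ x ∈ X, (if f i x ∈ Bs then (1:ℝ) else 0)) ≤ Bs.card := by
    intro i
    rw [Finset.sum_ite, Finset.sum_const_zero, add_zero, Finset.sum_const, nsmul_eq_mul, mul_one]
    have : (X.filter (fun x => f i x ∈ Bs)).card ≤ Bs.card := by
      refine Finset.card_le_card_of_injOn (f i) ?_ (fun a _ b _ h => hf i h)
      intro x hx
      exact (Finset.mem_filter.1 hx).2
    exact_mod_cast this
  have h4 : ∑ x ∈ X, (((Finset.range (N + 1)).filter (fun i => f i x ∈ Bs)).card : ℝ)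
      ≤ (N + 1) * Bs.card := by
    have e1 : ∀ x, (((Finset.range (N + 1)).filter (fun i => f i x ∈ Bs)).card : ℝ)
        = ∑ i ∈ Finset.range (N + 1), (if f i x ∈ Bs then (1:ℝ) else 0) := by
      intro x
      rw [Finset.sum_ite, Finset.sum_const_zero, add_zero, Finset.sum_const, nsmul_eq_mul, mul_one]
    simp_rw [e1]
    rw [Finset.sum_comm]
    calc ∑ i ∈ Finset.range (N + 1), ∑ x ∈ X, (if f i x ∈ Bs then (1:ℝ) else 0)
        ≤ ∑ _i ∈ Finset.range (N + 1), (Bs.card : ℝ) := Finset.sum_le_sum fun i _ => h3 i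
      _ = (N + 1) * Bs.card := by
        rw [Finset.sum_const, Finset.card_range, nsmul_eq_mul]; push_cast; ring
  have h5 : ∑ x ∈ X, ((N:ℝ) + 1) * (if f 0 x ∈ Bs then (1:ℝ) else 0) ≤ (N + 1) * Bs.card := by
    rw [← Finset.mul_sum]
    exact mul_le_mul_of_nonneg_left (h3 0) (by positivity)
  rw [Finset.sum_add_distrib] at h2
  linarith

open Classical in
/-- Growth along a chain. -/
theorem chain_le {a : ℕ → ℝ} {A D : ℝ} (hA : 0 ≤ A) (hD : 0 ≤ D) {N : ℕ} {bad : ℕ → Prop}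
    (h1 : ∀ i, i < N → ¬ bad i → a (i + 1) - a i ≤ A) (h2 : ∀ i, i < N → a (i + 1) - a i ≤ D) :
    a N - a 0 ≤ N * A + ((Finset.range N).filter bad).card * D := by
  have h3 : a N - a 0 = ∑ i ∈ Finset.range N, (a (i + 1) - a i) := by
    rw [Finset.sum_range_sub]
  rw [h3]
  calc ∑ i ∈ Finset.range N, (a (i + 1) - a i)
      ≤ ∑ i ∈ Finset.range N, (A + (if bad i then D else 0)) := by
        refine Finset.sum_le_sum fun i hi => ?_
        rw [Finset.mem_range] at hi
        by_cases hb : bad i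
        · rw [if_pos hb]; linarith [h2 i hi]
        · rw [if_neg hb]; linarith [h1 i hi hb]
    _ = N * A + ((Finset.range N).filter bad).card * D := by
        rw [Finset.sum_add_distrib, Finset.sum_const, Finset.card_range, nsmul_eq_mul,
          Finset.sum_ite, Finset.sum_const_zero, add_zero, Finset.sum_const, nsmul_eq_mul]

/-! ### The half plane statement -/

theorem card_square {m0 : ℤ × ℤ} {n0 : ℕ} :
    ((Finset.Ico m0.1 (m0.1 + n0) ×ˢ Finset.Ico m0.2 (m0.2 + n0)).card : ℝ) = (n0 : ℝ) ^ 2 := by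
  rw [Finset.card_product, Int.card_Ico, Int.card_Ico]
  simp
  ring

theorem half_plane {p : Par} {P0 : Set V} {cp : ℝ} (hcp : ∀ P ∈ P0, ‖P‖ ≤ cp) {c : V → ℝ}
    (henv : p.Env c) (hb : BadRect p c) {v : V} (hv : ‖v‖ = 1) {A0 B0 : Set V} {TE TO : V → ℝ}
    {C g : ℝ} (hcan : Canon p c v A0 B0 TE TO C g) (hw : W2 P0 v TE) :
    ∃ P ∈ P0, 0 < inner ℝ P v := by
  classical
  by_contra hcon
  push Not at hcon
  have hM1 : 1 ≤ p.M1 := by have := p.hM; unfold Par.M1; linarith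
  have hC3 := p.one_le_C3
  set M1 := p.M1 with hM1def
  set C3 := p.C3 with hC3def
  have hC1 := hcan.one_le
  have hg := hcan.g_pos
  set cq := max cp 0 with hcq
  have hcq0 : 0 ≤ cq := le_max_right _ _
  obtain ⟨eps, heps, heps1, hepsM⟩ : ∃ eps : ℝ, 0 < eps ∧ eps ≤ 1 ∧ 96 * M1 * eps = 1 :=
    ⟨1 / (96 * M1), by positivity, by rw [div_le_one (by positivity)]; linarith,
      by field_simp⟩
  obtain ⟨η, hη, hη1, hηg⟩ : ∃ η : ℝ, 0 < η ∧ η ≤ 1 / 8 ∧ η * (24 * M1) ≤ g :=
    ⟨min (1 / 8) (g / (24 * M1)), lt_min (by norm_num) (by positivity), min_le_left _ _, by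
      rw [← le_div_iff₀ (by positivity)]; exact min_le_right _ _⟩
  obtain ⟨del, hdel, hdelE⟩ : ∃ del : ℝ, 0 < del ∧ 200000 * C3 * M1 * del = η ^ 2 :=
    ⟨η ^ 2 / (200000 * C3 * M1), by positivity, by field_simp⟩
  obtain ⟨r0, hr0, hdens⟩ := gd_density hb henv (del := del / 16) (by positivity)
  set r1 := max r0 C with hr1
  have hr11 : 1 ≤ r1 := le_trans hr0 (le_max_left _ _)
  have hr1C : C ≤ r1 := le_max_right _ _
  obtain ⟨R0, hR0⟩ := hdens r1 (le_max_left _ _)
  obtain ⟨φ, hφ, hW⟩ := hw (fun n => (n : ℝ)) tendsto_natCast_atTop_atTop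
  obtain ⟨k2, hk2⟩ := hW eps heps del hdel η hη 4 (by norm_num)
  obtain ⟨k, hkk2, hk3, hkbig⟩ : ∃ k : ℕ, k2 ≤ k ∧ 3 ≤ k ∧
      2 * (cq + eps) + C3 * r1 ≤ eps * 2 ^ k := by
    obtain ⟨k', hk'⟩ := pow_unbounded_of_one_lt ((2 * (cq + eps) + C3 * r1) / eps)
      (one_lt_two (α := ℝ))
    refine ⟨max (max k2 3) k', le_trans (le_max_left _ _) (le_max_left _ _),
      le_trans (le_max_right _ _) (le_max_left _ _), ?_⟩
    rw [div_lt_iff₀ heps] at hk'
    have h9 : (2:ℝ) ^ k' ≤ 2 ^ (max (max k2 3) k') := pow_le_pow_right₀ one_le_two (le_max_right _ _)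
    have h8 := mul_le_mul_of_nonneg_left h9 heps.le
    linarith
  obtain ⟨n0, hn0⟩ := hk2 k hkk2
  -- the scale
  obtain ⟨n, hnn0, hnR⟩ : ∃ n : ℕ, n0 ≤ n ∧
      max (max R0 (16 / η)) (max (2 ^ k) (3 * M1 * C + 4)) ≤ (n : ℝ) := by
    obtain ⟨n', hn'⟩ := exists_nat_ge (max (max R0 (16 / η)) (max (2 ^ k) (3 * M1 * C + 4)))
    refine ⟨max n0 n', le_max_left _ _, hn'.trans ?_⟩
    exact_mod_cast le_max_right n0 n'
  set R : ℝ := ((φ n : ℕ) : ℝ) with hR
  have hRn : (n : ℝ) ≤ R := by rw [hR]; exact_mod_cast hφ.le_apply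
  have hR1 : R0 ≤ R := ((le_max_left _ _).trans (le_max_left _ _)).trans (hnR.trans hRn)
  have hR2 : 16 / η ≤ R := ((le_max_right _ _).trans (le_max_left _ _)).trans (hnR.trans hRn)
  have hR3 : (2:ℝ) ^ k ≤ R := ((le_max_left _ _).trans (le_max_right _ _)).trans (hnR.trans hRn)
  have hR4 : 3 * M1 * C + 4 ≤ R := ((le_max_right _ _).trans (le_max_right _ _)).trans (hnR.trans hRn)
  have hηR : 16 ≤ η * R := by rw [div_le_iff₀ hη] at hR2; linarith
  have hRpos : 0 < R := lt_of_lt_of_le (by positivity) hR3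
  set s : ℝ := 2 ^ k - 2 with hs
  have h2k : (8:ℝ) ≤ 2 ^ k := by
    calc (8:ℝ) = 2 ^ 3 := by norm_num
      _ ≤ 2 ^ k := pow_le_pow_right₀ one_le_two hk3
  have hs1 : 2 ^ k ≤ 2 * s := by rw [hs]; linarith
  have hs0 : 6 ≤ s := by rw [hs]; linarith
  set N : ℕ := ⌈R / s⌉₊ with hN
  have hN1 : R ≤ N * s := by
    have := Nat.le_ceil (R / s)
    rwa [div_le_iff₀ (by linarith)] at this
  have hN2 : N * s ≤ R + s := by
    have := Nat.ceil_lt_add_one (show 0 ≤ R / s by positivity)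
    have h2 : (N : ℝ) < R / s + 1 := this
    have h3 : (R / s + 1) * s = R + s := by field_simp
    have h4 : (N:ℝ) * s ≤ (R / s + 1) * s := mul_le_mul_of_nonneg_right h2.le (by linarith)
    linarith
  have hsR : s ≤ R := by rw [hs]; linarith
  have hN3 : (N : ℝ) * 2 ^ k ≤ 4 * R := by
    have : (N : ℝ) * 2 ^ k ≤ N * (2 * s) := mul_le_mul_of_nonneg_left hs1 (Nat.cast_nonneg _)
    linarith
  -- the chains
  set f : ℕ → (ℤ × ℤ) → (ℤ × ℤ) := fun i x => x + rd ((i * s) • v) with hf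
  have hfinj : ∀ i, Function.Injective (f i) := fun i a b h => add_right_cancel h
  have hf0 : ∀ x, f 0 x = x := by
    intro x
    show x + rd (((0:ℕ) * s) • v) = x
    rw [Nat.cast_zero, zero_mul, zero_smul, rd_zero, add_zero]
  -- planar points
  set planar : (ℤ × ℤ) → Prop := fun m => ∃ Q : V, (∃ P ∈ P0, ‖Q - P‖ < eps) ∧
    ∀ z : V, ‖z - gp m‖ ≤ 2 ^ k → |TE z - TE (gp m) - inner ℝ Q (z - gp m)| ≤ eps * 2 ^ k with hpl
  set big : Finset (ℤ × ℤ) := (Finset.Icc (-⌈4 * R⌉) ⌈4 * R⌉) ×ˢ (Finset.Icc (-⌈4 * R⌉) ⌈4 * R⌉)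
    with hbig
  have hbigmem : ∀ m : ℤ × ℤ, (∀ i, |gp m i| ≤ 4 * R) → m ∈ big := by
    intro m hm
    have h0 := hm 0
    have h1 := hm 1
    rw [gp_zero_apply, abs_le] at h0
    rw [gp_one_apply, abs_le] at h1
    have hc : 4 * R ≤ (⌈4 * R⌉ : ℝ) := Int.le_ceil _
    rw [hbig, Finset.mem_product, Finset.mem_Icc, Finset.mem_Icc]
    refine ⟨⟨?_, ?_⟩, ?_, ?_⟩
    · have : (-(⌈4 * R⌉ : ℝ)) ≤ (m.1 : ℝ) := by linarith
      exact_mod_cast this
    · have : (m.1 : ℝ) ≤ (⌈4 * R⌉ : ℝ) := by linarith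
      exact_mod_cast this
    · have : (-(⌈4 * R⌉ : ℝ)) ≤ (m.2 : ℝ) := by linarith
      exact_mod_cast this
    · have : (m.2 : ℝ) ≤ (⌈4 * R⌉ : ℝ) := by linarith
      exact_mod_cast this
  set Z1 := big.filter (fun m => (∀ i, |gp m i| ≤ 4 * R) ∧ η * R ≤ inner ℝ (gp m) v ∧ ¬ planar m)
    with hZ1
  set Z2 := big.filter (fun m => (∀ i, |gp m i| ≤ 4 * R) ∧ gp m ∉ Gd p c r1) with hZ2
  set Bs := Z1 ∪ Z2 with hBs
  have hZ1c : (Z1.card : ℝ) ≤ del * R ^ 2 :=
    hn0 n hnn0 Z1 (fun m hm => (Finset.mem_filter.1 hm).2)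
  have hZ2c : (Z2.card : ℝ) ≤ del * R ^ 2 := by
    have := hR0 (4 * R) (by linarith) Z2 (fun m hm => (Finset.mem_filter.1 hm).2)
    linarith
  have hBsc : (Bs.card : ℝ) ≤ 2 * del * R ^ 2 := by
    have : (Bs.card : ℝ) ≤ Z1.card + Z2.card := by exact_mod_cast Finset.card_union_le Z1 Z2
    linarith
  -- the starting square
  set n1 : ℕ := ⌊η * R / 8⌋₊ with hn1
  have hn1a : (n1 : ℝ) ≤ η * R / 8 := Nat.floor_le (by positivity)
  have hn1b : η * R / 16 ≤ n1 := by
    have := Nat.lt_floor_add_one (η * R / 8)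
    have h2 : η * R / 8 < (n1 : ℝ) + 1 := this
    linarith
  set m0 := rd ((3 / 2 * (η * R)) • v) with hm0
  set X : Finset (ℤ × ℤ) := Finset.Ico m0.1 (m0.1 + n1) ×ˢ Finset.Ico m0.2 (m0.2 + n1) with hX
  have hXc : (X.card : ℝ) = (n1 : ℝ) ^ 2 := card_square
  have hXnear : ∀ x ∈ X, ‖gp x - (3 / 2 * (η * R)) • v‖ ≤ η * R / 2 := by
    intro x hx
    rw [hX, Finset.mem_product, Finset.mem_Ico, Finset.mem_Ico] at hx
    obtain ⟨⟨h1, h2⟩, h3, h4⟩ := hx
    have e1 : ‖gp (x - m0)‖ ≤ 2 * (η * R / 8) := by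
      refine norm_le_of_coord fun i => ?_
      fin_cases i
      · show |((x.1 - m0.1 : ℤ) : ℝ)| ≤ η * R / 8
        have a1 : (0:ℝ) ≤ ((x.1 - m0.1 : ℤ) : ℝ) := by exact_mod_cast sub_nonneg.2 h1
        have a2 : ((x.1 - m0.1 : ℤ) : ℝ) ≤ (n1 : ℝ) := by
          have : x.1 - m0.1 ≤ (n1 : ℤ) := by linarith
          exact_mod_cast this
        rw [abs_of_nonneg a1]; linarith
      · show |((x.2 - m0.2 : ℤ) : ℝ)| ≤ η * R / 8
        have a1 : (0:ℝ) ≤ ((x.2 - m0.2 : ℤ) : ℝ) := by exact_mod_cast sub_nonneg.2 h3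
        have a2 : ((x.2 - m0.2 : ℤ) : ℝ) ≤ (n1 : ℝ) := by
          have : x.2 - m0.2 ≤ (n1 : ℤ) := by linarith
          exact_mod_cast this
        rw [abs_of_nonneg a1]; linarith
    rw [gp_sub] at e1
    have e2 := gp_rd ((3 / 2 * (η * R)) • v)
    rw [← hm0] at e2
    have e3 : gp x - (3 / 2 * (η * R)) • v = (gp x - gp m0) + (gp m0 - (3 / 2 * (η * R)) • v) := by
      abel
    rw [e3]
    refine (norm_add_le _ _).trans ?_
    linarith
  have hvv : inner ℝ v v = (1:ℝ) := by rw [real_inner_self_eq_norm_sq, hv]; norm_num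
  have hinn : ∀ x y : V, |inner ℝ (x - y) v| ≤ ‖x - y‖ := by
    intro x y
    have := abs_real_inner_le_norm (x - y) v
    rwa [hv, mul_one] at this
  have hXin : ∀ x ∈ X, η * R ≤ inner ℝ (gp x) v ∧ inner ℝ (gp x) v ≤ 2 * (η * R) ∧
      ‖gp x‖ ≤ 2 * (η * R) := by
    intro x hx
    have h1 := hXnear x hx
    have h2 := hinn (gp x) ((3 / 2 * (η * R)) • v)
    rw [inner_sub_left, real_inner_smul_left, hvv, abs_le] at h2
    refine ⟨by linarith [h2.1], by linarith [h2.2], ?_⟩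
    have h3 : gp x = (gp x - (3 / 2 * (η * R)) • v) + (3 / 2 * (η * R)) • v := by abel
    rw [h3]
    refine (norm_add_le _ _).trans ?_
    rw [norm_smul, hv, mul_one, Real.norm_eq_abs, abs_of_nonneg (by positivity)]
    linarith
  -- a good chain
  set w : ℝ := 2048 * del * (N + 1) / η ^ 2 with hwdef
  have hdelη : 2048 * del ≤ η ^ 2 := by
    rw [← hdelE]
    have h9 : 1 ≤ C3 * M1 := one_le_mul_of_one_le_of_one_le hC3 hM1
    have h8 := mul_le_mul_of_nonneg_left h9 hdel.le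
    linarith
  have hN0 : (0:ℝ) ≤ N := Nat.cast_nonneg _
  obtain ⟨x, hxX, hx0, hxfew⟩ := exists_few (X := X) (N := N) hfinj (Bs := Bs) (w := w) (by
      rw [hwdef, div_le_iff₀ (by positivity)]
      have h9 := mul_le_mul_of_nonneg_right hdelη (show (0:ℝ) ≤ N + 1 by positivity)
      linarith) (by
      rw [hXc, hwdef]
      have e1 : (η * R / 16) ^ 2 ≤ (n1:ℝ) ^ 2 := pow_le_pow_left₀ (by positivity) hn1b 2
      have e2 : 2 * ((N : ℝ) + 1) * Bs.card ≤ 2 * ((N : ℝ) + 1) * (2 * del * R ^ 2) :=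
        mul_le_mul_of_nonneg_left hBsc (by positivity)
      have e3 : (η * R / 16) ^ 2 * (2048 * del * (N + 1) / η ^ 2)
          ≤ (n1:ℝ) ^ 2 * (2048 * del * (N + 1) / η ^ 2) :=
        mul_le_mul_of_nonneg_right e1 (by positivity)
      have e4 : (η * R / 16) ^ 2 * (2048 * del * (N + 1) / η ^ 2) = 8 * del * (N + 1) * R ^ 2 := by
        field_simp
        ring
      have e5 : 0 < del * (N + 1) * R ^ 2 := by positivity
      rw [e4] at e3
      linarith)
  obtain ⟨hx1, hx2, hx3⟩ := hXin x hxX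
  -- positions
  have hpos : ∀ i : ℕ, ‖gp (f i x) - gp x - (i * s) • v‖ ≤ 1 := by
    intro i
    have : gp (f i x) = gp x + gp (rd ((i * s) • v)) := gp_add _ _
    rw [this, add_sub_cancel_left]
    exact gp_rd _
  have hreg : ∀ i, i ≤ N → (∀ j, |gp (f i x) j| ≤ 4 * R) ∧ η * R ≤ inner ℝ (gp (f i x)) v := by
    intro i hi
    have hiN : (i : ℝ) * s ≤ R + s := by
      have h9 : (i : ℝ) ≤ N := by exact_mod_cast hi
      have h8 := mul_le_mul_of_nonneg_right h9 (show (0:ℝ) ≤ s by linarith)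
      linarith
    have h1 := hpos i
    constructor
    · intro j
      refine (coord_le_norm _ j).trans ?_
      have e1 : gp (f i x) = (gp (f i x) - gp x - (i * s) • v) + gp x + (i * s) • v := by abel
      rw [e1]
      refine (norm_add_le _ _).trans ?_
      have e2 := norm_add_le (gp (f i x) - gp x - (i * s) • v) (gp x)
      have e3 : ‖((i:ℝ) * s) • v‖ = i * s := by
        rw [norm_smul, hv, mul_one, Real.norm_eq_abs, abs_of_nonneg (by positivity)]
      rw [e3]
      have e4 : η * R ≤ 1 / 8 * R := mul_le_mul_of_nonneg_right hη1 hRpos.le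
      linarith
    · rcases Nat.eq_zero_or_pos i with h0 | h0
      · rw [h0, hf0]; exact hx1
      · have h2 := abs_real_inner_le_norm (gp (f i x) - gp x - ((i:ℝ) * s) • v) v
        rw [hv, mul_one, inner_sub_left, inner_sub_left, real_inner_smul_left, hvv, mul_one] at h2
        have h3 := (abs_le.1 (h2.trans h1)).1
        have h4 : (1:ℝ) ≤ i := by exact_mod_cast h0
        have h5 : 1 ≤ (i:ℝ) * s := one_le_mul_of_one_le_of_one_le h4 (by linarith)
        linarith
  have hgood : ∀ i, i ≤ N → f i x ∉ Bs → planar (f i x) ∧ gp (f i x) ∈ Gd p c r1 := by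
    intro i hi hnot
    obtain ⟨h1, h2⟩ := hreg i hi
    have h3 := hbigmem _ h1
    rw [hBs, Finset.mem_union, not_or, hZ1, hZ2, Finset.mem_filter, Finset.mem_filter] at hnot
    constructor
    · by_contra h4
      exact hnot.1 ⟨h3, h1, h2, h4⟩
    · by_contra h4
      exact hnot.2 ⟨h3, h1, h4⟩
  have hG0 : gp x ∈ Gd p c r1 := by
    have := (hgood 0 (Nat.zero_le _) hx0).2
    rwa [hf0] at this
  have hcl : ∀ x r, 1 ≤ r → p.fine c x r → C ≤ r →
      ∀ y z, ‖y - x‖ < 9 * r → ‖z - x‖ < 9 * r → |TE y - TE z| ≤ p.C3 * r :=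
    fun x r h1 h2 h3 => hcan.clE x r h1 h2 (Or.inl h3)
  obtain ⟨Tt, hTl, hTG, hTlow⟩ := exists_reg hcan.TE_nonneg hcl hr11 hr1C ⟨_, hG0⟩
  -- growth along the chain
  have hstep : ∀ i : ℕ, ∃ d : V, gp (f (i + 1) x) - gp (f i x) = s • v + d ∧ ‖d‖ ≤ 2 := by
    intro i
    refine ⟨(gp (f (i + 1) x) - gp x - (((i + 1 : ℕ) : ℝ) * s) • v)
      - (gp (f i x) - gp x - ((i:ℝ) * s) • v), ?_, ?_⟩
    · have : (((i + 1 : ℕ) : ℝ) * s) • v = s • v + ((i:ℝ) * s) • v := by
        rw [← add_smul]; congr 1; push_cast; ring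
      rw [this]; abel
    · refine (norm_sub_le _ _).trans ?_
      have := hpos i
      have := hpos (i + 1)
      linarith
  have hsteplen : ∀ i : ℕ, ‖gp (f (i + 1) x) - gp (f i x)‖ ≤ 2 ^ k := by
    intro i
    obtain ⟨d, h1, h2⟩ := hstep i
    rw [h1]
    refine (norm_add_le _ _).trans ?_
    rw [norm_smul, hv, mul_one, Real.norm_eq_abs, abs_of_nonneg (by linarith)]
    linarith
  set bad : ℕ → Prop := fun i => f i x ∈ Bs ∨ f (i + 1) x ∈ Bs with hbad
  have hch := chain_le (a := fun i => Tt (gp (f i x))) (A := 3 * eps * 2 ^ k) (D := C3 * 2 ^ k)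
    (by positivity) (by positivity) (N := N) (bad := bad) (by
      intro i hi hnb
      have hnb1 : f i x ∉ Bs := fun h => hnb (Or.inl h)
      have hnb2 : f (i + 1) x ∉ Bs := fun h => hnb (Or.inr h)
      obtain ⟨⟨Q, ⟨P, hP, hQP⟩, hQ⟩, hGi⟩ := hgood i hi.le hnb1
      obtain ⟨-, hGi'⟩ := hgood (i + 1) hi hnb2
      have h1 := (hTG _ hGi').1
      have h2 := (hTG _ hGi).2
      have h3 := (abs_le.1 (hQ _ (hsteplen i))).2
      obtain ⟨d, hd1, hd2⟩ := hstep i
      rw [hd1, inner_add_right, inner_smul_right] at h3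
      have h4 : inner ℝ Q v ≤ eps := by
        have e1 : inner ℝ Q v = inner ℝ P v + inner ℝ (Q - P) v := by rw [inner_sub_left]; ring
        have e2 := hinn Q P
        have e3 := hcon P hP
        have e4 := (abs_le.1 e2).2
        rw [e1]; linarith
      have h5 : inner ℝ Q d ≤ 2 * (cq + eps) := by
        have e1 : ‖Q‖ ≤ cq + eps := by
          have e2 : Q = P + (Q - P) := by abel
          rw [e2]
          refine (norm_add_le _ _).trans ?_
          have e3 : ‖P‖ ≤ cq := (hcp P hP).trans (le_max_left _ _)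
          linarith
        calc inner ℝ Q d ≤ ‖Q‖ * ‖d‖ := real_inner_le_norm _ _
          _ ≤ (cq + eps) * 2 := mul_le_mul e1 hd2 (norm_nonneg _) (by positivity)
          _ = 2 * (cq + eps) := by ring
      have h6 : s * inner ℝ Q v ≤ 2 ^ k * eps := by
        have e1 : s * inner ℝ Q v ≤ s * eps := mul_le_mul_of_nonneg_left h4 (by linarith)
        have e2 : s * eps ≤ 2 ^ k * eps := mul_le_mul_of_nonneg_right (by rw [hs]; linarith) heps.le
        linarith
      show Tt (gp (f (i + 1) x)) - Tt (gp (f i x)) ≤ 3 * eps * 2 ^ k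
      linarith) (by
      intro i hi
      show Tt (gp (f (i + 1) x)) - Tt (gp (f i x)) ≤ C3 * 2 ^ k
      have h1 := (le_abs_self _).trans (hTl (gp (f (i + 1) x)) (gp (f i x)))
      have h2 : C3 * ‖gp (f (i + 1) x) - gp (f i x)‖ ≤ C3 * 2 ^ k :=
        mul_le_mul_of_nonneg_left (hsteplen i) (by linarith)
      linarith)
  have hxfew' : (((Finset.range (N + 1)).filter (fun i => f i x ∈ Bs)).card : ℝ) < w := by
    convert hxfew
  have hbadc : (((Finset.range N).filter bad).card : ℝ) ≤ 2 * w := by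
    have h1 : (Finset.range N).filter bad ⊆ ((Finset.range (N + 1)).filter (fun i => f i x ∈ Bs)) ∪
        (((Finset.range (N + 1)).filter (fun i => f i x ∈ Bs)).image (fun i => i - 1)) := by
      intro i hi
      rw [Finset.mem_filter, Finset.mem_range] at hi
      rw [Finset.mem_union, Finset.mem_filter, Finset.mem_image, Finset.mem_range]
      rcases hi.2 with h | h
      · exact Or.inl ⟨by omega, h⟩
      · refine Or.inr ⟨i + 1, ?_, by simp⟩
        rw [Finset.mem_filter, Finset.mem_range]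
        exact ⟨by omega, h⟩
    have h2 := (Finset.card_le_card h1).trans (Finset.card_union_le _ _)
    have h3 : (((Finset.range (N + 1)).filter (fun i => f i x ∈ Bs)).image (fun i => i - 1)).card
        ≤ ((Finset.range (N + 1)).filter (fun i => f i x ∈ Bs)).card := Finset.card_image_le
    have h4 : (((Finset.range N).filter bad).card : ℝ) ≤
        2 * (((Finset.range (N + 1)).filter (fun i => f i x ∈ Bs)).card : ℝ) := by
      have : ((Finset.range N).filter bad).card ≤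
        2 * ((Finset.range (N + 1)).filter (fun i => f i x ∈ Bs)).card := by omega
      exact_mod_cast this
    linarith
  -- the end points
  have hend : (R - 1) / M1 - C ≤ Tt (gp (f N x)) := by
    refine hTlow _ _ fun y hy => ?_
    have h1 := hcan.TE_ge y
    have h2 := abs_real_inner_le_norm (gp (f N x) - gp x - ((N:ℝ) * s) • v) v
    rw [hv, mul_one, inner_sub_left, inner_sub_left, real_inner_smul_left, hvv, mul_one] at h2
    have h3 := (abs_le.1 (h2.trans (hpos N))).1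
    have h4 : R - 1 ≤ inner ℝ (gp (f N x)) v := by linarith
    have h5 : inner ℝ (gp (f N x)) v ≤ inner ℝ y v + ‖gp (f N x) - y‖ := by
      have := (abs_le.1 (hinn (gp (f N x)) y)).2
      rw [inner_sub_left] at this
      linarith
    have h6 : (R - 1) / M1 ≤ inner ℝ y v / M1 + ‖gp (f N x) - y‖ := by
      rw [div_le_iff₀ (by positivity), add_mul, div_mul_cancel₀ _ (by positivity)]
      linarith [mul_nonneg (norm_nonneg (gp (f N x) - y)) (sub_nonneg.2 hM1)]
    have h7 : ‖gp (f N x) - y‖ ≤ C3 * ‖gp (f N x) - y‖ := by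
      linarith [mul_nonneg (norm_nonneg (gp (f N x) - y)) (sub_nonneg.2 hC3)]
    linarith
  have hstart : Tt (gp (f 0 x)) ≤ R / (12 * M1) + C := by
    rw [hf0]
    refine (hTG _ hG0).1.trans ((hcan.TE_le _).trans ?_)
    have h1 : max (inner ℝ (gp x) v) 0 ≤ 2 * (η * R) := max_le hx2 (by positivity)
    have h2 : max (inner ℝ (gp x) v) 0 / g ≤ R / (12 * M1) := by
      rw [div_le_div_iff₀ hg (by positivity)]
      calc max (inner ℝ (gp x) v) 0 * (12 * M1) ≤ 2 * (η * R) * (12 * M1) :=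
            mul_le_mul_of_nonneg_right h1 (by positivity)
        _ = R * (η * (24 * M1)) := by ring
        _ ≤ R * g := mul_le_mul_of_nonneg_left hηg hRpos.le
    linarith
  have hch' : Tt (gp (f N x)) - Tt (gp (f 0 x)) ≤ N * (3 * eps * 2 ^ k)
      + ((Finset.range N).filter bad).card * (C3 * 2 ^ k) := by
    convert hch
  -- numerical conclusion
  have hA : (N:ℝ) * (3 * eps * 2 ^ k) ≤ R / (8 * M1) := by
    have h1 : (N:ℝ) * (3 * eps * 2 ^ k) = 3 * eps * (N * 2 ^ k) := by ring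
    rw [h1, le_div_iff₀ (by positivity)]
    have h2 : 3 * eps * (N * 2 ^ k) ≤ 3 * eps * (4 * R) :=
      mul_le_mul_of_nonneg_left hN3 (by positivity)
    have h3 : 3 * eps * (4 * R) * (8 * M1) = R * (96 * M1 * eps) := by ring
    have h4 : 3 * eps * (N * 2 ^ k) * (8 * M1) ≤ 3 * eps * (4 * R) * (8 * M1) :=
      mul_le_mul_of_nonneg_right h2 (by positivity)
    rw [h3, hepsM, mul_one] at h4
    exact h4
  have hD : (((Finset.range N).filter bad).card : ℝ) * (C3 * 2 ^ k) ≤ R / (8 * M1) := by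
    have h1 : (((Finset.range N).filter bad).card : ℝ) * (C3 * 2 ^ k) ≤ 2 * w * (C3 * 2 ^ k) :=
      mul_le_mul_of_nonneg_right hbadc (by positivity)
    refine h1.trans ?_
    have h2 : 2 * w * (C3 * 2 ^ k) = 4096 * del * C3 / η ^ 2 * ((N + 1) * 2 ^ k) := by
      rw [hwdef]; ring
    have h3 : ((N:ℝ) + 1) * 2 ^ k ≤ 5 * R := by rw [add_mul, one_mul]; linarith
    rw [h2]
    have h4 : 4096 * del * C3 / η ^ 2 * ((N + 1) * 2 ^ k) ≤ 4096 * del * C3 / η ^ 2 * (5 * R) :=
      mul_le_mul_of_nonneg_left h3 (by positivity)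
    refine h4.trans ?_
    rw [← hdelE]
    have h5 : 4096 * del * C3 / (200000 * C3 * M1 * del) * (5 * R)
        = 20480 / 200000 * (R / M1) := by field_simp; norm_num
    rw [h5]
    have h6 : R / (8 * M1) = 1 / 8 * (R / M1) := by ring
    rw [h6]
    have h7 : 0 ≤ R / M1 := by positivity
    linarith
  have hfin : (R - 1) / M1 - C ≤ R / (12 * M1) + C + R / (8 * M1) + R / (8 * M1) := by linarith
  have h12 : R / (12 * M1) = 1 / 12 * (R / M1) := by ring
  have h8 : R / (8 * M1) = 1 / 8 * (R / M1) := by ring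
  have hR1' : (R - 1) / M1 = R / M1 - 1 / M1 := by ring
  rw [h12, h8, hR1'] at hfin
  have h1M : 1 / M1 ≤ 1 := by rw [div_le_one (by positivity)]; exact hM1
  have hlast : 3 * C + 4 / M1 ≤ R / M1 := by
    rw [le_div_iff₀ (by positivity)]
    have : (3 * C + 4 / M1) * M1 = 3 * M1 * C + 4 := by field_simp
    linarith
  have h4M : 4 / M1 = 4 * (1 / M1) := by ring
  have h0M : 0 < 1 / M1 := by positivity
  rw [h4M] at hlast
  linarith

end Pool.Agent.FCF
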