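import Pool.Agent.FCF.WBA

/-!
# FCF / WinW2: the windows theorem (sections 6.1 - 6.5)
-/

set_option autoImplicit false

namespace Pool.Agent.FCF

open Pool.Agent.VSC (V J LowJet)
open Set Metric MeasureTheory Filter Topology EnvT

private theorem wbb_pos_le {α : Type*} (I : Finset α) (g : α → ℝ) (h : ∀ i ∈ I, 0 < g i) :
    ∃ a : ℝ, 0 < a ∧ ∀ i ∈ I, a ≤ g i := by
  classical
  induction I using Finset.induction_on with
  | empty => exact ⟨1, one_pos, fun i hi => absurd hi (Finset.notMem_empty i)⟩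
  | insert j I hj ih =>
    obtain ⟨a, ha, h1⟩ := ih (fun i hi => h i (Finset.mem_insert_of_mem hi))
    refine ⟨min a (g j), lt_min ha (h j (Finset.mem_insert_self _ _)), fun i hi => ?_⟩
    rcases Finset.mem_insert.1 hi with h2 | h2
    · rw [h2]
      exact min_le_right _ _
    · exact (min_le_left _ _).trans (h1 i h2)

open Classical in
private theorem wbb_w2 {M L : ℝ} {μ : Measure (EnvT M L)} {p : Par}
    (hcov : ∀ (C eps0 : ℝ), 0 < eps0 → ∃ I : Finset (V × ℚ × ℚ),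
      (∀ i ∈ I, i.1 ∈ RatV ∧ 0 < i.2.1 ∧ 0 < i.2.2 ∧ ∀ k : ℕ,
        Tendsto (fun J => (μ (Gplus M L p i.1 (i.2.1 : ℝ) (i.2.2 : ℝ) k J)).toReal) atTop (𝓝 0)) ∧
      ∀ Q : V, ‖Q‖ ≤ C → (∀ P ∈ P0set μ p, eps0 ≤ ‖Q - P‖) → ∃ i ∈ I, ‖Q - i.1‖ ≤ (i.2.1 : ℝ) / 4)
    {C0 : ℝ} {c : EnvT M L} (hg : GDens μ p C0 c) {e : V} {T : V → ℝ}
    (hstep : ∀ R : ℕ → ℝ, Tendsto R atTop atTop →
      ∃ φ : ℕ → ℕ, StrictMono φ ∧ ∀ eps : ℝ, 0 < eps → ∀ del : ℝ, 0 < del → ∀ eta : ℝ, 0 < eta →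
      ∀ Kq : ℝ, 1 ≤ Kq → ∃ k2 : ℕ, ∀ k : ℕ, k2 ≤ k → ∀ J : ℕ, k ≤ J → ∃ n0 : ℕ, ∀ n : ℕ, n0 ≤ n →
        ∀ Z : Finset (ℤ × ℤ), (∀ m ∈ Z, (∀ i, |gp m i| ≤ Kq * R (φ n)) ∧
          eta * R (φ n) ≤ inner ℝ (gp m) e ∧ ¬ ∃ P : V, ‖P‖ ≤ 2 * p.C3 ∧
            WinG p (shift (gp m) c).1 P eps del k J ∧
            (∀ z, ‖z - gp m‖ ≤ 2 ^ k → |T z - T (gp m) - inner ℝ P (z - gp m)| ≤ eps * 2 ^ k)) →
        (Z.card : ℝ) ≤ del * R (φ n) ^ 2) : W2 (P0set μ p) e T := by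
  intro R hR
  obtain ⟨φ, hφ, hmain⟩ := hstep R hR
  refine ⟨φ, hφ, fun eps heps del hdel eta heta Kq hKq => ?_⟩
  obtain ⟨I, hI1, hI2⟩ := hcov (2 * p.C3) eps heps
  obtain ⟨a1, ha1, ha1'⟩ := wbb_pos_le I (fun i => (i.2.1 : ℝ) / 4) (fun i hi => by
    have h1 : (0 : ℝ) < (i.2.1 : ℝ) := by exact_mod_cast (hI1 i hi).2.1
    positivity)
  obtain ⟨a2, ha2, ha2'⟩ := wbb_pos_le I (fun i => (i.2.2 : ℝ)) (fun i hi => by
    exact_mod_cast (hI1 i hi).2.2.1)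
  obtain ⟨eA, heA⟩ : ∃ eA : ℝ, eA = min eps a1 := ⟨_, rfl⟩
  have heA0 : 0 < eA := by rw [heA]; exact lt_min heps ha1
  have heA1 : eA ≤ eps := by rw [heA]; exact min_le_left _ _
  have heA2 : eA ≤ a1 := by rw [heA]; exact min_le_right _ _
  obtain ⟨dA, hdA⟩ : ∃ dA : ℝ, dA = min (del / 2) a2 := ⟨_, rfl⟩
  have hdA0 : 0 < dA := by rw [hdA]; exact lt_min (by linarith) ha2
  have hdA1 : dA ≤ del / 2 := by rw [hdA]; exact min_le_left _ _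
  have hdA2 : dA ≤ a2 := by rw [hdA]; exact min_le_right _ _
  obtain ⟨k2, hk2⟩ := hmain eA heA0 dA hdA0 eta heta Kq hKq
  refine ⟨k2, fun k hk => ?_⟩
  obtain ⟨S, hS⟩ : ∃ S : ℝ, S = ((I.card : ℝ) + 1) * Kq ^ 2 := ⟨_, rfl⟩
  have hS0 : 0 < S := by rw [hS]; positivity
  obtain ⟨th, hth⟩ : ∃ th : ℝ, th = del / (4 * S) := ⟨_, rfl⟩
  have hth0 : 0 < th := by rw [hth]; positivity
  have hthe : S * th = del / 4 := by rw [hth]; field_simp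
  obtain ⟨mu0, hmu0⟩ : ∃ mu0 : ℝ, mu0 = del / (4 * S * (|C0| + 1)) := ⟨_, rfl⟩
  have hmu00 : 0 < mu0 := by rw [hmu0]; positivity
  have hmu0e : S * (|C0| * mu0) ≤ del / 4 := by
    have h1 : S * ((|C0| + 1) * mu0) = del / 4 := by
      rw [hmu0]
      have : |C0| + 1 ≠ 0 := by positivity
      field_simp
    have h2 : |C0| * mu0 ≤ (|C0| + 1) * mu0 := mul_le_mul_of_nonneg_right (by linarith) hmu00.le
    have h3 := mul_le_mul_of_nonneg_left h2 hS0.le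
    linarith
  -- choice of `J`
  have hJev : ∀ᶠ J in atTop, ∀ i ∈ I,
      (μ (Gplus M L p i.1 (i.2.1 : ℝ) (i.2.2 : ℝ) k J)).toReal ≤ mu0 := by
    rw [Filter.eventually_all_finset]
    intro i hi
    exact ((hI1 i hi).2.2.2 k).eventually_le_const hmu00
  obtain ⟨J, hJ1, hJ2⟩ := (hJev.and (eventually_ge_atTop k)).exists
  obtain ⟨n1, hn1⟩ := hk2 k hk J hJ2
  have hRφ : Tendsto (fun n => R (φ n)) atTop atTop := hR.comp hφ.tendsto_atTop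
  have hRi : ∀ i ∈ I, ∀ᶠ n in atTop, ∀ Z : Finset (ℤ × ℤ), (∀ m ∈ Z,
      (∀ l, |gp m l| ≤ Kq * R (φ n)) ∧
      shift (gp m) c ∈ Gc M L p i.1 (i.2.1 : ℝ) (i.2.2 : ℝ) k J) →
      (Z.card : ℝ) ≤ (|C0| * mu0 + th) * (Kq * R (φ n)) ^ 2 := by
    intro i hi
    obtain ⟨R0, hR0⟩ := hg i.1 (hI1 i hi).1 i.2.1 i.2.2 k J th hth0
    have h1 : Tendsto (fun n => Kq * R (φ n)) atTop atTop :=
      Tendsto.const_mul_atTop (by linarith) hRφ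
    filter_upwards [h1.eventually_ge_atTop R0] with n hn Z hZ
    refine (hR0 _ hn Z hZ).trans (mul_le_mul_of_nonneg_right ?_ (sq_nonneg _))
    have h2 := hJ1 i hi
    have h3 : (0 : ℝ) ≤ (μ (Gplus M L p i.1 (i.2.1 : ℝ) (i.2.2 : ℝ) k J)).toReal :=
      ENNReal.toReal_nonneg
    have h4 : C0 * (μ (Gplus M L p i.1 (i.2.1 : ℝ) (i.2.2 : ℝ) k J)).toReal ≤ |C0| * mu0 :=
      mul_le_mul (le_abs_self _) h2 h3 (abs_nonneg _)
    linarith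
  have hRall := (Filter.eventually_all_finset I).2 hRi
  obtain ⟨n2, hn2⟩ := eventually_atTop.1 hRall
  refine ⟨max n1 n2, fun n hn Z hZ => ?_⟩
  have hn1' := hn1 n ((le_max_left _ _).trans hn)
  have hn2' := hn2 n ((le_max_right _ _).trans hn)
  obtain ⟨r, hr⟩ : ∃ r : ℝ, r = R (φ n) := ⟨_, rfl⟩
  rw [← hr] at hn1' hn2' hZ ⊢
  obtain ⟨Q0, hQ0⟩ : ∃ Q0 : ℤ × ℤ → Prop, ∀ m, Q0 m ↔ ∃ P : V, ‖P‖ ≤ 2 * p.C3 ∧
      WinG p (shift (gp m) c).1 P eA dA k J ∧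
      (∀ z, ‖z - gp m‖ ≤ 2 ^ k → |T z - T (gp m) - inner ℝ P (z - gp m)| ≤ eA * 2 ^ k) :=
    ⟨_, fun _ => Iff.rfl⟩
  have h1 := hn1' (Z.filter (fun m => ¬ Q0 m)) (fun m hm => by
    rw [Finset.mem_filter, hQ0] at hm
    exact ⟨(hZ m hm.1).1, (hZ m hm.1).2.1, hm.2⟩)
  have h2 : ∀ i ∈ I, ((Z.filter (fun m => shift (gp m) c ∈
      Gc M L p i.1 (i.2.1 : ℝ) (i.2.2 : ℝ) k J)).card : ℝ) ≤
      (|C0| * mu0 + th) * (Kq * r) ^ 2 := by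
    intro i hi
    refine hn2' i hi _ fun m hm => ?_
    rw [Finset.mem_filter] at hm
    exact ⟨(hZ m hm.1).1, hm.2⟩
  have h3 : Z ⊆ Z.filter (fun m => ¬ Q0 m) ∪ I.biUnion (fun i => Z.filter (fun m =>
      shift (gp m) c ∈ Gc M L p i.1 (i.2.1 : ℝ) (i.2.2 : ℝ) k J)) := by
    intro m hm
    rw [Finset.mem_union, Finset.mem_filter, Finset.mem_biUnion]
    by_cases hq : Q0 m
    · right
      obtain ⟨P, hP1, hP2, hP3⟩ := (hQ0 m).1 hq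
      obtain ⟨-, -, hZ3⟩ := hZ m hm
      have h4 : ∀ P' ∈ P0set μ p, eps ≤ ‖P - P'‖ := by
        intro P' hP'
        by_contra hcon
        push Not at hcon
        apply hZ3
        refine ⟨P, ⟨P', hP', hcon⟩, fun z hz => (hP3 z hz).trans ?_⟩
        exact mul_le_mul_of_nonneg_right heA1 (by positivity)
      obtain ⟨i, hi, h5⟩ := hI2 P hP1 h4
      refine ⟨i, hi, ?_⟩
      rw [Finset.mem_filter]
      refine ⟨hm, subset_closure ?_⟩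
      have h6 := ha1' i hi
      have h7 := ha2' i hi
      exact hP2.mono heA0.le le_rfl le_rfl (by linarith) (by linarith)
    · exact Or.inl ⟨hm, hq⟩
  have h4 := (Finset.card_le_card h3).trans (Finset.card_union_le _ _)
  have h5 : (Z.card : ℝ) ≤ ((Z.filter (fun m => ¬ Q0 m)).card : ℝ) +
      ((I.biUnion (fun i => Z.filter (fun m =>
        shift (gp m) c ∈ Gc M L p i.1 (i.2.1 : ℝ) (i.2.2 : ℝ) k J))).card : ℝ) := by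
    exact_mod_cast h4
  have h6 : ((I.biUnion (fun i => Z.filter (fun m =>
        shift (gp m) c ∈ Gc M L p i.1 (i.2.1 : ℝ) (i.2.2 : ℝ) k J))).card : ℝ) ≤
      ∑ i ∈ I, ((Z.filter (fun m => shift (gp m) c ∈
        Gc M L p i.1 (i.2.1 : ℝ) (i.2.2 : ℝ) k J)).card : ℝ) := by
    exact_mod_cast Finset.card_biUnion_le
  have h7 := Finset.sum_le_sum h2
  rw [Finset.sum_const, nsmul_eq_mul] at h7
  have h8 : (I.card : ℝ) * ((|C0| * mu0 + th) * (Kq * r) ^ 2) ≤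
      S * (|C0| * mu0 + th) * r ^ 2 := by
    have h9 : 0 ≤ (|C0| * mu0 + th) * (Kq * r) ^ 2 := by positivity
    rw [hS]
    nlinarith
  have h10 : 0 ≤ r ^ 2 := sq_nonneg _
  have h11 : dA * r ^ 2 ≤ del / 2 * r ^ 2 := mul_le_mul_of_nonneg_right hdA1 h10
  have h12 : S * (|C0| * mu0 + th) * r ^ 2 ≤ del / 2 * r ^ 2 := by
    refine mul_le_mul_of_nonneg_right ?_ h10
    rw [mul_add]
    linarith
  linarith

theorem w2_of_gdens {M L : ℝ} {μ : Measure (EnvT M L)} (hμ : Erg μ) {p : Par}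
    (henv : ∀ c : EnvT M L, p.Env c.1)
    (hcov : ∀ (C eps0 : ℝ), 0 < eps0 → ∃ I : Finset (V × ℚ × ℚ),
      (∀ i ∈ I, i.1 ∈ RatV ∧ 0 < i.2.1 ∧ 0 < i.2.2 ∧ ∀ k : ℕ,
        Tendsto (fun J => (μ (Gplus M L p i.1 (i.2.1 : ℝ) (i.2.2 : ℝ) k J)).toReal) atTop (𝓝 0)) ∧
      ∀ Q : V, ‖Q‖ ≤ C → (∀ P ∈ P0set μ p, eps0 ≤ ‖Q - P‖) → ∃ i ∈ I, ‖Q - i.1‖ ≤ (i.2.1 : ℝ) / 4)
    {C0 : ℝ} {c : EnvT M L} (hlarge : FineLarge p c.1)
    (hbad : BadRect p c.1) (hg : GDens μ p C0 c) {e : V} (he : ‖e‖ = 1) {A0 B0 : Set V}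
    {TE TO : V → ℝ} {C g : ℝ} (hcan : Canon p c.1 e A0 B0 TE TO C g) :
    W2 (P0set μ p) e TE ∧ W2 (P0set μ p) e TO := by
  constructor
  · refine wbb_w2 hcov hg fun R hR => ?_
    obtain ⟨φ, hφ, h⟩ := stepA (henv c) hbad he hcan hR
    refine ⟨φ, hφ, fun eps heps del hdel eta heta Kq hKq => ?_⟩
    obtain ⟨k2, hk2⟩ := h eps heps del hdel eta heta Kq hKq
    refine ⟨k2, fun k hk J hJ => ?_⟩
    obtain ⟨n0, hn0⟩ := hk2 k hk J hJ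
    refine ⟨n0, fun n hn Z hZ => hn0 n hn Z fun m hm => ?_⟩
    obtain ⟨h1, h2, h3⟩ := hZ m hm
    refine ⟨h1, h2, ?_⟩
    rintro ⟨P, h4, h5, h6, -⟩
    exact h3 ⟨P, h4, h5, h6⟩
  · refine wbb_w2 hcov hg fun R hR => ?_
    obtain ⟨φ, hφ, h⟩ := stepA (henv c) hbad he hcan hR
    refine ⟨φ, hφ, fun eps heps del hdel eta heta Kq hKq => ?_⟩
    obtain ⟨k2, hk2⟩ := h eps heps del hdel eta heta Kq hKq
    refine ⟨k2, fun k hk J hJ => ?_⟩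
    obtain ⟨n0, hn0⟩ := hk2 k hk J hJ
    refine ⟨n0, fun n hn Z hZ => hn0 n hn Z fun m hm => ?_⟩
    obtain ⟨h1, h2, h3⟩ := hZ m hm
    refine ⟨h1, h2, ?_⟩
    rintro ⟨P, h4, h5, -, h6⟩
    exact h3 ⟨P, h4, h5, h6⟩

end Pool.Agent.FCF
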