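import Pool.Agent.FCF.WinTyp
import Pool.Agent.FCF.WinBd
import Pool.Agent.FCF.WinHalf
import Pool.Agent.FCF.WinW2

/-!
# FCF / WinEnd: assembly of the windows theorem
-/

set_option autoImplicit false

namespace Pool.Agent.FCF

open Pool.Agent.VSC (V J LowJet)
open Set Metric MeasureTheory Filter Topology EnvT

/-- The set `P0` and the windows theorem, from the ergodic theorems (`RecP`, `ErgR`) and the
existence of canonical flows. -/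
theorem exists_P0_of {M L : ℝ} {μ : Measure (EnvT M L)} (hμ : Erg μ) {p : Par}
    (henv : ∀ c : EnvT M L, p.Env c.1)
    (hgood : ∀ᵐ c ∂μ, FineLarge p c.1 ∧ BadRect p c.1)
    (hspd : ∀ e : V, ‖e‖ = 1 → ∀ᵐ c ∂μ, Spd2 (frc c.1 p.F) e)
    (hrec : RecP μ) {C0 : ℝ} (hC0 : 0 < C0) (herg : ErgR μ C0)
    (hcan : ∀ (c : V → ℝ), p.Env c → ∀ e : V, ‖e‖ = 1 → Spd2 (frc c p.F) e →
      ∃ (A0 B0 : Set V) (TE TO : V → ℝ) (C g : ℝ), Canon p c e A0 B0 TE TO C g) :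
    ∃ P0 : Set V, IsClosed P0 ∧ (∃ cm cp : ℝ, 0 < cm ∧ ∀ P ∈ P0, cm ≤ ‖P‖ ∧ ‖P‖ ≤ cp) ∧
      (∀ v : V, ‖v‖ = 1 → ∃ P ∈ P0, 0 < inner ℝ P v) ∧ ∀ᵐ c ∂μ, Typ p P0 c.1 := by
  have hprob := hμ.prob
  have hw := win_ae (μ := μ) henv
  have hg := gdens_ae hμ (p := p) hC0 herg
  have htyp : ∀ᵐ c ∂μ, Typ p (P0set μ p) c.1 := by
    filter_upwards [hgood, hw, hg] with c hc1 hc2 hc3
    exact ⟨henv c, hc1.1, hc1.2, hc2, fun e he A0 B0 TE TO C g hcanon =>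
      w2_of_gdens hμ henv (fun C eps0 h0 => cover_notP0 hμ hrec C h0) hc1.1 hc1.2 hc3 he hcanon⟩
  have hbd : ∀ P ∈ P0set μ p, 1 / p.M1 ≤ ‖P‖ ∧ ‖P‖ ≤ p.C3 / 8 := by
    intro P hP
    obtain ⟨c, hc⟩ := htyp.exists
    exact slope_bounds (henv c) hc.large (fun eps he del hd => hc.win P hP eps he del hd)
  refine ⟨P0set μ p, isClosed_P0set, ⟨1 / p.M1, p.C3 / 8, ?_, hbd⟩, fun v hv => ?_, htyp⟩
  · have := p.hM
    unfold Par.M1
    positivity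
  · obtain ⟨c, hc, hs⟩ := (htyp.and (hspd v hv)).exists
    obtain ⟨A0, B0, TE, TO, C, g, hcanon⟩ := hcan c.1 (henv c) v hv hs
    exact half_plane (fun P hP => (hbd P hP).2) (henv c) hc.bad hv hcanon
      (hc.w2 v hv A0 B0 TE TO C g hcanon).1

end Pool.Agent.FCF
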