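import Pool.Agent.FCF.FinZero
import Pool.Agent.FCF.FinConc
import Pool.Agent.FCF.HomogTyp
import Pool.Agent.FCF.ExpPar
import Pool.Agent.FCF.WinEnd
import Pool.Agent.FCF.Erg

/-!
# FCF / FinCore: homogenization for a stationary ergodic law on the space of environments
-/

set_option autoImplicit false

namespace Pool.Agent.FCF.Last

open Pool.Agent.VSC (V J LowJet)
open Set Metric MeasureTheory Filter Topology EnvT

theorem core {M L F : ℝ} (hM : 0 ≤ M) (hL : 0 ≤ L) {μ : Measure (EnvT M L)} (hμ : Erg μ)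
    (hyp : ∃ F1 : ℝ, F1 < F ∧ ∀ e : V, ‖e‖ = 1 → ∀ᵐ c ∂μ, Spd (frc c.1 F1) e) :
    ∃ a : V → ℝ, (∀ e : V, ‖e‖ = 1 → 0 < a e) ∧
      (∀ e : V, ‖e‖ = 1 → ∀ᵐ c ∂μ, Spd2 (frc c.1 F) e) ∧
      ∀ᵐ c ∂μ, ∀ e : V, ‖e‖ = 1 → Spd2 (frc c.1 F) e → Asym (frc c.1 F) e (a e) := by
  have := hμ.prob
  obtain ⟨p, hpF, henv, hgood, hspd⟩ := exists_par hM hL hμ hyp
  obtain ⟨C0, hC0, herg⟩ := erg_rect
  obtain ⟨P0, hP0, hb, hh, htyp⟩ := exists_P0_of hμ henv hgood hspd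
    (fun B hB => recurrence hμ hB) hC0 (herg M L μ hμ)
    (fun c hc e he h1 => exists_canon hc he h1)
  have hex : ∀ e : V, ‖e‖ = 1 → ∃ c, Typ p P0 c ∧ Spd2 (frc c p.F) e := by
    intro e he
    obtain ⟨c, hc1, hc2⟩ := (htyp.and (hspd e he)).exists
    exact ⟨c.1, hc1, hc2⟩
  obtain ⟨lam, hlam, hhom⟩ := homog_typ hP0 hb hh hex
  have key : ∀ (c : EnvT M L) (e : V), ‖e‖ = 1 → Typ p P0 c.1 → Spd2 (frc c.1 p.F) e →
      Asym (frc c.1 F) e (1 / lam e) := by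
    intro c e he hc hs
    obtain ⟨A0, B0, TE, TO, C, g, hcan⟩ := exists_canon (henv c) he hs
    have := asym_of_canon he hcan (hlam e he) (hhom c.1 hc e he A0 B0 TE TO C g hcan)
    rwa [hpF] at this
  refine ⟨fun e => 1 / lam e, fun e he => by have := hlam e he; positivity, fun e he => ?_, ?_⟩
  · have := hspd e he
    rwa [hpF] at this
  · filter_upwards [htyp] with c h1 e he hs
    exact key c e he h1 (by rw [hpF]; exact hs)

end Pool.Agent.FCF.Last
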