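import Pool.Agent.FCF.FlowBasic

/-!
# FCF / FinShift: dependence of the positive speed property and of the asymptotics on the offset
-/

set_option autoImplicit false

namespace Pool.Agent.FCF.Last

open Pool.Agent.VSC (V J LowJet)
open Set Metric Filter Topology

theorem spd_mono {h h' : V → ℝ} (hle : ∀ x, h x ≤ h' x) {e : V} (h1 : Spd h e) : Spd h' e := by
  obtain ⟨g, hg, T0, hT⟩ := h1
  exact ⟨g, hg, T0, fun t ht => (hT t ht).trans (E_mono_force hle _ t)⟩

theorem HP_shift (e y : V) : {x : V | y + x ∈ HP e (inner ℝ y e)} = HP e 0 := by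
  ext x
  simp only [HP, mem_ofPred_eq, inner_add_left]
  constructor <;> intro h <;> linarith

theorem HQ_shift (e y : V) : {x : V | y + x ∈ HQ e (inner ℝ y e)} = HQ e 0 := by
  ext x
  simp only [HQ, mem_ofPred_eq, inner_add_left]
  constructor <;> intro h <;> linarith

theorem mem_E_HP_shift {h : V → ℝ} {e y : V} {t : ℝ} {x : V} :
    x ∈ E (fun x => h (y + x)) (HP e 0) t ↔ y + x ∈ E h (HP e (inner ℝ y e)) t := by
  rw [← E_shift, HP_shift]

theorem mem_E_HQ_shift {h : V → ℝ} {e y : V} {t : ℝ} {x : V} :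
    x ∈ E (fun x => h (y + x)) (HQ e 0) t ↔ y + x ∈ E h (HQ e (inner ℝ y e)) t := by
  rw [← E_shift, HQ_shift]

theorem HP_mono (e : V) {a b : ℝ} (hab : a ≤ b) : HP e a ⊆ HP e b := fun _ hx => le_trans hx hab

theorem HQ_mono (e : V) {a b : ℝ} (hab : a ≤ b) : HQ e b ⊆ HQ e a := fun _ hx => le_trans hab hx

/-- The positive speed property depends monotonically on the offset. -/
theorem spd_shift_mono {h : V → ℝ} {e y y' : V} (hyy : inner ℝ y e ≤ inner ℝ y' e)
    (h1 : Spd (fun x => h (y + x)) e) : Spd (fun x => h (y' + x)) e := by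
  obtain ⟨g, hg, T0, hT⟩ := h1
  refine ⟨g / 2, by positivity, max T0 (2 * (inner ℝ y' e - inner ℝ y e) / g), fun t ht x hx => ?_⟩
  have ht0 : T0 ≤ t := (le_max_left _ _).trans ht
  have ht1 : 2 * (inner ℝ y' e - inner ℝ y e) / g ≤ t := (le_max_right _ _).trans ht
  rw [div_le_iff₀ hg] at ht1
  rw [mem_E_HP_shift]
  refine E_mono (HP_mono e hyy) t ?_
  have hmem : (y' - y + x) ∈ E (fun x => h (y + x)) (HP e 0) t := by
    refine hT t ht0 ?_
    simp only [HP, mem_ofPred_eq, inner_add_left, inner_sub_left] at hx ⊢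
    linarith
  rw [mem_E_HP_shift] at hmem
  have : y + (y' - y + x) = y' + x := by abel
  rwa [this] at hmem

/-- Asymptotics of the flow from the half plane: at time `t` the occupied region agrees with
`x · e ≤ a t` up to `o(t)` on balls of radius `R t`. -/
def Asym (f : V → ℝ) (e : V) (a : ℝ) : Prop :=
  ∀ R ε : ℝ, 0 < ε → ∃ T : ℝ, ∀ t : ℝ, T ≤ t → ∀ x : V, ‖x‖ ≤ R * t →
    (inner ℝ x e ≤ (a - ε) * t → x ∉ E (fun x => -f x) (HQ e 0) t) ∧
    ((a + ε) * t ≤ inner ℝ x e → x ∉ E f (HP e 0) t)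

/-- Sandwich of the asymptotics between two shifted media. -/
theorem asym_sandwich {f : V → ℝ} {e y1 y2 : V} {a : ℝ} (h1 : inner ℝ y1 e ≤ 0)
    (h2 : 0 ≤ inner ℝ y2 e) (A1 : Asym (fun x => f (y1 + x)) e a)
    (A2 : Asym (fun x => f (y2 + x)) e a) : Asym f e a := by
  intro R ε hε
  obtain ⟨T1, hT1⟩ := A1 (R + 1) (ε / 2) (by positivity)
  obtain ⟨T2, hT2⟩ := A2 (R + 1) (ε / 2) (by positivity)
  refine ⟨max (max T1 T2) (max (max ‖y1‖ ‖y2‖)
    (max (2 * -inner ℝ y1 e / ε) (2 * inner ℝ y2 e / ε))), fun t ht x hx => ?_⟩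
  have e1 : T1 ≤ t := ((le_max_left _ _).trans (le_max_left _ _)).trans ht
  have e2 : T2 ≤ t := ((le_max_right _ _).trans (le_max_left _ _)).trans ht
  have e3 : ‖y1‖ ≤ t :=
    ((le_max_left _ _).trans ((le_max_left _ _).trans (le_max_right _ _))).trans ht
  have e4 : ‖y2‖ ≤ t :=
    ((le_max_right _ _).trans ((le_max_left _ _).trans (le_max_right _ _))).trans ht
  have e5 : 2 * -inner ℝ y1 e / ε ≤ t :=
    ((le_max_left _ _).trans ((le_max_right _ _).trans (le_max_right _ _))).trans ht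
  have e6 : 2 * inner ℝ y2 e / ε ≤ t :=
    ((le_max_right _ _).trans ((le_max_right _ _).trans (le_max_right _ _))).trans ht
  rw [div_le_iff₀ hε] at e5 e6
  constructor
  · intro hxe hmem
    have hm2 : x ∈ E (fun x => -f x) (HQ e (inner ℝ y1 e)) t := E_mono (HQ_mono e h1) t hmem
    have hm3 : x - y1 ∈ E (fun x => -f (y1 + x)) (HQ e 0) t := by
      have := (mem_E_HQ_shift (h := fun x => -f x) (e := e) (y := y1) (t := t) (x := x - y1)).2
        (by rwa [add_sub_cancel])
      exact this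
    refine (hT1 t e1 (x - y1) ?_).1 ?_ hm3
    · calc ‖x - y1‖ ≤ ‖x‖ + ‖y1‖ := norm_sub_le _ _
        _ ≤ (R + 1) * t := by linarith
    · rw [inner_sub_left]
      linarith
  · intro hxe hmem
    have hm2 : x ∈ E f (HP e (inner ℝ y2 e)) t := E_mono (HP_mono e h2) t hmem
    have hm3 : x - y2 ∈ E (fun x => f (y2 + x)) (HP e 0) t :=
      (mem_E_HP_shift (h := f) (e := e) (y := y2) (t := t) (x := x - y2)).2
        (by rwa [add_sub_cancel])
    refine (hT2 t e2 (x - y2) ?_).2 ?_ hm3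
    · calc ‖x - y2‖ ≤ ‖x‖ + ‖y2‖ := norm_sub_le _ _
        _ ≤ (R + 1) * t := by linarith
    · rw [inner_sub_left]
      linarith

end Pool.Agent.FCF.Last
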