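import Pool.Agent.FCF.Sol
import Pool.Agent.FCF.FinShift
import Pool.Agent.FCF.Inner

/-!
# FCF / FinStar: from the fronts to the positive speed property, and from the asymptotics to fronts
-/

set_option autoImplicit false

namespace Pool.Agent.FCF.Last

open Pool.Agent.VSC (V J LowJet)
open Set Metric Filter Topology
open scoped Pointwise

theorem med_frc {c : V → ℝ} (hc : BddLip c) (F : ℝ) : ∃ M L : ℝ, Med M L (frc c F) := by
  obtain ⟨⟨M, hM⟩, ⟨L, hL⟩⟩ := hc
  refine ⟨max 1 (M + |F|), max 1 L, le_max_left _ _, le_max_left _ _, fun x => ?_, fun x y => ?_⟩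
  · calc |frc c F x| ≤ |c x| + |F| := abs_add_le _ _
      _ ≤ M + |F| := by linarith [hM x]
      _ ≤ _ := le_max_right _ _
  · have : frc c F x - frc c F y = c x - c y := by simp [frc]
    rw [this]
    exact (hL x y).trans (mul_le_mul_of_nonneg_right (le_max_right _ _) (norm_nonneg _))

/-- The occupied region of a solution is the maximal flow. -/
theorem occ_eq {M L : ℝ} {f : V → ℝ} (hm : Med M L f) {e : V} (he : ‖e‖ = 1)
    {u : V × ℝ → ℝ} (hu : IsSol f e u) {t : ℝ} (ht : 0 ≤ t) :
    {x | 0 ≤ u (x, t)} = E f (HP e 0) t := by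
  ext x
  exact sol_ge hm he hu x ht

/-- A connected set which meets `S` and not its frontier is contained in `S`. -/
theorem subset_of_frontier_disjoint {A S : Set V} (hA : IsPreconnected A)
    (h1 : (A ∩ S).Nonempty) (h2 : ∀ x ∈ A, x ∉ frontier S) : A ⊆ S := by
  intro x hx
  by_contra hxS
  have hsub : A ⊆ interior S ∪ (closure S)ᶜ := by
    intro y hy
    by_cases hyc : y ∈ closure S
    · left
      by_contra hyi
      exact h2 y hy ⟨hyc, hyi⟩
    · right
      exact hyc
  obtain ⟨z, hzA, hzS⟩ := h1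
  have hz : (A ∩ interior S).Nonempty := by
    refine ⟨z, hzA, ?_⟩
    rcases hsub hzA with h | h
    · exact h
    · exact absurd (subset_closure hzS) h
  have hw : (A ∩ (closure S)ᶜ).Nonempty := by
    refine ⟨x, hx, ?_⟩
    rcases hsub hx with h | h
    · exact absurd (interior_subset h) hxS
    · exact h
  obtain ⟨y, -, hy1, hy2⟩ := hA _ _ isOpen_interior isClosed_closure.isOpen_compl hsub hz hw
  exact hy2 (subset_closure (interior_subset hy1))

theorem spd_of_cStar {M L : ℝ} {f : V → ℝ} (hm : Med M L f) {e : V} (he : ‖e‖ = 1)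
    {u : V × ℝ → ℝ} (hu : IsSol f e u) (hc : 0 < cStar e u) : Spd f e := by
  obtain ⟨g, hg0, hg1⟩ := EReal.lt_iff_exists_real_btwn.1 hc
  have hg0' : 0 < g := by exact_mod_cast hg0
  have hev := eventually_lt_of_lt_liminf hg1
  obtain ⟨T, hT⟩ := eventually_atTop.1 hev
  refine ⟨g / 2, by positivity, max T 1, fun t ht => ?_⟩
  have ht1 : T ≤ t := (le_max_left _ _).trans ht
  have ht2 : 1 ≤ t := (le_max_right _ _).trans ht
  have ht0 : 0 < t := by linarith
  have h1 := hT t ht1
  have hfr : ∀ x ∈ frontier (E f (HP e 0) t), g * t < inner ℝ x e := by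
    intro x hx
    have hx' : x ∈ Front u t := by
      rw [Front, occ_eq hm he hu ht0.le]
      exact hx
    have h2 : (g : EReal) < ((inner ℝ x e / t : ℝ) : EReal) :=
      lt_of_lt_of_le h1 (iInf₂_le x hx')
    have h3 : g < inner ℝ x e / t := by exact_mod_cast h2
    rwa [lt_div_iff₀ ht0] at h3
  have hconv : Convex ℝ {x : V | inner ℝ x e < g * t} := by
    have : {x : V | inner ℝ x e < g * t} = (fun x => inner ℝ e x) ⁻¹' (Iio (g * t)) := by
      ext x
      simp [real_inner_comm]
    rw [this]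
    exact (convex_Iio (g * t)).linear_preimage (innerₛₗ ℝ e)
  have hsub : {x : V | inner ℝ x e < g * t} ⊆ E f (HP e 0) t := by
    refine subset_of_frontier_disjoint hconv.isPreconnected ?_ ?_
    · refine ⟨(-(2 * M + 4) * t - 1) • e, ?_, ?_⟩
      · have : inner ℝ ((-(2 * M + 4) * t - 1) • e) e = -(2 * M + 4) * t - 1 := by
          rw [real_inner_smul_left, real_inner_self_eq_norm_sq, he]; ring
        show inner ℝ ((-(2 * M + 4) * t - 1) • e) e < g * t
        rw [this]
        have := hm.one_le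
        nlinarith
      · refine HP_sub_E hm he 0 ht0.le ?_
        show inner ℝ ((-(2 * M + 4) * t - 1) • e) e ≤ 0 - (2 * M + 4) * t - 1
        rw [real_inner_smul_left, real_inner_self_eq_norm_sq, he]
        linarith
    · intro x hx hx'
      exact absurd (hfr x hx') (not_lt.2 (le_of_lt hx))
  refine Subset.trans ?_ hsub
  intro x hx
  have hx' : inner ℝ x e ≤ g / 2 * t := hx
  show inner ℝ x e < g * t
  nlinarith

theorem spd_of_Fcrit {c : V → ℝ} (hc : BddLip c) {e : V} (he : ‖e‖ = 1) {F : ℝ}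
    (h : Fcrit e c < F) : Spd (frc c F) e := by
  obtain ⟨a, ⟨F', u, rfl, hu, hcs⟩, ha⟩ := sInf_lt_iff.1 h
  obtain ⟨M, L, hm⟩ := med_frc hc F'
  have hF : F' < F := by exact_mod_cast ha
  exact spd_mono (fun x => by simp only [frc]; linarith) (spd_of_cStar hm he (u := u) hu hcs)

/-- From the asymptotics to the convergence of the fronts. -/
theorem homog_of_asym {c : V → ℝ} (hc : BddLip c) {F : ℝ} {e : V} (he : ‖e‖ = 1) {a : ℝ}
    (h : Asym (frc c F) e a) : Homog c F e a := by
  obtain ⟨M, L, hm⟩ := med_frc hc F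
  obtain ⟨u, hu⟩ := sol_exists hm he
  have hee : inner ℝ e e = (1 : ℝ) := by rw [real_inner_self_eq_norm_sq, he]; norm_num
  -- the front lies in the zero level set
  have hFz : ∀ t : ℝ, 0 ≤ t → Front u t ⊆ {x | u (x, t) = 0} := by
    intro t ht
    have hcont : Continuous fun x : V => u (x, t) := by
      have h1 : ContinuousOn (fun x : V => u (x, t)) univ :=
        hu.cont.comp (f := fun x : V => (x, t)) (by fun_prop) (fun x _ => ht)
      exact continuousOn_univ.1 h1
    intro x hx
    have := frontier_le_subset_eq continuous_const hcont hx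
    exact this.symm
  -- the zero level set is near the line
  have hnear : ∀ R ε : ℝ, 0 < ε → ∀ᶠ t : ℝ in atTop, ∀ x ∈ t⁻¹ • {x | u (x, t) = 0}, ‖x‖ ≤ R →
      ∃ y ∈ {x : V | inner ℝ x e = a}, ‖x - y‖ ≤ ε := by
    intro R ε hε
    obtain ⟨T, hT⟩ := h R ε hε
    filter_upwards [eventually_ge_atTop (max T 1)] with t ht
    have ht1 : T ≤ t := (le_max_left _ _).trans ht
    have ht2 : 1 ≤ t := (le_max_right _ _).trans ht
    have ht0 : 0 < t := by linarith
    rintro x ⟨z, hz, rfl⟩ hxR
    have hz0 : u (z, t) = 0 := hz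
    simp only at hxR ⊢
    have hzn : ‖z‖ ≤ R * t := by
      rw [norm_smul, norm_inv, Real.norm_eq_abs, abs_of_pos ht0, inv_mul_le_iff₀ ht0] at hxR
      linarith
    have h1 : inner ℝ z e < (a + ε) * t := by
      by_contra hcon
      exact (hT t ht1 z hzn).2 (not_lt.1 hcon) ((sol_ge hm he hu z ht0.le).1 hz0.ge)
    have h2 : (a - ε) * t < inner ℝ z e := by
      by_contra hcon
      exact (hT t ht1 z hzn).1 (not_lt.1 hcon) ((sol_le hm he hu z ht0.le).1 hz0.le)
    refine ⟨t⁻¹ • z + (a - inner ℝ (t⁻¹ • z) e) • e, ?_, ?_⟩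
    · show inner ℝ (t⁻¹ • z + (a - inner ℝ (t⁻¹ • z) e) • e) e = a
      simp only [inner_add_left, real_inner_smul_left, hee]
      ring
    · have : t⁻¹ • z - (t⁻¹ • z + (a - inner ℝ (t⁻¹ • z) e) • e) =
          -((a - inner ℝ (t⁻¹ • z) e) • e) := by abel
      rw [this, norm_neg, norm_smul, he, mul_one, Real.norm_eq_abs, real_inner_smul_left, abs_le]
      have h5 : t⁻¹ * inner ℝ z e ≤ a + ε := by
        rw [inv_mul_le_iff₀ ht0]; linarith
      have h6 : a - ε ≤ t⁻¹ * inner ℝ z e := by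
        rw [le_inv_mul_iff₀ ht0]; linarith
      constructor <;> linarith
  -- the line is near the front
  have hline : ∀ R ε : ℝ, 0 < ε → ∀ᶠ t : ℝ in atTop, ∀ y ∈ {x : V | inner ℝ x e = a}, ‖y‖ ≤ R →
      ∃ x ∈ t⁻¹ • Front u t, ‖x - y‖ ≤ ε := by
    intro R ε hε
    obtain ⟨T, hT⟩ := h (R + ε) ε hε
    filter_upwards [eventually_ge_atTop (max T 1)] with t ht
    have ht1 : T ≤ t := (le_max_left _ _).trans ht
    have ht2 : 1 ≤ t := (le_max_right _ _).trans ht
    have ht0 : 0 < t := by linarith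
    have hFr : Front u t = frontier (E (frc c F) (HP e 0) t) := by
      rw [Front]
      congr 1
      exact occ_eq hm he hu ht0.le
    intro y hy hyR
    have hy' : inner ℝ y e = a := hy
    set γ : ℝ → V := fun s => t • (y + s • e) with hγ
    have hγc : Continuous γ := by fun_prop
    have hγi : ∀ s, inner ℝ (γ s) e = (a + s) * t := by
      intro s
      simp only [hγ]
      rw [real_inner_smul_left, inner_add_left, hy', real_inner_smul_left, hee]
      ring
    have hγn : ∀ s ∈ Icc (-ε) ε, ‖γ s‖ ≤ (R + ε) * t := by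
      intro s hs
      simp only [hγ]
      rw [norm_smul, Real.norm_eq_abs, abs_of_pos ht0]
      have h7 : ‖y + s • e‖ ≤ R + ε := by
        refine (norm_add_le _ _).trans ?_
        rw [norm_smul, he, mul_one, Real.norm_eq_abs]
        have := abs_le.2 hs
        linarith
      nlinarith
    have hfr : ∃ z ∈ γ '' Icc (-ε) ε, z ∈ frontier (E (frc c F) (HP e 0) t) := by
      by_contra hcon
      push Not at hcon
      have hsub := subset_of_frontier_disjoint (A := γ '' Icc (-ε) ε)
        (S := E (frc c F) (HP e 0) t)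
        (isPreconnected_Icc.image γ hγc.continuousOn) ?_ hcon
      · have hmem : γ ε ∈ γ '' Icc (-ε) ε := mem_image_of_mem _ ⟨by linarith, le_rfl⟩
        refine (hT t ht1 (γ ε) (hγn ε ⟨by linarith, le_rfl⟩)).2 ?_ (hsub hmem)
        rw [hγi]
      · refine ⟨γ (-ε), mem_image_of_mem _ ⟨le_rfl, by linarith⟩, ?_⟩
        by_contra hcon2
        have h1 := (hT t ht1 (γ (-ε)) (hγn _ ⟨le_rfl, by linarith⟩)).1 (by
          rw [hγi, sub_eq_add_neg])
        have h2 : ¬ u (γ (-ε), t) ≤ 0 := fun h3 => h1 ((sol_le hm he hu _ ht0.le).1 h3)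
        exact hcon2 ((sol_ge hm he hu _ ht0.le).1 (not_le.1 h2).le)
    obtain ⟨z, ⟨s, hs, rfl⟩, hz⟩ := hfr
    refine ⟨y + s • e, ⟨γ s, by rw [hFr]; exact hz, ?_⟩, ?_⟩
    · simp only [hγ]
      rw [smul_smul, inv_mul_cancel₀ ht0.ne', one_smul]
    · rw [add_sub_cancel_left, norm_smul, he, mul_one, Real.norm_eq_abs]
      exact abs_le.2 hs
  refine ⟨u, hu, fun R ε hε => ?_, fun R ε hε => ?_⟩
  · filter_upwards [hnear R ε hε, hline R ε hε, eventually_ge_atTop 0] with t h1 h2 ht
    refine ⟨fun x hx hxR => h1 x ?_ hxR, h2⟩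
    exact smul_set_mono (hFz t ht) hx
  · filter_upwards [hnear R ε hε, hline R ε hε, eventually_ge_atTop 0] with t h1 h2 ht
    refine ⟨h1, fun y hy hyR => ?_⟩
    obtain ⟨x, hx, hxy⟩ := h2 y hy hyR
    exact ⟨x, smul_set_mono (hFz t ht) hx, hxy⟩

end Pool.Agent.FCF.Last
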