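import Pool.Agent.FCF.FinTorus
import Pool.Agent.FCF.FinCore
import Pool.Agent.FCF.FinStar

/-!
# FCF / FinMain: homogenization for stationary ergodic and for periodic media
-/

set_option autoImplicit false

namespace Pool.Agent.FCF.Last

open Pool.Agent.VSC (V J LowJet)
open Set Metric MeasureTheory Filter Topology EnvT TopologicalSpace

/-- A real number between a supremum and `F`. -/
theorem exists_between_sup {S : {e : V // ‖e‖ = 1} → EReal} {F : ℝ} (hF : (⨆ e, S e) < F) :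
    ∃ F1 : ℝ, F1 < F ∧ ∀ e : {e : V // ‖e‖ = 1}, S e < F1 := by
  obtain ⟨F1, h1, h2⟩ := EReal.lt_iff_exists_real_btwn.1 hF
  exact ⟨F1, by exact_mod_cast h2, fun e => (le_iSup S e).trans_lt h1⟩

/-- Random media: the common part. -/
theorem random_core {Ω : Type*} [MeasurableSpace Ω] {P : Measure Ω} {τ : V → Ω → Ω}
    {c : Ω → V → ℝ} (h : StatErg P τ c) {F F1 : ℝ} (hF1 : F1 < F)
    (hyp : ∀ e : V, ‖e‖ = 1 → ∀ᵐ ω ∂P, Spd (frc (c ω) F1) e) :
    ∃ a : V → ℝ, (∀ e : V, ‖e‖ = 1 → 0 < a e) ∧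
      (∀ e : V, ‖e‖ = 1 → ∀ᵐ ω ∂P, Spd2 (frc (c ω) F) e) ∧
      ∀ᵐ ω ∂P, ∀ e : V, ‖e‖ = 1 → Spd2 (frc (c ω) F) e → Asym (frc (c ω) F) e (a e) := by
  obtain ⟨M, f, hM, hfm, hμ, hfc⟩ := push_random h
  obtain ⟨a, ha, h1, h2⟩ := core hM hM hμ ⟨F1, hF1, fun e he => by
    rw [ae_map_iff hfm.aemeasurable (measurableSet_spd F1 e)]
    filter_upwards [hyp e he, hfc] with ω h3 h4
    rw [h4]; exact h3⟩
  refine ⟨a, ha, fun e he => ?_, ?_⟩
  · filter_upwards [ae_of_ae_map hfm.aemeasurable (h1 e he), hfc] with ω h3 h4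
    rw [h4] at h3; exact h3
  · filter_upwards [ae_of_ae_map hfm.aemeasurable h2, hfc] with ω h3 h4
    rw [h4] at h3; exact h3

theorem random_i {Ω : Type*} [MeasurableSpace Ω] {P : Measure Ω} {τ : V → Ω → Ω}
    {c : Ω → V → ℝ} (h : StatErg P τ c) {F : ℝ}
    (hF : (⨆ e : {e : V // ‖e‖ = 1}, essSup (fun ω => Fcrit e.1 (c ω)) P) < F) :
    ∃ a : V → ℝ, ∀ e : V, ‖e‖ = 1 → 0 < a e ∧ ∀ᵐ ω ∂P, Homog (c ω) F e (a e) := by
  obtain ⟨F1, hF1, hS⟩ := exists_between_sup hF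
  obtain ⟨a, ha, h1, h2⟩ := random_core h hF1 fun e he => by
    have h3 : ∀ᵐ ω ∂P, Fcrit e (c ω) ≤ essSup (fun ω => Fcrit e (c ω)) P := ae_le_essSup
    filter_upwards [h3] with ω h4
    exact spd_of_Fcrit (h.reg ω) he (h4.trans_lt (hS ⟨e, he⟩))
  refine ⟨a, fun e he => ⟨ha e he, ?_⟩⟩
  filter_upwards [h1 e he, h2] with ω h3 h4
  exact homog_of_asym (h.reg ω) he (h4 e he h3)

theorem random_ii {Ω : Type*} [MeasurableSpace Ω] {P : Measure Ω} {τ : V → Ω → Ω}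
    {c : Ω → V → ℝ} (h : StatErg P τ c) {F : ℝ}
    (hF : ∀ᵐ ω ∂P, (⨆ e : {e : V // ‖e‖ = 1}, Fcrit e.1 (c ω)) < F) :
    ∃ a : V → ℝ, (∀ e : V, ‖e‖ = 1 → 0 < a e) ∧
      ∀ᵐ ω ∂P, ∀ e : V, ‖e‖ = 1 → Homog (c ω) F e (a e) := by
  have hP := h.prob
  have hsp : ∀ᵐ ω ∂P, ∃ F1 : ℝ, F1 < F ∧ ∀ e : V, ‖e‖ = 1 → Spd (frc (c ω) F1) e := by
    filter_upwards [hF] with ω h1
    obtain ⟨F1, hF1, hS⟩ := exists_between_sup h1
    exact ⟨F1, hF1, fun e he => spd_of_Fcrit (h.reg ω) he (hS ⟨e, he⟩)⟩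
  obtain ⟨M, f, hM, hfm, hμ, hfc⟩ := push_random h
  obtain ⟨F1, hF1, hyp⟩ := exists_force (F := F) hμ fun e he hcon => by
    obtain ⟨ω, ⟨⟨F1, hF1, h3⟩, h4⟩, h5⟩ :=
      ((hsp.and hfc).and (ae_of_ae_map hfm.aemeasurable hcon)).exists
    obtain ⟨n, hn⟩ := exists_nat_one_div_lt (sub_pos.2 hF1)
    refine h5 n ?_
    rw [h4]
    refine spd_mono (fun x => ?_) (h3 (e n) (he n))
    simp only [frc]
    linarith
  obtain ⟨a, ha, -, h2⟩ := random_core h hF1 fun e he => by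
    filter_upwards [ae_of_ae_map hfm.aemeasurable (hyp e he), hfc] with ω h3 h4
    rw [h4] at h3; exact h3
  refine ⟨a, ha, ?_⟩
  have hall : ∀ᵐ ω ∂P, ∀ i : ℕ, ∀ e : V, ‖e‖ = 1 → Spd (frc (c (τ (denseSeq V i) ω)) F) e := by
    rw [ae_all_iff]
    intro i
    refine (h.pres (denseSeq V i)).quasiMeasurePreserving.ae
      (p := fun ω => ∀ e : V, ‖e‖ = 1 → Spd (frc (c ω) F) e) ?_
    filter_upwards [hsp] with ω ⟨F1, hF1, h3⟩ e he
    exact spd_mono (fun x => by simp only [frc]; linarith) (h3 e he)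
  filter_upwards [h2, hall, hsp] with ω h3 h4 ⟨F2, hF2, h5⟩ e he
  refine homog_of_asym (h.reg ω) he (h3 e he ?_)
  have hopen : IsOpen {y : V | inner ℝ y e < 0} := isOpen_lt (by fun_prop) (by fun_prop)
  obtain ⟨i, hi⟩ := (denseRange_denseSeq V).exists_mem_open hopen ⟨-e, by
    show inner ℝ (-e) e < 0
    rw [inner_neg_left, real_inner_self_eq_norm_sq, he]; norm_num⟩
  refine spd2_of_shift (spd_mono (fun x => by simp only [frc]; linarith) (h5 e he)) hi ?_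
  have h6 := h4 i e he
  have h7 : frc (c (τ (denseSeq V i) ω)) F = fun x => frc (c ω) F (denseSeq V i + x) := by
    funext x
    simp only [frc, h.shift, add_comm]
  rwa [h7] at h6

theorem periodic_main {c : V → ℝ} (hc : BddLip c) (hp : IsPer c) {F : ℝ}
    (hF : (⨆ e : {e : V // ‖e‖ = 1}, Fcrit e.1 c) < F) :
    ∃ a : V → ℝ, ∀ e : V, ‖e‖ = 1 → 0 < a e ∧ Homog c F e (a e) := by
  obtain ⟨F1, hF1, hS⟩ := exists_between_sup hF
  have hsp : ∀ e : V, ‖e‖ = 1 → Spd (frc c F1) e := fun e he =>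
    spd_of_Fcrit hc he (hS ⟨e, he⟩)
  -- all translates
  have hspv : ∀ (v e : V), ‖e‖ = 1 → Spd (fun x => frc c F1 (v + x)) e := by
    intro v e he
    obtain ⟨b, hb, hbe⟩ := exists_period_le hp he (inner ℝ v e)
    refine spd_shift_mono (h := frc c F1) hbe ?_
    have : (fun x => frc c F1 (b + x)) = frc c F1 := by
      funext x
      simp only [frc, hb x]
    rw [this]
    exact hsp e he
  obtain ⟨P, M, f, hP, hM, hfm, hμ, hfc⟩ := push_torus hc hp
  obtain ⟨a, ha, -, h2⟩ := core hM hM hμ ⟨F1, hF1, fun e he => by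
    rw [ae_map_iff hfm.aemeasurable (measurableSet_spd F1 e)]
    refine ae_of_all _ fun ω => ?_
    obtain ⟨v, hv⟩ := hfc ω
    rw [hv]
    exact hspv v e he⟩
  obtain ⟨ω, hω⟩ := (ae_of_ae_map hfm.aemeasurable h2).exists
  obtain ⟨v, hv⟩ := hfc ω
  rw [hv] at hω
  refine ⟨a, fun e he => ⟨ha e he, homog_of_asym hc he ?_⟩⟩
  have hspF : ∀ w : V, Spd (fun x => frc c F (w + x)) e := fun w =>
    spd_mono (fun x => by simp only [frc]; linarith) (hspv w e he)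
  have hA : Asym (fun x => frc c F (v + x)) e (a e) := by
    refine hω e he ?_
    refine spd2_of_shift (hspF v) (y := -e) ?_ ?_
    · rw [inner_neg_left, real_inner_self_eq_norm_sq, he]; norm_num
    · have := hspF (v + -e)
      simp only [add_assoc] at this
      exact this
  have hsh : ∀ b, Prd c b → (fun x => frc c F (v + b + x)) = fun x => frc c F (v + x) := by
    intro b hb
    funext x
    have := hb (v + x)
    simp only [frc]
    rw [← this]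
    congr 2
    abel
  obtain ⟨b1, hb1, hb1e⟩ := exists_period_le hp he (-inner ℝ v e)
  obtain ⟨b2, hb2, hb2e⟩ := exists_period_ge hp he (-inner ℝ v e)
  refine asym_sandwich (y1 := v + b1) (y2 := v + b2) ?_ ?_ ?_ ?_
  · rw [inner_add_left]; linarith
  · rw [inner_add_left]; linarith
  · rw [hsh b1 hb1]; exact hA
  · rw [hsh b2 hb2]; exact hA

end Pool.Agent.FCF.Last
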