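import Pool.Agent.FCF.FinDefs
import Pool.Agent.FCF.FinShift
import Pool.Agent.FCF.EnvTop

/-!
# FCF / FinPush: the law of a stationary ergodic medium on the space of environments
-/

set_option autoImplicit false

namespace Pool.Agent.FCF.Last

open Pool.Agent.VSC (V J LowJet)
open Set Metric MeasureTheory Filter Topology EnvT TopologicalSpace

/-- Positive speed for the medium and for one shifted backwards. -/
theorem spd2_of_shift {h : V → ℝ} {e : V} (h0 : Spd h e) {y : V} (hy : inner ℝ y e < 0)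
    (h1 : Spd (fun x => h (y + x)) e) : Spd2 h e := by
  refine ⟨h0, inner ℝ y e, hy, ?_⟩
  obtain ⟨g, hg, T0, hT⟩ := h1
  refine ⟨g / 2, by positivity, max T0 (2 * -inner ℝ y e / g), fun t ht x hx => ?_⟩
  have ht0 : T0 ≤ t := (le_max_left _ _).trans ht
  have ht1 : 2 * -inner ℝ y e / g ≤ t := (le_max_right _ _).trans ht
  rw [div_le_iff₀ hg] at ht1
  have h2 : x - y ∈ E (fun x => h (y + x)) (HP e 0) t := by
    refine hT t ht0 ?_
    simp only [HP, mem_ofPred_eq, inner_sub_left] at hx ⊢
    linarith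
  rw [mem_E_HP_shift, add_sub_cancel] at h2
  exact h2

theorem bddLip_continuous {c : V → ℝ} (hc : BddLip c) : Continuous c := by
  obtain ⟨L, hL⟩ := hc.lip
  have : LipschitzWith (Real.toNNReal (max L 0)) c := by
    refine LipschitzWith.of_dist_le_mul fun x y => ?_
    rw [Real.dist_eq, dist_eq_norm, Real.coe_toNNReal _ (le_max_right _ _)]
    exact (hL x y).trans (mul_le_mul_of_nonneg_right (le_max_left _ _) (norm_nonneg _))
  exact this.continuous

/-- The bound by `n` is determined by a dense sequence. -/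
theorem bound_iff {c : V → ℝ} (hc : Continuous c) (n : ℝ) :
    ((∀ x, |c x| ≤ n) ∧ ∀ x y, |c x - c y| ≤ n * ‖x - y‖) ↔
      ((∀ i : ℕ, |c (denseSeq V i)| ≤ n) ∧
        ∀ i j : ℕ, |c (denseSeq V i) - c (denseSeq V j)| ≤ n * ‖denseSeq V i - denseSeq V j‖) := by
  constructor
  · rintro ⟨h1, h2⟩
    exact ⟨fun i => h1 _, fun i j => h2 _ _⟩
  · rintro ⟨h1, h2⟩
    have hd : DenseRange (denseSeq V) := denseRange_denseSeq V
    constructor
    · intro x
      exact hd.induction_on (p := fun x => |c x| ≤ n) x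
        (isClosed_le (by fun_prop) continuous_const) h1
    · intro x y
      exact hd.induction_on₂ (p := fun x y => |c x - c y| ≤ n * ‖x - y‖)
        (isClosed_le (by fun_prop) (by fun_prop)) h2 x y

/-- The law of a stationary ergodic medium. -/
theorem push_random {Ω : Type*} [MeasurableSpace Ω] {P : Measure Ω} {τ : V → Ω → Ω}
    {c : Ω → V → ℝ} (h : StatErg P τ c) :
    ∃ (M : ℝ) (f : Ω → EnvT M M), 0 ≤ M ∧ Measurable f ∧ Erg (P.map f) ∧
      ∀ᵐ ω ∂P, (f ω).1 = c ω := by
  classical
  have hP := h.prob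
  set G : ℕ → Set Ω := fun n => {ω | (∀ x, |c ω x| ≤ n) ∧ ∀ x y, |c ω x - c ω y| ≤ n * ‖x - y‖}
    with hG
  have hGm : ∀ n, MeasurableSet (G n) := by
    intro n
    have : G n = (⋂ i : ℕ, {ω | |c ω (denseSeq V i)| ≤ n}) ∩ ⋂ i : ℕ, ⋂ j : ℕ,
        {ω | |c ω (denseSeq V i) - c ω (denseSeq V j)| ≤ n * ‖denseSeq V i - denseSeq V j‖} := by
      ext ω
      simp only [hG, mem_inter_iff, mem_iInter]
      exact bound_iff (bddLip_continuous (h.reg ω)) n
    rw [this]
    refine MeasurableSet.inter (MeasurableSet.iInter fun i => ?_)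
      (MeasurableSet.iInter fun i => MeasurableSet.iInter fun j => ?_)
    · exact measurableSet_le (h.meas _).abs measurable_const
    · exact measurableSet_le ((h.meas _).sub (h.meas _)).abs measurable_const
  have hGinv : ∀ n y, τ y ⁻¹' G n = G n := by
    intro n y
    ext ω
    simp only [hG, mem_preimage, mem_ofPred_eq, h.shift]
    constructor
    · rintro ⟨h1, h2⟩
      refine ⟨fun x => ?_, fun x z => ?_⟩
      · simpa using h1 (x - y)
      · simpa using h2 (x - y) (z - y)
    · rintro ⟨h1, h2⟩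
      refine ⟨fun x => h1 _, fun x z => ?_⟩
      simpa using h2 (x + y) (z + y)
  have hex : ∃ n, P (G n) = 1 := by
    by_contra hcon
    push Not at hcon
    have h0 : ∀ n, P (G n) = 0 := fun n => (h.erg (G n) (hGm n) (hGinv n)).resolve_right (hcon n)
    have hU : (⋃ n, G n) = univ := by
      refine eq_univ_of_forall fun ω => ?_
      obtain ⟨⟨M, hM⟩, ⟨L, hL⟩⟩ := h.reg ω
      obtain ⟨n, hn⟩ := exists_nat_ge (max M L)
      refine mem_iUnion.2 ⟨n, fun x => (hM x).trans ((le_max_left _ _).trans hn), fun x y => ?_⟩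
      exact (hL x y).trans (mul_le_mul_of_nonneg_right ((le_max_right _ _).trans hn)
        (norm_nonneg _))
    have h1 : P (⋃ n, G n) = 0 := measure_iUnion_null h0
    rw [hU, measure_univ] at h1
    exact one_ne_zero h1
  obtain ⟨n, hn⟩ := hex
  set z : EnvT (n : ℝ) (n : ℝ) := ⟨fun _ => 0, fun x => by simp, fun x y => by
    simp only [sub_self, abs_zero]; positivity⟩ with hz
  set f : Ω → EnvT (n : ℝ) (n : ℝ) := fun ω =>
    if hω : ω ∈ G n then ⟨c ω, hω.1, hω.2⟩ else z with hf
  have hfm : Measurable f := by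
    rw [measurable_iff]
    intro x
    have : (fun ω => (f ω).1 x) = (G n).indicator (fun ω => c ω x) := by
      funext ω
      by_cases hω : ω ∈ G n
      · simp [hf, hω]
      · simp [hf, hω, hz]
    rw [this]
    exact (h.meas x).indicator (hGm n)
  have hsh : ∀ y ω, shift y (f ω) = f (τ y ω) := by
    intro y ω
    have hiff : τ y ω ∈ G n ↔ ω ∈ G n := by
      rw [← mem_preimage, hGinv]
    by_cases hω : ω ∈ G n
    · have hω' := hiff.2 hω
      apply Subtype.ext
      funext x
      simp only [hf, dif_pos hω, dif_pos hω', shift]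
      rw [h.shift, add_comm]
    · have hω' : τ y ω ∉ G n := fun h' => hω (hiff.1 h')
      apply Subtype.ext
      funext x
      simp only [hf, dif_neg hω, dif_neg hω', shift, hz]
  refine ⟨n, f, Nat.cast_nonneg n, hfm, ⟨?_, fun y => ?_, fun B hB hBinv => ?_⟩, ?_⟩
  · exact Measure.isProbabilityMeasure_map hfm.aemeasurable
  · have hsm : Measurable (shift y : EnvT (n : ℝ) (n : ℝ) → EnvT (n : ℝ) (n : ℝ)) := by
      have := continuous_shift (M := (n : ℝ)) (L := (n : ℝ))
      exact (this.comp (continuous_const.prodMk continuous_id)).measurable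
    refine ⟨hsm, ?_⟩
    rw [Measure.map_map hsm hfm]
    have : (shift y : EnvT (n : ℝ) (n : ℝ) → _) ∘ f = f ∘ τ y := funext (hsh y)
    rw [this, ← Measure.map_map hfm (h.pres y).measurable, (h.pres y).map_eq]
  · rw [Measure.map_apply hfm hB]
    refine h.erg _ (hfm hB) fun y => ?_
    ext ω
    have h1 := congrArg (fun S : Set (EnvT (n : ℝ) (n : ℝ)) => f ω ∈ S) (hBinv y)
    simp only [mem_preimage, hsh, eq_iff_iff] at h1 ⊢
    exact h1
  · have h1 : ∀ᵐ ω ∂P, ω ∈ G n := by
      rw [ae_iff]
      exact (prob_compl_eq_zero_iff (hGm n)).2 hn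
    filter_upwards [h1] with ω hω
    simp only [hf, dif_pos hω]

end Pool.Agent.FCF.Last
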