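import Pool.Agent.FCF.FinPush

/-!
# FCF / FinTorus: the law of a uniformly random translate of a periodic medium
-/

set_option autoImplicit false

namespace Pool.Agent.FCF.Last

open Pool.Agent.VSC (V J LowJet)
open Set Metric MeasureTheory Filter Topology EnvT TopologicalSpace

/-- Period vectors. -/
def Prd (c : V → ℝ) (b : V) : Prop := ∀ x, c (b + x) = c x

theorem Prd.add {c : V → ℝ} {a b : V} (ha : Prd c a) (hb : Prd c b) : Prd c (a + b) := by
  intro x
  rw [add_assoc, ha, hb]

theorem Prd.neg {c : V → ℝ} {a : V} (ha : Prd c a) : Prd c (-a) := by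
  intro x
  have := ha (-a + x)
  rw [add_neg_cancel_left] at this
  exact this.symm

theorem Prd.zero (c : V → ℝ) : Prd c 0 := fun x => by rw [zero_add]

theorem Prd.nsmul {c : V → ℝ} {a : V} (ha : Prd c a) (n : ℕ) : Prd c (n • a) := by
  induction n with
  | zero => rw [zero_smul]; exact Prd.zero c
  | succ n ih => rw [succ_nsmul]; exact ih.add ha

theorem Prd.zsmul {c : V → ℝ} {a : V} (ha : Prd c a) (n : ℤ) : Prd c ((n : ℝ) • a) := by
  rcases Int.eq_nat_or_neg n with ⟨k, hk | hk⟩
  · have := ha.nsmul k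
    rw [hk]
    simpa [← Nat.cast_smul_eq_nsmul ℝ] using this
  · have := (ha.nsmul k).neg
    rw [hk]
    simpa [← Nat.cast_smul_eq_nsmul ℝ] using this

theorem span_pair_eq_top {b₁ b₂ : V} (hli : LinearIndependent ℝ ![b₁, b₂]) :
    Submodule.span ℝ ({b₁, b₂} : Set V) = ⊤ := by
  have h := hli.span_eq_top_of_card_eq_finrank (by simp)
  rw [← h]
  congr 1
  simp [Matrix.range_cons, Matrix.range_empty, Set.pair_comm]

theorem exists_coord {b₁ b₂ : V} (hli : LinearIndependent ℝ ![b₁, b₂]) (y : V) :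
    ∃ s t : ℝ, s • b₁ + t • b₂ = y := by
  have h : y ∈ Submodule.span ℝ ({b₁, b₂} : Set V) := by
    rw [span_pair_eq_top hli]; trivial
  exact Submodule.mem_span_pair.1 h

theorem exists_period_le {c : V → ℝ} (hp : IsPer c) {e : V} (he : ‖e‖ = 1) (r : ℝ) :
    ∃ b, Prd c b ∧ inner ℝ b e ≤ r := by
  obtain ⟨b₁, b₂, hli, hb⟩ := hp
  have h1 : Prd c b₁ := fun x => by rw [add_comm]; exact (hb x).1
  have h2 : Prd c b₂ := fun x => by rw [add_comm]; exact (hb x).2
  have key : ∀ b : V, Prd c b → inner ℝ b e ≠ 0 → ∃ b, Prd c b ∧ inner ℝ b e ≤ r := by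
    intro b hb hne
    rcases lt_or_gt_of_ne hne with hneg | hpos
    · obtain ⟨n, hn⟩ := exists_nat_ge (r / inner ℝ b e)
      refine ⟨((n : ℤ) : ℝ) • b, hb.zsmul n, ?_⟩
      rw [real_inner_smul_left, Int.cast_natCast]
      rwa [div_le_iff_of_neg hneg] at hn
    · obtain ⟨n, hn⟩ := exists_nat_ge (-r / inner ℝ b e)
      refine ⟨((-(n : ℤ) : ℤ) : ℝ) • b, hb.zsmul _, ?_⟩
      rw [real_inner_smul_left, Int.cast_neg, Int.cast_natCast]
      rw [div_le_iff₀ hpos] at hn
      linarith
  by_cases hb1 : inner ℝ b₁ e = 0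
  · by_cases hb2 : inner ℝ b₂ e = 0
    · exfalso
      obtain ⟨s, t, hst⟩ := exists_coord hli e
      have h3 : inner ℝ e e = (0 : ℝ) := by
        nth_rw 1 [← hst]
        rw [inner_add_left, real_inner_smul_left, real_inner_smul_left, hb1, hb2]
        ring
      rw [real_inner_self_eq_norm_sq, he] at h3
      norm_num at h3
    · exact key b₂ h2 hb2
  · exact key b₁ h1 hb1

theorem exists_period_ge {c : V → ℝ} (hp : IsPer c) {e : V} (he : ‖e‖ = 1) (r : ℝ) :
    ∃ b, Prd c b ∧ r ≤ inner ℝ b e := by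
  obtain ⟨b, hb, h⟩ := exists_period_le hp (e := -e) (by rwa [norm_neg]) (-r)
  refine ⟨b, hb, ?_⟩
  rw [inner_neg_right] at h
  linarith

/-- Representative in `[0, 1)`. -/
noncomputable def rep (t : UnitAddCircle) : ℝ := (AddCircle.equivIco 1 0 t : ℝ)

theorem coe_rep (t : UnitAddCircle) : (rep t : UnitAddCircle) = t := AddCircle.coe_equivIco

theorem measurable_rep : Measurable rep :=
  measurable_subtype_coe.comp (AddCircle.measurableEquivIco (1 : ℝ) 0).measurable

theorem rep_add (t : UnitAddCircle) (s : ℝ) :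
    ∃ n : ℤ, rep (t + (s : UnitAddCircle)) = rep t + s + n := by
  have h : ((rep (t + (s : UnitAddCircle)) - (rep t + s) : ℝ) : UnitAddCircle) = 0 := by
    rw [AddCircle.coe_sub, AddCircle.coe_add, coe_rep, coe_rep, sub_self]
  obtain ⟨n, hn⟩ := (AddCircle.coe_eq_zero_iff 1).1 h
  refine ⟨n, ?_⟩
  simp only [zsmul_eq_mul, mul_one] at hn
  linarith

theorem push_torus {c : V → ℝ} (hc : BddLip c) (hp : IsPer c) :
    ∃ (P : Measure (UnitAddCircle × UnitAddCircle)) (M : ℝ)
      (f : UnitAddCircle × UnitAddCircle → EnvT M M), IsProbabilityMeasure P ∧ 0 ≤ M ∧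
      Measurable f ∧ Erg (P.map f) ∧ ∀ ω, ∃ v : V, (f ω).1 = fun x => c (v + x) := by
  obtain ⟨b₁, b₂, hli, hb⟩ := hp
  have hp1 : Prd c b₁ := fun x => by rw [add_comm]; exact (hb x).1
  have hp2 : Prd c b₂ := fun x => by rw [add_comm]; exact (hb x).2
  obtain ⟨⟨M0, hM0⟩, ⟨L0, hL0⟩⟩ := id hc
  set M : ℝ := max 0 (max M0 L0) with hM
  have hMM : M0 ≤ M := (le_max_left _ _).trans (le_max_right _ _)
  have hML : L0 ≤ M := (le_max_right _ _).trans (le_max_right _ _)
  set g : V → EnvT M M := fun v => ⟨fun x => c (v + x), fun x => (hM0 _).trans hMM, fun x y => by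
    refine (hL0 _ _).trans ?_
    rw [add_sub_add_left_eq_sub]
    exact mul_le_mul_of_nonneg_right hML (norm_nonneg _)⟩ with hg
  set f : UnitAddCircle × UnitAddCircle → EnvT M M :=
    fun ω => g (rep ω.1 • b₁ + rep ω.2 • b₂) with hf
  have hfm : Measurable f := by
    rw [measurable_iff]
    intro x
    have hcc := bddLip_continuous hc
    refine hcc.measurable.comp ?_
    exact (((measurable_rep.comp measurable_fst).smul_const b₁).add
      ((measurable_rep.comp measurable_snd).smul_const b₂)).add_const x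
  have hsh : ∀ (s t : ℝ) (ω : UnitAddCircle × UnitAddCircle),
      shift (s • b₁ + t • b₂) (f ω) = f (ω + ((s : UnitAddCircle), (t : UnitAddCircle))) := by
    intro s t ω
    apply Subtype.ext
    funext x
    obtain ⟨n, hn⟩ := rep_add ω.1 s
    obtain ⟨m, hm⟩ := rep_add ω.2 t
    show c (rep ω.1 • b₁ + rep ω.2 • b₂ + (s • b₁ + t • b₂ + x)) =
      c (rep (ω.1 + (s : UnitAddCircle)) • b₁ + rep (ω.2 + (t : UnitAddCircle)) • b₂ + x)
    rw [hn, hm]
    have h1 := (hp1.zsmul n).add (hp2.zsmul m)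
      (rep ω.1 • b₁ + rep ω.2 • b₂ + (s • b₁ + t • b₂ + x))
    rw [← h1]
    congr 1
    module
  set P : Measure (UnitAddCircle × UnitAddCircle) :=
    (volume : Measure UnitAddCircle).prod (volume : Measure UnitAddCircle) with hP
  have hprob : IsProbabilityMeasure P := by
    constructor
    rw [hP, ← univ_prod_univ, Measure.prod_prod, UnitAddCircle.measure_univ, mul_one]
  have hinv : P.IsAddRightInvariant := by rw [hP]; infer_instance
  refine ⟨P, M, f, hprob, le_max_left _ _, hfm, ⟨?_, fun y => ?_, fun B hB hBinv => ?_⟩,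
    fun ω => ⟨_, rfl⟩⟩
  · exact Measure.isProbabilityMeasure_map hfm.aemeasurable
  · have hsm : Measurable (shift y : EnvT M M → EnvT M M) := by
      have := continuous_shift (M := M) (L := M)
      exact (this.comp (continuous_const.prodMk continuous_id)).measurable
    obtain ⟨s, t, hst⟩ := exists_coord hli y
    refine ⟨hsm, ?_⟩
    rw [Measure.map_map hsm hfm]
    have h2 : (shift y : EnvT M M → _) ∘ f =
        f ∘ fun ω => ω + ((s : UnitAddCircle), (t : UnitAddCircle)) := by
      funext ω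
      rw [← hst]
      exact hsh s t ω
    have h3 : MeasurePreserving (fun ω : UnitAddCircle × UnitAddCircle =>
        ω + ((s : UnitAddCircle), (t : UnitAddCircle))) P P := measurePreserving_add_right P _
    rw [h2, ← Measure.map_map hfm h3.measurable, h3.map_eq]
  · rw [Measure.map_apply hfm hB]
    by_cases hne : (f ⁻¹' B).Nonempty
    · right
      obtain ⟨ω0, hω0⟩ := hne
      have : f ⁻¹' B = univ := by
        refine eq_univ_of_forall fun ω => ?_
        have h4 : ω0 + ((rep (ω.1 - ω0.1) : UnitAddCircle), (rep (ω.2 - ω0.2) : UnitAddCircle)) =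
            ω := by
          rw [coe_rep, coe_rep]
          ext <;> simp
        rw [mem_preimage, ← h4, ← hsh, ← mem_preimage, hBinv]
        exact hω0
      rw [this, measure_univ]
    · left
      rw [not_nonempty_iff_eq_empty.1 hne, measure_empty]

end Pool.Agent.FCF.Last
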