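import Pool.Agent.FCF.FinShift
import Pool.Agent.FCF.EnvEvent

/-!
# FCF / FinZero: zero-one law for the positive speed property

`Spd (frc c F) e` for the medium shifted by `y` depends monotonically on `y · e`
(`spd_shift_mono`), and all these events have the same probability; the event that it holds for all
shifts `-n e`, `n ∈ ℕ`, is strictly invariant, so it has probability `0` or `1`, and its probability
is the common one.
-/

set_option autoImplicit false

namespace Pool.Agent.FCF.Last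

open Pool.Agent.VSC (V J LowJet)
open Set Metric MeasureTheory Filter Topology EnvT

theorem measurableSet_spd {M L : ℝ} (F : ℝ) (e : V) :
    MeasurableSet {c : EnvT M L | Spd (frc c.1 F) e} := by
  have h1 : {c : EnvT M L | Spd (frc c.1 F) e} =
      ⋃ n : ℕ, ⋃ m : ℕ, {c : EnvT M L | ∀ t ∈ Ici (m : ℝ),
        HP e (1 / ((n : ℝ) + 1) * t) ⊆ E (frc c.1 F) (HP e 0) t} := by
    ext c
    simp only [mem_ofPred_eq, mem_iUnion, mem_Ici]
    constructor
    · rintro ⟨g, hg, T0, hT⟩
      obtain ⟨n, hn⟩ := exists_nat_one_div_lt hg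
      obtain ⟨m, hm⟩ := exists_nat_ge T0
      refine ⟨n, m, fun t ht => (HP_mono e ?_).trans (hT t (hm.trans ht))⟩
      have ht0 : 0 ≤ t := le_trans (Nat.cast_nonneg m) ht
      exact mul_le_mul_of_nonneg_right hn.le ht0
    · rintro ⟨n, m, h⟩
      exact ⟨1 / ((n : ℝ) + 1), by positivity, m, fun t ht => h t ht⟩
  rw [h1]
  refine MeasurableSet.iUnion fun n => MeasurableSet.iUnion fun m => IsClosed.measurableSet ?_
  have hcl : IsClosed (HP e 0) := isClosed_le (by fun_prop) (by fun_prop)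
  exact isClosed_event_flow F hcl (fun t => HP e (1 / ((n : ℝ) + 1) * t)) (Ici (m : ℝ))

theorem frc_shift {M L : ℝ} (c : EnvT M L) (F : ℝ) (y : V) :
    frc (shift y c).1 F = fun x => frc c.1 F (y + x) := rfl

theorem spd_zero_one {M L : ℝ} {μ : Measure (EnvT M L)} (hμ : Erg μ) (F : ℝ) {e : V}
    (he : ‖e‖ = 1) :
    (∀ᵐ c ∂μ, Spd (frc c.1 F) e) ∨ (∀ᵐ c ∂μ, ¬ Spd (frc c.1 F) e) := by
  have := hμ.prob
  set A : Set (EnvT M L) := {c | Spd (frc c.1 F) e} with hA
  have hAm : MeasurableSet A := measurableSet_spd F e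
  have hee : inner ℝ e e = (1 : ℝ) := by rw [real_inner_self_eq_norm_sq, he]; norm_num
  set y : ℕ → V := fun n => (-(n : ℝ)) • e with hy
  have hye : ∀ n, inner ℝ (y n) e = -(n : ℝ) := by
    intro n
    simp only [hy]
    rw [real_inner_smul_left, hee, mul_one]
  set B : Set (EnvT M L) := ⋂ n : ℕ, shift (y n) ⁻¹' A with hB
  have hBm : MeasurableSet B :=
    MeasurableSet.iInter fun n => (hμ.inv (y n)).measurable hAm
  -- monotonicity
  have hmono : ∀ (v w : V), inner ℝ v e ≤ inner ℝ w e → ∀ c : EnvT M L,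
      Spd (frc (shift v c).1 F) e → Spd (frc (shift w c).1 F) e := by
    intro v w hvw c hc
    exact spd_shift_mono (h := frc c.1 F) hvw hc
  have hBinv : ∀ v : V, shift v ⁻¹' B = B := by
    intro v
    ext c
    simp only [hB, mem_iInter, mem_preimage, hA, mem_ofPred_eq, shift_add]
    constructor
    · intro h n
      obtain ⟨m, hm⟩ := exists_nat_ge (inner ℝ v e + n)
      refine hmono (v + y m) (y n) ?_ c (h m)
      rw [inner_add_left, hye, hye]
      linarith
    · intro h n
      obtain ⟨m, hm⟩ := exists_nat_ge (-inner ℝ v e + n)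
      refine hmono (y m) (v + y n) ?_ c (h m)
      rw [inner_add_left, hye, hye]
      linarith
  -- antitone in `n`
  have hanti : Antitone fun n : ℕ => shift (y n) ⁻¹' A := by
    intro n m hnm c hc
    refine hmono (y m) (y n) ?_ c hc
    rw [hye, hye]
    have : (n : ℝ) ≤ m := by exact_mod_cast hnm
    linarith
  have hmeas : ∀ n, μ (shift (y n) ⁻¹' A) = μ A := fun n =>
    (hμ.inv (y n)).measure_preimage hAm.nullMeasurableSet
  have hBA : μ B = μ A := by
    have h1 : Tendsto (fun n => μ (shift (y n) ⁻¹' A)) atTop (𝓝 (μ B)) :=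
      tendsto_measure_iInter_atTop
        (fun n => ((hμ.inv (y n)).measurable hAm).nullMeasurableSet) hanti
        ⟨0, measure_ne_top _ _⟩
    simp only [hmeas] at h1
    exact tendsto_nhds_unique h1 tendsto_const_nhds
  rcases hμ.erg B hBm hBinv with h | h
  · right
    rw [hBA] at h
    rw [ae_iff]
    simpa [hA] using h
  · left
    rw [hBA] at h
    have : ∀ᵐ c ∂μ, c ∈ A := by
      rw [ae_iff]
      have h2 := prob_compl_eq_zero_iff (μ := μ) hAm |>.2 h
      exact h2
    exact this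

/-- Uniform strict inequality implies a uniform smaller force. -/
theorem exists_force {M L F : ℝ} {μ : Measure (EnvT M L)} (hμ : Erg μ)
    (hyp : ∀ e : ℕ → V, (∀ n, ‖e n‖ = 1) →
      ¬ ∀ᵐ c ∂μ, ∀ n : ℕ, ¬ Spd (frc c.1 (F - 1 / ((n : ℝ) + 1))) (e n)) :
    ∃ F1 : ℝ, F1 < F ∧ ∀ e : V, ‖e‖ = 1 → ∀ᵐ c ∂μ, Spd (frc c.1 F1) e := by
  by_contra hcon
  push Not at hcon
  have hch : ∀ n : ℕ, ∃ e : V, ‖e‖ = 1 ∧ ∀ᵐ c ∂μ, ¬ Spd (frc c.1 (F - 1 / ((n : ℝ) + 1))) e := by
    intro n
    have hn : 0 < 1 / ((n : ℝ) + 1) := by positivity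
    obtain ⟨e, he, h⟩ := hcon (F - 1 / ((n : ℝ) + 1)) (by linarith)
    rcases spd_zero_one hμ (F - 1 / ((n : ℝ) + 1)) he with h1 | h1
    · exact absurd h1 (not_eventually.2 h)
    · exact ⟨e, he, h1⟩
  choose e he hne using hch
  exact hyp e he (ae_all_iff.2 hne)

end Pool.Agent.FCF.Last
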