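import Pool.Agent.FCF.FlowBasic

/-!
# FCF / Nbhd: variable neighbourhoods of subflows (FCF_PROOF.md, 1.9)

`Exp2 φ x0 t0 b q Y`: second order expansion of `φ` at `(x0,t0)` in the past.
PROOF of `thick_subAt`: see FCF_PROOF.md 1.9. Witness `x0 ∈ S_{t0}`, `‖y0 - x0‖ ≤ φ x0 t0 =: φ0`. Jet `(a,p,X)` of the thickened set at `(y0,t0)`, `p ≠ 0`.
If `φ0 = 0` then `y0 = x0` and `S ⊆ Thick S φ` (`φ ≥ 0`) near, so `(a,p,X)` is a jet of `S`. If `φ0 > 0`: the disc `closedBall x0 φ0` is in the slice of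
`Thick S φ` at time `t0`, so the jet gives `‖y0 - x0‖ = φ0`, `y0 = x0 + φ0 w`, `p = -‖p‖ w`. For `v ∈ V`, `th = v.(x - x0)`, `y(x,t) = x + φ(x,t)(cos th w + sin th J w)`:
`(x,t) ∈ S → (y(x,t), t) ∈ Thick`. Inserting: lower jet of `S` at `(x0,t0)`:
`a' = a - ‖p‖ b`, `p' = -‖p‖ (w + q)`, `X' = -‖p‖ (Y - φ0 v⊗v) + X(L.,L.)`, `L = id + w⊗q + φ0 Jw⊗v`. Choose `xi' = J(w+q)/‖w+q‖`, `cos β = Jw . xi'`,
`v = ((1 - cos β)/φ0) xi'`: `L xi' = Jw`. `sin β ≤ ‖q‖`, `(1 - cos β)^2/φ0 ≤ ‖q‖^4/φ0`. (i) for `S` gives the claim.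
Left accessibility: `(x_n,t_n) → (x0,t0)` in `S`, `y_n = x_n + min(1, φ(x_n,t_n)/φ0)(y0 - x0)` (or `y_n = x_n` if `φ0 = 0`).
-/

set_option autoImplicit false

namespace Pool.Agent.FCF

open Pool.Agent.VSC (V J LowJet)
open Set Metric Filter Topology
open Asymptotics

/-- The thickened set. -/
def Thick (S : Set (V × ℝ)) (φ : V → ℝ → ℝ) : Set (V × ℝ) :=
  {z | ∃ x : V, (x, z.2) ∈ S ∧ ‖z.1 - x‖ ≤ φ x z.2}

/-- Second order expansion (in the past) of `φ` at `(x0, t0)`. -/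
def Exp2 (φ : V → ℝ → ℝ) (x0 : V) (t0 b : ℝ) (q : V) (Y : V →L[ℝ] V →L[ℝ] ℝ) : Prop :=
  ∀ eps : ℝ, 0 < eps → ∃ r : ℝ, 0 < r ∧ ∀ (x : V) (t : ℝ), ‖x - x0‖ < r → t0 - r < t → t ≤ t0 →
    |φ x t - φ x0 t0 - b * (t - t0) - inner ℝ q (x - x0) - (1 / 2) * Y (x - x0) (x - x0)|
      ≤ eps * (|t - t0| + ‖x - x0‖ ^ 2)

private theorem Nbhd_ev {x0 : V} {t0 : ℝ} {P : V × ℝ → Prop} :
    (∀ᶠ z in 𝓝[{z : V × ℝ | z.2 ≤ t0}] (x0, t0), P z) ↔
      ∃ r : ℝ, 0 < r ∧ ∀ (x : V) (t : ℝ), ‖x - x0‖ < r → t0 - r < t → t ≤ t0 → P (x, t) := by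
  rw [Filter.eventually_iff, Metric.mem_nhdsWithin_iff]
  constructor
  · rintro ⟨r, hr, h⟩
    refine ⟨r, hr, fun x t hx ht ht' => ?_⟩
    refine h ⟨?_, ht'⟩
    rw [Metric.mem_ball, Prod.dist_eq, max_lt_iff]
    refine ⟨by rw [dist_eq_norm]; exact hx, ?_⟩
    rw [Real.dist_eq, abs_lt]
    constructor
    · show -r < t - t0
      linarith
    · show t - t0 < r
      linarith
  · rintro ⟨r, hr, h⟩
    refine ⟨r, hr, ?_⟩
    rintro ⟨x, t⟩ ⟨h1, h2⟩
    rw [Metric.mem_ball, Prod.dist_eq, max_lt_iff] at h1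
    obtain ⟨h3, h4⟩ := h1
    rw [dist_eq_norm] at h3
    rw [Real.dist_eq, abs_lt] at h4
    have h5 : -r < t - t0 := h4.1
    exact h x t h3 (by linarith) h2

private theorem Nbhd_inner_J {w : V} (hw : ‖w‖ = 1) (u : V) :
    u = (inner ℝ u w : ℝ) • w + (inner ℝ u (J w) : ℝ) • J w := by
  have h : w 0 ^ 2 + w 1 ^ 2 = 1 := by
    have h1 : ‖w‖ ^ 2 = 1 := by rw [hw]; norm_num
    rw [EuclideanSpace.norm_sq_eq, Fin.sum_univ_two] at h1
    simpa [sq_abs] using h1
  have h2 : (inner ℝ u w : ℝ) = u 0 * w 0 + u 1 * w 1 := by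
    rw [PiLp.inner_apply, Fin.sum_univ_two]
    simp [mul_comm]
  have h3 : (inner ℝ u (J w) : ℝ) = -(u 0 * w 1) + u 1 * w 0 := by
    rw [PiLp.inner_apply, Fin.sum_univ_two, Pool.Agent.VSC.J_zero_apply,
      Pool.Agent.VSC.J_one_apply]
    simp [mul_comm]
  rw [h2, h3]
  ext i
  fin_cases i
  · show u 0 = (u 0 * w 0 + u 1 * w 1) * w 0 + (-(u 0 * w 1) + u 1 * w 0) * (J w) 0
    rw [Pool.Agent.VSC.J_zero_apply]
    linear_combination (-(u 0)) * h
  · show u 1 = (u 0 * w 0 + u 1 * w 1) * w 1 + (-(u 0 * w 1) + u 1 * w 0) * (J w) 1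
    rw [Pool.Agent.VSC.J_one_apply]
    linear_combination (-(u 1)) * h

/-- The linear part. -/
private noncomputable def Nbhd_L (w q v : V) (f : ℝ) : V →L[ℝ] V :=
  ContinuousLinearMap.id ℝ V + (innerSL ℝ q).smulRight w + f • (innerSL ℝ v).smulRight (J w)

private theorem Nbhd_L_apply (w q v : V) (f : ℝ) (d : V) :
    Nbhd_L w q v f d = d + (inner ℝ q d : ℝ) • w + f • ((inner ℝ v d : ℝ) • J w) := rfl

/-- The quadratic form of the transformed jet. -/
private noncomputable def Nbhd_X (P : ℝ) (w q v : V) (f : ℝ) (X Y : V →L[ℝ] V →L[ℝ] ℝ) :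
    V →L[ℝ] V →L[ℝ] ℝ :=
  -(P • (Y - f • (innerSL ℝ v).smulRight (innerSL ℝ v))) +
    X.bilinearComp (Nbhd_L w q v f) (Nbhd_L w q v f)

private theorem Nbhd_X_apply (P : ℝ) (w q v : V) (f : ℝ) (X Y : V →L[ℝ] V →L[ℝ] ℝ) (d : V) :
    Nbhd_X P w q v f X Y d d = -(P * (Y d d - f * (inner ℝ v d : ℝ) ^ 2)) +
      X (Nbhd_L w q v f d) (Nbhd_L w q v f d) := by
  have : Nbhd_X P w q v f X Y d d = -(P * (Y d d - f * ((inner ℝ v d : ℝ) * (inner ℝ v d : ℝ)))) +
      X (Nbhd_L w q v f d) (Nbhd_L w q v f d) := rfl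
  rw [this]
  ring

private theorem Nbhd_jet {S : Set (V × ℝ)} {φ : V → ℝ → ℝ}
    (hφ0 : ∀ x t, 0 ≤ φ x t) {x0 w q v : V} {t0 a b P : ℝ} {X Y : V →L[ℝ] V →L[ℝ] ℝ}
    (hw : ‖w‖ = 1) (hj : LowJet (Thick S φ) (x0 + φ x0 t0 • w) t0 a (-(P • w)) X)
    (hexp : Exp2 φ x0 t0 b q Y) :
    LowJet S x0 t0 (a - P * b) (-(P • (w + q))) (Nbhd_X P w q v (φ x0 t0) X Y) := by
  set f0 := φ x0 t0 with hf0
  set l := 𝓝[{z : V × ℝ | z.2 ≤ t0}] (x0, t0) with hl
  let s : V × ℝ → ℝ := fun z => |z.2 - t0| + ‖z.1 - x0‖ ^ 2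
  let ρ : V × ℝ → ℝ := fun z => Real.sqrt (s z)
  have hs0 : ∀ z, 0 ≤ s z := fun z => by positivity
  have hρρ : ∀ z, ρ z * ρ z = s z := fun z => Real.mul_self_sqrt (hs0 z)
  have hsc : Continuous s := by fun_prop
  have hsT : Tendsto s l (𝓝 0) := by
    have h1 : Tendsto s (𝓝 (x0, t0)) (𝓝 (s (x0, t0))) := hsc.tendsto _
    have h2 : s (x0, t0) = 0 := by simp [s]
    rw [h2] at h1
    exact h1.mono_left nhdsWithin_le_nhds
  have hρT : Tendsto ρ l (𝓝 0) := by
    have h1 : Tendsto ρ l (𝓝 (Real.sqrt 0)) := (Real.continuous_sqrt.tendsto 0).comp hsT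
    rwa [Real.sqrt_zero] at h1
  let δ : V × ℝ → V := fun z => z.1 - x0
  let τ : V × ℝ → ℝ := fun z => z.2 - t0
  let θ : V × ℝ → ℝ := fun z => inner ℝ v (z.1 - x0)
  let Q : V × ℝ → ℝ := fun z => inner ℝ q (z.1 - x0)
  let YY : V × ℝ → ℝ := fun z => Y (z.1 - x0) (z.1 - x0)
  let D : V × ℝ → ℝ := fun z => φ z.1 z.2 - f0
  have Bδ : δ =O[l] ρ := by
    refine IsBigO.of_bound 1 (Filter.Eventually.of_forall fun z => ?_)
    rw [one_mul, Real.norm_of_nonneg (Real.sqrt_nonneg _)]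
    apply Real.le_sqrt_of_sq_le
    show ‖z.1 - x0‖ ^ 2 ≤ |z.2 - t0| + ‖z.1 - x0‖ ^ 2
    have := abs_nonneg (z.2 - t0)
    linarith
  have Bτ : τ =O[l] s := by
    refine IsBigO.of_bound 1 (Filter.Eventually.of_forall fun z => ?_)
    rw [one_mul, Real.norm_of_nonneg (hs0 z), Real.norm_eq_abs]
    show |z.2 - t0| ≤ |z.2 - t0| + ‖z.1 - x0‖ ^ 2
    have := sq_nonneg ‖z.1 - x0‖
    linarith
  have hss : s = fun z => ρ z * ρ z := funext fun z => (hρρ z).symm
  have Oρ : ρ =o[l] (fun _ => (1 : ℝ)) := (isLittleO_one_iff ℝ).2 hρT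
  have Bs : s =O[l] ρ := by
    rw [hss]
    have h1 := Oρ.isBigO.mul (isBigO_refl ρ l)
    simpa using h1
  have Bθ : θ =O[l] ρ := ((innerSL ℝ v).isBigO_comp δ l).trans Bδ
  have BQ : Q =O[l] ρ := ((innerSL ℝ q).isBigO_comp δ l).trans Bδ
  have BY : YY =O[l] s := by
    refine IsBigO.of_bound ‖Y‖ (Filter.Eventually.of_forall fun z => ?_)
    rw [Real.norm_of_nonneg (hs0 z)]
    refine (Y.le_opNorm₂ (z.1 - x0) (z.1 - x0)).trans ?_
    rw [mul_assoc]
    have h1 : ‖z.1 - x0‖ * ‖z.1 - x0‖ ≤ s z := by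
      show ‖z.1 - x0‖ * ‖z.1 - x0‖ ≤ |z.2 - t0| + ‖z.1 - x0‖ ^ 2
      have := abs_nonneg (z.2 - t0)
      nlinarith
    exact mul_le_mul_of_nonneg_left h1 (norm_nonneg Y)
  let E : V × ℝ → ℝ := fun z => φ z.1 z.2 - f0 - b * τ z - Q z - (1 / 2) * YY z
  have OE : E =o[l] s := by
    rw [isLittleO_iff]
    intro c hc
    obtain ⟨r, hr, h1⟩ := hexp c hc
    rw [hl, Nbhd_ev]
    refine ⟨r, hr, fun x t h2 h3 h4 => ?_⟩
    rw [Real.norm_of_nonneg (hs0 _)]
    exact h1 x t h2 h3 h4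
  have BDQ : (fun z => D z - Q z) =O[l] s := by
    have h1 : (fun z => D z - Q z) = fun z => b * τ z + (1 / 2) * YY z + E z := by
      funext z
      simp only [D, E]
      ring
    rw [h1]
    exact ((Bτ.const_mul_left b).add (BY.const_mul_left _)).add OE.isBigO
  have BD : D =O[l] ρ := by
    have h1 : D = fun z => (D z - Q z) + Q z := by
      funext z
      ring
    rw [h1]
    exact (BDQ.trans Bs).add BQ
  have Oss : (fun z => ρ z * s z) =o[l] s := by
    have h1 := Oρ.mul_isBigO (isBigO_refl s l)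
    simpa using h1
  have hθT : Tendsto θ l (𝓝 0) := (isLittleO_one_iff ℝ).1 (Bθ.trans_isLittleO Oρ)
  have hθ1 : ∀ᶠ z in l, |θ z| ≤ 1 := by
    have := hθT.eventually (Metric.closedBall_mem_nhds (0 : ℝ) one_pos)
    filter_upwards [this] with z hz
    simpa using hz
  have Bθ2 : (fun z => θ z ^ 2) =O[l] s := by
    rw [hss]
    have := Bθ.mul Bθ
    simpa [sq] using this
  have BC1 : (fun z => Real.cos (θ z) - 1) =O[l] s := by
    refine IsBigO.trans (IsBigO.of_bound 1 (Filter.Eventually.of_forall fun z => ?_)) Bθ2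
    rw [one_mul, Real.norm_of_nonneg (sq_nonneg _), Real.norm_eq_abs, abs_le]
    have h1 := Real.one_sub_sq_div_two_le_cos (x := θ z)
    have h2 := Real.cos_le_one (θ z)
    have h3 := sq_nonneg (θ z)
    constructor <;> linarith
  have OC2 : (fun z => Real.cos (θ z) - 1 + θ z ^ 2 / 2) =o[l] s := by
    have h1 : (fun z => Real.cos (θ z) - 1 + θ z ^ 2 / 2) =O[l] (fun z => θ z ^ 2 * θ z ^ 2) := by
      refine IsBigO.of_bound 1 ?_
      filter_upwards [hθ1] with z hz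
      have h2 := Real.cos_bound hz
      have h3 : Real.cos (θ z) - 1 + θ z ^ 2 / 2 = Real.cos (θ z) - (1 - θ z ^ 2 / 2) := by ring
      rw [h3, Real.norm_eq_abs]
      refine h2.trans ?_
      rw [one_mul, Real.norm_of_nonneg (by positivity)]
      have h4 : |θ z| ^ 4 = θ z ^ 2 * θ z ^ 2 := by
        rw [← sq_abs (θ z)]
        ring
      rw [h4]
      have : 0 ≤ θ z ^ 2 * θ z ^ 2 := by positivity
      linarith
    refine h1.trans_isLittleO ?_
    have h2 : (fun z => θ z ^ 2 * θ z ^ 2) =O[l] (fun z => s z * s z) := Bθ2.mul Bθ2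
    refine h2.trans_isLittleO ?_
    have h3 : s =o[l] (fun _ => (1 : ℝ)) := (isLittleO_one_iff ℝ).2 hsT
    simpa using h3.mul_isBigO (isBigO_refl s l)
  have BS1 : (fun z => Real.sin (θ z) - θ z) =O[l] s := by
    refine IsBigO.trans (IsBigO.of_bound 1 ?_) Bθ2
    filter_upwards [hθ1] with z hz
    have h2 := Real.sin_bound hz
    rw [one_mul, Real.norm_of_nonneg (sq_nonneg _), Real.norm_eq_abs]
    have h3 : |θ z| ^ 5 ≤ |θ z| ^ 2 :=
      pow_le_pow_of_le_one (abs_nonneg (θ z)) hz (show 2 ≤ 5 by norm_num)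
    have h4 : |θ z ^ 3| ≤ |θ z| ^ 2 := by
      rw [abs_pow]
      exact pow_le_pow_of_le_one (abs_nonneg (θ z)) hz (show 2 ≤ 3 by norm_num)
    rw [sq_abs] at h3 h4
    rw [abs_le] at h2 h4 ⊢
    obtain ⟨h21, h22⟩ := h2
    obtain ⟨h41, h42⟩ := h4
    have h5 := sq_nonneg (θ z)
    constructor <;> linarith
  have BS0 : (fun z => Real.sin (θ z)) =O[l] ρ := by
    have h1 : (fun z => Real.sin (θ z)) = fun z => (Real.sin (θ z) - θ z) + θ z := by
      funext z
      ring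
    rw [h1]
    exact (BS1.trans Bs).add Bθ
  have BDC : (fun z => D z * (Real.cos (θ z) - 1)) =o[l] s :=
    (BD.mul BC1).trans_isLittleO Oss
  let α : V × ℝ → ℝ := fun z => φ z.1 z.2 * Real.cos (θ z) - f0 - Q z
  let β : V × ℝ → ℝ := fun z => φ z.1 z.2 * Real.sin (θ z) - f0 * θ z
  have Bα : α =O[l] s := by
    have h1 : α = fun z => (D z - Q z) + (D z * (Real.cos (θ z) - 1) +
        f0 * (Real.cos (θ z) - 1)) := by
      funext z
      simp only [α, D]
      ring
    rw [h1]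
    exact BDQ.add (BDC.isBigO.add (BC1.const_mul_left _))
  have Bβ : β =O[l] s := by
    have h1 : β = fun z => D z * Real.sin (θ z) + f0 * (Real.sin (θ z) - θ z) := by
      funext z
      simp only [β, D]
      ring
    rw [h1]
    refine IsBigO.add ?_ (BS1.const_mul_left _)
    rw [hss]
    exact BD.mul BS0
  let R : V × ℝ → V := fun z => α z • w + β z • J w
  have BR : R =O[l] s := by
    have h1 : (fun z => α z • w) =O[l] s := by
      refine IsBigO.trans (IsBigO.of_bound ‖w‖ (Filter.Eventually.of_forall fun z => ?_)) Bα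
      rw [norm_smul, mul_comm]
    have h2 : (fun z => β z • J w) =O[l] s := by
      refine IsBigO.trans (IsBigO.of_bound ‖J w‖ (Filter.Eventually.of_forall fun z => ?_)) Bβ
      rw [norm_smul, mul_comm]
    exact h1.add h2
  let Lz : V × ℝ → V := fun z => Nbhd_L w q v f0 (z.1 - x0)
  have BL : Lz =O[l] ρ := ((Nbhd_L w q v f0).isBigO_comp δ l).trans Bδ
  let y : V × ℝ → V := fun z =>
    z.1 + φ z.1 z.2 • (Real.cos (θ z) • w + Real.sin (θ z) • J w)
  let Δ : V × ℝ → V := fun z => y z - (x0 + f0 • w)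
  have hΔ : ∀ z, Δ z = Lz z + R z := by
    intro z
    simp only [Δ, y, Lz, R, α, β, Nbhd_L_apply, Q, θ]
    module
  have BΔ : Δ =O[l] ρ := by
    have h1 : Δ = fun z => Lz z + R z := funext hΔ
    rw [h1]
    exact BL.add (BR.trans Bs)
  have hbil : ∀ (F G : V × ℝ → V) (f g : V × ℝ → ℝ), F =O[l] f → G =O[l] g →
      (fun z => X (F z) (G z)) =O[l] fun z => f z * g z := by
    intro F G f g hF hG
    have h1 : (fun z => X (F z) (G z)) =O[l] fun z => ‖F z‖ * ‖G z‖ := by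
      refine IsBigO.of_bound ‖X‖ (Filter.Eventually.of_forall fun z => ?_)
      rw [Real.norm_of_nonneg (mul_nonneg (norm_nonneg (F z)) (norm_nonneg (G z))), ← mul_assoc]
      exact X.le_opNorm₂ (F z) (G z)
    exact h1.trans (hF.norm_left.mul hG.norm_left)
  have OX : (fun z => X (Δ z) (Δ z) - X (Lz z) (Lz z)) =o[l] s := by
    have h1 : (fun z => X (Δ z) (Δ z) - X (Lz z) (Lz z)) =
        fun z => X (R z) (Δ z) + X (Lz z) (R z) := by
      funext z
      rw [hΔ z]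
      simp only [map_add, _root_.add_apply]
      ring
    rw [h1]
    have h2 : (fun z => X (R z) (Δ z)) =o[l] s := by
      refine (hbil R Δ s ρ BR BΔ).trans_isLittleO ?_
      simpa [mul_comm] using Oss
    have h3 : (fun z => X (Lz z) (R z)) =o[l] s := (hbil Lz R ρ s BL BR).trans_isLittleO Oss
    exact h2.add h3
  have BΔ2 : (fun z => ‖Δ z‖ ^ 2) =O[l] s := by
    rw [hss]
    have := BΔ.norm_left.mul BΔ.norm_left
    simpa [sq] using this
  let Err : V × ℝ → ℝ := fun z => E z + D z * (Real.cos (θ z) - 1) +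
    f0 * (Real.cos (θ z) - 1 + θ z ^ 2 / 2)
  have OErr : Err =o[l] s := (OE.add BDC).add (OC2.const_mul_left _)
  obtain ⟨K, hK⟩ := BΔ2.bound
  have hΔT : Tendsto Δ l (𝓝 0) := by
    have h1 := BΔ.trans_isLittleO Oρ
    exact (isLittleO_one_iff ℝ).1 h1
  -- conclusion
  intro eps heps
  set K3 : ℝ := max K 0 with hK3
  have hK30 : 0 ≤ K3 := le_max_right _ _
  obtain ⟨r0, hr0, h0⟩ := hj (eps / (4 * (1 + K3))) (by positivity)
  have e1 := (isLittleO_iff.1 OErr) (show 0 < eps / (4 * (|P| + 1)) by positivity)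
  have e2 := (isLittleO_iff.1 OX) (show 0 < eps / 4 by positivity)
  have e3 : ∀ᶠ z in l, ‖Δ z‖ < r0 := by
    have := hΔT.eventually (Metric.ball_mem_nhds (0 : V) hr0)
    filter_upwards [this] with z hz
    simpa using hz
  have e4 : ∀ᶠ z in l, t0 - r0 < z.2 := by
    rw [hl, Nbhd_ev]
    exact ⟨r0, hr0, fun x t _ h _ => h⟩
  have e5 : ∀ᶠ z in l, z.2 ≤ t0 := by
    rw [hl, Nbhd_ev]
    exact ⟨1, one_pos, fun x t _ _ h => h⟩
  have hfin : ∀ᶠ z in l, z ∈ S → 0 ≤ (a - P * b) * (z.2 - t0) +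
      inner ℝ (-(P • (w + q))) (z.1 - x0) +
      (1 / 2) * Nbhd_X P w q v f0 X Y (z.1 - x0) (z.1 - x0) +
      eps * (|z.2 - t0| + ‖z.1 - x0‖ ^ 2) := by
    filter_upwards [e1, e2, e3, e4, e5, hK] with z h1 h2 h3 h4 h5 h6 hz
    have hmem : (y z, z.2) ∈ Thick S φ := by
      refine ⟨z.1, hz, ?_⟩
      show ‖y z - z.1‖ ≤ φ z.1 z.2
      have g1 : y z - z.1 = φ z.1 z.2 • (Real.cos (θ z) • w + Real.sin (θ z) • J w) := by
        simp only [y]
        abel
      have g2 : ‖Real.cos (θ z) • w + Real.sin (θ z) • J w‖ ^ 2 = 1 := by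
        rw [norm_add_sq_real, norm_smul, norm_smul, Pool.Agent.VSC.norm_J, hw,
          real_inner_smul_left, real_inner_smul_right, real_inner_comm, Pool.Agent.VSC.inner_J]
        simp only [mul_one, Real.norm_eq_abs, sq_abs, mul_zero, add_zero]
        exact Real.cos_sq_add_sin_sq _
      have g3 : ‖Real.cos (θ z) • w + Real.sin (θ z) • J w‖ = 1 := by
        have := norm_nonneg (Real.cos (θ z) • w + Real.sin (θ z) • J w)
        nlinarith
      rw [g1, norm_smul, g3, mul_one, Real.norm_of_nonneg (hφ0 _ _)]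
    have hjet := h0 (y z) z.2 hmem h3 h4 h5
    have g4 : (inner ℝ (-(P • w)) (y z - (x0 + f0 • w)) : ℝ) =
        -(P * (inner ℝ w (z.1 - x0) + (φ z.1 z.2 * Real.cos (θ z) - f0))) := by
      have g5 : y z - (x0 + f0 • w) = (z.1 - x0) + (φ z.1 z.2 * Real.cos (θ z) - f0) • w +
          (φ z.1 z.2 * Real.sin (θ z)) • J w := by
        simp only [y]
        module
      rw [g5, inner_neg_left, real_inner_smul_left, inner_add_right, inner_add_right,
        real_inner_smul_right, real_inner_smul_right, real_inner_self_eq_norm_sq, hw,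
        real_inner_comm (J w) w, Pool.Agent.VSC.inner_J]
      ring
    have g6 : φ z.1 z.2 * Real.cos (θ z) - f0 = b * (z.2 - t0) + Q z + (1 / 2) * YY z -
        (1 / 2) * (f0 * θ z ^ 2) + Err z := by
      simp only [Err, E, D, τ]
      ring
    rw [g4, g6] at hjet
    rw [Nbhd_X_apply]
    have g7 : (inner ℝ (-(P • (w + q))) (z.1 - x0) : ℝ) = -(P * (inner ℝ w (z.1 - x0) + Q z)) := by
      rw [inner_neg_left, real_inner_smul_left, inner_add_left]
    rw [g7]
    rw [Real.norm_of_nonneg (hs0 z), Real.norm_eq_abs] at h1 h2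
    rw [Real.norm_of_nonneg (hs0 z), Real.norm_eq_abs, abs_of_nonneg (sq_nonneg _)] at h6
    have h7 : |P * Err z| ≤ eps / 4 * s z := by
      rw [abs_mul]
      calc |P| * |Err z| ≤ |P| * (eps / (4 * (|P| + 1)) * s z) :=
            mul_le_mul_of_nonneg_left h1 (abs_nonneg _)
        _ = (|P| / (|P| + 1)) * (eps / 4 * s z) := by
            field_simp
        _ ≤ 1 * (eps / 4 * s z) := by
            apply mul_le_mul_of_nonneg_right _ (by have := hs0 z; positivity)
            rw [div_le_one (by positivity)]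
            linarith [abs_nonneg P]
        _ = eps / 4 * s z := one_mul _
    have h8 : eps / (4 * (1 + K3)) * (|z.2 - t0| + ‖y z - (x0 + f0 • w)‖ ^ 2) ≤
        eps / 4 * s z := by
      have g8 : ‖y z - (x0 + f0 • w)‖ ^ 2 ≤ K3 * s z :=
        h6.trans (mul_le_mul_of_nonneg_right (le_max_left _ _) (hs0 z))
      have g9 : |z.2 - t0| ≤ s z := by
        show |z.2 - t0| ≤ |z.2 - t0| + ‖z.1 - x0‖ ^ 2
        have := sq_nonneg ‖z.1 - x0‖
        linarith
      calc eps / (4 * (1 + K3)) * (|z.2 - t0| + ‖y z - (x0 + f0 • w)‖ ^ 2)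
          ≤ eps / (4 * (1 + K3)) * ((1 + K3) * s z) := by
            apply mul_le_mul_of_nonneg_left _ (by positivity)
            linarith
        _ = eps / 4 * s z := by
            field_simp
    have h9 := abs_le.1 h7
    have h10 := abs_le.1 h2
    have h11 := hs0 z
    have h12 : eps * (|z.2 - t0| + ‖z.1 - x0‖ ^ 2) = eps * s z := rfl
    have h13 : 0 ≤ eps * s z := by positivity
    have h14 : (Y (z.1 - x0)) (z.1 - x0) = YY z := rfl
    have h15 : (inner ℝ v (z.1 - x0) : ℝ) = θ z := rfl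
    have h16 : X (Nbhd_L w q v f0 (z.1 - x0)) (Nbhd_L w q v f0 (z.1 - x0)) = X (Lz z) (Lz z) := rfl
    have h17 : X (y z - (x0 + f0 • w)) (y z - (x0 + f0 • w)) = X (Δ z) (Δ z) := rfl
    rw [h12, h14, h15, h16]
    rw [h17] at hjet
    nlinarith [h9.1, h9.2, h10.1, h10.2]
  rw [hl, Nbhd_ev] at hfin
  obtain ⟨r, hr, h⟩ := hfin
  exact ⟨r, hr, fun x t hx h1 h2 h3 => h x t h1 h2 h3 hx⟩

/-- The contact point: a lower jet of a set containing the disc at time `t0`. -/
private theorem Nbhd_contact {T : Set (V × ℝ)} {x0 y0 p : V} {t0 a f0 : ℝ}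
    {X : V →L[ℝ] V →L[ℝ] ℝ} (hj : LowJet T y0 t0 a p X) (hp : p ≠ 0)
    (hy : ‖y0 - x0‖ ≤ f0) (hf0 : 0 ≤ f0)
    (hdisc : ∀ y : V, ‖y - x0‖ ≤ f0 → (y, t0) ∈ T) :
    y0 = x0 + f0 • (-(‖p‖⁻¹ • p)) := by
  have hpn : 0 < ‖p‖ := norm_pos_iff.2 hp
  set zs : V := x0 + f0 • (-(‖p‖⁻¹ • p)) with hzs
  have hzn : ‖zs - x0‖ ≤ f0 := by
    have h1 : zs - x0 = f0 • (-(‖p‖⁻¹ • p)) := by rw [hzs]; abel
    rw [h1, norm_smul, norm_neg, norm_smul, norm_inv, norm_norm, inv_mul_cancel₀ hpn.ne', mul_one,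
      Real.norm_of_nonneg hf0]
  set d : V := zs - y0 with hd
  -- the inequality in the direction `d`
  have hkey : 0 ≤ (inner ℝ p d : ℝ) := by
    by_contra hneg
    push Not at hneg
    obtain ⟨r, hr, h⟩ := hj 1 one_pos
    set C : ℝ := (1 / 2) * |X d d| + ‖d‖ ^ 2 + 1 with hC
    have hC0 : 0 < C := by positivity
    have hdn : 0 ≤ ‖d‖ := norm_nonneg d
    set e : ℝ := min 1 (min (r / (2 * (‖d‖ + 1))) (-(inner ℝ p d : ℝ) / (2 * C))) with he
    have he0 : 0 < e := by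
      refine lt_min one_pos (lt_min (by positivity) ?_)
      exact div_pos (by linarith) (by positivity)
    have he1 : e ≤ 1 := min_le_left _ _
    have he2 : e ≤ r / (2 * (‖d‖ + 1)) := (min_le_right _ _).trans (min_le_left _ _)
    have he3 : e ≤ -(inner ℝ p d : ℝ) / (2 * C) := (min_le_right _ _).trans (min_le_right _ _)
    have hmem : (y0 + e • d, t0) ∈ T := by
      apply hdisc
      have h1 : y0 + e • d - x0 = (1 - e) • (y0 - x0) + e • (zs - x0) := by
        rw [hd]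
        module
      rw [h1]
      calc ‖(1 - e) • (y0 - x0) + e • (zs - x0)‖ ≤ ‖(1 - e) • (y0 - x0)‖ + ‖e • (zs - x0)‖ :=
            norm_add_le _ _
        _ = (1 - e) * ‖y0 - x0‖ + e * ‖zs - x0‖ := by
            rw [norm_smul, norm_smul, Real.norm_of_nonneg (by linarith),
              Real.norm_of_nonneg he0.le]
        _ ≤ (1 - e) * f0 + e * f0 :=
            add_le_add (mul_le_mul_of_nonneg_left hy (by linarith))
              (mul_le_mul_of_nonneg_left hzn he0.le)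
        _ = f0 := by ring
    have h2 : y0 + e • d - y0 = e • d := by abel
    have h3 : ‖y0 + e • d - y0‖ < r := by
      rw [h2, norm_smul, Real.norm_of_nonneg he0.le]
      have h4 : e * ‖d‖ ≤ r / (2 * (‖d‖ + 1)) * ‖d‖ := mul_le_mul_of_nonneg_right he2 hdn
      have h5 : r / (2 * (‖d‖ + 1)) * ‖d‖ < r := by
        rw [div_mul_eq_mul_div, div_lt_iff₀ (by positivity)]
        nlinarith
      linarith
    have h6 := h (y0 + e • d) t0 hmem h3 (by linarith) le_rfl
    rw [h2, sub_self, mul_zero, abs_zero, real_inner_smul_right, norm_smul,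
      Real.norm_of_nonneg he0.le] at h6
    have h7 : X (e • d) (e • d) = e * (e * X d d) := by
      simp
    rw [h7] at h6
    have h8 : X d d ≤ |X d d| := le_abs_self _
    have h9 : e * C ≤ -(inner ℝ p d : ℝ) / 2 := by
      have := mul_le_mul_of_nonneg_right he3 hC0.le
      have h10 : -(inner ℝ p d : ℝ) / (2 * C) * C = -(inner ℝ p d : ℝ) / 2 := by
        field_simp
      linarith
    -- divide by `e`
    have h11 : 0 ≤ e * ((inner ℝ p d : ℝ) + e * ((1 / 2) * X d d + ‖d‖ ^ 2)) := by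
      have : e * ((inner ℝ p d : ℝ) + e * ((1 / 2) * X d d + ‖d‖ ^ 2)) =
          0 + e * inner ℝ p d + 1 / 2 * (e * (e * X d d)) + 1 * (0 + (e * ‖d‖) ^ 2) := by ring
      rw [this]
      exact h6
    have h12 : 0 ≤ (inner ℝ p d : ℝ) + e * ((1 / 2) * X d d + ‖d‖ ^ 2) :=
      nonneg_of_mul_nonneg_right h11 he0
    have h13 : e * ((1 / 2) * X d d + ‖d‖ ^ 2) ≤ e * C := by
      apply mul_le_mul_of_nonneg_left _ he0.le
      rw [hC]
      linarith
    linarith
  -- equality in Cauchy-Schwarz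
  have h1 : (inner ℝ p d : ℝ) = inner ℝ p (x0 - y0) - f0 * ‖p‖ := by
    have h2 : d = (x0 - y0) + f0 • (-(‖p‖⁻¹ • p)) := by
      rw [hd, hzs]
      abel
    rw [h2, inner_add_right, real_inner_smul_right, inner_neg_right, real_inner_smul_right,
      real_inner_self_eq_norm_sq]
    field_simp
    ring
  rw [h1] at hkey
  have h3 : ‖d‖ ^ 2 ≤ 0 := by
    have h2 : d = (x0 - y0) - (f0 * ‖p‖⁻¹) • p := by
      rw [hd, hzs]
      module
    rw [h2, norm_sub_sq_real, real_inner_smul_right, norm_smul, real_inner_comm]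
    have h4 : ‖x0 - y0‖ ≤ f0 := by rw [norm_sub_rev]; exact hy
    have h5 : ‖x0 - y0‖ ^ 2 ≤ f0 ^ 2 := pow_le_pow_left₀ (norm_nonneg _) h4 2
    have h6 : ‖f0 * ‖p‖⁻¹‖ * ‖p‖ = f0 := by
      rw [norm_mul, norm_inv, norm_norm, mul_assoc, inv_mul_cancel₀ hpn.ne', mul_one,
        Real.norm_of_nonneg hf0]
    rw [h6]
    have h7 : f0 * ‖p‖⁻¹ * inner ℝ p (x0 - y0) ≥ f0 ^ 2 := by
      have h8 : f0 * ‖p‖⁻¹ * (f0 * ‖p‖) ≤ f0 * ‖p‖⁻¹ * inner ℝ p (x0 - y0) :=
        mul_le_mul_of_nonneg_left (by linarith) (by positivity)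
      have h9 : f0 * ‖p‖⁻¹ * (f0 * ‖p‖) = f0 ^ 2 := by
        field_simp
      linarith
    linarith
  have h4 : d = 0 := by
    have h5 : ‖d‖ = 0 := by
      have := norm_nonneg d
      nlinarith
    exact norm_eq_zero.1 h5
  rw [hd, sub_eq_zero] at h4
  exact h4.symm

theorem thick_subAt {M L : ℝ} {h : V → ℝ} (hm : Med M L h) {S : Set (V × ℝ)} {φ : V → ℝ → ℝ}
    (hφ0 : ∀ x t, 0 ≤ φ x t) (hφc : Continuous (fun z : V × ℝ => φ z.1 z.2)) {g : ℝ} (hg : 0 ≤ g)
    {x0 y0 : V} {t0 : ℝ} (hS : SubAt h S x0 t0) (hy : ‖y0 - x0‖ ≤ φ x0 t0)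
    (hx : (x0, t0) ∈ S)
    (hexp : 0 < φ x0 t0 → ∃ (b : ℝ) (q : V) (Y : V →L[ℝ] V →L[ℝ] ℝ), Exp2 φ x0 t0 b q Y ∧
      ‖q‖ ≤ 1 / 2 ∧ ∀ xi : V, ‖xi‖ = 1 →
        b - Y xi xi ≤ g - L * φ x0 t0 - M * ‖q‖ - ‖q‖ ^ 4 / φ x0 t0) :
    SubAt (fun x => h x + g) (Thick S φ) y0 t0 := by
  constructor
  · intro a p X hj hp xi hxi1 hxi2
    have hpn : 0 < ‖p‖ := norm_pos_iff.2 hp
    rcases (hφ0 x0 t0).eq_or_lt with hf | hf
    · -- no thickening
      have hy0 : y0 = x0 := by
        rw [← hf] at hy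
        exact sub_eq_zero.1 (norm_eq_zero.1 (le_antisymm hy (norm_nonneg _)))
      subst hy0
      have h1 : LowJet S y0 t0 a p X := by
        intro eps heps
        obtain ⟨r, hr, h2⟩ := hj eps heps
        refine ⟨r, hr, fun x t hx' h3 h4 h5 => h2 x t ⟨x, hx', ?_⟩ h3 h4 h5⟩
        show ‖x - x‖ ≤ φ x t
        rw [sub_self, norm_zero]
        exact hφ0 x t
      have h2 := hS.jet a p X h1 hp xi hxi1 hxi2
      have h3 : 0 ≤ g * ‖p‖ := mul_nonneg hg (norm_nonneg _)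
      show a ≤ X xi xi + (h y0 + g) * ‖p‖
      nlinarith
    · obtain ⟨b, q, Y, hE, hq, hineq⟩ := hexp hf
      set f0 := φ x0 t0 with hf0
      set w : V := -(‖p‖⁻¹ • p) with hwdef
      have hw : ‖w‖ = 1 := by
        rw [hwdef, norm_neg, norm_smul, norm_inv, norm_norm, inv_mul_cancel₀ hpn.ne']
      have hpw : p = -(‖p‖ • w) := by
        rw [hwdef, smul_neg, neg_neg, smul_smul, mul_inv_cancel₀ hpn.ne', one_smul]
      have hy0 : y0 = x0 + f0 • w := by
        refine Nbhd_contact hj hp hy hf.le (fun y hy' => ⟨x0, hx, ?_⟩)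
        exact hy'
      have hJw : ‖J w‖ = 1 := by rw [Pool.Agent.VSC.norm_J, hw]
      -- the vector `n = w + q`
      set al : ℝ := inner ℝ q w with hal
      set be : ℝ := inner ℝ q (J w) with hbe
      have hqd : q = al • w + be • J w := Nbhd_inner_J hw q
      have hwJ : (inner ℝ w (J w) : ℝ) = 0 := by
        rw [real_inner_comm]
        exact Pool.Agent.VSC.inner_J w
      have hJJ : J (J w) = -w := by
        ext i
        fin_cases i
        · show -(w 0) = (-w) 0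
          simp
        · show -(w 1) = (-w) 1
          simp
      have hqn : ‖q‖ ^ 2 = al ^ 2 + be ^ 2 := by
        rw [hqd, norm_add_sq_real, norm_smul, norm_smul, hw, hJw, real_inner_smul_left,
          real_inner_smul_right, hwJ]
        simp only [mul_one, Real.norm_eq_abs, sq_abs, mul_zero, add_zero]
      have hal1 : |al| ≤ 1 / 2 := by
        have h1 := abs_real_inner_le_norm q w
        rw [hw, mul_one] at h1
        exact h1.trans hq
      have hal2 := abs_le.1 hal1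
      set n : V := w + q with hn
      have hnd : n = (1 + al) • w + be • J w := by
        rw [hn, hqd]
        have e1 : (inner ℝ (al • w + be • J w) w : ℝ) = al := by rw [← hqd]
        have e2 : (inner ℝ (al • w + be • J w) (J w) : ℝ) = be := by rw [← hqd]
        module
      have hnn : ‖n‖ ^ 2 = (1 + al) ^ 2 + be ^ 2 := by
        rw [hnd, norm_add_sq_real, norm_smul, norm_smul, hw, hJw, real_inner_smul_left,
          real_inner_smul_right, hwJ]
        simp only [mul_one, Real.norm_eq_abs, sq_abs, mul_zero, add_zero]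
      set m : ℝ := ‖n‖ with hmdef
      have hm0 : 0 < m := by
        have h1 : 0 < m ^ 2 := by rw [hnn]; nlinarith [hal2.1, sq_nonneg be]
        have h2 : 0 ≤ m := norm_nonneg n
        rcases h2.eq_or_lt with h3 | h3
        · rw [← h3] at h1
          norm_num at h1
        · exact h3
      set cb : ℝ := (1 + al) / m with hcb
      have hcb0 : 0 < cb := div_pos (by linarith [hal2.1]) hm0
      -- the tangent vector
      set xi' : V := m⁻¹ • J n with hxi'
      have hJn : J n = (1 + al) • J w - be • w := by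
        rw [hnd, Pool.Agent.VSC.J_add, Pool.Agent.VSC.J_smul, Pool.Agent.VSC.J_smul, hJJ]
        module
      have hxid : xi' = cb • J w - (be / m) • w := by
        rw [hxi', hJn, hcb]
        module
      have hxin : ‖xi'‖ = 1 := by
        rw [hxi', norm_smul, Pool.Agent.VSC.norm_J, norm_inv, Real.norm_of_nonneg hm0.le,
          ← hmdef, inv_mul_cancel₀ hm0.ne']
      set v : V := ((1 - cb) / f0) • xi' with hv
      have hvx : (inner ℝ v xi' : ℝ) = (1 - cb) / f0 := by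
        rw [hv, real_inner_smul_left, real_inner_self_eq_norm_sq, hxin]
        ring
      have hqx : (inner ℝ q xi' : ℝ) = be / m := by
        rw [hxid, inner_sub_right, real_inner_smul_right, real_inner_smul_right, ← hal, ← hbe, hcb]
        field_simp
        ring
      have hLx : Nbhd_L w q v f0 xi' = J w := by
        rw [Nbhd_L_apply, hvx, hqx]
        have h1 : f0 • (((1 - cb) / f0) • J w) = (1 - cb) • J w := by
          rw [smul_smul, mul_div_cancel₀ _ hf.ne']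
        rw [h1, hxid]
        module
      have hj' := hj
      rw [hy0, hpw] at hj'
      have hjet := Nbhd_jet (v := v) hφ0 hw hj' hE
      have hp' : -(‖p‖ • (w + q)) ≠ 0 := by
        rw [neg_ne_zero]
        refine smul_ne_zero hpn.ne' ?_
        rw [← hn]
        exact norm_pos_iff.1 hm0
      have hperp : (inner ℝ xi' (-(‖p‖ • (w + q))) : ℝ) = 0 := by
        rw [← hn, hxi', inner_neg_right, real_inner_smul_left, real_inner_smul_right,
          Pool.Agent.VSC.inner_J]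
        ring
      have hmain := hS.jet _ _ _ hjet hp' xi' hxin hperp
      rw [Nbhd_X_apply, hLx, hvx, norm_neg, norm_smul, norm_norm, ← hn, ← hmdef, ← hf0] at hmain
      have h1 := hineq xi' hxin
      -- `X xi xi = X (J w) (J w)`
      have hX : X xi xi = X (J w) (J w) := by
        have h2 := Nbhd_inner_J hw xi
        have h3 : (inner ℝ xi w : ℝ) = 0 := by
          rw [hwdef, inner_neg_right, real_inner_smul_right, hxi2]
          ring
        rw [h3, zero_smul, zero_add] at h2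
        set k : ℝ := inner ℝ xi (J w) with hk
        have h4 : k ^ 2 = 1 := by
          have h5 : ‖xi‖ = |k| * 1 := by
            conv_lhs => rw [h2]
            rw [norm_smul, hJw, Real.norm_eq_abs]
          rw [hxi1, mul_one] at h5
          rw [← sq_abs, ← h5]
          norm_num
        rw [h2]
        have h6 : X (k • J w) (k • J w) = k ^ 2 * X (J w) (J w) := by
          simp
          ring
        rw [h6, h4, one_mul]
      -- bounds
      have hcb1 : 1 - cb ≤ ‖q‖ ^ 2 ∧ 0 ≤ 1 - cb := by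
        have hcbm : cb * m = 1 + al := by
          rw [hcb]
          field_simp
        have h2 : (cb * m) ^ 2 + be ^ 2 = m ^ 2 := by rw [hcbm, hnn]
        have h3 : be ^ 2 ≤ ‖q‖ ^ 2 * m ^ 2 := by
          rw [hqn, hnn]
          nlinarith [sq_nonneg (al * (1 + al) + be ^ 2)]
        have h4 : cb ^ 2 ≤ 1 := by
          have h5 : cb ^ 2 * m ^ 2 ≤ 1 * m ^ 2 := by nlinarith [sq_nonneg be]
          exact le_of_mul_le_mul_right h5 (by positivity)
        have h5 : cb ≤ 1 := by nlinarith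
        refine ⟨?_, by linarith⟩
        have h6 : (1 - cb) * m ^ 2 ≤ ‖q‖ ^ 2 * m ^ 2 := by
          have h7 : (1 - cb) * m ^ 2 ≤ (1 - cb) * (1 + cb) * m ^ 2 := by
            apply mul_le_mul_of_nonneg_right _ (by positivity)
            nlinarith
          nlinarith
        exact le_of_mul_le_mul_right h6 (by positivity)
      have hsq : f0 * ((1 - cb) / f0) ^ 2 ≤ ‖q‖ ^ 4 / f0 := by
        have h2 : f0 * ((1 - cb) / f0) ^ 2 = (1 - cb) ^ 2 / f0 := by
          field_simp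
        rw [h2]
        apply div_le_div_of_nonneg_right _ hf.le
        have h3 : ‖q‖ ^ 4 = (‖q‖ ^ 2) ^ 2 := by ring
        rw [h3]
        exact pow_le_pow_left₀ hcb1.2 hcb1.1 2
      have hmn : |m - 1| ≤ ‖q‖ := by
        have h2 := abs_norm_sub_norm_le n w
        rw [hw, hn, add_sub_cancel_left, ← hn, ← hmdef] at h2
        exact h2
      have hh : h x0 * m ≤ h y0 + L * f0 + M * ‖q‖ := by
        have h2 : h x0 * m = h x0 + h x0 * (m - 1) := by ring
        have h3 : h x0 * (m - 1) ≤ M * ‖q‖ := by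
          calc h x0 * (m - 1) ≤ |h x0 * (m - 1)| := le_abs_self _
            _ = |h x0| * |m - 1| := abs_mul _ _
            _ ≤ M * ‖q‖ := mul_le_mul (hm.bd x0) hmn (abs_nonneg _) (by linarith [hm.one_le])
        have h4 := hm.lip x0 y0
        have h5 : ‖x0 - y0‖ ≤ f0 := by rw [norm_sub_rev]; exact hy
        have h6 : h x0 - h y0 ≤ L * f0 :=
          (le_abs_self _).trans (h4.trans (mul_le_mul_of_nonneg_left h5 (by linarith [hm.one_le'])))
        linarith
      show a ≤ X xi xi + (h y0 + g) * ‖p‖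
      rw [hX]
      have hP1 : ‖p‖ * (h x0 * m) ≤ ‖p‖ * (h y0 + L * f0 + M * ‖q‖) :=
        mul_le_mul_of_nonneg_left hh hpn.le
      have hP2 : ‖p‖ * (f0 * ((1 - cb) / f0) ^ 2) ≤ ‖p‖ * (‖q‖ ^ 4 / f0) :=
        mul_le_mul_of_nonneg_left hsq hpn.le
      have hP3 : ‖p‖ * (b - Y xi' xi') ≤ ‖p‖ * (g - L * f0 - M * ‖q‖ - ‖q‖ ^ 4 / f0) :=
        mul_le_mul_of_nonneg_left h1 hpn.le
      nlinarith
  · -- left accessibility
    intro r hr
    have hc : ContinuousAt (fun z : V × ℝ => φ z.1 z.2) (x0, t0) := hφc.continuousAt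
    rw [Metric.continuousAt_iff] at hc
    obtain ⟨d, hd, h1⟩ := hc (r / 2) (by linarith)
    obtain ⟨x, t, hxt, h2, h3, h4⟩ := hS.left (min (r / 2) d) (lt_min (by linarith) hd)
    have h5 := min_le_left (r / 2) d
    have h6 := min_le_right (r / 2) d
    have h7 : dist (x, t) (x0, t0) < d := by
      rw [Prod.dist_eq, max_lt_iff]
      refine ⟨by rw [dist_eq_norm]; exact lt_of_lt_of_le h2 h6, ?_⟩
      rw [Real.dist_eq, abs_lt]
      constructor
      · show -d < t - t0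
        linarith
      · show t - t0 < d
        linarith
    have h8 := h1 h7
    rw [Real.dist_eq] at h8
    have h8' : |φ x t - φ x0 t0| < r / 2 := h8
    have h9 := abs_lt.1 h8'
    set c : ℝ := min 1 (φ x t / φ x0 t0) with hc'
    have hc1 : c ≤ 1 := min_le_left _ _
    have hc0 : 0 ≤ c := le_min zero_le_one (div_nonneg (hφ0 _ _) (hφ0 _ _))
    have hc2 : c * φ x0 t0 ≤ φ x t := by
      rcases (hφ0 x0 t0).eq_or_lt with hf | hf
      · rw [← hf, mul_zero]
        exact hφ0 x t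
      · calc c * φ x0 t0 ≤ φ x t / φ x0 t0 * φ x0 t0 :=
              mul_le_mul_of_nonneg_right (min_le_right _ _) hf.le
          _ = φ x t := div_mul_cancel₀ _ hf.ne'
    have hc3 : (1 - c) * φ x0 t0 ≤ r / 2 := by
      rcases (hφ0 x0 t0).eq_or_lt with hf | hf
      · rw [← hf, mul_zero]
        linarith
      · rcases min_choice 1 (φ x t / φ x0 t0) with hh | hh
        · rw [hc', hh]
          linarith
        · rw [hc', hh, sub_mul, one_mul, div_mul_cancel₀ _ hf.ne']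
          linarith [h9.1]
    refine ⟨x + c • (y0 - x0), t, ⟨x, hxt, ?_⟩, ?_, by linarith, h4⟩
    · show ‖x + c • (y0 - x0) - x‖ ≤ φ x t
      rw [add_sub_cancel_left, norm_smul, Real.norm_of_nonneg hc0]
      exact (mul_le_mul_of_nonneg_left hy hc0).trans hc2
    · have e1 : x + c • (y0 - x0) - y0 = (x - x0) - (1 - c) • (y0 - x0) := by module
      rw [e1]
      calc ‖(x - x0) - (1 - c) • (y0 - x0)‖ ≤ ‖x - x0‖ + ‖(1 - c) • (y0 - x0)‖ := norm_sub_le _ _
        _ = ‖x - x0‖ + (1 - c) * ‖y0 - x0‖ := by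
            rw [norm_smul, Real.norm_of_nonneg (by linarith)]
        _ ≤ ‖x - x0‖ + (1 - c) * φ x0 t0 := by
            have := mul_le_mul_of_nonneg_left hy (show 0 ≤ 1 - c by linarith)
            linarith
        _ < r := by linarith

/-- The thickened set is a subflow. `φ ≤ m`; `U'` is the set of points whose closed `m`-ball is
in `U`. -/
theorem thick_subIn {M L : ℝ} {h : V → ℝ} (hm : Med M L h) {U U' : Set V} {t0 m : ℝ}
    {S : Set (V × ℝ)} (hS : SubIn h U t0 S) (hU' : ∀ x ∈ U', closedBall x m ⊆ U)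
    {φ : V → ℝ → ℝ} (hφ0 : ∀ x t, 0 ≤ φ x t) (hφm : ∀ x t, t0 ≤ t → φ x t ≤ m)
    (hφc : Continuous (fun z : V × ℝ => φ z.1 z.2)) {g : ℝ} (hg : 0 ≤ g)
    (hexp : ∀ x0 t1, x0 ∈ U → t0 < t1 → (x0, t1) ∈ S → 0 < φ x0 t1 →
      ∃ (b : ℝ) (q : V) (Y : V →L[ℝ] V →L[ℝ] ℝ), Exp2 φ x0 t1 b q Y ∧
      ‖q‖ ≤ 1 / 2 ∧ ∀ xi : V, ‖xi‖ = 1 →
        b - Y xi xi ≤ g - L * φ x0 t1 - M * ‖q‖ - ‖q‖ ^ 4 / φ x0 t1) :
    SubIn (fun x => h x + g) U' t0 (Thick S φ) := by
  constructor
  · intro y t hy ht hcl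
    obtain ⟨zs, hzs, hlim⟩ := mem_closure_iff_seq_limit.1 hcl
    have hz1 : Tendsto (fun n => (zs n).1) atTop (𝓝 y) := (continuous_fst.tendsto _).comp hlim
    have hz2 : Tendsto (fun n => (zs n).2) atTop (𝓝 t) := (continuous_snd.tendsto _).comp hlim
    choose xs hxs1 hxs2 using fun n => (hzs n).1
    have hxm : ∀ n, ‖(zs n).1 - xs n‖ ≤ m := fun n => (hxs2 n).trans (hφm _ _ (hzs n).2)
    -- the witnesses are bounded
    have hbdd : Bornology.IsBounded (Set.range xs) := by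
      have hb1 : Bornology.IsBounded (Set.range fun n => (zs n).1) :=
        Metric.isBounded_range_of_tendsto _ hz1
      obtain ⟨C, hC⟩ := hb1.exists_norm_le
      rw [isBounded_iff_forall_norm_le]
      refine ⟨C + m, ?_⟩
      rintro _ ⟨n, rfl⟩
      have h1 := hC (zs n).1 ⟨n, rfl⟩
      have h2 := hxm n
      calc ‖xs n‖ = ‖(zs n).1 - ((zs n).1 - xs n)‖ := by rw [sub_sub_cancel]
        _ ≤ ‖(zs n).1‖ + ‖(zs n).1 - xs n‖ := norm_sub_le _ _
        _ ≤ C + m := add_le_add h1 h2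
    obtain ⟨x, -, ψ, hψ, hψl⟩ := tendsto_subseq_of_bounded hbdd (fun n => Set.mem_range_self n)
    have hz1' : Tendsto (fun n => (zs (ψ n)).1) atTop (𝓝 y) := hz1.comp hψ.tendsto_atTop
    have hz2' : Tendsto (fun n => (zs (ψ n)).2) atTop (𝓝 t) := hz2.comp hψ.tendsto_atTop
    have hpair : Tendsto (fun n => (xs (ψ n), (zs (ψ n)).2)) atTop (𝓝 (x, t)) :=
      hψl.prodMk_nhds hz2'
    have h1 : ‖y - x‖ ≤ φ x t := by
      have h2 : Tendsto (fun n => ‖(zs (ψ n)).1 - xs (ψ n)‖) atTop (𝓝 ‖y - x‖) :=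
        (hz1'.sub hψl).norm
      have h3 : Tendsto (fun n => φ (xs (ψ n)) (zs (ψ n)).2) atTop (𝓝 (φ x t)) :=
        (hφc.tendsto (x, t)).comp hpair
      exact le_of_tendsto_of_tendsto' h2 h3 (fun n => hxs2 (ψ n))
    have hxU : x ∈ U := by
      apply hU' y hy
      rw [mem_closedBall_iff_norm, norm_sub_rev]
      exact h1.trans (hφm x t ht)
    refine ⟨x, hS.closed x t hxU ht ?_, h1⟩
    refine mem_closure_of_tendsto hpair (Filter.Eventually.of_forall fun n => ⟨hxs1 (ψ n), ?_⟩)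
    exact (hzs (ψ n)).2
  · intro y t hy ht hmem
    obtain ⟨x, hx1, hx2⟩ := hmem
    have hx2' : ‖y - x‖ ≤ φ x t := hx2
    have hxU : x ∈ U := by
      apply hU' y hy
      rw [mem_closedBall_iff_norm, norm_sub_rev]
      exact hx2'.trans (hφm x t ht.le)
    exact thick_subAt hm hφ0 hφc hg (hS.sub x t hxU ht hx1) hx2' hx1
      (hexp x t hxU ht hx1)

end Pool.Agent.FCF
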