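import Mathlib

/-!
# FCF / PlGroup: counting pairs (line, level) in one group

PROOF. `q.1` is an integer with `|q.1 * rho - s| ≤ lm`: at most `2 lm/rho + 1 ≤ 3 lm/rho` values (`rho ≤ lm`). For given `q.1` the number `q.2` is a natural number in an interval of length `2 c lm/De`:
at most `2 c lm/De + 1 ≤ 3 c lm/De` values (`De ≤ c lm`). `G ⊆ (first Finset.Icc) ×ˢ (second Finset.Icc)`.
-/

set_option autoImplicit false

namespace Pool.Agent.FCF

open Set

private theorem icc51 {x y : ℝ} (h : x ≤ y) :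
    ((Finset.Icc ⌈x⌉ ⌊y⌋).card : ℝ) ≤ y - x + 1 := by
  rw [Int.card_Icc]
  rcases le_total 0 (⌊y⌋ + 1 - ⌈x⌉) with h1 | h1
  · have h2 : (((⌊y⌋ + 1 - ⌈x⌉).toNat : ℤ) : ℝ) = ((⌊y⌋ + 1 - ⌈x⌉ : ℤ) : ℝ) := by
      rw [Int.toNat_of_nonneg h1]
    have h3 : (((⌊y⌋ + 1 - ⌈x⌉).toNat : ℤ) : ℝ) = ((⌊y⌋ + 1 - ⌈x⌉).toNat : ℝ) := by
      push_cast
      rfl
    rw [← h3, h2]
    push_cast
    have h4 := Int.floor_le y
    have h5 := Int.le_ceil x
    linarith
  · rw [Int.toNat_of_nonpos h1]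
    push_cast
    linarith

theorem group_count (G : Finset (ℤ × ℕ)) {s d rho lm c De : ℝ} (hrho : 0 < rho)
    (hlm : rho ≤ lm) (hDe : 0 < De) (hDc : De ≤ c * lm)
    (h1 : ∀ q ∈ G, |(q.1 : ℝ) * rho - s| ≤ lm) (h2 : ∀ q ∈ G, |(q.2 : ℝ) * De - d| ≤ c * lm) :
    (G.card : ℝ) ≤ (3 * lm / rho) * (3 * (c * lm) / De) := by
  have hcl : 0 < c * lm := hDe.trans_le hDc
  have hlm0 : 0 < lm := hrho.trans_le hlm
  have e1 : (s - lm) / rho ≤ (s + lm) / rho := div_le_div_of_nonneg_right (by linarith) hrho.le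
  have e2 : (d - c * lm) / De ≤ (d + c * lm) / De :=
    div_le_div_of_nonneg_right (by linarith) hDe.le
  have hA := icc51 e1
  have hB := icc51 e2
  have k1 : (s + lm) / rho - (s - lm) / rho + 1 ≤ 3 * lm / rho := by
    have : 1 ≤ lm / rho := by
      rw [le_div_iff₀ hrho]
      linarith
    have h3 : (s + lm) / rho - (s - lm) / rho + 1 = 2 * (lm / rho) + 1 := by
      ring
    rw [h3, mul_div_assoc]
    linarith
  have k2 : (d + c * lm) / De - (d - c * lm) / De + 1 ≤ 3 * (c * lm) / De := by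
    have : 1 ≤ c * lm / De := by
      rw [le_div_iff₀ hDe]
      linarith
    have h3 : (d + c * lm) / De - (d - c * lm) / De + 1 = 2 * (c * lm / De) + 1 := by
      ring
    have h4 : 3 * (c * lm) / De = 3 * (c * lm / De) := by ring
    rw [h3, h4]
    linarith
  have hsub : G.image (fun q : ℤ × ℕ => (q.1, (q.2 : ℤ))) ⊆
      (Finset.Icc ⌈(s - lm) / rho⌉ ⌊(s + lm) / rho⌋) ×ˢ
        (Finset.Icc ⌈(d - c * lm) / De⌉ ⌊(d + c * lm) / De⌋) := by
    intro x hx
    obtain ⟨q, hq, rfl⟩ := Finset.mem_image.1 hx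
    have g1 := abs_le.1 (h1 q hq)
    have g2 := abs_le.1 (h2 q hq)
    rw [Finset.mem_product, Finset.mem_Icc, Finset.mem_Icc]
    refine ⟨⟨?_, ?_⟩, ⟨?_, ?_⟩⟩
    · rw [Int.ceil_le, div_le_iff₀ hrho]
      linarith [g1.1]
    · rw [Int.le_floor, le_div_iff₀ hrho]
      linarith [g1.2]
    · rw [Int.ceil_le, div_le_iff₀ hDe]
      push_cast
      linarith [g2.1]
    · rw [Int.le_floor, le_div_iff₀ hDe]
      push_cast
      linarith [g2.2]
  have hcard := Finset.card_le_card hsub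
  rw [Finset.card_image_of_injective _ (fun a b hab => by
    have h3 := (Prod.ext_iff.1 hab).1
    have h4 := (Prod.ext_iff.1 hab).2
    simp only [Nat.cast_inj] at h3 h4
    exact Prod.ext h3 h4), Finset.card_product] at hcard
  have hcard2 : (G.card : ℝ) ≤ ((Finset.Icc ⌈(s - lm) / rho⌉ ⌊(s + lm) / rho⌋).card : ℝ) *
      ((Finset.Icc ⌈(d - c * lm) / De⌉ ⌊(d + c * lm) / De⌋).card : ℝ) := by
    exact_mod_cast hcard
  refine hcard2.trans (mul_le_mul (hA.trans k1) (hB.trans k2) (Nat.cast_nonneg _) ?_)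
  positivity

end Pool.Agent.FCF
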