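import Pool.Agent.FCF.PlGeo

/-!
# FCF / PlScale: the scale from which on a point is fine; balls of bad points

PROOF of `exists_scale`. `P m := ∀ r' ≥ rho 2^m, fine' c x r'`; `P m` holds for large `m` (`rho 2^m ≥ L0`). Take the smallest `m`, `l = rho 2^m`. If `m = 0`: `l = rho ≤ L0`. If `m > 0`: `P (m-1)` fails: there is `r' ≥ l/2 = rho 2^(m-1) ≥ rho`
not fine; `l/2 < L0` because otherwise `P (m-1)` would hold.
PROOF of `bad_ball`. Let `‖x' - x‖ ≤ l/4`. If `l = rho`: `¬ Ok` gives `y`, `‖y - x‖ ≤ 2 rho`, `r' ≥ r`, `¬ fine1 c y r'`; `‖y - x'‖ ≤ 2 rho + rho/4 ≤ 3 rho`: `Bad`. Otherwise there is `r' ≥ l/2`, `r' ≥ rho ≥ r`, `¬ fine' c x r'`. Then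
`¬ fine1 c x' r'` (if `fine1 c x' r'`: for `‖z - x‖ ≤ Cs r'` we have `‖z - x'‖ ≤ Cs r' + l/4 ≤ (Cs+1) r'`, so `fine' c x r'`), and `y = x'` shows `Bad`.
`ok_fine'`: `Ok` implies `fine'` at all points of `closedBall x (2 rho)` and all scales `r' ≥ r` (`Cs ≤ Cs + 1`, `r' ≥ 0`).
-/

set_option autoImplicit false

namespace Pool.Agent.FCF

open Pool.Agent.VSC (V J LowJet)
open Set Metric

theorem exists_scale {p : Par} {c : V → ℝ} {x : V} {rho L0 : ℝ} (hrho : 0 < rho)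
    (hL : rho ≤ L0) (hf : ∀ r' : ℝ, L0 ≤ r' → p.fine' c x r') :
    ∃ l : ℝ, rho ≤ l ∧ l ≤ 2 * L0 ∧ (∀ r' : ℝ, l ≤ r' → p.fine' c x r') ∧
      (l = rho ∨ ∃ r' : ℝ, l / 2 ≤ r' ∧ rho ≤ r' ∧ ¬ p.fine' c x r') := by
  have hex : ∃ m : ℕ, ∀ r' : ℝ, rho * 2 ^ m ≤ r' → p.fine' c x r' := by
    obtain ⟨m, hm⟩ := pow_unbounded_of_one_lt (L0 / rho) (one_lt_two (α := ℝ))
    refine ⟨m, fun r' hr' => hf r' (le_trans ?_ hr')⟩
    rw [div_lt_iff₀ hrho] at hm
    linarith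
  classical
  have hsp := Nat.find_spec hex
  have hmin := fun k => Nat.find_min hex (m := k)
  rcases h0 : Nat.find hex with _ | m
  · rw [h0] at hsp
    refine ⟨rho, le_rfl, by linarith, fun r' hr' => hsp r' (by simpa using hr'), Or.inl rfl⟩
  · rw [h0] at hsp
    have h1 := hmin m (by rw [h0]; exact Nat.lt_succ_self m)
    push Not at h1
    obtain ⟨r', hr1, hr2⟩ := h1
    have hle : rho ≤ rho * 2 ^ m := by
      have : (1 : ℝ) ≤ 2 ^ m := one_le_pow₀ (by norm_num)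
      nlinarith
    have hlt : rho * 2 ^ m < L0 := by
      by_contra hcon
      push Not at hcon
      exact hr2 (hf r' (hcon.trans hr1))
    have e1 : rho * 2 ^ (m + 1) = 2 * (rho * 2 ^ m) := by ring
    refine ⟨rho * 2 ^ (m + 1), ?_, ?_, hsp, Or.inr ⟨r', ?_, hle.trans hr1, hr2⟩⟩
    · rw [e1]; linarith
    · rw [e1]; linarith
    · rw [e1]; linarith

theorem bad_ball {p : Par} {c : V → ℝ} {x : V} {rho r l : ℝ} (hr : 0 < r) (hrho : r ≤ rho)
    (hl : rho ≤ l) (hok : ¬ Ok p c rho r x)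
    (h : l = rho ∨ ∃ r' : ℝ, l / 2 ≤ r' ∧ rho ≤ r' ∧ ¬ p.fine' c x r') {x' : V}
    (hx' : ‖x' - x‖ ≤ l / 4) : Bad p c rho r x' := by
  have hn : ‖x - x'‖ ≤ l / 4 := by rw [norm_sub_rev]; exact hx'
  rcases h with rfl | ⟨r', h1, h2, h3⟩
  · unfold Ok at hok
    push Not at hok
    obtain ⟨y, hy, r', hr', hf⟩ := hok
    refine ⟨y, ?_, r', hr', hf⟩
    have e1 : y - x' = (y - x) + (x - x') := by abel
    have := norm_add_le (y - x) (x - x')
    rw [e1]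
    linarith
  · refine ⟨x', by rw [sub_self, norm_zero]; linarith, r', by linarith, fun hf => h3 ?_⟩
    intro z hz
    refine hf z ?_
    have e1 : z - x' = (z - x) + (x - x') := by abel
    have := norm_add_le (z - x) (x - x')
    rw [e1]
    linarith

theorem ok_fine' {p : Par} {c : V → ℝ} {x : V} {rho r : ℝ} (hr : 0 ≤ r) (hok : Ok p c rho r x)
    {y : V} (hy : ‖y - x‖ ≤ 2 * rho) {r' : ℝ} (hr' : r ≤ r') : p.fine' c y r' := by
  intro z hz
  exact hok y hy r' hr' z (hz.trans (by linarith))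

end Pool.Agent.FCF
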