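import Pool.Agent.FCF.PlGeo

/-!
# FCF / PlVit: Vitali covering for finitely many discs

PROOF. `Vitali.exists_disjoint_subfamily_covering_enlargement` (Mathlib) for the family `B i = closedBall (x i) (l i / 4)`, `δ = l`, factor `2`: a disjoint subfamily `u` such that every `i ∈ I` has `j ∈ u` with
`(B i ∩ B j).Nonempty` and `l i ≤ 2 * l j`; so `‖x i - x j‖ ≤ l i/4 + l j/4 ≤ 3/4 l j`. (`u` is finite: subset of `I`.) The discs of `u` are disjoint subsets of `G`:
`∑ π (l j/4)^2 ≤ volume G ≤ m` (`EuclideanSpace.volume_closedBall_fin_two` or similar, `measure_biUnion_finset`), so `∑ (l j)^2 ≤ 16 m/π ≤ 6 m`.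
-/

set_option autoImplicit false

namespace Pool.Agent.FCF

open Pool.Agent.VSC (V J LowJet)
open Set Metric

theorem vitali_sum {ι : Type} [DecidableEq ι] (I : Finset ι) (x : ι → V) (l : ι → ℝ)
    (hl : ∀ i ∈ I, 0 < l i) {G : Set V} (hG : ∀ i ∈ I, closedBall (x i) (l i / 4) ⊆ G) {m : ℝ}
    (hm : 0 ≤ m) (hvol : MeasureTheory.volume G ≤ ENNReal.ofReal m) :
    ∃ u : Finset ι, u ⊆ I ∧ ∑ j ∈ u, l j ^ 2 ≤ 6 * m ∧
      ∀ i ∈ I, ∃ j ∈ u, ‖x i - x j‖ ≤ l j ∧ l i ≤ 2 * l j := by
  classical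
  obtain ⟨R, hR⟩ : ∃ R : ℝ, ∀ i ∈ (I : Set ι), l i ≤ R := by
    obtain ⟨R, hR⟩ := (I.finite_toSet.image l).bddAbove
    exact ⟨R, fun i hi => hR (Set.mem_image_of_mem l hi)⟩
  obtain ⟨u, huI, hdisj, hcov⟩ := Vitali.exists_disjoint_subfamily_covering_enlargement
    (fun i => closedBall (x i) (l i / 4)) (I : Set ι) l 2 one_lt_two
    (fun i hi => (hl i hi).le) R hR
    (fun i hi => ⟨x i, mem_closedBall_self (by have := hl i hi; linarith)⟩)
  have hufin : u.Finite := I.finite_toSet.subset huI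
  have hmem : ∀ j, j ∈ hufin.toFinset ↔ j ∈ u := fun j => hufin.mem_toFinset
  refine ⟨hufin.toFinset, ?_, ?_, ?_⟩
  · intro j hj
    exact huI ((hmem j).1 hj)
  · have h1 : MeasureTheory.volume (⋃ j ∈ hufin.toFinset, closedBall (x j) (l j / 4)) =
        ∑ j ∈ hufin.toFinset, MeasureTheory.volume (closedBall (x j) (l j / 4)) := by
      refine MeasureTheory.measure_biUnion_finset ?_ (fun j _ => measurableSet_closedBall)
      intro i hi j hj hij
      exact hdisj ((hmem i).1 hi) ((hmem j).1 hj) hij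
    have h2 : MeasureTheory.volume (⋃ j ∈ hufin.toFinset, closedBall (x j) (l j / 4)) ≤
        ENNReal.ofReal m := by
      refine (MeasureTheory.measure_mono ?_).trans hvol
      intro z hz
      simp only [Set.mem_iUnion] at hz
      obtain ⟨j, hj, hz⟩ := hz
      exact hG j (huI ((hmem j).1 hj)) hz
    have h3 : ∀ j ∈ hufin.toFinset, MeasureTheory.volume (closedBall (x j) (l j / 4)) =
        ENNReal.ofReal (Real.pi * (l j / 4) ^ 2) := by
      intro j hj
      have hlj : 0 < l j := hl j (huI ((hmem j).1 hj))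
      rw [EuclideanSpace.volume_closedBall_fin_two, ← ENNReal.ofReal_pow (by positivity)]
      rw [mul_comm Real.pi, ENNReal.ofReal_mul (by positivity)]
    rw [h1, Finset.sum_congr rfl h3, ← ENNReal.ofReal_sum_of_nonneg (fun j _ => by positivity),
      ENNReal.ofReal_le_ofReal_iff hm] at h2
    have h4 : ∑ j ∈ hufin.toFinset, Real.pi * (l j / 4) ^ 2 =
        Real.pi / 16 * ∑ j ∈ hufin.toFinset, l j ^ 2 := by
      rw [Finset.mul_sum]
      refine Finset.sum_congr rfl fun j _ => ?_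
      ring
    rw [h4] at h2
    have h5 : 0 ≤ ∑ j ∈ hufin.toFinset, l j ^ 2 := Finset.sum_nonneg fun j _ => sq_nonneg _
    nlinarith [Real.pi_gt_three]
  · intro i hi
    obtain ⟨j, hj, hne, hle⟩ := hcov i hi
    refine ⟨j, (hmem j).2 hj, ?_, hle⟩
    have h6 := dist_le_add_of_nonempty_closedBall_inter_closedBall hne
    rw [dist_eq_norm] at h6
    have := hl j (huI hj)
    linarith

end Pool.Agent.FCF
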