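import Pool.Agent.FCF.PlLevel
import Pool.Agent.FCF.PlScale
import Pool.Agent.FCF.PlVit
import Pool.Agent.FCF.PlGroup

/-!
# FCF / PlBadC: the number of bad, not steep pairs (line, level)

PROOF. For `q ∈ I` take `l q` from `exists_scale` (`L0 = R/4`, `hfine`): `rho ≤ l q ≤ R/2`, `fine' c (x q) r'` for `r' ≥ l q`. `G = {y | |al e y| ≤ K R ∧ |ze e y| ≤ H ∧ Bad p c rho r y}`.
`closedBall (x q) (l q/4) ⊆ G`: `bad_ball`; `|al| ≤ (K-1)R + R/8`; `0 < ze e (x q) ≤ H/2` (`hP.top`), so `|ze e y| ≤ H/2 + R/8 ≤ H`. `vitali_sum`: `u ⊆ I`, `∑_{u} (l j)^2 ≤ 6 m`.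
`level_bound`: `g_q < b(x q) - a(x q) ≤ g_q + C3 (l q)`, `g_q = g0 + q.2 * (2 C3 r)` (`hp1`, `l q ≥ rho ≥ 2`, `l q ≤ R/2`).
Let `j0 ∈ u`, `lm = l j0`, `G_{j0} = {q ∈ I | ‖x q - x j0‖ ≤ lm ∧ l q ≤ 2 lm}`. `group_count` with `s = al e (x j0)`, `c = 4 C3`, `De = 2 C3 r`, `d = b(x j0) - a(x j0) - g0`: `|q.1 rho - s| ≤ lm` (`al e (x q) = q.1 rho`);
`|(b-a)(x q) - (b-a)(x j0)| ≤ 2 C3 lm` (`hP.osc` at `x j0`, scale `lm`), `|g_q - (b-a)(x q)| ≤ C3 (l q) ≤ 2 C3 lm`. So `card ≤ (3 lm/rho)(3 * 4 C3 lm/(2 C3 r)) = 18 lm^2/(rho r)`. Sum over `u`: `card I ≤ 18 * 6 m/(rho r)`.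
(`p.C3 > 0`, `p.M1 > 0` from the fields of `Par`.)
-/

set_option autoImplicit false

namespace Pool.Agent.FCF

open Pool.Agent.VSC (V J LowJet)
open Set Metric

theorem bad_pairs {p : Par} {c : V → ℝ} {e : V} (he : ‖e‖ = 1)
    {K R H T dl g0 rho r tau : ℝ} {a b : V → ℝ} (hP : Pair p c e K R H T dl g0 rho r tau a b)
    (hT : -dl ≤ T) (hK : 1 ≤ K) (h1r : 1 ≤ r) (hrrho : r ≤ rho) (h2rho : 2 ≤ rho)
    (hrhoR : 8 * rho ≤ R) (hHR : 4 * R ≤ H)
    (hfine : ∀ x ∈ Rec e (K * R) R H, ∀ r' : ℝ, R / 4 ≤ r' → p.fine' c x r') {m : ℝ} (hm : 0 ≤ m)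
    (hvol : MeasureTheory.volume {x : V | |al e x| ≤ K * R ∧ |ze e x| ≤ H ∧ Bad p c rho r x} ≤
      ENNReal.ofReal m) {hp : ℝ} (hp1 : p.M1 * hp ≤ 1) (I : Finset (ℤ × ℕ)) (x : ℤ × ℕ → V)
    (h1 : ∀ q ∈ I, x q ∈ Ov e (K * R) R H a b (g0 + q.2 * (2 * (p.C3 * r))))
    (h2 : ∀ q ∈ I, al e (x q) = q.1 * rho) (h3 : ∀ q ∈ I, |(q.1 : ℝ) * rho| ≤ (K - 1) * R)
    (h4 : ∀ q ∈ I, a (x q) < T)
    (h5 : ∀ q ∈ I, a (x q) <
      th e (K * R) R H a b T (g0 + q.2 * (2 * (p.C3 * r))) (q.1 * rho) + hp / 4)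
    (h6 : ∀ q ∈ I, ¬ Ok p c rho r (x q))
    (h7 : ∀ q ∈ I, ∀ l s : ℝ, rho ≤ l → |s| < K * R → |s - q.1 * rho| ≤ l →
      th e (K * R) R H a b T (g0 + q.2 * (2 * (p.C3 * r))) (q.1 * rho) - 1 / (4 * p.M1) * l ≤
        th e (K * R) R H a b T (g0 + q.2 * (2 * (p.C3 * r))) s) :
    (I.card : ℝ) ≤ 108 * m / (rho * r) := by
  classical
  have hM1 : 0 < p.M1 := by
    have := p.hM
    unfold Par.M1
    linarith
  have hC3 : 0 < p.C3 := by
    have h := p.hsig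
    have h' : 0 < p.C1 := by
      unfold Par.C1
      have : 0 < p.M1 * p.sig := mul_pos hM1 (by linarith)
      linarith
    unfold Par.C3
    have : 0 < p.sig := by linarith
    positivity
  have hrho0 : 0 < rho := by linarith
  have hr0 : 0 < r := by linarith
  have hR0 : 0 < R := by linarith
  have hex : ∀ q : ℤ × ℕ, ∃ l : ℝ, q ∈ I → rho ≤ l ∧ l ≤ 2 * (R / 4) ∧
      (∀ r' : ℝ, l ≤ r' → p.fine' c (x q) r') ∧
      (l = rho ∨ ∃ r' : ℝ, l / 2 ≤ r' ∧ rho ≤ r' ∧ ¬ p.fine' c (x q) r') := by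
    intro q
    by_cases hq : q ∈ I
    · obtain ⟨l, hl⟩ := exists_scale (p := p) (c := c) (x := x q) (rho := rho) (L0 := R / 4) hrho0
        (by linarith) (hfine (x q) (h1 q hq).1)
      exact ⟨l, fun _ => hl⟩
    · exact ⟨0, fun h => absurd h hq⟩
  choose l hl using hex
  have hG : ∀ q ∈ I, closedBall (x q) (l q / 4) ⊆
      {y : V | |al e y| ≤ K * R ∧ |ze e y| ≤ H ∧ Bad p c rho r y} := by
    intro q hq y hy
    obtain ⟨e1, e2, e3, e4⟩ := hl q hq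
    rw [mem_closedBall, dist_eq_norm] at hy
    have f1 := abs_al_sub_le he y (x q)
    have f2 := abs_ze_sub_le he y (x q)
    have f3 := h3 q hq
    rw [← h2 q hq] at f3
    have f4 := (h1 q hq).2.1
    have f5 := hP.top (x q) (h1 q hq).1 f4 (h4 q hq)
    have f6 := abs_le.1 f1
    have f7 := abs_le.1 f2
    have f8 := abs_le.1 f3
    refine ⟨abs_le.2 ⟨?_, ?_⟩, abs_le.2 ⟨?_, ?_⟩, ?_⟩
    · nlinarith
    · nlinarith
    · linarith
    · linarith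
    · exact bad_ball hr0 hrrho e1 (h6 q hq) e4 hy
  obtain ⟨u, hu, hsum, hcov⟩ := vitali_sum I x l (fun q hq => by
    have := (hl q hq).1
    linarith) hG hm hvol
  have hg : ∀ q : ℤ × ℕ, g0 ≤ g0 + q.2 * (2 * (p.C3 * r)) := by
    intro q
    have : 0 ≤ (q.2 : ℝ) * (2 * (p.C3 * r)) := by positivity
    linarith
  have hlev : ∀ q ∈ I, b (x q) - a (x q) ≤ g0 + q.2 * (2 * (p.C3 * r)) + p.C3 * l q := by
    intro q hq
    obtain ⟨e1, e2, e3, e4⟩ := hl q hq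
    have hal := h2 q hq
    refine level_bound he hP hT h1r (hg q) (h1 q hq) ?_ (h4 q hq) (by linarith) (by linarith)
      (by linarith) (e3 _ le_rfl) hp1 ?_ ?_
    · rw [hal]; exact h3 q hq
    · rw [hal]; exact h5 q hq
    · intro s hs1 hs2
      rw [hal] at hs2 ⊢
      exact h7 q hq (l q) s e1 hs1 hs2
  have hcnt : ∀ j ∈ u, ((I.filter (fun q => ‖x q - x j‖ ≤ l j ∧ l q ≤ 2 * l j)).card : ℝ) ≤
      18 / (rho * r) * l j ^ 2 := by
    intro j hj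
    have hjI := hu hj
    obtain ⟨e1, e2, e3, e4⟩ := hl j hjI
    have key := group_count (I.filter (fun q => ‖x q - x j‖ ≤ l j ∧ l q ≤ 2 * l j))
      (s := al e (x j)) (d := b (x j) - a (x j) - g0) (rho := rho) (lm := l j)
      (c := 4 * p.C3) (De := 2 * (p.C3 * r)) hrho0 e1 (by positivity)
      (by
        have : p.C3 * r ≤ p.C3 * l j := mul_le_mul_of_nonneg_left (by linarith) hC3.le
        nlinarith [mul_pos hC3 hr0])
      (by
        intro q hq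
        rw [Finset.mem_filter] at hq
        rw [← h2 q hq.1]
        exact (abs_al_sub_le he _ _).trans hq.2.1)
      (by
        intro q hq
        rw [Finset.mem_filter] at hq
        obtain ⟨hqI, hq1, hq2⟩ := hq
        have g1 := hlev q hqI
        have g2 := (h1 q hqI).2.2
        have g3 := hP.osc (x j) (h1 j hjI).1 (l j) (by linarith) (by linarith) (e3 _ le_rfl)
          (x q) (x j) (by linarith) (by rw [sub_self, norm_zero]; linarith)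
        have g4 := abs_le.1 g3.1
        have g5 := abs_le.1 g3.2
        have g6 : p.C3 * l q ≤ p.C3 * (2 * l j) := mul_le_mul_of_nonneg_left hq2 hC3.le
        have g7 : 0 ≤ p.C3 * l j := mul_nonneg hC3.le (by linarith)
        rw [abs_le]
        constructor
        · nlinarith
        · nlinarith)
    refine key.trans (le_of_eq ?_)
    have hC3' := hC3.ne'
    field_simp
    ring
  have hsub : I ⊆ u.biUnion fun j => I.filter (fun q => ‖x q - x j‖ ≤ l j ∧ l q ≤ 2 * l j) := by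
    intro q hq
    obtain ⟨j, hj, hj1, hj2⟩ := hcov q hq
    exact Finset.mem_biUnion.2 ⟨j, hj, Finset.mem_filter.2 ⟨hq, hj1, hj2⟩⟩
  have hc1 : (I.card : ℝ) ≤
      ∑ j ∈ u, ((I.filter (fun q => ‖x q - x j‖ ≤ l j ∧ l q ≤ 2 * l j)).card : ℝ) := by
    have := (Finset.card_le_card hsub).trans Finset.card_biUnion_le
    exact_mod_cast this
  calc (I.card : ℝ) ≤ ∑ j ∈ u, 18 / (rho * r) * l j ^ 2 := hc1.trans (Finset.sum_le_sum hcnt)
    _ = 18 / (rho * r) * ∑ j ∈ u, l j ^ 2 := by rw [Finset.mul_sum]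
    _ ≤ 18 / (rho * r) * (6 * m) := mul_le_mul_of_nonneg_left hsum (by positivity)
    _ = 108 * m / (rho * r) := by ring

end Pool.Agent.FCF
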