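import Pool.Agent.FCF.PlCount

/-!
# FCF / PlCore: choice of the parameters

PROOF. `C3 = p.C3 > 0`, `Cp = Cp p.M ≥ 1`. `eta = min 1 (eps/(32 C3 (kap+1) Cp))`, `del = eta/(216 C8)`. `hbad del eta` gives `rho0`. `rho = max rho0 8 (rmin/eta) (1/eta)`, `r = eta rho`, `tau = (rho - 4)/Cp`
(`Cp tau + 4 = rho`; `r/tau ≤ 2 eta Cp ≤ eps/(16 C3 (kap+1))`, so `4 C3 r ≤ tau`). `hp = hpl p.M p.L tau > 0`. `K = max 8 (256 M1 (kap+1)) (512 (kap+1) rho/hp)`. `hbad` for `rho, e, K, C8` gives `R0'`; `hlarge` with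
`eta' = 1/(4 (K+C8))` gives `R0''`. Let `R` be large.
* `hfine`: `x ∈ Rec`, `‖x‖ ≤ (K + C8) R =: R'` (`norm_lt_of_mem_Rec`), `r' ≥ R/4`: if `r' ≤ R'`: `hlarge` for `R'`; if `r' > R'`: `hlarge` for `R := r'`. `fine1 → fine'` (`Cs ≤ Cs+1`).
* `m = del (K R)(C8 R)`, `hvol` from `hbad` (`al e x = inner x (J e)`, `ze e x = inner x e`, `r = eta * rho`).
* `N = ⌈4 (kap+1) R/tau⌉₊`: `N tau ≥ 4 (T + dl)`, `g_N - g0 = N * 2 C3 r ≤ 8 C3 (kap+1)(r/tau) R + 2 C3 r ≤ eps R/2 + eps R/2`.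
* `failing_lines` for `S = {i ∈ Icc | R < i rho ≤ (K-1) R, th (g_N) (i rho) < T}`: the bound is `≤ KR/(16 rho) + KR/(16 rho) + KR/(8 rho) + 27 del K C8 R/(rho eta) ≤ 3 K R/(8 rho)`
  (`N ≥ 8 R/tau`, `tau/r ≤ 1/eta`). The number of integers `i` with `R < i rho ≤ (K-1) R` is `≥ (K-2)R/rho - 1 > 3 K R/(8 rho)`. So there is `i+` with `R < i+ rho ≤ (K-1) R`, `th (g_N)(i+ rho) ≥ T`. Similarly `i-` with
  `-(K-1)R ≤ i- rho < -R`.
* `QC_th` for `g_N`: for `|al e x| ≤ R`: `T ≤ th (g_N) (al e x) ≤ a x` for `x ∈ Ov (g_N) ⊇ Ov (g0 + eps R)`.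
-/

set_option autoImplicit false

namespace Pool.Agent.FCF

open Pool.Agent.VSC (V J LowJet)
open Set Metric

private theorem card_Ioc_ge {x y : ℝ} :
    y - x - 1 ≤ ((Finset.Ioc ⌊x⌋ ⌊y⌋).card : ℝ) := by
  rw [Int.card_Ioc]
  have h1 : ((⌊y⌋ - ⌊x⌋ : ℤ) : ℝ) ≤ (((⌊y⌋ - ⌊x⌋).toNat : ℤ) : ℝ) := by
    exact_mod_cast Int.self_le_toNat _
  have h2 := Int.sub_one_lt_floor y
  have h3 := Int.floor_le x
  push_cast at h1 ⊢
  linarith

theorem pl_core {p : Par} {c : V → ℝ} (hlarge : FineLarge p c) (hbad : BadRect p c) {e : V}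
    (he : ‖e‖ = 1) {kap C8 eps : ℝ} (hkap : 1 ≤ kap) (hC8 : 4 ≤ C8) (heps : 0 < eps)
    (heps1 : eps ≤ 1) (rmin : ℝ) :
    ∃ rho r tau K : ℝ, 1 ≤ r ∧ rmin ≤ r ∧ r ≤ rho ∧ 0 < tau ∧ Cp p.M * tau + 4 ≤ rho ∧ 8 ≤ K ∧
      ∃ R0 : ℝ, ∀ R : ℝ, R0 ≤ R → ∀ dl g0 : ℝ, 0 ≤ dl → dl ≤ R → 0 ≤ g0 → ∀ a b : V → ℝ,
        Pair p c e K R (C8 * R) (kap * R) dl g0 rho r tau a b →
        ∀ x ∈ Ov e (K * R) R (C8 * R) a b (g0 + eps * R), |al e x| ≤ R → kap * R ≤ a x := by
  have hM := p.hM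
  have hsig := p.hsig
  have hM1 : 6 ≤ p.M1 := by unfold Par.M1; linarith
  have hC1 : 4 ≤ p.C1 := by
    unfold Par.C1
    have : 0 ≤ p.M1 * p.sig := by positivity
    linarith
  have hC3 : 40 ≤ p.C3 := by
    unfold Par.C3
    have : 4 * 1 ≤ p.C1 * p.sig := by gcongr
    linarith
  have hCp : 1 ≤ Cp p.M := by unfold Cp; linarith
  -- eta
  have hq1 : 1 ≤ 32 * p.C3 * (kap + 1) * Cp p.M := by
    have h1 : 1 ≤ 32 * p.C3 := by linarith
    have h2 : 1 ≤ 32 * p.C3 * (kap + 1) := one_le_mul_of_one_le_of_one_le h1 (by linarith)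
    exact one_le_mul_of_one_le_of_one_le h2 hCp
  obtain ⟨eta, heta, heta1, hetaq⟩ : ∃ eta : ℝ, 0 < eta ∧ eta ≤ 1 ∧
      eta * (32 * p.C3 * (kap + 1) * Cp p.M) = eps := by
    refine ⟨eps / (32 * p.C3 * (kap + 1) * Cp p.M), by positivity, ?_, ?_⟩
    · rw [div_le_one (by linarith)]
      linarith
    · exact div_mul_cancel₀ _ (by linarith)
  obtain ⟨del, hdel, hdelC⟩ : ∃ del : ℝ, 0 < del ∧ 216 * (del * C8) = eta :=
    ⟨eta / (216 * C8), by positivity, by field_simp⟩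
  obtain ⟨rho0, hrho0⟩ := hbad del hdel eta heta
  obtain ⟨rho, hrhoa, hrho8, hrhob, hrhoc⟩ : ∃ rho : ℝ, rho0 ≤ rho ∧ 8 ≤ rho ∧ rmin / eta ≤ rho ∧
      1 / eta ≤ rho :=
    ⟨max (max rho0 8) (max (rmin / eta) (1 / eta)), (le_max_left _ _).trans (le_max_left _ _),
      (le_max_right _ _).trans (le_max_left _ _), (le_max_left _ _).trans (le_max_right _ _),
      (le_max_right _ _).trans (le_max_right _ _)⟩
  have hrmin : rmin ≤ eta * rho := by
    rw [div_le_iff₀ heta] at hrhob; linarith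
  have h1r : 1 ≤ eta * rho := by
    rw [div_le_iff₀ heta] at hrhoc; linarith
  have hrrho : eta * rho ≤ rho := mul_le_of_le_one_left (by linarith) heta1
  obtain ⟨tau, htau, htau'⟩ : ∃ tau : ℝ, 0 < tau ∧ Cp p.M * tau = rho - 4 :=
    ⟨(rho - 4) / Cp p.M, div_pos (by linarith) (by linarith), by
      field_simp⟩
  have htaurho : tau ≤ rho := by
    have := le_mul_of_one_le_left htau.le hCp
    linarith
  have hrt : eta * rho ≤ 2 * eta * (Cp p.M * tau) := by
    rw [htau']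
    have h1 : eta * rho ≤ eta * (2 * (rho - 4)) :=
      mul_le_mul_of_nonneg_left (by linarith) heta.le
    linarith
  have hp0 : 0 < hpl p.M p.L tau := hpl_pos hM
  obtain ⟨K, hK8, hKa, hKb⟩ : ∃ K : ℝ, 8 ≤ K ∧ 256 * p.M1 * (kap + 1) ≤ K ∧
      512 * (kap + 1) * rho / hpl p.M p.L tau ≤ K :=
    ⟨max (max 8 (256 * p.M1 * (kap + 1))) (512 * (kap + 1) * rho / hpl p.M p.L tau),
      (le_max_left _ _).trans (le_max_left _ _), (le_max_right _ _).trans (le_max_left _ _),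
      le_max_right _ _⟩
  obtain ⟨R1, hR1⟩ := hrho0 rho hrhoa e he K C8 (by linarith) (by linarith)
  obtain ⟨R2, hR2⟩ := hlarge (1 / (4 * (K + C8))) (by positivity)
  refine ⟨rho, eta * rho, tau, K, h1r, hrmin, hrrho, htau, by linarith, hK8,
    max (max R1 R2) (max (32 * rho) (max (4 * (p.C3 * (eta * rho)) / eps) 1)), ?_⟩
  intro R hR dl g0 hdl hdlR hg0 a b hP x hx hxR
  have hRa : R1 ≤ R := ((le_max_left _ _).trans (le_max_left _ _)).trans hR
  have hRb : R2 ≤ R := ((le_max_right _ _).trans (le_max_left _ _)).trans hR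
  have hRc : 32 * rho ≤ R := ((le_max_left _ _).trans (le_max_right _ _)).trans hR
  have hRd : 4 * (p.C3 * (eta * rho)) / eps ≤ R :=
    (((le_max_left _ _).trans (le_max_right _ _)).trans (le_max_right _ _)).trans hR
  have hRe : 1 ≤ R :=
    (((le_max_right _ _).trans (le_max_right _ _)).trans (le_max_right _ _)).trans hR
  have hR0 : 0 < R := by linarith
  have hrho_pos : 0 < rho := by linarith
  -- the level
  set κ : ℝ := kap + 1 with hκ
  have hκ2 : 2 ≤ κ := by linarith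
  set T : ℝ := kap * R with hT
  have hT0 : 0 ≤ T := by positivity
  have hTdl : T + dl ≤ κ * R := by rw [hκ, hT]; linarith
  set N : ℕ := ⌈4 * κ * R / tau⌉₊ with hN
  have hNle : (N : ℝ) ≤ 4 * κ * R / tau + 1 := (Nat.ceil_lt_add_one (by positivity)).le
  have hNge : 4 * κ * R / tau ≤ N := Nat.le_ceil _
  have hNtau : 4 * κ * R ≤ N * tau := by rwa [div_le_iff₀ htau] at hNge
  have hN1 : 1 ≤ N := by
    rw [hN, Nat.one_le_ceil_iff]
    positivity
  have hNt : 4 * (T + dl) ≤ N * tau := by linarith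
  have hNpos : (0 : ℝ) < N := by exact_mod_cast hN1
  set gN : ℝ := g0 + N * (2 * (p.C3 * (eta * rho))) with hgN
  have hg1 : g0 ≤ gN := by
    rw [hgN]
    have : 0 ≤ (N : ℝ) * (2 * (p.C3 * (eta * rho))) := by positivity
    linarith
  have hg2 : gN ≤ g0 + eps * R := by
    rw [hgN]
    have h1 : (N : ℝ) * (2 * (p.C3 * (eta * rho))) ≤
        (4 * κ * R / tau + 1) * (2 * (p.C3 * (eta * rho))) := by gcongr
    have h2 : 4 * κ * R / tau * (2 * (p.C3 * (eta * rho))) ≤ eps * R / 2 := by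
      have h3 : 4 * κ * R / tau * (2 * (p.C3 * (eta * rho))) ≤
          4 * κ * R / tau * (2 * (p.C3 * (2 * eta * (Cp p.M * tau)))) := by gcongr
      have h4 : 4 * κ * R / tau * (2 * (p.C3 * (2 * eta * (Cp p.M * tau)))) =
          (eta * (32 * p.C3 * κ * Cp p.M)) * R / 2 := by
        field_simp
        ring
      rw [h4, hetaq] at h3
      exact h3
    have h5 : 2 * (p.C3 * (eta * rho)) ≤ eps * R / 2 := by
      rw [div_le_iff₀ heps] at hRd
      linarith
    have h6 : (4 * κ * R / tau + 1) * (2 * (p.C3 * (eta * rho))) =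
        4 * κ * R / tau * (2 * (p.C3 * (eta * rho))) + 2 * (p.C3 * (eta * rho)) := by ring
    linarith
  have hCt : 4 * (p.C3 * (eta * rho)) ≤ tau := by
    have h1 : 4 * (p.C3 * (eta * rho)) ≤ 4 * (p.C3 * (2 * eta * (Cp p.M * tau))) := by gcongr
    have h2 : 4 * (p.C3 * (2 * eta * (Cp p.M * tau))) * (4 * κ) =
        (eta * (32 * p.C3 * κ * Cp p.M)) * tau := by ring
    rw [hetaq] at h2
    have h3 : 0 ≤ 4 * (p.C3 * (2 * eta * (Cp p.M * tau))) := by positivity
    have h4 := le_mul_of_one_le_right h3 (by linarith : 1 ≤ 4 * κ)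
    have h5 := mul_le_of_le_one_left htau.le heps1
    linarith
  -- fineness at large scales
  have hRC : R ≤ C8 * R := le_mul_of_one_le_left hR0.le (by linarith)
  have hRKC : R ≤ (K + C8) * R := le_mul_of_one_le_left hR0.le (by linarith)
  have hfine : ∀ x ∈ Rec e (K * R) R (C8 * R), ∀ r' : ℝ, R / 4 ≤ r' → p.fine' c x r' := by
    intro y hy r' hr'
    have hy1 := norm_lt_of_mem_Rec he hy hRC
    have hy2 : ‖y‖ ≤ (K + C8) * R := by linarith
    have hr0 : 0 ≤ r' := by linarith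
    have hf : p.fine1 c y r' := by
      by_cases h : r' ≤ (K + C8) * R
      · refine hR2 ((K + C8) * R) (hRb.trans hRKC) y hy2 r' ?_ h
        have : 1 / (4 * (K + C8)) * ((K + C8) * R) = R / 4 := by field_simp
        rw [this]; exact hr'
      · push Not at h
        refine hR2 r' ((hRb.trans hRKC).trans h.le) y (hy2.trans h.le) r' ?_ le_rfl
        have : 1 / (4 * (K + C8)) ≤ 1 := by
          rw [div_le_one (by positivity)]; linarith
        exact mul_le_of_le_one_left hr0 this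
    intro z hz
    exact hf z (hz.trans (mul_le_mul_of_nonneg_right (by linarith) hr0))
  -- volume of the bad set
  set m : ℝ := del * (K * R) * (C8 * R) with hm
  have hm0 : 0 ≤ m := by positivity
  have hvol : MeasureTheory.volume {x : V | |al e x| ≤ K * R ∧ |ze e x| ≤ C8 * R ∧
      Bad p c rho (eta * rho) x} ≤ ENNReal.ofReal m := hR1 R hRa
  -- the bound for failing lines
  have hX : 0 < K * R / rho := by positivity
  have hbound : ∀ S : Finset ℤ, (∀ i ∈ S, |(i : ℝ) * rho| ≤ (K - 1) * R ∧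
      th e (K * R) R (C8 * R) a b T gN (i * rho) < T) → (S.card : ℝ) ≤ 3 / 8 * (K * R / rho) := by
    intro S hS
    have h1 := failing_lines he hP hdl hT0 (by linarith) h1r hrrho (by linarith) (by linarith)
      (mul_le_mul_of_nonneg_right hC8 hR0.le) htau hCt hfine hm0 hvol hN1 hNt S hS
    have hb1 : 16 * (2 * (T + dl) / hpl p.M p.L tau + 1) ≤
        1 / 16 * (K * R / rho) + 1 / 16 * (K * R / rho) := by
      have h2 : 2 * (T + dl) / hpl p.M p.L tau ≤ 2 * (κ * R) / hpl p.M p.L tau := by gcongr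
      have h3 : 16 * (2 * (κ * R) / hpl p.M p.L tau) =
          1 / 16 * (512 * κ * rho / hpl p.M p.L tau * R / rho) := by
        field_simp
        ring
      have h4 : 1 / 16 * (512 * κ * rho / hpl p.M p.L tau * R / rho) ≤
          1 / 16 * (K * R / rho) := by gcongr
      have h5 : 16 ≤ 1 / 16 * (K * R / rho) := by
        have : 256 ≤ K * R / rho := by
          rw [le_div_iff₀ hrho_pos]
          calc 256 * rho = 8 * (32 * rho) := by ring
            _ ≤ K * R := by gcongr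
        linarith
      linarith
    have hb2 : 32 * p.M1 * (T + dl) / rho ≤ 1 / 8 * (K * R / rho) := by
      have h2 : 32 * p.M1 * (T + dl) / rho ≤ 32 * p.M1 * (κ * R) / rho := by gcongr
      have h3 : 32 * p.M1 * (κ * R) / rho = 1 / 8 * (256 * p.M1 * κ * R / rho) := by ring
      have h4 : 1 / 8 * (256 * p.M1 * κ * R / rho) ≤ 1 / 8 * (K * R / rho) := by gcongr
      linarith
    have hb3 : 216 * m / (rho * (eta * rho) * N) ≤ 1 / 8 * (K * R / rho) := by
      rw [div_le_iff₀ (by positivity)]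
      have h2 : 216 * m = eta * (K * R * R) := by
        rw [hm, ← hdelC]; ring
      rw [h2]
      have h3 : 1 / 8 * (K * R / rho) * (rho * (eta * rho) * N) =
          1 / 8 * (eta * (K * R) * (N * rho)) := by
        field_simp
      rw [h3]
      have h4 : 8 * R ≤ N * rho := by
        have h5 : (N : ℝ) * tau ≤ N * rho := by gcongr
        have h6 : 8 * R ≤ 4 * κ * R := mul_le_mul_of_nonneg_right (by linarith) hR0.le
        linarith
      have h5 : eta * (K * R) * (8 * R) ≤ eta * (K * R) * (N * rho) := by gcongr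
      have h6 : eta * (K * R) * (8 * R) = 8 * (eta * (K * R * R)) := by ring
      linarith
    linarith
  have hcard : 3 / 8 * (K * R / rho) <
      ((Finset.Ioc ⌊R / rho⌋ ⌊(K - 1) * R / rho⌋).card : ℝ) := by
    refine lt_of_lt_of_le ?_ card_Ioc_ge
    have h1 : (K - 1) * R / rho - R / rho = K * R / rho - 2 * (R / rho) := by ring
    have h2 : 8 * (R / rho) ≤ K * R / rho := by
      rw [mul_div_assoc]; gcongr
    have h3 : 32 ≤ R / rho := by rw [le_div_iff₀ hrho_pos]; exact hRc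
    linarith
  have hmem : ∀ i ∈ Finset.Ioc ⌊R / rho⌋ ⌊(K - 1) * R / rho⌋,
      R < (i : ℝ) * rho ∧ (i : ℝ) * rho ≤ (K - 1) * R := by
    intro i hi
    rw [Finset.mem_Ioc, Int.floor_lt, Int.le_floor, div_lt_iff₀ hrho_pos,
      le_div_iff₀ hrho_pos] at hi
    exact hi
  -- lines on the right
  obtain ⟨i1, hi1, hti1⟩ : ∃ i ∈ Finset.Ioc ⌊R / rho⌋ ⌊(K - 1) * R / rho⌋,
      T ≤ th e (K * R) R (C8 * R) a b T gN (i * rho) := by
    by_contra hcon
    push Not at hcon
    have := hbound _ fun i hi => ⟨by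
      obtain ⟨h1, h2⟩ := hmem i hi
      rw [abs_le]; constructor <;> linarith, hcon i hi⟩
    linarith
  -- lines on the left
  obtain ⟨i2, hi2, hti2⟩ : ∃ i ∈ Finset.Ioc ⌊R / rho⌋ ⌊(K - 1) * R / rho⌋,
      T ≤ th e (K * R) R (C8 * R) a b T gN (-(i * rho)) := by
    by_contra hcon
    push Not at hcon
    have h := hbound ((Finset.Ioc ⌊R / rho⌋ ⌊(K - 1) * R / rho⌋).image fun i => -i) fun i hi => by
      obtain ⟨j, hj, rfl⟩ := Finset.mem_image.1 hi
      obtain ⟨h1, h2⟩ := hmem j hj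
      have h3 : ((-j : ℤ) : ℝ) * rho = -((j : ℝ) * rho) := by push_cast; ring
      rw [h3]
      refine ⟨?_, hcon j hj⟩
      rw [abs_neg, abs_le]; constructor <;> linarith
    rw [Finset.card_image_of_injective _ neg_injective] at h
    linarith
  obtain ⟨h1a, h1b⟩ := hmem i1 hi1
  obtain ⟨h2a, h2b⟩ := hmem i2 hi2
  have hlo : ∀ x ∈ Ov e (K * R) R (C8 * R) a b gN, -dl ≤ a x := fun y hy => hP.lb y hy.1 hy.2.1
  have hloT : -dl ≤ T := by linarith
  have hqc := QC_th (T := T) (g := gN) hloT hlo (hP.maxp gN hg1)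
  have hxg : x ∈ Ov e (K * R) R (C8 * R) a b gN := Ov_anti hg2 hx
  obtain ⟨hx1, hx2⟩ := abs_le.1 hxR
  have h3 := hqc (-(i2 * rho)) (al e x) (i1 * rho) (by linarith) (by linarith) (by linarith)
    (by linarith)
  exact ((le_min hti2 hti1).trans h3).trans (th_le_of_mem hloT hlo hxg rfl)

end Pool.Agent.FCF
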