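import Pool.Agent.FCF.PlGeo

/-!
# FCF / PlFlat: a quasi-concave function is flat (up to `hh`) near most grid points

PROOF. Left type: the witness `s` has `s < i rho` (right type: `i rho < s`; `s = i rho` is impossible). Let `S'` be a set of left type indices of the same parity and `i < i'` in `S'`; then
`i' ≥ i + 2`, the witness `s` of `i'` satisfies `s ≥ i' rho - w ≥ i rho` (`w ≤ 2 rho`), and by quasi-concavity for `i rho ≤ s ≤ i' rho`: `min (f (i rho)) (f (i' rho)) ≤ f s < f (i' rho) - hh`, so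
`f (i rho) < f (i' rho) - hh`. So `i ↦ ⌊(f (i rho) - lo)/hh⌋₊` is injective on `S'` with values `≤ (hi-lo)/hh`: `card S' ≤ (hi-lo)/hh + 1`. Four classes (left/right, even/odd).
Right type: the same for `f (-s)` (`QC` is symmetric), or directly.
-/

set_option autoImplicit false

namespace Pool.Agent.FCF

open Set

/-- one class: points of the same parity whose witnesses are on the left -/
private theorem flat_class {W : ℝ} {f : ℝ → ℝ} {lo hi hh w rho : ℝ} (hqc : QC W f)
    (hlo : ∀ s, lo ≤ f s) (hhi : ∀ s, f s ≤ hi) (hhh : 0 < hh) (hrho : 0 < rho)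
    (hw : w ≤ 2 * rho) (S : Finset ℤ) (c : ℤ) (hc : ∀ i ∈ S, i % 2 = c)
    (hS : ∀ i ∈ S, |(i : ℝ) * rho| + w < W ∧ ∃ s : ℝ, |s - i * rho| ≤ w ∧ s < i * rho ∧
      f s < f (i * rho) - hh) : (S.card : ℝ) ≤ (hi - lo) / hh + 1 := by
  have hstep : ∀ i ∈ S, ∀ i' ∈ S, i < i' → f (i * rho) < f (i' * rho) - hh := by
    intro i hi' i' hi'' hlt
    obtain ⟨h1, -⟩ := hS i hi'
    obtain ⟨h2, s, hs, hs1, hs2⟩ := hS i' hi''
    have hp1 := hc i hi'
    have hp2 := hc i' hi''
    have h3 : i + 2 ≤ i' := by omega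
    have h3' : (i : ℝ) + 2 ≤ i' := by exact_mod_cast h3
    have h4 : (i : ℝ) * rho ≤ s := by
      have h5 := (abs_le.1 hs).1
      nlinarith [mul_le_mul_of_nonneg_right h3' hrho.le]
    have hw0 : 0 ≤ w := (abs_nonneg _).trans hs
    have h6 : -W < (i : ℝ) * rho := by
      have := neg_abs_le ((i : ℝ) * rho)
      linarith
    have h7 : (i' : ℝ) * rho < W := by
      have := le_abs_self ((i' : ℝ) * rho)
      linarith
    have h8 := hqc _ _ _ h6 h4 hs1.le h7
    rcases min_le_iff.1 h8 with h9 | h9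
    · linarith
    · linarith
  have hval : ∀ i ∈ S, ∀ i' ∈ S, i < i' →
      ⌊(f (i * rho) - lo) / hh⌋₊ < ⌊(f (i' * rho) - lo) / hh⌋₊ := by
    intro i hi' i' hi'' hlt
    have h1 := hstep i hi' i' hi'' hlt
    have h2 : (f (i * rho) - lo) / hh + 1 ≤ (f (i' * rho) - lo) / hh := by
      rw [div_add_one hhh.ne', div_le_div_iff_of_pos_right hhh]
      linarith
    have h3 : 0 ≤ (f (i * rho) - lo) / hh := div_nonneg (by linarith [hlo (i * rho)]) hhh.le
    rw [← Nat.add_one_le_iff, ← Nat.floor_add_one h3]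
    exact Nat.floor_mono h2
  have hinj : Set.InjOn (fun i : ℤ => ⌊(f (i * rho) - lo) / hh⌋₊) (S : Set ℤ) := by
    intro i hi' i' hi'' he
    rcases lt_trichotomy i i' with h | h | h
    · exact absurd he (hval i hi' i' hi'' h).ne
    · exact h
    · exact absurd he (hval i' hi'' i hi' h).ne'
  have hcard : S.card ≤ ⌊(hi - lo) / hh⌋₊ + 1 := by
    have h1 : S.card ≤ (Finset.range (⌊(hi - lo) / hh⌋₊ + 1)).card := by
      refine Finset.card_le_card_of_injOn (fun i : ℤ => ⌊(f (i * rho) - lo) / hh⌋₊) ?_ hinj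
      intro i _
      rw [Finset.coe_range, Set.mem_Iio, Nat.lt_add_one_iff]
      refine Nat.floor_mono ?_
      rw [div_le_div_iff_of_pos_right hhh]
      linarith [hhi (i * rho)]
    rwa [Finset.card_range] at h1
  have h2 : (0 : ℝ) ≤ (hi - lo) / hh := div_nonneg (by linarith [hlo 0, hhi 0]) hhh.le
  have h3 : ((⌊(hi - lo) / hh⌋₊ : ℕ) : ℝ) ≤ (hi - lo) / hh := Nat.floor_le h2
  have h4 : (S.card : ℝ) ≤ ((⌊(hi - lo) / hh⌋₊ : ℕ) : ℝ) + 1 := by exact_mod_cast hcard
  linarith

theorem count_nonflat {W : ℝ} {f : ℝ → ℝ} {lo hi hh w rho : ℝ} (hqc : QC W f)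
    (hlo : ∀ s, lo ≤ f s) (hhi : ∀ s, f s ≤ hi) (hhh : 0 < hh) (hrho : 0 < rho)
    (hw : w ≤ 2 * rho) (S : Finset ℤ)
    (hS : ∀ i ∈ S, |(i : ℝ) * rho| + w < W ∧ ∃ s : ℝ, |s - i * rho| ≤ w ∧
      f s < f (i * rho) - hh) : (S.card : ℝ) ≤ 4 * ((hi - lo) / hh + 1) := by
  classical
  let L : ℤ → Prop := fun i => ∃ s : ℝ, |s - i * rho| ≤ w ∧ s < i * rho ∧ f s < f (i * rho) - hh
  let R : ℤ → Prop := fun i => ∃ s : ℝ, |s - i * rho| ≤ w ∧ i * rho < s ∧ f s < f (i * rho) - hh
  have hLR : ∀ i ∈ S, L i ∨ R i := by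
    intro i hi'
    obtain ⟨-, s, hs, hs2⟩ := hS i hi'
    rcases lt_trichotomy s (i * rho) with h | h | h
    · exact Or.inl ⟨s, hs, h, hs2⟩
    · rw [h] at hs2
      exact absurd hs2 (by linarith)
    · exact Or.inr ⟨s, hs, h, hs2⟩
  have hqc' : QC W (fun s => f (-s)) := by
    intro s1 s s2 h1 h2 h3 h4
    have h5 := hqc (-s2) (-s) (-s1) (by linarith) (by linarith) (by linarith) (by linarith)
    rw [min_comm]
    exact h5
  have hA : ∀ c : ℤ, ((S.filter (fun i => i % 2 = c ∧ L i)).card : ℝ) ≤ (hi - lo) / hh + 1 := by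
    intro c
    refine flat_class hqc hlo hhi hhh hrho hw _ c ?_ ?_
    · intro i hi'
      exact (Finset.mem_filter.1 hi').2.1
    · intro i hi'
      obtain ⟨h1, -, h2⟩ := Finset.mem_filter.1 hi'
      exact ⟨(hS i h1).1, h2⟩
  have hB : ∀ c : ℤ, ((S.filter (fun i => i % 2 = c ∧ R i)).card : ℝ) ≤ (hi - lo) / hh + 1 := by
    intro c
    have h1 : ((S.filter (fun i => i % 2 = c ∧ R i)).image (fun i => -i)).card =
        (S.filter (fun i => i % 2 = c ∧ R i)).card :=
      Finset.card_image_of_injective _ neg_injective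
    rw [← h1]
    refine flat_class hqc' (fun s => hlo (-s)) (fun s => hhi (-s)) hhh hrho hw _ c ?_ ?_
    · intro i hi'
      obtain ⟨k, hk, rfl⟩ := Finset.mem_image.1 hi'
      have := (Finset.mem_filter.1 hk).2.1
      omega
    · intro i hi'
      obtain ⟨k, hk, rfl⟩ := Finset.mem_image.1 hi'
      obtain ⟨h2, -, s, hs, hs1, hs2⟩ := Finset.mem_filter.1 hk
      refine ⟨?_, -s, ?_, ?_, ?_⟩
      · push_cast
        rw [neg_mul, abs_neg]
        exact (hS k h2).1
      · push_cast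
        rw [← abs_neg]
        have : -(-s - -(k : ℝ) * rho) = s - k * rho := by ring
        rwa [this]
      · push_cast
        linarith
      · push_cast
        rw [neg_neg, neg_mul, neg_neg]
        exact hs2
  have hsub : S ⊆ ((S.filter (fun i => i % 2 = 0 ∧ L i)) ∪ (S.filter (fun i => i % 2 = 1 ∧ L i))) ∪
      ((S.filter (fun i => i % 2 = 0 ∧ R i)) ∪ (S.filter (fun i => i % 2 = 1 ∧ R i))) := by
    intro i hi'
    have h1 : i % 2 = 0 ∨ i % 2 = 1 := by omega
    rcases hLR i hi' with h | h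
    · refine Finset.mem_union_left _ ?_
      rcases h1 with h1 | h1
      · exact Finset.mem_union_left _ (Finset.mem_filter.2 ⟨hi', h1, h⟩)
      · exact Finset.mem_union_right _ (Finset.mem_filter.2 ⟨hi', h1, h⟩)
    · refine Finset.mem_union_right _ ?_
      rcases h1 with h1 | h1
      · exact Finset.mem_union_left _ (Finset.mem_filter.2 ⟨hi', h1, h⟩)
      · exact Finset.mem_union_right _ (Finset.mem_filter.2 ⟨hi', h1, h⟩)
  have hle := (Finset.card_le_card hsub).trans (Finset.card_union_le _ _)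
  have hle1 := Finset.card_union_le (S.filter (fun i => i % 2 = 0 ∧ L i)) (S.filter (fun i => i % 2 = 1 ∧ L i))
  have hle2 := Finset.card_union_le (S.filter (fun i => i % 2 = 0 ∧ R i)) (S.filter (fun i => i % 2 = 1 ∧ R i))
  have hle3 : (S.card : ℝ) ≤ ((S.filter (fun i => i % 2 = 0 ∧ L i)).card + (S.filter (fun i => i % 2 = 1 ∧ L i)).card) +
      ((S.filter (fun i => i % 2 = 0 ∧ R i)).card + (S.filter (fun i => i % 2 = 1 ∧ R i)).card) := by
    exact_mod_cast hle.trans (Nat.add_le_add hle1 hle2)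
  linarith [hA 0, hA 1, hB 0, hB 1]

end Pool.Agent.FCF
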