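import Mathlib

/-!
# FCF / PlIncr: two finite counting lemmas

`count_incr`: `∑_{j ∈ G} d ≤ ∑_{j ∈ G} (θ j - θ (j-1)) ≤ ∑_{j = 1}^N (θ j - θ (j-1)) = θ N - θ 0 ≤ hi - lo` (monotone).
`double_count`: for `i ∈ S` at least `N/2` of the `j ∈ Icc 1 N` satisfy one of the four alternatives; sum over `i`, exchange the sums. The number of `(i,j)` with `NF i (j-1)` is `≤ ∑_{j'=0}^{N-1} A`.
-/

set_option autoImplicit false

namespace Pool.Agent.FCF

theorem count_incr {N : ℕ} {θ : ℕ → ℝ} {lo hi d : ℝ} (hmono : Monotone θ) (hlo : lo ≤ θ 0)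
    (hhi : θ N ≤ hi) (hd : 0 < d) (G : Finset ℕ)
    (hG : ∀ j ∈ G, 1 ≤ j ∧ j ≤ N ∧ θ (j - 1) + d ≤ θ j) : (G.card : ℝ) * d ≤ hi - lo := by
  have htel : ∀ n : ℕ, ∑ j ∈ Finset.Icc 1 n, (θ j - θ (j - 1)) = θ n - θ 0 := by
    intro n
    induction n with
    | zero => simp
    | succ n ih =>
      rw [Finset.sum_Icc_succ_top (by omega), ih]
      simp
  have h1 : (G.card : ℝ) * d ≤ ∑ j ∈ G, (θ j - θ (j - 1)) := by
    have h2 : ∑ _j ∈ G, d ≤ ∑ j ∈ G, (θ j - θ (j - 1)) :=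
      Finset.sum_le_sum fun j hj => by linarith [(hG j hj).2.2]
    rwa [Finset.sum_const, nsmul_eq_mul] at h2
  have h3 : ∑ j ∈ G, (θ j - θ (j - 1)) ≤ ∑ j ∈ Finset.Icc 1 N, (θ j - θ (j - 1)) := by
    refine Finset.sum_le_sum_of_subset_of_nonneg ?_ ?_
    · intro j hj
      exact Finset.mem_Icc.2 ⟨(hG j hj).1, (hG j hj).2.1⟩
    · intro j _ _
      have := hmono (Nat.sub_le j 1)
      linarith
  rw [htel N] at h3
  linarith

open Classical in
theorem double_count {N : ℕ} (S : Finset ℤ) (Gd NF St Bd : ℤ → ℕ → Prop) {A B C : ℝ}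
    (hA : 0 ≤ A) (hB : 0 ≤ B)
    (hall : ∀ i ∈ S, ∀ j ∈ Finset.Icc 1 N, Gd i j ∨ NF i j ∨ NF i (j - 1) ∨ St i j ∨ Bd i j)
    (hGd : ∀ i ∈ S, (((Finset.Icc 1 N).filter (fun j => Gd i j)).card : ℝ) ≤ N / 2)
    (hNF : ∀ j ≤ N, ((S.filter (fun i => NF i j)).card : ℝ) ≤ A)
    (hSt : ∀ j ≤ N, ((S.filter (fun i => St i j)).card : ℝ) ≤ B)
    (hBd : (((S ×ˢ Finset.Icc 1 N).filter (fun q => Bd q.1 q.2)).card : ℝ) ≤ C) :
    (S.card : ℝ) * (N / 2) ≤ N * (2 * A + B) + C := by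
  have key : ∀ i ∈ S, (N : ℝ) / 2 ≤ ∑ j ∈ Finset.Icc 1 N, ((if NF i j then (1 : ℝ) else 0) +
      (if NF i (j - 1) then (1 : ℝ) else 0) + (if St i j then (1 : ℝ) else 0) +
      (if Bd i j then (1 : ℝ) else 0)) := by
    intro i hi
    have h1 : (N : ℝ) ≤ ∑ j ∈ Finset.Icc 1 N, ((if Gd i j then (1 : ℝ) else 0) +
        ((if NF i j then (1 : ℝ) else 0) + (if NF i (j - 1) then (1 : ℝ) else 0) +
        (if St i j then (1 : ℝ) else 0) + (if Bd i j then (1 : ℝ) else 0))) := by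
      have h2 : (N : ℝ) = ∑ _j ∈ Finset.Icc 1 N, (1 : ℝ) := by simp
      rw [h2]
      refine Finset.sum_le_sum fun j hj => ?_
      have h0 : ∀ P : Prop, ∀ _ : Decidable P, (0 : ℝ) ≤ if P then (1 : ℝ) else 0 := by
        intro P _
        split_ifs <;> norm_num
      have e1 := h0 (Gd i j) inferInstance
      have e2 := h0 (NF i j) inferInstance
      have e3 := h0 (NF i (j - 1)) inferInstance
      have e4 := h0 (St i j) inferInstance
      have e5 := h0 (Bd i j) inferInstance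
      rcases hall i hi j hj with h | h | h | h | h
      · rw [if_pos h]; linarith
      · rw [if_pos h]; linarith
      · rw [if_pos h]; linarith
      · rw [if_pos h]; linarith
      · rw [if_pos h]; linarith
    rw [Finset.sum_add_distrib] at h1
    have h3 : ∑ j ∈ Finset.Icc 1 N, (if Gd i j then (1 : ℝ) else 0) ≤ N / 2 := by
      rw [Finset.sum_boole]
      exact hGd i hi
    linarith
  have h4 : (S.card : ℝ) * (N / 2) ≤ ∑ i ∈ S, ∑ j ∈ Finset.Icc 1 N, ((if NF i j then (1 : ℝ) else 0) +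
      (if NF i (j - 1) then (1 : ℝ) else 0) + (if St i j then (1 : ℝ) else 0) +
      (if Bd i j then (1 : ℝ) else 0)) := by
    have h5 := Finset.sum_le_sum key
    rwa [Finset.sum_const, nsmul_eq_mul] at h5
  simp only [Finset.sum_add_distrib] at h4
  have hsum : ∀ g : ℕ → ℕ, (∀ j ∈ Finset.Icc 1 N, g j ≤ N) → ∀ Q : ℤ → ℕ → Prop, ∀ D : ℝ,
      (∀ j ≤ N, ((S.filter (fun i => Q i j)).card : ℝ) ≤ D) →
      ∑ i ∈ S, ∑ j ∈ Finset.Icc 1 N, (if Q i (g j) then (1 : ℝ) else 0) ≤ N * D := by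
    intro g hg Q D hQ
    rw [Finset.sum_comm]
    have h6 : ∑ j ∈ Finset.Icc 1 N, ∑ i ∈ S, (if Q i (g j) then (1 : ℝ) else 0) ≤
        ∑ _j ∈ Finset.Icc 1 N, D := by
      refine Finset.sum_le_sum fun j hj => ?_
      rw [Finset.sum_boole]
      exact hQ (g j) (hg j hj)
    have h7 : ∑ _j ∈ Finset.Icc 1 N, D = N * D := by simp
    rw [h7] at h6
    exact h6
  have s1 := hsum (fun j => j) (fun j hj => (Finset.mem_Icc.1 hj).2) NF A hNF
  have s2 := hsum (fun j => j - 1) (fun j hj => by have := (Finset.mem_Icc.1 hj).2; omega) NF A hNF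
  have s3 := hsum (fun j => j) (fun j hj => (Finset.mem_Icc.1 hj).2) St B hSt
  have s4 : ∑ i ∈ S, ∑ j ∈ Finset.Icc 1 N, (if Bd i j then (1 : ℝ) else 0) ≤ C := by
    rw [← Finset.sum_product' S (Finset.Icc 1 N) (fun i j => if Bd i j then (1 : ℝ) else 0),
      Finset.sum_boole]
    exact hBd
  linarith

end Pool.Agent.FCF
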