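import Pool.Agent.FCF.PlGeo

/-!
# FCF / PlSteep: a quasi-concave function is not steep at most grid points

PROOF. Left type (witness `s < i rho`). Claim: for a finite set `S` of left type indices with `f (i rho) ≤ Bd` for `i ∈ S` and `lo ≤ Bd`: `card S * (cs rho / 2) ≤ Bd - lo`. Induction on `card S`: let `i1 = max S` with
witness `(l, s)`. `S' = {i ∈ S | i rho < s}`. For `i ∈ S'`: quasi-concavity for `i rho ≤ s ≤ i1 rho`: `min (f (i rho)) (f (i1 rho)) ≤ f s < f (i1 rho) - cs l`, so
`f (i rho) ≤ f s < f (i1 rho) - cs l ≤ Bd - cs l =: Bd'`. `lo ≤ f s ≤ Bd'`. `S \ S'` consists of integers in `[s/rho, i1]`, `i1 rho - s ≤ l`: at most `l/rho + 1 ≤ 2 l/rho` (`rho ≤ l`).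
By induction `card S' * (cs rho/2) ≤ Bd - cs l - lo`, and `card (S \ S') * (cs rho/2) ≤ cs l`. So left type: `card ≤ 2 (hi-lo)/(cs rho)`. Right type: by symmetry (apply the left version to
`fun s => f (-s)` and the image of `S` under `i ↦ -i`).
-/

set_option autoImplicit false

namespace Pool.Agent.FCF

open Set

private theorem steep_left {W : ℝ} {f : ℝ → ℝ} {lo cs rho : ℝ} (hqc : QC W f)
    (hlo : ∀ s, lo ≤ f s) (hcs : 0 < cs) (hrho : 0 < rho) :
    ∀ (n : ℕ) (S : Finset ℤ) (Bd : ℝ), S.card = n → lo ≤ Bd →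
    (∀ i ∈ S, f ((i : ℝ) * rho) ≤ Bd) →
    (∀ i ∈ S, |(i : ℝ) * rho| < W ∧ ∃ l s : ℝ, rho ≤ l ∧ |s| < W ∧ s ≤ i * rho ∧
      i * rho - s ≤ l ∧ f s < f (i * rho) - cs * l) → (S.card : ℝ) * (cs * rho / 2) ≤ Bd - lo := by
  intro n
  induction n using Nat.strong_induction_on with
  | _ n ih =>
    intro S Bd hn hBd hfB hS
    rcases S.eq_empty_or_nonempty with rfl | hne
    · simp only [Finset.card_empty, Nat.cast_zero, zero_mul]
      linarith
    · set i1 := S.max' hne with hi1
      have hi1S : i1 ∈ S := S.max'_mem hne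
      obtain ⟨hW1, l, s, hl, hsW, hs1, hs2, hfs⟩ := hS i1 hi1S
      have hl0 : 0 < l := lt_of_lt_of_le hrho hl
      set S' := S.filter (fun i : ℤ => (i : ℝ) * rho < s) with hS'
      set S'' := S.filter (fun i : ℤ => ¬ (i : ℝ) * rho < s) with hS''
      have hcard : S'.card + S''.card = S.card := Finset.card_filter_add_card_filter_not _
      have hi1S' : i1 ∈ S'' := by
        rw [hS'', Finset.mem_filter]
        exact ⟨hi1S, not_lt.mpr hs1⟩
      have hpos : 0 < S''.card := Finset.card_pos.mpr ⟨i1, hi1S'⟩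
      have hfsB : f s ≤ Bd - cs * l := by
        have := hfB i1 hi1S
        linarith
      have h1 : (S'.card : ℝ) * (cs * rho / 2) ≤ (Bd - cs * l) - lo := by
        refine ih S'.card (by omega) S' (Bd - cs * l) rfl (le_trans (hlo s) hfsB) ?_ ?_
        · intro i hi
          rw [hS', Finset.mem_filter] at hi
          have hiW := abs_lt.mp (hS i hi.1).1
          have hi1W := abs_lt.mp hW1
          have hq := hqc (i * rho) s (i1 * rho) hiW.1 hi.2.le hs1 hi1W.2
          rcases min_le_iff.mp hq with h | h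
          · linarith
          · exfalso
            have : 0 < cs * l := mul_pos hcs hl0
            linarith
        · intro i hi
          rw [hS', Finset.mem_filter] at hi
          exact hS i hi.1
      have h2 : (S''.card : ℝ) ≤ 2 * (l / rho) := by
        have hsub : S'' ⊆ Finset.Icc ⌈s / rho⌉ i1 := by
          intro i hi
          rw [hS'', Finset.mem_filter] at hi
          rw [Finset.mem_Icc]
          refine ⟨?_, S.le_max' i hi.1⟩
          rw [Int.ceil_le, div_le_iff₀ hrho]
          exact not_lt.mp hi.2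
        have hc := Finset.card_le_card hsub
        rw [Int.card_Icc] at hc
        have hceil : ⌈s / rho⌉ ≤ i1 := by
          rw [Int.ceil_le, div_le_iff₀ hrho]
          exact hs1
        have h3 : (S''.card : ℤ) ≤ i1 + 1 - ⌈s / rho⌉ := by omega
        have h4 : (S''.card : ℝ) ≤ (i1 : ℝ) + 1 - (⌈s / rho⌉ : ℝ) := by exact_mod_cast h3
        have h5 : s / rho ≤ (⌈s / rho⌉ : ℝ) := Int.le_ceil _
        have h6 : (i1 : ℝ) - s / rho ≤ l / rho := by
          rw [sub_le_iff_le_add, ← add_div, le_div_iff₀ hrho]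
          linarith
        have h7 : 1 ≤ l / rho := by
          rw [le_div_iff₀ hrho]
          linarith
        linarith
      have h3 : (S''.card : ℝ) * (cs * rho / 2) ≤ cs * l := by
        have h4 : (S''.card : ℝ) * (cs * rho / 2) ≤ 2 * (l / rho) * (cs * rho / 2) :=
          mul_le_mul_of_nonneg_right h2 (by positivity)
        have h5 : 2 * (l / rho) * (cs * rho / 2) = cs * l := by
          field_simp
        linarith
      have h4 : (S.card : ℝ) = S'.card + S''.card := by
        rw [← hcard]; push_cast; ring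
      rw [h4, add_mul]
      linarith

private theorem QC_neg {W : ℝ} {f : ℝ → ℝ} (hqc : QC W f) : QC W (fun s => f (-s)) := by
  intro s1 s s2 h1 h2 h3 h4
  have := hqc (-s2) (-s) (-s1) (by linarith) (by linarith) (by linarith) (by linarith)
  rwa [min_comm] at this

theorem count_steep {W : ℝ} {f : ℝ → ℝ} {lo hi cs rho : ℝ} (hqc : QC W f)
    (hlo : ∀ s, lo ≤ f s) (hhi : ∀ s, f s ≤ hi) (hcs : 0 < cs) (hrho : 0 < rho) (S : Finset ℤ)
    (hS : ∀ i ∈ S, |(i : ℝ) * rho| < W ∧ ∃ l s : ℝ, rho ≤ l ∧ |s| < W ∧ |s - i * rho| ≤ l ∧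
      f s < f (i * rho) - cs * l) : (S.card : ℝ) ≤ 4 * (hi - lo) / (cs * rho) := by
  classical
  have hlohi : lo ≤ hi := le_trans (hlo 0) (hhi 0)
  set P : ℤ → Prop := fun i => ∃ l s : ℝ, rho ≤ l ∧ |s| < W ∧ s ≤ i * rho ∧
      i * rho - s ≤ l ∧ f s < f (i * rho) - cs * l with hP
  set SL := S.filter P with hSL
  set SR := S.filter (fun i => ¬ P i) with hSR
  have hcard : SL.card + SR.card = S.card := Finset.card_filter_add_card_filter_not _
  have hL : (SL.card : ℝ) * (cs * rho / 2) ≤ hi - lo := by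
    refine steep_left hqc hlo hcs hrho _ SL hi rfl hlohi (fun i _ => hhi _) ?_
    intro i hi
    rw [hSL, Finset.mem_filter] at hi
    exact ⟨(hS i hi.1).1, hi.2⟩
  have hR : (SR.card : ℝ) * (cs * rho / 2) ≤ hi - lo := by
    have hci : (SR.image (fun i : ℤ => -i)).card = SR.card :=
      Finset.card_image_of_injective _ neg_injective
    rw [← hci]
    refine steep_left (QC_neg hqc) (fun s => hlo (-s)) hcs hrho _ _ hi rfl hlohi
      (fun i _ => hhi _) ?_
    intro j hj
    rw [Finset.mem_image] at hj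
    obtain ⟨i, hi, rfl⟩ := hj
    rw [hSR, Finset.mem_filter] at hi
    obtain ⟨hW, l, s, h1, h2, h3, h4⟩ := hS i hi.1
    have hlt : (i : ℝ) * rho < s := by
      by_contra hcon
      refine hi.2 ⟨l, s, h1, h2, not_lt.mp hcon, ?_, h4⟩
      have := (abs_le.mp h3).1
      linarith
    refine ⟨by push_cast; rw [neg_mul, abs_neg]; exact hW, l, -s, h1, by rwa [abs_neg], ?_, ?_, ?_⟩
    · push_cast; linarith
    · push_cast
      have := (abs_le.mp h3).2
      linarith
    · push_cast
      rw [neg_neg, neg_mul, neg_neg]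
      exact h4
  have h4 : (S.card : ℝ) = SL.card + SR.card := by
    rw [← hcard]; push_cast; ring
  rw [le_div_iff₀ (mul_pos hcs hrho), h4]
  nlinarith

end Pool.Agent.FCF
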