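import Pool.Agent.FCF.PlGeo

/-!
# FCF / PlKink: order near `x0` up to the time `t1` and a gap at the time `tg ≥ t1 - tau` imply order at `x0` a
little after `t1`

PROOF of `kink_gen`. Write `hp = hpl M L tau = hM M (d0 e^{-Gam tau}/16)`, `d0 = 1/12`. If `t < t1`: `hord`. Let `t1 ≤ t`.
* If `t1 ≤ tg`: `after_gap` (file Bump) at the time `tg` with `d = 1/12`, `s = t - tg < hp ≤ hM M (d0/4)` (`hM_mono`), centre `x0`, point `x0`
  (`hgap` for `‖x - x0‖ ≤ 2 < rho`; `X` is a subflow in `ball x0 3 ⊆ ball x0 (rho+2)`: `SubIn.restrict`).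
* If `tg < t1`: choose `t1' ∈ [tg, t1)`, `t1' > t - hp` (possible: `t < t1 + hp`). `kink` (file Bump) on `[tg, t1']`, duration `≤ tau`, `d = 1/12`
  gives the gap `d' = d0 e^{-Gam (t1'-tg)}/4 ≥ d0 e^{-Gam tau}/4` at the time `t1'` on `‖x-x0‖ ≤ 2`; then `after_gap` at `t1'` with `d'`,
  `s = t - t1' < hp ≤ hM M (d'/4)`. (`Gam M L ≥ 0` as `M, L ≥ 1`.)
`hpl_pos`: `hM_pos`. `hpl_small`: `hM M r = r^2/(2+2(M+1)r) ≤ r/(2(M+1))`, `r ≤ 1/192`, `(2M+4)/(384(M+1)) ≤ 1`.
-/

set_option autoImplicit false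

namespace Pool.Agent.FCF

open Pool.Agent.VSC (V J LowJet)
open Set Metric

theorem hpl_pos {M L tau : ℝ} (h1 : 1 ≤ M) : 0 < hpl M L tau := by
  unfold hpl
  exact hM_pos (by linarith) (by positivity)

theorem hpl_small {M L tau : ℝ} (h1 : 1 ≤ M) (h2 : 1 ≤ L) (ht : 0 ≤ tau) :
    (2 * M + 4) * hpl M L tau ≤ 1 := by
  have hG : 0 ≤ Gam M L := by unfold Gam; linarith
  unfold hpl
  set r : ℝ := 1 / 12 * Real.exp (-(Gam M L * tau)) / 4 / 4 with hr
  have hr0 : 0 < r := by positivity
  have hr1 : r ≤ 1 := by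
    have h3 : Real.exp (-(Gam M L * tau)) ≤ 1 := Real.exp_le_one_iff.2 (by
      have := mul_nonneg hG ht
      linarith)
    rw [hr]
    linarith
  unfold hM
  rw [← mul_div_assoc, div_le_one (by positivity)]
  nlinarith [mul_nonneg (by linarith : 0 ≤ M) hr0.le, mul_nonneg (mul_nonneg (by linarith : 0 ≤ M) hr0.le)
    (sub_nonneg.2 hr1)]

theorem kink_gen {M L : ℝ} {h : V → ℝ} (hm : Med M L h) {X : Set (V × ℝ)} {x0 : V}
    {rho tg t1 tau g : ℝ} (htau : 0 < tau) (htg : t1 ≤ tg + tau) (hrho : Cp M * tau + 4 ≤ rho)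
    (hX : SubIn h (ball x0 (rho + 2)) tg X) {A : Set V} (hA : IsClosed A) (hg : 0 ≤ tg + g)
    (hord : ∀ x t, ‖x - x0‖ < rho + 1 → tg ≤ t → t < t1 → (x, t) ∈ X → x ∈ E h A (t + g))
    (hgap : ∀ x, ‖x - x0‖ < rho → (x, tg) ∈ X → closedBall x (1 / 12) ⊆ E h A (tg + g))
    {t : ℝ} (ht0 : tg ≤ t) (ht : t < max tg t1 + hpl M L tau) (hx : (x0, t) ∈ X) :
    x0 ∈ E h A (t + g) := by
  have hM1 := hm.one_le
  have hL1 := hm.one_le'
  have hG : 0 ≤ Gam M L := by unfold Gam; linarith
  have hCp : 0 ≤ Cp M := by unfold Cp; positivity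
  have hrho4 : 4 ≤ rho := by
    have := mul_nonneg hCp htau.le
    linarith
  rcases lt_or_ge t t1 with hlt | hge
  · exact hord x0 t (by rw [sub_self, norm_zero]; linarith) ht0 hlt hx
  have hexp : ∀ s : ℝ, s ≤ tau → Real.exp (-(Gam M L * tau)) ≤ Real.exp (-(Gam M L * s)) := by
    intro s hs
    refine Real.exp_le_exp.2 ?_
    have := mul_le_mul_of_nonneg_left hs hG
    linarith
  rcases le_or_gt t1 tg with h1 | h1
  · rw [max_eq_left h1] at ht
    have hX' : SubIn h (ball x0 3) tg X := hX.restrict (ball_subset_ball (by linarith)) le_rfl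
    have h2 : t - tg < hM M (1 / 12 / 4) := by
      refine lt_of_lt_of_le (show t - tg < hpl M L tau by linarith) ?_
      unfold hpl
      refine hM_mono (by linarith) (by positivity) ?_
      have := hexp 0 htau.le
      rw [mul_zero, neg_zero, Real.exp_zero] at this
      linarith
    have h3 := after_gap hm hX' hA hg (d := 1 / 12) (by norm_num) (by norm_num)
      (fun x hx1 hx2 => hgap x (by linarith) hx2) (s := t - tg) (by linarith) h2 (x := x0)
      (by rw [sub_self, norm_zero]; norm_num) (by rw [add_sub_cancel]; exact hx)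
    rw [add_sub_cancel] at h3
    exact h3 (mem_closedBall_self (by norm_num))
  · rw [max_eq_right h1.le] at ht
    obtain ⟨t1', h2, h3⟩ : ∃ t1', max tg (t - hpl M L tau) < t1' ∧ t1' < t1 :=
      exists_between (max_lt h1 (by linarith))
    have h4 : tg < t1' := (le_max_left _ _).trans_lt h2
    have h5 : t - hpl M L tau < t1' := (le_max_right _ _).trans_lt h2
    have hk := kink hm (x0 := x0) (rho := rho) (t0 := tg) (t1 := t1') (g := g) (d := 1 / 12) h4.le
      (by
        have := mul_le_mul_of_nonneg_left (show t1' - tg ≤ tau by linarith) hCp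
        linarith) hX hA hg (by norm_num) le_rfl
      (fun x s h6 h7 h8 h9 => hord x s h6 h7 (by linarith) h9) hgap
    set d' : ℝ := 1 / 12 * Real.exp (-(Gam M L * (t1' - tg))) / 4 with hd'
    have hd'0 : 0 < d' := by positivity
    have hd'1 : d' ≤ 1 := by
      have h6 : Real.exp (-(Gam M L * (t1' - tg))) ≤ 1 := Real.exp_le_one_iff.2 (by
        have := mul_nonneg hG (show 0 ≤ t1' - tg by linarith)
        linarith)
      rw [hd']
      linarith
    have hX' : SubIn h (ball x0 3) t1' X := hX.restrict (ball_subset_ball (by linarith)) h4.le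
    have h6 : t - t1' < hM M (d' / 4) := by
      refine lt_of_lt_of_le (show t - t1' < hpl M L tau by linarith) ?_
      unfold hpl
      refine hM_mono (by linarith) (by positivity) ?_
      have := hexp (t1' - tg) (by linarith)
      rw [hd']
      linarith
    have h7 := after_gap hm hX' hA (by linarith) hd'0 hd'1 hk (s := t - t1') (by linarith) h6 (x := x0)
      (by rw [sub_self, norm_zero]; norm_num) (by rw [add_sub_cancel]; exact hx)
    rw [add_sub_cancel] at h7
    exact h7 (mem_closedBall_self (by positivity))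

end Pool.Agent.FCF
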