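import Pool.Agent.FCF.PlTh
import Pool.Agent.FCF.PlScale
import Pool.Agent.FCF.PlKink

/-!
# FCF / PlStep: one good level

PROOF. `hp = hpl p.M p.L tau`, `t1 = th g (al e x) - hp/2`. `hP.kink` at the level `g` (`g0 + C3 r ≤ g`), `x0 = x`, `t1`: for `z ∈ Ov g`, `‖z - x‖ < rho + 1`: `|al e z - al e x| ≤ rho + 2`, so by `hflat`
`t1 ≤ th g (al e z) ≤ a z`. `a x < th g (al e x) + hp/4 < t1 + hp` (`hpl_pos`). `fine'` at scale `r` from `ok_fine'`. Result: `z ∈ Ov (g - C3 r) ⊆ Ov (g - 2 C3 r)` (`Ov_anti`), `‖z - x‖ ≤ rho + 1`,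
`a z ≤ t1 - tau + C3 r`. `hflat'` at `s = al e z` and `th_le_of_mem`: `th (g - 2 C3 r) (al e x) ≤ a z + hp/2 ≤ th g (al e x) - tau + C3 r ≤ th g (al e x) - tau/2`.
(`lo = -dl` in the lemmas of PlTh: `hP.lb`.)
-/

set_option autoImplicit false

namespace Pool.Agent.FCF

open Pool.Agent.VSC (V J LowJet)
open Set Metric

theorem good_step {p : Par} {c : V → ℝ} {e : V} (he : ‖e‖ = 1)
    {K R H T dl g0 rho r tau : ℝ} {a b : V → ℝ} (hP : Pair p c e K R H T dl g0 rho r tau a b)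
    (hT : -dl ≤ T) (hr0 : 0 ≤ r) {g : ℝ} (hg : g0 + 2 * (p.C3 * r) ≤ g) {x : V}
    (hx : x ∈ Ov e (K * R) R H a b g) (hxl : |al e x| + rho + 2 ≤ K * R) (hxT : a x < T)
    (hok : Ok p c rho r x) (hCt : 4 * (p.C3 * r) ≤ tau)
    (hnear : a x < th e (K * R) R H a b T g (al e x) + hpl p.M p.L tau / 4)
    (hflat : ∀ s : ℝ, |s - al e x| ≤ rho + 2 →
      th e (K * R) R H a b T g (al e x) - hpl p.M p.L tau / 2 ≤ th e (K * R) R H a b T g s)
    (hflat' : ∀ s : ℝ, |s - al e x| ≤ rho + 2 →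
      th e (K * R) R H a b T (g - 2 * (p.C3 * r)) (al e x) - hpl p.M p.L tau / 2 ≤
        th e (K * R) R H a b T (g - 2 * (p.C3 * r)) s) :
    th e (K * R) R H a b T (g - 2 * (p.C3 * r)) (al e x) ≤
      th e (K * R) R H a b T g (al e x) - tau / 2 := by
  have hC3 : 0 ≤ p.C3 * r := by
    have h1 := p.hM
    have h2 := p.hsig
    have h3 : 0 ≤ p.C3 := by
      unfold Par.C3 Par.C1 Par.M1
      have : 0 ≤ (2 * p.M + 4) * p.sig := by nlinarith
      nlinarith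
    exact mul_nonneg h3 hr0
  have hlo : ∀ g' : ℝ, ∀ y ∈ Ov e (K * R) R H a b g', -dl ≤ a y :=
    fun g' y hy => hP.lb y hy.1 hy.2.1
  have hp := hpl_pos (M := p.M) (L := p.L) (tau := tau) p.hM
  obtain ⟨z, hz, hzx, hza⟩ := hP.kink g (by linarith) x hx hxl hxT
    (fun y hy => ok_fine' hr0 hok hy le_rfl)
    (th e (K * R) R H a b T g (al e x) - hpl p.M p.L tau / 2)
    (fun z hz hzx => (hflat (al e z) (by
      have := abs_al_sub_le he z x
      linarith)).trans (th_le_of_mem hT (hlo g) hz rfl)) (by linarith)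
  have h1 := hflat' (al e z) (by
    have := abs_al_sub_le he z x
    linarith)
  have h2 : th e (K * R) R H a b T (g - 2 * (p.C3 * r)) (al e z) ≤ a z :=
    th_le_of_mem hT (hlo _) (Ov_anti (by linarith) hz) rfl
  linarith

end Pool.Agent.FCF
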