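import Pool.Agent.FCF.PlBadC
import Pool.Agent.FCF.PlStep
import Pool.Agent.FCF.PlIncr
import Pool.Agent.FCF.PlFlat
import Pool.Agent.FCF.PlSteep

/-!
# FCF / PlCount: the number of lines on which the front is overtaken before `T` at the level `g_N`

PROOF. `g_j = g0 + j * (2 C3 r)`, `θ_j s = th e (K R) R H a b T (g_j) s`, `hp = hpl p.M p.L tau` (`0 < hp`, `M1 hp ≤ 1`: `hpl_pos`, `hpl_small`; `p.hM`, `p.hL`), `w = rho + 2`.
`θ_j` has values in `[-dl, T]`, is `QC (K R)` (`QC_th`, `hP.maxp`) and monotone in `j` (`th_mono`; for `i ∈ S` all `θ_j (i rho) ≤ θ_N (i rho) < T` for `j ≤ N`).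
For `i ∈ S`, `j ≤ N` choose (`exists_of_th_lt`) `x (i,j) ∈ Ov (g_j)` on the line `i rho` with `a x < θ_j (i rho) + hp/4`, `a x < T`.
`Gd i j : θ_{j-1} (i rho) + tau/2 ≤ θ_j (i rho)`; `NF i j : ∃ s, |s - i rho| ≤ w ∧ θ_j s < θ_j (i rho) - hp/2`; `St i j : ∃ l s, rho ≤ l ∧ |s| < K R ∧ |s - i rho| ≤ l ∧ θ_j s < θ_j (i rho) - 1/(4 M1) l`;
`Bd i j : ¬ Ok (x (i,j)) ∧ ¬ St i j`. `hall`: if `NF i j`, `NF i (j-1)`, `St i j`, `Bd i j` all fail then `Ok (x (i,j))` and `good_step` (level `g = g_j`, `g - 2 C3 r = g_{j-1}`) gives `Gd i j`.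
`hGd`: `count_incr` (extend `θ_j (i rho)` for `j > N` monotonically; it is monotone for all `j`): `card * (tau/2) ≤ T + dl ≤ N tau/4`. `A = 4 (2 (T+dl)/hp + 1)`: `count_nonflat` (`hh = hp/2`, `|i rho| + w < K R`);
`B = 16 M1 (T+dl)/rho`: `count_steep` (`cs = 1/(4 M1)`); `C = 108 m/(rho r)`: `bad_pairs`. `double_count`, divide by `N/2`.
-/

set_option autoImplicit false

namespace Pool.Agent.FCF

open Pool.Agent.VSC (V J LowJet)
open Set Metric

theorem failing_lines {p : Par} {c : V → ℝ} {e : V} (he : ‖e‖ = 1)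
    {K R H T dl g0 rho r tau : ℝ} {a b : V → ℝ} (hP : Pair p c e K R H T dl g0 rho r tau a b)
    (hdl : 0 ≤ dl) (hT : 0 ≤ T) (hK : 1 ≤ K) (h1r : 1 ≤ r) (hrrho : r ≤ rho) (h2rho : 2 ≤ rho)
    (hrhoR : 8 * rho ≤ R) (hHR : 4 * R ≤ H) (htau : 0 < tau) (hCt : 4 * (p.C3 * r) ≤ tau)
    (hfine : ∀ x ∈ Rec e (K * R) R H, ∀ r' : ℝ, R / 4 ≤ r' → p.fine' c x r') {m : ℝ} (hm : 0 ≤ m)
    (hvol : MeasureTheory.volume {x : V | |al e x| ≤ K * R ∧ |ze e x| ≤ H ∧ Bad p c rho r x} ≤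
      ENNReal.ofReal m) {N : ℕ} (hN : 1 ≤ N) (hNt : 4 * (T + dl) ≤ N * tau) (S : Finset ℤ)
    (hS : ∀ i ∈ S, |(i : ℝ) * rho| ≤ (K - 1) * R ∧
      th e (K * R) R H a b T (g0 + N * (2 * (p.C3 * r))) (i * rho) < T) :
    (S.card : ℝ) ≤ 16 * (2 * (T + dl) / hpl p.M p.L tau + 1) + 32 * p.M1 * (T + dl) / rho +
      216 * m / (rho * r * N) := by
  classical
  have hM1 : 0 < p.M1 := by
    unfold Par.M1
    linarith [p.hM]
  have hC3 : 0 < p.C3 := by
    have h1 : 0 < p.C1 := by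
      unfold Par.C1
      have := mul_nonneg hM1.le (show 0 ≤ p.sig by linarith [p.hsig])
      linarith
    unfold Par.C3
    have h2 : 0 < p.sig := by linarith [p.hsig]
    positivity
  have hR0 : 0 < R := by linarith
  have hNpos : (0 : ℝ) < N := by exact_mod_cast hN
  set De : ℝ := 2 * (p.C3 * r) with hDe
  have hDe0 : 0 ≤ De := by positivity
  set hp : ℝ := hpl p.M p.L tau with hhp
  have hp0 : 0 < hp := hpl_pos p.hM
  have hp1 : p.M1 * hp ≤ 1 := by
    unfold Par.M1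
    exact hpl_small p.hM p.hL htau.le
  let θ : ℕ → ℝ → ℝ := fun j s => th e (K * R) R H a b T (g0 + j * De) s
  have hlT : -dl ≤ T := by linarith
  have hlo : ∀ g : ℝ, ∀ x ∈ Ov e (K * R) R H a b g, -dl ≤ a x := fun g x hx =>
    hP.lb x hx.1 hx.2.1
  have hθT : ∀ j s, θ j s ≤ T := fun j s => th_le_T hlT (hlo _)
  have hθl : ∀ j s, -dl ≤ θ j s := fun j s => lo_le_th hlT (hlo _)
  have hgle : ∀ j j' : ℕ, j ≤ j' → g0 + (j : ℝ) * De ≤ g0 + (j' : ℝ) * De := by
    intro j j' h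
    have h1 : (j : ℝ) ≤ j' := by exact_mod_cast h
    have := mul_le_mul_of_nonneg_right h1 hDe0
    linarith
  have hg0 : ∀ j : ℕ, g0 ≤ g0 + (j : ℝ) * De := by
    intro j
    have : 0 ≤ (j : ℝ) * De := by positivity
    linarith
  have hθm : ∀ s, Monotone (fun j => θ j s) := fun s j j' h =>
    th_mono hlT (hlo _) (hgle j j' h)
  have hqc : ∀ j, QC (K * R) (θ j) := fun j =>
    QC_th hlT (hlo _) (hP.maxp _ (hg0 j))
  have hex : ∀ q : ℤ × ℕ, ∃ x : V, q.1 ∈ S → q.2 ≤ N →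
      (x ∈ Ov e (K * R) R H a b (g0 + q.2 * De) ∧ al e x = q.1 * rho ∧
        a x < θ q.2 (q.1 * rho) + hp / 4 ∧ a x < T) := by
    intro q
    by_cases hq : q.1 ∈ S ∧ q.2 ≤ N
    · have h1 : θ q.2 (q.1 * rho) < T :=
        lt_of_le_of_lt (hθm (q.1 * rho) hq.2) (hS q.1 hq.1).2
      obtain ⟨x, hx1, hx2, hx3, hx4⟩ := exists_of_th_lt (u := θ q.2 (q.1 * rho) + hp / 4) h1
        (by show θ q.2 (q.1 * rho) < _; linarith)
      exact ⟨x, fun _ _ => ⟨hx1, hx2, hx3, hx4⟩⟩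
    · exact ⟨0, fun h1 h2 => absurd ⟨h1, h2⟩ hq⟩
  choose x hx using hex
  let Gd : ℤ → ℕ → Prop := fun i j => θ (j - 1) (i * rho) + tau / 2 ≤ θ j (i * rho)
  let NF : ℤ → ℕ → Prop := fun i j => ∃ s : ℝ, |s - i * rho| ≤ rho + 2 ∧
    θ j s < θ j (i * rho) - hp / 2
  let St : ℤ → ℕ → Prop := fun i j => ∃ l s : ℝ, rho ≤ l ∧ |s| < K * R ∧ |s - i * rho| ≤ l ∧
    θ j s < θ j (i * rho) - 1 / (4 * p.M1) * l
  let Bd : ℤ → ℕ → Prop := fun i j => ¬ Ok p c rho r (x (i, j)) ∧ ¬ St i j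
  have hall : ∀ i ∈ S, ∀ j ∈ Finset.Icc 1 N,
      Gd i j ∨ NF i j ∨ NF i (j - 1) ∨ St i j ∨ Bd i j := by
    intro i hi j hj
    rw [Finset.mem_Icc] at hj
    by_cases h1 : NF i j
    · exact Or.inr (Or.inl h1)
    by_cases h2 : NF i (j - 1)
    · exact Or.inr (Or.inr (Or.inl h2))
    by_cases h3 : St i j
    · exact Or.inr (Or.inr (Or.inr (Or.inl h3)))
    by_cases h4 : Ok p c rho r (x (i, j))
    · left
      obtain ⟨hx1, hx2, hx3, hx4⟩ := hx (i, j) hi hj.2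
      simp only at hx1 hx2 hx3 hx4
      have hcast : ((j - 1 : ℕ) : ℝ) = (j : ℝ) - 1 := by
        rw [Nat.cast_sub hj.1, Nat.cast_one]
      have hgj : g0 + (j : ℝ) * De - De = g0 + ((j - 1 : ℕ) : ℝ) * De := by
        rw [hcast]
        ring
      have hj1 : (1 : ℝ) ≤ j := by exact_mod_cast hj.1
      have e1 : g0 + De ≤ g0 + (j : ℝ) * De := by nlinarith
      have hgs := good_step he hP hlT (by linarith) (g := g0 + (j : ℝ) * De) e1 hx1
        (by
          rw [hx2]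
          have := (hS i hi).1
          nlinarith) hx4 h4 hCt
        (by rw [hx2]; exact hx3)
        (by
          intro s hs
          rw [hx2] at hs ⊢
          by_contra hcon
          push Not at hcon
          exact h1 ⟨s, hs, hcon⟩)
        (by
          intro s hs
          rw [hx2] at hs ⊢
          rw [← hDe, hgj]
          by_contra hcon
          push Not at hcon
          exact h2 ⟨s, hs, hcon⟩)
      rw [hx2, ← hDe, hgj] at hgs
      show θ (j - 1) (i * rho) + tau / 2 ≤ θ j (i * rho)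
      have hgs' : θ (j - 1) (i * rho) ≤ θ j (i * rho) - tau / 2 := hgs
      linarith
    · exact Or.inr (Or.inr (Or.inr (Or.inr ⟨h4, h3⟩)))
  have hGd : ∀ i ∈ S, (((Finset.Icc 1 N).filter (fun j => Gd i j)).card : ℝ) ≤ N / 2 := by
    intro i hi
    have h1 := count_incr (N := N) (θ := fun j => θ j (i * rho)) (lo := -dl) (hi := T)
      (d := tau / 2) (hθm _) (hθl 0 _) (hθT N _) (by linarith)
      ((Finset.Icc 1 N).filter (fun j => Gd i j))
      (by
        intro j hj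
        rw [Finset.mem_filter, Finset.mem_Icc] at hj
        exact ⟨hj.1.1, hj.1.2, hj.2⟩)
    have h2 : (((Finset.Icc 1 N).filter (fun j => Gd i j)).card : ℝ) * (tau / 2) ≤
        (N / 2 : ℝ) * (tau / 2) := by linarith
    exact le_of_mul_le_mul_right h2 (by linarith)
  have hw : ∀ i ∈ S, |(i : ℝ) * rho| + (rho + 2) < K * R := by
    intro i hi
    have := (hS i hi).1
    nlinarith
  have hNF : ∀ j ≤ N, ((S.filter (fun i => NF i j)).card : ℝ) ≤
      4 * ((T - -dl) / (hp / 2) + 1) := by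
    intro j _
    refine count_nonflat (hqc j) (hθl j) (hθT j) (by linarith) (by linarith : 0 < rho)
      (w := rho + 2) (by linarith) _ ?_
    intro i hi
    rw [Finset.mem_filter] at hi
    exact ⟨hw i hi.1, hi.2⟩
  have hSt : ∀ j ≤ N, ((S.filter (fun i => St i j)).card : ℝ) ≤
      4 * (T - -dl) / (1 / (4 * p.M1) * rho) := by
    intro j _
    refine count_steep (hqc j) (hθl j) (hθT j) (by positivity) (by linarith : 0 < rho) _ ?_
    intro i hi
    rw [Finset.mem_filter] at hi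
    have := hw i hi.1
    exact ⟨by linarith, hi.2⟩
  have hBd : (((S ×ˢ Finset.Icc 1 N).filter (fun q => Bd q.1 q.2)).card : ℝ) ≤
      108 * m / (rho * r) := by
    have hmem : ∀ q ∈ (S ×ˢ Finset.Icc 1 N).filter (fun q => Bd q.1 q.2),
        q.1 ∈ S ∧ q.2 ≤ N ∧ Bd q.1 q.2 := by
      intro q hq
      rw [Finset.mem_filter, Finset.mem_product, Finset.mem_Icc] at hq
      exact ⟨hq.1.1, hq.1.2.2, hq.2⟩
    refine bad_pairs he hP hlT hK h1r hrrho h2rho hrhoR hHR hfine hm hvol hp1 _ x ?_ ?_ ?_ ?_ ?_ ?_ ?_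
    · intro q hq
      obtain ⟨h1, h2, h3⟩ := hmem q hq
      exact (hx q h1 h2).1
    · intro q hq
      obtain ⟨h1, h2, h3⟩ := hmem q hq
      exact (hx q h1 h2).2.1
    · intro q hq
      obtain ⟨h1, h2, h3⟩ := hmem q hq
      exact (hS q.1 h1).1
    · intro q hq
      obtain ⟨h1, h2, h3⟩ := hmem q hq
      exact (hx q h1 h2).2.2.2
    · intro q hq
      obtain ⟨h1, h2, h3⟩ := hmem q hq
      exact (hx q h1 h2).2.2.1
    · intro q hq
      obtain ⟨h1, h2, h3⟩ := hmem q hq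
      exact h3.1
    · intro q hq l s hl hs1 hs2
      obtain ⟨h1, h2, h3⟩ := hmem q hq
      by_contra hcon
      push Not at hcon
      exact h3.2 ⟨l, s, hl, hs1, hs2, hcon⟩
  have hTdl : 0 ≤ T - -dl := by linarith
  have hdc := double_count S Gd NF St Bd (A := 4 * ((T - -dl) / (hp / 2) + 1))
    (B := 4 * (T - -dl) / (1 / (4 * p.M1) * rho)) (C := 108 * m / (rho * r))
    (by positivity) (by
      have : 0 < rho := by linarith
      positivity) hall hGd hNF hSt (by convert hBd)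
  have hrho0 : 0 < rho := by linarith
  have hr0 : 0 < r := by linarith
  have e1 : (N : ℝ) * (2 * (4 * ((T - -dl) / (hp / 2) + 1)) +
      4 * (T - -dl) / (1 / (4 * p.M1) * rho)) + 108 * m / (rho * r) =
      (16 * (2 * (T + dl) / hp + 1) + 32 * p.M1 * (T + dl) / rho + 216 * m / (rho * r * N)) *
        (N / 2) := by
    field_simp
    ring
  rw [e1] at hdc
  exact le_of_mul_le_mul_right hdc (by positivity)

end Pool.Agent.FCF
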