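import Pool.Agent.FCF.Bump
import Pool.Agent.FCF.Inner
import Pool.Agent.FCF.Fill

/-!
# FCF / PlDefs: definitions for the planar comparison (FCF_PROOF.md, section 7)

Coordinates of `x`: `al e x = x . Je` (along the front) and `ze e x = x . e` (height).
-/

set_option autoImplicit false

namespace Pool.Agent.FCF

open Pool.Agent.VSC (V J LowJet)
open Set Metric

/-- Coordinate along the front. -/
noncomputable def al (e x : V) : ℝ := inner ℝ x (J e)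

/-- Height. -/
noncomputable def ze (e x : V) : ℝ := inner ℝ x e

/-- The open rectangle `|al| < W`, `-B < ze < H`. -/
def Rec (e : V) (W B H : ℝ) : Set V := {x | |al e x| < W ∧ -B < ze e x ∧ ze e x < H}

/-- The points of the upper part of the rectangle with `b - a > g`. -/
def Ov (e : V) (W B H : ℝ) (a b : V → ℝ) (g : ℝ) : Set V :=
  {x | x ∈ Rec e W B H ∧ 0 < ze e x ∧ g < b x - a x}

/-- The first time at which a point of the line `al = s` is in `Ov`, cut at `T`. -/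
noncomputable def th (e : V) (W B H : ℝ) (a b : V → ℝ) (T g s : ℝ) : ℝ :=
  sInf ({T} ∪ a '' {x | x ∈ Ov e W B H a b g ∧ al e x = s})

/-- Quasi-concavity on `(-W, W)`. -/
def QC (W : ℝ) (f : ℝ → ℝ) : Prop :=
  ∀ s1 s s2 : ℝ, -W < s1 → s1 ≤ s → s ≤ s2 → s2 < W → min (f s1) (f s2) ≤ f s

/-- Persistence time after a moving gap of duration `tau`. -/
noncomputable def hpl (M L tau : ℝ) : ℝ :=
  hM M (1 / 12 * Real.exp (-(Gam M L * tau)) / 4 / 4)

/-- All points within `2 rho` of `x` are fine at all scales `≥ r`. -/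
def Ok (p : Par) (c : V → ℝ) (rho r : ℝ) (x : V) : Prop :=
  ∀ y : V, ‖y - x‖ ≤ 2 * rho → ∀ r' : ℝ, r ≤ r' → p.fine1 c y r'

/-- The properties of a pair of arrival functions `a` (behind) and `b` (overtaking) used in the
counting argument. `W = K R`; the rectangle is `Rec e (K R) R H`. -/
structure Pair (p : Par) (c : V → ℝ) (e : V) (K R H T dl g0 rho r tau : ℝ) (a b : V → ℝ) :
    Prop where
  lb : ∀ x ∈ Rec e (K * R) R H, 0 < ze e x → -dl ≤ a x
  top : ∀ x ∈ Rec e (K * R) R H, 0 < ze e x → a x < T → ze e x ≤ H / 2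
  maxp : ∀ g : ℝ, g0 ≤ g → ∀ s1 s2 : ℝ, -(K * R) < s1 → s1 < s2 → s2 < K * R → ∀ t : ℝ, t ≤ T →
    (∀ x ∈ Ov e (K * R) R H a b g, al e x = s1 ∨ al e x = s2 → t ≤ a x) →
    ∀ x ∈ Ov e (K * R) R H a b g, s1 < al e x → al e x < s2 → t ≤ a x
  kink : ∀ g : ℝ, g0 + p.C3 * r ≤ g → ∀ x0 ∈ Ov e (K * R) R H a b g,
    |al e x0| + rho + 2 ≤ K * R → a x0 < T → (∀ y : V, ‖y - x0‖ ≤ 2 * rho → p.fine' c y r) →
    ∀ t1 : ℝ, (∀ z ∈ Ov e (K * R) R H a b g, ‖z - x0‖ < rho + 1 → t1 ≤ a z) →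
    a x0 < t1 + hpl p.M p.L tau →
    ∃ z ∈ Ov e (K * R) R H a b (g - p.C3 * r), ‖z - x0‖ ≤ rho + 1 ∧ a z ≤ t1 - tau + p.C3 * r
  speed : ∀ g : ℝ, g0 ≤ g → ∀ x ∈ Ov e (K * R) R H a b g, |al e x| ≤ (K - 1) * R → a x < T →
    ∀ l : ℝ, 2 ≤ l → l ≤ R / 2 → ∃ z ∈ Rec e (K * R) R H, ‖z - x‖ ≤ l ∧
      ((0 < ze e z ∧ a z ≤ a x - (l - 1) / p.M1) ∨ b z ≤ g0 + a x)
  osc : ∀ x ∈ Rec e (K * R) R H, ∀ l : ℝ, r ≤ l → l ≤ R → p.fine' c x l →
    ∀ y z : V, ‖y - x‖ < 9 * l → ‖z - x‖ < 9 * l → |a y - a z| ≤ p.C3 * l ∧ |b y - b z| ≤ p.C3 * l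

/-- A window function in a large ball, for the environment `c` itself. -/
structure WF (p : Par) (b : Bool) (c : V → ℝ) (D : ℝ) (W : V → ℝ) : Prop where
  sub : ∀ t0 : ℝ, SubIn (sgn b (frc c p.F)) (ball 0 D) t0 (arr b W)
  cl : ∀ x r, 1 ≤ r → ‖x‖ + p.Cs * r < D → p.fine' c x r →
    ∀ y z, ‖y - x‖ < 9 * r → ‖z - x‖ < 9 * r → |W y - W z| ≤ p.C3 * r

/-- Numerical conditions on the parameters of the planar comparison. `K R` half width, `R` depth,
`H` height of the rectangle, `T` end time, `D` radius of the window, `dl` planarity error of the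
window function, `g0` initial gap, `rho, r, tau` parameters of the kink lemma. -/
structure Nm (p : Par) (C lam K R H T D dl g0 rho r tau : ℝ) : Prop where
  lam_pos : 0 < lam
  C_one : 1 ≤ C
  C_r : C ≤ r
  r_rho : r ≤ rho
  tau_pos : 0 < tau
  Cp_tau : Cp p.M * tau + 4 ≤ rho
  rho_R : 8 * rho ≤ R
  K_two : 2 ≤ K
  lam_dl : lam ≤ dl
  g0_ge : 2 * dl + lam * (C + 1) ≤ g0
  H_ge : 4 * R ≤ H
  H_lam : 2 * (T + dl) ≤ lam * H
  H_M1 : 2 * (p.M1 * (T + 2 * C)) ≤ H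
  T_nonneg : 0 ≤ T
  D_ge : K * R + H + p.Cs * R < D

end Pool.Agent.FCF
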