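import Pool.Agent.FCF.PlEmax
import Pool.Agent.FCF.PlKink

/-!
# FCF / PlEkink: kink lemma, case E

PROOF. Suppose there is no such `z`. `X = arr true W`, `h = frc c p.F`, `A = A0`, `t0 = -2 dl`, `tg = max (t1 - tau) t0`, `t = W x0`. Apply `kink_gen` (PlKink): conclusion
`x0 ∈ E h A0 (W x0 + g)`, i.e. `TE x0 ≤ W x0 + g`: contradiction to `x0 ∈ Ov g`.
* all points with `‖x - x0‖ < rho + 2` are in `Rec` (lateral hypothesis; `0 < ze e x0 ≤ H/2` from `W x0 < T` and `H_lam`; `rho + 2 < R`), and in `ball 0 D`.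
* `t1 ≤ W x0` (take `z = x0` in the hypothesis), `W x0 > -dl ≥ t0`, so `tg ≤ W x0`; `W x0 < t1 + hpl ≤ max tg t1 + hpl`.
* (hord) `(x,t) ∈ X`, `tg ≤ t < t1`: if `TE x > t + g` then `TE x > 0`, `ze e x > 0` (`TE_eq_zero`), `TE x - W x > g`, so `x ∈ Ov g` and `t1 ≤ W x ≤ t < t1`.
* (hgap) `W x ≤ tg`, `‖y - x‖ ≤ 1/12`, suppose `TE y > tg + g`. If `tg = t0`: `lam * ze e x ≤ -dl`, so `ze e x ≤ -1`, `ze e y ≤ 0`, `TE y = 0 ≤ t0 + g`: contradiction.
  Otherwise `tg = t1 - tau`: `x` is `fine'` at scale `r` (`‖x - x0‖ < rho`), `hW.cl` gives `|W y - W x| ≤ C3 r` (`r ≥ C ≥ 1`, `‖x‖ + Cs r < D`), so `W y ≤ t1 - tau + C3 r`,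
  `TE y - W y > g - C3 r`, `ze e y > 0` (`TE y > tg + g ≥ 0`), `‖y - x0‖ ≤ rho + 1`: `z = y` is as required.
-/

set_option autoImplicit false

namespace Pool.Agent.FCF

open Pool.Agent.VSC (V J LowJet)
open Set Metric

theorem E_kink {p : Par} {c : V → ℝ} {e : V} {A0 B0 : Set V} {TE TO W : V → ℝ}
    {C gg lam K R H T D dl g0 rho r tau : ℝ} (henv : p.Env c) (he : ‖e‖ = 1)
    (hcan : Canon p c e A0 B0 TE TO C gg) (hn : Nm p C lam K R H T D dl g0 rho r tau)
    (hW : WF p true c D W) (hplan : ∀ x ∈ ball (0 : V) D, |W x - lam * ze e x| ≤ dl) :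
    ∀ g : ℝ, g0 + p.C3 * r ≤ g → ∀ x0 ∈ Ov e (K * R) R H W TE g,
    |al e x0| + rho + 2 ≤ K * R → W x0 < T → (∀ y : V, ‖y - x0‖ ≤ 2 * rho → p.fine' c y r) →
    ∀ t1 : ℝ, (∀ z ∈ Ov e (K * R) R H W TE g, ‖z - x0‖ < rho + 1 → t1 ≤ W z) →
    W x0 < t1 + hpl p.M p.L tau →
    ∃ z ∈ Ov e (K * R) R H W TE (g - p.C3 * r), ‖z - x0‖ ≤ rho + 1 ∧
      W z ≤ t1 - tau + p.C3 * r := by
  intro g hg x0 hx0 hlat hWT hfine t1 ht1 hWt1
  by_contra hno
  push Not at hno
  obtain ⟨⟨hxa, hxb, hxc⟩, hxz, hxg⟩ := hx0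
  -- numbers
  have hlam := hn.lam_pos
  have hC1 := hn.C_one
  have hCr := hn.C_r
  have hrr := hn.r_rho
  have hR8 := hn.rho_R
  have hldl := hn.lam_dl
  have hg0 := hn.g0_ge
  have hH4 := hn.H_ge
  have hHl := hn.H_lam
  have hD := hn.D_ge
  have hM := p.hM
  have hs := p.hsig
  have hM1 : 0 < p.M1 := by unfold Par.M1; linarith
  have hC1p : 1 ≤ p.C1 := by
    unfold Par.C1
    have := mul_nonneg hM1.le (by linarith : 0 ≤ p.sig)
    linarith
  have hC3 : 0 ≤ p.C3 := by
    unfold Par.C3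
    have : 0 ≤ p.C1 := by linarith
    have h2 : 0 ≤ p.sig := by linarith
    positivity
  have hCs : 0 ≤ p.Cs := by unfold Par.Cs; linarith
  have hr1 : 1 ≤ r := by linarith
  have hC3r : 0 ≤ p.C3 * r := mul_nonneg hC3 (by linarith)
  have hdl0 : 0 < dl := by linarith
  have hlC : 0 ≤ lam * (C + 1) := by positivity
  have hR0 : 0 < R := by linarith
  have hKR : 2 * R ≤ K * R := mul_le_mul_of_nonneg_right hn.K_two hR0.le
  -- position of `x0`
  have hx0D : x0 ∈ ball (0 : V) D := by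
    rw [mem_ball_zero_iff]
    have h1 := norm_lt_of_mem_Rec he (⟨hxa, hxb, hxc⟩ : x0 ∈ Rec e (K * R) R H) (by linarith)
    have : 0 ≤ p.Cs * R := mul_nonneg hCs hR0.le
    linarith
  have hpl0 := abs_le.1 (hplan x0 hx0D)
  have hze0 : ze e x0 ≤ H / 2 := by
    have h1 : lam * ze e x0 < T + dl := by linarith [hpl0.1]
    have h2 : lam * ze e x0 < lam * (H / 2) := by linarith
    exact (lt_of_mul_lt_mul_left h2 hlam.le).le
  have hrect : ∀ x : V, ‖x - x0‖ < rho + 2 → x ∈ Rec e (K * R) R H := by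
    intro x hx
    have h1 := abs_al_sub_le he x x0
    have h2 := abs_le.1 (abs_ze_sub_le he x x0)
    refine ⟨?_, by linarith [h2.1], by linarith [h2.2]⟩
    have h3 : |al e x| ≤ |al e x - al e x0| + |al e x0| := by
      have := abs_add_le (al e x - al e x0) (al e x0)
      rwa [sub_add_cancel] at this
    linarith
  have hrectD : ∀ x : V, ‖x - x0‖ < rho + 2 → ‖x‖ + p.Cs * R < D := by
    intro x hx
    have h1 := norm_lt_of_mem_Rec he (hrect x hx) (by linarith)
    linarith
  have hballD : ∀ x : V, ‖x - x0‖ < rho + 2 → x ∈ ball (0 : V) D := by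
    intro x hx
    rw [mem_ball_zero_iff]
    have := hrectD x hx
    have : 0 ≤ p.Cs * R := mul_nonneg hCs hR0.le
    linarith
  have hM' := henv.med
  have hX0 := hW.sub
  have hrho0 : 0 < rho := by linarith
  have hx0O : x0 ∈ Ov e (K * R) R H W TE g := ⟨⟨hxa, hxb, hxc⟩, hxz, hxg⟩
  have ht1W : t1 ≤ W x0 := ht1 x0 hx0O (by rw [sub_self, norm_zero]; linarith)
  have hW0 : -(2 * dl) < W x0 := by
    have : 0 < lam * ze e x0 := mul_pos hlam hxz
    linarith [hpl0.1]
  set tg : ℝ := max (t1 - tau) (-(2 * dl)) with htg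
  have htg1 : t1 - tau ≤ tg := le_max_left _ _
  have htg2 : -(2 * dl) ≤ tg := le_max_right _ _
  have htgW : tg ≤ W x0 := max_le (by linarith [hn.tau_pos]) hW0.le
  have harr : ∀ x t, (x, t) ∈ arr true W ↔ W x ≤ t := fun x t => Iff.rfl
  have hsg : sgn true (frc c p.F) = frc c p.F := rfl
  have hX : SubIn (frc c p.F) (ball x0 (rho + 2)) tg (arr true W) := by
    have := hX0 tg
    rw [hsg] at this
    refine this.restrict ?_ le_rfl
    intro x hx
    rw [mem_ball, dist_eq_norm] at hx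
    exact hballD x hx
  -- the kink lemma
  have hfin := kink_gen hM' (X := arr true W) (x0 := x0) (rho := rho) (tg := tg) (t1 := t1) (tau := tau) (g := g)
    hn.tau_pos (by linarith) hn.Cp_tau hX (A := A0) hcan.A_closed (by linarith) ?_ ?_ (t := W x0) htgW
    (by
      have := le_max_right tg t1
      linarith) ((harr x0 (W x0)).2 le_rfl)
  · have h1 : TE x0 ≤ W x0 + g := (hcan.TE_iff x0 (W x0 + g) (by linarith)).2 hfin
    linarith
  · -- hord
    intro x t hx htg' htt1 hxX
    have hWx : W x ≤ t := (harr x t).1 hxX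
    refine (hcan.TE_iff x (t + g) (by linarith)).1 ?_
    by_contra hlt
    push Not at hlt
    have hzex : 0 < ze e x := by
      by_contra hle
      push Not at hle
      have := TE_eq_zero henv hcan hle
      linarith
    have hxO : x ∈ Ov e (K * R) R H W TE g := ⟨hrect x (by linarith), hzex, by linarith⟩
    have := ht1 x hxO hx
    linarith
  · -- hgap
    intro x hx hxX y hy
    rw [mem_closedBall, dist_eq_norm] at hy
    have hWx : W x ≤ tg := (harr x tg).1 hxX
    refine (hcan.TE_iff y (tg + g) (by linarith)).1 ?_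
    by_contra hlt
    push Not at hlt
    have hyx0 : ‖y - x0‖ < rho + 1 := by
      have : y - x0 = (y - x) + (x - x0) := by abel
      rw [this]
      refine (norm_add_le _ _).trans_lt ?_
      linarith
    have hzey : 0 < ze e y := by
      by_contra hle
      push Not at hle
      have := TE_eq_zero henv hcan hle
      linarith
    rcases le_total (t1 - tau) (-(2 * dl)) with hc | hc
    · have htg0 : tg = -(2 * dl) := max_eq_right hc
      rw [htg0] at hWx
      have h1 := (abs_le.1 (hplan x (hballD x (by linarith)))).1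
      have h2 : lam * ze e x ≤ lam * (-1) := by linarith
      have h3 := le_of_mul_le_mul_left h2 hlam
      have h4 := (abs_le.1 (abs_ze_sub_le he y x)).2
      linarith
    · have htg0 : tg = t1 - tau := max_eq_left hc
      rw [htg0] at hWx hlt
      have hfx : p.fine' c x r := hfine x (by linarith)
      have h1 : ‖x‖ + p.Cs * r < D := by
        have h2 := hrectD x (by linarith)
        have h3 : p.Cs * r ≤ p.Cs * R := mul_le_mul_of_nonneg_left (by linarith) hCs
        linarith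
      have h2 := hW.cl x r hr1 h1 hfx y x (by linarith) (by rw [sub_self, norm_zero]; linarith)
      have h3 := (abs_le.1 h2).2
      have h4 := hno y ⟨hrect y (by linarith), hzey, by linarith⟩ hyx0.le
      linarith

end Pool.Agent.FCF
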