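import Pool.Agent.FCF.PlMax

/-!
# FCF / PlEmax: maximum principle, case E (`a = W` window function behind, `b = TE` maximal flow)

PROOF. Let `x ∈ Ov g`, `s1 < al e x < s2`, and suppose `W x < t`. Put `X = arr true W = {z | W z.1 ≤ z.2}`, `U = ball 0 D`, `h = frc c p.F`, `A = A0`, `t0 = -2 dl`, `t1 = W x`
(`sgn true h = h`). Apply `maxp_gen` (PlMax) with time shift `g` (`t0 + g ≥ 0` as `g ≥ g0 ≥ 2 dl`), `h1 = 0`, `h2 = H / 2`:
`x ∈ E h A0 (W x + g)`, i.e. (by `hcan.TE_iff`) `TE x ≤ W x + g`, contradicting `x ∈ Ov g`. Facts: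
* overtaken at time `s ∈ [t0,t1]`: `W y ≤ s`, `y ∉ E h A0 (s+g)`, i.e. `s + g < TE y`. Then `TE y > 0`, so `ze e y > 0` (`ze e y ≤ 0 → y ∈ HP e 0 ⊆ A0 = E h A0 0`
  by `E_zero`, so `TE y ≤ 0` by `TE_iff`), `g < TE y - W y`, and `lam * ze e y - dl ≤ W y ≤ s ≤ t1 < t ≤ T` gives `ze e y ≤ H/2` (`H_lam`): (hht).
* (hlines): such a `y` with `al e y = s1` or `s2` would be in `Ov g` (it is in `Rec`: `|al| < K R`, `0 < ze ≤ H/2 < H`), so `t ≤ W y ≤ s ≤ W x < t`: contradiction.
* (hstart): `W y ≤ -2 dl` gives `lam * ze e y ≤ -dl`, so `ze e y ≤ 0`, `TE y ≤ 0 ≤ t0 + g`.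
* (hU): `‖x‖ ≤ |al| + |ze| ≤ K R + H < D` (`norm_le_al_ze`).
* `W x ≥ lam * ze e x - dl > -dl ≥ t0`.
-/

set_option autoImplicit false

namespace Pool.Agent.FCF

open Pool.Agent.VSC (V J LowJet)
open Set Metric

/-- `TE` vanishes below the initial line (also useful in the other modules of case E). -/
theorem TE_eq_zero {p : Par} {c : V → ℝ} {e : V} {A0 B0 : Set V} {TE TO : V → ℝ} {C gg : ℝ}
    (henv : p.Env c) (hcan : Canon p c e A0 B0 TE TO C gg) {x : V} (hx : ze e x ≤ 0) :
    TE x = 0 := by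
  have h1 : x ∈ A0 := hcan.A_sup hx
  have h2 : x ∈ E (frc c p.F) A0 0 := by
    rw [E_zero henv.med hcan.A_closed]
    exact h1
  exact le_antisymm ((hcan.TE_iff x 0 le_rfl).2 h2) (hcan.TE_nonneg x)

theorem E_max {p : Par} {c : V → ℝ} {e : V} {A0 B0 : Set V} {TE TO W : V → ℝ}
    {C gg lam K R H T D dl g0 rho r tau : ℝ} (henv : p.Env c) (he : ‖e‖ = 1)
    (hcan : Canon p c e A0 B0 TE TO C gg) (hn : Nm p C lam K R H T D dl g0 rho r tau)
    (hW : WF p true c D W) (hplan : ∀ x ∈ ball (0 : V) D, |W x - lam * ze e x| ≤ dl) :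
    ∀ g : ℝ, g0 ≤ g → ∀ s1 s2 : ℝ, -(K * R) < s1 → s1 < s2 → s2 < K * R → ∀ t : ℝ, t ≤ T →
    (∀ x ∈ Ov e (K * R) R H W TE g, al e x = s1 ∨ al e x = s2 → t ≤ W x) →
    ∀ x ∈ Ov e (K * R) R H W TE g, s1 < al e x → al e x < s2 → t ≤ W x := by
  intro g hg s1 s2 hs1 hs12 hs2 t ht hlines x hx hx1 hx2
  by_contra hlt
  rw [not_le] at hlt
  have hlam := hn.lam_pos
  have hdl : 0 < dl := hlam.trans_le hn.lam_dl
  have hC1 := hn.C_one
  have hR8 : 8 ≤ R := by
    have := hn.C_r
    have := hn.r_rho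
    have := hn.rho_R
    linarith
  have hM0 := p.hM
  have hsig := p.hsig
  have hCs : 0 ≤ p.Cs := by
    unfold Par.Cs Par.C1 Par.M1
    have : 0 ≤ (2 * p.M + 4) * p.sig := by
      apply mul_nonneg <;> linarith
    linarith
  have hCsR : 0 ≤ p.Cs * R := mul_nonneg hCs (by linarith)
  have hH := hn.H_ge
  have hD := hn.D_ge
  have hgd : 2 * dl ≤ g := by
    have h1 : 0 ≤ lam * (C + 1) := mul_nonneg hlam.le (by linarith)
    have := hn.g0_ge
    linarith
  have hpl : ∀ y ∈ ball (0 : V) D, lam * ze e y - dl ≤ W y ∧ W y ≤ lam * ze e y + dl := by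
    intro y hy
    have := abs_le.1 (hplan y hy)
    constructor <;> linarith [this.1, this.2]
  obtain ⟨hxR, hxz, hxg⟩ := hx
  have hxb : x ∈ ball (0 : V) D := by
    rw [mem_ball_zero_iff]
    have := norm_lt_of_mem_Rec he hxR (by linarith)
    linarith
  have hWx : -dl < W x := by
    have h1 := (hpl x hxb).1
    have h2 : 0 < lam * ze e x := mul_pos hlam hxz
    linarith
  have hX : SubIn (frc c p.F) (ball 0 D) (-(2 * dl)) (arr true W) := hW.sub (-(2 * dl))
  -- the basic facts about an overtaken point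
  have hbas : ∀ y s, y ∈ ball (0 : V) D → -(2 * dl) ≤ s → s ≤ W x → (y, s) ∈ arr true W →
      y ∉ E (frc c p.F) A0 (s + g) → W y ≤ s ∧ s + g < TE y ∧ 0 < ze e y ∧ ze e y ≤ H / 2 := by
    intro y s hy hs0 hs1 hys hyE
    have h1 : W y ≤ s := hys
    have hsg : 0 ≤ s + g := by linarith
    have h2 : s + g < TE y := by
      rw [← not_le]
      intro h
      exact hyE ((hcan.TE_iff y (s + g) hsg).1 h)
    have h3 : 0 < ze e y := by
      by_contra h
      rw [not_lt] at h
      rw [TE_eq_zero henv hcan h] at h2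
      linarith
    refine ⟨h1, h2, h3, ?_⟩
    have h4 := (hpl y hy).1
    have h5 := hn.H_lam
    by_contra h
    rw [not_le] at h
    have h6 : lam * (H / 2) < lam * ze e y := mul_lt_mul_of_pos_left h hlam
    linarith
  have hfin := maxp_gen henv.med he (U := ball (0 : V) D) isOpen_ball (t0 := -(2 * dl))
    (t1 := W x) (g := g) (s1 := s1) (s2 := s2) (h1 := 0) (h2 := H / 2) hX hcan.A_closed
    (by linarith) (by
      intro y hy
      obtain ⟨h1, h2, h3, h4⟩ := hy
      rw [mem_ball_zero_iff]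
      have h5 := norm_le_al_ze he y
      have h6 : |al e y| ≤ K * R := by
        rw [abs_le]
        constructor <;> linarith
      have h7 : |ze e y| ≤ H / 2 := by
        rw [abs_of_nonneg h3]
        exact h4
      linarith) (by
      intro y s hy _ _ hs0 hs1 hys hyE
      obtain ⟨-, -, h3, h4⟩ := hbas y s hy hs0 hs1 hys hyE
      exact ⟨h3.le, h4⟩) (by
      intro y s hy hal hs0 hs1' hys
      by_contra hyE
      obtain ⟨h1, h2, h3, h4⟩ := hbas y s hy hs0 hs1' hys hyE
      have h5 : |al e y| < K * R := by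
        rw [abs_lt]
        rcases hal with h | h
        · rw [h]
          constructor <;> linarith
        · rw [h]
          constructor <;> linarith
      have h6 : y ∈ Ov e (K * R) R H W TE g :=
        ⟨⟨h5, by linarith, by linarith⟩, h3, by linarith⟩
      have h7 := hlines y h6 hal
      linarith) (by
      intro y hy _ _ hy0
      have h1 : W y ≤ -(2 * dl) := hy0
      have h2 := (hpl y hy).1
      have h3 : ze e y ≤ 0 := by
        by_contra h
        rw [not_le] at h
        have : 0 < lam * ze e y := mul_pos hlam h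
        linarith
      refine (hcan.TE_iff y _ (by linarith)).1 ?_
      rw [TE_eq_zero henv hcan h3]
      linarith)
  have h8 := hfin x (W x) hxb hx1.le hx2.le (by linarith) le_rfl (show W x ≤ W x from le_rfl)
  have h9 := (hcan.TE_iff x (W x + g) (by linarith)).2 h8
  linarith

end Pool.Agent.FCF
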