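import Pool.Agent.FCF.PlDefs

/-!
# FCF / PlGeo: coordinates (elementary)
-/

set_option autoImplicit false

namespace Pool.Agent.FCF

open Pool.Agent.VSC (V J LowJet)
open Set Metric

theorem al_sub (e x y : V) : al e (x - y) = al e x - al e y := by
  simp only [al, inner_sub_left]

theorem ze_sub (e x y : V) : ze e (x - y) = ze e x - ze e y := by
  simp only [ze, inner_sub_left]

theorem al_add (e x y : V) : al e (x + y) = al e x + al e y := by
  simp only [al, inner_add_left]

theorem ze_add (e x y : V) : ze e (x + y) = ze e x + ze e y := by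
  simp only [ze, inner_add_left]

theorem ze_sq_add_al_sq {e : V} (he : ‖e‖ = 1) (x : V) : ze e x ^ 2 + al e x ^ 2 = ‖x‖ ^ 2 := by
  have h1 : e 0 ^ 2 + e 1 ^ 2 = 1 := by
    have := EuclideanSpace.norm_sq_eq e
    rw [he, Fin.sum_univ_two] at this
    simp only [Real.norm_eq_abs, sq_abs] at this
    linarith
  have h2 : ‖x‖ ^ 2 = x 0 ^ 2 + x 1 ^ 2 := by
    rw [EuclideanSpace.norm_sq_eq, Fin.sum_univ_two]
    simp only [Real.norm_eq_abs, sq_abs]
  have h3 : ze e x = e 0 * x 0 + e 1 * x 1 := by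
    simp only [ze, PiLp.inner_apply, Fin.sum_univ_two, RCLike.inner_apply, conj_trivial]
  have h4 : al e x = -(e 1) * x 0 + e 0 * x 1 := by
    simp only [al, PiLp.inner_apply, Fin.sum_univ_two, RCLike.inner_apply, conj_trivial,
      Pool.Agent.VSC.J_zero_apply, Pool.Agent.VSC.J_one_apply]
  rw [h2, h3, h4]
  linear_combination (x 0 ^ 2 + x 1 ^ 2) * h1

theorem abs_al_le {e : V} (he : ‖e‖ = 1) (x : V) : |al e x| ≤ ‖x‖ := by
  have := ze_sq_add_al_sq he x
  exact abs_le_of_sq_le_sq (by nlinarith [sq_nonneg (ze e x)]) (norm_nonneg _)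

theorem abs_ze_le {e : V} (he : ‖e‖ = 1) (x : V) : |ze e x| ≤ ‖x‖ := by
  have := ze_sq_add_al_sq he x
  exact abs_le_of_sq_le_sq (by nlinarith [sq_nonneg (al e x)]) (norm_nonneg _)

theorem norm_le_al_ze {e : V} (he : ‖e‖ = 1) (x : V) : ‖x‖ ≤ |al e x| + |ze e x| := by
  have := ze_sq_add_al_sq he x
  refine le_of_sq_le_sq ?_ (by positivity)
  rw [← this]
  nlinarith [sq_abs (al e x), sq_abs (ze e x), abs_nonneg (al e x), abs_nonneg (ze e x),
    mul_nonneg (abs_nonneg (al e x)) (abs_nonneg (ze e x))]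

theorem abs_al_sub_le {e : V} (he : ‖e‖ = 1) (x y : V) : |al e x - al e y| ≤ ‖x - y‖ := by
  rw [← al_sub]; exact abs_al_le he _

theorem abs_ze_sub_le {e : V} (he : ‖e‖ = 1) (x y : V) : |ze e x - ze e y| ≤ ‖x - y‖ := by
  rw [← ze_sub]; exact abs_ze_le he _

theorem continuous_al (e : V) : Continuous (al e) := by
  unfold al; fun_prop

theorem continuous_ze (e : V) : Continuous (ze e) := by
  unfold ze; fun_prop

theorem isOpen_Rec (e : V) (W B H : ℝ) : IsOpen (Rec e W B H) := by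
  have h1 := continuous_al e
  have h2 := continuous_ze e
  refine IsOpen.inter (isOpen_lt h1.abs continuous_const) ?_
  exact IsOpen.inter (isOpen_lt continuous_const h2) (isOpen_lt h2 continuous_const)

theorem mem_Rec {e x : V} {W B H : ℝ} :
    x ∈ Rec e W B H ↔ |al e x| < W ∧ -B < ze e x ∧ ze e x < H := Iff.rfl

theorem mem_Ov {e x : V} {W B H : ℝ} {a b : V → ℝ} {g : ℝ} :
    x ∈ Ov e W B H a b g ↔ x ∈ Rec e W B H ∧ 0 < ze e x ∧ g < b x - a x := Iff.rfl

theorem Ov_anti {e : V} {W B H : ℝ} {a b : V → ℝ} {g g' : ℝ} (h : g ≤ g') :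
    Ov e W B H a b g' ⊆ Ov e W B H a b g := fun _ hx => ⟨hx.1, hx.2.1, h.trans_lt hx.2.2⟩

/-- The rectangle is bounded. -/
theorem norm_lt_of_mem_Rec {e : V} (he : ‖e‖ = 1) {W B H : ℝ} {x : V} (hx : x ∈ Rec e W B H)
    (hB : B ≤ H) : ‖x‖ < W + H := by
  obtain ⟨h1, h2, h3⟩ := hx
  have := norm_le_al_ze he x
  have h4 : |ze e x| < H := by
    rw [abs_lt]; constructor <;> linarith
  linarith

/-- Closed slabs in the rectangle are compact. -/
theorem isCompact_slab {e : V} (he : ‖e‖ = 1) (s1 s2 h1 h2 : ℝ) :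
    IsCompact {x : V | s1 ≤ al e x ∧ al e x ≤ s2 ∧ h1 ≤ ze e x ∧ ze e x ≤ h2} := by
  have c1 := continuous_al e
  have c2 := continuous_ze e
  refine Metric.isCompact_of_isClosed_isBounded ?_ ?_
  · exact (isClosed_le continuous_const c1).inter ((isClosed_le c1 continuous_const).inter
      ((isClosed_le continuous_const c2).inter (isClosed_le c2 continuous_const)))
  · refine (Metric.isBounded_closedBall (x := (0 : V))
      (r := max |s1| |s2| + max |h1| |h2|)).subset fun x hx => ?_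
    rw [mem_closedBall_zero_iff]
    refine (norm_le_al_ze he x).trans (add_le_add ?_ ?_)
    · exact abs_le_max_abs_abs hx.1 hx.2.1
    · exact abs_le_max_abs_abs hx.2.2.1 hx.2.2.2

end Pool.Agent.FCF
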