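import Pool.Agent.FCF.PlTh

/-!
# FCF / PlLevel: upper bound of `b - a` at non-steep points

PROOF. `hP.speed` at `x` with radius `l` (`2 ≤ l`): `z ∈ Rec`, `‖z - x‖ ≤ l`. `hP.osc` at `x`, scale `l`: `|b x - b z| ≤ C3 l` (`‖z - x‖ ≤ l < 9 l`).
* second alternative `b z ≤ g0 + a x`: `b x - a x ≤ g0 + C3 l ≤ g + C3 l`.
* first alternative: `0 < ze e z`, `a z ≤ a x - (l-1)/M1`. If `z ∈ Ov g`: `a z ≥ th (al e z)` (`th_le_of_mem`) `≥ th (al e x) - l/(4 M1)` (`hns`; `|al e z| < K R`, `|al e z - al e x| ≤ l`) `> a x - hp/4 - l/(4 M1)`. With `M1 hp ≤ 1`: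
  `(l-1)/M1 < 1/(4 M1) + l/(4 M1)`, i.e. `3 l/4 < 5/4`, contradiction to `l ≥ 2`. So `z ∉ Ov g`, `b z - a z ≤ g`, `b x ≤ b z + C3 l ≤ g + a z + C3 l ≤ g + a x + C3 l`.
(`lo = -dl` in the lemmas of PlTh: `hP.lb`.)
-/

set_option autoImplicit false

namespace Pool.Agent.FCF

open Pool.Agent.VSC (V J LowJet)
open Set Metric

theorem level_bound {p : Par} {c : V → ℝ} {e : V} (he : ‖e‖ = 1)
    {K R H T dl g0 rho r tau : ℝ} {a b : V → ℝ} (hP : Pair p c e K R H T dl g0 rho r tau a b)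
    (hT : -dl ≤ T) (hr1 : 1 ≤ r) {g : ℝ} (hg : g0 ≤ g) {x : V} (hx : x ∈ Ov e (K * R) R H a b g)
    (hxl : |al e x| ≤ (K - 1) * R) (hxT : a x < T) {l : ℝ} (hrl : r ≤ l) (hl2 : 2 ≤ l)
    (hlR : l ≤ R / 2) (hfine : p.fine' c x l) {hp : ℝ} (hp1 : p.M1 * hp ≤ 1)
    (hnear : a x < th e (K * R) R H a b T g (al e x) + hp / 4)
    (hns : ∀ s : ℝ, |s| < K * R → |s - al e x| ≤ l →
      th e (K * R) R H a b T g (al e x) - 1 / (4 * p.M1) * l ≤ th e (K * R) R H a b T g s) :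
    b x - a x ≤ g + p.C3 * l := by
  have hM1 : 0 < p.M1 := by
    unfold Par.M1
    linarith [p.hM]
  obtain ⟨z, hzR, hzx, hz⟩ := hP.speed g hg x hx hxl hxT l hl2 hlR
  have hosc := hP.osc x hx.1 l hrl (by linarith) hfine x z
    (by rw [sub_self, norm_zero]; linarith) (by linarith)
  have hb := abs_le.1 hosc.2
  rcases hz with ⟨hz0, haz⟩ | hbz
  · have hl1 : 0 ≤ (l - 1) / p.M1 := div_nonneg (by linarith) hM1.le
    by_cases hzO : z ∈ Ov e (K * R) R H a b g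
    · exfalso
      have h1 : th e (K * R) R H a b T g (al e z) ≤ a z :=
        th_le_of_mem hT (fun y hy => hP.lb y hy.1 hy.2.1) hzO rfl
      have h2 := hns (al e z) hzR.1 ((abs_al_sub_le he z x).trans hzx)
      have h3 : (l - 1) / p.M1 < hp / 4 + 1 / (4 * p.M1) * l := by linarith
      have h4 : (l - 1) / p.M1 * p.M1 < (hp / 4 + 1 / (4 * p.M1) * l) * p.M1 :=
        mul_lt_mul_of_pos_right h3 hM1
      have h5 : (l - 1) / p.M1 * p.M1 = l - 1 := div_mul_cancel₀ _ hM1.ne'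
      have h6 : (hp / 4 + 1 / (4 * p.M1) * l) * p.M1 = (p.M1 * hp) / 4 + l / 4 := by
        field_simp
      rw [h5, h6] at h4
      linarith
    · have h1 : b z - a z ≤ g := by
        by_contra hcon
        push Not at hcon
        exact hzO ⟨hzR, hz0, hcon⟩
      linarith [hb.1, hb.2]
  · linarith [hb.1, hb.2]

end Pool.Agent.FCF
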