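import Pool.Agent.FCF.PlGeo

/-!
# FCF / PlMax: maximum principle between two vertical lines (fill-in lemma)

PROOF. Apply `fill_in_sub hm hA g hX (fun _ _ => le_rfl)` with
`C = {z | z ∈ X ∧ z.1 ∈ U ∧ s1 < al e z.1 ∧ al e z.1 < s2 ∧ t0 < z.2 ∧ z.2 ≤ t1 ∧ (z.1, z.2 + g) ∉ Flow h A}`.
* closure: `(x,t) ∈ closure C`: the closed conditions `s1 ≤ al e x ≤ s2`, `h1 ≤ ze e x ≤ h2` (by `hht`), `t0 ≤ t ≤ t1` pass to the closure, so `x ∈ U` by `hU`, and `(x,t) ∈ X`
  by `hX.closed`. If `(x, t+g) ∉ Flow h A`: `t ≠ t0` by `hstart`, `al e x ≠ s1, s2` by `hlines`. So `(x,t) ∈ C`.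
* openness: at `(x,t) ∈ C` the conditions `y ∈ U` (open), `s1 < al e y < s2`, `t0 < s`, `(y,s+g) ∉ Flow` (closed set) hold near `(x,t)`; `s ≤ t ≤ t1`.
* `0 < t + g` because `0 ≤ t0 + g`, `t0 < t`.
So `C = ∅`. A point `(x,t) ∈ X` of the closed strip with `t0 ≤ t ≤ t1`, not in `E h A (t+g)`, would be in `C` (again by `hstart`, `hlines`).
(`x ∈ E h A s` is by definition `(x, s) ∈ Flow h A`.)
-/

set_option autoImplicit false

namespace Pool.Agent.FCF

open Pool.Agent.VSC (V J LowJet)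
open Set Metric

theorem maxp_gen {M L : ℝ} {h : V → ℝ} (hm : Med M L h) {e : V} (he : ‖e‖ = 1)
    {X : Set (V × ℝ)} {U : Set V} (hUo : IsOpen U) {t0 t1 g s1 s2 h1 h2 : ℝ}
    (hX : SubIn h U t0 X) {A : Set V} (hA : IsClosed A) (hg : 0 ≤ t0 + g)
    (hU : {x : V | s1 ≤ al e x ∧ al e x ≤ s2 ∧ h1 ≤ ze e x ∧ ze e x ≤ h2} ⊆ U)
    (hht : ∀ x t, x ∈ U → s1 ≤ al e x → al e x ≤ s2 → t0 ≤ t → t ≤ t1 → (x, t) ∈ X →
      x ∉ E h A (t + g) → h1 ≤ ze e x ∧ ze e x ≤ h2)
    (hlines : ∀ x t, x ∈ U → (al e x = s1 ∨ al e x = s2) → t0 ≤ t → t ≤ t1 → (x, t) ∈ X →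
      x ∈ E h A (t + g))
    (hstart : ∀ x, x ∈ U → s1 ≤ al e x → al e x ≤ s2 → (x, t0) ∈ X → x ∈ E h A (t0 + g)) :
    ∀ x t, x ∈ U → s1 ≤ al e x → al e x ≤ s2 → t0 ≤ t → t ≤ t1 → (x, t) ∈ X →
      x ∈ E h A (t + g) := by
  have hFc : IsClosed (Flow h A) := isClosed_closure
  let C : Set (V × ℝ) := {z | z ∈ X ∧ z.1 ∈ U ∧ s1 < al e z.1 ∧ al e z.1 < s2 ∧ t0 < z.2 ∧
    z.2 ≤ t1 ∧ (z.1, z.2 + g) ∉ Flow h A}
  have hCdef : ∀ x t, (x, t) ∈ C ↔ ((x, t) ∈ X ∧ x ∈ U ∧ s1 < al e x ∧ al e x < s2 ∧ t0 < t ∧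
    t ≤ t1 ∧ (x, t + g) ∉ Flow h A) := fun _ _ => Iff.rfl
  have main : ∀ x t, x ∈ U → s1 ≤ al e x → al e x ≤ s2 → t0 ≤ t → t ≤ t1 → (x, t) ∈ X →
      (x, t + g) ∉ Flow h A → (x, t) ∈ C := by
    intro x t hxU ha hb ht0 ht1 hX' hn
    rw [hCdef]
    refine ⟨hX', hxU, lt_of_le_of_ne ha fun hh => ?_, lt_of_le_of_ne hb fun hh => ?_,
      lt_of_le_of_ne ht0 fun hh => ?_, ht1, hn⟩
    · exact hn (hlines x t hxU (Or.inl hh.symm) ht0 ht1 hX')
    · exact hn (hlines x t hxU (Or.inr hh) ht0 ht1 hX')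
    · subst hh
      exact hn (hstart x hxU ha hb hX')
  have hempty : C = ∅ := by
    refine fill_in_sub hm hA g hX (fun _ _ => le_rfl) (fun x t hx => ?_) (fun x t hx => ?_)
      (fun x t hx => ?_)
    · rw [hCdef] at hx
      obtain ⟨h1', h2', _, _, h5', _, h7'⟩ := hx
      exact ⟨h1', h2', h5', by linarith, h7'⟩
    · -- closure
      have hcl : closure C ⊆ {z : V × ℝ | s1 ≤ al e z.1 ∧ al e z.1 ≤ s2 ∧ h1 ≤ ze e z.1 ∧
          ze e z.1 ≤ h2 ∧ t0 ≤ z.2 ∧ z.2 ≤ t1} := by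
        refine closure_minimal ?_ ?_
        · rintro ⟨y, s⟩ hy
          rw [hCdef] at hy
          obtain ⟨a1, a2, a3, a4, a5, a6, a7⟩ := hy
          have hz := hht y s a2 a3.le a4.le a5.le a6 a1 a7
          exact ⟨a3.le, a4.le, hz.1, hz.2, a5.le, a6⟩
        · have ca := (continuous_al e).comp (continuous_fst (X := V) (Y := ℝ))
          have cz := (continuous_ze e).comp (continuous_fst (X := V) (Y := ℝ))
          exact (isClosed_le continuous_const ca).inter ((isClosed_le ca continuous_const).inter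
            ((isClosed_le continuous_const cz).inter ((isClosed_le cz continuous_const).inter
              ((isClosed_le continuous_const continuous_snd).inter
                (isClosed_le continuous_snd continuous_const)))))
      obtain ⟨b1, b2, b3, b4, b5, b6⟩ := hcl hx
      have hxU : x ∈ U := hU ⟨b1, b2, b3, b4⟩
      have hxX : (x, t) ∈ X := by
        refine hX.closed x t hxU b5 (closure_mono ?_ hx)
        rintro ⟨y, s⟩ hy
        rw [hCdef] at hy
        exact ⟨hy.1, hy.2.2.2.2.1.le⟩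
      by_cases hF : (x, t + g) ∈ Flow h A
      · exact Or.inr hF
      · exact Or.inl (main x t hxU b1 b2 b5 b6 hxX hF)
    · -- openness
      rw [hCdef] at hx
      obtain ⟨a1, a2, a3, a4, a5, a6, a7⟩ := hx
      obtain ⟨r1, hr1, hb1⟩ := Metric.isOpen_iff.1 hUo x a2
      obtain ⟨r4, hr4, hb4⟩ := Metric.isOpen_iff.1 hFc.isOpen_compl (x, t + g) a7
      refine ⟨min (min r1 r4) (min (min (al e x - s1) (s2 - al e x)) (t - t0)),
        lt_min (lt_min hr1 hr4) (lt_min (lt_min (by linarith) (by linarith)) (by linarith)),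
        fun y s hy hs1 hs2 hyX => ?_⟩
      rw [lt_min_iff, lt_min_iff, lt_min_iff, lt_min_iff] at hy
      obtain ⟨⟨c1, c4⟩, ⟨c2, c3⟩, _⟩ := hy
      have hrt : t - (t - t0) ≤ t - min (min r1 r4) (min (min (al e x - s1) (s2 - al e x))
          (t - t0)) := by
        have := (min_le_right (min r1 r4) (min (min (al e x - s1) (s2 - al e x))
          (t - t0))).trans (min_le_right _ _)
        linarith
      have hr4' : min (min r1 r4) (min (min (al e x - s1) (s2 - al e x)) (t - t0)) ≤ r4 :=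
        (min_le_left _ _).trans (min_le_right _ _)
      have hal := abs_al_sub_le he y x
      rw [abs_le] at hal
      rw [hCdef]
      refine ⟨hyX, hb1 (by rwa [mem_ball, dist_eq_norm]), by linarith [hal.1], by linarith [hal.2],
        by linarith, hs2.trans a6, fun hF => ?_⟩
      have hmem : (y, s + g) ∈ ball (x, t + g) r4 := by
        rw [mem_ball, Prod.dist_eq, max_lt_iff]
        refine ⟨by rwa [dist_eq_norm], ?_⟩
        show dist (s + g) (t + g) < r4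
        rw [Real.dist_eq, abs_lt]
        constructor <;> linarith
      exact hb4 hmem hF
  intro x t hxU ha hb ht0 ht1 hX'
  by_contra hn
  have := main x t hxU ha hb ht0 ht1 hX' hn
  rw [hempty] at this
  exact this

end Pool.Agent.FCF
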