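import Pool.Agent.FCF.PlKink
import Pool.Agent.FCF.FlowVisc

/-!
# FCF / PlOkink: kink lemma, case O

`h = fun x => -frc c p.F x`, `X = {z | z.2 + g ≤ W z.1}` (subflow in `ball 0 D` from every time, `SubIn.shift_time`), `A = B0`, time shift `0` in `kink_gen`.
PROOF. Suppose there is no such `z`. `tg = max (t1 - tau) 0`. `x0 ∈ Ov g`: `TO x0 < W x0 - g`; `t1 ≤ TO x0` (take `z = x0`), `0 ≤ TO x0`. Choose `t` with `TO x0 < t ≤ W x0 - g`, `t < t1 + hpl`. `kink_gen`
gives `x0 ∈ E h B0 t`, i.e. `t ≤ TO x0` (`TO_iff`, `t > 0`): contradiction.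
* points with `‖x - x0‖ < rho + 2` are in `Rec` (`ze e x0 ≤ H/2`: `TE_ge`, `near`, `H_M1`) and in `ball 0 D`.
* (hord) `tg ≤ s < t1`, `s + g ≤ W x`. If `s > 0`: if `x ∉ E h B0 s` then `TO x < s`, `W x - TO x > g`, `ze e x > 0` (`W x ≥ g > dl`), so `x ∈ Ov g` and `t1 ≤ TO x < s < t1`.
  If `s = 0`: `W x ≥ g` gives `C ≤ ze e x`, `x ∈ B0 = E h B0 0`.
* (hgap) `tg + g ≤ W x`, `‖x-x0‖ < rho`, `‖y - x‖ ≤ 1/12`, `y ∉ E h B0 tg`: `W y ≥ W x - C3 r` (`hW.cl` at `x`, `fine'` at scale `r`), so `tg + (g - C3 r) ≤ W y`,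
  and the same facts with `g - C3 r ≥ g0` give `tg > 0`, `TO y < tg = t1 - tau`, `ze e y > 0`: `z = y`.
-/

set_option autoImplicit false

namespace Pool.Agent.FCF

open Pool.Agent.VSC (V J LowJet)
open Set Metric

/-- Facts on overtaken points. -/
private theorem okink_facts {p : Par} {c : V → ℝ} {e : V} {A0 B0 : Set V} {TE TO W : V → ℝ}
    {C gg lam K R H T D dl g0 rho r tau : ℝ} (henv : p.Env c) (hM1 : 0 < p.M1)
    (hcan : Canon p c e A0 B0 TE TO C gg) (hn : Nm p C lam K R H T D dl g0 rho r tau)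
    (hplan : ∀ x ∈ ball (0 : V) D, |W x - lam * ze e x| ≤ dl) {g s : ℝ} (hg : g0 ≤ g)
    (hs0 : 0 ≤ s) {y : V} (hy : y ∈ ball (0 : V) D) (hWy : s + g ≤ W y)
    (hyE : y ∉ E (fun x => -frc c p.F x) B0 s) :
    0 < s ∧ TO y < s ∧ 0 < ze e y := by
  have hm : Med p.M p.L (fun x => -frc c p.F x) := henv.med.neg'
  have hlam := hn.lam_pos
  have hC := hn.C_one
  have hldl := hn.lam_dl
  have hg0 := hn.g0_ge
  have h1 := (abs_le.1 (hplan y hy)).2
  have h2 : lam * (C + 1) ≤ lam * ze e y := by linarith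
  have h3 : C + 1 ≤ ze e y := le_of_mul_le_mul_left h2 hlam
  have hs : 0 < s := by
    rcases hs0.lt_or_eq with h | h
    · exact h
    · exfalso
      refine hyE ?_
      rw [← h, E_zero hm hcan.B_closed]
      refine hcan.B_sup ?_
      show C ≤ inner ℝ y e
      have : C + 1 ≤ inner ℝ y e := h3
      linarith
  have h4 : TO y < s := by
    by_contra hc
    exact hyE ((hcan.TO_iff y s hs).1 (not_lt.1 hc))
  exact ⟨hs, h4, by linarith⟩

theorem O_kink {p : Par} {c : V → ℝ} {e : V} {A0 B0 : Set V} {TE TO W : V → ℝ}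
    {C gg lam K R H T D dl g0 rho r tau : ℝ} (henv : p.Env c) (he : ‖e‖ = 1)
    (hcan : Canon p c e A0 B0 TE TO C gg) (hn : Nm p C lam K R H T D dl g0 rho r tau)
    (hW : WF p false c D W) (hplan : ∀ x ∈ ball (0 : V) D, |W x - lam * ze e x| ≤ dl) :
    ∀ g : ℝ, g0 + p.C3 * r ≤ g → ∀ x0 ∈ Ov e (K * R) R H TO W g,
    |al e x0| + rho + 2 ≤ K * R → TO x0 < T → (∀ y : V, ‖y - x0‖ ≤ 2 * rho → p.fine' c y r) →
    ∀ t1 : ℝ, (∀ z ∈ Ov e (K * R) R H TO W g, ‖z - x0‖ < rho + 1 → t1 ≤ TO z) →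
    TO x0 < t1 + hpl p.M p.L tau →
    ∃ z ∈ Ov e (K * R) R H TO W (g - p.C3 * r), ‖z - x0‖ ≤ rho + 1 ∧
      TO z ≤ t1 - tau + p.C3 * r := by
  intro g hg x0 hx0 hlat hTOT hfine t1 ht1 hTOt1
  by_contra hno
  push Not at hno
  obtain ⟨⟨hxa, hxb, hxc⟩, hxz, hxg⟩ := hx0
  -- numbers
  have hlam := hn.lam_pos
  have hC1 := hn.C_one
  have hCr := hn.C_r
  have hrr := hn.r_rho
  have hR8 := hn.rho_R
  have hldl := hn.lam_dl
  have hg0 := hn.g0_ge
  have hH4 := hn.H_ge
  have hHM := hn.H_M1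
  have hD := hn.D_ge
  have hM := p.hM
  have hs := p.hsig
  have hM1 : 0 < p.M1 := by unfold Par.M1; linarith
  have hC1p : 1 ≤ p.C1 := by
    unfold Par.C1
    have := mul_nonneg hM1.le (by linarith : 0 ≤ p.sig)
    linarith
  have hC3 : 0 ≤ p.C3 := by
    unfold Par.C3
    have : 0 ≤ p.C1 := by linarith
    have h2 : 0 ≤ p.sig := by linarith
    positivity
  have hCs : 0 ≤ p.Cs := by unfold Par.Cs; linarith
  have hr1 : 1 ≤ r := by linarith
  have hC3r : 0 ≤ p.C3 * r := mul_nonneg hC3 (by linarith)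
  have hR0 : 0 < R := by linarith
  have hKR : 2 * R ≤ K * R := mul_le_mul_of_nonneg_right hn.K_two hR0.le
  have hCsR : 0 ≤ p.Cs * R := mul_nonneg hCs hR0.le
  -- position of `x0`
  have hze0 : ze e x0 ≤ H / 2 := by
    have h5 : ze e x0 / p.M1 - C ≤ TE x0 := hcan.TE_ge x0
    have h6 := (abs_le.1 (hcan.near x0)).2
    have h7 : ze e x0 / p.M1 ≤ T + 2 * C := by linarith
    have h8 : ze e x0 ≤ (T + 2 * C) * p.M1 := (div_le_iff₀ hM1).1 h7
    linarith
  have hrect : ∀ x : V, ‖x - x0‖ < rho + 2 → x ∈ Rec e (K * R) R H := by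
    intro x hx
    have h1 := abs_al_sub_le he x x0
    have h2 := abs_le.1 (abs_ze_sub_le he x x0)
    refine ⟨?_, by linarith [h2.1], by linarith [h2.2]⟩
    have h3 : |al e x| ≤ |al e x - al e x0| + |al e x0| := by
      have := abs_add_le (al e x - al e x0) (al e x0)
      rwa [sub_add_cancel] at this
    linarith
  have hrectD : ∀ x : V, ‖x - x0‖ < rho + 2 → ‖x‖ + p.Cs * R < D := by
    intro x hx
    have h1 := norm_lt_of_mem_Rec he (hrect x hx) (by linarith)
    linarith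
  have hballD : ∀ x : V, ‖x - x0‖ < rho + 2 → x ∈ ball (0 : V) D := by
    intro x hx
    rw [mem_ball_zero_iff]
    have := hrectD x hx
    linarith
  have hm : Med p.M p.L (fun x => -frc c p.F x) := henv.med.neg'
  have hrho0 : 0 < rho := by linarith
  have hx0O : x0 ∈ Ov e (K * R) R H TO W g := ⟨⟨hxa, hxb, hxc⟩, hxz, hxg⟩
  have ht1W : t1 ≤ TO x0 := ht1 x0 hx0O (by rw [sub_self, norm_zero]; linarith)
  have hTO0 := hcan.TO_nonneg x0
  have htau := hn.tau_pos
  set tg : ℝ := max (t1 - tau) 0 with htg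
  have htg1 : t1 - tau ≤ tg := le_max_left _ _
  have htg2 : 0 ≤ tg := le_max_right _ _
  have htgTO : tg ≤ TO x0 := max_le (by linarith) hTO0
  -- the time
  obtain ⟨t, hta, htb, htc⟩ : ∃ t, TO x0 < t ∧ t ≤ W x0 - g ∧ t < t1 + hpl p.M p.L tau := by
    refine ⟨min (W x0 - g) ((TO x0 + (t1 + hpl p.M p.L tau)) / 2),
      lt_min (by linarith) (by linarith), min_le_left _ _,
      (min_le_right _ _).trans_lt (by linarith)⟩
  have hX : SubIn (fun x => -frc c p.F x) (ball x0 (rho + 2)) tg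
      {z | (z.1, z.2 + g) ∈ arr false W} := by
    have h1 := hW.sub (tg + g)
    simp only [sgn, Bool.false_eq_true, if_false] at h1
    refine h1.shift_time g |>.restrict ?_ le_rfl
    intro x hx
    rw [mem_ball, dist_eq_norm] at hx
    exact hballD x hx
  have hmemX : ∀ (y : V) (s : ℝ), (y, s) ∈ {z : V × ℝ | (z.1, z.2 + g) ∈ arr false W} ↔
      s + g ≤ W y := by
    intro y s
    simp [arr]
  -- the kink lemma
  have hfin := kink_gen hm (X := {z | (z.1, z.2 + g) ∈ arr false W}) (x0 := x0) (rho := rho)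
    (tg := tg) (t1 := t1) (tau := tau) (g := 0) htau (by linarith) hn.Cp_tau hX (A := B0)
    hcan.B_closed (by linarith) ?_ ?_ (t := t) (by linarith)
    (by
      have := le_max_right tg t1
      linarith) ((hmemX x0 t).2 (by linarith))
  · rw [add_zero] at hfin
    have h1 : t ≤ TO x0 := (hcan.TO_iff x0 t (by linarith)).2 hfin
    linarith
  · -- hord
    intro x s hx htg' hst1 hxX
    rw [add_zero]
    have hWx : s + g ≤ W x := (hmemX x s).1 hxX
    by_contra hxE
    obtain ⟨h1, h2, h3⟩ := okink_facts henv hM1 hcan hn hplan (by linarith : g0 ≤ g)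
      (by linarith : 0 ≤ s) (hballD x (by linarith)) hWx hxE
    have hxO : x ∈ Ov e (K * R) R H TO W g := ⟨hrect x (by linarith), h3, by linarith⟩
    have := ht1 x hxO hx
    linarith
  · -- hgap
    intro x hx hxX y hy
    rw [mem_closedBall, dist_eq_norm] at hy
    rw [add_zero]
    have hWx : tg + g ≤ W x := (hmemX x tg).1 hxX
    by_contra hyE
    have hyx0 : ‖y - x0‖ < rho + 1 := by
      have h0 : y - x0 = (y - x) + (x - x0) := by abel
      rw [h0]
      have := norm_add_le (y - x) (x - x0)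
      linarith
    have h1 := hW.cl x r hr1 (by
      have h2 := hrectD x (by linarith)
      have h3 : p.Cs * r ≤ p.Cs * R := mul_le_mul_of_nonneg_left (by linarith) hCs
      linarith) (hfine x (by linarith)) y x (by linarith) (by rw [sub_self, norm_zero]; linarith)
    have h2 := (abs_le.1 h1).1
    obtain ⟨h3, h4, h5⟩ := okink_facts henv hM1 hcan hn hplan
      (by linarith : g0 ≤ g - p.C3 * r) htg2 (hballD y (by linarith))
      (by linarith : tg + (g - p.C3 * r) ≤ W y) hyE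
    have h6 : tg = t1 - tau := by
      rcases le_total (t1 - tau) 0 with h | h
      · have : tg = 0 := max_eq_right h
        linarith
      · exact max_eq_left h
    have h7 : y ∈ Ov e (K * R) R H TO W (g - p.C3 * r) :=
      ⟨hrect y (by linarith), h5, by linarith⟩
    have h8 := hno y h7 hyx0.le
    linarith

end Pool.Agent.FCF
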