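import Pool.Agent.FCF.PlGeo

/-!
# FCF / PlShift: window functions of the shifted environment give window functions of `c`

`fine'_shift`, `fine1_shift`: from `E_shift` (file FlowBasic): `y ∈ E (frc (c(x0+.)) F) (closedBall z r) t ↔ x0 + y ∈ E (frc c F) (closedBall (x0+z) r) t`.
`WF_of_Win`: `W x = T (x - x0) + a`. `sub`: `SubIn.shift_space` with `y = -x0` and `SubIn.shift_time` (the constant `a`), and `SubIn.restrict` (the ball `‖x‖ < D` is mapped into
`oc J`: `|(x - x0) i| ≤ ‖x - x0‖ < D + ‖x0‖ ≤ 2^J`); the force `fun x => frc (fun x => c (x0 + x)) F (-x0 + x)` is `frc c F`. Both signs `b`.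
`cl`: `Win.cl` at the point `x - x0`, with `fine'_shift`.
-/

set_option autoImplicit false

namespace Pool.Agent.FCF

open Pool.Agent.VSC (V J LowJet)
open Set Metric

private theorem plShift_ball (x0 z : V) (r : ℝ) :
    {y : V | x0 + y ∈ closedBall (x0 + z) r} = closedBall z r := by
  ext y
  show x0 + y ∈ closedBall (x0 + z) r ↔ _
  rw [mem_closedBall, dist_eq_norm, mem_closedBall, dist_eq_norm]
  have : x0 + y - (x0 + z) = y - z := by abel
  rw [this]

theorem fine'_shift {p : Par} {c : V → ℝ} (x0 x : V) (r : ℝ) :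
    p.fine' (fun x => c (x0 + x)) x r ↔ p.fine' c (x0 + x) r := by
  constructor
  · intro h z hz w hw
    have h1 := h (z - x0) (by
      have : z - x0 - x = z - (x0 + x) := by abel
      rw [this]
      exact hz)
    have h2 : w - x0 ∈ closedBall (z - x0) (10 * r) := by
      rw [mem_closedBall, dist_eq_norm] at hw ⊢
      rw [sub_sub_sub_cancel_right]
      exact hw
    have h3 := h1 h2
    have h4 := plShift_ball x0 (z - x0) r
    rw [← h4] at h3
    have h5 := (E_shift (h := frc c p.F') (A := closedBall (x0 + (z - x0)) r) x0 (p.sig * r)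
      (w - x0)).1 h3
    have h6 : ∀ v : V, x0 + (v - x0) = v := fun v => by abel
    rw [h6, h6] at h5
    exact h5
  · intro h z hz w hw
    have h1 := h (x0 + z) (by
      have : x0 + z - (x0 + x) = z - x := by abel
      rw [this]
      exact hz)
    have h2 : x0 + w ∈ closedBall (x0 + z) (10 * r) := by
      rw [mem_closedBall, dist_eq_norm] at hw ⊢
      have : x0 + w - (x0 + z) = w - z := by abel
      rw [this]
      exact hw
    have h3 := (E_shift (h := frc c p.F') (A := closedBall (x0 + z) r) x0 (p.sig * r) w).2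
      (h1 h2)
    rw [plShift_ball] at h3
    exact h3

theorem WF_of_Win {p : Par} {c : V → ℝ} {b : Bool} {x0 P : V} {eps del : ℝ} {k J' : ℕ}
    {T : V → ℝ} {Y : Set (ℤ × ℤ)}
    (hW : Win p b (frc (fun x => c (x0 + x)) p.F) (p.fine' (fun x => c (x0 + x))) P eps del k J' T Y)
    {D : ℝ} (hD : D + ‖x0‖ ≤ 2 ^ J') (a : ℝ) : WF p b c D (fun x => T (x - x0) + a) := by
  have hoc : ∀ v : V, ‖v‖ < D → v - x0 ∈ oc J' := by
    intro v hv i
    have h1 := PiLp.norm_apply_le (v - x0) i
    rw [Real.norm_eq_abs] at h1
    have h2 := norm_sub_le v x0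
    linarith
  constructor
  · intro t0
    have h1 := ((hW.sub (t0 + (-a))).shift_space (-x0)).shift_time (-a)
    have h2 := h1.restrict (U' := ball 0 D) (t0' := t0) (by
      intro x hx
      show -x0 + x ∈ oc J'
      rw [mem_ball_zero_iff] at hx
      have h3 : -x0 + x = x - x0 := by abel
      rw [h3]
      exact hoc x hx) le_rfl
    have h3 : (fun x => sgn b (frc (fun x => c (x0 + x)) p.F) (-x0 + x)) =
        sgn b (frc c p.F) := by
      funext x
      cases b <;> simp [sgn, frc]
    have h4 : {z : V × ℝ | (z.1, z.2 + -a) ∈ {z : V × ℝ | (-x0 + z.1, z.2) ∈ arr b T}} =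
        arr b (fun x => T (x - x0) + a) := by
      ext z
      have h5 : -x0 + z.1 = z.1 - x0 := by abel
      cases b
      · show z.2 + -a ≤ T (-x0 + z.1) ↔ z.2 ≤ T (z.1 - x0) + a
        rw [h5]
        constructor <;> intro h <;> linarith
      · show T (-x0 + z.1) ≤ z.2 + -a ↔ T (z.1 - x0) + a ≤ z.2
        rw [h5]
        constructor <;> intro h <;> linarith
    rw [h3, h4] at h2
    exact h2
  · intro x r hr hx hfi y z hy hz
    have h1 : closedBall (x - x0) (p.Cs * r) ⊆ oc J' := by
      intro w hw
      rw [mem_closedBall, dist_eq_norm] at hw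
      have h2 : ‖w + x0‖ < D := by
        have h3 : w + x0 = (w - (x - x0)) + x := by abel
        rw [h3]
        have := norm_add_le (w - (x - x0)) x
        linarith
      have h3 := hoc (w + x0) h2
      rwa [add_sub_cancel_right] at h3
    have h2 : p.fine' (fun x => c (x0 + x)) (x - x0) r := by
      rw [fine'_shift]
      have h3 : x0 + (x - x0) = x := by abel
      rw [h3]
      exact hfi
    have h3 := hW.cl (x - x0) r hr h1 h2 (y - x0) (z - x0)
      (by rw [sub_sub_sub_cancel_right]; exact hy) (by rw [sub_sub_sub_cancel_right]; exact hz)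
    show |T (y - x0) + a - (T (z - x0) + a)| ≤ _
    rw [add_sub_add_right_eq_sub]
    exact h3

end Pool.Agent.FCF
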