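import Pool.Agent.FCF.PlGeo

/-!
# FCF / PlTh: the first overtaking time `th` on vertical lines

`th e W B H a b T g s = sInf ({T} ∪ a '' {x | x ∈ Ov e W B H a b g ∧ al e x = s})`. The set is nonempty, bounded below by `lo` (`lo ≤ T`, `lo ≤ a x` on `Ov`).
`QC_th`: for `s1 ≤ s ≤ s2`: if `s = s1` or `s = s2` trivial. Otherwise `t = min (th s1) (th s2) ≤ T`; the points `x ∈ Ov g` with `al e x = s1` or `s2` have `a x ≥ th (al e x) ≥ t`; by the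
maximum principle (hypothesis `hmax`) all `x ∈ Ov g` on the line `s` have `t ≤ a x`, so `t ≤ th s` (`le_th`).
-/

set_option autoImplicit false

namespace Pool.Agent.FCF

open Pool.Agent.VSC (V J LowJet)
open Set Metric

private theorem PlTh_bdd {e : V} {W B H : ℝ} {a b : V → ℝ} {T g s lo : ℝ} (hT : lo ≤ T)
    (hlo : ∀ x ∈ Ov e W B H a b g, lo ≤ a x) :
    BddBelow ({T} ∪ a '' {x | x ∈ Ov e W B H a b g ∧ al e x = s}) := by
  refine ⟨lo, ?_⟩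
  rintro y (rfl | ⟨x, ⟨hx, _⟩, rfl⟩)
  · exact hT
  · exact hlo x hx

theorem th_le_T {e : V} {W B H : ℝ} {a b : V → ℝ} {T g s lo : ℝ} (hT : lo ≤ T)
    (hlo : ∀ x ∈ Ov e W B H a b g, lo ≤ a x) : th e W B H a b T g s ≤ T := by
  exact csInf_le (PlTh_bdd hT hlo) (Or.inl rfl)

theorem lo_le_th {e : V} {W B H : ℝ} {a b : V → ℝ} {T g s lo : ℝ} (hT : lo ≤ T)
    (hlo : ∀ x ∈ Ov e W B H a b g, lo ≤ a x) : lo ≤ th e W B H a b T g s := by
  refine le_csInf ⟨T, Or.inl rfl⟩ ?_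
  rintro y (rfl | ⟨x, ⟨hx, _⟩, rfl⟩)
  · exact hT
  · exact hlo x hx

theorem th_le_of_mem {e : V} {W B H : ℝ} {a b : V → ℝ} {T g s lo : ℝ} (hT : lo ≤ T)
    (hlo : ∀ x ∈ Ov e W B H a b g, lo ≤ a x) {x : V} (hx : x ∈ Ov e W B H a b g)
    (hs : al e x = s) : th e W B H a b T g s ≤ a x := by
  exact csInf_le (PlTh_bdd hT hlo) (Or.inr ⟨x, ⟨hx, hs⟩, rfl⟩)

theorem le_th {e : V} {W B H : ℝ} {a b : V → ℝ} {T g s t : ℝ} (ht : t ≤ T)
    (h : ∀ x ∈ Ov e W B H a b g, al e x = s → t ≤ a x) : t ≤ th e W B H a b T g s := by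
  refine le_csInf ⟨T, Or.inl rfl⟩ ?_
  rintro y (rfl | ⟨x, ⟨hx, hs⟩, rfl⟩)
  · exact ht
  · exact h x hx hs

theorem exists_of_th_lt {e : V} {W B H : ℝ} {a b : V → ℝ} {T g s u : ℝ}
    (hT : th e W B H a b T g s < T) (hu : th e W B H a b T g s < u) :
    ∃ x ∈ Ov e W B H a b g, al e x = s ∧ a x < u ∧ a x < T := by
  have hne : ({T} ∪ a '' {x | x ∈ Ov e W B H a b g ∧ al e x = s}).Nonempty := ⟨T, Or.inl rfl⟩
  obtain ⟨y, hy, hyl⟩ := exists_lt_of_csInf_lt hne (show sInf _ < min u T from lt_min hu hT)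
  rcases hy with rfl | ⟨x, ⟨hx, hs⟩, rfl⟩
  · exact absurd (hyl.trans_le (min_le_right _ _)) (lt_irrefl _)
  · exact ⟨x, hx, hs, hyl.trans_le (min_le_left _ _), hyl.trans_le (min_le_right _ _)⟩

theorem th_mono {e : V} {W B H : ℝ} {a b : V → ℝ} {T g g' s lo : ℝ} (hT : lo ≤ T)
    (hlo : ∀ x ∈ Ov e W B H a b g, lo ≤ a x) (hgg : g ≤ g') :
    th e W B H a b T g s ≤ th e W B H a b T g' s := by
  refine csInf_le_csInf (PlTh_bdd hT hlo) ⟨T, Or.inl rfl⟩ ?_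
  rintro y (rfl | ⟨x, ⟨hx, hs⟩, rfl⟩)
  · exact Or.inl rfl
  · exact Or.inr ⟨x, ⟨Ov_anti hgg hx, hs⟩, rfl⟩

theorem QC_th {e : V} {W B H : ℝ} {a b : V → ℝ} {T g lo : ℝ} (hT : lo ≤ T)
    (hlo : ∀ x ∈ Ov e W B H a b g, lo ≤ a x)
    (hmax : ∀ s1 s2 : ℝ, -W < s1 → s1 < s2 → s2 < W → ∀ t : ℝ, t ≤ T →
      (∀ x ∈ Ov e W B H a b g, al e x = s1 ∨ al e x = s2 → t ≤ a x) →
      ∀ x ∈ Ov e W B H a b g, s1 < al e x → al e x < s2 → t ≤ a x) :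
    QC W (th e W B H a b T g) := by
  intro s1 s s2 h1 h2 h3 h4
  rcases h2.eq_or_lt with rfl | h2
  · exact min_le_left _ _
  rcases h3.eq_or_lt with rfl | h3
  · exact min_le_right _ _
  refine le_th ((min_le_left _ _).trans (th_le_T hT hlo)) fun x hx hs => ?_
  refine hmax s1 s2 h1 (h2.trans h3) h4 _ ((min_le_left _ _).trans (th_le_T hT hlo)) ?_ x hx
    (hs ▸ h2) (hs ▸ h3)
  rintro y hy (hy1 | hy1)
  · exact (min_le_left _ _).trans (th_le_of_mem hT hlo hy hy1)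
  · exact (min_le_right _ _).trans (th_le_of_mem hT hlo hy hy1)

end Pool.Agent.FCF
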