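import Pool.Agent.FCF.FlowVisc
import Pool.Agent.FCF.FinDefs

/-!
# Existence, uniqueness and level sets of the solution `IsSol`
-/

set_option autoImplicit false

open Set Metric Filter

namespace Pool.Agent.FCF

open Pool.Agent.VSC

theorem sol_exists {M L : ℝ} {f : V → ℝ} (hm : Med M L f) {e : V} (he : ‖e‖ = 1) : ∃ u, IsSol f e u := by
  obtain ⟨u, h1, h2, h3, h4, -⟩ := exists_solution hm.bd (by linarith [hm.one_le']) hm.lip he
  exact ⟨u, h1, h4, h2, h3⟩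

theorem sol_unique {M L : ℝ} {f : V → ℝ} (hm : Med M L f) {e : V} (he : ‖e‖ = 1) {u v : V × ℝ → ℝ}
    (hu : IsSol f e u) (hv : IsSol f e v) (x : V) {t : ℝ} (ht : 0 ≤ t) : u (x, t) = v (x, t) :=
  unique_solution hm.bd (by linarith [hm.one_le']) hm.lip he hu.cont hu.sub hu.super hu.init hv.cont hv.sub
    hv.super hv.init (x, t) ht

theorem sol_ge {M L : ℝ} {f : V → ℝ} (hm : Med M L f) {e : V} (he : ‖e‖ = 1) {u : V × ℝ → ℝ}
    (hu : IsSol f e u) (x : V) {t : ℝ} (ht : 0 ≤ t) : 0 ≤ u (x, t) ↔ x ∈ E f (HP e 0) t := by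
  have := level_ge hm he hu.cont hu.sub hu.super hu.init 0 ht x
  rwa [neg_zero] at this

theorem sol_le {M L : ℝ} {f : V → ℝ} (hm : Med M L f) {e : V} (he : ‖e‖ = 1) {u : V × ℝ → ℝ}
    (hu : IsSol f e u) (x : V) {t : ℝ} (ht : 0 ≤ t) :
    u (x, t) ≤ 0 ↔ x ∈ E (fun x => -f x) (HQ e 0) t := by
  have := level_le hm he hu.cont hu.sub hu.super hu.init 0 ht x
  rwa [neg_zero] at this

end Pool.Agent.FCF
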