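import Pool.Agent.FCF.Hole

/-!
# FCF / Stab: upper limits of subflows are subflows

PROOF. Let `S = LimSet (fun n => S n ∩ {t0 ≤ time})`. It is closed. Let `(x0, s0) ∈ S`, `x0 ∈ U`, `s0 > t0`.
(i) Let `(a,p,X)`, `p ≠ 0`, be a lower jet of `S` at `(x0,s0)`. Let `eps > 0` and `r > 0` from the jet for `eps`, so small that
`closedBall x0 r ⊆ U`, `s0 - r > t0`. On `S`, `‖x - x0‖ < r`, `s0 - r < t ≤ s0`: `G(x,t) := (a - 3 eps)(t-s0) + p.(x-x0) + (1/2)X + 2 eps ‖x-x0‖^2`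
satisfies `G ≥ eps(|t-s0| + ‖x-x0‖^2)` (`t - s0 = -|t-s0|`). Choose points `(x_n,s_n) ∈ S n` (along a subsequence) converging to `(x0,s0)`, put
`σ_n = max s_n s0`. `G` attains its minimum over the compact set `S n ∩ {‖x-x0‖ ≤ r/2, s0 - r/2 ≤ t ≤ σ_n}` at `(y_n,τ_n)`. Every limit point `(y,τ)` of these is in
`S`, has `τ ≤ s0` and `G(y,τ) ≤ liminf G(x_n,s_n) = G(x0,s0) = 0`, so it equals `(x0,s0)`. So `(y_n,τ_n) → (x0,s0)`, for large `n` it is not on the sides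
`‖x - x0‖ = r/2`, `t = s0 - r/2`, and in the past of `τ_n` (near) `G ≥ G(y_n,τ_n)` on `S n`: expand the polynomial at `(y_n,τ_n)`: lower jet
`(a - 3 eps, p + X-terms(y_n - x0) + 4 eps (y_n - x0), X + 4 eps id)` (symmetrise `X`: derivative of `(1/2) X(v,v)` is `(1/2)(X v . + X . v)`); it tends to
`(a - 3 eps, p, X + 4 eps id)`, `p ≠ 0`. Apply (i) for `S n` with `xi_n ⊥ p_n`, `xi_n → xi` (`xi_n = ± J p_n/‖p_n‖`), use `h_n(y_n) → h(x0)`
(pointwise convergence + common Lipschitz constant), let `n → ∞`, `eps → 0`. Only `X xi xi` of the unit vectors orthogonal to `p` matters: they are `± xi`.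
(ii) If `S` has no point with `‖x-x0‖ < r`, `s0 - r < t < s0`: for small `η` the compact set `closedBall x0 (r/2) × [s0 - r/2, s0 - η]` does not meet `S`, hence not `S n` for
large `n`; with `η` less than a quarter of `hM M (r/2)`: `hole` for `S n` from the time `s0 - η`: `S n` has no point near `(x0, s0)`: contradiction.
-/

set_option autoImplicit false

namespace Pool.Agent.FCF

open Pool.Agent.VSC (V J LowJet)
open Set Metric Filter Topology

/-- The upper limit of a sequence of sets. -/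
def LimSet (S : ℕ → Set (V × ℝ)) : Set (V × ℝ) :=
  {z | ∀ W ∈ 𝓝 z, ∃ᶠ n in atTop, (S n ∩ W).Nonempty}

theorem isClosed_LimSet (S : ℕ → Set (V × ℝ)) : IsClosed (LimSet S) := by
  rw [← isOpen_compl_iff, isOpen_iff_mem_nhds]
  intro z hz
  simp only [LimSet, mem_compl_iff, mem_ofPred_eq, not_forall] at hz
  obtain ⟨W, hW, hf⟩ := hz
  obtain ⟨W', hW'W, hW'o, hzW'⟩ := _root_.mem_nhds_iff.1 hW
  refine mem_of_superset (hW'o.mem_nhds hzW') ?_
  intro y hy hyL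
  exact hf ((hyL W' (hW'o.mem_nhds hy)).mono fun n ⟨w, h1, h2⟩ => ⟨w, h1, hW'W h2⟩)

private theorem stab_mem_LimSet {S : ℕ → Set (V × ℝ)} {z : V × ℝ} {w : ℕ → V × ℝ} {φ : ℕ → ℕ}
    (hφ : Tendsto φ atTop atTop) (hw : ∀ n, w n ∈ S (φ n)) (hlim : Tendsto w atTop (𝓝 z)) :
    z ∈ LimSet S := by
  intro W hW
  have h1 : ∀ᶠ n in atTop, w n ∈ W := hlim hW
  have h2 : ∀ᶠ n in atTop, (S (φ n) ∩ W).Nonempty := h1.mono fun n hn => ⟨w n, hw n, hn⟩
  exact hφ.frequently h2.frequently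

theorem mem_LimSet {S : ℕ → Set (V × ℝ)} {z : V × ℝ} {w : ℕ → V × ℝ} {φ : ℕ → ℕ}
    (hφ : StrictMono φ) (hw : ∀ n, w n ∈ S (φ n)) (hlim : Tendsto w atTop (𝓝 z)) :
    z ∈ LimSet S :=
  stab_mem_LimSet hφ.tendsto_atTop hw hlim

theorem exists_of_mem_LimSet {S : ℕ → Set (V × ℝ)} {z : V × ℝ} (hz : z ∈ LimSet S) :
    ∃ (w : ℕ → V × ℝ) (φ : ℕ → ℕ), StrictMono φ ∧ (∀ n, w n ∈ S (φ n)) ∧ Tendsto w atTop (𝓝 z) := by
  have h1 : ∀ n : ℕ, ∃ᶠ k in atTop, (S k ∩ ball z (1 / ((n:ℝ) + 1))).Nonempty :=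
    fun n => hz _ (ball_mem_nhds z (by positivity))
  obtain ⟨φ, hφ, h2⟩ := Filter.extraction_forall_of_frequently h1
  choose w hw using h2
  refine ⟨w, φ, hφ, fun n => (hw n).1, ?_⟩
  rw [tendsto_iff_dist_tendsto_zero]
  exact squeeze_zero (fun n => dist_nonneg) (fun n => (mem_ball.1 (hw n).2).le)
    tendsto_one_div_add_atTop_nhds_zero_nat

private theorem stab_compact {S : ℕ → Set (V × ℝ)} {K : Set (V × ℝ)} (hK : IsCompact K)
    (hd : ∀ z ∈ K, z ∉ LimSet S) : ∀ᶠ n in atTop, S n ∩ K = ∅ := by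
  refine hK.induction_on (p := fun K => ∀ᶠ n in atTop, S n ∩ K = ∅) ?_ ?_ ?_ ?_
  · exact Eventually.of_forall fun n => inter_empty _
  · intro s t hst ht
    refine ht.mono fun n hn => ?_
    rw [eq_empty_iff_forall_notMem] at hn ⊢
    exact fun z hz => hn z ⟨hz.1, hst hz.2⟩
  · intro s t hs ht
    filter_upwards [hs, ht] with n h1 h2
    rw [inter_union_distrib_left, h1, h2, union_empty]
  · intro z hz
    have h1 := hd z hz
    simp only [LimSet, mem_ofPred_eq, not_forall] at h1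
    obtain ⟨W, hW, hf⟩ := h1
    refine ⟨W, mem_nhdsWithin_of_mem_nhds hW, ?_⟩
    rw [not_frequently] at hf
    exact hf.mono fun n hn => not_nonempty_iff_eq_empty.1 hn

/-- Minimum points converge. -/
private theorem stab_min {S : ℕ → Set (V × ℝ)} {x0 : V} {s0 ρ : ℝ} (hρ : 0 < ρ)
    (hz : (x0, s0) ∈ LimSet S) {G : V × ℝ → ℝ} (hG : Continuous G) (hG0 : G (x0, s0) = 0)
    (hpos : ∀ z ∈ LimSet S, ‖z.1 - x0‖ ≤ ρ → s0 - ρ ≤ z.2 → z.2 ≤ s0 → z ≠ (x0, s0) → 0 < G z)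
    (hc : ∀ n σ, IsCompact (S n ∩ (closedBall x0 ρ ×ˢ Icc (s0 - ρ) σ))) :
    ∃ (z : ℕ → V × ℝ) (ψ : ℕ → ℕ), StrictMono ψ ∧ (∀ n, z n ∈ S (ψ n)) ∧
      Tendsto z atTop (𝓝 (x0, s0)) ∧ ∀ n, ∀ x t, (x, t) ∈ S (ψ n) → ‖x - x0‖ ≤ ρ →
        s0 - ρ ≤ t → t ≤ (z n).2 → G (z n) ≤ G (x, t) := by
  obtain ⟨w0, φ0, hφ0, hw0, hlim0⟩ := exists_of_mem_LimSet hz
  have h1 : ∀ᶠ n in atTop, w0 n ∈ (closedBall x0 ρ ×ˢ Icc (s0 - ρ) (s0 + 1) : Set (V × ℝ)) :=
    hlim0 (prod_mem_nhds (closedBall_mem_nhds x0 hρ) (Icc_mem_nhds (by linarith) (by linarith)))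
  obtain ⟨N0, hN0⟩ := eventually_atTop.1 h1
  set w : ℕ → V × ℝ := fun n => w0 (n + N0) with hw
  set φ : ℕ → ℕ := fun n => φ0 (n + N0) with hφdef
  have hφ : StrictMono φ := fun a b hab => hφ0 (by omega)
  have hwS : ∀ n, w n ∈ S (φ n) := fun n => hw0 _
  have hwb : ∀ n, w n ∈ (closedBall x0 ρ ×ˢ Icc (s0 - ρ) (s0 + 1) : Set (V × ℝ)) :=
    fun n => hN0 _ (by omega)
  have hlim : Tendsto w atTop (𝓝 (x0, s0)) := hlim0.comp (tendsto_add_atTop_nat N0)
  have h2 : ∀ n, ∃ z ∈ S (φ n) ∩ (closedBall x0 ρ ×ˢ Icc (s0 - ρ) (max (w n).2 s0)),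
      IsMinOn G (S (φ n) ∩ (closedBall x0 ρ ×ˢ Icc (s0 - ρ) (max (w n).2 s0))) z := by
    intro n
    refine (hc (φ n) _).exists_isMinOn ⟨w n, hwS n, (hwb n).1, (hwb n).2.1, le_max_left _ _⟩
      hG.continuousOn
  choose z hzK hzmin using h2
  have hσ : Tendsto (fun n => max (w n).2 s0) atTop (𝓝 s0) := by
    have h3 : Tendsto (fun n => (w n).2) atTop (𝓝 s0) := (continuous_snd.tendsto _).comp hlim
    have := h3.max (tendsto_const_nhds (x := s0))
    simpa using this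
  refine ⟨z, φ, hφ, fun n => (hzK n).1, ?_, ?_⟩
  · refine tendsto_of_subseq_tendsto fun ns hns => ?_
    have hin : ∀ n, (z ∘ ns) n ∈ (closedBall x0 ρ ×ˢ Icc (s0 - ρ) (s0 + 1) : Set (V × ℝ)) := by
      intro n
      refine ⟨(hzK (ns n)).2.1, (hzK (ns n)).2.2.1, le_trans (hzK (ns n)).2.2.2 ?_⟩
      exact max_le (hwb (ns n)).2.2 (by linarith)
    obtain ⟨b, hb, ms, hms, hlimb⟩ :=
      ((isCompact_closedBall x0 ρ).prod (isCompact_Icc)).tendsto_subseq hin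
    refine ⟨ms, ?_⟩
    have hnm : Tendsto (fun n => ns (ms n)) atTop atTop := hns.comp hms.tendsto_atTop
    have hbL : b ∈ LimSet S :=
      stab_mem_LimSet (φ := fun n => φ (ns (ms n))) (w := fun n => z (ns (ms n)))
        (hφ.tendsto_atTop.comp hnm) (fun n => (hzK _).1) hlimb
    have hb2 : b.2 ≤ s0 := by
      refine le_of_tendsto_of_tendsto' ((continuous_snd.tendsto _).comp hlimb) (hσ.comp hnm) ?_
      intro n
      exact (hzK (ns (ms n))).2.2.2
    have hGb : G b ≤ 0 := by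
      rw [← hG0]
      refine le_of_tendsto_of_tendsto' ((hG.tendsto _).comp hlimb)
        ((hG.tendsto _).comp (hlim.comp hnm)) ?_
      intro n
      exact hzmin (ns (ms n)) ⟨hwS _, (hwb _).1, (hwb _).2.1, le_max_left _ _⟩
    have hbeq : b = (x0, s0) := by
      by_contra hne
      have := hpos b hbL (mem_closedBall_iff_norm.1 hb.1) hb.2.1 hb2 hne
      linarith
    rw [← hbeq]
    exact hlimb
  · intro n x t hxt h3 h4 h5
    exact hzmin n ⟨hxt, mem_closedBall_iff_norm.2 h3, h4, le_trans h5 (hzK n).2.2.2⟩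

/-- The inner product form. -/
private noncomputable def stabI : V →L[ℝ] V →L[ℝ] ℝ := innerSL ℝ

/-- The gradient correction. -/
private noncomputable def stabQ (X : V →L[ℝ] V →L[ℝ] ℝ) (e : ℝ) (d : V) : V :=
  (InnerProductSpace.toDual ℝ V).symm ((1 / 2 : ℝ) • (X d + X.flip d) + (4 * e) • (innerSL ℝ d))

private theorem stabQ_inner (X : V →L[ℝ] V →L[ℝ] ℝ) (e : ℝ) (d v : V) :
    inner ℝ (stabQ X e d) v = (1 / 2) * (X d v + X v d) + 4 * e * inner ℝ d v := by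
  unfold stabQ
  rw [InnerProductSpace.toDual_symm_apply]
  rfl

private theorem stabQ_cont (X : V →L[ℝ] V →L[ℝ] ℝ) (e : ℝ) : Continuous (stabQ X e) := by
  unfold stabQ
  refine (InnerProductSpace.toDual ℝ V).symm.continuous.comp ?_
  fun_prop

private theorem stabQ_zero (X : V →L[ℝ] V →L[ℝ] ℝ) (e : ℝ) : stabQ X e 0 = 0 := by
  unfold stabQ
  simp

private theorem stab_J_cont : Continuous J := by
  unfold Pool.Agent.VSC.J
  fun_prop

private theorem stab_perp {p xi : V} (hp : p ≠ 0) (h1 : ‖xi‖ = 1) (h2 : inner ℝ xi p = 0)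
    (X : V →L[ℝ] V →L[ℝ] ℝ) : X xi xi = X (‖p‖⁻¹ • J p) (‖p‖⁻¹ • J p) := by
  have hn : ‖p‖ ≠ 0 := norm_ne_zero_iff.2 hp
  have hsq : ‖p‖ ^ 2 = p 0 ^ 2 + p 1 ^ 2 := by
    rw [EuclideanSpace.norm_sq_eq, Fin.sum_univ_two]
    simp [sq_abs]
  have h3 : xi 0 * p 0 + xi 1 * p 1 = 0 := by
    rw [PiLp.inner_apply, Fin.sum_univ_two] at h2
    simp only [RCLike.inner_apply, conj_trivial] at h2
    linarith
  set c : ℝ := (-(xi 0 * p 1) + xi 1 * p 0) / ‖p‖ ^ 2 with hc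
  have hxi : xi = c • J p := by
    ext i
    fin_cases i
    · show xi 0 = c * (J p 0)
      rw [Pool.Agent.VSC.J_zero_apply, hc]
      field_simp
      rw [hsq]
      linear_combination (p 0) * h3
    · show xi 1 = c * (J p 1)
      rw [Pool.Agent.VSC.J_one_apply, hc]
      field_simp
      rw [hsq]
      linear_combination (p 1) * h3
  have h4 : c ^ 2 * ‖p‖ ^ 2 = 1 := by
    have h5 : ‖xi‖ ^ 2 = 1 := by rw [h1]; norm_num
    rw [hxi, norm_smul, Pool.Agent.VSC.norm_J, mul_pow, Real.norm_eq_abs, sq_abs] at h5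
    exact h5
  have h6 : X xi xi = c ^ 2 * X (J p) (J p) := by
    rw [hxi]
    simp only [map_smul, _root_.smul_apply, smul_eq_mul]
    ring
  have h7 : X (‖p‖⁻¹ • J p) (‖p‖⁻¹ • J p) = (‖p‖⁻¹) ^ 2 * X (J p) (J p) := by
    simp only [map_smul, _root_.smul_apply, smul_eq_mul]
    ring
  rw [h6, h7]
  congr 1
  field_simp
  linarith

private theorem stab_closed_box {h : V → ℝ} {U : Set V} {t0 : ℝ} {S : Set (V × ℝ)}
    (hS : SubIn h U t0 S) {x0 : V} {ρ s σ : ℝ} (hb : closedBall x0 ρ ⊆ U) (hs : t0 ≤ s) :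
    IsCompact ((S ∩ {z | t0 ≤ z.2}) ∩ (closedBall x0 ρ ×ˢ Icc s σ)) := by
  have heq : (S ∩ {z | t0 ≤ z.2}) ∩ (closedBall x0 ρ ×ˢ Icc s σ) =
      closure (S ∩ {z | t0 ≤ z.2}) ∩ (closedBall x0 ρ ×ˢ Icc s σ) := by
    ext z
    constructor
    · rintro ⟨h1, h2⟩
      exact ⟨subset_closure h1, h2⟩
    · rintro ⟨h1, h2⟩
      have h3 : t0 ≤ z.2 := le_trans hs h2.2.1
      exact ⟨⟨hS.closed z.1 z.2 (hb h2.1) h3 h1, h3⟩, h2⟩
  rw [heq]
  exact ((isCompact_closedBall x0 ρ).prod isCompact_Icc).inter_left isClosed_closure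

private theorem stab_left {M L : ℝ} {hn : ℕ → V → ℝ} (hmn : ∀ n, Med M L (hn n))
    {U : Set V} (hU : IsOpen U) {t0 : ℝ}
    {S : ℕ → Set (V × ℝ)} (hS : ∀ n, SubIn (hn n) U t0 (S n)) {x0 : V} {s0 : ℝ} (hx0 : x0 ∈ U)
    (hs0 : t0 < s0) (hz : (x0, s0) ∈ LimSet (fun n => S n ∩ {z | t0 ≤ z.2})) {r : ℝ} (hr : 0 < r) :
    ∃ (x : V) (t : ℝ), (x, t) ∈ LimSet (fun n => S n ∩ {z | t0 ≤ z.2}) ∧ ‖x - x0‖ < r ∧
      s0 - r < t ∧ t < s0 := by
  by_contra hcon
  push Not at hcon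
  have hM1 : 1 ≤ M := (hmn 0).one_le
  obtain ⟨ρ, hρ, hρU⟩ := Metric.nhds_basis_closedBall.mem_iff.1 (hU.mem_nhds hx0)
  set R : ℝ := min ρ (r / 2) with hR
  have hR0 : 0 < R := lt_min hρ (by linarith)
  have hRr : R < r := lt_of_le_of_lt (min_le_right _ _) (by linarith)
  have hRU : closedBall x0 R ⊆ U := (closedBall_subset_closedBall (min_le_left _ _)).trans hρU
  have hh := hM_pos hM1 hR0
  set η : ℝ := min (hM M R / 4) (min (r / 2) (s0 - t0)) with hη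
  have hη0 : 0 < η := lt_min (by linarith) (lt_min (by linarith) (by linarith))
  have hη1 : η ≤ hM M R / 4 := min_le_left _ _
  have hη2 : η ≤ r / 2 := (min_le_right _ _).trans (min_le_left _ _)
  have hη3 : η ≤ s0 - t0 := (min_le_right _ _).trans (min_le_right _ _)
  have hK : IsCompact (closedBall x0 R ×ˢ ({s0 - η} : Set ℝ)) :=
    (isCompact_closedBall x0 R).prod isCompact_singleton
  have h1 : ∀ z ∈ (closedBall x0 R ×ˢ ({s0 - η} : Set ℝ)),
      z ∉ LimSet (fun n => S n ∩ {z | t0 ≤ z.2}) := by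
    rintro ⟨x, t⟩ ⟨hx, ht⟩ hzL
    have hx' : ‖x - x0‖ ≤ R := mem_closedBall_iff_norm.1 hx
    have ht' : t = s0 - η := ht
    have := hcon x t hzL (by linarith) (by linarith)
    linarith
  have h2 := stab_compact hK h1
  have hW : ball x0 (R / 2) ×ˢ Ioo (s0 - η) (s0 + η) ∈ 𝓝 (x0, s0) :=
    prod_mem_nhds (ball_mem_nhds x0 (by linarith)) (Ioo_mem_nhds (by linarith) (by linarith))
  obtain ⟨n, ⟨⟨y, t⟩, ⟨hyS, hyt⟩, hy1, hy2⟩, hn2⟩ := ((hz _ hW).and_eventually h2).exists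
  have hy3 : ‖y - x0‖ < R / 2 := mem_ball_iff_norm.1 hy1
  simp only [mem_Ioo] at hy2
  have hsub := (hS n).restrict (Subset.refl U) (show t0 ≤ s0 - η by linarith)
  have h0 : ∀ y ∈ closedBall x0 R, (y, s0 - η) ∉ S n := by
    intro y' hy' hyS'
    have : (y', s0 - η) ∈ ((S n ∩ {z | t0 ≤ z.2}) ∩ (closedBall x0 R ×ˢ ({s0 - η} : Set ℝ))) := by
      refine ⟨⟨hyS', ?_⟩, hy', rfl⟩
      show t0 ≤ s0 - η
      linarith
    rw [hn2] at this
    exact this
  have hC : (2 + 2 * (M + 1) * R) * (2 * η) ≤ R ^ 2 / 2 := by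
    have hCp : 0 < 2 + 2 * (M + 1) * R := by
      have : 0 < (M + 1) * R := by positivity
      linarith
    have h5 : (2 + 2 * (M + 1) * R) * (2 * η) ≤ (2 + 2 * (M + 1) * R) * (hM M R / 2) :=
      mul_le_mul_of_nonneg_left (by linarith) hCp.le
    have h6 : (2 + 2 * (M + 1) * R) * (hM M R / 2) = R ^ 2 / 2 := by
      unfold hM
      field_simp
    linarith
  have hCp : 0 < 2 + 2 * (M + 1) * R := by
    have : 0 < (M + 1) * R := by positivity
    linarith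
  have h7 := hole (hmn n) hsub hR0 hRU h0 (s := t - (s0 - η)) (by linarith) (by linarith) (y := y)
    (by
      have h8 : (2 + 2 * (M + 1) * R) * (t - (s0 - η)) ≤ (2 + 2 * (M + 1) * R) * (2 * η) :=
        mul_le_mul_of_nonneg_left (by linarith) hCp.le
      have h9 : ‖y - x0‖ ^ 2 ≤ (R / 2) ^ 2 := by
        apply pow_le_pow_left₀ (norm_nonneg _) hy3.le
      nlinarith [sq_nonneg R])
  apply h7
  rw [show s0 - η + (t - (s0 - η)) = t by ring]
  exact hyS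

private theorem stab_jet {M L : ℝ} {h : V → ℝ} {hn : ℕ → V → ℝ} (hmn : ∀ n, Med M L (hn n))
    (hconv : ∀ x, Tendsto (fun n => hn n x) atTop (𝓝 (h x))) {U : Set V} (hU : IsOpen U) {t0 : ℝ}
    {S : ℕ → Set (V × ℝ)} (hS : ∀ n, SubIn (hn n) U t0 (S n)) {x0 : V} {s0 : ℝ} (hx0 : x0 ∈ U)
    (hs0 : t0 < s0) (hz : (x0, s0) ∈ LimSet (fun n => S n ∩ {z | t0 ≤ z.2})) {a : ℝ} {p : V}
    {X : V →L[ℝ] V →L[ℝ] ℝ}
    (hj : LowJet (LimSet (fun n => S n ∩ {z | t0 ≤ z.2})) x0 s0 a p X) (hp : p ≠ 0) {xi : V}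
    (h1 : ‖xi‖ = 1) (h2 : inner ℝ xi p = 0) {e : ℝ} (he : 0 < e) :
    a ≤ X xi xi + h x0 * ‖p‖ + 6 * e := by
  obtain ⟨r, hr, hjr⟩ := hj e he
  obtain ⟨ρ0, hρ0, hρU⟩ := Metric.nhds_basis_closedBall.mem_iff.1 (hU.mem_nhds hx0)
  set ρ : ℝ := min ρ0 (min (r / 2) ((s0 - t0) / 2)) with hρdef
  have hρ : 0 < ρ := lt_min hρ0 (lt_min (by linarith) (by linarith))
  have hρr : ρ < r := lt_of_le_of_lt ((min_le_right _ _).trans (min_le_left _ _)) (by linarith)
  have hρt : t0 < s0 - ρ := by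
    have : ρ ≤ (s0 - t0) / 2 := (min_le_right _ _).trans (min_le_right _ _)
    linarith
  have hb : closedBall x0 ρ ⊆ U := (closedBall_subset_closedBall (min_le_left _ _)).trans hρU
  set G : V × ℝ → ℝ := fun z => (a - 2 * e) * (z.2 - s0) + inner ℝ p (z.1 - x0) +
    (1 / 2) * X (z.1 - x0) (z.1 - x0) + 2 * e * ‖z.1 - x0‖ ^ 2 with hGdef
  have hG : Continuous G := by
    rw [hGdef]
    fun_prop
  have hG0 : G (x0, s0) = 0 := by
    rw [hGdef]
    simp
  have hpos : ∀ z ∈ LimSet (fun n => S n ∩ {z | t0 ≤ z.2}), ‖z.1 - x0‖ ≤ ρ → s0 - ρ ≤ z.2 →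
      z.2 ≤ s0 → z ≠ (x0, s0) → 0 < G z := by
    rintro ⟨x, t⟩ hzL h3 h4 h5 h6
    simp only at h3 h4 h5
    have h7 := hjr x t hzL (by linarith) (by linarith) h5
    have h8 : |t - s0| = s0 - t := by rw [abs_of_nonpos (by linarith)]; ring
    have h9 : 0 < e * ((s0 - t) + ‖x - x0‖ ^ 2) := by
      apply mul_pos he
      rcases h5.lt_or_eq with h | h
      · have := sq_nonneg ‖x - x0‖
        linarith
      · have : x ≠ x0 := by
          intro hx
          apply h6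
          rw [hx, h]
        have h10 : 0 < ‖x - x0‖ := norm_pos_iff.2 (sub_ne_zero.2 this)
        have : 0 < ‖x - x0‖ ^ 2 := by positivity
        linarith
    rw [h8] at h7
    show 0 < (a - 2 * e) * (t - s0) + inner ℝ p (x - x0) +
      (1 / 2) * X (x - x0) (x - x0) + 2 * e * ‖x - x0‖ ^ 2
    nlinarith
  obtain ⟨z, ψ, hψ, hzS, hzlim, hzmin⟩ := stab_min (S := fun n => S n ∩ {z | t0 ≤ z.2}) hρ hz hG
    hG0 hpos (fun n σ => stab_closed_box (hS n) hb hρt.le)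
  set X' : V →L[ℝ] V →L[ℝ] ℝ := X + (4 * e) • stabI with hX'
  have hX'v : ∀ u v : V, X' u v = X u v + 4 * e * inner ℝ u v := by
    intro u v
    rw [hX']
    rfl
  set P : V → V := fun d => p + stabQ X e d with hP
  have hPc : Continuous P := continuous_const.add (stabQ_cont X e)
  have hP0 : P 0 = p := by rw [hP]; simp [stabQ_zero]
  have hzx : Tendsto (fun n => (z n).1) atTop (𝓝 x0) := (continuous_fst.tendsto _).comp hzlim
  have hzt : Tendsto (fun n => (z n).2) atTop (𝓝 s0) := (continuous_snd.tendsto _).comp hzlim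
  have hd : Tendsto (fun n => (z n).1 - x0) atTop (𝓝 0) := by
    have := hzx.sub_const x0
    rwa [sub_self] at this
  have hPn : Tendsto (fun n => P ((z n).1 - x0)) atTop (𝓝 p) := by
    have := (hPc.tendsto 0).comp hd
    rwa [hP0] at this
  have hPne : ∀ᶠ n in atTop, P ((z n).1 - x0) ≠ 0 := hPn.eventually_ne hp
  have hzx' : ∀ᶠ n in atTop, ‖(z n).1 - x0‖ < ρ := by
    have := hd.norm
    rw [norm_zero] at this
    exact this.eventually_lt_const hρ
  have hzt' : ∀ᶠ n in atTop, s0 - ρ < (z n).2 := hzt.eventually_const_lt (by linarith)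
  -- the jet inequality at the minimum points
  have hineq : ∀ᶠ n in atTop, a - 2 * e ≤
      X' (‖P ((z n).1 - x0)‖⁻¹ • J (P ((z n).1 - x0))) (‖P ((z n).1 - x0)‖⁻¹ • J (P ((z n).1 - x0)))
        + hn (ψ n) (z n).1 * ‖P ((z n).1 - x0)‖ := by
    filter_upwards [hPne, hzx', hzt'] with n hne hnx hnt
    have hyS : ((z n).1, (z n).2) ∈ S (ψ n) := (hzS n).1
    have hyU : (z n).1 ∈ U := hb (mem_closedBall_iff_norm.2 hnx.le)
    have hsub := (hS (ψ n)).sub (z n).1 (z n).2 hyU (by linarith) hyS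
    have hjet : LowJet (S (ψ n)) (z n).1 (z n).2 (a - 2 * e) (P ((z n).1 - x0)) X' := by
      intro eps heps
      refine ⟨min (ρ - ‖(z n).1 - x0‖) ((z n).2 - (s0 - ρ)), lt_min (by linarith) (by linarith),
        fun x t hxt h3 h4 h5 => ?_⟩
      have h3' : ‖x - (z n).1‖ < ρ - ‖(z n).1 - x0‖ := lt_of_lt_of_le h3 (min_le_left _ _)
      have h4' : s0 - ρ < t := by
        have := min_le_right (ρ - ‖(z n).1 - x0‖) ((z n).2 - (s0 - ρ))
        linarith
      have h6 : ‖x - x0‖ ≤ ρ := by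
        have : x - x0 = (x - (z n).1) + ((z n).1 - x0) := by abel
        rw [this]
        refine (norm_add_le _ _).trans ?_
        linarith
      have h7 := hzmin n x t ⟨hxt, show t0 ≤ t by linarith⟩ h6 h4'.le h5
      have h8 : x - x0 = ((z n).1 - x0) + (x - (z n).1) := by abel
      set d := (z n).1 - x0 with hddef
      set v := x - (z n).1 with hvdef
      have h9 : G (z n) = (a - 2 * e) * ((z n).2 - s0) + inner ℝ p d + (1 / 2) * X d d
          + 2 * e * ‖d‖ ^ 2 := rfl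
      have h10 : G (x, t) = (a - 2 * e) * (t - s0) + inner ℝ p (d + v) +
          (1 / 2) * X (d + v) (d + v) + 2 * e * ‖d + v‖ ^ 2 := by
        rw [← h8]
      rw [h9, h10, norm_add_sq_real, inner_add_right] at h7
      simp only [map_add, _root_.add_apply] at h7
      rw [hX'v, hP]
      simp only [inner_add_left, stabQ_inner]
      rw [real_inner_self_eq_norm_sq]
      have h11 : 0 ≤ eps * (|t - (z n).2| + ‖v‖ ^ 2) := by positivity
      nlinarith
    have h12 : ‖‖P ((z n).1 - x0)‖⁻¹ • J (P ((z n).1 - x0))‖ = 1 := by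
      rw [norm_smul, Pool.Agent.VSC.norm_J, norm_inv, norm_norm,
        inv_mul_cancel₀ (norm_ne_zero_iff.2 hne)]
    have h13 : inner ℝ (‖P ((z n).1 - x0)‖⁻¹ • J (P ((z n).1 - x0))) (P ((z n).1 - x0)) = 0 := by
      rw [real_inner_smul_left, Pool.Agent.VSC.inner_J, mul_zero]
    exact hsub.jet _ _ _ hjet hne _ h12 h13
  -- limits
  have hJlim : Tendsto (fun n => ‖P ((z n).1 - x0)‖⁻¹ • J (P ((z n).1 - x0))) atTop
      (𝓝 (‖p‖⁻¹ • J p)) := by
    refine Tendsto.smul (hPn.norm.inv₀ (norm_ne_zero_iff.2 hp)) ?_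
    exact (stab_J_cont.tendsto p).comp hPn
  have hX'c : Continuous (fun v : V => X' v v) := by fun_prop
  have hXlim := (hX'c.tendsto (‖p‖⁻¹ • J p)).comp hJlim
  have hhlim : Tendsto (fun n => hn (ψ n) (z n).1) atTop (𝓝 (h x0)) := by
    have h14 : Tendsto (fun n => hn (ψ n) x0) atTop (𝓝 (h x0)) :=
      (hconv x0).comp hψ.tendsto_atTop
    have h15 : Tendsto (fun n => hn (ψ n) (z n).1 - hn (ψ n) x0) atTop (𝓝 0) := by
      refine squeeze_zero_norm (a := fun n => L * ‖(z n).1 - x0‖) ?_ ?_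
      · intro n
        rw [Real.norm_eq_abs]
        exact (hmn (ψ n)).lip _ _
      · have := hd.norm.const_mul L
        rwa [norm_zero, mul_zero] at this
    have := h15.add h14
    simpa using this
  have hfin := ge_of_tendsto (hXlim.add (hhlim.mul hPn.norm)) hineq
  rw [stab_perp hp h1 h2 X]
  have h16 : X' (‖p‖⁻¹ • J p) (‖p‖⁻¹ • J p) = X (‖p‖⁻¹ • J p) (‖p‖⁻¹ • J p) + 4 * e := by
    rw [hX'v, real_inner_self_eq_norm_sq, norm_smul, Pool.Agent.VSC.norm_J, norm_inv, norm_norm,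
      inv_mul_cancel₀ (norm_ne_zero_iff.2 hp)]
    ring
  rw [h16] at hfin
  linarith

theorem stab {M L : ℝ} {h : V → ℝ} {hn : ℕ → V → ℝ} (hm : Med M L h) (hmn : ∀ n, Med M L (hn n))
    (hconv : ∀ x, Tendsto (fun n => hn n x) atTop (𝓝 (h x))) {U : Set V} (hU : IsOpen U) {t0 : ℝ}
    {S : ℕ → Set (V × ℝ)} (hS : ∀ n, SubIn (hn n) U t0 (S n)) :
    SubIn h U t0 (LimSet (fun n => S n ∩ {z | t0 ≤ z.2})) := by
  refine ⟨?_, ?_⟩
  · intro x t _ _ hc
    have h1 := closure_mono (inter_subset_left) hc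
    rwa [(isClosed_LimSet _).closure_eq] at h1
  · intro x t hx ht hz
    refine ⟨?_, ?_⟩
    · intro a p X hj hp xi h1 h2
      refine le_of_forall_pos_le_add fun e he => ?_
      have := stab_jet hmn hconv hU hS hx ht hz hj hp h1 h2 (e := e / 6) (by linarith)
      linarith
    · intro r hr
      exact stab_left hmn hU hS hx ht hz hr

/-- Closures of arbitrary unions. -/
theorem subIn_closure_sUnion {M L : ℝ} {h : V → ℝ} (hm : Med M L h) {U : Set V} (hU : IsOpen U)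
    {t0 : ℝ} {F : Set (Set (V × ℝ))} (hF : ∀ S ∈ F, SubIn h U t0 S)
    (hn : ∀ S ∈ F, ∀ z ∈ S, t0 ≤ z.2) : SubIn h U t0 (closure (⋃₀ F)) := by
  refine ⟨?_, ?_⟩
  · intro x t _ _ hc
    have h1 := closure_mono (inter_subset_left) hc
    rwa [closure_closure] at h1
  · intro x t hx ht hz
    obtain ⟨w, hw, hlim⟩ := mem_closure_iff_seq_limit.1 hz
    choose S hSF hwS using fun n => mem_sUnion.1 (hw n)
    have hst := stab (hn := fun _ => h) hm (fun _ => hm) (fun x => tendsto_const_nhds) hU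
      (S := S) (fun n => hF (S n) (hSF n))
    have hmem : (x, t) ∈ LimSet (fun n => S n ∩ {z | t0 ≤ z.2}) :=
      mem_LimSet (φ := fun n => n) strictMono_id (fun n => ⟨hwS n, hn _ (hSF n) _ (hwS n)⟩) hlim
    have hsub := hst.sub x t hx ht hmem
    refine hsub.mono_near ⟨1, one_pos, fun x' t' _ _ _ hx' => ?_⟩
    obtain ⟨w', φ', _, hw', hlim'⟩ := exists_of_mem_LimSet hx'
    exact mem_closure_of_tendsto hlim' (Eventually.of_forall fun n =>
      mem_sUnion_of_mem (hw' n).1 (hSF (φ' n)))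

end Pool.Agent.FCF
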