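import Pool.Agent.FCF.Defs

/-!
# FCF / SubBasic: calculus of the subflow condition

STATEMENTS: everything below. All proofs are short: a lower jet of a larger set is a lower jet of a
smaller set (only the points of the set near `(x0, t0)` with times `≤ t0` matter).
* `SubAt.congr`: the two conditions only see `S` near `(x0,t0)` at times `≤ t0`.
* `SubAt.mono_set`: jets of the larger set are jets of `S`; left accessibility is inherited.
* `SubIn.union`: a point of `S ∪ S'` lies in one of them, use `mono_set`.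
* `SubIn.concat`: `S` for the times `≤ t1`, `S'` for the times `≥ t1`, where the slice of `S'` at
  `t1` is contained in `S`. At a point with time `≤ t1` the union is `S` (cut) near it in the past,
  at a point with time `> t1` only `S'` is near.
* translations in space and time: substitute in the jets.
-/

set_option autoImplicit false

namespace Pool.Agent.FCF

open Pool.Agent.VSC (V J LowJet)
open Set Metric

theorem LowJet.mono_near {S S' : Set (V × ℝ)} {x0 : V} {t0 a : ℝ} {p : V}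
    {X : V →L[ℝ] V →L[ℝ] ℝ} (h : LowJet S' x0 t0 a p X)
    (hs : ∃ r : ℝ, 0 < r ∧ ∀ (x : V) (t : ℝ), ‖x - x0‖ < r → t0 - r < t → t ≤ t0 →
      (x, t) ∈ S → (x, t) ∈ S') : LowJet S x0 t0 a p X := by
  intro eps heps
  obtain ⟨r1, hr1, h1⟩ := h eps heps
  obtain ⟨r2, hr2, h2⟩ := hs
  refine ⟨min r1 r2, lt_min hr1 hr2, fun x t hx hn ht ht' => ?_⟩
  have e1 := min_le_left r1 r2
  have e2 := min_le_right r1 r2
  exact h1 x t (h2 x t (by linarith) (by linarith) ht' hx) (by linarith) (by linarith) ht'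

theorem SubAt.mono_near {h : V → ℝ} {S S' : Set (V × ℝ)} {x0 : V} {t0 : ℝ} (hS : SubAt h S x0 t0)
    (hs : ∃ r : ℝ, 0 < r ∧ ∀ (x : V) (t : ℝ), ‖x - x0‖ < r → t0 - r < t → t ≤ t0 →
      (x, t) ∈ S → (x, t) ∈ S') : SubAt h S' x0 t0 := by
  constructor
  · intro a p X hj hp xi h1 h2
    exact hS.jet a p X (LowJet.mono_near hj hs) hp xi h1 h2
  · intro r hr
    obtain ⟨r2, hr2, h2⟩ := hs
    obtain ⟨x, t, hx, hn, ht, ht'⟩ := hS.left (min r r2) (lt_min hr hr2)
    have e1 := min_le_left r r2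
    have e2 := min_le_right r r2
    exact ⟨x, t, h2 x t (by linarith) (by linarith) ht'.le hx, by linarith, by linarith, ht'⟩

theorem SubAt.congr {h : V → ℝ} {S S' : Set (V × ℝ)} {x0 : V} {t0 : ℝ}
    (hs : ∃ r : ℝ, 0 < r ∧ ∀ (x : V) (t : ℝ), ‖x - x0‖ < r → t0 - r < t → t ≤ t0 →
      ((x, t) ∈ S ↔ (x, t) ∈ S')) : SubAt h S x0 t0 ↔ SubAt h S' x0 t0 := by
  obtain ⟨r, hr, h1⟩ := hs
  exact ⟨fun H => H.mono_near ⟨r, hr, fun x t a b c => (h1 x t a b c).1⟩,
    fun H => H.mono_near ⟨r, hr, fun x t a b c => (h1 x t a b c).2⟩⟩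

theorem SubAt.mono_force {h h' : V → ℝ} {S : Set (V × ℝ)} {x0 : V} {t0 : ℝ}
    (hS : SubAt h S x0 t0) (hle : h x0 ≤ h' x0) : SubAt h' S x0 t0 := by
  refine ⟨fun a p X hj hp xi h1 h2 => ?_, hS.left⟩
  have h3 := hS.jet a p X hj hp xi h1 h2
  have h4 := mul_le_mul_of_nonneg_right hle (norm_nonneg p)
  linarith

theorem SubAt.shift_time {h : V → ℝ} {S : Set (V × ℝ)} {x0 : V} {t0 : ℝ} (g : ℝ)
    (hS : SubAt h S x0 (t0 + g)) : SubAt h {z | (z.1, z.2 + g) ∈ S} x0 t0 := by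
  constructor
  · intro a p X hj hp xi h1 h2
    refine hS.jet a p X ?_ hp xi h1 h2
    intro eps heps
    obtain ⟨r, hr, h3⟩ := hj eps heps
    refine ⟨r, hr, fun x t hx hn ht ht' => ?_⟩
    have h4 := h3 x (t - g) (by simpa using hx) hn (by linarith) (by linarith)
    have h5 : t - g - t0 = t - (t0 + g) := by ring
    rwa [h5] at h4
  · intro r hr
    obtain ⟨x, t, hx, hn, ht, ht'⟩ := hS.left r hr
    exact ⟨x, t - g, by simpa using hx, hn, by linarith, by linarith⟩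

theorem SubAt.shift_space {h : V → ℝ} {S : Set (V × ℝ)} {x0 : V} {t0 : ℝ} (y : V)
    (hS : SubAt h S (y + x0) t0) :
    SubAt (fun x => h (y + x)) {z | (y + z.1, z.2) ∈ S} x0 t0 := by
  constructor
  · intro a p X hj hp xi h1 h2
    refine hS.jet a p X ?_ hp xi h1 h2
    intro eps heps
    obtain ⟨r, hr, h3⟩ := hj eps heps
    refine ⟨r, hr, fun x t hx hn ht ht' => ?_⟩
    have h5 : x - y - x0 = x - (y + x0) := by abel
    have h4 := h3 (x - y) t (by simpa using hx) (by rw [h5]; exact hn) ht ht'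
    rwa [h5] at h4
  · intro r hr
    obtain ⟨x, t, hx, hn, ht, ht'⟩ := hS.left r hr
    have h5 : x - y - x0 = x - (y + x0) := by abel
    exact ⟨x - y, t, by simpa using hx, by rw [h5]; exact hn, ht, ht'⟩

theorem SubIn.restrict {h : V → ℝ} {U U' : Set V} {t0 t0' : ℝ} {S : Set (V × ℝ)}
    (hS : SubIn h U t0 S) (hU : U' ⊆ U) (ht : t0 ≤ t0') : SubIn h U' t0' S := by
  refine ⟨fun x t hx h1 h2 => ?_, fun x t hx h1 h2 => hS.sub x t (hU hx) (by linarith) h2⟩
  refine hS.closed x t (hU hx) (by linarith) (closure_mono ?_ h2)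
  rintro z ⟨h3, h4⟩
  exact ⟨h3, le_trans ht h4⟩

theorem SubIn.mono_force {h h' : V → ℝ} {U : Set V} {t0 : ℝ} {S : Set (V × ℝ)}
    (hS : SubIn h U t0 S) (hle : ∀ x ∈ U, h x ≤ h' x) : SubIn h' U t0 S :=
  ⟨hS.closed, fun x t hx h1 h2 => (hS.sub x t hx h1 h2).mono_force (hle x hx)⟩

theorem SubIn.union {h : V → ℝ} {U : Set V} {t0 : ℝ} {S S' : Set (V × ℝ)}
    (hS : SubIn h U t0 S) (hS' : SubIn h U t0 S') : SubIn h U t0 (S ∪ S') := by
  constructor
  · intro x t hx h1 h2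
    rw [Set.union_inter_distrib_right, closure_union] at h2
    rcases h2 with h2 | h2
    · exact Or.inl (hS.closed x t hx h1 h2)
    · exact Or.inr (hS'.closed x t hx h1 h2)
  · intro x t hx h1 h2
    rcases h2 with h2 | h2
    · exact (hS.sub x t hx h1 h2).mono_near ⟨1, one_pos, fun _ _ _ _ _ h => Or.inl h⟩
    · exact (hS'.sub x t hx h1 h2).mono_near ⟨1, one_pos, fun _ _ _ _ _ h => Or.inr h⟩

private theorem SubBasic_closed_le (t1 : ℝ) : IsClosed {z : V × ℝ | z.2 ≤ t1} :=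
  isClosed_le continuous_snd continuous_const

private theorem SubBasic_closed_ge (t1 : ℝ) : IsClosed {z : V × ℝ | t1 ≤ z.2} :=
  isClosed_le continuous_const continuous_snd

/-- Cutting the times `> t1`. -/
theorem SubIn.cut {h : V → ℝ} {U : Set V} {t0 : ℝ} {S : Set (V × ℝ)} (t1 : ℝ)
    (hS : SubIn h U t0 S) : SubIn h U t0 (S ∩ {z | z.2 ≤ t1}) := by
  constructor
  · intro x t hx h1 h2
    refine ⟨hS.closed x t hx h1 (closure_mono ?_ h2), ?_⟩
    · rintro z ⟨⟨h3, _⟩, h4⟩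
      exact ⟨h3, h4⟩
    · have h3 : closure (S ∩ {z : V × ℝ | z.2 ≤ t1} ∩ {z | t0 ≤ z.2}) ⊆ {z : V × ℝ | z.2 ≤ t1} :=
        closure_minimal (fun z hz => hz.1.2) (SubBasic_closed_le t1)
      exact h3 h2
  · rintro x t hx h1 ⟨h2, h3⟩
    refine (hS.sub x t hx h1 h2).mono_near ⟨1, one_pos, fun y s _ _ h4 h5 => ⟨h5, ?_⟩⟩
    exact le_trans h4 h3

/-- Concatenation. -/
theorem SubIn.concat {h : V → ℝ} {U : Set V} {t0 t1 : ℝ} (h01 : t0 ≤ t1) {S S' : Set (V × ℝ)}
    (hS : SubIn h U t0 S) (hS' : SubIn h U t1 S')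
    (hc : ∀ x ∈ U, (x, t1) ∈ S' → (x, t1) ∈ S) :
    SubIn h U t0 ((S ∩ {z | z.2 ≤ t1}) ∪ (S' ∩ {z | t1 ≤ z.2})) := by
  constructor
  · intro x t hx h1 h2
    rw [Set.union_inter_distrib_right, closure_union] at h2
    rcases h2 with h2 | h2
    · exact Or.inl ((hS.cut t1).closed x t hx h1 h2)
    · have h3 : closure (S' ∩ {z : V × ℝ | t1 ≤ z.2} ∩ {z | t0 ≤ z.2}) ⊆
          {z : V × ℝ | t1 ≤ z.2} :=
        closure_minimal (fun z hz => hz.1.2) (SubBasic_closed_ge t1)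
      have h4 : t1 ≤ t := h3 h2
      refine Or.inr ⟨hS'.closed x t hx h4 (closure_mono ?_ h2), h4⟩
      exact fun z hz => hz.1
  · intro x t hx h1 h2
    have key : (x, t) ∈ S → t ≤ t1 →
        SubAt h ((S ∩ {z | z.2 ≤ t1}) ∪ (S' ∩ {z | t1 ≤ z.2})) x t := by
      intro h3 h4
      refine (hS.sub x t hx h1 h3).mono_near ⟨1, one_pos, fun y s _ _ h5 h6 => Or.inl ⟨h6, ?_⟩⟩
      exact le_trans h5 h4
    rcases h2 with ⟨h2, h3⟩ | ⟨h2, h3⟩
    · exact key h2 h3
    · rcases (show t1 ≤ t from h3).lt_or_eq with h4 | h4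
      · refine (hS'.sub x t hx h4 h2).mono_near
          ⟨t - t1, by linarith, fun y s _ h5 h6 h7 => Or.inr ⟨h7, ?_⟩⟩
        show t1 ≤ s
        linarith
      · refine key ?_ h4.symm.le
        rw [← h4]
        refine hc x hx ?_
        rw [h4]
        exact h2

theorem SubIn.shift_time {h : V → ℝ} {U : Set V} {t0 : ℝ} {S : Set (V × ℝ)} (g : ℝ)
    (hS : SubIn h U (t0 + g) S) : SubIn h U t0 {z | (z.1, z.2 + g) ∈ S} := by
  constructor
  · intro x t hx h1 h2
    have hc : Continuous (fun z : V × ℝ => (z.1, z.2 + g)) := by fun_prop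
    have h3 : (x, t + g) ∈ closure (S ∩ {z | t0 + g ≤ z.2}) := by
      refine map_mem_closure (f := fun z : V × ℝ => (z.1, z.2 + g)) hc h2 ?_
      rintro z ⟨h4, h5⟩
      refine ⟨h4, ?_⟩
      show t0 + g ≤ z.2 + g
      have h6 : t0 ≤ z.2 := h5
      linarith
    exact hS.closed x (t + g) hx (by linarith) h3
  · intro x t hx h1 h2
    exact (hS.sub x (t + g) hx (by linarith) h2).shift_time g

theorem SubIn.shift_space {h : V → ℝ} {U : Set V} {t0 : ℝ} {S : Set (V × ℝ)} (y : V)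
    (hS : SubIn h U t0 S) :
    SubIn (fun x => h (y + x)) {x | y + x ∈ U} t0 {z | (y + z.1, z.2) ∈ S} := by
  constructor
  · intro x t hx h1 h2
    have hc : Continuous (fun z : V × ℝ => (y + z.1, z.2)) := by fun_prop
    have h3 : (y + x, t) ∈ closure (S ∩ {z | t0 ≤ z.2}) := by
      refine map_mem_closure (f := fun z : V × ℝ => (y + z.1, z.2)) hc h2 ?_
      rintro z ⟨h4, h5⟩
      exact ⟨h4, h5⟩
    exact hS.closed (y + x) t hx h1 h3
  · intro x t hx h1 h2
    exact (hS.sub (y + x) t hx h1 h2).shift_space y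

/-- A closed set with times `≥ t0` all of whose points with time `> t0` satisfy the condition. -/
theorem SubIn.of_closed {h : V → ℝ} {U : Set V} {t0 : ℝ} {S : Set (V × ℝ)} (hc : IsClosed S)
    (hs : ∀ x t, x ∈ U → t0 < t → (x, t) ∈ S → SubAt h S x t) : SubIn h U t0 S :=
  ⟨fun _ _ _ _ h2 => closure_minimal Set.inter_subset_left hc h2, hs⟩

/-- For `U = univ` and times `≥ t0` the set is closed. -/
theorem SubIn.isClosed {h : V → ℝ} {t0 : ℝ} {S : Set (V × ℝ)} (hS : SubIn h univ t0 S)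
    (hn : ∀ x t, (x, t) ∈ S → t0 ≤ t) : IsClosed S := by
  apply isClosed_of_closure_subset
  rintro ⟨x, t⟩ hz
  have h1 : S ⊆ S ∩ {z | t0 ≤ z.2} := fun z hz => ⟨hz, hn z.1 z.2 hz⟩
  have h2 : t0 ≤ t := by
    have h3 : closure S ⊆ {z : V × ℝ | t0 ≤ z.2} :=
      closure_minimal (fun z hz => hn z.1 z.2 hz) (SubBasic_closed_ge t0)
    exact h3 hz
  exact hS.closed x t (Set.mem_univ _) h2 (closure_mono h1 hz)

end Pool.Agent.FCF
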