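import Pool.Agent.FCF.Defs
import Pool.Agent.EU.HillsTopo

/-!
# FCF / TopCross: a connected set which leaves a square meets one of four crossing paths
-/

set_option autoImplicit false

namespace Pool.Agent.FCF

open Pool.Agent.VSC (V J LowJet)
open Set Metric

theorem innV (x y : V) : inner ℝ x y = x 0 * y 0 + x 1 * y 1 := by
  rw [PiLp.inner_apply, Fin.sum_univ_two]
  simp only [RCLike.inner_apply, conj_trivial]
  ring

theorem normsqV (x : V) : ‖x‖ ^ 2 = x 0 ^ 2 + x 1 ^ 2 := by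
  rw [← real_inner_self_eq_norm_sq, innV]; ring

theorem J0 (u : V) : J u 0 = -(u 1) := rfl
theorem J1 (u : V) : J u 1 = u 0 := rfl

theorem frame_eq {u : V} (hu : ‖u‖ = 1) (v : V) :
    v = (inner ℝ v u) • u + (inner ℝ v (J u)) • J u := by
  have h := normsqV u
  rw [hu] at h
  have h1 : u 0 ^ 2 + u 1 ^ 2 = 1 := by linarith
  ext i
  fin_cases i
  · show v 0 = inner ℝ v u * u 0 + inner ℝ v (J u) * J u 0
    rw [innV, innV, J0, J1]
    linear_combination (-(v 0)) * h1
  · show v 1 = inner ℝ v u * u 1 + inner ℝ v (J u) * J u 1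
    rw [innV, innV, J0, J1]
    linear_combination (-(v 1)) * h1

theorem JJ (u : V) : J (J u) = -u := by
  ext i
  fin_cases i
  · show J (J u) 0 = (-u) 0
    rw [J0, J1]; rfl
  · show J (J u) 1 = (-u) 1
    rw [J1, J0]; rfl

theorem J_neg (u : V) : J (-u) = -J u := by
  ext i
  fin_cases i
  · show J (-u) 0 = (-J u) 0
    rw [J0]
    show -((-u) 1) = -(J u 0)
    rw [J0]; rfl
  · show J (-u) 1 = (-J u) 1
    rw [J1]
    show (-u) 0 = -(J u 1)
    rw [J1]; rfl

/-- Coordinates with respect to a frame. -/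
noncomputable def crd (x u : V) (y : V) : ℝ × ℝ := (inner ℝ (y - x) (J u), inner ℝ (y - x) u)

theorem continuous_crd (x u : V) : Continuous (crd x u) := by
  unfold crd
  fun_prop

theorem crd_inj {x u : V} (hu : ‖u‖ = 1) {y z : V} (h : crd x u y = crd x u z) : y = z := by
  unfold crd at h
  simp only [Prod.mk.injEq] at h
  have h1 := frame_eq hu (y - x)
  have h2 := frame_eq hu (z - x)
  rw [h.1, h.2, ← h2] at h1
  exact sub_left_injective h1

/-- A path which starts at `x` and ends on the side `inner (y - x) u = 3 a` of the square meets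
every path which crosses the square in the strip `a < inner (y - x) u < 3 a`. -/
theorem cross_one {x u : V} (hu : ‖u‖ = 1) {a : ℝ} (ha : 0 < a) {α : ℝ → V}
    (hα : ContinuousOn α (Icc 0 1)) (hα0 : α 0 = x) (hα1 : inner ℝ (α 1 - x) u = 3 * a)
    (hαu : ∀ s ∈ Icc (0:ℝ) 1, |inner ℝ (α s - x) u| ≤ 3 * a)
    (hαv : ∀ s ∈ Icc (0:ℝ) 1, |inner ℝ (α s - x) (J u)| ≤ 3 * a) {β : ℝ → V}
    (hβ : ContinuousOn β (Icc 0 1)) (hβ0 : inner ℝ (β 0 - x) (J u) ≤ -(3 * a))
    (hβ1 : 3 * a ≤ inner ℝ (β 1 - x) (J u))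
    (hβu : ∀ s ∈ Icc (0:ℝ) 1, a < inner ℝ (β s - x) u ∧ inner ℝ (β s - x) u < 3 * a) :
    ∃ s ∈ Icc (0:ℝ) 1, ∃ t ∈ Icc (0:ℝ) 1, α s = β t := by
  have hc := continuous_crd x u
  obtain ⟨γ, hγc, hγ0, hγ1, hγr, hγi⟩ := Pool.Agent.EU.crossing_piece (l := -(3 * a))
    (r := 3 * a) (by linarith) (γ := fun s => crd x u (β s)) (hc.comp_continuousOn hβ) hβ0 hβ1
  -- the long path
  set δ : ℝ → V := fun s => if s ≤ 1 / 2 then x - (3 * a * (1 - 2 * s)) • u else α (2 * s - 1)
    with hδ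
  have hδc : ContinuousOn δ (Icc 0 1) := by
    have h1 : ContinuousOn (fun s : ℝ => x - (3 * a * (1 - 2 * s)) • u) (Icc (0:ℝ) 1) := by
      fun_prop
    have h2 : ContinuousOn (fun s : ℝ => α (2 * s - 1)) (Icc (0:ℝ) 1 ∩ {s | 1 / 2 ≤ s}) := by
      refine hα.comp (by fun_prop) ?_
      intro s hs
      obtain ⟨⟨h3, h4⟩, h5⟩ := hs
      have h5' : 1 / 2 ≤ s := h5
      constructor <;> linarith
    refine ContinuousOn.if ?_ ?_ ?_
    · intro s hs
      have hf : frontier {s : ℝ | s ≤ 1 / 2} = {1 / 2} := by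
        have : {s : ℝ | s ≤ 1 / 2} = Iic (1 / 2) := rfl
        rw [this, frontier_Iic]
      rw [hf] at hs
      have : s = 1 / 2 := hs.2
      rw [this]
      norm_num
      exact hα0.symm
    · exact h1.mono (fun s hs => hs.1)
    · refine h2.mono ?_
      intro s hs
      refine ⟨hs.1, ?_⟩
      have hcl : closure {s : ℝ | ¬ s ≤ 1 / 2} ⊆ {s | 1 / 2 ≤ s} := by
        refine closure_minimal ?_ isClosed_Ici
        intro s hs
        have hs' : ¬ s ≤ 1 / 2 := hs
        push Not at hs'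
        exact hs'.le
      exact hcl hs.2
  have hself : ∀ c : ℝ, inner ℝ (x - c • u - x) u = -c := by
    intro c
    have : x - c • u - x = (-c) • u := by rw [neg_smul]; abel
    rw [this, real_inner_smul_left, real_inner_self_eq_norm_sq, hu]; ring
  have hselfJ : ∀ c : ℝ, inner ℝ (x - c • u - x) (J u) = 0 := by
    intro c
    have : x - c • u - x = (-c) • u := by rw [neg_smul]; abel
    rw [this, real_inner_smul_left, real_inner_comm, Pool.Agent.VSC.inner_J]; ring
  obtain ⟨s, hs, t, ht, hst⟩ := Pool.Agent.EU.crossing (a := -(3 * a)) (b := 3 * a)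
    (c := -(3 * a)) (d := 3 * a) (α := γ) (β := fun s => crd x u (δ s)) hγc
    (hc.comp_continuousOn hδc)
    (by
      intro s hs
      obtain ⟨t, ht, hts⟩ := hγi ⟨s, hs, rfl⟩
      refine ⟨⟨(hγr s hs).1, (hγr s hs).2⟩, ?_⟩
      have h1 := hβu t ht
      rw [← hts]
      unfold crd
      simp only
      exact ⟨by linarith [h1.1], h1.2.le⟩)
    (by
      intro s hs
      simp only [hδ]
      by_cases h : s ≤ 1 / 2
      · rw [if_pos h]
        unfold crd
        rw [hself, hselfJ]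
        have := hs.1
        refine ⟨⟨by linarith, by linarith⟩, ⟨?_, ?_⟩⟩
        · simp only; nlinarith
        · simp only; nlinarith
      · rw [if_neg h]
        push Not at h
        have hm : 2 * s - 1 ∈ Icc (0:ℝ) 1 := ⟨by linarith, by linarith [hs.2]⟩
        have h1 := abs_le.1 (hαu _ hm)
        have h2 := abs_le.1 (hαv _ hm)
        exact ⟨⟨h2.1, h2.2⟩, ⟨h1.1, h1.2⟩⟩)
    hγ0 hγ1
    (by
      simp only [hδ]
      rw [if_pos (by norm_num)]
      unfold crd
      simp only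
      rw [hself]; ring)
    (by
      simp only [hδ]
      rw [if_neg (by norm_num)]
      unfold crd
      simp only
      norm_num
      exact hα1)
  obtain ⟨t', ht', htt⟩ := hγi ⟨s, hs, rfl⟩
  rw [← htt] at hst
  simp only at hst
  have heq := crd_inj hu hst
  have hu' := hβu t' ht'
  by_cases h : t ≤ 1 / 2
  · simp only [hδ, if_pos h] at heq
    rw [heq, hself] at hu'
    nlinarith [hu'.1, ht.1]
  · simp only [hδ, if_neg h] at heq
    push Not at h
    exact ⟨2 * t - 1, ⟨by linarith, by linarith [ht.2]⟩, t', ht', heq.symm⟩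

open Pointwise in
theorem preconnected_thickening {K : Set V} (hK : IsPreconnected K) (d : ℝ) :
    IsPreconnected (thickening d K) := by
  rw [← add_ball_zero]
  have h1 : IsPreconnected (ball (0:V) d) := (convex_ball 0 d).isPreconnected
  have h2 := (hK.prod h1).image (fun z : V × V => z.1 + z.2) continuous_add.continuousOn
  have h3 : (fun z : V × V => z.1 + z.2) '' (K ×ˢ ball (0:V) d) = K + ball (0:V) d := by
    ext y
    rw [Set.mem_add]
    constructor
    · rintro ⟨⟨b, c⟩, ⟨hb, hc⟩, rfl⟩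
      exact ⟨b, hb, c, hc, rfl⟩
    · rintro ⟨b, hb, c, hc, rfl⟩
      exact ⟨(b, c), ⟨hb, hc⟩, rfl⟩
  rwa [h3] at h2

theorem joinedIn_curve {F : Set V} {p q : V} (h : JoinedIn F p q) :
    ∃ γ : ℝ → V, Continuous γ ∧ γ 0 = p ∧ γ 1 = q ∧ ∀ s ∈ Icc (0:ℝ) 1, γ s ∈ F := by
  obtain ⟨γ, hγ⟩ := h
  refine ⟨fun s => γ.extend s, γ.continuous_extend, by simp, by simp, ?_⟩
  intro s hs
  simp only
  rw [γ.extend_apply hs]
  exact hγ _

/-- First exit from a square. -/
theorem exit_square {x e : V} {a : ℝ} (ha : 0 < a) {γ : ℝ → V}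
    (hγ : ContinuousOn γ (Icc 0 1)) (h0 : γ 0 = x)
    (h1 : 3 * a < max |inner ℝ (γ 1 - x) e| |inner ℝ (γ 1 - x) (J e)|) :
    ∃ s1 ∈ Icc (0:ℝ) 1, (∀ s ∈ Icc (0:ℝ) s1, |inner ℝ (γ s - x) e| ≤ 3 * a ∧
      |inner ℝ (γ s - x) (J e)| ≤ 3 * a) ∧ (|inner ℝ (γ s1 - x) e| = 3 * a ∨
      |inner ℝ (γ s1 - x) (J e)| = 3 * a) := by
  set f : ℝ → ℝ := fun s => max |inner ℝ (γ s - x) e| |inner ℝ (γ s - x) (J e)| with hf
  have hfc : ContinuousOn f (Icc 0 1) := by
    have h2 : ContinuousOn (fun s => γ s - x) (Icc 0 1) := hγ.sub continuousOn_const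
    have h3 : ∀ v : V, ContinuousOn (fun s => |inner ℝ (γ s - x) v|) (Icc 0 1) := fun v =>
      (h2.inner continuousOn_const).abs
    exact (h3 e).sup (h3 (J e))
  set S1 : Set ℝ := {s ∈ Icc (0:ℝ) 1 | 3 * a ≤ f s} with hS1
  have hS1c : IsCompact S1 := by
    have : IsClosed S1 := hfc.preimage_isClosed_of_isClosed isClosed_Icc (isClosed_Ici (a := 3 * a))
    exact isCompact_Icc.of_isClosed_subset this (fun s hs => hs.1)
  obtain ⟨s1, hs1, hs1min⟩ := hS1c.exists_isLeast ⟨1, ⟨by simp, h1.le⟩⟩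
  have hf0 : f 0 = 0 := by simp [hf, h0]
  have hs1r : f s1 = 3 * a := by
    refine le_antisymm ?_ hs1.2
    by_contra hcon
    push Not at hcon
    have hiv := intermediate_value_Icc hs1.1.1 (hfc.mono (Icc_subset_Icc_right hs1.1.2))
    have hm : 3 * a ∈ Icc (f 0) (f s1) := ⟨by rw [hf0]; linarith, hcon.le⟩
    obtain ⟨u, hu, hur⟩ := hiv hm
    have hule : s1 ≤ u := hs1min ⟨⟨hu.1, hu.2.trans hs1.1.2⟩, hur.ge⟩
    have : u = s1 := le_antisymm hu.2 hule
    rw [this] at hur
    linarith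
  refine ⟨s1, hs1.1, fun s hs => ?_, ?_⟩
  · have hle : f s ≤ 3 * a := by
      by_contra hcon
      push Not at hcon
      have hule : s1 ≤ s := hs1min ⟨⟨hs.1, hs.2.trans hs1.1.2⟩, hcon.le⟩
      have : s = s1 := le_antisymm hs.2 hule
      rw [this, hs1r] at hcon
      exact lt_irrefl _ hcon
    exact ⟨(le_max_left _ _).trans hle, (le_max_right _ _).trans hle⟩
  · rcases max_choice |inner ℝ (γ s1 - x) e| |inner ℝ (γ s1 - x) (J e)| with h | h
    · left; rw [← h]; exact hs1r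
    · right; rw [← h]; exact hs1r

/-- A connected set which contains `x` and leaves the square meets one of the crossing paths. -/
theorem cross_square {K : Set V} (hKc : IsCompact K) (hK : IsPreconnected K) {x : V} {a : ℝ}
    (ha : 0 < a) (hx : x ∈ K) {w : V} (hw : w ∈ K) (hout : 6 * a < ‖w - x‖)
    (hpath : ∀ u : V, ‖u‖ = 1 → ∃ p q : V,
      JoinedIn ({y | a < inner ℝ (y - x) u ∧ inner ℝ (y - x) u < 3 * a} \ K) p q ∧
      inner ℝ (p - x) (J u) ≤ -(3 * a) ∧ 3 * a ≤ inner ℝ (q - x) (J u)) : False := by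
  classical
  obtain ⟨e, he⟩ : ∃ e : V, ‖e‖ = 1 := ⟨EuclideanSpace.single 0 1, by simp⟩
  have hJe : ‖J e‖ = 1 := by rw [Pool.Agent.VSC.norm_J]; exact he
  have hpath' : ∀ u : V, ‖u‖ = 1 → ∃ γ : ℝ → V, Continuous γ ∧
      inner ℝ (γ 0 - x) (J u) ≤ -(3 * a) ∧ 3 * a ≤ inner ℝ (γ 1 - x) (J u) ∧
      ∀ s ∈ Icc (0:ℝ) 1, γ s ∈ {y | a < inner ℝ (y - x) u ∧ inner ℝ (y - x) u < 3 * a} \ K := by
    intro u hu
    obtain ⟨p, q, hj, hp, hq⟩ := hpath u hu
    obtain ⟨γ, h1, h2, h3, h4⟩ := joinedIn_curve hj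
    exact ⟨γ, h1, by rw [h2]; exact hp, by rw [h3]; exact hq, h4⟩
  choose! γ hγc hp hq hγ using hpath'
  -- the compact union of the four paths
  set P : Set V := γ e '' Icc 0 1 ∪ γ (J e) '' Icc 0 1 ∪ (γ (-e) '' Icc 0 1 ∪ γ (-J e) '' Icc 0 1)
    with hP
  have hne : ‖-e‖ = 1 := by rw [norm_neg]; exact he
  have hnJe : ‖-J e‖ = 1 := by rw [norm_neg]; exact hJe
  have hPK : Disjoint K P := by
    rw [Set.disjoint_left]
    rintro y hyK ((⟨s, hs, rfl⟩ | ⟨s, hs, rfl⟩) | (⟨s, hs, rfl⟩ | ⟨s, hs, rfl⟩))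
    · exact (hγ e he s hs).2 hyK
    · exact (hγ _ hJe s hs).2 hyK
    · exact (hγ _ hne s hs).2 hyK
    · exact (hγ _ hnJe s hs).2 hyK
  have hPc : IsCompact P := by
    refine ((isCompact_Icc.image (hγc e he)).union (isCompact_Icc.image (hγc _ hJe))).union
      ((isCompact_Icc.image (hγc _ hne)).union (isCompact_Icc.image (hγc _ hnJe)))
  obtain ⟨d, hd, hdis⟩ := hPK.exists_thickenings hKc hPc.isClosed
  have hconn : IsConnected (thickening d K) :=
    ⟨⟨x, self_subset_thickening hd K hx⟩, preconnected_thickening hK d⟩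
  have hpc : IsPathConnected (thickening d K) :=
    (isOpen_thickening.isConnected_iff_isPathConnected).1 hconn
  obtain ⟨κ, hκ⟩ := hpc.joinedIn x (self_subset_thickening hd K hx) w
    (self_subset_thickening hd K hw)
  have hκc : ContinuousOn (fun s : ℝ => κ.extend s) (Icc 0 1) := κ.continuous_extend.continuousOn
  have hκm : ∀ s : ℝ, s ∈ Icc (0:ℝ) 1 → κ.extend s ∈ thickening d K := by
    intro s hs
    rw [κ.extend_apply hs]
    exact hκ _
  have hbig : 3 * a < max |inner ℝ (w - x) e| |inner ℝ (w - x) (J e)| := by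
    by_contra hcon
    push Not at hcon
    have h1 := frame_eq he (w - x)
    have h2 : ‖w - x‖ ≤ |inner ℝ (w - x) e| + |inner ℝ (w - x) (J e)| := by
      calc ‖w - x‖ = ‖(inner ℝ (w - x) e) • e + (inner ℝ (w - x) (J e)) • J e‖ := by rw [← h1]
        _ ≤ ‖(inner ℝ (w - x) e) • e‖ + ‖(inner ℝ (w - x) (J e)) • J e‖ := norm_add_le _ _
        _ = _ := by rw [norm_smul, norm_smul, he, hJe]; simp
    have h3 := (le_max_left |inner ℝ (w - x) e| |inner ℝ (w - x) (J e)|).trans hcon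
    have h4 := (le_max_right |inner ℝ (w - x) e| |inner ℝ (w - x) (J e)|).trans hcon
    linarith
  obtain ⟨s1, hs1, hin, hend⟩ := exit_square (x := x) (e := e) ha hκc (by simp)
    (by simpa using hbig)
  -- one frame
  have key : ∀ u : V, ‖u‖ = 1 → γ u '' Icc 0 1 ⊆ P →
      (∀ s ∈ Icc (0:ℝ) s1, |inner ℝ (κ.extend s - x) u| ≤ 3 * a ∧
        |inner ℝ (κ.extend s - x) (J u)| ≤ 3 * a) → inner ℝ (κ.extend s1 - x) u = 3 * a →
      False := by
    intro u hu hr hb he'
    have hm : ∀ s ∈ Icc (0:ℝ) 1, s1 * s ∈ Icc (0:ℝ) s1 := fun s hs =>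
      ⟨mul_nonneg hs1.1 hs.1, by nlinarith [hs.2, hs1.1]⟩
    have hm' : ∀ s ∈ Icc (0:ℝ) 1, s1 * s ∈ Icc (0:ℝ) 1 := fun s hs =>
      ⟨(hm s hs).1, (hm s hs).2.trans hs1.2⟩
    obtain ⟨s, hs, t, ht, hst⟩ := cross_one (x := x) (u := u) hu ha
      (α := fun s => κ.extend (s1 * s)) (β := γ u)
      (κ.continuous_extend.comp (by fun_prop)).continuousOn (by simp) (by simpa using he')
      (fun s hs => (hb _ (hm s hs)).1) (fun s hs => (hb _ (hm s hs)).2)
      (hγc u hu).continuousOn (hp u hu) (hq u hu) (fun s hs => (hγ u hu s hs).1)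
    have h1 : κ.extend (s1 * s) ∈ thickening d K := hκm _ (hm' s hs)
    have h2 : κ.extend (s1 * s) ∈ thickening d P := by
      rw [hst]
      exact self_subset_thickening hd P (hr ⟨t, ht, rfl⟩)
    exact hdis.le_bot ⟨h1, h2⟩
  rcases hend with h | h
  · rcases abs_choice (inner ℝ (κ.extend s1 - x) e) with h' | h'
    · exact key e he (by rw [hP]; exact subset_union_left.trans subset_union_left) hin
        (by rw [← h']; exact h)
    · refine key (-e) hne (by rw [hP]; exact subset_union_left.trans subset_union_right) ?_ ?_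
      · intro s hs
        rw [J_neg, inner_neg_right, inner_neg_right, abs_neg, abs_neg]
        exact hin s hs
      · rw [inner_neg_right, ← h']; exact h
  · rcases abs_choice (inner ℝ (κ.extend s1 - x) (J e)) with h' | h'
    · refine key (J e) hJe (by rw [hP]; exact subset_union_right.trans subset_union_left) ?_ ?_
      · intro s hs
        rw [JJ, inner_neg_right, abs_neg]
        exact (hin s hs).symm
      · rw [← h']; exact h
    · refine key (-J e) hnJe (by rw [hP]; exact subset_union_right.trans subset_union_right) ?_ ?_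
      · intro s hs
        rw [J_neg, JJ, neg_neg, inner_neg_right, abs_neg]
        exact (hin s hs).symm
      · rw [inner_neg_right, ← h']; exact h

end Pool.Agent.FCF
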