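import Pool.Agent.FCF.TopCross

/-!
# FCF / TopRoute: following a polygonal route with a one step lemma

`G j` is a decreasing scale of sets of late points, `K` a compact connected set of early points.
The one step lemma `hstep` produces from a point of `G (j+1)` near a centre `z` a point of `G j`
near `z`, joined with it outside of `K` in a ball. Following polygonal routes we get the four
crossing paths of `cross_square`.
-/

set_option autoImplicit false

namespace Pool.Agent.FCF

open Pool.Agent.VSC (V J LowJet)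
open Set Metric

theorem route_steps {K T : Set V} {x : V} {r R D : ℝ} (hr : 0 < r) {G : ℕ → Set V}
    (hstep : ∀ z : V, ‖z - x‖ ≤ D → ∀ j : ℕ, ∀ y ∈ G (j + 1), ‖y - z‖ < 10 * r →
      ∃ y' ∈ G j, ‖y' - z‖ ≤ 2 * r ∧ JoinedIn (ball z R \ K) y y') (z : ℕ → V) :
    ∀ n : ℕ, 0 < n → (∀ i < n, ‖z i - x‖ ≤ D ∧ ‖z (i + 1) - z i‖ ≤ 7 * r ∧ ball (z i) R ⊆ T) →
      ∀ j : ℕ, ∀ y ∈ G (j + n), ‖y - z 0‖ < 10 * r →
        ∃ y' ∈ G j, ‖y' - z n‖ < 10 * r ∧ JoinedIn (T \ K) y y' := by
  intro n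
  induction n with
  | zero => intro h; exact absurd h (lt_irrefl 0)
  | succ n ih =>
    intro _ hz j y hy hyz
    have hlast := hz n (Nat.lt_succ_self n)
    have hone : ∀ y1 ∈ G (j + 1), ‖y1 - z n‖ < 10 * r →
        ∃ y' ∈ G j, ‖y' - z (n + 1)‖ < 10 * r ∧ JoinedIn (T \ K) y1 y' := by
      intro y1 hy1 hy1z
      obtain ⟨y', hy', h1, h2⟩ := hstep (z n) hlast.1 j y1 hy1 hy1z
      refine ⟨y', hy', ?_, h2.mono (sdiff_subset_sdiff_left hlast.2.2)⟩
      have h3 : y' - z (n + 1) = (y' - z n) - (z (n + 1) - z n) := by abel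
      rw [h3]
      calc ‖(y' - z n) - (z (n + 1) - z n)‖ ≤ ‖y' - z n‖ + ‖z (n + 1) - z n‖ := norm_sub_le _ _
        _ ≤ 2 * r + 7 * r := add_le_add h1 hlast.2.1
        _ < 10 * r := by linarith
    rcases Nat.eq_zero_or_pos n with hn | hn
    · subst hn
      exact hone y hy hyz
    · obtain ⟨y1, hy1, h1, h2⟩ := ih hn (fun i hi => hz i (hi.trans (Nat.lt_succ_self n))) (j + 1)
        y (by rw [show j + 1 + n = j + (n + 1) by ring]; exact hy) hyz
      obtain ⟨y', hy', h3, h4⟩ := hone y1 hy1 h1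
      exact ⟨y', hy', h3, h2.trans h4⟩

theorem route_seg {K T : Set V} {x : V} {r R D : ℝ} (hr : 0 < r) {G : ℕ → Set V}
    (hstep : ∀ z : V, ‖z - x‖ ≤ D → ∀ j : ℕ, ∀ y ∈ G (j + 1), ‖y - z‖ < 10 * r →
      ∃ y' ∈ G j, ‖y' - z‖ ≤ 2 * r ∧ JoinedIn (ball z R \ K) y y') {n : ℕ} (hn : 0 < n)
    {p q : V} (hpq : ‖q - p‖ ≤ 7 * r * n)
    (hD : ∀ s ∈ Icc (0:ℝ) 1, ‖p + s • (q - p) - x‖ ≤ D ∧ ball (p + s • (q - p)) R ⊆ T)
    {j : ℕ} {y : V} (hy : y ∈ G (j + n)) (hyp : ‖y - p‖ < 10 * r) :
    ∃ y' ∈ G j, ‖y' - q‖ < 10 * r ∧ JoinedIn (T \ K) y y' := by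
  have hn' : (0:ℝ) < n := by exact_mod_cast hn
  obtain ⟨y', hy', h1, h2⟩ := route_steps (T := T) hr hstep
    (fun i : ℕ => p + ((i : ℝ) / n) • (q - p)) n hn (by
      intro i hi
      have hi' : (i : ℝ) < n := by exact_mod_cast hi
      have hmem : (i : ℝ) / n ∈ Icc (0:ℝ) 1 :=
        ⟨by positivity, by rw [div_le_one hn']; exact hi'.le⟩
      refine ⟨(hD _ hmem).1, ?_, (hD _ hmem).2⟩
      have h3 : p + (((i + 1 : ℕ) : ℝ) / n) • (q - p) - (p + ((i : ℝ) / n) • (q - p))
          = ((1 : ℝ) / n) • (q - p) := by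
        rw [add_sub_add_left_eq_sub, ← sub_smul]
        congr 1
        push_cast
        ring
      rw [h3, norm_smul, Real.norm_eq_abs, abs_of_pos (by positivity)]
      rw [div_mul_eq_mul_div, one_mul, div_le_iff₀ hn']
      exact hpq) j y hy (by simpa using hyp)
  refine ⟨y', hy', ?_, h2⟩
  have h4 : p + ((n : ℝ) / n) • (q - p) = q := by
    rw [div_self hn'.ne', one_smul]; abel
  simpa [h4] using h1

/-- The crossing paths of `cross_square`. -/
theorem route {K : Set V} {x : V} {r a : ℝ} (hr : 0 < r) (ha : 5 * r ≤ a) {G : ℕ → Set V}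
    (hstep : ∀ z : V, ‖z - x‖ ≤ 7 * a → ∀ j : ℕ, ∀ y ∈ G (j + 1), ‖y - z‖ < 10 * r →
      ∃ y' ∈ G j, ‖y' - z‖ ≤ 2 * r ∧ JoinedIn (ball z a \ K) y y') {n : ℕ}
    (hn : 10 * a ≤ 7 * r * n) {y : V} (hy : y ∈ G (n + n)) (hyx : ‖y - x‖ < 10 * r) {u : V}
    (hu : ‖u‖ = 1) : ∃ p q : V,
      JoinedIn ({y | a < inner ℝ (y - x) u ∧ inner ℝ (y - x) u < 3 * a} \ K) p q ∧
      inner ℝ (p - x) (J u) ≤ -(3 * a) ∧ 3 * a ≤ inner ℝ (q - x) (J u) := by
  have hJu : ‖J u‖ = 1 := by rw [Pool.Agent.VSC.norm_J]; exact hu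
  have hJJ : inner ℝ (J u) (J u) = (1:ℝ) := by
    rw [real_inner_self_eq_norm_sq, hJu]; norm_num
  have huu : inner ℝ u u = (1:ℝ) := by
    rw [real_inner_self_eq_norm_sq, hu]; norm_num
  have hJu0 : inner ℝ (J u) u = (0:ℝ) := Pool.Agent.VSC.inner_J u
  have huJ0 : inner ℝ u (J u) = (0:ℝ) := by rw [real_inner_comm]; exact hJu0
  have ha0 : 0 < a := by linarith
  have hn0 : 0 < n := by
    rcases Nat.eq_zero_or_pos n with h | h
    · rw [h] at hn
      simp at hn
      linarith
    · exact h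
  set p : V := x + (2 * a) • u - (5 * a) • J u with hp
  set q : V := x + (2 * a) • u + (5 * a) • J u with hq
  have hpx : ‖p - x‖ ≤ 7 * a := by
    have : p - x = (2 * a) • u - (5 * a) • J u := by rw [hp]; abel
    rw [this]
    calc ‖(2 * a) • u - (5 * a) • J u‖ ≤ ‖(2 * a) • u‖ + ‖(5 * a) • J u‖ := norm_sub_le _ _
      _ = 7 * a := by
        rw [norm_smul, norm_smul, hu, hJu, Real.norm_eq_abs, Real.norm_eq_abs,
          abs_of_pos (by linarith), abs_of_pos (by linarith)]
        ring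
  have hqp : q - p = (10 * a) • J u := by
    rw [hp, hq]
    module
  -- phase 1
  obtain ⟨y1, hy1, h1, -⟩ := route_seg (T := univ) hr hstep hn0 (p := x) (q := p)
    (by linarith) (by
      intro s hs
      refine ⟨?_, subset_univ _⟩
      rw [add_sub_cancel_left, norm_smul, Real.norm_eq_abs, abs_of_nonneg hs.1]
      nlinarith [hs.1, hs.2, norm_nonneg (p - x)]) hy hyx
  -- phase 2
  obtain ⟨y2, -, h2, h3⟩ := route_seg (T := {y | a < inner ℝ (y - x) u ∧
    inner ℝ (y - x) u < 3 * a}) hr hstep hn0 (p := p) (q := q)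
    (by
      rw [hqp, norm_smul, hJu, Real.norm_eq_abs, abs_of_pos (by linarith), mul_one]
      exact hn) (by
      intro s hs
      have h4 : p + s • (q - p) - x = (2 * a) • u + (10 * a * s - 5 * a) • J u := by
        rw [hqp, hp]
        module
      constructor
      · rw [h4]
        calc ‖(2 * a) • u + (10 * a * s - 5 * a) • J u‖
            ≤ ‖(2 * a) • u‖ + ‖(10 * a * s - 5 * a) • J u‖ := norm_add_le _ _
          _ = 2 * a + |10 * a * s - 5 * a| := by
              rw [norm_smul, norm_smul, hu, hJu, Real.norm_eq_abs, Real.norm_eq_abs,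
                abs_of_pos (by linarith)]
              ring
          _ ≤ 2 * a + 5 * a := by
              have : |10 * a * s - 5 * a| ≤ 5 * a := by
                rw [abs_le]
                constructor
                · nlinarith [hs.1]
                · nlinarith [hs.2]
              linarith
          _ = 7 * a := by ring
      · intro w hw
        rw [mem_ball, dist_eq_norm] at hw
        have h5 : inner ℝ (w - x) u = inner ℝ (w - (p + s • (q - p))) u + 2 * a := by
          have : w - x = (w - (p + s • (q - p))) + (p + s • (q - p) - x) := by abel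
          rw [this, inner_add_left, h4, inner_add_left, real_inner_smul_left,
            real_inner_smul_left, huu, hJu0]
          ring
        have h6 : |inner ℝ (w - (p + s • (q - p))) u| < a := by
          refine lt_of_le_of_lt (abs_real_inner_le_norm _ _) ?_
          rw [hu, mul_one]
          exact hw
        have h7 := abs_lt.1 h6
        constructor
        · rw [h5]; linarith
        · rw [h5]; linarith) (j := 0) (by simpa using hy1) h1
  refine ⟨y1, y2, h3, ?_, ?_⟩
  · have h5 : inner ℝ (y1 - x) (J u) = inner ℝ (y1 - p) (J u) - 5 * a := by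
      have h8 : y1 - x = (y1 - p) + ((2 * a) • u - (5 * a) • J u) := by rw [hp]; abel
      have h9 : inner ℝ ((2 * a) • u - (5 * a) • J u) (J u) = -(5 * a) := by
        rw [inner_sub_left, real_inner_smul_left, real_inner_smul_left, hJJ, huJ0]
        ring
      rw [h8, inner_add_left, h9]
      ring
    have h6 : |inner ℝ (y1 - p) (J u)| ≤ 10 * r := by
      refine (abs_real_inner_le_norm _ _).trans ?_
      rw [hJu, mul_one]
      exact h1.le
    have h7 := abs_le.1 h6
    rw [h5]; linarith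
  · have h5 : inner ℝ (y2 - x) (J u) = inner ℝ (y2 - q) (J u) + 5 * a := by
      have : y2 - x = (y2 - q) + ((2 * a) • u + (5 * a) • J u) := by rw [hq]; abel
      rw [this, inner_add_left, inner_add_left, real_inner_smul_left,
        real_inner_smul_left, hJJ, huJ0]
      ring
    have h6 : |inner ℝ (y2 - q) (J u)| ≤ 10 * r := by
      refine (abs_real_inner_le_norm _ _).trans ?_
      rw [hJu, mul_one]
      exact h2.le
    have h7 := abs_le.1 h6
    rw [h5]; linarith

/-- Combination: no late points near `x` if an early connected set goes far away. -/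
theorem no_late {K : Set V} (hKc : IsCompact K) (hK : IsPreconnected K) {x : V} (hx : x ∈ K)
    {r a : ℝ} (hr : 0 < r) (ha : 5 * r ≤ a) {w : V} (hw : w ∈ K) (hout : 6 * a < ‖w - x‖)
    {G : ℕ → Set V}
    (hstep : ∀ z : V, ‖z - x‖ ≤ 7 * a → ∀ j : ℕ, ∀ y ∈ G (j + 1), ‖y - z‖ < 10 * r →
      ∃ y' ∈ G j, ‖y' - z‖ ≤ 2 * r ∧ JoinedIn (ball z a \ K) y y') {n : ℕ}
    (hn : 10 * a ≤ 7 * r * n) {y : V} (hyx : ‖y - x‖ < 10 * r) : y ∉ G (n + n) := by
  intro hy
  exact cross_square hKc hK (by linarith) hx hw hout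
    (fun u hu => route hr ha hstep hn hy hyx hu)

end Pool.Agent.FCF
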