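import Pool.Agent.FCF.Inner
import Pool.Agent.FCF.Fill
import Pool.Agent.FCF.TopRoute

/-!
# FCF / TopE: fatness and the chain lemma for increasing flows (FCF_PROOF.md, 3.5, 3.6)
-/

set_option autoImplicit false

namespace Pool.Agent.FCF

open Pool.Agent.VSC (V J LowJet)
open Set Metric Filter Topology

/-- In a compact set, the component of a point which misses a closed set is separated from it by a
relatively clopen set. -/
theorem exists_clopen_sep {Q F : Set V} (hQ : IsCompact Q) (hF : IsClosed F) {x : V} (hx : x ∈ Q)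
    (hno : ∀ K : Set V, IsCompact K → IsPreconnected K → x ∈ K → K ⊆ Q → Disjoint K F) :
    ∃ D : Set V, IsCompact D ∧ x ∈ D ∧ D ⊆ Q ∧ Disjoint D F ∧
      ∀ y ∈ D, ∃ r : ℝ, 0 < r ∧ ∀ w ∈ Q, ‖w - y‖ < r → w ∈ D := by
  have : CompactSpace Q := isCompact_iff_compactSpace.1 hQ
  set x' : Q := ⟨x, hx⟩ with hx'
  have hcc : (connectedComponent x' : Set Q) = ⋂ Z : { Z : Set Q // IsClopen Z ∧ x' ∈ Z }, Z :=
    connectedComponent_eq_iInter_isClopen x'
  -- the component misses F
  have hK : Disjoint ((Subtype.val : Q → V) '' (connectedComponent x')) F := by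
    refine hno _ ?_ ?_ ⟨x', mem_connectedComponent, rfl⟩ ?_
    · exact (isClosed_connectedComponent.isCompact).image continuous_subtype_val
    · exact (isPreconnected_connectedComponent).image _ continuous_subtype_val.continuousOn
    · rintro _ ⟨w, -, rfl⟩
      exact w.2
  set F' : Set Q := Subtype.val ⁻¹' F with hF'
  have hF'c : IsCompact F' := (hF.preimage continuous_subtype_val).isCompact
  have hdis : (connectedComponent x' : Set Q) ∩ F' = ∅ := by
    rw [Set.eq_empty_iff_forall_notMem]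
    rintro w ⟨h1, h2⟩
    exact hK.le_bot ⟨⟨w, h1, rfl⟩, h2⟩
  obtain ⟨Z, hZc, hxZ, hZF⟩ : ∃ Z : Set Q, IsClopen Z ∧ x' ∈ Z ∧ Z ∩ F' = ∅ := by
    by_contra hcon
    push Not at hcon
    have hne : (F' ∩ ⋂ Z : { Z : Set Q // IsClopen Z ∧ x' ∈ Z }, (Z : Set Q)).Nonempty := by
      refine hF'c.inter_iInter_nonempty _ (fun Z => Z.2.1.isClosed) ?_
      intro u
      have hcl : IsClopen (⋂ Z ∈ u, ((Z : { Z : Set Q // IsClopen Z ∧ x' ∈ Z }) : Set Q)) :=
        u.finite_toSet.isClopen_biInter (fun Z _ => Z.2.1)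
      have hmem : x' ∈ (⋂ Z ∈ u, ((Z : { Z : Set Q // IsClopen Z ∧ x' ∈ Z }) : Set Q)) := by
        simp only [mem_iInter]
        exact fun Z _ => Z.2.2
      have := hcon _ hcl hmem
      rwa [inter_comm] at this
    rw [← hcc, inter_comm, hdis] at hne
    exact Set.not_nonempty_empty hne
  refine ⟨Subtype.val '' Z, hZc.isClosed.isCompact.image continuous_subtype_val,
    ⟨x', hxZ, rfl⟩, ?_, ?_, ?_⟩
  · rintro _ ⟨w, -, rfl⟩
    exact w.2
  · rw [Set.disjoint_left]
    rintro _ ⟨w, hw, rfl⟩ hwF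
    have : w ∈ Z ∩ F' := ⟨hw, hwF⟩
    rw [hZF] at this
    exact this
  · rintro _ ⟨w, hw, rfl⟩
    have hZo : IsOpen Z := hZc.isOpen
    rw [Metric.isOpen_iff] at hZo
    obtain ⟨r, hr, hb⟩ := hZo w hw
    refine ⟨r, hr, fun v hv hvw => ⟨⟨v, hv⟩, hb ?_, rfl⟩⟩
    rw [mem_ball, Subtype.dist_eq, dist_eq_norm]
    exact hvw

/-- Fatness of increasing flows. -/
theorem fat_E {M L : ℝ} {h : V → ℝ} (hm : Med M L h) {A : Set V} (hA : IsClosed A)
    (hmono : ∀ s t : ℝ, 0 ≤ s → s ≤ t → E h A s ⊆ E h A t) {x : V} {t : ℝ} (hx : x ∈ E h A t)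
    {rho : ℝ} (hrho : 0 < rho) (hfar : Disjoint (closedBall x rho) A) :
    ∃ K : Set V, IsCompact K ∧ IsPreconnected K ∧ x ∈ K ∧ K ⊆ E h A t ∧ ∃ w ∈ K, ‖w - x‖ = rho := by
  by_contra hcon
  push Not at hcon
  set Q : Set V := E h A t ∩ closedBall x rho with hQ
  have hQc : IsCompact Q := (isCompact_closedBall x rho).inter_left (isClosed_E h A t)
  have hxQ : x ∈ Q := ⟨hx, mem_closedBall_self hrho.le⟩
  obtain ⟨D, hDc, hxD, hDQ, hDF, hDo⟩ := exists_clopen_sep hQc (F := sphere x rho)
    isClosed_sphere hxQ (by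
      intro K hKc hKp hxK hKQ
      rw [Set.disjoint_left]
      intro w hw hws
      rw [mem_sphere, dist_eq_norm] at hws
      exact hcon K hKc hKp hxK (fun v hv => (hKQ hv).1) w hw hws)
  have hfl := flow_gsub hm hA
  have ht0 : 0 ≤ t := flow_nonneg (h := h) (A := A) (z := (x, t)) hx
  set C : Set (V × ℝ) := {z | z ∈ Flow h A ∧ z.2 ≤ t ∧ z.1 ∈ D} with hC
  have hCc : IsClosed C := by
    have h1 : C = Flow h A ∩ ({z : V × ℝ | z.2 ≤ t} ∩ {z : V × ℝ | z.1 ∈ D}) := by
      ext z
      constructor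
      · rintro ⟨h1, h2, h3⟩
        exact ⟨h1, h2, h3⟩
      · rintro ⟨h1, h2, h3⟩
        exact ⟨h1, h2, h3⟩
    rw [h1]
    exact (isClosed_flow h A).inter ((isClosed_le continuous_snd continuous_const).inter
      (hDc.isClosed.preimage continuous_fst))
  have hpos : ∀ z ∈ C, 0 < z.2 := by
    intro z hz
    have h1 := flow_nonneg hz.1
    rcases h1.eq_or_lt with h2 | h2
    · exfalso
      have h3 : z.1 ∈ A := hfl.init z.1 (by rw [h2]; exact hz.1)
      exact hfar.le_bot ⟨(hDQ hz.2.2).2, h3⟩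
    · exact h2
  have hempty : C = ∅ := by
    refine fill_in hm isClosed_empty hpos ?_ ?_ ?_
    · intro z _ hz
      have h1 : z.1 ∈ E h ∅ z.2 := hz
      rw [E_empty hm] at h1
      exact h1
    · rw [hCc.closure_eq]
      exact subset_union_left
    · intro y s hys
      have hs0 : 0 < s := hpos _ hys
      have h1 : SubAt h (Flow h A) y s := hfl.sub.sub y s (mem_univ _) hs0 hys.1
      obtain ⟨r, hr, hDr⟩ := hDo y hys.2.2
      refine h1.mono_near ?_
      -- inside the open ball
      have hyb : ‖y - x‖ < rho := by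
        have h2 := (hDQ hys.2.2).2
        rw [mem_closedBall, dist_eq_norm] at h2
        rcases h2.eq_or_lt with h3 | h3
        · exfalso
          refine hDF.le_bot ⟨hys.2.2, ?_⟩
          rw [mem_sphere, dist_eq_norm]
          exact h3
        · exact h3
      refine ⟨min r (rho - ‖y - x‖), lt_min hr (by linarith), ?_⟩
      intro w s' hw _ hs' hwF
      have hw1 : ‖w - y‖ < r := lt_of_lt_of_le hw (min_le_left _ _)
      have hw2 : ‖w - y‖ < rho - ‖y - x‖ := lt_of_lt_of_le hw (min_le_right _ _)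
      have hs0' : 0 ≤ s' := flow_nonneg hwF
      have hst : s' ≤ t := hs'.trans hys.2.1
      refine ⟨hwF, hst, hDr w ⟨hmono s' t hs0' hst hwF, ?_⟩ hw1⟩
      rw [mem_closedBall, dist_eq_norm]
      have h4 : w - x = (w - y) + (y - x) := by abel
      rw [h4]
      exact (norm_add_le _ _).trans (by linarith)
  have : (x, t) ∈ C := ⟨hx, le_rfl, hxD⟩
  rw [hempty] at this
  exact this

/-- The chain lemma for increasing flows. -/
theorem chain_E {M L : ℝ} {h : V → ℝ} (hm : Med M L h) {A : Set V} (hA : IsClosed A)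
    (hmono : ∀ s t : ℝ, 0 ≤ s → s ≤ t → E h A s ⊆ E h A t) {K : Set V} (hKc : IsClosed K)
    {t : ℝ} (ht : 0 ≤ t) (hK : K ⊆ E h A t) {z : V} {r sg R : ℝ} (hr : 1 ≤ r) (hsg : 0 ≤ sg)
    (hR : r + (2 * M + 4) * sg + 1 < R)
    (hexp : closedBall z (10 * r) ⊆ E h (closedBall z r) sg) {t' : ℝ} (htt : t ≤ t') {y : V}
    (hy : ‖y - z‖ < 10 * r) (hyS : y ∉ E h A (t' + sg)) :
    ∃ y', y' ∉ E h A t' ∧ ‖y' - z‖ ≤ r ∧ JoinedIn (ball z R \ K) y y' := by
  have ht0 : 0 ≤ t' := ht.trans htt
  have hKt : ∀ s, t' ≤ s → K ⊆ E h A s := fun s hs => hK.trans (hmono t s ht (htt.trans hs))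
  have hopen : IsOpen (ball z R \ K) := isOpen_ball.sdiff hKc
  have hyE : y ∈ E h (closedBall z r) sg := hexp (by rw [mem_closedBall, dist_eq_norm]; exact hy.le)
  have hball : ∀ s, 0 ≤ s → s ≤ sg → ∀ w ∈ E h (closedBall z r) s, w ∈ ball z R := by
    intro s hs0 hs w hw
    have h1 := E_ball_sub hm (by linarith : 0 ≤ r) hs0 hw
    rw [mem_closedBall] at h1
    rw [mem_ball]
    have h2 : (2 * M + 4) * s ≤ (2 * M + 4) * sg :=
      mul_le_mul_of_nonneg_left hs (by linarith [hm.one_le])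
    linarith
  have hyF : y ∈ ball z R \ K := ⟨hball sg hsg le_rfl y hyE, fun hyK => hyS (hKt _ (by linarith) hyK)⟩
  set W : Set V := pathComponentIn (ball z R \ K) y with hW
  have hWo : IsOpen W := hopen.pathComponentIn y
  have hWF : W ⊆ ball z R \ K := pathComponentIn_subset
  have hyW : y ∈ W := mem_pathComponentIn_self hyF
  -- W is relatively closed
  have hWc : ∀ w ∈ closure W, w ∈ ball z R \ K → w ∈ W := by
    intro w hw hwF
    have h1 : IsOpen (pathComponentIn (ball z R \ K) w) := hopen.pathComponentIn w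
    have h2 : w ∈ pathComponentIn (ball z R \ K) w := mem_pathComponentIn_self hwF
    obtain ⟨v, hv1, hv2⟩ := mem_closure_iff.1 hw _ h1 h2
    have h3 : JoinedIn (ball z R \ K) w v := hv1
    have h4 : JoinedIn (ball z R \ K) y v := hv2
    exact h4.trans h3.symm
  by_contra hcon
  push Not at hcon
  have hcon' : ∀ w ∈ W, ‖w - z‖ ≤ r → w ∈ E h A t' := by
    intro w hw hwz
    by_contra hwn
    exact hcon w hwn hwz hw
  have hcl1 := isClosed_flow h (closedBall z r)
  have hcl2 := isClosed_flow h A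
  set C : Set (V × ℝ) := {q | q ∈ Flow h (closedBall z r) ∧ q.2 ≤ sg ∧ q.1 ∈ W ∧
    (q.1, q.2 + t') ∉ Flow h A} with hC
  have hcont : Continuous (fun q : V × ℝ => (q.1, q.2 + t')) := by fun_prop
  have hempty : C = ∅ := by
    refine fill_in_sub hm hA t' (h' := h) (U := univ) (t0 := 0) (S := Flow h (closedBall z r))
      (flow_gsub hm isClosed_closedBall).sub (fun _ _ => le_rfl) ?_ ?_ ?_
    · rintro w s ⟨h1, h2, h3, h4⟩
      have hs0 : 0 ≤ s := flow_nonneg h1
      have hspos : 0 < s := by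
        rcases hs0.eq_or_lt with h5 | h5
        · exfalso
          apply h4
          have h6 : w ∈ closedBall z r :=
            (flow_gsub hm isClosed_closedBall).init w (by rw [h5]; exact h1)
          rw [mem_closedBall, dist_eq_norm] at h6
          have h7 := hcon' w h3 h6
          simp only [← h5, zero_add]
          exact h7
        · exact h5
      exact ⟨h1, mem_univ _, hspos, by linarith, h4⟩
    · intro w s hws
      by_cases h4 : (w, s + t') ∈ Flow h A
      · exact Or.inr h4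
      · left
        have h1 : (w, s) ∈ Flow h (closedBall z r) :=
          closure_minimal (fun q hq => hq.1) hcl1 hws
        have h2 : s ≤ sg := by
          have := closure_minimal (s := C) (t := {q : V × ℝ | q.2 ≤ sg}) (fun q hq => hq.2.1)
            (isClosed_le continuous_snd continuous_const) hws
          exact this
        have hs0 : 0 ≤ s := flow_nonneg h1
        have h3 : w ∈ closure W := by
          have h5 : C ⊆ (fun q : V × ℝ => q.1) ⁻¹' W := fun q hq => hq.2.2.1
          exact (continuous_fst.closure_preimage_subset W) (closure_mono h5 hws)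
        have hwF : w ∈ ball z R \ K :=
          ⟨hball s hs0 h2 w h1, fun hwK => h4 (hKt (s + t') (by linarith) hwK)⟩
        exact ⟨h1, h2, hWc w h3 hwF, h4⟩
    · rintro w s ⟨h1, h2, h3, h4⟩
      have hO : IsOpen {q : V × ℝ | q.1 ∈ W ∧ (q.1, q.2 + t') ∉ Flow h A} := by
        have h5 : {q : V × ℝ | q.1 ∈ W ∧ (q.1, q.2 + t') ∉ Flow h A}
            = (fun q : V × ℝ => q.1) ⁻¹' W ∩ ((fun q : V × ℝ => (q.1, q.2 + t')) ⁻¹' Flow h A)ᶜ := by
          ext q; rfl
        rw [h5]
        exact (hWo.preimage continuous_fst).inter (hcl2.preimage hcont).isOpen_compl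
      rw [Metric.isOpen_iff] at hO
      obtain ⟨rr, hrr, hsub⟩ := hO (w, s) ⟨h3, h4⟩
      refine ⟨rr, hrr, ?_⟩
      intro v s' hv hs1 hs2 hvS
      have hin : (v, s') ∈ ball ((w, s) : V × ℝ) rr := by
        rw [mem_ball, Prod.dist_eq, max_lt_iff]
        constructor
        · rw [dist_eq_norm]; exact hv
        · rw [Real.dist_eq, abs_lt]; constructor <;> linarith
      have h5 := hsub hin
      exact ⟨hvS, hs2.trans h2, h5.1, h5.2⟩
  have : (y, sg) ∈ C := ⟨hyE, le_rfl, hyW, by rw [add_comm]; exact hyS⟩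
  rw [hempty] at this
  exact this

end Pool.Agent.FCF
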