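import Pool.Agent.FCF.TopE

/-!
# FCF / TopO: fatness and the chain lemma for decreasing flows (FCF_PROOF.md, 3.8)

The comparison principle is a hypothesis `hcomp` (in the form of `exists_canPre`).
-/

set_option autoImplicit false

namespace Pool.Agent.FCF

open Pool.Agent.VSC (V J LowJet)
open Set Metric Filter Topology

theorem Med.neg {M L : ℝ} {h : V → ℝ} (hm : Med M L h) : Med M L (fun x => -h x) := by
  refine ⟨hm.one_le, hm.one_le', fun x => ?_, fun x y => ?_⟩
  · rw [abs_neg]; exact hm.bd x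
  · rw [show -h x - -h y = -(h x - h y) by ring, abs_neg]; exact hm.lip x y

theorem pathComponent_closed {F : Set V} (hF : IsOpen F) (y : V) :
    ∀ w ∈ closure (pathComponentIn F y), w ∈ F → w ∈ pathComponentIn F y := by
  intro w hw hwF
  have h1 : IsOpen (pathComponentIn F w) := hF.pathComponentIn w
  have h2 : w ∈ pathComponentIn F w := mem_pathComponentIn_self hwF
  obtain ⟨v, hv1, hv2⟩ := mem_closure_iff.1 hw _ h1 h2
  have h3 : JoinedIn F w v := hv1
  have h4 : JoinedIn F y v := hv2
  exact h4.trans h3.symm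

/-- Fatness of the complement of a decreasing flow. -/
theorem fat_O {M L : ℝ} {k : V → ℝ} (hm : Med M L k) {B : Set V} (hB : IsClosed B)
    (hanti : ∀ s t : ℝ, 0 ≤ s → s ≤ t → E k B t ⊆ E k B s) {x : V} {t : ℝ} (ht : 0 ≤ t)
    (hx : x ∉ E k B t) {rho rho' : ℝ} (hrho : 0 < rho') (hrr : rho' < rho)
    (hfar : ball x rho ⊆ B) :
    ∃ K : Set V, IsCompact K ∧ IsPreconnected K ∧ x ∈ K ∧ (∀ y ∈ K, y ∉ E k B t) ∧
      ∃ w ∈ K, rho' ≤ ‖w - x‖ := by
  have hB0 : E k B 0 = B := E_zero hm hB
  have htpos : 0 < t := by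
    rcases ht.eq_or_lt with h | h
    · exfalso
      apply hx
      rw [← h, hB0]
      exact hfar (mem_ball_self (by linarith))
    · exact h
  set F : Set V := (E k B t)ᶜ ∩ ball x rho with hF
  have hFo : IsOpen F := (isClosed_E k B t).isOpen_compl.inter isOpen_ball
  have hxF : x ∈ F := ⟨hx, mem_ball_self (by linarith)⟩
  set G : Set V := pathComponentIn F x with hG
  have hGo : IsOpen G := hFo.pathComponentIn x
  have hGF : G ⊆ F := pathComponentIn_subset
  have hxG : x ∈ G := mem_pathComponentIn_self hxF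
  have hGc := pathComponent_closed hFo x
  have hfl := flow_gsub hm hB
  have hcl := isClosed_flow k B
  obtain ⟨w, hwG, hwx⟩ : ∃ w ∈ G, rho' ≤ ‖w - x‖ := by
    by_contra hcon
    push Not at hcon
    set C : Set (V × ℝ) := {q | 0 < q.2 ∧ q.2 ≤ t ∧ q.1 ∈ G ∧ q ∉ Flow k B} with hC
    have hempty : C = ∅ := by
      refine fill_in_sub hm hB 0 (h' := k) (U := univ) (t0 := 0) (S := univ) ?_
        (fun _ _ => le_rfl) ?_ ?_ ?_
      · exact ⟨fun _ _ _ _ _ => mem_univ _, fun y s _ _ _ =>
          subAt_of_interior ⟨1, one_pos, fun _ _ _ _ _ => mem_univ _⟩⟩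
      · rintro y s ⟨h1, h2, h3, h4⟩
        exact ⟨mem_univ _, mem_univ _, h1, by simpa using h1, by simpa using h4⟩
      · intro y s hys
        rw [add_zero]
        by_cases h4 : (y, s) ∈ Flow k B
        · exact Or.inr h4
        · left
          have h1 : 0 ≤ s := closure_minimal (s := C) (t := {q : V × ℝ | 0 ≤ q.2})
            (fun q hq => hq.1.le) (isClosed_le continuous_const continuous_snd) hys
          have h2 : s ≤ t := closure_minimal (s := C) (t := {q : V × ℝ | q.2 ≤ t})
            (fun q hq => hq.2.1) (isClosed_le continuous_snd continuous_const) hys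
          have h3 : y ∈ closure G := by
            have h5 : C ⊆ (fun q : V × ℝ => q.1) ⁻¹' G := fun q hq => hq.2.2.1
            exact (continuous_fst.closure_preimage_subset G) (closure_mono h5 hys)
          have hyb : y ∈ ball x rho := by
            have h5 : y ∈ closedBall x rho' := by
              refine closure_minimal ?_ isClosed_closedBall h3
              intro v hv
              rw [mem_closedBall, dist_eq_norm]
              exact (hcon v hv).le
            rw [mem_closedBall] at h5
            rw [mem_ball]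
            linarith
          have hyt : y ∉ E k B t := fun h5 => h4 (hanti s t h1 h2 h5)
          have hspos : 0 < s := by
            rcases h1.eq_or_lt with h5 | h5
            · exfalso
              apply h4
              have h6 : y ∈ E k B 0 := by rw [hB0]; exact hfar hyb
              rw [← h5]
              exact h6
            · exact h5
          exact ⟨hspos, h2, hGc y h3 ⟨hyt, hyb⟩, h4⟩
      · rintro y s ⟨h1, h2, h3, h4⟩
        have hO : IsOpen {q : V × ℝ | 0 < q.2 ∧ q.1 ∈ G ∧ q ∉ Flow k B} := by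
          have h5 : {q : V × ℝ | 0 < q.2 ∧ q.1 ∈ G ∧ q ∉ Flow k B}
              = {q : V × ℝ | 0 < q.2} ∩ ((fun q : V × ℝ => q.1) ⁻¹' G ∩ (Flow k B)ᶜ) := by
            ext q; rfl
          rw [h5]
          exact (isOpen_lt continuous_const continuous_snd).inter
            ((hGo.preimage continuous_fst).inter hcl.isOpen_compl)
        rw [Metric.isOpen_iff] at hO
        obtain ⟨rr, hrr, hsub⟩ := hO (y, s) ⟨h1, h3, h4⟩
        refine ⟨rr, hrr, ?_⟩
        intro v s' hv hs1 hs2 _
        have hin : (v, s') ∈ ball ((y, s) : V × ℝ) rr := by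
          rw [mem_ball, Prod.dist_eq, max_lt_iff]
          constructor
          · rw [dist_eq_norm]; exact hv
          · rw [Real.dist_eq, abs_lt]; constructor <;> linarith
        have h5 := hsub hin
        exact ⟨h5.1, hs2.trans h2, h5.2.1, h5.2.2⟩
    have : (x, t) ∈ C := ⟨htpos, le_rfl, hxG, hx⟩
    rw [hempty] at this
    exact this
  obtain ⟨γ, h1, h2, h3, h4⟩ := joinedIn_curve (hwG : JoinedIn F x w)
  refine ⟨γ '' Icc 0 1, isCompact_Icc.image h1, isPreconnected_Icc.image _ h1.continuousOn,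
    ⟨0, by simp, h2⟩, ?_, w, ⟨1, by simp, h3⟩, hwx⟩
  rintro _ ⟨s, hs, rfl⟩
  exact (h4 s hs).1

/-- The chain lemma for decreasing flows. -/
theorem chain_O {M L : ℝ} {h : V → ℝ} (hm : Med M L h)
    (hcomp : ∀ A B : Set V, IsClosed A → IsClosed B → ∀ d : ℝ, 0 < d →
      (∀ a ∈ A, ∀ b ∈ B, d ≤ ‖a - b‖) → ∀ (t : ℝ) (x : V), x ∈ E h A t →
      x ∈ E (fun x => -h x) B t → False)
    {B : Set V} (hB : IsClosed B)
    (hanti : ∀ s t : ℝ, 0 ≤ s → s ≤ t → E (fun x => -h x) B t ⊆ E (fun x => -h x) B s)
    {K : Set V} (hKc : IsClosed K) {t : ℝ} (ht : 0 ≤ t) (hK : ∀ y ∈ K, y ∉ E (fun x => -h x) B t)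
    {z : V} {r sg R : ℝ} (hr : 1 ≤ r) (hsg : 0 < sg) (hR : 2 * r + (2 * M + 4) * sg + 1 < R)
    (hexp : closedBall z (10 * r) ⊆ E h (closedBall z r) sg) {t' : ℝ} (htt : t ≤ t') {y : V}
    (hy : ‖y - z‖ < 10 * r) (hyS : y ∈ E (fun x => -h x) B (t' + sg)) :
    ∃ y', y' ∈ E (fun x => -h x) B t' ∧ ‖y' - z‖ ≤ 2 * r ∧ JoinedIn (ball z R \ K) y y' := by
  set k : V → ℝ := fun x => -h x with hk
  have hmk : Med M L k := hm.neg
  have ht0 : 0 ≤ t' := ht.trans htt
  have hKt : ∀ s, t' ≤ s → ∀ w ∈ E k B s, w ∉ K := fun s hs w hw hwK =>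
    hK w hwK (hanti t s ht (htt.trans hs) hw)
  have hopen : IsOpen (ball z R \ K) := isOpen_ball.sdiff hKc
  set Q0 : Set V := (ball z (2 * r))ᶜ with hQ0
  have hQc : IsClosed Q0 := isOpen_ball.isClosed_compl
  have hball : ∀ s, 0 ≤ s → s ≤ sg → ∀ w, w ∉ E k Q0 s → w ∈ ball z R := by
    intro s hs0 hs w hw
    by_contra hwb
    apply hw
    rw [mem_ball, dist_eq_norm] at hwb
    push Not at hwb
    have h2 : (2 * M + 4) * s ≤ (2 * M + 4) * sg :=
      mul_le_mul_of_nonneg_left hs (by linarith [hm.one_le])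
    have hMs : 0 ≤ (2 * M + 4) * s := mul_nonneg (by linarith [hm.one_le]) hs0
    refine inner_large hmk (r := (2 * M + 4) * s + 1) (by linarith) ?_ hs0 ?_
    · intro v hv
      rw [hQ0, mem_compl_iff, mem_ball, dist_eq_norm]
      rw [mem_closedBall, dist_eq_norm] at hv
      intro hvz
      have h4 : w - z = (v - z) - (v - w) := by abel
      have h5 : ‖w - z‖ ≤ ‖v - z‖ + ‖v - w‖ := by rw [h4]; exact norm_sub_le _ _
      linarith
    · rw [add_sub_cancel_right, mul_div_cancel_left₀]
      linarith [hm.one_le]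
  have hyE : y ∈ E h (closedBall z r) sg := hexp (by rw [mem_closedBall, dist_eq_norm]; exact hy.le)
  have hyQ : y ∉ E k Q0 sg := by
    intro hyQ
    refine hcomp _ _ isClosed_closedBall hQc r (by linarith : 0 < r) ?_ sg y hyE hyQ
    intro a ha b hb
    rw [mem_closedBall, dist_eq_norm] at ha
    rw [hQ0, mem_compl_iff, mem_ball, dist_eq_norm] at hb
    push Not at hb
    have h4 : b - z = (a - z) - (a - b) := by abel
    have h5 : ‖b - z‖ ≤ ‖a - z‖ + ‖a - b‖ := by rw [h4]; exact norm_sub_le _ _
    linarith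
  have hyF : y ∈ ball z R \ K := ⟨hball sg hsg.le le_rfl y hyQ, hKt _ (by linarith) y hyS⟩
  set W : Set V := pathComponentIn (ball z R \ K) y with hW
  have hWo : IsOpen W := hopen.pathComponentIn y
  have hyW : y ∈ W := mem_pathComponentIn_self hyF
  have hWc := pathComponent_closed hopen y
  by_contra hcon
  push Not at hcon
  have hcon' : ∀ w ∈ W, w ∈ E k B t' → 2 * r ≤ ‖w - z‖ := by
    intro w hw hwB
    by_contra hwn
    push Not at hwn
    exact hcon w hwB hwn.le hw
  have hcl1 := isClosed_flow k Q0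
  have hcl2 := isClosed_flow k B
  have hQz : E k Q0 0 = Q0 := E_zero hmk hQc
  set S : Set (V × ℝ) := {q | (q.1, q.2 + t') ∈ Flow k B} with hS
  have hcont : Continuous (fun q : V × ℝ => (q.1, q.2 + t')) := by fun_prop
  have hSc : IsClosed S := hcl2.preimage hcont
  have hSsub : SubIn k univ 0 S := by
    refine SubIn.shift_time t' ?_
    rw [zero_add]
    exact (flow_gsub hmk hB).sub.restrict subset_rfl ht0
  set C : Set (V × ℝ) := {q | q ∈ S ∧ 0 < q.2 ∧ q.2 ≤ sg ∧ q.1 ∈ W ∧ q ∉ Flow k Q0} with hC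
  have hempty : C = ∅ := by
    refine fill_in_sub hmk hQc 0 (h' := k) (U := univ) (t0 := 0) (S := S) hSsub
      (fun _ _ => le_rfl) ?_ ?_ ?_
    · rintro w s ⟨h1, h2, h3, h4, h5⟩
      exact ⟨h1, mem_univ _, h2, by simpa using h2, by simpa using h5⟩
    · intro w s hws
      rw [add_zero]
      by_cases h4 : (w, s) ∈ Flow k Q0
      · exact Or.inr h4
      · left
        have h1 : (w, s) ∈ S := closure_minimal (fun q hq => hq.1) hSc hws
        have h2 : s ≤ sg := closure_minimal (s := C) (t := {q : V × ℝ | q.2 ≤ sg})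
          (fun q hq => hq.2.2.1) (isClosed_le continuous_snd continuous_const) hws
        have h3 : 0 ≤ s := closure_minimal (s := C) (t := {q : V × ℝ | 0 ≤ q.2})
          (fun q hq => hq.2.1.le) (isClosed_le continuous_const continuous_snd) hws
        have h5 : w ∈ closure W := by
          have h6 : C ⊆ (fun q : V × ℝ => q.1) ⁻¹' W := fun q hq => hq.2.2.2.1
          exact (continuous_fst.closure_preimage_subset W) (closure_mono h6 hws)
        have hwF : w ∈ ball z R \ K := ⟨hball s h3 h2 w h4, hKt (s + t') (by linarith) w h1⟩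
        have hwW : w ∈ W := hWc w h5 hwF
        have hspos : 0 < s := by
          rcases h3.eq_or_lt with h6 | h6
          · exfalso
            apply h4
            have h7 : w ∈ E k B t' := by
              have h8 : (w, s + t') ∈ Flow k B := h1
              rw [← h6, zero_add] at h8
              exact h8
            have h8 := hcon' w hwW h7
            have h9 : w ∈ E k Q0 0 := by
              rw [hQz, hQ0, mem_compl_iff, mem_ball, dist_eq_norm]
              push Not
              exact h8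
            rw [← h6]
            exact h9
          · exact h6
        exact ⟨h1, hspos, h2, hwW, h4⟩
    · rintro w s ⟨h1, h2, h3, h4, h5⟩
      have hO : IsOpen {q : V × ℝ | 0 < q.2 ∧ q.1 ∈ W ∧ q ∉ Flow k Q0} := by
        have h6 : {q : V × ℝ | 0 < q.2 ∧ q.1 ∈ W ∧ q ∉ Flow k Q0}
            = {q : V × ℝ | 0 < q.2} ∩ ((fun q : V × ℝ => q.1) ⁻¹' W ∩ (Flow k Q0)ᶜ) := by
          ext q; rfl
        rw [h6]
        exact (isOpen_lt continuous_const continuous_snd).inter
          ((hWo.preimage continuous_fst).inter hcl1.isOpen_compl)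
      rw [Metric.isOpen_iff] at hO
      obtain ⟨rr, hrr, hsub⟩ := hO (w, s) ⟨h2, h4, h5⟩
      refine ⟨rr, hrr, ?_⟩
      intro v s' hv hs1 hs2 hvS
      have hin : (v, s') ∈ ball ((w, s) : V × ℝ) rr := by
        rw [mem_ball, Prod.dist_eq, max_lt_iff]
        constructor
        · rw [dist_eq_norm]; exact hv
        · rw [Real.dist_eq, abs_lt]; constructor <;> linarith
      have h6 := hsub hin
      exact ⟨hvS, h6.1, hs2.trans h3, h6.2.1, h6.2.2⟩
  have : (y, sg) ∈ C := by
    refine ⟨?_, hsg, le_rfl, hyW, hyQ⟩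
    show (y, sg + t') ∈ Flow k B
    rw [add_comm]
    exact hyS
  rw [hempty] at this
  exact this

end Pool.Agent.FCF
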