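import Pool.Agent.FCF.WBMax

/-!
# FCF / WBBad: the number of bad grid points

PROOF of `count_bd`. `Bd ∩ sqr L'` is contained in the union of `{y ∈ sqr L | y ∉ G}`, of the `y ∈ sqr L'`
with large average of `Phi` at some scale `j` (choose `l y = 2^j`, `dmax` with `Φ = Phi f ks P`,
`B = sqr L`; `ob y (2^j) ⊆ sqr L` as `L' + 2^J ≤ L`), and of the `y` with a large fraction of points
outside `G` (`dmax` with `Φ = indicator of Gᶜ`, the sum over `sqr L` is the number of points of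
`sqr L` outside `G`).
PROOF of `count_ex`. `dmax` with `Φ` = indicator of `Z'` and `B = sqr L`.
-/

set_option autoImplicit false

namespace Pool.Agent.FCF

open Set Metric

theorem wbbad_ob_subset {y : ℤ × ℤ} {L' L J j : ℕ} (hy : y ∈ sqr L') (hL : L' + 2 ^ J ≤ L)
    (hj : j ≤ J) : ob y (2 ^ j) ⊆ sqr L := by
  intro w hw
  have h1 : (2 : ℤ) ^ j ≤ 2 ^ J := pow_le_pow_right₀ (by norm_num) hj
  have h2 : (L' : ℤ) + 2 ^ J ≤ L := by exact_mod_cast hL
  simp only [sqr, Finset.mem_product, Finset.mem_Ico] at hy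
  simp only [ob, Finset.mem_product, Finset.mem_Ioo] at hw
  push_cast at hw
  simp only [sqr, Finset.mem_product, Finset.mem_Ico]
  omega

open Classical in
/-- The maximal inequality with a choice of dyadic scales. -/
theorem wbbad_max (Φ : ℤ × ℤ → ℝ) (hΦ : ∀ w, 0 ≤ Φ w) {lam : ℝ} (hlam : 0 < lam)
    {k J L' L : ℕ} (hL : L' + 2 ^ J ≤ L) :
    (((sqr L').filter (fun y => ∃ j, k ≤ j ∧ j ≤ J ∧
      lam * ((ob y (2 ^ j)).card : ℝ) < ∑ w ∈ ob y (2 ^ j), Φ w)).card : ℝ)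
      ≤ 9 / lam * ∑ w ∈ sqr L, Φ w := by
  set Z := (sqr L').filter (fun y => ∃ j, k ≤ j ∧ j ≤ J ∧
      lam * ((ob y (2 ^ j)).card : ℝ) < ∑ w ∈ ob y (2 ^ j), Φ w) with hZ
  have hex : ∀ y ∈ Z, ∃ j, k ≤ j ∧ j ≤ J ∧
      lam * ((ob y (2 ^ j)).card : ℝ) < ∑ w ∈ ob y (2 ^ j), Φ w := by
    intro y hy
    exact (Finset.mem_filter.1 hy).2
  choose! jj hj1 hj2 hj3 using hex
  have h := dmax Φ hΦ (sqr L) Z (fun y => 2 ^ jj y) hlam (by
    intro y hy
    exact ⟨Nat.one_le_two_pow, wbbad_ob_subset (Finset.mem_filter.1 hy).1 hL (hj2 y hy), hj3 y hy⟩)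
  rw [div_mul_eq_mul_div, le_div_iff₀ hlam]
  linarith [mul_comm lam (Z.card : ℝ)]

theorem wbbad_sum_ind (A : Finset (ℤ × ℤ)) (q : ℤ × ℤ → Prop) [DecidablePred q] :
    ∑ w ∈ A, (if q w then (1 : ℝ) else 0) = ((A.filter q).card : ℝ) := by
  rw [Finset.sum_boole]

open Classical in
theorem count_bd (f : ℤ × ℤ → ℝ) (ks : ℕ) (P : ℤ × ℤ → Bool → ℝ) (G : Set (ℤ × ℤ))
    {lam lam2 : ℝ} (hlam : 0 < lam) (hlam2 : 0 < lam2) {k J L' L : ℕ} (hL : L' + 2 ^ J ≤ L) :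
    (((sqr L').filter (fun y => y ∈ Bd f ks P G lam lam2 k J)).card : ℝ) ≤
      9 / lam * ∑ w ∈ sqr L, Phi f ks P w +
        (9 / lam2 + 1) * (((sqr L).filter (fun w => w ∉ G)).card : ℝ) := by
  set Z1 := (sqr L').filter (fun y => ∃ j, k ≤ j ∧ j ≤ J ∧
      lam * ((ob y (2 ^ j)).card : ℝ) < ∑ w ∈ ob y (2 ^ j), Phi f ks P w) with hZ1
  set Z2 := (sqr L').filter (fun y => ∃ j, k ≤ j ∧ j ≤ J ∧
      lam2 * ((ob y (2 ^ j)).card : ℝ) < ∑ w ∈ ob y (2 ^ j), (if w ∉ G then (1 : ℝ) else 0)) with hZ2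
  have h1 : ((Z1.card : ℕ) : ℝ) ≤ 9 / lam * ∑ w ∈ sqr L, Phi f ks P w :=
    wbbad_max (Phi f ks P) (fun w => by unfold Phi; positivity) hlam hL
  have h2 : ((Z2.card : ℕ) : ℝ) ≤ 9 / lam2 * ∑ w ∈ sqr L, (if w ∉ G then (1 : ℝ) else 0) :=
    wbbad_max (fun w => if w ∉ G then (1 : ℝ) else 0) (fun w => by split_ifs <;> norm_num) hlam2 hL
  rw [wbbad_sum_ind] at h2
  have hsub : (sqr L').filter (fun y => y ∈ Bd f ks P G lam lam2 k J) ⊆
      (Z1 ∪ Z2) ∪ (sqr L).filter (fun w => w ∉ G) := by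
    intro y hy
    obtain ⟨hy1, hy2⟩ := Finset.mem_filter.1 hy
    have hyL : y ∈ sqr L := by
      have h3 : (L' : ℤ) ≤ L := by
        have : L' ≤ L := le_trans (Nat.le_add_right _ _) hL
        exact_mod_cast this
      simp only [sqr, Finset.mem_product, Finset.mem_Ico] at hy1 ⊢
      omega
    rcases hy2 with hG | ⟨j, hj1, hj2, hj3 | hj3⟩
    · exact Finset.mem_union_right _ (Finset.mem_filter.2 ⟨hyL, hG⟩)
    · exact Finset.mem_union_left _ (Finset.mem_union_left _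
        (Finset.mem_filter.2 ⟨hy1, j, hj1, hj2, hj3⟩))
    · refine Finset.mem_union_left _ (Finset.mem_union_right _
        (Finset.mem_filter.2 ⟨hy1, j, hj1, hj2, ?_⟩))
      rw [wbbad_sum_ind]
      exact hj3
  have hcard : (((sqr L').filter (fun y => y ∈ Bd f ks P G lam lam2 k J)).card : ℝ) ≤
      (Z1.card : ℝ) + (Z2.card : ℝ) + (((sqr L).filter (fun w => w ∉ G)).card : ℝ) := by
    have h3 := (Finset.card_le_card hsub).trans
      ((Finset.card_union_le _ _).trans (Nat.add_le_add_right (Finset.card_union_le _ _) _))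
    exact_mod_cast h3
  calc _ ≤ _ := hcard
    _ ≤ 9 / lam * ∑ w ∈ sqr L, Phi f ks P w +
        9 / lam2 * (((sqr L).filter (fun w => w ∉ G)).card : ℝ) +
          (((sqr L).filter (fun w => w ∉ G)).card : ℝ) := by gcongr
    _ = _ := by ring

open Classical in
theorem count_ex (Z' : Set (ℤ × ℤ)) {del : ℝ} (hdel : 0 < del) {k J L' L : ℕ}
    (hL : L' + 2 ^ J ≤ L) :
    (((sqr L').filter (fun x => ∃ j, k ≤ j ∧ j ≤ J ∧
      del * ((ob x (2 ^ j)).card : ℝ) < (((ob x (2 ^ j)).filter (fun y => y ∈ Z')).card : ℝ))).card : ℝ)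
      ≤ 9 / del * (((sqr L).filter (fun y => y ∈ Z')).card : ℝ) := by
  have h := wbbad_max (k := k) (fun w => if w ∈ Z' then (1 : ℝ) else 0)
    (fun w => by split_ifs <;> norm_num) hdel hL
  simp only [wbbad_sum_ind] at h
  exact h

end Pool.Agent.FCF
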