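import Mathlib

/-!
# FCF / WBDiag: a diagonal subsequence

PROOF. The sequence `n ↦ (i ↦ e i n)` lives in the compact set `Set.pi univ (fun i => Icc (-A i) (A i))`
of `ι → ℝ` (`isCompact_univ_pi`), and `ι → ℝ` is first countable for countable `ι`
(`IsCompact.tendsto_subseq`); then `tendsto_pi_nhds`.
-/

set_option autoImplicit false

namespace Pool.Agent.FCF

open Filter Topology

theorem diag_subseq {ι : Type} [Countable ι] (e : ι → ℕ → ℝ) (A : ι → ℝ)
    (h : ∀ i n, |e i n| ≤ A i) :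
    ∃ φ : ℕ → ℕ, StrictMono φ ∧ ∀ i, ∃ l : ℝ, Tendsto (fun n => e i (φ n)) atTop (𝓝 l) := by
  have hK : IsCompact (Set.pi Set.univ (fun i : ι => Set.Icc (-A i) (A i))) :=
    isCompact_univ_pi (fun i => isCompact_Icc)
  obtain ⟨a, -, φ, hφ, hlim⟩ := hK.tendsto_subseq (x := fun n i => e i n) (fun n => by
    intro i _
    exact abs_le.1 (h i n))
  rw [tendsto_pi_nhds] at hlim
  exact ⟨φ, hφ, fun i => ⟨a i, hlim i⟩⟩

end Pool.Agent.FCF
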