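import Pool.Agent.FCF.WBEner

/-!
# FCF / WBField: the slowly varying field of slopes

PROOF. Let `e u k` be the limit of `E n u k := (∑_{w ∈ sqr (Ln n)} sec f u k w ^ 2) / (Ln n)^2`.
By `ener_mono` (divide by `(Ln n)^2`, `Ln n → ∞`): `e u k' ≤ e u k` for `k ≤ k'`; and `e u k ≥ 0`.
So `k ↦ e u k` converges (`tendsto_atTop_ciInf`), and there is `ks` with `e u ks - e u k' ≤ th / 4`
for all `k' ≥ ks` and both `u`. Given `k' ≥ ks`: by `ener_step` with `k = ks` there are `d u` with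
`∑ (sec f u ks w - sec f u k' (w - d u))^2 ≤ (E n u ks - E n u k') (Ln n)^2 + 10 A^2 2^k' (Ln n)
 ≤ th (Ln n)^2` for `n ≥ n0` (convergence of both energies within `th / 8` and
`10 A^2 2^k' ≤ th / 4 * Ln n`). Take `P w u = sec f u k' (w - d u)`; the bounds are `sec_bd` and
`sec_slow`.
-/

set_option autoImplicit false

namespace Pool.Agent.FCF

open Set Metric Filter Topology

theorem exists_field {A : ℝ} (hA : 0 ≤ A) {f : ℤ × ℤ → ℝ} (hf : LipZ A f) {Ln : ℕ → ℕ}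
    (hL : Tendsto Ln atTop atTop)
    (hconv : ∀ (u : Bool) (k : ℕ), ∃ l : ℝ,
      Tendsto (fun n => (∑ w ∈ sqr (Ln n), sec f u k w ^ 2) / (Ln n : ℝ) ^ 2) atTop (𝓝 l))
    {th : ℝ} (hth : 0 < th) :
    ∃ ks : ℕ, ∀ k' : ℕ, ks ≤ k' → ∃ n0 : ℕ, ∀ n : ℕ, n0 ≤ n →
      ∃ P : ℤ × ℤ → Bool → ℝ, (∀ w u, |P w u| ≤ A) ∧
        (∀ w w' u, |P w u - P w' u| ≤
          2 * A * (|(w.1 : ℝ) - w'.1| + |(w.2 : ℝ) - w'.2|) / 2 ^ k') ∧
        ∀ u : Bool, ∑ w ∈ sqr (Ln n), (sec f u ks w - P w u) ^ 2 ≤ th * (Ln n : ℝ) ^ 2 := by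
  choose e he using hconv
  have hLR : Tendsto (fun n => (Ln n : ℝ)) atTop atTop :=
    tendsto_natCast_atTop_atTop.comp hL
  have hLpos : ∀ᶠ n in atTop, 0 < (Ln n : ℝ) := hLR.eventually_gt_atTop 0
  have hinv : ∀ c : ℝ, Tendsto (fun n => c / (Ln n : ℝ)) atTop (𝓝 0) :=
    fun c => hLR.const_div_atTop c
  have hmono : ∀ u : Bool, ∀ k k' : ℕ, k ≤ k' → e u k' ≤ e u k := by
    intro u k k' hk
    have h1 : Tendsto (fun n => (∑ w ∈ sqr (Ln n), sec f u k w ^ 2) / (Ln n : ℝ) ^ 2 +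
        2 * A ^ 2 * 2 ^ k' / (Ln n : ℝ)) atTop (𝓝 (e u k + 0)) :=
      (he u k).add (hinv _)
    rw [add_zero] at h1
    refine le_of_tendsto_of_tendsto (he u k') h1 ?_
    filter_upwards [hLpos] with n hn
    have h2 := ener_mono hA hf u hk (Ln n)
    have h3 : (0 : ℝ) < (Ln n : ℝ) ^ 2 := by positivity
    rw [div_le_iff₀ h3, add_mul, div_mul_cancel₀ _ h3.ne']
    have h4 : 2 * A ^ 2 * 2 ^ k' / (Ln n : ℝ) * (Ln n : ℝ) ^ 2 =
        2 * A ^ 2 * 2 ^ k' * (Ln n : ℝ) := by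
      field_simp
    rw [h4]
    exact h2
  have hpos : ∀ u : Bool, ∀ k : ℕ, 0 ≤ e u k := fun u k =>
    ge_of_tendsto' (he u k) (fun n => div_nonneg (Finset.sum_nonneg (fun w _ => sq_nonneg _))
      (sq_nonneg _))
  have hks : ∀ u : Bool, ∃ k0 : ℕ, ∀ ks k' : ℕ, k0 ≤ ks → ks ≤ k' →
      e u ks - e u k' ≤ th / 4 := by
    intro u
    have hbd : BddBelow (Set.range (e u)) := ⟨0, by rintro _ ⟨k, rfl⟩; exact hpos u k⟩
    have h1 : Tendsto (e u) atTop (𝓝 (⨅ i, e u i)) :=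
      tendsto_atTop_ciInf (fun a b hab => hmono u a b hab) hbd
    have h2 : ∀ᶠ k in atTop, e u k < (⨅ i, e u i) + th / 4 :=
      h1.eventually_lt_const (by linarith)
    obtain ⟨k0, hk0⟩ := eventually_atTop.1 h2
    refine ⟨k0, fun ks k' h3 _ => ?_⟩
    have h4 := hk0 ks h3
    have h5 := ciInf_le hbd k'
    linarith
  obtain ⟨k1, hk1⟩ := hks true
  obtain ⟨k2, hk2⟩ := hks false
  refine ⟨max k1 k2, fun k' hk' => ?_⟩
  have hgap : ∀ u : Bool, e u (max k1 k2) - e u k' ≤ th / 4 := by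
    intro u
    cases u with
    | true => exact hk1 _ _ (le_max_left _ _) hk'
    | false => exact hk2 _ _ (le_max_right _ _) hk'
  set ks := max k1 k2 with hksdef
  have hev : ∀ u : Bool, ∀ᶠ n in atTop,
      (∑ w ∈ sqr (Ln n), sec f u ks w ^ 2) / (Ln n : ℝ) ^ 2 < e u ks + th / 8 ∧
      e u k' - th / 8 < (∑ w ∈ sqr (Ln n), sec f u k' w ^ 2) / (Ln n : ℝ) ^ 2 := by
    intro u
    exact ((he u ks).eventually_lt_const (by linarith)).and
      ((he u k').eventually_const_lt (by linarith))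
  have hsm : ∀ᶠ n in atTop, 10 * A ^ 2 * 2 ^ k' / (Ln n : ℝ) < th / 4 :=
    (hinv _).eventually_lt_const (by linarith)
  obtain ⟨n0, hn0⟩ := eventually_atTop.1 (hLpos.and ((hev true).and ((hev false).and hsm)))
  refine ⟨n0, fun n hn => ?_⟩
  obtain ⟨hL0, hT, hF, hS⟩ := hn0 n hn
  have hall : ∀ u : Bool,
      (∑ w ∈ sqr (Ln n), sec f u ks w ^ 2) / (Ln n : ℝ) ^ 2 < e u ks + th / 8 ∧
      e u k' - th / 8 < (∑ w ∈ sqr (Ln n), sec f u k' w ^ 2) / (Ln n : ℝ) ^ 2 := by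
    intro u
    cases u with
    | true => exact hT
    | false => exact hF
  choose d hd using fun u : Bool => ener_step hA hf u hk' (Ln n)
  refine ⟨fun w u => sec f u k' (w - d u), fun w u => sec_bd hf u k' _, fun w w' u => ?_,
    fun u => ?_⟩
  · have h1 := sec_slow hf u k' (w - d u) (w' - d u)
    have h2 : (((w - d u).1 : ℤ) : ℝ) - ((w' - d u).1 : ℤ) = (w.1 : ℝ) - w'.1 := by
      rw [Prod.fst_sub, Prod.fst_sub]
      push_cast
      ring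
    have h3 : (((w - d u).2 : ℤ) : ℝ) - ((w' - d u).2 : ℤ) = (w.2 : ℝ) - w'.2 := by
      rw [Prod.snd_sub, Prod.snd_sub]
      push_cast
      ring
    rw [h2, h3] at h1
    exact h1
  · refine (hd u).trans ?_
    obtain ⟨h1, h2⟩ := hall u
    have h3 : (0 : ℝ) < (Ln n : ℝ) ^ 2 := by positivity
    rw [div_lt_iff₀ h3] at h1
    rw [lt_div_iff₀ h3] at h2
    rw [div_lt_iff₀ hL0] at hS
    have h4 := hgap u
    have h5 : 10 * A ^ 2 * 2 ^ k' * (Ln n : ℝ) ≤ th / 4 * (Ln n : ℝ) ^ 2 := by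
      have := mul_le_mul_of_nonneg_right hS.le hL0.le
      calc 10 * A ^ 2 * 2 ^ k' * (Ln n : ℝ) ≤ th / 4 * (Ln n : ℝ) * (Ln n : ℝ) := this
        _ = th / 4 * (Ln n : ℝ) ^ 2 := by ring
    have h6 : (e u ks - e u k') * (Ln n : ℝ) ^ 2 ≤ th / 4 * (Ln n : ℝ) ^ 2 :=
      mul_le_mul_of_nonneg_right h4 h3.le
    nlinarith

end Pool.Agent.FCF
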