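import Pool.Agent.FCF.WBWin
import Pool.Agent.FCF.WBField
import Pool.Agent.FCF.WBBad
import Pool.Agent.FCF.WBDiag

/-!
# FCF / WBA: most grid points have windows
-/

set_option autoImplicit false

namespace Pool.Agent.FCF

open Pool.Agent.VSC (V J LowJet)
open Set Metric MeasureTheory Filter Topology EnvT

private theorem WBA_gp0 (n : ℤ × ℤ) : gp n 0 = (n.1 : ℝ) := by simp [gp]

private theorem WBA_gp1 (n : ℤ × ℤ) : gp n 1 = (n.2 : ℝ) := by simp [gp]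

theorem wba_gp_add (m n : ℤ × ℤ) : gp (m + n) = gp m + gp n := by
  ext i
  fin_cases i <;> simp [gp]

theorem wba_abs_coord (v : V) (i : Fin 2) : |v i| ≤ ‖v‖ := by
  have := PiLp.norm_apply_le v i
  simpa [Real.norm_eq_abs] using this

theorem wba_norm_le {v : V} {e : ℝ} (he : 0 ≤ e) (h : ∀ i, |v i| ≤ e) : ‖v‖ ≤ 2 * e := by
  rw [EuclideanSpace.norm_eq, Fin.sum_univ_two]
  have h0 := h 0
  have h1 := h 1
  simp only [Real.norm_eq_abs, sq_abs]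
  apply Real.sqrt_le_iff.2
  constructor
  · linarith
  · have h2 := sq_le_sq' (by linarith [abs_le.1 h0]) (abs_le.1 h0).2
    have h3 := sq_le_sq' (by linarith [abs_le.1 h1]) (abs_le.1 h1).2
    nlinarith

/-- Choice of the dyadic scale. -/
theorem wba_scale {d : ℝ} {k K : ℕ} (hkK : k ≤ K) (hd : d ≤ 2 ^ K) :
    ∃ j : ℕ, k ≤ j ∧ j ≤ K ∧ d ≤ 2 ^ j ∧ (2 : ℝ) ^ j ≤ 2 * max d (2 ^ k) := by
  classical
  by_cases h : d ≤ 2 ^ k
  · refine ⟨k, le_rfl, hkK, h, ?_⟩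
    have h1 : (2 : ℝ) ^ k ≤ max d (2 ^ k) := le_max_right _ _
    have h2 : (0 : ℝ) < 2 ^ k := by positivity
    linarith
  · have hex : ∃ j : ℕ, d ≤ 2 ^ j := ⟨K, hd⟩
    have h1 := Nat.find_spec hex
    have h2 : Nat.find hex ≤ K := Nat.find_min' hex hd
    have h3 : k < Nat.find hex := by
      by_contra hcon
      push Not at hcon
      apply h
      exact h1.trans (pow_le_pow_right₀ (by norm_num) hcon)
    refine ⟨Nat.find hex, h3.le, h2, h1, ?_⟩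
    have h4 : ¬ d ≤ 2 ^ (Nat.find hex - 1) := Nat.find_min hex (by omega)
    push Not at h4
    have h5 : (2 : ℝ) ^ (Nat.find hex) = 2 * 2 ^ (Nat.find hex - 1) := by
      rw [← pow_succ']
      congr 1
      omega
    rw [h5]
    have h6 : d ≤ max d (2 ^ k) := le_max_left _ _
    linarith

theorem wba_norm_vec {A : ℝ} (hA : 0 ≤ A) {P : Bool → ℝ} (h : ∀ u, |P u| ≤ A) :
    ‖vec P‖ ≤ 2 * A := by
  refine wba_norm_le hA fun i => ?_
  fin_cases i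
  · exact h true
  · exact h false

open Classical in
/-- Change of the field inside one window. -/
theorem wba_phi_const {f : ℤ × ℤ → ℝ} {ks : ℕ} {P : ℤ × ℤ → Bool → ℝ} {lam t1 : ℝ}
    (ht1 : t1 ^ 2 ≤ lam / 8) {S : Finset (ℤ × ℤ)} {x : ℤ × ℤ}
    (hs : ∀ w ∈ S, ∀ u, |P w u - P x u| ≤ t1)
    (h : ¬ lam / 4 * (S.card : ℝ) < ∑ w ∈ S, Phi f ks P w) :
    ∑ w ∈ S, ((sec f true ks w - P x true) ^ 2 + (sec f false ks w - P x false) ^ 2)
      ≤ lam * (S.card : ℝ) := by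
  push Not at h
  have h1 : ∀ w ∈ S, (sec f true ks w - P x true) ^ 2 + (sec f false ks w - P x false) ^ 2 ≤
      2 * Phi f ks P w + lam / 2 := by
    intro w hw
    have h2 := hs w hw true
    have h3 := hs w hw false
    have h4 : (P w true - P x true) ^ 2 ≤ t1 ^ 2 := by
      rw [← sq_abs]
      exact pow_le_pow_left₀ (abs_nonneg _) h2 2
    have h5 : (P w false - P x false) ^ 2 ≤ t1 ^ 2 := by
      rw [← sq_abs]
      exact pow_le_pow_left₀ (abs_nonneg _) h3 2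
    unfold Phi
    nlinarith [sq_nonneg ((sec f true ks w - P w true) - (P w true - P x true)),
      sq_nonneg ((sec f false ks w - P w false) - (P w false - P x false))]
  calc ∑ w ∈ S, ((sec f true ks w - P x true) ^ 2 + (sec f false ks w - P x false) ^ 2)
      ≤ ∑ w ∈ S, (2 * Phi f ks P w + lam / 2) := Finset.sum_le_sum h1
    _ = 2 * ∑ w ∈ S, Phi f ks P w + S.card * (lam / 2) := by
        rw [Finset.sum_add_distrib, ← Finset.mul_sum, Finset.sum_const, nsmul_eq_mul]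
    _ ≤ lam * (S.card : ℝ) := by nlinarith

open Classical in
/-- Planarity around the good points, with the slope of the centre of the window. -/
theorem wba_plan_window {A eps' lam lam2 r0 t1 : ℝ} (hA : 0 ≤ A) (heps : 0 ≤ eps') (hlam2 : 0 ≤ lam2)
    {m0 ks k J k' : ℕ}
    {T f : V → ℝ} {G : Set V} {P : ℤ × ℤ → Bool → ℝ}
    (hV : ∀ (ks j : ℕ) (y : ℤ × ℤ) (P : Bool → ℝ), (∀ u, |P u| ≤ A) → ks + m0 ≤ j →
      r0 ≤ lam2 * 2 ^ j → gp y ∈ G →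
      ∑ w ∈ ob y (2 ^ (j + 2)), ((sec (fun m => f (gp m)) true ks w - P true) ^ 2 +
          (sec (fun m => f (gp m)) false ks w - P false) ^ 2)
        ≤ lam * ((ob y (2 ^ (j + 2))).card : ℝ) →
      (((ob y (2 ^ (j + 2))).filter (fun w => gp w ∉ G)).card : ℝ)
        ≤ lam2 * ((ob y (2 ^ (j + 2))).card : ℝ) →
      ∀ z : V, (∀ i, |z i - gp y i| ≤ 2 ^ j) →
        |T z - T (gp y) - inner ℝ (vec P) (z - gp y)| ≤ eps' * 2 ^ j)
    (hP : ∀ w u, |P w u| ≤ A)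
    (hslow : ∀ w w' u, |P w u - P w' u| ≤
      2 * A * (|(w.1 : ℝ) - w'.1| + |(w.2 : ℝ) - w'.2|) / 2 ^ k')
    (hkJ : k ≤ J) (hks : ks + m0 ≤ k) (hr : r0 ≤ lam2 * 2 ^ k)
    (hk' : A * 2 ^ (J + 7) ≤ t1 * 2 ^ k') (ht1 : t1 ^ 2 ≤ lam / 8) {x y : ℤ × ℤ}
    (hx1 : |(y.1 : ℝ) - x.1| ≤ 2 ^ J) (hx2 : |(y.2 : ℝ) - x.2| ≤ 2 ^ J)
    (hy : y ∉ Bd (fun m => f (gp m)) ks P {w | gp w ∈ G} (lam / 4) lam2 (k + 2) (J + 4))
    {z : V} (hz : ‖z - gp y‖ ≤ 2 ^ (J + 2)) :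
    |T z - T (gp y) - inner ℝ (vec (P x)) (z - gp y)| ≤ 2 * eps' * max ‖z - gp y‖ (2 ^ k) := by
  obtain ⟨j, hj1, hj2, hj3, hj4⟩ := wba_scale (k := k) (K := J + 2) (by omega) hz
  have hy' : y ∈ {w | gp w ∈ G} ∧ ∀ j, k + 2 ≤ j → j ≤ J + 4 →
      ¬ (lam / 4 * ((ob y (2 ^ j)).card : ℝ) <
        ∑ w ∈ ob y (2 ^ j), Phi (fun m => f (gp m)) ks P w) ∧
      ¬ (lam2 * ((ob y (2 ^ j)).card : ℝ) <
        (((ob y (2 ^ j)).filter (fun w => w ∉ {w | gp w ∈ G})).card : ℝ)) := by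
    constructor
    · by_contra hcon
      exact hy (Or.inl hcon)
    · intro j h1 h2
      constructor
      · intro h3
        exact hy (Or.inr ⟨j, h1, h2, Or.inl h3⟩)
      · intro h3
        exact hy (Or.inr ⟨j, h1, h2, Or.inr h3⟩)
  obtain ⟨hG, hBd⟩ := hy'
  obtain ⟨hb1, hb2⟩ := hBd (j + 2) (by omega) (by omega)
  have hpow : (2 : ℝ) ^ k ≤ 2 ^ j := pow_le_pow_right₀ (by norm_num) hj1
  have hs : ∀ w ∈ ob y (2 ^ (j + 2)), ∀ u, |P w u - P x u| ≤ t1 := by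
    intro w hw u
    obtain ⟨hw1, hw2⟩ := mem_ob.1 hw
    have e1 : |(w.1 : ℝ) - y.1| ≤ 2 ^ (j + 2) := by
      have : (|w.1 - y.1| : ℤ) ≤ ((2 ^ (j + 2) : ℕ) : ℤ) := hw1.le
      have h3 : ((|w.1 - y.1| : ℤ) : ℝ) ≤ (((2 ^ (j + 2) : ℕ) : ℤ) : ℝ) := by exact_mod_cast this
      simpa using h3
    have e2 : |(w.2 : ℝ) - y.2| ≤ 2 ^ (j + 2) := by
      have : (|w.2 - y.2| : ℤ) ≤ ((2 ^ (j + 2) : ℕ) : ℤ) := hw2.le
      have h3 : ((|w.2 - y.2| : ℤ) : ℝ) ≤ (((2 ^ (j + 2) : ℕ) : ℤ) : ℝ) := by exact_mod_cast this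
      simpa using h3
    have e3 : (2 : ℝ) ^ (j + 2) ≤ 2 ^ (J + 4) := pow_le_pow_right₀ (by norm_num) (by omega)
    have e4 : (2 : ℝ) ^ J ≤ 2 ^ (J + 4) := pow_le_pow_right₀ (by norm_num) (by omega)
    have e5 : |(w.1 : ℝ) - x.1| ≤ 2 * 2 ^ (J + 4) := by
      have := abs_sub_le (w.1 : ℝ) y.1 x.1
      linarith
    have e6 : |(w.2 : ℝ) - x.2| ≤ 2 * 2 ^ (J + 4) := by
      have := abs_sub_le (w.2 : ℝ) y.2 x.2
      linarith
    have e7 := hslow w x u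
    refine e7.trans ?_
    rw [div_le_iff₀ (by positivity)]
    refine le_trans ?_ hk'
    have e8 : (2 : ℝ) ^ (J + 7) = 8 * 2 ^ (J + 4) := by ring
    rw [e8]
    have e9 : |(w.1 : ℝ) - x.1| + |(w.2 : ℝ) - x.2| ≤ 4 * 2 ^ (J + 4) := by linarith
    have := mul_le_mul_of_nonneg_left e9 (by linarith : 0 ≤ 2 * A)
    linarith
  have h1 := hV ks j y (P x) (hP x) (by omega) (hr.trans (mul_le_mul_of_nonneg_left hpow hlam2)) hG
    (wba_phi_const ht1 hs hb1) (by push Not at hb2; exact hb2) z (fun i => by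
      have := wba_abs_coord (z - gp y) i
      have h2 : (z - gp y) i = z i - gp y i := rfl
      rw [h2] at this
      linarith)
  refine h1.trans ?_
  have := mul_le_mul_of_nonneg_left hj4 heps
  linarith

open Classical in
theorem wba_card_box (x : ℤ × ℤ) (j : ℕ) (q : ℤ × ℤ → Prop) :
    ((box j).filter (fun n => q (x + n))).card = ((ob x (2 ^ j)).filter q).card := by
  refine Finset.card_bij (fun n _ => x + n) ?_ ?_ ?_
  · intro n hn
    rw [Finset.mem_filter] at hn ⊢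
    refine ⟨?_, hn.2⟩
    have h1 := hn.1
    unfold box at h1
    unfold ob
    rw [Finset.mem_product, Finset.mem_Ioo, Finset.mem_Ioo] at h1 ⊢
    obtain ⟨⟨h2, h3⟩, h4, h5⟩ := h1
    push_cast
    refine ⟨⟨?_, ?_⟩, ?_, ?_⟩
    · show x.1 - 2 ^ j < x.1 + n.1
      linarith
    · show x.1 + n.1 < x.1 + 2 ^ j
      linarith
    · show x.2 - 2 ^ j < x.2 + n.2
      linarith
    · show x.2 + n.2 < x.2 + 2 ^ j
      linarith
  · intro a _ b _ h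
    exact add_left_cancel h
  · intro y hy
    rw [Finset.mem_filter] at hy
    refine ⟨y - x, ?_, by abel⟩
    rw [Finset.mem_filter]
    refine ⟨?_, by rw [show x + (y - x) = y by abel]; exact hy.2⟩
    have h1 := hy.1
    unfold ob at h1
    unfold box
    rw [Finset.mem_product, Finset.mem_Ioo, Finset.mem_Ioo] at h1 ⊢
    push_cast at h1
    obtain ⟨⟨h2, h3⟩, h4, h5⟩ := h1
    refine ⟨⟨?_, ?_⟩, ?_, ?_⟩
    · show -2 ^ j < y.1 - x.1
      linarith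
    · show y.1 - x.1 < 2 ^ j
      linarith
    · show -2 ^ j < y.2 - x.2
      linarith
    · show y.2 - x.2 < 2 ^ j
      linarith

open Classical in
/-- The window around a good centre. -/
theorem wba_window_at {M L : ℝ} {p : Par} {c : EnvT M L} (henv : p.Env c.1) {e : V}
    {A0 B0 : Set V} {TE TO : V → ℝ} {C g : ℝ} (hcan : Canon p c.1 e A0 B0 TE TO C g)
    {B : Set (ℤ × ℤ)} {eps del : ℝ} (heps : 0 < eps) {k J : ℕ} {x : ℤ × ℤ} {P : V}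
    (hxB : x ∉ B) (hbox : ∀ z ∈ oc J, C < inner ℝ (gp x + z) e)
    (hdens : ∀ j, k ≤ j → j ≤ J → ¬ (del * ((ob x (2 ^ j)).card : ℝ) <
      (((ob x (2 ^ j)).filter (fun y => y ∈ B)).card : ℝ)))
    (hplan : ∀ y, y ∉ B → |(y.1 : ℝ) - x.1| ≤ 2 ^ J → |(y.2 : ℝ) - x.2| ≤ 2 ^ J → ∀ z : V,
      ‖z - gp y‖ ≤ 2 ^ (J + 2) →
        |TE z - TE (gp y) - inner ℝ P (z - gp y)| ≤ eps / 2 * max ‖z - gp y‖ (2 ^ k))
    (hkJ : k ≤ J) (hC : 2 * C ≤ eps / 2 * 2 ^ k) :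
    WinG p (shift (gp x) c).1 P eps del k J ∧
      (∀ z, ‖z - gp x‖ ≤ 2 ^ k → |TE z - TE (gp x) - inner ℝ P (z - gp x)| ≤ eps * 2 ^ k) ∧
      (∀ z, ‖z - gp x‖ ≤ 2 ^ k → |TO z - TO (gp x) - inner ℝ P (z - gp x)| ≤ eps * 2 ^ k) := by
  have hE : ∀ z, ‖z - gp x‖ ≤ 2 ^ k →
      |TE z - TE (gp x) - inner ℝ P (z - gp x)| ≤ eps / 2 * 2 ^ k := by
    intro z hz
    have h1 : (2 : ℝ) ^ k ≤ 2 ^ (J + 2) := pow_le_pow_right₀ (by norm_num) (by omega)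
    have h2 := hplan x hxB (by simp) (by simp) z (hz.trans h1)
    rwa [max_eq_right hz] at h2
  have hpk : (0 : ℝ) < 2 ^ k := by positivity
  refine ⟨?_, fun z hz => ?_, fun z hz => ?_⟩
  · refine winG_of_planar henv hcan heps (Y := {n | x + n ∉ B}) hbox ?_ ?_ hC
    · intro j hj1 hj2
      have h1 := hdens j hj1 hj2
      push Not at h1
      have h2 := wba_card_box x j (fun y => y ∈ B)
      have h3 := wba_card_box x j (fun _ => True)
      simp only [Finset.filter_true] at h3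
      rw [h3]
      refine le_trans (le_of_eq ?_) h1
      rw [← h2]
      congr 1
      congr 1
      ext n
      simp
    · intro n hn hno z hz
      have h1 : gp x + gp n = gp (x + n) := (wba_gp_add x n).symm
      have h2 := hno 0
      have h3 := hno 1
      rw [WBA_gp0] at h2
      rw [WBA_gp1] at h3
      have h4 : gp x + z - gp (x + n) = z - gp n := by
        rw [wba_gp_add]
        abel
      have h5 : ‖z - gp n‖ ≤ 2 ^ (J + 2) := by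
        have h6 : ‖z - gp n‖ ≤ 2 * (2 * 2 ^ J) := by
          refine wba_norm_le (by positivity) fun i => ?_
          have h7 : (z - gp n) i = z i - gp n i := rfl
          rw [h7]
          have h8 := hz i
          have h9 := hno i
          have h10 := abs_sub (z i) (gp n i)
          linarith
        calc ‖z - gp n‖ ≤ 2 * (2 * 2 ^ J) := h6
          _ = 2 ^ (J + 2) := by ring
      have h6 := hplan (x + n) hn (by
        have : (((x + n).1 : ℤ) : ℝ) - x.1 = n.1 := by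
          rw [Prod.fst_add]; push_cast; ring
        rw [this]; exact h2.le) (by
        have : (((x + n).2 : ℤ) : ℝ) - x.2 = n.2 := by
          rw [Prod.snd_add]; push_cast; ring
        rw [this]; exact h3.le) (gp x + z) (by rw [h4]; exact h5)
      rw [h4] at h6
      rw [h1]
      exact h6
  · have := hE z hz
    nlinarith
  · have h1 := hE z hz
    have h5 := abs_le.1 (hcan.near z)
    have h6 := abs_le.1 (hcan.near (gp x))
    rw [abs_le] at h1 ⊢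
    constructor <;> nlinarith

open Classical in
/-- The number of bad centres. -/
theorem wba_count {f : ℤ × ℤ → ℝ} {ks : ℕ} {P : ℤ × ℤ → Bool → ℝ} {G : Set (ℤ × ℤ)}
    {lam4 lam2 del : ℝ} (hlam4 : 0 < lam4) (hlam2 : 0 < lam2) (hdel : 0 < del) {k J L1 L2 L : ℕ}
    (h12 : L1 + 2 ^ J ≤ L2) (h2 : L2 + 2 ^ (J + 4) ≤ L) {Z : Finset (ℤ × ℤ)}
    (hZ1 : ∀ m ∈ Z, m ∈ sqr L1)
    (hZ2 : ∀ m ∈ Z, m ∉ Bd f ks P G lam4 lam2 (k + 2) (J + 4) → ∃ j, k ≤ j ∧ j ≤ J ∧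
      del * ((ob m (2 ^ j)).card : ℝ) < (((ob m (2 ^ j)).filter
        (fun y => y ∈ Bd f ks P G lam4 lam2 (k + 2) (J + 4))).card : ℝ)) :
    (Z.card : ℝ) ≤ (1 + 9 / del) * (9 / lam4 * ∑ w ∈ sqr L, Phi f ks P w +
        (9 / lam2 + 1) * (((sqr L).filter (fun w => w ∉ G)).card : ℝ)) := by
  set B := Bd f ks P G lam4 lam2 (k + 2) (J + 4) with hB
  have h3 := count_bd f ks P G hlam4 hlam2 (k := k + 2) h2
  rw [← hB] at h3
  have h4 := count_ex B hdel (k := k) h12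
  have hsub : sqr L1 ⊆ sqr L2 := by
    intro m hm
    unfold sqr at hm ⊢
    rw [Finset.mem_product, Finset.mem_Ico, Finset.mem_Ico] at hm ⊢
    have h5 : (L1 : ℤ) ≤ L2 := by
      have : L1 ≤ L2 := le_trans (Nat.le_add_right _ _) h12
      exact_mod_cast this
    omega
  have h5 : Z ⊆ (sqr L2).filter (fun y => y ∈ B) ∪ (sqr L1).filter (fun x => ∃ j, k ≤ j ∧ j ≤ J ∧
      del * ((ob x (2 ^ j)).card : ℝ) < (((ob x (2 ^ j)).filter (fun y => y ∈ B)).card : ℝ)) := by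
    intro m hm
    rw [Finset.mem_union, Finset.mem_filter, Finset.mem_filter]
    by_cases hmB : m ∈ B
    · exact Or.inl ⟨hsub (hZ1 m hm), hmB⟩
    · exact Or.inr ⟨hZ1 m hm, hZ2 m hm hmB⟩
  have h6 := (Finset.card_le_card h5).trans (Finset.card_union_le _ _)
  have h7 : (Z.card : ℝ) ≤ (((sqr L2).filter (fun y => y ∈ B)).card : ℝ) +
      (((sqr L1).filter (fun x => ∃ j, k ≤ j ∧ j ≤ J ∧
        del * ((ob x (2 ^ j)).card : ℝ) <
          (((ob x (2 ^ j)).filter (fun y => y ∈ B)).card : ℝ))).card : ℝ) := by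
    exact_mod_cast h6
  have h8 : (0 : ℝ) ≤ 9 / del := by positivity
  calc (Z.card : ℝ) ≤ (1 + 9 / del) * (((sqr L2).filter (fun y => y ∈ B)).card : ℝ) := by
        linarith
    _ ≤ _ := mul_le_mul_of_nonneg_left h3 (by linarith)

/-- The family of regularised arrival functions. -/
theorem wba_family {p : Par} {c : V → ℝ} {T : V → ℝ} {C : ℝ} (hT0 : ∀ x, 0 ≤ T x)
    (hcl : ∀ x r, 1 ≤ r → p.fine c x r → C ≤ r →
      ∀ y z, ‖y - x‖ < 9 * r → ‖z - x‖ < 9 * r → |T y - T z| ≤ p.C3 * r) (r1 : ℕ) :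
    ∃ f : V → ℝ, (∀ x y, |f x - f y| ≤ p.C3 * ‖x - y‖) ∧
      ((1 : ℝ) ≤ r1 → C ≤ r1 → (Gd p c r1).Nonempty →
        ∀ x ∈ Gd p c r1, |f x - T x| ≤ p.C3 * r1) := by
  have hA : 0 ≤ p.C3 := by linarith [p.one_le_C3]
  by_cases h : (1 : ℝ) ≤ r1 ∧ C ≤ r1 ∧ (Gd p c r1).Nonempty
  · obtain ⟨f, hf1, hf2, -⟩ := exists_reg hT0 hcl h.1 h.2.1 h.2.2
    refine ⟨f, hf1, fun _ _ _ x hx => ?_⟩
    obtain ⟨h1, h2⟩ := hf2 x hx
    have h3 : 0 ≤ p.C3 * (r1 : ℝ) := mul_nonneg hA (Nat.cast_nonneg _)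
    rw [abs_le]
    constructor <;> linarith
  · refine ⟨fun _ => 0, fun x y => ?_, fun h1 h2 h3 => absurd ⟨h1, h2, h3⟩ h⟩
    simpa using mul_nonneg hA (norm_nonneg _)

theorem wba_lipZ {A : ℝ} {f : V → ℝ} (hf : ∀ x y, |f x - f y| ≤ A * ‖x - y‖) :
    LipZ A (fun m => f (gp m)) := by
  intro w u
  have h1 : ‖gp (w + eu u) - gp w‖ = 1 := by
    rw [EuclideanSpace.norm_eq, Fin.sum_univ_two]
    cases u <;> simp [gp, eu]
  have h2 := hf (gp (w + eu u)) (gp w)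
  rwa [h1, mul_one] at h2

theorem wba_card_sqr (L : ℕ) : (sqr L).card = (2 * L) ^ 2 := by
  unfold sqr
  rw [Finset.card_product, Int.card_Ico]
  have : ((L : ℤ) - -(L : ℤ)).toNat = 2 * L := by omega
  rw [this]
  ring

theorem wba_ener_bd {A : ℝ} {f : ℤ × ℤ → ℝ} (hf : LipZ A f) (u : Bool) (k L : ℕ) :
    |(∑ w ∈ sqr L, sec f u k w ^ 2) / (L : ℝ) ^ 2| ≤ 4 * A ^ 2 := by
  have h0 : 0 ≤ ∑ w ∈ sqr L, sec f u k w ^ 2 := Finset.sum_nonneg fun w _ => sq_nonneg _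
  rw [abs_of_nonneg (by positivity)]
  rcases Nat.eq_zero_or_pos L with hL | hL
  · subst hL
    simp only [Nat.cast_zero, ne_eq, OfNat.ofNat_ne_zero, not_false_eq_true, zero_pow, div_zero]
    positivity
  · have hL' : (0 : ℝ) < L := by exact_mod_cast hL
    rw [div_le_iff₀ (by positivity)]
    have h1 : ∑ w ∈ sqr L, sec f u k w ^ 2 ≤ ∑ w ∈ sqr L, A ^ 2 := by
      refine Finset.sum_le_sum fun w _ => ?_
      rw [← sq_abs]
      exact pow_le_pow_left₀ (abs_nonneg _) (sec_bd hf u k w) 2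
    rw [Finset.sum_const, wba_card_sqr, nsmul_eq_mul] at h1
    push_cast at h1
    nlinarith

theorem wba_mem_sqr {m : ℤ × ℤ} {L : ℕ} (h0 : |gp m 0| < L) (h1 : |gp m 1| < L) : m ∈ sqr L := by
  rw [WBA_gp0, abs_lt] at h0
  rw [WBA_gp1, abs_lt] at h1
  unfold sqr
  rw [Finset.mem_product, Finset.mem_Ico, Finset.mem_Ico]
  obtain ⟨h2, h3⟩ := h0
  obtain ⟨h4, h5⟩ := h1
  have g2 : -(L : ℝ) < (m.1 : ℝ) := h2
  have g3 : (m.1 : ℝ) < (L : ℝ) := h3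
  have g4 : -(L : ℝ) < (m.2 : ℝ) := h4
  have g5 : (m.2 : ℝ) < (L : ℝ) := h5
  have h2' : -(L : ℤ) < m.1 := by exact_mod_cast g2
  have h3' : m.1 < (L : ℤ) := by exact_mod_cast g3
  have h4' : -(L : ℤ) < m.2 := by exact_mod_cast g4
  have h5' : m.2 < (L : ℤ) := by exact_mod_cast g5
  exact ⟨⟨h2'.le, h3'⟩, h4'.le, h5'⟩

theorem wba_sqr_bd {m : ℤ × ℤ} {L : ℕ} (h : m ∈ sqr L) (i : Fin 2) : |gp m i| ≤ L := by
  unfold sqr at h
  rw [Finset.mem_product, Finset.mem_Ico, Finset.mem_Ico] at h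
  obtain ⟨⟨h2, h3⟩, h4, h5⟩ := h
  have h2' : -(L : ℝ) ≤ m.1 := by exact_mod_cast h2
  have h3' : (m.1 : ℝ) ≤ (L : ℝ) := by exact_mod_cast h3.le
  have h4' : -(L : ℝ) ≤ m.2 := by exact_mod_cast h4
  have h5' : (m.2 : ℝ) ≤ (L : ℝ) := by exact_mod_cast h5.le
  fin_cases i
  · show |gp m 0| ≤ L
    rw [WBA_gp0, abs_le]
    exact ⟨h2', h3'⟩
  · show |gp m 1| ≤ L
    rw [WBA_gp1, abs_le]
    exact ⟨h4', h5'⟩

open Classical in
theorem wba_gd_nonempty {p : Par} {c : V → ℝ} {r1 R0 dG : ℝ} (hdG : dG ≤ 1)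
    (h : ∀ R : ℝ, R0 ≤ R → ∀ Z : Finset (ℤ × ℤ), (∀ m ∈ Z, (∀ i, |gp m i| ≤ R) ∧
      gp m ∉ Gd p c r1) → (Z.card : ℝ) ≤ dG * R ^ 2) : (Gd p c r1).Nonempty := by
  by_contra hcon
  rw [Set.not_nonempty_iff_eq_empty] at hcon
  obtain ⟨N, hN⟩ := exists_nat_ge (max R0 1)
  have h1 := h N ((le_max_left _ _).trans hN) (sqr N) (fun m hm =>
    ⟨wba_sqr_bd hm, by rw [hcon]; simp⟩)
  rw [wba_card_sqr] at h1
  push_cast at h1
  have h2 : (1 : ℝ) ≤ N := (le_max_right _ _).trans hN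
  nlinarith

open Classical in
/-- Most grid points have windows, along a subsequence. -/
theorem stepA {M L : ℝ} {p : Par} {c : EnvT M L} (henv : p.Env c.1) (hbad : BadRect p c.1)
    {e : V} (he : ‖e‖ = 1) {A0 B0 : Set V}
    {TE TO : V → ℝ} {C g : ℝ} (hcan : Canon p c.1 e A0 B0 TE TO C g) {R : ℕ → ℝ}
    (hR : Tendsto R atTop atTop) :
    ∃ φ : ℕ → ℕ, StrictMono φ ∧ ∀ eps : ℝ, 0 < eps → ∀ del : ℝ, 0 < del → ∀ eta : ℝ, 0 < eta →
      ∀ Kq : ℝ, 1 ≤ Kq → ∃ k2 : ℕ, ∀ k : ℕ, k2 ≤ k → ∀ J : ℕ, k ≤ J → ∃ n0 : ℕ, ∀ n : ℕ, n0 ≤ n →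
        ∀ Z : Finset (ℤ × ℤ), (∀ m ∈ Z, (∀ i, |gp m i| ≤ Kq * R (φ n)) ∧
          eta * R (φ n) ≤ inner ℝ (gp m) e ∧ ¬ ∃ P : V, ‖P‖ ≤ 2 * p.C3 ∧
            WinG p (shift (gp m) c).1 P eps del k J ∧
            (∀ z, ‖z - gp m‖ ≤ 2 ^ k → |TE z - TE (gp m) - inner ℝ P (z - gp m)| ≤ eps * 2 ^ k) ∧
            (∀ z, ‖z - gp m‖ ≤ 2 ^ k → |TO z - TO (gp m) - inner ℝ P (z - gp m)| ≤ eps * 2 ^ k)) →
        (Z.card : ℝ) ≤ del * R (φ n) ^ 2 := by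
  have hA1 := p.one_le_C3
  have hA : 0 ≤ p.C3 := by linarith
  have hcl : ∀ x r, 1 ≤ r → p.fine c.1 x r → C ≤ r →
      ∀ y z, ‖y - x‖ < 9 * r → ‖z - x‖ < 9 * r → |TE y - TE z| ≤ p.C3 * r :=
    fun x r h1 h2 h3 => hcan.clE x r h1 h2 (Or.inl h3)
  choose f hfL hfT using fun r1 : ℕ => wba_family hcan.TE_nonneg hcl r1
  obtain ⟨Lq, hLq⟩ : ∃ Lq : ℕ → ℕ → ℕ, ∀ q n, Lq q n = ⌈((q : ℝ) + 1) * R n⌉₊ := ⟨_, fun _ _ => rfl⟩
  obtain ⟨φ, hφ, hlim⟩ := diag_subseq (ι := ℕ × ℕ × ℕ × Bool)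
    (fun i n => (∑ w ∈ sqr (Lq i.2.1 n), sec (fun m => f i.1 (gp m)) i.2.2.2 i.2.2.1 w ^ 2) /
      (Lq i.2.1 n : ℝ) ^ 2)
    (fun _ => 4 * p.C3 ^ 2) (fun i n => wba_ener_bd (wba_lipZ (hfL i.1)) _ _ _)
  have hRφ : Tendsto (fun n => R (φ n)) atTop atTop := hR.comp hφ.tendsto_atTop
  refine ⟨φ, hφ, fun eps heps del hdel eta heta Kq hKq => ?_⟩
  obtain ⟨lam, hlam, lam2, hlam2, m0, hV⟩ := plan_V (A := p.C3) (eps := eps / 4) hA (by linarith)
  obtain ⟨q, hq⟩ := exists_nat_ge Kq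
  obtain ⟨S, hS⟩ : ∃ S : ℝ, S = (1 + 9 / del) * ((q : ℝ) + 2) ^ 2 := ⟨_, rfl⟩
  have hS0 : 0 < S := by rw [hS]; positivity
  obtain ⟨D1, hD1⟩ : ∃ D1 : ℝ, D1 = 9 / (lam / 4) := ⟨_, rfl⟩
  have hD10 : 0 < D1 := by rw [hD1]; positivity
  obtain ⟨D2, hD2⟩ : ∃ D2 : ℝ, D2 = 9 / lam2 + 1 := ⟨_, rfl⟩
  have hD20 : 0 < D2 := by rw [hD2]; positivity
  obtain ⟨th, hth⟩ : ∃ th : ℝ, th = del / (4 * S * D1) := ⟨_, rfl⟩
  have hth0 : 0 < th := by rw [hth]; positivity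
  have hthe : S * (D1 * (2 * th)) = del / 2 := by
    rw [hth]; field_simp; norm_num
  obtain ⟨dG, hdG⟩ : ∃ dG : ℝ, dG = min 1 (del / (2 * S * D2)) := ⟨_, rfl⟩
  have hdG0 : 0 < dG := by rw [hdG]; positivity
  have hdG1 : dG ≤ 1 := by rw [hdG]; exact min_le_left _ _
  have hdGe : S * (D2 * dG) ≤ del / 2 := by
    have h1 : dG ≤ del / (2 * S * D2) := by rw [hdG]; exact min_le_right _ _
    have h2 : S * (D2 * (del / (2 * S * D2))) = del / 2 := by field_simp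
    rw [← h2]
    exact mul_le_mul_of_nonneg_left (mul_le_mul_of_nonneg_left h1 hD20.le) hS0.le
  obtain ⟨r0, hr01, hr0⟩ := gd_density hbad henv hdG0
  obtain ⟨r1, hr1⟩ := exists_nat_ge (max (max r0 C) 1)
  have hr1r : r0 ≤ r1 := ((le_max_left _ _).trans (le_max_left _ _)).trans hr1
  have hr1C : C ≤ r1 := ((le_max_right _ _).trans (le_max_left _ _)).trans hr1
  have hr11 : (1 : ℝ) ≤ r1 := (le_max_right _ _).trans hr1
  obtain ⟨R0, hR0⟩ := hr0 r1 hr1r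
  have hne := wba_gd_nonempty hdG1 hR0
  have hfT' := hfT r1 hr11 hr1C hne
  have hCL : CoarseLip TE (Gd p c.1 r1) p.C3 r1 := by
    intro x hx y
    have := gd_lip hcl hr11 hr1C hx y
    rwa [abs_sub_comm, norm_sub_rev] at this
  have hV' := hV TE (Gd p c.1 r1) r1 (f r1) (by linarith) hCL (hfL r1) hfT'
  have hLinf : Tendsto (fun n => Lq q (φ n)) atTop atTop := by
    simp only [hLq]
    refine tendsto_nat_ceil_atTop.comp ?_
    exact Tendsto.const_mul_atTop (by positivity) hRφ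
  obtain ⟨ks, hks⟩ := exists_field hA (wba_lipZ (hfL r1)) hLinf
    (fun u k => hlim (r1, q, k, u)) hth0
  obtain ⟨N, hN⟩ := pow_unbounded_of_one_lt (max ((r1 : ℝ) / lam2) (4 * C / eps))
    (by norm_num : (1 : ℝ) < 2)
  refine ⟨max (ks + m0) N, fun k hk J hkJ => ?_⟩
  have hk1 : ks + m0 ≤ k := (le_max_left _ _).trans hk
  have hk2 : (2 : ℝ) ^ N ≤ 2 ^ k :=
    pow_le_pow_right₀ (by norm_num) ((le_max_right _ _).trans hk)
  have hkr : (r1 : ℝ) ≤ lam2 * 2 ^ k := by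
    have h1 : (r1 : ℝ) / lam2 ≤ 2 ^ k := ((le_max_left _ _).trans hN.le).trans hk2
    rw [div_le_iff₀ hlam2] at h1
    linarith
  have hkC : 2 * C ≤ eps / 2 * 2 ^ k := by
    have h1 : 4 * C / eps ≤ 2 ^ k := ((le_max_right _ _).trans hN.le).trans hk2
    rw [div_le_iff₀ heps] at h1
    linarith
  obtain ⟨t1, ht1⟩ : ∃ t1 : ℝ, t1 = min 1 (lam / 8) := ⟨_, rfl⟩
  have ht10 : 0 < t1 := by rw [ht1]; positivity
  have ht11 : t1 ≤ 1 := by rw [ht1]; exact min_le_left _ _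
  have ht12 : t1 ≤ lam / 8 := by rw [ht1]; exact min_le_right _ _
  have ht1s : t1 ^ 2 ≤ lam / 8 := by nlinarith
  obtain ⟨N', hN'⟩ := pow_unbounded_of_one_lt (p.C3 * 2 ^ (J + 7) / t1)
    (by norm_num : (1 : ℝ) < 2)
  obtain ⟨k', hk'1, hk'2⟩ : ∃ k' : ℕ, ks ≤ k' ∧ p.C3 * 2 ^ (J + 7) ≤ t1 * 2 ^ k' := by
    refine ⟨max ks N', le_max_left _ _, ?_⟩
    have h1 : (2 : ℝ) ^ N' ≤ 2 ^ (max ks N') :=
      pow_le_pow_right₀ (by norm_num) (le_max_right _ _)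
    have h2 := hN'.le.trans h1
    rw [div_le_iff₀ ht10] at h2
    linarith
  obtain ⟨n1, hn1⟩ := hks k' hk'1
  have hev : ∀ᶠ n in atTop, max (max 1 R0) (max (2 ^ J + 2 ^ (J + 4) + 1)
      ((C + 2 * 2 ^ J + 1) / eta)) ≤ R (φ n) := hRφ.eventually_ge_atTop _
  obtain ⟨n2, hn2⟩ := eventually_atTop.1 hev
  refine ⟨max n1 n2, fun n hn Z hZ => ?_⟩
  have hRn := hn2 n ((le_max_right _ _).trans hn)
  obtain ⟨P, hPA, hPs, hPe⟩ := hn1 n ((le_max_left _ _).trans hn)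
  obtain ⟨r, hr⟩ : ∃ r : ℝ, r = R (φ n) := ⟨_, rfl⟩
  rw [← hr] at hRn hZ ⊢
  have hR1 : 1 ≤ r := ((le_max_left _ _).trans (le_max_left _ _)).trans hRn
  have hR2 : R0 ≤ r := ((le_max_right _ _).trans (le_max_left _ _)).trans hRn
  have hR3 : (2 : ℝ) ^ J + 2 ^ (J + 4) + 1 ≤ r :=
    ((le_max_left _ _).trans (le_max_right _ _)).trans hRn
  have hR4 : (C + 2 * 2 ^ J + 1) / eta ≤ r :=
    ((le_max_right _ _).trans (le_max_right _ _)).trans hRn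
  rw [div_le_iff₀ heta] at hR4
  obtain ⟨Ln, hLn⟩ : ∃ Ln : ℕ, Ln = Lq q (φ n) := ⟨_, rfl⟩
  rw [← hLn] at hPe
  have hL1 : ((q : ℝ) + 1) * r ≤ Ln := by
    rw [hLn, hLq, hr]
    exact Nat.le_ceil _
  have hL2 : (Ln : ℝ) ≤ ((q : ℝ) + 2) * r := by
    have h1 : (Ln : ℝ) < ((q : ℝ) + 1) * r + 1 := by
      rw [hLn, hLq, hr]
      refine Nat.ceil_lt_add_one ?_
      rw [← hr]
      positivity
    linarith
  have hLr : r ≤ Ln := by nlinarith [Nat.cast_nonneg (α := ℝ) q]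
  have hLJ : 2 ^ J + 2 ^ (J + 4) ≤ Ln := by
    have : ((2 ^ J + 2 ^ (J + 4) : ℕ) : ℝ) ≤ (Ln : ℝ) := by
      push_cast
      linarith
    exact_mod_cast this
  obtain ⟨L2, hL2'⟩ : ∃ L2 : ℕ, L2 + 2 ^ (J + 4) = Ln :=
    ⟨Ln - 2 ^ (J + 4), Nat.sub_add_cancel ((Nat.le_add_left _ _).trans hLJ)⟩
  obtain ⟨L1, hL1'⟩ : ∃ L1 : ℕ, L1 + 2 ^ J = L2 := by
    refine ⟨L2 - 2 ^ J, Nat.sub_add_cancel ?_⟩
    rw [← hL2'] at hLJ
    exact Nat.le_of_add_le_add_right hLJ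
  have hL1r : Kq * r < L1 := by
    have h1 : (L1 : ℝ) + 2 ^ J + 2 ^ (J + 4) = Ln := by
      have : ((L1 + 2 ^ J + 2 ^ (J + 4) : ℕ) : ℝ) = (Ln : ℝ) := by rw [hL1', hL2']
      push_cast at this
      exact this
    have h2 : Kq * r ≤ q * r := mul_le_mul_of_nonneg_right hq (by linarith)
    linarith
  have hcount := wba_count (f := fun m => f r1 (gp m)) (ks := ks) (P := P)
    (G := {w | gp w ∈ Gd p c.1 r1}) (lam4 := lam / 4) (lam2 := lam2) (del := del) (by positivity)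
    hlam2 hdel (k := k) (J := J) hL1'.le hL2'.le (Z := Z) (fun m hm => by
      obtain ⟨h1, -, -⟩ := hZ m hm
      exact wba_mem_sqr ((h1 0).trans_lt hL1r) ((h1 1).trans_lt hL1r)) (fun m hm hmB => by
      by_contra hcon
      obtain ⟨h1, h2, h3⟩ := hZ m hm
      apply h3
      refine ⟨vec (P m), wba_norm_vec hA (hPA m), ?_⟩
      refine wba_window_at henv hcan heps hmB ?_ ?_ ?_ hkJ hkC
      · intro z hz
        have h4 : ‖z‖ ≤ 2 * 2 ^ J := wba_norm_le (by positivity) (fun i => (hz i).le)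
        have h5 : |(inner ℝ z e : ℝ)| ≤ ‖z‖ := by
          have := abs_real_inner_le_norm z e
          rwa [he, mul_one] at this
        rw [inner_add_left]
        have h6 := (abs_le.1 h5).1
        linarith
      · intro j hj1 hj2 hj3
        exact hcon ⟨j, hj1, hj2, hj3⟩
      · intro y hy hy1 hy2 z hz
        have h4 := wba_plan_window hA (by linarith : 0 ≤ eps / 4) hlam2.le hV' hPA hPs hkJ hk1 hkr
          hk'2 ht1s hy1 hy2 hy hz
        refine h4.trans (le_of_eq ?_)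
        ring)
  have hPhi : ∑ w ∈ sqr Ln, Phi (fun m => f r1 (gp m)) ks P w ≤ 2 * th * (Ln : ℝ) ^ 2 := by
    unfold Phi
    rw [Finset.sum_add_distrib]
    have h1 := hPe true
    have h2 := hPe false
    linarith
  have hGc : (((sqr Ln).filter (fun w => w ∉ {w | gp w ∈ Gd p c.1 r1})).card : ℝ) ≤
      dG * (Ln : ℝ) ^ 2 := by
    refine hR0 Ln (hR2.trans hLr) _ fun m hm => ?_
    rw [Finset.mem_filter] at hm
    exact ⟨wba_sqr_bd hm.1, hm.2⟩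
  have hsq : (Ln : ℝ) ^ 2 ≤ ((q : ℝ) + 2) ^ 2 * r ^ 2 := by
    rw [← mul_pow]
    exact pow_le_pow_left₀ (Nat.cast_nonneg _) hL2 2
  have h9 : (0 : ℝ) ≤ 1 + 9 / del := by positivity
  calc (Z.card : ℝ) ≤ (1 + 9 / del) * (D1 * (2 * th * (Ln : ℝ) ^ 2) + D2 * (dG * (Ln : ℝ) ^ 2)) := by
        refine hcount.trans (mul_le_mul_of_nonneg_left ?_ h9)
        rw [hD1, hD2]
        rw [hD1] at hD10
        rw [hD2] at hD20
        exact add_le_add (mul_le_mul_of_nonneg_left hPhi hD10.le)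
          (mul_le_mul_of_nonneg_left hGc hD20.le)
    _ = (1 + 9 / del) * (D1 * (2 * th) + D2 * dG) * (Ln : ℝ) ^ 2 := by ring
    _ ≤ (1 + 9 / del) * (D1 * (2 * th) + D2 * dG) * (((q : ℝ) + 2) ^ 2 * r ^ 2) := by
        refine mul_le_mul_of_nonneg_left hsq ?_
        positivity
    _ = (S * (D1 * (2 * th)) + S * (D2 * dG)) * r ^ 2 := by rw [hS]; ring
    _ ≤ del * r ^ 2 := by
        refine mul_le_mul_of_nonneg_right ?_ (sq_nonneg _)
        linarith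

end Pool.Agent.FCF
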