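import Mathlib

/-!
# FCF / WBLines: the lines lemma on a square grid

A function on `[0,n]^2` with steps bounded by `A` and small sum of squares of steps has small
oscillation.

PROOF. Row `j` is bad if `∑_{i<n} (h (i+1) j - h i j)^2 > kap (n+1)`. By `hs` the number of bad rows is
at most `mu (n+1) / kap ≤ (n+1)/2`. For every `j ≤ n` there is a good row `j1 ≤ n` with
`|j - j1| ≤ mu (n+1) / kap`: let `d` be the distance from `j` to the nearest good row (one exists);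
the rows at distance `< d` from `j` inside `[0,n]` are bad and there are at least `d` of them
(`d ≤ n`: one of the two sides `[j, j+d-1]`, `[j-d+1, j]`, or the union of the truncated sides, has
`d` elements; simplest: the rows `j'` with `|j'-j| < d` in `[0,n]` contain an interval of `d`
consecutive integers because `d ≤ n`). Same for columns. In a good row the variation
`∑_{i<n} |h (i+1) j - h i j| ≤ sqrt (n * kap (n+1)) ≤ sqrt kap (n+1)` (Cauchy Schwarz).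
Path from `(i,j)` to `(i',j')`: vertically to a good row `j1` near `j` (cost `A mu (n+1)/kap`), along it
to a good column `i1`, along the column `i1` to a good row `j2` near `j'`, along it to the column `i'`,
vertically to `(i',j')`. Total `≤ (2 A mu/kap + 3 sqrt kap) (n+1)`.
-/

set_option autoImplicit false

namespace Pool.Agent.FCF

private theorem WBLines_near (n : ℕ) (B : Finset ℕ) (hB : 2 * B.card ≤ n + 1) {j : ℕ}
    (hj : j ≤ n) : ∃ j1, j1 ≤ n ∧ j1 ∉ B ∧ j1 ≤ j + B.card ∧ j ≤ j1 + B.card := by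
  by_cases h : j + B.card ≤ n
  · obtain ⟨x, hx, hxB⟩ := Finset.exists_mem_notMem_of_card_lt_card (s := B)
      (t := Finset.Icc j (j + B.card)) (by rw [Nat.card_Icc]; omega)
    rw [Finset.mem_Icc] at hx
    exact ⟨x, by omega, hxB, by omega, by omega⟩
  · obtain ⟨x, hx, hxB⟩ := Finset.exists_mem_notMem_of_card_lt_card (s := B)
      (t := Finset.Icc (j - B.card) j) (by rw [Nat.card_Icc]; omega)
    rw [Finset.mem_Icc] at hx
    exact ⟨x, by omega, hxB, by omega, by omega⟩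

private theorem WBLines_count {mu kap : ℝ} (hkap : 0 < kap) (n : ℕ) (r : ℕ → ℝ)
    (hr : ∀ j, 0 ≤ r j)
    (hs : ∑ j ∈ Finset.range (n + 1), r j ≤ mu * ((n : ℝ) + 1) ^ 2) :
    (((Finset.range (n + 1)).filter (fun j => kap * ((n : ℝ) + 1) < r j)).card : ℝ) ≤
      mu / kap * ((n : ℝ) + 1) := by
  set B := (Finset.range (n + 1)).filter (fun j => kap * ((n : ℝ) + 1) < r j) with hB
  have hn : 0 < (n : ℝ) + 1 := by positivity
  have h1 : (B.card : ℝ) * (kap * ((n : ℝ) + 1)) ≤ ∑ j ∈ B, r j := by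
    rw [← nsmul_eq_mul]
    exact Finset.card_nsmul_le_sum B r _ (fun x hx => (Finset.mem_filter.1 hx).2.le)
  have h2 : ∑ j ∈ B, r j ≤ ∑ j ∈ Finset.range (n + 1), r j :=
    Finset.sum_le_sum_of_subset_of_nonneg (Finset.filter_subset _ _) (fun _ _ _ => hr _)
  have h3 : (B.card : ℝ) * (kap * ((n : ℝ) + 1)) ≤ mu * ((n : ℝ) + 1) ^ 2 := by linarith
  have h4 : (B.card : ℝ) * kap ≤ mu * ((n : ℝ) + 1) := by
    have : (B.card : ℝ) * kap * ((n : ℝ) + 1) ≤ mu * ((n : ℝ) + 1) * ((n : ℝ) + 1) := by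
      nlinarith
    exact le_of_mul_le_mul_right this hn
  rw [div_mul_eq_mul_div, le_div_iff₀ hkap]
  exact h4

private theorem WBLines_var {kap : ℝ} (hkap : 0 < kap) (n : ℕ) (g : ℕ → ℝ)
    (hg : ∑ i ∈ Finset.range n, (g (i + 1) - g i) ^ 2 ≤ kap * ((n : ℝ) + 1)) {i1 i2 : ℕ}
    (h1 : i1 ≤ n) (h2 : i2 ≤ n) : |g i1 - g i2| ≤ Real.sqrt kap * ((n : ℝ) + 1) := by
  wlog h : i1 ≤ i2 generalizing i1 i2
  · rw [abs_sub_comm]
    exact this h2 h1 (by omega)
  have hn : 0 < (n : ℝ) + 1 := by positivity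
  have e1 : g i2 - g i1 = ∑ i ∈ Finset.Ico i1 i2, (g (i + 1) - g i) :=
    (Finset.sum_Ico_sub g h).symm
  have e2 : |g i1 - g i2| ≤ ∑ i ∈ Finset.range n, |g (i + 1) - g i| := by
    rw [abs_sub_comm, e1]
    refine (Finset.abs_sum_le_sum_abs _ _).trans ?_
    apply Finset.sum_le_sum_of_subset_of_nonneg
    · intro x hx
      rw [Finset.mem_Ico] at hx
      rw [Finset.mem_range]
      omega
    · intro _ _ _
      exact abs_nonneg _
  have e3 : (∑ i ∈ Finset.range n, |g (i + 1) - g i|) ^ 2 ≤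
      (n : ℝ) * ∑ i ∈ Finset.range n, (g (i + 1) - g i) ^ 2 := by
    have := sq_sum_le_card_mul_sum_sq (s := Finset.range n) (f := fun i => |g (i + 1) - g i|)
    simpa [sq_abs] using this
  have e4 : (∑ i ∈ Finset.range n, |g (i + 1) - g i|) ^ 2 ≤
      (Real.sqrt kap * ((n : ℝ) + 1)) ^ 2 := by
    rw [mul_pow, Real.sq_sqrt hkap.le]
    have h3 : (n : ℝ) * ∑ i ∈ Finset.range n, (g (i + 1) - g i) ^ 2 ≤
        (n : ℝ) * (kap * ((n : ℝ) + 1)) := mul_le_mul_of_nonneg_left hg (Nat.cast_nonneg n)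
    have h4 : (0 : ℝ) ≤ kap * ((n : ℝ) + 1) := by positivity
    nlinarith
  have e5 := abs_le_of_sq_le_sq e4 (by positivity)
  exact e2.trans ((le_abs_self _).trans e5)

private theorem WBLines_step {A : ℝ} (n : ℕ) (g : ℕ → ℝ)
    (hg : ∀ i, i < n → |g (i + 1) - g i| ≤ A) {i1 i2 : ℕ} (h1 : i1 ≤ n) (h2 : i2 ≤ n) {d : ℕ}
    (hd1 : i1 ≤ i2 + d) (hd2 : i2 ≤ i1 + d) (hA : 0 ≤ A) : |g i1 - g i2| ≤ A * d := by
  wlog h : i1 ≤ i2 generalizing i1 i2
  · rw [abs_sub_comm]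
    exact this h2 h1 hd2 hd1 (by omega)
  have e1 : g i2 - g i1 = ∑ i ∈ Finset.Ico i1 i2, (g (i + 1) - g i) :=
    (Finset.sum_Ico_sub g h).symm
  rw [abs_sub_comm, e1]
  refine (Finset.abs_sum_le_sum_abs _ _).trans ?_
  have e2 : ∑ i ∈ Finset.Ico i1 i2, |g (i + 1) - g i| ≤ (Finset.Ico i1 i2).card • A := by
    apply Finset.sum_le_card_nsmul
    intro x hx
    rw [Finset.mem_Ico] at hx
    exact hg x (by omega)
  refine e2.trans ?_
  rw [Nat.card_Ico, nsmul_eq_mul, mul_comm]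
  apply mul_le_mul_of_nonneg_left _ hA
  have : i2 - i1 ≤ d := by omega
  exact_mod_cast this

theorem lines_grid {A mu kap : ℝ} (hA : 0 ≤ A) (hmu : 0 ≤ mu) (hkap : 0 < kap)
    (hmk : mu / kap ≤ 1 / 2) (n : ℕ) (h : ℕ → ℕ → ℝ)
    (h1 : ∀ i j, i < n → j ≤ n → |h (i + 1) j - h i j| ≤ A)
    (h2 : ∀ i j, i ≤ n → j < n → |h i (j + 1) - h i j| ≤ A)
    (hs1 : ∑ j ∈ Finset.range (n + 1), ∑ i ∈ Finset.range n, (h (i + 1) j - h i j) ^ 2
      ≤ mu * ((n : ℝ) + 1) ^ 2)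
    (hs2 : ∑ i ∈ Finset.range (n + 1), ∑ j ∈ Finset.range n, (h i (j + 1) - h i j) ^ 2
      ≤ mu * ((n : ℝ) + 1) ^ 2)
    {i j i' j' : ℕ} (hi : i ≤ n) (hj : j ≤ n) (hi' : i' ≤ n) (hj' : j' ≤ n) :
    |h i j - h i' j'| ≤ (2 * A * (mu / kap) + 3 * Real.sqrt kap) * ((n : ℝ) + 1) := by
  have hn : 0 < (n : ℝ) + 1 := by positivity
  set r1 : ℕ → ℝ := fun j => ∑ i ∈ Finset.range n, (h (i + 1) j - h i j) ^ 2 with hr1
  set r2 : ℕ → ℝ := fun i => ∑ j ∈ Finset.range n, (h i (j + 1) - h i j) ^ 2 with hr2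
  have hc1 := WBLines_count hkap n r1 (fun _ => Finset.sum_nonneg fun _ _ => sq_nonneg _) hs1
  have hc2 := WBLines_count hkap n r2 (fun _ => Finset.sum_nonneg fun _ _ => sq_nonneg _) hs2
  set B1 := (Finset.range (n + 1)).filter (fun j => kap * ((n : ℝ) + 1) < r1 j) with hB1
  set B2 := (Finset.range (n + 1)).filter (fun j => kap * ((n : ℝ) + 1) < r2 j) with hB2
  have hhalf : mu / kap * ((n : ℝ) + 1) ≤ 1 / 2 * ((n : ℝ) + 1) :=
    mul_le_mul_of_nonneg_right hmk hn.le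
  have hb1 : 2 * B1.card ≤ n + 1 := by
    have : (2 : ℝ) * B1.card ≤ (n : ℝ) + 1 := by linarith
    exact_mod_cast this
  have hb2 : 2 * B2.card ≤ n + 1 := by
    have : (2 : ℝ) * B2.card ≤ (n : ℝ) + 1 := by linarith
    exact_mod_cast this
  obtain ⟨j1, hj1, hj1B, hj1a, hj1b⟩ := WBLines_near n B1 hb1 hj
  obtain ⟨j2, hj2, hj2B, hj2a, hj2b⟩ := WBLines_near n B1 hb1 hj'
  obtain ⟨i1, hi1, hi1B, -, -⟩ := WBLines_near n B2 hb2 hi
  have good1 : ∀ j, j ≤ n → j ∉ B1 → r1 j ≤ kap * ((n : ℝ) + 1) := by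
    intro j hj hjB
    by_contra hcon
    push Not at hcon
    exact hjB (Finset.mem_filter.2 ⟨Finset.mem_range.2 (by omega), hcon⟩)
  have good2 : ∀ j, j ≤ n → j ∉ B2 → r2 j ≤ kap * ((n : ℝ) + 1) := by
    intro j hj hjB
    by_contra hcon
    push Not at hcon
    exact hjB (Finset.mem_filter.2 ⟨Finset.mem_range.2 (by omega), hcon⟩)
  have s1 : |h i j - h i j1| ≤ A * B1.card :=
    WBLines_step n (fun t => h i t) (fun t ht => h2 i t hi ht) hj hj1 hj1b hj1a hA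
  have s5 : |h i' j2 - h i' j'| ≤ A * B1.card :=
    WBLines_step n (fun t => h i' t) (fun t ht => h2 i' t hi' ht) hj2 hj' hj2a hj2b hA
  have s2 : |h i j1 - h i1 j1| ≤ Real.sqrt kap * ((n : ℝ) + 1) :=
    WBLines_var hkap n (fun t => h t j1) (good1 j1 hj1 hj1B) hi hi1
  have s3 : |h i1 j1 - h i1 j2| ≤ Real.sqrt kap * ((n : ℝ) + 1) :=
    WBLines_var hkap n (fun t => h i1 t) (good2 i1 hi1 hi1B) hj1 hj2
  have s4 : |h i1 j2 - h i' j2| ≤ Real.sqrt kap * ((n : ℝ) + 1) :=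
    WBLines_var hkap n (fun t => h t j2) (good1 j2 hj2 hj2B) hi1 hi'
  have hAc : A * B1.card ≤ A * (mu / kap * ((n : ℝ) + 1)) := mul_le_mul_of_nonneg_left hc1 hA
  rw [abs_le] at s1 s2 s3 s4 s5 ⊢
  have e : (2 * A * (mu / kap) + 3 * Real.sqrt kap) * ((n : ℝ) + 1) =
      2 * (A * (mu / kap * ((n : ℝ) + 1))) + 3 * (Real.sqrt kap * ((n : ℝ) + 1)) := by ring
  rw [e]
  obtain ⟨a1, a2⟩ := s1
  obtain ⟨b1, b2⟩ := s2
  obtain ⟨c1, c2⟩ := s3
  obtain ⟨d1, d2⟩ := s4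
  obtain ⟨e1, e2⟩ := s5
  constructor <;> linarith

end Pool.Agent.FCF
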