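import Pool.Agent.FCF.WBDefs
import Pool.Agent.FCF.Comb

/-!
# FCF / WBMax: discrete maximal inequality

PROOF of `dmax`. Apply `Comb.greedy` to the family `Z` with the sets `B y = ob y (l y)` (as a `Set`,
nonempty since `l y ≥ 1`: contains `y`) and the sizes `(l y : ℝ)`: disjoint subfamily `F ⊆ Z`, every
`y ∈ Z` meets some `p ∈ F` with `l y ≤ l p`. Then `y ∈ ob p (2 * l p)` (coordinates
`|y.1 - p.1| < l y + l p ≤ 2 l p`), so `card Z ≤ ∑_{p ∈ F} card (ob p (2 l p))`, and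
`card (ob p (2 l)) = (4 l - 1)^2 ≤ 9 (2 l - 1)^2 = 9 card (ob p l)` for `l ≥ 1`. Hence
`lam * card Z ≤ 9 ∑_{p ∈ F} lam * card (ob p (l p)) ≤ 9 ∑_{p ∈ F} ∑_{w ∈ ob p (l p)} Φ w
  ≤ 9 ∑_{w ∈ B} Φ w` (disjointness, `Finset.sum_biUnion`, `Φ ≥ 0`).
-/

set_option autoImplicit false

namespace Pool.Agent.FCF

open Set Metric

theorem card_ob (y : ℤ × ℤ) {l : ℕ} (hl : 1 ≤ l) : (ob y l).card = (2 * l - 1) ^ 2 := by
  unfold ob
  rw [Finset.card_product, Int.card_Ioo, Int.card_Ioo, sq]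
  have h1 : (y.1 + (l : ℤ) - (y.1 - l) - 1).toNat = 2 * l - 1 := by omega
  have h2 : (y.2 + (l : ℤ) - (y.2 - l) - 1).toNat = 2 * l - 1 := by omega
  rw [h1, h2]

theorem mem_ob {y w : ℤ × ℤ} {l : ℕ} :
    w ∈ ob y l ↔ |w.1 - y.1| < l ∧ |w.2 - y.2| < l := by
  unfold ob
  rw [Finset.mem_product, Finset.mem_Ioo, Finset.mem_Ioo, abs_lt, abs_lt]
  constructor
  · rintro ⟨⟨h1, h2⟩, h3, h4⟩
    exact ⟨⟨by omega, by omega⟩, by omega, by omega⟩
  · rintro ⟨⟨h1, h2⟩, h3, h4⟩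
    exact ⟨⟨by omega, by omega⟩, by omega, by omega⟩

/-- Discrete maximal inequality. -/
theorem dmax (Φ : ℤ × ℤ → ℝ) (hΦ : ∀ w, 0 ≤ Φ w) (B Z : Finset (ℤ × ℤ)) (l : ℤ × ℤ → ℕ)
    {lam : ℝ} (hlam : 0 < lam)
    (h : ∀ y ∈ Z, 1 ≤ l y ∧ ob y (l y) ⊆ B ∧
      lam * ((ob y (l y)).card : ℝ) < ∑ w ∈ ob y (l y), Φ w) :
    lam * (Z.card : ℝ) ≤ 9 * ∑ w ∈ B, Φ w := by
  classical
  obtain ⟨F, hFZ, hdis, hcov⟩ := Comb.greedy (fun y => ((ob y (l y) : Finset (ℤ × ℤ)) : Set (ℤ × ℤ)))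
    (fun y => (l y : ℝ)) Z (by
      intro p hp
      refine ⟨p, ?_⟩
      have h1 := (h p hp).1
      rw [Finset.mem_coe, mem_ob]
      simp only [sub_self, abs_zero]
      constructor <;> exact_mod_cast h1)
  have hZ : Z ⊆ F.biUnion (fun p => ob p (2 * l p)) := by
    intro y hy
    obtain ⟨p, hp, hle, ⟨w, hw1, hw2⟩⟩ := hcov y hy
    rw [Finset.mem_biUnion]
    refine ⟨p, hp, ?_⟩
    rw [Finset.mem_coe, mem_ob] at hw1 hw2
    rw [mem_ob]
    have hle' : (l y : ℤ) ≤ l p := by exact_mod_cast hle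
    obtain ⟨a1, a2⟩ := hw1
    obtain ⟨b1, b2⟩ := hw2
    rw [abs_lt] at a1 a2 b1 b2
    rw [abs_lt, abs_lt]
    push_cast
    refine ⟨⟨by linarith, by linarith⟩, by linarith, by linarith⟩
  have hcard : (Z.card : ℝ) ≤ ∑ p ∈ F, 9 * ((ob p (l p)).card : ℝ) := by
    calc (Z.card : ℝ) ≤ ((F.biUnion (fun p => ob p (2 * l p))).card : ℝ) := by
          exact_mod_cast Finset.card_le_card hZ
      _ ≤ ((∑ p ∈ F, (ob p (2 * l p)).card : ℕ) : ℝ) := by
          exact_mod_cast Finset.card_biUnion_le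
      _ = ∑ p ∈ F, ((ob p (2 * l p)).card : ℝ) := by push_cast; rfl
      _ ≤ ∑ p ∈ F, 9 * ((ob p (l p)).card : ℝ) := by
          refine Finset.sum_le_sum fun p hp => ?_
          have h1 := (h p (hFZ hp)).1
          rw [card_ob p h1, card_ob p (by omega : 1 ≤ 2 * l p)]
          have h2 : ((2 * l p - 1 : ℕ) : ℝ) = 2 * (l p : ℝ) - 1 := by
            rw [Nat.cast_sub (by omega)]; push_cast; ring
          have h3 : ((2 * (2 * l p) - 1 : ℕ) : ℝ) = 4 * (l p : ℝ) - 1 := by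
            rw [Nat.cast_sub (by omega)]; push_cast; ring
          push_cast [h2, h3]
          have h4 : (1 : ℝ) ≤ l p := by exact_mod_cast h1
          nlinarith
  have hdisj : Set.PairwiseDisjoint (F : Set (ℤ × ℤ)) (fun p => ob p (l p)) := by
    intro p hp q hq hpq
    have := hdis p hp q hq hpq
    rw [Function.onFun, Finset.disjoint_left]
    intro x hx hx'
    exact Set.disjoint_left.1 this hx hx'
  calc lam * (Z.card : ℝ) ≤ lam * ∑ p ∈ F, 9 * ((ob p (l p)).card : ℝ) :=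
        mul_le_mul_of_nonneg_left hcard hlam.le
    _ = 9 * ∑ p ∈ F, lam * ((ob p (l p)).card : ℝ) := by
        rw [Finset.mul_sum, Finset.mul_sum]
        exact Finset.sum_congr rfl fun p _ => by ring
    _ ≤ 9 * ∑ p ∈ F, ∑ w ∈ ob p (l p), Φ w := by
        refine mul_le_mul_of_nonneg_left ?_ (by norm_num)
        exact Finset.sum_le_sum fun p hp => (h p (hFZ hp)).2.2.le
    _ = 9 * ∑ w ∈ F.biUnion (fun p => ob p (l p)), Φ w := by
        rw [Finset.sum_biUnion hdisj]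
    _ ≤ 9 * ∑ w ∈ B, Φ w := by
        refine mul_le_mul_of_nonneg_left ?_ (by norm_num)
        refine Finset.sum_le_sum_of_subset_of_nonneg ?_ fun w _ _ => hΦ w
        intro w hw
        obtain ⟨p, hp, hw'⟩ := Finset.mem_biUnion.1 hw
        exact (h p (hFZ hp)).2.1 hw'

end Pool.Agent.FCF
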