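import Pool.Agent.FCF.WBEner
import Pool.Agent.FCF.WBLines
import Pool.Agent.FCF.WBMax

/-!
# FCF / WBCube: small deviation of the secants at scale `2^ks` gives planarity on a square

PROOF. Let `s = 2^ks`, `N = 2^j`, `g w = f w - Pt * w.1 - Pf * w.2`, so `|g (w + eu u) - g w| ≤ 2A`,
`sec g u ks w = sec f u ks w - P u` and (hypothesis)
`∑_{w ∈ ob y N} (sec g true ks w)^2 + (sec g false ks w)^2 ≤ lam (2N-1)^2 ≤ 4 lam N^2`.
For a residue `(a,b) ∈ [0,s)^2` let `w_{ab}(i,i') = (y.1 - N + 1 + a + i s, y.2 - N + 1 + b + i' s)`,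
`0 ≤ i, i' ≤ n`, `n = 2^(j-ks+1) - 2` (so all these points lie in `ob y N`:
`a + n s ≤ s - 1 + 2N - 2s = 2N - s - 1 ≤ 2N - 2`).
The point sets of different residues are disjoint, so for some residue
`∑_{i,i'} ... ≤ 4 lam N^2 / s^2`. Put `h i i' = g (w_{ab}(i,i'))`; the steps are `s * sec g`, bounded by
`2 A s`, and the sums of squares of the steps are `≤ 4 lam N^2 ≤ mu (n+1)^2` with `mu = 16 lam s^2`
(as `n + 1 ≥ N / s`, if `j ≥ ks + 1`). Apply `lines_grid` to `h / s`: steps `≤ 2A`, `mu' = 16 lam`,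
`kap = sqrt (16 lam)`: oscillation of `h` `≤ s (n+1) (4 A sqrt(16 lam) + 3 (16 lam)^{1/4})
 ≤ 2 N (...)`. Every `z ∈ ob y N` (and `y`) has a point `w_{ab}(i,i')` with coordinate distances
`≤ 2 s`, so `|g z - g (w)| ≤ 2A * 4 s`. Total `|g z - g y| ≤ 2N (4A sqrt(16 lam) + 3 (16 lam)^{1/4}) +
 16 A s ≤ eps N` if `lam` is small and `2^m0 ≥ 32 A / eps`.
-/

set_option autoImplicit false

namespace Pool.Agent.FCF

open Set Metric

/-- grid point with residue `(a,b)` and indices `(i,i')`. -/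
private def WBCube_pt (y : ℤ × ℤ) (N s : ℕ) (a b i i' : ℕ) : ℤ × ℤ :=
  (y.1 - N + 1 + a + i * s, y.2 - N + 1 + b + i' * s)

private theorem WBCube_inj {s a i a' i' : ℕ} (ha : a < s) (ha' : a' < s)
    (h : a + i * s = a' + i' * s) : a = a' ∧ i = i' := by
  have hs : 0 < s := by omega
  have h1 : (a + i * s) % s = a := by
    rw [Nat.add_mul_mod_self_right, Nat.mod_eq_of_lt ha]
  have h2 : (a' + i' * s) % s = a' := by
    rw [Nat.add_mul_mod_self_right, Nat.mod_eq_of_lt ha']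
  have h3 : a = a' := by rw [← h1, h, h2]
  subst h3
  have h4 : i * s = i' * s := by omega
  exact ⟨rfl, Nat.eq_of_mul_eq_mul_right hs h4⟩

/-- choice of a residue. -/
private theorem WBCube_res (Φ : ℤ × ℤ → ℝ) (hΦ : ∀ w, 0 ≤ Φ w) (y : ℤ × ℤ) (N s n : ℕ)
    (hs : 0 < s) (hn : n * s + 2 * s = 2 * N) :
    ∃ a b : ℕ, a < s ∧ b < s ∧
      (s : ℝ) ^ 2 * ∑ i ∈ Finset.range (n + 1), ∑ i' ∈ Finset.range (n + 1),
        Φ (WBCube_pt y N s a b i i') ≤ ∑ w ∈ ob y N, Φ w := by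
  by_contra hcon
  push Not at hcon
  set D1 := Finset.range s ×ˢ Finset.range s with hD1
  set D2 := Finset.range (n + 1) ×ˢ Finset.range (n + 1) with hD2
  set W : (ℕ × ℕ) × (ℕ × ℕ) → ℤ × ℤ := fun q => WBCube_pt y N s q.1.1 q.1.2 q.2.1 q.2.2 with hW
  have hinj : Set.InjOn W (D1 ×ˢ D2 : Finset _) := by
    rintro ⟨⟨a, b⟩, ⟨i, i'⟩⟩ h1 ⟨⟨a', b'⟩, ⟨k, k'⟩⟩ h2 h
    simp only [hD1, hD2, Finset.coe_product, Set.mem_prod, Finset.mem_coe,
      Finset.mem_range] at h1 h2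
    simp only [hW, WBCube_pt, Prod.mk.injEq] at h
    obtain ⟨e1, e2⟩ := h
    have e3 : a + i * s = a' + k * s := by zify; linarith
    have e4 : b + i' * s = b' + k' * s := by zify; linarith
    obtain ⟨r1, r2⟩ := WBCube_inj h1.1.1 h2.1.1 e3
    obtain ⟨r3, r4⟩ := WBCube_inj h1.1.2 h2.1.2 e4
    rw [r1, r2, r3, r4]
  have hsub : (D1 ×ˢ D2).image W ⊆ ob y N := by
    intro w hw
    rw [Finset.mem_image] at hw
    obtain ⟨⟨⟨a, b⟩, ⟨i, i'⟩⟩, h1, rfl⟩ := hw
    simp only [hD1, hD2, Finset.mem_range, Finset.mem_product] at h1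
    obtain ⟨⟨ha, hb⟩, hi, hi'⟩ := h1
    have h2 : i * s ≤ n * s := Nat.mul_le_mul_right s (by omega)
    have h3 : i' * s ≤ n * s := Nat.mul_le_mul_right s (by omega)
    have h2' : ((i * s : ℕ) : ℤ) ≤ ((n * s : ℕ) : ℤ) := by exact_mod_cast h2
    have h3' : ((i' * s : ℕ) : ℤ) ≤ ((n * s : ℕ) : ℤ) := by exact_mod_cast h3
    have h4 : ((n * s : ℕ) : ℤ) + 2 * s = 2 * N := by exact_mod_cast hn
    have h5 : (0 : ℤ) ≤ ((i * s : ℕ) : ℤ) := Int.natCast_nonneg _
    have h6 : (0 : ℤ) ≤ ((i' * s : ℕ) : ℤ) := Int.natCast_nonneg _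
    simp only [hW, WBCube_pt, ob, Finset.mem_product, Finset.mem_Ioo]
    push_cast at h2' h3' h4 h5 h6
    refine ⟨⟨?_, ?_⟩, ?_, ?_⟩ <;> omega
  have h1 : ∑ q ∈ D1 ×ˢ D2, Φ (W q) ≤ ∑ w ∈ ob y N, Φ w := by
    rw [← Finset.sum_image (f := Φ) hinj]
    exact Finset.sum_le_sum_of_subset_of_nonneg hsub fun _ _ _ => hΦ _
  rw [Finset.sum_product] at h1
  have h2 : ∀ p ∈ D1, ∑ w ∈ ob y N, Φ w < (s : ℝ) ^ 2 * ∑ q ∈ D2, Φ (W (p, q)) := by
    intro p hp
    simp only [hD1, Finset.mem_range, Finset.mem_product] at hp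
    have := hcon p.1 p.2 hp.1 hp.2
    rw [hD2, Finset.sum_product]
    exact this
  have hne : D1.Nonempty := ⟨(0, 0), by simp [hD1, hs]⟩
  have h3 : ∑ _p ∈ D1, ∑ w ∈ ob y N, Φ w < ∑ p ∈ D1, (s : ℝ) ^ 2 * ∑ q ∈ D2, Φ (W (p, q)) :=
    Finset.sum_lt_sum_of_nonempty hne h2
  rw [Finset.sum_const, ← Finset.mul_sum, nsmul_eq_mul] at h3
  have h4 : (D1.card : ℝ) = (s : ℝ) ^ 2 := by
    rw [hD1, Finset.card_product, Finset.card_range]; push_cast; ring
  rw [h4] at h3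
  have h5 : (0 : ℝ) < (s : ℝ) ^ 2 := by positivity
  have h6 := lt_of_mul_lt_mul_left h3 h5.le
  linarith

private theorem WBCube_near (y z : ℤ) (N s n a : ℕ) (hs : 0 < s) (ha : a < s)
    (hn : n * s + 2 * s = 2 * N) (h1 : y - N < z) (h2 : z < y + N) :
    ∃ i : ℕ, i ≤ n ∧ |(z : ℝ) - ((y - N + 1 + a + i * s : ℤ) : ℝ)| ≤ 2 * s := by
  obtain ⟨t, ht⟩ : ∃ t : ℕ, z = y - N + 1 + t := ⟨(z - (y - N + 1)).toNat, by omega⟩
  have ht2 : t + 2 ≤ 2 * N := by omega
  have key : ∀ i : ℕ, (i * s : ℕ) + a ≤ t + 2 * s → t ≤ i * s + a + 2 * s →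
      |(z : ℝ) - ((y - N + 1 + a + i * s : ℤ) : ℝ)| ≤ 2 * s := by
    intro i e1 e2
    have e1' : ((i : ℝ) * s) + a ≤ t + 2 * s := by exact_mod_cast e1
    have e2' : (t : ℝ) ≤ (i : ℝ) * s + a + 2 * s := by exact_mod_cast e2
    rw [ht]
    push_cast
    rw [abs_le]
    constructor <;> linarith
  by_cases hc : t / s ≤ n
  · refine ⟨t / s, hc, key _ ?_ ?_⟩
    · have := Nat.div_mul_le_self t s
      omega
    · have := Nat.lt_div_mul_add hs (a := t)
      omega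
  · push Not at hc
    refine ⟨n, le_rfl, key _ ?_ ?_⟩
    · have := (Nat.le_div_iff_mul_le hs).1 hc.le
      omega
    · omega

theorem plan_cube {A eps : ℝ} (hA : 0 ≤ A) (heps : 0 < eps) :
    ∃ lam : ℝ, 0 < lam ∧ ∃ m0 : ℕ, ∀ (f : ℤ × ℤ → ℝ), LipZ A f → ∀ (ks j : ℕ) (y : ℤ × ℤ)
      (P : Bool → ℝ), (∀ u, |P u| ≤ A) → ks + m0 ≤ j →
      ∑ w ∈ ob y (2 ^ j), ((sec f true ks w - P true) ^ 2 + (sec f false ks w - P false) ^ 2)
        ≤ lam * ((ob y (2 ^ j)).card : ℝ) →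
      ∀ z ∈ ob y (2 ^ j), |f z - f y - (P true * ((z.1 : ℝ) - y.1) + P false * ((z.2 : ℝ) - y.2))|
        ≤ eps * 2 ^ j := by
  set kap : ℝ := (eps / 24) ^ 2 with hkapd
  have hkap : 0 < kap := by positivity
  set q : ℝ := min (1 / 2) (eps / (32 * (A + 1))) with hqd
  have hq : 0 < q := lt_min (by norm_num) (by positivity)
  have hq1 : q ≤ 1 / 2 := min_le_left _ _
  have hq2 : q ≤ eps / (32 * (A + 1)) := min_le_right _ _
  have hAq : 32 * (A * q) ≤ eps := by
    rw [le_div_iff₀ (by positivity)] at hq2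
    nlinarith
  obtain ⟨m, hm⟩ := pow_unbounded_of_one_lt (64 * A / eps) (one_lt_two : (1 : ℝ) < 2)
  refine ⟨kap * q / 4, by positivity, m + 1, ?_⟩
  intro f hf ks j y P hP hj hsum z hz
  set s : ℕ := 2 ^ ks with hsd
  have hs : 0 < s := by positivity
  obtain ⟨e, he⟩ : ∃ e, j = ks + (m + 1) + e := ⟨j - (ks + (m + 1)), by omega⟩
  set M : ℕ := 2 ^ (m + 1 + e) with hMd
  have hM : 2 ≤ M := by
    have : 2 ^ 1 ≤ 2 ^ (m + 1 + e) := Nat.pow_le_pow_right (by norm_num) (by omega)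
    simpa using this
  have hN : (2 : ℕ) ^ j = s * M := by
    rw [hsd, hMd, ← pow_add, he]; congr 1; omega
  set N : ℕ := 2 ^ j with hNd
  obtain ⟨n, hn⟩ : ∃ n, n + 2 = 2 * M := ⟨2 * M - 2, by omega⟩
  have hns : n * s + 2 * s = 2 * N := by
    rw [hN, ← add_mul, hn]; ring
  set g : ℤ × ℤ → ℝ := fun w => f w - (P true * w.1 + P false * w.2) with hg
  set Φ : ℤ × ℤ → ℝ := fun w => (sec f true ks w - P true) ^ 2 + (sec f false ks w - P false) ^ 2
    with hΦ
  obtain ⟨a, b, ha, hb, hab⟩ := WBCube_res Φ (fun w => by positivity) y N s n hs hns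
  have hN1 : 1 ≤ N := by rw [hN]; exact Nat.mul_pos hs (by omega)
  have hcard : ((ob y N).card : ℝ) ≤ 4 * (N : ℝ) ^ 2 := by
    rw [card_ob y hN1]
    have : (2 * N - 1) ^ 2 ≤ (2 * N) ^ 2 := Nat.pow_le_pow_left (by omega) 2
    have h2 : (((2 * N - 1) ^ 2 : ℕ) : ℝ) ≤ (((2 * N) ^ 2 : ℕ) : ℝ) := by exact_mod_cast this
    refine h2.trans (le_of_eq ?_)
    push_cast; ring
  have hsr : (0 : ℝ) < s := by exact_mod_cast hs
  have hs2 : ((2 : ℝ) ^ ks) = s := by rw [hsd]; push_cast; rfl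
  have hNr : (N : ℝ) = s * M := by rw [hN]; push_cast; rfl
  have hMn : (M : ℝ) ≤ (n : ℝ) + 1 := by
    have : M ≤ n + 1 := by omega
    exact_mod_cast this
  have hnM : (n : ℝ) + 1 ≤ 2 * M := by
    have : n + 1 ≤ 2 * M := by omega
    exact_mod_cast this
  have hM0 : (0 : ℝ) ≤ M := by positivity
  have htot : ∑ i ∈ Finset.range (n + 1), ∑ i' ∈ Finset.range (n + 1),
      Φ (WBCube_pt y N s a b i i') ≤ kap * q * ((n : ℝ) + 1) ^ 2 := by
    have h1 : (s : ℝ) ^ 2 * ∑ i ∈ Finset.range (n + 1), ∑ i' ∈ Finset.range (n + 1),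
        Φ (WBCube_pt y N s a b i i') ≤ (s : ℝ) ^ 2 * (kap * q * ((n : ℝ) + 1) ^ 2) := by
      refine hab.trans (hsum.trans ?_)
      have h2 : kap * q / 4 * ((ob y N).card : ℝ) ≤ kap * q / 4 * (4 * (N : ℝ) ^ 2) :=
        mul_le_mul_of_nonneg_left hcard (by positivity)
      refine h2.trans ?_
      rw [hNr]
      have h3 : (M : ℝ) ^ 2 ≤ ((n : ℝ) + 1) ^ 2 := pow_le_pow_left₀ hM0 hMn 2
      have h4 : (s : ℝ) ^ 2 * (kap * q) * (M : ℝ) ^ 2 ≤ (s : ℝ) ^ 2 * (kap * q) * ((n : ℝ) + 1) ^ 2 :=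
        mul_le_mul_of_nonneg_left h3 (by positivity)
      nlinarith
    exact le_of_mul_le_mul_left h1 (by positivity)
  set h : ℕ → ℕ → ℝ := fun i i' => g (WBCube_pt y N s a b i i') / s with hh
  have st1 : ∀ i i', h (i + 1) i' - h i i' = sec f true ks (WBCube_pt y N s a b i i') - P true := by
    intro i i'
    have e1 : WBCube_pt y N s a b (i + 1) i' =
        WBCube_pt y N s a b i i' + (2 ^ ks : ℤ) • eu true := by
      simp only [WBCube_pt, eu, Prod.smul_mk, Prod.mk_add_mk, smul_eq_mul, mul_one, mul_zero,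
        add_zero, Prod.mk.injEq, and_true, hsd]
      push_cast; ring
    have e2 : ((WBCube_pt y N s a b (i + 1) i').1 : ℝ) = (WBCube_pt y N s a b i i').1 + s := by
      simp only [WBCube_pt]; push_cast; ring
    have e3 : ((WBCube_pt y N s a b (i + 1) i').2 : ℝ) = (WBCube_pt y N s a b i i').2 := by
      simp only [WBCube_pt]
    simp only [hh, hg, sec]
    rw [e2, e3, ← e1, hs2]
    field_simp
    ring
  have st2 : ∀ i i', h i (i' + 1) - h i i' =
      sec f false ks (WBCube_pt y N s a b i i') - P false := by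
    intro i i'
    have e1 : WBCube_pt y N s a b i (i' + 1) =
        WBCube_pt y N s a b i i' + (2 ^ ks : ℤ) • eu false := by
      simp only [WBCube_pt, eu, Prod.smul_mk, Prod.mk_add_mk, smul_eq_mul, mul_one, mul_zero,
        add_zero, Prod.mk.injEq, true_and, hsd]
      push_cast; ring
    have e2 : ((WBCube_pt y N s a b i (i' + 1)).2 : ℝ) = (WBCube_pt y N s a b i i').2 + s := by
      simp only [WBCube_pt]; push_cast; ring
    have e3 : ((WBCube_pt y N s a b i (i' + 1)).1 : ℝ) = (WBCube_pt y N s a b i i').1 := by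
      simp only [WBCube_pt]
    simp only [hh, hg, sec]
    rw [e2, e3, ← e1, hs2]
    field_simp
    ring
  have bd : ∀ (u : Bool) (w : ℤ × ℤ), |sec f u ks w - P u| ≤ 2 * A := by
    intro u w
    have h1 := sec_bd hf u ks w
    have h2 := hP u
    rw [abs_le] at *
    constructor <;> linarith
  have hmk : kap * q / kap = q := by field_simp
  have hosc : ∀ {i i' k k' : ℕ}, i ≤ n → i' ≤ n → k ≤ n → k' ≤ n →
      |h i i' - h k k'| ≤ (2 * (2 * A) * q + 3 * (eps / 24)) * ((n : ℝ) + 1) := by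
    intro i i' k k' hi hi' hk hk'
    have hl := lines_grid (A := 2 * A) (mu := kap * q) (kap := kap) (by positivity) (by positivity)
      hkap (by rw [hmk]; exact hq1) n h (fun i i' _ _ => by rw [st1]; exact bd _ _)
      (fun i i' _ _ => by rw [st2]; exact bd _ _) ?_ ?_ hi hi' hk hk'
    · rw [hmk, Real.sqrt_sq (by positivity)] at hl
      exact hl
    · refine le_trans ?_ htot
      rw [Finset.sum_comm]
      have hsub : Finset.range n ⊆ Finset.range (n + 1) :=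
        Finset.range_subset_range.2 (Nat.le_succ n)
      refine le_trans (Finset.sum_le_sum_of_subset_of_nonneg hsub
        fun _ _ _ => Finset.sum_nonneg fun _ _ => sq_nonneg _) ?_
      refine Finset.sum_le_sum fun i _ => Finset.sum_le_sum fun i' _ => ?_
      rw [st1]
      simp only [hΦ]
      nlinarith [sq_nonneg (sec f false ks (WBCube_pt y N s a b i i') - P false)]
    · refine le_trans ?_ htot
      have hsub : Finset.range n ⊆ Finset.range (n + 1) :=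
        Finset.range_subset_range.2 (Nat.le_succ n)
      refine Finset.sum_le_sum fun i _ => ?_
      refine le_trans (Finset.sum_le_sum_of_subset_of_nonneg hsub
        fun _ _ _ => sq_nonneg _) ?_
      refine Finset.sum_le_sum fun i' _ => ?_
      rw [st2]
      simp only [hΦ]
      nlinarith [sq_nonneg (sec f true ks (WBCube_pt y N s a b i i') - P true)]
  have hnear : ∀ x ∈ ob y N, ∃ i i' : ℕ, i ≤ n ∧ i' ≤ n ∧
      |g x - g (WBCube_pt y N s a b i i')| ≤ 8 * A * s := by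
    intro x hx
    simp only [ob, Finset.mem_product, Finset.mem_Ioo] at hx
    obtain ⟨i, hi, hi2⟩ := WBCube_near y.1 x.1 N s n a hs ha hns hx.1.1 hx.1.2
    obtain ⟨i', hi', hi'2⟩ := WBCube_near y.2 x.2 N s n b hs hb hns hx.2.1 hx.2.2
    refine ⟨i, i', hi, hi', ?_⟩
    set w := WBCube_pt y N s a b i i' with hw
    have hw1 : |(x.1 : ℝ) - w.1| ≤ 2 * s := hi2
    have hw2 : |(x.2 : ℝ) - w.2| ≤ 2 * s := hi'2
    have h1 := hf.dist x w
    have h2 : |P true * ((x.1 : ℝ) - w.1)| ≤ A * (2 * s) := by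
      rw [abs_mul]; exact mul_le_mul (hP true) hw1 (abs_nonneg _) hA
    have h3 : |P false * ((x.2 : ℝ) - w.2)| ≤ A * (2 * s) := by
      rw [abs_mul]; exact mul_le_mul (hP false) hw2 (abs_nonneg _) hA
    have h4 : A * (|(x.1 : ℝ) - w.1| + |(x.2 : ℝ) - w.2|) ≤ A * (2 * s + 2 * s) :=
      mul_le_mul_of_nonneg_left (add_le_add hw1 hw2) hA
    have e : g x - g w = (f x - f w) - P true * ((x.1 : ℝ) - w.1) - P false * ((x.2 : ℝ) - w.2) := by
      simp only [hg]; ring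
    rw [e]
    rw [abs_le] at h2 h3 ⊢
    have h5 := abs_le.1 (h1.trans h4)
    constructor <;> nlinarith
  have hy : y ∈ ob y N := by
    simp only [ob, Finset.mem_product, Finset.mem_Ioo]
    omega
  obtain ⟨i, i', hi, hi', hzi⟩ := hnear z hz
  obtain ⟨k, k', hk, hk', hyk⟩ := hnear y hy
  have ho := hosc hi hi' hk hk'
  have ho2 : |g (WBCube_pt y N s a b i i') - g (WBCube_pt y N s a b k k')| ≤
      s * ((2 * (2 * A) * q + 3 * (eps / 24)) * ((n : ℝ) + 1)) := by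
    have e : g (WBCube_pt y N s a b i i') - g (WBCube_pt y N s a b k k') =
        s * (h i i' - h k k') := by
      simp only [hh]; field_simp
    rw [e, abs_mul, abs_of_pos hsr]
    exact mul_le_mul_of_nonneg_left ho hsr.le
  have hfin1 : (s : ℝ) * ((2 * (2 * A) * q + 3 * (eps / 24)) * ((n : ℝ) + 1)) ≤
      eps / 2 * N := by
    have h1 : (2 * (2 * A) * q + 3 * (eps / 24)) * ((n : ℝ) + 1) ≤
        (2 * (2 * A) * q + 3 * (eps / 24)) * (2 * M) :=
      mul_le_mul_of_nonneg_left hnM (by positivity)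
    have h2 : (2 * (2 * A) * q + 3 * (eps / 24)) ≤ eps / 4 := by nlinarith
    have h3 : (2 * (2 * A) * q + 3 * (eps / 24)) * (2 * M) ≤ eps / 4 * (2 * M) :=
      mul_le_mul_of_nonneg_right h2 (by positivity)
    have h4 : (s : ℝ) * ((2 * (2 * A) * q + 3 * (eps / 24)) * ((n : ℝ) + 1)) ≤
        s * (eps / 4 * (2 * M)) := mul_le_mul_of_nonneg_left (h1.trans h3) hsr.le
    rw [hNr]
    refine h4.trans (le_of_eq ?_)
    ring
  have hfin2 : 16 * A * (s : ℝ) ≤ eps / 4 * N := by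
    have h1 : 64 * A ≤ eps * 2 ^ m := by
      rw [div_lt_iff₀ heps] at hm
      linarith
    have h2 : (2 : ℝ) ^ m ≤ M := by
      rw [hMd]; push_cast
      exact pow_le_pow_right₀ one_le_two (by omega)
    have h3 : 64 * A ≤ eps * M := h1.trans (mul_le_mul_of_nonneg_left h2 heps.le)
    rw [hNr]
    nlinarith
  have hNn : (0 : ℝ) ≤ N := by positivity
  have egoal : f z - f y - (P true * ((z.1 : ℝ) - y.1) + P false * ((z.2 : ℝ) - y.2)) =
      g z - g y := by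
    simp only [hg]; ring
  have hNcast : ((2 : ℝ) ^ j) = N := by rw [hNd]; push_cast; rfl
  rw [egoal, hNcast]
  rw [abs_le] at hzi hyk ho2 ⊢
  have : 0 ≤ eps * N := by positivity
  constructor <;> linarith

end Pool.Agent.FCF
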