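import Pool.Agent.FCF.Defs

/-!
# WIN part B: definitions for the discrete analysis of section 6
-/

set_option autoImplicit false

namespace Pool.Agent.FCF

open Pool.Agent.VSC (V J LowJet)
open Set Metric

/-- Open integer square of radius `l` around `y`. -/
noncomputable def ob (y : ℤ × ℤ) (l : ℕ) : Finset (ℤ × ℤ) :=
  Finset.Ioo (y.1 - l) (y.1 + l) ×ˢ Finset.Ioo (y.2 - l) (y.2 + l)

/-- Half open integer square around the origin. -/
noncomputable def sqr (L : ℕ) : Finset (ℤ × ℤ) :=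
  Finset.Ico (-(L : ℤ)) L ×ˢ Finset.Ico (-(L : ℤ)) L

/-- The unit vectors of the grid. -/
def eu : Bool → ℤ × ℤ
  | true => (1, 0)
  | false => (0, 1)

/-- Lipschitz functions on the grid. -/
def LipZ (A : ℝ) (f : ℤ × ℤ → ℝ) : Prop := ∀ (w : ℤ × ℤ) (u : Bool), |f (w + eu u) - f w| ≤ A

/-- Secant slope at scale `2^k` in the direction `u`. -/
noncomputable def sec (f : ℤ × ℤ → ℝ) (u : Bool) (k : ℕ) (w : ℤ × ℤ) : ℝ :=
  (f (w + (2 ^ k : ℤ) • eu u) - f w) / 2 ^ k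

/-- Square deviation of the secant slopes from a field `P`. -/
noncomputable def Phi (f : ℤ × ℤ → ℝ) (ks : ℕ) (P : ℤ × ℤ → Bool → ℝ) (w : ℤ × ℤ) : ℝ :=
  (sec f true ks w - P w true) ^ 2 + (sec f false ks w - P w false) ^ 2

open Classical in
/-- The bad grid points: outside `G`, or at some scale `2^j`, `k ≤ j ≤ J`, the average of `Phi` is
larger than `lam`, or the fraction of points outside `G` is larger than `lam2`. -/
def Bd (f : ℤ × ℤ → ℝ) (ks : ℕ) (P : ℤ × ℤ → Bool → ℝ) (G : Set (ℤ × ℤ)) (lam lam2 : ℝ)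
    (k J : ℕ) : Set (ℤ × ℤ) :=
  {y | y ∉ G ∨ (∃ j, k ≤ j ∧ j ≤ J ∧
    (lam * ((ob y (2 ^ j)).card : ℝ) < ∑ w ∈ ob y (2 ^ j), Phi f ks P w ∨
     lam2 * ((ob y (2 ^ j)).card : ℝ) < (((ob y (2 ^ j)).filter (fun w => w ∉ G)).card : ℝ)))}

/-- `T` is coarsely Lipschitz at the points of `G`. -/
def CoarseLip (T : V → ℝ) (G : Set V) (A r0 : ℝ) : Prop :=
  ∀ x ∈ G, ∀ y : V, |T y - T x| ≤ A * max ‖y - x‖ r0

/-- The vector with components `P true`, `P false`. -/
noncomputable def vec (P : Bool → ℝ) : V := !₂[P true, P false]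

end Pool.Agent.FCF
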