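import Pool.Agent.FCF.WBDefs

/-!
# FCF / WBEner: energies of secant slopes

PROOFS.
`LipZ.dist`: walk along the grid (induction on `|w.1 - w'.1|`, then on `|w.2 - w'.2|`).
`sec_bd`, `sec_slow`: from `LipZ.dist` (`sec_slow`: the difference is
`((f (w + 2^k u) - f (w' + 2^k u)) - (f w - f w')) / 2^k`).
`ener_step`: put `s = 2^k`, `N = 2^(k'-k)`, `S = sec f u k`, `S' = sec f u k'`, `d t = (t s) • eu u`.
Telescoping: `S' w = (1/N) ∑_{t < N} S (w + d t)`. Variance identity for every `w`: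
`∑_t (S (w + d t) - S' w)^2 = ∑_t S (w + d t)^2 - N (S' w)^2`. Sum over `w ∈ sqr L`:
`∑_t ∑_w (S (w + d t) - S' w)^2 = ∑_t ∑_w S (w + d t)^2 - N ∑_w (S' w)^2`.
For each `t`: `∑_{w ∈ sqr L} S (w + d t)^2 ≤ ∑_{w ∈ sqr L} S w^2 + A^2 * 2^k' * (2 L)`, because the
points `w + d t`, `w ∈ sqr L`, outside `sqr L` are at most `t s * 2 L ≤ 2^k' * 2 L` in number and
`S^2 ≤ A^2`. In the same way, substituting `w = w' - d t`:
`∑_{w ∈ sqr L} (S w - S' (w - d t))^2 ≤ ∑_{w' ∈ sqr L} (S (w' + d t) - S' w')^2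
   + (2A)^2 * 2^k' * (2 L)` (the points `w ∈ sqr L` with `w - d t ∉ sqr L` are at most
`2^k' * 2 L`). So the average over `t` of the left sides is at most
`∑ S^2 - ∑ S'^2 + 2 A^2 2^k' L + 8 A^2 2^k' L`; take the best `t`.
`ener_mono`: the left side of `ener_step` before the last substitution is nonnegative.
-/

set_option autoImplicit false

namespace Pool.Agent.FCF

open Set Metric

private theorem walkN51 {A : ℝ} {f : ℤ × ℤ → ℝ} (hf : LipZ A f) (u : Bool) (n : ℕ)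
    (w : ℤ × ℤ) : |f (w + (n : ℤ) • eu u) - f w| ≤ n * A := by
  induction n with
  | zero => simp
  | succ n ih =>
    have h1 := hf (w + (n : ℤ) • eu u) u
    have h2 : w + ((n + 1 : ℕ) : ℤ) • eu u = w + (n : ℤ) • eu u + eu u := by
      push_cast
      rw [add_smul, one_smul, add_assoc]
    rw [h2]
    have h3 := abs_add_le (f (w + (n : ℤ) • eu u + eu u) - f (w + (n : ℤ) • eu u))
      (f (w + (n : ℤ) • eu u) - f w)
    rw [sub_add_sub_cancel] at h3
    push_cast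
    linarith

private theorem walkZ51 {A : ℝ} {f : ℤ × ℤ → ℝ} (hf : LipZ A f) (u : Bool) (z : ℤ)
    (w : ℤ × ℤ) : |f (w + z • eu u) - f w| ≤ |(z : ℝ)| * A := by
  obtain ⟨n, rfl | rfl⟩ := z.eq_nat_or_neg
  · have := walkN51 hf u n w
    simpa using this
  · have h1 := walkN51 hf u n (w + (-(n : ℤ)) • eu u)
    have h2 : w + (-(n : ℤ)) • eu u + (n : ℤ) • eu u = w := by
      rw [add_assoc, ← add_smul]
      simp
    rw [h2, abs_sub_comm] at h1
    simpa using h1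

theorem LipZ.dist {A : ℝ} {f : ℤ × ℤ → ℝ} (hf : LipZ A f) (w w' : ℤ × ℤ) :
    |f w - f w'| ≤ A * (|(w.1 : ℝ) - w'.1| + |(w.2 : ℝ) - w'.2|) := by
  have h1 := walkZ51 hf true (w.1 - w'.1) w'
  have h2 := walkZ51 hf false (w.2 - w'.2) (w' + (w.1 - w'.1) • eu true)
  have h3 : w' + (w.1 - w'.1) • eu true + (w.2 - w'.2) • eu false = w := by
    ext <;> simp [eu]
  rw [h3] at h2
  have h4 := abs_add_le (f w - f (w' + (w.1 - w'.1) • eu true))
    (f (w' + (w.1 - w'.1) • eu true) - f w')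
  rw [sub_add_sub_cancel] at h4
  push_cast at h1 h2
  linarith

theorem sec_bd {A : ℝ} {f : ℤ × ℤ → ℝ} (hf : LipZ A f) (u : Bool) (k : ℕ) (w : ℤ × ℤ) :
    |sec f u k w| ≤ A := by
  have h1 := walkZ51 hf u (2 ^ k) w
  push_cast at h1
  have h2 : (0 : ℝ) < 2 ^ k := by positivity
  rw [sec, abs_div, abs_of_pos h2, div_le_iff₀ h2]
  rw [abs_of_pos h2] at h1
  linarith

theorem sec_slow {A : ℝ} {f : ℤ × ℤ → ℝ} (hf : LipZ A f) (u : Bool) (k : ℕ) (w w' : ℤ × ℤ) :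
    |sec f u k w - sec f u k w'| ≤ 2 * A * (|(w.1 : ℝ) - w'.1| + |(w.2 : ℝ) - w'.2|) / 2 ^ k := by
  have h2 : (0 : ℝ) < 2 ^ k := by positivity
  have h3 := hf.dist (w + (2 ^ k : ℤ) • eu u) (w' + (2 ^ k : ℤ) • eu u)
  have h4 := hf.dist w w'
  have h5 : (((w + (2 ^ k : ℤ) • eu u).1 : ℤ) : ℝ) - ((w' + (2 ^ k : ℤ) • eu u).1 : ℤ) =
      (w.1 : ℝ) - w'.1 := by
    simp
  have h6 : (((w + (2 ^ k : ℤ) • eu u).2 : ℤ) : ℝ) - ((w' + (2 ^ k : ℤ) • eu u).2 : ℤ) =
      (w.2 : ℝ) - w'.2 := by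
    simp
  rw [h5, h6] at h3
  have h7 : sec f u k w - sec f u k w' =
      ((f (w + (2 ^ k : ℤ) • eu u) - f (w' + (2 ^ k : ℤ) • eu u)) - (f w - f w')) / 2 ^ k := by
    rw [sec, sec]
    ring
  rw [h7, abs_div, abs_of_pos h2]
  refine div_le_div_of_nonneg_right ?_ h2.le
  refine (abs_sub _ _).trans ?_
  linarith

private theorem shift51 (u : Bool) (z : ℤ) (L : ℕ) {B : ℝ} {g : ℤ × ℤ → ℝ}
    (h0 : ∀ w, 0 ≤ g w) (hB : ∀ w, g w ≤ B) :
    ∑ w ∈ sqr L, g (w + z • eu u) ≤ ∑ w ∈ sqr L, g w + B * |(z : ℝ)| * (2 * L) := by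
  have hB0 : 0 ≤ B := (h0 0).trans (hB 0)
  rw [← Finset.sum_filter_add_sum_filter_not (sqr L) (fun w => w + z • eu u ∈ sqr L)]
  have h1 : ∑ w ∈ (sqr L).filter (fun w => w + z • eu u ∈ sqr L), g (w + z • eu u) ≤
      ∑ w ∈ sqr L, g w := by
    rw [← Finset.sum_image (f := g) (g := fun w => w + z • eu u)
      (fun x _ y _ hxy => add_right_cancel hxy)]
    refine Finset.sum_le_sum_of_subset_of_nonneg ?_ (fun w _ _ => h0 w)
    intro w hw
    obtain ⟨w', hw', rfl⟩ := Finset.mem_image.1 hw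
    exact (Finset.mem_filter.1 hw').2
  have hc : (((sqr L).filter (fun w => ¬ (w + z • eu u ∈ sqr L))).card : ℝ) ≤
      |(z : ℝ)| * (2 * L) := by
    have key : ∀ T : Finset ℤ, (T.card : ℤ) = |z| →
        (((sqr L).filter (fun w => ¬ (w + z • eu u ∈ sqr L))) ⊆
          T ×ˢ Finset.Ico (-(L : ℤ)) L ∨
        ((sqr L).filter (fun w => ¬ (w + z • eu u ∈ sqr L))) ⊆
          Finset.Ico (-(L : ℤ)) L ×ˢ T) →
        (((sqr L).filter (fun w => ¬ (w + z • eu u ∈ sqr L))).card : ℝ) ≤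
          |(z : ℝ)| * (2 * L) := by
      intro T hT hsub
      have hI : ((Finset.Ico (-(L : ℤ)) L).card : ℝ) = 2 * L := by
        rw [Int.card_Ico]
        have : ((L : ℤ) - -(L : ℤ)).toNat = 2 * L := by omega
        rw [this]
        push_cast
        ring
      have hT2 : (T.card : ℝ) = |(z : ℝ)| := by
        have := congrArg (fun x : ℤ => (x : ℝ)) hT
        simpa using this
      rcases hsub with hs | hs
      · have := Finset.card_le_card hs
        rw [Finset.card_product] at this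
        calc _ ≤ ((T.card * (Finset.Ico (-(L : ℤ)) L).card : ℕ) : ℝ) := by exact_mod_cast this
          _ = _ := by rw [Nat.cast_mul, hI, hT2]
      · have := Finset.card_le_card hs
        rw [Finset.card_product] at this
        calc _ ≤ (((Finset.Ico (-(L : ℤ)) L).card * T.card : ℕ) : ℝ) := by exact_mod_cast this
          _ = _ := by rw [Nat.cast_mul, hI, hT2, mul_comm]
    cases u with
    | true =>
      rcases le_total 0 z with hz | hz
      · refine key (Finset.Ico ((L : ℤ) - z) L) ?_ (Or.inl ?_)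
        · rw [Int.card_Ico, abs_of_nonneg hz]
          omega
        · intro w hw
          simp only [sqr, eu, Finset.mem_filter, Finset.mem_product, Finset.mem_Ico,
            Prod.fst_add, Prod.snd_add, Prod.smul_fst, Prod.smul_snd, smul_eq_mul] at hw ⊢
          omega
      · refine key (Finset.Ico (-(L : ℤ)) (-(L : ℤ) - z)) ?_ (Or.inl ?_)
        · rw [Int.card_Ico, abs_of_nonpos hz]
          omega
        · intro w hw
          simp only [sqr, eu, Finset.mem_filter, Finset.mem_product, Finset.mem_Ico,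
            Prod.fst_add, Prod.snd_add, Prod.smul_fst, Prod.smul_snd, smul_eq_mul] at hw ⊢
          omega
    | false =>
      rcases le_total 0 z with hz | hz
      · refine key (Finset.Ico ((L : ℤ) - z) L) ?_ (Or.inr ?_)
        · rw [Int.card_Ico, abs_of_nonneg hz]
          omega
        · intro w hw
          simp only [sqr, eu, Finset.mem_filter, Finset.mem_product, Finset.mem_Ico,
            Prod.fst_add, Prod.snd_add, Prod.smul_fst, Prod.smul_snd, smul_eq_mul] at hw ⊢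
          omega
      · refine key (Finset.Ico (-(L : ℤ)) (-(L : ℤ) - z)) ?_ (Or.inr ?_)
        · rw [Int.card_Ico, abs_of_nonpos hz]
          omega
        · intro w hw
          simp only [sqr, eu, Finset.mem_filter, Finset.mem_product, Finset.mem_Ico,
            Prod.fst_add, Prod.snd_add, Prod.smul_fst, Prod.smul_snd, smul_eq_mul] at hw ⊢
          omega
  have h2 : ∑ w ∈ (sqr L).filter (fun w => ¬ (w + z • eu u ∈ sqr L)), g (w + z • eu u) ≤
      B * |(z : ℝ)| * (2 * L) := by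
    calc _ ≤ ∑ w ∈ (sqr L).filter (fun w => ¬ (w + z • eu u ∈ sqr L)), B :=
          Finset.sum_le_sum (fun w _ => hB _)
      _ = (((sqr L).filter (fun w => ¬ (w + z • eu u ∈ sqr L))).card : ℝ) * B := by
          rw [Finset.sum_const, nsmul_eq_mul]
      _ ≤ (|(z : ℝ)| * (2 * L)) * B := mul_le_mul_of_nonneg_right hc hB0
      _ = _ := by ring
  linarith

private theorem tele51 (f : ℤ × ℤ → ℝ) (u : Bool) {k k' : ℕ} (hk : k ≤ k') (w : ℤ × ℤ) :
    ∑ t ∈ Finset.range (2 ^ (k' - k)), sec f u k (w + ((t : ℤ) * 2 ^ k) • eu u) =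
      2 ^ (k' - k) * sec f u k' w := by
  have h1 : ∀ t ∈ Finset.range (2 ^ (k' - k)), sec f u k (w + ((t : ℤ) * 2 ^ k) • eu u) =
      f (w + (((t + 1 : ℕ) : ℤ) * 2 ^ k) • eu u) / 2 ^ k -
        f (w + ((t : ℤ) * 2 ^ k) • eu u) / 2 ^ k := by
    intro t _
    have h2 : w + ((t : ℤ) * 2 ^ k) • eu u + (2 ^ k : ℤ) • eu u =
        w + (((t + 1 : ℕ) : ℤ) * 2 ^ k) • eu u := by
      rw [add_assoc, ← add_smul]
      congr 2
      push_cast
      ring
    rw [sec, h2, sub_div]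
  rw [Finset.sum_congr rfl h1,
    Finset.sum_range_sub (fun t : ℕ => f (w + ((t : ℤ) * 2 ^ k) • eu u) / 2 ^ k)]
  have h3 : (((2 ^ (k' - k) : ℕ) : ℤ) * 2 ^ k) = 2 ^ k' := by
    push_cast
    rw [← pow_add, Nat.sub_add_cancel hk]
  have h4 : (2 : ℝ) ^ k' = 2 ^ (k' - k) * 2 ^ k := by
    rw [← pow_add, Nat.sub_add_cancel hk]
  rw [h3, sec, h4]
  have h5 : (2 : ℝ) ^ k ≠ 0 := by positivity
  have h6 : (2 : ℝ) ^ (k' - k) ≠ 0 := by positivity
  simp only [Nat.cast_zero, zero_mul, zero_smul, add_zero]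
  field_simp

private theorem vari51 {A : ℝ} (hA : 0 ≤ A) {f : ℤ × ℤ → ℝ} (hf : LipZ A f) (u : Bool) {k k' : ℕ}
    (hk : k ≤ k') (L : ℕ) :
    ∑ t ∈ Finset.range (2 ^ (k' - k)), ∑ w ∈ sqr L,
      (sec f u k (w + ((t : ℤ) * 2 ^ k) • eu u) - sec f u k' w) ^ 2 ≤
    2 ^ (k' - k) * (∑ w ∈ sqr L, sec f u k w ^ 2 - ∑ w ∈ sqr L, sec f u k' w ^ 2 +
      2 * A ^ 2 * 2 ^ k' * L) := by
  have h1 : ∑ t ∈ Finset.range (2 ^ (k' - k)), ∑ w ∈ sqr L,
      (sec f u k (w + ((t : ℤ) * 2 ^ k) • eu u) - sec f u k' w) ^ 2 =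
      ∑ t ∈ Finset.range (2 ^ (k' - k)), ∑ w ∈ sqr L,
        sec f u k (w + ((t : ℤ) * 2 ^ k) • eu u) ^ 2 -
      2 ^ (k' - k) * ∑ w ∈ sqr L, sec f u k' w ^ 2 := by
    rw [Finset.sum_comm, Finset.sum_comm (s := Finset.range (2 ^ (k' - k))), Finset.mul_sum,
      ← Finset.sum_sub_distrib]
    refine Finset.sum_congr rfl (fun w _ => ?_)
    have h2 : ∀ t ∈ Finset.range (2 ^ (k' - k)),
        (sec f u k (w + ((t : ℤ) * 2 ^ k) • eu u) - sec f u k' w) ^ 2 =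
        sec f u k (w + ((t : ℤ) * 2 ^ k) • eu u) ^ 2 -
        2 * sec f u k' w * sec f u k (w + ((t : ℤ) * 2 ^ k) • eu u) + sec f u k' w ^ 2 :=
      fun t _ => by ring
    rw [Finset.sum_congr rfl h2, Finset.sum_add_distrib, Finset.sum_sub_distrib,
      ← Finset.mul_sum, tele51 f u hk w, Finset.sum_const, Finset.card_range, nsmul_eq_mul]
    push_cast
    ring
  rw [h1]
  have h3 : ∀ t ∈ Finset.range (2 ^ (k' - k)), ∑ w ∈ sqr L,
        sec f u k (w + ((t : ℤ) * 2 ^ k) • eu u) ^ 2 ≤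
      ∑ w ∈ sqr L, sec f u k w ^ 2 + 2 * A ^ 2 * 2 ^ k' * L := by
    intro t ht
    have h4 := shift51 u ((t : ℤ) * 2 ^ k) L (B := A ^ 2) (g := fun w => sec f u k w ^ 2)
      (fun w => sq_nonneg _) (fun w => by
        have := sec_bd hf u k w
        rw [← sq_abs]
        exact pow_le_pow_left₀ (abs_nonneg _) this 2)
    have h5 : |(((t : ℤ) * 2 ^ k : ℤ) : ℝ)| ≤ 2 ^ k' := by
      push_cast
      rw [abs_of_nonneg (by positivity)]
      have h6 : (t : ℝ) ≤ 2 ^ (k' - k) := by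
        exact_mod_cast (Finset.mem_range.1 ht).le
      calc (t : ℝ) * 2 ^ k ≤ 2 ^ (k' - k) * 2 ^ k :=
            mul_le_mul_of_nonneg_right h6 (by positivity)
        _ = 2 ^ k' := by rw [← pow_add, Nat.sub_add_cancel hk]
    have h7 : A ^ 2 * |(((t : ℤ) * 2 ^ k : ℤ) : ℝ)| * (2 * L) ≤ A ^ 2 * 2 ^ k' * (2 * L) :=
      mul_le_mul_of_nonneg_right (mul_le_mul_of_nonneg_left h5 (sq_nonneg A)) (by positivity)
    have h8 : A ^ 2 * 2 ^ k' * (2 * L) = 2 * A ^ 2 * 2 ^ k' * L := by ring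
    linarith
  have h9 := Finset.sum_le_sum h3
  rw [Finset.sum_const, Finset.card_range, nsmul_eq_mul] at h9
  push_cast at h9
  linarith

theorem ener_mono {A : ℝ} (hA : 0 ≤ A) {f : ℤ × ℤ → ℝ} (hf : LipZ A f) (u : Bool) {k k' : ℕ}
    (hk : k ≤ k') (L : ℕ) :
    ∑ w ∈ sqr L, sec f u k' w ^ 2 ≤ ∑ w ∈ sqr L, sec f u k w ^ 2 + 2 * A ^ 2 * 2 ^ k' * L := by
  have h1 := vari51 hA hf u hk L
  have h2 : 0 ≤ ∑ t ∈ Finset.range (2 ^ (k' - k)), ∑ w ∈ sqr L,
      (sec f u k (w + ((t : ℤ) * 2 ^ k) • eu u) - sec f u k' w) ^ 2 :=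
    Finset.sum_nonneg (fun t _ => Finset.sum_nonneg (fun w _ => sq_nonneg _))
  have h3 : (0 : ℝ) < 2 ^ (k' - k) := by positivity
  have h4 := nonneg_of_mul_nonneg_right (h2.trans h1) h3
  linarith

theorem ener_step {A : ℝ} (hA : 0 ≤ A) {f : ℤ × ℤ → ℝ} (hf : LipZ A f) (u : Bool) {k k' : ℕ}
    (hk : k ≤ k') (L : ℕ) :
    ∃ d : ℤ × ℤ, ∑ w ∈ sqr L, (sec f u k w - sec f u k' (w - d)) ^ 2 ≤
      ∑ w ∈ sqr L, sec f u k w ^ 2 - ∑ w ∈ sqr L, sec f u k' w ^ 2 + 10 * A ^ 2 * 2 ^ k' * L := by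
  have h1 := vari51 hA hf u hk L
  have h2 : ∀ t ∈ Finset.range (2 ^ (k' - k)), ∑ w ∈ sqr L,
      (sec f u k w - sec f u k' (w - ((t : ℤ) * 2 ^ k) • eu u)) ^ 2 ≤
      ∑ w ∈ sqr L, (sec f u k (w + ((t : ℤ) * 2 ^ k) • eu u) - sec f u k' w) ^ 2 +
        8 * A ^ 2 * 2 ^ k' * L := by
    intro t ht
    have h4 := shift51 u (-((t : ℤ) * 2 ^ k)) L (B := 4 * A ^ 2)
      (g := fun w => (sec f u k (w + ((t : ℤ) * 2 ^ k) • eu u) - sec f u k' w) ^ 2)
      (fun w => sq_nonneg _) (fun w => by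
        have h5 := sec_bd hf u k (w + ((t : ℤ) * 2 ^ k) • eu u)
        have h6 := sec_bd hf u k' w
        have h7 : |sec f u k (w + ((t : ℤ) * 2 ^ k) • eu u) - sec f u k' w| ≤ 2 * A :=
          (abs_sub _ _).trans (by linarith)
        rw [← sq_abs]
        have h8 := pow_le_pow_left₀ (abs_nonneg _) h7 2
        linarith)
    have h9 : ∀ w ∈ sqr L, (sec f u k (w + (-((t : ℤ) * 2 ^ k)) • eu u +
        ((t : ℤ) * 2 ^ k) • eu u) - sec f u k' (w + (-((t : ℤ) * 2 ^ k)) • eu u)) ^ 2 =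
        (sec f u k w - sec f u k' (w - ((t : ℤ) * 2 ^ k) • eu u)) ^ 2 := by
      intro w _
      rw [neg_smul, neg_add_cancel_right, ← sub_eq_add_neg]
    beta_reduce at h4
    rw [Finset.sum_congr rfl h9] at h4
    have h5 : |((-((t : ℤ) * 2 ^ k) : ℤ) : ℝ)| ≤ 2 ^ k' := by
      push_cast
      rw [abs_neg, abs_of_nonneg (by positivity)]
      have h6 : (t : ℝ) ≤ 2 ^ (k' - k) := by
        exact_mod_cast (Finset.mem_range.1 ht).le
      calc (t : ℝ) * 2 ^ k ≤ 2 ^ (k' - k) * 2 ^ k :=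
            mul_le_mul_of_nonneg_right h6 (by positivity)
        _ = 2 ^ k' := by rw [← pow_add, Nat.sub_add_cancel hk]
    have h7 : 4 * A ^ 2 * |((-((t : ℤ) * 2 ^ k) : ℤ) : ℝ)| * (2 * L) ≤
        4 * A ^ 2 * 2 ^ k' * (2 * L) :=
      mul_le_mul_of_nonneg_right (mul_le_mul_of_nonneg_left h5 (by positivity)) (by positivity)
    have h8 : 4 * A ^ 2 * 2 ^ k' * (2 * L) = 8 * A ^ 2 * 2 ^ k' * L := by ring
    linarith
  have h3 : ∑ t ∈ Finset.range (2 ^ (k' - k)), ∑ w ∈ sqr L,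
      (sec f u k w - sec f u k' (w - ((t : ℤ) * 2 ^ k) • eu u)) ^ 2 ≤
      ∑ _t ∈ Finset.range (2 ^ (k' - k)), (∑ w ∈ sqr L, sec f u k w ^ 2 -
        ∑ w ∈ sqr L, sec f u k' w ^ 2 + 10 * A ^ 2 * 2 ^ k' * L) := by
    have h4 := Finset.sum_le_sum h2
    rw [Finset.sum_add_distrib, Finset.sum_const, Finset.card_range, nsmul_eq_mul] at h4
    rw [Finset.sum_const, Finset.card_range, nsmul_eq_mul]
    push_cast at h4 ⊢
    linarith
  obtain ⟨t, -, ht⟩ := Finset.exists_le_of_sum_le (Finset.nonempty_range_iff.2 (by positivity)) h3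
  exact ⟨((t : ℤ) * 2 ^ k) • eu u, ht⟩

end Pool.Agent.FCF
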