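import Pool.Agent.FCF.WBCube

/-!
# FCF / WBPlanV: planarity of `T` around a grid point at one scale

PROOF. `F m := f (gp m)` is `LipZ A` (`‖gp (m + eu u) - gp m‖ = 1`). Take `lam, m0` from `plan_cube` for
`eps / 8` (at the scale `j + 2`: `2^(j+2) eps/32`, so use `plan_cube` with `eps / 32`).
Let `z` be real with `|z i - gp y i| ≤ 2^j`. Round the coordinates of `z`: grid point `m` with
`|gp m i - z i| ≤ 1`, `m ∈ ob y (2^(j+2))`. A point `n ∈ ob y (2^(j+2))` with `gp n ∈ G` and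
`|n.1 - m.1|, |n.2 - m.2| ≤ q`, where `q` is the least natural number with
`(2q+1)^2 > lam2 (2^(j+3))^2`: the square of radius `q` around `m` is contained in `ob y (2^(j+2))`
(`2^j + 1 + q < 2^(j+2)` for small `lam2`) and has more points than `lam2 * card (ob y (2^(j+2)))`, so
one of them has `gp n ∈ G`. Then `‖z - gp n‖ ≤ 2 (q + 1) =: d` and `q ≤ sqrt lam2 * 2^(j+3) + 1`.
Estimates: `|T z - T (gp n)| ≤ A max d r0`, `|T (gp n) - f (gp n)| ≤ A r0`,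
`|f (gp n) - f (gp y) - P (n - y)| ≤ (eps/32) 2^(j+2)`, `|f (gp y) - T (gp y)| ≤ A r0`,
`|P (gp n - z)| ≤ 2 A d`. Sum `≤ A (3 d + 3 r0) + (eps/8) 2^j ≤ eps 2^j` if `d ≤ (eps/(16 A)) 2^j` and
`r0 ≤ (eps/(16 A)) 2^j`: `lam2` small, `2^j` large (`m0` large; replace `A` by `max A 1` for the divisions).
-/

set_option autoImplicit false

namespace Pool.Agent.FCF

open Pool.Agent.VSC (V J LowJet)
open Set Metric

private theorem WBPlanV_gp0 (n : ℤ × ℤ) : gp n 0 = (n.1 : ℝ) := by simp [gp]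

private theorem WBPlanV_gp1 (n : ℤ × ℤ) : gp n 1 = (n.2 : ℝ) := by simp [gp]

private theorem WBPlanV_inner (P : Bool → ℝ) (v : V) :
    (inner ℝ (vec P) v : ℝ) = P true * v 0 + P false * v 1 := by
  rw [PiLp.inner_apply, Fin.sum_univ_two]
  simp [vec, mul_comm]

private theorem WBPlanV_norm {v : V} {e : ℝ} (he : 0 ≤ e) (h : ∀ i, |v i| ≤ e) : ‖v‖ ≤ 2 * e := by
  rw [EuclideanSpace.norm_eq, Fin.sum_univ_two]
  apply Real.sqrt_le_iff.2
  refine ⟨by linarith, ?_⟩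
  have h0 : ‖v 0‖ ^ 2 ≤ e ^ 2 := pow_le_pow_left₀ (norm_nonneg _) (h 0) 2
  have h1 : ‖v 1‖ ^ 2 ≤ e ^ 2 := pow_le_pow_left₀ (norm_nonneg _) (h 1) 2
  nlinarith [sq_nonneg e]

private theorem WBPlanV_step (w : ℤ × ℤ) (u : Bool) : ‖gp (w + eu u) - gp w‖ = 1 := by
  rw [EuclideanSpace.norm_eq, Fin.sum_univ_two]
  cases u <;> simp [gp, eu]

private theorem WBPlanV_card (y : ℤ × ℤ) (l : ℕ) : ((ob y l).card : ℝ) ≤ (2 * (l : ℝ)) ^ 2 := by
  have h1 : (ob y l).card ≤ (2 * l) * (2 * l) := by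
    unfold ob
    rw [Finset.card_product, Int.card_Ioo, Int.card_Ioo]
    exact Nat.mul_le_mul (by omega) (by omega)
  calc ((ob y l).card : ℝ) ≤ (((2 * l) * (2 * l) : ℕ) : ℝ) := by exact_mod_cast h1
    _ = (2 * (l : ℝ)) ^ 2 := by push_cast; ring

open Classical in
theorem plan_V {A eps : ℝ} (hA : 0 ≤ A) (heps : 0 < eps) :
    ∃ lam : ℝ, 0 < lam ∧ ∃ lam2 : ℝ, 0 < lam2 ∧ ∃ m0 : ℕ,
      ∀ (T : V → ℝ) (G : Set V) (r0 : ℝ) (f : V → ℝ), 0 ≤ r0 → CoarseLip T G A r0 →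
      (∀ x y, |f x - f y| ≤ A * ‖x - y‖) → (∀ x ∈ G, |f x - T x| ≤ A * r0) →
      ∀ (ks j : ℕ) (y : ℤ × ℤ) (P : Bool → ℝ), (∀ u, |P u| ≤ A) → ks + m0 ≤ j →
      r0 ≤ lam2 * 2 ^ j → gp y ∈ G →
      ∑ w ∈ ob y (2 ^ (j + 2)), ((sec (fun m => f (gp m)) true ks w - P true) ^ 2 +
          (sec (fun m => f (gp m)) false ks w - P false) ^ 2)
        ≤ lam * ((ob y (2 ^ (j + 2))).card : ℝ) →
      (((ob y (2 ^ (j + 2))).filter (fun w => gp w ∉ G)).card : ℝ)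
        ≤ lam2 * ((ob y (2 ^ (j + 2))).card : ℝ) →
      ∀ z : V, (∀ i, |z i - gp y i| ≤ 2 ^ j) →
        |T z - T (gp y) - inner ℝ (vec P) (z - gp y)| ≤ eps * 2 ^ j := by
  obtain ⟨lam, hlam, m1, hcube⟩ := plan_cube hA (show 0 < eps / 32 by positivity)
  set c : ℝ := min (1 / 8) (eps / (76 * (A + 1))) with hc
  have hc0 : 0 < c := lt_min (by norm_num) (by positivity)
  have hc1 : c ≤ 1 / 8 := min_le_left _ _
  have hc2 : c ≤ eps / (76 * (A + 1)) := min_le_right _ _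
  obtain ⟨m2, hm2⟩ := pow_unbounded_of_one_lt (32 * (A + 1) / eps) (one_lt_two : (1 : ℝ) < 2)
  refine ⟨lam, hlam, c ^ 2, by positivity, max m1 m2, ?_⟩
  intro T G r0 f hr0 hT hf hfT ks j y P hP hj hr0j hyG hsum hbad z hz
  set N : ℝ := 2 ^ j with hN
  have hN1 : 1 ≤ N := one_le_pow₀ one_le_two
  have hN0 : 0 < N := by linarith
  have hNm : 32 * (A + 1) / eps ≤ N := by
    have h1 : (2 : ℝ) ^ m2 ≤ 2 ^ j :=
      pow_le_pow_right₀ one_le_two (by have := le_max_right m1 m2; omega)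
    linarith
  have hAN : 32 * (A + 1) ≤ eps * N := by
    rw [div_le_iff₀ heps] at hNm
    linarith
  -- the nearby good grid point
  set m : ℤ × ℤ := (⌊z 0⌋, ⌊z 1⌋) with hm
  set q : ℕ := ⌈4 * c * N⌉₊ with hq
  have hq1 : 4 * c * N ≤ q := Nat.le_ceil _
  have hq2 : (q : ℝ) < 4 * c * N + 1 := Nat.ceil_lt_add_one (by positivity)
  have hcN : 4 * c * N ≤ N / 2 := by nlinarith
  have hl : ((2 ^ (j + 2) : ℕ) : ℝ) = 4 * N := by
    push_cast
    rw [hN, pow_add]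
    ring
  have hlZ : (((2 ^ (j + 2) : ℕ) : ℤ) : ℝ) = 4 * N := by
    rw [Int.cast_natCast]
    exact hl
  set Q : Finset (ℤ × ℤ) := Finset.Icc (m.1 - q) (m.1 + q) ×ˢ Finset.Icc (m.2 - q) (m.2 + q)
    with hQ
  have hQc : (Q.card : ℝ) = (2 * (q : ℝ) + 1) ^ 2 := by
    have h1 : Q.card = (2 * q + 1) * (2 * q + 1) := by
      rw [hQ, Finset.card_product, Int.card_Icc, Int.card_Icc]
      congr 1 <;> omega
    rw [h1]
    push_cast
    ring
  have hz0 := hz 0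
  have hz1 := hz 1
  rw [WBPlanV_gp0] at hz0
  rw [WBPlanV_gp1] at hz1
  have hfl0 := Int.floor_le (z 0)
  have hfl0' := Int.lt_floor_add_one (z 0)
  have hfl1 := Int.floor_le (z 1)
  have hfl1' := Int.lt_floor_add_one (z 1)
  have hz0' := abs_le.1 hz0
  have hz1' := abs_le.1 hz1
  have hQmem : ∀ n ∈ Q, |(n.1 : ℝ) - z 0| ≤ q + 1 ∧ |(n.2 : ℝ) - z 1| ≤ q + 1 := by
    intro n hn
    rw [hQ, Finset.mem_product, Finset.mem_Icc, Finset.mem_Icc] at hn
    obtain ⟨⟨h1, h2⟩, h3, h4⟩ := hn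
    have h1' : ((⌊z 0⌋ : ℤ) : ℝ) - q ≤ (n.1 : ℝ) := by exact_mod_cast h1
    have h2' : (n.1 : ℝ) ≤ ((⌊z 0⌋ : ℤ) : ℝ) + q := by exact_mod_cast h2
    have h3' : ((⌊z 1⌋ : ℤ) : ℝ) - q ≤ (n.2 : ℝ) := by exact_mod_cast h3
    have h4' : (n.2 : ℝ) ≤ ((⌊z 1⌋ : ℤ) : ℝ) + q := by exact_mod_cast h4
    constructor <;> rw [abs_le] <;> constructor <;> linarith
  have hQob : Q ⊆ ob y (2 ^ (j + 2)) := by
    intro n hn
    obtain ⟨h1, h2⟩ := hQmem n hn
    have h1' := abs_le.1 h1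
    have h2' := abs_le.1 h2
    unfold ob
    rw [Finset.mem_product, Finset.mem_Ioo, Finset.mem_Ioo]
    refine ⟨⟨?_, ?_⟩, ?_, ?_⟩
    · have : ((y.1 : ℤ) : ℝ) - (((2 ^ (j + 2) : ℕ) : ℤ) : ℝ) < (n.1 : ℝ) := by
        rw [hlZ]
        linarith [h1'.1]
      exact_mod_cast this
    · have : (n.1 : ℝ) < ((y.1 : ℤ) : ℝ) + (((2 ^ (j + 2) : ℕ) : ℤ) : ℝ) := by
        rw [hlZ]
        linarith [h1'.2]
      exact_mod_cast this
    · have : ((y.2 : ℤ) : ℝ) - (((2 ^ (j + 2) : ℕ) : ℤ) : ℝ) < (n.2 : ℝ) := by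
        rw [hlZ]
        linarith [h2'.1]
      exact_mod_cast this
    · have : (n.2 : ℝ) < ((y.2 : ℤ) : ℝ) + (((2 ^ (j + 2) : ℕ) : ℤ) : ℝ) := by
        rw [hlZ]
        linarith [h2'.2]
      exact_mod_cast this
  have hgood : ∃ n ∈ Q, gp n ∈ G := by
    by_contra hcon
    push Not at hcon
    have h1 : Q ⊆ (ob y (2 ^ (j + 2))).filter (fun w => gp w ∉ G) := by
      intro n hn
      exact Finset.mem_filter.2 ⟨hQob hn, hcon n hn⟩
    have h2 : (Q.card : ℝ) ≤ (((ob y (2 ^ (j + 2))).filter (fun w => gp w ∉ G)).card : ℝ) := by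
      exact_mod_cast Finset.card_le_card h1
    have h3 := WBPlanV_card y (2 ^ (j + 2))
    rw [hl] at h3
    have h4 : c ^ 2 * ((ob y (2 ^ (j + 2))).card : ℝ) ≤ c ^ 2 * (2 * (4 * N)) ^ 2 :=
      mul_le_mul_of_nonneg_left h3 (by positivity)
    rw [hQc] at h2
    have h5 : (8 * c * N) ^ 2 < (2 * (q : ℝ) + 1) ^ 2 := by
      apply pow_lt_pow_left₀ _ (by positivity) two_ne_zero
      linarith
    nlinarith
  obtain ⟨n, hnQ, hnG⟩ := hgood
  obtain ⟨hn0, hn1⟩ := hQmem n hnQ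
  have hF : LipZ A (fun m => f (gp m)) := by
    intro w u
    have h1 := hf (gp (w + eu u)) (gp w)
    rw [WBPlanV_step, mul_one] at h1
    exact h1
  have hc3 := hcube (fun m => f (gp m)) hF ks (j + 2) y P hP
    (by have := le_max_left m1 m2; omega) hsum n (hQob hnQ)
  have hpow : eps / 32 * 2 ^ (j + 2) = eps / 8 * N := by
    rw [pow_add, hN]
    ring
  rw [hpow] at hc3
  -- distances
  set d : ℝ := 2 * ((q : ℝ) + 1) with hd
  have hzn : ‖z - gp n‖ ≤ d := by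
    apply WBPlanV_norm (by positivity)
    intro i
    fin_cases i
    · show |z 0 - gp n 0| ≤ _
      rw [WBPlanV_gp0, abs_sub_comm]
      exact hn0
    · show |z 1 - gp n 1| ≤ _
      rw [WBPlanV_gp1, abs_sub_comm]
      exact hn1
  have e1 : |T z - T (gp n)| ≤ A * (d + r0) := by
    refine (hT (gp n) hnG z).trans ?_
    apply mul_le_mul_of_nonneg_left _ hA
    apply max_le
    · linarith
    · have : 0 ≤ d := by positivity
      linarith
  have e2 := hfT (gp n) hnG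
  have e3 := hfT (gp y) hyG
  rw [WBPlanV_inner]
  have hzy0 : (z - gp y) 0 = z 0 - y.1 := by
    show z 0 - gp y 0 = _
    rw [WBPlanV_gp0]
  have hzy1 : (z - gp y) 1 = z 1 - y.2 := by
    show z 1 - gp y 1 = _
    rw [WBPlanV_gp1]
  rw [hzy0, hzy1]
  have e4 : |P true * ((n.1 : ℝ) - z 0) + P false * ((n.2 : ℝ) - z 1)| ≤ A * d := by
    refine (abs_add_le _ _).trans ?_
    rw [abs_mul, abs_mul]
    have h1 : |P true| * |(n.1 : ℝ) - z 0| ≤ A * ((q : ℝ) + 1) :=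
      mul_le_mul (hP true) hn0 (abs_nonneg _) hA
    have h2 : |P false| * |(n.2 : ℝ) - z 1| ≤ A * ((q : ℝ) + 1) :=
      mul_le_mul (hP false) hn1 (abs_nonneg _) hA
    rw [hd]
    linarith
  have e5 : A * (2 * d + 3 * r0) ≤ eps / 4 * N + eps / 4 * N := by
    have h1 : d ≤ 8 * c * N + 4 := by
      rw [hd]
      linarith
    have h2 : r0 ≤ c * N := by
      have h3 : c ^ 2 * N ≤ c * N := by
        apply mul_le_mul_of_nonneg_right _ hN0.le
        nlinarith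
      linarith
    have h3 : 2 * d + 3 * r0 ≤ 19 * c * N + 8 := by linarith
    have h4 : A * (2 * d + 3 * r0) ≤ A * (19 * c * N + 8) := mul_le_mul_of_nonneg_left h3 hA
    have h5 : A * (19 * c * N) ≤ eps / 4 * N := by
      have h6 : A * c ≤ (A + 1) * (eps / (76 * (A + 1))) :=
        mul_le_mul (by linarith) hc2 hc0.le (by linarith)
      have h7 : (A + 1) * (eps / (76 * (A + 1))) = eps / 76 := by
        field_simp
      rw [h7] at h6
      have h8 : A * c * N ≤ eps / 76 * N := mul_le_mul_of_nonneg_right h6 hN0.le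
      linarith
    have h9 : A * 8 ≤ eps / 4 * N := by linarith
    linarith
  rw [abs_le] at e1 e2 e3 e4 hc3 ⊢
  obtain ⟨a1, a2⟩ := e1
  obtain ⟨b1, b2⟩ := e2
  obtain ⟨c1, c2⟩ := e3
  obtain ⟨d1, d2⟩ := e4
  obtain ⟨f1, f2⟩ := hc3
  have hepsN : 0 < eps * N := by positivity
  constructor <;> nlinarith

end Pool.Agent.FCF
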