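import Pool.Agent.FCF.FlowBasic

/-!
# FCF / WBSub: the canonical arrival functions are local subflows away from the initial sets
-/

set_option autoImplicit false

namespace Pool.Agent.FCF

open Pool.Agent.VSC (V J LowJet)
open Set Metric

private theorem WBSub_neg {M L : ℝ} {h : V → ℝ} (hm : Med M L h) : Med M L (fun x => -h x) where
  one_le := hm.one_le
  one_le' := hm.one_le'
  bd := fun x => by rw [abs_neg]; exact hm.bd x
  lip := fun x y => by
    have := hm.lip x y
    rwa [show -h x - -h y = -(h x - h y) by ring, abs_neg]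

theorem canon_subIn_true {p : Par} {c : V → ℝ} (henv : p.Env c) {e : V} {A0 B0 : Set V}
    {TE TO : V → ℝ} {C g : ℝ} (hcan : Canon p c e A0 B0 TE TO C g) {U : Set V}
    (hU : ∀ y ∈ U, C < inner ℝ y e) (t0 : ℝ) : SubIn (frc c p.F) U t0 (arr true TE) := by
  have hfl := flow_gsub henv.med hcan.A_closed
  have hpos : ∀ x ∈ U, 0 < TE x := by
    intro x hx
    by_contra hcon
    push Not at hcon
    have h1 := (hcan.TE_iff x 0 le_rfl).1 hcon
    rw [E_zero henv.med hcan.A_closed] at h1
    have h2 : inner ℝ x e ≤ C := hcan.A_sub h1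
    have h3 := hU x hx
    linarith
  have hmem : ∀ x t, (x, t) ∈ arr true TE ↔ (x, t) ∈ Flow (frc c p.F) A0 := by
    intro x t
    have h1 : (x, t) ∈ arr true TE ↔ TE x ≤ t := Iff.rfl
    rw [h1]
    rcases le_or_gt 0 t with ht | ht
    · exact hcan.TE_iff x t ht
    · constructor
      · intro h
        have := hcan.TE_nonneg x
        linarith
      · intro h
        have h2 := flow_nonneg h
        simp only at h2
        linarith
  have hset : arr true TE = Flow (frc c p.F) A0 := by
    ext ⟨x, t⟩
    exact hmem x t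
  rw [hset]
  constructor
  · intro x t hx ht h
    exact closure_minimal Set.inter_subset_left (isClosed_flow _ _) h
  · intro x t hx ht h
    have h1 : 0 < t := by
      have h2 : TE x ≤ t := (hmem x t).2 h
      have := hpos x hx
      linarith
    exact hfl.sub.sub x t (mem_univ _) h1 h

theorem canon_subIn_false {p : Par} {c : V → ℝ} (henv : p.Env c) {e : V} {A0 B0 : Set V}
    {TE TO : V → ℝ} {C g : ℝ} (hcan : Canon p c e A0 B0 TE TO C g) (U : Set V) (t0 : ℝ) :
    SubIn (fun x => -frc c p.F x) U t0 (arr false TO) := by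
  have hfl := flow_gsub (WBSub_neg henv.med) hcan.B_closed
  have hmem : ∀ x t, 0 < t → ((x, t) ∈ arr false TO ↔
      (x, t) ∈ Flow (fun x => -frc c p.F x) B0) := fun x t ht => hcan.TO_iff x t ht
  constructor
  · intro x t hx ht h
    have h0 := hcan.TO_nonneg x
    rcases le_or_gt t 0 with h1 | h1
    · show t ≤ TO x
      linarith
    · rw [hmem x t h1]
      refine (isClosed_flow _ _).closure_subset ?_
      rw [mem_closure_iff_nhds] at h ⊢
      intro W hW
      have hW2 : W ∩ {z : V × ℝ | 0 < z.2} ∈ nhds (x, t) := by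
        refine Filter.inter_mem hW (IsOpen.mem_nhds ?_ h1)
        exact isOpen_lt continuous_const continuous_snd
      obtain ⟨⟨y, s⟩, ⟨hy1, hy2⟩, hy3, -⟩ := h _ hW2
      exact ⟨(y, s), hy1, (hmem y s hy2).1 hy3⟩
  · intro x t hx ht h
    rcases le_or_gt t 0 with h1 | h1
    · refine subAt_of_interior ⟨1, one_pos, fun y s _ _ hs => ?_⟩
      show s ≤ TO y
      have := hcan.TO_nonneg y
      linarith
    · have h2 := hfl.sub.sub x t (mem_univ _) h1 ((hmem x t h1).1 h)
      refine h2.mono_near ⟨t, h1, fun y s _ hs1 hs2 hs3 => ?_⟩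
      exact (hmem y s (by linarith)).2 hs3

/-- Both canonical arrival functions, in the window form. -/
theorem canon_subIn {p : Par} {c : V → ℝ} (henv : p.Env c) {e : V} {A0 B0 : Set V}
    {TE TO : V → ℝ} {C g : ℝ} (hcan : Canon p c e A0 B0 TE TO C g) {U : Set V}
    (hU : ∀ y ∈ U, C < inner ℝ y e) (b : Bool) (t0 : ℝ) :
    SubIn (sgn b (frc c p.F)) U t0 (arr b (if b then TE else TO)) := by
  cases b with
  | true => exact canon_subIn_true henv hcan hU t0
  | false => exact canon_subIn_false henv hcan U t0

end Pool.Agent.FCF
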