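import Pool.Agent.FCF.WinLat
import Pool.Agent.FCF.WBSub
import Pool.Agent.FCF.WBPlanV

/-!
# FCF / WBWin: windows of the canonical arrival functions
-/

set_option autoImplicit false

namespace Pool.Agent.FCF

open Pool.Agent.VSC (V J LowJet)
open Set Metric MeasureTheory Filter Topology EnvT

/-- The coarse Lipschitz bound in the shifted environment. -/
theorem win_cl {M L : ℝ} {p : Par} {c : EnvT M L} {e : V} {C : ℝ} {T : V → ℝ}
    (hcl : ∀ x r, 1 ≤ r → p.fine c.1 x r →
      (C ≤ r ∨ closedBall x (p.Cs * r) ⊆ {y | C < inner ℝ y e}) →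
      ∀ y z, ‖y - x‖ < 9 * r → ‖z - x‖ < 9 * r → |T y - T z| ≤ p.C3 * r)
    {a : V} {J : ℕ} (hbox : ∀ z ∈ oc J, C < inner ℝ (a + z) e) (x : V) (r : ℝ) (hr : 1 ≤ r)
    (hball : closedBall x (p.Cs * r) ⊆ oc J) (hf : p.fine (shift a c).1 x r) (y z : V)
    (hy : ‖y - x‖ < 9 * r) (hz : ‖z - x‖ < 9 * r) : |T (a + y) - T (a + z)| ≤ p.C3 * r := by
  refine hcl (a + x) r hr ((fine_shift c p.F p.sig p.Cs a x r).1 hf) (Or.inr ?_) _ _ ?_ ?_
  · intro w hw
    have h1 : w - a ∈ closedBall x (p.Cs * r) := by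
      rw [mem_closedBall, dist_eq_norm] at hw ⊢
      rwa [show w - a - x = w - (a + x) by abel]
    have h2 := hbox _ (hball h1)
    rwa [show a + (w - a) = w by abel] at h2
  · rwa [show a + y - (a + x) = y - x by abel]
  · rwa [show a + z - (a + x) = z - x by abel]

/-- Space shift of the canonical subflows. -/
theorem canon_subIn_shift {M L : ℝ} {p : Par} {c : EnvT M L} (henv : p.Env c.1) {e : V}
    {A0 B0 : Set V} {TE TO : V → ℝ} {C g : ℝ} (hcan : Canon p c.1 e A0 B0 TE TO C g) {a : V}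
    {J : ℕ} (hbox : ∀ z ∈ oc J, C < inner ℝ (a + z) e) (b : Bool) (t0 : ℝ) :
    SubIn (sgn b (frc (shift a c).1 p.F)) (oc J) t0
      (arr b (fun z => (if b then TE else TO) (a + z))) := by
  have h1 := (canon_subIn henv hcan (U := {y | C < inner ℝ y e}) (fun y hy => hy) b t0).shift_space a
  have h2 := h1.restrict (U' := oc J) (t0' := t0) (fun z hz => hbox z hz) le_rfl
  cases b with
  | true => exact h2
  | false => exact h2

open Classical in
/-- The canonical arrival functions give a window around `a`, when `TE` is planar around most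
grid points. -/
theorem winG_of_planar {M L : ℝ} {p : Par} {c : EnvT M L} (henv : p.Env c.1) {e : V}
    {A0 B0 : Set V} {TE TO : V → ℝ} {C g : ℝ} (hcan : Canon p c.1 e A0 B0 TE TO C g) {a : V}
    {P : V} {eps del : ℝ} (heps : 0 < eps) {k J : ℕ} {Y : Set (ℤ × ℤ)}
    (hbox : ∀ z ∈ oc J, C < inner ℝ (a + z) e)
    (hdens : ∀ j, k ≤ j → j ≤ J →
      (((box j).filter (fun n => n ∉ Y)).card : ℝ) ≤ del * (box j).card)
    (hplan : ∀ n ∈ Y, gp n ∈ oc J → ∀ z ∈ oc J,
      |TE (a + z) - TE (a + gp n) - inner ℝ P (z - gp n)| ≤ eps / 2 * max ‖z - gp n‖ (2 ^ k))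
    (hC : 2 * C ≤ eps / 2 * 2 ^ k) : WinG p (shift a c).1 P eps del k J := by
  have hpl : ∀ b : Bool, ∀ n ∈ Y, gp n ∈ oc J → ∀ z ∈ oc J,
      |(if b then TE else TO) (a + z) - (if b then TE else TO) (a + gp n) -
        inner ℝ P (z - gp n)| ≤ eps * max ‖z - gp n‖ (2 ^ k) := by
    intro b n hn hno z hz
    have h1 := hplan n hn hno z hz
    have h2 : (2 : ℝ) ^ k ≤ max ‖z - gp n‖ (2 ^ k) := le_max_right _ _
    have h3 : eps / 2 * 2 ^ k ≤ eps / 2 * max ‖z - gp n‖ (2 ^ k) :=
      mul_le_mul_of_nonneg_left h2 (by linarith)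
    have h4 : 0 ≤ eps / 2 * max ‖z - gp n‖ (2 ^ k) := by positivity
    cases b with
    | true =>
      simp only [if_true]
      linarith
    | false =>
      simp only [Bool.false_eq_true, if_false]
      have h5 := abs_le.1 (hcan.near (a + z))
      have h6 := abs_le.1 (hcan.near (a + gp n))
      rw [abs_le] at h1 ⊢
      constructor <;> linarith
  intro b
  refine ⟨fun z => (if b then TE else TO) (a + z), Y,
    canon_subIn_shift henv hcan hbox b, hdens, hpl b, ?_⟩
  intro x r hr hball hf y z hy hz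
  cases b with
  | true => exact win_cl hcan.clE hbox x r hr hball hf y z hy hz
  | false => exact win_cl hcan.clO hbox x r hr hball hf y z hy hz

end Pool.Agent.FCF
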