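import Pool.Agent.FCF.WgGeo

/-!
# FCF / WgBaseE: basic facts in the E-case

`L = WLE Tm Tp e Pm Pp q`, `O = OvE (WR K R) e b L g`.
* `ge`: `max ≥` weighted mean: `(s1 + s2) L x ≥ s1 (Tm x - q_m) + s2 (Tp x - q_p) ≥ s1 (Pm.x) + s2 (Pp.x) - (s1+s2) dl = x.e - (s1+s2) dl`
  (`G.sum`, `G.q_sum`, `gl_m`, `gl_p`).
* `height`: `K (x.e) + dl ≥ b x > L x + g ≥ x.e/(s1+s2) - dl + g ≥ g - dl`.
* `bdd`: with `v = x - q J e`: `Pm . v = Pm . x - q_m ≤ Tm x - q_m + dl ≤ L x + dl ≤ 2KR + 1 + dl ≤ 3KR`, the same for `Pp`;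
  `s1 (Pm.v) + s2 (Pp.v) = x.e > 0` gives `Pm . v ≥ -(s2/s1) 3KR ≥ -3K³R`; `‖v‖ ≤ K * 3K³R`; `‖x‖ ≤ 3K²R + 3K⁴R`.
* `th_low`: for `x ∈ O`: `L x ≥ (x.e)/(s1+s2) - dl ≥ (g - 2dl)/(2K²) - dl`; take `x` with `L x < th + eta`, `eta → 0`. Then
  `th (s1+s2) ≥ (2/K) th ≥ (g-2dl)/K³ - 2dl/K`. For `th = 2KR` (no condition from `O`): `th (s1+s2) ≥ 4R` and `g ≤ R` gives the same; so `th < 2KR` is not needed
  if `g ≤ R` (`h0 + 60K²dl ≤ g ≤ R`).
-/

set_option autoImplicit false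

namespace Pool.Agent.FCF

open Pool.Agent.VSC (V J LowJet)
open Set Metric

variable {p : Par} {P0 : Set V} {c : V → ℝ} {e Pm Pp A : V} {s1 s2 K : ℝ}
    {b Tm Tp : V → ℝ} {Y : Set (ℤ × ℤ)} {Z : Finset (ℤ × ℤ)} {sg : ℝ} {k : ℕ} {R dl h0 : ℝ}
    {A0 : Set V}

theorem wgE_ge (S : WScene p P0 c e Pm Pp A s1 s2 K true b Tm Tp Y Z sg k R dl h0) {q : ℝ}
    {x : V} (hx : ‖x‖ ≤ WR K R) :
    inner ℝ x e / (s1 + s2) - dl ≤ WLE Tm Tp e Pm Pp q x := by
  have G := S.geo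
  obtain ⟨-, hs, -⟩ := G.Ae
  have hK : 0 < K := by linarith [G.K1]
  have hs1 : 0 < s1 := lt_of_lt_of_le (by positivity) G.s1_ge
  have hs2 : 0 < s2 := lt_of_lt_of_le (by positivity) G.s2_ge
  have h1 := (abs_le.1 (S.gl_m x hx)).1
  have h2 := (abs_le.1 (S.gl_p x hx)).1
  have h3 := G.sum x
  have h4 := G.q_sum q
  unfold WLE
  have h5 := le_max_left (Tm x - q * inner ℝ Pm (J e)) (Tp x - q * inner ℝ Pp (J e))
  have h6 := le_max_right (Tm x - q * inner ℝ Pm (J e)) (Tp x - q * inner ℝ Pp (J e))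
  set a : ℝ := max (Tm x - q * inner ℝ Pm (J e)) (Tp x - q * inner ℝ Pp (J e))
  have h7 : s1 * (Tm x - q * inner ℝ Pm (J e)) ≤ s1 * a := mul_le_mul_of_nonneg_left h5 hs1.le
  have h8 : s2 * (Tp x - q * inner ℝ Pp (J e)) ≤ s2 * a := mul_le_mul_of_nonneg_left h6 hs2.le
  have h9 : s1 * (inner ℝ Pm x - dl) ≤ s1 * Tm x :=
    mul_le_mul_of_nonneg_left (by linarith) hs1.le
  have h10 : s2 * (inner ℝ Pp x - dl) ≤ s2 * Tp x :=
    mul_le_mul_of_nonneg_left (by linarith) hs2.le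
  rw [sub_le_iff_le_add, div_le_iff₀ (by linarith)]
  nlinarith

theorem wgE_le (S : WScene p P0 c e Pm Pp A s1 s2 K true b Tm Tp Y Z sg k R dl h0) {q : ℝ}
    {x : V} (hx : ‖x‖ ≤ WR K R) {a : ℝ} (hm : inner ℝ Pm x - q * inner ℝ Pm (J e) ≤ a)
    (hp : inner ℝ Pp x - q * inner ℝ Pp (J e) ≤ a) : WLE Tm Tp e Pm Pp q x ≤ a + dl := by
  have h1 := (abs_le.1 (S.gl_m x hx)).2
  have h2 := (abs_le.1 (S.gl_p x hx)).2
  unfold WLE
  exact max_le (by linarith) (by linarith)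

theorem wgE_height (S : WScene p P0 c e Pm Pp A s1 s2 K true b Tm Tp Y Z sg k R dl h0)
    (D : WDatE p c e K dl A0 b) {q g : ℝ} {x : V}
    (hx : x ∈ OvE (WR K R) e b (WLE Tm Tp e Pm Pp q) g) : (g - 2 * dl) / K ≤ inner ℝ x e := by
  obtain ⟨hx1, hx2, hx3⟩ := hx
  have G := S.geo
  obtain ⟨-, hs, -⟩ := G.Ae
  have hK : 0 < K := by linarith [G.K1]
  have hs0 : 0 < s1 + s2 := lt_of_lt_of_le (by positivity) hs
  have h1 := wgE_ge S (q := q) hx1
  have h2 : 0 ≤ inner ℝ x e / (s1 + s2) := div_nonneg hx2.le hs0.le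
  have h3 := D.le x hx2.le
  rw [div_le_iff₀ hK]
  linarith

theorem wgE_bdd (S : WScene p P0 c e Pm Pp A s1 s2 K true b Tm Tp Y Z sg k R dl h0)
    {q g : ℝ} (hq : |q| ≤ 3 * K ^ 2 * R) {x : V}
    (hx : x ∈ OvE (WR K R) e b (WLE Tm Tp e Pm Pp q) g)
    (hL : WLE Tm Tp e Pm Pp q x ≤ 2 * K * R + 1) : ‖x‖ ≤ 8 * K ^ 4 * R := by
  obtain ⟨hx1, hx2, hx3⟩ := hx
  have G := S.geo
  have hK1 := G.K1
  have hK : 0 < K := by linarith
  have hdl := S.dl_ge
  have hs1 : 0 < s1 := lt_of_lt_of_le (by positivity) G.s1_ge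
  have hs2 : 0 < s2 := lt_of_lt_of_le (by positivity) G.s2_ge
  have hR0 := S.R_ge
  have hK5 : 1 ≤ K ^ 5 := one_le_pow₀ hK1
  have hR1 : 1000 * dl ≤ R := by nlinarith
  have hRpos : 0 < R := by linarith
  have hKR : R ≤ K * R := by nlinarith
  set v : V := x - q • J e with hv
  have h1 := (abs_le.1 (S.gl_m x hx1)).1
  have h2 := (abs_le.1 (S.gl_p x hx1)).1
  have h5 := le_max_left (Tm x - q * inner ℝ Pm (J e)) (Tp x - q * inner ℝ Pp (J e))
  have h6 := le_max_right (Tm x - q * inner ℝ Pm (J e)) (Tp x - q * inner ℝ Pp (J e))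
  have hL' : max (Tm x - q * inner ℝ Pm (J e)) (Tp x - q * inner ℝ Pp (J e)) ≤ 2 * K * R + 1 := hL
  have hvm : inner ℝ Pm v = inner ℝ Pm x - q * inner ℝ Pm (J e) := by
    rw [hv, inner_sub_right, real_inner_smul_right]
  have hvp : inner ℝ Pp v = inner ℝ Pp x - q * inner ℝ Pp (J e) := by
    rw [hv, inner_sub_right, real_inner_smul_right]
  have h7 : inner ℝ Pm v ≤ 3 * (K * R) := by rw [hvm]; linarith
  have h8 : inner ℝ Pp v ≤ 3 * (K * R) := by rw [hvp]; linarith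
  have h9 : 0 < s1 * inner ℝ Pm v + s2 * inner ℝ Pp v := by
    have h10 := G.sum x
    have h11 := G.q_sum q
    rw [hvm, hvp]
    linarith
  have hKK : 0 < K * R := by positivity
  have low : ∀ s t a b : ℝ, 1 / K ≤ s → 0 < s → 0 < t → t ≤ K → b ≤ 3 * (K * R) →
      0 < s * a + t * b → -(3 * K ^ 3 * R) ≤ a := by
    intro s t a b hs hs0 ht0 ht hb hab
    by_contra hcon
    push Not at hcon
    have h12 : t * b ≤ K * (3 * (K * R)) := by
      calc t * b ≤ t * (3 * (K * R)) := mul_le_mul_of_nonneg_left hb ht0.le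
        _ ≤ K * (3 * (K * R)) := mul_le_mul_of_nonneg_right ht (by positivity)
    have h13 : s * a ≤ s * (-(3 * K ^ 3 * R)) := mul_le_mul_of_nonneg_left hcon.le hs0.le
    have h14 : 1 / K * (3 * K ^ 3 * R) ≤ s * (3 * K ^ 3 * R) :=
      mul_le_mul_of_nonneg_right hs (by positivity)
    have h15 : 1 / K * (3 * K ^ 3 * R) = K * (3 * (K * R)) := by
      field_simp
    linarith
  have h16 := low s1 s2 _ _ G.s1_ge hs1 hs2 G.s2_le h8 h9
  have h17 := low s2 s1 _ _ G.s2_ge hs2 hs1 G.s1_le h7 (by linarith)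
  have hK3 : K * R ≤ K ^ 3 * R := by
    have : K ≤ K ^ 3 := by nlinarith [mul_pos hK hK]
    exact mul_le_mul_of_nonneg_right this hRpos.le
  have h18 : max |inner ℝ Pm v| |inner ℝ Pp v| ≤ 3 * K ^ 3 * R := by
    refine max_le (abs_le.2 ⟨h16, by linarith⟩) (abs_le.2 ⟨h17, by linarith⟩)
  have h19 := G.inv v
  have h20 : ‖v‖ ≤ K * (3 * K ^ 3 * R) := h19.trans (mul_le_mul_of_nonneg_left h18 hK.le)
  have h21 : ‖x‖ ≤ ‖v‖ + |q| := by
    have h22 : x = v + q • J e := by rw [hv]; abel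
    calc ‖x‖ = ‖v + q • J e‖ := by rw [← h22]
      _ ≤ ‖v‖ + ‖q • J e‖ := norm_add_le _ _
      _ = ‖v‖ + |q| := by
          rw [norm_smul, Pool.Agent.VSC.norm_J, G.he, mul_one, Real.norm_eq_abs]
  have h23 : K ^ 2 * R ≤ K ^ 4 * R := by
    have : K ^ 2 ≤ K ^ 4 := pow_le_pow_right₀ hK1 (by norm_num)
    exact mul_le_mul_of_nonneg_right this hRpos.le
  have h24 : 0 < K ^ 4 * R := by positivity
  nlinarith

theorem wgE_th_low (S : WScene p P0 c e Pm Pp A s1 s2 K true b Tm Tp Y Z sg k R dl h0)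
    (D : WDatE p c e K dl A0 b) {q g th : ℝ} (hg : K ^ 3 * h0 + 64 * K ^ 5 * dl ≤ g) (hgR : g ≤ R)
    (hF : IsFst (2 * K * R) (OvE (WR K R) e b (WLE Tm Tp e Pm Pp q) g) (WLE Tm Tp e Pm Pp q) th) :
    0 ≤ th ∧ h0 + 60 * K ^ 2 * dl ≤ th * (s1 + s2) := by
  have G := S.geo
  obtain ⟨-, hs, hs'⟩ := G.Ae
  have hK1 := G.K1
  have hK : 0 < K := by linarith
  have hdl := S.dl_ge
  have hs0 : 0 < s1 + s2 := lt_of_lt_of_le (by positivity) hs
  have hh0 := S.h0_nonneg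
  have hK3 : 1 ≤ K ^ 3 := one_le_pow₀ hK1
  have hK2 : 1 ≤ K ^ 2 := one_le_pow₀ hK1
  have hK4 : K ^ 2 ≤ K ^ 4 := pow_le_pow_right₀ hK1 (by norm_num)
  have hK5 : K ^ 2 ≤ K ^ 5 := pow_le_pow_right₀ hK1 (by norm_num)
  have hR0 : 0 < R := by
    have h1 : 0 < K ^ 3 * h0 + 64 * K ^ 5 * dl := by positivity
    linarith
  have hkey : h0 + 60 * K ^ 2 * dl ≤ th * (s1 + s2) := by
    rcases hF.le_end.lt_or_eq with h | h
    · have h1 : ∀ eta : ℝ, 0 < eta → (g - 2 * dl) / K - 2 * K * dl ≤ th * (s1 + s2) + eta := by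
        intro eta heta
        have h2 : 0 < eta / (s1 + s2) := by positivity
        obtain ⟨x, hx, hxl⟩ := hF.ex h _ h2
        have h3 := wgE_ge S (q := q) hx.1
        have h4 := wgE_height S D hx
        have h5 : inner ℝ x e / (s1 + s2) < th + eta / (s1 + s2) + dl := by linarith
        rw [div_lt_iff₀ hs0] at h5
        have h6 : (th + eta / (s1 + s2) + dl) * (s1 + s2) =
            th * (s1 + s2) + eta + dl * (s1 + s2) := by
          field_simp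
        have h7 : dl * (s1 + s2) ≤ dl * (2 * K) := mul_le_mul_of_nonneg_left hs' (by linarith)
        linarith
      have h2 : (g - 2 * dl) / K - 2 * K * dl ≤ th * (s1 + s2) := le_of_forall_pos_le_add h1
      have h3 : h0 + 62 * K ^ 4 * dl ≤ (g - 2 * dl) / K := by
        rw [le_div_iff₀ hK]
        have h4 : K * h0 ≤ K ^ 3 * h0 := by
          have : K ≤ K ^ 3 := by nlinarith
          exact mul_le_mul_of_nonneg_right this hh0
        have h5 : dl ≤ K ^ 5 * dl := by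
          have : 1 ≤ K ^ 5 := one_le_pow₀ hK1
          nlinarith
        have h6 : (h0 + 62 * K ^ 4 * dl) * K = K * h0 + 62 * (K ^ 5 * dl) := by ring
        rw [h6]
        linarith
      have h4 : K * dl ≤ K ^ 4 * dl := by
        have : K ≤ K ^ 4 := by
          calc K = K ^ 1 := (pow_one K).symm
            _ ≤ K ^ 4 := pow_le_pow_right₀ hK1 (by norm_num)
        exact mul_le_mul_of_nonneg_right this (by linarith)
      have h5 : K ^ 2 * dl ≤ K ^ 4 * dl := mul_le_mul_of_nonneg_right hK4 (by linarith)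
      linarith
    · have h1 : 4 * R ≤ th * (s1 + s2) := by
        rw [h]
        have h2 : 2 * K * R * (2 / K) ≤ 2 * K * R * (s1 + s2) :=
          mul_le_mul_of_nonneg_left hs (by positivity)
        have h3 : 2 * K * R * (2 / K) = 4 * R := by
          field_simp
          norm_num
        linarith
      have h2 : h0 ≤ K ^ 3 * h0 := by nlinarith
      have h3 : K ^ 2 * dl ≤ K ^ 5 * dl := mul_le_mul_of_nonneg_right hK5 (by linarith)
      linarith [mul_pos (pow_pos hK 5) (show 0 < dl by linarith)]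
  refine ⟨?_, hkey⟩
  have h1 : 0 ≤ th * (s1 + s2) := by
    have : 0 ≤ K ^ 2 * dl := by positivity
    linarith
  by_contra hcon
  push Not at hcon
  have := mul_neg_of_neg_of_pos hcon hs0
  linarith

/-- At the height `0` there is no overtaking. -/
theorem wgE_exists_fst (S : WScene p P0 c e Pm Pp A s1 s2 K true b Tm Tp Y Z sg k R dl h0)
    (q g : ℝ) :
    ∃ th, IsFst (2 * K * R) (OvE (WR K R) e b (WLE Tm Tp e Pm Pp q) g) (WLE Tm Tp e Pm Pp q) th := by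
  have G := S.geo
  obtain ⟨-, hs, -⟩ := G.Ae
  have hK : 0 < K := by linarith [G.K1]
  have hs0 : 0 < s1 + s2 := lt_of_lt_of_le (by positivity) hs
  refine exists_isFst (m := -dl) fun x hx => ?_
  have h1 := wgE_ge S (q := q) hx.1
  have h2 : 0 ≤ inner ℝ x e / (s1 + s2) := div_nonneg hx.2.1.le hs0.le
  linarith

/-- The data of `TE`. -/
theorem wgE_dat {C g : ℝ} {B0 : Set V} {TE TO : V → ℝ} (hc : Canon p c e A0 B0 TE TO C g)
    (hg : 1 / g ≤ K) (hC : C ≤ dl) : WDatE p c e K dl A0 TE := by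
  refine ⟨hc.A_closed, hc.TE_iff, hc.TE_nonneg, fun x hx => ?_⟩
  have h1 := hc.TE_le x
  rw [max_eq_left hx] at h1
  have h2 : inner ℝ x e / g = 1 / g * inner ℝ x e := by ring
  have h3 : 1 / g * inner ℝ x e ≤ K * inner ℝ x e := mul_le_mul_of_nonneg_right hg hx
  linarith

end Pool.Agent.FCF
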