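import Pool.Agent.FCF.WgGeo
import Pool.Agent.FCF.Inner

/-!
# FCF / WgBaseO: basic facts in the O-case

`L = WLO Tm Tp e Pm Pp q`, `O = OvO (WR K R) e b L g`, first time function `lo x = b x + g`.
* `le`: `min ≤` weighted mean: `L x ≤ x.e/(s1+s2) + dl` (`G.sum`, `G.q_sum`).
* `height`: `x.e/(s1+s2) + dl ≥ L x > b x + g ≥ g`, so `x.e ≥ (s1+s2)(g - dl) ≥ (g - 2dl)/K` (if `g ≤ dl` trivial, as `x.e > 0`... use `2/K ≤ s1+s2`).
  Also `b x ≥ x.e/K - 2dl`.
* `bdd`: `x.e ≤ K (b x + 2dl) ≤ K (2KR + 1 + 2dl) ≤ 3K²R` (`b x + g ≤ 2KR + 1`, `g ≥ 0`); `Pm . v ≥ L x - dl ≥ -dl` (`v = x - q J e`; `L x > b x + g ≥ 0`), same for `Pp`;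
  `s1 (Pm.v) + s2 (Pp.v) = x.e`, so `Pm . v ≤ (3K²R + s2 dl)/s1 ≤ 4K³R`; `‖v‖ ≤ 4K⁴R`, `‖x‖ ≤ 3K²R + 4K⁴R`.
* `th_low`: `x ∈ O`: `b x + g ≥ g + x.e/K - 2dl ≥ g + (g-2dl)/K² - 2dl`; take `x` with `b x + g < th + eta`. So if `th < 2KR`: `th - g ≥ (g-2dl)/K² - 2dl > 0` and
  `th (s1+s2) ≥ (2/K) th ≥ (2/K)(g - 2dl) ≥ h0 + 60K²dl`. If `th = 2KR`: from `g ≤ R`.
* `high`: `L x > th ≥ g` gives `x.e > 0` (`le`).
* `speed`: `t' := t + (r-1)/M1`. If `b z ≥ t` for all `z ∈ closedBall x r`: `closedBall x r ⊆ E (-h) B0 t` (`D.iff`), `inner_large` and `E_add`: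
  `x ∈ E (-h) B0 (t + (r-1)/M1)`, so `b x ≥ t'`. (`-h` satisfies `Med` too.)
-/

set_option autoImplicit false

namespace Pool.Agent.FCF

open Pool.Agent.VSC (V J LowJet)
open Set Metric

variable {p : Par} {P0 : Set V} {c : V → ℝ} {e Pm Pp A : V} {s1 s2 K : ℝ}
    {b Tm Tp : V → ℝ} {Y : Set (ℤ × ℤ)} {Z : Finset (ℤ × ℤ)} {sg : ℝ} {k : ℕ} {R dl h0 : ℝ}
    {B0 : Set V}

theorem wgO_le (S : WScene p P0 c e Pm Pp A s1 s2 K false b Tm Tp Y Z sg k R dl h0) {q : ℝ}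
    {x : V} (hx : ‖x‖ ≤ WR K R) :
    WLO Tm Tp e Pm Pp q x ≤ inner ℝ x e / (s1 + s2) + dl := by
  have G := S.geo
  obtain ⟨-, hs, -⟩ := G.Ae
  have hK : 0 < K := by linarith [G.K1]
  have hs1 : 0 < s1 := lt_of_lt_of_le (by positivity) G.s1_ge
  have hs2 : 0 < s2 := lt_of_lt_of_le (by positivity) G.s2_ge
  have h1 := (abs_le.1 (S.gl_m x hx)).2
  have h2 := (abs_le.1 (S.gl_p x hx)).2
  have h3 := G.sum x
  have h4 := G.q_sum q
  unfold WLO
  have h5 := min_le_left (Tm x - q * inner ℝ Pm (J e)) (Tp x - q * inner ℝ Pp (J e))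
  have h6 := min_le_right (Tm x - q * inner ℝ Pm (J e)) (Tp x - q * inner ℝ Pp (J e))
  set a : ℝ := min (Tm x - q * inner ℝ Pm (J e)) (Tp x - q * inner ℝ Pp (J e))
  have h7 : s1 * a ≤ s1 * (Tm x - q * inner ℝ Pm (J e)) := mul_le_mul_of_nonneg_left h5 hs1.le
  have h8 : s2 * a ≤ s2 * (Tp x - q * inner ℝ Pp (J e)) := mul_le_mul_of_nonneg_left h6 hs2.le
  have h9 : s1 * Tm x ≤ s1 * (inner ℝ Pm x + dl) :=
    mul_le_mul_of_nonneg_left (by linarith) hs1.le
  have h10 : s2 * Tp x ≤ s2 * (inner ℝ Pp x + dl) :=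
    mul_le_mul_of_nonneg_left (by linarith) hs2.le
  rw [← sub_le_iff_le_add, le_div_iff₀ (by linarith)]
  nlinarith

theorem wgO_ge (S : WScene p P0 c e Pm Pp A s1 s2 K false b Tm Tp Y Z sg k R dl h0) {q : ℝ}
    {x : V} (hx : ‖x‖ ≤ WR K R) {a : ℝ} (hm : a ≤ inner ℝ Pm x - q * inner ℝ Pm (J e))
    (hp : a ≤ inner ℝ Pp x - q * inner ℝ Pp (J e)) : a - dl ≤ WLO Tm Tp e Pm Pp q x := by
  have h1 := (abs_le.1 (S.gl_m x hx)).1
  have h2 := (abs_le.1 (S.gl_p x hx)).1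
  unfold WLO
  exact le_min (by linarith) (by linarith)

theorem wgO_height (S : WScene p P0 c e Pm Pp A s1 s2 K false b Tm Tp Y Z sg k R dl h0)
    (D : WDatO p c e K dl B0 b) {q g : ℝ} {x : V}
    (hx : x ∈ OvO (WR K R) e b (WLO Tm Tp e Pm Pp q) g) : (g - 2 * dl) / K ≤ inner ℝ x e := by
  obtain ⟨hx1, hx2, hx3⟩ := hx
  have G := S.geo
  obtain ⟨-, hs, -⟩ := G.Ae
  have hK : 0 < K := by linarith [G.K1]
  have hs0 : 0 < s1 + s2 := lt_of_lt_of_le (by positivity) hs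
  have h1 := wgO_le S (q := q) hx1
  have h3 := D.nonneg x
  have hdl := S.dl_ge
  have h4 : g - dl ≤ inner ℝ x e / (s1 + s2) := by linarith
  rw [le_div_iff₀ hs0] at h4
  rw [div_le_iff₀ hK]
  rcases le_or_gt g (2 * dl) with h5 | h5
  · have := mul_pos hx2 hK
    linarith
  · have h6 : (g - dl) * (2 / K) ≤ (g - dl) * (s1 + s2) :=
      mul_le_mul_of_nonneg_left hs (by linarith)
    have h7 : (g - dl) * (2 / K) * K ≤ inner ℝ x e * K :=
      mul_le_mul_of_nonneg_right (h6.trans h4) hK.le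
    have h8 : (g - dl) * (2 / K) * K = 2 * (g - dl) := by
      field_simp
    linarith

theorem wgO_bdd (S : WScene p P0 c e Pm Pp A s1 s2 K false b Tm Tp Y Z sg k R dl h0)
    (D : WDatO p c e K dl B0 b) {q g : ℝ} (hg : 0 ≤ g) (hq : |q| ≤ 3 * K ^ 2 * R) {x : V}
    (hx : x ∈ OvO (WR K R) e b (WLO Tm Tp e Pm Pp q) g)
    (hL : b x + g ≤ 2 * K * R + 1) : ‖x‖ ≤ 8 * K ^ 4 * R := by
  obtain ⟨hx1, hx2, hx3⟩ := hx
  have G := S.geo
  have hK1 := G.K1
  have hK : 0 < K := by linarith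
  have hdl := S.dl_ge
  have hs1 : 0 < s1 := lt_of_lt_of_le (by positivity) G.s1_ge
  have hs2 : 0 < s2 := lt_of_lt_of_le (by positivity) G.s2_ge
  have hR0 := S.R_ge
  have hK5 : 1 ≤ K ^ 5 := one_le_pow₀ hK1
  have hR1 : 1000 * dl ≤ R := by nlinarith
  have hRpos : 0 < R := by linarith
  have hKR : R ≤ K * R := by nlinarith
  have hKK : 0 < K * R := by positivity
  set v : V := x - q • J e with hv
  have h1 := (abs_le.1 (S.gl_m x hx1)).2
  have h2 := (abs_le.1 (S.gl_p x hx1)).2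
  have h5 := min_le_left (Tm x - q * inner ℝ Pm (J e)) (Tp x - q * inner ℝ Pp (J e))
  have h6 := min_le_right (Tm x - q * inner ℝ Pm (J e)) (Tp x - q * inner ℝ Pp (J e))
  have hb0 := D.nonneg x
  have hx3' : g < min (Tm x - q * inner ℝ Pm (J e)) (Tp x - q * inner ℝ Pp (J e)) - b x := hx3
  have hvm : inner ℝ Pm v = inner ℝ Pm x - q * inner ℝ Pm (J e) := by
    rw [hv, inner_sub_right, real_inner_smul_right]
  have hvp : inner ℝ Pp v = inner ℝ Pp x - q * inner ℝ Pp (J e) := by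
    rw [hv, inner_sub_right, real_inner_smul_right]
  have h7 : -dl ≤ inner ℝ Pm v := by rw [hvm]; linarith
  have h8 : -dl ≤ inner ℝ Pp v := by rw [hvp]; linarith
  have h9 : s1 * inner ℝ Pm v + s2 * inner ℝ Pp v = inner ℝ x e := by
    have h10 := G.sum x
    have h11 := G.q_sum q
    rw [hvm, hvp]
    linarith
  -- height
  have h12 : inner ℝ x e ≤ 3 * (K * (K * R)) := by
    have h13 := D.ge x
    have h14 : inner ℝ x e / K ≤ 2 * K * R + 1 + 2 * dl := by linarith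
    rw [div_le_iff₀ hK] at h14
    have h15 : (2 * K * R + 1 + 2 * dl) * K ≤ 3 * (K * R) * K := by
      apply mul_le_mul_of_nonneg_right _ hK.le
      linarith
    linarith
  have up : ∀ s t a b' : ℝ, 1 / K ≤ s → 0 < s → 0 < t → t ≤ K → -dl ≤ b' →
      s * a + t * b' ≤ 3 * (K * (K * R)) → a ≤ 4 * K ^ 3 * R := by
    intro s t a b' hs hs0 ht0 ht hb hab
    by_contra hcon
    push Not at hcon
    have h12 : -(K * dl) ≤ t * b' := by
      calc -(K * dl) ≤ -(t * dl) := by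
            have := mul_le_mul_of_nonneg_right ht (show 0 ≤ dl by linarith)
            linarith
        _ = t * (-dl) := by ring
        _ ≤ t * b' := mul_le_mul_of_nonneg_left hb ht0.le
    have h13 : s * (4 * K ^ 3 * R) ≤ s * a := mul_le_mul_of_nonneg_left hcon.le hs0.le
    have h14 : 1 / K * (4 * K ^ 3 * R) ≤ s * (4 * K ^ 3 * R) :=
      mul_le_mul_of_nonneg_right hs (by positivity)
    have h15 : 1 / K * (4 * K ^ 3 * R) = 4 * (K * (K * R)) := by
      field_simp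
    have h16 : K * dl < K * (K * R) := mul_lt_mul_of_pos_left (by linarith) hK
    linarith
  have h16 := up s1 s2 _ _ G.s1_ge hs1 hs2 G.s2_le h8 (by rw [h9]; exact h12)
  have h17 := up s2 s1 _ _ G.s2_ge hs2 hs1 G.s1_le h7 (by rw [add_comm, h9]; exact h12)
  have hK3 : R ≤ K ^ 3 * R := by
    have : 1 ≤ K ^ 3 := one_le_pow₀ hK1
    nlinarith
  have h18 : max |inner ℝ Pm v| |inner ℝ Pp v| ≤ 4 * K ^ 3 * R := by
    refine max_le (abs_le.2 ⟨by linarith, h16⟩) (abs_le.2 ⟨by linarith, h17⟩)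
  have h19 := G.inv v
  have h20 : ‖v‖ ≤ K * (4 * K ^ 3 * R) := h19.trans (mul_le_mul_of_nonneg_left h18 hK.le)
  have h21 : ‖x‖ ≤ ‖v‖ + |q| := by
    have h22 : x = v + q • J e := by rw [hv]; abel
    calc ‖x‖ = ‖v + q • J e‖ := by rw [← h22]
      _ ≤ ‖v‖ + ‖q • J e‖ := norm_add_le _ _
      _ = ‖v‖ + |q| := by
          rw [norm_smul, Pool.Agent.VSC.norm_J, G.he, mul_one, Real.norm_eq_abs]
  have h23 : K ^ 2 * R ≤ K ^ 4 * R := by
    have : K ^ 2 ≤ K ^ 4 := pow_le_pow_right₀ hK1 (by norm_num)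
    exact mul_le_mul_of_nonneg_right this hRpos.le
  have h24 : 0 < K ^ 4 * R := by positivity
  nlinarith

theorem wgO_th_low (S : WScene p P0 c e Pm Pp A s1 s2 K false b Tm Tp Y Z sg k R dl h0)
    (D : WDatO p c e K dl B0 b) {q g th : ℝ} (hg : K ^ 3 * h0 + 64 * K ^ 5 * dl ≤ g) (hgR : g ≤ R)
    (hF : IsFst (2 * K * R) (OvO (WR K R) e b (WLO Tm Tp e Pm Pp q) g) (fun x => b x + g) th) :
    g + dl ≤ th ∧ h0 + 60 * K ^ 2 * dl ≤ th * (s1 + s2) := by
  have G := S.geo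
  obtain ⟨-, hs, hs'⟩ := G.Ae
  have hK1 := G.K1
  have hK : 0 < K := by linarith
  have hdl := S.dl_ge
  have hs0 : 0 < s1 + s2 := lt_of_lt_of_le (by positivity) hs
  have hh0 := S.h0_nonneg
  have hK3 : 1 ≤ K ^ 3 := one_le_pow₀ hK1
  have hK5 : K ^ 2 ≤ K ^ 5 := pow_le_pow_right₀ hK1 (by norm_num)
  have hK2 : 1 ≤ K ^ 2 := one_le_pow₀ hK1
  have hK35 : K ^ 3 ≤ K ^ 5 := pow_le_pow_right₀ hK1 (by norm_num)
  have hR0 : 0 < R := by
    have h1 : 0 < K ^ 3 * h0 + 64 * K ^ 5 * dl := by positivity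
    linarith
  have hRd := S.R_ge
  have hK5' : 1 ≤ K ^ 5 := one_le_pow₀ hK1
  have hR1 : 1000 * dl ≤ R := by nlinarith
  have hdl0 : 0 < dl := by linarith
  -- the main lower bound
  have hmain : g + dl ≤ th := by
    rcases hF.le_end.lt_or_eq with h | h
    · have h1 : ∀ eta : ℝ, 0 < eta → g + dl ≤ th + eta := by
        intro eta heta
        obtain ⟨x, hx, hxl⟩ := hF.ex h _ heta
        have h4 := wgO_height S D hx
        have h5 := D.ge x
        have h6 : (g - 2 * dl) / K / K ≤ inner ℝ x e / K := div_le_div_of_nonneg_right h4 hK.le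
        have h7 : 3 * dl ≤ (g - 2 * dl) / K / K := by
          rw [div_div, le_div_iff₀ (by positivity)]
          have h8 : K ^ 2 * dl ≤ K ^ 5 * dl := mul_le_mul_of_nonneg_right hK5 hdl0.le
          have h9 : dl ≤ K ^ 5 * dl := by nlinarith
          have h10 : 0 ≤ K ^ 3 * h0 := by positivity
          have h11 : 3 * dl * (K * K) = 3 * (K ^ 2 * dl) := by ring
          rw [h11]
          have h12 : 0 < K ^ 5 * dl := by positivity
          linarith
        linarith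
      exact le_of_forall_pos_le_add h1
    · rw [h]
      have : R ≤ K * R := by nlinarith
      linarith
  refine ⟨hmain, ?_⟩
  have h1 : (g + dl) * (s1 + s2) ≤ th * (s1 + s2) := mul_le_mul_of_nonneg_right hmain hs0.le
  have hg0 : 0 < g := by
    have h1 : 0 < K ^ 3 * h0 + 64 * K ^ 5 * dl := by positivity
    linarith
  have h2 : (g + dl) * (2 / K) ≤ (g + dl) * (s1 + s2) :=
    mul_le_mul_of_nonneg_left hs (by linarith)
  have h3 : h0 + 60 * K ^ 2 * dl ≤ (g + dl) * (2 / K) := by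
    have h4 : (g + dl) * (2 / K) = 2 * (g + dl) / K := by ring
    rw [h4, le_div_iff₀ hK]
    have h5 : K * h0 ≤ K ^ 3 * h0 := by
      have : K ≤ K ^ 3 := by nlinarith
      exact mul_le_mul_of_nonneg_right this hh0
    have h6 : K ^ 3 * dl ≤ K ^ 5 * dl := mul_le_mul_of_nonneg_right hK35 hdl0.le
    have h7 : (h0 + 60 * K ^ 2 * dl) * K = K * h0 + 60 * (K ^ 3 * dl) := by ring
    rw [h7]
    have h8 : 0 < K ^ 5 * dl := by positivity
    have h9 : 0 ≤ K ^ 3 * h0 := by positivity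
    linarith
  linarith

theorem wgO_exists_fst (D : WDatO p c e K dl B0 b) (q g : ℝ) :
    ∃ th, IsFst (2 * K * R) (OvO (WR K R) e b (WLO Tm Tp e Pm Pp q) g) (fun x => b x + g) th := by
  refine exists_isFst (m := g) fun x _ => ?_
  have := D.nonneg x
  linarith

theorem wgO_high (S : WScene p P0 c e Pm Pp A s1 s2 K false b Tm Tp Y Z sg k R dl h0) {q : ℝ}
    {x : V} (hx : ‖x‖ ≤ WR K R) (h : dl < WLO Tm Tp e Pm Pp q x) : 0 < (inner ℝ x e : ℝ) := by
  have G := S.geo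
  obtain ⟨-, hs, -⟩ := G.Ae
  have hK : 0 < K := by linarith [G.K1]
  have hs0 : 0 < s1 + s2 := lt_of_lt_of_le (by positivity) hs
  have h1 := wgO_le S (q := q) hx
  have h2 : 0 < inner ℝ x e / (s1 + s2) := by linarith
  exact (div_pos_iff_of_pos_right hs0).1 h2

/-- Finite speed of `TO`. -/
theorem wgO_speed (henv : p.Env c) (D : WDatO p c e K dl B0 b) {x : V} {r t : ℝ} (hr : 1 ≤ r)
    (ht : 0 < t) (hx : b x < t + (r - 1) / p.M1) : ∃ z : V, ‖z - x‖ ≤ r ∧ b z < t := by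
  by_contra hcon
  push Not at hcon
  have hm := henv.med
  have hm' : Med p.M p.L (fun x => -frc c p.F x) :=
    ⟨hm.one_le, hm.one_le', fun x => by rw [abs_neg]; exact hm.bd x, fun x y => by
      have h1 : -frc c p.F x - -frc c p.F y = -(frc c p.F x - frc c p.F y) := by ring
      rw [h1, abs_neg]
      exact hm.lip x y⟩
  have h1 : closedBall x r ⊆ E (fun x => -frc c p.F x) B0 t := by
    intro z hz
    rw [mem_closedBall, dist_eq_norm] at hz
    exact (D.iff z t ht).1 (hcon z hz)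
  have hM1 : 0 < 2 * p.M + 4 := by linarith [hm.one_le]
  have hs : 0 ≤ (r - 1) / (2 * p.M + 4) := div_nonneg (by linarith) hM1.le
  have h2 := inner_large hm' hr h1 hs le_rfl
  rw [← E_add hm' D.cl ht.le hs] at h2
  have h3 := (D.iff x (t + (r - 1) / (2 * p.M + 4)) (by linarith)).2 h2
  have h4 : p.M1 = 2 * p.M + 4 := rfl
  rw [h4] at hx
  linarith

/-- The data of `TO`. -/
theorem wgO_dat {C g : ℝ} {A0 : Set V} {TE TO : V → ℝ} (hc : Canon p c e A0 B0 TE TO C g)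
    (hM : p.M1 ≤ K) (hC : C ≤ dl) : WDatO p c e K dl B0 TO := by
  refine ⟨hc.B_closed, hc.TO_iff, hc.TO_nonneg, fun x => ?_⟩
  have h1 := hc.TE_ge x
  have h2 := (abs_le.1 (hc.near x)).2
  have hC0 : 0 ≤ C := le_trans zero_le_one hc.one_le
  have hM1 : 0 < p.M1 := by
    have := p.hM
    unfold Par.M1
    linarith
  have hK : 0 < K := hM1.trans_le hM
  rcases le_or_gt 0 (inner ℝ x e) with h3 | h3
  · have h4 : inner ℝ x e / K ≤ inner ℝ x e / p.M1 :=
      div_le_div_of_nonneg_left h3 hM1 hM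
    linarith
  · have h4 : inner ℝ x e / K ≤ 0 := div_nonpos_of_nonpos_of_nonneg h3.le hK.le
    have h5 := hc.TO_nonneg x
    linarith

end Pool.Agent.FCF
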