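import Pool.Agent.FCF.Defs

/-!
# FCF / WgDefs: wedge comparison (FCF_PROOF.md, section 8), definitions

`WGeo`: the two slopes `Pm`, `Pp` (with `A . Pm = A . Pp = 1`, `e = s1 Pm + s2 Pp`) and one constant `K`
which bounds everything. `WScene`: everything which is used at one scale `R`:
`b` is `TE` (`bo = true`) or `TO` (`bo = false`), `Tm`, `Tp` are (normalised) window functions with the
slopes `Pm`, `Pp`, `Y` are the good grid points, `Z` contains the bad ones, the precision is `sg^2`.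
`q` is a real parameter: the tip of the wedge moves on `q J e + t A`.
-/

set_option autoImplicit false

namespace Pool.Agent.FCF

open Pool.Agent.VSC (V J LowJet)
open Set Metric

/-- Geometry of the wedge. -/
structure WGeo (P0 : Set V) (e Pm Pp A : V) (s1 s2 K : ℝ) : Prop where
  K1 : 1 ≤ K
  he : ‖e‖ = 1
  s1_ge : 1 / K ≤ s1
  s1_le : s1 ≤ K
  s2_ge : 1 / K ≤ s2
  s2_le : s2 ≤ K
  es : e = s1 • Pm + s2 • Pp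
  Am : inner ℝ A Pm = (1 : ℝ)
  Ap : inner ℝ A Pp = (1 : ℝ)
  nA : ‖A‖ ≤ K
  nP : ∀ P ∈ P0, ‖P‖ ≤ K
  hPm : Pm ∈ P0
  hPp : Pp ∈ P0
  inv : ∀ v : V, ‖v‖ ≤ K * max |inner ℝ Pm v| |inner ℝ Pp v|
  surj : ∀ a b : ℝ, ∃ v : V, inner ℝ Pm v = a ∧ inner ℝ Pp v = b
  tr : 1 / K ≤ |inner ℝ Pm (J e) - inner ℝ Pp (J e)|

/-- Radius of the region which is used at the scale `R`. -/
def WR (K R : ℝ) : ℝ := 32 * K ^ 4 * R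

/-- Everything at one scale `R`. -/
structure WScene (p : Par) (P0 : Set V) (c : V → ℝ) (e Pm Pp A : V) (s1 s2 K : ℝ) (bo : Bool)
    (b Tm Tp : V → ℝ) (Y : Set (ℤ × ℤ)) (Z : Finset (ℤ × ℤ)) (sg : ℝ) (k : ℕ) (R dl h0 : ℝ) :
    Prop where
  geo : WGeo P0 e Pm Pp A s1 s2 K
  env : p.Env c
  M1K : p.M1 ≤ K
  sg_pos : 0 < sg
  sg_le : sg ≤ 1 / (48 * K)
  k_ge : 3 * K ≤ sg ^ 2 * 2 ^ k
  k_le : 2 ^ k ≤ dl
  dl_ge : 3 ≤ dl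
  R_ge : 1000 * K ^ 5 * dl ≤ R
  h0_nonneg : 0 ≤ h0
  sub_m : ∀ t0 : ℝ, SubIn (sgn bo (frc c p.F)) (ball 0 (2 * WR K R)) t0 (arr bo Tm)
  sub_p : ∀ t0 : ℝ, SubIn (sgn bo (frc c p.F)) (ball 0 (2 * WR K R)) t0 (arr bo Tp)
  gl_m : ∀ x : V, ‖x‖ ≤ WR K R → |Tm x - inner ℝ Pm x| ≤ dl
  gl_p : ∀ x : V, ‖x‖ ≤ WR K R → |Tp x - inner ℝ Pp x| ≤ dl
  pl_m : ∀ n ∈ Y, ∀ z : V, ‖z‖ ≤ WR K R →
    |Tm z - Tm (gp n) - inner ℝ Pm (z - gp n)| ≤ sg ^ 2 * max ‖z - gp n‖ (2 ^ k)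
  pl_p : ∀ n ∈ Y, ∀ z : V, ‖z‖ ≤ WR K R →
    |Tp z - Tp (gp n) - inner ℝ Pp (z - gp n)| ≤ sg ^ 2 * max ‖z - gp n‖ (2 ^ k)
  Y_le : ∀ n ∈ Y, ‖gp n‖ ≤ WR K R
  b_pl : ∀ n ∈ Y, ∃ Q : V, (∃ P ∈ P0, ‖Q - P‖ < sg ^ 2) ∧ ∀ z : V, ‖z - gp n‖ ≤ 2 ^ k →
    |b z - b (gp n) - inner ℝ Q (z - gp n)| ≤ sg ^ 2 * 2 ^ k
  b_fi : ∀ n ∈ Y, ∀ r : ℝ, 2 ^ k ≤ r → ∀ y z : V, ‖y - gp n‖ < 9 * r → ‖z - gp n‖ < 9 * r →
    |b y - b z| ≤ K * r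
  bad : ∀ n : ℤ × ℤ, ‖gp n‖ ≤ WR K R → h0 ≤ inner ℝ (gp n) e → n ∉ Y → n ∈ Z
  card : (Z.card : ℝ) < dl ^ 2

/-- The data of `b = TE`. -/
structure WDatE (p : Par) (c : V → ℝ) (e : V) (K dl : ℝ) (A0 : Set V) (b : V → ℝ) : Prop where
  cl : IsClosed A0
  iff : ∀ x t, 0 ≤ t → (b x ≤ t ↔ x ∈ E (frc c p.F) A0 t)
  nonneg : ∀ x, 0 ≤ b x
  le : ∀ x, 0 ≤ inner ℝ x e → b x ≤ K * inner ℝ x e + dl

/-- The data of `b = TO`. -/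
structure WDatO (p : Par) (c : V → ℝ) (e : V) (K dl : ℝ) (B0 : Set V) (b : V → ℝ) : Prop where
  cl : IsClosed B0
  iff : ∀ x t, 0 < t → (t ≤ b x ↔ x ∈ E (fun x => -frc c p.F x) B0 t)
  nonneg : ∀ x, 0 ≤ b x
  ge : ∀ x, inner ℝ x e / K - 2 * dl ≤ b x

/-- The wedge function from below (`E`-case). -/
noncomputable def WLE (Tm Tp : V → ℝ) (e Pm Pp : V) (q : ℝ) (x : V) : ℝ :=
  max (Tm x - q * inner ℝ Pm (J e)) (Tp x - q * inner ℝ Pp (J e))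

/-- The wedge function in the `O`-case. -/
noncomputable def WLO (Tm Tp : V → ℝ) (e Pm Pp : V) (q : ℝ) (x : V) : ℝ :=
  min (Tm x - q * inner ℝ Pm (J e)) (Tp x - q * inner ℝ Pp (J e))

/-- Overtaken points (`E`-case) for the gap `g`. -/
def OvE (Rs : ℝ) (e : V) (b L : V → ℝ) (g : ℝ) : Set V :=
  {x | ‖x‖ ≤ Rs ∧ 0 < inner ℝ x e ∧ g < b x - L x}

/-- Overtaken points (`O`-case) for the gap `g`. -/
def OvO (Rs : ℝ) (e : V) (b L : V → ℝ) (g : ℝ) : Set V :=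
  {x | ‖x‖ ≤ Rs ∧ 0 < inner ℝ x e ∧ g < L x - b x}

/-- `th = min (tend, inf over O of lo)`. -/
structure IsFst (tend : ℝ) (O : Set V) (lo : V → ℝ) (th : ℝ) : Prop where
  le_end : th ≤ tend
  le_lo : ∀ x ∈ O, th ≤ lo x
  ex : th < tend → ∀ eta : ℝ, 0 < eta → ∃ x ∈ O, lo x < th + eta

end Pool.Agent.FCF
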