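import Pool.Agent.FCF.WgOffE
import Pool.Agent.FCF.WgTip

/-!
# FCF / WgLevE: the level at a tip (FCF_PROOF.md, 8.3, E-case)

`y = gp n`, `l = max w (2^k) ≤ 2 K dl`, `L = WLE .. q`.
UPPER: `z' = y - 2 l A`: `T z' - q_T - th ≤ w - 2 l + sg² max (2Kl) (2^k) < 0` (`sg² 2K ≤ 1/2`), so `L z' < th`; `z'.e ≥ 57K²dl - 2K·2K dl > 0` (`wg_near`), `‖z'‖ ≤ WR`; so `z' ∉ O` (`hF.le_lo`):
`b z' ≤ L z' + g < th + g`. `b_fi` with `r = K l`: `‖z' - y‖ ≤ 2Kl < 9Kl`: `b y ≤ b z' + K² l`.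
LOWER: `wgE_off` with `d = 24 K l ≥ 24 K max w (sg 2^k)`, `eta` arbitrary: `z ∈ O`, `‖z - y‖ < 24 K l`: `b z > L z + g ≥ th + g`; `b_fi` with `r = 3 K l`: `b y ≥ b z - 3K² l`.
-/

set_option autoImplicit false

namespace Pool.Agent.FCF

open Pool.Agent.VSC (V J LowJet)
open Set Metric

private theorem nums {K sg l P dl R : ℝ} (K1 : 1 ≤ K) (sg0 : 0 < sg) (sg1 : sg ≤ 1 / (48 * K))
    (hP0 : 0 < P) (hPl : P ≤ l) (hl : l ≤ 2 * K * dl) (h3 : 3 ≤ dl) (hR : 1000 * K ^ 5 * dl ≤ R) :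
    sg ^ 2 * (2 * K * l) ≤ l / 2 ∧ 6 * K ^ 2 * R + 2 * K * l ≤ 32 * K ^ 4 * R ∧
      2 * K * l < 57 * K ^ 2 * dl ∧ l ≤ K * l ∧ sg ≤ 1 := by
  have hK0 : 0 < K := by linarith
  have h1 : sg * K ≤ 1 / 48 := by
    have h := mul_le_mul_of_nonneg_right sg1 hK0.le
    have h' : 1 / (48 * K) * K = 1 / 48 := by field_simp
    linarith
  have h2 : sg * 1 ≤ sg * K := mul_le_mul_of_nonneg_left K1 sg0.le
  have hl0 : 0 < l := by linarith
  have h4 : sg * (sg * K) ≤ 1 / 48 * (1 / 48) :=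
    mul_le_mul (by linarith) h1 (by positivity) (by norm_num)
  have h5 := mul_le_mul_of_nonneg_right h4 hl0.le
  have hKl : 2 * K * l ≤ 4 * K ^ 2 * dl := by
    have h := mul_le_mul_of_nonneg_left hl (show (0 : ℝ) ≤ 2 * K by linarith)
    linarith
  have q5 : K ^ 2 ≤ K ^ 5 := pow_le_pow_right₀ K1 (by norm_num)
  have q4 : K ^ 2 ≤ K ^ 4 := pow_le_pow_right₀ K1 (by norm_num)
  have q40 : (1 : ℝ) ≤ K ^ 4 := one_le_pow₀ K1
  have hd0 : 0 < dl := by linarith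
  have q6 := mul_le_mul_of_nonneg_right q5 hd0.le
  have q0 : 0 < K ^ 2 * dl := by positivity
  have hR0 : 0 < R := by linarith
  have a1 := mul_le_mul_of_nonneg_right q4 hR0.le
  have a2 := mul_le_mul_of_nonneg_right q40 hR0.le
  refine ⟨?_, by linarith, by linarith, by nlinarith, by linarith⟩
  have : sg ^ 2 * (2 * K * l) = 2 * (sg * (sg * K) * l) := by ring
  rw [this]
  linarith

theorem wgE_lev {p : Par} {P0 : Set V} {c : V → ℝ} {e Pm Pp A : V} {s1 s2 K : ℝ}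
    {b Tm Tp : V → ℝ} {Y : Set (ℤ × ℤ)} {Z : Finset (ℤ × ℤ)} {sg : ℝ} {k : ℕ} {R dl h0 : ℝ}
    {A0 : Set V} (S : WScene p P0 c e Pm Pp A s1 s2 K true b Tm Tp Y Z sg k R dl h0)
    (D : WDatE p c e K dl A0 b) {q g th w : ℝ} (hq : |q| ≤ 3 * K ^ 2 * R)
    (hg : K ^ 3 * h0 + 64 * K ^ 5 * dl ≤ g) (hgR : g ≤ R) (hth : th < 2 * K * R)
    (hF : IsFst (2 * K * R) (OvE (WR K R) e b (WLE Tm Tp e Pm Pp q) g) (WLE Tm Tp e Pm Pp q) th)
    {n : ℤ × ℤ} (hn : n ∈ Y) (hw : w ≤ 2 * K * dl)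
    (hwm : |Tm (gp n) - q * inner ℝ Pm (J e) - th| ≤ w)
    (hwp : |Tp (gp n) - q * inner ℝ Pp (J e) - th| ≤ w) :
    |b (gp n) - th - g| ≤ 4 * K ^ 2 * max w (2 ^ k) := by
  have K1 := S.geo.K1
  have hK0 : 0 < K := by linarith
  have sg0 := S.sg_pos
  have hP0 : (0 : ℝ) < 2 ^ k := by positivity
  have hdl0 : 0 < dl := by linarith [S.dl_ge]
  have hdlg : dl ≤ g := by
    have h5 := mul_le_mul_of_nonneg_right (one_le_pow₀ K1 : (1 : ℝ) ≤ K ^ 5) hdl0.le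
    have h3 : (0 : ℝ) ≤ K ^ 3 * h0 := mul_nonneg (by positivity) S.h0_nonneg
    linarith
  obtain ⟨hth0, hthl⟩ := wgE_th_low S D hg hgR hF
  obtain ⟨hy1, hy2, hy3⟩ := wg_near S hq hth0 hth.le hthl hn hw hwm hwp
  have hPl : (2 : ℝ) ^ k ≤ max w (2 ^ k) := le_max_right _ _
  have hwl : w ≤ max w (2 ^ k) := le_max_left _ _
  have hl : max w (2 ^ k) ≤ 2 * K * dl := by
    refine max_le hw ?_
    have h := mul_le_mul_of_nonneg_right K1 hdl0.le
    linarith [S.k_le]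
  have hA := S.geo.nA
  have hAm : (inner ℝ Pm A : ℝ) = 1 := by rw [real_inner_comm]; exact S.geo.Am
  have hAp : (inner ℝ Pp A : ℝ) = 1 := by rw [real_inner_comm]; exact S.geo.Ap
  have hoff := fun {d : ℝ} (hd : 24 * K * max w (sg * 2 ^ k) ≤ d) =>
    wgE_off S D hq hdlg hth0 hth hF hn hwm hwp hd (eta := 1) one_pos
  have hpm := S.pl_m n hn
  have hpp := S.pl_p n hn
  have hfi := S.b_fi n hn
  have hlo := hF.le_lo
  have hsgP : sg * 2 ^ k ≤ 2 ^ k := by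
    obtain ⟨-, -, -, -, n5⟩ := nums K1 sg0 S.sg_le hP0 hPl hl S.dl_ge S.R_ge
    have := mul_le_mul_of_nonneg_right n5 hP0.le
    linarith
  obtain ⟨n1, n2, n3, n4, -⟩ := nums K1 sg0 S.sg_le hP0 hPl hl S.dl_ge S.R_ge
  have hmx : max w (sg * 2 ^ k) ≤ max w (2 ^ k) := max_le_max_left _ hsgP
  clear hsgP
  have hse := S.geo.he
  generalize hL' : max w (2 ^ k) = l at *
  generalize gp n = y at *
  have hl0 : 0 < l := by linarith
  have hz1 : ‖y - (2 * l) • A - y‖ ≤ 2 * K * l := by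
    have h1 : y - (2 * l) • A - y = -((2 * l) • A) := by abel
    rw [h1, norm_neg, norm_smul, Real.norm_of_nonneg (by linarith)]
    have h2 := mul_le_mul_of_nonneg_left hA (show (0 : ℝ) ≤ 2 * l by linarith)
    linarith
  have hr1 : ‖y - (2 * l) • A‖ ≤ WR K R := by
    have h1 : ‖y - (2 * l) • A‖ ≤ ‖y‖ + ‖y - (2 * l) • A - y‖ := by
      have := norm_add_le y (y - (2 * l) • A - y)
      rwa [add_sub_cancel] at this
    rw [WR]
    linarith
  have hr2 : 0 < (inner ℝ (y - (2 * l) • A) e : ℝ) := by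
    have h1 : (inner ℝ (y - (2 * l) • A) e : ℝ) = inner ℝ y e + inner ℝ (y - (2 * l) • A - y) e := by
      rw [← inner_add_left, add_sub_cancel]
    have h2 : |(inner ℝ (y - (2 * l) • A - y) e : ℝ)| ≤ ‖y - (2 * l) • A - y‖ := by
      have := abs_real_inner_le_norm (y - (2 * l) • A - y) e
      rwa [hse, mul_one] at this
    have h3 := (abs_le.1 h2).1
    linarith
  have hmax : sg ^ 2 * max ‖y - (2 * l) • A - y‖ (2 ^ k) ≤ l / 2 := by
    have h1 : max ‖y - (2 * l) • A - y‖ (2 ^ k) ≤ 2 * K * l := by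
      refine max_le hz1 ?_
      linarith
    exact (mul_le_mul_of_nonneg_left h1 (by positivity)).trans n1
  have im : (inner ℝ Pm (y - (2 * l) • A - y) : ℝ) = -(2 * l) := by
    have h1 : y - (2 * l) • A - y = -((2 * l) • A) := by abel
    rw [h1, inner_neg_right, real_inner_smul_right, hAm, mul_one]
  have ip : (inner ℝ Pp (y - (2 * l) • A - y) : ℝ) = -(2 * l) := by
    have h1 : y - (2 * l) • A - y = -((2 * l) • A) := by abel
    rw [h1, inner_neg_right, real_inner_smul_right, hAp, mul_one]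
  have m2 := (abs_le.1 (hpm _ hr1)).2
  have p2 := (abs_le.1 (hpp _ hr1)).2
  rw [im] at m2
  rw [ip] at p2
  have hL : WLE Tm Tp e Pm Pp q (y - (2 * l) • A) < th := by
    have e2 := (abs_le.1 hwm).2
    have e4 := (abs_le.1 hwp).2
    refine max_lt ?_ ?_
    · linarith
    · linarith
  have hnot : b (y - (2 * l) • A) < th + g := by
    by_contra hcon
    push Not at hcon
    have := hlo _ ⟨hr1, hr2, by linarith⟩
    linarith
  have hKl : 0 < K * l := mul_pos hK0 hl0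
  have hKK : K ^ 2 * l = K * (K * l) := by ring
  have hKKl : 0 < K * (K * l) := mul_pos hK0 hKl
  have u1 := hfi (K * l) (by linarith) y (y - (2 * l) • A)
    (by rw [sub_self, norm_zero]; linarith) (by linarith)
  obtain ⟨z, ⟨hzR, hze, hzg⟩, hzd, -⟩ := hoff (d := 24 * K * l)
    (mul_le_mul_of_nonneg_left hmx (by linarith))
  have hz3 := hlo z ⟨hzR, hze, hzg⟩
  have u2 := hfi (3 * (K * l)) (by linarith) y z
    (by rw [sub_self, norm_zero]; linarith) (by linarith)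
  have u1' := (abs_le.1 u1).2
  have u2' := (abs_le.1 u2).1
  refine abs_le.2 ⟨?_, ?_⟩
  · linarith
  · linarith

end Pool.Agent.FCF
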