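import Pool.Agent.FCF.WgGoodE
import Pool.Agent.FCF.WgLevE
import Pool.Agent.FCF.WgPairs

/-!
# FCF / WgMainE: the fixed scale result, E-case (FCF_PROOF.md, 8.3, 8.4)

PROOF. `g j = g0 + j De`, `q i = i 2^k`; for `i ∈ I` (`wg_card_I` with `q0`, `r = eps R`) `|q i| ≤ 2K²R + eps R ≤ 3K²R`. `th i j` from `wgE_exists_fst` for `q i`, `g j` (choice). Suppose the claim is
false: then `th i N < 2KR` for all `i ∈ I` (if `th i N = 2KR` then no `x ∈ OvE (g N)` has `L x < 2KR`, so `q = q i` works). `th` is nondecreasing in `j` (`IsFst.mono`), so `th i j < 2KR` for `j ≤ N`.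
`Bp` = the pairs `(i, j)`, `i ∈ I`, `1 ≤ j ≤ N`, for which there are `n w z` with `WBad ..` (`ep = 1`). If `(i,j+1) ∉ Bp`, `j < N`: `wg_tip` (`wgE_th_low` gives its hypotheses) gives `n w z`; if
`4 sg² 2^k < w` then `WBad` holds (`wgE_lev`): contradiction; so `w ≤ 4 sg² 2^k` and `wgE_good` gives `z' ∈ OvE (g j)`, `L z' ≤ th i (j+1) - s/2`, so `th i j ≤ th i (j+1) - s/2`. `th i 0 ≥ 0` (`wgE_th_low`).
`wg_columns` (`T = 2KR`, `s = sg 2^k`, `hN1`): `#I N ≤ 2 #Bp`. `wg_count`: `#Bp sg⁴ 2^k De ≤ 6561 K¹⁰ #Z ≤ 6561 K¹⁰ del R²`. So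
`eps R * N De * sg⁴ ≤ (#I 2^k) N De sg⁴ ≤ 2 * 6561 K¹⁰ del R²`, `hN2`: `eps² R² sg⁴/2 ≤ 13122 K¹⁰ del R²`, contradiction with `hdel` (`30000 K¹⁰ del ≤ eps² sg⁴`).
-/

set_option autoImplicit false

namespace Pool.Agent.FCF

open Pool.Agent.VSC (V J LowJet)
open Set Metric

theorem wgE_main {p : Par} {P0 : Set V} {c : V → ℝ} {e Pm Pp A : V} {s1 s2 K : ℝ}
    {b Tm Tp : V → ℝ} {Y : Set (ℤ × ℤ)} {Z : Finset (ℤ × ℤ)} {sg : ℝ} {k : ℕ} {R dl h0 : ℝ}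
    {A0 : Set V} (S : WScene p P0 c e Pm Pp A s1 s2 K true b Tm Tp Y Z sg k R dl h0)
    (D : WDatE p c e K dl A0 b) {w0 cw : ℝ} (hw0 : 0 < w0) (hw1 : w0 ≤ 1)
    (hcw : 100 * K ^ 2 * sg ≤ cw)
    (hsep : ∀ Q ∈ P0, |(inner ℝ Q A : ℝ) - 1| ≤ w0 ∨
      ∃ v : V, ‖v‖ = 1 ∧ (inner ℝ Pm v : ℝ) ≤ 0 ∧ (inner ℝ Pp v : ℝ) ≤ 0 ∧ cw ≤ inner ℝ Q v)
    {De g0 eps del : ℝ} {N : ℕ} (hDe : De = sg * 2 ^ k * (w0 + sg ^ 2 * K + 4 * sg))
    (hg0 : K ^ 3 * h0 + 64 * K ^ 5 * dl ≤ g0) (hgN : g0 + N * De ≤ R)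
    (hN1 : 8 * K * R ≤ N * (sg * 2 ^ k)) (hN2 : eps * R ≤ 2 * (N * De)) (heps : 0 < eps)
    (heps1 : eps ≤ 1) (hk : 2 ^ k ≤ eps * R) (hZ : (Z.card : ℝ) ≤ del * R ^ 2)
    (hdel : 30000 * K ^ 10 * del ≤ eps ^ 2 * sg ^ 4) {q0 : ℝ} (hq0 : |q0| ≤ 2 * K ^ 2 * R) :
    ∃ q : ℝ, |q - q0| ≤ eps * R ∧ ∀ x : V, ‖x‖ ≤ WR K R → 0 < (inner ℝ x e : ℝ) →
      WLE Tm Tp e Pm Pp q x < 2 * K * R → b x ≤ WLE Tm Tp e Pm Pp q x + (g0 + N * De) := by
  classical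
  have G := S.geo
  have hK := G.K1
  have hK0 : 0 < K := by linarith
  have hdl : 0 < dl := by linarith [S.dl_ge]
  have hh0 := S.h0_nonneg
  have hsg := S.sg_pos
  have h2k : (0 : ℝ) < 2 ^ k := by positivity
  have h48 : 48 * K * sg ≤ 1 := by
    have h := S.sg_le
    rw [le_div_iff₀ (by positivity)] at h
    linarith
  have hKsg : K * sg ≤ 1 / 48 := by linarith
  have hsg1 : sg ≤ 1 / 48 := by nlinarith
  have hK2 : 1 ≤ K ^ 2 := one_le_pow₀ hK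
  have hK5 : 1 ≤ K ^ 5 := one_le_pow₀ hK
  have hdlR : dl ≤ R := by
    have h := S.R_ge
    have h2 : 1 * dl ≤ (1000 * K ^ 5) * dl := mul_le_mul_of_nonneg_right (by linarith) hdl.le
    linarith
  have hR0 : 0 < R := by linarith
  have hs0 : 0 < sg * 2 ^ k := by positivity
  have hDe0 : 0 < De := by rw [hDe]; positivity
  have hDk : De ≤ 2 ^ k := by
    have h1 : w0 + sg ^ 2 * K + 4 * sg ≤ 1 + 1 + 1 := by nlinarith
    calc De = sg * (w0 + sg ^ 2 * K + 4 * sg) * 2 ^ k := by rw [hDe]; ring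
      _ ≤ 1 * 2 ^ k := by
          refine mul_le_mul_of_nonneg_right ?_ h2k.le
          calc sg * (w0 + sg ^ 2 * K + 4 * sg) ≤ 1 / 48 * (1 + 1 + 1) :=
                mul_le_mul hsg1 h1 (by positivity) (by norm_num)
            _ ≤ 1 := by norm_num
      _ = 2 ^ k := one_mul _
  -- the levels and the parameters
  have hgmono : ∀ j : ℕ, j ≤ N → g0 + (j : ℝ) * De ≤ R := by
    intro j hj
    have h1 : (j : ℝ) * De ≤ (N : ℝ) * De :=
      mul_le_mul_of_nonneg_right (by exact_mod_cast hj) hDe0.le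
    linarith
  have hgge : ∀ j : ℕ, K ^ 3 * h0 + 64 * K ^ 5 * dl ≤ g0 + (j : ℝ) * De := by
    intro j
    have h1 : 0 ≤ (j : ℝ) * De := by positivity
    linarith
  obtain ⟨I, hI, hIc⟩ := wg_card_I (q0 := q0) hk
  have hqI : ∀ i ∈ I, |(i : ℝ) * 2 ^ k| ≤ 3 * K ^ 2 * R := by
    intro i hi
    have h1 := (hI i).1 hi
    have h2 : |(i : ℝ) * 2 ^ k| ≤ |(i : ℝ) * 2 ^ k - q0| + |q0| := by
      calc |(i : ℝ) * 2 ^ k| = |((i : ℝ) * 2 ^ k - q0) + q0| := by rw [sub_add_cancel]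
        _ ≤ _ := abs_add_le _ _
    have h3 : eps * R ≤ K ^ 2 * R := mul_le_mul_of_nonneg_right (by linarith) hR0.le
    linarith
  have hfst := fun (i : ℤ) (j : ℕ) => wgE_exists_fst S ((i : ℝ) * 2 ^ k) (g0 + (j : ℝ) * De)
  choose th hth using hfst
  by_contra hcon
  push Not at hcon
  have hthN : ∀ i ∈ I, th i N < 2 * K * R := by
    intro i hi
    obtain ⟨x, hx1, hx2, hx3, hx4⟩ := hcon _ ((hI i).1 hi)
    have h1 := (hth i N).le_lo x ⟨hx1, hx2, by linarith⟩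
    linarith
  have hmono : ∀ i ∈ I, ∀ j, j < N → th i j ≤ th i (j + 1) := by
    intro i _ j _
    refine (hth i j).mono (hth i (j + 1)) ?_ (fun x _ => le_rfl)
    rintro x ⟨h1, h2, h3⟩
    refine ⟨h1, h2, lt_of_le_of_lt ?_ h3⟩
    push_cast
    linarith
  have hthle : ∀ i ∈ I, ∀ m j : ℕ, j + m = N → th i j ≤ th i N := by
    intro i hi m
    induction m with
    | zero => intro j hj; rw [← hj, add_zero]
    | succ m ih =>
      intro j hj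
      exact (hmono i hi j (by omega)).trans (ih (j + 1) (by omega))
  have hthlt : ∀ i ∈ I, ∀ j, j ≤ N → th i j < 2 * K * R := fun i hi j hj =>
    lt_of_le_of_lt (hthle i hi (N - j) j (by omega)) (hthN i hi)
  set Bp : Finset (ℤ × ℕ) := (I ×ˢ Finset.range (N + 1)).filter (fun a => ∃ (n : ℤ × ℤ) (w : ℝ)
    (z : V), WBad e Pm Pp K b Tm Tp Y Z sg k 1 ((a.1 : ℝ) * 2 ^ k) (g0 + (a.2 : ℝ) * De)
      (th a.1 a.2) n w z) with hBp
  have hcount := wg_count S (Or.inl rfl) (De := De) (g0 := g0) hDe0 hDk Bp (by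
    intro a ha
    obtain ⟨-, n, w, z, h⟩ := Finset.mem_filter.1 ha
    exact ⟨_, n, w, z, h⟩)
  have hgood : ∀ i ∈ I, ∀ j, j < N → (i, j + 1) ∉ Bp →
      th i j ≤ th i (j + 1) - sg * 2 ^ k / 2 := by
    intro i hi j hj hnB
    have hF := hth i (j + 1)
    have hlt := hthlt i hi (j + 1) (by omega)
    have hgR := hgmono (j + 1) (by omega)
    have hg := hgge (j + 1)
    obtain ⟨h0', hh⟩ := wgE_th_low S D hg hgR hF
    obtain ⟨n, hn, w, z, hw0', hw1', hwm, hwp, hz1, -, hz3⟩ :=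
      wg_tip S (hqI i hi) h0' hlt.le hh
    by_cases hw : 4 * sg ^ 2 * 2 ^ k < w
    · exfalso
      apply hnB
      refine Finset.mem_filter.2 ⟨Finset.mem_product.2 ⟨hi, Finset.mem_range.2
        (show j + 1 < N + 1 by omega)⟩, n, w, z, hn, hw, hwm, hwp, hz1, hz3 hw, ?_⟩
      rw [one_mul]
      exact wgE_lev S D (hqI i hi) hg hgR hlt hF hn hw1' hwm hwp
    · push Not at hw
      obtain ⟨z', hz', hL⟩ := wgE_good S D hw0 hcw hsep hDe (hqI i hi) hg hgR hlt hF hn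
        (hwm.trans hw) (hwp.trans hw)
      have e1 : g0 + ((j + 1 : ℕ) : ℝ) * De - De = g0 + (j : ℝ) * De := by
        push_cast
        ring
      rw [e1] at hz'
      exact ((hth i j).le_lo z' hz').trans hL
  have h00 : ∀ i ∈ I, 0 ≤ th i 0 := fun i _ =>
    (wgE_th_low S D (hgge 0) (hgmono 0 (Nat.zero_le _)) (hth i 0)).1
  have hcol := wg_columns hs0 (T := 2 * K * R) (by linarith) hmono h00 hthN hgood
  -- the final estimate
  have hN0 : 0 ≤ (N : ℝ) * De := by positivity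
  have hsg4 : 0 < sg ^ 4 := by positivity
  have f1 : eps * R * ((N : ℝ) * De) ≤ (I.card : ℝ) * 2 ^ k * ((N : ℝ) * De) :=
    mul_le_mul_of_nonneg_right hIc hN0
  have f2 : (I.card : ℝ) * N * (sg ^ 4 * (2 ^ k * De)) ≤
      2 * Bp.card * (sg ^ 4 * (2 ^ k * De)) := mul_le_mul_of_nonneg_right hcol (by positivity)
  have f3 : 6561 * K ^ 10 * (Z.card : ℝ) ≤ 6561 * K ^ 10 * (del * R ^ 2) :=
    mul_le_mul_of_nonneg_left hZ (by positivity)
  have f4 : eps * R * ((N : ℝ) * De) * sg ^ 4 ≤ 13122 * K ^ 10 * del * R ^ 2 := by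
    calc eps * R * ((N : ℝ) * De) * sg ^ 4
        ≤ (I.card : ℝ) * 2 ^ k * ((N : ℝ) * De) * sg ^ 4 :=
          mul_le_mul_of_nonneg_right f1 hsg4.le
      _ = (I.card : ℝ) * N * (sg ^ 4 * (2 ^ k * De)) := by ring
      _ ≤ 2 * Bp.card * (sg ^ 4 * (2 ^ k * De)) := f2
      _ = 2 * (Bp.card * (sg ^ 4 * (2 ^ k * De))) := by ring
      _ ≤ 2 * (6561 * K ^ 10 * (del * R ^ 2)) := by linarith
      _ = 13122 * K ^ 10 * del * R ^ 2 := by ring
  have f5 : eps * R * (eps * R) ≤ eps * R * (2 * ((N : ℝ) * De)) :=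
    mul_le_mul_of_nonneg_left hN2 (by positivity)
  have f6 : eps * R * (eps * R) * sg ^ 4 ≤ eps * R * (2 * ((N : ℝ) * De)) * sg ^ 4 :=
    mul_le_mul_of_nonneg_right f5 hsg4.le
  have f7 : 0 < eps ^ 2 * sg ^ 4 * R ^ 2 := by positivity
  have f8 : 30000 * K ^ 10 * del * R ^ 2 ≤ eps ^ 2 * sg ^ 4 * R ^ 2 :=
    mul_le_mul_of_nonneg_right hdel (by positivity)
  have f9 : eps ^ 2 * sg ^ 4 * R ^ 2 = eps * R * (eps * R) * sg ^ 4 := by ring
  have f10 : eps * R * (2 * ((N : ℝ) * De)) * sg ^ 4 =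
      2 * (eps * R * ((N : ℝ) * De) * sg ^ 4) := by ring
  have f11 : 30000 * K ^ 10 * del * R ^ 2 = 30000 * (K ^ 10 * del * R ^ 2) := by ring
  have f12 : 13122 * K ^ 10 * del * R ^ 2 = 13122 * (K ^ 10 * del * R ^ 2) := by ring
  rw [f11] at f8
  rw [f12] at f4
  linarith

end Pool.Agent.FCF
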