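import Pool.Agent.FCF.WgSetup
import Pool.Agent.FCF.WgMainE

/-!
# FCF / WgFinE: upper bound of TE (FCF_PROOF.md, 8.4)

PROOF. We may take `eps0 ≤ 1`. Suppose false: for every `n` there are `R n ≥ n` and `x n` with `‖x n‖ ≤ R n`, `0 ≤ x.e`, `TE x > x.e/(s1+s2) + eps0 R n`. `φ` from `wg_setup` (`bo = true`). Constants:
`eps = eps0/(4K)`, `w0 = eps/(64K)`, `cw` from `G.sep`, `sg = min (1/(48K)) (cw/(200K²)) (eps/(200K²))`, `th0 = eps0/(1000K⁵)`, `eta = eps0/(8K³)`, `del = min (eps² sg⁴/(30000K¹⁰)) (th0²/2)`, `k` = `k1`; `R = R (φ n)` with `n` so large that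
`C ≤ th0 R`, `2^k ≤ eps R`, `FineLarge` for `eta := eps` (`hc.large`), etc. `De = sg 2^k (w0 + sg² K + 4 sg) ≤ 2^k`, `N = ⌊eps R/De⌋`: `N De ≤ eps R ≤ 2 N De`; `w0 + sg² K + 4 sg ≤ eps/(16K)`, so `N sg 2^k = N De/(w0 + ..) ≥ 8KR`.
`g0 = K³ eta R + 64 K⁵ th0 R ≤ eps0 R/5`; `g0 + N De ≤ R`.
If `x.e = 0`: `TE x ≤ C` (`Canon.TE_le`). Else `G.decomp x`: `q0`, `t = x.e/(s1+s2)`, `|q0| ≤ 2K²R`. `wgE_main`: `q`. `x' = x + (q - q0) J e`: `x'.e = x.e`, `Pm . x' - q (Pm.Je) = t = Pp . x' - q (Pp.Je)`, so `WLE .. q x' ≤ t + dl < 2KR` (`wgE_le`), and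
`TE x' ≤ t + dl + g0 + N De`. `‖x - x'‖ ≤ eps R`: `|TE x - TE x'| ≤ C3 eps R ≤ K eps R` (`hcan.clE` at `x`, `r = eps R`, `fine_of_fine1`). Total `≤ t + eps0 R (1/1000 + 1/5 + 1/4 + 1/4)`.
-/

set_option autoImplicit false

namespace Pool.Agent.FCF

open Pool.Agent.VSC (V J LowJet)
open Set Metric Filter

private theorem wgFinE_le {a b m : ℝ} (ha : 0 ≤ a) (hm : 1 ≤ m) (h : a * m ≤ b) : a ≤ b :=
  (le_mul_of_one_le_right ha hm).trans h

private theorem wgFinE_scale {p : Par} {P0 : Set V} (hP0 : IsClosed P0) {c : V → ℝ}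
    (hc : Typ p P0 c)
    {e Pm Pp A : V} {s1 s2 K : ℝ} (G : WGeo P0 e Pm Pp A s1 s2 K)
    (hcone : ∀ Q ∈ P0, ∀ u v : ℝ, 0 ≤ u → 0 ≤ v → Q = u • Pm + v • Pp → Q = Pm ∨ Q = Pp)
    {A0 B0 : Set V} {TE TO : V → ℝ} {C g : ℝ} (hcan : Canon p c e A0 B0 TE TO C g)
    (h3 : p.C3 ≤ K) (h1 : p.M1 ≤ K) (hg : 1 / g ≤ K) {eps0 : ℝ} (heps : 0 < eps0)
    (heps1 : eps0 ≤ 1) {R : ℕ → ℝ} (hR : Tendsto R atTop atTop) :
    ∃ n : ℕ, ∀ x : V, ‖x‖ ≤ R n → 0 ≤ (inner ℝ x e : ℝ) →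
      TE x ≤ inner ℝ x e / (s1 + s2) + eps0 * R n := by
  obtain ⟨hAe, hslo, hshi⟩ := G.Ae
  have hK1 := G.K1
  have hK : 0 < K := by linarith
  have hs0 : 0 < s1 + s2 := lt_of_lt_of_le (by positivity) hslo
  obtain ⟨φ, hφ, hset⟩ := wg_setup hc G hcan h3 h1 true hR
  -- constants
  obtain ⟨eps, heps_def⟩ : ∃ eps : ℝ, eps = eps0 / (4 * K) := ⟨_, rfl⟩
  have he0 : 0 < eps := by rw [heps_def]; positivity
  have heK : eps * K = eps0 / 4 := by rw [heps_def]; field_simp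
  have he4' : eps ≤ eps0 / 4 := wgFinE_le he0.le hK1 heK.le
  have he4 : eps ≤ 1 / 4 := by linarith
  obtain ⟨w0, hw0_def⟩ : ∃ w0 : ℝ, w0 = eps / (64 * K) := ⟨_, rfl⟩
  have hw0 : 0 < w0 := by rw [hw0_def]; positivity
  have hw0K : w0 * K = eps / 64 := by rw [hw0_def]; field_simp
  have hw0' : w0 ≤ eps / 64 := wgFinE_le hw0.le hK1 hw0K.le
  obtain ⟨cw, hcw0, hsep⟩ := G.sep hP0 hcone hw0
  obtain ⟨sg, hsg_def⟩ : ∃ sg : ℝ,
      sg = min (1 / (48 * K)) (min (cw / (200 * K ^ 2)) (eps / (200 * K ^ 2))) := ⟨_, rfl⟩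
  have hsg0 : 0 < sg := by
    rw [hsg_def]
    refine lt_min (by positivity) (lt_min (by positivity) (by positivity))
  have hsg1 : sg ≤ 1 / (48 * K) := by rw [hsg_def]; exact min_le_left _ _
  have hsg2 : sg ≤ cw / (200 * K ^ 2) := by
    rw [hsg_def]; exact (min_le_right _ _).trans (min_le_left _ _)
  have hsg3 : sg ≤ eps / (200 * K ^ 2) := by
    rw [hsg_def]; exact (min_le_right _ _).trans (min_le_right _ _)
  have hsg1' : sg * K ≤ 1 / 48 := by
    rw [le_div_iff₀ (by positivity)] at hsg1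
    linarith
  have hsg2' : 200 * K ^ 2 * sg ≤ cw := by
    rw [le_div_iff₀ (by positivity)] at hsg2
    linarith
  have hsg3' : 200 * K ^ 2 * sg ≤ eps := by
    rw [le_div_iff₀ (by positivity)] at hsg3
    linarith
  have hsg3'' : 200 * (sg * K) ≤ eps := by
    have b0 : (0 : ℝ) ≤ 200 * (sg * K) := by positivity
    refine wgFinE_le b0 hK1 ?_
    have b1 : 200 * (sg * K) * K = 200 * K ^ 2 * sg := by ring
    rw [b1]; exact hsg3'
  obtain ⟨th0, hth_def⟩ : ∃ th0 : ℝ, th0 = eps0 / (1000 * K ^ 5) := ⟨_, rfl⟩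
  have hth0 : 0 < th0 := by rw [hth_def]; positivity
  have hthK : 1000 * K ^ 5 * th0 = eps0 := by rw [hth_def]; field_simp
  have hK5 : 1 ≤ K ^ 5 := one_le_pow₀ hK1
  have hth1 : th0 ≤ eps0 / 1000 := by
    refine wgFinE_le hth0.le hK5 ?_
    linarith
  obtain ⟨eta, heta_def⟩ : ∃ eta : ℝ, eta = eps0 / (8 * K ^ 3) := ⟨_, rfl⟩
  have heta0 : 0 < eta := by rw [heta_def]; positivity
  have hetaK : K ^ 3 * eta = eps0 / 8 := by rw [heta_def]; field_simp
  obtain ⟨del, hdel_def⟩ : ∃ del : ℝ,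
      del = min (eps ^ 2 * sg ^ 4 / (30000 * K ^ 10)) (th0 ^ 2 / 2) := ⟨_, rfl⟩
  have hdel0 : 0 < del := by
    rw [hdel_def]; exact lt_min (by positivity) (by positivity)
  have hdel1 : 30000 * K ^ 10 * del ≤ eps ^ 2 * sg ^ 4 := by
    have : del ≤ eps ^ 2 * sg ^ 4 / (30000 * K ^ 10) := by rw [hdel_def]; exact min_le_left _ _
    rw [le_div_iff₀ (by positivity)] at this
    linarith
  have hdel2 : del < th0 ^ 2 := by
    have : del ≤ th0 ^ 2 / 2 := by rw [hdel_def]; exact min_le_right _ _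
    have h2 : 0 < th0 ^ 2 := by positivity
    linarith
  obtain ⟨k, hk⟩ := hset sg del th0 eta hsg0 hsg1 hdel0 hth0 (by linarith) hdel2 heta0
  obtain ⟨n0, hn0⟩ := hk k le_rfl
  obtain ⟨Rf, hRf⟩ := hc.large eps he0
  have hRφ : Tendsto (fun n => R (φ n)) atTop atTop := hR.comp hφ.tendsto_atTop
  obtain ⟨n1, hn1⟩ := (hRφ.eventually_ge_atTop
    (max (max Rf (C / th0)) (max (2 ^ k / eps) 1))).exists_forall_of_atTop
  obtain ⟨n, hn⟩ : ∃ n : ℕ, n = max n0 n1 := ⟨_, rfl⟩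
  refine ⟨φ n, fun x hx hxe => ?_⟩
  obtain ⟨Tm, Tp, Y, Z, S, hZ⟩ := hn0 n (by rw [hn]; exact le_max_left _ _)
  have hRb := hn1 n (by rw [hn]; exact le_max_right _ _)
  simp only [max_le_iff] at hRb
  obtain ⟨⟨a1, a2⟩, a3, a4⟩ := hRb
  obtain ⟨r, hr⟩ : ∃ r : ℝ, r = R (φ n) := ⟨_, rfl⟩
  rw [← hr] at a1 a2 a3 a4 S hZ hx ⊢
  simp only [if_true] at S
  have hr0 : 0 < r := by linarith
  have hC : C ≤ th0 * r := by
    rw [div_le_iff₀ hth0] at a2
    linarith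
  have hk2 : (2 : ℝ) ^ k ≤ eps * r := by
    rw [div_le_iff₀ he0] at a3
    linarith
  have hpk : (0 : ℝ) < 2 ^ k := by positivity
  have hpk1 : (1 : ℝ) ≤ 2 ^ k := one_le_pow₀ (by norm_num)
  have hg0 := hcan.g_pos
  -- the data of TE
  have D : WDatE p c e K (th0 * r) A0 TE :=
    { cl := hcan.A_closed
      iff := hcan.TE_iff
      nonneg := hcan.TE_nonneg
      le := by
        intro y hy
        have h5 := hcan.TE_le y
        rw [max_eq_left hy] at h5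
        have h6 : inner ℝ y e / g ≤ K * inner ℝ y e := by
          have h7 : inner ℝ y e / g = 1 / g * inner ℝ y e := by ring
          rw [h7]
          exact mul_le_mul_of_nonneg_right hg hy
        linarith }
  rcases hxe.eq_or_lt with hxe0 | hxe0
  · have h5 := hcan.TE_le x
    rw [← hxe0] at h5 ⊢
    rw [max_self, zero_div, zero_add] at h5
    rw [zero_div, zero_add]
    have : th0 * r ≤ eps0 * r := mul_le_mul_of_nonneg_right (by linarith) hr0.le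
    linarith
  -- De
  obtain ⟨De, hDe⟩ : ∃ De : ℝ, De = sg * 2 ^ k * (w0 + sg ^ 2 * K + 4 * sg) := ⟨_, rfl⟩
  have hsum0 : 0 < w0 + sg ^ 2 * K + 4 * sg := by positivity
  have hsumK : (w0 + sg ^ 2 * K + 4 * sg) * (16 * K) ≤ eps := by
    have b1 : w0 * (16 * K) = eps / 4 := by linear_combination 16 * hw0K
    have b2 : 4 * sg * (16 * K) ≤ 64 * (eps / 200) := by linarith
    have b3 : sg ^ 2 * K * (16 * K) ≤ 16 / 48 * (eps / 200) := by
      have b4 : sg ^ 2 * K * (16 * K) = 16 * ((sg * K) * (sg * K)) := by ring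
      rw [b4]
      have b5 : 0 < sg * K := by positivity
      have b6 : (sg * K) * (sg * K) ≤ (1 / 48) * (eps / 200) :=
        mul_le_mul hsg1' (by linarith) b5.le (by norm_num)
      linarith
    have b7 : (w0 + sg ^ 2 * K + 4 * sg) * (16 * K) =
      w0 * (16 * K) + sg ^ 2 * K * (16 * K) + 4 * sg * (16 * K) := by ring
    rw [b7, b1]
    linarith
  have hsum1 : w0 + sg ^ 2 * K + 4 * sg ≤ 1 := by
    have b1 := wgFinE_le hsum0.le (by linarith : 1 ≤ 16 * K) hsumK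
    linarith
  have hsgle : sg ≤ 1 := by
    have b1 := wgFinE_le hsg0.le hK1 hsg1'
    linarith
  have hDe0 : 0 < De := by rw [hDe]; positivity
  have hDe1 : De ≤ 2 ^ k := by
    rw [hDe]
    have b1 : sg * 2 ^ k ≤ 2 ^ k := mul_le_of_le_one_left hpk.le hsgle
    have b2 : 0 < sg * 2 ^ k := by positivity
    calc sg * 2 ^ k * (w0 + sg ^ 2 * K + 4 * sg) ≤ sg * 2 ^ k * 1 :=
          mul_le_mul_of_nonneg_left hsum1 b2.le
      _ ≤ 2 ^ k := by linarith
  obtain ⟨N, hN⟩ : ∃ N : ℕ, N = ⌊eps * r / De⌋₊ := ⟨_, rfl⟩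
  have hNle : (N : ℝ) * De ≤ eps * r := by
    have b1 : (N : ℝ) ≤ eps * r / De := by
      rw [hN]; exact Nat.floor_le (by positivity)
    rwa [le_div_iff₀ hDe0] at b1
  have hN1 : (1 : ℝ) ≤ N := by
    have b1 : 1 ≤ N := by
      rw [hN]
      refine Nat.le_floor ?_
      rw [Nat.cast_one, le_div_iff₀ hDe0]
      linarith
    exact_mod_cast b1
  have hNge : eps * r ≤ 2 * (N * De) := by
    have b1 : eps * r / De < N + 1 := by
      rw [hN]; exact Nat.lt_floor_add_one _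
    rw [div_lt_iff₀ hDe0] at b1
    have b2 : De ≤ N * De := le_mul_of_one_le_left hDe0.le hN1
    linarith
  have hN8 : 8 * K * r ≤ N * (sg * 2 ^ k) := by
    have b1 : (N : ℝ) * De = N * (sg * 2 ^ k) * (w0 + sg ^ 2 * K + 4 * sg) := by rw [hDe]; ring
    have b2 : 0 ≤ (N : ℝ) * (sg * 2 ^ k) := by positivity
    have b3 : (N : ℝ) * (sg * 2 ^ k) * ((w0 + sg ^ 2 * K + 4 * sg) * (16 * K)) ≤
        N * (sg * 2 ^ k) * eps := mul_le_mul_of_nonneg_left hsumK b2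
    have b4 : eps * r * (16 * K) ≤ 2 * (N * (sg * 2 ^ k) * eps) := by
      have b5 : eps * r * (16 * K) ≤ 2 * (N * De) * (16 * K) :=
        mul_le_mul_of_nonneg_right hNge (by positivity)
      rw [b1] at b5
      linarith
    have b6 : eps * (8 * K * r) ≤ eps * (N * (sg * 2 ^ k)) := by linarith
    exact le_of_mul_le_mul_left b6 he0
  -- g0
  obtain ⟨g0, hg0d⟩ : ∃ g0 : ℝ, g0 = K ^ 3 * (eta * r) + 64 * K ^ 5 * (th0 * r) := ⟨_, rfl⟩
  have hg0v : g0 = (1 / 8 + 64 / 1000) * (eps0 * r) := by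
    rw [hg0d]
    linear_combination r * hetaK + 64 / 1000 * r * hthK
  have her0 : 0 < eps0 * r := by positivity
  have her1 : eps0 * r ≤ r := mul_le_of_le_one_left hr0.le heps1
  have her4 : eps * r ≤ 1 / 4 * r := mul_le_mul_of_nonneg_right he4 hr0.le
  have hdlr : th0 * r ≤ eps0 * r / 1000 := by
    have := mul_le_mul_of_nonneg_right hth1 hr0.le
    linarith
  obtain ⟨q0, t, ht, hxq, hq0, ht1, hxm, hxp⟩ := G.decomp x
  have hq0' : |q0| ≤ 2 * K ^ 2 * r := by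
    have b1 : K * |t| ≤ K * (K * ‖x‖) := mul_le_mul_of_nonneg_left ht1 hK.le
    have b2 : K * (K * ‖x‖) ≤ K ^ 2 * r := by
      have : K * (K * ‖x‖) = K ^ 2 * ‖x‖ := by ring
      rw [this]
      exact mul_le_mul_of_nonneg_left hx (by positivity)
    have b3 : r ≤ K ^ 2 * r := le_mul_of_one_le_left hr0.le (one_le_pow₀ hK1)
    linarith
  obtain ⟨q, hq, hmain⟩ := wgE_main S D hw0 (by linarith) (by linarith [mul_pos (pow_pos hK 2) hsg0])
    hsep hDe (le_of_eq hg0d.symm) (by rw [hg0v]; linarith) hN8 hNge he0 (by linarith) hk2 hZ hdel1 hq0'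
  -- the point x'
  obtain ⟨x', hx'⟩ : ∃ x' : V, x' = x + (q - q0) • J e := ⟨_, rfl⟩
  have hJe : ‖J e‖ = 1 := by rw [Pool.Agent.VSC.norm_J, G.he]
  have hxx : ‖x' - x‖ ≤ eps * r := by
    rw [hx', add_sub_cancel_left, norm_smul, hJe, mul_one, Real.norm_eq_abs]
    exact hq
  have hx'n : ‖x'‖ ≤ 2 * r := by
    have b1 : ‖x'‖ ≤ ‖x' - x‖ + ‖x‖ := by
      have := norm_add_le (x' - x) x
      rwa [sub_add_cancel] at this
    linarith
  have hWR : 2 * r ≤ WR K r := by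
    unfold WR
    have b1 : 1 ≤ K ^ 4 := one_le_pow₀ hK1
    have b2 : r ≤ K ^ 4 * r := le_mul_of_one_le_left hr0.le b1
    linarith
  have hx'e : inner ℝ x' e = inner ℝ x e := by
    rw [hx', inner_add_left, real_inner_smul_left, real_inner_comm, Pool.Agent.VSC.inner_J,
      mul_zero, add_zero]
  have hx'm : inner ℝ Pm x' - q * inner ℝ Pm (J e) = t := by
    rw [hx', inner_add_right, real_inner_smul_right, hxm]; ring
  have hx'p : inner ℝ Pp x' - q * inner ℝ Pp (J e) = t := by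
    rw [hx', inner_add_right, real_inner_smul_right, hxp]; ring
  have hW : WLE Tm Tp e Pm Pp q x' ≤ t + th0 * r :=
    wgE_le S (hx'n.trans hWR) hx'm.le hx'p.le
  have htR : t ≤ K * r := by
    have b1 := le_abs_self t
    have b2 : K * ‖x‖ ≤ K * r := mul_le_mul_of_nonneg_left hx hK.le
    linarith
  have hKr : r ≤ K * r := le_mul_of_one_le_left hr0.le hK1
  have hfin := hmain x' (hx'n.trans hWR) (by rw [hx'e]; exact hxe0) (by
    have : 2 * K * r = K * r + K * r := by ring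
    rw [this]
    linarith)
  have hfine : p.fine c x (eps * r) := by
    refine fine_of_fine1 (by positivity) (hRf r a1 x hx (eps * r) le_rfl ?_)
    linarith
  have hCr : C ≤ eps * r := by
    have b1 : th0 ≤ eps := by
      rw [hth_def, heps_def]
      refine div_le_div_of_nonneg_left heps.le (by positivity) ?_
      have : K ≤ K ^ 5 := by
        calc K = K ^ 1 := (pow_one K).symm
          _ ≤ K ^ 5 := pow_le_pow_right₀ hK1 (by norm_num)
      linarith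
    have b2 : th0 * r ≤ eps * r := mul_le_mul_of_nonneg_right b1 hr0.le
    linarith
  have hcl := hcan.clE x (eps * r) (by linarith) hfine (Or.inl hCr) x x'
    (by rw [sub_self, norm_zero]; positivity) (by
      have : 0 < eps * r := by positivity
      linarith)
  have hcl2 : p.C3 * (eps * r) ≤ eps0 * r / 4 := by
    have b1 : p.C3 * (eps * r) ≤ K * (eps * r) :=
      mul_le_mul_of_nonneg_right h3 (by positivity)
    have b2 : K * (eps * r) = eps0 * r / 4 := by linear_combination r * heK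
    linarith
  have hepsr : eps * r ≤ eps0 * r / 4 := by
    have b1 := mul_le_mul_of_nonneg_right he4' hr0.le
    linarith
  have hcl3 := (abs_le.1 hcl).2
  rw [ht] at hW
  linarith

theorem wedge_E {p : Par} {P0 : Set V} (hP0 : IsClosed P0) {c : V → ℝ} (hc : Typ p P0 c)
    {e Pm Pp A : V} {s1 s2 K : ℝ} (G : WGeo P0 e Pm Pp A s1 s2 K)
    (hcone : ∀ Q ∈ P0, ∀ u v : ℝ, 0 ≤ u → 0 ≤ v → Q = u • Pm + v • Pp → Q = Pm ∨ Q = Pp)
    {A0 B0 : Set V} {TE TO : V → ℝ} {C g : ℝ} (hcan : Canon p c e A0 B0 TE TO C g)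
    (h3 : p.C3 ≤ K) (h1 : p.M1 ≤ K) (hg : 1 / g ≤ K) {eps0 : ℝ} (heps : 0 < eps0) :
    ∃ R0 : ℝ, ∀ R : ℝ, R0 ≤ R → ∀ x : V, ‖x‖ ≤ R → 0 ≤ (inner ℝ x e : ℝ) →
      TE x ≤ inner ℝ x e / (s1 + s2) + eps0 * R := by
  by_contra hcon
  push Not at hcon
  have hex : ∀ n : ℕ, ∃ R : ℝ, (n : ℝ) ≤ R ∧ ∃ x : V, ‖x‖ ≤ R ∧ 0 ≤ (inner ℝ x e : ℝ) ∧
      inner ℝ x e / (s1 + s2) + eps0 * R < TE x := by
    intro n
    obtain ⟨R, h5, x, h6, h7, h8⟩ := hcon n
    exact ⟨R, h5, x, h6, h7, h8⟩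
  choose R hR x hx hxe hTE using hex
  have hRt : Tendsto R atTop atTop :=
    tendsto_atTop_mono hR tendsto_natCast_atTop_atTop
  obtain ⟨n, hn⟩ := wgFinE_scale hP0 hc G hcone hcan h3 h1 hg (eps0 := min eps0 1)
    (lt_min heps one_pos) (min_le_right _ _) hRt
  have h5 := hn (x n) (hx n) (hxe n)
  have h6 := hTE n
  have h7 : (0 : ℝ) ≤ R n := le_trans (Nat.cast_nonneg n) (hR n)
  have h8 : min eps0 1 * R n ≤ eps0 * R n := mul_le_mul_of_nonneg_right (min_le_left _ _) h7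
  linarith

end Pool.Agent.FCF
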