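import Pool.Agent.FCF.WgCount
import Pool.Agent.FCF.FlowBasic

/-!
# FCF / WgFine: few grid points are not fine at all scales `≥ 2^k`

PROOF of `fine_of_fine1`: `Cs ≤ Cs + 1`, `r ≥ 0`, `E_mono_force` (`F' ≤ F`).
PROOF of `use_fine`: `hc.bad` with `del' = del/(2 (K+2))^2…`, `eta = 1`: `rho0`; `k1` with `2^k1 ≥ rho0`, `rho = 2^k`; rectangle constants `K' = C' = K + 2`, `e` any unit vector; `R ≥ R0`, `R ≥ 1`.
For `n ∈ Z` the half open unit square `{x : n.1 ≤ x 0 < n.1 + 1, n.2 ≤ x 1 < n.2 + 1}` is contained in the set of the points `x` with `|x . e^|, |x . e| ≤ (K+2) R` and `Bad p c (2^k) (1 * 2^k) x` (`y = gp n`, `‖y - x‖ ≤ 2 ≤ 3·2^k`,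
`fine1 → fine`). The squares are disjoint with volume `1`: `Z.card ≤ volume ≤ del' ((K+2)R)²`. (Volume of the unit squares in `EuclideanSpace ℝ (Fin 2)`: `EuclideanSpace.volume_preserving_measurableEquiv` and
`Real.volume_pi_Ico`, or translates of one fundamental square.)
-/

set_option autoImplicit false

namespace Pool.Agent.FCF

open Pool.Agent.VSC (V J LowJet)
open Set Metric

private def wfSq (n : ℤ × ℤ) : Set V :=
  {x | (n.1 : ℝ) ≤ x 0 ∧ x 0 < n.1 + 1 ∧ (n.2 : ℝ) ≤ x 1 ∧ x 1 < n.2 + 1}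

private def wfBx (n : ℤ × ℤ) : Set (Fin 2 → ℝ) :=
  Set.pi univ fun i => Ico ((![(n.1 : ℝ), (n.2 : ℝ)] : Fin 2 → ℝ) i)
    ((![(n.1 : ℝ) + 1, (n.2 : ℝ) + 1] : Fin 2 → ℝ) i)

private theorem wf_bx_vol (n : ℤ × ℤ) : MeasureTheory.volume (wfBx n) = 1 := by
  unfold wfBx
  rw [Real.volume_pi_Ico, Fin.prod_univ_two]
  simp

private theorem wf_bx_meas (n : ℤ × ℤ) : MeasurableSet (wfBx n) :=
  MeasurableSet.univ_pi fun _ => measurableSet_Ico

private theorem wf_sq_eq (n : ℤ × ℤ) : wfSq n = (@WithLp.ofLp 2 (Fin 2 → ℝ)) ⁻¹' wfBx n := by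
  ext x
  simp only [wfSq, wfBx, mem_ofPred_eq, mem_preimage, Set.mem_pi, mem_univ, forall_true_left,
    Fin.forall_fin_two, mem_Ico, Matrix.cons_val_zero, Matrix.cons_val_one]
  tauto

private theorem wf_sq_vol (n : ℤ × ℤ) : MeasureTheory.volume (wfSq n) = 1 := by
  rw [wf_sq_eq, (PiLp.volume_preserving_ofLp (Fin 2)).measure_preimage
    (wf_bx_meas n).nullMeasurableSet, wf_bx_vol]

private theorem wf_sq_meas (n : ℤ × ℤ) : MeasurableSet (wfSq n) := by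
  rw [wf_sq_eq]
  exact (PiLp.volume_preserving_ofLp (Fin 2)).measurable (wf_bx_meas n)

private theorem wf_sq_disj {m n : ℤ × ℤ} (h : m ≠ n) : Disjoint (wfSq m) (wfSq n) := by
  rw [Set.disjoint_left]
  rintro x ⟨h1, h2, h3, h4⟩ ⟨g1, g2, g3, g4⟩
  apply h
  have a1 : (m.1 : ℝ) < n.1 + 1 := by linarith
  have a2 : (n.1 : ℝ) < m.1 + 1 := by linarith
  have a3 : (m.2 : ℝ) < n.2 + 1 := by linarith
  have a4 : (n.2 : ℝ) < m.2 + 1 := by linarith
  have b1 : m.1 < n.1 + 1 := by exact_mod_cast a1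
  have b2 : n.1 < m.1 + 1 := by exact_mod_cast a2
  have b3 : m.2 < n.2 + 1 := by exact_mod_cast a3
  have b4 : n.2 < m.2 + 1 := by exact_mod_cast a4
  exact Prod.ext (by omega) (by omega)

private theorem wf_sq_near {n : ℤ × ℤ} {x : V} (hx : x ∈ wfSq n) : ‖gp n - x‖ ≤ 2 := by
  obtain ⟨h1, h2, h3, h4⟩ := hx
  rw [EuclideanSpace.norm_eq, Fin.sum_univ_two]
  apply Real.sqrt_le_iff.2
  refine ⟨by norm_num, ?_⟩
  have e0 : (gp n - x) 0 = n.1 - x 0 := by simp [gp]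
  have e1 : (gp n - x) 1 = n.2 - x 1 := by simp [gp]
  rw [e0, e1, Real.norm_eq_abs, Real.norm_eq_abs, sq_abs, sq_abs]
  nlinarith

theorem fine_of_fine1 {p : Par} {c : V → ℝ} {x : V} {r : ℝ} (hr : 0 ≤ r) (h : p.fine1 c x r) :
    p.fine c x r := by
  intro z hz y hy
  have h1 : ‖z - x‖ ≤ (p.Cs + 1) * r := by linarith
  refine E_mono_force (fun y => ?_) _ _ (h z h1 hy)
  unfold frc
  linarith [p.hF]

theorem use_fine {p : Par} {P0 : Set V} {c : V → ℝ} (hc : Typ p P0 c) {e : V} (he : ‖e‖ = 1)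
    {K del : ℝ} (hK : 0 ≤ K) (hdel : 0 < del) :
    ∃ k1 : ℕ, ∀ k : ℕ, k1 ≤ k → ∃ R0 : ℝ, ∀ R : ℝ, R0 ≤ R → ∀ Z : Finset (ℤ × ℤ),
      (∀ n ∈ Z, ‖gp n‖ ≤ K * R ∧ ∃ r : ℝ, 2 ^ k ≤ r ∧ ¬ p.fine c (gp n) r) →
        (Z.card : ℝ) ≤ del * R ^ 2 := by
  obtain ⟨rho0, hrho0⟩ := hc.bad (del / (K + 2) ^ 2) (by positivity) 1 one_pos
  obtain ⟨k1, hk1⟩ := pow_unbounded_of_one_lt rho0 (show (1 : ℝ) < 2 by norm_num)
  refine ⟨k1, fun k hk => ?_⟩
  have h2k : (2 : ℝ) ^ k1 ≤ 2 ^ k := pow_le_pow_right₀ (by norm_num) hk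
  have h2k1 : (1 : ℝ) ≤ 2 ^ k := one_le_pow₀ (by norm_num)
  obtain ⟨R0, hR0⟩ := hrho0 (2 ^ k) (by linarith) e he (K + 2) (K + 2) (by linarith) (by linarith)
  refine ⟨max R0 1, fun R hR Z hZ => ?_⟩
  have hR1 : 1 ≤ R := le_trans (le_max_right _ _) hR
  have hmain := hR0 R (le_trans (le_max_left _ _) hR)
  set G : Set V := {x : V | |inner ℝ x (J e)| ≤ (K + 2) * R ∧ |inner ℝ x e| ≤ (K + 2) * R ∧
    Bad p c (2 ^ k) (1 * 2 ^ k) x} with hG
  have hJe : ‖J e‖ = 1 := by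
    have h1 := Pool.Agent.VSC.norm_J e
    rw [h1, he]
  have hsub : (⋃ n ∈ Z, wfSq n) ⊆ G := by
    intro x hx
    rw [mem_iUnion₂] at hx
    obtain ⟨n, hn, hxn⟩ := hx
    obtain ⟨hn1, r, hr, hr2⟩ := hZ n hn
    have h3 := wf_sq_near hxn
    have h4 : ‖x‖ ≤ (K + 2) * R := by
      have h5 : ‖x‖ ≤ ‖gp n‖ + ‖gp n - x‖ := by
        have h6 : x = gp n - (gp n - x) := by abel
        calc ‖x‖ = ‖gp n - (gp n - x)‖ := by rw [← h6]
          _ ≤ ‖gp n‖ + ‖gp n - x‖ := norm_sub_le _ _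
      nlinarith
    refine ⟨?_, ?_, gp n, ?_, r, ?_, ?_⟩
    · refine le_trans (abs_real_inner_le_norm _ _) ?_
      rw [hJe, mul_one]
      exact h4
    · refine le_trans (abs_real_inner_le_norm _ _) ?_
      rw [he, mul_one]
      exact h4
    · linarith
    · rw [one_mul]; exact hr
    · intro hf
      exact hr2 (fine_of_fine1 (by linarith) hf)
  have hvol : MeasureTheory.volume (⋃ n ∈ Z, wfSq n) = (Z.card : ENNReal) := by
    rw [MeasureTheory.measure_biUnion_finset (fun m _ n _ hmn => wf_sq_disj hmn)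
      (fun n _ => wf_sq_meas n)]
    simp only [wf_sq_vol, Finset.sum_const, nsmul_eq_mul, mul_one]
  have hle : (Z.card : ENNReal) ≤ ENNReal.ofReal (del / (K + 2) ^ 2 * ((K + 2) * R) *
      ((K + 2) * R)) := by
    rw [← hvol]
    exact le_trans (MeasureTheory.measure_mono hsub) hmain
  have heq : del / (K + 2) ^ 2 * ((K + 2) * R) * ((K + 2) * R) = del * R ^ 2 := by
    have : K + 2 ≠ 0 := by linarith
    field_simp
  rw [heq, ← ENNReal.ofReal_natCast, ENNReal.ofReal_le_ofReal_iff (by positivity)] at hle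
  exact hle

end Pool.Agent.FCF
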