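import Pool.Agent.FCF.WgDefs

/-!
# FCF / WgGeo: linear algebra of the wedge

* `exists_geo`: `Pm`, `Pp` are linearly independent (`A . Pm = A . Pp = 1`, `Pm ≠ Pp`): in coordinates
  `det = Pm 0 * Pp 1 - Pm 1 * Pp 0 ≠ 0`; `surj` and `inv` by Cramer's rule; `tr`: if
  `(Pm - Pp) . (J e) = 0` then `Pm - Pp` is parallel to `e`, and orthogonal to `A`, so `A . e = 0`, but
  `A . e = s1 + s2 > 0`. `K` = a maximum of finitely many numbers.
* `sector`: let `m = max` (or `min`) of the two numbers `a = Pm . v`, `a' = Pp . v`, `|m| ≤ ‖v‖/(3K)`. One of the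
  two equals `m`; by `inv` the other one has absolute value `≥ ‖v‖/K`; so `|a - a'| ≥ ‖v‖/K - ‖v‖/(3K)`.
* `q_sum`: `e . J e = 0` and `e = s1 Pm + s2 Pp`.
* `decomp`: `t = (x.e)/(s1+s2)` (`A . e = s1 + s2`), `q = (x - t A) . J e`; `x - t A` is orthogonal to `e`.
* `sep`: let `alpha`, `beta` be the dual basis (`surj`): `alpha . Pm = 1, alpha . Pp = 0, beta . Pm = 0, beta . Pp = 1`.
  `Q = (Q.alpha) Pm + (Q.beta) Pp` (by `inv` for the difference). On the compact set
  `{Q ∈ P0 : |Q.A - 1| ≥ w0}` the continuous function `max (-(Q.alpha)/‖alpha‖) (-(Q.beta)/‖beta‖)` is positive: if both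
  coordinates were `≥ 0` then `Q = Pm` or `Q = Pp` (`hcone`), `Q . A = 1`. Take its minimum `cw` and
  `v = -alpha/‖alpha‖` or `-beta/‖beta‖`.
-/

set_option autoImplicit false

namespace Pool.Agent.FCF

open Pool.Agent.VSC (V J LowJet)
open Set Metric

private theorem wgi2 (x y : V) : (inner ℝ x y : ℝ) = x 0 * y 0 + x 1 * y 1 := by
  rw [PiLp.inner_apply, Fin.sum_univ_two]
  simp only [RCLike.inner_apply, conj_trivial]
  ring

private theorem wgn2 (x : V) : ‖x‖ ^ 2 = x 0 ^ 2 + x 1 ^ 2 := by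
  rw [← real_inner_self_eq_norm_sq, wgi2]
  ring

private theorem wgn_le (x : V) : ‖x‖ ≤ |x 0| + |x 1| := by
  apply le_of_sq_le_sq _ (by positivity)
  rw [wgn2]
  nlinarith [sq_abs (x 0), sq_abs (x 1), mul_nonneg (abs_nonneg (x 0)) (abs_nonneg (x 1))]

private theorem wg_ext {x y : V} (h0 : x 0 = y 0) (h1 : x 1 = y 1) : x = y := by
  ext i
  fin_cases i
  · exact h0
  · exact h1

private theorem wg_one_div {K s : ℝ} (hs : 0 < s) (h : 1 / s ≤ K) : 1 / K ≤ s := by
  have hK : 0 < K := lt_of_lt_of_le (by positivity) h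
  rw [div_le_iff₀ hs] at h
  rw [div_le_iff₀ hK]
  linarith

private theorem wg_inner_smul_add (a b : ℝ) (x y z : V) :
    (inner ℝ (a • x + b • y) z : ℝ) = a * inner ℝ x z + b * inner ℝ y z := by
  rw [inner_add_left, real_inner_smul_left, real_inner_smul_left]


theorem exists_geo {P0 : Set V} {cp : ℝ} (hcp : ∀ P ∈ P0, ‖P‖ ≤ cp) {e Pm Pp A : V} {s1 s2 : ℝ}
    (he : ‖e‖ = 1) (hPm : Pm ∈ P0) (hPp : Pp ∈ P0) (hs1 : 0 < s1) (hs2 : 0 < s2)
    (hes : e = s1 • Pm + s2 • Pp) (hA1 : inner ℝ A Pm = (1 : ℝ)) (hA2 : inner ℝ A Pp = (1 : ℝ))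
    (hne : Pm ≠ Pp) (K1 : ℝ) : ∃ K : ℝ, K1 ≤ K ∧ WGeo P0 e Pm Pp A s1 s2 K := by
  have A1 : A 0 * Pm 0 + A 1 * Pm 1 = 1 := by rw [← wgi2]; exact hA1
  have A2 : A 0 * Pp 0 + A 1 * Pp 1 = 1 := by rw [← wgi2]; exact hA2
  have he2 : e 0 ^ 2 + e 1 ^ 2 = 1 := by rw [← wgn2, he]; norm_num
  have hAe : A 0 * e 0 + A 1 * e 1 = s1 + s2 := by
    rw [← wgi2, hes, real_inner_comm, wg_inner_smul_add, real_inner_comm, hA1, real_inner_comm,
      hA2]
    ring
  have hD : Pm 0 * Pp 1 - Pm 1 * Pp 0 ≠ 0 := by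
    intro hD
    apply hne
    apply wg_ext
    · linear_combination (Pm 0) * (-A2) + Pp 0 * A1 + A 1 * hD
    · linear_combination (Pm 1) * (-A2) + Pp 1 * A1 - A 0 * hD
  have htau : (inner ℝ Pm (J e) - inner ℝ Pp (J e) : ℝ) ≠ 0 := by
    intro h
    rw [wgi2, wgi2, Pool.Agent.VSC.J_zero_apply, Pool.Agent.VSC.J_one_apply] at h
    have h1 : A 0 * (Pm 0 - Pp 0) + A 1 * (Pm 1 - Pp 1) = 0 := by linear_combination A1 - A2
    have h2 : (Pm 0 - Pp 0) = e 0 * ((Pm 0 - Pp 0) * e 0 + (Pm 1 - Pp 1) * e 1) := by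
      linear_combination (-(Pm 0 - Pp 0)) * he2 - e 1 * h
    have h3 : (Pm 1 - Pp 1) = e 1 * ((Pm 0 - Pp 0) * e 0 + (Pm 1 - Pp 1) * e 1) := by
      linear_combination (-(Pm 1 - Pp 1)) * he2 + e 0 * h
    have h4 : (s1 + s2) * ((Pm 0 - Pp 0) * e 0 + (Pm 1 - Pp 1) * e 1) = 0 := by
      rw [← hAe, ← h1]
      linear_combination (-A 0) * h2 - A 1 * h3
    have h5 : (Pm 0 - Pp 0) * e 0 + (Pm 1 - Pp 1) * e 1 = 0 := by
      rcases mul_eq_zero.1 h4 with h | h
      · exact absurd h (by linarith)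
      · exact h
    apply hne
    rw [h5, mul_zero] at h2 h3
    exact wg_ext (by linarith) (by linarith)
  set D : ℝ := Pm 0 * Pp 1 - Pm 1 * Pp 0 with hDdef
  have hDp : 0 < |D| := abs_pos.2 hD
  have htp : 0 < |(inner ℝ Pm (J e) - inner ℝ Pp (J e) : ℝ)| := abs_pos.2 htau
  set K2 : ℝ := (|Pm 0| + |Pm 1| + |Pp 0| + |Pp 1|) / |D| with hK2
  have hK2n : 0 ≤ K2 := by positivity
  have hcov : ∀ v : V, ‖v‖ ≤ K2 * max |(inner ℝ Pm v : ℝ)| |(inner ℝ Pp v : ℝ)| := by
    intro v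
    set m : ℝ := max |(inner ℝ Pm v : ℝ)| |(inner ℝ Pp v : ℝ)| with hm
    have hm0 : 0 ≤ m := le_trans (abs_nonneg _) (le_max_left _ _)
    have e0 : v 0 * D = inner ℝ Pm v * Pp 1 - inner ℝ Pp v * Pm 1 := by
      rw [wgi2, wgi2, hDdef]; ring
    have e1 : v 1 * D = inner ℝ Pp v * Pm 0 - inner ℝ Pm v * Pp 0 := by
      rw [wgi2, wgi2, hDdef]; ring
    have f0 : |v 0| * |D| ≤ m * |Pp 1| + m * |Pm 1| := by
      rw [← abs_mul, e0]
      refine le_trans (abs_sub _ _) ?_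
      rw [abs_mul, abs_mul]
      exact add_le_add (mul_le_mul_of_nonneg_right (le_max_left _ _) (abs_nonneg _))
        (mul_le_mul_of_nonneg_right (le_max_right _ _) (abs_nonneg _))
    have f1 : |v 1| * |D| ≤ m * |Pm 0| + m * |Pp 0| := by
      rw [← abs_mul, e1]
      refine le_trans (abs_sub _ _) ?_
      rw [abs_mul, abs_mul]
      exact add_le_add (mul_le_mul_of_nonneg_right (le_max_right _ _) (abs_nonneg _))
        (mul_le_mul_of_nonneg_right (le_max_left _ _) (abs_nonneg _))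
    refine le_trans (wgn_le v) ?_
    rw [hK2, div_mul_eq_mul_div, le_div_iff₀ hDp]
    nlinarith
  set K : ℝ := |K1| + 1 + 1 / s1 + s1 + 1 / s2 + s2 + ‖A‖ + |cp| + K2 +
    1 / |(inner ℝ Pm (J e) - inner ℝ Pp (J e) : ℝ)| with hK
  have q1 : 0 < 1 / s1 := by positivity
  have q2 : 0 < 1 / s2 := by positivity
  have q3 : 0 < 1 / |(inner ℝ Pm (J e) - inner ℝ Pp (J e) : ℝ)| := by positivity
  have q4 := abs_nonneg K1
  have q5 := abs_nonneg cp
  have q6 := norm_nonneg A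
  refine ⟨K, by linarith [le_abs_self K1], ?_⟩
  constructor
  · linarith
  · exact he
  · exact wg_one_div hs1 (by linarith)
  · linarith
  · exact wg_one_div hs2 (by linarith)
  · linarith
  · exact hes
  · exact hA1
  · exact hA2
  · linarith
  · intro P hP
    linarith [hcp P hP, le_abs_self cp]
  · exact hPm
  · exact hPp
  · intro v
    refine le_trans (hcov v) ?_
    apply mul_le_mul_of_nonneg_right (by linarith)
    exact le_trans (abs_nonneg _) (le_max_left _ _)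
  · intro a b
    refine ⟨!₂[(a * Pp 1 - b * Pm 1) / D, (Pm 0 * b - Pp 0 * a) / D], ?_, ?_⟩
    · rw [wgi2]
      have e0 : (!₂[(a * Pp 1 - b * Pm 1) / D, (Pm 0 * b - Pp 0 * a) / D] : V) 0 =
        (a * Pp 1 - b * Pm 1) / D := rfl
      have e1 : (!₂[(a * Pp 1 - b * Pm 1) / D, (Pm 0 * b - Pp 0 * a) / D] : V) 1 =
        (Pm 0 * b - Pp 0 * a) / D := rfl
      rw [e0, e1]
      field_simp
      rw [hDdef]; ring
    · rw [wgi2]
      have e0 : (!₂[(a * Pp 1 - b * Pm 1) / D, (Pm 0 * b - Pp 0 * a) / D] : V) 0 =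
        (a * Pp 1 - b * Pm 1) / D := rfl
      have e1 : (!₂[(a * Pp 1 - b * Pm 1) / D, (Pm 0 * b - Pp 0 * a) / D] : V) 1 =
        (Pm 0 * b - Pp 0 * a) / D := rfl
      rw [e0, e1]
      field_simp
      rw [hDdef]; ring
  · exact wg_one_div htp (by linarith)

theorem WGeo.abs_m {P0 : Set V} {e Pm Pp A : V} {s1 s2 K : ℝ} (G : WGeo P0 e Pm Pp A s1 s2 K)
    (v : V) : |(inner ℝ Pm v : ℝ)| ≤ K * ‖v‖ := by
  refine le_trans (abs_real_inner_le_norm _ _) ?_
  exact mul_le_mul_of_nonneg_right (G.nP _ G.hPm) (norm_nonneg _)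

theorem WGeo.abs_p {P0 : Set V} {e Pm Pp A : V} {s1 s2 K : ℝ} (G : WGeo P0 e Pm Pp A s1 s2 K)
    (v : V) : |(inner ℝ Pp v : ℝ)| ≤ K * ‖v‖ := by
  refine le_trans (abs_real_inner_le_norm _ _) ?_
  exact mul_le_mul_of_nonneg_right (G.nP _ G.hPp) (norm_nonneg _)

theorem WGeo.Ae {P0 : Set V} {e Pm Pp A : V} {s1 s2 K : ℝ} (G : WGeo P0 e Pm Pp A s1 s2 K) :
    (inner ℝ A e : ℝ) = s1 + s2 ∧ 2 / K ≤ s1 + s2 ∧ s1 + s2 ≤ 2 * K := by
  have h1 := G.s1_ge
  have h2 := G.s1_le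
  have h3 := G.s2_ge
  have h4 := G.s2_le
  refine ⟨?_, ?_, ?_⟩
  · rw [G.es, inner_add_right, real_inner_smul_right, real_inner_smul_right, G.Am, G.Ap]
    ring
  · have : 2 / K = 1 / K + 1 / K := by ring
    linarith
  · linarith

/-- `s1 (Pm . x) + s2 (Pp . x) = x . e`. -/
theorem WGeo.sum {P0 : Set V} {e Pm Pp A : V} {s1 s2 K : ℝ} (G : WGeo P0 e Pm Pp A s1 s2 K)
    (x : V) : s1 * inner ℝ Pm x + s2 * inner ℝ Pp x = inner ℝ x e := by
  conv_rhs => rw [real_inner_comm, G.es, wg_inner_smul_add]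

theorem WGeo.q_sum {P0 : Set V} {e Pm Pp A : V} {s1 s2 K : ℝ} (G : WGeo P0 e Pm Pp A s1 s2 K)
    (q : ℝ) : s1 * (q * inner ℝ Pm (J e)) + s2 * (q * inner ℝ Pp (J e)) = 0 := by
  have h := G.sum (J e)
  rw [Pool.Agent.VSC.inner_J] at h
  linear_combination q * h

theorem WGeo.sector_max {P0 : Set V} {e Pm Pp A : V} {s1 s2 K : ℝ}
    (G : WGeo P0 e Pm Pp A s1 s2 K) {v : V}
    (h : |max (inner ℝ Pm v : ℝ) (inner ℝ Pp v)| ≤ ‖v‖ / (3 * K)) :
    2 * ‖v‖ / (3 * K) ≤ |(inner ℝ Pm v : ℝ) - inner ℝ Pp v| := by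
  have hK : 0 < K := lt_of_lt_of_le one_pos G.K1
  have hv : 0 ≤ ‖v‖ := norm_nonneg v
  have hinv := G.inv v
  set a : ℝ := inner ℝ Pm v
  set a' : ℝ := inner ℝ Pp v
  set r : ℝ := ‖v‖ / (3 * K) with hr
  have hr0 : 0 ≤ r := by positivity
  have hvr : ‖v‖ = 3 * K * r := by rw [hr]; field_simp
  have h2 : 2 * ‖v‖ / (3 * K) = 2 * r := by rw [hr]; ring
  rw [h2]
  have h3 : 3 * r ≤ max |a| |a'| := by
    rw [hvr] at hinv
    have : K * (3 * r) ≤ K * max |a| |a'| := by linarith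
    exact le_of_mul_le_mul_left this hK
  have h4 := abs_sub_abs_le_abs_sub a a'
  have h5 := abs_sub_abs_le_abs_sub a' a
  rw [abs_sub_comm a' a] at h5
  rcases le_total a a' with h' | h'
  · rw [max_eq_right h'] at h
    rcases le_max_iff.1 h3 with h6 | h6
    · linarith
    · have : r = 0 := by linarith
      rw [this]
      simpa using abs_nonneg (a - a')
  · rw [max_eq_left h'] at h
    rcases le_max_iff.1 h3 with h6 | h6
    · have : r = 0 := by linarith
      rw [this]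
      simpa using abs_nonneg (a - a')
    · linarith

theorem WGeo.sector_min {P0 : Set V} {e Pm Pp A : V} {s1 s2 K : ℝ}
    (G : WGeo P0 e Pm Pp A s1 s2 K) {v : V}
    (h : |min (inner ℝ Pm v : ℝ) (inner ℝ Pp v)| ≤ ‖v‖ / (3 * K)) :
    2 * ‖v‖ / (3 * K) ≤ |(inner ℝ Pm v : ℝ) - inner ℝ Pp v| := by
  have hK : 0 < K := lt_of_lt_of_le one_pos G.K1
  have hv : 0 ≤ ‖v‖ := norm_nonneg v
  have hinv := G.inv v
  set a : ℝ := inner ℝ Pm v
  set a' : ℝ := inner ℝ Pp v
  set r : ℝ := ‖v‖ / (3 * K) with hr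
  have hr0 : 0 ≤ r := by positivity
  have hvr : ‖v‖ = 3 * K * r := by rw [hr]; field_simp
  have h2 : 2 * ‖v‖ / (3 * K) = 2 * r := by rw [hr]; ring
  rw [h2]
  have h3 : 3 * r ≤ max |a| |a'| := by
    rw [hvr] at hinv
    have : K * (3 * r) ≤ K * max |a| |a'| := by linarith
    exact le_of_mul_le_mul_left this hK
  have h4 := abs_sub_abs_le_abs_sub a a'
  have h5 := abs_sub_abs_le_abs_sub a' a
  rw [abs_sub_comm a' a] at h5
  rcases le_total a' a with h' | h'
  · rw [min_eq_right h'] at h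
    rcases le_max_iff.1 h3 with h6 | h6
    · linarith
    · have : r = 0 := by linarith
      rw [this]
      simpa using abs_nonneg (a - a')
  · rw [min_eq_left h'] at h
    rcases le_max_iff.1 h3 with h6 | h6
    · have : r = 0 := by linarith
      rw [this]
      simpa using abs_nonneg (a - a')
    · linarith

theorem WGeo.decomp {P0 : Set V} {e Pm Pp A : V} {s1 s2 K : ℝ} (G : WGeo P0 e Pm Pp A s1 s2 K)
    (x : V) : ∃ q t : ℝ, t = inner ℝ x e / (s1 + s2) ∧ x = q • J e + t • A ∧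
      |q| ≤ ‖x‖ + K * |t| ∧ |t| ≤ K * ‖x‖ ∧ inner ℝ Pm x = q * inner ℝ Pm (J e) + t ∧
      inner ℝ Pp x = q * inner ℝ Pp (J e) + t := by
  have hK : 0 < K := lt_of_lt_of_le one_pos G.K1
  obtain ⟨hAe, hlo, hhi⟩ := G.Ae
  have hs : 0 < s1 + s2 := lt_of_lt_of_le (by positivity) hlo
  have he2 : e 0 ^ 2 + e 1 ^ 2 = 1 := by rw [← wgn2, G.he]; norm_num
  set t : ℝ := inner ℝ x e / (s1 + s2) with ht
  set y : V := x - t • A with hy
  have hye : (inner ℝ y e : ℝ) = 0 := by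
    rw [hy, inner_sub_left, real_inner_smul_left, hAe, ht]
    field_simp
    ring
  set q : ℝ := inner ℝ y (J e) with hq
  have hyq : y = q • J e := by
    have h1 := hye
    rw [wgi2] at h1
    have h2 : q = y 0 * (-(e 1)) + y 1 * e 0 := by
      rw [hq, wgi2, Pool.Agent.VSC.J_zero_apply, Pool.Agent.VSC.J_one_apply]
    apply wg_ext
    · have : (q • J e) 0 = q * (-(e 1)) := by
        rw [PiLp.smul_apply, smul_eq_mul, Pool.Agent.VSC.J_zero_apply]
      rw [this, h2]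
      linear_combination e 0 * h1 - y 0 * he2
    · have : (q • J e) 1 = q * (e 0) := by
        rw [PiLp.smul_apply, smul_eq_mul, Pool.Agent.VSC.J_one_apply]
      rw [this, h2]
      linear_combination e 1 * h1 - y 1 * he2
  have hx : x = q • J e + t • A := by rw [← hyq, hy]; abel
  have ht1 : |t| ≤ K * ‖x‖ := by
    rw [ht, abs_div, abs_of_pos hs, div_le_iff₀ hs]
    have h1 : |(inner ℝ x e : ℝ)| ≤ ‖x‖ := by
      have := abs_real_inner_le_norm x e
      rwa [G.he, mul_one] at this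
    have h2 : 2 ≤ K * (s1 + s2) := by
      rw [div_le_iff₀ hK] at hlo; linarith
    nlinarith [norm_nonneg x]
  refine ⟨q, t, rfl, hx, ?_, ht1, ?_, ?_⟩
  · have h1 : |q| ≤ ‖y‖ := by
      have := abs_real_inner_le_norm y (J e)
      rwa [Pool.Agent.VSC.norm_J, G.he, mul_one] at this
    have h2 : ‖y‖ ≤ ‖x‖ + ‖t • A‖ := norm_sub_le _ _
    rw [norm_smul, Real.norm_eq_abs] at h2
    have h3 : |t| * ‖A‖ ≤ |t| * K := mul_le_mul_of_nonneg_left G.nA (abs_nonneg t)
    linarith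
  · have h1 := G.Am
    rw [real_inner_comm] at h1
    conv_lhs => rw [hx, inner_add_right, real_inner_smul_right, real_inner_smul_right, h1]
    ring
  · have h1 := G.Ap
    rw [real_inner_comm] at h1
    conv_lhs => rw [hx, inner_add_right, real_inner_smul_right, real_inner_smul_right, h1]
    ring

theorem WGeo.sep {P0 : Set V} (hP0 : IsClosed P0) {e Pm Pp A : V} {s1 s2 K : ℝ}
    (G : WGeo P0 e Pm Pp A s1 s2 K)
    (hcone : ∀ Q ∈ P0, ∀ u v : ℝ, 0 ≤ u → 0 ≤ v → Q = u • Pm + v • Pp → Q = Pm ∨ Q = Pp)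
    {w0 : ℝ} (hw : 0 < w0) : ∃ cw : ℝ, 0 < cw ∧ ∀ Q ∈ P0, |(inner ℝ Q A : ℝ) - 1| ≤ w0 ∨
      ∃ v : V, ‖v‖ = 1 ∧ (inner ℝ Pm v : ℝ) ≤ 0 ∧ (inner ℝ Pp v : ℝ) ≤ 0 ∧ cw ≤ inner ℝ Q v := by
  have hK : 0 < K := lt_of_lt_of_le one_pos G.K1
  obtain ⟨al, ha1, ha2⟩ := G.surj 1 0
  obtain ⟨be, hb1, hb2⟩ := G.surj 0 1
  have hal : 0 < ‖al‖ := by
    rw [norm_pos_iff]; rintro rfl; rw [inner_zero_right] at ha1; exact zero_ne_one ha1
  have hbe : 0 < ‖be‖ := by
    rw [norm_pos_iff]; rintro rfl; rw [inner_zero_right] at hb2; exact zero_ne_one hb2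
  have hrep : ∀ Q : V, Q = (inner ℝ Q al : ℝ) • Pm + (inner ℝ Q be : ℝ) • Pp := by
    intro Q
    apply ext_inner_right ℝ
    intro v
    have hv : v = (inner ℝ Pm v : ℝ) • al + (inner ℝ Pp v : ℝ) • be := by
      have h1 : (inner ℝ Pm (v - ((inner ℝ Pm v : ℝ) • al + (inner ℝ Pp v : ℝ) • be)) : ℝ) = 0 := by
        rw [inner_sub_right, inner_add_right, real_inner_smul_right, real_inner_smul_right, ha1,
          hb1]
        ring
      have h2 : (inner ℝ Pp (v - ((inner ℝ Pm v : ℝ) • al + (inner ℝ Pp v : ℝ) • be)) : ℝ) = 0 := by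
        rw [inner_sub_right, inner_add_right, real_inner_smul_right, real_inner_smul_right, ha2,
          hb2]
        ring
      have h3 := G.inv (v - ((inner ℝ Pm v : ℝ) • al + (inner ℝ Pp v : ℝ) • be))
      rw [h1, h2] at h3
      simp only [abs_zero, max_self, mul_zero] at h3
      exact sub_eq_zero.1 (norm_le_zero_iff.1 h3)
    rw [wg_inner_smul_add]
    conv_lhs => rw [hv, inner_add_right, real_inner_smul_right, real_inner_smul_right]
    ring
  set f : V → ℝ := fun Q => max (-(inner ℝ Q al : ℝ)) (-(inner ℝ Q be : ℝ)) with hf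
  have hfc : Continuous f := by
    apply Continuous.max
    · exact (Continuous.inner continuous_id continuous_const).neg
    · exact (Continuous.inner continuous_id continuous_const).neg
  set S : Set V := P0 ∩ {Q | w0 ≤ |(inner ℝ Q A : ℝ) - 1|} with hS
  have hSc : IsClosed S := by
    apply hP0.inter
    apply isClosed_le continuous_const
    exact ((Continuous.inner continuous_id continuous_const).sub continuous_const).abs
  have hScomp : IsCompact S := by
    apply (isCompact_closedBall (0 : V) K).of_isClosed_subset hSc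
    intro Q hQ
    rw [mem_closedBall, dist_zero_right]
    exact G.nP Q hQ.1
  have hpos : ∀ Q ∈ S, 0 < f Q := by
    intro Q hQ
    by_contra hcon
    rw [not_lt] at hcon
    have h1 : 0 ≤ (inner ℝ Q al : ℝ) := by
      have := le_trans (le_max_left _ _) hcon
      linarith
    have h2 : 0 ≤ (inner ℝ Q be : ℝ) := by
      have := le_trans (le_max_right _ _) hcon
      linarith
    have h3 : (inner ℝ Q A : ℝ) = 1 := by
      rcases hcone Q hQ.1 _ _ h1 h2 (hrep Q) with h | h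
      · rw [h, real_inner_comm, G.Am]
      · rw [h, real_inner_comm, G.Ap]
    have h4 : w0 ≤ |(inner ℝ Q A : ℝ) - 1| := hQ.2
    rw [h3, sub_self, abs_zero] at h4
    linarith
  rcases S.eq_empty_or_nonempty with hSe | hSne
  · refine ⟨1, one_pos, fun Q hQ => Or.inl ?_⟩
    by_contra hcon
    rw [not_le] at hcon
    have : Q ∈ S := ⟨hQ, hcon.le⟩
    rw [hSe] at this
    exact this
  · obtain ⟨Q0, hQ0, hmin⟩ := hScomp.exists_isMinOn hSne hfc.continuousOn
    have hm0 := hpos Q0 hQ0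
    refine ⟨f Q0 / (‖al‖ + ‖be‖), by positivity, fun Q hQ => ?_⟩
    rcases le_total (|(inner ℝ Q A : ℝ) - 1|) w0 with h | h
    · exact Or.inl h
    · right
      have hQS : Q ∈ S := ⟨hQ, h⟩
      have h1 : f Q0 ≤ f Q := hmin hQS
      have h2 : f Q0 ≤ max (-(inner ℝ Q al : ℝ)) (-(inner ℝ Q be : ℝ)) := h1
      rcases le_max_iff.1 h2 with h3 | h3
      · refine ⟨-(‖al‖⁻¹ • al), ?_, ?_, ?_, ?_⟩
        · rw [norm_neg, norm_smul, norm_inv, norm_norm, inv_mul_cancel₀ hal.ne']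
        · rw [inner_neg_right, real_inner_smul_right, ha1]
          have : 0 < ‖al‖⁻¹ := by positivity
          linarith
        · rw [inner_neg_right, real_inner_smul_right, ha2]
          simp
        · rw [inner_neg_right, real_inner_smul_right, div_le_iff₀ (by positivity)]
          have h5 : -(‖al‖⁻¹ * (inner ℝ Q al : ℝ)) * (‖al‖ + ‖be‖) =
            -(inner ℝ Q al : ℝ) + ‖al‖⁻¹ * ‖be‖ * (-(inner ℝ Q al : ℝ)) := by
            field_simp
            ring
          rw [h5]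
          have h6 : 0 ≤ ‖al‖⁻¹ * ‖be‖ * (-(inner ℝ Q al : ℝ)) := by
            apply mul_nonneg (by positivity); linarith
          linarith
      · refine ⟨-(‖be‖⁻¹ • be), ?_, ?_, ?_, ?_⟩
        · rw [norm_neg, norm_smul, norm_inv, norm_norm, inv_mul_cancel₀ hbe.ne']
        · rw [inner_neg_right, real_inner_smul_right, hb1]
          simp
        · rw [inner_neg_right, real_inner_smul_right, hb2]
          have : 0 < ‖be‖⁻¹ := by positivity
          linarith
        · rw [inner_neg_right, real_inner_smul_right, div_le_iff₀ (by positivity)]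
          have h5 : -(‖be‖⁻¹ * (inner ℝ Q be : ℝ)) * (‖al‖ + ‖be‖) =
            -(inner ℝ Q be : ℝ) + ‖be‖⁻¹ * ‖al‖ * (-(inner ℝ Q be : ℝ)) := by
            field_simp
            ring
          rw [h5]
          have h6 : 0 ≤ ‖be‖⁻¹ * ‖al‖ * (-(inner ℝ Q be : ℝ)) := by
            apply mul_nonneg (by positivity); linarith
          linarith

theorem exists_isFst {tend : ℝ} {O : Set V} {lo : V → ℝ} {m : ℝ} (hm : ∀ x ∈ O, m ≤ lo x) :
    ∃ th : ℝ, IsFst tend O lo th := by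
  rcases O.eq_empty_or_nonempty with hO | hO
  · refine ⟨tend, le_rfl, ?_, fun h => absurd h (lt_irrefl _)⟩
    intro x hx
    rw [hO] at hx
    exact absurd hx (Set.notMem_empty x)
  · have hbd : BddBelow (lo '' O) := by
      refine ⟨m, ?_⟩
      rintro _ ⟨x, hx, rfl⟩
      exact hm x hx
    refine ⟨min tend (sInf (lo '' O)), min_le_left _ _, ?_, ?_⟩
    · intro x hx
      exact le_trans (min_le_right _ _) (csInf_le hbd ⟨x, hx, rfl⟩)
    · intro h eta heta
      have h1 : min tend (sInf (lo '' O)) = sInf (lo '' O) := by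
        apply min_eq_right
        rcases le_total tend (sInf (lo '' O)) with h2 | h2
        · rw [min_eq_left h2] at h
          exact absurd h (lt_irrefl _)
        · exact h2
      rw [h1]
      obtain ⟨_, ⟨x, hx, rfl⟩, h3⟩ := exists_lt_of_csInf_lt (hO.image lo)
        (show sInf (lo '' O) < sInf (lo '' O) + eta by linarith)
      exact ⟨x, hx, h3⟩

theorem IsFst.mono {tend : ℝ} {O O' : Set V} {lo lo' : V → ℝ} {th th' : ℝ}
    (h : IsFst tend O lo th) (h' : IsFst tend O' lo' th') (hO : O' ⊆ O)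
    (hlo : ∀ x ∈ O', lo x ≤ lo' x) : th ≤ th' := by
  by_contra hcon
  rw [not_le] at hcon
  have h1 : th' < tend := lt_of_lt_of_le hcon h.le_end
  obtain ⟨x, hx, h2⟩ := h'.ex h1 (th - th') (by linarith)
  have h3 := h.le_lo x (hO hx)
  have h4 := hlo x hx
  linarith

end Pool.Agent.FCF
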