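import Pool.Agent.FCF.WgOffO
import Pool.Agent.FCF.WgTip

/-!
# FCF / WgGoodO: a good tip (FCF_PROOF.md, 8.2, O-case)

`s = sg 2^k`, `De = s (w0 + sg² K + 4 sg)`, `y = gp n`, `L = WLO .. q`. `wgO_off` with `w = 4 sg² 2^k ≤ s`, `d = 24 K s` and `eta = s/8`: `z ∈ O(g)`, `‖z - y‖ < d`, `b z + g < th + s/8`.
`wg_near` (with `w = 4 sg² 2^k ≤ dl`): `‖y‖ ≤ 6K²R`, `y.e ≥ 57K²dl`; `25 K s ≤ 2^k ≤ dl`; so all points below are in the region and have `x.e > 0`.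
`Q_y` from `b_pl`, `Q ∈ P0`, `‖Q_y - Q‖ < sg²`.
(a) `|Q.A - 1| ≤ w0`: `z'' = z - s A`. `‖z'' - y‖ ≤ 25 K s ≤ 2^k`. `|T z'' - T z + s| ≤ 2 sg s`, so `L z'' ≥ L z - s - 2 sg s`; `b z'' ≤ b z - s (Q_y . A) + 2 sg s ≤ b z - s (1 - w0 - sg² K) + 2 sg s`. So
 `L z'' - b z'' > g - De`, and `b z'' + (g - De) ≤ th + s/8 - s (1 - w0 - sg² K) + 2 sg s - De ≤ th - s/2` (`De = s (w0 + sg²K + 4sg)`).
(b) otherwise `v` with `Pm . v ≤ 0`, `Pp . v ≤ 0`, `Q . v ≥ cw`: `z'' = y - (2^k/2) v + kap A`, `kap = 6 sg² 2^k`. `T z'' - q_T - th ≥ -4 sg² 2^k + kap - sg² 2^k > 0`, so `L z'' > th`. If `b z'' + g < th` then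
 `z'' ∈ O(g)` (`wgO_high`, `th ≥ g + dl > dl`) contradicts `hF.le_lo`. So `b z'' ≥ th - g`. But `b y ≤ b z + (K+1) 24 K s + sg² 2^k < th - g + s/8 + ...`, and `b z'' ≤ b y - (2^k/2)(cw - sg²) + kap (K+1) K + sg² 2^k`: contradiction
 with `200 K² sg ≤ cw`.
-/

set_option autoImplicit false

namespace Pool.Agent.FCF

open Pool.Agent.VSC (V J LowJet)
open Set Metric

private theorem in_le {Q v : V} {a : ℝ} (hQ : ‖Q‖ ≤ a) : |(inner ℝ Q v : ℝ)| ≤ a * ‖v‖ :=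
  (abs_real_inner_le_norm Q v).trans (mul_le_mul_of_nonneg_right hQ (norm_nonneg v))

private theorem num1 {K sg : ℝ} (K1 : 1 ≤ K) (sg0 : 0 < sg) (sg1 : sg ≤ 1 / (48 * K)) :
    sg * K ≤ 1 / 48 ∧ sg ≤ 1 / 48 := by
  have hK0 : 0 < K := by linarith
  have h1 : sg * K ≤ 1 / 48 := by
    have h := mul_le_mul_of_nonneg_right sg1 hK0.le
    have h' : 1 / (48 * K) * K = 1 / 48 := by field_simp
    linarith
  have h2 : sg * 1 ≤ sg * K := mul_le_mul_of_nonneg_left K1 sg0.le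
  exact ⟨h1, by linarith⟩

private theorem num2 {K P dl R : ℝ} (K1 : 1 ≤ K) (hk : P ≤ dl) (h3 : 3 ≤ dl)
    (hR : 1000 * K ^ 5 * dl ≤ R) :
    dl ≤ R ∧ 6 * K ^ 2 * R + P ≤ 32 * K ^ 4 * R ∧ dl ≤ K ^ 2 * dl := by
  have h5 : (1 : ℝ) ≤ K ^ 5 := one_le_pow₀ K1
  have h4 : K ^ 2 ≤ K ^ 4 := pow_le_pow_right₀ K1 (by norm_num)
  have h40 : (1 : ℝ) ≤ K ^ 4 := one_le_pow₀ K1
  have h20 : (1 : ℝ) ≤ K ^ 2 := one_le_pow₀ K1
  have hdR : dl ≤ R := by nlinarith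
  have hR0 : 0 < R := by linarith
  have a1 := mul_le_mul_of_nonneg_right h4 hR0.le
  have a2 := mul_le_mul_of_nonneg_right h40 hR0.le
  have a3 := mul_le_mul_of_nonneg_right h20 (show (0 : ℝ) ≤ dl by linarith)
  refine ⟨hdR, by linarith, by linarith⟩

private theorem num3 {K sg P dl : ℝ} (K1 : 1 ≤ K) (sg0 : 0 < sg) (c2 : sg ≤ 1 / 48) (hP0 : 0 < P)
    (hk : P ≤ dl) : 4 * sg ^ 2 * P ≤ sg * P ∧ 4 * sg ^ 2 * P ≤ 2 * K * dl := by
  have h1 : 4 * sg ^ 2 ≤ sg := by nlinarith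
  have h2 := mul_le_mul_of_nonneg_right h1 hP0.le
  have h3 : sg * P ≤ 1 / 48 * P := mul_le_mul_of_nonneg_right c2 hP0.le
  have h4 : 1 * dl ≤ K * dl := mul_le_mul_of_nonneg_right K1 (by linarith)
  exact ⟨h2, by linarith⟩

private theorem num4 {K sg s P : ℝ} (K1 : 1 ≤ K) (sg0 : 0 < sg) (c1 : sg * K ≤ 1 / 48)
    (c2 : sg ≤ 1 / 48) (hP0 : 0 < P) (hs : s = sg * P) :
    25 * K * s ≤ P ∧ sg * s ≤ P / 2304 ∧ sg * s * K ≤ P / 2304 := by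
  have hK0 : 0 < K := by linarith
  have h1 := mul_le_mul_of_nonneg_right c1 hP0.le
  have h2 : sg * sg ≤ 1 / 48 * (1 / 48) := mul_le_mul c2 c2 sg0.le (by norm_num)
  have h3 : sg * (sg * K) ≤ 1 / 48 * (1 / 48) := mul_le_mul c2 c1 (by positivity) (by norm_num)
  have h4 := mul_le_mul_of_nonneg_right h2 hP0.le
  have h5 := mul_le_mul_of_nonneg_right h3 hP0.le
  subst hs
  refine ⟨?_, ?_, ?_⟩
  · have : 25 * K * (sg * P) = 25 * (sg * K * P) := by ring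
    rw [this]; linarith
  · have : sg * (sg * P) = sg * sg * P := by ring
    rw [this]; linarith
  · have : sg * (sg * P) * K = sg * (sg * K) * P := by ring
    rw [this]; linarith

/-- local data at a good grid point -/
private structure Loc (Pm Pp A Q e : V) (b Tm Tp : V → ℝ) (y : V) (K R sg s P : ℝ) : Prop where
  K1 : 1 ≤ K
  sg0 : 0 < sg
  s0 : 0 < s
  P0 : 0 < P
  hs : s = sg * P
  c1 : sg * K ≤ 1 / 48
  c2 : sg ≤ 1 / 48
  reg : ∀ x : V, ‖x - y‖ ≤ P → ‖x‖ ≤ WR K R ∧ 0 < (inner ℝ x e : ℝ)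
  plm : ∀ x : V, ‖x - y‖ ≤ P → |Tm x - Tm y - inner ℝ Pm (x - y)| ≤ sg * s
  plp : ∀ x : V, ‖x - y‖ ≤ P → |Tp x - Tp y - inner ℝ Pp (x - y)| ≤ sg * s
  plb : ∀ x : V, ‖x - y‖ ≤ P → |b x - b y - inner ℝ Q (x - y)| ≤ sg * s
  nQ : ‖Q‖ ≤ K + 1
  nA : ‖A‖ ≤ K
  Am : (inner ℝ Pm A : ℝ) = 1
  Ap : (inner ℝ Pp A : ℝ) = 1

private theorem mkLoc {p : Par} {P0 : Set V} {c : V → ℝ} {e Pm Pp A : V} {s1 s2 K : ℝ} {bo : Bool}
    {b Tm Tp : V → ℝ} {Y : Set (ℤ × ℤ)} {Z : Finset (ℤ × ℤ)} {sg : ℝ} {k : ℕ} {R dl h0 : ℝ}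
    (S : WScene p P0 c e Pm Pp A s1 s2 K bo b Tm Tp Y Z sg k R dl h0)
    {n : ℤ × ℤ} (hn : n ∈ Y) (h1 : ‖gp n‖ ≤ 6 * K ^ 2 * R)
    (h2 : 57 * K ^ 2 * dl ≤ inner ℝ (gp n) e) :
    ∃ Q Q' : V, Q' ∈ P0 ∧ ‖Q - Q'‖ ≤ sg ^ 2 ∧
      Loc Pm Pp A Q e b Tm Tp (gp n) K R sg (sg * 2 ^ k) (2 ^ k) := by
  have K1 := S.geo.K1
  have sg0 := S.sg_pos
  have hP0 : (0 : ℝ) < 2 ^ k := by positivity
  obtain ⟨c1, c2⟩ := num1 K1 sg0 S.sg_le
  obtain ⟨n3, n4, n5⟩ := num2 K1 S.k_le S.dl_ge S.R_ge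
  have hdl0 : 0 < dl := by linarith [S.dl_ge]
  have hPdl := S.k_le
  have hsg2 : sg ^ 2 * 2 ^ k = sg * (sg * 2 ^ k) := by ring
  obtain ⟨Q, ⟨Q', hQ', hQQ⟩, hQb⟩ := S.b_pl n hn
  have hreg : ∀ x : V, ‖x - gp n‖ ≤ 2 ^ k → ‖x‖ ≤ WR K R ∧ 0 < (inner ℝ x e : ℝ) := by
    intro x hx
    constructor
    · have h1 : ‖x‖ ≤ ‖gp n‖ + ‖x - gp n‖ := by
        have := norm_add_le (gp n) (x - gp n)
        rwa [add_sub_cancel] at this
      rw [WR]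
      linarith
    · have h1 : (inner ℝ x e : ℝ) = inner ℝ (gp n) e + inner ℝ (x - gp n) e := by
        rw [← inner_add_left, add_sub_cancel]
      have h2 : |(inner ℝ (x - gp n) e : ℝ)| ≤ ‖x - gp n‖ := by
        have := abs_real_inner_le_norm (x - gp n) e
        rwa [S.geo.he, mul_one] at this
      have h3 := (abs_le.1 h2).1
      linarith
  refine ⟨Q, Q', hQ', hQQ.le, ⟨K1, sg0, mul_pos sg0 hP0, hP0, rfl, c1, c2, hreg, ?_, ?_, ?_, ?_,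
    S.geo.nA, ?_, ?_⟩⟩
  · intro x hx
    have := S.pl_m n hn x (hreg x hx).1
    rwa [max_eq_right hx, hsg2] at this
  · intro x hx
    have := S.pl_p n hn x (hreg x hx).1
    rwa [max_eq_right hx, hsg2] at this
  · intro x hx
    have := hQb x hx
    rwa [hsg2] at this
  · have h1 : ‖Q‖ ≤ ‖Q'‖ + ‖Q - Q'‖ := by
      have := norm_add_le Q' (Q - Q')
      rwa [add_sub_cancel] at this
    have h2 := S.geo.nP Q' hQ'
    have h3 : sg ^ 2 ≤ 1 := by nlinarith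
    linarith
  · rw [real_inner_comm]; exact S.geo.Am
  · rw [real_inner_comm]; exact S.geo.Ap

/-- going down by `s A` -/
private theorem Loc.down {Pm Pp A Q e : V} {b Tm Tp : V → ℝ} {y : V} {K R sg s P : ℝ}
    (H : Loc Pm Pp A Q e b Tm Tp y K R sg s P) {z : V} (hz : ‖z - y‖ < 24 * K * s) :
    ‖z - y‖ ≤ P ∧ ‖z - s • A - y‖ ≤ P ∧
      |Tm (z - s • A) - Tm z + s| ≤ 2 * (sg * s) ∧ |Tp (z - s • A) - Tp z + s| ≤ 2 * (sg * s) ∧
      |b (z - s • A) - b z + s * inner ℝ Q A| ≤ 2 * (sg * s) := by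
  obtain ⟨h25, -, -⟩ := num4 H.K1 H.sg0 H.c1 H.c2 H.P0 H.hs
  have hKs : 0 ≤ K * s := mul_nonneg (by linarith [H.K1]) H.s0.le
  have hzy : ‖z - y‖ ≤ P := by linarith
  have e0 : z - s • A - y = (z - y) - s • A := by abel
  have hz2 : ‖z - s • A - y‖ ≤ P := by
    rw [e0]
    have h2 := norm_sub_le (z - y) (s • A)
    rw [norm_smul, Real.norm_of_nonneg H.s0.le] at h2
    have h3 := mul_le_mul_of_nonneg_left H.nA H.s0.le
    linarith
  have im : (inner ℝ Pm (z - s • A - y) : ℝ) = inner ℝ Pm (z - y) - s := by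
    rw [e0, inner_sub_right, real_inner_smul_right, H.Am, mul_one]
  have ip : (inner ℝ Pp (z - s • A - y) : ℝ) = inner ℝ Pp (z - y) - s := by
    rw [e0, inner_sub_right, real_inner_smul_right, H.Ap, mul_one]
  have iq : (inner ℝ Q (z - s • A - y) : ℝ) = inner ℝ Q (z - y) - s * inner ℝ Q A := by
    rw [e0, inner_sub_right, real_inner_smul_right]
  have m1 := abs_le.1 (H.plm z hzy)
  have m2 := abs_le.1 (H.plm _ hz2)
  have p1 := abs_le.1 (H.plp z hzy)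
  have p2 := abs_le.1 (H.plp _ hz2)
  have b1 := abs_le.1 (H.plb z hzy)
  have b2 := abs_le.1 (H.plb _ hz2)
  rw [im] at m2
  rw [ip] at p2
  rw [iq] at b2
  refine ⟨hzy, hz2, abs_le.2 ⟨?_, ?_⟩, abs_le.2 ⟨?_, ?_⟩, abs_le.2 ⟨?_, ?_⟩⟩
  · linarith [m1.2, m2.1]
  · linarith [m1.1, m2.2]
  · linarith [p1.2, p2.1]
  · linarith [p1.1, p2.2]
  · linarith [b1.2, b2.1]
  · linarith [b1.1, b2.2]

/-- going sidewards: `y + a v - kap A` with `|a| = P/2`, `|kap| = 6 sg s` -/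
private theorem Loc.side {Pm Pp A Q e : V} {b Tm Tp : V → ℝ} {y : V} {K R sg s P : ℝ}
    (H : Loc Pm Pp A Q e b Tm Tp y K R sg s P) {v : V} (hv : ‖v‖ = 1) {a kap : ℝ}
    (ha : |a| = P / 2) (hk : |kap| = 6 * (sg * s)) :
    ‖y + a • v - kap • A - y‖ ≤ P ∧
      |Tm (y + a • v - kap • A) - Tm y - (a * inner ℝ Pm v - kap)| ≤ sg * s ∧
      |Tp (y + a • v - kap • A) - Tp y - (a * inner ℝ Pp v - kap)| ≤ sg * s ∧
      |b (y + a • v - kap • A) - b y - (a * inner ℝ Q v - kap * inner ℝ Q A)| ≤ sg * s := by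
  obtain ⟨-, -, hssK⟩ := num4 H.K1 H.sg0 H.c1 H.c2 H.P0 H.hs
  have e0 : y + a • v - kap • A - y = a • v - kap • A := by abel
  have hz2 : ‖y + a • v - kap • A - y‖ ≤ P := by
    rw [e0]
    have h2 := norm_sub_le (a • v) (kap • A)
    rw [norm_smul, norm_smul, Real.norm_eq_abs, Real.norm_eq_abs, ha, hk, hv] at h2
    have h3 := mul_le_mul_of_nonneg_left H.nA
      (show (0 : ℝ) ≤ 6 * (sg * s) from by have := mul_pos H.sg0 H.s0; linarith)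
    have h4 := H.P0
    linarith
  have hin : ∀ W : V, (inner ℝ W (y + a • v - kap • A - y) : ℝ) =
      a * inner ℝ W v - kap * inner ℝ W A := by
    intro W
    rw [e0, inner_sub_right, real_inner_smul_right, real_inner_smul_right]
  have m2 := H.plm _ hz2
  have p2 := H.plp _ hz2
  have b2 := H.plb _ hz2
  rw [hin, H.Am, mul_one] at m2
  rw [hin, H.Ap, mul_one] at p2
  rw [hin] at b2
  exact ⟨hz2, m2, p2, b2⟩

/-- slopes near a slope of `P0` -/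
private theorem slope {Q Q' v : V} {a r m : ℝ} (h : ‖Q - Q'‖ ≤ a) (hv : ‖v‖ ≤ r) (ha : 0 ≤ a)
    (hm : (inner ℝ Q' v : ℝ) = m) : |(inner ℝ Q v : ℝ) - m| ≤ a * r := by
  have h1 : (inner ℝ Q v : ℝ) - m = inner ℝ (Q - Q') v := by
    rw [inner_sub_left, hm]
  rw [h1]
  exact (in_le h).trans (mul_le_mul_of_nonneg_left hv ha)

/-- the numerical contradiction -/
private theorem numO {K sg s P cw kap : ℝ} (K1 : 1 ≤ K) (sg0 : 0 < sg) (s0 : 0 < s) (P0 : 0 < P)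
    (c2 : sg ≤ 1 / 48) (hs : s = sg * P) (hkap : kap = 6 * (sg * s))
    (hcw : 200 * K ^ 2 * sg ≤ cw) (f1 : P / 2 * (cw - sg ^ 2) < (K + 1) * (24 * K * s) + s / 8 +
      2 * (sg * s) + kap * ((K + 1) * K)) : False := by
  have f2 : P / 2 * (200 * K ^ 2 * sg - sg ^ 2) ≤ P / 2 * (cw - sg ^ 2) :=
    mul_le_mul_of_nonneg_left (by linarith) (by positivity)
  have f3 : P / 2 * (200 * K ^ 2 * sg - sg ^ 2) = 100 * K ^ 2 * s - sg * s / 2 := by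
    rw [hs]; ring
  have hK2 : (1 : ℝ) ≤ K ^ 2 := one_le_pow₀ K1
  have hKK : K ≤ K ^ 2 := by nlinarith
  have f4 : (K + 1) * (24 * K * s) ≤ 48 * K ^ 2 * s := by
    have h := mul_le_mul_of_nonneg_left hKK (show (0 : ℝ) ≤ 24 * s by positivity)
    linarith
  have hss : 0 < sg * s := mul_pos sg0 s0
  have f5 : kap * ((K + 1) * K) ≤ 12 * K ^ 2 * (sg * s) := by
    have h := mul_le_mul_of_nonneg_left hKK (show (0 : ℝ) ≤ 6 * (sg * s) by positivity)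
    rw [hkap]
    linarith
  have f8 : 0 < K ^ 2 * s := by positivity
  have f6 : 12 * K ^ 2 * (sg * s) ≤ K ^ 2 * s / 4 := by
    have h := mul_le_mul_of_nonneg_left c2 f8.le
    linarith
  have f9 : s ≤ K ^ 2 * s := by
    have h1 := mul_le_mul_of_nonneg_right hK2 s0.le
    linarith
  have f7 : sg * s ≤ K ^ 2 * s / 48 := by
    have h2 := mul_le_mul_of_nonneg_right c2 s0.le
    linarith
  linarith

theorem wgO_good {p : Par} {P0 : Set V} {c : V → ℝ} {e Pm Pp A : V} {s1 s2 K : ℝ}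
    {b Tm Tp : V → ℝ} {Y : Set (ℤ × ℤ)} {Z : Finset (ℤ × ℤ)} {sg : ℝ} {k : ℕ} {R dl h0 : ℝ}
    {B0 : Set V} (S : WScene p P0 c e Pm Pp A s1 s2 K false b Tm Tp Y Z sg k R dl h0)
    (D : WDatO p c e K dl B0 b) {w0 cw : ℝ} (hw0 : 0 < w0) (hcw : 200 * K ^ 2 * sg ≤ cw)
    (hsep : ∀ Q ∈ P0, |(inner ℝ Q A : ℝ) - 1| ≤ w0 ∨
      ∃ v : V, ‖v‖ = 1 ∧ (inner ℝ Pm v : ℝ) ≤ 0 ∧ (inner ℝ Pp v : ℝ) ≤ 0 ∧ cw ≤ inner ℝ Q v)
    {q g th De : ℝ} (hDe : De = sg * 2 ^ k * (w0 + sg ^ 2 * K + 4 * sg))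
    (hq : |q| ≤ 3 * K ^ 2 * R) (hg : K ^ 3 * h0 + 64 * K ^ 5 * dl ≤ g) (hgR : g ≤ R)
    (hth : th < 2 * K * R)
    (hF : IsFst (2 * K * R) (OvO (WR K R) e b (WLO Tm Tp e Pm Pp q) g) (fun x => b x + g) th)
    {n : ℤ × ℤ} (hn : n ∈ Y) (hwm : |Tm (gp n) - q * inner ℝ Pm (J e) - th| ≤ 4 * sg ^ 2 * 2 ^ k)
    (hwp : |Tp (gp n) - q * inner ℝ Pp (J e) - th| ≤ 4 * sg ^ 2 * 2 ^ k) :
    ∃ z ∈ OvO (WR K R) e b (WLO Tm Tp e Pm Pp q) (g - De),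
      b z + (g - De) ≤ th - sg * 2 ^ k / 2 := by
  have K1 := S.geo.K1
  have hK0 : 0 < K := by linarith
  have sg0 := S.sg_pos
  have hP0 : (0 : ℝ) < 2 ^ k := by positivity
  obtain ⟨c1, c2⟩ := num1 K1 sg0 S.sg_le
  have hs0 : 0 < sg * 2 ^ k := mul_pos sg0 hP0
  have hdl0 : 0 < dl := by linarith [S.dl_ge]
  have hdlg : dl ≤ g := by
    have h5 := mul_le_mul_of_nonneg_right (one_le_pow₀ K1 : (1 : ℝ) ≤ K ^ 5) hdl0.le
    have h3 : (0 : ℝ) ≤ K ^ 3 * h0 := mul_nonneg (by positivity) S.h0_nonneg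
    linarith
  obtain ⟨hgth, hthl⟩ := wgO_th_low S D hg hgR hF
  have hth0 : 0 ≤ th := by linarith
  obtain ⟨hw1, hw2⟩ := num3 (dl := dl) K1 sg0 c2 hP0 S.k_le
  obtain ⟨z, hzO, hzd, hzL⟩ := wgO_off S D hq hdlg hgth hth hF hn hwm hwp
    (d := 24 * K * (sg * 2 ^ k)) (by rw [max_eq_right hw1]) (eta := sg * 2 ^ k / 8)
    (by linarith)
  obtain ⟨hy1, hy2, hy3⟩ := wg_near S hq hth0 hth.le hthl hn hw2 hwm hwp
  obtain ⟨Q, Q', hQ', hQQ, H⟩ := mkLoc S hn hy2 hy3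
  have hw4 : 4 * sg ^ 2 * 2 ^ k = 4 * (sg * (sg * 2 ^ k)) := by ring
  rw [hw4] at hwm hwp
  clear hw1 hw2 hw4
  generalize hs : sg * 2 ^ k = s at *
  generalize (2 : ℝ) ^ k = P at *
  generalize gp n = y at *
  obtain ⟨hzy, hz2, hm, hp, hb⟩ := H.down hzd
  obtain ⟨hzR, hze, hzg⟩ := hzO
  have g1 : WLO Tm Tp e Pm Pp q z ≤ Tm z - q * inner ℝ Pm (J e) := min_le_left _ _
  have g2 : WLO Tm Tp e Pm Pp q z ≤ Tp z - q * inner ℝ Pp (J e) := min_le_right _ _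
  rcases hsep Q' hQ' with hcase | ⟨v, hv1, hvm, hvp, hvQ⟩
  · -- the good case
    obtain ⟨hr1, hr2⟩ := H.reg _ hz2
    have hL : WLO Tm Tp e Pm Pp q z - s - 2 * (sg * s) ≤ WLO Tm Tp e Pm Pp q (z - s • A) := by
      have e1 := (abs_le.1 hm).1
      have e2 := (abs_le.1 hp).1
      refine le_min ?_ ?_
      · linarith
      · linarith
    have hQA : 1 - w0 - sg ^ 2 * K ≤ (inner ℝ Q A : ℝ) := by
      have h2 := (abs_le.1 hcase).1
      have h3 := (abs_le.1 (slope hQQ S.geo.nA (by positivity) rfl)).1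
      linarith
    have e3 := mul_le_mul_of_nonneg_left hQA hs0.le
    have e4 := (abs_le.1 hb).2
    have e5 := mul_le_mul_of_nonneg_right c2 hs0.le
    have hsgs : 0 < sg * s := mul_pos sg0 hs0
    refine ⟨z - s • A, ⟨hr1, hr2, ?_⟩, ?_⟩
    · rw [hDe]
      linarith
    · rw [hDe]
      linarith
  · -- the bad case
    exfalso
    have hsgs : 0 < sg * s := mul_pos sg0 hs0
    obtain ⟨hz3, m2, p2, b2⟩ := H.side (a := -(P / 2)) (kap := -(6 * (sg * s))) hv1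
      (by rw [abs_neg, abs_of_pos (by linarith)]) (by rw [abs_neg, abs_of_pos (by linarith)])
    obtain ⟨hr1, hr2⟩ := H.reg _ hz3
    have hpm : P / 2 * inner ℝ Pm v ≤ 0 :=
      mul_nonpos_of_nonneg_of_nonpos (by linarith) hvm
    have hpp : P / 2 * inner ℝ Pp v ≤ 0 :=
      mul_nonpos_of_nonneg_of_nonpos (by linarith) hvp
    have hL : th < WLO Tm Tp e Pm Pp q (y + (-(P / 2)) • v - (-(6 * (sg * s))) • A) := by
      have e1 := (abs_le.1 m2).1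
      have e2 := (abs_le.1 hwm).1
      have e3 := (abs_le.1 p2).1
      have e4 := (abs_le.1 hwp).1
      refine lt_min ?_ ?_
      · linarith
      · linarith
    have hnot : th ≤ b (y + (-(P / 2)) • v - (-(6 * (sg * s))) • A) + g := by
      by_contra hcon
      push Not at hcon
      have := hF.le_lo _ ⟨hr1, hr2, by linarith⟩
      linarith
    have hQz : -((K + 1) * (24 * K * s)) ≤ (inner ℝ Q (z - y) : ℝ) := by
      have h1 := (abs_le.1 (in_le (v := z - y) H.nQ)).1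
      have h2 := mul_le_mul_of_nonneg_left hzd.le (show (0 : ℝ) ≤ K + 1 by linarith)
      linarith
    have hQv : cw - sg ^ 2 ≤ inner ℝ Q v := by
      have h3 := (abs_le.1 (slope hQQ hv1.le (by positivity) rfl)).1
      linarith
    have hQA : (inner ℝ Q A : ℝ) ≤ (K + 1) * K := by
      have h3 := (abs_le.1 (in_le (v := A) H.nQ)).2
      have h4 := mul_le_mul_of_nonneg_left S.geo.nA (show (0 : ℝ) ≤ K + 1 by linarith)
      linarith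
    have e1 := (abs_le.1 (H.plb z hzy)).1
    have e2 := (abs_le.1 b2).2
    have e3 := mul_le_mul_of_nonneg_left hQA (show (0 : ℝ) ≤ 6 * (sg * s) by linarith)
    have e4 := mul_le_mul_of_nonneg_left hQv (show (0 : ℝ) ≤ P / 2 by linarith)
    refine numO (kap := 6 * (sg * s)) K1 sg0 hs0 hP0 c2 hs.symm rfl hcw ?_
    linarith

end Pool.Agent.FCF
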