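import Pool.Agent.FCF.WgBaseE
import Pool.Agent.FCF.Fill

/-!
# FCF / WgOffE: overtaking starts near the tip (FCF_PROOF.md, 8.1, E-case)
-/

set_option autoImplicit false

namespace Pool.Agent.FCF

open Pool.Agent.VSC (V J LowJet)
open Set Metric

private theorem offE_side {p : Par} {c : V → ℝ} (henv : p.Env c) {A0 : Set V} (hA : IsClosed A0)
    {b : V → ℝ} (hiff : ∀ x t, 0 ≤ t → (b x ≤ t ↔ x ∈ E (frc c p.F) A0 t)) {Rs Rs' : ℝ}
    (hRs : Rs' < Rs) (hRs0 : 0 < Rs) {T1 T2 L : V → ℝ} {q1 q2 : ℝ}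
    (hL : ∀ x, L x = max (T1 x - q1) (T2 x - q2))
    (sub1 : ∀ t0 : ℝ, SubIn (frc c p.F) (ball 0 (2 * Rs)) t0 (arr true T1))
    (sub2 : ∀ t0 : ℝ, SubIn (frc c p.F) (ball 0 (2 * Rs)) t0 (arr true T2))
    {g th t1 d K : ℝ} {e y P1 P2 : V} (hK : 0 < K) (hd : 0 < d) (hth0 : 0 ≤ th) (hg : 0 < g)
    (hbase : ∀ x : V, (inner ℝ x e : ℝ) = 0 → b x ≤ g)
    (hlow : ∀ x ∈ OvE Rs e b L g, th ≤ L x)
    (hbdd : ∀ x ∈ OvE Rs e b L g, L x ≤ t1 → ‖x‖ ≤ Rs')
    (hfar : ∀ x ∈ OvE Rs e b L g, L x ≤ t1 → d ≤ ‖x - y‖)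
    (hsec : ∀ x ∈ OvE Rs e b L g, L x ≤ t1 →
      2 * ‖x - y‖ / (3 * K) ≤ |(inner ℝ P1 (x - y) : ℝ) - inner ℝ P2 (x - y)|)
    (hdom : ∀ x : V, ‖x‖ ≤ Rs → d / 2 ≤ ‖x - y‖ →
      ‖x - y‖ / (4 * K) < (inner ℝ P1 (x - y) : ℝ) - inner ℝ P2 (x - y) →
      T2 x - q2 ≤ T1 x - q1) :
    ∀ x ∈ OvE Rs e b L g, L x ≤ t1 →
      ¬ (inner ℝ P2 (x - y) : ℝ) < inner ℝ P1 (x - y) := by
  intro x0 hx0 hx1 hx2
  obtain ⟨CL, hCL⟩ : ∃ CL : Set (V × ℝ), CL = {z | z.1 ∈ OvE Rs e b L g ∧ L z.1 ≤ z.2 ∧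
      z.2 ≤ t1 ∧ z.2 + g < b z.1 ∧ (inner ℝ P2 (z.1 - y) : ℝ) < inner ℝ P1 (z.1 - y)} := ⟨_, rfl⟩
  have hflow : ∀ (x : V) (t : ℝ), (x, t) ∈ Flow (frc c p.F) A0 ↔ x ∈ E (frc c p.F) A0 t :=
    fun _ _ => Iff.rfl
  -- the closed set containing CL
  have hF : closure CL ⊆ {z : V × ℝ | z.2 ≤ t1 ∧ ‖z.1‖ ≤ Rs' ∧ 0 ≤ (inner ℝ z.1 e : ℝ) ∧
      th ≤ z.2 ∧ d ≤ ‖z.1 - y‖ ∧
      2 * ‖z.1 - y‖ / (3 * K) ≤ (inner ℝ P1 (z.1 - y) : ℝ) - inner ℝ P2 (z.1 - y)} := by
    refine closure_minimal ?_ ?_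
    · intro z hz
      rw [hCL] at hz
      obtain ⟨h1, h2, h3, h4, h5⟩ := hz
      have h6 : L z.1 ≤ t1 := h2.trans h3
      have h7 := hsec z.1 h1 h6
      rw [abs_of_pos (by linarith)] at h7
      exact ⟨h3, hbdd z.1 h1 h6, h1.2.1.le, (hlow z.1 h1).trans h2, hfar z.1 h1 h6, h7⟩
    · refine IsClosed.and (isClosed_le (by fun_prop) (by fun_prop)) ?_
      refine IsClosed.and (isClosed_le (by fun_prop) (by fun_prop)) ?_
      refine IsClosed.and (isClosed_le (by fun_prop) (by fun_prop)) ?_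
      refine IsClosed.and (isClosed_le (by fun_prop) (by fun_prop)) ?_
      refine IsClosed.and (isClosed_le (by fun_prop) (by fun_prop)) ?_
      exact isClosed_le (by fun_prop) (by fun_prop)
  have hS1 : SubIn (frc c p.F) (ball 0 (2 * Rs)) (-1)
      {z : V × ℝ | (z.1, z.2 + q1) ∈ arr true T1} := (sub1 (-1 + q1)).shift_time q1
  have hS2 : SubIn (frc c p.F) (ball 0 (2 * Rs)) (-1)
      {z : V × ℝ | (z.1, z.2 + q2) ∈ arr true T2} := (sub2 (-1 + q2)).shift_time q2
  have harr1 : ∀ (x : V) (t : ℝ), (x, t) ∈ {z : V × ℝ | (z.1, z.2 + q1) ∈ arr true T1} ↔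
      T1 x - q1 ≤ t := by
    intro x t
    simp only [mem_ofPred_eq, arr, if_true]
    constructor <;> intro h <;> linarith
  have harr2 : ∀ (x : V) (t : ℝ), (x, t) ∈ {z : V × ℝ | (z.1, z.2 + q2) ∈ arr true T2} ↔
      T2 x - q2 ≤ t := by
    intro x t
    simp only [mem_ofPred_eq, arr, if_true]
    constructor <;> intro h <;> linarith
  have hempty : CL = ∅ := by
    refine fill_in_sub henv.med hA g (U := ball 0 (2 * Rs)) (t0 := -1) hS1 (fun _ _ => le_rfl)
      ?_ ?_ ?_
    · intro x t hz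
      have hz' := hz
      rw [hCL] at hz
      obtain ⟨h1, h2, h3, h4, h5⟩ := hz
      have h6 := (hlow x h1).trans h2
      refine ⟨?_, ?_, by simp only at h6; linarith, by simp only at h6; linarith, ?_⟩
      · rw [harr1]
        rw [hL] at h2
        exact (le_max_left _ _).trans h2
      · rw [mem_ball_zero_iff]
        have := h1.1
        linarith
      · rw [hflow, ← hiff x (t + g) (by simp only at h6; linarith)]
        push Not
        exact h4
    · intro x t hz
      by_cases hfl : (x, t + g) ∈ Flow (frc c p.F) A0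
      · exact Or.inr hfl
      · left
        obtain ⟨h1, h2, h3, h4, h5, h6⟩ := hF hz
        simp only at h1 h2 h3 h4 h5 h6
        have h7 : t + g < b x := by
          rw [hflow, ← hiff x (t + g) (by linarith)] at hfl
          push Not at hfl
          exact hfl
        have h8 : 0 < (inner ℝ x e : ℝ) := by
          rcases lt_or_eq_of_le h3 with h | h
          · exact h
          · have := hbase x h.symm
            linarith
        have hxU : x ∈ ball (0 : V) (2 * Rs) := by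
          rw [mem_ball_zero_iff]
          linarith
        have h9 : T1 x - q1 ≤ t := by
          rw [← harr1]
          refine hS1.closed x t hxU (by linarith) (closure_mono ?_ hz)
          intro z hz1
          rw [hCL] at hz1
          obtain ⟨k1, k2, k3, k4, k5⟩ := hz1
          have k6 := (hlow z.1 k1).trans k2
          refine ⟨?_, ?_⟩
          · have : (z.1, z.2) ∈ {z : V × ℝ | (z.1, z.2 + q1) ∈ arr true T1} := by
              rw [harr1]
              rw [hL] at k2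
              exact (le_max_left _ _).trans k2
            exact this
          · simp only [mem_ofPred_eq]
            linarith
        have h10 : T2 x - q2 ≤ t := by
          rw [← harr2]
          refine hS2.closed x t hxU (by linarith) (closure_mono ?_ hz)
          intro z hz1
          rw [hCL] at hz1
          obtain ⟨k1, k2, k3, k4, k5⟩ := hz1
          have k6 := (hlow z.1 k1).trans k2
          refine ⟨?_, ?_⟩
          · have : (z.1, z.2) ∈ {z : V × ℝ | (z.1, z.2 + q2) ∈ arr true T2} := by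
              rw [harr2]
              rw [hL] at k2
              exact (le_max_right _ _).trans k2
            exact this
          · simp only [mem_ofPred_eq]
            linarith
        have h11 : L x ≤ t := by
          rw [hL]
          exact max_le h9 h10
        have h12 : 0 < 2 * ‖x - y‖ / (3 * K) := by
          have : 0 < ‖x - y‖ := by linarith
          positivity
        rw [hCL]
        exact ⟨⟨by linarith, h8, by linarith⟩, h11, h1, h7, by simp only; linarith⟩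
    · intro x t hz
      have hz' := subset_closure hz
      obtain ⟨f1, f2, f3, f4, f5, f6⟩ := hF hz'
      simp only at f1 f2 f3 f4 f5 f6
      rw [hCL] at hz
      obtain ⟨h1, h2, h3, h4, h5⟩ := hz
      simp only at h1 h2 h3 h4 h5
      have hnf : (x, t + g) ∉ Flow (frc c p.F) A0 := by
        rw [hflow, ← hiff x (t + g) (by linarith)]
        push Not
        exact h4
      -- neighbourhoods
      have hxy : 0 < ‖x - y‖ := by linarith
      have n1 : ∀ᶠ x' in nhds x, ‖x'‖ < Rs :=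
        (continuous_norm.continuousAt.eventually_lt continuousAt_const (by linarith))
      have n2 : ∀ᶠ x' in nhds x, 0 < (inner ℝ x' e : ℝ) :=
        continuousAt_const.eventually_lt (by fun_prop) h1.2.1
      have n3 : ∀ᶠ x' in nhds x, d / 2 < ‖x' - y‖ :=
        continuousAt_const.eventually_lt (by fun_prop) (by linarith)
      have n4 : ∀ᶠ x' in nhds x, ‖x' - y‖ / (4 * K) <
          (inner ℝ P1 (x' - y) : ℝ) - inner ℝ P2 (x' - y) := by
        have hK3 : ‖x - y‖ / (4 * K) < 2 * ‖x - y‖ / (3 * K) := by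
          rw [div_lt_div_iff₀ (by positivity) (by positivity)]
          nlinarith [mul_pos hxy hK]
        refine ContinuousAt.eventually_lt (by fun_prop) (by fun_prop) (by linarith)
      have n5 : ∀ᶠ z : V × ℝ in nhds (x, t + g), z ∉ Flow (frc c p.F) A0 :=
        (isClosed_closure.isOpen_compl).mem_nhds hnf
      obtain ⟨r1, hr1, hr1'⟩ := Metric.eventually_nhds_iff.1 (n1.and (n2.and (n3.and n4)))
      obtain ⟨r2, hr2, hr2'⟩ := Metric.eventually_nhds_iff.1 n5
      refine ⟨min (min r1 r2) g, lt_min (lt_min hr1 hr2) hg, ?_⟩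
      intro x' s hx' hs1 hs2 hxs
      have hrr1 : ‖x' - x‖ < r1 := hx'.trans_le ((min_le_left _ _).trans (min_le_left _ _))
      have hrr2 : ‖x' - x‖ < r2 := hx'.trans_le ((min_le_left _ _).trans (min_le_right _ _))
      have hr3 : t - g < s := by
        have := min_le_right (min r1 r2) g
        linarith
      have hr4 : t - r2 < s := by
        have := (min_le_left (min r1 r2) g).trans (min_le_right r1 r2)
        linarith
      obtain ⟨m1, m2, m3, m4⟩ := hr1' (by rw [dist_eq_norm]; exact hrr1)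
      have m5 : (x', s + g) ∉ Flow (frc c p.F) A0 := by
        refine hr2' ?_
        rw [Prod.dist_eq, max_lt_iff, dist_eq_norm, Real.dist_eq, abs_lt]
        refine ⟨hrr2, ?_, ?_⟩
        · simp only
          linarith
        · simp only
          linarith
      have m6 : s + g < b x' := by
        rw [hflow, ← hiff x' (s + g) (by linarith)] at m5
        push Not at m5
        exact m5
      rw [harr1] at hxs
      have m7 := hdom x' m1.le m3.le m4
      have m8 : L x' ≤ s := by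
        rw [hL]
        exact max_le hxs (m7.trans hxs)
      have m9 : 0 ≤ ‖x' - y‖ / (4 * K) := by positivity
      rw [hCL]
      exact ⟨⟨m1.le, m2, by linarith⟩, m8, by simp only; linarith, m6, by simp only; linarith⟩
  have hmem : (x0, L x0) ∈ CL := by
    rw [hCL]
    refine ⟨hx0, le_rfl, hx1, ?_, hx2⟩
    have := hx0.2.2
    simp only
    linarith
  rw [hempty] at hmem
  exact hmem

theorem wgE_off {p : Par} {P0 : Set V} {c : V → ℝ} {e Pm Pp A : V} {s1 s2 K : ℝ}
    {b Tm Tp : V → ℝ} {Y : Set (ℤ × ℤ)} {Z : Finset (ℤ × ℤ)} {sg : ℝ} {k : ℕ} {R dl h0 : ℝ}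
    {A0 : Set V} (S : WScene p P0 c e Pm Pp A s1 s2 K true b Tm Tp Y Z sg k R dl h0)
    (D : WDatE p c e K dl A0 b) {q g th w d : ℝ} (hq : |q| ≤ 3 * K ^ 2 * R) (hg : dl ≤ g)
    (hth0 : 0 ≤ th) (hth : th < 2 * K * R)
    (hF : IsFst (2 * K * R) (OvE (WR K R) e b (WLE Tm Tp e Pm Pp q) g) (WLE Tm Tp e Pm Pp q) th)
    {n : ℤ × ℤ} (hn : n ∈ Y) (hwm : |Tm (gp n) - q * inner ℝ Pm (J e) - th| ≤ w)
    (hwp : |Tp (gp n) - q * inner ℝ Pp (J e) - th| ≤ w)
    (hd : 24 * K * max w (sg * 2 ^ k) ≤ d) {eta : ℝ} (heta : 0 < eta) :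
    ∃ z ∈ OvE (WR K R) e b (WLE Tm Tp e Pm Pp q) g, ‖z - gp n‖ < d ∧
      WLE Tm Tp e Pm Pp q z < th + eta := by
  by_contra hcon
  push Not at hcon
  have hK1 := S.geo.K1
  have hK : 0 < K := by linarith
  have hsg := S.sg_pos
  have h2k : (0 : ℝ) < 2 ^ k := by positivity
  have hR : 0 < R := by
    have h1 := S.R_ge
    have h2 := S.dl_ge
    have h3 : 0 < 1000 * K ^ 5 * dl := by positivity
    linarith
  have hK4 : (1 : ℝ) ≤ K ^ 4 := one_le_pow₀ hK1
  have hd0 : 0 < d := by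
    have h1 : sg * 2 ^ k ≤ max w (sg * 2 ^ k) := le_max_right _ _
    have h2 : 0 < 24 * K * (sg * 2 ^ k) := by positivity
    have h3 : 24 * K * (sg * 2 ^ k) ≤ 24 * K * max w (sg * 2 ^ k) :=
      mul_le_mul_of_nonneg_left h1 (by positivity)
    linarith
  have hw1 : 24 * K * w ≤ d :=
    (mul_le_mul_of_nonneg_left (le_max_left _ _) (by positivity)).trans hd
  have hw2 : 24 * K * (sg * 2 ^ k) ≤ d :=
    (mul_le_mul_of_nonneg_left (le_max_right _ _) (by positivity)).trans hd
  have hsgK : sg * (48 * K) ≤ 1 := by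
    have := S.sg_le
    rwa [le_div_iff₀ (by positivity)] at this
  have hsg1 : sg ≤ 1 / 48 := by
    have h1 : sg * 48 ≤ sg * (48 * K) := by
      refine mul_le_mul_of_nonneg_left ?_ hsg.le
      linarith
    linarith
  -- error of the linear approximation
  have herr : ∀ v : V, d / 2 ≤ ‖v‖ → w + sg ^ 2 * max ‖v‖ (2 ^ k) ≤ ‖v‖ / (8 * K) := by
    intro v hv
    have h1 : w ≤ ‖v‖ / (12 * K) := by
      rw [le_div_iff₀ (by positivity)]
      linarith
    have h2 : sg ^ 2 * max ‖v‖ (2 ^ k) ≤ ‖v‖ / (24 * K) := by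
      rw [le_div_iff₀ (by positivity)]
      rcases max_cases ‖v‖ ((2 : ℝ) ^ k) with ⟨h3, _⟩ | ⟨h3, _⟩
      · rw [h3]
        have h4 : sg * (sg * (48 * K)) * ‖v‖ ≤ sg * 1 * ‖v‖ :=
          mul_le_mul_of_nonneg_right (mul_le_mul_of_nonneg_left hsgK hsg.le) (norm_nonneg _)
        have h5 : sg * ‖v‖ ≤ 1 / 48 * ‖v‖ := mul_le_mul_of_nonneg_right hsg1 (norm_nonneg _)
        have h6 := norm_nonneg v
        linarith
      · rw [h3]
        have h4 : sg * (24 * K * (sg * 2 ^ k)) ≤ sg * d := mul_le_mul_of_nonneg_left hw2 hsg.le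
        have h5 : sg * d ≤ 1 / 48 * d := mul_le_mul_of_nonneg_right hsg1 hd0.le
        linarith
    have h7 : ‖v‖ / (12 * K) + ‖v‖ / (24 * K) = ‖v‖ / (8 * K) := by
      field_simp
      ring
    linarith
  have herrm : ∀ x : V, ‖x‖ ≤ WR K R → d / 2 ≤ ‖x - gp n‖ →
      |Tm x - q * inner ℝ Pm (J e) - th - inner ℝ Pm (x - gp n)| ≤ ‖x - gp n‖ / (8 * K) := by
    intro x hx hxd
    have h1 := S.pl_m n hn x hx
    have h2 := herr (x - gp n) hxd
    have h3 : Tm x - q * inner ℝ Pm (J e) - th - inner ℝ Pm (x - gp n) =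
        (Tm x - Tm (gp n) - inner ℝ Pm (x - gp n)) +
          (Tm (gp n) - q * inner ℝ Pm (J e) - th) := by ring
    rw [h3]
    refine (abs_add_le _ _).trans ?_
    linarith
  have herrp : ∀ x : V, ‖x‖ ≤ WR K R → d / 2 ≤ ‖x - gp n‖ →
      |Tp x - q * inner ℝ Pp (J e) - th - inner ℝ Pp (x - gp n)| ≤ ‖x - gp n‖ / (8 * K) := by
    intro x hx hxd
    have h1 := S.pl_p n hn x hx
    have h2 := herr (x - gp n) hxd
    have h3 : Tp x - q * inner ℝ Pp (J e) - th - inner ℝ Pp (x - gp n) =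
        (Tp x - Tp (gp n) - inner ℝ Pp (x - gp n)) +
          (Tp (gp n) - q * inner ℝ Pp (J e) - th) := by ring
    rw [h3]
    refine (abs_add_le _ _).trans ?_
    linarith
  obtain ⟨t1, ht1⟩ : ∃ t1, t1 = th + min (min (eta / 2) (d / (12 * K))) 1 := ⟨_, rfl⟩
  have hm0 : 0 < min (min (eta / 2) (d / (12 * K))) 1 := by
    refine lt_min (lt_min (by positivity) (by positivity)) one_pos
  have hm1 : min (min (eta / 2) (d / (12 * K))) 1 ≤ eta / 2 :=
    (min_le_left _ _).trans (min_le_left _ _)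
  have hm2 : min (min (eta / 2) (d / (12 * K))) 1 ≤ d / (12 * K) :=
    (min_le_left _ _).trans (min_le_right _ _)
  have hm3 : min (min (eta / 2) (d / (12 * K))) 1 ≤ 1 := min_le_right _ _
  obtain ⟨L, hL⟩ : ∃ L, L = WLE Tm Tp e Pm Pp q := ⟨_, rfl⟩
  rw [← hL] at hF hcon
  have hLx : ∀ x, L x = max (Tm x - q * inner ℝ Pm (J e)) (Tp x - q * inner ℝ Pp (J e)) := by
    intro x
    rw [hL]
    rfl
  have hbdd : ∀ x ∈ OvE (WR K R) e b L g, L x ≤ t1 → ‖x‖ ≤ 8 * K ^ 4 * R := by
    intro x hx hx1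
    rw [hL] at hx hx1
    exact wgE_bdd S hq hx (by linarith)
  have hfar : ∀ x ∈ OvE (WR K R) e b L g, L x ≤ t1 → d ≤ ‖x - gp n‖ := by
    intro x hx hx1
    by_contra h
    push Not at h
    have := hcon x hx h
    linarith
  have hsec : ∀ x ∈ OvE (WR K R) e b L g, L x ≤ t1 →
      2 * ‖x - gp n‖ / (3 * K) ≤
        |(inner ℝ Pm (x - gp n) : ℝ) - inner ℝ Pp (x - gp n)| := by
    intro x hx hx1
    refine S.geo.sector_max ?_
    have h1 := hfar x hx hx1
    have h2 := herrm x hx.1 (by linarith)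
    have h3 := herrp x hx.1 (by linarith)
    have h4 := abs_max_sub_max_le_max (Tm x - q * inner ℝ Pm (J e) - th)
      (Tp x - q * inner ℝ Pp (J e) - th) (inner ℝ Pm (x - gp n) : ℝ) (inner ℝ Pp (x - gp n))
    have h5 : max (Tm x - q * inner ℝ Pm (J e) - th) (Tp x - q * inner ℝ Pp (J e) - th) =
        L x - th := by
      rw [hLx, max_sub_sub_right]
    rw [h5] at h4
    have h6 := h4.trans (max_le h2 h3)
    have h7 := hF.le_lo x hx
    have h8 : L x - th ≤ ‖x - gp n‖ / (12 * K) := by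
      have : d / (12 * K) ≤ ‖x - gp n‖ / (12 * K) :=
        div_le_div_of_nonneg_right h1 (by positivity)
      linarith
    have h9 : ‖x - gp n‖ / (12 * K) + ‖x - gp n‖ / (8 * K) ≤ ‖x - gp n‖ / (3 * K) := by
      have h10 : ‖x - gp n‖ / (12 * K) + ‖x - gp n‖ / (8 * K) =
          ‖x - gp n‖ / (3 * K) * (5 / 8) := by
        field_simp
        ring
      rw [h10]
      have : 0 ≤ ‖x - gp n‖ / (3 * K) := by positivity
      linarith
    rw [abs_le] at h6 ⊢
    have h11 : 0 ≤ ‖x - gp n‖ / (12 * K) := by positivity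
    constructor <;> linarith [h6.1, h6.2]
  have hbase : ∀ x : V, (inner ℝ x e : ℝ) = 0 → b x ≤ g := by
    intro x hx
    have := D.le x hx.ge
    rw [hx] at this
    linarith
  have hg0 : 0 < g := by
    have := S.dl_ge
    linarith
  have hRs : 8 * K ^ 4 * R < WR K R := by
    unfold WR
    have : 0 < K ^ 4 * R := by positivity
    linarith
  have hRs0 : 0 < WR K R := by
    unfold WR
    positivity
  have hsm : ∀ t0 : ℝ, SubIn (frc c p.F) (ball 0 (2 * WR K R)) t0 (arr true Tm) := S.sub_m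
  have hsp : ∀ t0 : ℝ, SubIn (frc c p.F) (ball 0 (2 * WR K R)) t0 (arr true Tp) := S.sub_p
  have hquart : ∀ x : V, ‖x - gp n‖ / (8 * K) + ‖x - gp n‖ / (8 * K) = ‖x - gp n‖ / (4 * K) := by
    intro x
    field_simp
    ring
  have side1 := offE_side S.env D.cl D.iff hRs hRs0 hLx hsm hsp hK hd0 hth0 hg0 hbase hF.le_lo
    hbdd hfar hsec (by
      intro x hx hxd hx1
      have h1 := abs_le.1 (herrm x hx hxd)
      have h2 := abs_le.1 (herrp x hx hxd)
      have h3 := hquart x
      linarith [h1.1, h2.2])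
  have side2 := offE_side (P1 := Pp) (P2 := Pm) (y := gp n) (t1 := t1) S.env D.cl D.iff hRs hRs0
    (fun x => by rw [hLx x, max_comm]) hsp hsm hK hd0 hth0 hg0 hbase hF.le_lo
    hbdd hfar (fun x hx hx1 => by rw [abs_sub_comm]; exact hsec x hx hx1) (by
      intro x hx hxd hx1
      have h1 := abs_le.1 (herrm x hx hxd)
      have h2 := abs_le.1 (herrp x hx hxd)
      have h3 := hquart x
      linarith [h1.2, h2.1])
  obtain ⟨x, hx, hx1⟩ := hF.ex hth _ hm0
  have hx2 : L x ≤ t1 := by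
    rw [ht1]
    exact hx1.le
  have k1 := side1 x hx hx2
  have k2 := side2 x hx hx2
  have k3 := hsec x hx hx2
  have k4 := hfar x hx hx2
  have k5 : (inner ℝ Pm (x - gp n) : ℝ) - inner ℝ Pp (x - gp n) = 0 := by
    push Not at k1 k2
    linarith
  rw [k5, abs_zero] at k3
  have k6 : 0 < 2 * ‖x - gp n‖ / (3 * K) := by
    have : 0 < ‖x - gp n‖ := by linarith
    positivity
  linarith

end Pool.Agent.FCF
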