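import Pool.Agent.FCF.WgBaseO
import Pool.Agent.FCF.Fill

/-!
# FCF / WgOffO: overtaking starts near the tip (FCF_PROOF.md, 8.1, O-case)
-/

set_option autoImplicit false

namespace Pool.Agent.FCF

open Pool.Agent.VSC (V J LowJet)
open Set Metric

private theorem offO_side {p : Par} {c : V → ℝ} (henv : p.Env c) {B0 : Set V} (hB : IsClosed B0)
    {b : V → ℝ} (hiff : ∀ x t, 0 < t → (t ≤ b x ↔ x ∈ E (fun x => -frc c p.F x) B0 t))
    {Rs Rs' : ℝ} (hRs : Rs' < Rs) (hRs0 : 0 < Rs) {T1 T2 L : V → ℝ} {q1 q2 : ℝ}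
    (hL : ∀ x, L x = min (T1 x - q1) (T2 x - q2))
    (sub1 : ∀ t0 : ℝ, SubIn (fun x => -frc c p.F x) (ball 0 (2 * Rs)) t0 (arr false T1))
    (sub2 : ∀ t0 : ℝ, SubIn (fun x => -frc c p.F x) (ball 0 (2 * Rs)) t0 (arr false T2))
    {g th t1 d K : ℝ} {e y P1 P2 : V} (hK : 0 < K) (hd : 0 < d) (hg : 0 ≤ g) (hgth : g < th)
    (hhigh : ∀ x : V, ‖x‖ ≤ Rs → th ≤ L x → 0 < (inner ℝ x e : ℝ))
    (hlow : ∀ x ∈ OvO Rs e b L g, th ≤ b x + g)
    (hbdd : ∀ x ∈ OvO Rs e b L g, b x + g < t1 → ‖x‖ ≤ Rs')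
    (hfar : ∀ x ∈ OvO Rs e b L g, b x + g < t1 → d ≤ ‖x - y‖)
    (hsec : ∀ x ∈ OvO Rs e b L g, b x + g < t1 →
      2 * ‖x - y‖ / (3 * K) ≤ |(inner ℝ P1 (x - y) : ℝ) - inner ℝ P2 (x - y)|)
    (hdom : ∀ x : V, ‖x‖ ≤ Rs → d / 2 ≤ ‖x - y‖ →
      ‖x - y‖ / (4 * K) < (inner ℝ P2 (x - y) : ℝ) - inner ℝ P1 (x - y) →
      T1 x - q1 ≤ T2 x - q2) :
    ∀ x ∈ OvO Rs e b L g, b x + g < t1 →
      ¬ (inner ℝ P1 (x - y) : ℝ) < inner ℝ P2 (x - y) := by
  intro x0 hx0 hx1 hx2
  have hmed : Med p.M p.L (fun x => -frc c p.F x) := by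
    refine ⟨henv.med.one_le, henv.med.one_le', fun x => ?_, fun x z => ?_⟩
    · rw [abs_neg]
      exact henv.med.bd x
    · have := henv.med.lip z x
      rw [norm_sub_rev] at this
      have h2 : -frc c p.F x - -frc c p.F z = frc c p.F z - frc c p.F x := by ring
      rw [h2]
      exact this
  obtain ⟨CL, hCL⟩ : ∃ CL : Set (V × ℝ), CL = {z | z.1 ∈ OvO Rs e b L g ∧ b z.1 + g < z.2 ∧
      z.2 ≤ t1 ∧ z.2 ≤ L z.1 ∧ (inner ℝ P1 (z.1 - y) : ℝ) < inner ℝ P2 (z.1 - y)} := ⟨_, rfl⟩
  have hflow : ∀ (x : V) (t : ℝ), (x, t) ∈ Flow (fun x => -frc c p.F x) B0 ↔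
      x ∈ E (fun x => -frc c p.F x) B0 t := fun _ _ => Iff.rfl
  -- the closed set containing CL
  have hF : closure CL ⊆ {z : V × ℝ | z.2 ≤ t1 ∧ ‖z.1‖ ≤ Rs' ∧
      th ≤ z.2 ∧ d ≤ ‖z.1 - y‖ ∧
      2 * ‖z.1 - y‖ / (3 * K) ≤ (inner ℝ P2 (z.1 - y) : ℝ) - inner ℝ P1 (z.1 - y)} := by
    refine closure_minimal ?_ ?_
    · intro z hz
      rw [hCL] at hz
      obtain ⟨h1, h2, h3, h4, h5⟩ := hz
      have h6 : b z.1 + g < t1 := h2.trans_le h3
      have h7 := hsec z.1 h1 h6
      rw [abs_of_neg (by linarith)] at h7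
      exact ⟨h3, hbdd z.1 h1 h6, (hlow z.1 h1).trans h2.le, hfar z.1 h1 h6, by linarith⟩
    · refine IsClosed.and (isClosed_le (by fun_prop) (by fun_prop)) ?_
      refine IsClosed.and (isClosed_le (by fun_prop) (by fun_prop)) ?_
      refine IsClosed.and (isClosed_le (by fun_prop) (by fun_prop)) ?_
      refine IsClosed.and (isClosed_le (by fun_prop) (by fun_prop)) ?_
      exact isClosed_le (by fun_prop) (by fun_prop)
  have hS1 : SubIn (fun x => -frc c p.F x) (ball 0 (2 * Rs)) 0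
      {z : V × ℝ | (z.1, z.2 + q1) ∈ arr false T1} := (sub1 (0 + q1)).shift_time q1
  have hS2 : SubIn (fun x => -frc c p.F x) (ball 0 (2 * Rs)) 0
      {z : V × ℝ | (z.1, z.2 + q2) ∈ arr false T2} := (sub2 (0 + q2)).shift_time q2
  have harr1 : ∀ (x : V) (t : ℝ), (x, t) ∈ {z : V × ℝ | (z.1, z.2 + q1) ∈ arr false T1} ↔
      t ≤ T1 x - q1 := by
    intro x t
    simp only [mem_ofPred_eq, arr, Bool.false_eq_true, if_false]
    constructor <;> intro h <;> linarith
  have harr2 : ∀ (x : V) (t : ℝ), (x, t) ∈ {z : V × ℝ | (z.1, z.2 + q2) ∈ arr false T2} ↔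
      t ≤ T2 x - q2 := by
    intro x t
    simp only [mem_ofPred_eq, arr, Bool.false_eq_true, if_false]
    constructor <;> intro h <;> linarith
  have hempty : CL = ∅ := by
    refine fill_in_sub hmed hB (-g) (U := ball 0 (2 * Rs)) (t0 := 0) hS1 (fun _ _ => le_rfl)
      ?_ ?_ ?_
    · intro x t hz
      rw [hCL] at hz
      obtain ⟨h1, h2, h3, h4, h5⟩ := hz
      simp only at h1 h2 h3 h4 h5
      have h6 := (hlow x h1).trans h2.le
      refine ⟨?_, ?_, by linarith, by linarith, ?_⟩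
      · rw [harr1]
        rw [hL] at h4
        exact h4.trans (min_le_left _ _)
      · rw [mem_ball_zero_iff]
        have := h1.1
        linarith
      · rw [hflow, ← hiff x (t + -g) (by linarith)]
        push Not
        linarith
    · intro x t hz
      by_cases hfl : (x, t + -g) ∈ Flow (fun x => -frc c p.F x) B0
      · exact Or.inr hfl
      · left
        obtain ⟨h1, h2, h4, h5, h6⟩ := hF hz
        simp only at h1 h2 h4 h5 h6
        have h7 : b x < t + -g := by
          rw [hflow, ← hiff x (t + -g) (by linarith)] at hfl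
          push Not at hfl
          exact hfl
        have hxU : x ∈ ball (0 : V) (2 * Rs) := by
          rw [mem_ball_zero_iff]
          linarith
        have h9 : t ≤ T1 x - q1 := by
          rw [← harr1]
          refine hS1.closed x t hxU (by linarith) (closure_mono ?_ hz)
          intro z hz1
          rw [hCL] at hz1
          obtain ⟨k1, k2, k3, k4, k5⟩ := hz1
          have k6 := (hlow z.1 k1).trans k2.le
          refine ⟨?_, ?_⟩
          · have : (z.1, z.2) ∈ {z : V × ℝ | (z.1, z.2 + q1) ∈ arr false T1} := by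
              rw [harr1]
              rw [hL] at k4
              exact k4.trans (min_le_left _ _)
            exact this
          · simp only [mem_ofPred_eq]
            linarith
        have h10 : t ≤ T2 x - q2 := by
          rw [← harr2]
          refine hS2.closed x t hxU (by linarith) (closure_mono ?_ hz)
          intro z hz1
          rw [hCL] at hz1
          obtain ⟨k1, k2, k3, k4, k5⟩ := hz1
          have k6 := (hlow z.1 k1).trans k2.le
          refine ⟨?_, ?_⟩
          · have : (z.1, z.2) ∈ {z : V × ℝ | (z.1, z.2 + q2) ∈ arr false T2} := by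
              rw [harr2]
              rw [hL] at k4
              exact k4.trans (min_le_right _ _)
            exact this
          · simp only [mem_ofPred_eq]
            linarith
        have h11 : t ≤ L x := by
          rw [hL]
          exact le_min h9 h10
        have h8 : 0 < (inner ℝ x e : ℝ) := hhigh x (by linarith) (h4.trans h11)
        have h12 : 0 < 2 * ‖x - y‖ / (3 * K) := by
          have : 0 < ‖x - y‖ := by linarith
          positivity
        rw [hCL]
        exact ⟨⟨by linarith, h8, by linarith⟩, by simp only; linarith, h1, h11,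
          by simp only; linarith⟩
    · intro x t hz
      have hz' := subset_closure hz
      obtain ⟨f1, f2, f4, f5, f6⟩ := hF hz'
      simp only at f1 f2 f4 f5 f6
      rw [hCL] at hz
      obtain ⟨h1, h2, h3, h4, h5⟩ := hz
      simp only at h1 h2 h3 h4 h5
      have hnf : (x, t + -g) ∉ Flow (fun x => -frc c p.F x) B0 := by
        rw [hflow, ← hiff x (t + -g) (by linarith)]
        push Not
        linarith
      -- neighbourhoods
      have hxy : 0 < ‖x - y‖ := by linarith
      have n1 : ∀ᶠ x' in nhds x, ‖x'‖ < Rs :=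
        (continuous_norm.continuousAt.eventually_lt continuousAt_const (by linarith))
      have n2 : ∀ᶠ x' in nhds x, 0 < (inner ℝ x' e : ℝ) :=
        continuousAt_const.eventually_lt (by fun_prop) h1.2.1
      have n3 : ∀ᶠ x' in nhds x, d / 2 < ‖x' - y‖ :=
        continuousAt_const.eventually_lt (by fun_prop) (by linarith)
      have n4 : ∀ᶠ x' in nhds x, ‖x' - y‖ / (4 * K) <
          (inner ℝ P2 (x' - y) : ℝ) - inner ℝ P1 (x' - y) := by
        have hK3 : ‖x - y‖ / (4 * K) < 2 * ‖x - y‖ / (3 * K) := by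
          rw [div_lt_div_iff₀ (by positivity) (by positivity)]
          nlinarith [mul_pos hxy hK]
        refine ContinuousAt.eventually_lt (by fun_prop) (by fun_prop) (by linarith)
      have n5 : ∀ᶠ z : V × ℝ in nhds (x, t + -g), z ∉ Flow (fun x => -frc c p.F x) B0 :=
        (isClosed_closure.isOpen_compl).mem_nhds hnf
      obtain ⟨r1, hr1, hr1'⟩ := Metric.eventually_nhds_iff.1 (n1.and (n2.and (n3.and n4)))
      obtain ⟨r2, hr2, hr2'⟩ := Metric.eventually_nhds_iff.1 n5
      refine ⟨min (min r1 r2) (th - g), lt_min (lt_min hr1 hr2) (by linarith), ?_⟩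
      intro x' s hx' hs1 hs2 hxs
      have hrr1 : ‖x' - x‖ < r1 := hx'.trans_le ((min_le_left _ _).trans (min_le_left _ _))
      have hrr2 : ‖x' - x‖ < r2 := hx'.trans_le ((min_le_left _ _).trans (min_le_right _ _))
      have hr3 : t - (th - g) < s := by
        have := min_le_right (min r1 r2) (th - g)
        linarith
      have hr4 : t - r2 < s := by
        have := (min_le_left (min r1 r2) (th - g)).trans (min_le_right r1 r2)
        linarith
      obtain ⟨m1, m2, m3, m4⟩ := hr1' (by rw [dist_eq_norm]; exact hrr1)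
      have m5 : (x', s + -g) ∉ Flow (fun x => -frc c p.F x) B0 := by
        refine hr2' ?_
        rw [Prod.dist_eq, max_lt_iff, dist_eq_norm, Real.dist_eq, abs_lt]
        refine ⟨hrr2, ?_, ?_⟩
        · simp only
          linarith
        · simp only
          linarith
      have m6 : b x' < s + -g := by
        rw [hflow, ← hiff x' (s + -g) (by linarith)] at m5
        push Not at m5
        exact m5
      rw [harr1] at hxs
      have m7 := hdom x' m1.le m3.le m4
      have m8 : s ≤ L x' := by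
        rw [hL]
        exact le_min hxs (hxs.trans m7)
      have m9 : 0 ≤ ‖x' - y‖ / (4 * K) := by positivity
      rw [hCL]
      exact ⟨⟨m1.le, m2, by linarith⟩, by simp only; linarith, by simp only; linarith, m8,
        by simp only; linarith⟩
  have hmem : (x0, min (L x0) t1) ∈ CL := by
    rw [hCL]
    have h1 := hx0.2.2
    exact ⟨hx0, lt_min (by linarith) hx1, min_le_right _ _, min_le_left _ _, hx2⟩
  rw [hempty] at hmem
  exact hmem

theorem wgO_off {p : Par} {P0 : Set V} {c : V → ℝ} {e Pm Pp A : V} {s1 s2 K : ℝ}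
    {b Tm Tp : V → ℝ} {Y : Set (ℤ × ℤ)} {Z : Finset (ℤ × ℤ)} {sg : ℝ} {k : ℕ} {R dl h0 : ℝ}
    {B0 : Set V} (S : WScene p P0 c e Pm Pp A s1 s2 K false b Tm Tp Y Z sg k R dl h0)
    (D : WDatO p c e K dl B0 b) {q g th w d : ℝ} (hq : |q| ≤ 3 * K ^ 2 * R) (hg : dl ≤ g)
    (hgth : g + dl ≤ th) (hth : th < 2 * K * R)
    (hF : IsFst (2 * K * R) (OvO (WR K R) e b (WLO Tm Tp e Pm Pp q) g) (fun x => b x + g) th)
    {n : ℤ × ℤ} (hn : n ∈ Y) (hwm : |Tm (gp n) - q * inner ℝ Pm (J e) - th| ≤ w)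
    (hwp : |Tp (gp n) - q * inner ℝ Pp (J e) - th| ≤ w)
    (hd : 24 * K * max w (sg * 2 ^ k) ≤ d) {eta : ℝ} (heta : 0 < eta) :
    ∃ z ∈ OvO (WR K R) e b (WLO Tm Tp e Pm Pp q) g, ‖z - gp n‖ < d ∧ b z + g < th + eta := by
  by_contra hcon
  push Not at hcon
  have hK1 := S.geo.K1
  have hK : 0 < K := by linarith
  have hsg := S.sg_pos
  have h2k : (0 : ℝ) < 2 ^ k := by positivity
  have hR : 0 < R := by
    have h1 := S.R_ge
    have h2 := S.dl_ge
    have h3 : 0 < 1000 * K ^ 5 * dl := by positivity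
    linarith
  have hK4 : (1 : ℝ) ≤ K ^ 4 := one_le_pow₀ hK1
  have hdl := S.dl_ge
  have hM1 : 0 < p.M1 := by
    unfold Par.M1
    have := p.hM
    linarith
  have hd0 : 0 < d := by
    have h1 : sg * 2 ^ k ≤ max w (sg * 2 ^ k) := le_max_right _ _
    have h2 : 0 < 24 * K * (sg * 2 ^ k) := by positivity
    have h3 : 24 * K * (sg * 2 ^ k) ≤ 24 * K * max w (sg * 2 ^ k) :=
      mul_le_mul_of_nonneg_left h1 (by positivity)
    linarith
  have hw1 : 24 * K * w ≤ d :=
    (mul_le_mul_of_nonneg_left (le_max_left _ _) (by positivity)).trans hd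
  have hw2 : 24 * K * (sg * 2 ^ k) ≤ d :=
    (mul_le_mul_of_nonneg_left (le_max_right _ _) (by positivity)).trans hd
  have hsgK : sg * (48 * K) ≤ 1 := by
    have := S.sg_le
    rwa [le_div_iff₀ (by positivity)] at this
  have hsg1 : sg ≤ 1 / 48 := by
    have h1 : sg * 48 ≤ sg * (48 * K) := by
      refine mul_le_mul_of_nonneg_left ?_ hsg.le
      linarith
    linarith
  have hdbig : 48 * K ^ 2 ≤ d := by
    have h1 := S.k_ge
    have h2 : sg ^ 2 * 2 ^ k ≤ sg * 2 ^ k := by
      have h3 : sg * (sg * 2 ^ k) ≤ 1 * (sg * 2 ^ k) :=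
        mul_le_mul_of_nonneg_right (by linarith) (by positivity)
      linarith
    have h4 : 24 * K * (3 * K) ≤ 24 * K * (sg * 2 ^ k) :=
      mul_le_mul_of_nonneg_left (h1.trans h2) (by positivity)
    have h5 : 0 ≤ K ^ 2 := by positivity
    linarith
  -- error of the linear approximation
  have herr : ∀ v : V, d / 2 ≤ ‖v‖ → w + sg ^ 2 * max ‖v‖ (2 ^ k) ≤ ‖v‖ / (8 * K) := by
    intro v hv
    have h1 : w ≤ ‖v‖ / (12 * K) := by
      rw [le_div_iff₀ (by positivity)]
      linarith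
    have h2 : sg ^ 2 * max ‖v‖ (2 ^ k) ≤ ‖v‖ / (24 * K) := by
      rw [le_div_iff₀ (by positivity)]
      rcases max_cases ‖v‖ ((2 : ℝ) ^ k) with ⟨h3, _⟩ | ⟨h3, _⟩
      · rw [h3]
        have h4 : sg * (sg * (48 * K)) * ‖v‖ ≤ sg * 1 * ‖v‖ :=
          mul_le_mul_of_nonneg_right (mul_le_mul_of_nonneg_left hsgK hsg.le) (norm_nonneg _)
        have h5 : sg * ‖v‖ ≤ 1 / 48 * ‖v‖ := mul_le_mul_of_nonneg_right hsg1 (norm_nonneg _)
        have h6 := norm_nonneg v
        linarith
      · rw [h3]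
        have h4 : sg * (24 * K * (sg * 2 ^ k)) ≤ sg * d := mul_le_mul_of_nonneg_left hw2 hsg.le
        have h5 : sg * d ≤ 1 / 48 * d := mul_le_mul_of_nonneg_right hsg1 hd0.le
        linarith
    have h7 : ‖v‖ / (12 * K) + ‖v‖ / (24 * K) = ‖v‖ / (8 * K) := by
      field_simp
      ring
    linarith
  have herrm : ∀ x : V, ‖x‖ ≤ WR K R → d / 2 ≤ ‖x - gp n‖ →
      |Tm x - q * inner ℝ Pm (J e) - th - inner ℝ Pm (x - gp n)| ≤ ‖x - gp n‖ / (8 * K) := by
    intro x hx hxd
    have h1 := S.pl_m n hn x hx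
    have h2 := herr (x - gp n) hxd
    have h3 : Tm x - q * inner ℝ Pm (J e) - th - inner ℝ Pm (x - gp n) =
        (Tm x - Tm (gp n) - inner ℝ Pm (x - gp n)) +
          (Tm (gp n) - q * inner ℝ Pm (J e) - th) := by ring
    rw [h3]
    refine (abs_add_le _ _).trans ?_
    linarith
  have herrp : ∀ x : V, ‖x‖ ≤ WR K R → d / 2 ≤ ‖x - gp n‖ →
      |Tp x - q * inner ℝ Pp (J e) - th - inner ℝ Pp (x - gp n)| ≤ ‖x - gp n‖ / (8 * K) := by
    intro x hx hxd
    have h1 := S.pl_p n hn x hx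
    have h2 := herr (x - gp n) hxd
    have h3 : Tp x - q * inner ℝ Pp (J e) - th - inner ℝ Pp (x - gp n) =
        (Tp x - Tp (gp n) - inner ℝ Pp (x - gp n)) +
          (Tp (gp n) - q * inner ℝ Pp (J e) - th) := by ring
    rw [h3]
    refine (abs_add_le _ _).trans ?_
    linarith
  obtain ⟨t1, ht1⟩ : ∃ t1, t1 = th + min (min (eta / 2) (1 / (2 * p.M1))) 1 := ⟨_, rfl⟩
  have hm0 : 0 < min (min (eta / 2) (1 / (2 * p.M1))) 1 := by
    refine lt_min (lt_min (by positivity) (by positivity)) one_pos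
  have hm1 : min (min (eta / 2) (1 / (2 * p.M1))) 1 ≤ eta / 2 :=
    (min_le_left _ _).trans (min_le_left _ _)
  have hm2 : min (min (eta / 2) (1 / (2 * p.M1))) 1 ≤ 1 / (2 * p.M1) :=
    (min_le_left _ _).trans (min_le_right _ _)
  have hm3 : min (min (eta / 2) (1 / (2 * p.M1))) 1 ≤ 1 := min_le_right _ _
  have hg0 : 0 ≤ g := by linarith
  obtain ⟨L, hL⟩ : ∃ L, L = WLO Tm Tp e Pm Pp q := ⟨_, rfl⟩
  rw [← hL] at hF hcon
  have hLx : ∀ x, L x = min (Tm x - q * inner ℝ Pm (J e)) (Tp x - q * inner ℝ Pp (J e)) := by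
    intro x
    rw [hL]
    rfl
  have hhigh : ∀ x : V, ‖x‖ ≤ WR K R → th ≤ L x → 0 < (inner ℝ x e : ℝ) := by
    intro x hx hx1
    rw [hL] at hx1
    exact wgO_high S hx (by linarith)
  have hbdd : ∀ x ∈ OvO (WR K R) e b L g, b x + g < t1 → ‖x‖ ≤ 8 * K ^ 4 * R := by
    intro x hx hx1
    rw [hL] at hx
    exact wgO_bdd S D hg0 hq hx (by linarith)
  have hfar : ∀ x ∈ OvO (WR K R) e b L g, b x + g < t1 → d ≤ ‖x - gp n‖ := by
    intro x hx hx1
    by_contra h
    push Not at h
    have := hcon x hx h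
    linarith
  have hyn := S.Y_le n hn
  have hRs : 8 * K ^ 4 * R < WR K R := by
    unfold WR
    have : 0 < K ^ 4 * R := by positivity
    linarith
  have hRs0 : 0 < WR K R := by
    unfold WR
    positivity
  have hsec : ∀ x ∈ OvO (WR K R) e b L g, b x + g < t1 →
      2 * ‖x - gp n‖ / (3 * K) ≤
        |(inner ℝ Pm (x - gp n) : ℝ) - inner ℝ Pp (x - gp n)| := by
    intro x hx hx1
    refine S.geo.sector_min ?_
    have h1 := hfar x hx hx1
    have h2 := herrm x hx.1 (by linarith)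
    have h3 := herrp x hx.1 (by linarith)
    have h4 := abs_min_sub_min_le_max (Tm x - q * inner ℝ Pm (J e) - th)
      (Tp x - q * inner ℝ Pp (J e) - th) (inner ℝ Pm (x - gp n) : ℝ) (inner ℝ Pp (x - gp n))
    have h5 : min (Tm x - q * inner ℝ Pm (J e) - th) (Tp x - q * inner ℝ Pp (J e) - th) =
        L x - th := by
      rw [hLx, min_sub_sub_right]
    rw [h5] at h4
    have h6 := h4.trans (max_le h2 h3)
    have h7 := hF.le_lo x hx
    have hLth : th < L x := by
      have := hx.2.2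
      linarith
    have h8 : 0 ≤ ‖x - gp n‖ / (24 * K) := by positivity
    have h9 : ‖x - gp n‖ / (8 * K) = 3 * (‖x - gp n‖ / (24 * K)) := by
      field_simp
      ring
    have h10 : ‖x - gp n‖ / (3 * K) = 8 * (‖x - gp n‖ / (24 * K)) := by
      field_simp
      ring
    have h6' := abs_le.1 h6
    rw [abs_le]
    refine ⟨by linarith [h6'.2], ?_⟩
    -- deep points
    by_contra hdeep
    push Not at hdeep
    obtain ⟨r, hr⟩ : ∃ r, r = ‖x - gp n‖ / (24 * K ^ 2) := ⟨_, rfl⟩
    have hK2 : 0 < K ^ 2 := by positivity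
    have hr2 : 2 ≤ r := by
      rw [hr, le_div_iff₀ (by positivity)]
      linarith
    have hrv : K * r = ‖x - gp n‖ / (24 * K) := by
      rw [hr]
      field_simp
    have hr24 : r * 24 ≤ ‖x - gp n‖ := by
      have hK2' : (1 : ℝ) ≤ K ^ 2 := one_le_pow₀ hK1
      have h11 : r * (24 * K ^ 2) = ‖x - gp n‖ := by
        rw [hr]
        field_simp
      have h12 : r * 24 * 1 ≤ r * 24 * K ^ 2 := mul_le_mul_of_nonneg_left hK2' (by linarith)
      linarith
    have hxn : ‖x - gp n‖ ≤ 8 * K ^ 4 * R + WR K R := by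
      refine (norm_sub_le _ _).trans ?_
      have := hbdd x hx hx1
      linarith
    have hsp1 : b x < th - g + (r - 1) / p.M1 := by
      have h11 : 1 / p.M1 ≤ (r - 1) / p.M1 :=
        div_le_div_of_nonneg_right (by linarith) hM1.le
      have h12 : 1 / (2 * p.M1) < 1 / p.M1 := by
        refine one_div_lt_one_div_of_lt hM1 (by linarith)
      linarith
    obtain ⟨z, hz1, hz2⟩ := wgO_speed S.env D (by linarith : 1 ≤ r) (by linarith) hsp1
    have hzn : ‖z‖ ≤ WR K R := by
      have h11 : ‖z‖ ≤ ‖z - x‖ + ‖x‖ := by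
        have := norm_add_le (z - x) x
        rwa [sub_add_cancel] at this
      have h12 := hbdd x hx hx1
      unfold WR at hxn ⊢
      linarith
    have hzy1 : ‖x - gp n‖ - r ≤ ‖z - gp n‖ := by
      have h11 : ‖x - gp n‖ ≤ ‖x - z‖ + ‖z - gp n‖ := by
        have := norm_add_le (x - z) (z - gp n)
        rwa [sub_add_sub_cancel] at this
      rw [norm_sub_rev] at hz1
      linarith
    have hzy2 : ‖z - gp n‖ ≤ ‖x - gp n‖ + r := by
      have h11 : ‖z - gp n‖ ≤ ‖z - x‖ + ‖x - gp n‖ := by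
        have := norm_add_le (z - x) (x - gp n)
        rwa [sub_add_sub_cancel] at this
      linarith
    have hzd : d / 2 ≤ ‖z - gp n‖ := by linarith
    have e2 := abs_le.1 (herrm z hzn hzd)
    have e3 := abs_le.1 (herrp z hzn hzd)
    have e4 : ‖z - gp n‖ / (8 * K) ≤ (‖x - gp n‖ + ‖x - gp n‖ / 24) / (8 * K) :=
      div_le_div_of_nonneg_right (by linarith) (by positivity)
    have e5 : (‖x - gp n‖ + ‖x - gp n‖ / 24) / (8 * K) =
        25 / 24 * (3 * (‖x - gp n‖ / (24 * K))) := by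
      field_simp
      ring
    have e6 : |(inner ℝ Pm (z - x) : ℝ)| ≤ K * r :=
      (S.geo.abs_m _).trans (mul_le_mul_of_nonneg_left hz1 hK.le)
    have e7 : |(inner ℝ Pp (z - x) : ℝ)| ≤ K * r :=
      (S.geo.abs_p _).trans (mul_le_mul_of_nonneg_left hz1 hK.le)
    have e8 : (inner ℝ Pm (z - gp n) : ℝ) = inner ℝ Pm (z - x) + inner ℝ Pm (x - gp n) := by
      rw [← inner_add_right, sub_add_sub_cancel]
    have e9 : (inner ℝ Pp (z - gp n) : ℝ) = inner ℝ Pp (z - x) + inner ℝ Pp (x - gp n) := by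
      rw [← inner_add_right, sub_add_sub_cancel]
    have e10 := lt_min_iff.1 hdeep
    have e11 := (abs_le.1 e6).1
    have e12 := (abs_le.1 e7).1
    have hv24 : 0 < ‖x - gp n‖ / (24 * K) := by
      have : 0 < ‖x - gp n‖ := by linarith
      positivity
    have hLz : th < L z := by
      rw [hLx]
      refine lt_min ?_ ?_
      · linarith [e2.1, e10.1]
      · linarith [e3.1, e10.2]
    have hze := hhigh z hzn hLz.le
    have hzO : z ∈ OvO (WR K R) e b L g := ⟨hzn, hze, by linarith⟩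
    have := hF.le_lo z hzO
    linarith
  have hsm : ∀ t0 : ℝ, SubIn (fun x => -frc c p.F x) (ball 0 (2 * WR K R)) t0 (arr false Tm) :=
    S.sub_m
  have hsp : ∀ t0 : ℝ, SubIn (fun x => -frc c p.F x) (ball 0 (2 * WR K R)) t0 (arr false Tp) :=
    S.sub_p
  have hquart : ∀ x : V, ‖x - gp n‖ / (8 * K) + ‖x - gp n‖ / (8 * K) = ‖x - gp n‖ / (4 * K) := by
    intro x
    field_simp
    ring
  have side1 := offO_side (P1 := Pm) (P2 := Pp) (y := gp n) (t1 := t1) S.env D.cl D.iff hRs hRs0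
    hLx hsm hsp hK hd0 hg0 (by linarith) hhigh hF.le_lo
    hbdd hfar hsec (by
      intro x hx hxd hx1
      have h1 := abs_le.1 (herrm x hx hxd)
      have h2 := abs_le.1 (herrp x hx hxd)
      have h3 := hquart x
      linarith [h1.2, h2.1])
  have side2 := offO_side (P1 := Pp) (P2 := Pm) (y := gp n) (t1 := t1) S.env D.cl D.iff hRs hRs0
    (fun x => by rw [hLx x, min_comm]) hsp hsm hK hd0 hg0 (by linarith) hhigh hF.le_lo
    hbdd hfar (fun x hx hx1 => by rw [abs_sub_comm]; exact hsec x hx hx1) (by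
      intro x hx hxd hx1
      have h1 := abs_le.1 (herrm x hx hxd)
      have h2 := abs_le.1 (herrp x hx hxd)
      have h3 := hquart x
      linarith [h1.1, h2.2])
  obtain ⟨x, hx, hx1⟩ := hF.ex hth _ hm0
  have hx2 : b x + g < t1 := by
    rw [ht1]
    exact hx1
  have k1 := side1 x hx hx2
  have k2 := side2 x hx hx2
  have k3 := hsec x hx hx2
  have k4 := hfar x hx hx2
  have k5 : (inner ℝ Pm (x - gp n) : ℝ) - inner ℝ Pp (x - gp n) = 0 := by
    push Not at k1 k2
    linarith
  rw [k5, abs_zero] at k3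
  have k6 : 0 < 2 * ‖x - gp n‖ / (3 * K) := by
    have : 0 < ‖x - gp n‖ := by linarith
    positivity
  linarith

end Pool.Agent.FCF
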