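import Pool.Agent.FCF.WgWin
import Pool.Agent.FCF.WgFine

/-!
# FCF / WgSetup: scenes exist along a subsequence

PROOF. `φ` from `hc.w2 e .. hcan` (`.1` for `TE`, `.2` for `TO`) for the sequence `R`. Given `sg del th0 eta`: put `KW = 32 K⁴`, so `WR K R = KW R`. `k1` = maximum of: `k1` of `use_win` for `Pm` and for `Pp`
(`eps = min (sg²) (th0/KW)`, `del/(4 KW²)`), `k1` of `use_fine` (`K := KW`, `del/4`), `k2` of `W2` (`eps := sg²`, `del/4`, `eta`, `Kq := KW`), and `k` with `3K ≤ sg² 2^k`, `C ≤ 2^k`. For `k ≥ k1`: `n0` from all `rho0`, `R0`, `n0`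
(`R (φ n) → ∞`), and `2^k ≤ th0 R`, `3 ≤ th0 R`, `0 < R`. `dl = th0 R`, `h0 = eta R`.
`Zm`, `Zp` from `use_win` (`rho = WR K R`); `Zf` = the grid points with `‖gp n‖ ≤ WR` and `∃ r ≥ 2^k, ¬ fine` (`finite_grid`), `Zw` = those with `‖gp n‖ ≤ WR`, `eta R ≤ gp n . e` which have no `Q` as in `W2`
(`|gp n i| ≤ ‖gp n‖`). `Z = Zm ∪ Zp ∪ Zf ∪ Zw`, card `≤ del R²`. `Y` = the grid points with `‖gp n‖ ≤ WR`, not in `Zm`, `Zp`, fine for all `r ≥ 2^k`, and with a `Q` as in `W2`.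
`b_fi`: `hcan.clE` / `hcan.clO` (`C ≤ 2^k ≤ r`, `1 ≤ r`), `p.C3 ≤ K`. `card`: `del R² < (th0 R)²` from `hdel2`.
-/

set_option autoImplicit false

namespace Pool.Agent.FCF

open Pool.Agent.VSC (V J LowJet)
open Set Metric Filter

theorem wg_setup {p : Par} {P0 : Set V} {c : V → ℝ} (hc : Typ p P0 c) {e Pm Pp A : V}
    {s1 s2 K : ℝ} (G : WGeo P0 e Pm Pp A s1 s2 K) {A0 B0 : Set V} {TE TO : V → ℝ} {C g : ℝ}
    (hcan : Canon p c e A0 B0 TE TO C g) (h3 : p.C3 ≤ K) (h1 : p.M1 ≤ K) (bo : Bool) {R : ℕ → ℝ}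
    (hR : Tendsto R atTop atTop) :
    ∃ φ : ℕ → ℕ, StrictMono φ ∧ ∀ sg del th0 eta : ℝ, 0 < sg → sg ≤ 1 / (48 * K) → 0 < del →
      0 < th0 → 1000 * K ^ 5 * th0 ≤ 1 → del < th0 ^ 2 → 0 < eta →
      ∃ k1 : ℕ, ∀ k : ℕ, k1 ≤ k → ∃ n0 : ℕ, ∀ n : ℕ, n0 ≤ n →
        ∃ (Tm Tp : V → ℝ) (Y : Set (ℤ × ℤ)) (Z : Finset (ℤ × ℤ)),
          WScene p P0 c e Pm Pp A s1 s2 K bo (if bo then TE else TO) Tm Tp Y Z sg k (R (φ n))
            (th0 * R (φ n)) (eta * R (φ n)) ∧ (Z.card : ℝ) ≤ del * R (φ n) ^ 2 := by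
  classical
  have hK1 := G.K1
  have hw2 := hc.w2 e G.he A0 B0 TE TO C g hcan
  set b : V → ℝ := if bo then TE else TO with hb
  have hwb : W2 P0 e b := by
    cases bo
    · simpa [hb] using hw2.2
    · simpa [hb] using hw2.1
  have hcl : ∀ x r, 1 ≤ r → p.fine c x r → C ≤ r →
      ∀ y z, ‖y - x‖ < 9 * r → ‖z - x‖ < 9 * r → |b y - b z| ≤ p.C3 * r := by
    intro x r hr hf hCr y z hy hz
    cases bo
    · simpa [hb] using hcan.clO x r hr hf (Or.inl hCr) y z hy hz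
    · simpa [hb] using hcan.clE x r hr hf (Or.inl hCr) y z hy hz
  obtain ⟨φ, hφ, hW⟩ := hwb R hR
  refine ⟨φ, hφ, fun sg del th0 eta hsg hsg1 hdel hth0 hth1 hdel2 heta => ?_⟩
  set KW : ℝ := 32 * K ^ 4 with hKW
  have hKW1 : 1 ≤ KW := by
    have : (1 : ℝ) ≤ K ^ 4 := one_le_pow₀ hK1
    rw [hKW]; linarith
  have hKW0 : 0 < KW := by linarith
  have heps0 : 0 < min (sg ^ 2) (th0 / KW) := lt_min (by positivity) (by positivity)
  have hdel0 : 0 < del / (4 * KW ^ 2) := by positivity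
  obtain ⟨km, hkm⟩ := use_win hc G.hPm bo heps0 hdel0
  obtain ⟨kp, hkp⟩ := use_win hc G.hPp bo heps0 hdel0
  obtain ⟨kf, hkf⟩ := use_fine hc G.he (K := KW) (del := del / 4) hKW0.le (by positivity)
  obtain ⟨kw, hkw⟩ := hW (sg ^ 2) (by positivity) (del / 4) (by positivity) eta heta KW hKW1
  have hpow : Tendsto (fun k : ℕ => (2 : ℝ) ^ k) atTop atTop :=
    tendsto_pow_atTop_atTop_of_one_lt (by norm_num)
  obtain ⟨k3, hk3⟩ := (hpow.eventually_ge_atTop (3 * K / sg ^ 2)).exists_forall_of_atTop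
  obtain ⟨k4, hk4⟩ := (hpow.eventually_ge_atTop C).exists_forall_of_atTop
  refine ⟨max (max (max km kp) (max kf kw)) (max k3 k4), fun k hk => ?_⟩
  have hk' : km ≤ k ∧ kp ≤ k ∧ kf ≤ k ∧ kw ≤ k ∧ k3 ≤ k ∧ k4 ≤ k := by
    simp only [max_le_iff] at hk
    omega
  obtain ⟨q1, q2, q3, q4, q5, q6⟩ := hk'
  obtain ⟨rm, hrm⟩ := hkm k q1
  obtain ⟨rp, hrp⟩ := hkp k q2
  obtain ⟨Rf, hRf⟩ := hkf k q3
  obtain ⟨nw, hnw⟩ := hkw k q4
  have hk3' : 3 * K ≤ sg ^ 2 * 2 ^ k := by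
    have := hk3 k q5
    rw [div_le_iff₀ (by positivity)] at this
    linarith
  have hk4' : C ≤ 2 ^ k := hk4 k q6
  have hRφ : Tendsto (fun n => R (φ n)) atTop atTop := hR.comp hφ.tendsto_atTop
  obtain ⟨n1, hn1⟩ := (hRφ.eventually_ge_atTop
    (max (max (max rm rp) Rf) (max (max (2 ^ k / th0) (3 / th0)) 1))).exists_forall_of_atTop
  refine ⟨max n1 nw, fun n hn => ?_⟩
  set Rn : ℝ := R (φ n) with hRn
  have hRb := hn1 n (le_trans (le_max_left _ _) hn)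
  simp only [max_le_iff] at hRb
  obtain ⟨⟨⟨a1, a2⟩, a3⟩, ⟨a4, a5⟩, a6⟩ := hRb
  have hR0 : 0 < Rn := by linarith
  have hWR : WR K Rn = KW * Rn := rfl
  have hKR : Rn ≤ KW * Rn := by nlinarith
  have hdl1 : (2 : ℝ) ^ k ≤ th0 * Rn := by
    rw [div_le_iff₀ hth0] at a4
    linarith
  have hdl2 : 3 ≤ th0 * Rn := by
    rw [div_le_iff₀ hth0] at a5
    linarith
  obtain ⟨Tm, Zm, m1, m2, m3, m4, _⟩ := hrm (WR K Rn) (by rw [hWR]; linarith)
  obtain ⟨Tp, Zp, p1, p2, p3, p4, _⟩ := hrp (WR K Rn) (by rw [hWR]; linarith)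
  let PlQ : ℤ × ℤ → Prop := fun m => ∃ Q : V, (∃ P ∈ P0, ‖Q - P‖ < sg ^ 2) ∧ ∀ z : V,
    ‖z - gp m‖ ≤ 2 ^ k → |b z - b (gp m) - inner ℝ Q (z - gp m)| ≤ sg ^ 2 * 2 ^ k
  let Y : Set (ℤ × ℤ) := {m | ‖gp m‖ ≤ WR K Rn ∧ m ∉ Zm ∧ m ∉ Zp ∧
    (∀ r : ℝ, 2 ^ k ≤ r → p.fine c (gp m) r) ∧ PlQ m}
  let Zf : Finset (ℤ × ℤ) := (finite_grid (WR K Rn)).toFinset.filter
    (fun m => ∃ r : ℝ, 2 ^ k ≤ r ∧ ¬ p.fine c (gp m) r)
  let Zw : Finset (ℤ × ℤ) := (finite_grid (WR K Rn)).toFinset.filter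
    (fun m => eta * Rn ≤ inner ℝ (gp m) e ∧ ¬ PlQ m)
  have cf : (Zf.card : ℝ) ≤ del / 4 * Rn ^ 2 := by
    refine hRf Rn a3 Zf fun m hm => ?_
    rw [Finset.mem_filter, Set.Finite.mem_toFinset] at hm
    exact ⟨hm.1, hm.2⟩
  have cw : (Zw.card : ℝ) ≤ del / 4 * Rn ^ 2 := by
    refine hnw n (le_trans (le_max_right _ _) hn) Zw fun m hm => ?_
    rw [Finset.mem_filter, Set.Finite.mem_toFinset] at hm
    obtain ⟨h5, h6, h7⟩ := hm
    refine ⟨fun i => ?_, h6, h7⟩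
    have h8 : ‖gp m i‖ ≤ ‖gp m‖ := PiLp.norm_apply_le (gp m) i
    rw [Real.norm_eq_abs] at h8
    exact h8.trans h5
  have hquart : del / (4 * KW ^ 2) * (WR K Rn) ^ 2 = del / 4 * Rn ^ 2 := by
    rw [hWR]
    field_simp
  rw [hquart] at m3 p3
  have hcard : ((Zm ∪ Zp ∪ Zf ∪ Zw).card : ℝ) ≤ del * Rn ^ 2 := by
    have c1 : (Zm ∪ Zp ∪ Zf ∪ Zw).card ≤ Zm.card + Zp.card + Zf.card + Zw.card := by
      refine (Finset.card_union_le _ _).trans ?_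
      refine Nat.add_le_add_right ?_ _
      refine (Finset.card_union_le _ _).trans ?_
      exact Nat.add_le_add_right (Finset.card_union_le _ _) _
    have c2 : ((Zm ∪ Zp ∪ Zf ∪ Zw).card : ℝ) ≤ Zm.card + Zp.card + Zf.card + Zw.card := by
      exact_mod_cast c1
    linarith
  have hpl : ∀ x : ℝ, 0 ≤ x → min (sg ^ 2) (th0 / KW) * x ≤ sg ^ 2 * x := fun x hx =>
    mul_le_mul_of_nonneg_right (min_le_left _ _) hx
  have hgl : min (sg ^ 2) (th0 / KW) * WR K Rn ≤ th0 * Rn := by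
    calc min (sg ^ 2) (th0 / KW) * WR K Rn ≤ th0 / KW * WR K Rn :=
          mul_le_mul_of_nonneg_right (min_le_right _ _) (by rw [hWR]; positivity)
      _ = th0 * Rn := by rw [hWR]; field_simp
  refine ⟨Tm, Tp, Y, Zm ∪ Zp ∪ Zf ∪ Zw, ?_, hcard⟩
  have hRge : 1000 * K ^ 5 * (th0 * Rn) ≤ Rn := by
    have := mul_le_mul_of_nonneg_right hth1 hR0.le
    linarith
  refine
    { geo := G
      env := hc.env
      M1K := h1
      sg_pos := hsg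
      sg_le := hsg1
      k_ge := hk3'
      k_le := hdl1
      dl_ge := hdl2
      R_ge := hRge
      h0_nonneg := by positivity
      sub_m := m1
      sub_p := p1
      gl_m := fun x hx => (m2 x hx).trans hgl
      gl_p := fun x hx => (p2 x hx).trans hgl
      pl_m := fun m hm z hz => (m4 m hm.1 hm.2.1 z hz).trans
        (hpl _ ((norm_nonneg _).trans (le_max_left _ _)))
      pl_p := fun m hm z hz => (p4 m hm.1 hm.2.2.1 z hz).trans
        (hpl _ ((norm_nonneg _).trans (le_max_left _ _)))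
      Y_le := fun m hm => hm.1
      b_pl := fun m hm => hm.2.2.2.2
      b_fi := fun m hm r hr y z hy hz => ?_
      bad := fun m hm1 hm2 hm3 => ?_
      card := ?_ }
  · have hr1 : 1 ≤ r := le_trans hcan.one_le (hk4'.trans hr)
    refine (hcl (gp m) r hr1 (hm.2.2.2.1 r hr) (hk4'.trans hr) y z hy hz).trans ?_
    exact mul_le_mul_of_nonneg_right h3 (by linarith)
  · by_contra hcon
    simp only [Finset.mem_union, not_or] at hcon
    obtain ⟨⟨⟨z1, z2⟩, z3⟩, z4⟩ := hcon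
    refine hm3 ⟨hm1, z1, z2, fun r hr => ?_, ?_⟩
    · by_contra hnf
      refine z3 (Finset.mem_filter.2 ⟨?_, r, hr, hnf⟩)
      rw [Set.Finite.mem_toFinset]
      exact hm1
    · by_contra hnq
      refine z4 (Finset.mem_filter.2 ⟨?_, hm2, hnq⟩)
      rw [Set.Finite.mem_toFinset]
      exact hm1
  · refine lt_of_le_of_lt hcard ?_
    calc del * Rn ^ 2 < th0 ^ 2 * Rn ^ 2 := mul_lt_mul_of_pos_right hdel2 (by positivity)
      _ = (th0 * Rn) ^ 2 := by ring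

end Pool.Agent.FCF
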