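import Pool.Agent.FCF.WgCount
import Pool.Agent.FCF.FlowBasic

/-!
# FCF / WgWin: use of the window functions (global planarity, few bad grid points)

PROOF of `use_win`. `eps1 = eps/8`, `del1 = min (1/2) (del/36)`. `k1` from `hc.win P hP eps1 .. del1 ..`; let `k ≥ k1`, `x0` the base point: for all `J ≥ k` `WinP p (fun x => c (x0 + x)) P eps1 del1 k J`.
`n0 : ℤ × ℤ` = coordinatewise `round (-x0)`, so `‖x0 + gp n0‖ ≤ 1`. Let `rho ≥ rho0(x0, k)`: `rho ≥ ‖x0‖ + 2 + 2^k·4`, and `j ≥ k` with `rho + ‖x0‖ + 2 ≤ 2^j < 2 (rho + ‖x0‖ + 2) ≤ 3 rho`; `J = j + 2`.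
`T', Y'` from `WinP .. J` for `bo`; `y0 ∈ Y' ∩ box k` (density, `del1 < 1`); `T x = T' (x - x0) + const` with `T (x0 + gp y0) = P . (x0 + gp y0)`.
* subflow: `SubIn.shift_space (-x0)`, `SubIn.shift_time`, `{x | x - x0 ∈ oc J} ⊇ ball 0 (2 rho)`; `frc (fun x => c (x0 + x)) F (-x0 + x) = frc c F x`; cases on `bo`.
* planarity at the points `y' = x0 + gp n'`, `n' ∈ Y'`; a grid point `gp n` is within `1` of `y' = x0 + gp (n + n0) = gp n + (x0 + gp n0)`: for `n + n0 ∈ Y'`: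
  `|T z - T (gp n) - P.(z - gp n)| ≤ eps1 (max ‖z - y'‖ 2^k + max 1 2^k) ≤ 4 eps1 max ‖z - gp n‖ 2^k`.
* `Z = {n : ‖gp n‖ ≤ rho, n + n0 ∉ Y'}`: at most `del1 #(box j) ≤ del1 (2·2^j)² ≤ 36 del1 rho²`.
* global: `|T x - P.x| ≤ eps1 max ‖x - x0 - gp y0‖ 2^k ≤ eps1 · 3 rho`.
* coarse Lipschitz: `Win.cl` and `p.fine' (fun x => c (x0 + x)) x r ↔ p.fine' c (x0 + x) r` (`E_shift`).
-/

set_option autoImplicit false

namespace Pool.Agent.FCF

open Pool.Agent.VSC (V J LowJet)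
open Set Metric

private theorem wgWin_fine' {p : Par} {c : V → ℝ} (x0 x : V) (r : ℝ) (h : p.fine' c x r) :
    p.fine' (fun y => c (x0 + y)) (x - x0) r := by
  intro z hz
  have h1 := h (x0 + z) (by
    have : x0 + z - x = z - (x - x0) := by abel
    rw [this]
    exact hz)
  intro w hw
  have h2 : x0 + w ∈ closedBall (x0 + z) (10 * r) := by
    rw [mem_closedBall, dist_eq_norm] at hw ⊢
    have : x0 + w - (x0 + z) = w - z := by abel
    rw [this]
    exact hw
  have h3 := (E_shift (h := frc c p.F') (A := closedBall (x0 + z) r) x0 (p.sig * r) w).2 (h1 h2)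
  have h4 : {y : V | x0 + y ∈ closedBall (x0 + z) r} = closedBall z r := by
    ext y
    show x0 + y ∈ closedBall (x0 + z) r ↔ _
    rw [mem_closedBall, dist_eq_norm, mem_closedBall, dist_eq_norm]
    have : x0 + y - (x0 + z) = y - z := by abel
    rw [this]
  rw [h4] at h3
  exact h3

private theorem wgWin_norm_le (v : V) (a : ℝ) (h0 : |v 0| ≤ a) (h1 : |v 1| ≤ a) :
    ‖v‖ ≤ 2 * a := by
  have ha : 0 ≤ a := (abs_nonneg _).trans h0
  rw [EuclideanSpace.norm_eq, Fin.sum_univ_two]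
  rw [Real.norm_eq_abs, Real.norm_eq_abs]
  refine Real.sqrt_le_iff.2 ⟨by positivity, ?_⟩
  have h2 : |v 0| ^ 2 ≤ a ^ 2 := pow_le_pow_left₀ (abs_nonneg _) h0 2
  have h3 : |v 1| ^ 2 ≤ a ^ 2 := pow_le_pow_left₀ (abs_nonneg _) h1 2
  nlinarith

private theorem wgWin_abs_le (v : V) (i : Fin 2) : |v i| ≤ ‖v‖ := by
  have := PiLp.norm_apply_le v i
  rwa [Real.norm_eq_abs] at this

private theorem wgWin_gp_add (m n : ℤ × ℤ) : gp (m + n) = gp m + gp n := by
  ext i
  fin_cases i <;> simp [gp]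

private theorem wgWin_oc {v : V} {N : ℕ} (h : ‖v‖ < 2 ^ N) : v ∈ oc N := fun i =>
  lt_of_le_of_lt (wgWin_abs_le v i) h

theorem use_win {p : Par} {P0 : Set V} {c : V → ℝ} (hc : Typ p P0 c) {P : V} (hP : P ∈ P0)
    (bo : Bool) {eps del : ℝ} (heps : 0 < eps) (hdel : 0 < del) :
    ∃ k1 : ℕ, ∀ k : ℕ, k1 ≤ k → ∃ rho0 : ℝ, ∀ rho : ℝ, rho0 ≤ rho →
      ∃ (T : V → ℝ) (Z : Finset (ℤ × ℤ)),
        (∀ t0 : ℝ, SubIn (sgn bo (frc c p.F)) (ball 0 (2 * rho)) t0 (arr bo T)) ∧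
        (∀ x : V, ‖x‖ ≤ rho → |T x - inner ℝ P x| ≤ eps * rho) ∧
        (Z.card : ℝ) ≤ del * rho ^ 2 ∧
        (∀ n : ℤ × ℤ, ‖gp n‖ ≤ rho → n ∉ Z → ∀ z : V, ‖z‖ ≤ rho →
          |T z - T (gp n) - inner ℝ P (z - gp n)| ≤ eps * max ‖z - gp n‖ (2 ^ k)) ∧
        ∀ x r, 1 ≤ r → closedBall x (p.Cs * r) ⊆ ball 0 (2 * rho) → p.fine' c x r →
          ∀ y z, ‖y - x‖ < 9 * r → ‖z - x‖ < 9 * r → |T y - T z| ≤ p.C3 * r := by
  classical
  have hdel1 : 0 < min (1 / 2) (del / 36) := lt_min (by norm_num) (by positivity)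
  obtain ⟨k1, hk1⟩ := hc.win P hP (eps / 8) (by positivity) (min (1 / 2) (del / 36)) hdel1
  refine ⟨k1, fun k hk => ?_⟩
  obtain ⟨x0, hx0⟩ := hk1 k hk
  refine ⟨2 * (‖x0‖ + 2) + 4 * 2 ^ k, fun rho hrho => ?_⟩
  have hk0 : (1 : ℝ) ≤ 2 ^ k := one_le_pow₀ (by norm_num)
  have hn0 := norm_nonneg x0
  have hr1 : 2 * (‖x0‖ + 2) ≤ rho := by linarith
  have hr2 : 4 * 2 ^ k ≤ rho := by linarith
  obtain ⟨j0, hj0, hj1⟩ := exists_nat_pow_near (x := rho + ‖x0‖ + 2) (y := 2) (by linarith)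
    (by norm_num)
  set j := j0 + 1 with hj
  have hjle : (2 : ℝ) ^ j ≤ 3 * rho := by
    rw [hj, pow_succ]
    linarith
  have hkj : k ≤ j := by
    by_contra hcon
    have h1 : j ≤ k := by omega
    have h2 : (2 : ℝ) ^ j ≤ 2 ^ k := pow_le_pow_right₀ (by norm_num) h1
    linarith
  obtain ⟨T', Y', hW⟩ := hx0 (j + 2) (by omega) bo
  have hJ : (2 : ℝ) ^ (j + 2) = 4 * 2 ^ j := by rw [pow_add]; norm_num; ring
  -- a good grid point near the origin
  have hy0 : ∃ y0 ∈ box k, y0 ∈ Y' := by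
    by_contra hcon
    push Not at hcon
    have h1 := hW.dens k le_rfl (by omega)
    rw [Finset.filter_true_of_mem hcon] at h1
    have h2 : (0 : ℤ × ℤ) ∈ box k := by
      have h5 : (0 : ℤ) < 2 ^ k := by positivity
      simp [box, h5]
    have h3 : (0 : ℝ) < ((box k).card : ℝ) := by
      exact_mod_cast Finset.card_pos.2 ⟨_, h2⟩
    have h4 : min (1 / 2) (del / 36) ≤ (1 / 2 : ℝ) := min_le_left _ _
    nlinarith
  obtain ⟨y0, hy0b, hy0Y⟩ := hy0
  have hy0n : ‖gp y0‖ ≤ 2 * 2 ^ k := by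
    have h1 := hy0b
    rw [box, Finset.mem_product, Finset.mem_Ioo, Finset.mem_Ioo] at h1
    obtain ⟨⟨h2, h3⟩, ⟨h4, h5⟩⟩ := h1
    refine wgWin_norm_le _ _ ?_ ?_
    · have h6 : gp y0 0 = (y0.1 : ℝ) := by simp [gp]
      rw [h6, abs_le]
      constructor
      · have h9 : ((-(2 ^ k) : ℤ) : ℝ) ≤ ((y0.1 : ℤ) : ℝ) := Int.cast_le.2 h2.le
        rw [Int.cast_neg, Int.cast_pow, Int.cast_ofNat] at h9
        exact h9
      · have h9 : ((y0.1 : ℤ) : ℝ) ≤ ((2 ^ k : ℤ) : ℝ) := Int.cast_le.2 h3.le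
        rw [Int.cast_pow, Int.cast_ofNat] at h9
        exact h9
    · have h6 : gp y0 1 = (y0.2 : ℝ) := by simp [gp]
      rw [h6, abs_le]
      constructor
      · have h9 : ((-(2 ^ k) : ℤ) : ℝ) ≤ ((y0.2 : ℤ) : ℝ) := Int.cast_le.2 h4.le
        rw [Int.cast_neg, Int.cast_pow, Int.cast_ofNat] at h9
        exact h9
      · have h9 : ((y0.2 : ℤ) : ℝ) ≤ ((2 ^ k : ℤ) : ℝ) := Int.cast_le.2 h5.le
        rw [Int.cast_pow, Int.cast_ofNat] at h9
        exact h9
  have hy0oc : gp y0 ∈ oc (j + 2) := wgWin_oc (by rw [hJ]; linarith)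
  -- the integer shift
  set n0 : ℤ × ℤ := (round (-(x0 0)), round (-(x0 1))) with hn0def
  have hsh : ‖x0 + gp n0‖ ≤ 1 := by
    have h1 : |(x0 + gp n0) 0| ≤ 1 / 2 := by
      have h2 : (x0 + gp n0) 0 = -(-(x0 0) - (round (-(x0 0)) : ℝ)) := by
        simp [gp, hn0def]
        ring
      rw [h2, abs_neg]
      exact abs_sub_round _
    have h3 : |(x0 + gp n0) 1| ≤ 1 / 2 := by
      have h2 : (x0 + gp n0) 1 = -(-(x0 1) - (round (-(x0 1)) : ℝ)) := by
        simp [gp, hn0def]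
        ring
      rw [h2, abs_neg]
      exact abs_sub_round _
    have := wgWin_norm_le _ _ h1 h3
    linarith
  have hgn0 : ‖gp n0‖ ≤ ‖x0‖ + 1 := by
    have h1 : gp n0 = (x0 + gp n0) - x0 := by abel
    rw [h1]
    refine (norm_sub_le _ _).trans ?_
    linarith
  set a : ℝ := inner ℝ P (x0 + gp y0) - T' (gp y0) with ha
  have hoc : ∀ z : V, ‖z‖ ≤ rho → z - x0 ∈ oc (j + 2) := by
    intro z hz
    refine wgWin_oc ?_
    rw [hJ]
    have := norm_sub_le z x0
    linarith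
  have hbadfin : {n : ℤ × ℤ | ‖gp n‖ ≤ rho ∧ n + n0 ∉ Y'}.Finite :=
    (finite_grid rho).subset fun n hn => hn.1
  refine ⟨fun x => T' (x - x0) + a, hbadfin.toFinset, ?_, ?_, ?_, ?_, ?_⟩
  · intro t0
    have h1 := ((hW.sub (t0 + (-a))).shift_space (-x0)).shift_time (-a)
    have h2 := h1.restrict (U' := ball 0 (2 * rho)) (t0' := t0) (by
      intro x hx
      show -x0 + x ∈ oc (j + 2)
      refine wgWin_oc ?_
      rw [mem_ball_zero_iff] at hx
      rw [hJ]
      have h3 : ‖-x0 + x‖ ≤ ‖x0‖ + ‖x‖ := by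
        have := norm_add_le (-x0) x
        rwa [norm_neg] at this
      linarith) le_rfl
    have h3 : (fun x => sgn bo (frc (fun x => c (x0 + x)) p.F) (-x0 + x)) =
        sgn bo (frc c p.F) := by
      funext x
      cases bo <;> simp [sgn, frc]
    have h4 : {z : V × ℝ | (z.1, z.2 + -a) ∈ {z : V × ℝ | (-x0 + z.1, z.2) ∈ arr bo T'}} =
        arr bo (fun x => T' (x - x0) + a) := by
      ext z
      have h5 : -x0 + z.1 = z.1 - x0 := by abel
      cases bo
      · show z.2 + -a ≤ T' (-x0 + z.1) ↔ z.2 ≤ T' (z.1 - x0) + a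
        rw [h5]
        constructor <;> intro h <;> linarith
      · show T' (-x0 + z.1) ≤ z.2 + -a ↔ T' (z.1 - x0) + a ≤ z.2
        rw [h5]
        constructor <;> intro h <;> linarith
    rw [h3, h4] at h2
    exact h2
  · intro x hx
    have h1 := hW.plan y0 hy0Y hy0oc (x - x0) (hoc x hx)
    have h2 : T' (x - x0) + a - inner ℝ P x =
        T' (x - x0) - T' (gp y0) - inner ℝ P (x - x0 - gp y0) := by
      rw [ha, inner_add_right, inner_sub_right, inner_sub_right]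
      ring
    show |T' (x - x0) + a - inner ℝ P x| ≤ _
    rw [h2]
    refine h1.trans ?_
    have h3 : max ‖x - x0 - gp y0‖ (2 ^ k) ≤ 3 * rho := by
      refine max_le ?_ (by linarith)
      have h4 := norm_sub_le (x - x0) (gp y0)
      have h5 := norm_sub_le x x0
      linarith
    have h6 : eps / 8 * max ‖x - x0 - gp y0‖ (2 ^ k) ≤ eps / 8 * (3 * rho) :=
      mul_le_mul_of_nonneg_left h3 (by positivity)
    have h7 : 0 < rho := by linarith
    nlinarith
  · have h1 : hbadfin.toFinset.card ≤ ((box j).filter (fun n => n ∉ Y')).card := by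
      refine Finset.card_le_card_of_injOn (fun n => n + n0) ?_ ?_
      · intro n hn
        have hn' := (hbadfin.mem_toFinset).1 (Finset.mem_coe.1 hn)
        obtain ⟨h2, h3⟩ := hn'
        refine Finset.mem_coe.2 (Finset.mem_filter.2 ⟨?_, h3⟩)
        have h4 : ‖gp (n + n0)‖ < 2 ^ j := by
          rw [wgWin_gp_add]
          have := norm_add_le (gp n) (gp n0)
          linarith
        have h5 := lt_of_le_of_lt (wgWin_abs_le (gp (n + n0)) 0) h4
        have h6 := lt_of_le_of_lt (wgWin_abs_le (gp (n + n0)) 1) h4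
        have h7 : gp (n + n0) 0 = ((n + n0).1 : ℝ) := by simp [gp]
        have h8 : gp (n + n0) 1 = ((n + n0).2 : ℝ) := by simp [gp]
        rw [h7, abs_lt] at h5
        rw [h8, abs_lt] at h6
        rw [box, Finset.mem_product, Finset.mem_Ioo, Finset.mem_Ioo]
        refine ⟨⟨?_, ?_⟩, ⟨?_, ?_⟩⟩
        · refine (Int.cast_lt (R := ℝ)).1 ?_
          rw [Int.cast_neg, Int.cast_pow, Int.cast_ofNat]
          exact h5.1
        · refine (Int.cast_lt (R := ℝ)).1 ?_
          rw [Int.cast_pow, Int.cast_ofNat]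
          exact h5.2
        · refine (Int.cast_lt (R := ℝ)).1 ?_
          rw [Int.cast_neg, Int.cast_pow, Int.cast_ofNat]
          exact h6.1
        · refine (Int.cast_lt (R := ℝ)).1 ?_
          rw [Int.cast_pow, Int.cast_ofNat]
          exact h6.2
      · intro m _ n _ hmn
        exact add_right_cancel hmn
    have h2 := hW.dens j hkj (by omega)
    have h3 : ((box j).card : ℝ) ≤ (2 * 2 ^ j) ^ 2 := by
      have h4 : (box j).card = (2 ^ j - (-(2 ^ j : ℤ)) - 1).toNat *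
          (2 ^ j - (-(2 ^ j : ℤ)) - 1).toNat := by
        rw [box, Finset.card_product, Int.card_Ioo]
      have h5 : ((2 ^ j - (-(2 ^ j : ℤ)) - 1).toNat : ℝ) ≤ 2 * 2 ^ j := by
        have h6 : (((2 ^ j - (-(2 ^ j : ℤ)) - 1).toNat : ℤ) : ℝ) ≤ 2 * 2 ^ j := by
          have h7 : (0 : ℤ) ≤ 2 ^ j - (-(2 ^ j : ℤ)) - 1 := by
            have : (1 : ℤ) ≤ 2 ^ j := one_le_pow₀ (by norm_num)
            linarith
          rw [Int.toNat_of_nonneg h7]
          push_cast
          linarith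
        exact_mod_cast h6
      rw [h4]
      push_cast
      rw [sq]
      exact mul_le_mul h5 h5 (by positivity) (by positivity)
    have h4 : min (1 / 2) (del / 36) ≤ del / 36 := min_le_right _ _
    have h5 : (hbadfin.toFinset.card : ℝ) ≤
        (((box j).filter (fun n => n ∉ Y')).card : ℝ) := by exact_mod_cast h1
    have h6 : (2 * 2 ^ j : ℝ) ^ 2 ≤ 36 * rho ^ 2 := by
      have h7 : (2 * 2 ^ j : ℝ) ≤ 6 * rho := by linarith
      have h8 : (2 * 2 ^ j : ℝ) ^ 2 ≤ (6 * rho) ^ 2 := pow_le_pow_left₀ (by positivity) h7 2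
      linarith
    calc (hbadfin.toFinset.card : ℝ) ≤ min (1 / 2) (del / 36) * (box j).card := h5.trans h2
      _ ≤ del / 36 * (36 * rho ^ 2) :=
          mul_le_mul h4 (h3.trans h6) (by positivity) (by positivity)
      _ = del * rho ^ 2 := by ring
  · intro n hn hnZ z hz
    have hnY : n + n0 ∈ Y' := by
      by_contra hcon
      exact hnZ (hbadfin.mem_toFinset.2 ⟨hn, hcon⟩)
    have hgoc : gp (n + n0) ∈ oc (j + 2) := by
      refine wgWin_oc ?_
      rw [wgWin_gp_add, hJ]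
      have := norm_add_le (gp n) (gp n0)
      linarith
    have h1 := hW.plan (n + n0) hnY hgoc (z - x0) (hoc z hz)
    have h2 := hW.plan (n + n0) hnY hgoc (gp n - x0) (hoc (gp n) hn)
    have h3 : T' (z - x0) + a - (T' (gp n - x0) + a) - inner ℝ P (z - gp n) =
        (T' (z - x0) - T' (gp (n + n0)) - inner ℝ P (z - x0 - gp (n + n0))) -
        (T' (gp n - x0) - T' (gp (n + n0)) - inner ℝ P (gp n - x0 - gp (n + n0))) := by
      simp only [inner_sub_right]
      ring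
    show |T' (z - x0) + a - (T' (gp n - x0) + a) - inner ℝ P (z - gp n)| ≤ _
    rw [h3]
    refine (abs_sub _ _).trans ?_
    have h4 : ‖gp n - x0 - gp (n + n0)‖ ≤ 1 := by
      have h5 : gp n - x0 - gp (n + n0) = -(x0 + gp n0) := by
        rw [wgWin_gp_add]; abel
      rw [h5, norm_neg]
      exact hsh
    have h5 : ‖z - x0 - gp (n + n0)‖ ≤ ‖z - gp n‖ + 1 := by
      have h6 : z - x0 - gp (n + n0) = (z - gp n) + (gp n - x0 - gp (n + n0)) := by abel
      rw [h6]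
      exact (norm_add_le _ _).trans (by linarith)
    have h6 : max ‖z - x0 - gp (n + n0)‖ (2 ^ k) ≤ 2 * max ‖z - gp n‖ (2 ^ k) := by
      have h7 := le_max_left ‖z - gp n‖ ((2 : ℝ) ^ k)
      have h8 := le_max_right ‖z - gp n‖ ((2 : ℝ) ^ k)
      refine max_le ?_ (by linarith)
      linarith
    have h7 : max ‖gp n - x0 - gp (n + n0)‖ (2 ^ k) ≤ max ‖z - gp n‖ (2 ^ k) := by
      refine max_le ?_ (le_max_right _ _)
      exact (h4.trans hk0).trans (le_max_right _ _)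
    have h8 : 0 ≤ max ‖z - gp n‖ ((2 : ℝ) ^ k) := le_trans (norm_nonneg _) (le_max_left _ _)
    have h9 : (eps / 8) * max ‖z - x0 - gp (n + n0)‖ (2 ^ k) ≤
        (eps / 8) * (2 * max ‖z - gp n‖ (2 ^ k)) :=
      mul_le_mul_of_nonneg_left h6 (by positivity)
    have h10 : (eps / 8) * max ‖gp n - x0 - gp (n + n0)‖ (2 ^ k) ≤
        (eps / 8) * max ‖z - gp n‖ (2 ^ k) :=
      mul_le_mul_of_nonneg_left h7 (by positivity)
    have h11 : 0 ≤ eps * max ‖z - gp n‖ ((2 : ℝ) ^ k) := by positivity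
    linarith
  · intro x r hr hx hfi y z hy hz
    have h1 : closedBall (x - x0) (p.Cs * r) ⊆ oc (j + 2) := by
      intro w hw
      have h2 : w + x0 ∈ closedBall x (p.Cs * r) := by
        rw [mem_closedBall, dist_eq_norm] at hw ⊢
        have : w + x0 - x = w - (x - x0) := by abel
        rw [this]
        exact hw
      have h3 := hx h2
      rw [mem_ball_zero_iff] at h3
      refine wgWin_oc ?_
      have h4 : w = (w + x0) - x0 := by abel
      rw [h4, hJ]
      have := norm_sub_le (w + x0) x0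
      linarith
    have h2 := hW.cl (x - x0) r hr h1 (wgWin_fine' x0 x r hfi) (y - x0) (z - x0)
      (by rw [sub_sub_sub_cancel_right]; exact hy) (by rw [sub_sub_sub_cancel_right]; exact hz)
    show |T' (y - x0) + a - (T' (z - x0) + a)| ≤ _
    rw [add_sub_add_right_eq_sub]
    exact h2

end Pool.Agent.FCF
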