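import Pool.Agent.FCF.Stab

/-!
# FCF / WinLim: relaxed limits of arrival functions

PROOFS.
* `SubIn.congr_on`: `U` open, the conditions are local in space (`SubAt.congr`, closure at points of `U`).
* `stab_all`: `LimSet S` is closed (`isClosed_LimSet`), which gives `closed`.  `sub` at `(x,t)`, `t > t0`: take
  `t0' = t - 1` (any `t0' < t`): by `stab` the set `S' = LimSet (fun n => S n ∩ {t0' ≤ time})` satisfies the condition at `(x,t)`
  (`(x,t) ∈ S'` because points of `S n` near `(x,t)` have time `≥ t0'`), and `S'` and `LimSet S` coincide near `(x,t)`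
  (times `> t0'`): `SubAt.congr`.
* `exists_limit`: `Λ = LimSet (fun n => arr b (T n))`, `Tl x = sInf {t | (x,t) ∈ Λ}` (`b = true`) or `sSup` (`b = false`).
  For `x ∈ U` the slice is closed, an upper (lower) set (because `arr b (T n)` is), contains `t > B` (`t < -B`), and is contained in
  `[-B, ∞)` (`(-∞, B]`) (points of `arr b (T n)` near `x`, in the open `U`). So on `U`: `(x,t) ∈ Λ ↔ (x,t) ∈ arr b Tl`; `stab_all` for
  `sgn b` of the forcings (`Med` of `-h`), `SubIn.congr_on`.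
  Realising sequence: `exists_of_mem_LimSet` for `(x, Tl x)`: `w n = (y_n, t_n) ∈ arr b (T (φ n))`, `(y_n, t_n) → (x, Tl x)`; the values `T (φ n) y_n` are bounded by `B`
  (finally `y_n ∈ U`), and `≤ t_n` (`≥ t_n`); every limit point `τ` of them gives `(x,τ) ∈ Λ`, so `τ ≥ Tl x` (`≤`), hence they converge to `Tl x`. (Pass to a subsequence with `y_n ∈ U`.)
  Last statement: `(w n, T (φ n) (w n)) ∈ arr b (T (φ n))`, `mem_LimSet`.
-/

set_option autoImplicit false

namespace Pool.Agent.FCF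

open Pool.Agent.VSC (V J LowJet)
open Set Metric Filter Topology

theorem SubIn.congr_on {h : V → ℝ} {U : Set V} {t0 : ℝ} {S S' : Set (V × ℝ)} (hU : IsOpen U)
    (hs : ∀ x ∈ U, ∀ t : ℝ, (x, t) ∈ S ↔ (x, t) ∈ S') (h1 : SubIn h U t0 S) :
    SubIn h U t0 S' := by
  constructor
  · intro x t hx ht hxt
    refine (hs x hx t).1 (h1.closed x t hx ht ?_)
    rw [_root_.mem_closure_iff] at hxt ⊢
    intro W hW hxW
    obtain ⟨z, ⟨hz1, hz2⟩, hz3, hz4⟩ := hxt (W ∩ (U ×ˢ univ)) (hW.inter (hU.prod isOpen_univ))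
      ⟨hxW, hx, mem_univ _⟩
    exact ⟨z, hz1, (hs z.1 hz2.1 z.2).2 hz3, hz4⟩
  · intro x t hx ht hxt
    obtain ⟨r, hr, hb⟩ := Metric.isOpen_iff.1 hU x hx
    have h2 := h1.sub x t hx ht ((hs x hx t).2 hxt)
    refine (SubAt.congr ⟨r, hr, fun y u hy _ _ => hs y (hb ?_) u⟩).1 h2
    rw [mem_ball, dist_eq_norm]
    exact hy

theorem stab_all {M L : ℝ} {h : V → ℝ} {hn : ℕ → V → ℝ} (hm : Med M L h)
    (hmn : ∀ n, Med M L (hn n)) (hconv : ∀ x, Tendsto (fun n => hn n x) atTop (𝓝 (h x)))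
    {U : Set V} (hU : IsOpen U) {S : ℕ → Set (V × ℝ)} (hS : ∀ n t0, SubIn (hn n) U t0 (S n)) :
    ∀ t0, SubIn h U t0 (LimSet S) := by
  intro t0
  refine SubIn.of_closed (isClosed_LimSet S) fun x t hx _ hxt => ?_
  have h1 := stab hm hmn hconv hU (fun n => hS n (t - 1))
  have h2 : (x, t) ∈ LimSet (fun n => S n ∩ {z | t - 1 ≤ z.2}) := by
    intro W hW
    have h3 : W ∩ {z : V × ℝ | t - 1 < z.2} ∈ 𝓝 (x, t) := by
      refine inter_mem hW (IsOpen.mem_nhds (isOpen_lt continuous_const continuous_snd) ?_)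
      show t - 1 < t
      linarith
    refine (hxt _ h3).mono ?_
    rintro n ⟨z, hz1, hz2, hz3⟩
    exact ⟨z, ⟨hz1, (show t - 1 < z.2 from hz3).le⟩, hz2⟩
  have h3 : LimSet (fun n => S n ∩ {z | t - 1 ≤ z.2}) ⊆ LimSet S := by
    intro z hz W hW
    refine (hz W hW).mono ?_
    rintro n ⟨w, hw1, hw2⟩
    exact ⟨w, hw1.1, hw2⟩
  exact (h1.sub x t hx (by linarith) h2).mono_near ⟨1, one_pos, fun y u _ _ _ hy => h3 hy⟩

private theorem winLim_sign (b : Bool) : ∃ s : ℝ, s * s = 1 ∧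
    ∀ (T : V → ℝ) (z : V × ℝ), z ∈ arr b T ↔ s * T z.1 ≤ s * z.2 := by
  cases b
  · refine ⟨-1, by norm_num, fun T z => ?_⟩
    simp [arr]
  · refine ⟨1, by norm_num, fun T z => ?_⟩
    simp [arr]

private theorem winLim_med {M L : ℝ} {h : V → ℝ} (hm : Med M L h) (b : Bool) :
    Med M L (sgn b h) := by
  cases b
  · refine ⟨hm.one_le, hm.one_le', fun x => ?_, fun x y => ?_⟩
    · have h1 := hm.bd x
      simpa [sgn] using h1
    · have h1 := hm.lip x y
      have h2 : sgn false h x - sgn false h y = -(h x - h y) := by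
        simp only [sgn, Bool.false_eq_true, if_false]
        ring
      rw [h2, abs_neg]
      exact h1
  · simpa [sgn] using hm

private theorem winLim_conv {h : V → ℝ} {hn : ℕ → V → ℝ} (b : Bool) {x : V}
    (hc : Tendsto (fun n => hn n x) atTop (𝓝 (h x))) :
    Tendsto (fun n => sgn b (hn n) x) atTop (𝓝 (sgn b h x)) := by
  cases b
  · simpa [sgn] using hc.neg
  · simpa [sgn] using hc

/-- The relaxed limit (lower for `b = true`, upper for `b = false`) of arrival functions. -/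
theorem exists_limit {M L : ℝ} {h : V → ℝ} {hn : ℕ → V → ℝ} (hm : Med M L h)
    (hmn : ∀ n, Med M L (hn n)) (hconv : ∀ x, Tendsto (fun n => hn n x) atTop (𝓝 (h x)))
    {U : Set V} (hU : IsOpen U) (b : Bool) {T : ℕ → V → ℝ} {B : ℝ}
    (hB : ∀ n, ∀ x ∈ U, |T n x| ≤ B) (hS : ∀ n t0, SubIn (sgn b (hn n)) U t0 (arr b (T n))) :
    ∃ Tl : V → ℝ, (∀ t0, SubIn (sgn b h) U t0 (arr b Tl)) ∧
      (∀ x ∈ U, ∃ (φ : ℕ → ℕ) (w : ℕ → V), StrictMono φ ∧ (∀ n, w n ∈ U) ∧
        Tendsto w atTop (𝓝 x) ∧ Tendsto (fun n => T (φ n) (w n)) atTop (𝓝 (Tl x))) ∧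
      (∀ x ∈ U, ∀ (φ : ℕ → ℕ) (w : ℕ → V) (τ : ℝ), StrictMono φ → Tendsto w atTop (𝓝 x) →
        Tendsto (fun n => T (φ n) (w n)) atTop (𝓝 τ) →
          (b = true → Tl x ≤ τ) ∧ (b = false → τ ≤ Tl x)) := by
  obtain ⟨s, hss, hs⟩ := winLim_sign b
  set Λ : Set (V × ℝ) := LimSet (fun n => arr b (T n)) with hΛ
  have hΛc : IsClosed Λ := isClosed_LimSet _
  have hs1 : ∀ r : ℝ, s * (s * r) = r := fun r => by rw [← mul_assoc, hss, one_mul]
  have habs : |s| = 1 := by
    have h1 : |s| * |s| = 1 := by rw [← abs_mul, hss, abs_one]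
    nlinarith [abs_nonneg s]
  have hsle : ∀ r : ℝ, |s * r| = |r| := fun r => by rw [abs_mul, habs, one_mul]
  have hB0 : ∀ n, ∀ x ∈ U, -B ≤ s * T n x ∧ s * T n x ≤ B := by
    intro n x hx
    have h1 := hB n x hx
    rw [← hsle] at h1
    exact abs_le.1 h1
  -- limit points
  have hmem : ∀ (φ : ℕ → ℕ) (w : ℕ → V × ℝ) (z : V × ℝ), Tendsto φ atTop atTop →
      (∀ n, w n ∈ arr b (T (φ n))) → Tendsto w atTop (𝓝 z) → z ∈ Λ := by
    intro φ w z hφ hw hz W hW
    refine hφ.frequently (Eventually.frequently ?_)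
    filter_upwards [hz hW] with n hn
    exact ⟨w n, hw n, hn⟩
  set A : V → Set ℝ := fun x => {τ | (x, s * τ) ∈ Λ} with hA
  have hAc : ∀ x, IsClosed (A x) := fun x =>
    hΛc.preimage (f := fun τ : ℝ => (x, s * τ)) (by fun_prop)
  have hAup : ∀ x τ τ', τ ∈ A x → τ ≤ τ' → τ' ∈ A x := by
    intro x τ τ' hτ hle
    obtain ⟨w, φ, hφ, hw, hwl⟩ := exists_of_mem_LimSet (show (x, s * τ) ∈ Λ from hτ)
    refine hmem φ (fun n => ((w n).1, (w n).2 + s * (τ' - τ))) _ hφ.tendsto_atTop (fun n => ?_) ?_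
    · rw [hs]
      have h1 := (hs (T (φ n)) (w n)).1 (hw n)
      show s * T (φ n) (w n).1 ≤ s * ((w n).2 + s * (τ' - τ))
      rw [mul_add, hs1]
      linarith
    · have h1 : s * τ' = s * τ + s * (τ' - τ) := by ring
      rw [h1]
      exact ((continuous_fst.tendsto _).comp hwl).prodMk_nhds
        (((continuous_snd.tendsto _).comp hwl).add tendsto_const_nhds)
  have hAB : ∀ x ∈ U, B ∈ A x := by
    intro x hx
    refine hmem id (fun _ => (x, s * B)) _ tendsto_id (fun n => ?_) tendsto_const_nhds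
    rw [hs]
    show s * T n x ≤ s * (s * B)
    rw [hs1]
    exact (hB0 n x hx).2
  have hAlb : ∀ x ∈ U, ∀ τ ∈ A x, -B ≤ τ := by
    intro x hx τ hτ
    obtain ⟨w, φ, hφ, hw, hwl⟩ := exists_of_mem_LimSet (show (x, s * τ) ∈ Λ from hτ)
    have h1 : Tendsto (fun n => (w n).1) atTop (𝓝 x) := (continuous_fst.tendsto _).comp hwl
    have h2 : Tendsto (fun n => s * (w n).2) atTop (𝓝 (s * (s * τ))) :=
      tendsto_const_nhds.mul ((continuous_snd.tendsto _).comp hwl)
    rw [hs1] at h2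
    refine ge_of_tendsto h2 ?_
    filter_upwards [h1 (hU.mem_nhds hx)] with n hn
    exact (hB0 (φ n) _ hn).1.trans ((hs (T (φ n)) (w n)).1 (hw n))
  have hbdd : ∀ x ∈ U, BddBelow (A x) := fun x hx => ⟨-B, fun τ hτ => hAlb x hx τ hτ⟩
  have hmin : ∀ x ∈ U, sInf (A x) ∈ A x := fun x hx =>
    (hAc x).csInf_mem ⟨B, hAB x hx⟩ (hbdd x hx)
  have hiff : ∀ x ∈ U, ∀ t : ℝ, (x, t) ∈ Λ ↔ (x, t) ∈ arr b (fun x => s * sInf (A x)) := by
    intro x hx t
    rw [hs]
    show (x, t) ∈ Λ ↔ s * (s * sInf (A x)) ≤ s * t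
    rw [hs1]
    constructor
    · intro h1
      refine csInf_le (hbdd x hx) ?_
      show (x, s * (s * t)) ∈ Λ
      rw [hs1]
      exact h1
    · intro h1
      have h2 := hAup x _ _ (hmin x hx) h1
      have h3 : (x, s * (s * t)) ∈ Λ := h2
      rw [hs1] at h3
      exact h3
  refine ⟨fun x => s * sInf (A x), fun t0 => ?_, fun x hx => ?_, ?_⟩
  · refine SubIn.congr_on hU hiff ?_
    exact stab_all (winLim_med hm b) (fun n => winLim_med (hmn n) b)
      (fun x => winLim_conv b (hconv x)) hU hS t0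
  · have hxΛ : (x, s * sInf (A x)) ∈ Λ := hmin x hx
    obtain ⟨w, φ, hφ, hw, hwl⟩ := exists_of_mem_LimSet hxΛ
    have h1 : Tendsto (fun n => (w n).1) atTop (𝓝 x) := (continuous_fst.tendsto _).comp hwl
    have h2 : Tendsto (fun n => (w n).2) atTop (𝓝 (s * sInf (A x))) :=
      (continuous_snd.tendsto _).comp hwl
    obtain ⟨N, hN⟩ := eventually_atTop.1 (h1 (hU.mem_nhds hx))
    refine ⟨fun n => φ (n + N), fun n => (w (n + N)).1, fun i j hij => hφ (by omega),
      fun n => hN _ (by omega), h1.comp (tendsto_add_atTop_nat N), ?_⟩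
    have h3 : Tendsto (fun n => s * T (φ (n + N)) (w (n + N)).1) atTop (𝓝 (sInf (A x))) := by
      refine tendsto_of_subseq_tendsto fun ns hns => ?_
      obtain ⟨α, _, ms, hms, hlim⟩ := isCompact_Icc.tendsto_subseq
        (fun n => (⟨(hB0 (φ (ns n + N)) _ (hN _ (by omega))).1,
          (hB0 (φ (ns n + N)) _ (hN _ (by omega))).2⟩ :
          s * T (φ (ns n + N)) (w (ns n + N)).1 ∈ Icc (-B) B))
      refine ⟨ms, ?_⟩
      have hidx : Tendsto (fun n => ns (ms n) + N) atTop atTop :=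
        (tendsto_add_atTop_nat N).comp (hns.comp hms.tendsto_atTop)
      have h4 : α ≤ sInf (A x) := by
        have h5 : Tendsto (fun n => s * (w (ns (ms n) + N)).2) atTop
            (𝓝 (s * (s * sInf (A x)))) := tendsto_const_nhds.mul (h2.comp hidx)
        rw [hs1] at h5
        exact le_of_tendsto_of_tendsto' hlim h5 fun n => (hs _ _).1 (hw _)
      have h5 : sInf (A x) ≤ α := by
        refine csInf_le (hbdd x hx) ?_
        refine hmem (fun n => φ (ns (ms n) + N))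
          (fun n => ((w (ns (ms n) + N)).1, s * (s * T (φ (ns (ms n) + N)) (w (ns (ms n) + N)).1)))
          _ (hφ.tendsto_atTop.comp hidx) (fun n => ?_)
          ((h1.comp hidx).prodMk_nhds (tendsto_const_nhds.mul hlim))
        rw [hs]
        show s * T (φ (ns (ms n) + N)) (w (ns (ms n) + N)).1 ≤
          s * (s * (s * T (φ (ns (ms n) + N)) (w (ns (ms n) + N)).1))
        rw [hs1]
      have h6 : α = sInf (A x) := le_antisymm h4 h5
      rw [← h6]
      exact hlim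
    have h4 := (tendsto_const_nhds (x := s)).mul h3
    refine h4.congr fun n => ?_
    exact hs1 _
  · intro x hx φ w τ hφ hw hτ
    have h1 : (x, τ) ∈ Λ :=
      hmem φ (fun n => (w n, T (φ n) (w n))) _ hφ.tendsto_atTop
        (fun n => (hs (T (φ n)) (w n, T (φ n) (w n))).2 le_rfl) (hw.prodMk_nhds hτ)
    have h2 := (hiff x hx τ).1 h1
    constructor
    · rintro rfl
      simpa [arr] using h2
    · rintro rfl
      simpa [arr] using h2

end Pool.Agent.FCF
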