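import Pool.Agent.FCF.WinMono
import Pool.Agent.FCF.WinLim
import Pool.Agent.FCF.EnvEvent

/-!
# FCF / WinClos: the closure lemma 5.1

PROOF of `winP_of_mem_Gc`. `EnvT` is first countable: `c_m → c` with `WinG p c_m P eps del k J`. Fix `b`; `T_m, Y_m` the window functions.
`Y_m ∩ box J` lies in the finite set of subsets of `box J`: along a subsequence it is constant `= Y`. By `dens` for `j = J` and `del < 1`, `Y` is not empty
(`0 < (box J).card`); take `n0 ∈ Y`, `gp n0 ∈ oc J`. Replace `T_m` by `T_m - T_m (gp n0)` (a time translation: `arr b (T - a) = {z | (z.1, z.2 + a) ∈ arr b T}`, `SubIn.shift_time`; `Win` is invariant). By `plan`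
with `n = n0` all `T_m` are bounded on `oc J` by one constant `B`; pass to a subsequence such that `T_m (gp n) → τ n` for the finitely many `n ∈ Y`. Let `Tl` be the relaxed limit
(`exists_limit`, forcings `frc c_m F → frc c F`, `Med` from `henv`). For `x ∈ oc J` take the realising sequence: `|Tl x - τ n - inner P (x - gp n)| ≤ eps max ‖x - gp n‖ (2^k)` (n ∈ Y), in particular
`|Tl (gp n) - τ n| ≤ eps 2^k`: `plan` with `2 eps`. `dens` is clear. `cl`: `x, r` with `1 ≤ r`, `closedBall x (Cs r) ⊆ oc J`, `fine' c x r`: by `fine_eventually` `fine c_m x r` for late `m`, so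
`|T_m y - T_m z| ≤ C3 r` for `‖y-x‖, ‖z-x‖ < 9r` (these points are in `oc J`, as `9 ≤ Cs`). Let `T_{φ n}(y_n) → Tl y` (realising), `T_{φ n}(z)` converge along a further subsequence to `τ`; `|Tl y - τ| ≤ C3 r` and
`Tl z ≤ τ` (`b = true`), `τ ≤ Tl z` (`b = false`). With the roles of `y, z` exchanged: `|Tl y - Tl z| ≤ C3 r`.
-/

set_option autoImplicit false

namespace Pool.Agent.FCF

open Pool.Agent.VSC (V J LowJet)
open Set Metric MeasureTheory Filter Topology EnvT

/-- Time translation of a window. -/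
theorem Win.sub_const {p : Par} {b : Bool} {h : V → ℝ} {fi : V → ℝ → Prop} {P : V}
    {eps del : ℝ} {k J : ℕ} {T : V → ℝ} {Y : Set (ℤ × ℤ)} (hw : Win p b h fi P eps del k J T Y)
    (a : ℝ) : Win p b h fi P eps del k J (fun x => T x - a) Y := by
  refine ⟨fun t0 => ?_, hw.dens, fun n hn hnJ z hz => ?_, fun x r hr hb hf y z hy hz => ?_⟩
  · have h1 := (hw.sub (t0 + a)).shift_time a
    have h2 : {z : V × ℝ | (z.1, z.2 + a) ∈ arr b T} = arr b (fun x => T x - a) := by
      ext z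
      cases b
      · simp only [arr, Bool.false_eq_true, if_false]
        show z.2 + a ≤ T z.1 ↔ z.2 ≤ T z.1 - a
        constructor <;> intro h3 <;> linarith
      · simp only [arr, if_true]
        show T z.1 ≤ z.2 + a ↔ T z.1 - a ≤ z.2
        constructor <;> intro h3 <;> linarith
    rw [h2] at h1
    exact h1
  · have h1 := hw.plan n hn hnJ z hz
    have h2 : T z - a - (T (gp n) - a) - inner ℝ P (z - gp n) =
        T z - T (gp n) - inner ℝ P (z - gp n) := by ring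
    rw [h2]
    exact h1
  · have h1 := hw.cl x r hr hb hf y z hy hz
    have h2 : T y - a - (T z - a) = T y - T z := by ring
    rw [h2]
    exact h1

private theorem winClos_gp {J : ℕ} : ∀ n ∈ box J, gp n ∈ oc J := by
  intro n hn
  simp only [box, Finset.mem_product, Finset.mem_Ioo] at hn
  obtain ⟨⟨h1, h2⟩, h3, h4⟩ := hn
  have e0 : gp n 0 = (n.1 : ℝ) := rfl
  have e1 : gp n 1 = (n.2 : ℝ) := rfl
  intro i
  fin_cases i
  · show |gp n 0| < 2 ^ J
    rw [e0, abs_lt]
    have h5 := (Int.cast_lt (R := ℝ)).2 h1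
    have h6 := (Int.cast_lt (R := ℝ)).2 h2
    push_cast at h5 h6
    exact ⟨h5, h6⟩
  · show |gp n 1| < 2 ^ J
    rw [e1, abs_lt]
    have h5 := (Int.cast_lt (R := ℝ)).2 h3
    have h6 := (Int.cast_lt (R := ℝ)).2 h4
    push_cast at h5 h6
    exact ⟨h5, h6⟩

private theorem winClos_box {j J : ℕ} (h : j ≤ J) {n : ℤ × ℤ} (hn : n ∈ box j) : n ∈ box J := by
  simp only [box, Finset.mem_product, Finset.mem_Ioo] at hn ⊢
  have h1 : (2 : ℤ) ^ j ≤ 2 ^ J := pow_le_pow_right₀ (by norm_num) h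
  omega

private theorem winClos_open (J : ℕ) : IsOpen (oc J) := by
  have h1 : oc J = ⋂ i : Fin 2, {z : V | |z i| < 2 ^ J} := by
    ext z
    simp [oc]
  rw [h1]
  refine isOpen_iInter_of_finite fun i => isOpen_lt ?_ continuous_const
  fun_prop

private theorem winClos_norm {J : ℕ} {z : V} (hz : z ∈ oc J) : ‖z‖ ≤ 2 * 2 ^ J := by
  have h0 := hz 0
  have h1 := hz 1
  rw [EuclideanSpace.norm_eq, Fin.sum_univ_two]
  refine Real.sqrt_le_iff.2 ⟨by positivity, ?_⟩
  rw [Real.norm_eq_abs, Real.norm_eq_abs]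
  have h2 : |z 0| ^ 2 ≤ (2 ^ J) ^ 2 := by gcongr
  have h3 : |z 1| ^ 2 ≤ (2 ^ J) ^ 2 := by gcongr
  have h4 : (0 : ℝ) ≤ (2 ^ J) ^ 2 := by positivity
  nlinarith

theorem winP_of_mem_Gc {M L : ℝ} {p : Par} (henv : ∀ c : EnvT M L, p.Env c.1) {P : V}
    {eps del : ℝ} {k J : ℕ} (heps : 0 ≤ eps) (hdel1 : del < 1) (hkJ : k ≤ J) {c : EnvT M L}
    (hc : c ∈ Gc M L p P eps del k J) : WinP p c.1 P (2 * eps) del k J := by
  intro b
  classical
  have hmetr : TopologicalSpace.MetrizableSpace (EnvT M L) := EnvT.metrizable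
  obtain ⟨cm, hcm, hlim⟩ := mem_closure_iff_seq_limit.1 (show c ∈ closure
    {c : EnvT M L | WinG p c.1 P eps del k J} from hc)
  choose T Y hW using fun m => (hcm m : WinG p (cm m).1 P eps del k J) b
  -- a constant set of grid points along a subsequence
  obtain ⟨Y0, hY0⟩ : ∃ Y0 : Finset (ℤ × ℤ),
      ∃ᶠ m in atTop, (box J).filter (fun n => n ∈ Y m) = Y0 := by
    by_contra hcon
    push Not at hcon
    have h1 : ∀ᶠ m in atTop, ∀ A ∈ (box J).powerset,
        (box J).filter (fun n => n ∈ Y m) ≠ A := by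
      rw [Finset.eventually_all]
      intro A _
      exact hcon A
    obtain ⟨m, hm⟩ := h1.exists
    exact hm _ (Finset.mem_powerset.2 (Finset.filter_subset _ _)) rfl
  obtain ⟨φ1, hφ1, hY1⟩ := extraction_of_frequently_atTop hY0
  have hYmem : ∀ m n, n ∈ box J → (n ∈ Y (φ1 m) ↔ n ∈ Y0) := by
    intro m n hn
    rw [← hY1 m, Finset.mem_filter]
    exact ⟨fun h => ⟨hn, h⟩, fun h => h.2⟩
  have hsubY0 : ∀ n ∈ Y0, n ∈ box J := by
    intro n hn
    rw [← hY1 0] at hn
    exact (Finset.mem_filter.1 hn).1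
  have hboxpos : 0 < ((box J).card : ℝ) := by
    have h1 : ((0, 0) : ℤ × ℤ) ∈ box J := by
      simp [box]
    exact_mod_cast Finset.card_pos.2 ⟨_, h1⟩
  obtain ⟨n0, hn0⟩ : ∃ n0, n0 ∈ Y0 := by
    by_contra hcon
    push Not at hcon
    have h1 := (hW (φ1 0)).dens J hkJ le_rfl
    have h2 : (box J).filter (fun n => n ∉ Y (φ1 0)) = box J := by
      refine Finset.filter_true_of_mem fun n hn h3 => ?_
      exact hcon n ((hYmem 0 n hn).1 h3)
    rw [h2] at h1
    nlinarith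
  have hgpJ : ∀ n ∈ box J, gp n ∈ oc J := winClos_gp
  have hgpY : ∀ n ∈ Y0, gp n ∈ oc J := fun n hn => hgpJ n (hsubY0 n hn)
  have hYof : ∀ m n, n ∈ Y0 → n ∈ Y (φ1 m) := fun m n hn => (hYmem m n (hsubY0 n hn)).2 hn
  -- normalised window functions
  set T1 : ℕ → V → ℝ := fun m x => T (φ1 m) x - T (φ1 m) (gp n0) with hT1
  have hW1 : ∀ m, Win p b (frc (cm (φ1 m)).1 p.F) (p.fine (cm (φ1 m)).1) P eps del k J (T1 m)
      (Y (φ1 m)) := fun m => (hW (φ1 m)).sub_const _
  obtain ⟨B, hB0, hB⟩ : ∃ B : ℝ, 0 ≤ B ∧ ∀ m, ∀ x ∈ oc J, |T1 m x| ≤ B := by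
    set D : ℝ := 2 * 2 ^ J + 2 * 2 ^ J with hD
    refine ⟨eps * max D (2 ^ k) + ‖P‖ * D, by positivity, fun m x hx => ?_⟩
    have h1 := (hW1 m).plan n0 (hYof m n0 hn0) (hgpY n0 hn0) x hx
    have h2 : T1 m (gp n0) = 0 := by simp [hT1]
    rw [h2, sub_zero] at h1
    have h3 : ‖x - gp n0‖ ≤ D := by
      refine (norm_sub_le _ _).trans (add_le_add (winClos_norm hx) (winClos_norm (hgpY n0 hn0)))
    have h4 : |(inner ℝ P (x - gp n0) : ℝ)| ≤ ‖P‖ * D :=
      (abs_real_inner_le_norm _ _).trans (by gcongr)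
    have h5 : T1 m x = (T1 m x - inner ℝ P (x - gp n0)) + inner ℝ P (x - gp n0) := by ring
    rw [h5]
    refine (abs_add_le _ _).trans (add_le_add (h1.trans ?_) h4)
    exact mul_le_mul_of_nonneg_left (max_le_max h3 le_rfl) heps
  -- convergence at the grid points
  obtain ⟨τ, _, φ2, hφ2, hτ⟩ : ∃ τ ∈ Set.pi univ (fun _ : ℤ × ℤ => Icc (-B) B),
      ∃ φ2 : ℕ → ℕ, StrictMono φ2 ∧
        Tendsto ((fun (m : ℕ) (n : ℤ × ℤ) => if n ∈ Y0 then T1 m (gp n) else 0) ∘ φ2) atTop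
          (𝓝 τ) := by
    refine (isCompact_univ_pi fun _ => isCompact_Icc).tendsto_subseq fun m => ?_
    intro n _
    show (if n ∈ Y0 then T1 m (gp n) else 0) ∈ Icc (-B) B
    split_ifs with h1
    · exact abs_le.1 (hB m _ (hgpY n h1))
    · exact ⟨by linarith, hB0⟩
  have hτ' : ∀ n ∈ Y0, Tendsto (fun m => T1 (φ2 m) (gp n)) atTop (𝓝 (τ n)) := by
    intro n hn
    have h1 := (tendsto_pi_nhds.1 hτ) n
    refine h1.congr fun m => ?_
    simp [hn]
  -- the limit
  set c2 : ℕ → EnvT M L := fun m => cm (φ1 (φ2 m)) with hc2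
  have hc2lim : Tendsto c2 atTop (𝓝 c) := hlim.comp (hφ1.comp hφ2).tendsto_atTop
  set T2 : ℕ → V → ℝ := fun m => T1 (φ2 m) with hT2
  have hconv : ∀ x, Tendsto (fun m => frc (c2 m).1 p.F x) atTop (𝓝 (frc c.1 p.F x)) := by
    intro x
    have h1 := (tendsto_iff.1 hc2lim) x
    exact h1.add tendsto_const_nhds
  obtain ⟨Tl, hTl, hreal, hcmp⟩ := exists_limit (henv c).med (fun m => (henv (c2 m)).med) hconv
    (winClos_open J) b (fun m => hB (φ2 m)) (fun m t0 => (hW1 (φ2 m)).sub t0)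
  have hkey : ∀ n ∈ Y0, ∀ z ∈ oc J,
      |Tl z - τ n - inner ℝ P (z - gp n)| ≤ eps * max ‖z - gp n‖ (2 ^ k) := by
    intro n hn z hz
    obtain ⟨φ, w, hφ, hw, hwl, hTw⟩ := hreal z hz
    have h1 : Tendsto (fun i => |T2 (φ i) (w i) - T2 (φ i) (gp n) - inner ℝ P (w i - gp n)|) atTop
        (𝓝 |Tl z - τ n - inner ℝ P (z - gp n)|) := by
      refine Tendsto.abs (Tendsto.sub (hTw.sub ((hτ' n hn).comp hφ.tendsto_atTop)) ?_)
      exact tendsto_const_nhds.inner (hwl.sub tendsto_const_nhds)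
    have h2 : Tendsto (fun i => eps * max ‖w i - gp n‖ (2 ^ k)) atTop
        (𝓝 (eps * max ‖z - gp n‖ (2 ^ k))) :=
      tendsto_const_nhds.mul (((hwl.sub tendsto_const_nhds).norm).max tendsto_const_nhds)
    exact le_of_tendsto_of_tendsto' h1 h2 fun i =>
      (hW1 (φ2 (φ i))).plan n (hYof _ n hn) (hgpY n hn) (w i) (hw i)
  refine ⟨Tl, {n | n ∈ Y0}, hTl, fun j hkj hjJ => ?_, fun n hn hnJ z hz => ?_,
    fun x r hr hb hf => ?_⟩
  · have h1 := (hW1 0).dens j hkj hjJ
    refine (le_of_eq ?_).trans h1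
    congr 2
    ext n
    simp only [Finset.mem_filter]
    constructor
    · rintro ⟨h2, h3⟩
      exact ⟨h2, fun h4 => h3 ((hYmem 0 n (winClos_box hjJ h2)).1 h4)⟩
    · rintro ⟨h2, h3⟩
      exact ⟨h2, fun h4 => h3 ((hYmem 0 n (winClos_box hjJ h2)).2 h4)⟩
  · have hn' : n ∈ Y0 := hn
    have h1 := hkey n hn' z hz
    have h2 := hkey n hn' (gp n) (hgpY n hn')
    rw [sub_self, inner_zero_right, sub_zero, norm_zero,
      max_eq_right (by positivity : (0 : ℝ) ≤ 2 ^ k)] at h2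
    have h3 : Tl z - Tl (gp n) - inner ℝ P (z - gp n) =
        (Tl z - τ n - inner ℝ P (z - gp n)) - (Tl (gp n) - τ n) := by ring
    rw [h3]
    have h4 : eps * 2 ^ k ≤ eps * max ‖z - gp n‖ (2 ^ k) :=
      mul_le_mul_of_nonneg_left (le_max_right _ _) heps
    have h5 := abs_sub (Tl z - τ n - inner ℝ P (z - gp n)) (Tl (gp n) - τ n)
    linarith
  · have hr0 : 0 < r := by linarith
    have hev := fine_eventually p (henv c) hc2lim hr0.le hf
    have hCs : 9 ≤ p.Cs := by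
      have h1 := p.hM
      have h2 := p.hsig
      unfold Par.Cs Par.C1 Par.M1
      nlinarith
    have hin : ∀ y : V, ‖y - x‖ < 9 * r → y ∈ oc J := by
      intro y hy
      refine hb ?_
      rw [mem_closedBall, dist_eq_norm]
      nlinarith
    have hone : ∀ y z : V, ‖y - x‖ < 9 * r → ‖z - x‖ < 9 * r →
        (b = true → Tl z - Tl y ≤ p.C3 * r) ∧ (b = false → Tl y - Tl z ≤ p.C3 * r) := by
      intro y z hy hz
      obtain ⟨φ, w, hφ, hw, hwl, hTw⟩ := hreal y (hin y hy)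
      obtain ⟨σ, _, ψ, hψ, hσ⟩ := isCompact_Icc.tendsto_subseq
        (fun i => (abs_le.1 (hB (φ2 (φ i)) z (hin z hz)) : T2 (φ i) z ∈ Icc (-B) B))
      have h1 : ∀ᶠ i in atTop, |T2 (φ (ψ i)) (w (ψ i)) - T2 (φ (ψ i)) z| ≤ p.C3 * r := by
        have h2 : ∀ᶠ i in atTop, ‖w i - x‖ < 9 * r :=
          ((hwl.sub tendsto_const_nhds).norm).eventually_lt_const hy
        have h3 := (hφ.comp hψ).tendsto_atTop.eventually hev
        filter_upwards [hψ.tendsto_atTop.eventually h2, h3] with i h4 h5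
        exact (hW1 (φ2 (φ (ψ i)))).cl x r hr hb h5 (w (ψ i)) z h4 hz
      have h2 : |Tl y - σ| ≤ p.C3 * r :=
        le_of_tendsto ((hTw.comp hψ.tendsto_atTop).sub hσ).abs h1
      have h3 := hcmp z (hin z hz) (φ ∘ ψ) (fun _ => z) σ (hφ.comp hψ) tendsto_const_nhds hσ
      have h4 := abs_le.1 h2
      constructor
      · intro hbt
        have h5 := h3.1 hbt
        linarith [h4.1]
      · intro hbf
        have h5 := h3.2 hbf
        linarith [h4.2]
    intro y z hy hz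
    have h1 := hone y z hy hz
    have h2 := hone z y hz hy
    rw [abs_le]
    cases hbb : b
    · have h3 := h1.2 hbb
      have h4 := h2.2 hbb
      constructor <;> linarith
    · have h3 := h1.1 hbb
      have h4 := h2.1 hbb
      constructor <;> linarith

end Pool.Agent.FCF
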