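import Pool.Agent.FCF.EnvDefs

/-!
# FCF / WIN: definitions and interface (sections 5, 6)

`Gc` = closure of the window event `G_J`, `Gplus` = its enlargement by shifts of length `≤ 2`,
`Ghat` = intersection over `J ≥ k`, `P0set` = the deterministic set of window slopes.
-/

set_option autoImplicit false

namespace Pool.Agent.FCF

open Pool.Agent.VSC (V J LowJet)
open Set Metric MeasureTheory Filter Topology EnvT

/-- The closure of the window event. -/
def Gc (M L : ℝ) (p : Par) (P : V) (eps del : ℝ) (k J : ℕ) : Set (EnvT M L) :=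
  closure {c : EnvT M L | WinG p c.1 P eps del k J}

/-- Some shift of length `≤ 2` lies in the closure of the window event. -/
def Gplus (M L : ℝ) (p : Par) (P : V) (eps del : ℝ) (k J : ℕ) : Set (EnvT M L) :=
  {c | ∃ y : V, ‖y‖ ≤ 2 ∧ shift y c ∈ Gc M L p P eps del k J}

/-- Window events for all `J`. -/
def Ghat (M L : ℝ) (p : Par) (P : V) (eps del : ℝ) (k : ℕ) : Set (EnvT M L) :=
  {c | ∀ J : ℕ, k ≤ J → c ∈ Gc M L p P eps del k J}

/-- The set of window slopes. -/
def P0set {M L : ℝ} (μ : Measure (EnvT M L)) (p : Par) : Set V :=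
  {P | ∀ eps : ℝ, 0 < eps → ∀ del : ℝ, 0 < del → ∃ k : ℕ,
    ∀ᵐ c ∂μ, ∃ y : V, shift y c ∈ Ghat M L p P eps del k}

/-- Slopes with rational coordinates. -/
def RatV : Set V := {P | ∀ i, ∃ q : ℚ, P i = (q : ℝ)}

open Classical in
/-- The density property of typical environments used in section 6: for rational data the lattice
points whose environment lies in `Gc` have density `≤ C0 μ(Gplus)`, in all large centred squares. -/
def GDens {M L : ℝ} (μ : Measure (EnvT M L)) (p : Par) (C0 : ℝ) (c : EnvT M L) : Prop :=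
  ∀ P ∈ RatV, ∀ (eps del : ℚ) (k J : ℕ) (th : ℝ), 0 < th → ∃ R0 : ℝ, ∀ R : ℝ, R0 ≤ R →
    ∀ Z : Finset (ℤ × ℤ), (∀ m ∈ Z, (∀ i, |gp m i| ≤ R) ∧
      shift (gp m) c ∈ Gc M L p P (eps : ℝ) (del : ℝ) k J) →
      (Z.card : ℝ) ≤ (C0 * (μ (Gplus M L p P (eps : ℝ) (del : ℝ) k J)).toReal + th) * R ^ 2

end Pool.Agent.FCF
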