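import Pool.Agent.FCF.WinMono

/-!
# FCF / WinRec: the set `P0` (sections 5.2, 5.3)

The recurrence theorem (chunk ERG) is a hypothesis here: `RecP μ`: for closed `B`: almost surely some shift lies in `B`, or almost surely none.

PROOFS.
* `isClosed_P0set`: if `P' ∈ P0`, `‖P' - P‖ < eps/2`: `Ghat P' (eps/2) del k ⊆ Ghat P eps del k` (`Ghat_mono`).
* `mem_P0set_iff_not`: by `RecP` (Ghat closed).
* `exists_not_P0`: `P ∉ P0`: there are `eps, del > 0` such that for NO `k` almost surely some shift is in `Ghat .. k`; by `RecP` for every `k` almost surely no shift is in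
  `Ghat .. k`, so `μ {c | ∃ y, shift y c ∈ Ghat} = 0` (null set), the closed sets `Gplus .. k J`, `J ≥ k` decrease (`Gplus_mono`), their intersection is contained in this null set (`iInter_Gplus`), `μ` is finite:
  `tendsto_measure_iInter_atTop` (or `_le`).
* `cover_notP0`: `Kc = {Q | ‖Q‖ ≤ C, ∀ P ∈ P0, eps0 ≤ ‖Q - P‖}` is compact. `Q ∈ Kc` is not in `P0`; `eps, del` from `exists_not_P0`; choose rationals `0 < eps' ≤ eps/2`,
  `0 < del' ≤ del`, a rational point `P'` (`RatV` is dense) with `‖Q - P'‖ < eps'/8`, `eps' + ‖P' - Q‖ ≤ eps`: `Gplus P' eps' del' k J ⊆ Gplus Q eps del k J`, so its measure tends to `0` for every `k`. The balls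
  `B(P', eps'/8)` cover `Kc`; finite subcover.
-/

set_option autoImplicit false

namespace Pool.Agent.FCF

open Pool.Agent.VSC (V J LowJet)
open Set Metric MeasureTheory Filter Topology EnvT

/-- Recurrence for closed events (theorem `recurrence` of the chunk ERG). -/
def RecP {M L : ℝ} (μ : Measure (EnvT M L)) : Prop := ∀ B : Set (EnvT M L), IsClosed B →
  (∀ᵐ c ∂μ, ∃ y : V, shift y c ∈ B) ∨ (∀ᵐ c ∂μ, ∀ y : V, shift y c ∉ B)

variable {M L : ℝ} {μ : Measure (EnvT M L)} {p : Par}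

theorem isClosed_P0set : IsClosed (P0set μ p) := by
  refine isClosed_of_closure_subset fun P hP eps heps del hdel => ?_
  obtain ⟨P', hP', hd⟩ := Metric.mem_closure_iff.1 hP (eps / 2) (by positivity)
  rw [dist_eq_norm] at hd
  obtain ⟨k, hk⟩ := hP' (eps / 2) (by positivity) del hdel
  refine ⟨k, ?_⟩
  filter_upwards [hk] with c ⟨y, hy⟩
  refine ⟨y, Ghat_mono (by positivity) le_rfl ?_ le_rfl hy⟩
  rw [norm_sub_rev]
  linarith

theorem dense_RatV : Dense RatV := by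
  intro P
  rw [Metric.mem_closure_iff]
  intro e he
  have h : ∀ i, ∃ q : ℚ, |P i - (q : ℝ)| < e / 2 := by
    intro i
    obtain ⟨q, h1, h2⟩ := exists_rat_btwn (show P i < P i + e / 2 by linarith)
    exact ⟨q, by rw [abs_lt]; constructor <;> linarith⟩
  choose q hq using h
  refine ⟨WithLp.toLp 2 (fun i => (q i : ℝ)), fun i => ⟨q i, rfl⟩, ?_⟩
  rw [dist_eq_norm, EuclideanSpace.norm_eq, Real.sqrt_lt' he]
  simp only [Fin.sum_univ_two, PiLp.sub_apply, Real.norm_eq_abs, sq_abs]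
  have h0 := abs_lt.1 (hq 0)
  have h1 := abs_lt.1 (hq 1)
  nlinarith [h0.1, h0.2, h1.1, h1.2]

theorem countable_RatV : RatV.Countable := by
  refine (countable_range (fun q : Fin 2 → ℚ => (WithLp.toLp 2 (fun i => (q i : ℝ)) : V))).mono ?_
  intro P hP
  choose q hq using hP
  refine ⟨q, ?_⟩
  ext i
  exact (hq i).symm

theorem exists_not_P0 (hμ : Erg μ) (hrec : RecP μ) {P : V} (hP : P ∉ P0set μ p) :
    ∃ eps : ℝ, 0 < eps ∧ ∃ del : ℝ, 0 < del ∧ ∀ k : ℕ,
      Tendsto (fun J => (μ (Gplus M L p P eps del k J)).toReal) atTop (𝓝 0) := by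
  have := hμ.prob
  simp only [P0set, mem_ofPred_eq, not_forall, not_exists] at hP
  obtain ⟨eps, heps, del, hdel, hk⟩ := hP
  refine ⟨eps, heps, del, hdel, fun k => ?_⟩
  have h1 : ∀ᵐ c ∂μ, ∀ y : V, shift y c ∉ Ghat M L p P eps del k :=
    (hrec _ isClosed_Ghat).resolve_left (hk k)
  have h2 : μ {c | ∃ y : V, shift y c ∈ Ghat M L p P eps del k} = 0 := by
    rw [measure_eq_zero_iff_ae_notMem]
    filter_upwards [h1] with c hc ⟨y, hy⟩
    exact hc y hy
  have hanti : Antitone (fun J : ℕ => Gplus M L p P eps del k J) := by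
    intro J J' hJ
    exact Gplus_mono heps.le hJ le_rfl (by simp) le_rfl
  have h3 := tendsto_measure_iInter_atTop (μ := μ)
    (fun J => (isClosed_Gplus (M := M) (L := L) (p := p) (P := P) (eps := eps) (del := del)
      (k := k) (J := J)).measurableSet.nullMeasurableSet) hanti ⟨0, measure_ne_top _ _⟩
  have h4 : μ (⋂ J, Gplus M L p P eps del k J) = 0 := by
    refine measure_mono_null ?_ h2
    refine subset_trans ?_ (iInter_Gplus heps.le)
    intro c hc J _
    exact mem_iInter.1 hc J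
  rw [h4] at h3
  have h5 := (ENNReal.tendsto_toReal (ENNReal.zero_ne_top)).comp h3
  simpa [Function.comp_def] using h5

theorem cover_notP0 (hμ : Erg μ) (hrec : RecP μ) (C : ℝ) {eps0 : ℝ} (heps0 : 0 < eps0) :
    ∃ I : Finset (V × ℚ × ℚ), (∀ i ∈ I, i.1 ∈ RatV ∧ 0 < i.2.1 ∧ 0 < i.2.2 ∧ ∀ k : ℕ,
        Tendsto (fun J => (μ (Gplus M L p i.1 (i.2.1 : ℝ) (i.2.2 : ℝ) k J)).toReal) atTop (𝓝 0)) ∧
      ∀ Q : V, ‖Q‖ ≤ C → (∀ P ∈ P0set μ p, eps0 ≤ ‖Q - P‖) → ∃ i ∈ I, ‖Q - i.1‖ ≤ (i.2.1 : ℝ) / 4 := by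
  classical
  have := hμ.prob
  set Kc : Set V := {Q | ‖Q‖ ≤ C ∧ ∀ P ∈ P0set μ p, eps0 ≤ ‖Q - P‖} with hKc
  have hcomp : IsCompact Kc := by
    refine (isCompact_closedBall (0 : V) C).of_isClosed_subset ?_ ?_
    · have : Kc = {Q | ‖Q‖ ≤ C} ∩ ⋂ P ∈ P0set μ p, {Q | eps0 ≤ ‖Q - P‖} := by
        ext Q; simp [hKc]
      rw [this]
      exact (isClosed_le continuous_norm continuous_const).inter
        (isClosed_biInter fun P _ =>
          isClosed_le continuous_const (continuous_id.sub continuous_const).norm)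
    · intro Q hQ
      exact mem_closedBall_zero_iff.2 hQ.1
  have hpt : ∀ Q : V, ∃ i : V × ℚ × ℚ, Q ∈ Kc → (i.1 ∈ RatV ∧ 0 < i.2.1 ∧ 0 < i.2.2 ∧ (∀ k : ℕ,
        Tendsto (fun J => (μ (Gplus M L p i.1 (i.2.1 : ℝ) (i.2.2 : ℝ) k J)).toReal) atTop (𝓝 0)) ∧
      ‖Q - i.1‖ < (i.2.1 : ℝ) / 4) := by
    intro Q
    by_cases hQ : Q ∈ Kc
    swap
    · exact ⟨(0, 0, 0), fun h => absurd h hQ⟩
    have hQP : Q ∉ P0set μ p := by
      intro h
      have := hQ.2 Q h
      simp at this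
      linarith
    obtain ⟨eps, heps, del, hdel, ht⟩ := exists_not_P0 hμ hrec hQP
    obtain ⟨e, he0, he1⟩ := exists_rat_btwn (show (0 : ℝ) < eps / 2 by positivity)
    obtain ⟨d, hd0, hd1⟩ := exists_rat_btwn hdel
    obtain ⟨P', hP', hd⟩ := dense_RatV.exists_dist_lt Q (show (0 : ℝ) < (e : ℝ) / 8 by positivity)
    rw [dist_eq_norm] at hd
    refine ⟨(P', e, d), fun _ => ⟨hP', by exact_mod_cast he0, by exact_mod_cast hd0, fun k => ?_,
      by simp only; linarith⟩⟩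
    refine squeeze_zero (fun J => ENNReal.toReal_nonneg) (fun J => ?_) (ht k)
    refine ENNReal.toReal_mono (measure_ne_top _ _) (measure_mono ?_)
    refine Gplus_mono he0.le le_rfl le_rfl ?_ hd1.le
    simp only
    rw [norm_sub_rev]
    linarith
  choose i hi using hpt
  obtain ⟨t, ht1, ht2⟩ := hcomp.elim_nhds_subcover (fun Q => ball (i Q).1 (((i Q).2.1 : ℝ) / 4))
    (fun Q hQ => by
      refine isOpen_ball.mem_nhds ?_
      rw [mem_ball, dist_eq_norm]
      exact (hi Q hQ).2.2.2.2)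
  refine ⟨t.image i, ?_, ?_⟩
  · intro j hj
    obtain ⟨Q, hQ, rfl⟩ := Finset.mem_image.1 hj
    obtain ⟨h1, h2, h3, h4, -⟩ := hi Q (ht1 Q hQ)
    exact ⟨h1, h2, h3, h4⟩
  · intro Q hQ1 hQ2
    obtain ⟨Q', hQ', hQ''⟩ := mem_iUnion₂.1 (ht2 (show Q ∈ Kc from ⟨hQ1, hQ2⟩))
    refine ⟨i Q', Finset.mem_image_of_mem i hQ', ?_⟩
    rw [mem_ball, dist_eq_norm] at hQ''
    exact hQ''.le

end Pool.Agent.FCF
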