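import Pool.Agent.FCF.WinDefs

/-!
# FCF / WinReg: Lipschitz regularisation of arrival functions (section 6.1)

PROOFS.
* `gd_lip`: `r := max (‖x - y‖/8) r0 ≥ r0 ≥ 1, C`; `fine c x r`; `‖y - x‖ ≤ 8 r < 9 r`; so `|T x - T y| ≤ C3 r ≤ C3 max ‖x-y‖ r0` (`0 ≤ C3`).
* `exists_reg`: `Tt x = sInf {T y + C3 ‖x - y‖ | y ∈ Gd}` (bounded below by `0`, nonempty). Lipschitz: standard. `x ∈ Gd`: `Tt x ≤ T x` (`y = x`);
  `T y + C3 ‖x-y‖ ≥ T x - C3 max ‖x-y‖ r0 + C3 ‖x-y‖ ≥ T x - C3 r0` by `gd_lip`. Last statement: `le_csInf`.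
* `le_C3`: `C3 = 10 C1 sig ≥ 1`.
-/

set_option autoImplicit false

namespace Pool.Agent.FCF

open Pool.Agent.VSC (V J LowJet)
open Set Metric Filter Topology

/-- The points which are fine at all scales `≥ r0`. -/
def Gd (p : Par) (c : V → ℝ) (r0 : ℝ) : Set V := {x | ∀ r : ℝ, r0 ≤ r → p.fine c x r}

theorem Par.one_le_C3 (p : Par) : 1 ≤ p.C3 := by
  have h1 := p.hM
  have h2 := p.hsig
  have h3 : 4 ≤ p.C1 := by
    unfold Par.C1 Par.M1
    have : 0 ≤ (2 * p.M + 4) * p.sig := mul_nonneg (by linarith) (by linarith)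
    linarith
  unfold Par.C3
  nlinarith

/-- Lipschitz bound at the points of `Gd` (for `T = TE` or `TO`: `Canon.clE`, `Canon.clO`). -/
theorem gd_lip {p : Par} {c : V → ℝ} {T : V → ℝ} {C : ℝ}
    (hcl : ∀ x r, 1 ≤ r → p.fine c x r → C ≤ r →
      ∀ y z, ‖y - x‖ < 9 * r → ‖z - x‖ < 9 * r → |T y - T z| ≤ p.C3 * r)
    {r0 : ℝ} (h1 : 1 ≤ r0) (hC : C ≤ r0) {x : V} (hx : x ∈ Gd p c r0) (y : V) :
    |T x - T y| ≤ p.C3 * max ‖x - y‖ r0 := by
  have hC3 := p.one_le_C3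
  set r := max (‖x - y‖ / 8) r0 with hr
  have hr0 : r0 ≤ r := le_max_right _ _
  have hr8 : ‖x - y‖ / 8 ≤ r := le_max_left _ _
  have hrpos : 0 < r := by linarith
  have h2 : |T x - T y| ≤ p.C3 * r := by
    refine hcl x r (by linarith) (hx r hr0) (by linarith) x y ?_ ?_
    · rw [sub_self, norm_zero]
      linarith
    · rw [norm_sub_rev]
      linarith
  refine h2.trans (mul_le_mul_of_nonneg_left ?_ (by linarith))
  refine max_le ((?_ : ‖x - y‖ / 8 ≤ ‖x - y‖).trans (le_max_left _ _)) (le_max_right _ _)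
  have := norm_nonneg (x - y)
  linarith

/-- The Lipschitz regularisation of an arrival function. -/
theorem exists_reg {p : Par} {c : V → ℝ} {T : V → ℝ} {C : ℝ} (hT0 : ∀ x, 0 ≤ T x)
    (hcl : ∀ x r, 1 ≤ r → p.fine c x r → C ≤ r →
      ∀ y z, ‖y - x‖ < 9 * r → ‖z - x‖ < 9 * r → |T y - T z| ≤ p.C3 * r)
    {r0 : ℝ} (h1 : 1 ≤ r0) (hC : C ≤ r0) (hne : (Gd p c r0).Nonempty) :
    ∃ Tt : V → ℝ, (∀ x y, |Tt x - Tt y| ≤ p.C3 * ‖x - y‖) ∧
      (∀ x ∈ Gd p c r0, Tt x ≤ T x ∧ T x ≤ Tt x + p.C3 * r0) ∧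
      (∀ x, ∀ a : ℝ, (∀ y ∈ Gd p c r0, a ≤ T y + p.C3 * ‖x - y‖) → a ≤ Tt x) := by
  have hC3 := p.one_le_C3
  have hC30 : 0 ≤ p.C3 := by linarith
  set s : V → Set ℝ := fun x => (fun y => T y + p.C3 * ‖x - y‖) '' Gd p c r0 with hs
  have hsne : ∀ x, (s x).Nonempty := fun x => hne.image _
  have hsbd : ∀ x, BddBelow (s x) := by
    intro x
    refine ⟨0, ?_⟩
    rintro _ ⟨y, -, rfl⟩
    have h2 := hT0 y
    have h3 : 0 ≤ p.C3 * ‖x - y‖ := mul_nonneg hC30 (norm_nonneg _)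
    simp only
    linarith
  have hlow : ∀ x, ∀ a : ℝ, (∀ y ∈ Gd p c r0, a ≤ T y + p.C3 * ‖x - y‖) → a ≤ sInf (s x) := by
    intro x a ha
    refine le_csInf (hsne x) ?_
    rintro _ ⟨y, hy, rfl⟩
    exact ha y hy
  have hup : ∀ x, ∀ y ∈ Gd p c r0, sInf (s x) ≤ T y + p.C3 * ‖x - y‖ := by
    intro x y hy
    exact csInf_le (hsbd x) ⟨y, hy, rfl⟩
  have hlip : ∀ x y, sInf (s x) - sInf (s y) ≤ p.C3 * ‖x - y‖ := by
    intro x y
    have h2 : sInf (s x) - p.C3 * ‖x - y‖ ≤ sInf (s y) := by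
      refine hlow y _ fun z hz => ?_
      have h3 := hup x z hz
      have h4 : ‖x - z‖ ≤ ‖x - y‖ + ‖y - z‖ := norm_sub_le_norm_sub_add_norm_sub x y z
      have h5 := mul_le_mul_of_nonneg_left h4 hC30
      linarith
    linarith
  refine ⟨fun x => sInf (s x), fun x y => ?_, fun x hx => ⟨?_, ?_⟩, hlow⟩
  · rw [abs_le]
    have h2 := hlip x y
    have h3 := hlip y x
    rw [norm_sub_rev y x] at h3
    constructor
    · linarith
    · linarith
  · have h2 := hup x x hx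
    rw [sub_self, norm_zero, mul_zero, add_zero] at h2
    exact h2
  · have h2 : T x - p.C3 * r0 ≤ sInf (s x) := by
      refine hlow x _ fun y _ => ?_
      have h3 := (abs_le.1 (gd_lip hcl h1 hC hx y)).2
      have h4 : max ‖x - y‖ r0 ≤ ‖x - y‖ + r0 :=
        max_le (by linarith) (by have := norm_nonneg (x - y); linarith)
      have h5 := mul_le_mul_of_nonneg_left h4 hC30
      linarith
    linarith

end Pool.Agent.FCF
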