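import Pool.Agent.FCF.WinMono
import Pool.Agent.FCF.WinReg
import Pool.Agent.FCF.WinRec
import Pool.Agent.FCF.FlowBasic
import Pool.Agent.FCF.EnvEvent

/-!
# FCF / WinLat: lattice points and volume

The ergodic theorem (chunk ERG) is a hypothesis here: `ErgR μ C0` = conclusion of `erg_rect` for `μ`.

PROOFS.
* `card_le_volume`: the unit cubes `Q m = {x | ∀ i, gp m i ≤ x i < gp m i + 1}` are measurable, disjoint, of volume `1` (`EuclideanSpace.volume_preserving_symm_measurableEquiv_toLp` or the like, `Real.volume_pi_Ico`),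
  contained in `S`: `Z.card = ∑ volume (Q m) = volume (⋃ ...) ≤ volume S`.
* `gdens_ae`: `μ`-a.e. `c` satisfies `erg_rect` for all sets `Gplus P eps del k J` (closed, hence measurable), `P ∈ RatV`, rational `eps, del` (`0 ≤ eps` not needed), all `k J`, with
  `e = (1,0)`, `a = b = 1` (countably many). If `shift (gp m) c ∈ Gc` and `x` is in the unit cube of `m` then `‖gp m - x‖ ≤ 2` and `shift (gp m - x) (shift x c) = shift (gp m) c`, so
  `shift x c ∈ Gplus`. Cubes of `m ∈ Z` (`|gp m i| ≤ R`) are in `{|x i| ≤ R + 1}`. So `card Z ≤ (C0 μ(Gplus) + th/2)(R+1)^2 ≤ (C0 μ(Gplus) + th) R^2` for `R` large (`μ ≤ 1`).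
  (`inner x (J e) = ± x 1`, `inner x e = x 0`.)
* `gd_density`: `BadRect` with `eta = 1`, `K = C = 2`, `rho = r1 ≥ rho0`: if `gp m ∉ Gd p c r1` there is `r' ≥ r1` with `¬ fine c (gp m) r'`, hence `¬ fine1 c (gp m) r'`
  (`fine1 → fine`: `E_mono_force`, larger constant), and every `x` in the unit cube of `m` has `Bad p c r1 r1 x` (`‖gp m - x‖ ≤ 2 ≤ 3 r1`).
  `card Z ≤ volume {|x.Je| ≤ 2 R, |x.e| ≤ 2R, Bad} ≤ del' 4 R^2`.
-/

set_option autoImplicit false

namespace Pool.Agent.FCF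

open Pool.Agent.VSC (V J LowJet)
open Set Metric MeasureTheory Filter Topology EnvT

/-- Conclusion of the theorem `erg_rect` (chunk ERG). -/
def ErgR {M L : ℝ} (μ : Measure (EnvT M L)) (C0 : ℝ) : Prop :=
  ∀ B : Set (EnvT M L), MeasurableSet B → ∀ (e : V) (a b : ℝ), ‖e‖ = 1 → 0 < a → 0 < b →
    ∀ᵐ c ∂μ, ∀ del : ℝ, 0 < del → ∃ R0 : ℝ, ∀ R : ℝ, R0 ≤ R →
      volume {x : V | |inner ℝ x (J e)| ≤ a * R ∧ |inner ℝ x e| ≤ b * R ∧ shift x c ∈ B}
        ≤ ENNReal.ofReal ((C0 * (μ B).toReal + del) * (a * R) * (b * R))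

private theorem WinLat_gp0 (m : ℤ × ℤ) : gp m 0 = (m.1 : ℝ) := rfl

private theorem WinLat_gp1 (m : ℤ × ℤ) : gp m 1 = (m.2 : ℝ) := rfl

private theorem WinLat_meas (m : ℤ × ℤ) :
    MeasurableSet {x : V | ∀ i, gp m i ≤ x i ∧ x i < gp m i + 1} := by
  have h : {x : V | ∀ i, gp m i ≤ x i ∧ x i < gp m i + 1} =
      (MeasurableEquiv.toLp 2 (Fin 2 → ℝ)).symm ⁻¹'
        (Set.pi univ fun i => Ico (gp m i) (gp m i + 1)) := by
    ext x
    simp only [mem_ofPred_eq, mem_preimage, Set.mem_pi, mem_univ, true_implies, mem_Ico,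
      MeasurableEquiv.coe_toLp_symm]
  rw [h]
  exact (MeasurableEquiv.toLp 2 (Fin 2 → ℝ)).symm.measurable
    (MeasurableSet.univ_pi fun i => measurableSet_Ico)

private theorem WinLat_vol (m : ℤ × ℤ) :
    volume {x : V | ∀ i, gp m i ≤ x i ∧ x i < gp m i + 1} = 1 := by
  have h : {x : V | ∀ i, gp m i ≤ x i ∧ x i < gp m i + 1} =
      (MeasurableEquiv.toLp 2 (Fin 2 → ℝ)).symm ⁻¹'
        (Set.pi univ fun i => Ico (gp m i) (gp m i + 1)) := by
    ext x
    simp only [mem_ofPred_eq, mem_preimage, Set.mem_pi, mem_univ, true_implies, mem_Ico,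
      MeasurableEquiv.coe_toLp_symm]
  rw [h, (EuclideanSpace.volume_preserving_symm_measurableEquiv_toLp (Fin 2)).measure_preimage
    (MeasurableSet.univ_pi fun i => measurableSet_Ico).nullMeasurableSet, Real.volume_pi_Ico,
    Fin.prod_univ_two]
  simp

theorem card_le_volume {Z : Finset (ℤ × ℤ)} {S : Set V}
    (h : ∀ m ∈ Z, ∀ x : V, (∀ i, gp m i ≤ x i ∧ x i < gp m i + 1) → x ∈ S) :
    (Z.card : ENNReal) ≤ volume S := by
  classical
  have hd : Set.PairwiseDisjoint (↑Z)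
      (fun m : ℤ × ℤ => {x : V | ∀ i, gp m i ≤ x i ∧ x i < gp m i + 1}) := by
    intro m _ m' _ hmm
    rw [Function.onFun, Set.disjoint_left]
    intro x hx hx'
    apply hmm
    have a0 := hx 0
    have a1 := hx 1
    have b0 := hx' 0
    have b1 := hx' 1
    rw [WinLat_gp0] at a0 b0
    rw [WinLat_gp1] at a1 b1
    have c0 : ⌊x 0⌋ = m.1 := Int.floor_eq_iff.2 a0
    have c0' : ⌊x 0⌋ = m'.1 := Int.floor_eq_iff.2 b0
    have c1 : ⌊x 1⌋ = m.2 := Int.floor_eq_iff.2 a1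
    have c1' : ⌊x 1⌋ = m'.2 := Int.floor_eq_iff.2 b1
    exact Prod.ext (c0.symm.trans c0') (c1.symm.trans c1')
  have h1 := measure_biUnion_finset (μ := (volume : Measure V)) hd (fun m _ => WinLat_meas m)
  have h2 : (Z.card : ENNReal) =
      ∑ m ∈ Z, volume {x : V | ∀ i, gp m i ≤ x i ∧ x i < gp m i + 1} := by
    rw [Finset.sum_congr rfl (fun m _ => WinLat_vol m)]
    simp
  rw [h2, ← h1]
  refine measure_mono (iUnion₂_subset fun m hm x hx => h m hm x hx)

private noncomputable def WinLat_e : V := !₂[(1 : ℝ), 0]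

private theorem WinLat_norm_e : ‖WinLat_e‖ = 1 := by
  rw [EuclideanSpace.norm_eq, Real.sqrt_eq_one, Fin.sum_univ_two]
  simp [WinLat_e]

private theorem WinLat_inner (x : V) : (inner ℝ x WinLat_e : ℝ) = x 0 := by
  rw [PiLp.inner_apply, Fin.sum_univ_two]
  simp [WinLat_e]

private theorem WinLat_inner_J (x : V) : (inner ℝ x (J WinLat_e) : ℝ) = x 1 := by
  rw [PiLp.inner_apply, Fin.sum_univ_two, Pool.Agent.VSC.J_zero_apply,
    Pool.Agent.VSC.J_one_apply]
  simp [WinLat_e]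

private theorem WinLat_cube {m : ℤ × ℤ} {x : V} (hx : ∀ i, gp m i ≤ x i ∧ x i < gp m i + 1) :
    ‖gp m - x‖ ≤ 2 := by
  have h0 := hx 0
  have h1 := hx 1
  rw [EuclideanSpace.norm_eq, Real.sqrt_le_left (by norm_num)]
  simp only [Fin.sum_univ_two, PiLp.sub_apply, Real.norm_eq_abs, sq_abs]
  nlinarith [h0.1, h0.2, h1.1, h1.2]

private theorem WinLat_abs {m : ℤ × ℤ} {x : V} {R : ℝ} (hm : ∀ i, |gp m i| ≤ R)
    (hx : ∀ i, gp m i ≤ x i ∧ x i < gp m i + 1) (i : Fin 2) : |x i| ≤ R + 1 := by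
  have h1 := abs_le.1 (hm i)
  have h2 := hx i
  rw [abs_le]
  constructor <;> linarith [h1.1, h1.2, h2.1, h2.2]

private theorem WinLat_card {n : ℕ} {a : ℝ} (ha : 0 ≤ a) (h : (n : ENNReal) ≤ ENNReal.ofReal a) :
    (n : ℝ) ≤ a := by
  rwa [← ENNReal.ofReal_natCast, ENNReal.ofReal_le_ofReal_iff ha] at h

theorem gdens_ae {M L : ℝ} {μ : Measure (EnvT M L)} (hμ : Erg μ) {p : Par} {C0 : ℝ}
    (hC0 : 0 < C0) (herg : ErgR μ C0) : ∀ᵐ c ∂μ, GDens μ p C0 c := by
  have := hμ.prob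
  have key : ∀ᵐ c ∂μ, ∀ P ∈ RatV, ∀ (eps del : ℚ) (k J' : ℕ), ∀ th : ℝ, 0 < th → ∃ R0 : ℝ,
      ∀ R : ℝ, R0 ≤ R → volume {x : V | |inner ℝ x (J WinLat_e)| ≤ 1 * R ∧
        |inner ℝ x WinLat_e| ≤ 1 * R ∧
          shift x c ∈ Gplus M L p P (eps : ℝ) (del : ℝ) k J'}
        ≤ ENNReal.ofReal ((C0 * (μ (Gplus M L p P (eps : ℝ) (del : ℝ) k J')).toReal + th)
            * (1 * R) * (1 * R)) := by
    refine (ae_ball_iff countable_RatV).2 fun P _ => ae_all_iff.2 fun eps => ae_all_iff.2 fun del =>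
      ae_all_iff.2 fun k => ae_all_iff.2 fun J' => ?_
    exact herg _ isClosed_Gplus.measurableSet WinLat_e 1 1 WinLat_norm_e one_pos one_pos
  filter_upwards [key] with c hc
  intro P hP eps del k J' th hth
  obtain ⟨R0, hR0⟩ := hc P hP eps del k J' (th / 2) (by positivity)
  set A : ℝ := C0 * (μ (Gplus M L p P (eps : ℝ) (del : ℝ) k J')).toReal with hA
  have hA0 : 0 ≤ A := mul_nonneg hC0.le ENNReal.toReal_nonneg
  refine ⟨max (max R0 1) (6 * (A + th / 2) / th), fun R hR Z hZ => ?_⟩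
  have hR1 : R0 ≤ R := ((le_max_left _ _).trans (le_max_left _ _)).trans hR
  have hR2 : 1 ≤ R := ((le_max_right _ _).trans (le_max_left _ _)).trans hR
  have hR3 : 6 * (A + th / 2) ≤ R * th := by
    have := (le_max_right _ _).trans hR
    rwa [div_le_iff₀ hth] at this
  have h1 := hR0 (R + 1) (by linarith)
  have h2 : (Z.card : ENNReal) ≤ volume {x : V | |inner ℝ x (J WinLat_e)| ≤ 1 * (R + 1) ∧
        |inner ℝ x WinLat_e| ≤ 1 * (R + 1) ∧
          shift x c ∈ Gplus M L p P (eps : ℝ) (del : ℝ) k J'} := by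
    refine card_le_volume fun m hm x hx => ⟨?_, ?_, ?_⟩
    · rw [WinLat_inner_J, one_mul]
      exact WinLat_abs (hZ m hm).1 hx 1
    · rw [WinLat_inner, one_mul]
      exact WinLat_abs (hZ m hm).1 hx 0
    · refine ⟨gp m - x, WinLat_cube hx, ?_⟩
      rw [shift_add, add_sub_cancel]
      exact (hZ m hm).2
  have h3 := WinLat_card (by positivity) (h2.trans h1)
  refine h3.trans ?_
  have h4 : (A + th / 2) * (3 * R) ≤ th / 2 * R ^ 2 := by nlinarith
  nlinarith

/-- The lattice points outside `Gd` have small density in large centred squares. -/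
theorem gd_density {p : Par} {c : V → ℝ} (hb : BadRect p c) (henv : p.Env c) {del : ℝ}
    (hdel : 0 < del) : ∃ r0 : ℝ, 1 ≤ r0 ∧ ∀ r1 : ℝ, r0 ≤ r1 → ∃ R0 : ℝ, ∀ R : ℝ, R0 ≤ R →
      ∀ Z : Finset (ℤ × ℤ), (∀ m ∈ Z, (∀ i, |gp m i| ≤ R) ∧ gp m ∉ Gd p c r1) →
        (Z.card : ℝ) ≤ del * R ^ 2 := by
  obtain ⟨rho0, hrho⟩ := hb (del / 4) (by positivity) 1 one_pos
  refine ⟨max rho0 1, le_max_right _ _, fun r1 hr1 => ?_⟩
  have hr1' : 1 ≤ r1 := (le_max_right _ _).trans hr1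
  obtain ⟨R0, hR0⟩ := hrho r1 ((le_max_left _ _).trans hr1) WinLat_e WinLat_norm_e 2 2
    one_le_two one_le_two
  refine ⟨max R0 1, fun R hR Z hZ => ?_⟩
  have hR1 : R0 ≤ R := (le_max_left _ _).trans hR
  have hR2 : 1 ≤ R := (le_max_right _ _).trans hR
  have h2 : (Z.card : ENNReal) ≤ volume {x : V | |inner ℝ x (J WinLat_e)| ≤ 2 * R ∧
        |inner ℝ x WinLat_e| ≤ 2 * R ∧ Bad p c r1 (1 * r1) x} := by
    refine card_le_volume fun m hm x hx => ⟨?_, ?_, ?_⟩
    · rw [WinLat_inner_J]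
      exact (WinLat_abs (hZ m hm).1 hx 1).trans (by linarith)
    · rw [WinLat_inner]
      exact (WinLat_abs (hZ m hm).1 hx 0).trans (by linarith)
    · refine ⟨gp m, (WinLat_cube hx).trans (by linarith), ?_⟩
      have h3 := (hZ m hm).2
      simp only [Gd, mem_ofPred_eq, not_forall] at h3
      obtain ⟨r', hr', h4⟩ := h3
      refine ⟨r', by rwa [one_mul], fun h5 => h4 ?_⟩
      intro z hz
      have hF : ∀ x, frc c p.F' x ≤ frc c p.F x := by
        intro x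
        have := p.hF
        simp only [frc]
        linarith
      refine (h5 z (hz.trans ?_)).trans (E_mono_force hF _ _)
      have : 0 ≤ r' := by linarith
      nlinarith
  have h3 := WinLat_card (by positivity) (h2.trans (hR0 R hR1))
  refine h3.trans (le_of_eq ?_)
  ring

end Pool.Agent.FCF
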