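import Pool.Agent.FCF.WinDefs
import Pool.Agent.FCF.EnvTop
import Pool.Agent.FCF.SubBasic

/-!
# FCF / WinMono: monotonicity of the window events

PROOFS.
* `Win.mono`: `sub`: `SubIn.restrict` (`oc J' ⊆ oc J`); `dens`: fewer `j`, larger `del`; `plan`:
  `|inner (P - P') (z - gp n)| ≤ ‖P - P'‖ ‖z - gp n‖ ≤ ‖P - P'‖ max ‖z - gp n‖ (2^k')` and
  `eps max ‖..‖ (2^k) ≤ eps max ‖..‖ (2^k')` (`0 ≤ eps`); `cl`: the balls in `oc J'` are in `oc J`.
* `Gc_mono` = `closure_mono`.  `Gplus`, `Ghat`: immediate.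
* `isClosed_Gplus`: projection along the compact ball `{‖y‖ ≤ 2}` of the closed set
  `{(y,c) | shift y c ∈ Gc}` (`continuous_shift`, `IsCompact.isClosed_image`/ `isClosedMap_snd_of_compactSpace`;
  or with sequences, `EnvT` is metrisable).
* `iInter_Gplus`: if `c ∈ Gplus J` for all `J ≥ k`, choose `y_J` and a limit point `y` (`‖y‖ ≤ 2`);
  `shift y_J' c ∈ Gc J' ⊆ Gc J` for `J' ≥ J`, `Gc J` closed, `continuous_shift_left`.
* `shift_mem`: translations: `shift y (shift z c) = shift (z + y) c`.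
-/

set_option autoImplicit false

namespace Pool.Agent.FCF

open Pool.Agent.VSC (V J LowJet)
open Set Metric MeasureTheory Filter Topology EnvT

private theorem WinMono_oc {J J' : ℕ} (h : J' ≤ J) : oc J' ⊆ oc J := by
  intro z hz i
  exact lt_of_lt_of_le (hz i) (pow_le_pow_right₀ (by norm_num) h)

theorem Win.mono {p : Par} {b : Bool} {h : V → ℝ} {fi fi' : V → ℝ → Prop} {P P' : V}
    {eps eps' del del' : ℝ} {k k' J J' : ℕ} {T : V → ℝ} {Y : Set (ℤ × ℤ)}
    (hw : Win p b h fi P eps del k J T Y) (he0 : 0 ≤ eps) (hJ : J' ≤ J) (hk : k ≤ k')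
    (heps : eps + ‖P - P'‖ ≤ eps') (hdel : del ≤ del') (hfi : ∀ x r, fi' x r → fi x r) :
    Win p b h fi' P' eps' del' k' J' T Y := by
  have hsub := WinMono_oc hJ
  refine ⟨fun t0 => (hw.sub t0).restrict hsub le_rfl, fun j h1 h2 => ?_, fun n hn hnJ z hz => ?_,
    fun x r hr hb hf => hw.cl x r hr (hb.trans hsub) (hfi x r hf)⟩
  · refine (hw.dens j (by omega) (by omega)).trans ?_
    exact mul_le_mul_of_nonneg_right hdel (by positivity)
  · have h1 := hw.plan n hn (hsub hnJ) z (hsub hz)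
    have h2 : T z - T (gp n) - inner ℝ P' (z - gp n) =
        (T z - T (gp n) - inner ℝ P (z - gp n)) + inner ℝ (P - P') (z - gp n) := by
      rw [inner_sub_left]; ring
    have h3 : |(inner ℝ (P - P') (z - gp n) : ℝ)| ≤ ‖P - P'‖ * ‖z - gp n‖ :=
      abs_real_inner_le_norm _ _
    have hpow : (2 : ℝ) ^ k ≤ 2 ^ k' := pow_le_pow_right₀ (by norm_num) hk
    set m : ℝ := max ‖z - gp n‖ (2 ^ k') with hm
    have hm1 : ‖z - gp n‖ ≤ m := le_max_left _ _
    have hm2 : max ‖z - gp n‖ (2 ^ k) ≤ m := max_le_max le_rfl hpow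
    have hm0 : 0 ≤ m := (norm_nonneg _).trans hm1
    rw [h2]
    calc |(T z - T (gp n) - inner ℝ P (z - gp n)) + inner ℝ (P - P') (z - gp n)|
        ≤ |T z - T (gp n) - inner ℝ P (z - gp n)| + |(inner ℝ (P - P') (z - gp n) : ℝ)| :=
          abs_add_le _ _
      _ ≤ eps * m + ‖P - P'‖ * m := by
          refine add_le_add (h1.trans (mul_le_mul_of_nonneg_left hm2 he0)) (h3.trans ?_)
          exact mul_le_mul_of_nonneg_left hm1 (norm_nonneg _)
      _ = (eps + ‖P - P'‖) * m := by ring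
      _ ≤ eps' * m := mul_le_mul_of_nonneg_right heps hm0

theorem WinG.mono {p : Par} {c : V → ℝ} {P P' : V} {eps eps' del del' : ℝ} {k k' J J' : ℕ}
    (hw : WinG p c P eps del k J) (he0 : 0 ≤ eps) (hJ : J' ≤ J) (hk : k ≤ k')
    (heps : eps + ‖P - P'‖ ≤ eps') (hdel : del ≤ del') : WinG p c P' eps' del' k' J' := by
  intro b
  obtain ⟨T, Y, h⟩ := hw b
  exact ⟨T, Y, h.mono he0 hJ hk heps hdel fun _ _ h => h⟩

theorem WinP.mono {p : Par} {c : V → ℝ} {P P' : V} {eps eps' del del' : ℝ} {k k' J J' : ℕ}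
    (hw : WinP p c P eps del k J) (he0 : 0 ≤ eps) (hJ : J' ≤ J) (hk : k ≤ k')
    (heps : eps + ‖P - P'‖ ≤ eps') (hdel : del ≤ del') : WinP p c P' eps' del' k' J' := by
  intro b
  obtain ⟨T, Y, h⟩ := hw b
  exact ⟨T, Y, h.mono he0 hJ hk heps hdel fun _ _ h => h⟩

section

variable {M L : ℝ} {p : Par} {P P' : V} {eps eps' del del' : ℝ} {k k' J J' : ℕ}

theorem isClosed_Gc : IsClosed (Gc M L p P eps del k J) := isClosed_closure

theorem Gc_mono (he0 : 0 ≤ eps) (hJ : J' ≤ J) (hk : k ≤ k') (heps : eps + ‖P - P'‖ ≤ eps')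
    (hdel : del ≤ del') : Gc M L p P eps del k J ⊆ Gc M L p P' eps' del' k' J' := by
  exact closure_mono fun c hc => WinG.mono hc he0 hJ hk heps hdel

theorem Gplus_mono (he0 : 0 ≤ eps) (hJ : J' ≤ J) (hk : k ≤ k') (heps : eps + ‖P - P'‖ ≤ eps')
    (hdel : del ≤ del') : Gplus M L p P eps del k J ⊆ Gplus M L p P' eps' del' k' J' := by
  rintro c ⟨y, hy, h⟩
  exact ⟨y, hy, Gc_mono he0 hJ hk heps hdel h⟩

theorem Ghat_mono (he0 : 0 ≤ eps) (hk : k ≤ k') (heps : eps + ‖P - P'‖ ≤ eps')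
    (hdel : del ≤ del') : Ghat M L p P eps del k ⊆ Ghat M L p P' eps' del' k' := by
  intro c hc J hJ
  exact Gc_mono he0 le_rfl hk heps hdel (hc J (le_trans hk hJ))

theorem isClosed_Ghat : IsClosed (Ghat M L p P eps del k) := by
  have h : Ghat M L p P eps del k = ⋂ J : ℕ, ⋂ _ : k ≤ J, Gc M L p P eps del k J := by
    ext c
    simp [Ghat]
  rw [h]
  exact isClosed_iInter fun J => isClosed_iInter fun _ => isClosed_Gc

theorem isClosed_Gplus : IsClosed (Gplus M L p P eps del k J) := by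
  have h : Gplus M L p P eps del k J = Prod.snd '' ((closedBall (0 : V) 2 ×ˢ univ) ∩
      (fun q : V × EnvT M L => shift q.1 q.2) ⁻¹' Gc M L p P eps del k J) := by
    ext c
    constructor
    · rintro ⟨y, hy, hc⟩
      exact ⟨(y, c), ⟨⟨mem_closedBall_zero_iff.2 hy, mem_univ _⟩, hc⟩, rfl⟩
    · rintro ⟨⟨y, c'⟩, ⟨⟨hy, _⟩, hc⟩, rfl⟩
      exact ⟨y, mem_closedBall_zero_iff.1 hy, hc⟩
  rw [h]
  have hcomp : IsCompact (closedBall (0 : V) 2 ×ˢ (univ : Set (EnvT M L))) :=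
    (isCompact_closedBall _ _).prod isCompact_univ
  have h2 : IsCompact ((closedBall (0 : V) 2 ×ˢ univ) ∩
      (fun q : V × EnvT M L => shift q.1 q.2) ⁻¹' Gc M L p P eps del k J) :=
    hcomp.inter_right (isClosed_Gc.preimage continuous_shift)
  exact (h2.image continuous_snd).isClosed

/-- The intersection of the decreasing closed events `Gplus`. -/
theorem iInter_Gplus (he0 : 0 ≤ eps) : {c : EnvT M L | ∀ J : ℕ, k ≤ J → c ∈ Gplus M L p P eps del k J} ⊆
    {c | ∃ y : V, shift y c ∈ Ghat M L p P eps del k} := by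
  intro c hc
  have h1 : ∀ n : ℕ, ∃ y : V, ‖y‖ ≤ 2 ∧ shift y c ∈ Gc M L p P eps del k (k + n) :=
    fun n => hc (k + n) (Nat.le_add_right k n)
  choose y hy1 hy2 using h1
  obtain ⟨y0, _, φ, hφ, hlim⟩ := (isCompact_closedBall (0 : V) 2).tendsto_subseq
    (fun n => mem_closedBall_zero_iff.2 (hy1 n))
  refine ⟨y0, fun J hJ => ?_⟩
  have h2 : Tendsto (fun n => shift (y (φ n)) c) atTop (𝓝 (shift y0 c)) :=
    ((continuous_shift_left c).tendsto y0).comp hlim
  refine isClosed_Gc.mem_of_tendsto h2 ?_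
  filter_upwards [eventually_ge_atTop J] with n hn
  have h3 : J ≤ k + φ n := by
    have := hφ.id_le n
    simp only [id] at this
    omega
  exact Gc_mono he0 h3 le_rfl (by simp) le_rfl (hy2 (φ n))

end

end Pool.Agent.FCF
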