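import Pool.Agent.FCF.WinClos
import Pool.Agent.FCF.WinRec

/-!
# FCF / WinTyp: typical environments have windows for all slopes of `P0`

PROOF. For `P' ∈ RatV`, rational `eps', del' > 0` and `k` let `A` be the event `∃ y, shift y c ∈ Ghat P' eps' del' k`. The typical `c` lies in every such `A` which has full measure
(countably many: `ae_all_iff`, `ae_ball_iff` with `countable_RatV`; for fixed data: `(∀ᵐ c, c ∈ A) → c ∈ A` holds a.e. in both cases).
Given `P ∈ P0`, `eps, del > 0`: let `del1 = min del (1/2)`, rational `0 < del' ≤ del1`, rational `eps'` with `eps/8 ≤ ... `: take `P' ∈ RatV` with `‖P - P'‖ ≤ eps/16`, a rational `eps'` with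
`eps/8 ≤ eps' ≤ eps/4`; `P ∈ P0` with `(eps/16, del')`: `k1`, almost surely some shift in `Ghat P (eps/16) del' k1 ⊆ Ghat P' eps' del' k1`. So the typical `c` has `y` with `shift y c ∈ Ghat P' eps' del' k1`, by
`winP_of_mem_Gc` `WinP p (shift y c) P' (2 eps') del' k1 J` for all `J ≥ k1`; `WinP.mono`: `2 eps' + ‖P' - P‖ ≤ eps`, `del' ≤ del`, `k1 ≤ k`. `x0 = y`.
-/

set_option autoImplicit false

namespace Pool.Agent.FCF

open Pool.Agent.VSC (V J LowJet)
open Set Metric MeasureTheory Filter Topology EnvT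

theorem win_ae {M L : ℝ} {μ : Measure (EnvT M L)} {p : Par} (henv : ∀ c : EnvT M L, p.Env c.1) :
    ∀ᵐ c ∂μ, ∀ P ∈ P0set μ p, ∀ eps : ℝ, 0 < eps → ∀ del : ℝ, 0 < del → ∃ k1 : ℕ, ∀ k : ℕ,
      k1 ≤ k → ∃ x0 : V, ∀ J : ℕ, k ≤ J → WinP p (fun x => c.1 (x0 + x)) P eps del k J := by
  have key : ∀ᵐ c ∂μ, ∀ P' ∈ RatV, ∀ (e d : ℚ) (k : ℕ),
      (∀ᵐ c ∂μ, ∃ y : V, shift y c ∈ Ghat M L p P' (e : ℝ) (d : ℝ) k) →
        ∃ y : V, shift y c ∈ Ghat M L p P' (e : ℝ) (d : ℝ) k := by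
    refine (ae_ball_iff countable_RatV).2 fun P' _ => ae_all_iff.2 fun e => ae_all_iff.2 fun d =>
      ae_all_iff.2 fun k => ?_
    by_cases h : ∀ᵐ c ∂μ, ∃ y : V, shift y c ∈ Ghat M L p P' (e : ℝ) (d : ℝ) k
    · filter_upwards [h] with c hc _ using hc
    · exact Eventually.of_forall fun c hh => absurd hh h
  filter_upwards [key] with c hc P hP eps heps del hdel
  obtain ⟨d, hd0, hd1⟩ := exists_rat_btwn (show (0 : ℝ) < min del (1 / 2) by positivity)
  obtain ⟨e, he0, he1⟩ := exists_rat_btwn (show eps / 8 < eps / 4 by linarith)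
  obtain ⟨P', hP', hPP'⟩ := dense_RatV.exists_dist_lt P (show 0 < eps / 16 by positivity)
  rw [dist_eq_norm] at hPP'
  obtain ⟨k1, hk1⟩ := hP (eps / 16) (by positivity) (d : ℝ) (by exact_mod_cast hd0)
  have h1 : ∀ᵐ c ∂μ, ∃ y : V, shift y c ∈ Ghat M L p P' (e : ℝ) (d : ℝ) k1 := by
    filter_upwards [hk1] with c ⟨y, hy⟩
    exact ⟨y, Ghat_mono (by positivity) le_rfl (by linarith) le_rfl hy⟩
  obtain ⟨y, hy⟩ := hc P' hP' e d k1 h1
  have hdel1 : (d : ℝ) ≤ del := (hd1.trans_le (min_le_left _ _)).le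
  have hdel2 : (d : ℝ) < 1 := by
    have := hd1.trans_le (min_le_right del (1 / 2))
    linarith
  refine ⟨k1, fun k hk => ⟨y, fun J hJ => ?_⟩⟩
  have h2 : WinP p (shift y c).1 P' (2 * (e : ℝ)) (d : ℝ) k1 J :=
    winP_of_mem_Gc henv (by linarith) hdel2 (hk.trans hJ) (hy J (hk.trans hJ))
  refine h2.mono (by linarith) le_rfl hk ?_ hdel1
  rw [norm_sub_rev]
  linarith

end Pool.Agent.FCF
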